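import Pool.Agent.MVF.C011
import Pool.Agent.MVF.C012
import Pool.Agent.MVF.C029
import Pool.Agent.MVF.C030
import Pool.Agent.MVF.C031
import Pool.Agent.MVF.C048
import Pool.Agent.MVF.C049
import Pool.Agent.MVF.C055
import Pool.Agent.MVF.C093
import Pool.Agent.MVF.C094
import Pool.Agent.MVF.C104

/-! Parts: RI.ABS, RI.ABSH, RI.EXTACT, RI.INV, RI.MAINA, RI.NSN, RI.SQ, RI.STEP, RI.UNIT, RI.FinalA -/

section

/-!
# Relative Iwasawa theorem: module ABS
-/

open NumberField Finset

namespace Pool.Agent.RI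

namespace ABS

section hom

variable {M G D : Type} [CommGroup M] [Group G] [Group D] [Fintype D]
  [MulDistribMulAction G M] (ρ : D →* G) (g : G)

/-- The product of the conjugates under `D`. -/
noncomputable def nm : M →* M where
  toFun x := ∏ δ : D, ρ δ • x
  map_one' := by simp
  map_mul' a b := by simp only [smul_mul', Finset.prod_mul_distrib]

lemma nm_apply (x : M) : nm ρ x = ∏ δ : D, ρ δ • x := rfl

/-- The product of the first `n` conjugates under `g`. -/
noncomputable def ng (n : ℕ) : M →* M where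
  toFun x := ∏ i ∈ range n, g ^ i • x
  map_one' := by simp
  map_mul' a b := by simp only [smul_mul', Finset.prod_mul_distrib]

lemma ng_apply (n : ℕ) (x : M) : ng g n x = ∏ i ∈ range n, g ^ i • x := rfl

lemma smul_nm (δ : D) (x : M) : ρ δ • nm ρ x = nm ρ x := by
  rw [nm_apply, Finset.smul_prod']
  have h : ∀ ε : D, ρ δ • ρ ε • x = ρ (δ * ε) • x := fun ε => by
    rw [map_mul, mul_smul]
  simp only [h]
  exact Fintype.prod_equiv (Equiv.mulLeft δ) _ _ (fun ε => rfl)

lemma nm_nm (x : M) : nm ρ (nm ρ x) = nm ρ x ^ Fintype.card D := by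
  conv_lhs => rw [nm_apply]
  simp only [smul_nm, Finset.prod_const, Finset.card_univ]

lemma nm_comm (h : ∀ δ : D, ρ δ * g = g * ρ δ) (x : M) : nm ρ (g • x) = g • nm ρ x := by
  rw [nm_apply, nm_apply, Finset.smul_prod']
  refine Finset.prod_congr rfl fun δ _ => ?_
  rw [← mul_smul, ← mul_smul, h]

lemma nm_comm_pow (h : ∀ δ : D, ρ δ * g = g * ρ δ) (n : ℕ) (x : M) :
    nm ρ (g ^ n • x) = g ^ n • nm ρ x := by
  induction n generalizing x with
  | zero => simp
  | succ n ih => rw [pow_succ, mul_smul, mul_smul, ih, nm_comm ρ g h]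

/-- Projection to the kernel of the norm. -/
noncomputable def pr (x : M) : M := x ^ Fintype.card D / nm ρ x

lemma nm_pr (x : M) : nm ρ (pr ρ x) = 1 := by
  rw [pr, map_div, map_pow, nm_nm, div_self']

lemma pr_mul (x y : M) : pr ρ (x * y) = pr ρ x * pr ρ y := by
  rw [pr, pr, pr, mul_pow, map_mul, mul_div_mul_comm]

lemma pr_comm (h : ∀ δ : D, ρ δ * g = g * ρ δ) (x : M) : pr ρ (g • x) = g • pr ρ x := by
  rw [pr, pr, nm_comm ρ g h, smul_div', smul_pow']

lemma ng_fixed (n : ℕ) (hg : g ^ n = 1) (x : M) : g • ng g n x = ng g n x := by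
  rw [ng_apply, Finset.smul_prod']
  have h : ∀ i : ℕ, g • g ^ i • x = g ^ (i + 1) • x := fun i => by
    rw [pow_succ', mul_smul]
  simp only [h]
  have h1 := Finset.prod_range_succ (fun i => g ^ i • x) n
  have h2 := Finset.prod_range_succ' (fun i => g ^ i • x) n
  rw [h2] at h1
  simp only [hg, pow_zero] at h1
  exact mul_right_cancel h1

lemma nm_ng (h : ∀ δ : D, ρ δ * g = g * ρ δ) (n : ℕ) (x : M) (hx : nm ρ x = 1) :
    nm ρ (ng g n x) = 1 := by
  rw [ng_apply, map_prod]
  refine Finset.prod_eq_one fun i _ => ?_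
  rw [nm_comm_pow ρ g h, hx, smul_one]

end hom

section two

variable {A I G D : Type} [CommGroup A] [CommGroup I] [Group G] [Group D] [Fintype D]
  [MulDistribMulAction G A] [MulDistribMulAction G I] (ρ : D →* G) (g : G) (dv : A →* I)

lemma dv_nm (hdv : ∀ (σ : G) (x : A), dv (σ • x) = σ • dv x) (x : A) :
    dv (nm ρ x) = nm ρ (dv x) := by
  rw [nm_apply, nm_apply, map_prod]
  exact Finset.prod_congr rfl fun δ _ => hdv _ _

lemma dv_pr (hdv : ∀ (σ : G) (x : A), dv (σ • x) = σ • dv x) (x : A) :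
    dv (pr ρ x) = pr ρ (dv x) := by
  rw [pr, pr, map_div, map_pow, dv_nm ρ dv hdv]

lemma pow_smul_eq (hdv : ∀ (σ : G) (x : A), dv (σ • x) = σ • dv x) (c : I) (a : A)
    (h : g • c = c * dv a) (n : ℕ) : g ^ n • c = c * dv (ng g n a) := by
  induction n with
  | zero => simp [ng_apply]
  | succ n ih =>
    rw [pow_succ, mul_smul, h, smul_mul', ih, ← hdv, ng_apply, ng_apply,
      Finset.prod_range_succ, map_mul, mul_assoc]

/-- The main point: a class fixed by `g`, of norm `1`, has order prime to `p`. -/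
lemma claim (p : ℕ) (hD : (Fintype.card D).Coprime p) (hg : g ^ p = 1)
    (hcomm : ∀ δ : D, ρ δ * g = g * ρ δ)
    (hdv : ∀ (σ : G) (x : A), dv (σ • x) = σ • dv x)
    (h90 : ∀ x : A, ng g p x = 1 → ∃ y : A, x = y / g • y)
    (hinv : ∀ b : I, g • b = b → nm ρ b = 1 →
      ∃ m : ℕ, m.Coprime p ∧ ∃ γ : A, g • γ = γ ∧ b ^ m = dv γ)
    (hunit : ∀ e : A, dv e = 1 → g • e = e → nm ρ e = 1 →
      ∃ m : ℕ, m.Coprime p ∧ ∃ η : A, dv η = 1 ∧ e ^ m = ng g p η)
    (c₀ : I) (u : A) (hN : nm ρ c₀ = dv u) (a₀ : A) (h₀ : g • c₀ = c₀ * dv a₀) :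
    ∃ m : ℕ, m.Coprime p ∧ ∃ x : A, c₀ ^ m = dv x := by
  set d := Fintype.card D with hd
  set c := pr ρ c₀ with hc
  set a := pr ρ a₀ with ha
  have hNc : nm ρ c = 1 := nm_pr ρ c₀
  have hNa : nm ρ a = 1 := nm_pr ρ a₀
  have hgc : g • c = c * dv a := by
    rw [hc, ← pr_comm ρ g hcomm, h₀, pr_mul, ha, dv_pr ρ dv hdv]
  have he : dv (ng g p a) = 1 := by
    have := pow_smul_eq g dv hdv c a hgc p
    rw [hg, one_smul] at this
    exact (mul_eq_left.mp this.symm)
  obtain ⟨m, hm, η, hη, hη'⟩ := hunit _ he (ng_fixed g p hg a) (nm_ng ρ g hcomm p a hNa)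
  obtain ⟨y, hy⟩ := h90 (a ^ m / η) (by
    rw [map_div, map_pow, hη', div_self'])
  set b := c ^ m * dv y with hb
  have hgb : g • b = b := by
    rw [hb, smul_mul', smul_pow', hgc, ← hdv, mul_pow, mul_assoc, ← map_pow, ← map_mul]
    congr 1
    have : a ^ m * g • y = y * η := by
      have h1 : a ^ m = y / g • y * η := by rw [← hy, div_mul_cancel]
      rw [h1, mul_right_comm, div_mul_cancel]
    rw [this, map_mul, hη, mul_one]
  obtain ⟨m', hm', γ, -, hγ⟩ := hinv (pr ρ b) (by rw [← pr_comm ρ g hcomm, hgb]) (nm_pr ρ b)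
  refine ⟨d * m * d * m', ?_, ?_⟩
  · exact Nat.Coprime.mul_left (Nat.Coprime.mul_left (Nat.Coprime.mul_left hD hm) hD) hm'
  · -- `pr b = b ^ d / nm b`, `b = c ^ m * dv y`, `c = c₀ ^ d / dv u`
    have e1 : c₀ ^ d = c * dv u := by
      rw [hc, pr, ← hd, hN, div_mul_cancel]
    have e2 : b ^ d = pr ρ b * nm ρ b := by rw [pr, ← hd, div_mul_cancel]
    have e3 : nm ρ b = dv (nm ρ y) := by
      rw [hb, map_mul, map_pow, hNc, one_pow, one_mul, dv_nm ρ dv hdv]
    have e4 : c ^ m = b / dv y := by rw [hb, mul_div_cancel_right]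
    refine ⟨((nm ρ y) / y ^ d * (u ^ m) ^ d) ^ m' * γ, ?_⟩
    have e5 : (c₀ ^ (d * m * d)) = pr ρ b * dv ((nm ρ y) / y ^ d * (u ^ m) ^ d) := by
      rw [pow_mul, pow_mul, e1, mul_pow, e4, mul_pow, div_pow, e2, e3, map_mul, map_div,
        map_pow, map_pow, map_pow, mul_div_assoc, mul_assoc]
    rw [pow_mul, e5, mul_pow, hγ, map_mul dv (_ ^ m') γ, map_pow dv _ m', mul_comm]

end two

end ABS

open _root_.Pool.Agent.RI.ABS in
theorem ABS_thm : ABS := by
  intro p hp A I G D _ _ _ _ _ _ _ ρ g dv hD hg hcomm hdv h90 hinv hunit hfin c hc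
  classical
  -- the induced maps on the quotient
  have hst : ∀ σ : G, dv.range ≤ dv.range.comap (MulDistribMulAction.toMonoidHom I σ) := by
    rintro σ _ ⟨x, rfl⟩
    exact ⟨σ • x, hdv σ x⟩
  let act : G → (I ⧸ dv.range) →* (I ⧸ dv.range) := fun σ =>
    QuotientGroup.map dv.range dv.range (MulDistribMulAction.toMonoidHom I σ) (hst σ)
  have hact : ∀ (σ : G) (c : I), act σ (c : I ⧸ dv.range) = ((σ • c : I) : I ⧸ dv.range) :=
    fun σ c => rfl
  have hactmul : ∀ (σ τ : G) (x : I ⧸ dv.range), act (σ * τ) x = act σ (act τ x) := by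
    intro σ τ x
    obtain ⟨c, rfl⟩ := QuotientGroup.mk_surjective x
    rw [hact, hact, hact, mul_smul]
  have hactone : ∀ x : I ⧸ dv.range, act 1 x = x := by
    intro x
    obtain ⟨c, rfl⟩ := QuotientGroup.mk_surjective x
    rw [hact, one_smul]
  let Nq : (I ⧸ dv.range) →* (I ⧸ dv.range) :=
    QuotientGroup.map dv.range dv.range (nm ρ : I →* I) (by
      rintro _ ⟨x, rfl⟩
      exact ⟨nm ρ x, dv_nm ρ dv hdv x⟩)
  have hNq : ∀ c : I, Nq (c : I ⧸ dv.range) = ((nm ρ c : I) : I ⧸ dv.range) := fun c => rfl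
  let S : Subgroup (I ⧸ dv.range) := Nq.ker ⊓ CommGroup.primaryComponent (I ⧸ dv.range) p
  have hSst : ∀ x : I ⧸ dv.range, x ∈ S → act g x ∈ S := by
    intro x hx
    refine ⟨?_, ?_⟩
    · have h1 : Nq x = 1 := hx.1
      obtain ⟨c, rfl⟩ := QuotientGroup.mk_surjective x
      rw [hNq] at h1
      show Nq (act g _) = 1
      rw [hact, hNq, nm_comm ρ g hcomm, ← hact, h1, map_one]
    · obtain ⟨n, hn⟩ := hx.2
      exact ⟨n, by rw [← map_pow, hn, map_one]⟩
  let f : Function.End S := fun x => ⟨act g x, hSst x x.2⟩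
  have hf : ∀ (n : ℕ) (x : S), (((f ^ n) x : S) : I ⧸ dv.range) = act (g ^ n) x := by
    intro n
    induction n with
    | zero => intro x; rw [pow_zero, pow_zero, hactone]; rfl
    | succ n ih =>
      intro x
      rw [pow_succ, pow_succ, hactmul]
      exact ih (f x)
  have hfp : f ^ p ^ 1 = 1 := by
    funext x
    apply Subtype.ext
    rw [hf, pow_one, hg, hactone]
    rfl
  haveI : Finite (I ⧸ dv.range) := hfin
  haveI : Fintype S := Fintype.ofFinite _
  have hcl : ∀ x : S, f x = x → x = 1 := by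
    intro x hx
    obtain ⟨c₀, hc₀⟩ := QuotientGroup.mk_surjective (x : I ⧸ dv.range)
    have hNx : nm ρ c₀ ∈ dv.range := by
      have := x.2.1
      rw [← hc₀] at this
      exact (QuotientGroup.eq_one_iff _).mp this
    obtain ⟨u, hu⟩ := hNx
    have hgx : ∃ a₀ : A, g • c₀ = c₀ * dv a₀ := by
      have h1 : act g (x : I ⧸ dv.range) = x := congrArg Subtype.val hx
      rw [← hc₀, hact] at h1
      obtain ⟨a₀, ha₀⟩ := QuotientGroup.eq.mp h1.symm
      exact ⟨a₀, by rw [ha₀, mul_inv_cancel_left]⟩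
    obtain ⟨a₀, ha₀⟩ := hgx
    obtain ⟨m, hm, y, hy⟩ := claim ρ g dv p hD hg hcomm hdv h90 hinv hunit c₀ u hu.symm a₀ ha₀
    obtain ⟨k, hk⟩ := x.2.2
    have h1 : (x : I ⧸ dv.range) ^ m = 1 := by
      rw [← hc₀, ← QuotientGroup.mk_pow, hy]
      exact (QuotientGroup.eq_one_iff _).mpr ⟨y, rfl⟩
    have h2 : orderOf (x : I ⧸ dv.range) ∣ m := orderOf_dvd_of_pow_eq_one h1
    have h3 : orderOf (x : I ⧸ dv.range) = 1 := by
      have h4 : orderOf (x : I ⧸ dv.range) ∣ p ^ k := orderOf_dvd_of_pow_eq_one hk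
      have h5 : Nat.Coprime (p ^ k) m := (Nat.Coprime.pow_left k hm.symm)
      exact Nat.dvd_one.mp (h5 ▸ Nat.dvd_gcd h4 h2)
    exact Subtype.ext (orderOf_eq_one_iff.mp h3)
  have hfix : Fintype.card (f.fixedPoints) = 1 := by
    rw [Fintype.card_eq_one_iff]
    refine ⟨⟨1, ?_⟩, ?_⟩
    · show f 1 = 1
      exact Subtype.ext (map_one (act g))
    · rintro ⟨x, hx⟩
      exact Subtype.ext (hcl x hx)
  have hmod := Equiv.Perm.card_fixedPoints_modEq (f := f) (p := p) (n := 1) hfp
  have hpg : IsPGroup p S :=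
    (CommGroup.primaryComponent.isPGroup (G := I ⧸ dv.range) (p := p)).to_le inf_le_right
  obtain ⟨n, hn⟩ := IsPGroup.iff_card.mp hpg
  have hcard : Fintype.card S = 1 := by
    rw [Nat.card_eq_fintype_card] at hn
    rcases Nat.eq_zero_or_pos n with h0 | h0
    · rw [hn, h0, pow_zero]
    · exfalso
      rw [hfix, hn] at hmod
      have h1 : p ∣ p ^ n := dvd_pow_self p h0.ne'
      have h2 : p ^ n % p = 0 := Nat.mod_eq_zero_of_dvd h1
      rw [Nat.ModEq, h2, Nat.mod_eq_of_lt hp.out.one_lt] at hmod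
      exact absurd hmod (by norm_num)
  have hS1 : ∀ x ∈ S, x = 1 := by
    intro x hx
    have h1 := Fintype.card_eq_one_iff.mp hcard
    obtain ⟨z, hz⟩ := h1
    have := (hz ⟨x, hx⟩).trans (hz 1).symm
    exact congrArg Subtype.val this
  -- conclusion
  obtain ⟨k, m, hm, hkm⟩ := Nat.exists_eq_pow_mul_and_not_dvd
    (orderOf_pos (c : I ⧸ dv.range)).ne' p hp.out.ne_one
  refine ⟨m, (Nat.Prime.coprime_iff_not_dvd hp.out).mpr hm |>.symm, ?_⟩
  have hmem : (c : I ⧸ dv.range) ^ m ∈ S := by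
    refine ⟨?_, ?_⟩
    · have hc' : nm ρ c = 1 := hc
      show Nq ((c : I ⧸ dv.range) ^ m) = 1
      rw [map_pow, hNq, hc']
      simp
    · have h2 : ((c : I ⧸ dv.range) ^ m) ^ (p ^ k) = 1 := by
        rw [← pow_mul, mul_comm, ← hkm, pow_orderOf_eq_one]
      exact ⟨k, h2⟩
  have h3 := hS1 _ hmem
  rw [← QuotientGroup.mk_pow] at h3
  obtain ⟨x, hx⟩ := (QuotientGroup.eq_one_iff _).mp h3
  exact ⟨x, hx.symm⟩

end Pool.Agent.RI


end

section

/-!
# Relative Iwasawa theorem: module ABSH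

The relative units have trivial first cohomology at `p` (abstract form).
-/

open Finset

namespace Pool.Agent.RI

namespace ABSH

/-- The product over the finite group `D`. -/
noncomputable def N {G D : Type} (A : Type) [CommGroup A] [Group G] [Group D] [Fintype D]
    [MulDistribMulAction G A] (ρ : D →* G) : A →* A where
  toFun x := ∏ δ : D, ρ δ • x
  map_one' := by simp
  map_mul' x y := by simp only [smul_mul', Finset.prod_mul_distrib]

variable {A I G D : Type} [CommGroup A] [CommGroup I] [Group G] [Group D] [Fintype D]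
  [MulDistribMulAction G A] [MulDistribMulAction G I] (ρ : D →* G)

lemma N_def (x : A) : N A ρ x = ∏ δ : D, ρ δ • x := rfl

/-- The product is fixed by the group. -/
lemma smul_N (δ : D) (x : A) : ρ δ • N A ρ x = N A ρ x := by
  rw [N_def, Finset.smul_prod']
  refine Fintype.prod_equiv (Equiv.mulLeft δ) _ _ fun ε => ?_
  simp [mul_smul]

lemma N_N (x : A) : N A ρ (N A ρ x) = N A ρ x ^ Fintype.card D := by
  rw [N_def ρ (N A ρ x)]
  simp only [smul_N, Finset.prod_const, Finset.card_univ]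

lemma smul_comm_N (g : G) (h : ∀ δ : D, ρ δ * g = g * ρ δ) (x : A) :
    g • N A ρ x = N A ρ (g • x) := by
  rw [N_def, N_def, Finset.smul_prod']
  refine Finset.prod_congr rfl fun δ _ => ?_
  rw [← mul_smul, ← mul_smul, h]

lemma map_N (dv : A →* I) (h : ∀ (σ : G) (x : A), dv (σ • x) = σ • dv x) (x : A) :
    dv (N A ρ x) = N I ρ (dv x) := by
  rw [N_def, N_def, map_prod]
  exact Finset.prod_congr rfl fun δ _ => h _ _

/-- The projector to the kernel of the product, up to the power `card D`. -/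
noncomputable def P {G D : Type} (A : Type) [CommGroup A] [Group G] [Group D] [Fintype D]
    [MulDistribMulAction G A] (ρ : D →* G) : A →* A where
  toFun x := x ^ Fintype.card D / N A ρ x
  map_one' := by simp
  map_mul' x y := by rw [map_mul, mul_pow, mul_div_mul_comm]

lemma P_def (x : A) : P A ρ x = x ^ Fintype.card D / N A ρ x := rfl

lemma N_P (x : A) : N A ρ (P A ρ x) = 1 := by
  rw [P_def, map_div, map_pow, N_N, div_self']

lemma P_of_N (x : A) (h : N A ρ x = 1) : P A ρ x = x ^ Fintype.card D := by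
  rw [P_def, h, div_one]

lemma smul_comm_P (g : G) (h : ∀ δ : D, ρ δ * g = g * ρ δ) (x : A) :
    g • P A ρ x = P A ρ (g • x) := by
  rw [P_def, P_def, smul_div', smul_pow', smul_comm_N ρ g h]

lemma map_P (dv : A →* I) (h : ∀ (σ : G) (x : A), dv (σ • x) = σ • dv x) (x : A) :
    dv (P A ρ x) = P I ρ (dv x) := by
  rw [P_def, P_def, map_div, map_pow, map_N ρ dv h]

end ABSH

open _root_.Pool.Agent.RI.ABSH in
/-- The relative units have trivial first cohomology at `p`. -/
theorem ABSH_thm : ABSH := by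
  intro p _ A I G D _ _ _ _ _ _ _ ρ g dv hD hg hcomm hdv hH hI u hu hNu hgu
  obtain ⟨y, hy⟩ := hH u hgu
  have hNu' : N A ρ u = 1 := hNu
  set d := Fintype.card D with hd
  set y1 := P A ρ y with hy1
  have hNy1 : N A ρ y1 = 1 := N_P ρ y
  -- `y1 / g y1 = u ^ d`
  have hy1g : y1 / g • y1 = u ^ d := by
    rw [hy1, smul_comm_P ρ g hcomm, ← map_div, ← hy, P_of_N ρ u hNu']
  have hb : g • dv y1 = dv y1 := by
    rw [← hdv]
    have := congrArg dv hy1g
    rw [map_div, map_pow, hu, one_pow] at this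
    exact (div_eq_one.1 this).symm
  have hNb : ∏ δ : D, ρ δ • dv y1 = 1 := by
    have := map_N ρ dv hdv y1
    rw [hNy1, map_one] at this
    exact this.symm
  obtain ⟨m, hm, γ, hγ, hbm⟩ := hI (dv y1) hb hNb
  refine ⟨d * (m * d), Nat.Coprime.mul_left hD (Nat.Coprime.mul_left hm hD),
    P A ρ (y1 ^ m / γ), ?_, N_P ρ _, ?_⟩
  · rw [map_P ρ dv hdv, map_div, map_pow, hbm, div_self', map_one]
  · have h1 : P A ρ (y1 ^ m) = y1 ^ (m * d) := by
      rw [P_of_N ρ _ (by rw [map_pow, hNy1, one_pow]), ← pow_mul]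
    have h2 : g • P A ρ γ = P A ρ γ := by rw [smul_comm_P ρ g hcomm, hγ]
    rw [map_div, h1, smul_div', smul_pow', h2, div_div_div_cancel_right, ← div_pow, hy1g,
      ← pow_mul]

end Pool.Agent.RI


end

section

/-!
# Extension of fractional ideals commutes with the Galois action
-/

open NumberField
open scoped nonZeroDivisors Pointwise

namespace Pool.Agent.RI

namespace EXTACT

/-- Membership in the extended fractional ideal. -/
lemma mem_ext {K L : Type} [Field K] [NumberField K] [Field L] [NumberField L] [Algebra K L]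
    (c : J K) (x : L) : x ∈ ((ext K L c : J L) : FractionalIdeal (𝓞 L)⁰ L) ↔
      x ∈ Submodule.span (𝓞 L) (algebraMap K L '' {y | y ∈ (c : FractionalIdeal (𝓞 K)⁰ K)}) := by
  have h : (IsFractionRing.map (A := 𝓞 K) (B := 𝓞 L) (K := K) (L := L)
      (FaithfulSMul.algebraMap_injective (𝓞 K) (𝓞 L))) = algebraMap K L := by
    apply IsLocalization.ringHom_ext (𝓞 K)⁰
    ext y
    simp only [RingHom.comp_apply, IsFractionRing.map, IsLocalization.map_eq]
    rfl
  show x ∈ (FractionalIdeal.extendedHom L (𝓞 L) (c : FractionalIdeal (𝓞 K)⁰ K)) ↔ _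
  rw [FractionalIdeal.extendedHom'_apply, FractionalIdeal.mem_extended_iff]
  have h' : ∀ z : K, IsLocalization.map (S := K) (M := (𝓞 K)⁰) (T := (𝓞 L)⁰) L
      (algebraMap (𝓞 K) (𝓞 L)) (nonZeroDivisors_le_comap_nonZeroDivisors_of_injective _
        (FaithfulSMul.algebraMap_injective (𝓞 K) (𝓞 L))) z = algebraMap K L z := fun z =>
    congrArg (fun f : K →+* L => f z) h
  rw [show (IsLocalization.map (S := K) (M := (𝓞 K)⁰) (T := (𝓞 L)⁰) L
      (algebraMap (𝓞 K) (𝓞 L)) (nonZeroDivisors_le_comap_nonZeroDivisors_of_injective _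
        (FaithfulSMul.algebraMap_injective (𝓞 K) (𝓞 L)))) '' (c : FractionalIdeal (𝓞 K)⁰ K) =
      algebraMap K L '' {y | y ∈ (c : FractionalIdeal (𝓞 K)⁰ K)} from
      Set.image_congr (fun z _ => h' z)]

lemma aux {F K M L : Type} [Field F] [Field K] [NumberField K] [Field M] [Field L]
    [NumberField L] [Algebra F K] [Algebra K L] [Algebra M L] (σ : L ≃ₐ[M] L) (σ' : K ≃ₐ[F] K)
    (h : ∀ x : K, algebraMap K L (σ' x) = σ (algebraMap K L x)) (c : J K) (x : L)
    (hx : x ∈ Submodule.span (𝓞 L) (algebraMap K L '' {y | y ∈ (c : FractionalIdeal (𝓞 K)⁰ K)})) :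
    σ x ∈ Submodule.span (𝓞 L)
      (algebraMap K L '' {y | y ∈ ((σ' • c : J K) : FractionalIdeal (𝓞 K)⁰ K)}) := by
  refine Submodule.span_induction (p := fun x _ => σ x ∈ _) ?_ ?_ ?_ ?_ hx
  · rintro _ ⟨y, hy, rfl⟩
    rw [← h]
    apply Submodule.subset_span
    refine ⟨σ' y, ?_, rfl⟩
    show σ' y ∈ ((σ' • c : J K) : FractionalIdeal (𝓞 K)⁰ K)
    rw [mem_smul, AlgEquiv.symm_apply_apply]
    exact hy
  · rw [map_zero]; exact zero_mem _
  · intro a b _ _ ha hb
    rw [map_add]
    exact add_mem ha hb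
  · intro a b _ hb
    have : σ (a • b) =
        ((RingOfIntegers.mapRingEquiv (σ : L ≃+* L) : 𝓞 L ≃+* 𝓞 L) a) • σ b := by
      rw [Algebra.smul_def, Algebra.smul_def, map_mul]; rfl
    rw [this]
    exact Submodule.smul_mem _ _ hb

end EXTACT

open _root_.Pool.Agent.RI.EXTACT in
theorem EXTACT_thm : EXTACT := by
  intro F K M L _ _ _ _ _ _ _ _ _ σ σ' h c
  apply Units.ext
  ext x
  rw [mem_smul, mem_ext, mem_ext]
  constructor
  · intro hx
    have h' : ∀ x : K, algebraMap K L (σ'.symm x) = σ.symm (algebraMap K L x) := by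
      intro x
      apply σ.injective
      rw [← h, AlgEquiv.apply_symm_apply, AlgEquiv.apply_symm_apply]
    have := aux σ.symm σ'.symm h' (σ' • c) x hx
    rwa [show σ'.symm • σ' • c = c from inv_smul_smul σ' c] at this
  · intro hx
    have := aux σ σ' h c (σ.symm x) hx
    rwa [AlgEquiv.apply_symm_apply] at this

end Pool.Agent.RI


end

section

/-!
# Relative Iwasawa theorem: module INV
-/

open NumberField Finset IsDedekindDomain
open scoped nonZeroDivisors Pointwise

namespace Pool.Agent.RI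

/-- INV -/
theorem INV_thm (h1 : SQ) (h2 : COUNTACT) (h3 : INVI) (h4 : EXTACT) : INV := by
  intro p _ F K M L _ _ _ _ _ _ _ _ _ _ _ _ _ _ _ hS hR hw b hb hN
  obtain ⟨gKL, gML, -, -, ρ, hρ⟩ := h1 p F K M L hS
  -- the exponents at the ramified primes
  have hcount : ∀ w : HeightOneSpectrum (𝓞 L), w.asIdeal.ramificationIdx (𝓞 K) ≠ 1 →
      FractionalIdeal.count L w (b : FractionalIdeal (𝓞 L)⁰ L) = 0 := by
    intro w hwr
    have e1 : ∀ σ : L ≃ₐ[M] L, FractionalIdeal.count L w
        ((σ • b : J L) : FractionalIdeal (𝓞 L)⁰ L) =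
          FractionalIdeal.count L w (b : FractionalIdeal (𝓞 L)⁰ L) :=
      fun σ => h2 M L σ w w (hw w hwr σ).symm b
    have e2 : FractionalIdeal.count L w
        ((∏ σ : L ≃ₐ[M] L, σ • b : J L) : FractionalIdeal (𝓞 L)⁰ L) = 0 := by
      rw [hN, Units.val_one, FractionalIdeal.count_one]
    rw [Units.coe_prod, FractionalIdeal.count_prod _ _ _ _ (fun σ _ => (σ • b : J L).ne_zero),
      Finset.sum_congr rfl (fun σ _ => e1 σ), Finset.sum_const, nsmul_eq_mul] at e2
    rcases mul_eq_zero.mp e2 with e3 | e3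
    · exfalso
      have e4 : (univ : Finset (L ≃ₐ[M] L)).card = 0 := by exact_mod_cast e3
      have e5 : (1 : L ≃ₐ[M] L) ∈ (univ : Finset (L ≃ₐ[M] L)) := mem_univ _
      rw [Finset.card_eq_zero] at e4
      rw [e4] at e5
      simp at e5
    · exact e3
  obtain ⟨c, hc⟩ := h3 K L b hb hcount
  have hc1 : ∏ σ' : K ≃ₐ[F] K, σ' • c = 1 := by
    apply ext_injective K L
    rw [map_one, map_prod, ← hN, ← Equiv.prod_comp ρ.toEquiv]
    apply Finset.prod_congr rfl
    intro σ _
    rw [← hc]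
    exact h4 F K M L σ (ρ σ) (hρ σ) c
  obtain ⟨m, hm, x, hx⟩ := hR c hc1
  refine ⟨m, hm, x, ?_⟩
  rw [← hc, ← map_pow, hx, ext_prin]

end Pool.Agent.RI


end

section

/-!
# The relative Iwasawa theorem: assembly
-/

open NumberField

namespace Pool.Agent.RI

namespace MAINA

lemma unramInf_bot {F M' M : IntermediateField ℚ ℂ} [FiniteDimensional ℚ M] (h₁ : F ≤ M')
    (h₂ : M' ≤ M) (h : UnramInf (h₁.trans h₂)) : UnramInf h₁ := by
  intro φ hφ x
  let : Algebra M' M := algC h₂
  let : Algebra M' ℂ := φ.toAlgebra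
  have : FiniteDimensional M' M := by
    have : IsScalarTower ℚ M' M := IsScalarTower.of_algebraMap_eq (fun _ => rfl)
    exact Module.Finite.of_restrictScalars_finite ℚ M' M
  have : Algebra.IsAlgebraic M' M := Algebra.IsAlgebraic.of_finite M' M
  let ψ : M →ₐ[M'] ℂ := IsAlgClosed.lift
  have hψ : ∀ y : M', ψ (IntermediateField.inclusion h₂ y) = φ y := fun y => ψ.commutes y
  have := h ψ.toRingHom (fun y hy => by
    have := hφ ⟨(y : ℂ), h₁ hy⟩ hy
    rw [← hψ] at this
    exact this) (IntermediateField.inclusion h₂ x)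
  rw [← hψ]
  exact this

lemma ramifies_of {F M' M : IntermediateField ℚ ℂ} [FiniteDimensional ℚ M] (h₁ : F ≤ M')
    (h₂ : M' ≤ M) (P : Ideal (𝓞 F)) (hP : Ramifies h₁ P) : Ramifies (h₁.trans h₂) P := by
  have : FiniteDimensional ℚ M' := by
    exact FiniteDimensional.of_injective (IntermediateField.inclusion h₂).toLinearMap
      (IntermediateField.inclusion h₂).toRingHom.injective
  have : FiniteDimensional ℚ F := by
    exact FiniteDimensional.of_injective (IntermediateField.inclusion h₁).toLinearMap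
      (IntermediateField.inclusion h₁).toRingHom.injective
  let : Algebra F M' := algC h₁
  let : Algebra M' M := algC h₂
  let : Algebra F M := algC (h₁.trans h₂)
  have : IsScalarTower F M' M := towerC h₁ h₂
  obtain ⟨R', hR', hRP, he⟩ := hP
  obtain ⟨⟨R, hRp, hRo⟩⟩ := Ideal.nonempty_primesOver (S := 𝓞 M) R'
  have := hRo
  refine ⟨R, hRp, ?_, ?_⟩
  · rw [← hRP]
    have h := hRo.over
    rw [h, Ideal.under_under]
  · have h := Ideal.ramificationIdx_tower (R := 𝓞 F) R' R
    rw [h]
    have hpos : 0 < R.ramificationIdx (𝓞 M') := Ideal.ramificationIdx_pos _ _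
    intro h1
    exact he (Nat.eq_one_of_mul_eq_one_right h1)

end MAINA

theorem MAINA_thm (hBASE : BASE) (hBCH : BCH) (hCHIEF : CHIEF) (hTSTEP : TSTEP) : MAINA := by
  have key : ∀ (a p : ℕ) [Fact p.Prime] (F K M : IntermediateField ℚ ℂ)
    [FiniteDimensional ℚ K] [FiniteDimensional ℚ M] (hK : F ≤ K) (hM : F ≤ M),
    IsGalois F (IntermediateField.extendScalars hK) →
    ¬ p ∣ Module.finrank F (IntermediateField.extendScalars hK) →
    IsGalois F (IntermediateField.extendScalars hM) →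
    Module.finrank F (IntermediateField.extendScalars hM) = p ^ a →
    UnramInf hM → NonsplitRam hK hM →
    padicValNat p (classNo K) = padicValNat p (classNo F) → RelTrivC p M (K ⊔ M) := by
    intro a
    induction a with
    | zero =>
      intro p _ F K M _ _ hK hM hGK hp hGM hdeg hU hN hcl
      have hMF : M = F := by
        rw [pow_zero, IntermediateField.finrank_eq_one_iff] at hdeg
        apply le_antisymm _ hM
        intro x hx
        have hx' : x ∈ IntermediateField.extendScalars hM := hx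
        rw [hdeg, IntermediateField.mem_bot] at hx'
        obtain ⟨y, rfl⟩ := hx'
        exact y.2
      subst hMF
      rw [sup_eq_left.2 hK]
      exact (hBASE p M K hK hGK hp).1 hcl
    | succ a ih =>
      intro p _ F K M _ _ hK hM hGK hp hGM hdeg hU hN hcl
      obtain ⟨M', h₁, h₂, hG', hd', hdM⟩ := hCHIEF p a F M hM hGM hdeg
      have : FiniteDimensional ℚ M' := by
        exact FiniteDimensional.of_injective (IntermediateField.inclusion h₂).toLinearMap
          (IntermediateField.inclusion h₂).toRingHom.injective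
      have hrec := ih p F K M' hK h₁ hGK hp hG' hd' (MAINA.unramInf_bot h₁ h₂ hU)
        (fun P Q hP hQ hPQ hR => hN P Q hP hQ hPQ (MAINA.ramifies_of h₁ h₂ _ hR)) hcl
      exact hTSTEP p F K M' M hK h₁ h₂ hGK hp hG' hGM ⟨a + 1, hdeg⟩ hdM hU hN hrec
  intro p a _ F K M _ _ hK hM hGK hp hGM hdeg hU hN hcl
  have h := key a p F K M hK hM hGK hp hGM hdeg hU hN hcl
  have : FiniteDimensional ℚ F := by
    exact FiniteDimensional.of_injective (IntermediateField.inclusion hK).toLinearMap
      (IntermediateField.inclusion hK).toRingHom.injective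
  have : FiniteDimensional ℚ ↥(K ⊔ M) := IntermediateField.finiteDimensional_sup K M
  have hb := hBCH.1 F K M M (K ⊔ M) hK le_sup_right (sup_eq_right.2 hM).symm rfl hGK
  exact (hBASE p M (K ⊔ M) le_sup_right hb.1 (fun hd => hp (hd.trans hb.2))).2 h

end Pool.Agent.RI


end

section

/-!
# Relative Iwasawa theorem: NSN, undecomposed primes
-/

open NumberField Finset IsDedekindDomain
open scoped nonZeroDivisors Pointwise

namespace Pool.Agent.RI

namespace NSN

/-- A normal subgroup of order prime to `p` is contained in every subgroup whose index is a power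
of `p`. -/
theorem le_of_index {G : Type} [Group G] [Finite G] (H S : Subgroup G) [H.Normal] (p b : ℕ)
    (hS : S.index ∣ p ^ b) (hH : (Nat.card H).Coprime p) : H ≤ S := by
  rw [← Subgroup.relIndex_eq_one]
  have h1 : S.relIndex H ∣ S.index := by
    obtain ⟨r, hr⟩ := Subgroup.relIndex_dvd_index_of_normal H S
    have e1 : (S ⊓ H).relIndex H * H.index = (S ⊓ H).index :=
      Subgroup.relIndex_mul_index inf_le_right
    have e2 : (S ⊓ H).relIndex S * S.index = (S ⊓ H).index :=
      Subgroup.relIndex_mul_index inf_le_left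
    rw [Subgroup.inf_relIndex_right] at e1
    rw [Subgroup.inf_relIndex_left] at e2
    have e3 : H.relIndex S * S.index = H.relIndex S * (S.relIndex H * r) := by
      rw [e2, ← e1, hr]
      ring
    have hpos : H.relIndex S ≠ 0 := by
      intro h0
      rw [h0, zero_mul] at hr
      exact (Subgroup.index_ne_zero_of_finite (H := H)) hr
    exact ⟨r, mul_left_cancel₀ hpos e3⟩
  have h2 : S.relIndex H ∣ Nat.card H := Subgroup.relIndex_dvd_card S H
  exact Nat.eq_one_of_dvd_coprimes (Nat.Coprime.pow_right b hH) h2 (h1.trans hS)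

/-- Restriction of the conjugate ideal to a normal subextension. -/
theorem under_smul {F K L : Type} [Field F] [Field K] [Field L] [Algebra F K] [Algebra F L]
    [Algebra K L] [IsScalarTower F K L] [Normal F K] (τ : L ≃ₐ[F] L) (w : Ideal (𝓞 L)) :
    (τ • w).under (𝓞 K) = τ.restrictNormal K • w.under (𝓞 K) := by
  ext x
  rw [Ideal.under_def, Ideal.mem_comap, Ideal.mem_pointwise_smul_iff_inv_smul_mem,
    Ideal.mem_pointwise_smul_iff_inv_smul_mem, Ideal.under_def, Ideal.mem_comap]
  have h : algebraMap (𝓞 K) (𝓞 L) ((τ.restrictNormal K)⁻¹ • x) =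
      τ⁻¹ • algebraMap (𝓞 K) (𝓞 L) x := by
    apply RingOfIntegers.ext
    show algebraMap K L ((τ.restrictNormal K)⁻¹ (x : K)) = τ⁻¹ (algebraMap K L (x : K))
    apply τ.injective
    rw [← AlgEquiv.restrictNormal_commutes]
    have e1 : τ.restrictNormal K ((τ.restrictNormal K)⁻¹ (x : K)) = x :=
      (τ.restrictNormal K).apply_symm_apply _
    have e2 : τ (τ⁻¹ (algebraMap K L (x : K))) = algebraMap K L (x : K) :=
      τ.apply_symm_apply _
    rw [e1, e2]
  rw [h]

/-- The action on ideals does not depend on the base field. -/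
theorem restrictScalars_smul {F M L : Type} [Field F] [Field M] [Field L] [Algebra F M]
    [Algebra F L] [Algebra M L] [IsScalarTower F M L] (σ : L ≃ₐ[M] L) (w : Ideal (𝓞 L)) :
    σ.restrictScalars F • w = σ • w := by
  ext x
  rw [Ideal.mem_pointwise_smul_iff_inv_smul_mem, Ideal.mem_pointwise_smul_iff_inv_smul_mem]
  have h : (σ.restrictScalars F)⁻¹ • x = σ⁻¹ • x := by
    apply RingOfIntegers.ext
    show (σ.restrictScalars F)⁻¹ (x : L) = σ⁻¹ (x : L)
    apply σ.injective
    have e1 : σ (σ⁻¹ (x : L)) = x := σ.apply_symm_apply _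
    have e2 : (σ.restrictScalars F) ((σ.restrictScalars F)⁻¹ (x : L)) = x :=
      (σ.restrictScalars F).apply_symm_apply _
    rw [e1]
    exact e2
  rw [h]

end NSN

theorem NSN_thm : NSN := by
  intro p _ F K M L _ _ _ _ _ _ _ _ _ _ _ _ _ _ _ _ _ _ hpow hcop w hw hfix σ
  have hKL : IsGalois K L := IsGalois.tower_top_of_isGalois F K L
  have hML : IsGalois M L := IsGalois.tower_top_of_isGalois F M L
  obtain ⟨a, ha⟩ := hpow
  -- the orbit of `w` under `Gal(L / F)` is its orbit under `Gal(L / K)`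
  have horb : MulAction.orbit (L ≃ₐ[F] L) w = MulAction.orbit (L ≃ₐ[K] L) w := by
    apply Set.Subset.antisymm
    · rintro _ ⟨τ, rfl⟩
      have h1 : (τ • w).under (𝓞 K) = w.under (𝓞 K) := by
        rw [NSN.under_smul, hfix]
      have : (τ • w).IsPrime := inferInstance
      have : w.LiesOver (w.under (𝓞 K)) := ⟨rfl⟩
      have : (τ • w).LiesOver (w.under (𝓞 K)) := ⟨h1.symm⟩
      obtain ⟨κ, hκ⟩ := Ideal.exists_smul_eq_of_isGaloisGroup (w.under (𝓞 K)) w (τ • w)
        (L ≃ₐ[K] L)
      exact ⟨κ, hκ⟩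
    · rintro _ ⟨κ, rfl⟩
      exact ⟨κ.restrictScalars F, NSN.restrictScalars_smul κ w⟩
  -- the index of the stabilizer
  have hidx : (MulAction.stabilizer (L ≃ₐ[F] L) w).index ∣ p ^ a := by
    rw [MulAction.index_stabilizer, horb, ← MulAction.index_stabilizer, ← ha,
      ← IsGalois.card_aut_eq_finrank K L]
    exact Subgroup.index_dvd_card _
  -- the subgroup of the automorphisms which are trivial on `M`
  have hcard : Nat.card (AlgEquiv.restrictNormalHom (F := F) (K₁ := L) M).ker =
      Module.finrank M L := by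
    have h1 := Subgroup.card_mul_index (AlgEquiv.restrictNormalHom (F := F) (K₁ := L) M).ker
    rw [Subgroup.index_ker, MonoidHom.range_eq_top.mpr
      (AlgEquiv.restrictNormalHom_surjective (F := F) (K₁ := M) L), Subgroup.card_top,
      IsGalois.card_aut_eq_finrank, IsGalois.card_aut_eq_finrank,
      ← Module.finrank_mul_finrank F M L, mul_comm] at h1
    exact Nat.eq_of_mul_eq_mul_left Module.finrank_pos h1
  have hle : (AlgEquiv.restrictNormalHom (F := F) (K₁ := L) M).ker ≤
      MulAction.stabilizer (L ≃ₐ[F] L) w :=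
    NSN.le_of_index _ _ p a hidx (by rw [hcard]; exact hcop)
  have hmem : σ.restrictScalars F ∈ (AlgEquiv.restrictNormalHom (F := F) (K₁ := L) M).ker := by
    rw [MonoidHom.mem_ker]
    apply AlgEquiv.ext
    intro x
    apply (algebraMap M L).injective
    have h1 := AlgEquiv.restrictNormal_commutes (σ.restrictScalars F) M x
    show algebraMap M L ((σ.restrictScalars F).restrictNormal M x) = algebraMap M L x
    rw [h1]
    exact σ.commutes x
  have hfin := MulAction.mem_stabilizer_iff.mp (hle hmem)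
  rw [NSN.restrictScalars_smul] at hfin
  exact hfin

end Pool.Agent.RI


end

section

/-!
# Relative Iwasawa theorem: Galois theory of the square
-/

open NumberField

namespace Pool.Agent.RI

namespace SQ

/-- An automorphism over `F` that is trivial on `K` and on `M` is trivial, when the degrees of
`L / K` and `L / M` are coprime. -/
lemma eq_one_of_fix {F K M L : Type} [Field F] [Field K] [Field M] [Field L]
    [Algebra F K] [Algebra F M] [Algebra F L] [Algebra K L] [Algebra M L]
    [IsScalarTower F K L] [IsScalarTower F M L] [FiniteDimensional K L] [FiniteDimensional M L]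
    [IsGalois K L] [IsGalois M L]
    (hc : (Module.finrank K L).Coprime (Module.finrank M L)) (c : L ≃ₐ[F] L)
    (hK : ∀ x : K, c (algebraMap K L x) = algebraMap K L x)
    (hM : ∀ x : M, c (algebraMap M L x) = algebraMap M L x) : c = 1 := by
  let cK : L ≃ₐ[K] L := AlgEquiv.ofRingEquiv (f := (c : L ≃+* L)) hK
  let cM : L ≃ₐ[M] L := AlgEquiv.ofRingEquiv (f := (c : L ≃+* L)) hM
  have h1 : cK ^ Module.finrank K L = 1 := by
    rw [← IsGalois.card_aut_eq_finrank K L]
    exact pow_card_eq_one'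
  have h2 : cM ^ Module.finrank M L = 1 := by
    rw [← IsGalois.card_aut_eq_finrank M L]
    exact pow_card_eq_one'
  have e1 : ∀ n : ℕ, ∀ x : L, (cK ^ n) x = (c ^ n) x := by
    intro n
    induction n with
    | zero => intro x; rfl
    | succ n ih => intro x; rw [pow_succ, pow_succ]; exact ih (c x)
  have e2 : ∀ n : ℕ, ∀ x : L, (cM ^ n) x = (c ^ n) x := by
    intro n
    induction n with
    | zero => intro x; rfl
    | succ n ih => intro x; rw [pow_succ, pow_succ]; exact ih (c x)
  have h3 : c ^ Module.finrank K L = 1 := by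
    ext x
    rw [← e1, h1]; rfl
  have h4 : c ^ Module.finrank M L = 1 := by
    ext x
    rw [← e2, h2]; rfl
  have h5 := Nat.dvd_gcd (orderOf_dvd_of_pow_eq_one h3) (orderOf_dvd_of_pow_eq_one h4)
  rw [hc] at h5
  exact orderOf_eq_one_iff.1 (Nat.dvd_one.1 h5)

end SQ

theorem SQ_thm : SQ := by
  intro p _ F K M L _ _ _ _ _ _ _ _ _ _ _ _ _ _ _ h
  haveI := h.galK
  haveI := h.galM
  haveI := h.galL
  have hp : 0 < p := (Fact.out : p.Prime).pos
  have galKL : IsGalois K L := IsGalois.tower_top_of_isGalois F K L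
  have galML : IsGalois M L := IsGalois.tower_top_of_isGalois F M L
  have hdeg : Module.finrank M L = Module.finrank F K := by
    have h1 := Module.finrank_mul_finrank F K L
    have h2 := Module.finrank_mul_finrank F M L
    rw [h.degL] at h1
    rw [h.degM] at h2
    rw [← h2, mul_comm] at h1
    exact (Nat.eq_of_mul_eq_mul_left hp h1).symm
  have hcop : (Module.finrank K L).Coprime (Module.finrank M L) := by
    rw [h.degL, hdeg]
    exact h.cop.symm
  have key := SQ.eq_one_of_fix (F := F) hcop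
  -- an automorphism over `F` maps `K` to `K`
  have mK : ∀ (s : L ≃ₐ[F] L) (x : K), s (algebraMap K L x) =
      algebraMap K L (s.restrictNormal K x) := fun s x => (s.restrictNormal_commutes K x).symm
  have mM : ∀ (s : L ≃ₐ[F] L) (x : M), s (algebraMap M L x) =
      algebraMap M L (s.restrictNormal M x) := fun s x => (s.restrictNormal_commutes M x).symm
  refine ⟨galKL, galML, hdeg, ?_, ?_⟩
  · intro σ τ x
    let s : L ≃ₐ[F] L := σ.restrictScalars F
    let t : L ≃ₐ[F] L := τ.restrictScalars F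
    have hs : ∀ y : M, s (algebraMap M L y) = algebraMap M L y := fun y => σ.commutes y
    have ht : ∀ y : K, t (algebraMap K L y) = algebraMap K L y := fun y => τ.commutes y
    have hs' : ∀ y : M, s⁻¹ (algebraMap M L y) = algebraMap M L y := fun y => by
      conv_lhs => rw [← hs y]
      exact s.symm_apply_apply _
    have ht' : ∀ y : K, t⁻¹ (algebraMap K L y) = algebraMap K L y := fun y => by
      conv_lhs => rw [← ht y]
      exact t.symm_apply_apply _
    have hone : s * t * s⁻¹ * t⁻¹ = 1 := by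
      apply key
      · intro y
        show s (t (s⁻¹ (t⁻¹ (algebraMap K L y)))) = _
        rw [ht', mK, ht, ← mK]
        exact s.apply_symm_apply _
      · intro y
        show s (t (s⁻¹ (t⁻¹ (algebraMap M L y)))) = _
        rw [mM t⁻¹, hs', ← mM]
        rw [show t (t⁻¹ (algebraMap M L y)) = algebraMap M L y from t.apply_symm_apply _, hs]
    have hst : s * t = t * s := by
      have h6 : s * t * (t * s)⁻¹ = 1 := by
        rw [mul_inv_rev, ← mul_assoc]; exact hone
      exact mul_inv_eq_one.1 h6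
    exact congrArg (fun f : L ≃ₐ[F] L => f x) hst
  · let ρ : (L ≃ₐ[M] L) →* (K ≃ₐ[F] K) :=
      (AlgEquiv.restrictNormalHom K).comp (AlgEquiv.restrictScalarsHom F)
    have hρ : ∀ (σ : L ≃ₐ[M] L) (x : K), algebraMap K L (ρ σ x) = σ (algebraMap K L x) :=
      fun σ x => (σ.restrictScalars F).restrictNormal_commutes K x
    have hinj : Function.Injective ρ := by
      rw [injective_iff_map_eq_one]
      intro σ hσ
      have h1 : σ.restrictScalars F = 1 := by
        apply key
        · intro x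
          have := hρ σ x
          rw [hσ] at this
          exact this.symm
        · intro x
          exact σ.commutes x
      ext x
      exact congrArg (fun f : L ≃ₐ[F] L => f x) h1
    have hbij : Function.Bijective ρ := by
      rw [Nat.bijective_iff_injective_and_card]
      refine ⟨hinj, ?_⟩
      rw [IsGalois.card_aut_eq_finrank, IsGalois.card_aut_eq_finrank, hdeg]
    exact ⟨MulEquiv.ofBijective ρ hbij, hρ⟩

end Pool.Agent.RI


end

section

/-!
# Relative Iwasawa theorem: the step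
-/

open NumberField Finset IsDedekindDomain
open scoped nonZeroDivisors Pointwise

namespace Pool.Agent.RI

namespace STEP

/-- A group of prime order `p`, generated by `g ≠ 1`, is `{g ^ i : i < p}`. -/
theorem exists_pow {G : Type} [Group G] [Finite G] {p : ℕ} [hp : Fact p.Prime]
    (hc : Nat.card G = p) {g : G} (hg : g ≠ 1) (x : G) : ∃ i < p, g ^ i = x := by
  have ho : orderOf g = p := by
    have h1 : orderOf g ∣ p := hc ▸ orderOf_dvd_natCard g
    rcases (Nat.dvd_prime hp.out).mp h1 with h | h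
    · exact absurd (orderOf_eq_one_iff.mp h) hg
    · exact h
  have h2 : x ∈ Subgroup.zpowers g := by
    have : Subgroup.zpowers g = ⊤ := by
      apply Subgroup.eq_top_of_card_eq
      rw [Nat.card_zpowers, ho, hc]
    rw [this]
    trivial
  have h3 := (mem_powers_iff_mem_zpowers (x := g) (y := x)).mpr h2
  obtain ⟨n, hn⟩ := h3
  refine ⟨n % p, Nat.mod_lt _ hp.out.pos, ?_⟩
  rw [← ho, pow_mod_orderOf]
  exact hn

theorem prod_pow {G A : Type} [Group G] [Fintype G] [CommGroup A] [MulDistribMulAction G A] {p : ℕ}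
    [hp : Fact p.Prime] (hc : Nat.card G = p) {g : G} (hg : g ≠ 1) (x : A) :
    ∏ τ : G, τ • x = ∏ i ∈ range p, g ^ i • x := by
  classical
  have ho : orderOf g = p := by
    have h1 : orderOf g ∣ p := hc ▸ orderOf_dvd_natCard g
    rcases (Nat.dvd_prime hp.out).mp h1 with h | h
    · exact absurd (orderOf_eq_one_iff.mp h) hg
    · exact h
  symm
  refine Finset.prod_bij (fun i _ => g ^ i) (fun i _ => Finset.mem_univ _) ?_ ?_ (fun _ _ => rfl)
  · intro i hi j hj hij
    have hi' := Finset.mem_range.mp hi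
    have hj' := Finset.mem_range.mp hj
    exact pow_injOn_Iio_orderOf (by rw [ho]; exact hi') (by rw [ho]; exact hj') hij
  · intro τ _
    obtain ⟨i, hi, h⟩ := exists_pow hc hg τ
    exact ⟨i, Finset.mem_range.mpr hi, h⟩

end STEP

theorem STEP_thm (hsq : SQ) (habs : ABS) (h90 : H90) (hinv : INV) (hunit : UNIT) : STEP := by
  intro p hp F K M L _ _ _ _ _ _ _ _ _ _ _ _ _ _ _ sq hL hM hram hrel
  obtain ⟨galKL, galML, hML, hcomm, -⟩ := hsq p F K M L sq
  have hcK : Nat.card (L ≃ₐ[K] L) = p := by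
    rw [IsGalois.card_aut_eq_finrank, sq.degL]
  have hcM : Fintype.card (L ≃ₐ[M] L) = Module.finrank F K := by
    rw [← Nat.card_eq_fintype_card, IsGalois.card_aut_eq_finrank, hML]
  -- a generator
  obtain ⟨g₀, hg₀⟩ : ∃ g₀ : L ≃ₐ[K] L, g₀ ≠ 1 := by
    by_contra h
    push Not at h
    have : Nat.card (L ≃ₐ[K] L) = 1 := by
      rw [Nat.card_eq_one_iff_unique]
      exact ⟨⟨fun a b => (h a).trans (h b).symm⟩, ⟨1⟩⟩
    rw [hcK] at this
    exact hp.out.one_lt.ne' this
  let ρ : (L ≃ₐ[M] L) →* (L ≃ₐ[F] L) := AlgEquiv.restrictScalarsHom F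
  let κ : (L ≃ₐ[K] L) →* (L ≃ₐ[F] L) := AlgEquiv.restrictScalarsHom F
  have hρu : ∀ (δ : L ≃ₐ[M] L) (x : Lˣ), ρ δ • x = δ • x := fun δ x => rfl
  have hκu : ∀ (δ : L ≃ₐ[K] L) (x : Lˣ), κ δ • x = δ • x := fun δ x => rfl
  have hρJ : ∀ (δ : L ≃ₐ[M] L) (x : J L), ρ δ • x = δ • x := fun δ x => rfl
  have hκJ : ∀ (δ : L ≃ₐ[K] L) (x : J L), κ δ • x = δ • x := fun δ x => rfl
  have hfixu : ∀ e : Lˣ, κ g₀ • e = e → ∀ τ : L ≃ₐ[K] L, τ • e = e := by
    intro e he τ
    obtain ⟨i, -, rfl⟩ := STEP.exists_pow hcK hg₀ τ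
    rw [hκu] at he
    induction i with
    | zero => rw [pow_zero, one_smul]
    | succ i ih => rw [pow_succ, mul_smul, he, ih]
  have hfixJ : ∀ e : J L, κ g₀ • e = e → ∀ τ : L ≃ₐ[K] L, τ • e = e := by
    intro e he τ
    obtain ⟨i, -, rfl⟩ := STEP.exists_pow hcK hg₀ τ
    rw [hκJ] at he
    induction i with
    | zero => rw [pow_zero, one_smul]
    | succ i ih => rw [pow_succ, mul_smul, he, ih]
  have hprod : ∀ x : Lˣ, ∏ i ∈ range p, κ g₀ ^ i • x = ∏ i ∈ range p, g₀ ^ i • x := by
    intro x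
    refine Finset.prod_congr rfl fun i _ => ?_
    rw [← map_pow, hκu]
  have key := habs p Lˣ (J L) (L ≃ₐ[F] L) (L ≃ₐ[M] L) ρ (κ g₀) prin (by rw [hcM]; exact sq.cop)
    (by rw [← map_pow, ← hcK, pow_card_eq_one', map_one])
    (by
      intro δ
      apply AlgEquiv.ext
      intro x
      exact hcomm δ g₀ x)
    (fun σ x => (smul_prin σ x).symm)
    (by
      intro x hx
      rw [hprod] at hx
      exact h90 p K L g₀ sq.degL hg₀ x hx)
    (by
      intro b hb hb'
      obtain ⟨m, hm, γ, hγ⟩ := hinv p F K M L sq hrel hram b (hfixJ b hb) hb'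
      refine ⟨m, hm, _, ?_, hγ⟩
      rw [hκu]
      apply Units.ext
      exact g₀.commutes (γ : K))
    (by
      intro e he hge hNe
      obtain ⟨η, hη, h⟩ := hunit p F K M L sq hL hM hram hrel e ⟨⟨he, hNe⟩, hfixu e hge⟩
      refine ⟨1, Nat.coprime_one_left p, η, hη.1, ?_⟩
      rw [pow_one, hprod, ← STEP.prod_pow hcK hg₀]
      exact h)
    (Finite.of_equiv (ClassGroup (𝓞 L)) (ClassGroup.equiv L).toEquiv)
  intro c hc
  exact key c hc

end Pool.Agent.RI


end

section

/-!
# UNIT: relative units fixed by `Gal(L / K)` are norms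
-/

open NumberField Finset IsDedekindDomain
open scoped nonZeroDivisors Pointwise

namespace Pool.Agent.RI

namespace UNIT

/-- The group `(1 - g) E`. -/
def S {A G : Type} [CommGroup A] [Group G] [MulDistribMulAction G A] (g : G) (E : Subgroup A) :
    Subgroup A where
  carrier := {u | ∃ v ∈ E, u = v / g • v}
  mul_mem' := by
    rintro _ _ ⟨v, hv, rfl⟩ ⟨w, hw, rfl⟩
    refine ⟨v * w, mul_mem hv hw, ?_⟩
    rw [smul_mul', div_mul_div_comm]
  one_mem' := ⟨1, one_mem _, by rw [smul_one, div_one]⟩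
  inv_mem' := by
    rintro _ ⟨v, hv, rfl⟩
    refine ⟨v⁻¹, inv_mem hv, ?_⟩
    rw [smul_inv', inv_div, div_inv_eq_mul, div_eq_mul_inv, mul_comm]

theorem mem_S {A G : Type} [CommGroup A] [Group G] [MulDistribMulAction G A] {g : G}
    {E : Subgroup A} {u : A} : u ∈ S g E ↔ ∃ v ∈ E, u = v / g • v := Iff.rfl

/-- From triviality of `H¹` up to exponents prime to `p` to triviality of `H¹`. -/
theorem exact_H1 {A G : Type} [CommGroup A] [Group G] [MulDistribMulAction G A] (g : G)
    (E : Subgroup A) (hE : ∀ u ∈ E, g • u ∈ E) (p m : ℕ) (hm : m.Coprime p) (u : A) (hu : u ∈ E)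
    (hN : ∏ i ∈ range p, g ^ i • u = 1) (h : u ^ m ∈ S g E) : u ∈ S g E := by
  have hpow : ∀ i : ℕ, g ^ i • u ∈ E := by
    intro i
    induction i with
    | zero => rwa [pow_zero, one_smul]
    | succ i ih =>
      rw [pow_succ', mul_smul]
      exact hE _ ih
  have h1 : ∀ i : ℕ, u / g ^ i • u ∈ S g E := by
    intro i
    induction i with
    | zero =>
      rw [pow_zero, one_smul, div_self']
      exact one_mem _
    | succ i ih =>
      have h2 : g ^ i • u / g • (g ^ i • u) ∈ S g E := ⟨_, hpow i, rfl⟩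
      have h3 := mul_mem ih h2
      rw [div_mul_div_cancel] at h3
      rw [pow_succ', mul_smul]
      exact h3
  have h2 : u ^ p ∈ S g E := by
    have h3 : ∏ i ∈ range p, (u / g ^ i • u) ∈ S g E := prod_mem fun i _ => h1 i
    rw [Finset.prod_div_distrib, hN, div_one, Finset.prod_const, card_range] at h3
    exact h3
  have h3 := Nat.gcd_eq_gcd_ab m p
  rw [Nat.Coprime.gcd_eq_one hm] at h3
  have h4 : u = (u ^ m) ^ (Nat.gcdA m p) * (u ^ p) ^ (Nat.gcdB m p) := by
    rw [← zpow_natCast u m, ← zpow_natCast u p, ← zpow_mul, ← zpow_mul, ← zpow_add, ← h3]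
    simp
  rw [h4]
  exact mul_mem (zpow_mem h _) (zpow_mem h2 _)

/-- The norm as a product over the powers of a generator. -/
theorem prod_range_eq {A G : Type} [CommGroup A] [Group G] [Fintype G] [MulDistribMulAction G A]
    (g : G) (p : ℕ) (hp : p.Prime) (hG : Fintype.card G = p) (hg : g ≠ 1) (u : A) :
    ∏ i ∈ range p, g ^ i • u = ∏ τ : G, τ • u := by
  have ho : orderOf g = p := by
    have h1 : orderOf g ∣ p := hG ▸ orderOf_dvd_card
    rcases (Nat.dvd_prime hp).mp h1 with h2 | h2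
    · exact absurd (orderOf_eq_one_iff.mp h2) hg
    · exact h2
  symm
  have h2 : Function.Bijective (fun i : Fin p => g ^ (i : ℕ)) := by
    rw [Fintype.bijective_iff_injective_and_card]
    refine ⟨?_, by rw [Fintype.card_fin, hG]⟩
    intro i j hij
    apply Fin.ext
    have h3 := pow_injOn_Iio_orderOf (x := g)
    rw [ho] at h3
    exact h3 i.2 j.2 hij
  rw [← Fin.prod_univ_eq_prod_range (fun i => g ^ i • u) p]
  exact (Function.Bijective.prod_comp h2 (fun τ => τ • u)).symm

/-- A fixed point of a generator is a fixed point of the group. -/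
theorem fixed {A G : Type} [Group G] [Fintype G] [MulAction G A]
    (g : G) (p : ℕ) (hp : p.Prime) (hG : Fintype.card G = p) (hg : g ≠ 1) (u : A)
    (hu : g • u = u) (τ : G) : τ • u = u := by
  have : Fact p.Prime := ⟨hp⟩
  have h1 : τ ∈ Subgroup.zpowers g := by
    apply mem_zpowers_of_prime_card (p := p)
    · rw [Nat.card_eq_fintype_card, hG]
    · exact hg
  have h2 : Subgroup.zpowers g ≤ MulAction.stabilizer G u := by
    rw [Subgroup.zpowers_le]
    exact hu
  exact h2 h1

end UNIT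

theorem UNIT_thm (hSQ : SQ) (hABSH : ABSH) (hHERB : HERB) (hH90 : H90) (hINV : INV)
    (hRKU : RKU) (hRKF : RKF) : UNIT := by
  intro p hp F K M L _ _ _ _ _ _ _ _ _ _ _ _ _ _ _ hsq hL hM hram hrel
  obtain ⟨galKL, galML, hdeg, hcomm, ρ, hρ⟩ := hSQ p F K M L hsq
  have hcard : Fintype.card (L ≃ₐ[K] L) = p := by
    rw [← Nat.card_eq_fintype_card, IsGalois.card_aut_eq_finrank, hsq.degL]
  obtain ⟨g0, hg0⟩ : ∃ g0 : L ≃ₐ[K] L, g0 ≠ 1 := by
    have : Nontrivial (L ≃ₐ[K] L) := by
      rw [← Fintype.one_lt_card_iff_nontrivial, hcard]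
      exact hp.out.one_lt
    exact exists_ne 1
  have hg0p : g0 ^ p = 1 := by
    rw [← hcard]
    exact pow_card_eq_one
  have hc : ∀ (σ : L ≃ₐ[M] L) (x : Lˣ), σ • g0 • x = g0 • σ • x := by
    intro σ x
    apply Units.ext
    exact hcomm σ g0 x
  -- stability of the relative units
  have hst : ∀ u ∈ relU M L, g0 • u ∈ relU M L := by
    rintro u ⟨hu1, hu2⟩
    refine ⟨?_, ?_⟩
    · rw [← smul_prin, hu1, smul_one]
    · simp only [hc]
      rw [← Finset.smul_prod', hu2, smul_one]
  -- the transition to automorphisms over `F`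
  obtain ⟨r, hr⟩ : ∃ r : (L ≃ₐ[M] L) →* (L ≃ₐ[F] L), r = AlgEquiv.restrictScalarsHom F :=
    ⟨_, rfl⟩
  obtain ⟨g, hg⟩ : ∃ g : L ≃ₐ[F] L, g = AlgEquiv.restrictScalarsHom F g0 := ⟨_, rfl⟩
  have hgx : ∀ (i : ℕ) (x : Lˣ), g ^ i • x = g0 ^ i • x := by
    intro i x
    rw [hg, ← map_pow]
    rfl
  have hgx1 : ∀ (x : Lˣ), g • x = g0 • x := by
    intro x
    rw [hg]
    rfl
  have hgb : ∀ (x : J L), g • x = g0 • x := by
    intro x
    rw [hg]
    rfl
  have hrx : ∀ (σ : L ≃ₐ[M] L) (x : Lˣ), r σ • x = σ • x := by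
    intro σ x
    rw [hr]
    rfl
  have hrb : ∀ (σ : L ≃ₐ[M] L) (x : J L), r σ • x = σ • x := by
    intro σ x
    rw [hr]
    rfl
  have hD : (Fintype.card (L ≃ₐ[M] L)).Coprime p := by
    rw [← Nat.card_eq_fintype_card, IsGalois.card_aut_eq_finrank, hdeg]
    exact hsq.cop
  have hmain := hABSH p Lˣ (J L) (L ≃ₐ[F] L) (L ≃ₐ[M] L) r g prin hD
    (by rw [hg, ← map_pow, hg0p, map_one])
    (by
      intro δ
      rw [hr, hg]
      apply AlgEquiv.ext
      intro x
      exact hcomm δ g0 x)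
    (fun σ x => (smul_prin σ x).symm)
    (by
      intro x hx
      simp only [hgx] at hx
      obtain ⟨y, hy⟩ := hH90 p K L g0 hsq.degL hg0 x hx
      exact ⟨y, by rw [hgx1, hy]⟩)
    (by
      intro b hb1 hb2
      rw [hgb] at hb1
      simp only [hrb] at hb2
      obtain ⟨m, hm, γ, hγ⟩ := hINV p F K M L hsq hrel hram b
        (UNIT.fixed g0 p hp.out hcard hg0 b hb1) hb2
      refine ⟨m, hm, Units.map (algebraMap K L : K →* L) γ, ?_, hγ⟩
      rw [hgx1]
      apply Units.ext
      exact g0.commutes _)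
  -- the exact statement
  have hH1 : ∀ u ∈ relU M L, ∏ i ∈ range p, g0 ^ i • u = 1 → ∃ v ∈ relU M L, u = v / g0 • v := by
    intro u hu hN
    obtain ⟨m, hm, v, hv1, hv2, hv3⟩ := hmain u hu.1 (by simp only [hrx]; exact hu.2)
      (by simp only [hgx]; exact hN)
    simp only [hrx] at hv2
    rw [hgx1] at hv3
    exact UNIT.exact_H1 g0 (relU M L) hst p m hm u hu hN ⟨v, ⟨hv1, hv2⟩, hv3⟩
  intro e he
  obtain ⟨η, hη, heq⟩ := hHERB p Lˣ (L ≃ₐ[K] L) g0 (relU M L) (relUfix K M L) hg0p (hRKU M L).1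
    hst
    (by
      intro u
      constructor
      · rintro ⟨h1, h2⟩
        exact ⟨h1, h2 g0⟩
      · rintro ⟨h1, h2⟩
        exact ⟨h1, UNIT.fixed g0 p hp.out hcard hg0 u h2⟩)
    hH1 (hRKF p F K M L hsq hL hM) e he
  refine ⟨η, hη, ?_⟩
  rw [heq, UNIT.prod_range_eq g0 p hp.out hcard hg0]

end Pool.Agent.RI


end

section

/-!
# The relative Iwasawa theorem
-/

namespace Pool.Agent.RI

theorem finalINV : INV :=
  INV_thm SQ_thm COUNTACT_thm (INVI_thm COUNTACT_thm COUNTEXT_thm) EXTACT_thm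

theorem finalUNIT : UNIT :=
  UNIT_thm SQ_thm ABSH_thm HERB_thm H90_thm finalINV RKU_thm (RKF_thm SQ_thm RKU_thm)

theorem finalSTEP : STEP := STEP_thm SQ_thm ABS_thm H90_thm finalINV finalUNIT

theorem finalTSTEP : TSTEP := TSTEP_thm finalSTEP NSN_thm RAMB_thm INF_thm BCH_thm

theorem finalA : MAINA := MAINA_thm (BASE_thm CL_thm) BCH_thm CHIEF_thm finalTSTEP

theorem finalC : MAINC := MAINC_thm finalA LAY_thm BCH_thm RAM_thm

end Pool.Agent.RI


end
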