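import Pool.Agent.MVF.C004

/-! Parts: TWR.St, TWR.CRT, TWR.EQV, TWR.FRB, TWR.KEY, TWR.REC, TWR.STA, TWR.TRI, TWR.TWPb, TWR.TWR, TWR.ZCH -/

section

/-!
# TWR: rigidity of weight two symbols in the direction of a prime `l = 2, 3` (problem MP_b78433_nt)

Twisted layers. Proof: helper22 (one page), recurrence: helper51 / helper34. A weight two symbol is
given by the function `W x = Φ(∞, x)` on `ℚ` with values in an `R`-module `M` (in the application
`R = V` a valuation ring of `ℂ` above `p`, `p ≥ 5`, `M = ℂ / {v < 1}`). The final statement is `S_TWR`: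
a finite family of even symbols `P i`, depleted at `l` (`∑_{k<l} P i ∞ (x + k/l) = 0`), with values
in a number field, such that for every `N'` some `P i ∞ (h ∞)`, `h ∈ Γ₁(N')`, is not in the maximal
ideal: for infinitely many `n`, for ALL `i`, all `j < a` and ALL even characters `ψ` of conductor
`l^(n+j)` the sum `∑_b ψ(b) P i ∞ (b/l^(n+j))` is not in the maximal ideal.

NOTATION. `l` prime, `m ≥ 1`, `q = l^m`. `z : ℤ → R` additive character modulo `q`, `z j = ζ^j`.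
`Tw q z W e x = ∑_{j<q} ζ^(e j) W(x + j/q)`. `StarAt l m z W n u`: `Tw q z W e (c/l^n) = 0` for all
`c, e` with `e c ≡ u` modulo `q` (`u` prime to `l`, so `c`, `e` are prime to `l`).

Module `XXX`: `theorem t_XXX : S_XXX` (or `M_XXX`: with other statements as hypotheses) in
`Pool/Agent/TWR/XXX.lean`.
-/

set_option autoImplicit false

namespace Pool.Agent.TWR

open Finset OnePoint

section Defs

variable {R M : Type} [CommRing R] [AddCommGroup M] [Module R M]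

/-- `z j = ζ^j`, `ζ^q = 1`, and `1 - ζ^j` is a unit if `q ∤ j`. -/
structure Chr (q : ℕ) (z : ℤ → R) : Prop where
  add : ∀ a b : ℤ, z (a + b) = z a * z b
  per : z q = 1
  un : ∀ j : ℤ, ¬ (q : ℤ) ∣ j → IsUnit (1 - z j)

/-- `W x = Φ(∞, x)` for a weight two symbol `Φ` for `Γ₀(N)` with character `χ`. -/
structure QM (N : ℕ) (χ : ℤ → R) (W : ℚ → M) : Prop where
  per : ∀ x : ℚ, W (x + 1) = W x
  one : χ 1 = 1
  chi : ∀ d d' : ℤ, (N : ℤ) ∣ d - d' → χ d = χ d'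
  eqv : ∀ a b c d : ℤ, a * d - b * c = 1 → (N : ℤ) ∣ c → c ≠ 0 → ∀ x : ℚ, (c : ℚ) * x + d ≠ 0 →
    W ((a * x + b) / (c * x + d)) = W ((a : ℚ) / c) + χ d • W x

/-- `Tw q z W e x = ∑_{j<q} ζ^(e j) W(x + j/q)` -/
def Tw (q : ℕ) (z : ℤ → R) (W : ℚ → M) (e : ℤ) (x : ℚ) : M :=
  ∑ j ∈ range q, z (e * j) • W (x + (j : ℚ) / q)

/-- the relations at level `n` with label `u` -/
def StarAt (l m : ℕ) (z : ℤ → R) (W : ℚ → M) (n : ℕ) (u : ℤ) : Prop :=
  ∀ c e : ℤ, ((l ^ m : ℕ) : ℤ) ∣ e * c - u → Tw (l ^ m) z W e ((c : ℚ) / (l : ℚ) ^ n) = 0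

end Defs

/-! ### 1. The operators `Tw` -/

/-- TWP (80 lines), elementary properties. Proof. `z` is multiplicative with `z 0 = 1` (`z q = z q * z 0`),
so `z (q k) = 1` for `k ∈ ℤ` (`z (-q) * z q = z 0`), so `z` has period `q`. A sum over `range q` of a
`q`-periodic function `F : ℤ → M` does not change under `j ↦ j + 1` and under `j ↦ t j` if
`IsCoprime t q` (e.g. as a sum over `ZMod q`). (a) `W (x+1) = W x`. (b) `F j = z (e j) • W (x + j/q)` is
periodic; `Tw e (x + 1/q) = ∑ z (e j) • W (x + (j+1)/q) = z (-e) • ∑ z (e (j+1)) • W (x + (j+1)/q)`.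
(c) `z (e j) = z (e' j)`. (d) the definition. -/
def S_TWP : Prop := ∀ (R M : Type) [CommRing R] [AddCommGroup M] [Module R M] (q : ℕ) (_ : q ≠ 0)
  (z : ℤ → R) (_ : Chr q z) (W : ℚ → M) (_ : ∀ x, W (x + 1) = W x),
  z 0 = 1 ∧ (∀ a b : ℤ, (q : ℤ) ∣ a - b → z a = z b) ∧
  (∀ (F : ℤ → M) (_ : ∀ j, F (j + q) = F j) (t : ℤ), IsCoprime t (q : ℤ) →
    ∑ j ∈ range q, F (t * j) = ∑ j ∈ range q, F j) ∧
  (∀ (e n : ℤ) (x : ℚ), Tw q z W e (x + n) = Tw q z W e x) ∧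
  (∀ (e : ℤ) (x : ℚ), Tw q z W e (x + 1 / q) = z (-e) • Tw q z W e x) ∧
  (∀ (e e' : ℤ) (x : ℚ), (q : ℤ) ∣ e - e' → Tw q z W e x = Tw q z W e' x) ∧
  (∀ (a e : ℤ) (x : ℚ), Tw q (fun j => z (a * j)) W e x = Tw q z W (a * e) x)

/-- EQV (150 lines). Proof. For `j ∈ ℤ` let `a' = a + j c/q`, `d' = d - c j d²/q`,
`b' = b + (j d - j d² a)/q - j² d² c/q²` (integers: `q² ∣ c` and `j d (1 - a d) = - j d b c`). Then
`a' d' - b' c = 1`, `N ∣ c`, `d' ≡ d` modulo `N` (`N q ∣ c`), `c (x + j d²/q) + d' = c x + d ≠ 0` and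
`(a x + b)/(c x + d) + j/q = (a' (x + j d²/q) + b')/(c (x + j d²/q) + d')`. So by `QM.eqv`
`W (g x + j/q) = W (a/c + j/q) + χ d • W (x + j d²/q)`. Sum with `z (e j)`:
`Tw e (g x) = Tw e (a/c) + χ d • ∑_j z (e j) • W (x + j d²/q)`. In the last sum replace `j` by `a² j`
(`TWP`, third clause: `a` is prime to `q` because `a d - b c = 1`, `q ∣ c`): `z (e a² j)` and
`W (x + a² d² j/q) = W (x + j/q)` because `a² d² - 1 = (a d - 1)(a d + 1) = b c (a d + 1)` is divisible by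
`q`. -/
def S_EQV : Prop := ∀ (R M : Type) [CommRing R] [AddCommGroup M] [Module R M] (q : ℕ) (_ : q ≠ 0)
  (z : ℤ → R) (_ : Chr q z) (N : ℕ) (χ : ℤ → R) (W : ℚ → M) (_ : QM N χ W) (e a b c d : ℤ)
  (x : ℚ), a * d - b * c = 1 → ((N * q * q : ℕ) : ℤ) ∣ c → c ≠ 0 → (c : ℚ) * x + d ≠ 0 →
  Tw q z W e ((a * x + b) / (c * x + d)) = Tw q z W e ((a : ℚ) / c) + χ d • Tw q z W (e * a ^ 2) x

def M_EQV : Prop := S_TWP → S_EQV

/-- EDG (130 lines), the edges. Proof. `q = l^m`. Choose `b, d` with `A d - b C = 1`, and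
`c' = d B - b D`, `x = c'/l^n`. Then `A c' + b l^n = B` and `C c' + d l^n = D` (insert
`l^n = A D - B C`), so `C x + d = D/l^n ≠ 0` and `(A x + b)/(C x + d) = B/D`. By `EQV`:
`Tw e (B/D) = Tw e (A/C) + χ d • Tw (e A²) (c'/l^n)`. Modulo `q`: `A D = l^n + B C ≡ 0` (`n ≥ m`) and `A` is
a unit, so `D ≡ 0`, `c' ≡ d B`, `e A² c' ≡ e A B (A d) ≡ e A B ≡ u`: the last term is `0` by `StarAt`. -/
def S_EDG : Prop := ∀ (R M : Type) [CommRing R] [AddCommGroup M] [Module R M] (l m : ℕ)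
  (_ : l.Prime) (z : ℤ → R) (_ : Chr (l ^ m) z) (N : ℕ) (χ : ℤ → R) (W : ℚ → M) (_ : QM N χ W)
  (n : ℕ) (u : ℤ) (_ : StarAt l m z W n u) (e A B C D : ℤ), m ≤ n →
  ((N * l ^ m * l ^ m : ℕ) : ℤ) ∣ C → C ≠ 0 → D ≠ 0 → IsCoprime A C → A * D - B * C = l ^ n →
  ((l ^ m : ℕ) : ℤ) ∣ e * A * B - u →
  Tw (l ^ m) z W e ((B : ℚ) / D) = Tw (l ^ m) z W e ((A : ℚ) / C)

def M_EDG : Prop := S_EQV → S_EDG

/-! ### 2. Combinatorics and congruences -/

/-- REC (170 lines), recurrence. Proof. Let `I ≠ ∅` (otherwise the hypothesis is false), `s = card I`,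
`w = m + a`. For `n ≥ n0 + s w` and `k ≤ s` choose `j_k < a`, `i_k`, `u_k` with
`T (n - k w + j_k) i_k u_k`. Two of the `i_k` are equal, `k < k'`: with `e = n - k w + j_k`,
`e' = n - k' w + j_k'`: `e - e' ≥ w - (a - 1) ≥ m`, `e - e' ≤ s w + a`. So every `n ≥ n0 + s w` has a label
`(i, u, u', r, d)` (`r = n + a - e ≤ s w + a`, `m ≤ d ≤ s w + a`) in a finite set with `T (n + a - r) i u` and
`T (n + a - r - d) i u'`. LEMMA: `f : ℕ → α`, `α` finite, `K ∈ ℕ`: there is `n* ≥ K` such that for every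
`q ≥ 1` there is `o ≥ 1`, `q ∣ o`, `f (n* + o) = f n*`. [Among all progressions
`P = {n ≥ K : n ≡ c mod t}`, `t ≥ 1`, choose one for which the finite set `V(P)` of the values taken
infinitely often on `P` has the smallest number of elements; `V(P) ≠ ∅`. Let `n* ∈ P`, `f n* ∈ V(P)`. The
progression `P' = {n ≥ K : n ≡ n* mod t q}` is contained in `P`, so `V(P') ⊆ V(P)`, so equal, so
`f n* ∈ V(P')`.] Apply it to the label (on `n ≥ n0 + s w`), `K` large, and put `E + d = n* + a - r`. -/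
def S_REC : Prop := ∀ (I U : Type) [Finite I] [Finite U] (T : ℕ → I → U → Prop) (a m n0 K : ℕ),
  1 ≤ a → (∀ n, n0 ≤ n → ∃ j < a, ∃ i u, T (n + j) i u) →
  ∃ (E d : ℕ) (i : I) (u u' : U), K ≤ E ∧ m ≤ d ∧ d + m ≤ E ∧ T E i u' ∧ T (E + d) i u ∧
    ∀ q, 1 ≤ q → ∃ o, 1 ≤ o ∧ q ∣ o ∧ T (E + d + o) i u

/-- CRT (90 lines). Proof. The moduli `N0`, `l^m`, `δ` are pairwise coprime. `B0 = β l^E + u' δ` is prime to
`δ` (`β`, `l` are). By the Chinese remainder theorem there is `m1` with `N0 ∣ m1`,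
`m1 ≡ u (u'² δ)⁻¹` modulo `l^m` (inverse modulo `l^m`, `u'`, `δ` are prime to `l`) and
`m1 ≡ - l^d B0⁻¹` modulo `δ`. It is prime to `l` because `u` is and `m ≥ 1`. -/
def S_CRT : Prop := ∀ (l m N0 E d : ℕ) (β δ u u' : ℤ), l.Prime → 1 ≤ m → N0 ≠ 0 →
  IsCoprime (N0 : ℤ) (l : ℤ) → IsCoprime δ ((N0 : ℤ) * l) → IsCoprime β δ →
  IsCoprime u (l : ℤ) → IsCoprime u' (l : ℤ) →
  ∃ m1 : ℤ, (N0 : ℤ) ∣ m1 ∧ ((l ^ m : ℕ) : ℤ) ∣ m1 * (u' ^ 2 * δ) - u ∧
    δ ∣ m1 * (β * l ^ E + u' * δ) + l ^ d ∧ IsCoprime m1 (l : ℤ)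

/-- CST (50 lines). Proof. `H : ℤ → M` has the periods `P` and `T`, so all integer combinations of them,
so `gcd(P, T) = l^s` with `s ≤ r` (`P = l^k`, `T = l^t T0`, `T0` prime to `l`, `s ≤ t`), so `l^r`. So
`H s = H (s + l^r) = ζ • H s`, `(1 - ζ) • H s = 0`. -/
def S_CST : Prop := ∀ (R M : Type) [CommRing R] [AddCommGroup M] [Module R M] (l k t r : ℕ)
  (T0 : ℤ) (y : R) (H : ℤ → M), IsCoprime T0 (l : ℤ) → t ≤ r → IsUnit (1 - y) →
  (∀ s, H (s + l ^ k) = H s) → (∀ s, H (s + l ^ t * T0) = H s) → (∀ s, H (s + l ^ r) = y • H s) →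
  ∀ s, H s = 0

/-! ### 3. The main step -/

/-- KEY (260 lines). Proof. `q = l^m`, `N = l^v N0`. Fix `β`, `δ`. Let `m1` be as in `CRT`,
`B0 = β l^E + u' δ`, `D = δ l^E`, `B s = B0 + s q δ`, so `x_s := β/δ + (u' + s q)/l^E = B s/D`.
`H s := Tw q z W 1 x_s`. Periods: (i) `H (s + l^(E-m)) = H s` because `x_(s + l^(E-m)) = x_s + 1`.
(ii) Let `A s = (m1 B0 + l^d)/δ + m1 s q`, `C = l^E m1 ≠ 0`. `N q q ∣ C` because `E ≥ v + 2m`, `N0 ∣ m1`.
`A s · D - B s · C = l^(E+d)`. `δ A s ≡ m1 B0 ≡ m1 u' δ` modulo `q` (`d ≥ m`, `E ≥ m`), so `A s ≡ m1 u'`,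
`A s · B s ≡ m1 u' · u' δ ≡ u` modulo `q`; `A s` is prime to `l` and (by the determinant) to `C`. `EDG`
(`e = 1`, `n = E + d`): `H s = Tw 1 (A s/C)`. Choose `t ≥ 1` with `δ m1 ∣ l^t - 1` (`δ m1` is prime to
`l`) and (recurrence) `o ≥ 1`, `t ∣ o`, with `StarAt` at `E + d + o`; `T0 = (1 - l^o)/(δ m1)` (an integer,
independent of `s`, prime to `l`), `T = l^(d-m) T0`. Then
`A s · D - B (s + T) · C = l^(E+d) - T q δ l^E m1 = l^(E+d) - l^(E+d) (1 - l^o) = l^(E+d+o)` and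
`B (s + T) ≡ B s` modulo `q`: `EDG` with `n = E + d + o`: `H (s + T) = Tw 1 (A s/C) = H s`.
(iii) `x_(s + l^(E-2m)) = x_s + 1/q`: `H (s + l^(E-2m)) = z (-1) • H s` (`TWP`). As
`d - m ≤ E - 2m` and `1 - z (-1)` is a unit (`m ≥ 1`): `CST`. -/
def S_KEY : Prop := ∀ (R M : Type) [CommRing R] [AddCommGroup M] [Module R M] (l m : ℕ)
  (_ : l.Prime) (_ : 1 ≤ m) (z : ℤ → R) (_ : Chr (l ^ m) z) (N0 v : ℕ) (_ : N0 ≠ 0)
  (_ : IsCoprime (N0 : ℤ) (l : ℤ)) (χ : ℤ → R) (W : ℚ → M) (_ : QM (l ^ v * N0) χ W)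
  (E d : ℕ) (u u' : ℤ) (_ : v + 2 * m ≤ E) (_ : m ≤ d) (_ : d + m ≤ E)
  (_ : IsCoprime u (l : ℤ)) (_ : IsCoprime u' (l : ℤ))
  (_ : StarAt l m z W E u') (_ : StarAt l m z W (E + d) u)
  (_ : ∀ q, 1 ≤ q → ∃ o, 1 ≤ o ∧ q ∣ o ∧ StarAt l m z W (E + d + o) u),
  ∀ β δ s : ℤ, δ ≠ 0 → IsCoprime δ ((N0 : ℤ) * l) → IsCoprime β δ →
    Tw (l ^ m) z W 1 ((β : ℚ) / δ + ((u' : ℚ) + s * (l : ℚ) ^ m) / (l : ℚ) ^ E) = 0

def M_KEY : Prop := S_TWP → S_EDG → S_CRT → S_CST → S_KEY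

/-- CLO (170 lines). Proof. `q = l^m`, `K = E + m`. Let `g = (a b; c d1)`, `l^K N ∣ c`, `l^K N ∣ d1 - 1`,
so `a ≡ 1` modulo `l^K N`. `x = u'/l^E`, `c = l^E c'`, `δ' = c' u' + d1`, `R' = a u' + b l^E`:
`c x + d1 = δ' ≠ 0` (`δ' ≡ 1` modulo `l`), `g x = R'/(l^E δ')`. `δ' ≡ 1` modulo `q` and modulo `N0`, `R' ≡ u'` modulo `q`.
Choose `s` with `(u' + s q) δ' ≡ R'` modulo `l^E` (`R' - u' δ' ≡ 0` modulo `q`, `δ'` is prime to `l`,
`E ≥ m`) and `β' = (R' - (u' + s q) δ')/l^E`: `g x = β'/δ' + (u' + s q)/l^E`.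
`a δ' - c' R' = a d1 - b c = 1`, so `R'` and `δ'` are coprime, so `β'` and `δ'`. `KEY`: `Tw 1 (g x) = 0`.
`EQV` (`e = 1`): `Tw 1 (g x) = Tw 1 (a/c) + χ d1 • Tw (a²) x`, and `Tw (a²) x = 0` by `StarAt` at `E`
(`a² u' ≡ u'` modulo `q`). So `Tw 1 (a/c) = 0`. -/
def S_CLO : Prop := ∀ (R M : Type) [CommRing R] [AddCommGroup M] [Module R M] (l m : ℕ)
  (_ : l.Prime) (_ : 1 ≤ m) (z : ℤ → R) (_ : Chr (l ^ m) z) (N0 v : ℕ) (_ : N0 ≠ 0)
  (_ : IsCoprime (N0 : ℤ) (l : ℤ)) (χ : ℤ → R) (W : ℚ → M) (_ : QM (l ^ v * N0) χ W)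
  (E d : ℕ) (u u' : ℤ) (_ : v + 2 * m ≤ E) (_ : m ≤ d) (_ : d + m ≤ E)
  (_ : IsCoprime u (l : ℤ)) (_ : IsCoprime u' (l : ℤ))
  (_ : StarAt l m z W E u') (_ : StarAt l m z W (E + d) u)
  (_ : ∀ q, 1 ≤ q → ∃ o, 1 ≤ o ∧ q ∣ o ∧ StarAt l m z W (E + d + o) u) (a b c d1 : ℤ),
  a * d1 - b * c = 1 → ((l ^ (E + m) * (l ^ v * N0) : ℕ) : ℤ) ∣ c →
  ((l ^ (E + m) * (l ^ v * N0) : ℕ) : ℤ) ∣ d1 - 1 → c ≠ 0 →
  Tw (l ^ m) z W 1 ((a : ℚ) / c) = 0

def M_CLO : Prop := S_TWP → S_EQV → S_KEY → S_CLO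

/-- SUM (110 lines). Proof. (i) `e = l e'`, `j = j0 + l^(m-1) k`, `j0 < l^(m-1)`, `k < l`:
`z (e j) = z (e j0)` (`q ∣ l l^(m-1) e' k`) and `x + j/q = (x + j0/q) + k/l`: the sum over `k` is `0`.
(ii) `∑_{e<q} Tw e x = ∑_{j<q} (∑_{e<q} z (e j)) • W (x + j/q)`; for `0 < j < q`
`(1 - z j) ∑_{e<q} z (e j) = 1 - z (q j) = 0`, so the inner sum is `0`; for `j = 0` it is `q`. -/
def S_SUM : Prop := ∀ (R M : Type) [CommRing R] [AddCommGroup M] [Module R M] (l m : ℕ)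
  (_ : l.Prime) (_ : 1 ≤ m) (z : ℤ → R) (_ : Chr (l ^ m) z) (W : ℚ → M)
  (_ : ∀ x, W (x + 1) = W x) (_ : ∀ x : ℚ, ∑ k ∈ range l, W (x + (k : ℚ) / l) = 0),
  (∀ (e : ℤ) (x : ℚ), (l : ℤ) ∣ e → Tw (l ^ m) z W e x = 0) ∧
  (∀ x : ℚ, ∑ e ∈ range (l ^ m), Tw (l ^ m) z W e x = ((l ^ m : ℕ) : R) • W x)

def M_SUM : Prop := S_TWP → S_SUM

/-- MOD (100 lines). Proof. Let `a/c` be as in the conclusion. For `e` prime to `l` apply `CLO` to
`z' j = z (e j)` and the labels `f u`, `f u'`, `e f ≡ 1` modulo `q`: `Tw z' g x = Tw z (e g) x` (`TWP`), so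
`StarAt z' n (f u)` follows from `StarAt z n u` (`q ∣ g c - f u` implies `q ∣ (e g) c - u`), and
`Tw z e (a/c) = Tw z' 1 (a/c) = 0`. For `l ∣ e` `SUM` (i). Then `SUM` (ii): `q • W (a/c) = 0`, and `q = l^m` is a
unit of `R`. -/
def S_MOD : Prop := ∀ (R M : Type) [CommRing R] [AddCommGroup M] [Module R M] (l m : ℕ)
  (_ : l.Prime) (_ : 1 ≤ m) (_ : IsUnit (l : R)) (z : ℤ → R) (_ : Chr (l ^ m) z) (N0 v : ℕ)
  (_ : N0 ≠ 0) (_ : IsCoprime (N0 : ℤ) (l : ℤ)) (χ : ℤ → R) (W : ℚ → M)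
  (_ : QM (l ^ v * N0) χ W) (_ : ∀ x : ℚ, ∑ k ∈ range l, W (x + (k : ℚ) / l) = 0)
  (E d : ℕ) (u u' : ℤ) (_ : v + 2 * m ≤ E) (_ : m ≤ d) (_ : d + m ≤ E)
  (_ : IsCoprime u (l : ℤ)) (_ : IsCoprime u' (l : ℤ))
  (_ : StarAt l m z W E u') (_ : StarAt l m z W (E + d) u)
  (_ : ∀ q, 1 ≤ q → ∃ o, 1 ≤ o ∧ q ∣ o ∧ StarAt l m z W (E + d + o) u) (a b c d1 : ℤ),
  a * d1 - b * c = 1 → ((l ^ (E + m) * (l ^ v * N0) : ℕ) : ℤ) ∣ c →
  ((l ^ (E + m) * (l ^ v * N0) : ℕ) : ℤ) ∣ d1 - 1 → c ≠ 0 → W ((a : ℚ) / c) = 0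

def M_MOD : Prop := S_TWP → S_CLO → S_SUM → S_MOD

/-! ### 4. From one character to the relations -/

/-- FRB (220 lines), Frobenius. Proof. `q0 = #(𝓞 K / P)`, `P = m_V ∩ 𝓞 K`, a power of `p`, and `q = q0²`;
`24 ∣ q - 1` because `p ≥ 5`. Let `ξ^n = 1`, `p ∤ n`, `L = K(ξ)`, a Galois number field over `K`, `Q = m_V ∩ 𝓞 L`, and
let `σ ∈ Gal(L/K)` be an arithmetic Frobenius at `Q` (`IsArithFrobAt.exists_of_isInvariant`):
`σ y ≡ y^q0` modulo `Q` for `y ∈ 𝓞 L`. So `σ Q = Q`, and for `y ∈ L`: `v(y) < 1` implies `v(σ y) < 1` (`V ∩ L` is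
the localisation of `𝓞 L` at `Q`: `y = y1/s`, `y1 ∈ Q`, `s ∈ 𝓞 L`, `s ∉ Q`; or: the valuation subrings
`V ∩ L` and `σ⁻¹ (V ∩ L)` have the same centre `Q` on `𝓞 L`). The `n`-th roots of unity are
different modulo `Q` (their differences divide `n`), so `σ ξ = ξ^q0`. Apply `σ` twice to
`∑ x_i ξ^i` (`σ x_i = x_i`). (`P` is a nonzero prime as `V` contains `p` in its maximal ideal;
`#(𝓞 K/P)` is finite, a power of `p`.) -/
def S_FRB : Prop := ∀ (V : ValuationSubring ℂ) (p : ℕ) (_ : p.Prime) (_ : 5 ≤ p)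
  (_ : V.valuation (p : ℂ) < 1) (K : IntermediateField ℚ ℂ) (_ : FiniteDimensional ℚ K),
  ∃ q : ℕ, 1 < q ∧ 24 ∣ q - 1 ∧ ∀ (n : ℕ) (_ : n ≠ 0) (_ : ¬ p ∣ n) (ξ : ℂ) (_ : ξ ^ n = 1)
    (x : ℕ → ℂ) (_ : ∀ i, x i ∈ K), V.valuation (∑ i ∈ range n, x i * ξ ^ i) < 1 →
    V.valuation (∑ i ∈ range n, x i * ξ ^ (q * i)) < 1

/-- TRI (130 lines), the trace of a root of unity. `m` is the exact exponent of `l` in `q - 1`
(`l = 2`: `m ≥ 2`). Proof. If `η^(l^m) = 1` then `η^(q^j) = η` and the sum is `l^r η`. Otherwise let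
`l^s`, `s > m`, be the order of `η`. The order of `q` modulo `l^s` is `l^(s-m)` (lifting the exponent:
`v_l(q^j - 1) = m + v_l(j)`), `s - m ≤ r`, and the powers `η^(q^j)`, `j < l^(s-m)`, are different
elements of `η μ_{l^(s-m)}` (`(η^(q^j - 1))^(l^(s-m)) = 1`), so all of them; the sum over
`j < l^(s-m)` is `η ∑_{μ} = 0`, and the sum over `j < l^r` is a multiple of it (period `l^(s-m)`). -/
def S_TRI : Prop := ∀ (l m r q : ℕ) (_ : l.Prime) (_ : 1 ≤ m) (_ : l = 2 → 2 ≤ m)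
  (_ : l ^ m ∣ q - 1) (_ : ¬ l ^ (m + 1) ∣ q - 1) (_ : 1 ≤ q) (η : ℂ) (_ : η ^ (l ^ (m + r)) = 1),
  ∑ j ∈ range (l ^ r), η ^ (q ^ j) = if η ^ (l ^ m) = 1 then (l : ℂ) ^ r * η else 0

/-- TRS (120 lines). Proof. `n = l^(m+r)`. By `FRB`-property `j` times:
`v(∑_t x_t ξ^(q^j t)) < 1` for all `j` (use `ξ^(q^j)` in place of `ξ`). Multiply by
`ξ^(-q^j t0)` (valuation `1`) and sum over `j < l^r`: `v(∑_t x_t Tr(ξ^(t - t0))) < 1`,
`Tr η = ∑_{j<l^r} η^(q^j)` (`TRI`; for `t < t0` use `ξ^(t + n - t0)`): it is `l^r ξ^(t-t0)` if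
`l^r ∣ t - t0` (`ξ` is primitive of order `l^(m+r)`, so `(ξ^(t-t0))^(l^m) = 1` iff `l^r ∣ t - t0`) and
`0` otherwise. The `t < n` with `l^r ∣ t - t0` are the residues of `t0 + l^r i`, `i < l^m`. Divide by
`l^r` (`v l = 1`). -/
def S_TRS : Prop := ∀ (V : ValuationSubring ℂ) (l m r q : ℕ) (_ : l.Prime) (_ : 1 ≤ m)
  (_ : l = 2 → 2 ≤ m) (_ : l ^ m ∣ q - 1) (_ : ¬ l ^ (m + 1) ∣ q - 1) (_ : 1 ≤ q)
  (_ : V.valuation (l : ℂ) = 1) (K : IntermediateField ℚ ℂ)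
  (_ : ∀ (ξ : ℂ) (_ : ξ ^ (l ^ (m + r)) = 1) (x : ℕ → ℂ) (_ : ∀ i, x i ∈ K),
    V.valuation (∑ i ∈ range (l ^ (m + r)), x i * ξ ^ i) < 1 →
    V.valuation (∑ i ∈ range (l ^ (m + r)), x i * ξ ^ (q * i)) < 1)
  (ξ : ℂ) (_ : IsPrimitiveRoot ξ (l ^ (m + r))) (x : ℕ → ℂ) (_ : ∀ i, x i ∈ K)
  (_ : ∀ i, x (i + l ^ (m + r)) = x i)
  (_ : V.valuation (∑ t ∈ range (l ^ (m + r)), x t * ξ ^ t) < 1) (t0 : ℕ),
  V.valuation (∑ i ∈ range (l ^ m), ξ ^ (l ^ r * i) * x (t0 + l ^ r * i)) < 1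

def M_TRS : Prop := S_TRI → S_TRS

/-- the generator `g = 1 + l^h` of the units modulo `± 1`: `(l, g, h) = (3, 4, 1)` or `(2, 5, 2)` -/
def Gen (l g h : ℕ) : Prop := (l = 3 ∧ g = 4 ∧ h = 1) ∨ (l = 2 ∧ g = 5 ∧ h = 2)

/-- GPW (170 lines), the powers of `g = 1 + l^h`. Proof. (i) By induction on `k` (raise to the power
`l`): `g^(l^k) = 1 + l^(k+h) w`, `w` prime to `l`. (ii) so `g` has order `l^(n-h)` modulo
`l^n` (`n ≥ h`); `g ≡ 1` modulo `l^h`, so no power of `g` is `≡ -1` (modulo `3`, modulo `4`), so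
`± g^t`, `t < l^(n-h)`, are `2 l^(n-h) = φ(l^n)` different units: all of them, once each. (iii) from (i)
with `k = r`, `n = m + r + h`, if `n ≤ 2 (r + h)`: `(1 + l^(r+h) w)^i ≡ 1 + l^(r+h) w i` modulo `l^n`. -/
def S_GPW : Prop := ∀ (l g h : ℕ), Gen l g h →
  (∀ k : ℕ, ∃ w : ℤ, IsCoprime w (l : ℤ) ∧ (g : ℤ) ^ (l ^ k) = 1 + (l : ℤ) ^ (k + h) * w) ∧
  (∀ k : ℕ, (g : ZMod (l ^ (k + h))) ^ (l ^ k) = 1) ∧
  (∀ (k : ℕ) (F : ZMod (l ^ (k + h)) → ℂ) (_ : ∀ c, ¬ IsUnit c → F c = 0),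
    ∑ c ∈ range (l ^ (k + h)), F c = ∑ t ∈ range (l ^ k), (F ((g : ZMod (l ^ (k + h))) ^ t) +
      F (-(g : ZMod (l ^ (k + h))) ^ t))) ∧
  (∀ (k : ℕ) (c : ℤ), IsCoprime c (l : ℤ) → ∃ t : ℕ,
    (c : ZMod (l ^ (k + h))) = (g : ZMod (l ^ (k + h))) ^ t ∨
    (c : ZMod (l ^ (k + h))) = -(g : ZMod (l ^ (k + h))) ^ t) ∧
  (∀ (m r : ℕ) (w : ℤ), (g : ℤ) ^ (l ^ r) = 1 + (l : ℤ) ^ (r + h) * w → m ≤ r + h → ∀ i : ℕ,
    ((l ^ (m + r + h) : ℕ) : ℤ) ∣ (g : ℤ) ^ (l ^ r * i) - (1 + (l : ℤ) ^ (r + h) * w * i))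

/-- STA (230 lines), from one bad character to the relations. `n = m + r + h`, `ζ` = `exp(2 π i/l^m)`.
Proof. `ψ(-1) = 1` and `P` is even and has period `1`: by `GPW` (third clause, `F c = ψ(c) P(c/l^n)`,
well defined on `ZMod (l^n)`) `∑_b ψ(b) P(b/l^n) = 2 ∑_{t<l^(m+r)} ψ(g)^t P(g^t/l^n)`, `v 2 = 1`. `ξ = ψ(g)` is a
primitive root of order `l^(m+r)`: `ξ^(l^(m+r)) = ψ(1) = 1`, and `ξ^(l^(m+r-1)) = ψ(g^(l^(m+r-1))) ≠ 1`, because
`g^(l^(m+r-1)) ≡ 1 + l^(n-1) w` generates the kernel of reduction modulo `l^(n-1)`, as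
`1 + l^(n-1)`: `1 + l^(n-1) = (1 + l^(n-1) w)^i` modulo `l^n`, `i w ≡ 1` modulo `l`. `TRS` with `x_t = P(g^t/l^n)`
(in `K`, periodic in `t` with period `l^(m+r)`): for all `t0`
`v(∑_{i<l^m} ξ^(l^r i) P(g^(t0 + l^r i)/l^n)) < 1`. With `g^(l^r) = 1 + l^(r+h) w` and the last
clause of `GPW` (`m ≤ r + h`): `g^(t0 + l^r i)/l^n ≡ c/l^n + c w i/l^m` modulo `1`, `c = g^t0`. `ξ^(l^r) = ζ^k0`,
`k0` prime to `l`. Substitution `j = c w i` modulo `l^m` (`TWP`, third clause, or `ZMod`): if `e c ≡ u`,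
`u w ≡ k0` modulo `l^m`, then `ζ^(e j) = ζ^(e c w i) = ζ^(k0 i)`: this is
`v(∑_j ζ^(e j) P(c/l^n + j/l^m)) < 1`. The left side depends on `c` modulo `l^n` only (if `e` is
fixed), so this is the claim for all `c ≡ g^t0`; for `c ≡ - g^t0` use `P(-x) = P(x)` and
`j ↦ -j` (`e c = (-e)(-c)`). -/
def S_STA : Prop := ∀ (V : ValuationSubring ℂ) (l g h m r q : ℕ) (_ : Gen l g h) (_ : 1 ≤ m)
  (_ : l = 2 → 2 ≤ m) (_ : 1 ≤ r) (_ : m ≤ r + h) (_ : l ^ m ∣ q - 1)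
  (_ : ¬ l ^ (m + 1) ∣ q - 1) (_ : 1 ≤ q) (_ : V.valuation (l : ℂ) = 1)
  (_ : V.valuation (2 : ℂ) = 1) (K : IntermediateField ℚ ℂ)
  (_ : ∀ (ξ : ℂ) (_ : ξ ^ (l ^ (m + r)) = 1) (x : ℕ → ℂ) (_ : ∀ i, x i ∈ K),
    V.valuation (∑ i ∈ range (l ^ (m + r)), x i * ξ ^ i) < 1 →
    V.valuation (∑ i ∈ range (l ^ (m + r)), x i * ξ ^ (q * i)) < 1)
  (P : ℚ → ℂ) (_ : ∀ x, P (x + 1) = P x) (_ : ∀ x, P (-x) = P x) (_ : ∀ x, P x ∈ K)
  (ψ : DirichletCharacter ℂ (l ^ (m + r + h))) (_ : ψ (-1) = 1)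
  (_ : ψ (1 + (l : ZMod (l ^ (m + r + h))) ^ (m + r + h - 1)) ≠ 1)
  (_ : V.valuation (∑ b ∈ range (l ^ (m + r + h)), ψ b * P ((b : ℚ) / (l : ℚ) ^ (m + r + h))) < 1),
  ∃ u : ℤ, IsCoprime u (l : ℤ) ∧ 0 ≤ u ∧ u < l ^ m ∧ ∀ c e : ℤ, ((l ^ m : ℕ) : ℤ) ∣ e * c - u →
    V.valuation (∑ j ∈ range (l ^ m), Complex.exp (2 * Real.pi * Complex.I / (l ^ m : ℕ)) ^
      (e * (j : ℤ)) * P ((c : ℚ) / (l : ℚ) ^ (m + r + h) + (j : ℚ) / (l ^ m : ℕ))) < 1

def M_STA : Prop := S_GPW → S_TRS → S_STA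

/-- ZCH (90 lines). Proof. `ζ = exp(2 π i/q)`, `q = l^m`, is a root of unity, so in `V`. `1 - ζ^j` for
`q ∤ j` divides `∏_{0<i<q} (1 - ζ^i) = q` in `ℤ[ζ] ⊆ V`, and `v q = 1`, so `v(1 - ζ^j) = 1`. -/
def S_ZCH : Prop := ∀ (V : ValuationSubring ℂ) (l m : ℕ) (_ : l.Prime)
  (_ : V.valuation (l : ℂ) = 1), ∃ z : ℤ → V, Chr (l ^ m) z ∧
  ∀ j : ℤ, (z j : ℂ) = Complex.exp (2 * Real.pi * Complex.I / (l ^ m : ℕ)) ^ j

/-! ### 5. The theorem -/

/-- TWR (250 lines). Proof. Suppose the contrary: there is `n0` such that for all `n ≥ n0` there are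
`j < a`, `i ∈ I` and an even `ψ` of conductor `l^(n+j)` with small sum. Let `q` be as in `FRB`, `m` the exponent
of `l` in `q - 1` (`≥ 1`, `≥ 3` for `l = 2`). `STA` for `n + j = m + r + h` (`n` large): label
`u ∈ U = {0, …, l^m - 1}` prime to `l`. `R = V`, `M = ℂ ⧸ {v < 1}` (a `V`-submodule of `ℂ`), `z` from `ZCH`,
`W i x` = the class of `P i ∞ x`; `T n i u := IsCoprime u l ∧ StarAt l m z (W i) n u` (the sum of
`StarAt` is the class of the sum of `STA`). `REC`: `E`, `d`, `i`, `u`, `u'` (`K = v + 2 m` large). `W i` is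
`QM N χ`, `χ d = ⟨nu i d, _⟩`, by `IsSym` (`mob` at `∞` and at `x`; `c ≠ 0`; `c = 0`: `x + 1`), and
depleted. `MOD`: `v(P i ∞ (a/c)) < 1` for all `(a b; c d1)` in `Γ₁(N')`, `N' = l^(E+m) N`, `c ≠ 0`. Against
the hypothesis for `N'` (there `c ≠ 0`, as `P i ∞ ∞ = 0`). -/
def S_TWR : Prop := ∀ (l g h : ℕ) (_ : Gen l g h) (V : ValuationSubring ℂ) (p : ℕ) (_ : p.Prime)
  (_ : 5 ≤ p) (_ : V.valuation (p : ℂ) < 1) (K : IntermediateField ℚ ℂ)
  (_ : FiniteDimensional ℚ K) (I : Type) [Finite I] (N : ℕ) (_ : N ≠ 0) (nu : I → ℤ → ℂ)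
  (_ : ∀ i d, V.valuation (nu i d) ≤ 1) (_ : ∀ i, nu i 1 = 1)
  (_ : ∀ i (d d' : ℤ), (N : ℤ) ∣ d - d' → nu i d = nu i d')
  (P : I → OnePoint ℚ → OnePoint ℚ → ℂ) (_ : ∀ i, _root_.MU3.IsSym N (nu i) (P i))
  (_ : ∀ i (x : ℚ), P i ∞ (x : OnePoint ℚ) ∈ K)
  (_ : ∀ i (x : ℚ), P i ∞ ((-x : ℚ) : OnePoint ℚ) = P i ∞ (x : OnePoint ℚ))
  (_ : ∀ i (x : ℚ), ∑ k ∈ range l, P i ∞ ((x + (k : ℚ) / l : ℚ) : OnePoint ℚ) = 0)
  (_ : ∀ i (N' : ℕ), N' ≠ 0 → N ∣ N' → ∃ a b c d : ℤ, a * d - b * c = 1 ∧ (N' : ℤ) ∣ c ∧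
    (N' : ℤ) ∣ d - 1 ∧ 1 ≤ V.valuation (P i ∞ (Pool.Agent.MuSym.mob a b c d ∞)))
  (a : ℕ) (_ : 1 ≤ a) (n0 : ℕ), ∃ n ≥ n0, ∀ j < a, ∀ i,
    ∀ ψ : DirichletCharacter ℂ (l ^ (n + j)), ψ (-1) = 1 →
      ψ (1 + (l : ZMod (l ^ (n + j))) ^ (n + j - 1)) ≠ 1 →
      1 ≤ V.valuation (∑ b ∈ range (l ^ (n + j)),
        ψ b * P i ∞ (((b : ℚ) / (l : ℚ) ^ (n + j) : ℚ) : OnePoint ℚ))

def M_TWR : Prop := S_REC → S_MOD → S_FRB → S_STA → S_ZCH → S_TWR

end Pool.Agent.TWR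


end

section

/-! CRT: the congruences. -/

namespace Pool.Agent.TWR

theorem t_CRT : S_CRT := by
  intro l m N0 E d β δ u u' hl hm hN0 hNl hδ hβδ hu hu'
  have hδN : IsCoprime δ (N0 : ℤ) := hδ.of_mul_right_left
  have hδl : IsCoprime δ (l : ℤ) := hδ.of_mul_right_right
  have hlm : ((l ^ m : ℕ) : ℤ) = (l : ℤ) ^ m := by push_cast; rfl
  -- the inverse modulo `l^m`
  have h1 : IsCoprime (u' ^ 2 * δ) ((l : ℤ) ^ m) :=
    ((hu'.pow_left (m := 2)).mul_left hδl).pow_right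
  obtain ⟨a, b, hab⟩ := h1
  -- the inverse modulo `δ`
  have h2 : IsCoprime (β * (l : ℤ) ^ E + u' * δ) δ := by
    have h3 : IsCoprime (β * (l : ℤ) ^ E) δ := hβδ.mul_left (hδl.symm.pow_left)
    have h4 := IsCoprime.add_mul_right_left h3 u'
    simpa [mul_comm] using h4
  obtain ⟨a3, b3, hab3⟩ := h2
  have h5 : IsCoprime ((N0 : ℤ) * δ) ((l : ℤ) ^ m) := (hNl.mul_left hδl).pow_right
  obtain ⟨c, e, hce⟩ := h5
  have h6 : IsCoprime ((N0 : ℤ) * (l : ℤ) ^ m) δ := hδN.symm.mul_left (hδl.symm.pow_left)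
  obtain ⟨f, g, hfg⟩ := h6
  have key2 : (l : ℤ) ^ m ∣
      ((u * a) * (c * ((N0 : ℤ) * δ)) + (-(l : ℤ) ^ d * a3) * (f * ((N0 : ℤ) * (l : ℤ) ^ m))) *
        (u' ^ 2 * δ) - u := by
    refine ⟨-(u * b) - u * a * e * (u' ^ 2 * δ) +
      (-(l : ℤ) ^ d * a3) * (f * (N0 : ℤ)) * (u' ^ 2 * δ), ?_⟩
    have e1 : c * ((N0 : ℤ) * δ) = 1 - e * (l : ℤ) ^ m := by linear_combination hce
    rw [e1]
    linear_combination u * hab
  refine ⟨(u * a) * (c * ((N0 : ℤ) * δ)) + (-(l : ℤ) ^ d * a3) * (f * ((N0 : ℤ) * (l : ℤ) ^ m)),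
    ?_, ?_, ?_, ?_⟩
  · exact ⟨(u * a) * (c * δ) + (-(l : ℤ) ^ d * a3) * (f * (l : ℤ) ^ m), by ring⟩
  · rw [hlm]
    exact key2
  · refine ⟨b3 * (l : ℤ) ^ d + (u * a) * (c * (N0 : ℤ)) * (β * (l : ℤ) ^ E + u' * δ) +
      (l : ℤ) ^ d * a3 * g * (β * (l : ℤ) ^ E + u' * δ), ?_⟩
    have e1 : f * ((N0 : ℤ) * (l : ℤ) ^ m) = 1 - g * δ := by linear_combination hfg
    rw [e1]
    linear_combination (-(l : ℤ) ^ d) * hab3
  · obtain ⟨k, hk⟩ := (dvd_pow_self (l : ℤ) (by omega : m ≠ 0)).trans key2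
    have h7 : IsCoprime (((u * a) * (c * ((N0 : ℤ) * δ)) +
        (-(l : ℤ) ^ d * a3) * (f * ((N0 : ℤ) * (l : ℤ) ^ m))) * (u' ^ 2 * δ)) (l : ℤ) := by
      have h8 := IsCoprime.add_mul_right_left hu k
      have h9 : u + k * (l : ℤ) = ((u * a) * (c * ((N0 : ℤ) * δ)) +
        (-(l : ℤ) ^ d * a3) * (f * ((N0 : ℤ) * (l : ℤ) ^ m))) * (u' ^ 2 * δ) := by
        linear_combination -hk
      rwa [h9] at h8
    exact h7.of_mul_left_left

end Pool.Agent.TWR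


end

section

/-!
# TWR, module EQV: equivariance of the twisted sums
-/

set_option autoImplicit false

namespace Pool.Agent.TWR

open Finset OnePoint

namespace EQVAux

variable {R M : Type} [CommRing R] [AddCommGroup M] [Module R M]

theorem per_nat (W : ℚ → M) (hW : ∀ x, W (x + 1) = W x) (n : ℕ) (x : ℚ) :
    W (x + n) = W x := by
  induction n with
  | zero => simp
  | succ n ih =>
    have : x + ((n + 1 : ℕ) : ℚ) = (x + n) + 1 := by push_cast; ring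
    rw [this, hW, ih]

theorem per_int (W : ℚ → M) (hW : ∀ x, W (x + 1) = W x) (n : ℤ) (x : ℚ) :
    W (x + n) = W x := by
  obtain ⟨k, rfl | rfl⟩ := n.eq_nat_or_neg
  · simpa using per_nat W hW k x
  · have h := per_nat W hW k (x + ((-(k : ℤ) : ℤ) : ℚ))
    rw [← h]
    congr 1
    push_cast
    ring

/-- the equivariance of one term -/
theorem term (q : ℕ) (hq : q ≠ 0) (N : ℕ) (χ : ℤ → R) (W : ℚ → M) (hW : QM N χ W)
    (a b c d : ℤ) (x : ℚ) (hdet : a * d - b * c = 1) (k : ℤ) (hk : c = ((N * q * q : ℕ) : ℤ) * k)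
    (hc : c ≠ 0) (hx : (c : ℚ) * x + d ≠ 0) (j : ℤ) :
    W ((a * x + b) / (c * x + d) + (j : ℚ) / q)
      = W ((a : ℚ) / c + (j : ℚ) / q) + χ d • W (x + (j * d ^ 2 : ℤ) / q) := by
  have hqQ : (q : ℚ) ≠ 0 := by exact_mod_cast hq
  have hcQ : (c : ℚ) ≠ 0 := by exact_mod_cast hc
  set c2 : ℤ := N * k with hc2
  set c1 : ℤ := q * c2 with hc1
  have hcc1 : c = q * c1 := by rw [hc1, hc2, hk]; push_cast; ring
  set a' : ℤ := a + j * c1 with ha'
  set d' : ℤ := d - c1 * j * d ^ 2 with hd'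
  set b' : ℤ := b - j * d * b * c1 - j ^ 2 * d ^ 2 * c2 with hb'
  have hdet' : a' * d' - b' * c = 1 := by
    have h1 : c * c2 = c1 * c1 := by rw [hcc1, hc1]; ring
    have h2 : a' * d' - b' * c = (a * d - b * c) + j * c1 * d * (1 - (a * d - b * c))
        + j ^ 2 * d ^ 2 * (c * c2 - c1 * c1) := by
      rw [ha', hd', hb']; ring
    rw [h2, h1, hdet]; ring
  have hNc : (N : ℤ) ∣ c := ⟨q * q * k, by rw [hk]; push_cast; ring⟩
  have hc1Q : (c : ℚ) = q * c1 := by exact_mod_cast hcc1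
  have hc12Q : (c1 : ℚ) = q * c2 := by exact_mod_cast hc1
  have hdetQ : (a : ℚ) * d - b * c = 1 := by exact_mod_cast hdet
  have hden : (c : ℚ) * (x + ((j * d ^ 2 : ℤ) : ℚ) / q) + (d' : ℚ) = c * x + d := by
    rw [hd']
    push_cast
    rw [hc1Q]
    field_simp
    ring
  have hnum : (a' : ℚ) * (x + ((j * d ^ 2 : ℤ) : ℚ) / q) + (b' : ℚ)
      = (a * x + b) + (j : ℚ) / q * (c * x + d) := by
    have e1 : (b' : ℚ) = b - j * d * b * c1 - j ^ 2 * d ^ 2 * c2 := by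
      rw [hb']; push_cast; ring
    have e2 : (a' : ℚ) = a + j * c1 := by rw [ha']; push_cast; ring
    have e3 : (b : ℚ) * c1 * q = a * d - 1 := by rw [← hdetQ, hc1Q]; ring
    have e4 : (j : ℚ) / q * (c * x + d) = j * c1 * x + j * d / q := by
      rw [hc1Q]; field_simp
    rw [e1, e2, e4]
    have e5 : (b : ℚ) * c1 = (a * d - 1) / q := by rw [← e3]; field_simp
    have e6 : (c1 : ℚ) / q = c2 := by rw [hc12Q]; field_simp
    push_cast
    have e7 : (j : ℚ) * d * b * c1 = j * d * ((a * d - 1) / q) := by rw [← e5]; ring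
    rw [e7, ← e6]
    ring
  have hx' : (c : ℚ) * (x + ((j * d ^ 2 : ℤ) : ℚ) / q) + (d' : ℚ) ≠ 0 := by rw [hden]; exact hx
  have key := hW.eqv a' b' c d' hdet' hNc hc (x + ((j * d ^ 2 : ℤ) : ℚ) / q) hx'
  rw [hnum, hden] at key
  have hL : ((a * x + b) + (j : ℚ) / q * (c * x + d)) / (c * x + d)
      = (a * x + b) / (c * x + d) + (j : ℚ) / q := by
    rw [add_div, mul_div_assoc, div_self hx, mul_one]
  have hA : (a' : ℚ) / c = (a : ℚ) / c + (j : ℚ) / q := by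
    rw [ha']
    push_cast
    rw [add_div]
    congr 1
    rw [hc1Q]
    have : (c1 : ℚ) ≠ 0 := by
      intro h
      apply hcQ
      rw [hc1Q, h, mul_zero]
    field_simp
  have hchi : χ d' = χ d := by
    apply hW.chi
    refine ⟨- (q * k * j * d ^ 2), ?_⟩
    rw [hd', hc1, hc2]
    ring
  rw [hL, hA, hchi] at key
  exact key

end EQVAux

open _root_.Pool.Agent.TWR.EQVAux in
theorem t_EQV : M_EQV := by
  intro hT R M _ _ _ q hq z hz N χ W hW e a b c d x hdet hdvd hc hx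
  obtain ⟨-, hper, hre, -, -, -, -⟩ := hT R M q hq z hz W hW.per
  obtain ⟨k, hk⟩ := hdvd
  have hqQ : (q : ℚ) ≠ 0 := by exact_mod_cast hq
  set c1 : ℤ := q * (N * k) with hc1
  have hcc1 : c = q * c1 := by rw [hc1, hk]; push_cast; ring
  have hterm := term q hq N χ W hW a b c d x hdet k hk hc hx
  -- the auxiliary periodic function
  set F : ℤ → M := fun j => z (e * j) • W (x + ((j * d ^ 2 : ℤ) : ℚ) / q) with hF
  have hFper : ∀ j, F (j + q) = F j := by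
    intro j
    simp only [hF]
    have h1 : z (e * (j + q)) = z (e * j) := hper _ _ ⟨e, by ring⟩
    have h2 : x + (((j + q) * d ^ 2 : ℤ) : ℚ) / q = (x + ((j * d ^ 2 : ℤ) : ℚ) / q) + (d ^ 2 : ℤ) := by
      push_cast
      field_simp
      ring
    rw [h1, h2, per_int W hW.per]
  have hcop : IsCoprime (a ^ 2) (q : ℤ) := by
    have : IsCoprime a (q : ℤ) := ⟨d, - (b * c1), by
      have : a * d - b * (q * c1) = 1 := by rw [← hcc1]; exact hdet
      linarith⟩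
    exact this.pow_left
  have hsum := hre F hFper (a ^ 2) hcop
  have hF2 : ∀ j : ℤ, F (a ^ 2 * j) = z (e * a ^ 2 * j) • W (x + (j : ℚ) / q) := by
    intro j
    simp only [hF]
    have h1 : e * (a ^ 2 * j) = e * a ^ 2 * j := by ring
    have h2 : x + (((a ^ 2 * j) * d ^ 2 : ℤ) : ℚ) / q
        = (x + (j : ℚ) / q) + ((j * (b * c1 * (a * d + 1)) : ℤ) : ℚ) := by
      have h3 : (a : ℚ) ^ 2 * d ^ 2 = 1 + b * (q * c1) * (a * d + 1) := by
        have h4 : (a : ℤ) ^ 2 * d ^ 2 = 1 + b * (q * c1) * (a * d + 1) := by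
          rw [← hcc1]
          have h5 : b * c = a * d - 1 := by linarith
          rw [h5]; ring
        exact_mod_cast h4
      have h6 : ((((a ^ 2 * j) * d ^ 2 : ℤ)) : ℚ) = j * ((a : ℚ) ^ 2 * d ^ 2) := by
        push_cast; ring
      rw [h6, h3]
      push_cast
      field_simp
      ring
    rw [h1, h2, per_int W hW.per]
  -- assemble
  have hL : Tw q z W e ((a * x + b) / (c * x + d))
      = Tw q z W e ((a : ℚ) / c) + χ d • ∑ j ∈ range q, F j := by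
    unfold Tw
    rw [Finset.smul_sum, ← Finset.sum_add_distrib]
    refine Finset.sum_congr rfl fun j _ => ?_
    have := hterm (j : ℤ)
    rw [Int.cast_natCast] at this
    rw [this, smul_add]
    congr 1
    simp only [hF]
    rw [smul_comm]
  rw [hL, ← hsum]
  congr 2
  unfold Tw
  refine Finset.sum_congr rfl fun j _ => ?_
  rw [hF2 (j : ℤ), Int.cast_natCast]

end Pool.Agent.TWR


end

section

/-!
# TWR: module FRB (Frobenius elements and places of `ℂ` above `p`)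
-/

set_option autoImplicit false

open NumberField

namespace Pool.Agent.TWR.FRBAux

variable (V : ValuationSubring ℂ)

lemma mem_of_int {L : Type*} [Field L] (i : L →+* ℂ) (x : 𝓞 L) : i (x : L) ∈ V := by
  have h1 : IsIntegral ℤ (x : L) := x.2
  have h2 : IsIntegral ℤ (i (x : L)) := h1.map (i.toIntAlgHom)
  have h3 : IsIntegral V (i (x : L)) := h2.tower_top
  obtain ⟨y, hy⟩ := (IsIntegrallyClosed.isIntegral_iff (R := V) (K := ℂ)).1 h3
  rw [← hy]
  exact y.2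

/-- the integers of `L` are in `V` -/
noncomputable def toV {L : Type*} [Field L] (i : L →+* ℂ) : 𝓞 L →+* V :=
  RingHom.codRestrict (i.comp (algebraMap (𝓞 L) L)) V.toSubring (fun x => mem_of_int V i x)

lemma toV_coe {L : Type*} [Field L] (i : L →+* ℂ) (x : 𝓞 L) : ((toV V i x : V) : ℂ) = i (x : L) := rfl

/-- the centre of `V` -/
noncomputable def QQ {L : Type*} [Field L] (i : L →+* ℂ) : Ideal (𝓞 L) :=
  (IsLocalRing.maximalIdeal V).comap (toV V i)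

instance {L : Type*} [Field L] (i : L →+* ℂ) : (QQ V i).IsPrime := by
  unfold QQ; infer_instance

lemma mem_QQ {L : Type*} [Field L] (i : L →+* ℂ) (x : 𝓞 L) :
    x ∈ QQ V i ↔ V.valuation (i (x : L)) < 1 := by
  rw [QQ, Ideal.mem_comap, ← toV_coe V i x, ValuationSubring.valuation_lt_one_iff]

lemma val_le {L : Type*} [Field L] (i : L →+* ℂ) (x : 𝓞 L) : V.valuation (i (x : L)) ≤ 1 :=
  (V.valuation_le_one_iff _).2 (mem_of_int V i x)

lemma not_mem_QQ {L : Type*} [Field L] (i : L →+* ℂ) (x : 𝓞 L) :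
    x ∉ QQ V i ↔ V.valuation (i (x : L)) = 1 := by
  rw [mem_QQ, not_lt]
  exact ⟨fun h => le_antisymm (val_le V i x) h, fun h => h.ge⟩

variable {p : ℕ} (hV : V.valuation (p : ℂ) < 1) (hp : p.Prime)

include hV in
lemma p_mem {L : Type*} [Field L] (i : L →+* ℂ) : (p : 𝓞 L) ∈ QQ V i := by
  rw [mem_QQ]
  simpa using hV

include hV hp in
lemma QQ_ne_bot {L : Type*} [Field L] [NumberField L] (i : L →+* ℂ) : QQ V i ≠ ⊥ := by
  intro h
  have := p_mem V hV i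
  rw [h, Ideal.mem_bot] at this
  have h2 : (p : 𝓞 L) ≠ 0 := by exact_mod_cast hp.ne_zero
  exact h2 this

include hV hp in
lemma QQ_finite {L : Type*} [Field L] [NumberField L] (i : L →+* ℂ) : Finite (𝓞 L ⧸ QQ V i) :=
  Ideal.finiteQuotientOfFreeOfNeBot _ (QQ_ne_bot V hV hp i)

include hV hp in
lemma card_QQ {L : Type*} [Field L] [NumberField L] (i : L →+* ℂ) :
    ∃ k : ℕ, 1 ≤ k ∧ Nat.card (𝓞 L ⧸ QQ V i) = p ^ k := by
  have := QQ_finite V hV hp i
  have : (QQ V i).IsMaximal := Ideal.IsPrime.isMaximal inferInstance (QQ_ne_bot V hV hp i)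
  let _ := Ideal.Quotient.field (QQ V i)
  have := Fintype.ofFinite (𝓞 L ⧸ QQ V i)
  have : CharP (𝓞 L ⧸ QQ V i) p := by
    obtain ⟨r, hr⟩ := CharP.exists (𝓞 L ⧸ QQ V i)
    have h0 : ((p : ℕ) : 𝓞 L ⧸ QQ V i) = 0 := by
      have := Ideal.Quotient.eq_zero_iff_mem.2 (p_mem V hV i)
      simpa using this
    have h1 : r ∣ p := (CharP.cast_eq_zero_iff _ r p).1 h0
    rcases (Nat.dvd_prime hp).1 h1 with rfl | rfl
    · exfalso
      have h3 := CharP.cast_eq_zero (𝓞 L ⧸ QQ V i) 1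
      rw [Nat.cast_one] at h3
      exact one_ne_zero h3
    · exact hr
  obtain ⟨k, -, hk⟩ := FiniteField.card (𝓞 L ⧸ QQ V i) p
  exact ⟨k, k.2, by rw [Nat.card_eq_fintype_card, hk]⟩

/-- `V ∩ L` is the localisation at the centre -/
lemma frac {L : Type*} [Field L] [NumberField L] (Q : Ideal (𝓞 L)) [Q.IsPrime] (hQ : Q ≠ ⊥)
    (y : L) : ∃ a s : 𝓞 L, s ∉ Q ∧ (y * s = a ∨ y⁻¹ * s = a) := by
  have hS : Q.primeCompl ≤ nonZeroDivisors (𝓞 L) := Q.primeCompl_le_nonZeroDivisors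
  let B := Localization.subalgebra.ofField L Q.primeCompl hS
  have h1 : IsLocalization Q.primeCompl B := inferInstance
  have h2 : IsLocalization.AtPrime B Q := h1
  have h3 : IsDiscreteValuationRing B :=
    IsLocalization.AtPrime.isDiscreteValuationRing_of_dedekind_domain (𝓞 L) hQ B
  have h4 : IsFractionRing B L := inferInstance
  have key : ∀ z : L, IsLocalization.IsInteger B z → ∃ a s : 𝓞 L, s ∉ Q ∧ z * s = a := by
    rintro z ⟨b, hb⟩
    obtain ⟨⟨a, s⟩, hs⟩ := IsLocalization.surj (M := Q.primeCompl) b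
    refine ⟨a, s, s.2, ?_⟩
    have := congrArg (algebraMap B L) hs
    rw [map_mul, hb] at this
    exact this
  rcases ValuationRing.isInteger_or_isInteger B y with h | h
  · obtain ⟨a, s, hs, h⟩ := key _ h
    exact ⟨a, s, hs, Or.inl h⟩
  · obtain ⟨a, s, hs, h⟩ := key _ h
    exact ⟨a, s, hs, Or.inr h⟩

lemma sq_mod (q : ℕ) (h : Nat.Coprime q 24) : 24 ∣ q ^ 2 - 1 := by
  have h1 : ∀ x : ZMod 24, IsUnit x → x ^ 2 = 1 := by decide
  have h2 := h1 (q : ZMod 24) ((ZMod.isUnit_iff_coprime q 24).2 h)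
  have h3 : ((q ^ 2 : ℕ) : ZMod 24) = ((1 : ℕ) : ZMod 24) := by push_cast; exact h2
  rw [ZMod.natCast_eq_natCast_iff] at h3
  exact (Nat.modEq_iff_dvd' (by
    have : q ≠ 0 := by rintro rfl; simp at h
    exact Nat.one_le_pow _ _ (Nat.pos_of_ne_zero this))).1 h3.symm

include hV hp in
lemma frob {K L : Type*} [Field K] [NumberField K] [Field L] [NumberField L] [Algebra K L]
    [IsGalois K L] (i : L →+* ℂ) : ∃ σ : L ≃ₐ[K] L,
      (∀ y : L, V.valuation (i y) < 1 → V.valuation (i (σ y)) < 1) ∧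
      ∀ (n : ℕ) (ζ : L), ¬ p ∣ n → ζ ^ n = 1 →
        σ ζ = ζ ^ Nat.card (𝓞 K ⧸ QQ V (i.comp (algebraMap K L))) := by
  have := QQ_finite V hV hp i
  obtain ⟨σ, hσ⟩ := IsArithFrobAt.exists_of_isInvariant (𝓞 K) (L ≃ₐ[K] L) (QQ V i)
  have hunder : (QQ V i).under (𝓞 K) = QQ V (i.comp (algebraMap K L)) := by
    ext x
    rw [Ideal.under, Ideal.mem_comap, mem_QQ, mem_QQ]
    rfl
  have hco : ∀ x : 𝓞 L, ((σ • x : 𝓞 L) : L) = σ (x : L) := fun x => rfl
  refine ⟨σ, ?_, ?_⟩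
  · intro y hy
    by_cases h0 : y = 0
    · rw [h0, map_zero, map_zero, map_zero]; exact zero_lt_one
    obtain ⟨a, s, hs, h | h⟩ := frac (QQ V i) (QQ_ne_bot V hV hp i) y
    · have h1 : V.valuation (i (a : L)) < 1 := by
        rw [← h, map_mul, map_mul, (not_mem_QQ V i s).1 hs, mul_one]; exact hy
      have ha : a ∈ QQ V i := (mem_QQ V i a).2 h1
      have h2 : σ • a ∈ QQ V i := hσ.le_comap ha
      have h3 : σ • s ∉ QQ V i := by
        intro h
        apply hs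
        rw [← hσ.comap_eq]
        exact h
      rw [mem_QQ, hco, ← h, map_mul, map_mul, map_mul, ← hco s, (not_mem_QQ V i _).1 h3,
        mul_one] at h2
      exact h2
    · exfalso
      have h1 := val_le V i a
      rw [← h, map_mul, map_mul, (not_mem_QQ V i s).1 hs, mul_one, map_inv₀, map_inv₀] at h1
      have h2 : V.valuation (i y) ≠ 0 := by simpa using h0
      rw [inv_le_one₀ (zero_lt_iff.2 h2)] at h1
      exact absurd hy (not_lt.2 h1)
  · intro n ζ hn hζ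
    have hn0 : n ≠ 0 := by rintro rfl; exact hn (dvd_zero p)
    have hint : IsIntegral ℤ ζ := IsIntegral.of_pow (Nat.pos_of_ne_zero hn0) (by
      rw [hζ]; exact isIntegral_one)
    let z : 𝓞 L := ⟨ζ, hint⟩
    have hz : z ^ n = 1 := by
      apply RingOfIntegers.ext
      change (algebraMap (𝓞 L) L) (z ^ n) = algebraMap (𝓞 L) L 1
      rw [map_pow, map_one]
      exact hζ
    have hnQ : ((n : ℕ) : 𝓞 L) ∉ QQ V i := by
      intro h
      have hc : IsCoprime (n : ℤ) (p : ℤ) :=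
        Nat.isCoprime_iff_coprime.2 ((Nat.Prime.coprime_iff_not_dvd hp).2 hn).symm
      obtain ⟨u, w, huw⟩ := hc
      have h5 : (u : 𝓞 L) * (n : 𝓞 L) + (w : 𝓞 L) * (p : 𝓞 L) = 1 := by exact_mod_cast huw
      apply (inferInstance : (QQ V i).IsPrime).ne_top
      rw [Ideal.eq_top_iff_one, ← h5]
      exact Ideal.add_mem _ (Ideal.mul_mem_left _ _ h) (Ideal.mul_mem_left _ _ (p_mem V hV i))
    have h1 := hσ.apply_of_pow_eq_one hz hnQ
    rw [hunder] at h1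
    have h2 := congrArg (algebraMap (𝓞 L) L) h1
    rw [map_pow] at h2
    exact h2

end Pool.Agent.TWR.FRBAux

namespace Pool.Agent.TWR

open Finset Pool.Agent.TWR.FRBAux

theorem t_FRB : S_FRB := by
  intro V p hp h5 hV K hK
  have : NumberField K := { to_charZero := inferInstance, to_finiteDimensional := hK }
  obtain ⟨k, hk1, hk⟩ := card_QQ V hV hp (algebraMap K ℂ)
  have hcop : Nat.Coprime (p ^ k) 24 := by
    apply Nat.Coprime.pow_left
    rw [Nat.Prime.coprime_iff_not_dvd hp]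
    intro h
    have h1 : p ∣ 2 ^ 3 * 3 := h
    rcases (Nat.Prime.dvd_mul hp).1 h1 with h2 | h2
    · have := Nat.le_of_dvd (by norm_num) (hp.dvd_of_dvd_pow h2)
      omega
    · have := Nat.le_of_dvd (by norm_num) h2
      omega
  refine ⟨(p ^ k) ^ 2, ?_, sq_mod _ hcop, ?_⟩
  · apply Nat.one_lt_pow (by norm_num)
    exact Nat.one_lt_pow (by omega) hp.one_lt
  intro n hn hpn ξ hξ x hx hlt
  have hm : 0 < orderOf ξ := orderOf_pos_iff.2 (isOfFinOrder_iff_pow_eq_one.2 ⟨n, Nat.pos_of_ne_zero hn, hξ⟩)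
  have hprim : IsPrimitiveRoot ξ (orderOf ξ) := IsPrimitiveRoot.orderOf ξ
  have : NeZero (orderOf ξ) := ⟨hm.ne'⟩
  let L := IntermediateField.adjoin K ({ξ} : Set ℂ)
  have hcyc : IsCyclotomicExtension {orderOf ξ} K L := by
    change IsCyclotomicExtension {orderOf ξ} K (IntermediateField.adjoin K {ξ}).toSubalgebra
    rw [IntermediateField.adjoin_simple_toSubalgebra_of_isAlgebraic
      ((hprim.isIntegral hm).tower_top (A := K)).isAlgebraic]
    exact hprim.adjoin_isCyclotomicExtension K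
  have hfin : FiniteDimensional K L := IsCyclotomicExtension.finiteDimensional {orderOf ξ} K L
  have hgal : IsGalois K L := IsCyclotomicExtension.isGalois {orderOf ξ} K L
  have hfin2 : FiniteDimensional ℚ L := FiniteDimensional.trans ℚ K L
  have : NumberField L := { to_charZero := inferInstance, to_finiteDimensional := hfin2 }
  obtain ⟨σ, h1, h2⟩ := frob V hV hp (K := K) (L := L) (algebraMap L ℂ)
  have hcard : Nat.card (𝓞 K ⧸ QQ V ((algebraMap L ℂ).comp (algebraMap K L))) = p ^ k := hk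
  rw [hcard] at h2
  let ξ' : L := ⟨ξ, IntermediateField.mem_adjoin_simple_self K ξ⟩
  have hξ' : ξ' ^ n = 1 := Subtype.ext hξ
  have h3 := h2 n ξ' hpn hξ'
  let y : ℕ → K := fun i => ⟨x i, hx i⟩
  have hy : ∀ (j : ℕ → ℕ), algebraMap L ℂ (∑ i ∈ range n, algebraMap K L (y i) * ξ' ^ (j i)) =
      ∑ i ∈ range n, x i * ξ ^ (j i) := by
    intro j
    rw [map_sum]
    refine Finset.sum_congr rfl fun i _ => ?_
    rw [map_mul, map_pow]
    rfl
  have hσ : ∀ (j : ℕ → ℕ), σ (∑ i ∈ range n, algebraMap K L (y i) * ξ' ^ (j i)) =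
      ∑ i ∈ range n, algebraMap K L (y i) * ξ' ^ (p ^ k * j i) := by
    intro j
    rw [map_sum]
    refine Finset.sum_congr rfl fun i _ => ?_
    rw [map_mul, map_pow, AlgEquiv.commutes, h3, ← pow_mul]
  have e1 := h1 _ (by rw [hy (fun i => i)]; exact hlt)
  rw [hσ] at e1
  have e2 := h1 _ e1
  rw [hσ, hy] at e2
  have e3 : ∀ i, p ^ k * (p ^ k * i) = (p ^ k) ^ 2 * i := fun i => by ring
  simp only [e3] at e2
  exact e2

end Pool.Agent.TWR


end

section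

/-!
TWR, module KEY: the main step.
-/

set_option autoImplicit false

namespace Pool.Agent.TWR

open Finset OnePoint

namespace KEYM

/-- a power of `l` which is one modulo `k` -/
theorem exists_pow {l : ℕ} {k : ℤ} (hk : k ≠ 0) (h : IsCoprime k (l : ℤ)) :
    ∃ t : ℕ, 1 ≤ t ∧ k ∣ (l : ℤ) ^ t - 1 := by
  have h1 : Nat.Coprime l k.natAbs := by
    have := Int.isCoprime_iff_gcd_eq_one.mp h.symm
    rw [Int.gcd] at this
    simpa using this
  have h2 : 0 < k.natAbs := Int.natAbs_pos.mpr hk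
  refine ⟨Nat.totient k.natAbs, Nat.totient_pos.mpr h2, ?_⟩
  have h3 := (Nat.modEq_iff_dvd.mp (Nat.ModEq.pow_totient h1).symm)
  rw [← Int.natAbs_dvd]
  have h4 : ((k.natAbs : ℕ) : ℤ) ∣ ((l ^ Nat.totient k.natAbs : ℕ) : ℤ) - ((1 : ℕ) : ℤ) := h3
  push_cast at h4 ⊢
  exact h4

theorem coprime_of_sub {a b l k : ℤ} (h : IsCoprime a l) (hk : b - a = l * k) :
    IsCoprime b l := by
  obtain ⟨x, y, hxy⟩ := h
  exact ⟨x, y - x * k, by linear_combination hxy + x * hk⟩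

end KEYM

theorem t_KEY : M_KEY := by
  intro hTWP hEDG hCRT hCST R M _ _ _ l m hl hm z hz N0 v hN0 hN0l χ W hW E d u u' hvE hmd hdE hu
    hu' hs' hs hrec β δ s hδ hδN hβδ
  have hq0 : l ^ m ≠ 0 := pow_ne_zero _ hl.ne_zero
  obtain ⟨hz0, hzper, -, hTadd, hTsh, -, -⟩ := hTWP R M (l ^ m) hq0 z hz W hW.per
  obtain ⟨m1, hN0m1, hm1u, hm1δ, hm1l⟩ := hCRT l m N0 E d β δ u u' hl hm hN0 hN0l hδN hβδ hu hu'
  have hlZ : (l : ℤ) ≠ 0 := by exact_mod_cast hl.ne_zero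
  have hlQ : (l : ℚ) ≠ 0 := by exact_mod_cast hl.ne_zero
  have hδQ : (δ : ℚ) ≠ 0 := by exact_mod_cast hδ
  have hδl : IsCoprime δ (l : ℤ) := hδN.of_mul_right_right
  have hm10 : m1 ≠ 0 := by
    rintro rfl
    have h1 : IsUnit (l : ℤ) := isCoprime_zero_left.mp hm1l
    rw [Int.isUnit_iff] at h1
    have := hl.two_le
    omega
  push_cast at hm1u
  obtain ⟨A0, hA0⟩ := hm1δ
  obtain ⟨k1, hk1⟩ := hm1u
  -- the functions
  obtain ⟨B0, hB0⟩ : ∃ B0 : ℤ, B0 = β * (l : ℤ) ^ E + u' * δ := ⟨_, rfl⟩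
  rw [← hB0] at hA0
  let B : ℤ → ℤ := fun s => B0 + s * (l : ℤ) ^ m * δ
  let A : ℤ → ℤ := fun s => A0 + m1 * s * (l : ℤ) ^ m
  let H : ℤ → M := fun s => Tw (l ^ m) z W 1 ((B s : ℚ) / ((δ * (l : ℤ) ^ E : ℤ) : ℚ))
  have hC0 : (l : ℤ) ^ E * m1 ≠ 0 := mul_ne_zero (pow_ne_zero _ hlZ) hm10
  have hD0 : δ * (l : ℤ) ^ E ≠ 0 := mul_ne_zero hδ (pow_ne_zero _ hlZ)
  have hEm : (l : ℤ) ^ E = (l : ℤ) ^ m * (l : ℤ) ^ (E - m) := by
    rw [← pow_add]
    congr 1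
    omega
  have hEmQ : (l : ℚ) ^ E = (l : ℚ) ^ m * (l : ℚ) ^ (E - m) := by exact_mod_cast hEm
  have hdm : (l : ℤ) ^ d = (l : ℤ) ^ m * (l : ℤ) ^ (d - m) := by
    rw [← pow_add]
    congr 1
    omega
  have hAB : ∀ s : ℤ, (l : ℤ) ^ m ∣ A s * B s - u := by
    intro s
    have hcop : IsCoprime ((l : ℤ) ^ m) δ := hδl.symm.pow_left
    apply hcop.dvd_of_dvd_mul_left
    refine ⟨δ * k1 + (m1 * (2 * β * (l : ℤ) ^ (E - m) * (u' * δ) +
      β ^ 2 * (l : ℤ) ^ (E - m) * (l : ℤ) ^ E) + (l : ℤ) ^ (d - m) * B s +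
      m1 * s * δ * B s + m1 * B0 * s * δ), ?_⟩
    have e1 : δ * A s = m1 * B0 + (l : ℤ) ^ d + m1 * s * (l : ℤ) ^ m * δ := by
      show δ * (A0 + m1 * s * (l : ℤ) ^ m) = _
      linear_combination -hA0
    have e2 : B s = B0 + s * (l : ℤ) ^ m * δ := rfl
    have e3 : B0 ^ 2 = (u' * δ) ^ 2 + (l : ℤ) ^ m * (2 * β * (l : ℤ) ^ (E - m) * (u' * δ) +
        β ^ 2 * (l : ℤ) ^ (E - m) * (l : ℤ) ^ E) := by
      rw [hB0]
      linear_combination (2 * β * (u' * δ) + β ^ 2 * (l : ℤ) ^ E) * hEm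
    calc δ * (A s * B s - u) = (δ * A s) * B s - δ * u := by ring
      _ = (m1 * B0 + (l : ℤ) ^ d + m1 * s * (l : ℤ) ^ m * δ) * B s - δ * u := by rw [e1]
      _ = m1 * B0 ^ 2 + m1 * B0 * (s * (l : ℤ) ^ m * δ) + (l : ℤ) ^ d * B s +
          m1 * s * (l : ℤ) ^ m * δ * B s - δ * u := by
        rw [show m1 * B0 ^ 2 + m1 * B0 * (s * (l : ℤ) ^ m * δ) = m1 * B0 * B s by rw [e2]; ring]
        ring
      _ = _ := by
        rw [e3, hdm]
        linear_combination δ * hk1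
  have hAl : ∀ s : ℤ, IsCoprime (A s) (l : ℤ) := by
    intro s
    obtain ⟨k, hk⟩ := hAB s
    have h1 : IsCoprime (A s * B s) (l : ℤ) := by
      apply KEYM.coprime_of_sub hu (k := (l : ℤ) ^ (m - 1) * k)
      rw [hk, ← mul_assoc, ← pow_succ']
      congr 2
      omega
    exact h1.of_mul_left_left
  have hdet : ∀ s : ℤ, A s * (δ * (l : ℤ) ^ E) - B s * ((l : ℤ) ^ E * m1) = (l : ℤ) ^ (E + d) := by
    intro s
    show (A0 + m1 * s * (l : ℤ) ^ m) * (δ * (l : ℤ) ^ E) -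
      (B0 + s * (l : ℤ) ^ m * δ) * ((l : ℤ) ^ E * m1) = _
    rw [pow_add]
    linear_combination -(l : ℤ) ^ E * hA0
  have hNC : ((l ^ v * N0 * l ^ m * l ^ m : ℕ) : ℤ) ∣ (l : ℤ) ^ E * m1 := by
    obtain ⟨k, hk⟩ := hN0m1
    refine ⟨(l : ℤ) ^ (E - (v + 2 * m)) * k, ?_⟩
    have h1 : (l : ℤ) ^ E = (l : ℤ) ^ v * (l : ℤ) ^ m * (l : ℤ) ^ m *
        (l : ℤ) ^ (E - (v + 2 * m)) := by
      rw [← pow_add, ← pow_add, ← pow_add]
      congr 1
      omega
    rw [h1, hk]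
    push_cast
    ring
  have hcopAC : ∀ (s B' : ℤ) (n : ℕ),
      A s * (δ * (l : ℤ) ^ E) - B' * ((l : ℤ) ^ E * m1) = (l : ℤ) ^ n →
      IsCoprime (A s) ((l : ℤ) ^ E * m1) := by
    intro s B' n h
    obtain ⟨x, y, hxy⟩ := (hAl s).pow_right (n := n)
    refine ⟨x + y * (δ * (l : ℤ) ^ E), -(y * B'), ?_⟩
    linear_combination hxy + y * h
  -- the period `T`
  have hδm1 : δ * m1 ≠ 0 := mul_ne_zero hδ hm10
  obtain ⟨t, ht1, ht⟩ := KEYM.exists_pow hδm1 (hδl.mul_left hm1l)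
  obtain ⟨o, ho1, hto, hso⟩ := hrec t ht1
  have hdo : δ * m1 ∣ (l : ℤ) ^ o - 1 := by
    obtain ⟨k, rfl⟩ := hto
    rw [pow_mul]
    exact dvd_trans ht (sub_one_dvd_pow_sub_one _ _)
  obtain ⟨T1, hT1⟩ := hdo
  have hT0l : IsCoprime (-T1) (l : ℤ) := by
    refine ⟨δ * m1, (l : ℤ) ^ (o - 1), ?_⟩
    have h1 : (l : ℤ) ^ (o - 1) * (l : ℤ) = (l : ℤ) ^ o := by
      rw [← pow_succ]
      congr 1
      omega
    linear_combination h1 + hT1
  have hedge : ∀ s, H s = Tw (l ^ m) z W 1 ((A s : ℚ) / (((l : ℤ) ^ E * m1 : ℤ) : ℚ)) := by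
    intro s
    refine hEDG R M l m hl z hz (l ^ v * N0) χ W hW (E + d) u hs 1 (A s) (B s)
      ((l : ℤ) ^ E * m1) (δ * (l : ℤ) ^ E) (by omega) hNC hC0 hD0
      (hcopAC s (B s) (E + d) (hdet s)) (hdet s) ?_
    rw [one_mul]
    push_cast
    exact hAB s
  have hdet2 : ∀ s : ℤ, A s * (δ * (l : ℤ) ^ E) -
      B (s + (l : ℤ) ^ (d - m) * (-T1)) * ((l : ℤ) ^ E * m1) = (l : ℤ) ^ (E + d + o) := by
    intro s
    have h1 : B (s + (l : ℤ) ^ (d - m) * (-T1)) = B s - (l : ℤ) ^ d * (T1 * δ) := by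
      show B0 + (s + (l : ℤ) ^ (d - m) * (-T1)) * (l : ℤ) ^ m * δ =
        B0 + s * (l : ℤ) ^ m * δ - (l : ℤ) ^ d * (T1 * δ)
      rw [hdm]
      ring
    rw [h1]
    have h2 := hdet s
    rw [pow_add _ (E + d) o]
    rw [pow_add] at h2 ⊢
    linear_combination h2 + (l : ℤ) ^ E * (l : ℤ) ^ d * (-1) * hT1
  have hedge2 : ∀ s, H (s + (l : ℤ) ^ (d - m) * (-T1)) =
      Tw (l ^ m) z W 1 ((A s : ℚ) / (((l : ℤ) ^ E * m1 : ℤ) : ℚ)) := by
    intro s
    refine hEDG R M l m hl z hz (l ^ v * N0) χ W hW (E + d + o) u hso 1 (A s)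
      (B (s + (l : ℤ) ^ (d - m) * (-T1)))
      ((l : ℤ) ^ E * m1) (δ * (l : ℤ) ^ E) (by omega) hNC hC0 hD0
      (hcopAC s _ (E + d + o) (hdet2 s)) (hdet2 s) ?_
    rw [one_mul]
    push_cast
    have h1 : B (s + (l : ℤ) ^ (d - m) * (-T1)) = B s - (l : ℤ) ^ m * ((l : ℤ) ^ (d - m) *
        (T1 * δ)) := by
      show B0 + (s + (l : ℤ) ^ (d - m) * (-T1)) * (l : ℤ) ^ m * δ =
        B0 + s * (l : ℤ) ^ m * δ - (l : ℤ) ^ m * ((l : ℤ) ^ (d - m) * (T1 * δ))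
      ring
    rw [h1]
    have h2 : A s * (B s - (l : ℤ) ^ m * ((l : ℤ) ^ (d - m) * (T1 * δ))) - u =
        (A s * B s - u) - (l : ℤ) ^ m * (A s * ((l : ℤ) ^ (d - m) * (T1 * δ))) := by ring
    rw [h2]
    exact dvd_sub (hAB s) (dvd_mul_right _ _)
  have hDQ : ((δ * (l : ℤ) ^ E : ℤ) : ℚ) ≠ 0 := by exact_mod_cast hD0
  have hper : ∀ s, H (s + (l : ℤ) ^ (E - m)) = H s := by
    intro s
    have h1 : B (s + (l : ℤ) ^ (E - m)) = B s + δ * (l : ℤ) ^ E := by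
      show B0 + (s + (l : ℤ) ^ (E - m)) * (l : ℤ) ^ m * δ =
        B0 + s * (l : ℤ) ^ m * δ + δ * (l : ℤ) ^ E
      rw [hEm]
      ring
    show Tw (l ^ m) z W 1 ((B (s + (l : ℤ) ^ (E - m)) : ℚ) / ((δ * (l : ℤ) ^ E : ℤ) : ℚ)) = _
    rw [h1, Int.cast_add, add_div, div_self hDQ]
    have h2 := hTadd 1 1 ((B s : ℚ) / ((δ * (l : ℤ) ^ E : ℤ) : ℚ))
    rw [Int.cast_one] at h2
    exact h2
  have hshift : ∀ s, H (s + (l : ℤ) ^ (E - 2 * m)) = z (-1) • H s := by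
    intro s
    have h0 : (l : ℤ) ^ (E - m) = (l : ℤ) ^ (E - 2 * m) * (l : ℤ) ^ m := by
      rw [← pow_add]
      congr 1
      omega
    have h1 : B (s + (l : ℤ) ^ (E - 2 * m)) = B s + δ * (l : ℤ) ^ (E - m) := by
      show B0 + (s + (l : ℤ) ^ (E - 2 * m)) * (l : ℤ) ^ m * δ =
        B0 + s * (l : ℤ) ^ m * δ + δ * (l : ℤ) ^ (E - m)
      rw [h0]
      ring
    show Tw (l ^ m) z W 1 ((B (s + (l : ℤ) ^ (E - 2 * m)) : ℚ) / ((δ * (l : ℤ) ^ E : ℤ) : ℚ)) = _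
    have h2 : ((B (s + (l : ℤ) ^ (E - 2 * m)) : ℤ) : ℚ) / ((δ * (l : ℤ) ^ E : ℤ) : ℚ) =
        (B s : ℚ) / ((δ * (l : ℤ) ^ E : ℤ) : ℚ) + 1 / ((l ^ m : ℕ) : ℚ) := by
      rw [h1, Int.cast_add, add_div]
      congr 1
      push_cast
      rw [hEmQ]
      have h3 : (l : ℚ) ^ (E - m) ≠ 0 := pow_ne_zero _ hlQ
      have h4 : (l : ℚ) ^ m ≠ 0 := pow_ne_zero _ hlQ
      field_simp
    rw [h2]
    exact hTsh 1 _
  have hunit : IsUnit (1 - z (-1)) := by
    apply hz.un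
    intro hcon
    have h1 := Int.eq_one_of_dvd_one (by positivity) ((Int.dvd_neg).mp hcon)
    have h2 : l ^ m = 1 := by exact_mod_cast h1
    have h3 := Nat.one_lt_pow (by omega : m ≠ 0) hl.one_lt
    omega
  have hfin := hCST R M l (E - m) (d - m) (E - 2 * m) (-T1) (z (-1)) H hT0l (by omega) hunit hper
    (fun s => by rw [hedge2 s, hedge s]) hshift s
  rw [← hfin]
  show _ = Tw (l ^ m) z W 1 ((B s : ℚ) / ((δ * (l : ℤ) ^ E : ℤ) : ℚ))
  congr 1
  show _ = ((B0 + s * (l : ℤ) ^ m * δ : ℤ) : ℚ) / ((δ * (l : ℤ) ^ E : ℤ) : ℚ)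
  rw [hB0]
  have h3 : (l : ℚ) ^ E ≠ 0 := pow_ne_zero _ hlQ
  push_cast
  field_simp
  ring

end Pool.Agent.TWR


end

section

/-!
# TWR, module REC: the recurrence
-/

set_option autoImplicit false

namespace Pool.Agent.TWR

namespace RECAux

/-- the sequence of pairs n_k, Q_k with n_(k+1) = n_k + Q_k, Q_(k+1) = Q_k q(n_(k+1)) -/
def sq (q : ℕ → ℕ) (K : ℕ) : ℕ → ℕ × ℕ
  | 0 => (K, q K)
  | k + 1 => ((sq q K k).1 + (sq q K k).2, (sq q K k).2 * q ((sq q K k).1 + (sq q K k).2))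

theorem sq_ge (q : ℕ → ℕ) (K : ℕ) (hq : ∀ n, K ≤ n → 1 ≤ q n) (k : ℕ) :
    K ≤ (sq q K k).1 ∧ 1 ≤ (sq q K k).2 ∧ q (sq q K k).1 ∣ (sq q K k).2 := by
  induction k with
  | zero => exact ⟨le_refl _, hq K le_rfl, dvd_refl _⟩
  | succ k ih =>
    obtain ⟨h1, h2, h3⟩ := ih
    have h4 : K ≤ (sq q K k).1 + (sq q K k).2 := by omega
    refine ⟨h4, ?_, ?_⟩
    · show 1 ≤ (sq q K k).2 * q ((sq q K k).1 + (sq q K k).2)
      exact Nat.mul_pos h2 (hq _ h4)
    · show q ((sq q K k).1 + (sq q K k).2) ∣ (sq q K k).2 * q ((sq q K k).1 + (sq q K k).2)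
      exact dvd_mul_left _ _

theorem sq_lt (q : ℕ → ℕ) (K : ℕ) (hq : ∀ n, K ≤ n → 1 ≤ q n) (i t : ℕ) :
    ∃ o, 1 ≤ o ∧ (sq q K i).2 ∣ o ∧ (sq q K (i + 1 + t)).1 = (sq q K i).1 + o ∧
      (sq q K i).2 ∣ (sq q K (i + 1 + t)).2 := by
  induction t with
  | zero =>
    refine ⟨(sq q K i).2, (sq_ge q K hq i).2.1, dvd_refl _, rfl, ?_⟩
    show (sq q K i).2 ∣ (sq q K i).2 * q ((sq q K i).1 + (sq q K i).2)
    exact dvd_mul_right _ _
  | succ t ih =>
    obtain ⟨o, h1, h2, h3, h4⟩ := ih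
    refine ⟨o + (sq q K (i + 1 + t)).2, by omega, dvd_add h2 h4, ?_, ?_⟩
    · show (sq q K (i + 1 + t)).1 + (sq q K (i + 1 + t)).2 = _
      rw [h3]; ring
    · show (sq q K i).2 ∣ (sq q K (i + 1 + t)).2 *
        q ((sq q K (i + 1 + t)).1 + (sq q K (i + 1 + t)).2)
      exact dvd_mul_of_dvd_left h4 _

/-- recurrence of a value along all progressions -/
theorem recur {α : Type} [Finite α] (f : ℕ → α) (K : ℕ) :
    ∃ n, K ≤ n ∧ ∀ q, 1 ≤ q → ∃ o, 1 ≤ o ∧ q ∣ o ∧ f (n + o) = f n := by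
  by_contra hcon
  push Not at hcon
  have h1 : ∀ n, ∃ q, K ≤ n → 1 ≤ q ∧ ∀ o, 1 ≤ o → q ∣ o → f (n + o) ≠ f n := by
    intro n
    by_cases hn : K ≤ n
    · obtain ⟨q, hq1, hq2⟩ := hcon n hn
      exact ⟨q, fun _ => ⟨hq1, hq2⟩⟩
    · exact ⟨0, fun h => absurd h hn⟩
  choose q hq using h1
  have hq1 : ∀ n, K ≤ n → 1 ≤ q n := fun n hn => (hq n hn).1
  have hlt : ∀ i j, i < j → f (sq q K j).1 ≠ f (sq q K i).1 := by
    intro i j hij
    obtain ⟨t, rfl⟩ := Nat.exists_eq_add_of_lt hij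
    obtain ⟨o, ho1, ho2, ho3, -⟩ := sq_lt q K hq1 i t
    have he : i + t + 1 = i + 1 + t := by ring
    rw [he, ho3]
    exact (hq _ (sq_ge q K hq1 i).1).2 o ho1 (dvd_trans (sq_ge q K hq1 i).2.2 ho2)
  have hinj : Function.Injective (fun k => f (sq q K k).1) := by
    intro i j hij
    rcases lt_trichotomy i j with h | h | h
    · exact absurd hij.symm (hlt i j h)
    · exact h
    · exact absurd hij (hlt j i h)
  exact not_injective_infinite_finite _ hinj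

end RECAux

open _root_.Pool.Agent.TWR.RECAux in
theorem t_REC : S_REC := by
  intro I U _ _ T a m n0 K ha hT
  have := Fintype.ofFinite I
  have := Fintype.ofFinite U
  obtain ⟨w, hw⟩ : ∃ w, w = m + a := ⟨_, rfl⟩
  obtain ⟨s, hs⟩ : ∃ s, s = Fintype.card I := ⟨_, rfl⟩
  obtain ⟨B, hB⟩ : ∃ B, B = s * w + a + 1 := ⟨_, rfl⟩
  obtain ⟨K', hK'⟩ : ∃ K', K' = n0 + K + m + B := ⟨_, rfl⟩
  have hlab : ∀ x : ℕ, ∃ l : I × U × U × Fin B × Fin B,
      T (x + K' + l.2.2.2.1) l.1 l.2.2.1 ∧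
      T (x + K' + l.2.2.2.1 + l.2.2.2.2) l.1 l.2.1 ∧ m ≤ (l.2.2.2.2 : ℕ) := by
    intro x
    have h1 : ∀ k : Fin (s + 1), ∃ j < a, ∃ i u, T (x + K' + k * w + j) i u := by
      intro k
      exact hT (x + K' + k * w) (by
        have : 0 ≤ (k : ℕ) * w := Nat.zero_le _
        omega)
    choose j hj i u hiu using h1
    obtain ⟨k1, k2, hne, hi⟩ := Fintype.exists_ne_map_eq_of_card_lt i (by
      rw [Fintype.card_fin]; omega)
    have key : ∀ k1 k2 : Fin (s + 1), k1 < k2 → i k1 = i k2 →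
        ∃ l : I × U × U × Fin B × Fin B,
          T (x + K' + l.2.2.2.1) l.1 l.2.2.1 ∧
          T (x + K' + l.2.2.2.1 + l.2.2.2.2) l.1 l.2.1 ∧ m ≤ (l.2.2.2.2 : ℕ) := by
      intro k1 k2 hlt hi
      have hlt' : (k1 : ℕ) < (k2 : ℕ) := hlt
      obtain ⟨t, ht⟩ := Nat.exists_eq_add_of_lt hlt'
      have hk2 : (k2 : ℕ) * w = k1 * w + t * w + w := by rw [ht]; ring
      have hk2s : (k2 : ℕ) * w ≤ s * w := Nat.mul_le_mul_right _ (by have := k2.isLt; omega)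
      have hj1 := hj k1
      have hj2 := hj k2
      have b1 : (k1 : ℕ) * w + j k1 < B := by omega
      have b2 : t * w + w + j k2 - j k1 < B := by omega
      have hd : m ≤ t * w + w + j k2 - j k1 := by
        have : 0 ≤ t * w := Nat.zero_le _
        omega
      refine ⟨(i k1, u k2, u k1, ⟨_, b1⟩, ⟨_, b2⟩), ?_, ?_, hd⟩
      · have := hiu k1
        show T (x + K' + (k1 * w + j k1)) (i k1) (u k1)
        rw [← add_assoc]; exact this
      · have := hiu k2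
        show T (x + K' + (k1 * w + j k1) + (t * w + w + j k2 - j k1)) (i k1) (u k2)
        rw [hi]
        have e1 : x + K' + (k1 * w + j k1) + (t * w + w + j k2 - j k1) =
            x + K' + k2 * w + j k2 := by omega
        rw [e1]; exact this
    rcases lt_or_gt_of_ne hne with h | h
    · exact key k1 k2 h hi
    · exact key k2 k1 h hi.symm
  choose f hf1 hf2 hf3 using hlab
  obtain ⟨n, -, hn⟩ := recur f 0
  have hc : ((f n).2.2.2.2 : ℕ) < B := (f n).2.2.2.2.isLt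
  refine ⟨n + K' + (f n).2.2.2.1, (f n).2.2.2.2, (f n).1, (f n).2.1, (f n).2.2.1, by omega,
    hf3 n, by omega, hf1 n, hf2 n, ?_⟩
  intro q hq
  obtain ⟨o, ho1, ho2, ho3⟩ := hn q hq
  refine ⟨o, ho1, ho2, ?_⟩
  have := hf2 (n + o)
  rw [ho3] at this
  have e1 : n + K' + ((f n).2.2.2.1 : ℕ) + ((f n).2.2.2.2 : ℕ) + o =
      n + o + K' + ((f n).2.2.2.1 : ℕ) + ((f n).2.2.2.2 : ℕ) := by ring
  rw [e1]; exact this

end Pool.Agent.TWR


end

section

set_option autoImplicit false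

namespace Pool.Agent.TWR

namespace STAAux

open Finset

lemma sum_zmod (Q : ℕ) [NeZero Q] (F : ZMod Q → ℂ) :
    ∑ j ∈ range Q, F (j : ZMod Q) = ∑ a : ZMod Q, F a := by
  obtain ⟨k, hk⟩ : ∃ k, Q = k + 1 := ⟨Q - 1, by have := NeZero.ne Q; omega⟩
  subst hk
  rw [← Fin.sum_univ_eq_sum_range (fun j => F (j : ZMod (k+1)))]
  apply Finset.sum_congr rfl
  intro i _
  congr 1
  exact Fin.cast_val_eq_self i

lemma per_int (Q : ℕ) (F : ℤ → ℂ) (h : ∀ j, F (j + Q) = F j) :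
    ∀ a b : ℤ, (Q : ℤ) ∣ a - b → F a = F b := by
  intro a b ⟨k, hk⟩
  have h1 := (show Function.Periodic F (Q : ℤ) from h).int_mul k b
  rw [← h1]
  congr 1
  linear_combination hk

lemma sum_perm (Q : ℕ) (hQ : Q ≠ 0) (F : ℤ → ℂ) (h : ∀ j, F (j + Q) = F j) (t : ℤ)
    (ht : IsCoprime t (Q : ℤ)) :
    ∑ j ∈ range Q, F (t * j) = ∑ j ∈ range Q, F j := by
  have : NeZero Q := ⟨hQ⟩
  have key := per_int Q F h
  have hF' : ∀ j : ℤ, F j = F (((j : ZMod Q)).val : ℤ) := by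
    intro j
    apply key
    rw [← ZMod.intCast_zmod_eq_zero_iff_dvd]
    push_cast
    simp
  have h1 : ∑ j ∈ range Q, F (t * j) = ∑ j ∈ range Q, (fun a : ZMod Q => F (((t : ZMod Q) * a).val : ℤ)) (j : ZMod Q) := by
    apply Finset.sum_congr rfl
    intro j _
    rw [hF']
    push_cast
    rfl
  have h2 : ∑ j ∈ range Q, F j = ∑ j ∈ range Q, (fun a : ZMod Q => F ((a).val : ℤ)) (j : ZMod Q) := by
    apply Finset.sum_congr rfl
    intro j _
    rw [hF']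
    push_cast
    rfl
  rw [h1, h2, sum_zmod Q (fun a : ZMod Q => F (((t : ZMod Q) * a).val : ℤ)),
    sum_zmod Q (fun a : ZMod Q => F ((a).val : ℤ))]
  obtain ⟨a, b, hab⟩ := ht
  have hu : (a : ZMod Q) * (t : ZMod Q) = 1 := by
    have := congrArg (Int.cast : ℤ → ZMod Q) hab
    push_cast at this
    simpa using this
  let u : (ZMod Q)ˣ := ⟨(t : ZMod Q), (a : ZMod Q), by rw [mul_comm]; exact hu, hu⟩
  exact Equiv.sum_comp (Units.mulLeft u) (fun a : ZMod Q => F ((a).val : ℤ))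

lemma one_add_pow {R : Type} [CommRing R] (x : R) (hx : x * x = 0) (i : ℕ) :
    (1 + x) ^ i = 1 + i * x := by
  induction i with
  | zero => simp
  | succ i ih =>
    rw [pow_succ, ih]
    push_cast
    linear_combination (i : R) * hx

lemma char_ne (l n : ℕ) (lp : l.Prime) (hn : 2 ≤ n) (ψ : DirichletCharacter ℂ (l ^ n))
    (ψne : ψ (1 + (l : ZMod (l ^ n)) ^ (n - 1)) ≠ 1) (w : ℤ) (hw : IsCoprime w (l : ℤ)) :
    ψ (1 + (l : ZMod (l ^ n)) ^ (n - 1) * (w : ZMod (l ^ n))) ≠ 1 := by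
  intro h1
  apply ψne
  have hl0 : ((l : ZMod (l ^ n))) ^ n = 0 := by
    have := ZMod.natCast_self (l ^ n)
    push_cast at this
    exact this
  obtain ⟨a, b, hab⟩ := hw
  -- natural number i congruent to a modulo l
  obtain ⟨i, hi⟩ : ∃ i : ℕ, (l : ℤ) ∣ (i : ℤ) * w - 1 := by
    refine ⟨(a % (l : ℤ)).toNat, ?_⟩
    have hl' : (l : ℤ) ≠ 0 := by exact_mod_cast lp.ne_zero
    rw [Int.toNat_of_nonneg (Int.emod_nonneg _ hl')]
    refine ⟨- b - (a / l) * w, ?_⟩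
    have := Int.emod_add_mul_ediv a l
    linear_combination w * this + hab
  obtain ⟨k, hk⟩ := hi
  have hsq : ((l : ZMod (l ^ n)) ^ (n - 1) * (w : ZMod (l ^ n))) *
      ((l : ZMod (l ^ n)) ^ (n - 1) * (w : ZMod (l ^ n))) = 0 := by
    have : (l : ZMod (l ^ n)) ^ (n - 1) * (l : ZMod (l ^ n)) ^ (n - 1) = 0 := by
      rw [← pow_add, show n - 1 + (n - 1) = n + (n - 2) by omega, pow_add, hl0, zero_mul]
    linear_combination ((w : ZMod (l ^ n)) * w) * this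
  have h2 := one_add_pow _ hsq i
  have h3 : (1 + (l : ZMod (l ^ n)) ^ (n - 1)) =
      (1 + (l : ZMod (l ^ n)) ^ (n - 1) * (w : ZMod (l ^ n))) ^ i := by
    rw [h2]
    have h4 := congrArg (Int.cast : ℤ → ZMod (l ^ n)) hk
    push_cast at h4
    have h5 : (l : ZMod (l ^ n)) ^ (n - 1) * (l : ZMod (l ^ n)) = 0 := by
      rw [← pow_succ, show n - 1 + 1 = n by omega, hl0]
    linear_combination (- (l : ZMod (l ^ n)) ^ (n - 1)) * h4 - (k : ZMod (l ^ n)) * h5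
  rw [h3, map_pow, h1, one_pow]

end STAAux

open _root_.Pool.Agent.TWR.STAAux Finset in
theorem t_STA : M_STA := by
  intro hGPW hTRS V l g h m r q hG hm hl2 hr hmr hq1 hq2 hq0 vl v2 K hK P P1 Pneg PK ψ ψneg ψne hsum
  obtain ⟨g1, g2, g3, g4, g5⟩ := hGPW l g h hG
  have lp : l.Prime := by rcases hG with ⟨rfl, _, _⟩ | ⟨rfl, _, _⟩ <;> norm_num
  have hh : 1 ≤ h := by rcases hG with ⟨_, _, rfl⟩ | ⟨_, _, rfl⟩ <;> norm_num
  have hl0 : l ≠ 0 := lp.ne_zero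
  have hlq : (l : ℚ) ≠ 0 := by exact_mod_cast hl0
  have hlnq : (l : ℚ) ^ (m + r + h) ≠ 0 := pow_ne_zero _ hlq
  have hlmq : (l : ℚ) ^ m ≠ 0 := pow_ne_zero _ hlq
  have : NeZero (l ^ (m + r + h)) := ⟨pow_ne_zero _ hl0⟩
  have Pz : ∀ (x : ℚ) (k : ℤ), P (x + k) = P x := by
    intro x k
    have := (show Function.Periodic P (1 : ℚ) from P1).int_mul k x
    simpa using this
  have Pc : ∀ (a b : ℤ), ((l ^ (m + r + h) : ℕ) : ℤ) ∣ a - b → ∀ y : ℚ,
      P ((a : ℚ) / (l : ℚ) ^ (m + r + h) + y) = P ((b : ℚ) / (l : ℚ) ^ (m + r + h) + y) := by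
    intro a b ⟨k, hk⟩ y
    rw [← Pz ((b : ℚ) / (l : ℚ) ^ (m + r + h) + y) k]
    congr 1
    have hk' : (a : ℚ) - b = (l : ℚ) ^ (m + r + h) * k := by
      have := congrArg (Int.cast : ℤ → ℚ) hk
      push_cast at this
      exact this
    field_simp
    linear_combination hk'
  have Pc0 : ∀ (a b : ℤ), ((l ^ (m + r + h) : ℕ) : ℤ) ∣ a - b →
      P ((a : ℚ) / (l : ℚ) ^ (m + r + h)) = P ((b : ℚ) / (l : ℚ) ^ (m + r + h)) := by
    intro a b hab
    simpa using Pc a b hab 0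
  set x : ℕ → ℂ := fun t => P (((g : ℚ) ^ t) / (l : ℚ) ^ (m + r + h)) with hx
  have xper : ∀ i, x (i + l ^ (m + r)) = x i := by
    intro i
    simp only [hx]
    have h1 := Pc0 ((g : ℤ) ^ (i + l ^ (m + r))) ((g : ℤ) ^ i) (by
      rw [← ZMod.intCast_zmod_eq_zero_iff_dvd]
      push_cast
      rw [pow_add (g : ZMod (l ^ (m + r + h))) i (l ^ (m + r)), g2 (m + r)]
      ring)
    push_cast at h1
    exact h1
  set ξ : ℂ := ψ (g : ZMod (l ^ (m + r + h))) with hξ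
  have ξp : IsPrimitiveRoot ξ (l ^ (m + r)) := by
    have e1 : ξ ^ l ^ (m + r) = 1 := by
      rw [hξ, ← map_pow, g2 (m + r), map_one]
    have e2 : ¬ ξ ^ l ^ (m + r - 1) = 1 := by
      obtain ⟨w, hw, hw'⟩ := g1 (m + r - 1)
      have h3 := char_ne l (m + r + h) lp (by omega) ψ ψne w hw
      intro h4
      apply h3
      rw [hξ, ← map_pow] at h4
      have h5 := congrArg (Int.cast : ℤ → ZMod (l ^ (m + r + h))) hw'
      push_cast at h5
      rw [show m + r - 1 + h = m + r + h - 1 by omega] at h5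
      rw [← h5]
      exact h4
    have : Fact l.Prime := ⟨lp⟩
    have e3 := orderOf_eq_prime_pow (p := l) (n := m + r - 1) e2 (by
      rw [show m + r - 1 + 1 = m + r by omega]; exact e1)
    rw [show m + r - 1 + 1 = m + r by omega] at e3
    rw [← e3]
    exact IsPrimitiveRoot.orderOf ξ
  have hsum2 : V.valuation (∑ t ∈ range (l ^ (m + r)), x t * ξ ^ t) < 1 := by
    have h1 := g3 (m + r) (fun c => ψ c * P ((c.val : ℚ) / (l : ℚ) ^ (m + r + h))) (by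
      intro c hc
      rw [MulChar.map_nonunit ψ hc, zero_mul])
    have hF : ∀ a : ℤ, (fun c : ZMod (l ^ (m + r + h)) => ψ c * P ((c.val : ℚ) /
        (l : ℚ) ^ (m + r + h))) (a : ZMod (l ^ (m + r + h))) =
        ψ (a : ZMod (l ^ (m + r + h))) * P ((a : ℚ) / (l : ℚ) ^ (m + r + h)) := by
      intro a
      have h2 := Pc0 (((a : ZMod (l ^ (m + r + h))).val : ℕ) : ℤ) a (by
        rw [← ZMod.intCast_zmod_eq_zero_iff_dvd]
        push_cast
        simp)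
      rw [Int.cast_natCast] at h2
      show ψ (a : ZMod (l ^ (m + r + h))) * P _ = _
      rw [h2]
    have h3 : ∑ c ∈ range (l ^ (m + r + h)), (fun c : ZMod (l ^ (m + r + h)) => ψ c *
        P ((c.val : ℚ) / (l : ℚ) ^ (m + r + h))) (c : ZMod (l ^ (m + r + h))) =
        ∑ b ∈ range (l ^ (m + r + h)), ψ b * P ((b : ℚ) / (l : ℚ) ^ (m + r + h)) := by
      apply Finset.sum_congr rfl
      intro b _
      have := hF (b : ℤ)
      rw [Int.cast_natCast] at this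
      rw [this]
      push_cast
      rfl
    have h4 : ∑ t ∈ range (l ^ (m + r)), ((fun c : ZMod (l ^ (m + r + h)) => ψ c *
        P ((c.val : ℚ) / (l : ℚ) ^ (m + r + h))) ((g : ZMod (l ^ (m + r + h))) ^ t) +
        (fun c : ZMod (l ^ (m + r + h)) => ψ c *
        P ((c.val : ℚ) / (l : ℚ) ^ (m + r + h))) (-(g : ZMod (l ^ (m + r + h))) ^ t)) =
        2 * ∑ t ∈ range (l ^ (m + r)), x t * ξ ^ t := by
      rw [Finset.mul_sum]
      apply Finset.sum_congr rfl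
      intro t _
      have e1 := hF ((g : ℤ) ^ t)
      have e2 := hF (-(g : ℤ) ^ t)
      have c1 : (((g : ℤ) ^ t : ℤ) : ZMod (l ^ (m + r + h))) = (g : ZMod (l ^ (m + r + h))) ^ t := by
        push_cast; rfl
      have c2 : ((-(g : ℤ) ^ t : ℤ) : ZMod (l ^ (m + r + h))) = -(g : ZMod (l ^ (m + r + h))) ^ t := by
        push_cast; rfl
      rw [c1] at e1
      rw [c2] at e2
      rw [e1, e2]
      have e3 : ψ (-(g : ZMod (l ^ (m + r + h))) ^ t) = ξ ^ t := by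
        rw [show -(g : ZMod (l ^ (m + r + h))) ^ t = (-1) * (g : ZMod (l ^ (m + r + h))) ^ t by ring,
          map_mul, ψneg, one_mul, map_pow]
      have e4 : P (((-(g : ℤ) ^ t : ℤ) : ℚ) / (l : ℚ) ^ (m + r + h)) = x t := by
        simp only [hx]
        rw [← Pneg]
        congr 1
        push_cast
        ring
      have e5 : P ((((g : ℤ) ^ t : ℤ) : ℚ) / (l : ℚ) ^ (m + r + h)) = x t := by
        simp only [hx]
        congr 1
        push_cast
        ring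
      rw [e3, e4, e5, map_pow]
      ring
    rw [← h3, h1, h4, map_mul, v2, one_mul] at hsum
    exact hsum
  have hT := hTRS V l m r q lp hm hl2 hq1 hq2 hq0 vl K hK ξ ξp x (fun i => PK _) xper hsum2
  obtain ⟨w, hw, hw'⟩ := g1 r
  have hg5 := g5 m r w hw' hmr
  -- the root of unity
  have ξr : IsPrimitiveRoot (ξ ^ (l ^ r)) (l ^ m) :=
    ξp.pow (pow_pos lp.pos _) (by rw [← pow_add, add_comm])
  obtain ⟨k0, hk0lt, hk0c, hk0⟩ := (Complex.isPrimitiveRoot_iff _ _ (pow_ne_zero m hl0)).1 ξr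
  set ζ : ℂ := Complex.exp (2 * Real.pi * Complex.I / (l ^ m : ℕ)) with hζ
  have ζ0 : ζ ≠ 0 := Complex.exp_ne_zero _
  have ζk : ζ ^ k0 = ξ ^ (l ^ r) := by
    rw [← hk0, hζ, ← Complex.exp_nat_mul]
    congr 1
    push_cast
    ring
  have ζm : ζ ^ (l ^ m) = 1 := by
    have := (Complex.isPrimitiveRoot_exp (l ^ m) (pow_ne_zero m hl0)).pow_eq_one
    rw [hζ]
    exact this
  have ζz : ∀ a b : ℤ, ((l ^ m : ℕ) : ℤ) ∣ a - b → ζ ^ a = ζ ^ b := by
    intro a b ⟨k, hk⟩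
    have : a = b + ((l ^ m : ℕ) : ℤ) * k := by linear_combination hk
    rw [this, zpow_add₀ ζ0, zpow_mul, zpow_natCast, ζm, one_zpow, mul_one]
  -- the label u
  have hwm : IsCoprime w ((l ^ m : ℕ) : ℤ) := by
    push_cast
    exact hw.pow_right
  obtain ⟨a, b, hab⟩ := hwm
  have hlm' : ((l ^ m : ℕ) : ℤ) ≠ 0 := by exact_mod_cast pow_ne_zero m hl0
  have hlmpos : (0 : ℤ) < ((l ^ m : ℕ) : ℤ) := by exact_mod_cast pow_pos lp.pos m
  have hdiv : (l : ℤ) ∣ ((l ^ m : ℕ) : ℤ) := by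
    push_cast
    exact dvd_pow_self _ (by omega)
  have hk0l : IsCoprime (k0 : ℤ) (l : ℤ) := by
    have : IsCoprime (k0 : ℤ) ((l ^ m : ℕ) : ℤ) := Nat.isCoprime_iff_coprime.2 hk0c
    exact this.of_isCoprime_of_dvd_right hdiv
  obtain ⟨u, hu0, hu1, huw⟩ : ∃ u : ℤ, 0 ≤ u ∧ u < ((l ^ m : ℕ) : ℤ) ∧
      ((l ^ m : ℕ) : ℤ) ∣ u * w - k0 := by
    refine ⟨(a * k0) % ((l ^ m : ℕ) : ℤ), Int.emod_nonneg _ hlm', Int.emod_lt_of_pos _ hlmpos, ?_⟩
    refine ⟨- b * k0 - (a * k0 / ((l ^ m : ℕ) : ℤ)) * w, ?_⟩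
    have := Int.emod_add_mul_ediv (a * k0) ((l ^ m : ℕ) : ℤ)
    linear_combination w * this + k0 * hab
  have hul : IsCoprime u (l : ℤ) := by
    -- a common divisor: u w = k0 + l * _
    obtain ⟨s, hs⟩ := hdiv
    obtain ⟨k, hk⟩ := huw
    have h1 : IsCoprime (u * w) (l : ℤ) := by
      have : u * w = k0 + (l : ℤ) * (s * k) := by rw [hs] at hk; linear_combination hk
      rw [this]
      exact (IsCoprime.add_mul_left_left hk0l _)
    exact h1.of_mul_left_left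
  refine ⟨u, hul, hu0, by push_cast at hu1; exact_mod_cast hu1, ?_⟩
  -- the main computation
  have main : ∀ (t0 : ℕ) (c e : ℤ), ((l ^ (m + r + h) : ℕ) : ℤ) ∣ c - (g : ℤ) ^ t0 →
      ((l ^ m : ℕ) : ℤ) ∣ e * c - u →
      V.valuation (∑ j ∈ range (l ^ m), ζ ^ (e * (j : ℤ)) *
        P ((c : ℚ) / (l : ℚ) ^ (m + r + h) + (j : ℚ) / (l ^ m : ℕ))) < 1 := by
    intro t0 c e hc hec
    have h1 := hT t0
    set F : ℤ → ℂ := fun j => ζ ^ (e * j) * P ((c : ℚ) / (l : ℚ) ^ (m + r + h) +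
      (j : ℚ) / (l ^ m : ℕ)) with hF
    have hFper : ∀ j : ℤ, F (j + (l ^ m : ℕ)) = F j := by
      intro j
      simp only [hF]
      congr 1
      · apply ζz
        exact ⟨e, by ring⟩
      · rw [← Pz ((c : ℚ) / (l : ℚ) ^ (m + r + h) + (j : ℚ) / (l ^ m : ℕ)) 1]
        congr 1
        push_cast
        rw [add_div (j : ℚ), div_self hlmq]
        ring
    have hcl : IsCoprime c (l : ℤ) := by
      obtain ⟨s, hs⟩ := hdiv
      obtain ⟨k, hk⟩ := hec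
      have h1 : IsCoprime (e * c) (l : ℤ) := by
        have : e * c = u + (l : ℤ) * (s * k) := by rw [hs] at hk; linear_combination hk
        rw [this]
        exact (IsCoprime.add_mul_left_left hul _)
      exact h1.of_mul_left_right
    have hcw : IsCoprime (c * w) ((l ^ m : ℕ) : ℤ) := by
      push_cast
      exact (hcl.mul_left hw).pow_right
    have h2 := sum_perm (l ^ m) (pow_ne_zero m hl0) F hFper (c * w) hcw
    have h3 : ∑ i ∈ range (l ^ m), ξ ^ (l ^ r * i) * x (t0 + l ^ r * i) =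
        ∑ j ∈ range (l ^ m), F (c * w * j) := by
      apply Finset.sum_congr rfl
      intro i _
      simp only [hF]
      congr 1
      · rw [pow_mul, ← ζk, ← pow_mul, ← zpow_natCast ζ (k0 * i)]
        apply ζz
        obtain ⟨k1, hk1⟩ := hec
        obtain ⟨k2, hk2⟩ := huw
        refine ⟨- (k1 * w * i) - k2 * i, ?_⟩
        push_cast at hk1 hk2 ⊢
        linear_combination (- w * i) * hk1 - (i : ℤ) * hk2
      · simp only [hx]
        have h4 := Pc0 ((g : ℤ) ^ (t0 + l ^ r * i)) (c * (1 + (l : ℤ) ^ (r + h) * w * i)) (by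
          obtain ⟨k1, hk1⟩ := hc
          obtain ⟨k2, hk2⟩ := hg5 i
          refine ⟨(g : ℤ) ^ t0 * k2 - k1 * (1 + (l : ℤ) ^ (r + h) * w * i), ?_⟩
          rw [pow_add]
          linear_combination (g : ℤ) ^ t0 * hk2 - (1 + (l : ℤ) ^ (r + h) * w * i) * hk1)
        push_cast at h4
        rw [h4]
        congr 1
        push_cast
        have h5 : (l : ℚ) ^ (m + r + h) = (l : ℚ) ^ m * (l : ℚ) ^ (r + h) := by
          rw [← pow_add, add_assoc]
        have h6 : (l : ℚ) ^ (r + h) ≠ 0 := pow_ne_zero _ hlq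
        rw [h5]
        field_simp
    rw [h3, h2] at h1
    exact h1
  intro c e hec
  have hcl : IsCoprime c (l : ℤ) := by
    obtain ⟨s, hs⟩ := hdiv
    obtain ⟨k, hk⟩ := hec
    have h1 : IsCoprime (e * c) (l : ℤ) := by
      have : e * c = u + (l : ℤ) * (s * k) := by rw [hs] at hk; linear_combination hk
      rw [this]
      exact (IsCoprime.add_mul_left_left hul _)
    exact h1.of_mul_left_right
  obtain ⟨t, ht⟩ := g4 (m + r) c hcl
  rcases ht with ht | ht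
  · apply main t c e _ hec
    rw [← ZMod.intCast_zmod_eq_zero_iff_dvd]
    push_cast
    rw [ht]
    ring
  · have h1 := main t (-c) (-e) (by
      rw [← ZMod.intCast_zmod_eq_zero_iff_dvd]
      push_cast
      rw [ht]
      ring) (by
      have : -e * -c - u = e * c - u := by ring
      rw [this]
      exact hec)
    set F : ℤ → ℂ := fun j => ζ ^ (-e * j) * P (((-c : ℤ) : ℚ) / (l : ℚ) ^ (m + r + h) +
      (j : ℚ) / (l ^ m : ℕ)) with hF
    have hFper : ∀ j : ℤ, F (j + (l ^ m : ℕ)) = F j := by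
      intro j
      simp only [hF]
      congr 1
      · apply ζz
        exact ⟨-e, by ring⟩
      · rw [← Pz (((-c : ℤ) : ℚ) / (l : ℚ) ^ (m + r + h) + (j : ℚ) / (l ^ m : ℕ)) 1]
        congr 1
        push_cast
        rw [add_div (j : ℚ), div_self hlmq]
        ring
    have h2 := sum_perm (l ^ m) (pow_ne_zero m hl0) F hFper (-1) (isCoprime_one_left.neg_left)
    have h3 : ∑ j ∈ range (l ^ m), ζ ^ (e * (j : ℤ)) *
        P ((c : ℚ) / (l : ℚ) ^ (m + r + h) + (j : ℚ) / (l ^ m : ℕ)) =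
        ∑ j ∈ range (l ^ m), F (-1 * j) := by
      apply Finset.sum_congr rfl
      intro j _
      simp only [hF]
      congr 1
      · congr 1
        ring
      · rw [← Pneg]
        congr 1
        push_cast
        ring
    rw [h3, h2]
    exact h1

end Pool.Agent.TWR


end

section

/-!
# TWR, module TRI: the trace of a root of unity
-/

set_option autoImplicit false

namespace Pool.Agent.TWR

open Finset OnePoint

namespace TRIAux

/-- Lifting the exponent. -/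
theorem lte (l m q : ℕ) (hl : l.Prime) (hm : 1 ≤ m) (h2 : l = 2 → 2 ≤ m) (hd : l ^ m ∣ q - 1)
    (hn : ¬ l ^ (m + 1) ∣ q - 1) (hq : 1 ≤ q) (j : ℕ) :
    ∃ w : ℕ, q ^ (l ^ j) = 1 + l ^ (m + j) * w ∧ ¬ l ∣ w := by
  have : Fact l.Prime := ⟨hl⟩
  have hq1 : q ≠ 1 := by
    rintro rfl
    exact hn (by simp)
  have hq2 : 1 < q := lt_of_le_of_ne hq (Ne.symm hq1)
  have hne : q - 1 ≠ 0 := by omega
  have hld : l ∣ q - 1 := (dvd_pow_self l (by omega)).trans hd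
  have hlq : ¬ l ∣ q := by
    intro h
    have h3 : l ∣ q - (q - 1) := Nat.dvd_sub h hld
    have h4 : q - (q - 1) = 1 := by omega
    rw [h4] at h3
    exact hl.one_lt.ne' (Nat.dvd_one.1 h3)
  have hv : padicValNat l (q - 1) = m := by
    apply le_antisymm
    · by_contra h
      push Not at h
      exact hn ((padicValNat_dvd_iff_le hne).2 h)
    · exact (padicValNat_dvd_iff_le hne).1 hd
  have hpow1 : 1 < q ^ (l ^ j) := Nat.one_lt_pow (pow_pos hl.pos j).ne' hq2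
  have key : padicValNat l (q ^ (l ^ j) - 1) = m + j := by
    rcases hl.eq_two_or_odd' with hl2 | hodd
    · subst hl2
      rcases Nat.eq_zero_or_pos j with hj | hj
      · subst hj
        simpa using hv
      · have h5 := padicValNat.pow_two_sub_pow (x := q) (y := 1) hq2 hld hlq
          (n := 2 ^ j) (by positivity) ((Nat.even_pow).2 ⟨even_two, by omega⟩)
        rw [one_pow, hv, padicValNat.prime_pow] at h5
        have h6 : padicValNat 2 (q + 1) = 1 := by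
          have h7 : 4 ∣ q - 1 := by
            have h8 : 2 ^ 2 ∣ 2 ^ m := pow_dvd_pow 2 (h2 rfl)
            exact h8.trans hd
          have h9 : ¬ 2 ^ 2 ∣ q + 1 := by omega
          have h10 : 2 ^ 1 ∣ q + 1 := by omega
          apply le_antisymm
          · by_contra h
            push Not at h
            exact h9 ((padicValNat_dvd_iff_le (by omega)).2 h)
          · exact (padicValNat_dvd_iff_le (by omega)).1 h10
        omega
    · have h5 := padicValNat.pow_sub_pow hodd (x := q) (y := 1) hq2 hld hlq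
        (n := l ^ j) (pow_pos hl.pos j).ne'
      rw [one_pow, hv, padicValNat.prime_pow] at h5
      exact h5
  have hne2 : q ^ (l ^ j) - 1 ≠ 0 := by omega
  obtain ⟨w, hw⟩ := (padicValNat_dvd_iff_le hne2).2 (le_of_eq key.symm)
  refine ⟨w, by omega, fun h => ?_⟩
  obtain ⟨w', rfl⟩ := h
  have h6 : l ^ (m + j + 1) ∣ q ^ (l ^ j) - 1 := ⟨w', by rw [hw, pow_succ]; ring⟩
  have h7 := (padicValNat_dvd_iff_le hne2).1 h6
  omega

/-- Reordering of a sum. -/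
theorem sum_mul (f : ℕ → ℂ) (a n : ℕ) :
    ∑ j ∈ range (a * n), f j = ∑ j ∈ range a, ∑ i ∈ range n, f (j + a * i) := by
  rw [Finset.sum_comm]
  induction n with
  | zero => simp
  | succ n ih =>
    rw [Nat.mul_succ, Finset.sum_range_add, ih, Finset.sum_range_succ]
    congr 1
    exact Finset.sum_congr rfl fun j _ => by rw [Nat.add_comm]

theorem pow_iter (θ ω : ℂ) (Q : ℕ) (h1 : θ ^ Q = θ * ω) (h2 : ω ^ Q = ω) (i : ℕ) :
    θ ^ (Q ^ i) = θ * ω ^ i := by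
  induction i with
  | zero => simp
  | succ i ih =>
    rw [pow_succ, pow_mul, ih, mul_pow, h1, ← pow_mul, Nat.mul_comm, pow_mul, h2, pow_succ]
    ring

end TRIAux

open _root_.Pool.Agent.TWR.TRIAux in
theorem t_TRI : S_TRI := by
  intro l m r q hl hm h2 hd hn hq η hη
  by_cases h1 : η ^ (l ^ m) = 1
  · rw [if_pos h1]
    obtain ⟨t, ht⟩ := hd
    have hq' : q = 1 + l ^ m * t := by omega
    have h3 : η ^ q = η := by
      rw [hq', pow_add, pow_one, pow_mul, h1, one_pow, mul_one]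
    have h4 : ∀ j, η ^ (q ^ j) = η := by
      intro j
      have := pow_iter η 1 q (by rw [h3, mul_one]) (one_pow q) j
      rwa [one_pow, mul_one] at this
    rw [Finset.sum_congr rfl fun j _ => h4 j, Finset.sum_const, Finset.card_range, nsmul_eq_mul]
    push_cast
    rfl
  · rw [if_neg h1]
    obtain ⟨s, hs, hord⟩ := (Nat.dvd_prime_pow hl).1 (orderOf_dvd_of_pow_eq_one hη)
    have hms : m < s := by
      by_contra h
      push Not at h
      apply h1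
      apply orderOf_dvd_iff_pow_eq_one.1
      rw [hord]
      exact pow_dvd_pow l h
    obtain ⟨k, rfl⟩ : ∃ k, s = m + k + 1 := ⟨s - m - 1, by omega⟩
    obtain ⟨w, hw, hlw⟩ := lte l m q hl hm h2 hd hn hq k
    have hlq : ¬ l ∣ q := by
      intro h
      have hld : l ∣ q - 1 := (dvd_pow_self l (by omega)).trans hd
      have h3 : l ∣ q - (q - 1) := Nat.dvd_sub h hld
      have h4 : q - (q - 1) = 1 := by omega
      rw [h4] at h3
      exact hl.one_lt.ne' (Nat.dvd_one.1 h3)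
    have hr : l ^ r = l ^ k * l ^ (r - k) := by
      rw [← pow_add]
      congr 1
      omega
    rw [hr, sum_mul]
    refine Finset.sum_eq_zero fun j _ => ?_
    set θ : ℂ := η ^ (q ^ j) with hθ
    set ω : ℂ := θ ^ (l ^ (m + k) * w) with hω
    have hθs : θ ^ (l ^ (m + k + 1)) = 1 := by
      rw [hθ, ← pow_mul, Nat.mul_comm, pow_mul, ← hord, pow_orderOf_eq_one, one_pow]
    have hωl : ω ^ l = 1 := by
      rw [hω, ← pow_mul]
      have h5 : l ^ (m + k) * w * l = l ^ (m + k + 1) * w := by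
        rw [pow_succ]
        ring
      rw [h5, pow_mul, hθs, one_pow]
    have hω1 : ω ≠ 1 := by
      intro h
      rw [hω, hθ, ← pow_mul] at h
      have h5 := orderOf_dvd_of_pow_eq_one h
      rw [hord, pow_succ] at h5
      have h6 : l ^ (m + k) * l ∣ l ^ (m + k) * (q ^ j * w) := by
        have h7 : q ^ j * (l ^ (m + k) * w) = l ^ (m + k) * (q ^ j * w) := by ring
        rwa [h7] at h5
      have h8 := Nat.dvd_of_mul_dvd_mul_left (pow_pos hl.pos _) h6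
      rcases hl.dvd_mul.1 h8 with h9 | h9
      · exact hlq (hl.dvd_of_dvd_pow h9)
      · exact hlw h9
    have hθQ : θ ^ (q ^ (l ^ k)) = θ * ω := by
      rw [hw, pow_add, pow_one]
    have hωQ : ω ^ (q ^ (l ^ k)) = ω := by
      rw [hw, pow_add, pow_one]
      have h5 : l ^ (m + k) * w = l * (l ^ (m + k - 1) * w) := by
        rw [← Nat.mul_assoc, ← pow_succ']
        congr 2
        omega
      rw [h5, pow_mul, hωl, one_pow, mul_one]
    have hterm : ∀ i, η ^ (q ^ (j + l ^ k * i)) = θ * ω ^ i := by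
      intro i
      rw [pow_add, pow_mul, pow_mul, ← hθ]
      exact pow_iter θ ω (q ^ (l ^ k)) hθQ hωQ i
    rw [Finset.sum_congr rfl fun i _ => hterm i, ← Finset.mul_sum]
    have hgeom : ∑ i ∈ range (l ^ (r - k)), ω ^ i = 0 := by
      have h5 := geom_sum_mul ω (l ^ (r - k))
      have h6 : ω ^ (l ^ (r - k)) = 1 := by
        have h7 : r - k = (r - k - 1) + 1 := by omega
        rw [h7, pow_succ', pow_mul, hωl, one_pow]
      rw [h6, sub_self] at h5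
      exact (mul_eq_zero.1 h5).resolve_right (sub_ne_zero.2 hω1)
    rw [hgeom, mul_zero]

end Pool.Agent.TWR


end

section

set_option autoImplicit false

namespace Pool.Agent.TWR

open Finset

namespace TWPbAux

lemma sum_zmod {M : Type} [AddCommGroup M] (q : ℕ) [NeZero q] (F : ℤ → M)
    (hF : ∀ j, F (j + q) = F j) : ∑ j ∈ range q, F j = ∑ c : ZMod q, F (c.cast : ℤ) := by
  have h1 : ∀ j : ℕ, F (j : ℤ) = F (((j : ZMod q).cast : ℤ)) := by
    have h2 : ∀ (k : ℤ) (j : ℤ), F (j + q * k) = F j := by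
      intro k
      induction k using Int.induction_on with
      | zero => intro j; simp
      | succ k ih =>
        intro j
        rw [show j + q * ((k : ℤ) + 1) = (j + q * k) + q by ring, hF, ih]
      | pred k ih =>
        intro j
        rw [← hF, show j + q * (-(k : ℤ) - 1) + q = j + q * (-k) by ring, ih]
    intro j
    have h3 : ((q : ℕ) : ℤ) ∣ (j : ℤ) - ((j : ZMod q).cast : ℤ) := by
      rw [← ZMod.intCast_eq_intCast_iff_dvd_sub]
      simp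
    obtain ⟨k, hk⟩ := h3
    rw [show (j : ℤ) = ((j : ZMod q).cast : ℤ) + q * k by linarith, h2]
  rw [Finset.sum_congr rfl (fun j _ => h1 j)]
  refine Finset.sum_bij (fun j _ => (j : ZMod q)) (fun _ _ => mem_univ _) ?_ ?_ (fun _ _ => rfl)
  · intro a ha b hb hab
    rw [mem_range] at ha hb
    have := (ZMod.natCast_eq_natCast_iff' a b q).1 hab
    rwa [Nat.mod_eq_of_lt ha, Nat.mod_eq_of_lt hb] at this
  · intro c _
    exact ⟨c.val, mem_range.2 (ZMod.val_lt c), ZMod.natCast_zmod_val c⟩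

end TWPbAux

open _root_.Pool.Agent.TWR.TWPbAux in
theorem t_TWPb : S_TWP := by
  intro R M _ _ _ q hq z hz W hW
  have : NeZero q := ⟨hq⟩
  have h0 : z 0 = 1 := by
    have := hz.add q 0
    rw [add_zero, hz.per, one_mul] at this
    exact this.symm
  have hneg : ∀ a, z (-a) * z a = 1 := by
    intro a
    rw [← hz.add, neg_add_cancel, h0]
  have hqk : ∀ k : ℤ, z (q * k) = 1 := by
    intro k
    induction k using Int.induction_on with
    | zero => simpa using h0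
    | succ k ih => rw [mul_add, mul_one, hz.add, ih, hz.per, one_mul]
    | pred k ih =>
      have h1 := hneg q
      rw [hz.per, mul_one] at h1
      rw [show (q : ℤ) * (-(k : ℤ) - 1) = q * (-k) + -q by ring, hz.add, ih, h1, one_mul]
  have hzper : ∀ a b : ℤ, (q : ℤ) ∣ a - b → z a = z b := by
    intro a b ⟨k, hk⟩
    rw [show a = b + q * k by linarith, hz.add, hqk, mul_one]
  have hsub : ∀ (F : ℤ → M) (_ : ∀ j, F (j + q) = F j) (t : ℤ), IsCoprime t (q : ℤ) →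
      ∑ j ∈ range q, F (t * j) = ∑ j ∈ range q, F j := by
    intro F hF t ht
    have hper : ∀ a b : ℤ, (q : ℤ) ∣ a - b → F a = F b := by
      have h2 : ∀ (k : ℤ) (j : ℤ), F (j + q * k) = F j := by
        intro k
        induction k using Int.induction_on with
        | zero => intro j; simp
        | succ k ih =>
          intro j
          rw [show j + q * ((k : ℤ) + 1) = (j + q * k) + q by ring, hF, ih]
        | pred k ih =>
          intro j
          rw [← hF, show j + q * (-(k : ℤ) - 1) + q = j + q * (-k) by ring, ih]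
      intro a b ⟨k, hk⟩
      rw [show a = b + q * k by linarith, h2]
    have hG : ∀ j, F (t * (j + q)) = F (t * j) := by
      intro j
      exact hper _ _ ⟨t, by ring⟩
    rw [sum_zmod q (fun j => F (t * j)) hG, sum_zmod q F hF]
    obtain ⟨u, v, huv⟩ := ht
    have hu : ((t : ℤ) : ZMod q) * ((u : ℤ) : ZMod q) = 1 := by
      have := congrArg (fun a : ℤ => (a : ZMod q)) huv
      push_cast at this
      simp only [ZMod.natCast_self, mul_zero, add_zero] at this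
      rw [mul_comm]
      exact this
    let un : (ZMod q)ˣ := ⟨(t : ZMod q), (u : ZMod q), hu, by rw [mul_comm]; exact hu⟩
    refine Fintype.sum_bijective (fun c => (t : ZMod q) * c) (Units.mulLeft_bijective un) _ _ ?_
    intro c
    apply hper
    rw [← ZMod.intCast_eq_intCast_iff_dvd_sub]
    simp
  refine ⟨h0, hzper, hsub, ?_, ?_, ?_, ?_⟩
  · intro e n x
    unfold Tw
    refine Finset.sum_congr rfl fun j _ => ?_
    congr 1
    have h2 : ∀ (k : ℤ) (y : ℚ), W (y + k) = W y := by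
      intro k
      induction k using Int.induction_on with
      | zero => intro y; simp
      | succ k ih =>
        intro y
        push_cast
        rw [show y + ((k : ℚ) + 1) = (y + k) + 1 by ring, hW]
        have := ih y
        push_cast at this
        exact this
      | pred k ih =>
        intro y
        have := ih y
        push_cast at this ⊢
        rw [← hW, show y + (-(k : ℚ) - 1) + 1 = y + -k by ring, this]
    rw [show x + (n : ℚ) + (j : ℚ) / q = (x + (j : ℚ) / q) + n by ring, h2]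
  · intro e x
    unfold Tw
    have hq0 : (q : ℚ) ≠ 0 := by exact_mod_cast hq
    let G : ℤ → M := fun j => z (e * (j - 1)) • W (x + (j : ℚ) / q)
    have hG : ∀ j, G (j + q) = G j := by
      intro j
      simp only [G]
      rw [hzper (e * (j + q - 1)) (e * (j - 1)) ⟨e, by ring⟩]
      congr 1
      rw [show x + (((j + q : ℤ) : ℚ)) / q = (x + (j : ℚ) / q) + 1 by push_cast; field_simp; ring,
        hW]
    have h1 : ∑ j ∈ range q, z (e * (j : ℤ)) • W (x + 1 / (q : ℚ) + (j : ℚ) / q) =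
        ∑ j ∈ range q, G ((j : ℤ) + 1) := by
      refine Finset.sum_congr rfl fun j _ => ?_
      simp only [G]
      rw [show ((j : ℤ) + 1 - 1) = (j : ℤ) by ring]
      congr 2
      push_cast
      ring
    rw [h1]
    have h2 : ∑ j ∈ range q, G ((j : ℤ) + 1) = ∑ j ∈ range q, G (j : ℤ) := by
      have h3 := Finset.sum_range_succ (fun j : ℕ => G (j : ℤ)) q
      have h4 := Finset.sum_range_succ' (fun j : ℕ => G (j : ℤ)) q
      rw [h3] at h4
      have h5 : G ((q : ℕ) : ℤ) = G ((0 : ℕ) : ℤ) := by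
        have := hG 0
        simpa using this
      rw [h5] at h4
      push_cast at h4
      exact (add_right_cancel h4).symm
    rw [h2, Finset.smul_sum]
    refine Finset.sum_congr rfl fun j _ => ?_
    simp only [G]
    rw [smul_smul, ← hz.add, show -e + e * (j : ℤ) = e * ((j : ℤ) - 1) by ring]
    norm_cast
  · intro e e' x h
    unfold Tw
    refine Finset.sum_congr rfl fun j _ => ?_
    congr 1
    apply hzper
    obtain ⟨k, hk⟩ := h
    exact ⟨k * j, by rw [show e * (j : ℤ) - e' * j = (e - e') * j by ring, hk]; ring⟩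
  · intro a e x
    unfold Tw
    refine Finset.sum_congr rfl fun j _ => ?_
    change z (a * (e * (j : ℤ))) • _ = z (a * e * (j : ℤ)) • _
    rw [mul_assoc]

end Pool.Agent.TWR


end

section

/-! # TWR: the final step of the rigidity block (helper34). -/

set_option autoImplicit false

namespace Pool.Agent.TWR

open Finset OnePoint

namespace TWRAux

/-- the elements of valuation less than one -/
def small (V : ValuationSubring ℂ) : Submodule V ℂ where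
  carrier := {x | V.valuation x < 1}
  zero_mem' := by simp
  add_mem' := by
    intro a b ha hb
    exact lt_of_le_of_lt (V.valuation.map_add a b) (max_lt ha hb)
  smul_mem' := by
    intro c x hx
    have h1 : c • x = (c : ℂ) * x := rfl
    have h2 : V.valuation (c : ℂ) ≤ 1 := (V.valuation_le_one_iff _).2 c.2
    change V.valuation (c • x) < 1
    rw [h1, map_mul]
    calc V.valuation (c : ℂ) * V.valuation x ≤ 1 * V.valuation x := by gcongr
      _ = V.valuation x := one_mul _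
      _ < 1 := hx

lemma mem_small {V : ValuationSubring ℂ} {x : ℂ} : x ∈ small V ↔ V.valuation x < 1 := Iff.rfl

lemma val_int_le (V : ValuationSubring ℂ) (a : ℤ) : V.valuation (a : ℂ) ≤ 1 :=
  (V.valuation_le_one_iff _).2 (intCast_mem V a)

lemma val_cop (V : ValuationSubring ℂ) (p : ℕ) (hv : V.valuation (p : ℂ) < 1) (n : ℕ)
    (h : IsCoprime (n : ℤ) (p : ℤ)) : V.valuation (n : ℂ) = 1 := by
  obtain ⟨a, b, hab⟩ := h
  have h1 : (a : ℂ) * n + b * p = 1 := by exact_mod_cast hab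
  have hn : V.valuation (n : ℂ) ≤ 1 := by
    have := val_int_le V (n : ℤ)
    rwa [Int.cast_natCast] at this
  by_contra hne
  have hlt : V.valuation (n : ℂ) < 1 := lt_of_le_of_ne hn hne
  have h2 : V.valuation (((a : ℂ) * n) + b * p) < 1 := by
    refine lt_of_le_of_lt (V.valuation.map_add _ _) (max_lt ?_ ?_)
    · rw [map_mul]
      calc _ ≤ 1 * V.valuation (n : ℂ) := by gcongr; exact val_int_le V a
        _ = _ := one_mul _
        _ < 1 := hlt
    · rw [map_mul]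
      calc _ ≤ 1 * V.valuation (p : ℂ) := by gcongr; exact val_int_le V b
        _ = _ := one_mul _
        _ < 1 := hv
  rw [h1] at h2
  simp at h2

end TWRAux

open _root_.Pool.Agent.TWR.TWRAux in
theorem t_TWR : M_TWR := by
  intro hREC hMOD hFRB hSTA hZCH l g h hG V p hp hp5 hvp K hK I _ N hN nu hnu1 hnu2 hnu3 P hsym
    hPK hPe hPd hND a ha n0
  classical
  by_contra hcon
  push Not at hcon
  have hl : l.Prime := by rcases hG with ⟨rfl, _, _⟩ | ⟨rfl, _, _⟩ <;> norm_num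
  have hl24 : l ∣ 24 := by rcases hG with ⟨rfl, _, _⟩ | ⟨rfl, _, _⟩ <;> norm_num
  have hlp : l < p := by rcases hG with ⟨rfl, _, _⟩ | ⟨rfl, _, _⟩ <;> omega
  have hcop : ∀ n : ℕ, 0 < n → n < p → V.valuation (n : ℂ) = 1 := by
    intro n h0 h1
    refine val_cop V p hvp n ?_
    rw [Nat.isCoprime_iff_coprime]
    exact Nat.Coprime.symm ((Nat.Prime.coprime_iff_not_dvd hp).2 (fun hd => by
      have := Nat.le_of_dvd h0 hd
      omega))
  have hvl : V.valuation (l : ℂ) = 1 := hcop l hl.pos hlp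
  have hv2 : V.valuation (2 : ℂ) = 1 := by
    have := hcop 2 (by norm_num) (by omega)
    simpa using this
  obtain ⟨q, hq1, hq24, hfr⟩ := hFRB V p hp hp5 hvp K hK
  have hq0 : q - 1 ≠ 0 := by omega
  have hlu : IsUnit (l : V) := by
    have h1 : V.valuation ((l : V) : ℂ) = 1 := by
      have h2 : ((l : V) : ℂ) = (l : ℂ) := by push_cast; rfl
      rw [h2, hvl]
    exact (V.valuation_eq_one_iff _).2 h1
  -- the exponent
  obtain ⟨m, hm1, hm2⟩ : ∃ m, l ^ m ∣ q - 1 ∧ ¬ l ^ (m + 1) ∣ q - 1 := by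
    have : Fact l.Prime := ⟨hl⟩
    exact ⟨padicValNat l (q - 1), pow_padicValNat_dvd, pow_succ_padicValNat_not_dvd hq0⟩
  have hmpos : 1 ≤ m := by
    by_contra hc
    have : m = 0 := by omega
    subst this
    exact hm2 (by simpa using hl24.trans hq24)
  have hm22 : l = 2 → 2 ≤ m := by
    intro h2
    subst h2
    by_contra hc
    have : m = 1 := by omega
    subst this
    exact hm2 (Dvd.dvd.trans (by norm_num) hq24)
  obtain ⟨z, hz, hzexp⟩ := hZCH V l m hl hvl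
  -- symbols
  have hsymE : ∀ (i : I) (a b c d : ℤ), a * d - b * c = 1 → (N : ℤ) ∣ c → c ≠ 0 → ∀ x : ℚ,
      (c : ℚ) * x + d ≠ 0 → P i ∞ (((a * x + b) / (c * x + d) : ℚ) : OnePoint ℚ) =
        P i ∞ (((a : ℚ) / c : ℚ) : OnePoint ℚ) + nu i d * P i ∞ (x : OnePoint ℚ) := by
    intro i a b c d hdet hc hc0 x hx
    have h1 := (hsym i).equiv a b c d hdet hc ∞ (x : OnePoint ℚ)
    have h2 : Pool.Agent.MuSym.mob a b c d ∞ = (((a : ℚ) / c : ℚ) : OnePoint ℚ) := by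
      simp [Pool.Agent.MuSym.mob, hc0]
    have h3 : Pool.Agent.MuSym.mob a b c d (x : OnePoint ℚ) =
        (((a * x + b) / (c * x + d) : ℚ) : OnePoint ℚ) := by
      simp [Pool.Agent.MuSym.mob, hx]
    rw [h2, h3] at h1
    rw [← h1, (hsym i).add]
  have hper : ∀ (i : I) (x : ℚ), P i ∞ ((x + 1 : ℚ) : OnePoint ℚ) = P i ∞ (x : OnePoint ℚ) := by
    intro i x
    have h1 := (hsym i).equiv 1 1 0 1 (by norm_num) (by simp) ∞ (x : OnePoint ℚ)
    have h2 : Pool.Agent.MuSym.mob 1 1 0 1 ∞ = ∞ := by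
      simp [Pool.Agent.MuSym.mob]
    have h3 : Pool.Agent.MuSym.mob 1 1 0 1 (x : OnePoint ℚ) = ((x + 1 : ℚ) : OnePoint ℚ) := by
      simp [Pool.Agent.MuSym.mob]
    rw [h2, h3, hnu2, one_mul] at h1
    exact h1
  have hinf : ∀ i : I, P i ∞ ∞ = 0 := by
    intro i
    have h1 := (hsym i).add ∞ ∞ ∞
    simpa using h1
  let W : I → ℚ → (ℂ ⧸ small V) := fun i x => (small V).mkQ (P i ∞ (x : OnePoint ℚ))
  have hsmul : ∀ (r : V) (x : ℂ), r • (small V).mkQ x = (small V).mkQ ((r : ℂ) * x) := by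
    intro r x
    rw [← _root_.map_smul]
    rfl
  let chi : I → ℤ → V := fun i d => ⟨nu i d, (V.valuation_le_one_iff _).1 (hnu1 i d)⟩
  obtain ⟨v, N0, hN0, hNeq⟩ : ∃ v N0 : ℕ, ¬ l ∣ N0 ∧ N = l ^ v * N0 :=
    Nat.exists_eq_pow_mul_and_not_dvd hN l hl.ne_one
  have hN00 : N0 ≠ 0 := by rintro rfl; exact hN0 (dvd_zero _)
  have hN0c : IsCoprime (N0 : ℤ) (l : ℤ) := by
    rw [Nat.isCoprime_iff_coprime]
    exact ((Nat.Prime.coprime_iff_not_dvd hl).2 hN0).symm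
  have hQM : ∀ i : I, QM (l ^ v * N0) (chi i) (W i) := by
    intro i
    refine ⟨?_, ?_, ?_, ?_⟩
    · intro x
      change (small V).mkQ _ = (small V).mkQ _
      rw [hper]
    · apply Subtype.ext
      exact hnu2 i
    · intro d d' hd
      apply Subtype.ext
      exact hnu3 i d d' (by rw [hNeq]; exact hd)
    · intro a b c d hdet hc hc0 x hx
      change (small V).mkQ _ = (small V).mkQ _ + chi i d • (small V).mkQ _
      rw [hsmul, ← map_add, hsymE i a b c d hdet (by rw [hNeq]; exact hc) hc0 x hx]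
  have hdep : ∀ (i : I) (x : ℚ), ∑ k ∈ range l, W i (x + (k : ℚ) / l) = 0 := by
    intro i x
    change ∑ k ∈ range l, (small V).mkQ _ = 0
    rw [← map_sum, hPd, map_zero]
  -- the relations
  have hStar : ∀ n, n0 + 2 * m + h + 1 ≤ n → ∃ j < a, ∃ (i : I) (u : Fin (l ^ m)),
      (IsCoprime ((u : ℕ) : ℤ) (l : ℤ) ∧ StarAt l m z (W i) (n + j) ((u : ℕ) : ℤ)) := by
    intro n hn
    obtain ⟨j, hj, i, ψ, hψ1, hψ2, hψ3⟩ := hcon n (by omega)
    refine ⟨j, hj, i, ?_⟩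
    obtain ⟨r, hr⟩ : ∃ r, n + j = m + r + h := ⟨n + j - m - h, by omega⟩
    have hr1 : 1 ≤ r := by omega
    have hrm : m ≤ r + h := by omega
    revert ψ
    rw [hr]
    intro ψ hψ1 hψ2 hψ3
    obtain ⟨u, hu1, hu2, hu3, hu4⟩ := hSTA V l g h m r q hG hmpos hm22 hr1 hrm hm1 hm2 (by omega)
      hvl hv2 K (by
        intro ξ hξ x hx
        have hnp : ¬ p ∣ l ^ (m + r) := by
          intro hd
          have := (Nat.prime_dvd_prime_iff_eq hp hl).1 (hp.dvd_of_dvd_pow hd)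
          omega
        exact hfr (l ^ (m + r)) (pow_ne_zero _ hl.ne_zero) hnp ξ hξ x hx)
      (fun x => P i ∞ (x : OnePoint ℚ)) (hper i) (hPe i) (hPK i) ψ hψ1 hψ2 hψ3
    obtain ⟨w, rfl⟩ := Int.eq_ofNat_of_zero_le hu2
    have hw : w < l ^ m := by exact_mod_cast hu3
    refine ⟨⟨w, hw⟩, hu1, ?_⟩
    intro c e hce
    have h1 := hu4 c e hce
    change ∑ j ∈ range (l ^ m), z (e * j) • (small V).mkQ _ = 0
    simp only [hsmul]
    rw [← map_sum, ← LinearMap.mem_ker, Submodule.ker_mkQ, mem_small]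
    simp only [hzexp]
    exact h1
  obtain ⟨E, d, i, u, u', hE, hmd, hdm, hTE, hTEd, hrec⟩ := hREC I (Fin (l ^ m))
    (fun n i u => IsCoprime ((u : ℕ) : ℤ) (l : ℤ) ∧ StarAt l m z (W i) n ((u : ℕ) : ℤ))
    a m (n0 + 2 * m + h + 1) (v + 2 * m) ha hStar
  have hfin := hMOD V (ℂ ⧸ small V) l m hl hmpos hlu z hz N0 v hN00 hN0c (chi i) (W i) (hQM i)
    (hdep i) E d ((u : ℕ) : ℤ) ((u' : ℕ) : ℤ) hE hmd hdm hTEd.1 hTE.1 hTE.2 hTEd.2 (by
      intro t ht
      obtain ⟨o, ho1, ho2, ho3⟩ := hrec t ht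
      exact ⟨o, ho1, ho2, ho3.2⟩)
  obtain ⟨a1, b1, c1, d1, hdet, hc1, hd1, hval⟩ := hND i (l ^ (E + m) * (l ^ v * N0))
    (by
      have := pow_ne_zero (E + m) hl.ne_zero
      have := pow_ne_zero v hl.ne_zero
      positivity) (by rw [hNeq]; exact Dvd.intro_left _ rfl)
  rcases eq_or_ne c1 0 with h0 | h0
  · have h2 : Pool.Agent.MuSym.mob a1 b1 c1 d1 ∞ = ∞ := by
      simp [Pool.Agent.MuSym.mob, h0]
    rw [h2, hinf, map_zero] at hval
    simp at hval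
  · have h2 : Pool.Agent.MuSym.mob a1 b1 c1 d1 ∞ = (((a1 : ℚ) / c1 : ℚ) : OnePoint ℚ) := by
      simp [Pool.Agent.MuSym.mob, h0]
    rw [h2] at hval
    have h3 := hfin a1 b1 c1 d1 hdet hc1 hd1 h0
    change (small V).mkQ _ = 0 at h3
    rw [← LinearMap.mem_ker, Submodule.ker_mkQ, mem_small] at h3
    exact absurd h3 (not_lt.2 hval)

end Pool.Agent.TWR


end

section

/-!
# The additive character modulo `l^m` with values in a valuation ring of `ℂ`
-/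

set_option autoImplicit false

namespace Pool.Agent.TWR

namespace ZCHAux

/-- a root of unity has valuation one -/
theorem val_root (V : ValuationSubring ℂ) (x : ℂ) (q : ℕ) (hq : q ≠ 0) (hx : x ^ q = 1) :
    V.valuation x = 1 := by
  have h : V.valuation x ^ q = 1 := by rw [← map_pow, hx, map_one]
  rcases lt_trichotomy (V.valuation x) 1 with h1 | h1 | h1
  · exact absurd h (ne_of_lt (pow_lt_one₀ zero_le h1 hq))
  · exact h1
  · exact absurd h (ne_of_gt (one_lt_pow₀ h1 hq))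

/-- `1 - x` has valuation at most one if `x` is a root of unity -/
theorem val_one_sub (V : ValuationSubring ℂ) (x : ℂ) (q : ℕ) (hq : q ≠ 0) (hx : x ^ q = 1) :
    V.valuation (1 - x) ≤ 1 := by
  refine (V.valuation.map_sub 1 x).trans ?_
  rw [map_one, val_root V x q hq hx, max_self]

/-- the factors of the product formula are units -/
theorem val_factor (V : ValuationSubring ℂ) (n : ℕ) (x : ℂ) (hx : IsPrimitiveRoot x (n + 1))
    (hv : V.valuation ((n + 1 : ℕ) : ℂ) = 1) (k : ℕ) (hk : k < n) :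
    V.valuation (1 - x ^ (k + 1)) = 1 := by
  have hr : ∀ i : ℕ, (x ^ i) ^ (n + 1) = 1 := fun i => by
    rw [← pow_mul, mul_comm, pow_mul, hx.pow_eq_one, one_pow]
  have hle : ∀ i : ℕ, V.valuation (1 - x ^ (i + 1)) ≤ 1 := fun i =>
    val_one_sub V _ (n + 1) (Nat.succ_ne_zero n) (hr _)
  have hp := hx.prod_one_sub_pow_eq_order
  have hp2 : ∏ i ∈ Finset.range n, V.valuation (1 - x ^ (i + 1)) = 1 := by
    rw [← map_prod, hp, ← hv, Nat.cast_add, Nat.cast_one]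
  refine le_antisymm (hle k) ?_
  rw [← Finset.mul_prod_erase _ _ (Finset.mem_range.2 hk)] at hp2
  calc (1 : V.ValueGroup) = _ := hp2.symm
    _ ≤ V.valuation (1 - x ^ (k + 1)) * 1 :=
        mul_le_mul_right (Finset.prod_le_one' fun i _ => hle i) _
    _ = _ := mul_one _

end ZCHAux

/-- Module ZCH. -/
theorem t_ZCH : S_ZCH := by
  intro V l m hl hv
  have hq : l ^ m ≠ 0 := pow_ne_zero _ hl.ne_zero
  have hq1 : 0 < l ^ m := Nat.pos_of_ne_zero hq
  set ζ : ℂ := Complex.exp (2 * Real.pi * Complex.I / (l ^ m : ℕ)) with hζ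
  have hprim : IsPrimitiveRoot ζ (l ^ m) := Complex.isPrimitiveRoot_exp _ hq
  have h0 : ζ ≠ 0 := Complex.exp_ne_zero _
  have hroot : ∀ j : ℤ, (ζ ^ j) ^ (l ^ m) = 1 := fun j => by
    rw [← zpow_natCast, ← zpow_mul, mul_comm, zpow_mul, zpow_natCast, hprim.pow_eq_one, one_zpow]
  have hmem : ∀ j : ℤ, ζ ^ j ∈ V := fun j =>
    (V.valuation_le_one_iff _).1 (ZCHAux.val_root V _ _ hq (hroot j)).le
  refine ⟨fun j => ⟨ζ ^ j, hmem j⟩, ⟨?_, ?_, ?_⟩, fun j => rfl⟩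
  · intro a b
    exact Subtype.ext (zpow_add₀ h0 a b)
  · refine Subtype.ext ?_
    change ζ ^ ((l ^ m : ℕ) : ℤ) = 1
    rw [zpow_natCast, hprim.pow_eq_one]
  · intro j hj
    rw [ValuationSubring.valuation_eq_one_iff]
    change V.valuation (1 - ζ ^ j) = 1
    obtain ⟨r, hr1, hr2⟩ : ∃ r : ℕ, r < l ^ m ∧ ((r : ℤ) = j % ((l ^ m : ℕ) : ℤ)) :=
      ⟨(j % ((l ^ m : ℕ) : ℤ)).toNat, by
        have := Int.emod_lt_of_pos j (b := ((l ^ m : ℕ) : ℤ)) (by exact_mod_cast hq1)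
        have := Int.emod_nonneg j (b := ((l ^ m : ℕ) : ℤ)) (by exact_mod_cast hq)
        omega, Int.toNat_of_nonneg (Int.emod_nonneg _ (by exact_mod_cast hq))⟩
    have hr0 : r ≠ 0 := by
      rintro rfl
      exact hj (Int.dvd_of_emod_eq_zero hr2.symm)
    have hzr : ζ ^ j = ζ ^ r := by
      have e : j = ((l ^ m : ℕ) : ℤ) * (j / ((l ^ m : ℕ) : ℤ)) + r := by
        rw [hr2]; exact (Int.mul_ediv_add_emod _ _).symm
      rw [e, zpow_add₀ h0, zpow_mul, zpow_natCast, hprim.pow_eq_one, one_zpow, one_mul,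
        zpow_natCast]
    rw [hzr]
    obtain ⟨n, hn⟩ : ∃ n, l ^ m = n + 1 := ⟨l ^ m - 1, by omega⟩
    obtain ⟨k, rfl⟩ : ∃ k, r = k + 1 := ⟨r - 1, by omega⟩
    have hvq : V.valuation ((n + 1 : ℕ) : ℂ) = 1 := by
      rw [← hn, Nat.cast_pow, map_pow, hv, one_pow]
    rw [hn] at hprim
    exact ZCHAux.val_factor V n ζ hprim hvq k (by omega)

end Pool.Agent.TWR


end
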