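import Pool.Agent.TWM.C02

/-! Parts: TWR.CLO, TWR.CST, TWR.EDG, TWR.GPW, TWR.MOD, TWR.SUM, TWR.St2, TWR.TRS, TWR.NFV, TWR.All, TWR.TW3, TWR.K4, TWR.TW4 -/

section

/-!
# The closing step (module CLO of TWR, MP_b78433_nt)
-/

set_option autoImplicit false

namespace Pool.Agent.TWR

open Finset OnePoint

theorem t_CLO : M_CLO := by
  intro _ hEQV hKEY R M _ _ _ l m hl hm z hz N0 v hN0 hN0l χ W hW E d u u' hE hmd hdE hu hu' hS1
    hS2 hS3 a b c d1 hdet hc hd1 hc0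
  obtain ⟨k, hk⟩ := hc
  obtain ⟨k2, hk2⟩ := hd1
  push_cast at hk hk2
  obtain ⟨m', rfl⟩ : ∃ m', m = m' + 1 := ⟨m - 1, by omega⟩
  obtain ⟨E', rfl⟩ : ∃ E', E = E' + (m' + 1) := ⟨E - (m' + 1), by omega⟩
  set L : ℤ := (l : ℤ) with hL
  set q : ℤ := L ^ (m' + 1) with hq
  -- c = L ^ E c'
  set c' : ℤ := q * (L ^ v * N0) * k with hc'
  have hcc : c = L ^ (E' + (m' + 1)) * c' := by
    rw [hk, hc', hq]; ring
  set δ : ℤ := c' * u' + d1 with hδ
  set R' : ℤ := a * u' + b * L ^ (E' + (m' + 1)) with hR'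
  have hLu : ¬ IsUnit L := (Nat.prime_iff_prime_int.1 hl).not_isUnit
  have hL0 : L ≠ 0 := (Nat.prime_iff_prime_int.1 hl).ne_zero
  have hδ1 : δ = 1 + (N0 * L) * (L ^ m' * L ^ v * k * u' +
      L ^ (E' + (m' + 1)) * L ^ m' * L ^ v * k2) := by
    have h1 : d1 = 1 + (d1 - 1) := by ring
    rw [hδ, h1, hk2, hc', hq]
    ring
  have hδc : IsCoprime δ ((N0 : ℤ) * L) := by
    refine ⟨1, -(L ^ m' * L ^ v * k * u' + L ^ (E' + (m' + 1)) * L ^ m' * L ^ v * k2), ?_⟩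
    rw [hδ1]; ring
  have hδL : IsCoprime δ L := hδc.of_mul_right_right
  have hδ0 : δ ≠ 0 := by
    intro h
    rw [h] at hδL
    exact hLu (isCoprime_zero_left.1 hδL)
  -- a = 1 modulo q
  have hqd : q ∣ d1 - 1 := by
    rw [hk2]
    refine ⟨L ^ (E' + (m' + 1)) * (L ^ v * N0) * k2, ?_⟩
    rw [hq]; ring
  have hqc' : q ∣ c' := ⟨(L ^ v * N0) * k, by rw [hc']; ring⟩
  have hqc : q ∣ c := by rw [hcc]; exact Dvd.dvd.mul_left hqc' _
  have hqa : q ∣ a - 1 := by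
    have h1 : a - 1 = b * c - a * (d1 - 1) := by linear_combination hdet
    rw [h1]
    exact dvd_sub (Dvd.dvd.mul_left hqc _) (Dvd.dvd.mul_left hqd _)
  have hqE : q ∣ L ^ (E' + (m' + 1)) := ⟨L ^ E', by rw [hq]; ring⟩
  obtain ⟨r1, hr1⟩ : q ∣ R' - u' * δ := by
    have h1 : R' - u' * δ = (a - 1) * u' - (d1 - 1) * u' + b * L ^ (E' + (m' + 1)) -
        c' * u' ^ 2 := by
      rw [hR', hδ]; ring
    rw [h1]
    exact dvd_sub (dvd_add (dvd_sub (Dvd.dvd.mul_right hqa _) (Dvd.dvd.mul_right hqd _))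
      (Dvd.dvd.mul_left hqE _)) (Dvd.dvd.mul_right hqc' _)
  obtain ⟨A, B, hAB⟩ : IsCoprime δ (L ^ E') := hδL.pow_right
  set s : ℤ := A * r1 with hs
  set β : ℤ := B * r1 with hβ
  have hRb : R' = L ^ (E' + (m' + 1)) * β + (u' + s * q) * δ := by
    have h1 : L ^ (E' + (m' + 1)) = L ^ E' * q := by rw [hq]; ring
    rw [h1, hβ, hs]
    linear_combination hr1 - q * r1 * hAB
  have hβδ : IsCoprime β δ := by
    refine ⟨-(c' * L ^ (E' + (m' + 1))), a - c' * (u' + s * q), ?_⟩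
    have h1 : a * δ - c' * R' = 1 := by
      rw [hδ, hR']
      linear_combination hdet + b * hcc
    linear_combination h1 + c' * hRb
  have hkey := hKEY R M l (m' + 1) hl hm z hz N0 v hN0 hN0l χ W hW (E' + (m' + 1)) d u u' hE hmd
    hdE hu hu' hS1 hS2 hS3 β δ s hδ0 hδc hβδ
  -- the equation for g x
  have hlQ : (l : ℚ) ≠ 0 := by exact_mod_cast hl.ne_zero
  have hLE : ((l : ℚ)) ^ (E' + (m' + 1)) ≠ 0 := pow_ne_zero _ hlQ
  have hδQ : (δ : ℚ) ≠ 0 := by exact_mod_cast hδ0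
  have hLQ : ((L : ℤ) : ℚ) = (l : ℚ) := by rw [hL]; push_cast; rfl
  set x : ℚ := (u' : ℚ) / (l : ℚ) ^ (E' + (m' + 1)) with hx
  have hcx : (c : ℚ) * x + d1 = δ := by
    rw [hx, hcc, hδ]
    push_cast
    rw [hLQ]
    field_simp
  have hax : (a : ℚ) * x + b = (R' : ℚ) / (l : ℚ) ^ (E' + (m' + 1)) := by
    rw [hx, hR']
    push_cast
    rw [hLQ]
    field_simp
  have hgx : ((a : ℚ) * x + b) / ((c : ℚ) * x + d1) =
      (β : ℚ) / δ + ((u' : ℚ) + s * (l : ℚ) ^ (m' + 1)) / (l : ℚ) ^ (E' + (m' + 1)) := by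
    rw [hcx, hax]
    have h1 : (R' : ℚ) = (l : ℚ) ^ (E' + (m' + 1)) * β +
        ((u' : ℚ) + s * (l : ℚ) ^ (m' + 1)) * δ := by
      rw [hRb, hq]
      push_cast
      rw [hLQ]
    rw [h1]
    field_simp
  have heqv := hEQV R M (l ^ (m' + 1)) (pow_ne_zero _ hl.ne_zero) z hz (l ^ v * N0) χ W hW 1 a b c
    d1 x hdet (by
      refine ⟨L ^ E' * k, ?_⟩
      push_cast
      rw [hcc, hc', hq]
      ring) hc0 (by rw [hcx]; exact hδQ)
  rw [hgx, hkey] at heqv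
  have hstar : Tw (l ^ (m' + 1)) z W (1 * a ^ 2) x = 0 := by
    refine hS1 u' (1 * a ^ 2) ?_
    push_cast
    have h1 : 1 * a ^ 2 * u' - u' = (a - 1) * ((a + 1) * u') := by ring
    rw [h1]
    exact Dvd.dvd.mul_right hqa _
  rw [hstar, smul_zero, add_zero] at heqv
  exact heqv.symm

end Pool.Agent.TWR


end

section

/-!
# Two periods and a twist
-/

set_option autoImplicit false

namespace Pool.Agent.TWR

/-- Module CST. -/
theorem t_CST : S_CST := by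
  intro R M _ _ _ l k t r T0 y H hco htr hy hk hT hr s
  obtain ⟨a, b, hab⟩ := IsCoprime.pow_right (n := k) hco
  have h1 : Function.Periodic H ((l : ℤ) ^ k) := hk
  have h2 : Function.Periodic H ((l : ℤ) ^ t * T0) := hT
  have h3 := (h2.int_mul ((l : ℤ) ^ (r - t) * a)).add_period
    (h1.int_mul ((l : ℤ) ^ (r - t) * (l : ℤ) ^ t * b))
  have e : (((l : ℤ) ^ (r - t) * a : ℤ) : ℤ) * ((l : ℤ) ^ t * T0) +
      (((l : ℤ) ^ (r - t) * (l : ℤ) ^ t * b : ℤ) : ℤ) * (l : ℤ) ^ k = (l : ℤ) ^ r := by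
    have e1 : (l : ℤ) ^ r = (l : ℤ) ^ (r - t) * (l : ℤ) ^ t := by
      rw [← pow_add, Nat.sub_add_cancel htr]
    calc (l : ℤ) ^ (r - t) * a * ((l : ℤ) ^ t * T0) +
          (l : ℤ) ^ (r - t) * (l : ℤ) ^ t * b * (l : ℤ) ^ k
        = (l : ℤ) ^ (r - t) * (l : ℤ) ^ t * (a * T0 + b * (l : ℤ) ^ k) := by ring
      _ = (l : ℤ) ^ r := by rw [hab, mul_one, e1]
  have h4 : H (s + (l : ℤ) ^ r) = H s := by
    have h5 := h3 s
    simp only [Int.cast_id] at h5
    rw [e] at h5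
    exact h5
  have h6 : (1 - y) • H s = 0 := by
    rw [sub_smul, one_smul, ← hr s, h4, sub_self]
  obtain ⟨u, hu⟩ := hy
  rw [← hu] at h6
  have h7 : (u⁻¹ : Rˣ) • (u • H s) = 0 := by
    rw [show u • H s = (u : R) • H s from rfl, h6, smul_zero]
  rwa [inv_smul_smul] at h7

end Pool.Agent.TWR


end

section

/-!
TWR, module EDG: the edges.
-/

set_option autoImplicit false

namespace Pool.Agent.TWR

open Finset OnePoint

theorem t_EDG : M_EDG := by
  intro hEQV R M _ _ _ l m hl z hz N χ W hW n u hst e A B C D hmn hNC hC hD hcop hdet hu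
  obtain ⟨d, b', hb⟩ := hcop
  obtain ⟨b, hbb⟩ : ∃ b : ℤ, b' = -b := ⟨-b', by ring⟩
  have hd1 : A * d - b * C = 1 := by rw [hbb] at hb; linear_combination hb
  have hq0 : l ^ m ≠ 0 := pow_ne_zero _ hl.ne_zero
  have hlQ : (l : ℚ) ^ n ≠ 0 := pow_ne_zero _ (by exact_mod_cast hl.ne_zero)
  have h1 : A * (d * B - b * D) + b * (l : ℤ) ^ n = B := by
    rw [← hdet]
    linear_combination B * hd1
  have h2 : C * (d * B - b * D) + d * (l : ℤ) ^ n = D := by
    rw [← hdet]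
    linear_combination D * hd1
  have h1Q : (A : ℚ) * ((d * B - b * D : ℤ) : ℚ) + b * (l : ℚ) ^ n = B := by exact_mod_cast h1
  have h2Q : (C : ℚ) * ((d * B - b * D : ℤ) : ℚ) + d * (l : ℚ) ^ n = D := by exact_mod_cast h2
  have hDQ : (D : ℚ) ≠ 0 := by exact_mod_cast hD
  have e1 : (A : ℚ) * (((d * B - b * D : ℤ) : ℚ) / (l : ℚ) ^ n) + b = B / (l : ℚ) ^ n := by
    rw [eq_div_iff hlQ, add_mul, mul_assoc, div_mul_cancel₀ _ hlQ]
    exact h1Q
  have e2 : (C : ℚ) * (((d * B - b * D : ℤ) : ℚ) / (l : ℚ) ^ n) + d = D / (l : ℚ) ^ n := by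
    rw [eq_div_iff hlQ, add_mul, mul_assoc, div_mul_cancel₀ _ hlQ]
    exact h2Q
  have key := hEQV R M (l ^ m) hq0 z hz N χ W hW e A b C d
    (((d * B - b * D : ℤ) : ℚ) / (l : ℚ) ^ n) hd1 hNC hC
    (by rw [e2]; exact div_ne_zero hDQ hlQ)
  rw [e1, e2, div_div_div_cancel_right₀ hlQ] at key
  rw [key, hst (d * B - b * D) (e * A ^ 2) ?_, smul_zero, add_zero]
  have h3 : e * A ^ 2 * (d * B - b * D) - u = (e * A * B - u) - e * A * b * (l : ℤ) ^ n := by
    rw [← hdet]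
    linear_combination (e * A * B) * hd1
  rw [h3]
  apply dvd_sub hu
  apply Dvd.dvd.mul_left
  push_cast
  exact pow_dvd_pow _ hmn

end Pool.Agent.TWR


end

section

/-!
# TWR, the powers of the generator
-/

set_option autoImplicit false

namespace Pool.Agent.TWR

open Finset

namespace GPWAux

/-- First clause. -/
theorem pw (l g h : ℕ) (hG : Gen l g h) (k : ℕ) :
    ∃ w : ℤ, IsCoprime w (l : ℤ) ∧ (g : ℤ) ^ (l ^ k) = 1 + (l : ℤ) ^ (k + h) * w := by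
  rcases hG with ⟨rfl, rfl, rfl⟩ | ⟨rfl, rfl, rfl⟩
  · induction k with
    | zero => exact ⟨1, isCoprime_one_left, by norm_num⟩
    | succ k ih =>
      obtain ⟨w, hw, he⟩ := ih
      refine ⟨w + (3 ^ k * w ^ 2 + 3 ^ (2 * k) * w ^ 3) * 3, ?_, ?_⟩
      · have h1 : IsCoprime w ((3 : ℕ) : ℤ) := hw
        push_cast at h1 ⊢
        exact (IsCoprime.add_mul_right_left_iff).mpr h1
      · rw [pow_succ 3 k, pow_mul, he]
        push_cast
        ring
  · induction k with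
    | zero => exact ⟨1, isCoprime_one_left, by norm_num⟩
    | succ k ih =>
      obtain ⟨w, hw, he⟩ := ih
      refine ⟨w + (2 ^ k * w ^ 2) * 2, ?_, ?_⟩
      · have h1 : IsCoprime w ((2 : ℕ) : ℤ) := hw
        push_cast at h1 ⊢
        exact (IsCoprime.add_mul_right_left_iff).mpr h1
      · rw [pow_succ 2 k, pow_mul, he]
        push_cast
        ring

theorem prime_l {l g h : ℕ} (hG : Gen l g h) : l.Prime := by
  rcases hG with ⟨rfl, rfl, rfl⟩ | ⟨rfl, rfl, rfl⟩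
  · exact Nat.prime_three
  · exact Nat.prime_two

theorem tot {l g h : ℕ} (hG : Gen l g h) (k : ℕ) : Nat.totient (l ^ (k + h)) = 2 * l ^ k := by
  rcases hG with ⟨rfl, rfl, rfl⟩ | ⟨rfl, rfl, rfl⟩
  · rw [Nat.totient_prime_pow_succ Nat.prime_three]
    ring
  · rw [Nat.totient_prime_pow_succ Nat.prime_two]
    ring

theorem red {l g h : ℕ} (hG : Gen l g h) :
    (g : ZMod (l ^ h)) = 1 ∧ (1 : ZMod (l ^ h)) ≠ -1 := by
  rcases hG with ⟨rfl, rfl, rfl⟩ | ⟨rfl, rfl, rfl⟩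
  · exact ⟨by decide, by decide⟩
  · exact ⟨by decide, by decide⟩

/-- Second clause. -/
theorem one (l g h : ℕ) (hG : Gen l g h) (k : ℕ) :
    (g : ZMod (l ^ (k + h))) ^ (l ^ k) = 1 := by
  obtain ⟨w, _, he⟩ := pw l g h hG k
  have h1 := congrArg (fun x : ℤ => (x : ZMod (l ^ (k + h)))) he
  have h2 : ((l : ZMod (l ^ (k + h))) ^ (k + h)) = 0 := by
    have := ZMod.natCast_self (l ^ (k + h))
    push_cast at this
    exact this
  push_cast at h1
  rw [h1, h2]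
  ring

theorem order (l g h : ℕ) (hG : Gen l g h) (k : ℕ) :
    orderOf (g : ZMod (l ^ (k + h))) = l ^ k := by
  have hl := prime_l hG
  cases k with
  | zero =>
    have h1 := one l g h hG 0
    rw [pow_zero, pow_one] at h1
    rw [h1, orderOf_one, pow_zero]
  | succ k =>
    have : Fact l.Prime := ⟨hl⟩
    apply orderOf_eq_prime_pow
    · intro h1
      obtain ⟨w, hw, he⟩ := pw l g h hG k
      have h2 : (((g : ℤ) ^ (l ^ k) : ℤ) : ZMod (l ^ (k + 1 + h))) = ((1 : ℤ) : ZMod _) := by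
        push_cast
        exact h1
      rw [ZMod.intCast_eq_intCast_iff_dvd_sub, he] at h2
      have h3 : ((l ^ (k + 1 + h) : ℕ) : ℤ) = (l : ℤ) ^ (k + h) * l := by
        push_cast
        ring
      have h4 : (1 : ℤ) - (1 + (l : ℤ) ^ (k + h) * w) = (l : ℤ) ^ (k + h) * (-w) := by ring
      rw [h3, h4] at h2
      have hl0 : (l : ℤ) ^ (k + h) ≠ 0 := pow_ne_zero _ (by exact_mod_cast hl.ne_zero)
      have h5 : (l : ℤ) ∣ w := (dvd_neg).mp ((mul_dvd_mul_iff_left hl0).mp h2)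
      have h6 : IsUnit (l : ℤ) := hw.symm.isUnit_of_dvd' dvd_rfl h5
      have h7 := Int.natAbs_of_isUnit h6
      rw [Int.natAbs_natCast] at h7
      exact hl.one_lt.ne' h7
    · exact one l g h hG (k + 1)

theorem neg_ne (l g h : ℕ) (hG : Gen l g h) (k t s : ℕ) :
    (g : ZMod (l ^ (k + h))) ^ t ≠ -(g : ZMod (l ^ (k + h))) ^ s := by
  intro he
  have hdvd : l ^ h ∣ l ^ (k + h) := pow_dvd_pow l (by omega)
  have h1 := congrArg (ZMod.castHom hdvd (ZMod (l ^ h))) he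
  rw [map_pow, map_neg, map_pow, map_natCast, (red hG).1, one_pow, one_pow] at h1
  exact (red hG).2 h1

/-- All units are `± g^t`. -/
theorem units (l g h : ℕ) (hG : Gen l g h) (k : ℕ) [NeZero (l ^ (k + h))] :
    (univ : Finset (ZMod (l ^ (k + h)))).filter (fun x => IsUnit x) =
      ((range (l ^ k)).image fun t => (g : ZMod (l ^ (k + h))) ^ t) ∪
        ((range (l ^ k)).image fun t => -(g : ZMod (l ^ (k + h))) ^ t) ∧
    Disjoint ((range (l ^ k)).image fun t => (g : ZMod (l ^ (k + h))) ^ t)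
      ((range (l ^ k)).image fun t => -(g : ZMod (l ^ (k + h))) ^ t) ∧
    Set.InjOn (fun t => (g : ZMod (l ^ (k + h))) ^ t) (range (l ^ k)) := by
  have hinj : Set.InjOn (fun t => (g : ZMod (l ^ (k + h))) ^ t) (range (l ^ k)) := by
    intro a ha b hb hab
    have ha' := Finset.mem_range.mp (Finset.mem_coe.mp ha)
    have hb' := Finset.mem_range.mp (Finset.mem_coe.mp hb)
    rw [← order l g h hG k] at ha' hb'
    exact pow_injOn_Iio_orderOf ha' hb' hab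
  have hinj2 : Set.InjOn (fun t => -(g : ZMod (l ^ (k + h))) ^ t) (range (l ^ k)) := by
    intro a ha b hb hab
    exact hinj ha hb (neg_injective hab)
  have hdis : Disjoint ((range (l ^ k)).image fun t => (g : ZMod (l ^ (k + h))) ^ t)
      ((range (l ^ k)).image fun t => -(g : ZMod (l ^ (k + h))) ^ t) := by
    rw [Finset.disjoint_left]
    intro x hx hy
    obtain ⟨t, _, ht⟩ := Finset.mem_image.mp hx
    obtain ⟨s, _, hs⟩ := Finset.mem_image.mp hy
    exact neg_ne l g h hG k t s (ht.trans hs.symm)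
  refine ⟨?_, hdis, hinj⟩
  symm
  have hg : IsUnit (g : ZMod (l ^ (k + h))) := by
    have h1 := one l g h hG k
    exact IsUnit.of_pow_eq_one h1 (pow_ne_zero _ (prime_l hG).ne_zero)
  apply Finset.eq_of_subset_of_card_le
  · intro x hx
    rw [Finset.mem_filter]
    refine ⟨mem_univ _, ?_⟩
    rcases Finset.mem_union.mp hx with h1 | h1
    · obtain ⟨t, _, ht⟩ := Finset.mem_image.mp h1
      rw [← ht]
      exact hg.pow t
    · obtain ⟨t, _, ht⟩ := Finset.mem_image.mp h1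
      rw [← ht]
      exact (hg.pow t).neg
  · rw [Finset.card_union_of_disjoint hdis, Finset.card_image_of_injOn hinj,
      Finset.card_image_of_injOn hinj2, Finset.card_range]
    have h1 : ((univ : Finset (ZMod (l ^ (k + h)))).filter fun x => IsUnit x) ⊆
        (univ : Finset (ZMod (l ^ (k + h)))ˣ).image
          (fun u : (ZMod (l ^ (k + h)))ˣ => (u : ZMod (l ^ (k + h)))) := by
      intro x hx
      obtain ⟨u, hu⟩ := (Finset.mem_filter.mp hx).2
      exact Finset.mem_image.mpr ⟨u, mem_univ _, hu⟩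
    have h2 := (Finset.card_le_card h1).trans Finset.card_image_le
    rw [Finset.card_univ, ZMod.card_units_eq_totient, tot hG k] at h2
    omega

/-- A sum over `range n` as a sum over `ZMod n`. -/
theorem sum_range_zmod (n : ℕ) [NeZero n] (F : ZMod n → ℂ) :
    ∑ c ∈ range n, F (c : ZMod n) = ∑ x : ZMod n, F x := by
  apply Finset.sum_nbij' (fun c : ℕ => (c : ZMod n)) (fun x : ZMod n => x.val)
  · intro c _
    exact mem_univ _
  · intro x _
    exact Finset.mem_range.mpr (ZMod.val_lt x)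
  · intro c hc
    exact ZMod.val_cast_of_lt (Finset.mem_range.mp hc)
  · intro x _
    exact ZMod.natCast_zmod_val x
  · intro c _
    rfl

/-- Third clause. -/
theorem sums (l g h : ℕ) (hG : Gen l g h) (k : ℕ) (F : ZMod (l ^ (k + h)) → ℂ)
    (hF : ∀ c, ¬ IsUnit c → F c = 0) :
    ∑ c ∈ range (l ^ (k + h)), F c = ∑ t ∈ range (l ^ k), (F ((g : ZMod (l ^ (k + h))) ^ t) +
      F (-(g : ZMod (l ^ (k + h))) ^ t)) := by
  have : NeZero (l ^ (k + h)) := ⟨pow_ne_zero _ (prime_l hG).ne_zero⟩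
  obtain ⟨h1, h2, h3⟩ := units l g h hG k
  have h4 : ∑ x : ZMod (l ^ (k + h)), F x =
      ∑ x ∈ (univ : Finset (ZMod (l ^ (k + h)))).filter (fun x => IsUnit x), F x := by
    symm
    apply Finset.sum_subset (Finset.filter_subset _ _)
    intro x _ hx
    apply hF
    intro hu
    exact hx (Finset.mem_filter.mpr ⟨mem_univ _, hu⟩)
  rw [sum_range_zmod, h4, h1, Finset.sum_union h2, Finset.sum_image h3,
    Finset.sum_image (fun a ha b hb hab => h3 ha hb (neg_injective hab)),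
    ← Finset.sum_add_distrib]

/-- Fourth clause. -/
theorem exists_pow (l g h : ℕ) (hG : Gen l g h) (k : ℕ) (c : ℤ) (hc : IsCoprime c (l : ℤ)) :
    ∃ t : ℕ, (c : ZMod (l ^ (k + h))) = (g : ZMod (l ^ (k + h))) ^ t ∨
      (c : ZMod (l ^ (k + h))) = -(g : ZMod (l ^ (k + h))) ^ t := by
  have : NeZero (l ^ (k + h)) := ⟨pow_ne_zero _ (prime_l hG).ne_zero⟩
  obtain ⟨h1, -, -⟩ := units l g h hG k
  have hu : IsUnit (c : ZMod (l ^ (k + h))) := by
    obtain ⟨a, b, hab⟩ := hc.pow_right (n := k + h)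
    have h2 := congrArg (fun x : ℤ => (x : ZMod (l ^ (k + h)))) hab
    have h3 : ((l : ZMod (l ^ (k + h))) ^ (k + h)) = 0 := by
      have := ZMod.natCast_self (l ^ (k + h))
      push_cast at this
      exact this
    push_cast at h2
    rw [h3, mul_zero, add_zero] at h2
    rw [mul_comm] at h2
    exact IsUnit.of_mul_eq_one _ h2
  have h4 : (c : ZMod (l ^ (k + h))) ∈
      (univ : Finset (ZMod (l ^ (k + h)))).filter (fun x => IsUnit x) :=
    Finset.mem_filter.mpr ⟨mem_univ _, hu⟩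
  rw [h1] at h4
  rcases Finset.mem_union.mp h4 with h5 | h5
  · obtain ⟨t, _, ht⟩ := Finset.mem_image.mp h5
    exact ⟨t, Or.inl ht.symm⟩
  · obtain ⟨t, _, ht⟩ := Finset.mem_image.mp h5
    exact ⟨t, Or.inr ht.symm⟩

/-- The binomial theorem modulo `A ^ 2`. -/
theorem binom (A : ℤ) (i : ℕ) : A ^ 2 ∣ (1 + A) ^ i - (1 + A * i) := by
  induction i with
  | zero => simp
  | succ i ih =>
    obtain ⟨q, hq⟩ := ih
    refine ⟨q * (1 + A) + i, ?_⟩
    have h1 : (1 + A) ^ i = A ^ 2 * q + (1 + A * i) := by linarith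
    rw [pow_succ, h1]
    push_cast
    ring

/-- Fifth clause. -/
theorem lin (l g h m r : ℕ) (w : ℤ) (he : (g : ℤ) ^ (l ^ r) = 1 + (l : ℤ) ^ (r + h) * w)
    (hm : m ≤ r + h) (i : ℕ) :
    ((l ^ (m + r + h) : ℕ) : ℤ) ∣ (g : ℤ) ^ (l ^ r * i) - (1 + (l : ℤ) ^ (r + h) * w * i) := by
  rw [pow_mul, he]
  refine dvd_trans ?_ (binom ((l : ℤ) ^ (r + h) * w) i)
  have h1 : ((l ^ (m + r + h) : ℕ) : ℤ) ∣ (l : ℤ) ^ (2 * (r + h)) := by
    push_cast
    exact pow_dvd_pow _ (by omega)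
  refine dvd_trans h1 ?_
  rw [mul_pow, ← pow_mul, mul_comm (r + h) 2]
  exact dvd_mul_right _ _

end GPWAux

theorem t_GPW : S_GPW := by
  intro l g h hG
  exact ⟨GPWAux.pw l g h hG, GPWAux.one l g h hG, GPWAux.sums l g h hG,
    GPWAux.exists_pow l g h hG, fun m r w he hm i => GPWAux.lin l g h m r w he hm i⟩

end Pool.Agent.TWR


end

section

/-!
# TWR, module MOD: from the twisted sums to the values
-/

set_option autoImplicit false

namespace Pool.Agent.TWR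

open Finset OnePoint

namespace MODAux

variable {R M : Type} [CommRing R] [AddCommGroup M] [Module R M]

lemma chr_mul (hTWP : S_TWP) {q : ℕ} (hq : q ≠ 0) {z : ℤ → R} (hz : Chr q z) {W : ℚ → M}
    (hW : ∀ x, W (x + 1) = W x) {e : ℤ} (he : IsCoprime e (q : ℤ)) :
    Chr q (fun j => z (e * j)) := by
  obtain ⟨h0, hper, -⟩ := hTWP R M q hq z hz W hW
  refine ⟨fun a b => ?_, ?_, fun j hj => ?_⟩
  · show z (e * (a + b)) = z (e * a) * z (e * b)
    rw [mul_add, hz.add]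
  · show z (e * q) = 1
    rw [← h0]
    exact hper _ _ ⟨e, by ring⟩
  · exact hz.un _ fun h => hj (he.symm.dvd_of_dvd_mul_left h)

lemma star (hTWP : S_TWP) {l m : ℕ} (hq : l ^ m ≠ 0) {z : ℤ → R} (hz : Chr (l ^ m) z)
    {W : ℚ → M} (hW : ∀ x, W (x + 1) = W x) {e f : ℤ} (hef : ((l ^ m : ℕ) : ℤ) ∣ e * f - 1)
    {n : ℕ} {u : ℤ} (h : StarAt l m z W n u) :
    StarAt l m (fun j => z (e * j)) W n (f * u) := by
  obtain ⟨-, -, -, -, -, -, hl⟩ := hTWP R M (l ^ m) hq z hz W hW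
  intro c g hg
  rw [hl e g]
  apply h
  have h1 : e * g * c - u = e * (g * c - f * u) + (e * f - 1) * u := by ring
  rw [h1]
  exact dvd_add (hg.mul_left e) (hef.mul_right u)

end MODAux

open _root_.Pool.Agent.TWR.MODAux in
/-- MOD -/
theorem t_MOD : M_MOD := by
  intro hTWP hCLO hSUM R M _ _ _ l m hl hm hlu z hz N0 v hN0 hN0l χ W hQ hdep E d u u' hE hmd hdE
    hu hu' hs' hs hrec a b c d1 hdet hc hd1 hc0
  have hq : l ^ m ≠ 0 := pow_ne_zero _ hl.ne_zero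
  have hW := hQ.per
  obtain ⟨-, -, -, -, -, -, hlast⟩ := hTWP R M (l ^ m) hq z hz W hW
  obtain ⟨hs1, hs2⟩ := hSUM R M l m hl hm z hz W hW hdep
  have hpl : Prime (l : ℤ) := Nat.prime_iff_prime_int.1 hl
  have key : ∀ e : ℤ, Tw (l ^ m) z W e ((a : ℚ) / c) = 0 := by
    intro e
    by_cases he : (l : ℤ) ∣ e
    · exact hs1 e _ he
    · have hel : IsCoprime e (l : ℤ) := ((Prime.coprime_iff_not_dvd hpl).2 he).symm
      have heq : IsCoprime e ((l ^ m : ℕ) : ℤ) := by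
        push_cast
        exact hel.pow_right
      obtain ⟨f, s, hfs⟩ := heq
      have hef : ((l ^ m : ℕ) : ℤ) ∣ e * f - 1 := ⟨-s, by linear_combination hfs⟩
      have hfl : IsCoprime f (l : ℤ) := by
        have h1 : (l : ℤ) ∣ ((l ^ m : ℕ) : ℤ) := by
          push_cast
          exact dvd_pow_self _ (by omega)
        obtain ⟨t, ht⟩ := h1
        exact ⟨e, s * t, by rw [← hfs, ht]; ring⟩
      have heq : IsCoprime e ((l ^ m : ℕ) : ℤ) := by
        push_cast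
        exact hel.pow_right
      have h2 := hCLO R M l m hl hm (fun j => z (e * j)) (chr_mul hTWP hq hz hW heq) N0 v hN0 hN0l
        χ W hQ E d (f * u) (f * u') hE hmd hdE (hfl.mul_left hu) (hfl.mul_left hu')
        (star hTWP hq hz hW hef hs') (star hTWP hq hz hW hef hs)
        (fun q hq1 => by
          obtain ⟨o, ho1, ho2, ho3⟩ := hrec q hq1
          exact ⟨o, ho1, ho2, star hTWP hq hz hW hef ho3⟩) a b c d1 hdet hc hd1 hc0
      rw [hlast e 1, mul_one] at h2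
      exact h2
  have h3 := hs2 ((a : ℚ) / c)
  rw [Finset.sum_eq_zero fun (e : ℕ) _ => key (e : ℤ)] at h3
  have hun : IsUnit ((l ^ m : ℕ) : R) := by
    push_cast
    exact hlu.pow m
  obtain ⟨w, hw⟩ := hun
  rw [← hw] at h3
  have h4 := congrArg (fun y => (↑w⁻¹ : R) • y) h3
  simp only [smul_zero, smul_smul, Units.inv_mul, one_smul] at h4
  exact h4.symm

end Pool.Agent.TWR


end

section

/-!
# TWR, module SUM: the sum over all `e` of the twisted sums, and the layers `l ∣ e`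
(problem MP_b78433_nt)
-/

set_option autoImplicit false

namespace Pool.Agent.TWR

open Finset

namespace SUMAux

variable {R M : Type} [CommRing R] [AddCommGroup M] [Module R M]

/-- `j = j0 + a k` -/
theorem sum_split (a b : ℕ) (f : ℕ → M) :
    ∑ j ∈ range (a * b), f j = ∑ j0 ∈ range a, ∑ k ∈ range b, f (j0 + a * k) := by
  induction b with
  | zero => simp
  | succ b ih =>
    rw [Nat.mul_succ, Finset.sum_range_add, ih]
    simp_rw [Finset.sum_range_succ _ b]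
    rw [Finset.sum_add_distrib]
    congr 1
    refine Finset.sum_congr rfl fun j _ => ?_
    rw [add_comm]

/-- geometric sum -/
theorem geom (q : ℕ) (z : ℤ → R) (hz : Chr q z) (h0 : z 0 = 1) (j : ℤ) (n : ℕ) :
    (1 - z j) * ∑ e ∈ range n, z ((e : ℤ) * j) = 1 - z ((n : ℤ) * j) := by
  induction n with
  | zero => simp [h0]
  | succ n ih =>
    rw [Finset.sum_range_succ, mul_add, ih]
    have h1 : z (((n + 1 : ℕ) : ℤ) * j) = z ((n : ℤ) * j) * z j := by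
      rw [← hz.add]
      congr 1
      push_cast
      ring
    rw [h1]
    ring

end SUMAux

open _root_.Pool.Agent.TWR.SUMAux

theorem t_SUM : M_SUM := by
  intro hTWP R M _ _ _ l m hl hm z hz W hW hW0
  have hq : l ^ m ≠ 0 := pow_ne_zero _ hl.ne_zero
  obtain ⟨h0, hper, -⟩ := hTWP R M (l ^ m) hq z hz W hW
  have hlq : (l : ℚ) ≠ 0 := by exact_mod_cast hl.ne_zero
  have hqm : l ^ m = l ^ (m - 1) * l := by
    rw [← pow_succ]
    congr 1
    omega
  refine ⟨?_, ?_⟩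
  · rintro e x ⟨e', rfl⟩
    unfold Tw
    have h1 : ∀ (f : ℕ → M), ∑ j ∈ range (l ^ m), f j =
        ∑ j0 ∈ range (l ^ (m - 1)), ∑ k ∈ range l, f (j0 + l ^ (m - 1) * k) := by
      intro f
      rw [hqm]
      exact sum_split _ _ f
    rw [h1]
    refine Finset.sum_eq_zero fun j0 _ => ?_
    have h2 : ∀ k : ℕ, z ((l : ℤ) * e' * ((j0 + l ^ (m - 1) * k : ℕ) : ℤ)) •
        W (x + ((j0 + l ^ (m - 1) * k : ℕ) : ℚ) / ((l ^ m : ℕ) : ℚ)) =
        z ((l : ℤ) * e' * (j0 : ℤ)) • W (x + (j0 : ℚ) / ((l ^ m : ℕ) : ℚ) + (k : ℚ) / l) := by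
      intro k
      congr 1
      · apply hper
        refine ⟨e' * k, ?_⟩
        rw [hqm]
        push_cast
        ring
      · congr 1
        rw [hqm]
        push_cast
        field_simp
        ring
    simp_rw [h2]
    rw [← Finset.smul_sum, hW0, smul_zero]
  · intro x
    unfold Tw
    rw [Finset.sum_comm]
    simp_rw [← Finset.sum_smul]
    rw [Finset.sum_eq_single_of_mem 0 (Finset.mem_range.2 (Nat.pos_of_ne_zero hq))]
    · simp [h0]
    · intro j hj hj0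
      have hjq : j < l ^ m := Finset.mem_range.1 hj
      have hnd : ¬ ((l ^ m : ℕ) : ℤ) ∣ (j : ℤ) := by
        intro hd
        have := Nat.le_of_dvd (Nat.pos_of_ne_zero hj0) (Int.natCast_dvd_natCast.1 hd)
        omega
      have hg := geom (l ^ m) z hz h0 (j : ℤ) (l ^ m)
      have h3 : z (((l ^ m : ℕ) : ℤ) * (j : ℤ)) = 1 := by
        rw [← h0]
        apply hper
        exact ⟨j, by ring⟩
      rw [h3, sub_self] at hg
      have h4 : ∑ e ∈ range (l ^ m), z ((e : ℤ) * (j : ℤ)) = 0 :=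
        (hz.un j hnd).mul_right_eq_zero.1 hg
      rw [h4, zero_smul]

end Pool.Agent.TWR


end

section

/-!
# TWR, second file: the rigidity theorem for symbols with algebraic values (problem MP_b78433_nt)

`S_TW2` is `S_TWR` (see `Pool/Agent/TWR/St.lean`) with the hypothesis `P i ∞ x ∈ K`, `K` a number
field, replaced by: `P i ∞ x` is algebraic for all `x`, and the `nu i d` are algebraic.
-/

set_option autoImplicit false

namespace Pool.Agent.TWR

open Finset OnePoint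

/-- NFV (150 lines), the values lie in a number field (Manin). Proof. `mob` is
`Pool.Agent.MuSym.mob`. For `γ = (a b; c d)`, `a d - b c = 1`, let `m γ = P (γ ∞) (γ 0)`. It is
algebraic: `P (γ ∞) (γ 0) = P ∞ (γ 0) - P ∞ (γ ∞)`, `P ∞ ∞ = 0`. If `γ' = (a' b'; c' d')` and
`c' ≡ c`, `d' ≡ d` modulo `N`, then `γ' = g γ` with `g = γ' γ⁻¹` of lower row
`(c' d - d' c, a d' - b c')`, `N ∣ c' d - d' c`, so `m γ' = nu (a d' - b c') * m γ` (`IsSym.equiv` at
`x = γ ∞`, `y = γ 0`; `mob` is multiplicative: check on `γ ∞`, `γ 0` directly, also if one of them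
is `∞`). Choose one `γ` for each pair of residues `(c, d)` modulo `N` that occurs (finitely many;
`N ≠ 0`). Let `K` be generated over `ℚ` by the (finitely many) `nu j`, `0 ≤ j < N`, and the `m γ` of
these `γ`: a finite extension, because they are algebraic, and `m γ ∈ K` for all `γ`. Now
`P ∞ (r/s) ∈ K`, `r`, `s` coprime, `s ≥ 1`, by strong induction on `s`: choose integers `r'`, `s'` with
`r' s - r s' = 1` and `0 ≤ s' < s`, `γ = (r' r; s' s)`: `γ 0 = r/s`, and `γ ∞ = r'/s'` (`∞` if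
`s' = 0`), so `P ∞ (r/s) = P ∞ (γ ∞) + m γ`, and `P ∞ (γ ∞)` is `0` or in `K` by induction (the
denominator of `r'/s'` is `s' < s`, as `r'`, `s'` are coprime). -/
def S_NFV : Prop := ∀ (N : ℕ) (_ : N ≠ 0) (nu : ℤ → ℂ)
  (_ : ∀ d d' : ℤ, (N : ℤ) ∣ d - d' → nu d = nu d') (_ : ∀ d, IsAlgebraic ℚ (nu d))
  (P : OnePoint ℚ → OnePoint ℚ → ℂ) (_ : _root_.MU3.IsSym N nu P)
  (_ : ∀ x : ℚ, IsAlgebraic ℚ (P ∞ (x : OnePoint ℚ))),
  ∃ K : IntermediateField ℚ ℂ, FiniteDimensional ℚ K ∧ ∀ x : ℚ, P ∞ (x : OnePoint ℚ) ∈ K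

/-- TW2: `TWR` with `K` = the compositum of the fields of `NFV`. -/
def S_TW2 : Prop := ∀ (l g h : ℕ) (_ : Gen l g h) (V : ValuationSubring ℂ) (p : ℕ) (_ : p.Prime)
  (_ : 5 ≤ p) (_ : V.valuation (p : ℂ) < 1) (I : Type) [Finite I] (N : ℕ) (_ : N ≠ 0)
  (nu : I → ℤ → ℂ)
  (_ : ∀ i d, V.valuation (nu i d) ≤ 1) (_ : ∀ i, nu i 1 = 1)
  (_ : ∀ i (d d' : ℤ), (N : ℤ) ∣ d - d' → nu i d = nu i d') (_ : ∀ i d, IsAlgebraic ℚ (nu i d))
  (P : I → OnePoint ℚ → OnePoint ℚ → ℂ) (_ : ∀ i, _root_.MU3.IsSym N (nu i) (P i))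
  (_ : ∀ i (x : ℚ), IsAlgebraic ℚ (P i ∞ (x : OnePoint ℚ)))
  (_ : ∀ i (x : ℚ), P i ∞ ((-x : ℚ) : OnePoint ℚ) = P i ∞ (x : OnePoint ℚ))
  (_ : ∀ i (x : ℚ), ∑ k ∈ range l, P i ∞ ((x + (k : ℚ) / l : ℚ) : OnePoint ℚ) = 0)
  (_ : ∀ i (N' : ℕ), N' ≠ 0 → N ∣ N' → ∃ a b c d : ℤ, a * d - b * c = 1 ∧ (N' : ℤ) ∣ c ∧
    (N' : ℤ) ∣ d - 1 ∧ 1 ≤ V.valuation (P i ∞ (Pool.Agent.MuSym.mob a b c d ∞)))
  (a : ℕ) (_ : 1 ≤ a) (n0 : ℕ), ∃ n ≥ n0, ∀ j < a, ∀ i,
    ∀ ψ : DirichletCharacter ℂ (l ^ (n + j)), ψ (-1) = 1 →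
      ψ (1 + (l : ZMod (l ^ (n + j))) ^ (n + j - 1)) ≠ 1 →
      1 ≤ V.valuation (∑ b ∈ range (l ^ (n + j)),
        ψ b * P i ∞ (((b : ℚ) / (l : ℚ) ^ (n + j) : ℚ) : OnePoint ℚ))

theorem t_TW2 (h1 : S_NFV) (h2 : S_TWR) : S_TW2 := by
  intro l g h hG V p hp hp5 hvp I _ N hN nu hnu1 hnu2 hnu3 hnu4 P hsym hPa hPe hPd hND a ha n0
  choose K hK1 hK2 using fun i => h1 N hN (nu i) (hnu3 i) (hnu4 i) (P i) (hsym i) (hPa i)
  have hfd : FiniteDimensional ℚ (⨆ i, K i : IntermediateField ℚ ℂ) := by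
    have := hK1
    exact IntermediateField.finiteDimensional_iSup_of_finite
  exact h2 l g h hG V p hp hp5 hvp (⨆ i, K i) hfd I N hN nu hnu1 hnu2 hnu3 P hsym
    (fun i x => (le_iSup K i) (hK2 i x)) hPe hPd hND a ha n0

end Pool.Agent.TWR


end

section

/-!
# TWR, module TRS: the trace relation for a primitive root of unity of order `l^(m+r)`
-/

set_option autoImplicit false

namespace Pool.Agent.TWR.TRSAux

open Finset

/-- the sum of a periodic function over a period does not depend on the start -/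
lemma shift {n : ℕ} (F : ℕ → ℂ) (hF : ∀ t, F (t + n) = F t) (s : ℕ) :
    ∑ t ∈ range n, F (t + s) = ∑ t ∈ range n, F t := by
  induction s with
  | zero => simp
  | succ s ih =>
    rw [← ih]
    have h1 : ∑ t ∈ range (n + 1), F (t + s) = ∑ t ∈ range n, F (t + s) + F (n + s) :=
      Finset.sum_range_succ _ _
    have h2 : ∑ t ∈ range (n + 1), F (t + s) = ∑ t ∈ range n, F (t + 1 + s) + F (0 + s) :=
      Finset.sum_range_succ' _ _
    have h3 : F (n + s) = F (0 + s) := by rw [add_comm n s, hF, Nat.zero_add]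
    have h4 : ∑ t ∈ range n, F (t + 1 + s) = ∑ t ∈ range n, F (t + s) := by
      rw [h2, h3] at h1
      exact add_right_cancel h1
    rw [← h4]
    refine Finset.sum_congr rfl fun t _ => ?_
    congr 1
    omega

/-- the sum over the multiples of `a` below `a * b` -/
lemma mult (a : ℕ) (ha : 0 < a) (G : ℕ → ℂ) (b : ℕ) :
    ∑ t ∈ range (a * b), (if a ∣ t then G t else 0) = ∑ i ∈ range b, G (a * i) := by
  induction b with
  | zero => simp
  | succ b ih =>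
    rw [Nat.mul_succ, Finset.sum_range_add, ih, Finset.sum_range_succ]
    congr 1
    rw [Finset.sum_eq_single_of_mem 0 (Finset.mem_range.2 ha)]
    · simp
    · intro k hk hk0
      rw [if_neg]
      intro h
      have h1 : a ∣ k := (Nat.dvd_add_right (Dvd.intro b rfl)).1 h
      exact absurd (Nat.le_of_dvd (Nat.pos_of_ne_zero hk0) h1) (not_le.2 (Finset.mem_range.1 hk))

lemma val_root (V : ValuationSubring ℂ) (ξ : ℂ) (n : ℕ) (hn : n ≠ 0) (h : ξ ^ n = 1) :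
    V.valuation ξ = 1 := by
  have h1 : (V.valuation ξ) ^ n = 1 := by rw [← map_pow, h, map_one]
  exact (pow_eq_one_iff_of_nonneg zero_le hn).1 h1

end Pool.Agent.TWR.TRSAux

namespace Pool.Agent.TWR

open Finset TRSAux

theorem t_TRS : M_TRS := by
  intro hTRI V l m r q hl hm h2 hq1 hq2 hq vl K hF ξ hξ x hxK hper hsmall t0
  set n : ℕ := l ^ (m + r) with hn
  have hn0 : n ≠ 0 := pow_ne_zero _ hl.ne_zero
  have hξn : ξ ^ n = 1 := hξ.pow_eq_one
  -- step 1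
  have s1 : ∀ j : ℕ, V.valuation (∑ t ∈ range n, x t * ξ ^ (q ^ j * t)) < 1 := by
    intro j
    induction j with
    | zero => simpa using hsmall
    | succ j ih =>
      have h1 : (ξ ^ (q ^ j)) ^ n = 1 := by rw [← pow_mul, mul_comm, pow_mul, hξn, one_pow]
      have h3 := hF (ξ ^ (q ^ j)) h1 x hxK (by
        have : ∑ i ∈ range n, x i * (ξ ^ (q ^ j)) ^ i = ∑ t ∈ range n, x t * ξ ^ (q ^ j * t) :=
          Finset.sum_congr rfl fun t _ => by rw [← pow_mul]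
        rw [this]
        exact ih)
      have : ∑ i ∈ range n, x i * (ξ ^ (q ^ j)) ^ (q * i) =
          ∑ t ∈ range n, x t * ξ ^ (q ^ (j + 1) * t) :=
        Finset.sum_congr rfl fun t _ => by rw [← pow_mul, pow_succ, mul_assoc]
      rw [← this]
      exact h3
  -- step 2
  have vξ : V.valuation ξ = 1 := val_root V ξ n hn0 hξn
  obtain ⟨c, hc⟩ : ∃ c : ℕ, t0 + c = n * t0 :=
    ⟨n * t0 - t0, Nat.add_sub_cancel' (Nat.le_mul_of_pos_left t0 (Nat.pos_of_ne_zero hn0))⟩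
  have s2 : ∀ j : ℕ, V.valuation (∑ t ∈ range n, x t * (ξ ^ (t + c)) ^ (q ^ j)) < 1 := by
    intro j
    have h1 : ∑ t ∈ range n, x t * (ξ ^ (t + c)) ^ (q ^ j) =
        ξ ^ (q ^ j * c) * ∑ t ∈ range n, x t * ξ ^ (q ^ j * t) := by
      rw [Finset.mul_sum]
      refine Finset.sum_congr rfl fun t _ => ?_
      rw [← pow_mul]
      have : (t + c) * q ^ j = q ^ j * c + q ^ j * t := by ring
      rw [this, pow_add]
      ring
    rw [h1, map_mul, map_pow, vξ, one_pow, one_mul]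
    exact s1 j
  have s3 : V.valuation (∑ j ∈ range (l ^ r), ∑ t ∈ range n, x t * (ξ ^ (t + c)) ^ (q ^ j)) < 1 :=
    Valuation.map_sum_lt _ one_ne_zero fun j _ => s2 j
  have s4 : ∑ j ∈ range (l ^ r), ∑ t ∈ range n, x t * (ξ ^ (t + c)) ^ (q ^ j) =
      (l : ℂ) ^ r * ∑ t ∈ range n, (if l ^ r ∣ t + c then x t * ξ ^ (t + c) else 0) := by
    rw [Finset.sum_comm, Finset.mul_sum]
    refine Finset.sum_congr rfl fun t _ => ?_
    have h1 : (ξ ^ (t + c)) ^ (l ^ (m + r)) = 1 := by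
      rw [← hn, ← pow_mul, mul_comm, pow_mul, hξn, one_pow]
    rw [← Finset.mul_sum, hTRI l m r q hl hm h2 hq1 hq2 hq _ h1]
    have h3 : (ξ ^ (t + c)) ^ (l ^ m) = 1 ↔ l ^ r ∣ t + c := by
      rw [← pow_mul, hξ.pow_eq_one_iff_dvd, hn, pow_add, mul_comm (l ^ m) (l ^ r)]
      exact Nat.mul_dvd_mul_iff_right (pow_pos hl.pos m)
    by_cases h4 : l ^ r ∣ t + c
    · rw [if_pos (h3.2 h4), if_pos h4]
      ring
    · rw [if_neg (fun h => h4 (h3.1 h)), if_neg h4]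
      simp
  have s5 : V.valuation (∑ t ∈ range n, (if l ^ r ∣ t + c then x t * ξ ^ (t + c) else 0)) < 1 := by
    rw [s4, map_mul, map_pow, vl, one_pow, one_mul] at s3
    exact s3
  -- step 3
  have hrn : l ^ r ∣ n := by rw [hn, pow_add]; exact Dvd.intro_left _ rfl
  have s6 := shift (n := n) (fun t => if l ^ r ∣ t + c then x t * ξ ^ (t + c) else 0) (by
    intro t
    have h1 : l ^ r ∣ t + n + c ↔ l ^ r ∣ t + c := by
      have : t + n + c = n + (t + c) := by ring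
      rw [this]
      exact Nat.dvd_add_right hrn
    have h3 : ξ ^ (t + n + c) = ξ ^ (t + c) := by
      have : t + n + c = n + (t + c) := by ring
      rw [this, pow_add, hξn, one_mul]
    simp only [h1, h3, hper]) t0
  have s7 : ∑ t ∈ range n, (if l ^ r ∣ t + t0 + c then x (t + t0) * ξ ^ (t + t0 + c) else 0) =
      ∑ i ∈ range (l ^ m), ξ ^ (l ^ r * i) * x (t0 + l ^ r * i) := by
    have h1 : ∀ t ∈ range n, (if l ^ r ∣ t + t0 + c then x (t + t0) * ξ ^ (t + t0 + c) else 0) =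
        if l ^ r ∣ t then (ξ ^ t * x (t0 + t)) else 0 := by
      intro t _
      have h3 : t + t0 + c = n * t0 + t := by rw [add_assoc, hc, add_comm]
      have h4 : l ^ r ∣ n * t0 + t ↔ l ^ r ∣ t := Nat.dvd_add_right (Dvd.dvd.mul_right hrn t0)
      have h6 : ξ ^ (n * t0 + t) = ξ ^ t := by rw [pow_add, pow_mul, hξn, one_pow, one_mul]
      rw [h3, h6, add_comm t t0]
      simp only [h4, mul_comm (ξ ^ t)]
    rw [Finset.sum_congr rfl h1]
    have h5 : n = l ^ r * l ^ m := by rw [hn, pow_add, mul_comm]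
    rw [h5]
    exact mult (l ^ r) (pow_pos hl.pos r) (fun t => ξ ^ t * x (t0 + t)) (l ^ m)
  rw [← s7]
  have s8 : ∑ t ∈ range n, (if l ^ r ∣ t + t0 + c then x (t + t0) * ξ ^ (t + t0 + c) else 0) =
      ∑ t ∈ range n, (if l ^ r ∣ t + c then x t * ξ ^ (t + c) else 0) := s6
  rw [s8]
  exact s5

end Pool.Agent.TWR


end

section

/-!
# TWR, module NFV: the values of a modular symbol with algebraic values lie in a number field
(problem MP_b78433_nt)
-/

set_option autoImplicit false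

namespace Pool.Agent.TWR

open Finset OnePoint

namespace NFVAux

open Pool.Agent.MuSym

/-- the cusp with homogeneous coordinates `(a : c)` -/
noncomputable def pt (a c : ℤ) : OnePoint ℚ :=
  if c = 0 then ∞ else (((a : ℚ) / c : ℚ) : OnePoint ℚ)

theorem pt_zero (a : ℤ) : pt a 0 = ∞ := if_pos rfl

theorem pt_ne (a c : ℤ) (h : c ≠ 0) : pt a c = (((a : ℚ) / c : ℚ) : OnePoint ℚ) := if_neg h

theorem mob_pt (A B C D a c : ℤ) (h : a ≠ 0 ∨ c ≠ 0) :
    mob A B C D (pt a c) = pt (A * a + B * c) (C * a + D * c) := by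
  by_cases hc : c = 0
  · subst hc
    have ha : a ≠ 0 := by simpa using h
    rw [pt_zero]
    by_cases hC : C = 0
    · subst hC
      rw [show (0 : ℤ) * a + D * 0 = 0 by ring, pt_zero]
      simp [mob]
    · have h1 : C * a + D * 0 ≠ 0 := by
        rw [mul_zero, add_zero]
        exact mul_ne_zero hC ha
      rw [pt_ne _ _ h1]
      have ha' : (a : ℚ) ≠ 0 := by exact_mod_cast ha
      have hC' : (C : ℚ) ≠ 0 := by exact_mod_cast hC
      have h2 : mob A B C D ∞ = (((A : ℚ) / C : ℚ) : OnePoint ℚ) := by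
        simp [mob, hC]
      rw [h2]
      congr 1
      push_cast
      field_simp
      ring
  · rw [pt_ne _ _ hc]
    have hc' : (c : ℚ) ≠ 0 := by exact_mod_cast hc
    have h3 : mob A B C D ((((a : ℚ) / c : ℚ)) : OnePoint ℚ) =
        if (C : ℚ) * ((a : ℚ) / c) + D = 0 then ∞
        else ((((A : ℚ) * ((a : ℚ) / c) + B) / ((C : ℚ) * ((a : ℚ) / c) + D) : ℚ) : OnePoint ℚ) := rfl
    rw [h3]
    have h4 : (C : ℚ) * ((a : ℚ) / c) + D = ((C * a + D * c : ℤ) : ℚ) / c := by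
      push_cast
      field_simp
    have h5 : (A : ℚ) * ((a : ℚ) / c) + B = ((A * a + B * c : ℤ) : ℚ) / c := by
      push_cast
      field_simp
    by_cases h0 : C * a + D * c = 0
    · rw [h0, pt_zero, if_pos]
      rw [h4, h0]
      simp
    · rw [pt_ne _ _ h0, if_neg]
      · rw [h4, h5]
        congr 1
        exact div_div_div_cancel_right₀ hc' _ _
      · rw [h4]
        have : ((C * a + D * c : ℤ) : ℚ) ≠ 0 := by exact_mod_cast h0
        exact div_ne_zero this hc'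

theorem pp (P : OnePoint ℚ → OnePoint ℚ → ℂ) (h : ∀ x y z, P x y + P y z = P x z) : P ∞ ∞ = 0 := by
  have := h ∞ ∞ ∞
  simpa using this

/-- equivariance of `m γ = P (γ ∞) (γ 0)` -/
theorem equi (N : ℕ) (nu : ℤ → ℂ) (P : OnePoint ℚ → OnePoint ℚ → ℂ) (hP : _root_.MU3.IsSym N nu P)
    (a b c d a' b' c' d' : ℤ) (h : a * d - b * c = 1) (h' : a' * d' - b' * c' = 1)
    (hc : (N : ℤ) ∣ c' - c) (hd : (N : ℤ) ∣ d' - d) :
    P (pt a' c') (pt b' d') = nu (a * d' - b * c') * P (pt a c) (pt b d) := by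
  have h1 := hP.equiv (a' * d - b' * c) (a * b' - a' * b) (c' * d - d' * c) (a * d' - b * c')
    (by linear_combination (a * d - b * c) * h' + h) (by
      have h2 : c' * d - d' * c = (c' - c) * d - (d' - d) * c := by ring
      rw [h2]
      exact (hc.mul_right _).sub (hd.mul_right _)) (pt a c) (pt b d)
  have e1 : mob (a' * d - b' * c) (a * b' - a' * b) (c' * d - d' * c) (a * d' - b * c') (pt a c) =
      pt a' c' := by
    rw [mob_pt _ _ _ _ _ _ (by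
      by_contra hh
      push Not at hh
      rw [hh.1, hh.2] at h
      simp at h)]
    congr 1
    · linear_combination a' * h
    · linear_combination c' * h
  have e2 : mob (a' * d - b' * c) (a * b' - a' * b) (c' * d - d' * c) (a * d' - b * c') (pt b d) =
      pt b' d' := by
    rw [mob_pt _ _ _ _ _ _ (by
      by_contra hh
      push Not at hh
      rw [hh.1, hh.2] at h
      simp at h)]
    congr 1
    · linear_combination b' * h
    · linear_combination d' * h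
  rw [e1, e2] at h1
  exact h1

end NFVAux

open _root_.Pool.Agent.TWR.NFVAux

theorem t_NFV : S_NFV := by
  intro N hN nu hnu hnua P hP hPa
  have hNpos : (0 : ℤ) < N := by exact_mod_cast Nat.pos_of_ne_zero hN
  have hii : P ∞ ∞ = 0 := pp P hP.add
  -- all values are algebraic
  have halg0 : ∀ x : OnePoint ℚ, IsAlgebraic ℚ (P ∞ x) := by
    intro x
    induction x using OnePoint.rec with
    | infty => rw [hii]; exact isAlgebraic_zero
    | coe x => exact hPa x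
  have halg : ∀ x y : OnePoint ℚ, IsAlgebraic ℚ (P x y) := by
    intro x y
    have h1 : P x y = P ∞ y - P ∞ x := by
      rw [← hP.add ∞ x y]
      ring
    rw [h1]
    exact (halg0 y).sub (halg0 x)
  -- the chosen values
  have hf : ∀ cd : ℤ × ℤ, ∃ v : ℂ, IsAlgebraic ℚ v ∧ ∀ a b c d : ℤ, a * d - b * c = 1 →
      (N : ℤ) ∣ c - cd.1 → (N : ℤ) ∣ d - cd.2 → ∃ e : ℤ, P (pt a c) (pt b d) = nu e * v := by
    intro cd
    by_cases h : ∃ a b c d : ℤ, a * d - b * c = 1 ∧ (N : ℤ) ∣ c - cd.1 ∧ (N : ℤ) ∣ d - cd.2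
    · obtain ⟨a, b, c, d, h1, h2, h3⟩ := h
      refine ⟨P (pt a c) (pt b d), halg _ _, fun a' b' c' d' h1' h2' h3' => ?_⟩
      refine ⟨a * d' - b * c', equi N nu P hP a b c d a' b' c' d' h1 h1' ?_ ?_⟩
      · have := h2'.sub h2
        have e : c' - c = c' - cd.1 - (c - cd.1) := by ring
        rw [e]
        exact this
      · have := h3'.sub h3
        have e : d' - d = d' - cd.2 - (d - cd.2) := by ring
        rw [e]
        exact this
    · exact ⟨0, isAlgebraic_zero, fun a b c d h1 h2 h3 => absurd ⟨a, b, c, d, h1, h2, h3⟩ h⟩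
  choose f hfa hf using hf
  -- the field
  set S : Set ℂ := nu '' (Set.Ico 0 (N : ℤ)) ∪ f '' (Set.Ico 0 (N : ℤ) ×ˢ Set.Ico 0 (N : ℤ)) with hS
  have hSfin : S.Finite :=
    ((Set.finite_Ico 0 (N : ℤ)).image _).union
      (((Set.finite_Ico 0 (N : ℤ)).prod (Set.finite_Ico 0 (N : ℤ))).image _)
  have hSalg : ∀ x ∈ S, IsIntegral ℚ x := by
    rintro x (⟨j, -, rfl⟩ | ⟨j, -, rfl⟩)
    · exact (hnua j).isIntegral
    · exact (hfa j).isIntegral
  have hfd : FiniteDimensional ℚ (IntermediateField.adjoin ℚ S) := by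
    have : Finite S := hSfin
    exact IntermediateField.finiteDimensional_adjoin hSalg
  set K : IntermediateField ℚ ℂ := IntermediateField.adjoin ℚ S with hK
  have hSK : ∀ x ∈ S, x ∈ K := fun x hx => IntermediateField.subset_adjoin ℚ S hx
  have hmod : ∀ d : ℤ, d % N ∈ Set.Ico 0 (N : ℤ) := fun d =>
    ⟨Int.emod_nonneg _ hNpos.ne', Int.emod_lt_of_pos _ hNpos⟩
  have hdvd : ∀ d : ℤ, (N : ℤ) ∣ d - d % N := fun d => Int.dvd_self_sub_emod
  have hnuK : ∀ d : ℤ, nu d ∈ K := by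
    intro d
    rw [hnu d (d % N) (hdvd d)]
    exact hSK _ (Or.inl ⟨_, hmod d, rfl⟩)
  have hmK : ∀ a b c d : ℤ, a * d - b * c = 1 → P (pt a c) (pt b d) ∈ K := by
    intro a b c d h
    obtain ⟨e, he⟩ := hf (c % N, d % N) a b c d h (hdvd c) (hdvd d)
    rw [he]
    exact mul_mem (hnuK e) (hSK _ (Or.inr ⟨(c % N, d % N), ⟨hmod c, hmod d⟩, rfl⟩))
  -- induction on the denominator
  have hind : ∀ n : ℕ, ∀ r s : ℤ, 0 ≤ s → s.toNat = n → IsCoprime r s → P ∞ (pt r s) ∈ K := by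
    intro n
    induction n using Nat.strong_induction_on with
    | _ n ih =>
      intro r s hs hsn hrs
      rcases hs.eq_or_lt with h0 | h0
      · rw [← h0, pt_zero, hii]
        exact zero_mem _
      · obtain ⟨u, v, huv⟩ := hrs
        set s' : ℤ := (-u) % s with hs'
        set r' : ℤ := v - r * ((-u) / s) with hr'
        have hdm : s' = -u - s * ((-u) / s) := by
          have := Int.emod_add_mul_ediv (-u) s
          rw [hs']
          linarith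
        have hdet : r' * s - r * s' = 1 := by
          rw [hdm, hr']
          linear_combination huv
        have h1 : 0 ≤ s' := Int.emod_nonneg _ h0.ne'
        have h2 : s' < s := Int.emod_lt_of_pos _ h0
        have h3 : P ∞ (pt r' s') ∈ K := by
          refine ih s'.toNat ?_ r' s' h1 rfl ⟨s, -r, by linear_combination hdet⟩
          omega
        rw [← hP.add ∞ (pt r' s') (pt r s)]
        exact add_mem h3 (hmK r' r s' s hdet)
  refine ⟨K, hfd, fun x => ?_⟩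
  have hx : (x : OnePoint ℚ) = pt x.num x.den := by
    rw [pt_ne _ _ (by exact_mod_cast x.den_nz)]
    congr 1
    exact_mod_cast (Rat.num_div_den x).symm
  rw [hx]
  refine hind _ _ _ (by positivity) rfl ?_
  rw [Int.isCoprime_iff_gcd_eq_one]
  exact x.reduced

end Pool.Agent.TWR


end

section

/-! # TWR: assembly (helper34). -/

namespace Pool.Agent.TWR

theorem a_TWR : S_TWR :=
  have hE : S_EQV := t_EQV t_TWPb
  have hK : S_KEY := t_KEY t_TWPb (t_EDG hE) t_CRT t_CST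
  have hC : S_CLO := t_CLO t_TWPb hE hK
  have hM : S_MOD := t_MOD t_TWPb hC (t_SUM t_TWPb)
  t_TWR t_REC hM t_FRB (t_STA t_GPW (t_TRS t_TRI)) t_ZCH

theorem a_TW2 : S_TW2 := t_TW2 t_NFV a_TWR

end Pool.Agent.TWR


end

section

/-!
# TWR, third file: the rigidity theorem with bounded gaps (helper34)

`S_TW3`: as `S_TW2`, but the good `n` (all levels `n, …, n + a - 1` good for all symbols of the family and all
even characters of this conductor) occur with bounded gaps. So the set of good levels is thickly syndetic.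

Proof: if the gaps are not bounded, then the bad `n` contain arbitrarily long intervals, and the
recurrence lemma `S_REC` only needs this (`S_RC3`).
-/

set_option autoImplicit false

namespace Pool.Agent.TWR

open Finset OnePoint

/-- RC3: `REC` for intervals of arbitrary length in place of all large `n`. -/
def S_RC3 : Prop := ∀ (I U : Type) [Finite I] [Finite U] (T : ℕ → I → U → Prop) (a m K : ℕ),
  1 ≤ a → (∀ L, ∃ x, ∀ n, x ≤ n → n ≤ x + L → ∃ j < a, ∃ i u, T (n + j) i u) →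
  ∃ (E d : ℕ) (i : I) (u u' : U), K ≤ E ∧ m ≤ d ∧ d + m ≤ E ∧ T E i u' ∧ T (E + d) i u ∧
    ∀ q, 1 ≤ q → ∃ o, 1 ≤ o ∧ q ∣ o ∧ T (E + d + o) i u

namespace RC3Aux

/-- the sequence of pairs -/
def sq (nx : ℕ → ℕ → ℕ) (q : ℕ → ℕ) : ℕ → ℕ × ℕ
  | 0 => (nx 0 1, q (nx 0 1))
  | k + 1 => ((sq nx q k).1 + nx (sq nx q k).1 (sq nx q k).2,
      (sq nx q k).2 * q ((sq nx q k).1 + nx (sq nx q k).1 (sq nx q k).2))

/-- recurrence of a value on a set which meets all progressions -/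
theorem recurD {α : Type} [Finite α] (f : ℕ → α) (D : ℕ → Prop)
    (hD : ∀ n Q, 1 ≤ Q → ∃ o, 1 ≤ o ∧ Q ∣ o ∧ D (n + o)) :
    ∃ n, D n ∧ ∀ q, 1 ≤ q → ∃ o, 1 ≤ o ∧ q ∣ o ∧ D (n + o) ∧ f (n + o) = f n := by
  classical
  by_contra hcon
  push Not at hcon
  have h1 : ∀ n, ∃ q, 1 ≤ q ∧ (D n → ∀ o, 1 ≤ o → q ∣ o → D (n + o) → f (n + o) ≠ f n) := by
    intro n
    by_cases hn : D n
    · obtain ⟨q, hq1, hq2⟩ := hcon n hn
      exact ⟨q, hq1, fun _ => hq2⟩
    · exact ⟨1, le_rfl, fun h => absurd h hn⟩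
  choose q hq1 hq2 using h1
  have h2 : ∀ n Q, ∃ o, 1 ≤ Q → 1 ≤ o ∧ Q ∣ o ∧ D (n + o) := by
    intro n Q
    by_cases hQ : 1 ≤ Q
    · obtain ⟨o, ho⟩ := hD n Q hQ
      exact ⟨o, fun _ => ho⟩
    · exact ⟨0, fun h => absurd h hQ⟩
  choose nx hnx using h2
  have hge : ∀ k, D (sq nx q k).1 ∧ 1 ≤ (sq nx q k).2 ∧ q (sq nx q k).1 ∣ (sq nx q k).2 := by
    intro k
    induction k with
    | zero =>
      have := hnx 0 1 le_rfl
      rw [zero_add] at this
      exact ⟨this.2.2, hq1 _, dvd_refl _⟩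
    | succ k ih =>
      obtain ⟨h3, h4, h5⟩ := ih
      refine ⟨(hnx _ _ h4).2.2, ?_, ?_⟩
      · show 1 ≤ (sq nx q k).2 * q ((sq nx q k).1 + nx (sq nx q k).1 (sq nx q k).2)
        exact Nat.mul_pos h4 (hq1 _)
      · show q ((sq nx q k).1 + nx (sq nx q k).1 (sq nx q k).2) ∣
          (sq nx q k).2 * q ((sq nx q k).1 + nx (sq nx q k).1 (sq nx q k).2)
        exact dvd_mul_left _ _
  have hlt : ∀ i t, ∃ o, 1 ≤ o ∧ (sq nx q i).2 ∣ o ∧
      (sq nx q (i + 1 + t)).1 = (sq nx q i).1 + o ∧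
      (sq nx q i).2 ∣ (sq nx q (i + 1 + t)).2 := by
    intro i t
    induction t with
    | zero =>
      refine ⟨nx (sq nx q i).1 (sq nx q i).2, (hnx _ _ (hge i).2.1).1,
        (hnx _ _ (hge i).2.1).2.1, rfl, ?_⟩
      show (sq nx q i).2 ∣ (sq nx q i).2 * q ((sq nx q i).1 + nx (sq nx q i).1 (sq nx q i).2)
      exact dvd_mul_right _ _
    | succ t ih =>
      obtain ⟨o, h3, h4, h5, h6⟩ := ih
      have h7 := hnx (sq nx q (i + 1 + t)).1 (sq nx q (i + 1 + t)).2 (hge _).2.1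
      refine ⟨o + nx (sq nx q (i + 1 + t)).1 (sq nx q (i + 1 + t)).2, by omega,
        dvd_add h4 (h6.trans h7.2.1), ?_, ?_⟩
      · show (sq nx q (i + 1 + t)).1 + nx (sq nx q (i + 1 + t)).1 (sq nx q (i + 1 + t)).2 = _
        rw [h5]; ring
      · show (sq nx q i).2 ∣ (sq nx q (i + 1 + t)).2 *
          q ((sq nx q (i + 1 + t)).1 + nx (sq nx q (i + 1 + t)).1 (sq nx q (i + 1 + t)).2)
        exact dvd_mul_of_dvd_left h6 _
  have hne : ∀ i j, i < j → f (sq nx q j).1 ≠ f (sq nx q i).1 := by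
    intro i j hij
    obtain ⟨t, rfl⟩ := Nat.exists_eq_add_of_lt hij
    obtain ⟨o, ho1, ho2, ho3, -⟩ := hlt i t
    have he : i + t + 1 = i + 1 + t := by ring
    rw [he, ho3]
    refine hq2 _ (hge i).1 o ho1 (dvd_trans (hge i).2.2 ho2) ?_
    rw [← ho3]
    exact (hge _).1
  have hinj : Function.Injective (fun k => f (sq nx q k).1) := by
    intro i j hij
    rcases lt_trichotomy i j with h | h | h
    · exact absurd hij.symm (hne i j h)
    · exact h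
    · exact absurd hij (hne j i h)
  exact not_injective_infinite_finite _ hinj

end RC3Aux

open _root_.Pool.Agent.TWR.RC3Aux in
theorem t_RC3 : S_RC3 := by
  intro I U _ _ T a m K ha hT
  classical
  have := Fintype.ofFinite I
  have := Fintype.ofFinite U
  obtain ⟨w, hw⟩ : ∃ w, w = m + a := ⟨_, rfl⟩
  obtain ⟨s, hs⟩ : ∃ s, s = Fintype.card I := ⟨_, rfl⟩
  obtain ⟨B, hB⟩ : ∃ B, B = s * w + a + 1 := ⟨_, rfl⟩
  obtain ⟨K', hK'⟩ : ∃ K', K' = K + m + B := ⟨_, rfl⟩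
  -- the thick set
  let D : ℕ → Prop := fun x => K' ≤ x ∧ ∀ n, x ≤ n → n ≤ x + s * w → ∃ j < a, ∃ i u, T (n + j) i u
  have hD : ∀ n Q, 1 ≤ Q → ∃ o, 1 ≤ o ∧ Q ∣ o ∧ D (n + o) := by
    intro n Q hQ
    obtain ⟨x, hx⟩ := hT (n + K' + Q + s * w)
    -- the least multiple of Q beyond
    obtain ⟨y, hy⟩ : ∃ y, y = x + n + K' - n := ⟨_, rfl⟩
    have hy' : y = x + K' := by omega
    have h1 := Nat.div_add_mod y Q
    have h2 := Nat.mod_lt y (show 0 < Q by omega)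
    refine ⟨Q * (y / Q + 1), ?_, dvd_mul_right _ _, ?_, ?_⟩
    · exact Nat.mul_pos (by omega) (Nat.succ_pos _)
    · have : Q * (y / Q + 1) = Q * (y / Q) + Q := by ring
      omega
    · intro n' hn1 hn2
      have h3 : Q * (y / Q + 1) = Q * (y / Q) + Q := by ring
      apply hx n'
      · omega
      · omega
  have hlab : ∀ x : ℕ, D x → ∃ l : I × U × U × Fin B × Fin B,
      T (x + l.2.2.2.1) l.1 l.2.2.1 ∧
      T (x + l.2.2.2.1 + l.2.2.2.2) l.1 l.2.1 ∧ m ≤ (l.2.2.2.2 : ℕ) := by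
    intro x hx
    have h1 : ∀ k : Fin (s + 1), ∃ j < a, ∃ i u, T (x + k * w + j) i u := by
      intro k
      have hk : (k : ℕ) * w ≤ s * w := Nat.mul_le_mul_right _ (by have := k.isLt; omega)
      exact hx.2 (x + k * w) (by omega) (by omega)
    choose j hj i u hiu using h1
    obtain ⟨k1, k2, hne, hi⟩ := Fintype.exists_ne_map_eq_of_card_lt i (by
      rw [Fintype.card_fin]; omega)
    have key : ∀ k1 k2 : Fin (s + 1), k1 < k2 → i k1 = i k2 →
        ∃ l : I × U × U × Fin B × Fin B,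
          T (x + l.2.2.2.1) l.1 l.2.2.1 ∧
          T (x + l.2.2.2.1 + l.2.2.2.2) l.1 l.2.1 ∧ m ≤ (l.2.2.2.2 : ℕ) := by
      intro k1 k2 hlt hi
      have hlt' : (k1 : ℕ) < (k2 : ℕ) := hlt
      obtain ⟨t, ht⟩ := Nat.exists_eq_add_of_lt hlt'
      have hk2 : (k2 : ℕ) * w = k1 * w + t * w + w := by rw [ht]; ring
      have hk2s : (k2 : ℕ) * w ≤ s * w := Nat.mul_le_mul_right _ (by have := k2.isLt; omega)
      have hj1 := hj k1
      have hj2 := hj k2
      have b1 : (k1 : ℕ) * w + j k1 < B := by omega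
      have b2 : t * w + w + j k2 - j k1 < B := by omega
      have hd : m ≤ t * w + w + j k2 - j k1 := by
        have : 0 ≤ t * w := Nat.zero_le _
        omega
      refine ⟨(i k1, u k2, u k1, ⟨_, b1⟩, ⟨_, b2⟩), ?_, ?_, hd⟩
      · have := hiu k1
        show T (x + (k1 * w + j k1)) (i k1) (u k1)
        rw [← add_assoc]; exact this
      · have := hiu k2
        show T (x + (k1 * w + j k1) + (t * w + w + j k2 - j k1)) (i k1) (u k2)
        rw [hi]
        have e1 : x + (k1 * w + j k1) + (t * w + w + j k2 - j k1) =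
            x + k2 * w + j k2 := by omega
        rw [e1]; exact this
    rcases lt_or_gt_of_ne hne with h | h
    · exact key k1 k2 h hi
    · exact key k2 k1 h hi.symm
  let f : ℕ → Option (I × U × U × Fin B × Fin B) := fun x =>
    if h : D x then Option.some (hlab x h).choose else Option.none
  obtain ⟨n, hDn, hn⟩ := recurD f D hD
  have hfn : f n = Option.some (hlab n hDn).choose := dif_pos hDn
  have hspec := (hlab n hDn).choose_spec
  obtain ⟨l, hl⟩ : ∃ l, l = (hlab n hDn).choose := ⟨_, rfl⟩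
  rw [← hl] at hfn hspec
  have hc : ((l.2.2.2.2 : Fin B) : ℕ) < B := l.2.2.2.2.isLt
  have hnK : K' ≤ n := hDn.1
  refine ⟨n + l.2.2.2.1, l.2.2.2.2, l.1, l.2.1, l.2.2.1, by omega,
    hspec.2.2, by omega, hspec.1, hspec.2.1, ?_⟩
  intro q hq
  obtain ⟨o, ho1, ho2, ho3, ho4⟩ := hn q hq
  refine ⟨o, ho1, ho2, ?_⟩
  have h5 : f (n + o) = Option.some (hlab (n + o) ho3).choose := dif_pos ho3
  have h6 := (hlab (n + o) ho3).choose_spec
  rw [ho4, hfn] at h5
  have h7 := Option.some.inj h5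
  rw [← h7] at h6
  have e1 : n + (l.2.2.2.1 : ℕ) + (l.2.2.2.2 : ℕ) + o =
      n + o + (l.2.2.2.1 : ℕ) + (l.2.2.2.2 : ℕ) := by ring
  rw [e1]; exact h6.2.1

/-- TW3: the rigidity theorem with bounded gaps. -/
def S_TW3 : Prop := ∀ (l g h : ℕ) (_ : Gen l g h) (V : ValuationSubring ℂ) (p : ℕ) (_ : p.Prime)
  (_ : 5 ≤ p) (_ : V.valuation (p : ℂ) < 1) (I : Type) [Finite I] (N : ℕ) (_ : N ≠ 0)
  (nu : I → ℤ → ℂ)
  (_ : ∀ i d, V.valuation (nu i d) ≤ 1) (_ : ∀ i, nu i 1 = 1)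
  (_ : ∀ i (d d' : ℤ), (N : ℤ) ∣ d - d' → nu i d = nu i d') (_ : ∀ i d, IsAlgebraic ℚ (nu i d))
  (P : I → OnePoint ℚ → OnePoint ℚ → ℂ) (_ : ∀ i, _root_.MU3.IsSym N (nu i) (P i))
  (_ : ∀ i (x : ℚ), IsAlgebraic ℚ (P i ∞ (x : OnePoint ℚ)))
  (_ : ∀ i (x : ℚ), P i ∞ ((-x : ℚ) : OnePoint ℚ) = P i ∞ (x : OnePoint ℚ))
  (_ : ∀ i (x : ℚ), ∑ k ∈ range l, P i ∞ ((x + (k : ℚ) / l : ℚ) : OnePoint ℚ) = 0)
  (_ : ∀ i (N' : ℕ), N' ≠ 0 → N ∣ N' → ∃ a b c d : ℤ, a * d - b * c = 1 ∧ (N' : ℤ) ∣ c ∧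
    (N' : ℤ) ∣ d - 1 ∧ 1 ≤ V.valuation (P i ∞ (Pool.Agent.MuSym.mob a b c d ∞)))
  (a : ℕ) (_ : 1 ≤ a), ∃ C : ℕ, ∀ n0 : ℕ, ∃ n, n0 ≤ n ∧ n ≤ n0 + C ∧ ∀ j < a, ∀ i,
    ∀ ψ : DirichletCharacter ℂ (l ^ (n + j)), ψ (-1) = 1 →
      ψ (1 + (l : ZMod (l ^ (n + j))) ^ (n + j - 1)) ≠ 1 →
      1 ≤ V.valuation (∑ b ∈ range (l ^ (n + j)),
        ψ b * P i ∞ (((b : ℚ) / (l : ℚ) ^ (n + j) : ℚ) : OnePoint ℚ))

open TWRAux in
theorem m_TW3 (hREC : S_RC3) (hMOD : S_MOD) (hFRB : S_FRB) (hSTA : S_STA) (hZCH : S_ZCH)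
    (hNFV : S_NFV) : S_TW3 := by
  intro l g h hG V p hp hp5 hvp I _ N hN nu hnu1 hnu2 hnu3 hnu4 P hsym
    hPa hPe hPd hND a ha
  choose K' hK1 hK2 using fun i => hNFV N hN (nu i) (hnu3 i) (hnu4 i) (P i) (hsym i) (hPa i)
  obtain ⟨K, hKdef⟩ : ∃ K : IntermediateField ℚ ℂ, K = ⨆ i, K' i := ⟨_, rfl⟩
  have hK : FiniteDimensional ℚ K := by
    rw [hKdef]
    have := hK1
    exact IntermediateField.finiteDimensional_iSup_of_finite
  have hPK : ∀ i (x : ℚ), P i ∞ (x : OnePoint ℚ) ∈ K := by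
    intro i x
    rw [hKdef]
    exact (le_iSup K' i) (hK2 i x)
  classical
  by_contra hcon
  push Not at hcon
  have hl : l.Prime := by rcases hG with ⟨rfl, _, _⟩ | ⟨rfl, _, _⟩ <;> norm_num
  have hl24 : l ∣ 24 := by rcases hG with ⟨rfl, _, _⟩ | ⟨rfl, _, _⟩ <;> norm_num
  have hlp : l < p := by rcases hG with ⟨rfl, _, _⟩ | ⟨rfl, _, _⟩ <;> omega
  have hcop : ∀ n : ℕ, 0 < n → n < p → V.valuation (n : ℂ) = 1 := by
    intro n h0 h1
    refine val_cop V p hvp n ?_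
    rw [Nat.isCoprime_iff_coprime]
    exact Nat.Coprime.symm ((Nat.Prime.coprime_iff_not_dvd hp).2 (fun hd => by
      have := Nat.le_of_dvd h0 hd
      omega))
  have hvl : V.valuation (l : ℂ) = 1 := hcop l hl.pos hlp
  have hv2 : V.valuation (2 : ℂ) = 1 := by
    have := hcop 2 (by norm_num) (by omega)
    simpa using this
  obtain ⟨q, hq1, hq24, hfr⟩ := hFRB V p hp hp5 hvp K hK
  have hq0 : q - 1 ≠ 0 := by omega
  have hlu : IsUnit (l : V) := by
    have h1 : V.valuation ((l : V) : ℂ) = 1 := by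
      have h2 : ((l : V) : ℂ) = (l : ℂ) := by push_cast; rfl
      rw [h2, hvl]
    exact (V.valuation_eq_one_iff _).2 h1
  -- the exponent
  obtain ⟨m, hm1, hm2⟩ : ∃ m, l ^ m ∣ q - 1 ∧ ¬ l ^ (m + 1) ∣ q - 1 := by
    have : Fact l.Prime := ⟨hl⟩
    exact ⟨padicValNat l (q - 1), pow_padicValNat_dvd, pow_succ_padicValNat_not_dvd hq0⟩
  have hmpos : 1 ≤ m := by
    by_contra hc
    have : m = 0 := by omega
    subst this
    exact hm2 (by simpa using hl24.trans hq24)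
  have hm22 : l = 2 → 2 ≤ m := by
    intro h2
    subst h2
    by_contra hc
    have : m = 1 := by omega
    subst this
    exact hm2 (Dvd.dvd.trans (by norm_num) hq24)
  obtain ⟨z, hz, hzexp⟩ := hZCH V l m hl hvl
  -- symbols
  have hsymE : ∀ (i : I) (a b c d : ℤ), a * d - b * c = 1 → (N : ℤ) ∣ c → c ≠ 0 → ∀ x : ℚ,
      (c : ℚ) * x + d ≠ 0 → P i ∞ (((a * x + b) / (c * x + d) : ℚ) : OnePoint ℚ) =
        P i ∞ (((a : ℚ) / c : ℚ) : OnePoint ℚ) + nu i d * P i ∞ (x : OnePoint ℚ) := by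
    intro i a b c d hdet hc hc0 x hx
    have h1 := (hsym i).equiv a b c d hdet hc ∞ (x : OnePoint ℚ)
    have h2 : Pool.Agent.MuSym.mob a b c d ∞ = (((a : ℚ) / c : ℚ) : OnePoint ℚ) := by
      simp [Pool.Agent.MuSym.mob, hc0]
    have h3 : Pool.Agent.MuSym.mob a b c d (x : OnePoint ℚ) =
        (((a * x + b) / (c * x + d) : ℚ) : OnePoint ℚ) := by
      simp [Pool.Agent.MuSym.mob, hx]
    rw [h2, h3] at h1
    rw [← h1, (hsym i).add]
  have hper : ∀ (i : I) (x : ℚ), P i ∞ ((x + 1 : ℚ) : OnePoint ℚ) = P i ∞ (x : OnePoint ℚ) := by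
    intro i x
    have h1 := (hsym i).equiv 1 1 0 1 (by norm_num) (by simp) ∞ (x : OnePoint ℚ)
    have h2 : Pool.Agent.MuSym.mob 1 1 0 1 ∞ = ∞ := by
      simp [Pool.Agent.MuSym.mob]
    have h3 : Pool.Agent.MuSym.mob 1 1 0 1 (x : OnePoint ℚ) = ((x + 1 : ℚ) : OnePoint ℚ) := by
      simp [Pool.Agent.MuSym.mob]
    rw [h2, h3, hnu2, one_mul] at h1
    exact h1
  have hinf : ∀ i : I, P i ∞ ∞ = 0 := by
    intro i
    have h1 := (hsym i).add ∞ ∞ ∞
    simpa using h1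
  let W : I → ℚ → (ℂ ⧸ small V) := fun i x => (small V).mkQ (P i ∞ (x : OnePoint ℚ))
  have hsmul : ∀ (r : V) (x : ℂ), r • (small V).mkQ x = (small V).mkQ ((r : ℂ) * x) := by
    intro r x
    rw [← _root_.map_smul]
    rfl
  let chi : I → ℤ → V := fun i d => ⟨nu i d, (V.valuation_le_one_iff _).1 (hnu1 i d)⟩
  obtain ⟨v, N0, hN0, hNeq⟩ : ∃ v N0 : ℕ, ¬ l ∣ N0 ∧ N = l ^ v * N0 :=
    Nat.exists_eq_pow_mul_and_not_dvd hN l hl.ne_one
  have hN00 : N0 ≠ 0 := by rintro rfl; exact hN0 (dvd_zero _)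
  have hN0c : IsCoprime (N0 : ℤ) (l : ℤ) := by
    rw [Nat.isCoprime_iff_coprime]
    exact ((Nat.Prime.coprime_iff_not_dvd hl).2 hN0).symm
  have hQM : ∀ i : I, QM (l ^ v * N0) (chi i) (W i) := by
    intro i
    refine ⟨?_, ?_, ?_, ?_⟩
    · intro x
      change (small V).mkQ _ = (small V).mkQ _
      rw [hper]
    · apply Subtype.ext
      exact hnu2 i
    · intro d d' hd
      apply Subtype.ext
      exact hnu3 i d d' (by rw [hNeq]; exact hd)
    · intro a b c d hdet hc hc0 x hx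
      change (small V).mkQ _ = (small V).mkQ _ + chi i d • (small V).mkQ _
      rw [hsmul, ← map_add, hsymE i a b c d hdet (by rw [hNeq]; exact hc) hc0 x hx]
  have hdep : ∀ (i : I) (x : ℚ), ∑ k ∈ range l, W i (x + (k : ℚ) / l) = 0 := by
    intro i x
    change ∑ k ∈ range l, (small V).mkQ _ = 0
    rw [← map_sum, hPd, map_zero]
  -- the relations
  have hStar : ∀ L, ∃ x, ∀ n, x ≤ n → n ≤ x + L → ∃ j < a, ∃ (i : I) (u : Fin (l ^ m)),
      (IsCoprime ((u : ℕ) : ℤ) (l : ℤ) ∧ StarAt l m z (W i) (n + j) ((u : ℕ) : ℤ)) := by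
    intro L
    obtain ⟨n0, hn0⟩ := hcon (2 * m + h + 1 + L)
    refine ⟨n0 + 2 * m + h + 1, fun n hn hn' => ?_⟩
    obtain ⟨j, hj, i, ψ, hψ1, hψ2, hψ3⟩ := hn0 n (by omega) (by omega)
    refine ⟨j, hj, i, ?_⟩
    obtain ⟨r, hr⟩ : ∃ r, n + j = m + r + h := ⟨n + j - m - h, by omega⟩
    have hr1 : 1 ≤ r := by omega
    have hrm : m ≤ r + h := by omega
    revert ψ
    rw [hr]
    intro ψ hψ1 hψ2 hψ3
    obtain ⟨u, hu1, hu2, hu3, hu4⟩ := hSTA V l g h m r q hG hmpos hm22 hr1 hrm hm1 hm2 (by omega)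
      hvl hv2 K (by
        intro ξ hξ x hx
        have hnp : ¬ p ∣ l ^ (m + r) := by
          intro hd
          have := (Nat.prime_dvd_prime_iff_eq hp hl).1 (hp.dvd_of_dvd_pow hd)
          omega
        exact hfr (l ^ (m + r)) (pow_ne_zero _ hl.ne_zero) hnp ξ hξ x hx)
      (fun x => P i ∞ (x : OnePoint ℚ)) (hper i) (hPe i) (hPK i) ψ hψ1 hψ2 hψ3
    obtain ⟨w, rfl⟩ := Int.eq_ofNat_of_zero_le hu2
    have hw : w < l ^ m := by exact_mod_cast hu3
    refine ⟨⟨w, hw⟩, hu1, ?_⟩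
    intro c e hce
    have h1 := hu4 c e hce
    change ∑ j ∈ range (l ^ m), z (e * j) • (small V).mkQ _ = 0
    simp only [hsmul]
    rw [← map_sum, ← LinearMap.mem_ker, Submodule.ker_mkQ, mem_small]
    simp only [hzexp]
    exact h1
  obtain ⟨E, d, i, u, u', hE, hmd, hdm, hTE, hTEd, hrec⟩ := hREC I (Fin (l ^ m))
    (fun n i u => IsCoprime ((u : ℕ) : ℤ) (l : ℤ) ∧ StarAt l m z (W i) n ((u : ℕ) : ℤ))
    a m (v + 2 * m) ha hStar
  have hfin := hMOD V (ℂ ⧸ small V) l m hl hmpos hlu z hz N0 v hN00 hN0c (chi i) (W i) (hQM i)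
    (hdep i) E d ((u : ℕ) : ℤ) ((u' : ℕ) : ℤ) hE hmd hdm hTEd.1 hTE.1 hTE.2 hTEd.2 (by
      intro t ht
      obtain ⟨o, ho1, ho2, ho3⟩ := hrec t ht
      exact ⟨o, ho1, ho2, ho3.2⟩)
  obtain ⟨a1, b1, c1, d1, hdet, hc1, hd1, hval⟩ := hND i (l ^ (E + m) * (l ^ v * N0))
    (by
      have := pow_ne_zero (E + m) hl.ne_zero
      have := pow_ne_zero v hl.ne_zero
      positivity) (by rw [hNeq]; exact Dvd.intro_left _ rfl)
  rcases eq_or_ne c1 0 with h0 | h0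
  · have h2 : Pool.Agent.MuSym.mob a1 b1 c1 d1 ∞ = ∞ := by
      simp [Pool.Agent.MuSym.mob, h0]
    rw [h2, hinf, map_zero] at hval
    simp at hval
  · have h2 : Pool.Agent.MuSym.mob a1 b1 c1 d1 ∞ = (((a1 : ℚ) / c1 : ℚ) : OnePoint ℚ) := by
      simp [Pool.Agent.MuSym.mob, h0]
    rw [h2] at hval
    have h3 := hfin a1 b1 c1 d1 hdet hc1 hd1 h0
    change (small V).mkQ _ = 0 at h3
    rw [← LinearMap.mem_ker, Submodule.ker_mkQ, mem_small] at h3
    exact absurd h3 (not_lt.2 hval)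


theorem a_TW3 : S_TW3 :=
  have hE : S_EQV := t_EQV t_TWPb
  have hK : S_KEY := t_KEY t_TWPb (t_EDG hE) t_CRT t_CST
  have hC : S_CLO := t_CLO t_TWPb hE hK
  have hM : S_MOD := t_MOD t_TWPb hC (t_SUM t_TWPb)
  m_TW3 t_RC3 hM t_FRB (t_STA t_GPW (t_TRS t_TRI)) t_ZCH t_NFV

end Pool.Agent.TWR


end

section

/-!
# TWR, fourth file, part one: a level is fully bad (helper11, helper22, helper34)

`Full l m z W E`: `Tw (l^m) z W e (c/l^E) = 0` for all `c`, `e` prime to `l`. The main step of `KEY` with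
`β = 0`, `δ = 1`, in which the relations at the level `E` are not used, and in which only ONE return
time `o` is used, divisible by a fixed number `t` which depends on `N0`, `l`, `m` only.
-/

set_option autoImplicit false

namespace Pool.Agent.TWR.Q4

open Finset OnePoint

/-- K4: the main step of `KEY` for `β = 0`, `δ = 1`, `s = 0`. -/
def S_K4 : Prop := ∀ (R M : Type) [CommRing R] [AddCommGroup M] [Module R M] (l m : ℕ)
  (_ : l.Prime) (_ : 1 ≤ m) (z : ℤ → R) (_ : Chr (l ^ m) z) (N0 v : ℕ) (_ : N0 ≠ 0)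
  (_ : IsCoprime (N0 : ℤ) (l : ℤ)) (χ : ℤ → R) (W : ℚ → M) (_ : QM (l ^ v * N0) χ W)
  (u u' : ℤ) (_ : IsCoprime u (l : ℤ)) (m1 : ℤ) (_ : (N0 : ℤ) ∣ m1)
  (_ : ((l ^ m : ℕ) : ℤ) ∣ m1 * u' ^ 2 - u) (_ : IsCoprime m1 (l : ℤ)) (E d o : ℕ)
  (_ : v + 2 * m ≤ E) (_ : m ≤ d) (_ : d + m ≤ E) (_ : 1 ≤ o) (_ : m1 ∣ (l : ℤ) ^ o - 1)
  (_ : StarAt l m z W (E + d) u) (_ : StarAt l m z W (E + d + o) u),
  Tw (l ^ m) z W 1 ((u' : ℚ) / (l : ℚ) ^ E) = 0

theorem t_K4 (hTWP : S_TWP) (hEDG : S_EDG) (hCST : S_CST) : S_K4 := by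
  intro R M _ _ _ l m hl hm z hz N0 v hN0 hN0l χ W hW u u' hu m1 hN0m1 hm1u hm1l E d o hvE hmd hdE
    ho1 hdo hs hso
  have hq0 : l ^ m ≠ 0 := pow_ne_zero _ hl.ne_zero
  obtain ⟨hz0, hzper, -, hTadd, hTsh, -, -⟩ := hTWP R M (l ^ m) hq0 z hz W hW.per
  have hlZ : (l : ℤ) ≠ 0 := by exact_mod_cast hl.ne_zero
  have hlQ : (l : ℚ) ≠ 0 := by exact_mod_cast hl.ne_zero
  have hm10 : m1 ≠ 0 := by
    rintro rfl
    have h1 : IsUnit (l : ℤ) := isCoprime_zero_left.mp hm1l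
    rw [Int.isUnit_iff] at h1
    have := hl.two_le
    omega
  push_cast at hm1u
  obtain ⟨k1, hk1⟩ := hm1u
  let B : ℤ → ℤ := fun s => u' + s * (l : ℤ) ^ m
  let A : ℤ → ℤ := fun s => m1 * u' + (l : ℤ) ^ d + m1 * s * (l : ℤ) ^ m
  let H : ℤ → M := fun s => Tw (l ^ m) z W 1 ((B s : ℚ) / (((l : ℤ) ^ E : ℤ) : ℚ))
  have hC0 : (l : ℤ) ^ E * m1 ≠ 0 := mul_ne_zero (pow_ne_zero _ hlZ) hm10
  have hD0 : (l : ℤ) ^ E ≠ 0 := pow_ne_zero _ hlZ
  have hEm : (l : ℤ) ^ E = (l : ℤ) ^ m * (l : ℤ) ^ (E - m) := by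
    rw [← pow_add]
    congr 1
    omega
  have hEmQ : (l : ℚ) ^ E = (l : ℚ) ^ m * (l : ℚ) ^ (E - m) := by exact_mod_cast hEm
  have hdm : (l : ℤ) ^ d = (l : ℤ) ^ m * (l : ℤ) ^ (d - m) := by
    rw [← pow_add]
    congr 1
    omega
  have hAB : ∀ s : ℤ, (l : ℤ) ^ m ∣ A s * B s - u := by
    intro s
    refine ⟨k1 + m1 * u' * s + (l : ℤ) ^ (d - m) * B s + m1 * s * B s, ?_⟩
    show (m1 * u' + (l : ℤ) ^ d + m1 * s * (l : ℤ) ^ m) * (u' + s * (l : ℤ) ^ m) - u =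
      (l : ℤ) ^ m * (k1 + m1 * u' * s + (l : ℤ) ^ (d - m) * (u' + s * (l : ℤ) ^ m) +
        m1 * s * (u' + s * (l : ℤ) ^ m))
    rw [hdm]
    linear_combination hk1
  have hAl : ∀ s : ℤ, IsCoprime (A s) (l : ℤ) := by
    intro s
    obtain ⟨k, hk⟩ := hAB s
    have h1 : IsCoprime (A s * B s) (l : ℤ) := by
      apply KEYM.coprime_of_sub hu (k := (l : ℤ) ^ (m - 1) * k)
      rw [hk, ← mul_assoc, ← pow_succ']
      congr 2
      omega
    exact h1.of_mul_left_left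
  have hdet : ∀ s : ℤ, A s * (l : ℤ) ^ E - B s * ((l : ℤ) ^ E * m1) = (l : ℤ) ^ (E + d) := by
    intro s
    show (m1 * u' + (l : ℤ) ^ d + m1 * s * (l : ℤ) ^ m) * (l : ℤ) ^ E -
      (u' + s * (l : ℤ) ^ m) * ((l : ℤ) ^ E * m1) = _
    rw [pow_add]
    ring
  have hNC : ((l ^ v * N0 * l ^ m * l ^ m : ℕ) : ℤ) ∣ (l : ℤ) ^ E * m1 := by
    obtain ⟨k, hk⟩ := hN0m1
    refine ⟨(l : ℤ) ^ (E - (v + 2 * m)) * k, ?_⟩
    have h1 : (l : ℤ) ^ E = (l : ℤ) ^ v * (l : ℤ) ^ m * (l : ℤ) ^ m *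
        (l : ℤ) ^ (E - (v + 2 * m)) := by
      rw [← pow_add, ← pow_add, ← pow_add]
      congr 1
      omega
    rw [h1, hk]
    push_cast
    ring
  have hcopAC : ∀ (s B' : ℤ) (n : ℕ),
      A s * (l : ℤ) ^ E - B' * ((l : ℤ) ^ E * m1) = (l : ℤ) ^ n →
      IsCoprime (A s) ((l : ℤ) ^ E * m1) := by
    intro s B' n h
    obtain ⟨x, y, hxy⟩ := (hAl s).pow_right (n := n)
    refine ⟨x + y * (l : ℤ) ^ E, -(y * B'), ?_⟩
    linear_combination hxy + y * h
  obtain ⟨T1, hT1⟩ := hdo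
  have hT0l : IsCoprime (-T1) (l : ℤ) := by
    refine ⟨m1, (l : ℤ) ^ (o - 1), ?_⟩
    have h1 : (l : ℤ) ^ (o - 1) * (l : ℤ) = (l : ℤ) ^ o := by
      rw [← pow_succ]
      congr 1
      omega
    linear_combination h1 + hT1
  have hedge : ∀ s, H s = Tw (l ^ m) z W 1 ((A s : ℚ) / (((l : ℤ) ^ E * m1 : ℤ) : ℚ)) := by
    intro s
    refine hEDG R M l m hl z hz (l ^ v * N0) χ W hW (E + d) u hs 1 (A s) (B s)
      ((l : ℤ) ^ E * m1) ((l : ℤ) ^ E) (by omega) hNC hC0 hD0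
      (hcopAC s (B s) (E + d) (hdet s)) (hdet s) ?_
    rw [one_mul]
    push_cast
    exact hAB s
  have hBs : ∀ s : ℤ, B (s + (l : ℤ) ^ (d - m) * (-T1)) = B s - (l : ℤ) ^ d * T1 := by
    intro s
    show u' + (s + (l : ℤ) ^ (d - m) * (-T1)) * (l : ℤ) ^ m =
      u' + s * (l : ℤ) ^ m - (l : ℤ) ^ d * T1
    rw [hdm]
    ring
  have hdet2 : ∀ s : ℤ, A s * (l : ℤ) ^ E -
      B (s + (l : ℤ) ^ (d - m) * (-T1)) * ((l : ℤ) ^ E * m1) = (l : ℤ) ^ (E + d + o) := by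
    intro s
    rw [hBs]
    have h2 := hdet s
    rw [pow_add _ (E + d) o]
    rw [pow_add] at h2 ⊢
    linear_combination h2 + (l : ℤ) ^ E * (l : ℤ) ^ d * (-1) * hT1
  have hedge2 : ∀ s, H (s + (l : ℤ) ^ (d - m) * (-T1)) =
      Tw (l ^ m) z W 1 ((A s : ℚ) / (((l : ℤ) ^ E * m1 : ℤ) : ℚ)) := by
    intro s
    refine hEDG R M l m hl z hz (l ^ v * N0) χ W hW (E + d + o) u hso 1 (A s)
      (B (s + (l : ℤ) ^ (d - m) * (-T1)))
      ((l : ℤ) ^ E * m1) ((l : ℤ) ^ E) (by omega) hNC hC0 hD0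
      (hcopAC s _ (E + d + o) (hdet2 s)) (hdet2 s) ?_
    rw [one_mul]
    push_cast
    rw [hBs]
    have h2 : A s * (B s - (l : ℤ) ^ d * T1) - u =
        (A s * B s - u) - (l : ℤ) ^ m * (A s * ((l : ℤ) ^ (d - m) * T1)) := by
      rw [hdm]
      ring
    rw [h2]
    exact dvd_sub (hAB s) (dvd_mul_right _ _)
  have hDQ : (((l : ℤ) ^ E : ℤ) : ℚ) ≠ 0 := by exact_mod_cast hD0
  have hper : ∀ s, H (s + (l : ℤ) ^ (E - m)) = H s := by
    intro s
    have h1 : B (s + (l : ℤ) ^ (E - m)) = B s + (l : ℤ) ^ E := by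
      show u' + (s + (l : ℤ) ^ (E - m)) * (l : ℤ) ^ m = u' + s * (l : ℤ) ^ m + (l : ℤ) ^ E
      rw [hEm]
      ring
    show Tw (l ^ m) z W 1 ((B (s + (l : ℤ) ^ (E - m)) : ℚ) / (((l : ℤ) ^ E : ℤ) : ℚ)) = _
    rw [h1, Int.cast_add, add_div, div_self hDQ]
    have h2 := hTadd 1 1 ((B s : ℚ) / (((l : ℤ) ^ E : ℤ) : ℚ))
    rw [Int.cast_one] at h2
    exact h2
  have hshift : ∀ s, H (s + (l : ℤ) ^ (E - 2 * m)) = z (-1) • H s := by
    intro s
    have h0 : (l : ℤ) ^ (E - m) = (l : ℤ) ^ (E - 2 * m) * (l : ℤ) ^ m := by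
      rw [← pow_add]
      congr 1
      omega
    have h1 : B (s + (l : ℤ) ^ (E - 2 * m)) = B s + (l : ℤ) ^ (E - m) := by
      show u' + (s + (l : ℤ) ^ (E - 2 * m)) * (l : ℤ) ^ m = u' + s * (l : ℤ) ^ m + (l : ℤ) ^ (E - m)
      rw [h0]
      ring
    show Tw (l ^ m) z W 1 ((B (s + (l : ℤ) ^ (E - 2 * m)) : ℚ) / (((l : ℤ) ^ E : ℤ) : ℚ)) = _
    have h2 : ((B (s + (l : ℤ) ^ (E - 2 * m)) : ℤ) : ℚ) / (((l : ℤ) ^ E : ℤ) : ℚ) =
        (B s : ℚ) / (((l : ℤ) ^ E : ℤ) : ℚ) + 1 / ((l ^ m : ℕ) : ℚ) := by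
      rw [h1, Int.cast_add, add_div]
      congr 1
      push_cast
      rw [hEmQ]
      have h3 : (l : ℚ) ^ (E - m) ≠ 0 := pow_ne_zero _ hlQ
      have h4 : (l : ℚ) ^ m ≠ 0 := pow_ne_zero _ hlQ
      field_simp
    rw [h2]
    exact hTsh 1 _
  have hunit : IsUnit (1 - z (-1)) := by
    apply hz.un
    intro hcon
    have h1 := Int.eq_one_of_dvd_one (by positivity) ((Int.dvd_neg).mp hcon)
    have h2 : l ^ m = 1 := by exact_mod_cast h1
    have h3 := Nat.one_lt_pow (by omega : m ≠ 0) hl.one_lt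
    omega
  have hfin := hCST R M l (E - m) (d - m) (E - 2 * m) (-T1) (z (-1)) H hT0l (by omega) hunit hper
    (fun s => by rw [hedge2 s, hedge s]) hshift 0
  rw [← hfin]
  show _ = Tw (l ^ m) z W 1 (((u' + 0 * (l : ℤ) ^ m : ℤ) : ℚ) / (((l : ℤ) ^ E : ℤ) : ℚ))
  congr 1
  push_cast
  ring

section

variable {R M : Type} [CommRing R] [AddCommGroup M] [Module R M]

/-- the level `E` is fully bad: the relations for all labels -/
def Full (l m : ℕ) (z : ℤ → R) (W : ℚ → M) (E : ℕ) : Prop :=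
  ∀ c e : ℤ, IsCoprime c (l : ℤ) → IsCoprime e (l : ℤ) →
    Tw (l ^ m) z W e ((c : ℚ) / (l : ℚ) ^ E) = 0

theorem Full.star {l m : ℕ} (hm : 1 ≤ m) {z : ℤ → R} {W : ℚ → M} {E : ℕ}
    (h : Full l m z W E) (u : ℤ) (hu : IsCoprime u (l : ℤ)) : StarAt l m z W E u := by
  intro c e hce
  obtain ⟨k, hk⟩ := hce
  push_cast at hk
  have h1 : IsCoprime (e * c) (l : ℤ) := by
    apply KEYM.coprime_of_sub hu (k := (l : ℤ) ^ (m - 1) * k)
    rw [hk, ← mul_assoc, ← pow_succ']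
    congr 2
    omega
  exact h c e h1.of_mul_left_right h1.of_mul_left_left

end

/-- TST: one return time for all labels. -/
def S_TST : Prop := ∀ (l m N0 : ℕ), l.Prime → 1 ≤ m → N0 ≠ 0 → IsCoprime (N0 : ℤ) (l : ℤ) →
  ∃ t : ℕ, 1 ≤ t ∧ ∀ κ : ℤ, IsCoprime κ (l : ℤ) → ∃ m1 : ℤ, (N0 : ℤ) ∣ m1 ∧
    ((l ^ m : ℕ) : ℤ) ∣ m1 - κ ∧ IsCoprime m1 (l : ℤ) ∧ m1 ∣ (l : ℤ) ^ t - 1

theorem t_TST : S_TST := by
  intro l m N0 hl hm hN0 hN0l
  have hl1 : 1 < l ^ m := Nat.one_lt_pow (by omega) hl.one_lt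
  have hql : (l : ℤ) ∣ ((l ^ m : ℕ) : ℤ) := by
    push_cast
    exact dvd_pow_self _ (by omega)
  have hcop : IsCoprime (N0 : ℤ) ((l ^ m : ℕ) : ℤ) := by
    push_cast
    exact hN0l.pow_right
  obtain ⟨x, y, hxy⟩ := hcop
  -- the number for a residue
  have h1 : ∀ k : ℕ, ∃ t : ℕ, 1 ≤ t ∧ (IsCoprime (k : ℤ) (l : ℤ) → (N0 * x * k : ℤ) ∣ (l : ℤ) ^ t - 1) := by
    intro k
    by_cases hk : IsCoprime (k : ℤ) (l : ℤ)
    · have h2 : IsCoprime (N0 * x : ℤ) (l : ℤ) := by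
        obtain ⟨w, hw⟩ := hql
        exact ⟨1, y * w, by linear_combination hxy - y * hw⟩
      have h3 : IsCoprime (N0 * x * k : ℤ) (l : ℤ) := h2.mul_left hk
      have h4 : (N0 * x * k : ℤ) ≠ 0 := by
        intro h0
        rw [h0] at h3
        have h5 : IsUnit (l : ℤ) := isCoprime_zero_left.mp h3
        rw [Int.isUnit_iff] at h5
        have := hl.two_le
        omega
      obtain ⟨t, ht1, ht2⟩ := KEYM.exists_pow h4 h3
      exact ⟨t, ht1, fun _ => ht2⟩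
    · exact ⟨1, le_rfl, fun h => absurd h hk⟩
  choose t ht1 ht2 using h1
  refine ⟨∏ k ∈ range (l ^ m), t k, Nat.succ_le_of_lt (Finset.prod_pos fun k _ => ht1 k), ?_⟩
  intro κ hκ
  obtain ⟨k, hk⟩ := Int.eq_ofNat_of_zero_le (Int.emod_nonneg κ (b := ((l ^ m : ℕ) : ℤ)) (by positivity))
  have hklt : k < l ^ m := by
    have := Int.emod_lt_of_pos κ (b := ((l ^ m : ℕ) : ℤ)) (by positivity)
    rw [hk] at this
    exact_mod_cast this
  have hkκ : ((l ^ m : ℕ) : ℤ) ∣ κ - k := by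
    rw [← hk]
    exact Int.dvd_self_sub_emod
  have hkl : IsCoprime (k : ℤ) (l : ℤ) := by
    obtain ⟨w, hw⟩ := hql
    obtain ⟨w', hw'⟩ := hkκ
    apply KEYM.coprime_of_sub hκ (k := -(w * w'))
    linear_combination -hw' - w' * hw
  have h2 : IsCoprime (N0 * x : ℤ) (l : ℤ) := by
    obtain ⟨w, hw⟩ := hql
    exact ⟨1, y * w, by linear_combination hxy - y * hw⟩
  refine ⟨N0 * x * k, ⟨x * k, by ring⟩, ?_, h2.mul_left hkl, ?_⟩
  · obtain ⟨w', hw'⟩ := hkκ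
    exact ⟨-(y * k) - w', by linear_combination k * hxy - hw'⟩
  · refine (ht2 k hkl).trans ?_
    obtain ⟨w, hw⟩ := Finset.dvd_prod_of_mem t (mem_range.2 hklt)
    rw [hw, pow_mul]
    exact sub_one_dvd_pow_sub_one _ _

/-- FUL4: two relations at the levels `E + d` and `E + d + o` make the level `E` fully bad. -/
def S_FUL4 : Prop := ∀ (l m N0 : ℕ), l.Prime → 1 ≤ m → N0 ≠ 0 → IsCoprime (N0 : ℤ) (l : ℤ) →
  ∃ t : ℕ, 1 ≤ t ∧ ∀ (R M : Type) [CommRing R] [AddCommGroup M] [Module R M] (z : ℤ → R)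
    (_ : Chr (l ^ m) z) (v : ℕ) (χ : ℤ → R) (W : ℚ → M) (_ : QM (l ^ v * N0) χ W)
    (u : ℤ) (_ : IsCoprime u (l : ℤ)) (E d o : ℕ)
    (_ : v + 2 * m ≤ E) (_ : m ≤ d) (_ : d + m ≤ E) (_ : 1 ≤ o) (_ : t ∣ o)
    (_ : StarAt l m z W (E + d) u) (_ : StarAt l m z W (E + d + o) u), Full l m z W E

open MODAux in
theorem t_FUL4 (hTWP : S_TWP) (hK4 : S_K4) (hTST : S_TST) : S_FUL4 := by
  intro l m N0 hl hm hN0 hN0l
  obtain ⟨t, ht1, ht⟩ := hTST l m N0 hl hm hN0 hN0l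
  refine ⟨t, ht1, ?_⟩
  intro R M _ _ _ z hz v χ W hW u hu E d o hvE hmd hdE ho1 hto hs hso c e hc he
  have hq : l ^ m ≠ 0 := pow_ne_zero _ hl.ne_zero
  obtain ⟨-, -, -, -, -, -, hlast⟩ := hTWP R M (l ^ m) hq z hz W hW.per
  have hql : (l : ℤ) ∣ ((l ^ m : ℕ) : ℤ) := by
    push_cast
    exact dvd_pow_self _ (by omega)
  have hinv : ∀ e : ℤ, IsCoprime e (l : ℤ) → ∃ f : ℤ, ((l ^ m : ℕ) : ℤ) ∣ e * f - 1 ∧
      IsCoprime f (l : ℤ) := by
    intro e he
    have heq : IsCoprime e ((l ^ m : ℕ) : ℤ) := by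
      push_cast
      exact he.pow_right
    obtain ⟨f, s, hfs⟩ := heq
    refine ⟨f, ⟨-s, by linear_combination hfs⟩, ?_⟩
    obtain ⟨w, hw⟩ := hql
    exact ⟨e, s * w, by rw [← hfs, hw]; ring⟩
  have heq : IsCoprime e ((l ^ m : ℕ) : ℤ) := by
    push_cast
    exact he.pow_right
  obtain ⟨f, hef, hfl⟩ := hinv e he
  obtain ⟨c', hcc, hcl⟩ := hinv c hc
  obtain ⟨m1, hm1N, hm1κ, hm1l, hm1t⟩ := ht (f * u * c' ^ 2) ((hfl.mul_left hu).mul_left hcl.pow_left)
  have h1 := hK4 R M l m hl hm (fun j => z (e * j)) (chr_mul hTWP hq hz hW.per heq) N0 v hN0 hN0l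
    χ W hW (f * u) c (hfl.mul_left hu) m1 hm1N ?_ hm1l E d o hvE hmd hdE ho1 ?_
    (star hTWP hq hz hW.per hef hs) (star hTWP hq hz hW.per hef hso)
  · rw [hlast e 1, mul_one] at h1
    exact h1
  · obtain ⟨w1, hw1⟩ := hm1κ
    obtain ⟨w2, hw2⟩ := hcc
    exact ⟨w1 * c ^ 2 + f * u * w2 * (c * c' + 1), by
      linear_combination c ^ 2 * hw1 + f * u * (c * c' + 1) * hw2⟩
  · refine hm1t.trans ?_
    obtain ⟨w, hw⟩ := hto
    rw [hw, pow_mul]
    exact sub_one_dvd_pow_sub_one _ _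

/-- DSC: the descent. -/
theorem descent (F : ℕ → Prop) (v m t n : ℕ) (hm : 1 ≤ m) (hn : 5 * m + 2 * t + 2 ≤ n)
    (h0 : ∀ E, v + 2 * m ≤ E → n + m ≤ 2 * E → E + m ≤ n → F E)
    (h1 : ∀ E, v + 2 * m ≤ E → F (E + m) → F (E + m + t) → F E) :
    ∀ E, v + 2 * m ≤ E → E + m ≤ n → F E := by
  have key : ∀ k E, n ≤ E + k → v + 2 * m ≤ E → E + m ≤ n → F E := by
    intro k
    induction k using Nat.strong_induction_on with
    | _ k ih =>
      intro E hk hE hEn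
      by_cases h2 : n + m ≤ 2 * E
      · exact h0 E hE h2 hEn
      · exact h1 E hE (ih (k - m) (by omega) (E + m) (by omega) (by omega) (by omega))
          (ih (k - m) (by omega) (E + m + t) (by omega) (by omega) (by omega))
  intro E hE hEn
  exact key n E (by omega) hE hEn

end Pool.Agent.TWR.Q4


end

section

/-!
# TWR, fourth file: the rigidity theorem for ALL large levels (helper11, helper22, helper34)

`S_TW4`: as `S_TW3`, but ALL levels `n ≥ n0` are good, for all symbols of the family and all even characters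
of conductor `l^n`.

Proof (helper11). If infinitely many levels are bad, then one symbol `i` has the same label `u` at two bad
levels `n`, `n + o`, with `n` as large as we like and `t ∣ o` for the fixed `t` of `S_FUL4`; so all
levels between `(n + m)/2` and `n - m` are fully bad (`S_FUL4`), and then, going down, all levels between
`v + 2m` and `n - m` (`descent`). So all levels `≥ v + 2m` are fully bad, against `S_MOD`.
-/

set_option autoImplicit false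

namespace Pool.Agent.TWR

open Finset OnePoint Q4

/-- TW4: the rigidity theorem for all large levels. -/
def S_TW4 : Prop := ∀ (l g h : ℕ) (_ : Gen l g h) (V : ValuationSubring ℂ) (p : ℕ) (_ : p.Prime)
  (_ : 5 ≤ p) (_ : V.valuation (p : ℂ) < 1) (I : Type) [Finite I] (N : ℕ) (_ : N ≠ 0)
  (nu : I → ℤ → ℂ)
  (_ : ∀ i d, V.valuation (nu i d) ≤ 1) (_ : ∀ i, nu i 1 = 1)
  (_ : ∀ i (d d' : ℤ), (N : ℤ) ∣ d - d' → nu i d = nu i d') (_ : ∀ i d, IsAlgebraic ℚ (nu i d))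
  (P : I → OnePoint ℚ → OnePoint ℚ → ℂ) (_ : ∀ i, _root_.MU3.IsSym N (nu i) (P i))
  (_ : ∀ i (x : ℚ), IsAlgebraic ℚ (P i ∞ (x : OnePoint ℚ)))
  (_ : ∀ i (x : ℚ), P i ∞ ((-x : ℚ) : OnePoint ℚ) = P i ∞ (x : OnePoint ℚ))
  (_ : ∀ i (x : ℚ), ∑ k ∈ range l, P i ∞ ((x + (k : ℚ) / l : ℚ) : OnePoint ℚ) = 0)
  (_ : ∀ i (N' : ℕ), N' ≠ 0 → N ∣ N' → ∃ a b c d : ℤ, a * d - b * c = 1 ∧ (N' : ℤ) ∣ c ∧
    (N' : ℤ) ∣ d - 1 ∧ 1 ≤ V.valuation (P i ∞ (Pool.Agent.MuSym.mob a b c d ∞))),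
  ∃ n0 : ℕ, ∀ n, n0 ≤ n → ∀ i,
    ∀ ψ : DirichletCharacter ℂ (l ^ n), ψ (-1) = 1 →
      ψ (1 + (l : ZMod (l ^ n)) ^ (n - 1)) ≠ 1 →
      1 ≤ V.valuation (∑ b ∈ range (l ^ n),
        ψ b * P i ∞ (((b : ℚ) / (l : ℚ) ^ n : ℚ) : OnePoint ℚ))

open TWRAux in
theorem m_TW4 (hFUL : S_FUL4) (hMOD : S_MOD) (hFRB : S_FRB) (hSTA : S_STA) (hZCH : S_ZCH)
    (hNFV : S_NFV) : S_TW4 := by
  intro l g h hG V p hp hp5 hvp I _ N hN nu hnu1 hnu2 hnu3 hnu4 P hsym
    hPa hPe hPd hND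
  choose K' hK1 hK2 using fun i => hNFV N hN (nu i) (hnu3 i) (hnu4 i) (P i) (hsym i) (hPa i)
  obtain ⟨K, hKdef⟩ : ∃ K : IntermediateField ℚ ℂ, K = ⨆ i, K' i := ⟨_, rfl⟩
  have hK : FiniteDimensional ℚ K := by
    rw [hKdef]
    have := hK1
    exact IntermediateField.finiteDimensional_iSup_of_finite
  have hPK : ∀ i (x : ℚ), P i ∞ (x : OnePoint ℚ) ∈ K := by
    intro i x
    rw [hKdef]
    exact (le_iSup K' i) (hK2 i x)
  classical
  by_contra hcon
  push Not at hcon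
  have hl : l.Prime := by rcases hG with ⟨rfl, _, _⟩ | ⟨rfl, _, _⟩ <;> norm_num
  have hl24 : l ∣ 24 := by rcases hG with ⟨rfl, _, _⟩ | ⟨rfl, _, _⟩ <;> norm_num
  have hlp : l < p := by rcases hG with ⟨rfl, _, _⟩ | ⟨rfl, _, _⟩ <;> omega
  have hcop : ∀ n : ℕ, 0 < n → n < p → V.valuation (n : ℂ) = 1 := by
    intro n h0 h1
    refine val_cop V p hvp n ?_
    rw [Nat.isCoprime_iff_coprime]
    exact Nat.Coprime.symm ((Nat.Prime.coprime_iff_not_dvd hp).2 (fun hd => by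
      have := Nat.le_of_dvd h0 hd
      omega))
  have hvl : V.valuation (l : ℂ) = 1 := hcop l hl.pos hlp
  have hv2 : V.valuation (2 : ℂ) = 1 := by
    have := hcop 2 (by norm_num) (by omega)
    simpa using this
  obtain ⟨q, hq1, hq24, hfr⟩ := hFRB V p hp hp5 hvp K hK
  have hq0 : q - 1 ≠ 0 := by omega
  have hlu : IsUnit (l : V) := by
    have h1 : V.valuation ((l : V) : ℂ) = 1 := by
      have h2 : ((l : V) : ℂ) = (l : ℂ) := by push_cast; rfl
      rw [h2, hvl]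
    exact (V.valuation_eq_one_iff _).2 h1
  -- the exponent
  obtain ⟨m, hm1, hm2⟩ : ∃ m, l ^ m ∣ q - 1 ∧ ¬ l ^ (m + 1) ∣ q - 1 := by
    have : Fact l.Prime := ⟨hl⟩
    exact ⟨padicValNat l (q - 1), pow_padicValNat_dvd, pow_succ_padicValNat_not_dvd hq0⟩
  have hmpos : 1 ≤ m := by
    by_contra hc
    have : m = 0 := by omega
    subst this
    exact hm2 (by simpa using hl24.trans hq24)
  have hm22 : l = 2 → 2 ≤ m := by
    intro h2
    subst h2
    by_contra hc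
    have : m = 1 := by omega
    subst this
    exact hm2 (Dvd.dvd.trans (by norm_num) hq24)
  obtain ⟨z, hz, hzexp⟩ := hZCH V l m hl hvl
  -- symbols
  have hsymE : ∀ (i : I) (a b c d : ℤ), a * d - b * c = 1 → (N : ℤ) ∣ c → c ≠ 0 → ∀ x : ℚ,
      (c : ℚ) * x + d ≠ 0 → P i ∞ (((a * x + b) / (c * x + d) : ℚ) : OnePoint ℚ) =
        P i ∞ (((a : ℚ) / c : ℚ) : OnePoint ℚ) + nu i d * P i ∞ (x : OnePoint ℚ) := by
    intro i a b c d hdet hc hc0 x hx
    have h1 := (hsym i).equiv a b c d hdet hc ∞ (x : OnePoint ℚ)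
    have h2 : Pool.Agent.MuSym.mob a b c d ∞ = (((a : ℚ) / c : ℚ) : OnePoint ℚ) := by
      simp [Pool.Agent.MuSym.mob, hc0]
    have h3 : Pool.Agent.MuSym.mob a b c d (x : OnePoint ℚ) =
        (((a * x + b) / (c * x + d) : ℚ) : OnePoint ℚ) := by
      simp [Pool.Agent.MuSym.mob, hx]
    rw [h2, h3] at h1
    rw [← h1, (hsym i).add]
  have hper : ∀ (i : I) (x : ℚ), P i ∞ ((x + 1 : ℚ) : OnePoint ℚ) = P i ∞ (x : OnePoint ℚ) := by
    intro i x
    have h1 := (hsym i).equiv 1 1 0 1 (by norm_num) (by simp) ∞ (x : OnePoint ℚ)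
    have h2 : Pool.Agent.MuSym.mob 1 1 0 1 ∞ = ∞ := by
      simp [Pool.Agent.MuSym.mob]
    have h3 : Pool.Agent.MuSym.mob 1 1 0 1 (x : OnePoint ℚ) = ((x + 1 : ℚ) : OnePoint ℚ) := by
      simp [Pool.Agent.MuSym.mob]
    rw [h2, h3, hnu2, one_mul] at h1
    exact h1
  have hinf : ∀ i : I, P i ∞ ∞ = 0 := by
    intro i
    have h1 := (hsym i).add ∞ ∞ ∞
    simpa using h1
  let W : I → ℚ → (ℂ ⧸ small V) := fun i x => (small V).mkQ (P i ∞ (x : OnePoint ℚ))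
  have hsmul : ∀ (r : V) (x : ℂ), r • (small V).mkQ x = (small V).mkQ ((r : ℂ) * x) := by
    intro r x
    rw [← _root_.map_smul]
    rfl
  let chi : I → ℤ → V := fun i d => ⟨nu i d, (V.valuation_le_one_iff _).1 (hnu1 i d)⟩
  obtain ⟨v, N0, hN0, hNeq⟩ : ∃ v N0 : ℕ, ¬ l ∣ N0 ∧ N = l ^ v * N0 :=
    Nat.exists_eq_pow_mul_and_not_dvd hN l hl.ne_one
  have hN00 : N0 ≠ 0 := by rintro rfl; exact hN0 (dvd_zero _)
  have hN0c : IsCoprime (N0 : ℤ) (l : ℤ) := by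
    rw [Nat.isCoprime_iff_coprime]
    exact ((Nat.Prime.coprime_iff_not_dvd hl).2 hN0).symm
  have hQM : ∀ i : I, QM (l ^ v * N0) (chi i) (W i) := by
    intro i
    refine ⟨?_, ?_, ?_, ?_⟩
    · intro x
      change (small V).mkQ _ = (small V).mkQ _
      rw [hper]
    · apply Subtype.ext
      exact hnu2 i
    · intro d d' hd
      apply Subtype.ext
      exact hnu3 i d d' (by rw [hNeq]; exact hd)
    · intro a b c d hdet hc hc0 x hx
      change (small V).mkQ _ = (small V).mkQ _ + chi i d • (small V).mkQ _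
      rw [hsmul, ← map_add, hsymE i a b c d hdet (by rw [hNeq]; exact hc) hc0 x hx]
  have hdep : ∀ (i : I) (x : ℚ), ∑ k ∈ range l, W i (x + (k : ℚ) / l) = 0 := by
    intro i x
    change ∑ k ∈ range l, (small V).mkQ _ = 0
    rw [← map_sum, hPd, map_zero]
  obtain ⟨t, ht1, ht⟩ := hFUL l m N0 hl hmpos hN00 hN0c
  -- the relations
  have hStar : ∀ n0, ∃ n, n0 ≤ n ∧ ∃ (i : I) (u : Fin (l ^ m)),
      (IsCoprime ((u : ℕ) : ℤ) (l : ℤ) ∧ StarAt l m z (W i) n ((u : ℕ) : ℤ)) := by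
    intro n0
    obtain ⟨n, hn, i, ψ, hψ1, hψ2, hψ3⟩ := hcon (n0 + 2 * m + h + 1)
    refine ⟨n, by omega, i, ?_⟩
    obtain ⟨r, hr⟩ : ∃ r, n = m + r + h := ⟨n - m - h, by omega⟩
    have hr1 : 1 ≤ r := by omega
    have hrm : m ≤ r + h := by omega
    revert ψ
    rw [hr]
    intro ψ hψ1 hψ2 hψ3
    obtain ⟨u, hu1, hu2, hu3, hu4⟩ := hSTA V l g h m r q hG hmpos hm22 hr1 hrm hm1 hm2 (by omega)
      hvl hv2 K (by
        intro ξ hξ x hx
        have hnp : ¬ p ∣ l ^ (m + r) := by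
          intro hd
          have := (Nat.prime_dvd_prime_iff_eq hp hl).1 (hp.dvd_of_dvd_pow hd)
          omega
        exact hfr (l ^ (m + r)) (pow_ne_zero _ hl.ne_zero) hnp ξ hξ x hx)
      (fun x => P i ∞ (x : OnePoint ℚ)) (hper i) (hPe i) (hPK i) ψ hψ1 hψ2 hψ3
    obtain ⟨w, rfl⟩ := Int.eq_ofNat_of_zero_le hu2
    have hw : w < l ^ m := by exact_mod_cast hu3
    refine ⟨⟨w, hw⟩, hu1, ?_⟩
    intro c e hce
    have h1 := hu4 c e hce
    change ∑ j ∈ range (l ^ m), z (e * j) • (small V).mkQ _ = 0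
    simp only [hsmul]
    rw [← map_sum, ← LinearMap.mem_ker, Submodule.ker_mkQ, mem_small]
    simp only [hzexp]
    exact h1
  -- one symbol, one label and one residue class
  obtain ⟨i, u, hu, hiu⟩ : ∃ (i : I) (u : ℤ), IsCoprime u (l : ℤ) ∧ ∀ n0, ∃ n o, n0 ≤ n ∧ 1 ≤ o ∧
      t ∣ o ∧ StarAt l m z (W i) n u ∧ StarAt l m z (W i) (n + o) u := by
    by_contra hno
    push Not at hno
    have h1 : ∀ x : I × Fin (l ^ m) × Fin t, ∀ᶠ n in Filter.atTop,
        ¬ ((IsCoprime ((x.2.1 : ℕ) : ℤ) (l : ℤ) ∧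
          StarAt l m z (W x.1) n ((x.2.1 : ℕ) : ℤ)) ∧ n % t = x.2.2) := by
      intro x
      by_cases hx : IsCoprime ((x.2.1 : ℕ) : ℤ) (l : ℤ)
      · obtain ⟨n0, hn0⟩ := hno x.1 _ hx
        by_contra hnev
        rw [Filter.not_eventually] at hnev
        obtain ⟨n, hn, hn'⟩ := Filter.frequently_atTop.1 hnev n0
        obtain ⟨n2, hn2, hn2'⟩ := Filter.frequently_atTop.1 hnev (n + 1)
        rw [not_not] at hn' hn2'
        obtain ⟨o, ho⟩ : ∃ o, n2 = n + o := ⟨n2 - n, by omega⟩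
        refine hn0 n o hn (by omega) ?_ hn'.1.2 (by rw [← ho]; exact hn2'.1.2)
        have h3 : n + 0 ≡ n + o [MOD t] := by
          show (n + 0) % t = (n + o) % t
          rw [add_zero, ← ho, hn'.2, hn2'.2]
        exact (Nat.modEq_zero_iff_dvd).1 (Nat.ModEq.add_left_cancel' n h3).symm
      · exact Filter.Eventually.of_forall fun n hn => hx hn.1.1
    have h2 := Filter.eventually_all.2 h1
    obtain ⟨n0, hn0⟩ := Filter.eventually_atTop.1 h2
    obtain ⟨n, hn, i, u, hu⟩ := hStar n0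
    exact hn0 n hn ⟨i, u, ⟨n % t, Nat.mod_lt _ (by omega)⟩⟩ ⟨hu, rfl⟩
  -- all levels are fully bad
  have hfull : ∀ E, v + 2 * m ≤ E → Full l m z (W i) E := by
    intro E hE
    obtain ⟨n, o, hn, ho1, hto, hs, hso⟩ := hiu (E + 5 * m + 2 * t + 2)
    refine descent (Full l m z (W i)) v m t n hmpos (by omega) ?_ ?_ E hE (by omega)
    · intro E' hE' h1 h2
      obtain ⟨d, hd⟩ : ∃ d, n = E' + d := ⟨n - E', by omega⟩
      rw [hd] at hs hso
      exact ht V (ℂ ⧸ small V) z hz v (chi i) (W i) (hQM i) u hu E' d o hE' (by omega) (by omega)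
        ho1 hto hs hso
    · intro E' hE' h1 h2
      exact ht V (ℂ ⧸ small V) z hz v (chi i) (W i) (hQM i) u hu E' m t hE' le_rfl (by omega)
        ht1 dvd_rfl (h1.star hmpos u hu) (h2.star hmpos u hu)
  obtain ⟨E, hE⟩ : ∃ E, E = v + 2 * m := ⟨_, rfl⟩
  have hfin := hMOD V (ℂ ⧸ small V) l m hl hmpos hlu z hz N0 v hN00 hN0c (chi i) (W i) (hQM i)
    (hdep i) E m 1 1 hE.ge le_rfl (by omega) isCoprime_one_left isCoprime_one_left
    ((hfull E hE.ge).star hmpos 1 isCoprime_one_left)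
    ((hfull (E + m) (by omega)).star hmpos 1 isCoprime_one_left) (fun t' ht' =>
      ⟨t', ht', dvd_rfl, (hfull (E + m + t') (by omega)).star hmpos 1 isCoprime_one_left⟩)
  obtain ⟨a1, b1, c1, d1, hdet, hc1, hd1, hval⟩ := hND i (l ^ (E + m) * (l ^ v * N0))
    (by
      have := pow_ne_zero (E + m) hl.ne_zero
      have := pow_ne_zero v hl.ne_zero
      positivity) (by rw [hNeq]; exact Dvd.intro_left _ rfl)
  rcases eq_or_ne c1 0 with h0 | h0
  · have h2 : Pool.Agent.MuSym.mob a1 b1 c1 d1 ∞ = ∞ := by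
      simp [Pool.Agent.MuSym.mob, h0]
    rw [h2, hinf, map_zero] at hval
    simp at hval
  · have h2 : Pool.Agent.MuSym.mob a1 b1 c1 d1 ∞ = (((a1 : ℚ) / c1 : ℚ) : OnePoint ℚ) := by
      simp [Pool.Agent.MuSym.mob, h0]
    rw [h2] at hval
    have h3 := hfin a1 b1 c1 d1 hdet hc1 hd1 h0
    change (small V).mkQ _ = 0 at h3
    rw [← LinearMap.mem_ker, Submodule.ker_mkQ, mem_small] at h3
    exact absurd h3 (not_lt.2 hval)


theorem a_FUL4 : S_FUL4 :=
  have hE : S_EQV := t_EQV t_TWPb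
  t_FUL4 t_TWPb (t_K4 t_TWPb (t_EDG hE) t_CST) t_TST

theorem a_TW4 : S_TW4 :=
  have hE : S_EQV := t_EQV t_TWPb
  have hK : S_KEY := t_KEY t_TWPb (t_EDG hE) t_CRT t_CST
  have hC : S_CLO := t_CLO t_TWPb hE hK
  have hM : S_MOD := t_MOD t_TWPb hC (t_SUM t_TWPb)
  m_TW4 a_FUL4 hM t_FRB (t_STA t_GPW (t_TRS t_TRI)) t_ZCH t_NFV

end Pool.Agent.TWR


end
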