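import Pool.Agent.MVF.C012
import Pool.Agent.MVF.C021
import Pool.Agent.MVF.C023
import Pool.Agent.MVF.C030
import Pool.Agent.MVF.C037
import Pool.Agent.MVF.C066

/-! Parts: TWK.StK1, TWK.FIX1, TWK.IDX1, TWK.NPW1, TWK.NRM1, TWK.PWL1, TWK.StK2, TWK.TRV1, TWK.DEG2, TWK.GALC, TWK.LFT2, TWK.NRM2, TWK.SUBC, TWK.StK3, TWK.StK5, TWK.StK6 -/

section

/-!
# TWK: from a unit of one layer to class numbers (helper96), block K of Theorem C of MP_b78433_nt

`k ≤ L ≤ M` number fields, `M / k` abelian, `g` in `Gal(L / k)` fixes all primes above `S`, `f : J L → F` an eigenfunctional of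
`Gal(L / k)` with character `χ`, `χ g ≠ 1`. If a unit `u` of `L` satisfies the Kolyvagin relations (`KRelX`) and its `χ`-component is not a `p`-th
power in `M` then `f` vanishes on the norms from `M`; if the order of some `χ h` is at least `[M : L]` it is zero. If this holds for all
`χ` with `χ g ≠ 1` the class numbers of `L` and of the fixed field of `g` have the same `p`-part. Here `p` does not divide `[L : k]`
and there is no `p`-tower. Every `def S_X : Prop` is the statement of a module, which proves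
`theorem t_X (h : S_Y) ... : S_X` (namespace `Pool.Agent.TWK`, file `Pool/Agent/TWK/X.lean`); the doc string contains the
proof; `Uses` names the hypotheses (statements `S_...` of `Pool/Agent/MUX/StKX.lean`, namespace `MUXK`, are proved there).
`Above`, `SU`, `SJ`, `vJ`, `P_UNI`: `Pool/Agent/MU3`.
-/

set_option autoImplicit false

open NumberField IsDedekindDomain Finset
open scoped nonZeroDivisors Pointwise

namespace Pool.Agent.TWK

open Pool.Agent.MU3 Pool.Agent.RI Pool.Agent.MUXK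

/-! ## Definitions -/

/-- `∏_δ (δ c) ^ θ(χ(δ)⁻¹)`, `δ` in `Gal(L / k)`, for a unit `c`. -/
noncomputable def sU {k L F : Type} [Field k] [NumberField k] [Field L] [NumberField L]
    [Algebra k L] [Field F] (p : ℕ) (χ : (L ≃ₐ[k] L) →* Fˣ) (θ : F →+ ZMod p) (c : (𝓞 L)ˣ) :
    (𝓞 L)ˣ :=
  ∏ δ : L ≃ₐ[k] L, (δ • c) ^ (θ ((χ δ)⁻¹ : Fˣ)).val

/-- `∏_δ (δ x) ^ θ(χ(δ)⁻¹)`, `δ` in `Gal(L / k)`, for an element `x` of `L`. -/
noncomputable def sE {k L F : Type} [Field k] [NumberField k] [Field L] [NumberField L]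
    [Algebra k L] [Field F] (p : ℕ) (χ : (L ≃ₐ[k] L) →* Fˣ) (θ : F →+ ZMod p) (x : L) : L :=
  ∏ δ : L ≃ₐ[k] L, (δ x) ^ (θ ((χ δ)⁻¹ : Fˣ)).val

/-- `f` is additive, zero on the principal ideals, and an eigenvector of `Gal(L / k)` with character `χ`. -/
structure Eig {k L F : Type} [Field k] [Field L] [NumberField L] [Algebra k L] [Field F]
    (χ : (L ≃ₐ[k] L) →* Fˣ) (f : J L → F) : Prop where
  add : ∀ x y, f (x * y) = f x + f y
  pri : ∀ x ∈ (prin : Lˣ →* J L).range, f x = 0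
  eig : ∀ (δ : L ≃ₐ[k] L) (x : J L), f (δ • x) = (χ δ : F) * f x

/-- `N` is a norm on fractional ideals: the properties used here (see `S_NRJ`). -/
structure IsN (k L M : Type) [Field k] [NumberField k] [Field L] [NumberField L] [Field M]
    [NumberField M] [Algebra k L] [Algebra L M] [Algebra k M] (N : J M →* J L) : Prop where
  pri : ∀ x : Mˣ, N (prin x) = prin (Units.map (Algebra.norm L : M →* L) x)
  pr : ∀ (w : HeightOneSpectrum (𝓞 M)) (v : HeightOneSpectrum (𝓞 L)),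
    w.asIdeal.under (𝓞 L) = v.asIdeal →
    Nat.card (𝓞 M ⧸ w.asIdeal) = Nat.card (𝓞 L ⧸ v.asIdeal) → N (vJ w) = vJ v
  eq : ∀ (σ : M ≃ₐ[k] M) (τ : L ≃ₐ[k] L),
    (∀ x : L, algebraMap L M (τ x) = σ (algebraMap L M x)) → ∀ z : J M, N (σ • z) = τ • N z

/-! ## The statements -/

/-- REL1: the relation of `u` at the good prime `lam`.
Uses S_LGX. PROOF. (See `NILX` of MU3 / `S_NILXX`.) `a`, `lg` from LGX for `lam` (`p ∣ q - 1` by `GoodPrP.dvd`). Put `b h = (lg (h⁻¹ • u)).val`: `(h⁻¹ u)^((q-1)/p) - a^(b h) ∈ lam`, apply `h`: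
`u^((q-1)/p) - a^(b h) ∈ h • lam`. `RelAt`: `∏_h (h • vJ lam)^(b h) = prin κ * I^p * s`, `s ∈ SJ S L`. `f s = 0`: for `v` above `S`, `g • vJ v = vJ v`, so `f(vJ v) = χ(g) f(vJ v)`, `χ(g) ≠ 1`, so
`f(vJ v) = 0` (`Subgroup.closure_induction`). `f(I^p) = p f(I) = 0`. So `(Σ_h b h χ(h)) f(vJ lam) = 0`. If the sum is not `0` we are done. If it is `0`: `Σ_δ χ(δ)⁻¹ lg(δ • u) = 0` in `F` (`h = δ⁻¹`), and
`lg (sU p χ θ u) = Σ_δ θ(χ(δ)⁻¹) lg(δ • u) = θ(Σ_δ lg(δ • u) χ(δ)⁻¹) = θ 0 = 0` (`θ(n x) = n θ(x)`), so by the last property of LGX `sU p χ θ u - v^p ∈ lam` for some `v`, a contradiction. -/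
def S_REL1 : Prop := ∀ (p : ℕ) [Fact p.Prime] (F : Type) [Field F] [CharP F p] (k L : Type)
    [Field k] [NumberField k] [Field L] [NumberField L] [Algebra k L] [IsGalois k L]
    (S : Finset ℕ) (χ : (L ≃ₐ[k] L) →* Fˣ) (θ : F →+ ZMod p) (f : J L → F), Eig χ f →
    ∀ g : L ≃ₐ[k] L, χ g ≠ 1 →
    (∀ v : HeightOneSpectrum (𝓞 L), Above S v → g • v.asIdeal = v.asIdeal) →
    ∀ (u : (𝓞 L)ˣ) (lam : HeightOneSpectrum (𝓞 L)) (q : ℕ), GoodPrP p k L S lam q →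
    RelAt p k L S u lam q → (∀ a : 𝓞 L, (sU p χ θ u : 𝓞 L) - a ^ p ∉ lam.asIdeal) →
    f (vJ lam) = 0

/-- NRM1: the eigenfunctional vanishes on the norms from `M`.
Uses S_REL1, S_STABX, S_THDX. PROOF. `U` = the `x : J M` with `f (N x) = 0`: a subgroup (`f` additive, so `f 1 = 0`, `f x⁻¹ = - f x`), contains `prin.range` (`IsN.pri`, `Eig.pri`), stable under `Gal(M/k)`: `σ` restricts to
`τ ∈ Gal(L/k)` (`AlgEquiv.restrictNormal`), `f(N(σ x)) = χ(τ) f(N x) = 0`. Let `w` be a prime of `M`, `#(𝓞 M ⧸ w) = q` prime, `q ∉ S`, `t` = the image in `(𝓞 M)ˣ` of `sU p χ θ u`, not a `p`-th power modulo `w`. `v = w ∩ 𝓞 L`: `𝓞 L ⧸ v → 𝓞 M ⧸ w`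
is injective, so `#(𝓞 L ⧸ v) = q` (a subgroup of a group of prime order). `HasAb L M v q`, so `v` is good (STABX), `sU p χ θ u - a^p ∉ v` for all `a : 𝓞 L`, REL1 (with `KRelX`) gives `f(vJ v) = 0`, and `N(vJ w) = vJ v`, so
`vJ w ∈ U`. THDX for `M / k`, `ζ ^ 2` (a primitive `p`-th root of unity), `t`: `(σ • x) * x⁻¹ ∈ U` for all `σ`; take `σ` an extension of `g` (`AlgEquiv.restrictNormalHom_surjective`): `0 = f(N(σ x)) - f(N x) = (χ(g) - 1) f(N x)`. -/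
def S_NRM1 : Prop := ∀ (p : ℕ) [Fact p.Prime] (F : Type) [Field F] [CharP F p]
    (k L M : Type) [Field k] [NumberField k] [Field L] [NumberField L] [Field M] [NumberField M]
    [Algebra k L] [Algebra L M] [Algebra k M] [IsScalarTower k L M] [IsGalois k L] [IsGalois k M]
    (S : Finset ℕ) (ζ : 𝓞 M), IsPrimitiveRoot ζ (2 * p) → 2 ∈ S → p ∈ S → (∀ ℓ ∈ S, ℓ.Prime) →
    (∀ v : HeightOneSpectrum (𝓞 L), ¬ Above S v → v.asIdeal.ramificationIdx (𝓞 k) = 1) →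
    ∀ g : L ≃ₐ[k] L,
    (∀ v : HeightOneSpectrum (𝓞 L), Above S v → g • v.asIdeal = v.asIdeal) →
    ∀ (χ : (L ≃ₐ[k] L) →* Fˣ) (θ : F →+ ZMod p) (u : (𝓞 L)ˣ), χ g ≠ 1 → KRelX p k L M S u →
    (∀ y : M, y ^ p ≠ algebraMap L M ((sU p χ θ u : 𝓞 L) : L)) →
    ∀ f : J L → F, Eig χ f → ∀ N : J M →* J L, IsN k L M N → ∀ x : J M, f (N x) = 0

/-- IDX1: an eigenfunctional which vanishes on the norms is zero, if the order of a value of `χ` is at least `[M : L]`.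
Uses S_NIX. PROOF. `U` = the kernel of `f` (a homomorphism `J L →* Multiplicative F`), contains `prin.range` and every `vJ v` with `#(𝓞 L ⧸ v) = q` and `HasAb L M v q`
(`vJ v = N(vJ w)`, `IsN.pr`). NIX: `U.index ≠ 0`, `U.index ≤ [M : L]`. `U.index` is the number of values of `f` (`Subgroup.index_ker`). If `f y ≠ 0` the values `f(h^i • y) = χ(h)^i f(y)`, `i < orderOf (χ h)`, are
different and not `0`, and `f 1 = 0`: more than `[M : L]` values, a contradiction. -/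
def S_IDX1 : Prop := ∀ (F : Type) [Field F]
    (k L M : Type) [Field k] [NumberField k] [Field L] [NumberField L] [Field M] [NumberField M]
    [Algebra k L] [Algebra L M] [Algebra k M] [IsGalois k L] (S : Finset ℕ), (∀ ℓ ∈ S, ℓ.Prime) →
    ∀ (χ : (L ≃ₐ[k] L) →* Fˣ) (f : J L → F), Eig χ f → ∀ N : J M →* J L, IsN k L M N →
    (∀ x : J M, f (N x) = 0) → ∀ h : L ≃ₐ[k] L, Module.finrank L M ≤ orderOf (χ h) →
    ∀ y, f y = 0

/-- TRV1: `g` acts trivially on the class group modulo `p`-th powers.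
Uses S_EIGX. PROOF. EIGX with `G = Gal(L / k)`, `D = ⊤` (of order `[L : k]`, prime to `p`), `I = J L`, `P` = the `x` with `x = y ^ p * prin z` (the product of the subgroups of the `p`-th powers and `prin.range`; stable:
`smul_prin` of RI). If `v = (g • x) * x⁻¹ ∉ P` there are `χ : ⊤ →* Fˣ` (a character of `Gal(L/k)` via `Subgroup.topEquiv`) and `f`, `Eig χ f`, `f v ≠ 0`; but `f v = (χ(g) - 1) f(x)`, so `χ(g) ≠ 1` and `f x ≠ 0`, a contradiction. -/
def S_TRV1 : Prop := ∀ (p : ℕ) [Fact p.Prime] (F : Type) [Field F] [CharP F p] [IsAlgClosed F]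
    (k L : Type) [Field k] [NumberField k] [Field L] [NumberField L] [Algebra k L] [IsGalois k L],
    (∀ σ τ : L ≃ₐ[k] L, σ * τ = τ * σ) → ¬ p ∣ Module.finrank k L → ∀ g : L ≃ₐ[k] L,
    (∀ (χ : (L ≃ₐ[k] L) →* Fˣ) (f : J L → F), Eig χ f → χ g ≠ 1 → ∀ x, f x = 0) →
    ∀ x : J L, ∃ (y : J L) (z : Lˣ), (g • x) * x⁻¹ = y ^ p * prin z

/-- CLG1: the class numbers.
Uses nothing (`CL_thm` of RI, `Pool/Agent/RI/CL.lean`). PROOF. By `CL_thm` it is enough to show `RelTriv F₁ L p`. `d = [L : F₁]` = the order of `⟨g₁⟩ = Gal(L / F₁)`, `N x = ∏_σ σ • x`, `T x = (g₁ • x) * x⁻¹` (`g₁ • x = g • x`, same underlying map). `B` = the `x : J L` with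
`N x = 1`. Let `x ∈ B`: `x^d = x^d / N x = ∏_(i < d) (x / g₁^i x) = T w` with `w = ∏_(i < d) ∏_(j < i) g₁^j • x⁻¹` (`T(g₁^j x⁻¹) = g₁^j x / g₁^(j+1) x`). So by hypothesis `x^d = y^p * prin z`. Apply `π(x) = x^d / N x` (multiplicative, values in `B`:
`N (N y) = (N y)^d`, and `π (prin z)` is principal, `smul_prin`): `x^(d²) = π(x^d) = π(y)^p * prin z'`. So in the finite group `C` = the image of `B` in `J L ⧸ prin.range` (`CL.finite_quot`) every `c^(d²)` is a `p`-th power of an element of `C`; `d²` is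
prime to `p`: every element of `C` is a `p`-th power (`c = (c^(d²))^a (c^p)^b`), so `c ↦ c^p` is bijective on `C`, so `p` does not divide `|C|` (Cauchy: `exists_prime_orderOf_dvd_card'`), and `x^|C|` is principal for `x ∈ B`. -/
def S_CLG1 : Prop := ∀ (p : ℕ) [Fact p.Prime] (k F₁ L : Type) [Field k] [Field F₁] [NumberField F₁]
    [Field L] [NumberField L] [Algebra k L] [Algebra F₁ L] [IsGalois F₁ L]
    (g : L ≃ₐ[k] L) (g₁ : L ≃ₐ[F₁] L), (∀ x, g₁ x = g x) →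
    (∀ h : L ≃ₐ[F₁] L, h ∈ Subgroup.zpowers g₁) → ¬ p ∣ Module.finrank F₁ L →
    (∀ x : J L, ∃ (y : J L) (z : Lˣ), (g • x) * x⁻¹ = y ^ p * prin z) →
    padicValNat p (NumberField.classNumber L) = padicValNat p (NumberField.classNumber F₁)

/-- NPW1: from `c` to `u = g ^ p c / c`.
PROOF. `α = χ(g)^p - 1 ≠ 0` (`χ(g)^p = 1` implies `(χ(g) - 1)^p = 0`), `θ' x = θ(α⁻¹ x)`. `sU p χ θ' u = ∏_δ (δ g^p c)^(θ'(χ(δ)⁻¹)) / ∏_δ (δ c)^(θ'(χ(δ)⁻¹))`; replace `δ g^p` by `δ` in the first product (`χ(δ g^(-p))⁻¹ = χ(g)^p χ(δ)⁻¹`):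
the exponent of `δ c` is `θ'(χ(g)^p χ(δ)⁻¹).val - θ'(χ(δ)⁻¹).val ≡ θ'(α χ(δ)⁻¹).val = θ(χ(δ)⁻¹).val` modulo `p`. So `sU p χ θ' u = sE p χ θ c * w^p` with `w ∈ L`, `w ≠ 0`. If the image of it is `y^p` then the image of `sE p χ θ c` is `(y / w)^p`. -/
def S_NPW1 : Prop := ∀ (p : ℕ) [Fact p.Prime] (F : Type) [Field F] [CharP F p]
    (k L M : Type) [Field k] [NumberField k] [Field L] [NumberField L] [Field M]
    [Algebra k L] [Algebra L M] (χ : (L ≃ₐ[k] L) →* Fˣ) (g : L ≃ₐ[k] L), χ g ≠ 1 →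
    ∀ (c : L) (u : (𝓞 L)ˣ), c ≠ 0 → ((u : 𝓞 L) : L) = (g ^ p) c / c →
    ∀ θ : F →+ ZMod p, (∀ y : M, y ^ p ≠ algebraMap L M (sE p χ θ c)) →
    ∃ θ' : F →+ ZMod p, ∀ y : M, y ^ p ≠ algebraMap L M ((sU p χ θ' u : 𝓞 L) : L)

/-- KOL1: the relations for `u = g ^ p c₀ / c₀`, `c₀` the norm of `c`.
Uses S_KINX, S_KNM, S_UNI (proved in `Pool/Agent/MU3/P_UNI.lean`). PROOF. `u' = g'^p c / c` is a unit of `𝓞 M`: at the primes above `S` the valuations of `g'^p c` and `c` agree because `g'` fixes these primes, at the others both are `1` (`SU`); see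
`Pool/Agent/MUX/K_KOLX.lean`, where the same is done for subfields of `ℂ`. KINX with `g'` gives `KRelP p k M S u'`. `Algebra.norm L u' = g^p c₀ / c₀` (`Algebra.norm L (g' x) = g (Algebra.norm L x)`: `Algebra.norm_eq_prod_automorphisms`, conjugation by `g'`;
or because `Gal(M/k)` is abelian). `u` = the norm of `u'` as a unit of `𝓞 L`. KNM. -/
def S_KOL1 : Prop := ∀ (p : ℕ) [Fact p.Prime]
    (k L M : Type) [Field k] [NumberField k] [Field L] [NumberField L] [Field M] [NumberField M]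
    [Algebra k L] [Algebra L M] [Algebra k M] [IsScalarTower k L M] [IsGalois k L] [IsGalois k M],
    (∀ σ τ : M ≃ₐ[k] M, σ * τ = τ * σ) →
    ∀ (S : Finset ℕ) (ζ : 𝓞 M), IsPrimitiveRoot ζ (2 * p) → 2 ∈ S → p ∈ S → (∀ ℓ ∈ S, ℓ.Prime) →
    (∀ v : HeightOneSpectrum (𝓞 M), ¬ Above S v → v.asIdeal.ramificationIdx (𝓞 k) = 1) →
    ∀ (c : M) (Gs : Set (M ≃ₐ[k] M)), c ≠ 0 → SU S M c → KolInP p k M Gs S c → ∀ g' ∈ Gs,
    (∀ v : HeightOneSpectrum (𝓞 M), Above S v → g' • v.asIdeal = v.asIdeal) →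
    ∀ g : L ≃ₐ[k] L, (∀ x : L, algebraMap L M (g x) = g' (algebraMap L M x)) →
    ∃ u : (𝓞 L)ˣ, ((u : 𝓞 L) : L) = (g ^ p) (Algebra.norm L c) / Algebra.norm L c ∧
      KRelX p k L M S u

/-- FIX1: from `M` to `L`: primes above `S` and ramification.
PROOF. Over every prime `v` of `L` there is a prime `w` of `M` (`Ideal.exists_ideal_over_prime_of_isIntegral` or `Ideal.exists_maximal_ideal_liesOver_of_isIntegral`), `w ∩ 𝓞 L = v`, and `w` is above `S` if and only if `v` is.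
(1) `g v = (g' w) ∩ 𝓞 L = w ∩ 𝓞 L = v`. (2) `1 = e(w/k) = e(w/v) e(v/k)` (`Ideal.ramificationIdx_tower` / `ramificationIdx_algebra_tower`). -/
def S_FIX1 : Prop := ∀ (k L M : Type) [Field k] [NumberField k] [Field L] [NumberField L]
    [Field M] [NumberField M] [Algebra k L] [Algebra L M] [Algebra k M] [IsScalarTower k L M]
    (S : Finset ℕ),
    (∀ (g' : M ≃ₐ[k] M) (g : L ≃ₐ[k] L), (∀ x : L, algebraMap L M (g x) = g' (algebraMap L M x)) →
      (∀ v : HeightOneSpectrum (𝓞 M), Above S v → g' • v.asIdeal = v.asIdeal) →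
      ∀ v : HeightOneSpectrum (𝓞 L), Above S v → g • v.asIdeal = v.asIdeal) ∧
    ((∀ v : HeightOneSpectrum (𝓞 M), ¬ Above S v → v.asIdeal.ramificationIdx (𝓞 k) = 1) →
      ∀ v : HeightOneSpectrum (𝓞 L), ¬ Above S v → v.asIdeal.ramificationIdx (𝓞 k) = 1)

/-- PWL1: `p`-th powers in an abelian extension of a field without `p`-th roots of unity.
PROOF. `y^p = s ≠ 0` (if `s = 0` take `x = 0`). For `τ ∈ Gal(M/L)`: `τ ω = ω^(e τ)`, `τ y = ω^(c τ) y` (exponents in `ZMod p`). `ω ∉ L`, so there is `σ` with `e σ ≠ 1` (`M / L` Galois). `σ τ y = τ σ y`: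
`e(σ) c(τ) + c(σ) = e(τ) c(σ) + c(τ)`, so `(e σ - 1) c(τ) = (e τ - 1) c(σ)`; with `b = c(σ)/(e σ - 1)`: `c(τ) = (e τ - 1) b` for all `τ`. `y' = y ω^(-b)`: `τ y' = ω^(c τ - e(τ) b) y = ω^(-b) y = y'` for all `τ`, so `y' ∈ L`, and
`y'^p = s`. -/
def S_PWL1 : Prop := ∀ (p : ℕ) [Fact p.Prime] (L M : Type) [Field L] [NumberField L] [Field M]
    [NumberField M] [Algebra L M] [IsGalois L M] (ω : M), (∀ σ τ : M ≃ₐ[L] M, σ * τ = τ * σ) →
    IsPrimitiveRoot ω p → (¬ ∃ z : L, IsPrimitiveRoot z p) → ∀ (s : L) (y : M),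
    y ^ p = algebraMap L M s → ∃ x : L, x ^ p = s

/-- K1: the result of the block.
Uses S_NRM1, S_IDX1, S_TRV1, S_CLG1, S_NPW1, S_KOL1, S_FIX1, S_NRJ. PROOF. `N` from NRJ (`IsN`), `u` from KOL1, `c₀ = Algebra.norm L c ≠ 0`. `g` fixes the primes of `L` above `S` and `L / k` is unramified outside `S` (FIX1). By TRV1 and CLG1 (`¬ p ∣ [L : F₁]` as `[L : F₁]` is the order
of a subgroup of `Gal(L/k)`: `hdiv`) it is enough that `f = 0` whenever `Eig χ f`, `χ g ≠ 1`. Hypothesis (b) and NPW1: `θ'` with `sU p χ θ' u` not a `p`-th power in `M`; NRM1: `f (N x) = 0` for all `x`; IDX1 with (a): `f = 0`. -/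
def S_K1 : Prop := ∀ (p : ℕ) [Fact p.Prime] (F : Type) [Field F] [CharP F p] [IsAlgClosed F]
    (k F₁ L M : Type) [Field k] [NumberField k] [Field F₁] [NumberField F₁] [Field L]
    [NumberField L] [Field M] [NumberField M] [Algebra k L] [Algebra F₁ L] [Algebra L M]
    [Algebra k M] [IsScalarTower k L M] [IsGalois k L] [IsGalois k M] [IsGalois F₁ L],
    (∀ σ τ : M ≃ₐ[k] M, σ * τ = τ * σ) → ¬ p ∣ Module.finrank k L → ¬ p ∣ Module.finrank F₁ L →
    ∀ (S : Finset ℕ) (ζ : 𝓞 M), IsPrimitiveRoot ζ (2 * p) → 2 ∈ S → p ∈ S → (∀ ℓ ∈ S, ℓ.Prime) →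
    (∀ v : HeightOneSpectrum (𝓞 M), ¬ Above S v → v.asIdeal.ramificationIdx (𝓞 k) = 1) →
    ∀ (c : M) (Gs : Set (M ≃ₐ[k] M)), c ≠ 0 → SU S M c → KolInP p k M Gs S c → ∀ g' ∈ Gs,
    (∀ v : HeightOneSpectrum (𝓞 M), Above S v → g' • v.asIdeal = v.asIdeal) →
    ∀ (g : L ≃ₐ[k] L) (g₁ : L ≃ₐ[F₁] L),
    (∀ x : L, algebraMap L M (g x) = g' (algebraMap L M x)) → (∀ x, g₁ x = g x) →
    (∀ h : L ≃ₐ[F₁] L, h ∈ Subgroup.zpowers g₁) →
    (∀ χ : (L ≃ₐ[k] L) →* Fˣ, χ g ≠ 1 →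
      (∃ h : L ≃ₐ[k] L, Module.finrank L M ≤ orderOf (χ h)) ∧
      ∃ θ : F →+ ZMod p, ∀ y : M, y ^ p ≠ algebraMap L M (sE p χ θ (Algebra.norm L c))) →
    padicValNat p (NumberField.classNumber L) = padicValNat p (NumberField.classNumber F₁)

end Pool.Agent.TWK


end

section

/-!
# From `M` to `L`: primes above `S` and ramification (module FIX1)
-/

set_option autoImplicit false

open NumberField IsDedekindDomain Finset
open scoped nonZeroDivisors Pointwise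

namespace Pool.Agent.TWK

open Pool.Agent.MU3 Pool.Agent.RI Pool.Agent.MUXK

namespace FIX1x

theorem exists_above (K L : Type) [Field K] [NumberField K] [Field L] [NumberField L]
    [Algebra K L] (v : HeightOneSpectrum (𝓞 K)) :
    ∃ w : HeightOneSpectrum (𝓞 L), w.asIdeal.under (𝓞 K) = v.asIdeal := by
  obtain ⟨P, hP, hlo⟩ := (inferInstance : Nonempty (Ideal.primesOver v.asIdeal (𝓞 L)))
  have := hP
  have := hlo
  exact ⟨⟨P, hP, Ideal.ne_bot_of_liesOver_of_ne_bot v.ne_bot P⟩, (Ideal.over_def P v.asIdeal).symm⟩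

theorem above_under {L M : Type} [Field L] [NumberField L] [Field M] [NumberField M]
    [Algebra L M] {S : Finset ℕ} (v : HeightOneSpectrum (𝓞 L)) (w : HeightOneSpectrum (𝓞 M))
    (h : w.asIdeal.under (𝓞 L) = v.asIdeal) : Above S w ↔ Above S v := by
  unfold Above
  refine exists_congr fun p => and_congr_right fun _ => ?_
  rw [← h, Ideal.mem_under, map_natCast]

theorem fix_under {k L M : Type} [Field k] [Field L] [NumberField L]
    [Field M] [NumberField M] [Algebra k L] [Algebra L M] [Algebra k M]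
    (g' : M ≃ₐ[k] M) (g : L ≃ₐ[k] L) (hg : ∀ x : L, algebraMap L M (g x) = g' (algebraMap L M x))
    (v : HeightOneSpectrum (𝓞 L)) (w : HeightOneSpectrum (𝓞 M))
    (h : w.asIdeal.under (𝓞 L) = v.asIdeal) (hw : g' • w.asIdeal = w.asIdeal) :
    g • v.asIdeal = v.asIdeal := by
  have key : ∀ x : 𝓞 L, algebraMap (𝓞 L) (𝓞 M) (g⁻¹ • x) = g'⁻¹ • algebraMap (𝓞 L) (𝓞 M) x := by
    intro x
    apply IsFractionRing.injective (𝓞 M) M
    change algebraMap L M (g⁻¹ (x : L)) = g'⁻¹ (algebraMap L M (x : L))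
    have h1 := hg (g⁻¹ (x : L))
    have h2 : g (g⁻¹ (x : L)) = x := g.apply_symm_apply x
    rw [h2] at h1
    rw [h1]
    exact (g'.symm_apply_apply _).symm
  ext x
  rw [Ideal.mem_pointwise_smul_iff_inv_smul_mem, ← h, Ideal.mem_under, Ideal.mem_under, key,
    ← Ideal.mem_pointwise_smul_iff_inv_smul_mem, hw]

end FIX1x

theorem t_FIX1 : S_FIX1 := by
  intro k L M _ _ _ _ _ _ _ _ _ _ S
  refine ⟨fun g' g hg hfix v hv => ?_, fun hunr v hv => ?_⟩
  · obtain ⟨w, hw⟩ := FIX1x.exists_above L M v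
    exact FIX1x.fix_under g' g hg v w hw (hfix w ((FIX1x.above_under v w hw).2 hv))
  · obtain ⟨w, hw⟩ := FIX1x.exists_above L M v
    have h1 := hunr w fun h => hv ((FIX1x.above_under v w hw).1 h)
    have hlo : w.asIdeal.LiesOver v.asIdeal := ⟨hw.symm⟩
    have h3 := Ideal.ramificationIdx_tower (R := 𝓞 k) v.asIdeal w.asIdeal
    rw [h1] at h3
    exact Nat.eq_one_of_mul_eq_one_right h3.symm

end Pool.Agent.TWK


end

section

/-!
# TWK, module IDX1: the norm index against the values of an eigenfunctional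
-/

set_option autoImplicit false

open NumberField IsDedekindDomain Finset
open scoped nonZeroDivisors Pointwise

namespace Pool.Agent.TWK

open Pool.Agent.MU3 Pool.Agent.RI Pool.Agent.MUXK

theorem t_IDX1 (h1 : S_NIX) : S_IDX1 := by
  intro F _ k L M _ _ _ _ _ _ _ _ _ _ S hS χ f hf N hN hfN h hord y
  by_contra hy
  have hf1 : f 1 = 0 := by
    have := hf.add 1 1
    rw [mul_one] at this
    exact left_eq_add.1 this
  let φ : J L →* Multiplicative F :=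
    { toFun := fun x => Multiplicative.ofAdd (f x)
      map_one' := by rw [hf1]; rfl
      map_mul' := fun a b => by rw [hf.add]; rfl }
  have hφ : ∀ x, φ x = Multiplicative.ofAdd (f x) := fun _ => rfl
  have key := h1 L M S hS φ.ker (by
    intro x hx
    rw [MonoidHom.mem_ker, hφ, hf.pri x hx]
    rfl) (by
    intro v q _ _ hcard hab
    obtain ⟨w, hw1, hw2⟩ := hab
    have e := hN.pr w v hw1 (by rw [hw2, hcard])
    rw [← e, MonoidHom.mem_ker, hφ, hfN]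
    rfl)
  rw [Subgroup.index_ker] at key
  obtain ⟨hi0, hi1⟩ := key
  have hfin : Finite φ.range := Nat.finite_of_card_ne_zero hi0
  have hval : ∀ i : ℕ, f (h ^ i • y) = ((χ h : Fˣ) : F) ^ i * f y := by
    intro i
    rw [hf.eig, map_pow, Units.val_pow_eq_pow_val]
  let ψ : Option (Fin (orderOf (χ h))) → φ.range := fun o =>
    o.elim 1 fun i => ⟨φ (h ^ (i : ℕ) • y), ⟨_, rfl⟩⟩
  have hψ0 : ψ none = 1 := rfl
  have hψ1 : ∀ i, ((ψ (some i) : φ.range) : Multiplicative F) =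
      Multiplicative.ofAdd (((χ h : Fˣ) : F) ^ (i : ℕ) * f y) := by
    intro i
    rw [← hval]
    rfl
  have hne : ∀ i, ψ (some i) ≠ ψ none := by
    intro i hi
    have h2 := congrArg (fun t : φ.range => (t : Multiplicative F)) hi
    simp only [hψ1, hψ0] at h2
    have h3 : ((χ h : Fˣ) : F) ^ (i : ℕ) * f y = 0 := Multiplicative.ofAdd.injective h2
    rcases mul_eq_zero.1 h3 with h4 | h4
    · exact (pow_ne_zero _ (Units.ne_zero _)) h4
    · exact hy h4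
  have hinj : Function.Injective ψ := by
    intro a b hab
    rcases a with _ | i
    · rcases b with _ | j
      · rfl
      · exact absurd hab.symm (hne j)
    · rcases b with _ | j
      · exact absurd hab (hne i)
      · have h2 := congrArg (fun t : φ.range => (t : Multiplicative F)) hab
        simp only [hψ1] at h2
        have h3 : ((χ h : Fˣ) : F) ^ (i : ℕ) * f y = ((χ h : Fˣ) : F) ^ (j : ℕ) * f y :=
          Multiplicative.ofAdd.injective h2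
        have h4 := mul_right_cancel₀ hy h3
        have h5 : (χ h) ^ (i : ℕ) = (χ h) ^ (j : ℕ) := by
          ext
          rw [Units.val_pow_eq_pow_val, Units.val_pow_eq_pow_val, h4]
        have h6 : (i : ℕ) = j := pow_injOn_Iio_orderOf i.2 j.2 h5
        rw [Fin.ext h6]
  have hcard := Nat.card_le_card_of_injective ψ hinj
  rw [Nat.card_eq_fintype_card, Fintype.card_option, Fintype.card_fin] at hcard
  omega

end Pool.Agent.TWK


end

section

/-!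
# TWK, module NPW1: from `c` to `u = g ^ p c / c`
-/

set_option autoImplicit false

open NumberField IsDedekindDomain Finset
open scoped nonZeroDivisors Pointwise

namespace Pool.Agent.TWK

open Pool.Agent.MU3 Pool.Agent.RI Pool.Agent.MUXK

namespace NPW1x

/-- The value of `sU` in `L`. -/
theorem sU_val {k L F : Type} [Field k] [NumberField k] [Field L] [NumberField L] [Algebra k L]
    [Field F] (p : ℕ) (χ : (L ≃ₐ[k] L) →* Fˣ) (θ : F →+ ZMod p) (u : (𝓞 L)ˣ) :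
    ((sU p χ θ u : 𝓞 L) : L) =
      ∏ δ : L ≃ₐ[k] L, (δ ((u : 𝓞 L) : L)) ^ (θ ((χ δ)⁻¹ : Fˣ)).val := by
  let ψ : (𝓞 L)ˣ →* L := (algebraMap (𝓞 L) L : 𝓞 L →* L).comp (Units.coeHom (𝓞 L))
  have hψ : ∀ x : (𝓞 L)ˣ, ((x : 𝓞 L) : L) = ψ x := fun _ => rfl
  have hψs : ∀ (σ : L ≃ₐ[k] L) (x : (𝓞 L)ˣ), ψ (σ • x) = σ (ψ x) := fun _ _ => rfl
  rw [hψ, hψ]
  unfold sU
  rw [map_prod]
  refine prod_congr rfl fun δ _ => ?_
  rw [map_pow, hψs]

/-- Exponents which agree modulo `p`. -/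
theorem pow_mod {L : Type} [Field L] (p : ℕ) [NeZero p] (x : L) (hx : x ≠ 0) (e1 e2 n : ℕ)
    (h : (e1 : ZMod p) - (e2 : ZMod p) = (n : ZMod p)) :
    ∃ w : L, w ≠ 0 ∧ x ^ e1 / x ^ e2 = x ^ n * w ^ p := by
  have h1 : (((e1 : ℤ) - (e2 : ℤ) - (n : ℤ) : ℤ) : ZMod p) = 0 := by
    push_cast
    rw [h, sub_self]
  obtain ⟨m, hm⟩ := (ZMod.intCast_zmod_eq_zero_iff_dvd _ p).1 h1
  refine ⟨x ^ m, zpow_ne_zero m hx, ?_⟩
  rw [← zpow_natCast x e1, ← zpow_natCast x e2, ← zpow_natCast x n, ← zpow_sub₀ hx,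
    ← zpow_natCast (x ^ m) p, ← zpow_mul, ← zpow_add₀ hx]
  congr 1
  rw [mul_comm m (p : ℤ), ← hm]
  ring

end NPW1x

open _root_.Pool.Agent.TWK.NPW1x in
theorem t_NPW1 : S_NPW1 := by
  intro p _ F _ _ k L M _ _ _ _ _ _ _ χ g hg c u hc hu θ hθ
  have hp : p.Prime := Fact.out
  have hpz : NeZero p := ⟨hp.ne_zero⟩
  set a : F := ((χ g : Fˣ) : F) ^ p - 1 with ha
  have ha0 : a ≠ 0 := by
    have h1 : a = (((χ g : Fˣ) : F) - 1) ^ p := by
      rw [sub_pow_char, one_pow]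
    rw [h1]
    refine pow_ne_zero p fun h2 => hg ?_
    exact Units.ext (sub_eq_zero.1 h2)
  let θ' : F →+ ZMod p := θ.comp (AddMonoidHom.mulLeft a⁻¹)
  have hθ' : ∀ x, θ' x = θ (a⁻¹ * x) := fun x => rfl
  refine ⟨θ', fun y hy => ?_⟩
  let e : (L ≃ₐ[k] L) → ℕ := fun δ => (θ' ((χ δ)⁻¹ : Fˣ)).val
  have hδ : ∀ δ : L ≃ₐ[k] L, δ c ≠ 0 := fun δ h => hc ((map_eq_zero δ).1 h)
  -- the value of `sU`
  have h1 : ((sU p χ θ' u : 𝓞 L) : L) =
      ∏ δ : L ≃ₐ[k] L, (δ c) ^ e (δ * (g ^ p)⁻¹) / (δ c) ^ e δ := by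
    rw [sU_val, prod_div_distrib]
    have h2 : ∏ δ : L ≃ₐ[k] L, (δ c) ^ e (δ * (g ^ p)⁻¹) =
        ∏ δ : L ≃ₐ[k] L, ((δ * g ^ p) c) ^ e δ := by
      refine (Fintype.prod_equiv (Equiv.mulRight (g ^ p)) _ _ fun δ => ?_).symm
      simp only [Equiv.coe_mulRight, mul_inv_cancel_right]
    rw [h2, ← prod_div_distrib]
    refine prod_congr rfl fun δ _ => ?_
    rw [hu, map_div₀, div_pow]
    rfl
  -- comparison of the exponents
  have h3 : ∀ δ : L ≃ₐ[k] L, ((e (δ * (g ^ p)⁻¹) : ℕ) : ZMod p) - ((e δ : ℕ) : ZMod p) =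
      (((θ ((χ δ)⁻¹ : Fˣ)).val : ℕ) : ZMod p) := by
    intro δ
    simp only [e]
    rw [ZMod.natCast_zmod_val, ZMod.natCast_zmod_val, ZMod.natCast_zmod_val, ← map_sub, hθ']
    congr 1
    have h4 : (((χ (δ * (g ^ p)⁻¹))⁻¹ : Fˣ) : F) =
        ((χ g : Fˣ) : F) ^ p * (((χ δ)⁻¹ : Fˣ) : F) := by
      rw [map_mul, map_inv, map_pow, mul_inv_rev, inv_inv, Units.val_mul, Units.val_pow_eq_pow_val]
    rw [h4]
    have h5 : ((χ g : Fˣ) : F) ^ p * (((χ δ)⁻¹ : Fˣ) : F) - (((χ δ)⁻¹ : Fˣ) : F) =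
        a * (((χ δ)⁻¹ : Fˣ) : F) := by
      rw [ha]
      ring
    rw [h5, ← mul_assoc, inv_mul_cancel₀ ha0, one_mul]
  choose w hw0 hw using fun δ : L ≃ₐ[k] L =>
    pow_mod p (δ c) (hδ δ) (e (δ * (g ^ p)⁻¹)) (e δ) _ (h3 δ)
  have h6 : ((sU p χ θ' u : 𝓞 L) : L) = sE p χ θ c * (∏ δ, w δ) ^ p := by
    rw [h1, prod_congr rfl fun δ _ => hw δ, prod_mul_distrib, prod_pow]
    rfl
  have h7 : (∏ δ, w δ) ≠ 0 := prod_ne_zero_iff.2 fun δ _ => hw0 δ
  have h8 : algebraMap L M (∏ δ, w δ) ≠ 0 := fun h => h7 ((map_eq_zero (algebraMap L M)).1 h)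
  apply hθ (y / algebraMap L M (∏ δ, w δ))
  rw [div_pow, hy, h6, map_mul, map_pow, mul_div_assoc, div_self (pow_ne_zero p h8), mul_one]

end Pool.Agent.TWK


end

section

/-!
# TWK: module NRM1

The eigenfunctional vanishes on the norms from `M`.
-/

set_option autoImplicit false

open NumberField IsDedekindDomain Finset
open scoped nonZeroDivisors Pointwise

namespace Pool.Agent.TWK

open Pool.Agent.MU3 Pool.Agent.RI Pool.Agent.MUXK

namespace NRM1x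

/-- The prime below a prime of degree one. -/
lemma card_under {L M : Type} [Field L] [NumberField L] [Field M] [NumberField M] [Algebra L M]
    (w : HeightOneSpectrum (𝓞 M)) (q : ℕ) (hq : q.Prime) (hc : Nat.card (𝓞 M ⧸ w.asIdeal) = q) :
    Nat.card (𝓞 L ⧸ (w.asIdeal.under (𝓞 L))) = q := by
  set v : HeightOneSpectrum (𝓞 L) :=
    ⟨w.asIdeal.under (𝓞 L), inferInstance, Ideal.under_ne_bot (𝓞 L) w.ne_bot⟩ with hv
  have hprime : v.asIdeal.IsPrime := v.isPrime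
  have hlo : w.asIdeal.LiesOver v.asIdeal := ⟨rfl⟩
  have hwprime : w.asIdeal.IsPrime := w.isPrime
  have h9 := Ideal.absNorm_pow_inertiaDeg v.asIdeal w.asIdeal
  have hw : Ideal.absNorm w.asIdeal = q := by
    rw [Ideal.absNorm_apply, Submodule.cardQuot_apply]
    exact hc
  have h11 : Ideal.absNorm v.asIdeal ∣ q := by
    rw [← hw, ← h9]
    exact dvd_pow_self _ (Ideal.inertiaDeg_pos _ _).ne'
  have h10 : Ideal.absNorm v.asIdeal = q := by
    rcases (Nat.dvd_prime hq).1 h11 with h12 | h12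
    · exfalso
      rw [h12, one_pow, hw] at h9
      exact hq.one_lt.ne h9
    · exact h12
  rw [Ideal.absNorm_apply, Submodule.cardQuot_apply] at h10
  exact h10

end NRM1x

open _root_.Pool.Agent.TWK.NRM1x in
theorem t_NRM1 (h1 : S_REL1) (h2 : S_STABX) (h3 : S_THDX) : S_NRM1 := by
  classical
  intro p _ F _ _ k L M _ _ _ _ _ _ _ _ _ _ _ _ S ζ hζ h2S hpS hpr hram g hg χ θ u hχ hK hu
    f hf N hN x
  have hp : p.Prime := Fact.out
  have hf1 : f 1 = 0 := by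
    have := hf.add 1 1
    rw [mul_one] at this
    simpa using this
  have hfi : ∀ y, f y⁻¹ = - f y := by
    intro y
    have := hf.add y y⁻¹
    rw [mul_inv_cancel, hf1] at this
    linear_combination -this
  let U : Subgroup (J M) :=
    { carrier := {y | f (N y) = 0}
      one_mem' := by
        change f (N 1) = 0
        rw [map_one, hf1]
      mul_mem' := by
        intro a b ha hb
        change f (N (a * b)) = 0
        have ha' : f (N a) = 0 := ha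
        have hb' : f (N b) = 0 := hb
        rw [map_mul, hf.add, ha', hb', add_zero]
      inv_mem' := by
        intro a ha
        change f (N a⁻¹) = 0
        have ha' : f (N a) = 0 := ha
        rw [map_inv, hfi, ha', neg_zero] }
  have hU : ∀ y : J M, y ∈ U ↔ f (N y) = 0 := fun y => Iff.rfl
  have hUprin : (prin : Mˣ →* J M).range ≤ U := by
    rintro _ ⟨a, rfl⟩
    rw [hU, hN.pri]
    exact hf.pri _ ⟨_, rfl⟩
  have hUσ : ∀ (σ : M ≃ₐ[k] M), ∀ y ∈ U, σ • y ∈ U := by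
    intro σ y hy
    rw [hU] at hy ⊢
    rw [hN.eq σ (σ.restrictNormal L) (fun z => σ.restrictNormal_commutes L z), hf.eig, hy,
      mul_zero]
  obtain ⟨σ, hσ⟩ := AlgEquiv.restrictNormalHom_surjective (F := k) (K₁ := L) M g
  have hσ' : ∀ z : L, algebraMap L M (g z) = σ (algebraMap L M z) := by
    intro z
    rw [← hσ]
    exact σ.restrictNormal_commutes L z
  have hζp : IsPrimitiveRoot (ζ ^ 2) p := hζ.pow (by have := hp.pos; omega) rfl
  let t : (𝓞 L)ˣ := sU p χ θ u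
  let t' : (𝓞 M)ˣ := Units.map (algebraMap (𝓞 L) (𝓞 M)).toMonoidHom t
  have ht'1 : ((t' : 𝓞 M) : M) = algebraMap L M ((t : 𝓞 L) : L) := rfl
  have hUM := h3 p k M (ζ ^ 2) t' hζp (by
      intro y hy
      exact hu y (hy.trans ht'1)) S hpr U hUprin hUσ (by
      intro w q hq hqS hcard hnt
      rw [hU]
      set v : HeightOneSpectrum (𝓞 L) :=
        ⟨w.asIdeal.under (𝓞 L), inferInstance, Ideal.under_ne_bot (𝓞 L) w.ne_bot⟩ with hv
      have hcv : Nat.card (𝓞 L ⧸ v.asIdeal) = q := card_under w q hq hcard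
      have hab : HasAb L M v q := ⟨w, rfl, hcard⟩
      have hgood : GoodPrP p k L S v q :=
        h2 p k L M S ζ hζ h2S hpS hpr hram v q hq hqS hcv hab
      rw [hN.pr w v rfl (hcard.trans hcv.symm)]
      refine h1 p F k L S χ θ f hf g hχ hg u v q hgood (hK v q hgood hab) ?_
      intro a ha
      apply hnt (algebraMap (𝓞 L) (𝓞 M) a)
      have ha' : algebraMap (𝓞 L) (𝓞 M) ((t : 𝓞 L) - a ^ p) ∈ w.asIdeal := ha
      rw [map_sub, map_pow] at ha'
      exact ha') σ x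
  rw [hU, map_mul, map_inv, hN.eq σ g hσ', hf.add, hfi, hf.eig] at hUM
  have h5 : ((χ g : F) - 1) * f (N x) = 0 := by linear_combination hUM
  rcases mul_eq_zero.1 h5 with h6 | h6
  · exact absurd (Units.ext (by rw [Units.val_one]; exact sub_eq_zero.1 h6)) hχ
  · exact h6

end Pool.Agent.TWK


end

section

/-!
# TWK_PWL1: p-th powers in an abelian extension of a field without p-th roots of unity (helper30)
-/

set_option autoImplicit false

open NumberField IsDedekindDomain Finset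
open scoped nonZeroDivisors Pointwise

namespace Pool.Agent.TWK

open Pool.Agent.MU3 Pool.Agent.RI Pool.Agent.MUXK

theorem t_PWL1 : S_PWL1 := by
  intro p hp L M _ _ _ _ _ _ ω hcomm hω hno s y hy
  have hpp : p.Prime := hp.out
  have hp0 : p ≠ 0 := hpp.ne_zero
  have : NeZero p := ⟨hp0⟩
  by_cases hs : s = 0
  · exact ⟨0, by rw [hs, zero_pow hp0]⟩
  have hy0 : y ≠ 0 := by
    intro h
    rw [h, zero_pow hp0] at hy
    exact hs ((FaithfulSMul.algebraMap_injective L M) (by rw [← hy, map_zero]))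
  have hω0 : ω ≠ 0 := hω.ne_zero hp0
  have hpw : ∀ m n : ℕ, m ≡ n [MOD p] → ω ^ m = ω ^ n := by
    intro m n h
    have h' : m % p = n % p := h
    rw [← pow_mod_orderOf ω m, ← pow_mod_orderOf ω n, ← hω.eq_orderOf, h']
  -- an automorphism which moves `ω`
  obtain ⟨σ, hσ⟩ : ∃ σ : M ≃ₐ[L] M, σ ω ≠ ω := by
    by_contra hall
    push Not at hall
    obtain ⟨z, hz⟩ := (IsGalois.mem_range_algebraMap_iff_fixed ω).2 hall
    refine hno ⟨z, ?_⟩
    rw [← hz] at hω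
    exact (IsPrimitiveRoot.map_iff_of_injective (FaithfulSMul.algebraMap_injective L M)).1 hω
  -- exponents
  obtain ⟨a, _, ha⟩ := hω.eq_pow_of_pow_eq_one (ξ := σ ω) (by rw [← map_pow, hω.pow_eq_one, map_one])
  have hyσ : ∀ τ : M ≃ₐ[L] M, ∀ w : M, w ^ p = algebraMap L M s → (τ w) ^ p = algebraMap L M s := by
    intro τ w hw
    rw [← map_pow, hw, AlgEquiv.commutes]
  obtain ⟨c, _, hc⟩ := hω.eq_pow_of_pow_eq_one (ξ := σ y / y) (by
    rw [div_pow, hyσ σ y hy, hy, div_self]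
    rw [← hy]; exact pow_ne_zero _ hy0)
  have hc' : σ y = ω ^ c * y := by rw [hc, div_mul_cancel₀ _ hy0]
  have ha1 : (a : ZMod p) - 1 ≠ 0 := by
    intro h
    apply hσ
    have h1 : ((a : ℕ) : ZMod p) = ((1 : ℕ) : ZMod p) := by
      rw [Nat.cast_one]; exact sub_eq_zero.1 h
    have h2 := (ZMod.natCast_eq_natCast_iff a 1 p).1 h1
    rw [← ha]
    have h3 : ω ^ a = ω ^ 1 := hpw _ _ h2
    rw [h3, pow_one]
  set B : ℕ := ((c : ZMod p) / ((a : ZMod p) - 1)).val with hB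
  have hBm : ω ^ (a * B) = ω ^ (c + B) := by
    have h1 : ((a * B : ℕ) : ZMod p) = ((c + B : ℕ) : ZMod p) := by
      push_cast
      rw [hB, ZMod.natCast_val, ZMod.cast_id]
      field_simp
      ring
    have h2 := (ZMod.natCast_eq_natCast_iff _ _ p).1 h1
    exact hpw _ _ h2
  set y' : M := y / ω ^ B with hy'
  have hy'0 : y' ≠ 0 := div_ne_zero hy0 (pow_ne_zero _ hω0)
  have hy'p : y' ^ p = algebraMap L M s := by
    rw [hy', div_pow, hy, ← pow_mul, mul_comm, pow_mul, hω.pow_eq_one, one_pow, div_one]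
  have hσy' : σ y' = y' := by
    rw [hy', map_div₀, map_pow, hc', ← ha, ← pow_mul, hBm, pow_add]
    field_simp
  have hfix : ∀ τ : M ≃ₐ[L] M, τ y' = y' := by
    intro τ
    have h1 : (τ y' / y') ^ p = 1 := by
      rw [div_pow, hyσ τ y' hy'p, hy'p, div_self]
      rw [← hy'p]; exact pow_ne_zero _ hy'0
    have h2 : σ (τ y' / y') = τ y' / y' := by
      rw [map_div₀, hσy']
      have := DFunLike.congr_fun (hcomm σ τ) y'
      simp only [AlgEquiv.mul_apply] at this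
      rw [this, hσy']
    have h3 : τ y' / y' = 1 := by
      by_contra hne
      have hprim : IsPrimitiveRoot (τ y' / y') p := by
        rw [IsPrimitiveRoot.iff_orderOf]
        exact orderOf_eq_prime h1 hne
      obtain ⟨j, _, hj⟩ := hprim.eq_pow_of_pow_eq_one hω.pow_eq_one
      apply hσ
      rw [← hj, map_pow, h2]
    exact (div_eq_one_iff_eq hy'0).1 h3
  obtain ⟨x, hx⟩ := (IsGalois.mem_range_algebraMap_iff_fixed y').2 hfix
  refine ⟨x, (FaithfulSMul.algebraMap_injective L M) ?_⟩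
  rw [map_pow, hx, hy'p]

end Pool.Agent.TWK


end

section

/-!
# TWK, second part: block K for subfields of `ℂ` (helper96), Theorem C of MP_b78433_nt

`k ≤ K ≤ K'` subfields of `ℂ` of finite degree, `K' / k` abelian, `B n` the layers of the cyclotomic `ℤ_l`-extension of `ℚ` (no linear
disjointness), `p ≠ l` prime, `p ∤ [K : k]`. `S_K1` (`StK1.lean`) is applied to `L = K B_(n+1)`, `F₁ = K B_n`, `M = K' B_(n+1)` for large `n`.
Every `def S_X : Prop` is the statement of a module, which proves `theorem t_X (h : S_Y) ... : S_X` (namespace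
`Pool.Agent.TWK`, file `Pool/Agent/TWK/X.lean`); the doc string contains the proof; `Uses` names the hypotheses.
`algC`, `numC`, `isGalois_algC`, `finrank_algC`, `LAY_thm`, `BCH_thm`: `Pool/Agent/RI`; `NC`, `t_LAYC`: `Pool/Agent/RID`, `MU3`.
-/

set_option autoImplicit false

open NumberField IsDedekindDomain Finset
open scoped nonZeroDivisors Pointwise

namespace Pool.Agent.TWK

open Pool.Agent.MU3 Pool.Agent.RI Pool.Agent.RID Pool.Agent.MUXK

/-! ## Definitions -/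

/-- `K / k` abelian, `B n` the layers of the cyclotomic `ℤ_l`-extension of `ℚ`. -/
structure BasC (l : ℕ) (k K : IntermediateField ℚ ℂ) (B : ℕ → IntermediateField ℚ ℂ) : Prop where
  hk : k ≤ K
  gal : IsGalois k (IntermediateField.extendScalars hk)
  ab : ∀ σ τ : (IntermediateField.extendScalars hk) ≃ₐ[k] (IntermediateField.extendScalars hk),
    σ * τ = τ * σ
  lay : ∀ n, IsLayer l n (B n)
  mono : Monotone B

/-- The fields of block K: `k ≤ K ≤ K'`, `K' / k` abelian, `[K : k]` prime to `p`, `K'` contains the `2p`-th roots of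
unity, the fields `K B_n` do not contain the `p`-th roots of unity. -/
structure SetC (p l : ℕ) (k K K' : IntermediateField ℚ ℂ) (B : ℕ → IntermediateField ℚ ℂ) :
    Prop where
  bas : BasC l k K' B
  hk : k ≤ K
  le : K ≤ K'
  cop : ¬ p ∣ Module.finrank k (IntermediateField.extendScalars hk)
  ze : ∃ ζ ∈ K', IsPrimitiveRoot ζ (2 * p)
  om : ∀ n, ∀ z ∈ K ⊔ B n, ¬ IsPrimitiveRoot z p

/-! ## The statements -/

/-- SUBC: subfields.
PROOF. `K' / k` Galois abelian, `k ≤ K ≤ K'`: `K / k` is Galois (every subgroup of an abelian group is normal; `IsGalois.of_fixedField_normal_subgroup` or `normal_iff_isGalois`-type lemma) and every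
automorphism of `K / k` is the restriction of one of `K' / k`, so `Gal(K/k)` is abelian. `extEquiv`, `isGalois_algC` of RI pass between `K` and `extendScalars`. -/
def S_SUBC : Prop := ∀ (l : ℕ) (k K K' : IntermediateField ℚ ℂ) (B : ℕ → IntermediateField ℚ ℂ)
    [FiniteDimensional ℚ K'], BasC l k K' B → k ≤ K → K ≤ K' → BasC l k K B

/-- GALC: `K B_n / k` is Galois with abelian group.
PROOF. `Pool/Agent/MUX/K_GALX.lean` with `BasX` replaced by `BasC` (it uses only `hk`, `gal`, `ab`, `lay`). -/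
def S_GALC : Prop := ∀ (l : ℕ) [Fact l.Prime] (k K : IntermediateField ℚ ℂ)
    (B : ℕ → IntermediateField ℚ ℂ)
    [FiniteDimensional ℚ K] [∀ n, FiniteDimensional ℚ ↥(K ⊔ B n)], BasC l k K B →
    ∀ (n : ℕ) (h : k ≤ K ⊔ B n), letI := algC h
    IsGalois k ↥(K ⊔ B n) ∧ ∀ σ τ : ↥(K ⊔ B n) ≃ₐ[k] ↥(K ⊔ B n), σ * τ = τ * σ

/-- RAMC: `K B_n / k` is unramified outside a finite set independent of `n`.
PROOF. `Pool/Agent/MUX/K_RAMX.lean` with `BasX` replaced by `BasC` (it uses only `hk`, `lay`) and one more prime `p` put into `S'`. -/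
def S_RAMC : Prop := ∀ (p l : ℕ) [Fact p.Prime] [Fact l.Prime] (k K : IntermediateField ℚ ℂ)
    (B : ℕ → IntermediateField ℚ ℂ)
    [FiniteDimensional ℚ k] [FiniteDimensional ℚ K] [∀ n, FiniteDimensional ℚ ↥(K ⊔ B n)],
    BasC l k K B → ∃ S' : Finset ℕ, 2 ∈ S' ∧ p ∈ S' ∧ (∀ ℓ ∈ S', ℓ.Prime) ∧
    ∀ S : Finset ℕ, S' ⊆ S → ∀ (n : ℕ) (h : k ≤ K ⊔ B n), letI := algC h
    ∀ v : HeightOneSpectrum (𝓞 ↥(K ⊔ B n)), ¬ Above S v → v.asIdeal.ramificationIdx (𝓞 k) = 1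

/-- CYC2: a generator of `Gal(K B_(n+1) / K)`.
PROOF. `M = K B_(n+1)`, `H` = the automorphisms of `M / k` trivial on `K` = `Gal(M/K)`. Restriction to `B_(n+1)` (normal over `ℚ`, `LAY_thm`) is injective on `H` (trivial on `K` and `B_(n+1)` implies trivial), with values in `Gal(B_(n+1)/ℚ)`, cyclic
(`t_LAYC`) of order `l^(n+1)`. So `H` is cyclic (see `GenX.overK` in `Pool/Agent/MUX/K_GENX.lean`, `CDL.cyclic`) of order `l^e = [M : K]`, and `l^(n+1) = [B_(n+1) : ℚ] ≤ [M : ℚ] = l^e [K : ℚ]` (`LAY_thm`, `IsLayer`). `σ` = a generator. Let `e = e' + 1`, `τ = σ^(l^e')`, of order `l`. `τ` is not trivial on `M`, trivial on `K`,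
so not trivial on `B_(n+1)`; its restriction has order `l`, and `Gal(B_(n+1)/B_n)` is the subgroup of order `l` of the cyclic group `Gal(B_(n+1)/ℚ)`, the only one, so it contains the restriction of `τ`: `τ` is trivial on `B_n`. -/
def S_CYC2 : Prop := ∀ (l : ℕ) [Fact l.Prime] (k K : IntermediateField ℚ ℂ)
    (B : ℕ → IntermediateField ℚ ℂ)
    [FiniteDimensional ℚ K] [∀ n, FiniteDimensional ℚ ↥(K ⊔ B n)], BasC l k K B →
    ∀ (n : ℕ) (h : k ≤ K ⊔ B (n + 1)), letI := algC h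
    ∃ (e : ℕ) (σ : ↥(K ⊔ B (n + 1)) ≃ₐ[k] ↥(K ⊔ B (n + 1))), orderOf σ = l ^ e ∧
      l ^ (n + 1) ≤ l ^ e * Module.finrank ℚ K ∧
      (∀ x : ↥(K ⊔ B (n + 1)), (x : ℂ) ∈ K → σ x = x) ∧
      ∀ e' : ℕ, e = e' + 1 →
        (∀ x : ↥(K ⊔ B (n + 1)), (x : ℂ) ∈ B n → (σ ^ (l ^ e')) x = x) ∧
        ∃ x : ↥(K ⊔ B (n + 1)), (x : ℂ) ∈ B (n + 1) ∧ (σ ^ (l ^ e')) x ≠ x

/-- PRM2: a bounded power of the automorphisms of `l`-power order fixes all primes above `S`.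
Uses S_PRB (MU3, `StGl.lean`). PROOF. `t_M0X` in `Pool/Agent/MUX/K_M0X.lean`, with the lemma `K_M0X.aux` (there the generator is used only to see that `γ` has `l`-power order, which is a hypothesis here). -/
def S_PRM2 : Prop := ∀ (l : ℕ) [Fact l.Prime] (k K : IntermediateField ℚ ℂ)
    (B : ℕ → IntermediateField ℚ ℂ)
    [FiniteDimensional ℚ K] [∀ n, FiniteDimensional ℚ ↥(K ⊔ B n)], BasC l k K B →
    ∀ S : Finset ℕ, (∀ ℓ ∈ S, ℓ.Prime) → ∃ m₀ : ℕ, ∀ (n : ℕ) (h : k ≤ K ⊔ B n), letI := algC h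
    ∀ (γ : ↥(K ⊔ B n) ≃ₐ[k] ↥(K ⊔ B n)) (e : ℕ), γ ^ (l ^ e) = 1 →
    ∀ v : HeightOneSpectrum (𝓞 ↥(K ⊔ B n)), Above S v → γ ^ (l ^ m₀) • v.asIdeal = v.asIdeal

/-- LFT2: the automorphisms `g'`, `g`, `g₁` of `S_K1` for large `n`.
Uses S_SUBC, S_GALC, S_CYC2, S_PRM2. PROOF. `M = K' B_(n+1)`, `L = K B_(n+1)`, `F₁ = K B_n`. `σ`, `e` from CYC2 for `K'`, `m₀` from PRM2 for `K'`, `S`. For `n` large `e ≥ m₀ + 1` and `l^e ≥ C` (`l^e ≥ l^(n+1)/[K' : ℚ]`); `e = e' + 1`, `g' = σ^(l^e') = (σ^(l^m₀))^(l^(e' - m₀))` fixes all primes above `S`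
and is trivial on `K'`. `L / k` is normal (GALC for `K`, SUBC): `s` = the restriction of `σ` to `L`, `g = s^(l^e')` = the restriction of `g'`. `g` is trivial on `K` and on `B_n`, so on `F₁` (the fixed field of `g` contains both), and not on `B_(n+1) ≤ L`: `g₁` = `g` as an automorphism over `F₁`. `Gal(L/F₁)` restricts injectively to
`B_(n+1)`, trivial on `B_n`: its order divides `[B_(n+1) : B_n] = l`, so it is generated by `g₁ ≠ 1`. If `χ g ≠ 1` then `(χ s)^(l^e') ≠ 1`, `(χ s)^(l^e) = 1`: `orderOf (χ s) = l^e ≥ C` (`orderOf_eq_prime_pow`). -/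
def S_LFT2 : Prop := ∀ (l : ℕ) [Fact l.Prime] (k K K' : IntermediateField ℚ ℂ)
    (B : ℕ → IntermediateField ℚ ℂ)
    [FiniteDimensional ℚ k] [FiniteDimensional ℚ K] [FiniteDimensional ℚ K']
    [∀ n, FiniteDimensional ℚ ↥(K ⊔ B n)] [∀ n, FiniteDimensional ℚ ↥(K' ⊔ B n)],
    BasC l k K' B → k ≤ K → K ≤ K' →
    ∀ (S : Finset ℕ), (∀ ℓ ∈ S, ℓ.Prime) → ∀ C : ℕ, ∃ n₀ : ℕ, ∀ n, n₀ ≤ n →
    ∀ (h : k ≤ K ⊔ B (n + 1)) (h' : k ≤ K' ⊔ B (n + 1)) (hh : K ⊔ B (n + 1) ≤ K' ⊔ B (n + 1))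
      (hF : K ⊔ B n ≤ K ⊔ B (n + 1)),
    letI := algC h
    letI := algC h'
    letI := algC hh
    letI := algC hF
    ∃ (g' : ↥(K' ⊔ B (n + 1)) ≃ₐ[k] ↥(K' ⊔ B (n + 1)))
      (g : ↥(K ⊔ B (n + 1)) ≃ₐ[k] ↥(K ⊔ B (n + 1)))
      (g₁ : ↥(K ⊔ B (n + 1)) ≃ₐ[↥(K ⊔ B n)] ↥(K ⊔ B (n + 1))),
      (∀ x : ↥(K' ⊔ B (n + 1)), (x : ℂ) ∈ K' → g' x = x) ∧
      (∀ v : HeightOneSpectrum (𝓞 ↥(K' ⊔ B (n + 1))), Above S v → g' • v.asIdeal = v.asIdeal) ∧
      (∀ x : ↥(K ⊔ B (n + 1)), algebraMap ↥(K ⊔ B (n + 1)) ↥(K' ⊔ B (n + 1)) (g x) =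
        g' (algebraMap ↥(K ⊔ B (n + 1)) ↥(K' ⊔ B (n + 1)) x)) ∧
      (∀ x, g₁ x = g x) ∧ (∀ τ : ↥(K ⊔ B (n + 1)) ≃ₐ[↥(K ⊔ B n)] ↥(K ⊔ B (n + 1)),
        τ ∈ Subgroup.zpowers g₁) ∧
      ∀ (F : Type) [Field F] (χ : (↥(K ⊔ B (n + 1)) ≃ₐ[k] ↥(K ⊔ B (n + 1))) →* Fˣ), χ g ≠ 1 →
        ∃ s : ↥(K ⊔ B (n + 1)) ≃ₐ[k] ↥(K ⊔ B (n + 1)), C ≤ orderOf (χ s)

/-- DEG2: degrees.
PROOF. (1) `K' B = (K B) K'`, `[E K' : ℚ] ≤ [E : ℚ] [K' : ℚ]` (`IntermediateField.finrank_sup_le`) with `E = K B`, and `[E K' : ℚ] = [E K' : E] [E : ℚ]`; `finrank_algC`. (2) `[K B_n : k] = [K B_n : K] [K : k]`, and `[K B_n : K]` divides `[B_n : ℚ] = l^n` (`BCH_thm.1` with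
`A = ⊥`, `C = B n`, `E = K`; or the Galois group embeds), `p ≠ l`. (3) `[K B_(n+1) : k] = [K B_(n+1) : K B_n] [K B_n : k]`, and (2). -/
def S_DEG2 : Prop := ∀ (p l : ℕ) [Fact p.Prime] [Fact l.Prime], p ≠ l →
    ∀ (k K K' : IntermediateField ℚ ℂ) (B : ℕ → IntermediateField ℚ ℂ)
    [FiniteDimensional ℚ k] [FiniteDimensional ℚ K] [FiniteDimensional ℚ K']
    [∀ n, FiniteDimensional ℚ ↥(K ⊔ B n)] [∀ n, FiniteDimensional ℚ ↥(K' ⊔ B n)],
    (∀ n, IsLayer l n (B n)) → Monotone B → ∀ hk : k ≤ K, K ≤ K' →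
    ¬ p ∣ Module.finrank k (IntermediateField.extendScalars hk) →
    (∀ (n : ℕ) (hh : K ⊔ B n ≤ K' ⊔ B n), letI := algC hh
      Module.finrank ↥(K ⊔ B n) ↥(K' ⊔ B n) ≤ Module.finrank ℚ K') ∧
    (∀ (n : ℕ) (h : k ≤ K ⊔ B n), letI := algC h
      ¬ p ∣ Module.finrank k ↥(K ⊔ B n)) ∧
    ∀ (n : ℕ) (hF : K ⊔ B n ≤ K ⊔ B (n + 1)), letI := algC hF
      ¬ p ∣ Module.finrank ↥(K ⊔ B n) ↥(K ⊔ B (n + 1))

/-- NRM2: the norm as a product over `NC h' L`.
PROOF. `Algebra.norm_eq_prod_automorphisms`: `norm c = ∏_(σ : M ≃ₐ[L] M) σ c` in `M`; `M ≃ₐ[L] M` and `NC h' L` (automorphisms over `k` trivial on the elements of `L`) correspond to each other (`finprod_eq_prod_of_fintype`, `Equiv`); see `Pool/Agent/MUX/K_KOLX.lean`. -/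
def S_NRM2 : Prop := ∀ (k L M : IntermediateField ℚ ℂ) [FiniteDimensional ℚ M] (_hkL : k ≤ L)
    (h' : k ≤ M) (hh : L ≤ M),
    letI := algC h'
    letI := algC hh
    IsGalois L M → ∀ c : M, ((Algebra.norm L c : L) : ℂ) =
      ∏ᶠ g : NC h' L, (((g : M ≃ₐ[k] M) c : M) : ℂ)

/-- DSC2: descent of the equality of class numbers to subfields.
Uses BASE (`BASE_thm CL_thm` of RI). PROOF. `N₀ ≤ N₁`, `N₁ / k` abelian of degree prime to `p`. BASE for `N₁ / N₀`: `RelTriv N₀ N₁ p`. By BASE for `L / (L ⊓ N₀)` it is enough to show `RelTriv (L ⊓ N₀) L p` (both extensions are Galois of degree prime to `p`: subextensions and quotients of an abelian extension). Let `c : J L`,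
`∏_(σ ∈ Gal(L / L ⊓ N₀)) σ • c = 1`. `b = ext L N₁ c`. The restriction `Gal(N₁/N₀) → Gal(L / L ⊓ N₀)` is surjective (the fixed field of its image is `L ⊓ N₀`), all fibres have the same number `r` of elements, so `∏_(τ ∈ Gal(N₁/N₀)) τ • b = ext (∏_τ τ|L • c) = ext ((∏_σ σ • c)^r) = 1` (`EXTACT_thm`). So `b^m = prin x`, `m` prime to
`p`. Apply `CL.nm L N₁` (the product over `Gal(N₁/L)`): `nm (b^m) = ext (c)^(m d)`, `d = [N₁ : L]` (`CL.nm_ext`), `nm (prin x) = ext (prin (norm x))` (`CL.nm_prin`), and `ext` is injective (`ext_injective`): `c^(m d) = prin (norm x)`. -/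
def S_DSC2 : Prop := ∀ (p : ℕ) [Fact p.Prime] (k N₀ N₁ : IntermediateField ℚ ℂ)
    [FiniteDimensional ℚ N₁] (h₀ : k ≤ N₀) (h₁ : N₀ ≤ N₁),
    (letI := algC (h₀.trans h₁)
    IsGalois k N₁ ∧ (∀ σ τ : N₁ ≃ₐ[k] N₁, σ * τ = τ * σ) ∧ ¬ p ∣ Module.finrank k N₁) →
    padicValNat p (classNo N₁) = padicValNat p (classNo N₀) →
    ∀ L : IntermediateField ℚ ℂ, k ≤ L → L ≤ N₁ →
      padicValNat p (classNo L) = padicValNat p (classNo (L ⊓ N₀))

/-- K2: the result of the block for subfields of `ℂ`.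
Uses S_K1, S_PWL1, S_SUBC, S_GALC, S_RAMC, S_LFT2, S_DEG2, S_NRM2, S_DSC2 (assembly, helper96). -/
def S_K2 : Prop := ∀ (p l : ℕ) [Fact p.Prime] [Fact l.Prime], p ≠ l →
    ∀ (F : Type) [Field F] [CharP F p] [IsAlgClosed F]
    (k K K' : IntermediateField ℚ ℂ) (B : ℕ → IntermediateField ℚ ℂ)
    [FiniteDimensional ℚ k] [FiniteDimensional ℚ K] [FiniteDimensional ℚ K']
    [∀ n, FiniteDimensional ℚ ↥(K ⊔ B n)] [∀ n, FiniteDimensional ℚ ↥(K' ⊔ B n)],
    SetC p l k K K' B →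
    ∃ S' : Finset ℕ, 2 ∈ S' ∧ p ∈ S' ∧ (∀ ℓ ∈ S', ℓ.Prime) ∧
    ∀ S : Finset ℕ, S' ⊆ S → (∀ ℓ ∈ S, ℓ.Prime) → ∃ n₀ : ℕ, ∀ n, n₀ ≤ n →
    ∀ (h : k ≤ K ⊔ B (n + 1)) (h' : k ≤ K' ⊔ B (n + 1)),
    letI := algC h
    letI := algC h'
    ∀ (c : ↥(K' ⊔ B (n + 1))) (c₀ : ↥(K ⊔ B (n + 1))), c ≠ 0 → SU S ↥(K' ⊔ B (n + 1)) c →
    KolInP p k ↥(K' ⊔ B (n + 1)) {g | ∀ x : ↥(K' ⊔ B (n + 1)), (x : ℂ) ∈ K' → g x = x} S c →
    (c₀ : ℂ) = ∏ᶠ g : NC h' (K ⊔ B (n + 1)),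
      (((g : ↥(K' ⊔ B (n + 1)) ≃ₐ[k] ↥(K' ⊔ B (n + 1))) c : ↥(K' ⊔ B (n + 1))) : ℂ) →
    (∀ χ : (↥(K ⊔ B (n + 1)) ≃ₐ[k] ↥(K ⊔ B (n + 1))) →* Fˣ,
      (∃ g : ↥(K ⊔ B (n + 1)) ≃ₐ[k] ↥(K ⊔ B (n + 1)),
        (∀ x : ↥(K ⊔ B (n + 1)), (x : ℂ) ∈ K ⊔ B n → g x = x) ∧ χ g ≠ 1) →
      ∃ θ : F →+ ZMod p, ∀ y : ↥(K ⊔ B (n + 1)), y ^ p ≠ sE p χ θ c₀) →
    ∀ L : IntermediateField ℚ ℂ, k ≤ L → L ≤ K ⊔ B (n + 1) →
      padicValNat p (classNo L) = padicValNat p (classNo (L ⊓ (K ⊔ B n)))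

end Pool.Agent.TWK


end

section

/-!
# TWK, module TRV1: enough eigenfunctionals
-/

set_option autoImplicit false

open NumberField IsDedekindDomain Finset
open scoped nonZeroDivisors Pointwise

namespace Pool.Agent.TWK

open Pool.Agent.MU3 Pool.Agent.RI Pool.Agent.MUXK

/-- Module TRV1. -/
theorem t_TRV1 (h1 : S_EIGX) : S_TRV1 := by
  intro p _ F _ _ _ k L _ _ _ _ _ _ hcomm hdiv g hyp x
  have hp : p.Prime := Fact.out
  -- the subgroup of the `p`-th powers times the principal ideals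
  let P : Subgroup (J L) := (powMonoidHom p : J L →* J L).range ⊔ (prin : Lˣ →* J L).range
  have hmem : ∀ v : J L, v ∈ P ↔ ∃ (y : J L) (z : Lˣ), v = y ^ p * prin z := by
    intro v
    constructor
    · intro hv
      obtain ⟨a, ⟨y, rfl⟩, b, ⟨z, rfl⟩, hab⟩ := Subgroup.mem_sup.1 hv
      exact ⟨y, z, by rw [← hab]; rfl⟩
    · rintro ⟨y, z, rfl⟩
      exact Subgroup.mul_mem_sup ⟨y, rfl⟩ ⟨z, rfl⟩
  have hstab : ∀ σ : L ≃ₐ[k] L, ∀ v ∈ P, σ • v ∈ P := by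
    intro σ v hv
    obtain ⟨y, z, rfl⟩ := (hmem v).1 hv
    rw [smul_mul', smul_pow', smul_prin]
    exact (hmem _).2 ⟨σ • y, _, rfl⟩
  have hpow : ∀ v : J L, v ^ p ∈ P := fun v =>
    (hmem _).2 ⟨v, 1, by rw [map_one, mul_one]⟩
  by_contra hcon
  have hv : (g • x) * x⁻¹ ∉ P := fun h => hcon ((hmem _).1 h)
  have hcard : (Nat.card (⊤ : Subgroup (L ≃ₐ[k] L))).Coprime p := by
    rw [Subgroup.card_top, IsGalois.card_aut_eq_finrank]
    exact ((Nat.Prime.coprime_iff_not_dvd hp).2 hdiv).symm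
  obtain ⟨χ, f, hadd, hP, heig, hne⟩ := h1 p F (L ≃ₐ[k] L) (J L) ⊤
    (fun a _ b _ => hcomm a b) hcard P hstab hpow _ hv
  let ψ : (L ≃ₐ[k] L) →* Fˣ := χ.comp (Subgroup.topEquiv.symm.toMonoidHom)
  have hEig : Eig ψ f := by
    refine ⟨hadd, ?_, ?_⟩
    · intro v hv'
      exact hP v (Subgroup.mem_sup_right hv')
    · intro δ v
      exact heig ⟨δ, Subgroup.mem_top δ⟩ v
  have hone : f 1 = 0 := hP 1 P.one_mem
  have hinv : f x⁻¹ = - f x := by
    have h2 := hadd x x⁻¹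
    rw [mul_inv_cancel, hone] at h2
    exact (neg_eq_of_add_eq_zero_right h2.symm).symm
  have hval : f ((g • x) * x⁻¹) = ((ψ g : F) - 1) * f x := by
    rw [hadd, hinv, hEig.eig]
    ring
  by_cases hg : ψ g = 1
  · apply hne
    rw [hval, hg]
    simp
  · apply hne
    rw [hval, hyp ψ f hEig hg x, mul_zero]

end Pool.Agent.TWK


end

section

/-!
# TWK, module DEG2: degrees of the compositum fields
-/

set_option autoImplicit false

open NumberField IsDedekindDomain Finset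
open scoped nonZeroDivisors Pointwise

namespace Pool.Agent.TWK

open Pool.Agent.MU3 Pool.Agent.RI Pool.Agent.RID Pool.Agent.MUXK

namespace DEG2x

/-- Degrees in towers of subfields of `ℂ`. -/
lemma mul3 {E F K : IntermediateField ℚ ℂ} (h : E ≤ F) (h' : F ≤ K) :
    (letI := algC h; Module.finrank E F) * (letI := algC h'; Module.finrank F K) =
      (letI := algC (h.trans h'); Module.finrank E K) := by
  letI := algC h
  letI := algC h'
  letI := algC (h.trans h')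
  haveI : IsScalarTower E F K := towerC h h'
  exact Module.finrank_mul_finrank E F K

/-- Degrees over `ℚ`. -/
lemma mulQ {F K : IntermediateField ℚ ℂ} (h : F ≤ K) :
    Module.finrank ℚ F * (letI := algC h; Module.finrank F K) = Module.finrank ℚ K := by
  letI := algC h
  haveI : IsScalarTower ℚ F K := IsScalarTower.of_algebraMap_eq (fun _ => rfl)
  exact Module.finrank_mul_finrank ℚ F K

/-- The degree of `K B / K` divides `l ^ n`. -/
lemma base {l n : ℕ} [Fact l.Prime] (K B : IntermediateField ℚ ℂ) [FiniteDimensional ℚ K]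
    (hB : IsLayer l n B) :
    (letI := algC (le_sup_left : K ≤ K ⊔ B); Module.finrank K ↥(K ⊔ B)) ∣ l ^ n := by
  obtain ⟨hfB, hGB, -⟩ := LAY_thm l n B hB
  have hdeg := hB.1
  have hbot : IsGalois ↥(⊥ : IntermediateField ℚ ℂ)
      (IntermediateField.extendScalars (bot_le : (⊥ : IntermediateField ℚ ℂ) ≤ B)) := by
    let e : B ≃ₐ[ℚ] (IntermediateField.extendScalars
        (bot_le : (⊥ : IntermediateField ℚ ℂ) ≤ B)) :=
      { toFun := fun x => ⟨x.1, x.2⟩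
        invFun := fun x => ⟨x.1, x.2⟩
        left_inv := fun _ => rfl
        right_inv := fun _ => rfl
        map_mul' := fun _ _ => rfl
        map_add' := fun _ _ => rfl
        commutes' := fun _ => rfl }
    have : IsGalois ℚ (IntermediateField.extendScalars
        (bot_le : (⊥ : IntermediateField ℚ ℂ) ≤ B)) := IsGalois.of_algEquiv e
    exact IsGalois.tower_top_of_isGalois ℚ _ _
  have hbd : Module.finrank ↥(⊥ : IntermediateField ℚ ℂ)
      (IntermediateField.extendScalars (bot_le : (⊥ : IntermediateField ℚ ℂ) ≤ B)) = l ^ n := by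
    rw [← hdeg]
    let e : B ≃ₗ[ℚ] (IntermediateField.extendScalars
        (bot_le : (⊥ : IntermediateField ℚ ℂ) ≤ B)) :=
      { toFun := fun x => ⟨x.1, x.2⟩
        invFun := fun x => ⟨x.1, x.2⟩
        left_inv := fun _ => rfl
        right_inv := fun _ => rfl
        map_add' := fun _ _ => rfl
        map_smul' := fun _ _ => rfl }
    rw [e.finrank_eq, ← Module.finrank_mul_finrank ℚ ↥(⊥ : IntermediateField ℚ ℂ)
      (IntermediateField.extendScalars (bot_le : (⊥ : IntermediateField ℚ ℂ) ≤ B)),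
      IntermediateField.finrank_bot, one_mul]
  have h1 := BCH_thm.1 ⊥ B K K (K ⊔ B) bot_le le_sup_left (bot_sup_eq K).symm (sup_comm K B) hbot
  rw [hbd] at h1
  rw [finrank_algC]
  exact h1.2

end DEG2x

theorem t_DEG2 : S_DEG2 := by
  intro p l hp hl hpl k K K' B _ _ _ _ _ hlay _ hk hKK' hcop
  have h2 : ∀ (n : ℕ) (h : k ≤ K ⊔ B n), ¬ p ∣ (letI := algC h; Module.finrank k ↥(K ⊔ B n)) := by
    intro n h hd
    rw [← DEG2x.mul3 hk (le_sup_left : K ≤ K ⊔ B n)] at hd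
    rcases (Nat.Prime.dvd_mul hp.out).1 hd with h1 | h1
    · apply hcop
      rwa [finrank_algC] at h1
    · have h3 := h1.trans (DEG2x.base K (B n) (hlay n))
      exact hpl ((Nat.prime_dvd_prime_iff_eq hp.out hl.out).1 (hp.out.dvd_of_dvd_pow h3))
  refine ⟨?_, h2, ?_⟩
  · intro n hh
    change (letI := algC hh; Module.finrank ↥(K ⊔ B n) ↥(K' ⊔ B n)) ≤ Module.finrank ℚ K'
    have h1 := DEG2x.mulQ hh
    have h3 : K' ⊔ B n = (K ⊔ B n) ⊔ K' := by
      rw [sup_right_comm, sup_eq_right.2 hKK']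
    have h4 : Module.finrank ℚ ↥(K' ⊔ B n) ≤ Module.finrank ℚ ↥(K ⊔ B n) * Module.finrank ℚ K' := by
      rw [h3]
      exact IntermediateField.finrank_sup_le (K ⊔ B n) K'
    rw [← h1] at h4
    exact Nat.le_of_mul_le_mul_left h4 Module.finrank_pos
  · intro n hF hd
    have hk' : k ≤ K ⊔ B n := hk.trans le_sup_left
    apply h2 (n + 1) (hk'.trans hF)
    rw [← DEG2x.mul3 hk' hF]
    exact dvd_mul_of_dvd_right hd _

end Pool.Agent.TWK


end

section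

/-!
# GALC: `K B_n / k` is Galois with abelian group

The proof of `MUX/K_GALX.lean` with `BasX` replaced by `BasC`.
-/

open NumberField IsDedekindDomain Finset
open scoped nonZeroDivisors Pointwise

namespace Pool.Agent.TWK

open Pool.Agent.MU3 Pool.Agent.RI Pool.Agent.RID Pool.Agent.MUXK
open Pool.Agent.MU3.P_GALK

theorem t_GALC : S_GALC := by
  intro p _ k K B fdK fdKB hB n h
  letI aL : Algebra k ↥(K ⊔ B n) := algC h
  obtain ⟨fdB, hGB, -⟩ := LAY_thm p n (B n) (hB.lay n)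
  have hcyc : IsCyclic (B n ≃ₐ[ℚ] B n) := t_LAYC p n (B n) (hB.lay n)
  have fdk : FiniteDimensional ℚ k := FiniteDimensional.of_injective
    (IntermediateField.inclusion hB.hk).toLinearMap
    (IntermediateField.inclusion hB.hk).toRingHom.injective
  refine ⟨?_, ?_⟩
  · have h1 := BCH_thm.1 ⊥ (B n) k k (k ⊔ B n) bot_le le_sup_left (bot_sup_eq k).symm
      (sup_comm k (B n)) (bot_gal hGB)
    have hfM : FiniteDimensional ℚ ↥(k ⊔ B n) := IntermediateField.finiteDimensional_sup k (B n)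
    have h2 := BCH_thm.2 k K (k ⊔ B n) hB.hk le_sup_left (hB.hk.trans le_sup_left) hB.gal h1.1
    have e : K ⊔ (k ⊔ B n) = K ⊔ B n := by
      rw [← sup_assoc, sup_eq_left.2 hB.hk]
    exact (isGalois_algC h).2 (transp e _ h h2)
  · intro σ τ
    refine comm_of h σ τ ?_ ?_
    · intro x hx
      letI aK : Algebra k K := algC hB.hk
      letI aKL : Algebra K ↥(K ⊔ B n) := algC le_sup_left
      haveI : IsScalarTower k K ↥(K ⊔ B n) := towerC hB.hk le_sup_left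
      haveI : IsGalois k K := (isGalois_algC hB.hk).2 hB.gal
      have hab : ∀ a b : K ≃ₐ[k] K, a * b = b * a := by
        intro a b
        have h1 := hB.ab ((extEquiv hB.hk).symm.autCongr a) ((extEquiv hB.hk).symm.autCongr b)
        rw [← map_mul, ← map_mul] at h1
        exact (extEquiv hB.hk).symm.autCongr.injective h1
      exact comm_on hab σ τ (⟨(x : ℂ), hx⟩ : K)
    · intro x hx
      letI aBL : Algebra (B n) ↥(K ⊔ B n) := algC le_sup_right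
      haveI : IsScalarTower ℚ (B n) ↥(K ⊔ B n) := IsScalarTower.of_algebraMap_eq (fun _ => rfl)
      haveI : IsScalarTower ℚ k ↥(K ⊔ B n) := IsScalarTower.of_algebraMap_eq (fun _ => rfl)
      have hab : ∀ a b : B n ≃ₐ[ℚ] B n, a * b = b * a := by
        intro a b
        obtain ⟨g, hg⟩ := hcyc.exists_generator
        obtain ⟨i, rfl⟩ := hg a
        obtain ⟨j, rfl⟩ := hg b
        exact zpow_mul_comm g i j
      exact comm_on hab (σ.restrictScalars ℚ) (τ.restrictScalars ℚ) (⟨(x : ℂ), hx⟩ : B n)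

end Pool.Agent.TWK


end

section

/-!
# TWK_LFT2: the automorphisms `g'`, `g`, `g₁` for large `n` (helper85)
-/

open NumberField IsDedekindDomain Finset
open scoped nonZeroDivisors Pointwise

namespace Pool.Agent.TWK

open Pool.Agent.MU3 Pool.Agent.RI Pool.Agent.RID Pool.Agent.MUXK

namespace LFT2x

/-- The elements of `L` fixed by `φ`, as a subfield of `ℂ`. -/
def fixT (L : IntermediateField ℚ ℂ) (φ : L →+* L) : IntermediateField ℚ ℂ where
  carrier := {z | ∃ hz : z ∈ L, φ ⟨z, hz⟩ = ⟨z, hz⟩}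
  mul_mem' := by
    rintro a b ⟨ha, ha'⟩ ⟨hb, hb'⟩
    refine ⟨mul_mem ha hb, ?_⟩
    have e : (⟨a * b, mul_mem ha hb⟩ : L) = ⟨a, ha⟩ * ⟨b, hb⟩ := rfl
    rw [e, map_mul, ha', hb']
  add_mem' := by
    rintro a b ⟨ha, ha'⟩ ⟨hb, hb'⟩
    refine ⟨add_mem ha hb, ?_⟩
    have e : (⟨a + b, add_mem ha hb⟩ : L) = ⟨a, ha⟩ + ⟨b, hb⟩ := rfl
    rw [e, map_add, ha', hb']
  algebraMap_mem' := by
    intro r
    refine ⟨algebraMap_mem _ r, ?_⟩
    have e : (⟨algebraMap ℚ ℂ r, algebraMap_mem _ r⟩ : L) = (r : L) := by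
      apply Subtype.ext
      simp
    rw [e, map_ratCast]
  inv_mem' := by
    rintro a ⟨ha, ha'⟩
    refine ⟨inv_mem ha, ?_⟩
    have e : (⟨a⁻¹, inv_mem ha⟩ : L) = (⟨a, ha⟩)⁻¹ := rfl
    rw [e, map_inv₀, ha']

/-- Fixed on `X` and on `Y` implies fixed on `X ⊔ Y`. -/
lemma fix_sup {L X Y : IntermediateField ℚ ℂ} (hXL : X ≤ L) (hYL : Y ≤ L) (φ : L →+* L)
    (hX : ∀ x : L, (x : ℂ) ∈ X → φ x = x) (hY : ∀ x : L, (x : ℂ) ∈ Y → φ x = x) :
    ∀ x : L, (x : ℂ) ∈ X ⊔ Y → φ x = x := by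
  have hT : X ⊔ Y ≤ fixT L φ :=
    sup_le (fun a ha => ⟨hXL ha, hX _ ha⟩) (fun b hb => ⟨hYL hb, hY _ hb⟩)
  intro x hx
  exact (hT hx).2

/-- A group which embeds into a group of prime order is generated by any element `≠ 1`. -/
lemma gen_of_prime {G H : Type} [Group G] [Group H] {l : ℕ} (hl : l.Prime)
    (hH : Nat.card H = l) (f : G →* H) (hf : Function.Injective f) (g : G) (hg : g ≠ 1) (τ : G) :
    τ ∈ Subgroup.zpowers g := by
  have : Fact l.Prime := ⟨hl⟩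
  have hd : Nat.card G ∣ l := hH ▸ Subgroup.card_dvd_of_injective f hf
  rcases (Nat.dvd_prime hl).1 hd with h | h
  · exact absurd (Nat.card_eq_one_iff_unique.1 h).1 (fun hs => hg (Subsingleton.elim g 1))
  · exact mem_zpowers_of_prime_card h hg

/-- `Gal(K B_(n+1) / K B_n)` is generated by any element `≠ 1`. -/
lemma gen_top (l : ℕ) [Fact l.Prime] (K : IntermediateField ℚ ℂ) (B : ℕ → IntermediateField ℚ ℂ)
    (hB : ∀ n, IsLayer l n (B n)) (hm : Monotone B) (n : ℕ)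
    (hF : K ⊔ B n ≤ K ⊔ B (n + 1)) :
    letI := algC hF
    ∀ g τ : ↥(K ⊔ B (n + 1)) ≃ₐ[↥(K ⊔ B n)] ↥(K ⊔ B (n + 1)), g ≠ 1 →
      τ ∈ Subgroup.zpowers g := by
  let aF : Algebra ↥(K ⊔ B n) ↥(K ⊔ B (n + 1)) := algC hF
  intro g τ hg
  have hl : l.Prime := Fact.out
  have hBB : B n ≤ B (n + 1) := hm (Nat.le_succ n)
  obtain ⟨fd1, hG1, -⟩ := LAY_thm l (n + 1) (B (n + 1)) (hB (n + 1))
  obtain ⟨fd0, hG0, -⟩ := LAY_thm l n (B n) (hB n)
  let a1 : Algebra (B n) (B (n + 1)) := algC hBB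
  let a2 : Algebra (B n) ↥(K ⊔ B n) := algC le_sup_right
  let a3 : Algebra (B n) ↥(K ⊔ B (n + 1)) := algC (le_sup_right.trans hF)
  let a4 : Algebra (B (n + 1)) ↥(K ⊔ B (n + 1)) := algC le_sup_right
  have t1 : IsScalarTower (B n) (B (n + 1)) ↥(K ⊔ B (n + 1)) := towerC hBB le_sup_right
  have t2 : IsScalarTower (B n) ↥(K ⊔ B n) ↥(K ⊔ B (n + 1)) := towerC le_sup_right hF
  have t3 : IsScalarTower ℚ (B n) (B (n + 1)) := IsScalarTower.of_algebraMap_eq (fun _ => rfl)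
  have g3 : IsGalois (B n) (B (n + 1)) := IsGalois.tower_top_of_isGalois ℚ _ _
  have f3 : FiniteDimensional (B n) (B (n + 1)) := Module.Finite.of_restrictScalars_finite ℚ _ _
  have hd : Nat.card (B (n + 1) ≃ₐ[B n] B (n + 1)) = l := by
    rw [IsGalois.card_aut_eq_finrank]
    have h1 := Module.finrank_mul_finrank ℚ (B n) (B (n + 1))
    rw [(hB n).1, (hB (n + 1)).1, pow_succ] at h1
    exact Nat.eq_of_mul_eq_mul_left (pow_pos hl.pos n) h1
  refine gen_of_prime hl hd ((AlgEquiv.restrictNormalHom (B (n + 1))).comp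
    (AlgEquiv.restrictScalarsHom (B n))) ?_ g hg τ
  rw [injective_iff_map_eq_one]
  intro a ha
  have hK : ∀ x : ↥(K ⊔ B (n + 1)), (x : ℂ) ∈ K → (a : _ →+* _) x = x := fun x hx =>
    a.commutes (⟨(x : ℂ), le_sup_left (a := K) (b := B n) hx⟩ : ↥(K ⊔ B n))
  have hB1 : ∀ x : ↥(K ⊔ B (n + 1)), (x : ℂ) ∈ B (n + 1) → (a : _ →+* _) x = x := by
    intro x hx
    have h1 := AlgEquiv.restrictNormal_commutes
      (AlgEquiv.restrictScalars (B n) a : ↥(K ⊔ B (n + 1)) ≃ₐ[B n] ↥(K ⊔ B (n + 1)))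
      (B (n + 1)) ⟨(x : ℂ), hx⟩
    have h2 : AlgEquiv.restrictNormal (AlgEquiv.restrictScalars (B n) a) (B (n + 1)) = 1 := ha
    rw [h2] at h1
    exact h1.symm
  ext x
  exact congrArg _ (fix_sup le_sup_left le_sup_right (a : _ →+* _) hK hB1 x x.2)

end LFT2x

open _root_.Pool.Agent.TWK.LFT2x in
theorem t_LFT2 (h1 : S_SUBC) (h2 : S_GALC) (h3 : S_CYC2) (h4 : S_PRM2) : S_LFT2 := by
  intro l _ k K K' B fdk fdK fdK' fdKB fdKB' hB hkK hKK' S hS C
  have hl : l.Prime := Fact.out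
  obtain ⟨m₀, hm₀⟩ := h4 l k K' B hB S hS
  have hBK : BasC l k K B := h1 l k K K' B hB hkK hKK'
  refine ⟨Module.finrank ℚ K' * (C + l ^ m₀), fun n hn h h' hh hF => ?_⟩
  let aL : Algebra k ↥(K ⊔ B (n + 1)) := algC h
  let aM : Algebra k ↥(K' ⊔ B (n + 1)) := algC h'
  let aLM : Algebra ↥(K ⊔ B (n + 1)) ↥(K' ⊔ B (n + 1)) := algC hh
  let aF : Algebra ↥(K ⊔ B n) ↥(K ⊔ B (n + 1)) := algC hF
  obtain ⟨e, σ, hσo, hσd, hσK, hσe⟩ := h3 l k K' B hB n h'
  have hbig : C + l ^ m₀ < l ^ e := by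
    have a1 : n + 1 < l ^ (n + 1) := Nat.lt_pow_self hl.one_lt
    have a2 : Module.finrank ℚ K' * (C + l ^ m₀) < Module.finrank ℚ K' * l ^ e := by
      rw [mul_comm _ (l ^ e)]
      omega
    exact lt_of_mul_lt_mul_left a2 (Nat.zero_le _)
  have hme : m₀ < e := (Nat.pow_lt_pow_iff_right hl.one_lt).1 (by omega)
  obtain ⟨e', rfl⟩ : ∃ e', e = e' + 1 := ⟨e - 1, by omega⟩
  obtain ⟨hσB, x, hx, hxne⟩ := hσe e' rfl
  have hσ1 : σ ^ (l ^ (e' + 1)) = 1 := by rw [← hσo]; exact pow_orderOf_eq_one σ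
  have gL : IsGalois k ↥(K ⊔ B (n + 1)) := (h2 l k K B hBK (n + 1) h).1
  have t0 : IsScalarTower k ↥(K ⊔ B (n + 1)) ↥(K' ⊔ B (n + 1)) := towerC h hh
  have hres : ∀ (j : ℕ) (y : ↥(K ⊔ B (n + 1))),
      algebraMap ↥(K ⊔ B (n + 1)) ↥(K' ⊔ B (n + 1))
        (((AlgEquiv.restrictNormalHom ↥(K ⊔ B (n + 1)) σ) ^ j) y) =
      (σ ^ j) (algebraMap ↥(K ⊔ B (n + 1)) ↥(K' ⊔ B (n + 1)) y) := by
    intro j y
    rw [← map_pow]
    exact AlgEquiv.restrictNormal_commutes (σ ^ j) ↥(K ⊔ B (n + 1)) y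
  have hinj : Function.Injective (algebraMap ↥(K ⊔ B (n + 1)) ↥(K' ⊔ B (n + 1))) :=
    (algebraMap ↥(K ⊔ B (n + 1)) ↥(K' ⊔ B (n + 1))).injective
  set s : ↥(K ⊔ B (n + 1)) ≃ₐ[k] ↥(K ⊔ B (n + 1)) :=
    AlgEquiv.restrictNormalHom ↥(K ⊔ B (n + 1)) σ with hs
  have hpK : ∀ (j : ℕ) (x : ↥(K' ⊔ B (n + 1))), (x : ℂ) ∈ K' → (σ ^ j) x = x := by
    intro j x hx
    induction j with
    | zero => rfl
    | succ j ih => rw [pow_succ, AlgEquiv.mul_apply, hσK x hx, ih]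
  have hgfix : ∀ y : ↥(K ⊔ B (n + 1)), (y : ℂ) ∈ K ⊔ B n → (s ^ (l ^ e')) y = y := by
    refine fix_sup le_sup_left (le_sup_right.trans hF)
      ((s ^ (l ^ e') : ↥(K ⊔ B (n + 1)) ≃ₐ[k] ↥(K ⊔ B (n + 1))) : _ →+* _) ?_ ?_
    · intro y hy
      apply hinj
      exact (hres (l ^ e') y).trans (hpK (l ^ e') _ (hKK' hy))
    · intro y hy
      apply hinj
      exact (hres (l ^ e') y).trans (hσB _ hy)
  refine ⟨σ ^ (l ^ e'), s ^ (l ^ e'), AlgEquiv.ofRingEquiv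
    (f := (s ^ (l ^ e') : ↥(K ⊔ B (n + 1)) ≃ₐ[k] ↥(K ⊔ B (n + 1))).toRingEquiv)
    (fun y => hgfix _ y.2), hpK _, ?_, hres _, fun _ => rfl, ?_, ?_⟩
  · intro v hv
    have a1 := hm₀ (n + 1) h' (σ ^ (l ^ (e' - m₀))) (e' + 1)
      (by rw [← pow_mul, mul_comm, pow_mul, hσ1, one_pow]) v hv
    rwa [← pow_mul, ← pow_add, Nat.sub_add_cancel (Nat.lt_succ_iff.1 hme)] at a1
  · intro τ
    refine gen_top l K B hB.lay hB.mono n hF _ τ ?_
    intro h5
    apply hxne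
    have h6 := hres (l ^ e') ⟨(x : ℂ), le_sup_right (a := K) (b := B (n + 1)) hx⟩
    have h7 : (s ^ (l ^ e')) (⟨(x : ℂ), le_sup_right (a := K) (b := B (n + 1)) hx⟩ :
        ↥(K ⊔ B (n + 1))) = ⟨(x : ℂ), le_sup_right (a := K) (b := B (n + 1)) hx⟩ :=
      congrArg (fun ρ : ↥(K ⊔ B (n + 1)) ≃ₐ[↥(K ⊔ B n)] ↥(K ⊔ B (n + 1)) =>
        ρ ⟨(x : ℂ), le_sup_right (a := K) (b := B (n + 1)) hx⟩) h5
    rw [h7] at h6
    exact h6.symm
  · intro F _ χ hχ
    refine ⟨s, ?_⟩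
    have : Fact l.Prime := ⟨hl⟩
    have h5 : orderOf (χ s) = l ^ (e' + 1) := by
      refine orderOf_eq_prime_pow ?_ ?_
      · rw [← map_pow]; exact hχ
      · rw [← map_pow, hs, ← map_pow, hσ1, map_one, map_one]
    rw [h5]
    omega

end Pool.Agent.TWK


end

section

/-!
# TWK, module NRM2 (helper19): the norm as a product over the automorphisms over `k` trivial on `L`
-/

set_option autoImplicit false

open NumberField IsDedekindDomain Finset
open scoped nonZeroDivisors Pointwise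

namespace Pool.Agent.TWK

open Pool.Agent.MU3 Pool.Agent.RI Pool.Agent.RID Pool.Agent.MUXK

theorem t_NRM2 : S_NRM2 := by
  intro k L M _ hkL h' hh
  let : Algebra k M := algC h'
  let : Algebra L M := algC hh
  intro galLM c
  have towerQ : IsScalarTower ℚ L M := IsScalarTower.of_algebraMap_eq (fun x => rfl)
  have fdLM : FiniteDimensional L M := FiniteDimensional.right ℚ L M
  have e1 : (((algebraMap L M (Algebra.norm L c)) : M) : ℂ) = ((Algebra.norm L c : L) : ℂ) := rfl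
  have e2 : ((∏ σ : M ≃ₐ[L] M, σ c : M) : ℂ) = ∏ σ : M ≃ₐ[L] M, ((σ c : M) : ℂ) :=
    map_prod (algebraMap M ℂ) _ _
  rw [← e1, Algebra.norm_eq_prod_automorphisms, e2, ← finprod_eq_prod_of_fintype]
  refine finprod_eq_of_bijective
    (fun σ => ⟨AlgEquiv.ofRingEquiv (f := (σ : M ≃+* M)) (fun y => ?_),
      fun x hx => σ.commutes ⟨(x : ℂ), hx⟩⟩) ⟨?_, ?_⟩ fun σ => rfl
  · exact σ.commutes ⟨(y : ℂ), hkL y.2⟩
  · intro σ τ h
    have h5 := congrArg (fun θ : NC h' L => (θ : M ≃ₐ[k] M)) h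
    ext x
    have h6 := congrArg (fun θ : M ≃ₐ[k] M => ((θ x : M) : ℂ)) h5
    exact h6
  · intro θ
    refine ⟨AlgEquiv.ofRingEquiv (f := ((θ : M ≃ₐ[k] M) : M ≃+* M)) (fun y => θ.2 _ y.2), ?_⟩
    apply Subtype.ext
    ext x
    rfl

end Pool.Agent.TWK


end

section

set_option autoImplicit false

open NumberField IsDedekindDomain Finset
open scoped nonZeroDivisors Pointwise

namespace Pool.Agent.TWK

open Pool.Agent.MU3 Pool.Agent.RI Pool.Agent.RID Pool.Agent.MUXK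

/-- Subextensions of an abelian extension of subfields of `ℂ`. -/
theorem t_SUBC : S_SUBC := by
  intro l k K K' B _ h hk hK
  have hgal : IsGalois k (IntermediateField.extendScalars h.hk) := h.gal
  haveI : IsAbelianGalois k (IntermediateField.extendScalars h.hk) :=
    { toIsGalois := hgal
      is_comm := ⟨fun σ τ => h.ab σ τ⟩ }
  have hle : IntermediateField.extendScalars hk ≤ IntermediateField.extendScalars h.hk :=
    fun x hx => hK hx
  haveI h1 : IsAbelianGalois k (IntermediateField.extendScalars hk) :=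
    IsAbelianGalois.of_algHom (IntermediateField.inclusion hle)
  exact ⟨hk, h1.toIsGalois, fun σ τ => h1.is_comm.comm σ τ, h.lay, h.mono⟩

end Pool.Agent.TWK


end

section

/-!
# TWK, third part: the unit lives in an intermediate field `D` (helper96), Theorem C of MP_b78433_nt

`k ≤ L ≤ D ≤ M`: the element `c` with the Kolyvagin input is in `D` (no `p`-th roots of unity in `D`), the `2p`-th roots of unity are in `M`.
Statements and proofs as in `StK1.lean`, `StK2.lean` (`S_KOL1`, `S_K1`, `S_K2`); the new point is `S_KNM3`. All modules: helper96.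
-/

set_option autoImplicit false

open NumberField IsDedekindDomain Finset
open scoped nonZeroDivisors Pointwise

namespace Pool.Agent.TWK

open Pool.Agent.MU3 Pool.Agent.RI Pool.Agent.RID Pool.Agent.MUXK

/-- KNM3: the norm step from `D` to `L`; the primes of degree one of `M`.
Uses S_NRJ, S_STABX. PROOF. As `S_KNM` (`Pool/Agent/MUX/K_KNM.lean`): for a good prime `lam` of `L` with a prime `w` of `M` above with `q` classes, `w_D = w ∩ 𝓞 D` has `q` classes, it is good by STABX for `D`, `M`. -/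
def S_KNM3 : Prop := ∀ (p : ℕ) [Fact p.Prime] (k L D M : Type) [Field k] [NumberField k] [Field L]
    [NumberField L] [Field D] [NumberField D] [Field M] [NumberField M] [Algebra k L]
    [Algebra L D] [Algebra k D] [Algebra D M] [Algebra L M]
    [IsScalarTower k L D] [IsScalarTower L D M] [IsGalois k L] [IsGalois k D],
    (∀ σ τ : D ≃ₐ[k] D, σ * τ = τ * σ) →
    ∀ (S : Finset ℕ) (ζ : 𝓞 M), IsPrimitiveRoot ζ (2 * p) → 2 ∈ S → p ∈ S → (∀ ℓ ∈ S, ℓ.Prime) →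
    (∀ v : HeightOneSpectrum (𝓞 D), ¬ Above S v → v.asIdeal.ramificationIdx (𝓞 k) = 1) →
    ∀ (u : (𝓞 D)ˣ) (u₀ : (𝓞 L)ˣ), ((u₀ : 𝓞 L) : L) = Algebra.norm L ((u : 𝓞 D) : D) →
    KRelP p k D S u → KRelX p k L M S u₀

/-- KOL3: the relations for `u = g ^ p c₀ / c₀`, `c₀` the norm of `c ∈ D`.
Uses S_KINX, S_KNM3. PROOF. As `KOL1`. -/
def S_KOL3 : Prop := ∀ (p : ℕ) [Fact p.Prime]
    (k L D M : Type) [Field k] [NumberField k] [Field L] [NumberField L] [Field D] [NumberField D]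
    [Field M] [NumberField M]
    [Algebra k L] [Algebra L D] [Algebra k D] [Algebra D M] [Algebra L M]
    [IsScalarTower k L D] [IsScalarTower L D M] [IsGalois k L] [IsGalois k D],
    (∀ σ τ : D ≃ₐ[k] D, σ * τ = τ * σ) →
    ∀ (S : Finset ℕ) (ζ : 𝓞 M), IsPrimitiveRoot ζ (2 * p) → 2 ∈ S → p ∈ S → (∀ ℓ ∈ S, ℓ.Prime) →
    (∀ v : HeightOneSpectrum (𝓞 D), ¬ Above S v → v.asIdeal.ramificationIdx (𝓞 k) = 1) →
    ∀ (c : D) (Gs : Set (D ≃ₐ[k] D)), c ≠ 0 → SU S D c → KolInP p k D Gs S c → ∀ g' ∈ Gs,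
    (∀ v : HeightOneSpectrum (𝓞 D), Above S v → g' • v.asIdeal = v.asIdeal) →
    ∀ g : L ≃ₐ[k] L, (∀ x : L, algebraMap L D (g x) = g' (algebraMap L D x)) →
    ∃ u : (𝓞 L)ˣ, ((u : 𝓞 L) : L) = (g ^ p) (Algebra.norm L c) / Algebra.norm L c ∧
      KRelX p k L M S u

/-- K3: the abstract result with an intermediate field.
Uses S_NRM1, S_IDX1, S_TRV1, S_CLG1, S_NPW1, S_KOL3, S_FIX1, S_NRJ. PROOF. As `K1`. -/
def S_K3 : Prop := ∀ (p : ℕ) [Fact p.Prime] (F : Type) [Field F] [CharP F p] [IsAlgClosed F]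
    (k F₁ L D M : Type) [Field k] [NumberField k] [Field F₁] [NumberField F₁] [Field L]
    [NumberField L] [Field D] [NumberField D] [Field M] [NumberField M] [Algebra k L]
    [Algebra F₁ L] [Algebra L D] [Algebra k D] [Algebra D M] [Algebra L M]
    [Algebra k M] [IsScalarTower k L D] [IsScalarTower L D M] [IsScalarTower k D M]
    [IsScalarTower k L M] [IsGalois k L] [IsGalois k D] [IsGalois k M] [IsGalois F₁ L],
    (∀ σ τ : M ≃ₐ[k] M, σ * τ = τ * σ) → ¬ p ∣ Module.finrank k L → ¬ p ∣ Module.finrank F₁ L →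
    ∀ (S : Finset ℕ) (ζ : 𝓞 M), IsPrimitiveRoot ζ (2 * p) → 2 ∈ S → p ∈ S → (∀ ℓ ∈ S, ℓ.Prime) →
    (∀ v : HeightOneSpectrum (𝓞 M), ¬ Above S v → v.asIdeal.ramificationIdx (𝓞 k) = 1) →
    ∀ (c : D) (Gs : Set (D ≃ₐ[k] D)), c ≠ 0 → SU S D c → KolInP p k D Gs S c →
    ∀ (g'' : M ≃ₐ[k] M) (g' : D ≃ₐ[k] D) (g : L ≃ₐ[k] L) (g₁ : L ≃ₐ[F₁] L), g' ∈ Gs →
    (∀ v : HeightOneSpectrum (𝓞 M), Above S v → g'' • v.asIdeal = v.asIdeal) →
    (∀ x : D, algebraMap D M (g' x) = g'' (algebraMap D M x)) →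
    (∀ x : L, algebraMap L D (g x) = g' (algebraMap L D x)) → (∀ x, g₁ x = g x) →
    (∀ h : L ≃ₐ[F₁] L, h ∈ Subgroup.zpowers g₁) →
    (∀ χ : (L ≃ₐ[k] L) →* Fˣ, χ g ≠ 1 →
      (∃ h : L ≃ₐ[k] L, Module.finrank L M ≤ orderOf (χ h)) ∧
      ∃ θ : F →+ ZMod p, ∀ y : M, y ^ p ≠ algebraMap L M (sE p χ θ (Algebra.norm L c))) →
    padicValNat p (NumberField.classNumber L) = padicValNat p (NumberField.classNumber F₁)

/-- The fields of block K with an intermediate field: `k ≤ K ≤ K'' ≤ K'`, `K' / k` abelian, `[K : k]` prime to `p`, `K'` contains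
the `2p`-th roots of unity, the fields `K B_n` do not contain the `p`-th roots of unity. -/
structure SetD (p l : ℕ) (k K K'' K' : IntermediateField ℚ ℂ) (B : ℕ → IntermediateField ℚ ℂ) :
    Prop where
  set : SetC p l k K K' B
  le1 : K ≤ K''
  le2 : K'' ≤ K'

/-- K4: the result of block K for subfields of `ℂ`, the form used by Theorem C: `c` is in `K'' B_(n+1)`.
Uses S_K3, S_PWL1, S_SUBC, S_GALC, S_RAMC, S_LFT2, S_DEG2, S_NRM2, S_DSC2. -/
def S_K4 : Prop := ∀ (p l : ℕ) [Fact p.Prime] [Fact l.Prime], p ≠ l →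
    ∀ (F : Type) [Field F] [CharP F p] [IsAlgClosed F]
    (k K K'' K' : IntermediateField ℚ ℂ) (B : ℕ → IntermediateField ℚ ℂ)
    [FiniteDimensional ℚ k] [FiniteDimensional ℚ K] [FiniteDimensional ℚ K'']
    [FiniteDimensional ℚ K'] [∀ n, FiniteDimensional ℚ ↥(K ⊔ B n)]
    [∀ n, FiniteDimensional ℚ ↥(K'' ⊔ B n)] [∀ n, FiniteDimensional ℚ ↥(K' ⊔ B n)],
    SetD p l k K K'' K' B →
    ∃ S' : Finset ℕ, 2 ∈ S' ∧ p ∈ S' ∧ (∀ ℓ ∈ S', ℓ.Prime) ∧
    ∀ S : Finset ℕ, S' ⊆ S → (∀ ℓ ∈ S, ℓ.Prime) → ∃ n₀ : ℕ, ∀ n, n₀ ≤ n →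
    ∀ (h : k ≤ K ⊔ B (n + 1)) (h' : k ≤ K'' ⊔ B (n + 1)),
    letI := algC h
    letI := algC h'
    ∀ (c : ↥(K'' ⊔ B (n + 1))) (c₀ : ↥(K ⊔ B (n + 1))), c ≠ 0 → SU S ↥(K'' ⊔ B (n + 1)) c →
    KolInP p k ↥(K'' ⊔ B (n + 1)) {g | ∀ x : ↥(K'' ⊔ B (n + 1)), (x : ℂ) ∈ K'' → g x = x} S c →
    (c₀ : ℂ) = ∏ᶠ g : NC h' (K ⊔ B (n + 1)),
      (((g : ↥(K'' ⊔ B (n + 1)) ≃ₐ[k] ↥(K'' ⊔ B (n + 1))) c : ↥(K'' ⊔ B (n + 1))) : ℂ) →
    (∀ χ : (↥(K ⊔ B (n + 1)) ≃ₐ[k] ↥(K ⊔ B (n + 1))) →* Fˣ,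
      (∃ g : ↥(K ⊔ B (n + 1)) ≃ₐ[k] ↥(K ⊔ B (n + 1)),
        (∀ x : ↥(K ⊔ B (n + 1)), (x : ℂ) ∈ K ⊔ B n → g x = x) ∧ χ g ≠ 1) →
      ∃ θ : F →+ ZMod p, ∀ y : ↥(K ⊔ B (n + 1)), y ^ p ≠ sE p χ θ c₀) →
    ∀ L : IntermediateField ℚ ℂ, k ≤ L → L ≤ K ⊔ B (n + 1) →
      padicValNat p (classNo L) = padicValNat p (classNo (L ⊓ (K ⊔ B n)))

end Pool.Agent.TWK


end

section

/-!
# TWK, last part: block K in the vocabulary of the elliptic units (helper96), Theorem C of MP_b78433_nt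

`k = kk A B` imaginary quadratic (`CQ A B`), `TorX A B` the main theorem of complex multiplication, `H = RF ⊤`. The element
`c = cW h_D θ`, `θ = Θ_a(Om/m)`, `D = K'' B_(n+1)`, `H ≤ K''`, has the Kolyvagin input (`Sy_KOL`) and is a unit outside `S`
(`Sy_SUC`); its norm to `K B_(n+1)` is `cW h θ` (`Sy_TOW`). Module K5: helper96.
-/

set_option autoImplicit false

open NumberField IsDedekindDomain Finset
open scoped nonZeroDivisors Pointwise

namespace Pool.Agent.TWK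

open _root_.MU3 Pool.Agent.MU3 Pool.Agent.MU3A Pool.Agent.MU3B Pool.Agent.RI Pool.Agent.RID
  Pool.Agent.MUX Pool.Agent.MUXK Pool.Agent.MUXW
open Pool.Agent.MU3V (Sub GD)

/-- K5: from the non-power statement for the norm of the elliptic unit to `K B_(n+1)` to the class numbers of all
`k ≤ L ≤ K B_(n+1)`; the level `m` is any number with prime factors in a fixed finite set `S₀`.
Uses S_K4, Sy_MEM, Sy_TOW, Sy_SUC, Sy_KOL. PROOF. As `Pool/Agent/MUX/Z_INW.lean`: `S = S' ∪ S₀ ∪` the primes of `n0`, `n1`, `a`. -/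
def S_K5 : Prop := ∀ (p l : ℕ) [Fact p.Prime] [Fact l.Prime], p ≠ l →
    ∀ (F : Type) [Field F] [CharP F p] [IsAlgClosed F]
    (A B : ℤ), CQ A B → TorX A B → ∀ (N₀ : ℕ) (ι : Type) [Finite ι] (R : Reps A B N₀ ι)
    (K K'' K' : IntermediateField ℚ ℂ) (Bn : ℕ → IntermediateField ℚ ℂ)
    [FiniteDimensional ℚ (kk A B)] [FiniteDimensional ℚ K] [FiniteDimensional ℚ K'']
    [FiniteDimensional ℚ K'] [∀ n, FiniteDimensional ℚ ↥(K ⊔ Bn n)]
    [∀ n, FiniteDimensional ℚ ↥(K'' ⊔ Bn n)] [∀ n, FiniteDimensional ℚ ↥(K' ⊔ Bn n)],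
    SetD p l (kk A B) K K'' K' Bn → HasH A B K'' →
    ∀ (a : ℕ) (H : Finset ℂ), a ≠ 0 → IsHalf (R.L R.i0) a H → ∀ S₀ : Finset ℕ, ∃ n₀ : ℕ,
    ∀ n, n₀ ≤ n → ∀ m : ℕ, m ≠ 0 → ¬ ((m : ℕ) : OO A B) ∣ 2 → a.Coprime m →
    (∀ q : ℕ, q.Prime → q ∣ m → q ∈ S₀) →
    Sub (K'' ⊔ Bn (n + 1)) (RF (idl (A := A) (B := B) m)) →
    ∀ θ : (RF (idl (A := A) (B := B) m) : IntermediateField (kk A B) ℂ), θ ≠ 0 →
    (θ : ℂ) = ThetaH (R.L R.i0) H (R.om R.i0 / emb ((m : ℕ) : OO A B)) →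
    ∀ (h : kk A B ≤ K ⊔ Bn (n + 1)), letI := algC h
    ∀ c₀ : ↥(K ⊔ Bn (n + 1)), (c₀ : ℂ) = cW h θ →
    (∀ χ : (↥(K ⊔ Bn (n + 1)) ≃ₐ[kk A B] ↥(K ⊔ Bn (n + 1))) →* Fˣ,
      (∃ g : ↥(K ⊔ Bn (n + 1)) ≃ₐ[kk A B] ↥(K ⊔ Bn (n + 1)),
        (∀ x : ↥(K ⊔ Bn (n + 1)), (x : ℂ) ∈ K ⊔ Bn n → g x = x) ∧ χ g ≠ 1) →
      ∃ t : F →+ ZMod p, ∀ y : ↥(K ⊔ Bn (n + 1)), y ^ p ≠ sE p χ t c₀) →
    ∀ L : IntermediateField ℚ ℂ, kk A B ≤ L → L ≤ K ⊔ Bn (n + 1) →
      padicValNat p (classNo L) = padicValNat p (classNo (L ⊓ (K ⊔ Bn n)))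

end Pool.Agent.TWK


end

section

/-!
# TWK, block K combined with the unit theorem (helper96), Theorem C of MP_b78433_nt

`UnitAt` is the conclusion of the unit theorem (`S_UNIT`, `Pool/Agent/TWT/DefsT.lean`) at one level `n`. `S_FIN1`: for large `n`, if it
holds at the levels `n, …, n + b - 1`, then `v_p h(L) = v_p h(L ∩ K B_n)` for all fields `k ≤ L ≤ K B_(n+b)`.
-/

set_option autoImplicit false

open NumberField IsDedekindDomain Finset
open scoped nonZeroDivisors Pointwise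

namespace Pool.Agent.TWK

open _root_.MU3 Pool.Agent.MU3 Pool.Agent.MU3A Pool.Agent.MU3B Pool.Agent.RI Pool.Agent.RID
  Pool.Agent.MUX Pool.Agent.MUXK Pool.Agent.MUXW Pool.Agent.MUXJ
open Pool.Agent.MU3V (Sub GD)

/-- the conclusion of the unit theorem at the level `n`: all characters of `Gal(K B_(n+1) / k)` which are not trivial on
`Gal(K B_(n+1) / K B_n)` have a part of the norm `c₀` of the elliptic unit of level `f l^(n+1+h) p` which is not a `p`-th power. -/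
def UnitAt {A B : ℤ} {N₀ : ℕ} {ι : Type} (p l h f : ℕ) (V : ValuationSubring ℂ)
    (R : Reps A B N₀ ι) (H : Finset ℂ) (K : IntermediateField ℚ ℂ)
    (Bn : ℕ → IntermediateField ℚ ℂ) [FiniteDimensional ℚ (kk A B)]
    [∀ n, FiniteDimensional ℚ ↥(K ⊔ Bn n)] (n : ℕ) : Prop :=
  ∀ (θ : (RF (idl (f * l ^ (n + 1 + h) * p)) : IntermediateField (kk A B) ℂ)),
    (θ : ℂ) = ThetaH (R.L R.i0) H (pt R (f * l ^ (n + 1 + h) * p) R.i0 1) →
    ∀ (h0 : kk A B ≤ K ⊔ Bn (n + 1)), letI := algC h0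
    ∀ (c₀ : ↥(K ⊔ Bn (n + 1))), (c₀ : ℂ) = cW h0 θ →
    ∀ χ : (↥(K ⊔ Bn (n + 1)) ≃ₐ[kk A B] ↥(K ⊔ Bn (n + 1))) →*
      (IsLocalRing.ResidueField V)ˣ,
      (∃ g : ↥(K ⊔ Bn (n + 1)) ≃ₐ[kk A B] ↥(K ⊔ Bn (n + 1)),
        (∀ x : ↥(K ⊔ Bn (n + 1)), (x : ℂ) ∈ K ⊔ Bn n → g x = x) ∧ χ g ≠ 1) →
      ∃ t : (IsLocalRing.ResidueField V) →+ ZMod p, ∀ y : ↥(K ⊔ Bn (n + 1)),
        y ^ p ≠ sE p χ t c₀

/-- SETD: the fields `K'' = RF (idl f)`, `K' = RF (idl (f p))`. -/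
def S_SETD : Prop := ∀ (p l : ℕ) [Fact p.Prime] [Fact l.Prime] (h f : ℕ), 5 ≤ p → ¬ p ∣ f →
    f ≠ 0 → 2 ∣ f → l ∣ f →
    ∀ (A B : ℤ), CQ A B → TorX A B → NLex A B →
    ∀ (K : IntermediateField ℚ ℂ) [FiniteDimensional ℚ K] [FiniteDimensional ℚ (kk A B)]
    (hk : kk A B ≤ K), ¬ p ∣ Module.finrank (kk A B) (IntermediateField.extendScalars hk) →
    Sub K (RF (idl f) : IntermediateField (kk A B) ℂ) →
    ∀ (Bn : ℕ → IntermediateField ℚ ℂ), (∀ n, IsLayer l n (Bn n)) → Monotone Bn →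
    (∀ n, Sub (K ⊔ Bn n) (RF (idl (f * l ^ (n + h))) : IntermediateField (kk A B) ℂ)) →
    ∃ (K'' K' : IntermediateField ℚ ℂ), FiniteDimensional ℚ K'' ∧ FiniteDimensional ℚ K' ∧
      SetD p l (kk A B) K K'' K' Bn ∧ HasH A B K'' ∧
      ∀ n, Sub (K'' ⊔ Bn n) (RF (idl (f * l ^ (n + h))) : IntermediateField (kk A B) ℂ)

/-- FIN1: block K combined with the unit theorem. -/
def S_FIN1 : Prop := ∀ (p l : ℕ) [Fact p.Prime] [Fact l.Prime] (h f : ℕ), 5 ≤ p → ¬ p ∣ f →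
    f ≠ 0 → 2 ∣ f → l ∣ f →
    ∀ (A B : ℤ), CQ A B → TorX A B → ∀ V : ValuationSubring ℂ, V.valuation (p : ℂ) < 1 →
    ∀ (N₀ : ℕ) (ι : Type) [Finite ι] (R : Reps A B N₀ ι)
    (K : IntermediateField ℚ ℂ) [FiniteDimensional ℚ K] [FiniteDimensional ℚ (kk A B)]
    (hk : kk A B ≤ K), ¬ p ∣ Module.finrank (kk A B) (IntermediateField.extendScalars hk) →
    Sub K (RF (idl f) : IntermediateField (kk A B) ℂ) →
    ∀ (Bn : ℕ → IntermediateField ℚ ℂ) [∀ n, FiniteDimensional ℚ ↥(K ⊔ Bn n)],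
    (∀ n, IsLayer l n (Bn n)) → Monotone Bn →
    (∀ n, Sub (K ⊔ Bn n) (RF (idl (f * l ^ (n + h))) : IntermediateField (kk A B) ℂ)) →
    ∃ (a : ℕ) (H : Finset ℂ), 1 < a ∧ a.Coprime (6 * f * p) ∧ IsHalf (R.L R.i0) a H ∧
      ∃ n₁ : ℕ, ∀ n, n₁ ≤ n → ∀ b : ℕ, (∀ s < b, UnitAt p l h f V R H K Bn (n + s)) →
      ∀ L : IntermediateField ℚ ℂ, kk A B ≤ L → L ≤ K ⊔ Bn (n + b) →
        padicValNat p (classNo L) = padicValNat p (classNo (L ⊓ (K ⊔ Bn n)))

end Pool.Agent.TWK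


end
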