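import Pool.Agent.MVF.C025
import Pool.Agent.MVF.C026
import Pool.Agent.MVF.C027
import Pool.Agent.MVF.C033
import Pool.Agent.MVF.C035
import Pool.Agent.MVF.C039
import Pool.Agent.MVF.C040
import Pool.Agent.MVF.C068
import Pool.Agent.MVF.C071
import Pool.Agent.MVF.C072
import Pool.Agent.TWM.C02
import Pool.Agent.TWM.C04

/-! Parts: TWT.DefsT, TWT.DefsU, TWT.StT2, TWT.CNT, TWT.EAB, TWT.IDP, TWT.KRP, TWT.KUM, TWT.NMF, TWT.PRO, TWT.RAMG, TWT.RSF -/

section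

/-!
# TWT: the transfer block of Theorem C (MP_b78433_nt): common definitions and final statements (helper59)

`k = kk A B` imaginary quadratic, not `ℚ(i)`, `ℚ(√-3)` (normalised lattices exist), `p ≥ 5` a prime which splits in `k`,
`P` a prime above `p`, `V` a valuation ring of `ℂ` above `P`, `R` representatives of the ideal classes with
normalised lattices `L_i` of good reduction at `V`. `l = 2` or `3`, `B n` the layers of the cyclotomic
`ℤ_l`-extension of `ℚ`, `K / k` finite abelian, `K ≤ RF (idl f)`, `l^h ∣ f`, `p ∤ f`. Levels `f l^N` (`N` = the exponent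
of the conductor of the characters of `B n`, `N = n + h`) and `f l^N p`. `F` = the residue field of `V`.

* `kp, eta` : a character of `Gal(K/k)`: its inverse has the value `kp i * eta x` at `(i, x)`.
* `thT` : `(i, x) ↦ kp i * eta x * ψ(N x N b_i)`.
* `w` : the Teichmüller character of `(O/P)^*` (`TeiP`); `w (star x)` is that of the conjugate of `P`.
* `SST R m th w = Σ_i mu_i Σ_(x mod m, x ∉ cjI P) th i x w(x) ee(pt R m i x; L_i)`; `oneT w x` is `0` on `cjI P`, else `1`.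
* `epT eta w x = eta x (w (star x))⁻¹`, a character of `(O/(f cjI P))^*`, odd.
* `BT`, `BP` : the symbol `Σ_c w(c)⁻¹ Φ(x + c/p, y + c/p)`, `Φ = PhiK R (epT eta w) kk / om_(i0)`, and its even part.

FINAL STATEMENTS: `S_KEYA` (block A, helper3), `S_NBD`, `S_BSY` (block C, helper19), `S_CRIT`, `S_GAU`, `S_SYM`, `S_UNIT`
(helper59). `S_UNIT` is the input of the frame.
-/

set_option autoImplicit false

open WeierstrassCurve Polynomial NumberField IsDedekindDomain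

namespace Pool.Agent.TWT

open _root_.MU3 Pool.Agent.MU3A Pool.Agent.MU3B Pool.Agent.MU3C Pool.Agent.RI Pool.Agent.RID
open Pool.Agent.MUX Pool.Agent.MUXU Pool.Agent.MUXW
open Pool.Agent.MU3V (cls Sub GD algDF)
open Pool.Agent.MUXV (GR InK tX)
open OnePoint

noncomputable section

/-! ## Definitions -/

/-- the standing hypotheses for `p ≥ 5` -/
structure SetG (p : ℕ) (A B : ℤ) (P : Ideal (OO A B)) (V : ValuationSubring ℂ) (f : ℕ) : Prop where
  cq : CQ A B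
  pp : p.Prime
  p5 : 5 ≤ p
  hP : IsPN p P
  hV : OverI V P
  pD : ¬ (p : ℤ) ∣ absD A B
  f0 : f ≠ 0
  fp : ¬ p ∣ f
  fD : 2 * absD A B ∣ (f : ℤ)

variable {A B : ℤ} {n : ℕ} {ι : Type}

/-- good reduction at `V` of all the lattices `L_i`, with different reductions -/
structure GRd (V : ValuationSubring ℂ) (R : Reps A B n ι) : Prop where
  kap : ∀ i, V.valuation (kap (R.L i)) = 1
  dis : ∀ i, V.valuation (1 + 1728 * MUX.kap (R.L i)) = 1
  inj : ∀ i j, V.valuation (MUX.kap (R.L i) - MUX.kap (R.L j)) < 1 → i = j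

/-- `w` is the Teichmüller character of `(O/P)^*` -/
structure TeiP (p : ℕ) (P : Ideal (OO A B)) (V : ValuationSubring ℂ) (w : OO A B → ℂ) : Prop where
  one : w 1 = 1
  mul : ∀ x y, w (x * y) = w x * w y
  per : ∀ x y, x - y ∈ P → w x = w y
  zero : ∀ x, w x = 0 ↔ x ∈ P
  root : ∀ x, x ∉ P → w x ^ (p - 1) = 1
  red : ∀ x, V.valuation (w x - emb x) < 1
  int : ∀ c : ℤ, V.valuation (w (c : OO A B) - c) ≤ V.valuation (p : ℂ)

/-- `kp, eta`: the values `kp i * eta x` of a character, of order prime to `p`, on the ideals `x * cjI (b i)` prime to `f` -/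
structure ChD (p f : ℕ) (R : Reps A B n ι) (kp : ι → ℂ) (eta : OO A B → ℂ) : Prop where
  one : eta 1 = 1
  mul : ∀ x y, eta (x * y) = eta x * eta y
  per : ∀ x y, x - y ∈ (idl f : Ideal (OO A B)) → eta x = eta y
  supp : ∀ x, eta x ≠ 0 ↔ IsCoprime (sp x) (idl f : Ideal (OO A B))
  neg : eta (-1) = 1
  kp0 : kp R.i0 = 1
  fin : ∃ r : ℕ, ¬ p ∣ r ∧ (∀ i, kp i ^ r = 1) ∧ ∀ x, eta x ≠ 0 → eta x ^ r = 1

/-- `(i, x) ↦ kp i * eta x * ψ(N x N b_i)` -/
def thT (R : Reps A B n ι) (kp : ι → ℂ) (eta : OO A B → ℂ) {q : ℕ} (ψ : DirichletCharacter ℂ q)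
    (i : ι) (x : OO A B) : ℂ :=
  kp i * eta x * ψ ((nm x * nI (R.b i) : ℤ) : ZMod q)

/-- `0` if `star x ∈ P`, otherwise `1` -/
def oneT (w : OO A B → ℂ) (x : OO A B) : ℂ := w (star x) * (w (star x))⁻¹

/-- `Σ_i mu_i Σ_(x mod m, x ∉ cjI P) th i x w(x) ee(pt R m i x; L_i)` -/
def SST [Fintype ι] (R : Reps A B n ι) (m : ℕ) (th : ι → OO A B → ℂ) (w : OO A B → ℂ) : ℂ :=
  ∑ i, muX R i * sumMod ((m : ℕ) : OO A B) fun x =>
    th i x * oneT w x * w x * ee (R.L i) (pt R m i x)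

/-- the same with the logarithmic derivative of `Θ_a` -/
def SDT [Fintype ι] (R : Reps A B n ι) (m a : ℕ) (th : ι → OO A B → ℂ) (w : OO A B → ℂ) : ℂ :=
  ∑ i, muX R i * sumMod ((m : ℕ) : OO A B) fun x =>
    th i x * oneT w x * w x * dlX (R.L i) a (pt R m i x)

/-- the character of the theta series -/
def epT (eta : OO A B → ℂ) (w : OO A B → ℂ) (x : OO A B) : ℂ := eta x * (w (star x))⁻¹

/-- the weights of the symbols -/
def kkT (R : Reps A B n ι) (kp : ι → ℂ) (eta : OO A B → ℂ) (i : ι) : ℂ :=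
  kp i * (eta ((nI (R.b i) : ℕ) : OO A B))⁻¹

/-- the symbol `Φ` -/
def PhT [Fintype ι] (R : Reps A B n ι) (kp : ι → ℂ) (eta w : OO A B → ℂ)
    (x y : OnePoint ℚ) : ℂ :=
  PhiK R (epT eta w) (kkT R kp eta) x y / R.om R.i0

/-- its twist by `w⁻¹` on the integers -/
def twT (p : ℕ) (w : OO A B → ℂ) (Q : OnePoint ℚ → OnePoint ℚ → ℂ) (x y : OnePoint ℚ) : ℂ :=
  ∑ c ∈ Finset.range p, (w ((c : ℕ) : OO A B))⁻¹ *
    Q (Pool.Agent.MuSym.mob p c 0 p x) (Pool.Agent.MuSym.mob p c 0 p y)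

/-- the even symbol of the rigidity theorem -/
def BP [Fintype ι] (p : ℕ) (R : Reps A B n ι) (kp : ι → ℂ) (eta w : OO A B → ℂ) :
    OnePoint ℚ → OnePoint ℚ → ℂ :=
  sgnPart 1 (twT p w (PhT R kp eta w))

/-! ## Block A (helper3) -/

/-- (KEYA) the unit `∏_(R ∈ E[P] - 0) Θ(z + R)/Θ(z)^(p-1)` to the first order. -/
def S_KEYA : Prop :=
  ∀ (p : ℕ) (A B : ℤ) (P : Ideal (OO A B)) (V : ValuationSubring ℂ) (f : ℕ),
    SetG p A B P V f → ∀ (ι : Type) [Finite ι] (R : Reps A B (p * f) ι), GRd V R →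
    ∀ y0 : OO A B, y0 ∈ cjI P → y0 ∉ P →
    ∃ t0 : ℂ, V.valuation t0 ^ (p - 1) = V.valuation (p : ℂ) ∧ t0 ≠ 0 ∧
      ∀ (i : ι) (a : ℕ) (H : Finset ℂ), 1 < a → a.Coprime (2 * p) → IsHalf (R.L i) a H →
      ∀ z : ℂ, ¬ InEn V (R.L i) z → ¬ InEn V (R.L i) (2 * z) → ¬ InEn V (R.L i) (a * z) →
        (∀ c : ℕ, V.valuation (ThetaH (R.L i) H (z + c * pt R p i y0)) = 1 ∧
          dlX (R.L i) a (z + c * pt R p i y0) ∈ V) ∧
        V.valuation (∏ c ∈ Finset.Icc 1 (p - 1), ThetaH (R.L i) H (z + c * pt R p i y0) -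
            ThetaH (R.L i) H z ^ (p - 1) * (1 - muX R i * t0 *
              ∑ c ∈ Finset.Icc 1 (p - 1), (c : ℂ) * dlX (R.L i) a (z + c * pt R p i y0))) ≤
          V.valuation (p : ℂ) * V.valuation t0 ∧
        V.valuation t0 * V.valuation (∑ c ∈ Finset.Icc 1 (p - 1),
          (c : ℂ) * dlX (R.L i) a (z + c * pt R p i y0)) ≤ V.valuation (p : ℂ)

/-! ## Block C (helper19) -/

/-- (BSY) `BP` is a symbol, with values in a number field, depleted at the prime divisors of `f`. -/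
def S_BSY : Prop :=
  ∀ (p : ℕ) (A B : ℤ) (P : Ideal (OO A B)) (V : ValuationSubring ℂ) (f : ℕ),
    SetG p A B P V f → TorX A B → ∀ (ι : Type) [Fintype ι] (R : Reps A B (p * f) ι)
    (w : OO A B → ℂ), TeiP p P V w → ∃ (nu : (OO A B → ℂ) → ℤ → ℂ), ∀ (kp : ι → ℂ)
    (eta : OO A B → ℂ), ChD p f R kp eta →
      (∀ d, V.valuation (nu eta d) ≤ 1) ∧ nu eta 1 = 1 ∧
      (∀ d d' : ℤ, (((absD A B).toNat * (p * f) ^ 2 * p ^ 2 : ℕ) : ℤ) ∣ d - d' →
        nu eta d = nu eta d') ∧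
      IsSym ((absD A B).toNat * (p * f) ^ 2 * p ^ 2) (nu eta) (BP p R kp eta w) ∧
      (∃ K : IntermediateField ℚ ℂ, FiniteDimensional ℚ K ∧
        ∀ x : ℚ, BP p R kp eta w ∞ (x : OnePoint ℚ) ∈ K) ∧
      (∀ x : ℚ, BP p R kp eta w ∞ ((-x : ℚ) : OnePoint ℚ) = BP p R kp eta w ∞ (x : OnePoint ℚ)) ∧
      ∀ l : ℕ, l.Prime → l ∣ f → ∀ x : ℚ, ∑ k ∈ Finset.range l,
        BP p R kp eta w ∞ ((x + (k : ℚ) / l : ℚ) : OnePoint ℚ) = 0

/-- (NBD) `BP` is not a boundary symbol modulo `V`. -/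
def S_NBD : Prop :=
  ∀ (p : ℕ) (A B : ℤ) (P : Ideal (OO A B)) (V : ValuationSubring ℂ) (f : ℕ),
    SetG p A B P V f → TorX A B → ∀ (ι : Type) [Fintype ι] (R : Reps A B (p * f) ι), GRd V R →
    ∀ (w : OO A B → ℂ), TeiP p P V w → ∀ (kp : ι → ℂ) (eta : OO A B → ℂ), ChD p f R kp eta →
    ∀ N' : ℕ, N' ≠ 0 → ∃ a b c d : ℤ, a * d - b * c = 1 ∧ (N' : ℤ) ∣ c ∧ (N' : ℤ) ∣ d - 1 ∧
      1 ≤ V.valuation (BP p R kp eta w ∞ (Pool.Agent.MuSym.mob a b c d ∞))

/-! ## Block B and the final theorem (helper59) -/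

/-- (GAU) the value of the twisted symbol, `ψ` even and primitive modulo `l^N`: it is a unit times `g(w⁻¹)/p` times
`SST`, and `v(g(w⁻¹))^(p-1) ≤ v(p)`. -/
def S_GAU : Prop :=
  ∀ (p : ℕ) (A B : ℤ) (P : Ideal (OO A B)) (V : ValuationSubring ℂ) (f : ℕ),
    SetG p A B P V f → ∀ (ι : Type) [Fintype ι] (R : Reps A B (p * f) ι)
    (w : OO A B → ℂ), TeiP p P V w → ∀ (kp : ι → ℂ) (eta : OO A B → ℂ), ChD p f R kp eta →
    ∀ (l N : ℕ), l.Prime → l ∣ f → 2 ≤ N → ∀ ψ : DirichletCharacter ℂ (l ^ N), ψ (-1) = 1 →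
    ψ (1 + (l : ZMod (l ^ N)) ^ (N - 1)) ≠ 1 →
    1 ≤ V.valuation (∑ b ∈ Finset.range (l ^ N),
      ψ⁻¹ (b : ZMod (l ^ N)) *
        BP p R kp eta w ∞ (((b : ℚ) / (l : ℚ) ^ N : ℚ) : OnePoint ℚ)) →
    V.valuation (p : ℂ) ^ (p - 2) ≤
      V.valuation (SST R (f * l ^ N * p) (thT R kp eta ψ) w) ^ (p - 1)

open Pool.Agent.TWR in
/-- (SYM) for infinitely many `n`: the sums `SST` of all characters of the levels `n, …, n + b - 1` are large. -/
def S_SYM : Prop :=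
  ∀ (l g h : ℕ), Gen l g h → ∀ (p : ℕ) (A B : ℤ) (P : Ideal (OO A B)) (V : ValuationSubring ℂ)
    (f : ℕ), SetG p A B P V f → l ∣ f → TorX A B → ∀ (ι : Type) [Fintype ι]
    (R : Reps A B (p * f) ι), GRd V R → ∀ (w : OO A B → ℂ), TeiP p P V w →
    ∀ (J : Type) [Finite J] (kp : J → ι → ℂ) (eta : J → OO A B → ℂ),
    (∀ j, ChD p f R (kp j) (eta j)) → ∀ (b : ℕ), 1 ≤ b → ∀ n0 : ℕ, ∃ n ≥ n0, ∀ s < b, ∀ j,
      ∀ ψ : DirichletCharacter ℂ (l ^ (n + s)), ψ (-1) = 1 →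
      ψ (1 + (l : ZMod (l ^ (n + s))) ^ (n + s - 1)) ≠ 1 →
      V.valuation (p : ℂ) ^ (p - 2) ≤
        V.valuation (SST R (f * l ^ (n + s) * p) (thT R (kp j) (eta j) ψ) w) ^ (p - 1)

/-- the residue class of an element of `V` (of `0` outside `V`) -/
def rsd (V : ValuationSubring ℂ) (x : ℂ) : IsLocalRing.ResidueField V :=
  open Classical in if hx : x ∈ V then IsLocalRing.residue V ⟨x, hx⟩ else 0

/-- (CRIT) from a large sum to a non-power. -/
def S_CRIT : Prop :=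
  ∀ (p : ℕ) [Fact p.Prime] (A B : ℤ) (P : Ideal (OO A B)) (V : ValuationSubring ℂ) (f : ℕ),
    SetG p A B P V f → TorX A B → ∀ (ι : Type) [Fintype ι] (R : Reps A B (p * f) ι), GRd V R →
    ∀ (w : OO A B → ℂ), TeiP p P V w → ∀ (kp : ι → ℂ) (eta : OO A B → ℂ), ChD p f R kp eta →
    ∀ (l N : ℕ), l.Prime → l ∣ f → ∀ ψ : DirichletCharacter ℂ (l ^ N), ψ (-1) = 1 →
    ∀ (a : ℕ), 1 < a → a.Coprime (6 * f * p) →
    V.valuation (1 - (a : ℂ) ^ 2 * thT R kp eta ψ R.i0 a) = 1 →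
    (∃ (r : ℕ) (y : OO A B), P ^ r = sp y ∧ V.valuation (1 - thT R kp eta ψ R.i0 y) = 1) →
    ∀ (H : Finset ℂ), IsHalf (R.L R.i0) a H →
    ∀ (θ : (RF (idl (f * l ^ N * p)) : IntermediateField (kk A B) ℂ)),
    (θ : ℂ) = ThetaH (R.L R.i0) H (pt R (f * l ^ N * p) R.i0 1) →
    ∀ (D : IntermediateField ℚ ℂ) [FiniteDimensional ℚ D] [FiniteDimensional ℚ (kk A B)]
      (h : kk A B ≤ D),
    Sub D (RF (idl (f * l ^ N)) : IntermediateField (kk A B) ℂ) → letI := algC h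
    ∀ (χ : (D ≃ₐ[kk A B] D) →* (IsLocalRing.ResidueField V)ˣ),
    (∀ (τ : D ≃ₐ[kk A B] D), ∀ q ∈ XX R (f * l ^ N) h τ,
      rsd V (thT R kp eta ψ q.1 (Quotient.out q.2)) = (((χ τ)⁻¹ : (IsLocalRing.ResidueField V)ˣ) :
        IsLocalRing.ResidueField V)) →
    (∃ g : D ≃ₐ[kk A B] D, (∀ x : D,
      (x : ℂ) ∈ (RF (⊤ : Ideal (OO A B)) : IntermediateField (kk A B) ℂ) → g x = x) ∧ χ g ≠ 1) →
    ∀ c₀ : D, (c₀ : ℂ) = cW h θ →
    V.valuation (p : ℂ) ^ (p - 2) ≤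
      V.valuation (SST R (f * l ^ N * p) (thT R kp eta ψ) w) ^ (p - 1) →
    ∃ t : (IsLocalRing.ResidueField V) →+ ZMod p, ∀ y : D, y ^ p ≠ Pool.Agent.TWK.sE p χ t c₀

open Pool.Agent.TWR in
/-- (FACT) the characters of `Gal(K B_N / k)` with values in the residue field, in terms of the values `thT` (frame, helper51;
`N + h` is the exponent of the conductor). `J` does not depend on `N`. -/
def S_FACT : Prop :=
  ∀ (l g h : ℕ), Gen l g h → ∀ (p : ℕ) [Fact p.Prime] (A B : ℤ) (P : Ideal (OO A B))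
    (V : ValuationSubring ℂ) (f : ℕ), SetG p A B P V f → l ^ h ∣ f → TorX A B →
    ∀ (ι : Type) [Finite ι] (R : Reps A B (p * f) ι)
    (K : IntermediateField ℚ ℂ) [FiniteDimensional ℚ K], kk A B ≤ K →
    Sub K (RF (idl f) : IntermediateField (kk A B) ℂ) →
    ∀ (Bn : ℕ → IntermediateField ℚ ℂ), (∀ n, IsLayer l n (Bn n)) → Monotone Bn →
    ∃ (J : Type) (_ : Finite J) (kp : J → ι → ℂ) (eta : J → OO A B → ℂ),
      (∀ j, ChD p f R (kp j) (eta j)) ∧
      ∀ (n : ℕ) (hn : kk A B ≤ K ⊔ Bn (n + 1)), letI := algC hn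
      ∀ χ : (↥(K ⊔ Bn (n + 1)) ≃ₐ[kk A B] ↥(K ⊔ Bn (n + 1))) →* (IsLocalRing.ResidueField V)ˣ,
      (∃ g : ↥(K ⊔ Bn (n + 1)) ≃ₐ[kk A B] ↥(K ⊔ Bn (n + 1)),
        (∀ x : ↥(K ⊔ Bn (n + 1)), (x : ℂ) ∈ K ⊔ Bn n → g x = x) ∧ χ g ≠ 1) →
      ∃ (j : J) (ψ : DirichletCharacter ℂ (l ^ (n + 1 + h))), ψ (-1) = 1 ∧
        ψ (1 + (l : ZMod (l ^ (n + 1 + h))) ^ (n + 1 + h - 1)) ≠ 1 ∧
        ∀ (τ : ↥(K ⊔ Bn (n + 1)) ≃ₐ[kk A B] ↥(K ⊔ Bn (n + 1))),
        ∀ q ∈ XX R (f * l ^ (n + 1 + h)) hn τ,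
          rsd V (thT R (kp j) (eta j) ψ q.1 (Quotient.out q.2)) =
            (((χ τ)⁻¹ : (IsLocalRing.ResidueField V)ˣ) : IsLocalRing.ResidueField V)

open Pool.Agent.TWR in
/-- (UNIT) the input of the frame: for infinitely many `n`, on the levels `n + s`, `s < b`, all characters which are not
trivial on `Gal(K B_(n+s+1) / K B_(n+s))` have a part of `c₀` which is not a `p`-th power. -/
def S_UNIT : Prop :=
  ∀ (l g h : ℕ), Gen l g h → ∀ (p : ℕ) [Fact p.Prime] (A B : ℤ) (P : Ideal (OO A B))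
    (V : ValuationSubring ℂ) (f : ℕ), SetG p A B P V f → l ^ h ∣ f → TorX A B →
    ∀ (ι : Type) [Fintype ι] (R : Reps A B (p * f) ι), GRd V R →
    ∀ (K : IntermediateField ℚ ℂ) [FiniteDimensional ℚ K] [FiniteDimensional ℚ (kk A B)],
    kk A B ≤ K → Sub K (RF (idl f) : IntermediateField (kk A B) ℂ) →
    ∀ (Bn : ℕ → IntermediateField ℚ ℂ) [∀ n, FiniteDimensional ℚ ↥(K ⊔ Bn n)],
    (∀ n, IsLayer l n (Bn n)) → Monotone Bn →
    (∀ n, Sub (K ⊔ Bn n) (RF (idl (f * l ^ (n + h))) : IntermediateField (kk A B) ℂ)) →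
    ∀ (a : ℕ), 1 < a → a.Coprime (6 * f * p) → ∀ (H : Finset ℂ), IsHalf (R.L R.i0) a H →
    ∀ (b : ℕ), 1 ≤ b → ∀ n0 : ℕ, ∃ n ≥ n0, ∀ s < b,
    ∀ (θ : (RF (idl (f * l ^ (n + s + 1 + h) * p)) : IntermediateField (kk A B) ℂ)),
    (θ : ℂ) = ThetaH (R.L R.i0) H (pt R (f * l ^ (n + s + 1 + h) * p) R.i0 1) →
    ∀ (h0 : kk A B ≤ K ⊔ Bn (n + s + 1)), letI := algC h0
    ∀ (c₀ : ↥(K ⊔ Bn (n + s + 1))), (c₀ : ℂ) = cW h0 θ →
    ∀ χ : (↥(K ⊔ Bn (n + s + 1)) ≃ₐ[kk A B] ↥(K ⊔ Bn (n + s + 1))) →*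
      (IsLocalRing.ResidueField V)ˣ,
      (∃ g : ↥(K ⊔ Bn (n + s + 1)) ≃ₐ[kk A B] ↥(K ⊔ Bn (n + s + 1)),
        (∀ x : ↥(K ⊔ Bn (n + s + 1)), (x : ℂ) ∈ K ⊔ Bn (n + s) → g x = x) ∧ χ g ≠ 1) →
      ∃ t : (IsLocalRing.ResidueField V) →+ ZMod p, ∀ y : ↥(K ⊔ Bn (n + s + 1)),
        y ^ p ≠ Pool.Agent.TWK.sE p χ t c₀

end

end Pool.Agent.TWT


end

section

/-!
# TWT: the final statements with bounded gaps (helper59)

`S_SYMB`, `S_UNITB`: as `S_SYM`, `S_UNIT` of `DefsT.lean`, with `∃ C, ∀ n0, ∃ n ∈ [n0, n0 + C]` in place of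
`∀ n0, ∃ n ≥ n0`. `S_SYMB` (helper19) from the bounded gaps of the rigidity theorem (`a_TW3`, `a_TWB3` of helper34);
`S_UNITB` (helper59) from `S_SYMB`, `S_CRIT`, `S_FACT`.
-/

set_option autoImplicit false

open WeierstrassCurve Polynomial NumberField IsDedekindDomain

namespace Pool.Agent.TWT

open _root_.MU3 Pool.Agent.MU3A Pool.Agent.MU3B Pool.Agent.MU3C Pool.Agent.RI Pool.Agent.RID
open Pool.Agent.MUX Pool.Agent.MUXU Pool.Agent.MUXW
open Pool.Agent.MU3V (cls Sub GD algDF)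
open Pool.Agent.MUXV (GR InK tX)
open OnePoint

noncomputable section

open Pool.Agent.TWR in
/-- (SYMB) `S_SYM` with bounded gaps. -/
def S_SYMB : Prop :=
  ∀ (l g h : ℕ), Gen l g h → ∀ (p : ℕ) (A B : ℤ) (P : Ideal (OO A B)) (V : ValuationSubring ℂ)
    (f : ℕ), SetG p A B P V f → l ∣ f → TorX A B → ∀ (ι : Type) [Fintype ι]
    (R : Reps A B (p * f) ι), GRd V R → ∀ (w : OO A B → ℂ), TeiP p P V w →
    ∀ (J : Type) [Finite J] (kp : J → ι → ℂ) (eta : J → OO A B → ℂ),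
    (∀ j, ChD p f R (kp j) (eta j)) → ∀ (b : ℕ), 1 ≤ b → ∃ C : ℕ, ∀ n0 : ℕ, ∃ n : ℕ,
      n0 ≤ n ∧ n ≤ n0 + C ∧ ∀ s < b, ∀ j,
      ∀ ψ : DirichletCharacter ℂ (l ^ (n + s)), ψ (-1) = 1 →
      ψ (1 + (l : ZMod (l ^ (n + s))) ^ (n + s - 1)) ≠ 1 →
      V.valuation (p : ℂ) ^ (p - 2) ≤
        V.valuation (SST R (f * l ^ (n + s) * p) (thT R (kp j) (eta j) ψ) w) ^ (p - 1)

open Pool.Agent.TWR in
/-- (UNITB) `S_UNIT` with bounded gaps: the input of the frame. -/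
def S_UNITB : Prop :=
  ∀ (l g h : ℕ), Gen l g h → ∀ (p : ℕ) [Fact p.Prime] (A B : ℤ) (P : Ideal (OO A B))
    (V : ValuationSubring ℂ) (f : ℕ), SetG p A B P V f → l ^ h ∣ f → TorX A B →
    ∀ (ι : Type) [Fintype ι] (R : Reps A B (p * f) ι), GRd V R →
    ∀ (K : IntermediateField ℚ ℂ) [FiniteDimensional ℚ K] [FiniteDimensional ℚ (kk A B)],
    kk A B ≤ K → Sub K (RF (idl f) : IntermediateField (kk A B) ℂ) →
    ∀ (Bn : ℕ → IntermediateField ℚ ℂ) [∀ n, FiniteDimensional ℚ ↥(K ⊔ Bn n)],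
    (∀ n, IsLayer l n (Bn n)) → Monotone Bn →
    (∀ n, Sub (K ⊔ Bn n) (RF (idl (f * l ^ (n + h))) : IntermediateField (kk A B) ℂ)) →
    ∀ (a : ℕ), 1 < a → a.Coprime (6 * f * p) → ∀ (H : Finset ℂ), IsHalf (R.L R.i0) a H →
    ∀ (b : ℕ), 1 ≤ b → ∃ C : ℕ, ∀ n0 : ℕ, ∃ n : ℕ, n0 ≤ n ∧ n ≤ n0 + C ∧ ∀ s < b,
    ∀ (θ : (RF (idl (f * l ^ (n + s + 1 + h) * p)) : IntermediateField (kk A B) ℂ)),
    (θ : ℂ) = ThetaH (R.L R.i0) H (pt R (f * l ^ (n + s + 1 + h) * p) R.i0 1) →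
    ∀ (h0 : kk A B ≤ K ⊔ Bn (n + s + 1)), letI := algC h0
    ∀ (c₀ : ↥(K ⊔ Bn (n + s + 1))), (c₀ : ℂ) = cW h0 θ →
    ∀ χ : (↥(K ⊔ Bn (n + s + 1)) ≃ₐ[kk A B] ↥(K ⊔ Bn (n + s + 1))) →*
      (IsLocalRing.ResidueField V)ˣ,
      (∃ g : ↥(K ⊔ Bn (n + s + 1)) ≃ₐ[kk A B] ↥(K ⊔ Bn (n + s + 1)),
        (∀ x : ↥(K ⊔ Bn (n + s + 1)), (x : ℂ) ∈ K ⊔ Bn (n + s) → g x = x) ∧ χ g ≠ 1) →
      ∃ t : (IsLocalRing.ResidueField V) →+ ZMod p, ∀ y : ↥(K ⊔ Bn (n + s + 1)),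
        y ^ p ≠ Pool.Agent.TWK.sE p χ t c₀

open Pool.Agent.TWR in
/-- (SYMA) for ALL large `n` (rigidity theorem for all large `n`: `S_TW4`, helper11, helper34). -/
def S_SYMA : Prop :=
  ∀ (l g h : ℕ), Gen l g h → ∀ (p : ℕ) (A B : ℤ) (P : Ideal (OO A B)) (V : ValuationSubring ℂ)
    (f : ℕ), SetG p A B P V f → l ∣ f → TorX A B → ∀ (ι : Type) [Fintype ι]
    (R : Reps A B (p * f) ι), GRd V R → ∀ (w : OO A B → ℂ), TeiP p P V w →
    ∀ (J : Type) [Finite J] (kp : J → ι → ℂ) (eta : J → OO A B → ℂ),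
    (∀ j, ChD p f R (kp j) (eta j)) → ∃ n0 : ℕ, ∀ n : ℕ, n0 ≤ n → ∀ j,
      ∀ ψ : DirichletCharacter ℂ (l ^ n), ψ (-1) = 1 →
      ψ (1 + (l : ZMod (l ^ n)) ^ (n - 1)) ≠ 1 →
      V.valuation (p : ℂ) ^ (p - 2) ≤
        V.valuation (SST R (f * l ^ n * p) (thT R (kp j) (eta j) ψ) w) ^ (p - 1)

open Pool.Agent.TWR in
/-- (UNITA) the input of the frame, for ALL large `n`; the conclusion is `UnitAt p l h f V R H K Bn n` of
`Pool/Agent/TWK/StK6.lean`. -/
def S_UNITA : Prop :=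
  ∀ (l g h : ℕ), Gen l g h → ∀ (p : ℕ) [Fact p.Prime] (A B : ℤ) (P : Ideal (OO A B))
    (V : ValuationSubring ℂ) (f : ℕ), SetG p A B P V f → l ^ h ∣ f → TorX A B →
    ∀ (ι : Type) [Fintype ι] (R : Reps A B (p * f) ι), GRd V R →
    ∀ (K : IntermediateField ℚ ℂ) [FiniteDimensional ℚ K] [FiniteDimensional ℚ (kk A B)],
    kk A B ≤ K → Sub K (RF (idl f) : IntermediateField (kk A B) ℂ) →
    ∀ (Bn : ℕ → IntermediateField ℚ ℂ) [∀ n, FiniteDimensional ℚ ↥(K ⊔ Bn n)],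
    (∀ n, IsLayer l n (Bn n)) → Monotone Bn →
    (∀ n, Sub (K ⊔ Bn n) (RF (idl (f * l ^ (n + h))) : IntermediateField (kk A B) ℂ)) →
    ∀ (a : ℕ), 1 < a → a.Coprime (6 * f * p) → ∀ (H : Finset ℂ), IsHalf (R.L R.i0) a H →
    ∃ n0 : ℕ, ∀ n : ℕ, n0 ≤ n →
    ∀ (θ : (RF (idl (f * l ^ (n + 1 + h) * p)) : IntermediateField (kk A B) ℂ)),
    (θ : ℂ) = ThetaH (R.L R.i0) H (pt R (f * l ^ (n + 1 + h) * p) R.i0 1) →
    ∀ (h0 : kk A B ≤ K ⊔ Bn (n + 1)), letI := algC h0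
    ∀ (c₀ : ↥(K ⊔ Bn (n + 1))), (c₀ : ℂ) = cW h0 θ →
    ∀ χ : (↥(K ⊔ Bn (n + 1)) ≃ₐ[kk A B] ↥(K ⊔ Bn (n + 1))) →*
      (IsLocalRing.ResidueField V)ˣ,
      (∃ g : ↥(K ⊔ Bn (n + 1)) ≃ₐ[kk A B] ↥(K ⊔ Bn (n + 1)),
        (∀ x : ↥(K ⊔ Bn (n + 1)), (x : ℂ) ∈ K ⊔ Bn n → g x = x) ∧ χ g ≠ 1) →
      ∃ t : (IsLocalRing.ResidueField V) →+ ZMod p, ∀ y : ↥(K ⊔ Bn (n + 1)),
        y ^ p ≠ Pool.Agent.TWK.sE p χ t c₀

end

end Pool.Agent.TWT


end

section

/-!
# TWT, block B: a large sum `SST` gives a non-power (helper59)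

`SetG p A B P V f`, `R : Reps A B (p * f) ι`, `m` a level prime to `p` (`LvM`), `M = m p`, `F = RF (idl M)`, `G = Gal(F/k)` (abelian),
`v = V.valuation` (`v x ≤ 1` iff `x ∈ V`: `ValuationSubring.valuation_le_one_iff`; `v x < 1` iff `x ∈ V.nonunits`).
`HitF R M F σ i x` : `σ ∈ G` maps the base point `pt R M i0 1` to `± pt R M i x`. `x0 ∈ P`, `x0 ≡ 1` modulo `m cjI P`; `y0 ∈ cjI P`, `y0 ∉ P`;
`a_c = x0 + c m y0`, `1 ≤ c < p`: prime to `M`, `≡ 1` modulo `m cjI P`. `pt R M i (x a_c) = z + c R`, `z = pt R M i (x x0)` of level `m cjI P`,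
`R = pt R p i (x y0) ∈ E[P]`. Every `def S_X : Prop` is the statement of a module, which proves `theorem t_X (h : S_Y) ... : S_X` (hypotheses: the
statements `S_..` of this file named under USES, fewer is fine) in `Pool/Agent/TWT/X.lean`, namespace `Pool.Agent.TWT`. The statements of the
blocks of MUX are THEOREMS without hypotheses and may be cited (import the file): `Sy_..` of `StWX.lean`, `StWX2.lean`: `Pool.Agent.MUXW.y_X` (`Pool/Agent/MUX/WAll.lean`),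
`Si_IAF, IAG, RPR, HIT, ARF, XXF, PTP` (`StIX.lean`): `Pool.Agent.TWT.j_X` (`Pool/Agent/TWT/I0.lean`), `Su_..`: `Pool.Agent.MUXU.u_X` (`UAll.lean`), `Sx_..` of
`StXF.lean`: `Pool.Agent.MUXF.xf_X` (`XFAll.lean`), `Sy_..` of `StYX.lean`: `Pool.Agent.MUXY.y_X` (`YAll.lean`), `Sx_..`, `Sq_..` of `StVX.lean`, `StQX.lean`: `Pool.Agent.MUXV.x_X`, `q_X`
(`RQ0.lean`, `RQAll.lean`), `St_..` of block B of MU3: `Pool.Agent.MU3B.b_X` (`Pool/Agent/MU3/BAll.lean`).
-/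

set_option autoImplicit false

open WeierstrassCurve Polynomial NumberField IsDedekindDomain

namespace Pool.Agent.TWT

open _root_.MU3 Pool.Agent.MU3A Pool.Agent.MU3B Pool.Agent.MU3C Pool.Agent.RI Pool.Agent.RID
open Pool.Agent.MUX Pool.Agent.MUXU Pool.Agent.MUXW
open Pool.Agent.MU3V (cls Sub GD algDF)
open Pool.Agent.MUXV (GR InK tX)
open Pool.Agent.MUXI (IA RE AR)
open OnePoint

noncomputable section

/-! ## Definitions -/

/-- a level prime to `p` -/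
structure LvM {A B : ℤ} {ι : Type} (p f m : ℕ) (R : Reps A B (p * f) ι) : Prop where
  m0 : m ≠ 0
  fm : f ∣ m
  pm : ¬ p ∣ m
  cop : ∀ i, (nI (R.b i)).Coprime (m * p)

/-- `σ ∈ Gal(F/k)`, `F = RF (idl M)`, maps the base point of level `M` to `± pt R M i x` -/
def HitF {A B : ℤ} {n : ℕ} {ι : Type} (R : Reps A B n ι) (M : ℕ)
    (F : IntermediateField (kk A B) ℂ) (σ : F ≃ₐ[kk A B] F) (i : ι) (x : OO A B) : Prop :=
  IsCoprime x ((M : ℕ) : OO A B) ∧ ∃ s : ℂ ≃+* ℂ, FixK A B s ∧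
    (∀ y : F, s (y : ℂ) = ((σ y : F) : ℂ)) ∧ Hits R M s i x

/-- `Gal(RF (idl M) / k)` -/
abbrev GalF (A B : ℤ) (M : ℕ) : Type :=
  (RF (idl (A := A) (B := B) M) : IntermediateField (kk A B) ℂ) ≃ₐ[kk A B]
    (RF (idl (A := A) (B := B) M) : IntermediateField (kk A B) ℂ)

/-- `∏_τ g(τ) ^ t(χ(τ)⁻¹)` -/
def EtT {G Fr Mt : Type} [Group G] [Fintype G] [Field Fr] [CommGroup Mt] (p : ℕ) (χ : G →* Frˣ)
    (t : Fr →+ ZMod p) (g : G → Mt) : Mt :=
  ∏ τ : G, g τ ^ (t ((χ τ)⁻¹ : Frˣ)).val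

/-! ## 1. Ideals and valuations -/

/-- (IDP) ideals. `O = OO A B`.

PROOF. As `Si_PQF` (`Pool/Agent/MUX/I_PQF.lean`, there `p = 2, 3`). `O/P` has `p` elements and `P` is prime, `p ∈ P`, so every `x` is congruent to an integer `c`, `0 ≤ c < p`, and `c ∈ P` iff `p ∣ c` (`1 ∉ P`): (1), (2). (3) `Sx_IDL` (`P * cjI P = sp (nI P)`). (4) `P ≠ cjI P`: otherwise `x² ∈ P² = (p)` for `x ∈ P`; take
`x = c - w ∈ P` with an integer `c`; `x² = c² - 2 c w + A + B w ∈ (p)` gives `p ∣ B - 2 c` and `p ∣ c² + A`, so `p ∣ B² + 4 A = - absD`, against `pD`. Both are maximal: coprime. (5) `u p + v m = 1`, `p ∈ P`, `p ∈ cjI P` (`cjI P ∋ star p`). (6) CRT (`IsCoprime (idl m * cjI P) P`: product of coprime ideals). (7) `P * cjI P` is not all of..: `cjI P ≤ P` would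
contradict (4). (8) `a = x0 + c m y0`, `1 ≤ c < p`: modulo `P`: `≡ c m y0 ∉ P` (`P` prime, `c, m ∉ P` by (2)); modulo `cjI P`: `≡ x0 ≡ 1`; modulo `m`: `≡ 1`. So `sp a` is coprime to `P`, `cjI P`, `idl m`, so to `idl (m p)`. (9) `X`, `x` prime to `m p`, `X - x ∈ idl m * cjI P`. Let `c` be the integer, `0 < c < p`, with `X ≡ c m y0` modulo `P`
(`O/P = F_p`, `m y0 ∉ P`, `X ∉ P`). `X - (x x0 + c m y0)` is in `P` (`x0 ∈ P`) and in `idl m * cjI P` (`X - x x0 = X - x - x (x0 - 1)`), so in the product `idl (m p)` (coprime ideals). Unique: `(c - c') m y0 ∈ P` gives `p ∣ c - c'`. Conversely `x x0 + c m y0 - x ∈ idl m * cjI P`. -/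
def S_IDP : Prop :=
  ∀ (p : ℕ) (A B : ℤ) (P : Ideal (OO A B)) (V : ValuationSubring ℂ) (f : ℕ), SetG p A B P V f →
    (∀ x : OO A B, ∃ c : ℕ, c < p ∧ x - c ∈ P) ∧
    (∀ c : ℤ, (c : OO A B) ∈ P ↔ (p : ℤ) ∣ c) ∧
    P * cjI P = idl p ∧ IsCoprime P (cjI P) ∧
    (∀ m : ℕ, ¬ p ∣ m → IsCoprime (idl (A := A) (B := B) m) P ∧
      IsCoprime (idl (A := A) (B := B) m) (cjI P) ∧
      (∃ x0 : OO A B, x0 ∈ P ∧ x0 - 1 ∈ idl m * cjI P)) ∧
    (∃ y0 : OO A B, y0 ∈ cjI P ∧ y0 ∉ P) ∧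
    (∀ (m : ℕ) (x0 y0 : OO A B), m ≠ 0 → ¬ p ∣ m → x0 ∈ P → x0 - 1 ∈ idl m * cjI P →
      y0 ∈ cjI P → y0 ∉ P →
      (∀ c : ℕ, 1 ≤ c → c < p → IsCoprime (x0 + c * m * y0) ((m * p : ℕ) : OO A B) ∧
        x0 + c * m * y0 - 1 ∈ idl m * cjI P) ∧
      ∀ x X : OO A B, IsCoprime x ((m * p : ℕ) : OO A B) → IsCoprime X ((m * p : ℕ) : OO A B) →
        (X - x ∈ idl m * cjI P ↔ ∃ c : ℕ, 1 ≤ c ∧ c < p ∧
          X - (x * x0 + c * m * y0) ∈ idl (A := A) (B := B) (m * p)))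

/-- (VPG) the valuation. PROOF. `V ∩ O = P` (`OverI`), `p ∈ P`. `O` is integral over `ℤ`, `V` is integrally closed: `v(emb x) ≤ 1`; `v(emb x) < 1` iff `x ∈ P`. An integer `n` prime to `p` is not in `P` (IDP), `emb n = n`. `2, 3`: `p ≥ 5`. See `Pool/Agent/MUX/E_PA.lean`, `Q_VQI.lean` (`Sq_VQI`). Good reduction (`GRn`) from `Sx_NGR`
(`Pool/Agent/MUX/R_NGR.lean` or the theorem in `VAll`): `kp = kap`, `12 g₂ = 1 + 1728 kap`, `IsNL.nrm`. Last: `z ∈ E[m]`, `p ∤ m`, in the kernel of reduction: `mem_of_nat_mul` of `VX.lean`. -/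
def S_VPG : Prop :=
  ∀ (p : ℕ) (A B : ℤ) (P : Ideal (OO A B)) (V : ValuationSubring ℂ) (f : ℕ), SetG p A B P V f →
    V.valuation (p : ℂ) < 1 ∧ V.valuation (p : ℂ) ≠ 0 ∧
    (∀ x : OO A B, V.valuation (emb x) ≤ 1 ∧ (V.valuation (emb x) < 1 ↔ x ∈ P)) ∧
    (∀ n : ℤ, ¬ (p : ℤ) ∣ n → V.valuation (n : ℂ) = 1) ∧
    V.valuation (2 : ℂ) = 1 ∧ V.valuation (3 : ℂ) = 1 ∧
    ∀ (ι : Type) (R : Reps A B (p * f) ι), GRd V R → ∀ i, GRn V (R.L i) ∧
      ∀ (m : ℕ) (z : ℂ), ¬ p ∣ m → (m : ℂ) * z ∈ (R.L i).lattice → InEn V (R.L i) z →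
        z ∈ (R.L i).lattice

/-- (RAMG) a finite Galois extension `F / k` with trivial inertia group at `V` is unramified.

USES VPG. PROOF. `Pool/Agent/MUX/E_RAM.lean` (`te_RAM`), with `SetG` in place of `CtxE` (`RingE A B` from `Sxe_RNG`: `Pool/Agent/MUX/E_RNG.lean`; `split`: `(p : O) ∉ P²`: otherwise, by norms, `P² = (p) = P * cjI P`, `P = cjI P`, see IDP; or `Sxe_CTX`'s proof). The lemmas `RamE.unramP`, `RamE.intVal_one` and `Pool.Agent.MU3E.RAM` are general. -/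
def S_RAMG : Prop :=
  ∀ (p : ℕ) (A B : ℤ) (P : Ideal (OO A B)) (V : ValuationSubring ℂ) (f : ℕ), SetG p A B P V f →
    ∀ (F : IntermediateField (kk A B) ℂ) [FiniteDimensional (kk A B) F] [IsGalois (kk A B) F],
      (∀ σ : F ≃ₐ[kk A B] F, (∀ x : F, V.valuation (x : ℂ) ≤ 1 →
        V.valuation ((σ x : ℂ) - x) < 1) → σ = 1) →
      ∀ y ∈ F, y ≠ 0 → ∃ k : ℤ, V.valuation y = V.valuation (p : ℂ) ^ k

/-- (UNRG) `RF (idl m) / k` is unramified at `V` for `p ∤ m`.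

USES VPG, RAMG. PROOF. (RAMG) for `F = RF (idl m)` (`TorX.fin`, `gal`). Let `σ` be trivial modulo `V`. `σ` extends to `s ∈ Aut(ℂ/k)` (`TorX.ext`), `s` acts as an ideal `a` (`TorX.act`). For every normalised lattice `L` (with class `i`: `L` has the same lattice and `kap` as `R.L i`, `R.surj`; two normalised homothetic lattices differ by
`± 1`, see `W_FRH.lean`, `Sy_MUU`) `kap (R.L i)` is in `RF ⊤ ≤ F`, in `V`, and `s(kap (R.L i)) = kap L'`, `L'` normalised, `kap L' = kap (R.L j)`, so `v(kap (R.L j) - kap (R.L i)) < 1`, so `j = i` (`GRd.inj`): `s` fixes all `kap`, so it is trivial on `RF ⊤`: `TrH σ`. (KER) `Sy_KER` (level `idl m = sp m`): `ActH σ m a`. `Sy_INV` (`E[m]` meets the kernel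
of reduction trivially: VPG, for `R.L R.i0`; `RF (sp m) ≤ F`): `m ∣ a - 1` or `m ∣ a + 1`; (ACM)(2), (5): `σ = 1` (`ActH 1 m 1`). -/
def S_UNRG : Prop :=
  ∀ (p : ℕ) (A B : ℤ) (P : Ideal (OO A B)) (V : ValuationSubring ℂ) (f : ℕ), SetG p A B P V f →
    TorX A B → ∀ (ι : Type) [Finite ι] (R : Reps A B (p * f) ι), GRd V R →
    ∀ m : ℕ, m ≠ 0 → ¬ p ∣ m → ∀ y ∈ (RF (idl m) : IntermediateField (kk A B) ℂ), y ≠ 0 →
      ∃ k : ℤ, V.valuation y = V.valuation (p : ℂ) ^ k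

/-- (MUG) the multipliers are units. USES VPG. PROOF. `MUN` (`Sx_MUN`, StVX; theorem in `Pool/Agent/MUX/R_MUN.lean`, see `VAll`) for `L = R.L R.i0`, `M = R.L i`, `mu = muX R i = om_i N(b_i)/om_0`, `n = nI (R.b i)`: `mu L ⊆ M` as `L = om_0 emb O` (`R.b0`) and `N(b_i) ∈ b_i`; if `mu z ∈ M`, `N(b_i) emb.. z/om_0 ∈ emb b_i`, then
`n z ∈ L` (`b_i ⊆ O`). `n` is odd and prime to `p`: `R.cop` (`nI (b i)` is prime to `p f`, `f` is even by `SetG.fD`). -/
def S_MUG : Prop :=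
  ∀ (p : ℕ) (A B : ℤ) (P : Ideal (OO A B)) (V : ValuationSubring ℂ) (f : ℕ), SetG p A B P V f →
    ∀ (ι : Type) (R : Reps A B (p * f) ι), GRd V R → ∀ i, V.valuation (muX R i) = 1

/-- (KUM) a `p`-th power which is `≡ 1` modulo `p` in an unramified field is `≡ 1` modulo `p²`.

PROOF. `v(y^p) = 1` (`v(y^p - 1) ≤ v(p) < 1`), so `v y = 1`. `(y - 1)^p = y^p - 1 + p s`, `s ∈ V` (binomial coefficients `p ∣ choose p k`, `0 < k < p`; `(-1)^p = -1` for `p` odd, for `p = 2` also `p ∣ 2`), so `v((y-1)^p) < 1`, `v(y - 1) < 1`. If `y = 1`: clear. Otherwise `v(y - 1) = v(p)^k` with `k ≥ 1`, so `v(y-1) ≤ v(p)`. `y = 1 + u`, `v u ≤ v p`: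
`y^p - 1 = p u + Σ_(2 ≤ k < p) choose p k u^k + u^p`, all terms have `v ≤ v(p)²` (`v(u^p) ≤ v(p)^p`, `p ≥ 2`). -/
def S_KUM : Prop :=
  ∀ (V : ValuationSubring ℂ) (p : ℕ), p.Prime → V.valuation (p : ℂ) < 1 → ∀ y : ℂ,
    (y - 1 ≠ 0 → ∃ k : ℤ, V.valuation (y - 1) = V.valuation (p : ℂ) ^ k) →
    V.valuation (y ^ p - 1) ≤ V.valuation (p : ℂ) →
    V.valuation (y ^ p - 1) ≤ V.valuation (p : ℂ) ^ 2

/-- (PRO) products. PROOF. Induction over the finite set (or `Finset.prod_induction`-style): if `v(u - 1 - e) ≤ v(p)²`, `v e ≤ v p` and the same for `u'`, `e'`, then `u u' - 1 - e - e' = (u - 1 - e) u' + (1 + e)(u' - 1 - e') + e e'`. For powers `u^n`, `n e`: the same. -/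
def S_PRO : Prop :=
  ∀ (V : ValuationSubring ℂ) (p : ℕ), p.Prime → V.valuation (p : ℂ) < 1 → ∀ (J : Type)
    (S : Finset J) (u e : J → ℂ) (n : J → ℕ), (∀ j ∈ S, V.valuation (e j) ≤ V.valuation (p : ℂ)) →
    (∀ j ∈ S, V.valuation (u j - 1 - e j) ≤ V.valuation (p : ℂ) ^ 2) →
    V.valuation (∏ j ∈ S, u j ^ n j - 1 - ∑ j ∈ S, (n j : ℂ) * e j) ≤ V.valuation (p : ℂ) ^ 2

/-- (RSF) functionals on the residue field. PROOF. The `𝔽_p`-subspace `U` of `Fr` spanned by the `c τ` is finite dimensional; choose a basis `e_j` of `U` and extend the coordinates to additive maps `t_j : Fr → ZMod p` (a subspace has a complement; `Module (ZMod p) Fr` by `CharP`: `ZMod.algebra`; additive maps are `ZMod p`-linear). `c τ = Σ_j t_j(c τ) e_j`, so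
`Σ_τ c τ b τ = Σ_j e_j Σ_τ t_j(c τ) b τ = 0`, where the image of `n : ZMod p` in `Fr` is `((n.val : ℕ) : Fr)`. (Or: choose a basis of `Fr` over `ZMod p`.) -/
def S_RSF : Prop :=
  ∀ (p : ℕ) [Fact p.Prime] (Fr : Type) [Field Fr] [CharP Fr p] (T : Type) [Fintype T]
    (c b : T → Fr), (∀ t : Fr →+ ZMod p, ∑ τ : T, (((t (c τ)).val : ℕ) : Fr) * b τ = 0) →
    ∑ τ : T, c τ * b τ = 0

/-! ## 2. Algebra of the products `EtT` -/

/-- (EAB) abstract part. `Mt` a commutative group (multiplicative), a power is a `p`-th power.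

PROOF. (1) `(t + t')(x).val ≡ t(x).val + t'(x).val` modulo `p`, so `EtT (t + t') g` and `EtT t g * EtT t' g` differ by a power (a product of powers); (2) `g` and `g'` multiply, inverses: `EtT t g⁻¹ = (EtT t g)⁻¹`. (3) reindex `τ ↦ τ φ⁻¹` (`G` need not be commutative: `χ (τ φ⁻¹) = χ τ (χ φ)⁻¹`): `∏_τ g(τ φ)^(t(χ(τ)⁻¹)) = ∏_τ' g(τ')^(t(χ(τ' φ⁻¹)⁻¹))`,
`χ(τ' φ⁻¹)⁻¹ = χ φ * (χ τ')⁻¹`. (4) `k(τ g₀) = k(τ)`, `χ g₀ ≠ 1`: let `t' x = t(x/(χ g₀ - 1))`; by (3) `EtT t' k = EtT (t' ∘ (χ g₀ *)) k`, and `t = t' ∘ (χ g₀ *) - t'`, so by (1) `EtT t k` is a power. (5) From the relation and (2): `EtT t (C)^(p-1) * EtT t C'' = EtT t K * EtT (t ∘ (χ φ *)) C''`; `EtT t C`, `EtT t K` are powers for all `t`; so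
`EtT (t ∘ (χ φ *) - t) C''` is a power for all `t` (by (1)), and `χ φ ≠ 1`: `EtT t C''` is a power for all `t`. So `EtT t ((C/C'')^(p-1))` is a power. -/
def S_EAB : Prop :=
  ∀ (p : ℕ) [Fact p.Prime] (G Fr Mt : Type) [Group G] [Fintype G] [Field Fr] [CharP Fr p]
    [CommGroup Mt] (χ : G →* Frˣ),
    (∀ (k : G → Mt) (g₀ : G), χ g₀ ≠ 1 → (∀ τ, k (τ * g₀) = k τ) → ∀ t : Fr →+ ZMod p,
      ∃ y : Mt, y ^ p = EtT p χ t k) ∧
    ∀ (C C'' K : G → Mt) (φ : G), χ φ ≠ 1 →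
      (∀ τ, C τ ^ (p - 1) * C'' τ = K τ * C'' (τ * φ)) →
      (∀ t : Fr →+ ZMod p, ∃ y : Mt, y ^ p = EtT p χ t C) →
      (∀ t : Fr →+ ZMod p, ∃ y : Mt, y ^ p = EtT p χ t K) →
      ∀ t : Fr →+ ZMod p, ∃ y : Mt, y ^ p = EtT p χ t (fun τ => (C τ / C'' τ) ^ (p - 1))

/-- (NMF) the relative norms `cWt` (`StWX.lean`: `cWt h θ τ = ∏ σ θ`, `σ ∈ Gal(F/k)` extending `τ ∈ Gal(D/k)`).

Uses Sy_MEM (theorem `Pool.Agent.MUXW.ty_MEM`, `W_MEM.lean`). PROOF. (1) products of finite products. (2) `σ ↦ σ ψ` is a bijection from the extensions of `τ` to those of `τ τψ` (`D ≤ F`, `(σ ψ)` restricted to `D` is `τ τψ`). (3) is (2) for `τψ = 1`. (4) `cWt h κ (τ g) = (τ g)(cW h κ) = τ(g(cW h κ))` (MEM), and `cW h κ` (in `D` by MEM) is a product of conjugates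
of `κ ∈ RF ⊤`, which is normal over `k` (`TorX.gal ⊤`; `σ ∈ Gal(F/k)` maps `RF ⊤ ≤ F` to itself), so in `RF ⊤`, so fixed by `g`. -/
def S_NMF : Prop :=
  ∀ (A B : ℤ), CQ A B → TorX A B → ∀ (M : ℕ), M ≠ 0 → ∀ (D : IntermediateField ℚ ℂ)
    (h : kk A B ≤ D), Sub D (RF (idl M) : IntermediateField (kk A B) ℂ) → letI := algC h
    ∀ (x y : (RF (idl M) : IntermediateField (kk A B) ℂ)), x ≠ 0 → y ≠ 0 →
    (∀ τ : D ≃ₐ[kk A B] D, cWt h (x * y) τ = cWt h x τ * cWt h y τ ∧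
      cWt h x⁻¹ τ = (cWt h x τ)⁻¹) ∧
    (∀ (τ τψ : D ≃ₐ[kk A B] D)
      (ψ : (RF (idl M) : IntermediateField (kk A B) ℂ) ≃ₐ[kk A B] RF (idl M)), Ext1 h τψ ψ →
      cWt h (ψ x) τ = cWt h x (τ * τψ)) ∧
    ((x : ℂ) ∈ (RF (⊤ : Ideal (OO A B)) : IntermediateField (kk A B) ℂ) →
      ∀ g : D ≃ₐ[kk A B] D, (∀ z : D,
        (z : ℂ) ∈ (RF (⊤ : Ideal (OO A B)) : IntermediateField (kk A B) ℂ) → g z = z) →
      ∀ τ : D ≃ₐ[kk A B] D, cWt h x (τ * g) = cWt h x τ)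

/-! ## 3. The points and the norm relation -/

/-- (HTF) automorphisms of `F = RF (idl M)` and points.

PROOF. From `Si_HIT`, `Si_IAF`, `Si_IAG`, `Si_RPR` (`IAll.lean`: for `s ∈ Aut(ℂ)` with `FixK`, `Hits R M s i x` iff `s` acts as the ideal `x cjI (b i)`, `IA`); an automorphism `σ` of `F/k` extends to `s` (`TorX.ext` for `D = F` as a field over `ℚ`), and `s` with `FixK` maps `F` to itself (`F/k` normal). `Hits R M s i x` depends only on the restriction to `F`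
(`kap`, `xn` of points of level `M` are in `F`). (1) RPR + IAF. (2) IAF 2. (3), (4) HIT: uniqueness of `(i, ± x)`, see `Sy_HIT` (`W_HIT.lean`). (5) IAG 3. (6) `s` extends `σ`; HIT: `IA s (idl M) (sp x * cjI (b i))`, so for `L₀ = R.L R.i0`: `ActI s (idl M) (sp x cjI b_i) L₀ L' mu`, and as in the proof of `Si_HIT` `L'.lattice = L_i.lattice`,
`mu = ± emb x mu_i`: `z = pt R M i0 x'` (`∉ L₀` as `M ∤ x'`) is mapped to `± emb x mu_i z = ± pt R M i (x x')`. Then `Sy_THG` (the values of `Θ_a` at points of level `M` and their conjugates; `IsHalf` for the integer `a`; `℘` is even). (7) `D ≤ RF (idl m) ≤ F`: `s` extends `τ`; `m`-level: `pt R m i x = (M/m) pt R M i x`, `s` acts as `x cjI b_i` on level `m` too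
(IAF 7), HIT for level `m`: `Hits R m s i x`; `XX` is about `Quotient.out (mk x)`, congruent to `x` modulo `m` (`Si_XXF`). (8) the same with `AR` (`StIX.lean`): `σ` extends `s` with `IA s (idl M) (sp x cjI b_i)`. -/
def S_HTF : Prop :=
  ∀ (A B : ℤ), CQ A B → TorX A B → ∀ (n : ℕ) (ι : Type) (R : Reps A B n ι) (M : ℕ), 3 ≤ M →
    (∀ i, (nI (R.b i)).Coprime M) →
    (∀ σ : (RF (idl M) : IntermediateField (kk A B) ℂ) ≃ₐ[kk A B] RF (idl M),
      ∃ (i : ι) (x : OO A B), HitF R M _ σ i x) ∧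
    (∀ (i : ι) (x : OO A B), IsCoprime x ((M : ℕ) : OO A B) →
      ∃ σ : (RF (idl M) : IntermediateField (kk A B) ℂ) ≃ₐ[kk A B] RF (idl M),
        HitF R M _ σ i x) ∧
    (∀ (σ : (RF (idl M) : IntermediateField (kk A B) ℂ) ≃ₐ[kk A B] RF (idl M)) (i j : ι)
      (x y : OO A B), HitF R M _ σ i x → IsCoprime y ((M : ℕ) : OO A B) →
      (HitF R M _ σ j y ↔ j = i ∧ (x - y ∈ idl (A := A) (B := B) M ∨
        x + y ∈ idl (A := A) (B := B) M))) ∧
    (∀ (σ σ' : (RF (idl M) : IntermediateField (kk A B) ℂ) ≃ₐ[kk A B] RF (idl M)) (i : ι)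
      (x : OO A B), HitF R M _ σ i x → HitF R M _ σ' i x → σ = σ') ∧
    (∀ (σ : (RF (idl M) : IntermediateField (kk A B) ℂ) ≃ₐ[kk A B] RF (idl M)) (i : ι)
      (x : OO A B), HitF R M _ σ i x → ∀ x' : OO A B, x' ∉ idl (A := A) (B := B) M →
      ∀ (a : ℕ) (H H' : Finset ℂ), a ≠ 0 → IsHalf (R.L R.i0) a H → IsHalf (R.L i) a H' →
      ∃ hz : ThetaH (R.L R.i0) H (pt R M R.i0 x') ∈ (RF (idl M) : IntermediateField (kk A B) ℂ),
        ((σ ⟨_, hz⟩ : (RF (idl M) : IntermediateField (kk A B) ℂ)) : ℂ) =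
          ThetaH (R.L i) H' (pt R M i (x * x'))) ∧
    ∀ m : ℕ, m ∣ M → 3 ≤ m → ∀ (D : IntermediateField ℚ ℂ) (h : kk A B ≤ D),
      Sub D (RF (idl m) : IntermediateField (kk A B) ℂ) → letI := algC h
      ∀ (τ : D ≃ₐ[kk A B] D)
      (σ : (RF (idl M) : IntermediateField (kk A B) ℂ) ≃ₐ[kk A B] RF (idl M)) (i : ι)
      (x : OO A B), Ext1 h τ σ → HitF R M _ σ i x →
      (i, Ideal.Quotient.mk (idl (A := A) (B := B) m) x) ∈ XX R m h τ

/-- (DTP) distribution relation of `Θ_a` over the kernel of an isogeny of odd degree prime to `a`.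

PROOF. `Su_PFI` (theorem `Pool.Agent.MUXU.u_PFI`) with `w := z`, `z := q` (`q ∈ H`; `mu q ∉ M`: otherwise `q` is killed by `a` and by `n`, prime to each other, so `q ∈ L`): `mu² (℘_M(mu q) - ℘_M(mu z)) ∏_(r ∈ Rp) (℘(q) - ℘(r)) = (℘(q) - ℘(z)) ∏_(r ∈ Rp) (℘(q) - ℘(z + r))`. `Rp.card` is even: the product over `{0} ∪ Rp` of `℘(z + r) - ℘(q)` is
`mu² ∏_r (℘(q) - ℘(r)) (℘_M(mu z) - ℘_M(mu q))`. Product over `q ∈ H`: the right side is `C ∏_(q ∈ H) (℘_M(mu z) - ℘_M(mu q))`, `C = ∏_q mu² ∏_r (℘(q) - ℘(r)) ≠ 0` (`b_NEQ`: `q ± r ∉ L`). `{mu q : q ∈ H}` is a half system for `a` on `M`: `a mu q ∈ M`; `2 mu q ∈ M` would give `2 n q ∈ L`, with `a q ∈ L`, `a` prime to `2 n`: `q ∈ L`; `inj`,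
`neg` in the same way; `surj`: `a u ∈ M`, `u ∉ M`: `z = u/mu`: `n a z ∈ L`; let `s n ≡ 1` modulo `a`: `q' = s n z`, `a q' ∈ L`, and `mu q' - u = (s n - 1) u ∈ M`; `q' ∉ L`, so `q' ≡ ± q`. `Θ_a` does not depend on the half system (`b_TIN`, `St_TIN` of `StB2.lean`). `a`, `n` odd is not needed except as stated. -/
def S_DTP : Prop :=
  ∀ (L M : PeriodPair) (mu : ℂ), mu ≠ 0 → Isg L M mu → ∀ Rp : Finset ℂ, IsRpM L M mu Rp →
    Even Rp.card → ∀ n : ℕ, n ≠ 0 → (∀ z, mu * z ∈ M.lattice → (n : ℂ) * z ∈ L.lattice) →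
    ∀ (a : ℕ) (H H' : Finset ℂ), a ≠ 0 → a.Coprime (2 * n) → IsHalf L a H → IsHalf M a H' →
    ∃ C : ℂ, C ≠ 0 ∧ ∀ z, mu * z ∉ M.lattice →
      ThetaH L H z * ∏ r ∈ Rp, ThetaH L H (z + r) = C * ThetaH M H' (mu * z)

/-- (KRP) the kernel `E[P]`.

USES IDP. PROOF. `L = R.L i = om_i emb (b_i)`, `mu z ∈ L'` iff `x z ∈ L` for all `x ∈ P`. `r_c = c pt R p i y = om_i N(b_i) emb (c y)/p`. `x ∈ P`: `x y ∈ P cjI P = (p)`, so `x r_c ∈ om_i N(b_i) emb O ⊆ L` (`N(b_i) ∈ b_i`). Different, not in `L`, and all classes: it is easier to count: the group `{z : mu z ∈ L'}/L` is `P⁻¹ b_i/b_i` (times `om_i`), of order `nI P = p`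
(`Sx_IDL`, `Sx_NIM`; or: `z = om_i u`, `P u ⊆ b_i`; `p u ∈ cjI P b_i` (multiply by `cjI P`); and `cjI P b_i/(p b_i) ≅ O/P` has `p` elements). `r_1 ∉ L`: `N(b_i) y/p ∈ b_i` would give (multiply by `cjI b_i`, `b_i cjI b_i = (N)`) `y cjI(b_i) ⊆ (p)`, `nI (b_i)` is prime to `p`, so `y ∈ (p) ⊆ P`, a contradiction. So `r_1` generates the group of prime order
`p`. -/
def S_KRP : Prop :=
  ∀ (p : ℕ) (A B : ℤ) (P : Ideal (OO A B)) (V : ValuationSubring ℂ) (f : ℕ), SetG p A B P V f →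
    ∀ (ι : Type) (R : Reps A B (p * f) ι) (i : ι) (L' : PeriodPair) (mu : ℂ),
    IsQ P (R.L i) L' mu → ∀ y : OO A B, y ∈ cjI P → y ∉ P →
    Isg (R.L i) L' mu ∧ (∀ z, mu * z ∈ L'.lattice → (p : ℂ) * z ∈ (R.L i).lattice) ∧
    (∀ c c' : ℤ, (c : ℂ) * pt R p i y - c' * pt R p i y ∈ (R.L i).lattice ↔ (p : ℤ) ∣ c - c') ∧
    IsRpM (R.L i) L' mu ((Finset.Icc 1 (p - 1)).image fun c : ℕ => (c : ℂ) * pt R p i y) ∧
    ((Finset.Icc 1 (p - 1)).image fun c : ℕ => (c : ℂ) * pt R p i y).card = p - 1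

/-- (NRR) the norm relation over `P`.

USES IDP, HTF, DTP, KRP. PROOF. `L = R.L R.i0`, `M = m p`, `F = RF (idl M)`. `γ c` from HTF (2) (`a_c` is prime to `M`: IDP). `I = idl m * cjI P`: `TorX.surj I P` (`P` is coprime to `I`: IDP; `≠ ⊥`) gives `s₀ ∈ Aut(ℂ/k)` with `IA s₀ I P`; it maps `F` to itself, `φ` = its restriction; `IA s₀ (idl m) P` (`Si_IAF` 7, `I ≤ idl m`). `ActI s₀ I P L L' mu` with `L'`
normalised. `θ'' = Θ(pt R M i0 x0)` (HTF (5) for `σ = 1`, `x0 ∉ idl M` as `x0 - 1 ∈ idl m`, `m ≥ 3`: `1 ∉ idl m`..., or from `Sy_THG`). `Θ ≠ 0` at all points involved: `Θ(z) = 0` only if `a z ∈ L` (`b_NEQ`, `IsHalf`), but `m p` and `a` are coprime. `κ := (∏_c γ_c θ) θ''/φ(θ'')`.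
Let `σ ∈ Gal(F/k)` be trivial on `RF ⊤`: it hits `(i0, b)` (`s` fixes `kap L`, so the class is `i0`: `R.inj`/`UNJ`; or `Sy_KER`), `b` prime to `M`. HTF (5): `σ(γ_c θ) = Θ(pt R M i0 (b a_c))` (`γ_c θ = Θ(pt i0 a_c)`), `b a_c = b x0 + c m b y0`: `= Θ(z_b + c r_b)`, `z_b = pt R M i0 (b x0)`, `r_b = pt R p i0 (b y0)`; `σ θ'' = Θ(z_b)`. (KRP) for `y = b y0`
(`∈ cjI P`, `∉ P`), (DTP) for `L`, `L'`, `mu`, `n = p` (`H'` a half system for `a` on `L'`: `b_HAL`, `a` odd): `σ((∏ γ_c θ) θ'') = C Θ(mu z_b; L')`, `C` independent of `σ` (the constant of DTP depends on the set `Rp`, but the product over the classes of `E[P] - 0` does not: `{c r_b}` is the same set of classes for all `b`; `Θ` is periodic; or use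
`z ↦` one value to compare). `φ(σ θ'') = φ(Θ(z_b)) = Θ(mu z_b; L')` (`z_b ∈ E[I]`: `I b x0 ⊆ m cjI P P = (M)`; `Sy_THC`/`Sy_THG` with `PM`). The group is commutative (`TorX.comm`): `σ(φ θ'') = φ(σ θ'')`. So `σ κ = C` for all these `σ` (in particular `σ = 1`), so `κ ∈ RF ⊤` (Galois theory: `RF ⊤ ≤ F`, `F/k` Galois; see the end of the proof of `Sy_DIS`,
`W_DIS.lean`). -/
def S_NRR : Prop :=
  ∀ (p : ℕ) (A B : ℤ) (P : Ideal (OO A B)) (V : ValuationSubring ℂ) (f : ℕ), SetG p A B P V f →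
    TorX A B → ∀ (ι : Type) [Finite ι] (R : Reps A B (p * f) ι) (m : ℕ), LvM p f m R →
    ∀ (x0 y0 : OO A B), x0 ∈ P → x0 - 1 ∈ idl m * cjI P → y0 ∈ cjI P → y0 ∉ P →
    ∀ (a : ℕ) (H : Finset ℂ), 1 < a → a.Coprime (2 * m * p) → IsHalf (R.L R.i0) a H →
    ∀ θ : (RF (idl (m * p)) : IntermediateField (kk A B) ℂ),
    (θ : ℂ) = ThetaH (R.L R.i0) H (pt R (m * p) R.i0 1) →
    ∃ (θ'' κ : (RF (idl (m * p)) : IntermediateField (kk A B) ℂ))
      (γ : ℕ → ((RF (idl (m * p)) : IntermediateField (kk A B) ℂ) ≃ₐ[kk A B] RF (idl (m * p))))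
      (φ : (RF (idl (m * p)) : IntermediateField (kk A B) ℂ) ≃ₐ[kk A B] RF (idl (m * p)))
      (s₀ : ℂ ≃+* ℂ),
      (θ'' : ℂ) = ThetaH (R.L R.i0) H (pt R (m * p) R.i0 x0) ∧ θ ≠ 0 ∧ θ'' ≠ 0 ∧ κ ≠ 0 ∧
      (κ : ℂ) ∈ (RF (⊤ : Ideal (OO A B)) : IntermediateField (kk A B) ℂ) ∧
      (∀ c : ℕ, 1 ≤ c → c < p → HitF R (m * p) _ (γ c) R.i0 (x0 + c * m * y0)) ∧
      (∀ c : ℕ, 1 ≤ c → c < p → ∀ y : (RF (idl (m * p)) : IntermediateField (kk A B) ℂ),
        (y : ℂ) ∈ (RF (idl m) : IntermediateField (kk A B) ℂ) → γ c y = y) ∧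
      (∏ c ∈ Finset.Icc 1 (p - 1), γ c θ) * θ'' = κ * φ θ'' ∧
      IA s₀ (idl (A := A) (B := B) m) P ∧
      ∀ y : (RF (idl (m * p)) : IntermediateField (kk A B) ℂ), s₀ (y : ℂ) = ((φ y :
        (RF (idl (m * p)) : IntermediateField (kk A B) ℂ)) : ℂ)

/-! ## 4. The sums -/

/-- (XPC) the conjugates of `u = ∏ γ_c θ / θ''^(p-1)` to the first order.

USES S_KEYA (block A), IDP, VPG, HTF, KRP. PROOF. `t0` from `S_KEYA` for `y0`. HTF (5): `σ(γ_c θ) = Θ(L_i; pt R M i (x a_c))` (`γ_c θ = Θ(pt R M i0 a_c)` by HTF (5) for `γ_c` and `x' = 1`), `x a_c = x x0 + c m (x y0)`, `pt R M i (x a_c) = z + c pt R p i (x y0)`, `z = pt R M i (x x0)`; `σ θ'' = Θ(L_i; z)`. Let `n` be an integer, `x ≡ n` modulo `P` (`p ∤ n`):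
`(x - n) y0 ∈ P cjI P = (p)`, so `pt R p i (x y0) ≡ n pt R p i y0` modulo `L_i`, and `c ↦ n c` modulo `p` permutes `1..p-1` (`p pt R p i y0 ∈ L_i`, `Θ` periodic): `∏_c σ(γ_c θ) = ∏_c Θ(L_i; z + c pt R p i y0)`. `z`, `2 z`, `a z` are not in the kernel of reduction: if `n z` is (`n = 1, 2, a`) then so is `p n z = pt R m i (n x x0)`, killed by `m`, so (VPG)
`pt R m i (n x x0) ∈ L_i`, `m ∣ n x x0` (`nI (b_i)` prime to `m`), `x x0` is prime to `m` (`x0 ≡ 1`), so `m ∣ n` in `O`, so in `ℤ`; but `m ≥ 3` and `a > 1` is prime to `m` (`f ∣ m`, `2 absD ∣ f`, `absD ≥ 3`). `S_KEYA` (with `H' = H i` a half system on `L_i`): divide by `Θ(z)^(p-1)`, a unit (first clause, `c = 0`). `z + c pt R p i y0 = pt R M i (x x0 + c m y0)`. -/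
def S_XPC : Prop :=
  ∀ (p : ℕ) (A B : ℤ) (P : Ideal (OO A B)) (V : ValuationSubring ℂ) (f : ℕ), SetG p A B P V f →
    TorX A B → ∀ (ι : Type) [Finite ι] (R : Reps A B (p * f) ι), GRd V R → ∀ (m : ℕ),
    LvM p f m R →
    ∀ (x0 y0 : OO A B), x0 ∈ P → x0 - 1 ∈ idl m * cjI P → y0 ∈ cjI P → y0 ∉ P →
    ∃ t0 : ℂ, t0 ≠ 0 ∧ V.valuation t0 ^ (p - 1) = V.valuation (p : ℂ) ∧
    ∀ (a : ℕ) (H : Finset ℂ), 1 < a → a.Coprime (2 * m * p) → IsHalf (R.L R.i0) a H →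
    ∀ θ θ'' : (RF (idl (m * p)) : IntermediateField (kk A B) ℂ),
    (θ : ℂ) = ThetaH (R.L R.i0) H (pt R (m * p) R.i0 1) →
    (θ'' : ℂ) = ThetaH (R.L R.i0) H (pt R (m * p) R.i0 x0) →
    ∀ γ : ℕ → ((RF (idl (m * p)) : IntermediateField (kk A B) ℂ) ≃ₐ[kk A B] RF (idl (m * p))),
    (∀ c : ℕ, 1 ≤ c → c < p → HitF R (m * p) _ (γ c) R.i0 (x0 + c * m * y0)) →
    ∀ (σ : (RF (idl (m * p)) : IntermediateField (kk A B) ℂ) ≃ₐ[kk A B] RF (idl (m * p)))
      (i : ι) (x : OO A B), HitF R (m * p) _ σ i x →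
      V.valuation (((σ ((∏ c ∈ Finset.Icc 1 (p - 1), γ c θ) / θ'' ^ (p - 1)) :
          (RF (idl (m * p)) : IntermediateField (kk A B) ℂ)) : ℂ) - 1 +
        muX R i * t0 * ∑ c ∈ Finset.Icc 1 (p - 1),
          (c : ℂ) * dlX (R.L i) a (pt R (m * p) i (x * x0 + c * m * y0))) ≤
        V.valuation (p : ℂ) * V.valuation t0 ∧
      V.valuation t0 * V.valuation (∑ c ∈ Finset.Icc 1 (p - 1),
          (c : ℂ) * dlX (R.L i) a (pt R (m * p) i (x * x0 + c * m * y0))) ≤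
        V.valuation (p : ℂ) ∧
      ∀ c : ℕ, dlX (R.L i) a (pt R (m * p) i (x * x0 + c * m * y0)) ∈ V

/-- (CNT) counting: the `X = x x0 + c m y0`.

USES IDP, HTF. PROOF. `M = m p`. `E i x := Σ_(c = 1)^(p-1) G i (x x0 + c m y0)`, periodic modulo `M` in `x`, and even: `- x x0 + c m y0 ≡ -(x x0 + (p - c) m y0)` modulo `M`. By HTF (1)-(4) every `(i, x)` with `x` modulo `M` prime to `M` is `(I σ, ± X σ)` for exactly one `σ` and one sign (`2 x ∉ idl M` as `M ≥ 3`), so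
`2 Σ_σ E (I σ) (X σ) = Σ_i Σ_(x mod M, prime to M) E i x`. For fixed `i`: `Σ_x Σ_c G i (x x0 + c m y0)`: by IDP (last clause) for `x`, `X` prime to `M`: `X ≡ x x0 + c m y0` modulo `M` for some (exactly one) `c` iff `X ≡ x` modulo `m cjI P`; so every `X` prime to `M` occurs as often as there are `x` modulo `M`, prime to `M`, with `x ≡ X` modulo `m cjI P`:
`p - 1` times (the classes `x` modulo `M` with `x ≡ X` modulo `m cjI P` correspond to the classes modulo `P` (CRT), those prime to `M` to the classes `≠ 0`: `x` is prime to `m cjI P` as `X` is). (And all `x x0 + c m y0` are prime to `M`.) -/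
def S_CNT : Prop :=
  ∀ (p : ℕ) (A B : ℤ) (P : Ideal (OO A B)) (V : ValuationSubring ℂ) (f : ℕ), SetG p A B P V f →
    TorX A B → ∀ (ι : Type) [Fintype ι] (R : Reps A B (p * f) ι) (m : ℕ), LvM p f m R →
    ∀ (x0 y0 : OO A B), x0 ∈ P → x0 - 1 ∈ idl m * cjI P → y0 ∈ cjI P → y0 ∉ P →
    ∀ (G : ι → OO A B → ℂ),
    (∀ i x y, x - y ∈ idl (A := A) (B := B) (m * p) → G i x = G i y) →
    (∀ i x, G i (-x) = G i x) →
    (∀ i x, ¬ IsCoprime x ((m * p : ℕ) : OO A B) → G i x = 0) →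
    ∀ [Fintype (GalF A B (m * p))] (I : GalF A B (m * p) → ι) (X : GalF A B (m * p) → OO A B),
    (∀ σ, HitF R (m * p) _ σ (I σ) (X σ)) →
    2 * ∑ σ : GalF A B (m * p), ∑ c ∈ Finset.Icc 1 (p - 1), G (I σ) (X σ * x0 + c * m * y0) =
      ((p : ℂ) - 1) * ∑ i, sumMod ((m * p : ℕ) : OO A B) (G i)

/-- (SIG) the sum over `Gal(F/k)` in terms of `SDT`.

USES IDP, VPG, MUG, CNT. PROOF. `M = f l^N p`, `m = f l^N` (`LvM`: `R.cop`, `l ∣ f`). `G i x = th i x oneT w x w x mu_i dlX (L_i) a (pt R M i x)`, `th = thT R kp eta ψ`: periodic modulo `M` (`Si_PTP`; `eta` modulo `f`, `ψ(nm x ..)` modulo `l^N`, `w` modulo `P`, `w ∘ star` modulo `cjI P`), even (`th` even: `eta (-1) = 1`, `nm (-x) = nm x`; `oneT` even; `w` odd: `w(-1) = -1`,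
since `w(-1)² = 1`, `v(w(-1) + 1) < 1`; `dlX` odd: `ee` is odd), `0` if `x` is not prime to `M` (`eta x = 0` if not prime to `f` (and `l ∣ f`), `w x = 0` if `x ∈ P`, `oneT w x = 0` if `x ∈ cjI P`). `X_c = X σ x0 + c m y0`: `th (I σ) X_c = th (I σ) (X σ)` (`X_c ≡ X σ` modulo `m`), `oneT w X_c = 1` (`X_c` is prime to `p`), `w X_c = w(c) w(m y0)` (`x0 ∈ P`).
So `G (I σ) X_c = th (I σ)(X σ) mu w(m y0) w(c) dlX(..)`, and `v(w(c) - c) ≤ v(p)` (`TeiP.int`), `v(w(m y0)) = v(th ..) = v(mu) = 1` (roots of unity; MUG), `v(dlX) ≤ 1` by hypothesis. CNT: `2 Σ_σ Σ_c G = (p - 1) SDT`. So `w(m y0) Σ_σ th mu Σ_c c dlX = ((p-1)/2) SDT` up to an element of valuation `≤ v(p)`; `v((p - 1)/2) = 1`. Statement: with `u1 = 2 w(m y0)/(p - 1)`, a unit. -/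
def S_SIG : Prop :=
  ∀ (p : ℕ) (A B : ℤ) (P : Ideal (OO A B)) (V : ValuationSubring ℂ) (f : ℕ), SetG p A B P V f →
    TorX A B → ∀ (ι : Type) [Fintype ι] (R : Reps A B (p * f) ι), GRd V R →
    ∀ (w : OO A B → ℂ), TeiP p P V w → ∀ (kp : ι → ℂ) (eta : OO A B → ℂ), ChD p f R kp eta →
    ∀ (l N : ℕ), l.Prime → l ∣ f → ∀ ψ : DirichletCharacter ℂ (l ^ N), ψ (-1) = 1 →
    ∀ (x0 y0 : OO A B), x0 ∈ P → x0 - 1 ∈ idl (f * l ^ N) * cjI P → y0 ∈ cjI P → y0 ∉ P →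
    ∃ u1 : ℂ, V.valuation u1 = 1 ∧
    ∀ (a : ℕ), 1 < a → a.Coprime (6 * f * p) →
    ∀ [Fintype (GalF A B (f * l ^ N * p))] (I : GalF A B (f * l ^ N * p) → ι)
      (X : GalF A B (f * l ^ N * p) → OO A B),
    (∀ σ, HitF R (f * l ^ N * p) _ σ (I σ) (X σ)) →
    (∀ σ, ∀ c : ℕ, dlX (R.L (I σ)) a
      (pt R (f * l ^ N * p) (I σ) (X σ * x0 + c * (f * l ^ N : ℕ) * y0)) ∈ V) →
    V.valuation (u1 * ∑ σ : GalF A B (f * l ^ N * p), thT R kp eta ψ (I σ) (X σ) * (muX R (I σ) *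
      ∑ c ∈ Finset.Icc 1 (p - 1), (c : ℂ) * dlX (R.L (I σ)) a
        (pt R (f * l ^ N * p) (I σ) (X σ * x0 + c * (f * l ^ N : ℕ) * y0))) -
      SDT R (f * l ^ N * p) a (thT R kp eta ψ) w) ≤ V.valuation (p : ℂ)

/-- (SDE) from `dlX` to `ee`.

USES IDP, VPG. PROOF. `M = f l^N p`. `dlX L a z = a ee(a z) - a² ee(z)`, `a pt R M i x = pt R M i (a x)` (`Si_PTP`). `a` is prime to `M`: `x ↦ a x` permutes `O/M`, and `F i x := th i x oneT w x w x` is multiplicative: `F i (a x) = th₀(a) w(a) F i x`, `th₀(a) = thT R kp eta ψ R.i0 a = kp_i0 eta(a) ψ(a² nI ⊤) = eta(a) ψ(a²)` (`kp0`, `nm a = a²`, `nI (b i0) = 1`; `oneT w (a x) = oneT w x`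
as `a ∉ P`). So `Σ_x F i x ee(pt(a x)) = (th₀(a) w(a))⁻¹ Σ_x F i x ee(pt x)`, `SDT = (a (th₀(a) w(a))⁻¹ - a²) SST`. `v(th₀(a)) = 1` (root of unity), `v(a/w(a) - 1) < 1`; `a (th₀ w)⁻¹ - a² = th₀⁻¹ (a/w(a) - a² th₀)`, and `v(1 - a² th₀) = 1`, so the factor is a unit. -/
def S_SDE : Prop :=
  ∀ (p : ℕ) (A B : ℤ) (P : Ideal (OO A B)) (V : ValuationSubring ℂ) (f : ℕ), SetG p A B P V f →
    ∀ (ι : Type) [Fintype ι] (R : Reps A B (p * f) ι) (w : OO A B → ℂ), TeiP p P V w →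
    ∀ (kp : ι → ℂ) (eta : OO A B → ℂ), ChD p f R kp eta →
    ∀ (l N : ℕ), l.Prime → l ∣ f → ∀ ψ : DirichletCharacter ℂ (l ^ N),
    ∀ (a : ℕ), 1 < a → a.Coprime (6 * f * p) →
    V.valuation (1 - (a : ℂ) ^ 2 * thT R kp eta ψ R.i0 a) = 1 →
    V.valuation (SDT R (f * l ^ N * p) a (thT R kp eta ψ) w) =
      V.valuation (SST R (f * l ^ N * p) (thT R kp eta ψ) w)

/-- (PHI) `χ(φ) ≠ 1`.

PROOF. `m = f l^N`. `D/k` is Galois, abelian (`D ≤ RF (idl m)`). `s₀` restricts to `τφ`, so `AR h (idl m) τφ P` (`StIX.lean`), and `AR h (idl m) (τφ^r) (P^r)` (`Si_ARF` 5, 1; `Pool.Agent.MUXI.i_ARF`), `P^r = sp y = sp y * cjI (b i0)` (`b0`, `cjI ⊤ = ⊤`); `y` is prime to `m` (`P` is coprime to `idl m`: IDP), so `(i0, mk y) ∈ XX R m h (τφ^r)` (`Si_XXF`), so by the hypothesis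
`(χ(τφ^r))⁻¹ = rsd V (thT R kp eta ψ i0 (out (mk y))) = rsd V (thT .. i0 y)` (`th` is periodic modulo `m`), which is not `1` since `v(1 - th y) = 1`. If `χ τφ = 1` this is a contradiction. -/
def S_PHI : Prop :=
  ∀ (p : ℕ) [Fact p.Prime] (A B : ℤ) (P : Ideal (OO A B)) (V : ValuationSubring ℂ) (f : ℕ),
    SetG p A B P V f → TorX A B → ∀ (ι : Type) [Finite ι] (R : Reps A B (p * f) ι)
    (kp : ι → ℂ) (eta : OO A B → ℂ), ChD p f R kp eta →
    ∀ (l N : ℕ), l.Prime → l ∣ f → ∀ ψ : DirichletCharacter ℂ (l ^ N), ψ (-1) = 1 →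
    ∀ (r : ℕ) (y : OO A B), P ^ r = sp y → V.valuation (1 - thT R kp eta ψ R.i0 y) = 1 →
    ∀ (D : IntermediateField ℚ ℂ) (h : kk A B ≤ D),
    Sub D (RF (idl (f * l ^ N)) : IntermediateField (kk A B) ℂ) → letI := algC h
    ∀ (χ : (D ≃ₐ[kk A B] D) →* (IsLocalRing.ResidueField V)ˣ),
    (∀ (τ : D ≃ₐ[kk A B] D), ∀ q ∈ XX R (f * l ^ N) h τ,
      rsd V (thT R kp eta ψ q.1 (Quotient.out q.2)) = (((χ τ)⁻¹ : (IsLocalRing.ResidueField V)ˣ) :
        IsLocalRing.ResidueField V)) →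
    ∀ (s₀ : ℂ ≃+* ℂ) (τφ : D ≃ₐ[kk A B] D), IA s₀ (idl (A := A) (B := B) (f * l ^ N)) P →
      ExtC h τφ s₀ → χ τφ ≠ 1

end

end Pool.Agent.TWT


end

section

/-!
# TWT_CNT: counting
-/

set_option autoImplicit false

open WeierstrassCurve Polynomial NumberField IsDedekindDomain

namespace Pool.Agent.TWT

open _root_.MU3 Pool.Agent.MU3A Pool.Agent.MU3B Pool.Agent.MU3C Pool.Agent.RI Pool.Agent.RID
open Pool.Agent.MUX Pool.Agent.MUXU Pool.Agent.MUXW
open Pool.Agent.MU3V (cls Sub GD algDF)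
open Pool.Agent.MUXV (GR InK tX)
open Pool.Agent.MUXI (IA RE AR)

noncomputable section

namespace CNT

variable {A B : ℤ}

lemma nat_dvd_iff (n : ℕ) (x : OO A B) :
    ((n : ℕ) : OO A B) ∣ x ↔ (n : ℤ) ∣ x.re ∧ (n : ℤ) ∣ x.im := by
  constructor
  · rintro ⟨t, rfl⟩
    refine ⟨⟨t.re, ?_⟩, ⟨t.im, ?_⟩⟩
    · rw [QuadraticAlgebra.re_mul]; simp
    · rw [QuadraticAlgebra.im_mul]; simp
  · rintro ⟨⟨s, hs⟩, ⟨t, ht⟩⟩
    refine ⟨⟨s, t⟩, ?_⟩
    apply QuadraticAlgebra.ext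
    · rw [QuadraticAlgebra.re_mul]; simp [hs]
    · rw [QuadraticAlgebra.im_mul]; simp [ht]

lemma mk_eq_iff (m x y : OO A B) :
    Ideal.Quotient.mk (Ideal.span {m}) x = Ideal.Quotient.mk (Ideal.span {m}) y ↔ m ∣ x - y := by
  rw [Ideal.Quotient.eq, Ideal.mem_span_singleton]

lemma finR (n : ℕ) (hn : n ≠ 0) : Finite (OO A B ⧸ Ideal.span {((n : ℕ) : OO A B)}) := by
  have : NeZero n := ⟨hn⟩
  refine Finite.of_injective (fun q : OO A B ⧸ Ideal.span {((n : ℕ) : OO A B)} =>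
    (((Quotient.out q).re : ZMod n), ((Quotient.out q).im : ZMod n))) ?_
  intro q q' h
  simp only [Prod.mk.injEq] at h
  rw [← Ideal.Quotient.mk_out q, ← Ideal.Quotient.mk_out q', mk_eq_iff, nat_dvd_iff]
  refine ⟨?_, ?_⟩
  · rw [QuadraticAlgebra.re_sub, ← ZMod.intCast_zmod_eq_zero_iff_dvd, Int.cast_sub, sub_eq_zero]
    exact h.1
  · rw [QuadraticAlgebra.im_sub, ← ZMod.intCast_zmod_eq_zero_iff_dvd, Int.cast_sub, sub_eq_zero]
    exact h.2

lemma sumMod_mul {m a : OO A B} (ha : IsCoprime a m) {F : OO A B → ℂ}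
    (hF : ∀ x y, x - y ∈ Ideal.span {m} → F x = F y) :
    sumMod m (fun x => F (a * x)) = sumMod m F := by
  obtain ⟨u, v, huv⟩ := ha
  have h1 : Ideal.Quotient.mk (Ideal.span {m}) a * Ideal.Quotient.mk (Ideal.span {m}) u = 1 := by
    rw [← map_mul, ← map_one (Ideal.Quotient.mk (Ideal.span {m})), Ideal.Quotient.eq,
      Ideal.mem_span_singleton]
    exact ⟨-v, by linear_combination huv⟩
  let e : (OO A B ⧸ Ideal.span {m}) ≃ (OO A B ⧸ Ideal.span {m}) :=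
    (Units.mkOfMulEqOne _ _ h1).mulLeft
  unfold sumMod
  rw [← finsum_comp_equiv (f := fun q : OO A B ⧸ Ideal.span {m} => F (Quotient.out q)) e]
  refine finsum_congr fun q => ?_
  refine hF _ _ ?_
  rw [← Ideal.Quotient.eq, map_mul, Ideal.Quotient.mk_out]
  have h2 : Ideal.Quotient.mk (Ideal.span {m}) (Quotient.out (e q)) = e q :=
    Ideal.Quotient.mk_out _
  rw [h2]
  rfl

/-- A permutation of the nonzero classes. -/
lemma perm {p n : ℕ} (hp : p.Prime) (hn : ¬ p ∣ n) (F : ℕ → ℂ) (hF : ∀ c, F (c % p) = F c) :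
    ∑ c ∈ Finset.Icc 1 (p - 1), F (n * c) = ∑ c ∈ Finset.Icc 1 (p - 1), F c := by
  have hpos := hp.pos
  have hmem : ∀ c, c ∈ Finset.Icc 1 (p - 1) ↔ 0 < c ∧ c < p := by
    intro c
    rw [Finset.mem_Icc]
    omega
  have hmaps : Set.MapsTo (fun c => (n * c) % p) (Finset.Icc 1 (p - 1) : Finset ℕ)
      (Finset.Icc 1 (p - 1) : Finset ℕ) := by
    intro c hc
    rw [Finset.mem_coe, hmem] at hc ⊢
    refine ⟨?_, Nat.mod_lt _ hpos⟩
    rw [Nat.pos_iff_ne_zero]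
    intro h0
    rcases (hp.dvd_mul.1 (Nat.dvd_of_mod_eq_zero h0)) with h1 | h1
    · exact hn h1
    · exact absurd (Nat.le_of_dvd hc.1 h1) (by omega)
  have hinj : Set.InjOn (fun c => (n * c) % p) (Finset.Icc 1 (p - 1) : Finset ℕ) := by
    intro c hc c' hc' hcc
    rw [Finset.mem_coe, hmem] at hc hc'
    have h1 : n * c ≡ n * c' [MOD p] := hcc
    have h2 : c ≡ c' [MOD p] :=
      Nat.ModEq.cancel_left_of_coprime ((Nat.Prime.coprime_iff_not_dvd hp).2 hn) h1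
    have h3 : c % p = c' % p := h2
    rwa [Nat.mod_eq_of_lt hc.2, Nat.mod_eq_of_lt hc'.2] at h3
  have hsurj := Finset.surjOn_of_injOn_of_card_le (fun c => (n * c) % p) hmaps hinj le_rfl
  refine Finset.sum_of_injOn (fun c => (n * c) % p) hinj hmaps (fun c hc hc' => ?_)
    (fun c _ => (hF (n * c)).symm)
  exact absurd (hsurj hc) hc'

/-- Sum over the Galois group against the sum over the classes. -/
lemma count {ι Gt : Type} [Fintype ι] [Fintype Gt] {M : ℕ} (hM : 3 ≤ M)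
    (Hit : Gt → ι → OO A B → Prop)
    (h2 : ∀ (i : ι) (x : OO A B), IsCoprime x ((M : ℕ) : OO A B) → ∃ σ, Hit σ i x)
    (h3 : ∀ (σ : Gt) (i j : ι) (x y : OO A B), Hit σ i x → IsCoprime y ((M : ℕ) : OO A B) →
      (Hit σ j y ↔ j = i ∧ (x - y ∈ idl (A := A) (B := B) M ∨
        x + y ∈ idl (A := A) (B := B) M)))
    (h4 : ∀ (σ σ' : Gt) (i : ι) (x : OO A B), Hit σ i x → Hit σ' i x → σ = σ')
    (F : ι → OO A B → ℂ) (hper : ∀ i x y, x - y ∈ idl (A := A) (B := B) M → F i x = F i y)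
    (heven : ∀ i x, F i (-x) = F i x)
    (hzero : ∀ i x, ¬ IsCoprime x ((M : ℕ) : OO A B) → F i x = 0)
    (I : Gt → ι) (X : Gt → OO A B) (hco : ∀ σ, IsCoprime (X σ) ((M : ℕ) : OO A B))
    (hX : ∀ σ, Hit σ (I σ) (X σ)) :
    2 * ∑ σ, F (I σ) (X σ) = ∑ i, sumMod ((M : ℕ) : OO A B) (F i) := by
  classical
  have hfin : Finite (OO A B ⧸ Ideal.span {((M : ℕ) : OO A B)}) := finR M (by omega)
  have hft := Fintype.ofFinite (OO A B ⧸ Ideal.span {((M : ℕ) : OO A B)})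
  have e1 : ∑ i, sumMod ((M : ℕ) : OO A B) (F i) =
      ∑ q : ι × (OO A B ⧸ Ideal.span {((M : ℕ) : OO A B)}), F q.1 (Quotient.out q.2) := by
    rw [Fintype.sum_prod_type]
    refine Finset.sum_congr rfl fun i _ => ?_
    unfold sumMod
    rw [finsum_eq_sum_of_fintype]
  have e2 : 2 * ∑ σ, F (I σ) (X σ) = ∑ q : Gt × Bool, F (I q.1) (X q.1) := by
    rw [Fintype.sum_prod_type, Finset.mul_sum]
    refine Finset.sum_congr rfl fun σ _ => ?_
    simp [two_mul]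
  rw [e1, e2]
  let e : Gt × Bool → ι × (OO A B ⧸ Ideal.span {((M : ℕ) : OO A B)}) := fun q =>
    (I q.1, Ideal.Quotient.mk _ (if q.2 then X q.1 else - X q.1))
  have htwo : ∀ σ, ¬ X σ + X σ ∈ idl (A := A) (B := B) M := by
    intro σ hσ
    obtain ⟨u, v, huv⟩ := hco σ
    obtain ⟨k, hk⟩ : ∃ k : ℕ, k = 2 := ⟨2, rfl⟩
    have h5 : ((k : ℕ) : OO A B) ∈ idl (A := A) (B := B) M := by
      have h6 : ((k : ℕ) : OO A B) = u * (X σ + X σ) + 2 * v * ((M : ℕ) : OO A B) := by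
        rw [hk]
        push_cast
        linear_combination (-2 : OO A B) * huv
      rw [h6]
      exact Ideal.add_mem _ (Ideal.mul_mem_left _ _ hσ)
        (Ideal.mul_mem_left _ _ (Ideal.subset_span rfl))
    rw [Ideal.mem_span_singleton, nat_dvd_iff] at h5
    have h6 := h5.1
    have h7 : ((k : ℕ) : OO A B).re = k := by simp
    rw [h7] at h6
    have h8 := Int.le_of_dvd (by omega) h6
    omega
  refine Finset.sum_of_injOn e ?_ (fun _ _ => Finset.mem_coe.2 (Finset.mem_univ _)) ?_ ?_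
  · rintro ⟨σ, s⟩ - ⟨σ', s'⟩ - hq
    have hq1 : I σ = I σ' := congrArg Prod.fst hq
    have hq2 : Ideal.Quotient.mk (Ideal.span {((M : ℕ) : OO A B)})
        (if s then X σ else - X σ) =
      Ideal.Quotient.mk (Ideal.span {((M : ℕ) : OO A B)}) (if s' then X σ' else - X σ') :=
      congrArg Prod.snd hq
    rw [Ideal.Quotient.eq] at hq2
    have h5 : X σ - X σ' ∈ idl (A := A) (B := B) M ∨ X σ + X σ' ∈ idl (A := A) (B := B) M := by
      cases s <;> cases s' <;> simp only [if_true, if_false, Bool.false_eq_true] at hq2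
      · left
        have h6 := Ideal.neg_mem_iff _ |>.2 hq2
        have h7 : -(-X σ - -X σ') = X σ - X σ' := by ring
        rwa [h7] at h6
      · right
        have h6 := Ideal.neg_mem_iff _ |>.2 hq2
        have h7 : -(-X σ - X σ') = X σ + X σ' := by ring
        rwa [h7] at h6
      · right
        have h7 : X σ - -X σ' = X σ + X σ' := by ring
        rwa [h7] at hq2
      · left
        exact hq2
    have h6 : Hit σ (I σ') (X σ') :=
      (h3 σ (I σ) (I σ') (X σ) (X σ') (hX σ) (hco σ')).2 ⟨hq1.symm, h5⟩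
    have h7 : σ = σ' := h4 σ σ' (I σ') (X σ') h6 (hX σ')
    subst h7
    have h8 : s = s' := by
      by_contra hne
      cases s <;> cases s' <;> simp only [if_true, if_false, Bool.false_eq_true] at hq2 hne
      · exact hne trivial
      · apply htwo σ
        have h6 := Ideal.neg_mem_iff _ |>.2 hq2
        have h7 : -(-X σ - X σ) = X σ + X σ := by ring
        rwa [h7] at h6
      · apply htwo σ
        have h7 : X σ - -X σ = X σ + X σ := by ring
        rwa [h7] at hq2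
      · exact hne trivial
    rw [h8]
  · rintro ⟨i, q⟩ - hq
    by_contra hne
    apply hq
    have hcop : IsCoprime (Quotient.out q) ((M : ℕ) : OO A B) := by
      by_contra hc
      exact hne (hzero i _ hc)
    obtain ⟨σ, hσ⟩ := h2 i _ hcop
    obtain ⟨hi, hx⟩ := (h3 σ (I σ) i (X σ) (Quotient.out q) (hX σ) hcop).1 hσ
    have hmk : Ideal.Quotient.mk (Ideal.span {((M : ℕ) : OO A B)}) (Quotient.out q) = q :=
      Ideal.Quotient.mk_out q
    rcases hx with hx | hx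
    · refine ⟨(σ, true), Finset.mem_coe.2 (Finset.mem_univ _), ?_⟩
      apply Prod.ext
      · exact hi.symm
      · show Ideal.Quotient.mk _ (if true = true then X σ else - X σ) = q
        rw [if_pos rfl]
        rw [← hmk]
        exact (Ideal.Quotient.eq).2 hx
    · refine ⟨(σ, false), Finset.mem_coe.2 (Finset.mem_univ _), ?_⟩
      apply Prod.ext
      · exact hi.symm
      · show Ideal.Quotient.mk _ (if false = true then X σ else - X σ) = q
        rw [if_neg (by decide)]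
        rw [← hmk]
        refine (Ideal.Quotient.eq).2 ?_
        have h6 := Ideal.neg_mem_iff _ |>.2 hx
        have h7 : -(X σ + Quotient.out q) = -X σ - Quotient.out q := by ring
        rwa [h7] at h6
  · rintro ⟨σ, s⟩ -
    show F (I σ) (X σ) = F (I σ) (Quotient.out (Ideal.Quotient.mk _ (if s then X σ else - X σ)))
    have h5 : F (I σ) (if s then X σ else - X σ) = F (I σ) (X σ) := by
      cases s
      · exact heven _ _
      · rfl
    rw [← h5]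
    refine hper _ _ _ ?_
    rw [← Ideal.Quotient.eq, Ideal.Quotient.mk_out]

end CNT

open _root_.Pool.Agent.TWT.CNT in
theorem t_CNT (hIDP : S_IDP) (hHTF : S_HTF) : S_CNT := by
  intro p A B P V f hS hT ι _ R m hm x0 y0 hx0 hx1 hy0 hy1 G hper heven hzero _ I X hX
  obtain ⟨d1, d2, d3, d4, d5, d6, d7⟩ := hIDP p A B P V f hS
  have hp := hS.pp
  have hp5 := hS.p5
  have hmpos : 0 < m := Nat.pos_of_ne_zero hm.m0
  have hM : 3 ≤ m * p := by nlinarith
  obtain ⟨-, t2, t3, t4, -, -⟩ := hHTF A B hS.cq hT (p * f) ι R (m * p) hM hm.cop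
  obtain ⟨a1, -⟩ := d7 m x0 y0 hm.m0 hm.pm hx0 hx1 hy0 hy1
  have hpP : ((p : ℕ) : OO A B) ∈ P := hS.hP.mem
  -- the sum over the multiples
  have key : ∀ (i : ι) (x : OO A B), IsCoprime x ((m * p : ℕ) : OO A B) →
      ∑ c ∈ Finset.Icc 1 (p - 1), G i (x * x0 + c * m * y0) =
        ∑ c ∈ Finset.Icc 1 (p - 1), G i (x * (x0 + c * m * y0)) := by
    intro i x hx
    obtain ⟨n, hn, hxn⟩ := d1 x
    have hpn : ¬ p ∣ n := by
      intro h0
      have h1 : n = 0 := by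
        rcases Nat.eq_zero_or_pos n with h | h
        · exact h
        · exact absurd (Nat.le_of_dvd h h0) (by omega)
      rw [h1, Nat.cast_zero, sub_zero] at hxn
      obtain ⟨u, v, huv⟩ := hx
      apply hS.hP.prime.ne_top
      rw [Ideal.eq_top_iff_one, ← huv]
      refine Ideal.add_mem _ (Ideal.mul_mem_left _ _ hxn) (Ideal.mul_mem_left _ _ ?_)
      rw [Nat.cast_mul]
      exact Ideal.mul_mem_left _ _ hpP
    have hxy : (x - n) * y0 ∈ idl (A := A) (B := B) p := by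
      rw [← d3]
      exact Ideal.mul_mem_mul hxn hy0
    obtain ⟨t, ht⟩ := Ideal.mem_span_singleton.1 hxy
    have hF : ∀ c : ℕ, G i (x * x0 + (c % p : ℕ) * m * y0) = G i (x * x0 + c * m * y0) := by
      intro c
      refine hper _ _ _ ?_
      rw [Ideal.mem_span_singleton]
      refine ⟨-((c / p : ℕ) : OO A B) * y0, ?_⟩
      have h1 : (c : OO A B) = (p : OO A B) * ((c / p : ℕ) : OO A B) + ((c % p : ℕ) : OO A B) := by
        exact_mod_cast (Nat.div_add_mod c p).symm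
      rw [h1, Nat.cast_mul]
      ring
    rw [← perm hp hpn (fun c : ℕ => G i (x * x0 + c * m * y0)) hF]
    refine Finset.sum_congr rfl fun c _ => ?_
    refine (hper _ _ _ ?_).symm
    rw [Ideal.mem_span_singleton]
    refine ⟨(c : OO A B) * t, ?_⟩
    push_cast
    linear_combination ((c : OO A B) * m) * ht
  let F : ι → OO A B → ℂ := fun i x => ∑ c ∈ Finset.Icc 1 (p - 1), G i (x * (x0 + c * m * y0))
  have hFper : ∀ i x y, x - y ∈ idl (A := A) (B := B) (m * p) → F i x = F i y := by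
    intro i x y hxy
    refine Finset.sum_congr rfl fun c _ => hper _ _ _ ?_
    rw [← sub_mul]
    exact Ideal.mul_mem_right _ _ hxy
  have hFeven : ∀ i x, F i (-x) = F i x := by
    intro i x
    refine Finset.sum_congr rfl fun c _ => ?_
    rw [neg_mul]
    exact heven _ _
  have hFzero : ∀ i x, ¬ IsCoprime x ((m * p : ℕ) : OO A B) → F i x = 0 := by
    intro i x hx
    refine Finset.sum_eq_zero fun c _ => hzero _ _ fun h => hx ?_
    exact IsCoprime.of_mul_left_left h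
  have hc := count hM (fun σ i x => HitF R (m * p) _ σ i x) t2 t3 t4 F hFper hFeven hFzero I X
    (fun σ => (hX σ).1) hX
  have h1 : ∑ σ : GalF A B (m * p), ∑ c ∈ Finset.Icc 1 (p - 1),
      G (I σ) (X σ * x0 + c * m * y0) = ∑ σ : GalF A B (m * p), F (I σ) (X σ) :=
    Finset.sum_congr rfl fun σ _ => key (I σ) (X σ) (hX σ).1
  rw [h1, hc, Finset.mul_sum]
  refine Finset.sum_congr rfl fun i _ => ?_
  have hfin : Finite (OO A B ⧸ Ideal.span {((m * p : ℕ) : OO A B)}) := finR (m * p) (by omega)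
  have h2 : sumMod ((m * p : ℕ) : OO A B) (F i) =
      ∑ c ∈ Finset.Icc 1 (p - 1), sumMod ((m * p : ℕ) : OO A B)
        (fun x => G i ((x0 + c * m * y0) * x)) := by
    have hft := Fintype.ofFinite (OO A B ⧸ Ideal.span {((m * p : ℕ) : OO A B)})
    unfold sumMod
    simp only [finsum_eq_sum_of_fintype]
    rw [Finset.sum_comm]
    refine Finset.sum_congr rfl fun q _ => ?_
    refine Finset.sum_congr rfl fun c _ => ?_
    rw [mul_comm]
  rw [h2]
  have h3 : ∀ c ∈ Finset.Icc 1 (p - 1), sumMod ((m * p : ℕ) : OO A B)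
      (fun x => G i ((x0 + c * m * y0) * x)) = sumMod ((m * p : ℕ) : OO A B) (G i) := by
    intro c hc'
    rw [Finset.mem_Icc] at hc'
    exact sumMod_mul (a1 c hc'.1 (by omega)).1 (hper i)
  rw [Finset.sum_congr rfl h3, Finset.sum_const, Nat.card_Icc, nsmul_eq_mul]
  have h4 : ((p - 1 + 1 - 1 : ℕ) : ℂ) = (p : ℂ) - 1 := by
    have h5 : p - 1 + 1 - 1 = p - 1 := by omega
    rw [h5, Nat.cast_sub (by omega), Nat.cast_one]
  rw [h4]

end

end Pool.Agent.TWT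


end

section

/-!
# TWT, module EAB: algebra of the products `EtT` modulo `p`-th powers
-/

set_option autoImplicit false

namespace Pool.Agent.TWT

namespace EAB

/-- the subgroup of `p`-th powers -/
def Pw (Mt : Type) [CommGroup Mt] (p : ℕ) : Subgroup Mt := (powMonoidHom p : Mt →* Mt).range

/-- classes modulo `p`-th powers -/
def mq {Mt : Type} [CommGroup Mt] (p : ℕ) : Mt →* Mt ⧸ Pw Mt p := QuotientGroup.mk' (Pw Mt p)

theorem mq_one_iff {Mt : Type} [CommGroup Mt] {p : ℕ} {x : Mt} :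
    mq p x = 1 ↔ ∃ y : Mt, y ^ p = x := by
  unfold mq
  rw [QuotientGroup.mk'_apply, QuotientGroup.eq_one_iff]
  exact Iff.rfl

theorem mq_pow {Mt : Type} [CommGroup Mt] {p : ℕ} (x : Mt) : mq p x ^ p = 1 := by
  rw [← map_pow, mq_one_iff]
  exact ⟨x, rfl⟩

variable {G Fr Mt : Type} [Group G] [Fintype G] [Field Fr] [CommGroup Mt] {p : ℕ}

theorem pow_val_add [Fact p.Prime] (x : Mt) (a b : ZMod p) :
    mq p x ^ (a + b).val = mq p x ^ a.val * mq p x ^ b.val := by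
  rw [ZMod.val_add, ← pow_add]
  exact (pow_eq_pow_mod _ (mq_pow x)).symm

theorem mq_EtT (χ : G →* Frˣ) (t : Fr →+ ZMod p) (g : G → Mt) :
    mq p (EtT p χ t g) = ∏ τ : G, mq p (g τ) ^ (t ((χ τ)⁻¹ : Frˣ)).val := by
  unfold EtT
  rw [map_prod]
  exact Finset.prod_congr rfl fun τ _ => map_pow _ _ _

theorem E_add [Fact p.Prime] (χ : G →* Frˣ) (t t' : Fr →+ ZMod p) (g : G → Mt) :
    mq p (EtT p χ (t + t') g) = mq p (EtT p χ t g) * mq p (EtT p χ t' g) := by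
  rw [mq_EtT, mq_EtT, mq_EtT, ← Finset.prod_mul_distrib]
  exact Finset.prod_congr rfl fun τ _ => pow_val_add _ _ _

theorem E_mul (χ : G →* Frˣ) (t : Fr →+ ZMod p) (g g' : G → Mt) :
    EtT p χ t (fun τ => g τ * g' τ) = EtT p χ t g * EtT p χ t g' := by
  unfold EtT
  rw [← Finset.prod_mul_distrib]
  exact Finset.prod_congr rfl fun τ _ => mul_pow _ _ _

theorem E_div (χ : G →* Frˣ) (t : Fr →+ ZMod p) (g g' : G → Mt) :
    EtT p χ t (fun τ => g τ / g' τ) = EtT p χ t g / EtT p χ t g' := by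
  unfold EtT
  rw [← Finset.prod_div_distrib]
  exact Finset.prod_congr rfl fun τ _ => div_pow _ _ _

theorem E_pow (χ : G →* Frˣ) (t : Fr →+ ZMod p) (g : G → Mt) (n : ℕ) :
    EtT p χ t (fun τ => g τ ^ n) = EtT p χ t g ^ n := by
  unfold EtT
  rw [← Finset.prod_pow]
  refine Finset.prod_congr rfl fun τ _ => ?_
  rw [← pow_mul, ← pow_mul, mul_comm]

theorem E_shift (χ : G →* Frˣ) (t : Fr →+ ZMod p) (g : G → Mt) (φ : G) :
    EtT p χ t (fun τ => g (τ * φ)) =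
      EtT p χ (t.comp (AddMonoidHom.mulLeft ((χ φ : Frˣ) : Fr))) g := by
  unfold EtT
  refine Fintype.prod_equiv (Equiv.mulRight φ) _ _ fun τ => ?_
  have h : ((χ φ : Frˣ) : Fr) * (((χ (τ * φ))⁻¹ : Frˣ) : Fr) = (((χ τ)⁻¹ : Frˣ) : Fr) := by
    rw [← Units.val_mul, map_mul, mul_inv_rev, mul_inv_cancel_left]
  simp only [Equiv.coe_mulRight, AddMonoidHom.coe_comp, Function.comp_apply,
    AddMonoidHom.coe_mulLeft, h]

/-- if `E t' k` is invariant under `t' ↦ t' ∘ (u *)`, `u ≠ 1`, then all `E t k` are trivial -/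
theorem E_triv [Fact p.Prime] (χ : G →* Frˣ) (k : G → Mt) (u : Frˣ) (hu : u ≠ 1)
    (h : ∀ t : Fr →+ ZMod p, mq p (EtT p χ t k) =
      mq p (EtT p χ (t.comp (AddMonoidHom.mulLeft (u : Fr))) k)) (t : Fr →+ ZMod p) :
    mq p (EtT p χ t k) = 1 := by
  have hu1 : (u : Fr) - 1 ≠ 0 := fun h0 => hu (Units.ext (by
    rw [Units.val_one]
    exact sub_eq_zero.1 h0))
  set t' : Fr →+ ZMod p := t.comp (AddMonoidHom.mulLeft ((u : Fr) - 1)⁻¹) with ht'
  have h1 : t'.comp (AddMonoidHom.mulLeft (u : Fr)) = t + t' := by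
    ext x
    simp only [ht', AddMonoidHom.coe_comp, Function.comp_apply, AddMonoidHom.coe_mulLeft,
      AddMonoidHom.add_apply]
    rw [← map_add]
    congr 1
    have h2 : x = ((u : Fr) - 1)⁻¹ * (((u : Fr) - 1) * x) := by
      rw [inv_mul_cancel_left₀ hu1]
    calc ((u : Fr) - 1)⁻¹ * ((u : Fr) * x) =
          ((u : Fr) - 1)⁻¹ * (((u : Fr) - 1) * x) + ((u : Fr) - 1)⁻¹ * x := by ring
      _ = x + ((u : Fr) - 1)⁻¹ * x := by rw [← h2]
  have h3 := h t'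
  rw [h1, E_add] at h3
  have h4 : (1 : Mt ⧸ Pw Mt p) * mq p (EtT p χ t' k) =
      mq p (EtT p χ t k) * mq p (EtT p χ t' k) := by
    rw [one_mul]
    exact h3
  exact (mul_right_cancel h4).symm

end EAB

open _root_.Pool.Agent.TWT.EAB in
/-- EAB -/
theorem t_EAB : S_EAB := by
  intro p _ G Fr Mt _ _ _ _ _ χ
  refine ⟨fun k g₀ hg hk t => ?_, fun C C'' K φ hφ hrel hC hK t => ?_⟩
  · rw [← mq_one_iff]
    refine E_triv χ k (χ g₀) hg (fun t' => ?_) t
    rw [← E_shift]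
    congr 1
    congr 1
    funext τ
    exact (hk τ).symm
  · have h1 : ∀ t : Fr →+ ZMod p, mq p (EtT p χ t C) = 1 := fun t => mq_one_iff.2 (hC t)
    have h2 : ∀ t : Fr →+ ZMod p, mq p (EtT p χ t K) = 1 := fun t => mq_one_iff.2 (hK t)
    have h3 : ∀ t : Fr →+ ZMod p, mq p (EtT p χ t C'') = 1 := by
      refine E_triv χ C'' (χ φ) hφ fun t' => ?_
      have h4 : EtT p χ t' (fun τ => C τ ^ (p - 1) * C'' τ) =
          EtT p χ t' (fun τ => K τ * C'' (τ * φ)) := by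
        congr 1
        funext τ
        exact hrel τ
      rw [E_mul, E_mul, E_pow, E_shift] at h4
      have h5 := congrArg (mq p) h4
      rw [map_mul, map_mul, map_pow, h1, h2, one_pow, one_mul, one_mul] at h5
      exact h5
    rw [← mq_one_iff, E_pow, E_div, map_pow, map_div, h1, h3, div_one, one_pow]

end Pool.Agent.TWT


end

section

/-!
# TWT, block B: ideals prime to `p` (module IDP)
-/

set_option autoImplicit false

namespace Pool.Agent.TWT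

open _root_.MU3 Pool.Agent.MU3A Pool.Agent.MU3B Pool.Agent.MU3C Pool.Agent.RI Pool.Agent.RID
open Pool.Agent.MUX
open Pool.Agent.MUXI.PQFaux

noncomputable section

namespace IDP

variable {A B : ℤ}

lemma cop_one {I : Ideal (OO A B)} {a : OO A B} (h : a - 1 ∈ I) : IsCoprime (sp a) I := by
  rw [Ideal.isCoprime_iff_exists]
  exact ⟨a, Ideal.subset_span rfl, 1 - a, by rw [← neg_sub]; exact I.neg_mem h, by ring⟩

lemma idl_mul (m n : ℕ) : idl (A := A) (B := B) (m * n) = idl m * idl n := by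
  unfold idl
  rw [Ideal.span_singleton_mul_span_singleton, Nat.cast_mul]

end IDP

open _root_.Pool.Agent.TWT.IDP in
theorem t_IDP : S_IDP := by
  intro p A B P V f hS
  have hprime : p.Prime := hS.pp
  have hPp : P.IsPrime := hS.hP.prime
  have hpP : ((p : ℕ) : OO A B) ∈ P := hS.hP.mem
  have h1P : (1 : OO A B) ∉ P := fun h => hPp.ne_top ((Ideal.eq_top_iff_one P).2 h)
  have hp0 : p ≠ 0 := hprime.ne_zero
  -- coprime integers
  have hci : ∀ c : ℤ, ¬ (p : ℤ) ∣ c → IsCoprime (p : ℤ) c := fun c hpc =>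
    (Int.prime_iff_natAbs_prime.2 (by simpa using hprime)).coprime_iff_not_dvd.2 hpc
  -- integers in `P`
  have hint : ∀ c : ℤ, (c : OO A B) ∈ P ↔ (p : ℤ) ∣ c := by
    intro c
    constructor
    · intro hc
      by_contra hpc
      obtain ⟨u, v, huv⟩ := hci c hpc
      apply h1P
      have h3 : ((u : ℤ) : OO A B) * (p : ℕ) + (v : ℤ) * (c : ℤ) = 1 := by
        have := congrArg (Int.cast : ℤ → OO A B) huv
        push_cast at this
        exact this
      rw [← h3]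
      exact P.add_mem (P.mul_mem_left _ hpP) (P.mul_mem_left _ hc)
    · rintro ⟨y, rfl⟩
      push_cast
      exact P.mul_mem_right _ hpP
  have hintn : ∀ c : ℕ, (c : OO A B) ∈ P ↔ p ∣ c := by
    intro c
    have h3 := hint (c : ℤ)
    rw [Int.cast_natCast] at h3
    rw [h3, Int.natCast_dvd_natCast]
  -- `P ≠ ⊥`
  have hPb : P ≠ ⊥ := by
    rintro rfl
    rw [Ideal.mem_bot] at hpP
    have h3 : ((p : ℤ) : OO A B) = 0 := by exact_mod_cast hpP
    have h4 := congrArg QuadraticAlgebra.re h3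
    rw [re_int] at h4
    simp at h4
    exact hp0 h4
  have hnorm : Nat.card (OO A B ⧸ P) = p := hS.hP.norm
  -- every class modulo `P` contains an integer
  have hcls : ∀ x : OO A B, ∃ c : Fin p, x - ((c : ℕ) : OO A B) ∈ P := by
    have hfin : Finite (OO A B ⧸ P) := Nat.finite_of_card_ne_zero (by rw [hnorm]; exact hp0)
    let φ : Fin p → OO A B ⧸ P := fun c => Ideal.Quotient.mk P ((c : ℕ) : OO A B)
    have hφ : Function.Injective φ := by
      intro c c' hcc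
      have h3 : ((c : ℕ) : OO A B) - ((c' : ℕ) : OO A B) ∈ P := Ideal.Quotient.eq.1 hcc
      have h4 : (((c : ℕ) - (c' : ℕ) : ℤ) : OO A B) ∈ P := by
        push_cast
        exact h3
      rw [hint] at h4
      obtain ⟨y, hy⟩ := h4
      have hc := c.2
      have hc' := c'.2
      have hy0 : y = 0 := by
        by_contra hne
        rcases lt_or_gt_of_ne hne with h | h <;> nlinarith
      rw [hy0] at hy
      apply Fin.ext
      omega
    have hb := hφ.bijective_of_nat_card_le (by rw [hnorm]; simp)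
    intro x
    obtain ⟨c, hc⟩ := hb.2 (Ideal.Quotient.mk P x)
    exact ⟨c, Ideal.Quotient.eq.1 hc.symm⟩
  have hcls' : ∀ x : OO A B, ∃ c : ℕ, c < p ∧ x - c ∈ P := fun x => by
    obtain ⟨c, hc⟩ := hcls x
    exact ⟨c, c.2, hc⟩
  -- the product
  have hPQ : P * cjI P = idl (A := A) (B := B) p := by
    have h3 := (Pool.Agent.MUXF.tx_IDL Pool.Agent.MUXF.tx_ALG A B ⟨hS.cq.hB, hS.cq.neg, hS.cq.fund1, hS.cq.fund0⟩ P hPb).2
    have h4 : MUXF.nI P = p := hnorm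
    rw [h4] at h3
    exact h3
  -- coprime
  have hcop : IsCoprime P (cjI P) := by
    obtain ⟨c, hc⟩ := hcls (⟨0, 1⟩ : OO A B)
    obtain ⟨k, hk⟩ : ∃ k : ℤ, k = ((c : ℕ) : ℤ) := ⟨_, rfl⟩
    have hc' : (⟨0, 1⟩ : OO A B) - ((k : ℤ) : OO A B) ∈ P := by
      rw [hk]
      simpa using hc
    set y : OO A B := (⟨0, 1⟩ : OO A B) - ((k : ℤ) : OO A B) with hy
    have hyre : y.re = -k := by simp [hy]
    have hyim : y.im = 1 := by simp [hy]
    have hnm : y * star y = ((k ^ 2 - B * k - A : ℤ) : OO A B) := by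
      apply QuadraticAlgebra.ext
      · rw [re_int, QuadraticAlgebra.re_mul, QuadraticAlgebra.re_star, QuadraticAlgebra.im_star,
          hyre, hyim]
        ring
      · rw [im_int, QuadraticAlgebra.im_mul, QuadraticAlgebra.re_star, QuadraticAlgebra.im_star,
          hyre, hyim]
        ring
    have hdvd : (p : ℤ) ∣ k ^ 2 - B * k - A := by
      rw [← hint, ← hnm]
      exact P.mul_mem_right _ hc'
    have htr : y + star y = ((B - 2 * k : ℤ) : OO A B) := by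
      apply QuadraticAlgebra.ext
      · rw [re_int, QuadraticAlgebra.re_add, QuadraticAlgebra.re_star, hyre, hyim]
        ring
      · rw [im_int, QuadraticAlgebra.im_add, QuadraticAlgebra.im_star]
        ring
    -- `B - 2 k` is prime to `p`
    have hnd : ¬ (p : ℤ) ∣ B - 2 * k := by
      intro h3
      apply hS.pD
      have h4 : absD A B = -((B - 2 * k) * (B - 2 * k)) + 4 * (k ^ 2 - B * k - A) := by
        unfold absD
        ring
      rw [h4]
      exact dvd_add ((h3.mul_left _).neg_right) (hdvd.mul_left _)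
    obtain ⟨u, v, huv⟩ := hci _ hnd
    have huv' : ((u : ℤ) : OO A B) * ((p : ℕ) : OO A B) +
        ((v : ℤ) : OO A B) * ((B - 2 * k : ℤ) : OO A B) = 1 := by
      have := congrArg (Int.cast : ℤ → OO A B) huv
      push_cast at this ⊢
      exact this
    rw [Ideal.isCoprime_iff_exists]
    refine ⟨((v : ℤ) : OO A B) * y + ((u : ℤ) : OO A B) * ((p : ℕ) : OO A B), ?_,
      ((v : ℤ) : OO A B) * star y, ?_, ?_⟩
    · exact P.add_mem (P.mul_mem_left _ hc') (P.mul_mem_left _ hpP)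
    · refine (cjI P).mul_mem_left _ ?_
      rw [mem_cjI, star_star]
      exact hc'
    · rw [← htr] at huv'
      linear_combination huv'
  have hpQ : ((p : ℕ) : OO A B) ∈ cjI P := by
    rw [mem_cjI]
    have h3 : star ((p : ℕ) : OO A B) = ((p : ℕ) : OO A B) := by simp
    rw [h3]
    exact hpP
  have hmI : ∀ m : ℕ, ¬ p ∣ m → ∀ I : Ideal (OO A B), ((p : ℕ) : OO A B) ∈ I →
      IsCoprime (idl (A := A) (B := B) m) I := by
    intro m hm I hI
    obtain ⟨u, v, huv⟩ := hci (m : ℤ) (by rwa [Int.natCast_dvd_natCast])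
    have huv' : ((u : ℤ) : OO A B) * (p : ℕ) + (v : ℤ) * (m : ℕ) = 1 := by
      have := congrArg (Int.cast : ℤ → OO A B) huv
      push_cast at this
      exact this
    rw [Ideal.isCoprime_iff_exists]
    exact ⟨_, Ideal.mul_mem_left _ ((v : ℤ) : OO A B) (Ideal.subset_span rfl), _,
      I.mul_mem_left ((u : ℤ) : OO A B) hI, by rw [add_comm]; exact huv'⟩
  have hmC : ∀ m : ℕ, ¬ p ∣ m → IsCoprime (idl (A := A) (B := B) m * cjI P) P := fun m hm =>
    (hmI m hm P hpP).mul_left hcop.symm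
  -- elements prime to `P`
  have hcP : ∀ a : OO A B, a ∉ P → IsCoprime (sp a) P := by
    intro a ha
    obtain ⟨c, hc, hac⟩ := hcls' a
    have hpc : ¬ (p : ℤ) ∣ (c : ℤ) := by
      rw [← hint, Int.cast_natCast]
      intro h3
      apply ha
      have := P.add_mem hac h3
      rwa [sub_add_cancel] at this
    obtain ⟨u, v, huv⟩ := hci _ hpc
    have huv' : ((u : ℤ) : OO A B) * (p : ℕ) + (v : ℤ) * (c : ℕ) = 1 := by
      have := congrArg (Int.cast : ℤ → OO A B) huv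
      push_cast at this
      exact this
    rw [Ideal.isCoprime_iff_exists]
    refine ⟨((v : ℤ) : OO A B) * a, Ideal.mul_mem_left _ _ (Ideal.subset_span rfl),
      ((u : ℤ) : OO A B) * (p : ℕ) - ((v : ℤ) : OO A B) * (a - c), ?_, ?_⟩
    · exact P.sub_mem (P.mul_mem_left _ hpP) (P.mul_mem_left _ hac)
    · linear_combination huv'
  have hprod : ∀ m : ℕ, idl (A := A) (B := B) (m * p) = idl m * cjI P * P := by
    intro m
    rw [idl_mul, ← hPQ, mul_assoc, mul_comm (cjI P) P]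
  have hcopmp : ∀ (m : ℕ) (a : OO A B), IsCoprime (sp a) (idl m * cjI P) → a ∉ P →
      IsCoprime a ((m * p : ℕ) : OO A B) := by
    intro m a h3 h4
    have h5 := h3.mul_right (hcP a h4)
    rw [← hprod] at h5
    exact (Ideal.isCoprime_span_singleton_iff _ _).1 h5
  have hnotP : ∀ (m : ℕ) (a : OO A B), IsCoprime a ((m * p : ℕ) : OO A B) → a ∉ P := by
    rintro m a ⟨r, s, hrs⟩ ha
    apply h1P
    rw [← hrs]
    refine P.add_mem (P.mul_mem_left _ ha) (P.mul_mem_left _ ?_)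
    rw [Nat.cast_mul]
    exact P.mul_mem_left _ hpP
  refine ⟨hcls', hint, hPQ, hcop, ?_, ?_, ?_⟩
  · intro m hm
    refine ⟨hmI m hm P hpP, hmI m hm _ hpQ, ?_⟩
    obtain ⟨a, ha, b, hb, hab⟩ := Ideal.isCoprime_iff_exists.1 (hmC m hm)
    refine ⟨b, hb, ?_⟩
    have h3 : b - 1 = -a := by linear_combination hab
    rw [h3]
    exact Ideal.neg_mem_iff _ |>.2 ha
  · obtain ⟨a, ha, b, hb, hab⟩ := Ideal.isCoprime_iff_exists.1 hcop
    refine ⟨b, hb, fun h3 => h1P ?_⟩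
    rw [← hab]
    exact P.add_mem ha h3
  · intro m x0 y0 hm0 hm hx0 hx01 hy0 hy0P
    have hmP : ((m : ℕ) : OO A B) ∉ P := fun h3 => hm ((hintn m).1 h3)
    have hcm : ∀ c : OO A B, c * m * y0 ∈ idl (A := A) (B := B) m * cjI P := by
      intro c
      rw [mul_assoc]
      exact Ideal.mul_mem_left _ _ (Ideal.mul_mem_mul (Ideal.subset_span rfl) hy0)
    refine ⟨?_, ?_⟩
    · intro c hc1 hcp
      have hcP' : ((c : ℕ) : OO A B) ∉ P := by
        rw [hintn]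
        exact fun h3 => absurd (Nat.le_of_dvd (by omega) h3) (by omega)
      have h3 : x0 + c * m * y0 - 1 ∈ idl m * cjI P := by
        have h4 : x0 + c * m * y0 - 1 = (x0 - 1) + c * m * y0 := by ring
        rw [h4]
        exact Ideal.add_mem _ hx01 (hcm _)
      refine ⟨hcopmp m _ (cop_one h3) ?_, h3⟩
      intro h4
      have h5 := P.sub_mem h4 hx0
      rw [add_sub_cancel_left] at h5
      rcases hPp.mem_or_mem h5 with h6 | h6
      · rcases hPp.mem_or_mem h6 with h7 | h7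
        · exact hcP' h7
        · exact hmP h7
      · exact hy0P h6
    · intro x X hx hX
      constructor
      · intro h3
        have hmy : (m : OO A B) * y0 ∉ P := fun h4 =>
          (hPp.mem_or_mem h4).elim hmP hy0P
        obtain ⟨i, hi, b, hb, hib⟩ := Ideal.isCoprime_iff_exists.1 (hcP _ hmy)
        obtain ⟨r, rfl⟩ := Ideal.mem_span_singleton'.1 hi
        obtain ⟨c, hc, hXc⟩ := hcls' (X * r)
        have h4 : X - c * m * y0 ∈ P := by
          have h5 : X - c * m * y0 = (X * r - c) * (m * y0) + X * b := by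
            linear_combination (-X) * hib
          rw [h5]
          exact P.add_mem (P.mul_mem_right _ hXc) (P.mul_mem_left _ hb)
        refine ⟨c, ?_, hc, ?_⟩
        · by_contra h5
          have h6 : c = 0 := by omega
          rw [h6, Nat.cast_zero, zero_mul, zero_mul, sub_zero] at h4
          exact hnotP m X hX h4
        · rw [hprod, Ideal.mul_eq_inf_of_coprime (Ideal.isCoprime_iff_sup_eq.1 (hmC m hm))]
          refine ⟨?_, ?_⟩
          · have h5 : X - (x * x0 + c * m * y0) = (X - x) - x * (x0 - 1) - c * m * y0 := by ring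
            rw [h5]
            exact Ideal.sub_mem _ (Ideal.sub_mem _ h3 (Ideal.mul_mem_left _ _ hx01)) (hcm _)
          · have h5 : X - (x * x0 + c * m * y0) = (X - c * m * y0) - x * x0 := by ring
            rw [h5]
            exact P.sub_mem h4 (P.mul_mem_left _ hx0)
      · rintro ⟨c, -, -, h3⟩
        rw [hprod] at h3
        have h5 : X - (x * x0 + c * m * y0) ∈ idl (A := A) (B := B) m * cjI P :=
          (Ideal.mul_le_left : idl (A := A) (B := B) m * cjI P * P ≤ idl m * cjI P) h3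
        have h6 : x * (x0 - 1) ∈ idl (A := A) (B := B) m * cjI P :=
          Ideal.mul_mem_left _ x hx01
        have h4 : X - x = (X - (x * x0 + c * m * y0)) + x * (x0 - 1) + c * m * y0 := by ring
        rw [h4]
        exact Ideal.add_mem _ (Ideal.add_mem _ h5 h6) (hcm _)

end

end Pool.Agent.TWT


end

section

/-!
# TWT, block B, module KRP (helper44): the kernel `E[P]` as a system of representatives
-/

set_option autoImplicit false

open WeierstrassCurve Polynomial NumberField IsDedekindDomain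

namespace Pool.Agent.TWT

open _root_.MU3 Pool.Agent.MU3A Pool.Agent.MU3B Pool.Agent.MU3C Pool.Agent.RI Pool.Agent.RID
open Pool.Agent.MUX Pool.Agent.MUXU Pool.Agent.MUXW

noncomputable section

namespace KRP

variable {p : ℕ} {A B : ℤ} {P : Ideal (OO A B)} {V : ValuationSubring ℂ} {f : ℕ} {ι : Type}

theorem int_mem (hI : S_IDP) (h : SetG p A B P V f) (c : ℤ) :
    (c : OO A B) ∈ P ↔ (p : ℤ) ∣ c :=
  (hI p A B P V f h).2.1 c

theorem N_cop (h : SetG p A B P V f) (R : Reps A B (p * f) ι) (i : ι) :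
    ¬ (p : ℤ) ∣ ((nI (R.b i) : ℕ) : ℤ) := by
  intro h1
  have h3 : p ∣ nI (R.b i) := by exact_mod_cast h1
  have h4 : p ∣ 1 := by
    rw [← (R.cop i)]
    exact Nat.dvd_gcd h3 (dvd_mul_right p f)
  exact h.pp.one_lt.ne' (Nat.dvd_one.1 h4)

theorem N_notMem (hI : S_IDP) (h : SetG p A B P V f) (R : Reps A B (p * f) ι) (i : ι) :
    ((nI (R.b i) : ℕ) : OO A B) ∉ P := by
  intro hm
  apply N_cop h R i
  rw [← int_mem hI h, Int.cast_natCast]
  exact hm

theorem N_mem (h : SetG p A B P V f) (R : Reps A B (p * f) ι) (i : ι) :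
    ((nI (R.b i) : ℕ) : OO A B) ∈ R.b i := Pool.Agent.MUX.nI_mem h.cq (R.nl i).b_ne

theorem diff_mem (hI : S_IDP) (h : SetG p A B P V f) (R : Reps A B (p * f) ι) (i : ι)
    (y : OO A B) (hy : y ∉ P) (d : ℤ) :
    (d : ℂ) * pt R p i y ∈ (R.L i).lattice ↔ (p : ℤ) ∣ d := by
  have hC := h.cq
  have hp0 : (p : ℂ) ≠ 0 := by exact_mod_cast h.pp.ne_zero
  have ho := (R.nl i).om_ne
  constructor
  · intro hm
    obtain ⟨u, _, hu⟩ := ((R.nl i).mem _).1 hm
    have h1 : (d : OO A B) * ((nI (R.b i) : ℕ) : OO A B) * y = ((p : ℕ) : OO A B) * u := by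
      apply Pool.Agent.MUX.emb_inj hC
      rw [Pool.Agent.MUX.emb_mul hC, Pool.Agent.MUX.emb_mul hC, Pool.Agent.MUX.emb_intCast hC,
        Pool.Agent.MUX.emb_natCast hC, Pool.Agent.MUX.emb_mul hC, Pool.Agent.MUX.emb_natCast hC]
      apply mul_left_cancel₀ ho
      calc R.om i * ((d : ℂ) * ((nI (R.b i) : ℕ) : ℂ) * emb y)
          = p * ((d : ℂ) * pt R p i y) := by
            unfold pt
            field_simp
        _ = _ := by
            rw [hu]
            ring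
    have h2 : (d : OO A B) * ((nI (R.b i) : ℕ) : OO A B) * y ∈ P := by
      rw [h1]
      exact P.mul_mem_right _ h.hP.mem
    rcases h.hP.prime.mem_or_mem h2 with h3 | h3
    · rcases h.hP.prime.mem_or_mem h3 with h4 | h4
      · exact (int_mem hI h d).1 h4
      · exact absurd h4 (N_notMem hI h R i)
    · exact absurd h3 hy
  · rintro ⟨e, rfl⟩
    refine ((R.nl i).mem _).2 ⟨(e : OO A B) * y * ((nI (R.b i) : ℕ) : OO A B),
      Ideal.mul_mem_left _ _ (N_mem h R i), ?_⟩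
    rw [Pool.Agent.MUX.emb_mul hC, Pool.Agent.MUX.emb_mul hC, Pool.Agent.MUX.emb_intCast hC,
      Pool.Agent.MUX.emb_natCast hC]
    unfold pt
    push_cast
    field_simp

theorem ker_mem (hI : S_IDP) (h : SetG p A B P V f) (R : Reps A B (p * f) ι) (i : ι)
    (y : OO A B) (hy : y ∈ cjI P) (x : OO A B) (hx : x ∈ P) (c : ℕ) :
    emb x * ((c : ℂ) * pt R p i y) ∈ (R.L i).lattice := by
  have hC := h.cq
  have hp0 : (p : ℂ) ≠ 0 := by exact_mod_cast h.pp.ne_zero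
  have h1 : x * y ∈ (idl p : Ideal (OO A B)) := by
    rw [← (hI p A B P V f h).2.2.1]
    exact Ideal.mul_mem_mul hx hy
  obtain ⟨t, ht⟩ := Ideal.mem_span_singleton'.1 h1
  have h2 : emb t * (p : ℂ) = emb x * emb y := by
    rw [← Pool.Agent.MUX.emb_natCast hC (A := A) (B := B) p, ← Pool.Agent.MUX.emb_mul hC, ht,
      Pool.Agent.MUX.emb_mul hC]
  refine ((R.nl i).mem _).2 ⟨((c : ℕ) : OO A B) * t * ((nI (R.b i) : ℕ) : OO A B),
    Ideal.mul_mem_left _ _ (N_mem h R i), ?_⟩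
  rw [Pool.Agent.MUX.emb_mul hC, Pool.Agent.MUX.emb_mul hC, Pool.Agent.MUX.emb_natCast hC,
    Pool.Agent.MUX.emb_natCast hC]
  apply mul_left_cancel₀ hp0
  calc (p : ℂ) * (emb x * ((c : ℂ) * pt R p i y))
      = c * R.om i * ((nI (R.b i) : ℕ) : ℂ) * (emb x * emb y) := by
        unfold pt
        field_simp
    _ = _ := by
        rw [← h2]
        ring

theorem cop_b (h : SetG p A B P V f) (R : Reps A B (p * f) ι) (i : ι) :
    IsCoprime P (R.b i) := by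
  obtain ⟨a, e, hab⟩ :=
    ((Nat.prime_iff_prime_int.1 h.pp).coprime_iff_not_dvd).2 (N_cop h R i)
  rw [Ideal.isCoprime_iff_exists]
  refine ⟨(a : OO A B) * ((p : ℕ) : OO A B), P.mul_mem_left _ h.hP.mem,
    (e : OO A B) * ((nI (R.b i) : ℕ) : OO A B), Ideal.mul_mem_left _ _ (N_mem h R i), ?_⟩
  have h3 := congrArg (fun t : ℤ => (t : OO A B)) hab
  push_cast at h3
  exact h3

theorem surj (hI : S_IDP) (h : SetG p A B P V f) (R : Reps A B (p * f) ι) (i : ι)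
    (y : OO A B) (hy : y ∈ cjI P) (hyP : y ∉ P) (z : ℂ)
    (hx : ∀ x ∈ P, emb x * z ∈ (R.L i).lattice) (hzL : z ∉ (R.L i).lattice) :
    ∃ c : ℕ, 1 ≤ c ∧ c ≤ p - 1 ∧ z - (c : ℂ) * pt R p i y ∈ (R.L i).lattice := by
  have hC := h.cq
  have hp0 : (p : ℂ) ≠ 0 := by exact_mod_cast h.pp.ne_zero
  have ho := (R.nl i).om_ne
  have hI1 := hI p A B P V f h
  have hPc := hI1.2.2.1
  obtain ⟨u, hu, hzu⟩ := ((R.nl i).mem _).1 (hx _ h.hP.mem)
  rw [Pool.Agent.MUX.emb_natCast hC] at hzu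
  have hub : u ∈ cjI P * R.b i := by
    have h2 : P * sp u ≤ idl p * R.b i := by
      rw [Ideal.mul_le]
      intro x hxP w hw
      obtain ⟨t, rfl⟩ := Ideal.mem_span_singleton'.1 hw
      obtain ⟨v, hv, hxv⟩ := ((R.nl i).mem _).1 (hx x hxP)
      have h3 : x * u = ((p : ℕ) : OO A B) * v := by
        apply Pool.Agent.MUX.emb_inj hC
        rw [Pool.Agent.MUX.emb_mul hC, Pool.Agent.MUX.emb_mul hC, Pool.Agent.MUX.emb_natCast hC]
        apply mul_left_cancel₀ ho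
        calc R.om i * (emb x * emb u) = emb x * (R.om i * emb u) := by ring
          _ = p * (emb x * z) := by
              rw [← hzu]
              ring
          _ = _ := by
              rw [hxv]
              ring
      have h4 : x * (t * u) = ((p : ℕ) : OO A B) * (t * v) := by
        calc x * (t * u) = t * (x * u) := by ring
          _ = _ := by
              rw [h3]
              ring
      rw [h4]
      exact Ideal.mul_mem_mul (Ideal.mem_span_singleton_self _) (Ideal.mul_mem_left _ _ hv)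
    have h5 : (idl p : Ideal (OO A B)) * sp u ≤ idl p * (cjI P * R.b i) := by
      calc (idl p : Ideal (OO A B)) * sp u = cjI P * (P * sp u) := by
            rw [← hPc]
            ring
        _ ≤ cjI P * (idl p * R.b i) := Ideal.mul_mono_right h2
        _ = _ := by ring
    have h6 : (idl p : Ideal (OO A B)) ≠ ⊥ := by
      intro h7
      rw [Ideal.span_singleton_eq_bot] at h7
      exact Pool.Agent.MUX.natCast_ne_zero' hC h.pp.ne_zero h7
    exact (Pool.Agent.MUX.mul_le_mul_iff hC h6).1 h5 (Ideal.mem_span_singleton_self _)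
  have hcop : IsCoprime P (cjI P * R.b i) := hI1.2.2.2.1.mul_right (cop_b h R i)
  obtain ⟨c2, _, hc2⟩ := hI1.1 (((nI (R.b i) : ℕ) : OO A B) * y)
  have hc2p : ¬ (p : ℤ) ∣ (c2 : ℤ) := by
    intro h7
    have h8 := (int_mem hI h c2).2 h7
    rw [Int.cast_natCast] at h8
    have h9 : ((nI (R.b i) : ℕ) : OO A B) * y ∈ P := by
      have := P.add_mem hc2 h8
      rwa [sub_add_cancel] at this
    rcases h.hP.prime.mem_or_mem h9 with h10 | h10
    · exact N_notMem hI h R i h10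
    · exact hyP h10
  obtain ⟨a, e, hab⟩ := ((Nat.prime_iff_prime_int.1 h.pp).coprime_iff_not_dvd).2 hc2p
  obtain ⟨c, hcp, hc⟩ := hI1.1 ((e : OO A B) * u)
  have hab' : (a : OO A B) * ((p : ℕ) : OO A B) + (e : OO A B) * ((c2 : ℕ) : OO A B) = 1 := by
    have h3 := congrArg (fun t : ℤ => (t : OO A B)) hab
    push_cast at h3
    exact h3
  have h10 : u - ((c : ℕ) : OO A B) * (((nI (R.b i) : ℕ) : OO A B) * y) ∈ P := by
    have h11 : u - ((c : ℕ) : OO A B) * (((nI (R.b i) : ℕ) : OO A B) * y) =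
        u * (a : OO A B) * ((p : ℕ) : OO A B) +
        (((c2 : ℕ) : OO A B) * ((e : OO A B) * u - ((c : ℕ) : OO A B)) -
          ((c : ℕ) : OO A B) * (((nI (R.b i) : ℕ) : OO A B) * y - ((c2 : ℕ) : OO A B))) := by
      linear_combination (-u) * hab'
    rw [h11]
    exact P.add_mem (P.mul_mem_left _ h.hP.mem)
      (P.sub_mem (P.mul_mem_left _ hc) (P.mul_mem_left _ hc2))
  have h12 : u - ((c : ℕ) : OO A B) * (((nI (R.b i) : ℕ) : OO A B) * y) ∈ cjI P * R.b i := by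
    refine Ideal.sub_mem _ hub (Ideal.mul_mem_left _ _ ?_)
    rw [mul_comm (((nI (R.b i) : ℕ) : OO A B)) y]
    exact Ideal.mul_mem_mul hy (N_mem h R i)
  have h13 : u - ((c : ℕ) : OO A B) * (((nI (R.b i) : ℕ) : OO A B) * y) ∈
      (idl p : Ideal (OO A B)) * R.b i := by
    have h14 : (idl p : Ideal (OO A B)) * R.b i = P ⊓ (cjI P * R.b i) := by
      rw [← Ideal.mul_eq_inf_of_isCoprime hcop, ← hPc, mul_assoc]
    rw [h14]
    exact ⟨h10, h12⟩
  obtain ⟨v, hv, hpv⟩ := Ideal.mem_span_singleton_mul.1 h13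
  have h15 : (p : ℂ) * emb v = emb u - c * (((nI (R.b i) : ℕ) : ℂ) * emb y) := by
    have h16 := congrArg emb hpv
    rw [Pool.Agent.MUX.emb_mul hC, Pool.Agent.MUX.emb_natCast hC, Pool.Agent.MUX.emb_sub hC,
      Pool.Agent.MUX.emb_mul hC, Pool.Agent.MUX.emb_mul hC, Pool.Agent.MUX.emb_natCast hC,
      Pool.Agent.MUX.emb_natCast hC] at h16
    exact h16
  have h17 : z - (c : ℂ) * pt R p i y ∈ (R.L i).lattice := by
    refine ((R.nl i).mem _).2 ⟨v, hv, ?_⟩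
    apply mul_left_cancel₀ hp0
    calc (p : ℂ) * (z - (c : ℂ) * pt R p i y)
        = (p : ℂ) * z - R.om i * (c * (((nI (R.b i) : ℕ) : ℂ) * emb y)) := by
          unfold pt
          field_simp
      _ = R.om i * ((p : ℂ) * emb v) := by
          rw [hzu, h15]
          ring
      _ = _ := by ring
  refine ⟨c, ?_, Nat.le_sub_one_of_lt hcp, h17⟩
  rcases Nat.eq_zero_or_pos c with h18 | h18
  · exfalso
    apply hzL
    rw [h18] at h17
    simpa using h17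
  · exact h18

end KRP

theorem t_KRP (h : S_IDP) : S_KRP := by
  intro p A B P V f hS ι R i L' mu hQ y hy hyP
  have hC := hS.cq
  have hd : ∀ c c' : ℤ, (c : ℂ) * pt R p i y - c' * pt R p i y ∈ (R.L i).lattice ↔
      (p : ℤ) ∣ c - c' := by
    intro c c'
    have h1 : (c : ℂ) * pt R p i y - c' * pt R p i y = ((c - c' : ℤ) : ℂ) * pt R p i y := by
      push_cast
      ring
    rw [h1]
    exact KRP.diff_mem h hS R i y hyP (c - c')
  have hinj : ∀ c c' : ℕ, c ∈ Finset.Icc 1 (p - 1) → c' ∈ Finset.Icc 1 (p - 1) →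
      (c : ℂ) * pt R p i y - c' * pt R p i y ∈ (R.L i).lattice → c = c' := by
    intro c c' hc hc' hm
    have h1 := (hd (c : ℤ) (c' : ℤ)).1 (by exact_mod_cast hm)
    rw [Finset.mem_Icc] at hc hc'
    have hp := hS.pp.pos
    obtain ⟨k, hk⟩ := h1
    have h2 : k = 0 := by
      by_contra h3
      rcases lt_or_gt_of_ne h3 with h4 | h4
      · have h5 : (p : ℤ) * k ≤ (p : ℤ) * (-1) :=
          mul_le_mul_of_nonneg_left (by omega) (by omega)
        omega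
      · have h5 : (p : ℤ) * 1 ≤ (p : ℤ) * k :=
          mul_le_mul_of_nonneg_left (by omega) (by omega)
        omega
    rw [h2, mul_zero] at hk
    omega
  refine ⟨?_, ?_, hd, ⟨?_, ?_, ?_, ?_⟩, ?_⟩
  · intro w hw
    rw [hQ.2]
    intro x _
    obtain ⟨u, hu, rfl⟩ := ((R.nl i).mem _).1 hw
    refine ((R.nl i).mem _).2 ⟨x * u, Ideal.mul_mem_left _ _ hu, ?_⟩
    rw [Pool.Agent.MUX.emb_mul hC]
    ring
  · intro z hz
    have h1 := (hQ.2 z).1 hz _ hS.hP.mem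
    rwa [Pool.Agent.MUX.emb_natCast hC] at h1
  · intro q hq
    obtain ⟨c, _, rfl⟩ := Finset.mem_image.1 hq
    rw [hQ.2]
    intro x hx
    exact KRP.ker_mem h hS R i y hy x hx c
  · intro q hq hL
    obtain ⟨c, hc, rfl⟩ := Finset.mem_image.1 hq
    have h1 := (KRP.diff_mem h hS R i y hyP (c : ℤ)).1 (by exact_mod_cast hL)
    rw [Finset.mem_Icc] at hc
    have h2 := Int.le_of_dvd (by omega) h1
    have hp := hS.pp.pos
    omega
  · intro q hq q' hq' hm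
    obtain ⟨c, hc, rfl⟩ := Finset.mem_image.1 hq
    obtain ⟨c', hc', rfl⟩ := Finset.mem_image.1 hq'
    rw [hinj c c' hc hc' hm]
  · intro z hz hzL
    obtain ⟨c, h1, h2, h3⟩ := KRP.surj h hS R i y hy hyP z ((hQ.2 z).1 hz) hzL
    exact ⟨_, Finset.mem_image.2 ⟨c, Finset.mem_Icc.2 ⟨h1, h2⟩, rfl⟩, h3⟩
  · rw [Finset.card_image_of_injOn, Nat.card_Icc]
    · omega
    · intro c hc c' hc' he
      refine hinj c c' hc hc' ?_
      have he' : (c : ℂ) * pt R p i y = (c' : ℂ) * pt R p i y := he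
      rw [he', sub_self]
      exact (R.L i).lattice.zero_mem

end

end Pool.Agent.TWT


end

section

/-!
# TWT, block B: KUM
-/

set_option autoImplicit false

namespace Pool.Agent.TWT

namespace KUM

/-- first two terms of the binomial expansion -/
theorem expand {R : Type*} [CommRing R] (x : R) (n : ℕ) :
    ∃ s : R, (1 + x) ^ n = 1 + n * x + x ^ 2 * s := by
  induction n with
  | zero => exact ⟨0, by simp⟩
  | succ n ih =>
    obtain ⟨s, hs⟩ := ih
    refine ⟨n + s + x * s, ?_⟩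
    rw [pow_succ, hs]
    push_cast
    ring

end KUM

theorem t_KUM : S_KUM := by
  intro V p hp hv y hy hle
  set v := V.valuation with hvdef
  have hp0 : (p : ℂ) ≠ 0 := by exact_mod_cast hp.ne_zero
  have hvp0 : v (p : ℂ) ≠ 0 := (Valuation.ne_zero_iff _).2 hp0
  -- v y = 1
  have h1 : v (y ^ p) = 1 := by
    have e : y ^ p = 1 + (y ^ p - 1) := by ring
    rw [e]
    exact Valuation.map_one_add_of_lt _ (lt_of_le_of_lt hle hv)
  have hy1 : v y ≤ 1 := by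
    rw [map_pow] at h1
    exact (pow_le_one_iff hp.ne_zero).1 h1.le
  have hu1 : v (y - 1) ≤ 1 := by
    refine (Valuation.map_sub _ _ _).trans ?_
    rw [map_one]
    exact max_le hy1 le_rfl
  -- v (y - 1) < 1
  have hmem : y - 1 ∈ V := (ValuationSubring.valuation_le_one_iff V _).1 hu1
  have hu2 : v (y - 1) < 1 := by
    obtain ⟨r, hr⟩ := exists_add_pow_prime_eq hp (1 : V) ⟨y - 1, hmem⟩
    have hr2 : y ^ p = 1 + (y - 1) ^ p + p * ((y - 1) * (r : ℂ)) := by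
      have := congrArg (fun z : V => (z : ℂ)) hr
      push_cast at this
      rw [one_pow, mul_one, mul_assoc] at this
      rw [← this]
      congr 1
      ring
    have hr3 : (y - 1) ^ p = (y ^ p - 1) - p * ((y - 1) * (r : ℂ)) := by rw [hr2]; ring
    have h2 : v ((y - 1) ^ p) < 1 := by
      rw [hr3]
      refine lt_of_le_of_lt (Valuation.map_sub _ _ _) (max_lt (lt_of_le_of_lt hle hv) ?_)
      rw [map_mul]
      refine lt_of_le_of_lt ?_ hv
      refine mul_le_of_le_one_right' ?_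
      rw [map_mul]
      exact mul_le_one' hu1 ((ValuationSubring.valuation_le_one_iff V _).2 r.2)
    rw [map_pow] at h2
    exact (pow_lt_one_iff hp.ne_zero).1 h2
  by_cases hz : y - 1 = 0
  · have : y = 1 := sub_eq_zero.1 hz
    rw [this, one_pow, sub_self, map_zero]
    exact zero_le'
  obtain ⟨k, hk⟩ := hy hz
  have hk1 : 1 ≤ k := by
    by_contra hcon
    have hk0 : k ≤ 0 := by omega
    have : (1 : V.ValueGroup) ≤ v (p : ℂ) ^ k := by
      obtain ⟨j, rfl⟩ : ∃ j : ℕ, k = -(j : ℤ) := ⟨k.natAbs, by omega⟩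
      rw [zpow_neg, zpow_natCast]
      exact (one_le_inv₀ (pow_pos (zero_lt_iff.2 hvp0) j)).2 (pow_le_one' hv.le j)
    rw [← hk] at this
    exact absurd hu2 (not_lt.2 this)
  have hup : v (y - 1) ≤ v (p : ℂ) := by
    obtain ⟨j, rfl⟩ : ∃ j : ℕ, k = (j : ℤ) + 1 := ⟨(k - 1).toNat, by omega⟩
    rw [hk, zpow_add₀ hvp0, zpow_one, zpow_natCast]
    exact mul_le_of_le_one_left' (pow_le_one' hv.le j)
  have hw : v ((y - 1) / p) ≤ 1 := by
    rw [map_div₀]
    exact div_le_one_of_le₀ hup zero_le'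
  have hwm : (y - 1) / p ∈ V := (ValuationSubring.valuation_le_one_iff V _).1 hw
  obtain ⟨s, hs⟩ := KUM.expand ((p : V) * ⟨(y - 1) / p, hwm⟩) p
  have hs2 : y ^ p - 1 = (p : ℂ) ^ 2 * ((y - 1) / p + ((y - 1) / p) ^ 2 * (s : ℂ)) := by
    have := congrArg (fun z : V => (z : ℂ)) hs
    push_cast at this
    have e : (1 + (p : ℂ) * ((y - 1) / p)) = y := by
      field_simp
      ring
    rw [e] at this
    rw [this]
    ring
  rw [hs2, map_mul, map_pow]
  refine mul_le_of_le_one_right' ?_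
  refine (Valuation.map_add _ _ _).trans (max_le hw ?_)
  rw [map_mul, map_pow]
  exact mul_le_one' (pow_le_one' hw 2) ((ValuationSubring.valuation_le_one_iff V _).2 s.2)

end Pool.Agent.TWT


end

section

/-!
# TWT, block B, module NMF: relative norms (helper40)
-/

set_option autoImplicit false

open WeierstrassCurve Polynomial NumberField IsDedekindDomain

namespace Pool.Agent.TWT

open _root_.MU3 Pool.Agent.MU3A Pool.Agent.MU3B Pool.Agent.MU3C Pool.Agent.RI Pool.Agent.RID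
open Pool.Agent.MUX Pool.Agent.MUXU Pool.Agent.MUXW
open Pool.Agent.MU3V (cls Sub GD algDF)

noncomputable section

namespace NMF

/-- the ideal of a nonzero natural number is not zero -/
lemma idl_ne {A B : ℤ} {M : ℕ} (hM : M ≠ 0) : idl (A := A) (B := B) M ≠ ⊥ := by
  rw [Ne, Ideal.span_singleton_eq_bot]
  intro h
  have h1 := congrArg QuadraticAlgebra.re h
  rw [QuadraticAlgebra.re_natCast] at h1
  exact hM (by exact_mod_cast h1)

variable {A B : ℤ} {F : IntermediateField (kk A B) ℂ} {D : IntermediateField ℚ ℂ}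

/-- multiplicativity -/
theorem mul_inv [FiniteDimensional (kk A B) F] (h : kk A B ≤ D) (x y : F) :
    letI := algC h
    ∀ τ : D ≃ₐ[kk A B] D, cWt h (x * y) τ = cWt h x τ * cWt h y τ ∧
      cWt h x⁻¹ τ = (cWt h x τ)⁻¹ := by
  intro τ
  let _ := algC h
  constructor
  · unfold cWt
    rw [← finprod_mul_distrib (Set.toFinite _) (Set.toFinite _)]
    exact finprod_congr fun σ => by rw [map_mul]; rfl
  · unfold cWt
    rw [← finprod_inv_distrib]
    exact finprod_congr fun σ => by rw [map_inv₀]; rfl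

/-- translation -/
theorem trans (h : kk A B ≤ D) (hs : Sub D F) (x : F) :
    letI := algC h
    ∀ (τ τψ : D ≃ₐ[kk A B] D) (ψ : F ≃ₐ[kk A B] F), Ext1 h τψ ψ →
      cWt h (ψ x) τ = cWt h x (τ * τψ) := by
  intro τ τψ ψ hψ
  let _ := algC h
  let e : {σ : F ≃ₐ[kk A B] F // Ext1 h τ σ} ≃ {σ : F ≃ₐ[kk A B] F // Ext1 h (τ * τψ) σ} :=
    { toFun := fun σ => ⟨σ.1 * ψ, Mem.ext1_mul h hs _ _ _ _ σ.2 hψ⟩
      invFun := fun σ => ⟨σ.1 * ψ⁻¹, by
        have h2 := Mem.ext1_mul h hs _ _ _ _ σ.2 (Mem.ext1_inv h hs _ _ hψ)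
        rwa [mul_inv_cancel_right] at h2⟩
      left_inv := fun σ => Subtype.ext (mul_inv_cancel_right _ _)
      right_inv := fun σ => Subtype.ext (inv_mul_cancel_right _ _) }
  exact finprod_comp_equiv (f := fun σ : {σ : F ≃ₐ[kk A B] F // Ext1 h (τ * τψ) σ} =>
    ((σ.1 x : F) : ℂ)) e

/-- the norm of an element of a normal subfield `H` is in `H` -/
theorem mem_H (H : IntermediateField (kk A B) ℂ) [Normal (kk A B) H] (hHF : H ≤ F)
    (h : kk A B ≤ D) (x : F) (hx : (x : ℂ) ∈ H) : cW h x ∈ H := by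
  unfold cW
  refine finprod_induction (fun z : ℂ => z ∈ H) H.one_mem (fun _ _ => H.mul_mem) ?_
  intro σ
  let φ : H →ₐ[kk A B] ℂ := F.val.comp
    (((σ : F ≃ₐ[kk A B] F) : F →ₐ[kk A B] F).comp (IntermediateField.inclusion hHF))
  have h1 : φ.fieldRange = H := AlgHom.fieldRange_of_normal φ
  have h2 : φ ⟨x, hx⟩ ∈ φ.fieldRange := ⟨⟨x, hx⟩, rfl⟩
  rw [h1] at h2
  exact h2

end NMF

open _root_.Pool.Agent.TWT.NMF in
theorem t_NMF : S_NMF := by
  intro A B _ T M hM D h hs x y hx _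
  let _ := algC h
  have hb := idl_ne (A := A) (B := B) hM
  have _ : FiniteDimensional (kk A B) (RF (idl (A := A) (B := B) M) :
    IntermediateField (kk A B) ℂ) := T.fin _ hb
  have _ : IsGalois (kk A B) (RF (idl (A := A) (B := B) M) : IntermediateField (kk A B) ℂ) :=
    T.gal _ hb
  have htop : (⊤ : Ideal (OO A B)) ≠ ⊥ := top_ne_bot
  have _ : IsGalois (kk A B) (RF (⊤ : Ideal (OO A B)) : IntermediateField (kk A B) ℂ) :=
    T.gal _ htop
  refine ⟨mul_inv h x y, fun τ τψ ψ hψ => trans h hs x τ τψ ψ hψ, ?_⟩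
  intro hxH g hg τ
  obtain ⟨_, h2, h3, _, _⟩ := ty_MEM A B _ (T.fin _ hb) (T.gal _ hb) (T.comm _ hb) D h hs x hx
  have h1 := (h2 1).1
  have h4 : cW h x ∈ D := by
    have e := (ty_MEM A B _ (T.fin _ hb) (T.gal _ hb) (T.comm _ hb) D h hs x hx).1
    rw [e]
    exact h1
  rw [← h3 (τ * g) h4, ← h3 τ h4, AlgEquiv.mul_apply]
  rw [hg ⟨cW h x, h4⟩ (mem_H _ (T.mono ⊤ (idl M) le_top) h x hxH)]

end

end Pool.Agent.TWT


end

section

set_option autoImplicit false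

namespace Pool.Agent.TWT

namespace PRO

variable {K Γ₀ : Type*} [Field K] [LinearOrderedCommGroupWithZero Γ₀] (v : Valuation K Γ₀)

/-- `u ≡ 1 + e`, `e` of size `w`, up to an error `r` -/
def Near (w r : Γ₀) (u e : K) : Prop := v e ≤ w ∧ v (u - 1 - e) ≤ r

theorem near_one (w r : Γ₀) : Near v w r 1 0 := by
  refine ⟨?_, ?_⟩ <;> simp

theorem near_mul {w r : Γ₀} (hw : w ≤ 1) (hr : r ≤ w) (hwr : w ^ 2 ≤ r) {u e u' e' : K}
    (h : Near v w r u e) (h' : Near v w r u' e') :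
    Near v w r (u * u') (e + e') := by
  obtain ⟨h1, h2⟩ := h
  obtain ⟨h1', h2'⟩ := h'
  have hu' : v u' ≤ 1 := by
    have e1 : u' = (u' - 1 - e') + (1 + e') := by ring
    rw [e1]
    refine (v.map_add _ _).trans (max_le (h2'.trans (hr.trans hw)) ?_)
    refine (v.map_add _ _).trans (max_le ?_ (h1'.trans hw))
    rw [v.map_one]
  have he : v (1 + e) ≤ 1 := by
    refine (v.map_add _ _).trans (max_le ?_ (h1.trans hw))
    rw [v.map_one]
  refine ⟨(v.map_add _ _).trans (max_le h1 h1'), ?_⟩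
  have e2 : u * u' - 1 - (e + e') = (u - 1 - e) * u' + ((1 + e) * (u' - 1 - e') + e * e') := by
    ring
  rw [e2]
  refine (v.map_add _ _).trans (max_le ?_ ((v.map_add _ _).trans (max_le ?_ ?_)))
  · rw [v.map_mul]
    calc v (u - 1 - e) * v u' ≤ r * 1 := mul_le_mul' h2 hu'
      _ = r := mul_one _
  · rw [v.map_mul]
    calc v (1 + e) * v (u' - 1 - e') ≤ 1 * r := mul_le_mul' he h2'
      _ = r := one_mul _
  · rw [v.map_mul]
    refine le_trans (mul_le_mul' h1 h1') ?_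
    rw [← pow_two]
    exact hwr

theorem near_pow {w r : Γ₀} (hw : w ≤ 1) (hr : r ≤ w) (hwr : w ^ 2 ≤ r) {u e : K}
    (h : Near v w r u e) (n : ℕ) : Near v w r (u ^ n) ((n : K) * e) := by
  induction n with
  | zero => simpa using near_one v w r
  | succ n ih =>
    have h1 := near_mul v hw hr hwr ih h
    have e1 : ((n + 1 : ℕ) : K) * e = (n : K) * e + e := by push_cast; ring
    rw [pow_succ, e1]
    exact h1

theorem near_prod {w r : Γ₀} (hw : w ≤ 1) (hr : r ≤ w) (hwr : w ^ 2 ≤ r) {J : Type*}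
    (S : Finset J) (u e : J → K) (n : J → ℕ) (h : ∀ j ∈ S, Near v w r (u j) (e j)) :
    Near v w r (∏ j ∈ S, u j ^ n j) (∑ j ∈ S, (n j : K) * e j) := by
  classical
  induction S using Finset.induction_on with
  | empty => simpa using near_one v w r
  | insert a S ha ih =>
    rw [Finset.prod_insert ha, Finset.sum_insert ha]
    exact near_mul v hw hr hwr
      (near_pow v hw hr hwr (h a (Finset.mem_insert_self a S)) (n a))
      (ih fun j hj => h j (Finset.mem_insert_of_mem hj))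

end PRO

/-- (PROG) products, with a general error bound `q`. -/
theorem t_PROG : ∀ (V : ValuationSubring ℂ) (p q : ℂ), V.valuation p < 1 →
    V.valuation p ^ 2 ≤ V.valuation q → V.valuation q ≤ V.valuation p → ∀ (J : Type)
    (S : Finset J) (u e : J → ℂ) (n : J → ℕ), (∀ j ∈ S, V.valuation (e j) ≤ V.valuation p) →
    (∀ j ∈ S, V.valuation (u j - 1 - e j) ≤ V.valuation q) →
    V.valuation (∏ j ∈ S, u j ^ n j - 1 - ∑ j ∈ S, (n j : ℂ) * e j) ≤ V.valuation q := by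
  intro V p q hp hq hqp J S u e n h1 h2
  exact (PRO.near_prod V.valuation hp.le hqp hq S u e n fun j hj => ⟨h1 j hj, h2 j hj⟩).2

theorem t_PRO : S_PRO := by
  intro V p _ hv J S u e n h1 h2
  have h3 : V.valuation ((p : ℂ) ^ 2) = V.valuation (p : ℂ) ^ 2 := map_pow _ _ _
  have h := t_PROG V (p : ℂ) ((p : ℂ) ^ 2) hv (by rw [h3]) (by
    rw [h3, pow_two]
    calc V.valuation (p : ℂ) * V.valuation (p : ℂ) ≤ V.valuation (p : ℂ) * 1 :=
          mul_le_mul_right hv.le _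
      _ = V.valuation (p : ℂ) := mul_one _) J S u e n h1 (by
    intro j hj
    rw [h3]
    exact h2 j hj)
  rw [h3] at h
  exact h

end Pool.Agent.TWT


end

section

/-!
# TWT, block B: module RAMG (helper71)
-/

set_option autoImplicit false

open WeierstrassCurve Polynomial NumberField IsDedekindDomain

namespace Pool.Agent.TWT

open _root_.MU3 Pool.Agent.MU3A Pool.Agent.MU3B Pool.Agent.MU3C Pool.Agent.RI Pool.Agent.RID
open Pool.Agent.MUX Pool.Agent.MUXU Pool.Agent.MUXW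
open OnePoint

noncomputable section

namespace RAMG

variable {A B : ℤ}

/-- lift of the root modulo `p²` -/
theorem lift {p : ℕ} {r : ℤ} (hp : p.Prime) (h5 : 5 ≤ p) (h : (p : ℤ) ∣ r ^ 2 - B * r - A)
    (hd : ¬ (p : ℤ) ∣ absD A B) :
    ∃ s : ℤ, (p : ℤ) ^ 2 ∣ s ^ 2 - B * s - A ∧ (p : ℤ) ∣ s - r := by
  have hpi : Prime (p : ℤ) := Nat.prime_iff_prime_int.1 hp
  have hn : ¬ (p : ℤ) ∣ 2 * r - B := by
    intro h1
    apply hd
    have e : absD A B = 4 * (r ^ 2 - B * r - A) - (2 * r - B) * (2 * r - B) := by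
      unfold absD
      ring
    rw [e]
    exact dvd_sub (Dvd.dvd.mul_left h 4) (Dvd.dvd.mul_right h1 _)
  obtain ⟨u, w, huw⟩ := (Prime.coprime_iff_not_dvd hpi).2 hn
  obtain ⟨k, hk⟩ := h
  refine ⟨r - p * k * w, ⟨k * u + k ^ 2 * w ^ 2, ?_⟩, ⟨-(k * w), by ring⟩⟩
  linear_combination hk - p * k * huw

/-- `p` is not in `P²` -/
theorem not_sq {p : ℕ} (hp : p.Prime) (h5 : 5 ≤ p) (hd : ¬ (p : ℤ) ∣ absD A B)
    {P : Ideal (OO A B)}
    (hcard : Nat.card (OO A B ⧸ P) = p) : ((p : ℕ) : OO A B) ∉ P ^ 2 := by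
  intro hmem
  rw [pow_two] at hmem
  obtain ⟨r, hr, hP⟩ := MUXE.CtxX.dgi P p hp hcard
  obtain ⟨s, hs, hsr⟩ := lift hp h5 hr hd
  have hP' : ∀ x ∈ P, (p : ℤ) ∣ x.re + x.im * s := by
    intro x hx
    have h1 := (hP x).1 hx
    have h2 : x.re + x.im * s = (x.re + x.im * r) + x.im * (s - r) := by ring
    rw [h2]
    exact dvd_add h1 (Dvd.dvd.mul_left hsr _)
  have key : ∀ y ∈ P * P, ((p : ℤ)) ^ 2 ∣ y.re + y.im * s := by
    intro y hy
    refine Submodule.mul_induction_on (C := fun y : OO A B => ((p : ℤ)) ^ 2 ∣ y.re + y.im * s)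
      hy ?_ ?_
    · intro x hx y hy
      have h1 : (x * y).re + (x * y).im * s = (x.re + x.im * s) * (y.re + y.im * s) -
          x.im * y.im * (s ^ 2 - B * s - A) := by
        rw [QuadraticAlgebra.re_mul, QuadraticAlgebra.im_mul]
        ring
      show ((p : ℤ)) ^ 2 ∣ (x * y).re + (x * y).im * s
      rw [h1]
      refine dvd_sub ?_ (Dvd.dvd.mul_left hs _)
      rw [pow_two]
      exact mul_dvd_mul (hP' x hx) (hP' y hy)
    · intro x y hx hy
      have h1 : (x + y).re + (x + y).im * s = (x.re + x.im * s) + (y.re + y.im * s) := by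
        rw [QuadraticAlgebra.re_add, QuadraticAlgebra.im_add]
        ring
      show ((p : ℤ)) ^ 2 ∣ (x + y).re + (x + y).im * s
      rw [h1]
      exact dvd_add hx hy
  have h1 := key _ hmem
  have h2 : ((p : ℕ) : OO A B).re = p := by simp
  have h3 : ((p : ℕ) : OO A B).im = 0 := by simp
  rw [h2, h3, zero_mul, add_zero, pow_two] at h1
  have hp0 : (p : ℤ) ≠ 0 := by exact_mod_cast hp.ne_zero
  have h4 : (p : ℤ) ∣ 1 := by
    obtain ⟨c, hc⟩ := h1
    refine ⟨c, ?_⟩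
    have h5 : (p : ℤ) * 1 = p * (p * c) := by linear_combination hc
    exact mul_left_cancel₀ hp0 h5
  have h5 : p ∣ 1 := by exact_mod_cast h4
  exact hp.one_lt.ne' (Nat.dvd_one.1 h5)

end RAMG

open _root_.Pool.Agent.TWT.RAMG MUXE.RamE Pool.Agent.MU3E.RAM MUXE in
theorem t_RAMG (h : S_VPG) : S_RAMG := by
  intro p A B P V f hS F _ _ htriv y hy hy0
  obtain ⟨hvp, hp0, hvP, -, -, -, -⟩ := h p A B P V f hS
  obtain ⟨⟨φ, hφ⟩, hinj, hded, hpos, hint⟩ := MUXE.te_RNG A B hS.cq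
  have hw0 : IsIntegral ℤ (wC A B) := by
    rw [hint _ (wC_mem A B)]
    exact ⟨⟨0, 1⟩, by simp [emb]⟩
  have hfd : FiniteDimensional ℚ (kk A B) :=
    IntermediateField.adjoin.finiteDimensional hw0.tower_top
  have hk : NumberField (kk A B) := ⟨⟩
  have hFQ : FiniteDimensional ℚ F := FiniteDimensional.trans ℚ (kk A B) F
  have hF : NumberField F := ⟨⟩
  have hIn : ∀ x : OO A B, IsIntegral ℤ (ek x) := by
    intro x
    have h2 : IsIntegral ℤ (emb x) := (hint (emb x) (Pool.Agent.MU3A.emb_mem x)).mpr ⟨x, rfl⟩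
    have h3 : algebraMap (kk A B) ℂ (ek x) = emb x := rfl
    rw [← h3] at h2
    exact (isIntegral_algebraMap_iff (FaithfulSMul.algebraMap_injective (kk A B) ℂ)).mp h2
  -- the ring isomorphism
  let e : OO A B →+* 𝓞 (kk A B) :=
    { toFun := fun x => ⟨ek x, hIn x⟩
      map_one' := by
        apply RingOfIntegers.ext
        apply Subtype.ext
        change emb 1 = 1
        rw [← hφ, map_one]
      map_mul' := by
        intro a b
        apply RingOfIntegers.ext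
        apply Subtype.ext
        change emb (a * b) = emb a * emb b
        rw [← hφ, ← hφ, ← hφ, map_mul]
      map_zero' := by
        apply RingOfIntegers.ext
        apply Subtype.ext
        change emb 0 = 0
        rw [← hφ, map_zero]
      map_add' := by
        intro a b
        apply RingOfIntegers.ext
        apply Subtype.ext
        change emb (a + b) = emb a + emb b
        rw [← hφ, ← hφ, ← hφ, map_add] }
  have he : ∀ x, (((e x : 𝓞 (kk A B)) : kk A B) : ℂ) = emb x := fun x => rfl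
  have hesurj : Function.Surjective e := by
    intro x
    have h2 : IsIntegral ℤ ((x : kk A B) : ℂ) :=
      (RingOfIntegers.isIntegral_coe x).map (Algebra.ofId (kk A B) ℂ |>.restrictScalars ℤ)
    obtain ⟨z, hz⟩ := (hint _ (x : kk A B).2).mp h2
    refine ⟨z, ?_⟩
    apply RingOfIntegers.ext
    apply Subtype.ext
    rw [he, hz]
  have heinj : Function.Injective e := by
    rw [injective_iff_map_eq_zero]
    intro x hx
    apply hinj
    rw [← he, hx]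
    rfl
  have hpC : emb ((p : ℕ) : OO A B) = (p : ℂ) := by rw [← hφ, map_natCast]
  have hpne : (p : ℂ) ≠ 0 := by
    intro h
    exact hp0 (by rw [h, map_zero])
  obtain ⟨w, hw⟩ := exists_prime (V := V) (algebraMap F ℂ)
    (z := ((p : ℕ) : 𝓞 F)) (by
      intro h
      have h1 := congrArg (fun t : 𝓞 F => algebraMap F ℂ (t : F)) h
      have h2 : ((p : ℕ) : ℂ) = 0 := by
        simpa using h1
      exact hpne h2) (by
      have h2 : (algebraMap F ℂ) ((((p : ℕ) : 𝓞 F)) : F) = (p : ℂ) := by simp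
      rw [h2]
      exact hvp)
  have hcomap : (w.asIdeal.under (𝓞 (kk A B))).comap e = P := by
    ext z
    have hxw : z ∈ (w.asIdeal.under (𝓞 (kk A B))).comap e ↔ V.valuation (emb z) < 1 := by
      exact hw (algebraMap (𝓞 (kk A B)) (𝓞 F) (e z))
    rw [hxw]
    exact (hvP z).2
  have hmap : P.map e = w.asIdeal.under (𝓞 (kk A B)) := by
    rw [← hcomap]
    exact Ideal.map_comap_of_surjective e hesurj _
  have hep : e ((p : ℕ) : OO A B) = ((p : ℕ) : 𝓞 (kk A B)) := map_natCast e p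
  have hq1 : ((p : ℕ) : 𝓞 (kk A B)) ∈ w.asIdeal.under (𝓞 (kk A B)) := by
    rw [← hmap, ← hep]
    exact Ideal.mem_map_of_mem e hS.hP.mem
  have hq2 : ((p : ℕ) : 𝓞 (kk A B)) ∉ (w.asIdeal.under (𝓞 (kk A B))) ^ 2 := by
    rw [← hmap, ← Ideal.map_pow, ← hep, Ideal.mem_map_iff_of_surjective e hesurj]
    rintro ⟨z, hz, hz2⟩
    rw [heinj hz2] at hz
    exact not_sq hS.pp hS.p5 hS.pD hS.hP.norm hz
  have hord := unramP (algebraMap F ℂ) hw hq1 hq2 (by
    intro σ hσ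
    apply htriv σ
    intro x hx
    exact hσ x hx)
  obtain ⟨n, hn⟩ := pow_unif (algebraMap F ℂ) hw hord (x := (⟨y, hy⟩ : F))
    (fun h => hy0 (congrArg Subtype.val h))
  refine ⟨n, ?_⟩
  have h5 : (algebraMap F ℂ) (algebraMap (kk A B) F (((p : ℕ) : 𝓞 (kk A B)) : kk A B)) = (p : ℂ) := by
    simp
  rw [h5] at hn
  exact hn

end

end Pool.Agent.TWT


end

section

/-!
# TWT, RSF: functionals on the residue field
-/

set_option autoImplicit false

namespace Pool.Agent.TWT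

namespace RSF

theorem main (p : ℕ) [Fact p.Prime] (Fr : Type) [Field Fr] [CharP Fr p] (T : Type) [Fintype T]
    (c b : T → Fr) (h : ∀ t : Fr →+ ZMod p, ∑ τ : T, (((t (c τ)).val : ℕ) : Fr) * b τ = 0) :
    ∑ τ : T, c τ * b τ = 0 := by
  classical
  let _ : Algebra (ZMod p) Fr := ZMod.algebra Fr p
  let B := Module.Basis.ofVectorSpace (ZMod p) Fr
  have hsm : ∀ (a : ZMod p) (x : Fr), a • x = ((a.val : ℕ) : Fr) * x := by
    intro a x
    conv_lhs => rw [← ZMod.natCast_zmod_val a]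
    rw [Algebra.smul_def, map_natCast]
  have h2 : ∀ j, ∑ τ : T, (((B.repr (c τ) j).val : ℕ) : Fr) * b τ = 0 := fun j =>
    h (B.coord j).toAddMonoidHom
  let S : Finset _ := Finset.univ.biUnion fun τ : T => (B.repr (c τ)).support
  have h3 : ∀ τ : T, c τ = ∑ j ∈ S, (((B.repr (c τ) j).val : ℕ) : Fr) * B j := by
    intro τ
    have h4 := B.linearCombination_repr (c τ)
    rw [Finsupp.linearCombination_apply] at h4
    have h5 := Finsupp.sum_of_support_subset (B.repr (c τ))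
      (Finset.subset_biUnion_of_mem (fun τ : T => (B.repr (c τ)).support) (Finset.mem_univ τ))
      (fun j (a : ZMod p) => a • B j) (fun i _ => zero_smul _ _)
    rw [h5] at h4
    refine h4.symm.trans (Finset.sum_congr rfl fun j _ => ?_)
    exact hsm _ _
  calc ∑ τ : T, c τ * b τ = ∑ τ : T, (∑ j ∈ S, (((B.repr (c τ) j).val : ℕ) : Fr) * B j) * b τ :=
        Finset.sum_congr rfl fun τ _ => by rw [← h3 τ]
    _ = ∑ j ∈ S, B j * ∑ τ : T, (((B.repr (c τ) j).val : ℕ) : Fr) * b τ := by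
        simp only [Finset.sum_mul, Finset.mul_sum]
        rw [Finset.sum_comm]
        refine Finset.sum_congr rfl fun j _ => Finset.sum_congr rfl fun τ _ => ?_
        ring
    _ = 0 := Finset.sum_eq_zero fun j _ => by rw [h2 j, mul_zero]

end RSF

theorem t_RSF : S_RSF := fun p _ Fr _ _ T _ c b h => RSF.main p Fr T c b h

end Pool.Agent.TWT


end
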