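import Pool.Agent.MVF.C038
import Pool.Agent.MVF.C039
import Pool.Agent.MVF.C047
import Pool.Agent.MVF.C076
import Pool.Agent.TWM.C03
import Pool.Agent.TWM.C05

/-! Parts: TWB.DPL, TWB.St, TWB.H1G, TWB.NB, TWB.NUA, TWB.REL, TWB.SET, TWB.SYM, TWB.TEI, TWB.TWB, TWB.UPR, TWB.All, TWB.All4 -/

section

/-!
# TWB, module DPL (helper34): depletion of the symbols of theta series at a prime `l` dividing the level

If `e` is zero at all `x` which are not prime to `l`, then `∑_(k<l) θ_b(z + k/l) = 0`, because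
`l ∣ N x/N b` implies that `x` is not prime to `l`. So `∑_(k<l) Φ_b(∞, x + k/l) = 0`.
-/

set_option autoImplicit false

namespace Pool.Agent.TWB

open _root_.MU3 Pool.Agent.MU3A Pool.Agent.MU3B Pool.Agent.MU3F Pool.Agent.MuSym OnePoint
open Pool.Agent.MUXF (Sx_ALG Sx_QB Sx_BDD Sx_TSM Sx_ITG xf_ALG xf_QB xf_BDD xf_TSM xf_ITG)
open scoped ComplexConjugate

noncomputable section

namespace DPL

open Pool.Agent.MUXF

/-- a point `x` with `l ∣ N x / N b` is not prime to `l` -/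
lemma ezero (A B : ℤ) (hc : MUXF.CQ A B) (b g : Ideal (OO A B)) (e : OO A B → ℂ) (l : ℕ)
    (hb : b ≠ ⊥) (he : MUXF.IsEI g e) (hl : l.Prime) (hgl : g ≤ Ideal.span {((l : ℕ) : OO A B)})
    (x : OO A B) (hx : x ∈ b) (hd : (l : ℤ) ∣ MUXF.qb b x) : e x = 0 := by
  by_contra hne
  obtain ⟨_, h2, h3, _, hdom⟩ := xf_ALG A B hc
  obtain ⟨hQ1, -, -⟩ := xf_QB A B hc b hb
  have h4 := (he.supp x).1 hne
  have h5 : (l : ℤ) ∣ nm x := by
    rw [(hQ1 x hx).1]
    exact hd.mul_left _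
  have h6 : IsCoprime (Ideal.span {x}) (Ideal.span {((l : ℕ) : OO A B)}) := by
    rw [Ideal.isCoprime_iff_sup_eq] at h4 ⊢
    rw [eq_top_iff, ← h4]
    exact sup_le_sup_left hgl _
  rw [Ideal.isCoprime_span_singleton_iff] at h6
  have h7 : IsCoprime (star x) ((l : ℕ) : OO A B) := by
    obtain ⟨u, v, huv⟩ := h6
    refine ⟨star u, star v, ?_⟩
    have := congrArg star huv
    simpa [mul_comm] using this
  have h8 : IsCoprime (x * star x) ((l : ℕ) : OO A B) := h6.mul_left h7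
  rw [(h2 x).2.2.2.2.1] at h8
  obtain ⟨t, ht⟩ := h5
  rw [ht] at h8
  obtain ⟨u, v, huv⟩ := h8
  have h9 : ((l : ℕ) : OO A B) * (u * (t : OO A B) + v) = 1 := by
    rw [← huv]
    push_cast
    ring
  have h10 := congrArg nm h9
  rw [(xf_ALG A B hc).1 _ _ |>.2.2] at h10
  have h11 : nm (((l : ℕ) : ℤ) : OO A B) = (l : ℤ) ^ 2 := (h3 l).2
  have h12 : nm (1 : OO A B) = 1 := by
    have := (h3 1).2
    simpa using this
  rw [Int.cast_natCast] at h11
  rw [h11, h12] at h10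
  have h13 : (l : ℤ) ∣ 1 := ⟨l * nm (u * (t : OO A B) + v), by rw [← h10]; ring⟩
  have h14 := Int.eq_one_of_dvd_one (by positivity) h13
  have := hl.one_lt
  omega

/-- the sum of the exponentials -/
lemma geom0 {l : ℕ} (hl : l ≠ 0) (n : ℤ) (h : ¬ (l : ℤ) ∣ n) (z : ℂ) :
    ∑ j ∈ Finset.range l, Complex.exp (2 * Real.pi * Complex.I * (n : ℂ) * (z + (j : ℂ) / l)) = 0 := by
  have h1 := FUL.geom hl n (l * z)
  rw [if_neg h] at h1
  rw [← h1]
  refine Finset.sum_congr rfl fun j _ => ?_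
  congr 2
  have hl0 : (l : ℂ) ≠ 0 := Nat.cast_ne_zero.2 hl
  field_simp

lemma theta0 (A B : ℤ) (hc : MUXF.CQ A B) (b g : Ideal (OO A B)) (e : OO A B → ℂ) (l : ℕ)
    (hb : b ≠ ⊥) (hg : g ≠ ⊥) (he : MUXF.IsEI g e) (hl : l.Prime)
    (hgl : g ≤ Ideal.span {((l : ℕ) : OO A B)}) (z : ℂ) (hz : 0 < z.im) :
    ∑ j ∈ Finset.range l, MUXF.thetaI b e (z + (j : ℂ) / l) = 0 := by
  obtain ⟨-, -, -, hfin, -⟩ := xf_ALG A B hc
  obtain ⟨hQ1, -, -⟩ := xf_QB A B hc b hb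
  obtain ⟨-, C, -, hC⟩ := xf_BDD A B hc g e hg he
  have hS := xf_TSM A B hc b hb e C hC
  have hnb : nI b ≠ 0 := by
    have := hfin b hb
    exact (Nat.card_pos (α := OO A B ⧸ b)).ne'
  have hnb0 : (nI b : ℂ) ≠ 0 := Nat.cast_ne_zero.2 hnb
  have him : ∀ j : ℕ, 0 < (z + (j : ℂ) / l).im := by
    intro j
    have : ((j : ℂ) / l).im = 0 := by
      rw [show ((j : ℂ) / l) = (((j : ℝ) / l : ℝ) : ℂ) by push_cast; rfl]
      exact Complex.ofReal_im _
    rw [Complex.add_im, this, add_zero]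
    exact hz
  have hnm : ∀ x : b, ((nm (x : OO A B) : ℂ) / nI b) = ((qb b (x : OO A B) : ℤ) : ℂ) := by
    intro x
    rw [(hQ1 x x.2).1]
    push_cast
    field_simp
  unfold MUXF.thetaI
  rw [← Finset.mul_sum, ← Summable.tsum_finsetSum (fun j _ => hS _ (him j))]
  have h0 : ∀ x : b, ∑ j ∈ Finset.range l, e x * conj (emb (x : OO A B)) *
      Complex.exp (2 * Real.pi * Complex.I * ((nm (x : OO A B) : ℂ) / nI b) * (z + (j : ℂ) / l)) = 0 := by
    intro x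
    by_cases hd : (l : ℤ) ∣ qb b (x : OO A B)
    · rw [ezero A B hc b g e l hb he hl hgl x x.2 hd]
      simp
    · rw [← Finset.mul_sum]
      simp only [hnm]
      rw [geom0 hl.ne_zero _ hd, mul_zero]
  simp only [h0, tsum_zero, mul_zero]

lemma iv0 (A B : ℤ) (hc : MUXF.CQ A B) (b g : Ideal (OO A B)) (e : OO A B → ℂ) (l : ℕ)
    (hb : b ≠ ⊥) (hg : g ≠ ⊥) (he : MUXF.IsEI g e) (hl : l.Prime)
    (hgl : g ≤ Ideal.span {((l : ℕ) : OO A B)}) (r : ℚ) :
    ∑ j ∈ Finset.range l, MUXF.IvI b e (r + (j : ℚ) / l) = 0 := by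
  have h1 : ∀ j ∈ Finset.range l, MeasureTheory.IntegrableOn
      (fun t : ℝ => thetaI b e (((r + (j : ℚ) / l : ℚ) : ℂ) + t * Complex.I)) (Set.Ioi 0) :=
    fun j _ => xf_ITG A B hc b g e hb hg he _
  unfold MUXF.IvI
  rw [← Finset.mul_sum, ← MeasureTheory.integral_finsetSum _ h1]
  have h2 : ∫ t in Set.Ioi (0 : ℝ), ∑ j ∈ Finset.range l,
      thetaI b e (((r + (j : ℚ) / l : ℚ) : ℂ) + t * Complex.I) =
      ∫ t in Set.Ioi (0 : ℝ), (0 : ℂ) := by
    refine MeasureTheory.setIntegral_congr_fun measurableSet_Ioi fun t ht => ?_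
    have ht0 : (0 : ℝ) < t := ht
    have hz : 0 < ((r : ℂ) + t * Complex.I).im := by
      simpa using ht0
    have h3 := theta0 A B hc b g e l hb hg he hl hgl _ hz
    show ∑ j ∈ Finset.range l, thetaI b e (((r + (j : ℚ) / l : ℚ) : ℂ) + t * Complex.I) = 0
    rw [← h3]
    refine Finset.sum_congr rfl fun j _ => ?_
    congr 1
    push_cast
    ring
  rw [h2]
  simp

end DPL

/-- DPL: the symbols `Φ_b` are depleted at `l` if `l` divides the conductor ideal `g` -/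
theorem t_DPL (A B : ℤ) (hc : MUX.CQ A B) (b g : Ideal (OO A B)) (e : OO A B → ℂ) (l : ℕ)
    (hb : b ≠ ⊥) (hg : g ≠ ⊥) (he : MUX.IsEI g e) (hl : l.Prime)
    (hgl : g ≤ Ideal.span {((l : ℕ) : OO A B)}) (x : ℚ) :
    ∑ k ∈ Finset.range l, MUX.PhiI b e ∞ ((x + (k : ℚ) / l : ℚ) : OnePoint ℚ) = 0 := by
  have h1 := DPL.iv0 A B (MUXHY.toCQ hc) b g e l hb hg (MUXHY.toEI he) hl hgl x
  have h2 : ∀ q : ℚ, MUX.PhiI b e ∞ (q : OnePoint ℚ) = - MUXF.IvI b e q := by
    intro q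
    change MUX.IcI b e ∞ - MUX.IcI b e (q : OnePoint ℚ) = _
    change (0 : ℂ) - MUXF.IvI b e q = _
    rw [zero_sub]
  simp only [h2]
  rw [Finset.sum_neg_distrib, h1, neg_zero]

/-- DPP: the symbols `PP R P e kk i` are depleted at `l` if `l` divides the conductor ideal -/
theorem t_DPP (A B : ℤ) (hc : MUX.CQ A B) (n : ℕ) (ι : Type) [Fintype ι] (R : MUX.Reps A B n ι)
    (P : Ideal (OO A B)) (hP : P ≠ ⊥) (g : Ideal (OO A B)) (e : OO A B → ℂ) (hg : g ≠ ⊥)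
    (he : MUX.IsEI g e) (l : ℕ) (hl : l.Prime) (hgl : g ≤ Ideal.span {((l : ℕ) : OO A B)})
    (kk : ι → ℂ) (i : ℕ) (x : ℚ) :
    ∑ k ∈ Finset.range l, MUXHY.PP R P e kk i ∞ ((x + (k : ℚ) / l : ℚ) : OnePoint ℚ) = 0 := by
  have hdom : IsDomain (OO A B) := (xf_ALG A B (MUXHY.toCQ hc)).2.2.2.2
  unfold MUXHY.PP
  rw [← Finset.sum_div, Finset.sum_comm]
  have h0 : ∀ c : ι, ∑ k ∈ Finset.range l, kk c / e ((MUX.nI (R.b c) : ℕ) : OO A B) *
      MUX.PhiI (R.b c * P ^ i) e ∞ ((x + (k : ℚ) / l : ℚ) : OnePoint ℚ) = 0 := by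
    intro c
    rw [← Finset.mul_sum, t_DPL A B hc _ g e l (mul_ne_zero (R.nl c).b_ne (pow_ne_zero _ hP)) hg he
      hl hgl x, mul_zero]
  rw [Finset.sum_eq_zero (fun c _ => h0 c), zero_div]

end

end Pool.Agent.TWB


end

section

/-!
# TWB: the twist of a CM symbol by an odd character modulo `p` is not zero modulo `p` on closed cycles; sums over characters of `l`-power conductor (MP_b78433_nt, Theorem C)

Hypotheses: `MUXH.HypA` (`Pool/Agent/MUX/StHX.lean`) with `s = -1`, for a finite family, depleted at `l`.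
Final statement `S_TWB`: for infinitely many `n`, for all members `i` of the family and all even `ψ` of
conductor `l^(n+j)`, `j < a`: `v(∑_b ∑_c ψ(b) w(c) P i 0 ∞ (b/l^(n+j) + c/p)) ≥ 1`.

Idea. `Q = P - P(-·)` is the odd part of the symbol, `B x y = ∑_(c mod p) w(c) Q(x + c/p, y + c/p)`, an
even symbol. If `B ∞ (g ∞)` were in the maximal ideal for all `g` in `Γ₁(L)`, then (`S_REL`)
`(U_p Q)(∞, y) ≡ p Q(∞, y/p)` for these `y = g ∞`, and `U_p^h Q = a Q`, `v a = 1`, would give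
`v(Q(∞, y)) < 1`, against Theorem G (`HypA.G`). Then `TWR.S_TW2` for the symbols `B`.

Module `XXX`: `theorem t_XXX : S_XXX` (or `M_XXX`: with other statements as hypotheses) in
`Pool/Agent/TWB/XXX.lean`. `mob` is `Pool.Agent.MuSym.mob`: `mob a b c d x = (a x + b)/(c x + d)`.
-/

set_option autoImplicit false

namespace Pool.Agent.TWB

open _root_.MU3 Pool.Agent.MuSym Pool.Agent.MUXH OnePoint Finset

noncomputable section

/-- the twist of a symbol by a character modulo `p` -/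
def Bt (p : ℕ) (w : DirichletCharacter ℂ p) (Q : OnePoint ℚ → OnePoint ℚ → ℂ)
    (x y : OnePoint ℚ) : ℂ :=
  ∑ c ∈ range p, w (c : ZMod p) * Q (mob p c 0 p x) (mob p c 0 p y)

/-- the points of `Γ₁(L) ∞` different from `∞` -/
def SS (L : ℕ) (x : ℚ) : Prop :=
  ∃ a c : ℤ, IsCoprime a c ∧ (L : ℤ) ∣ c ∧ (L : ℤ) ∣ a - 1 ∧ c ≠ 0 ∧ x = (a : ℚ) / c

/-- SET (110 lines), the points `Γ₁(L) ∞`. Proof. (i) `a d - b c = 1`, `L ∣ c`, `L ∣ d - 1`: `a` and `c` are coprime,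
`a - 1 = b c - a (d - 1)`. (ii) `a`, `c` coprime: `a d - b c = 1` for some `b`, `d`; `d - 1 = b c - d (a - 1)` is
divisible by `L`. (iii) `x = a/c`: `(x + t)/p^j = (a + t c)/(p^j c)`; `a + t c` is prime to `c`, so to `p` (`p ∣ L ∣ c`), so to
`p^j c`; `L ∣ a + t c - 1`. (iv) `x + t/p = (a + t c1 p)/c`, `c = p² c1`, `L ∣ c1`: a prime divisor of `c` and
`a + t c1 p` divides `p c1` (as `c = p · p c1`), so `a`: impossible (or: `IsCoprime (a + t c1 p) (p c1)` and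
`c ∣ (p c1)²`); `L ∣ a + t c1 p - 1`. (v) clear. -/
def S_SET : Prop := ∀ (L : ℕ), L ≠ 0 →
  (∀ a b c d : ℤ, a * d - b * c = 1 → (L : ℤ) ∣ c → (L : ℤ) ∣ d - 1 → c ≠ 0 →
    SS L ((a : ℚ) / c)) ∧
  (∀ x : ℚ, SS L x → ∃ a b c d : ℤ, a * d - b * c = 1 ∧ (L : ℤ) ∣ c ∧ (L : ℤ) ∣ d - 1 ∧ c ≠ 0 ∧
    x = (a : ℚ) / c) ∧
  (∀ (p : ℕ), p.Prime → p ∣ L → ∀ (x : ℚ) (t : ℤ) (j : ℕ), SS L x → SS L ((x + t) / (p : ℚ) ^ j)) ∧
  (∀ (p : ℕ), p.Prime → ∀ (x : ℚ) (t : ℤ), SS (L * p ^ 2) x → SS L (x + (t : ℚ) / p)) ∧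
  (∀ (L' : ℕ) (x : ℚ), L ∣ L' → SS L' x → SS L x)

/-- SYM (130 lines), the twist is a symbol. Proof. `add` is clear. Let `a d - b c = 1`, `N p² ∣ c`. For `t ∈ ℤ`
let `t' = t d²` and `a1 = a + t c/p`, `d1 = d - c t'/p`, `b1 = b + (t d - t' a)/p - t t' c/p²` (integers: `p² ∣ c` and
`t d - t d² a = - t d b c`). Then `a1 d1 - b1 c = 1` and `mob p t 0 p (mob a b c d x) = mob a1 b1 c d1 (mob p t' 0 p x)` for
all `x` in `OnePoint ℚ` (check `∞` (`c = 0` or not) and the points with `c r + d = 0` separately). `N ∣ c` and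
`d1 ≡ d` modulo `N` (`N p ∣ c`), so the term `t` is `w(t) nu(d) Q(x + t'/p, y + t'/p)`. `d` is prime to `p`
(`p ∣ c`), `w(t) = w(t') w⁻¹(d)²`, the function `t' ↦ w(t') Q(mob p t' 0 p x)(mob p t' 0 p y)` has period `p`
(`mob p (t + p) 0 p x = mob 1 1 0 1 (mob p t 0 p x)`, `nu 1 = 1`), and `t ↦ t d²` permutes the classes. -/
def S_SYM : Prop := ∀ (p : ℕ) (_ : p.Prime) (N : ℕ) (_ : N ≠ 0) (nu : ℤ → ℂ) (_ : nu 1 = 1)
  (_ : ∀ d d' : ℤ, (N : ℤ) ∣ d - d' → nu d = nu d') (Q : OnePoint ℚ → OnePoint ℚ → ℂ)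
  (_ : IsSym N nu Q) (w : DirichletCharacter ℂ p),
  IsSym (N * p ^ 2) (fun d => nu d * (w⁻¹ (d : ZMod p)) ^ 2) (Bt p w Q)

/-- REL (120 lines). Proof. Let `F u = W (x + u/p)`, `u ∈ ℤ`: it has period `p`. The left side is
`∑_s w⁻¹(s) ∑_c w(c) F(s + c) = ∑_u (∑_s w⁻¹(s) w(u - s)) F(u)` (sums over `ZMod p`; `F` as a function on `ZMod p`).
For `u = 0`: `w⁻¹(s) w(-s) = w(-1) = -1` for `s ≠ 0`: the inner sum is `-(p - 1)`. For `u ≠ 0`: put `s = u s'`:
`w⁻¹(s) w(u - s) = w⁻¹(s') w(1 - s') = w(1/s' - 1)` for `s' ≠ 0`, and `1/s' - 1` runs through all classes except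
`-1`: the inner sum is `∑_t w(t) - w(-1) = 0 + 1` (`w` is nontrivial: `w(-1) = -1 ≠ 1`;
`MulChar.sum_eq_zero_of_ne_one`). -/
def S_REL : Prop := ∀ (p : ℕ) (_ : p.Prime) (w : DirichletCharacter ℂ p) (_ : w (-1) = -1)
  (W : ℚ → ℂ) (_ : ∀ x, W (x + 1) = W x) (x : ℚ),
  ∑ s ∈ range p, w⁻¹ (s : ZMod p) * ∑ c ∈ range p, w (c : ZMod p) * W (x + (s : ℚ) / p + (c : ℚ) / p) =
    ∑ u ∈ range p, W (x + (u : ℚ) / p) - p * W x

/-- H1G (90 lines), Theorem G for the part `s`, for every level. Proof. This is the proof of `tx_H1` in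
`Pool/Agent/MUX/HX_H1.lean` (copy it), with `N'` in place of `p^(s₀+1) N₀`: let `N'` be a nonzero multiple of
`p^(s₀+1) N₀`, suppose `v(sgnPart s (P 0) ∞ (g ∞)) < 1` for all `g` in `Γ₁(N')`; `q`, `c` from `prj`, `g` from `G` for
`N' q²`; `P 0 ∞ (g ∞) = ∑_t c_t sgnPart s (P 0) (T_t ∞) (T_t g ∞)`, `T_t = mob q t 0 q`, `T_t ∞ = ∞`,
`T_t g ∞ = g' ∞`, `g' = T_t g T_t⁻¹` in `Γ₁(N')`. -/
def S_H1G : Prop := ∀ (p : ℕ) (V : ValuationSubring ℂ) (N₀ s₀ h : ℕ) (a : ℂ) (nu : ℤ → ℂ)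
  (P : ℕ → OnePoint ℚ → OnePoint ℚ → ℂ) (s : ℤ) (_ : HypA p V N₀ s₀ h a nu P s)
  (N' : ℕ) (_ : N' ≠ 0) (_ : p ^ (s₀ + 1) * N₀ ∣ N'),
  ∃ α β γ δ : ℤ, α * δ - β * γ = 1 ∧ (N' : ℤ) ∣ γ ∧ (N' : ℤ) ∣ δ - 1 ∧
    1 ≤ V.valuation (sgnPart (s : ℂ) (P 0) ∞ (mob α β γ δ ∞))

/-- NUA (50 lines). Proof. `nu d ^ k = nu (d ^ k)` (`k ≥ 1`), and `nu` has only finitely many values (period `p N₀`),
so `nu d ^ k = nu d ^ k'` for some `1 ≤ k < k'`: `nu d` is `0` or a root of unity. -/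
def S_NUA : Prop := ∀ (p : ℕ) (V : ValuationSubring ℂ) (N₀ s₀ h : ℕ) (a : ℂ) (nu : ℤ → ℂ)
  (P : ℕ → OnePoint ℚ → OnePoint ℚ → ℂ) (s : ℤ) (_ : HypA p V N₀ s₀ h a nu P s) (d : ℤ),
  IsAlgebraic ℚ (nu d)

/-- UPR (110 lines), the relation for `U_p`. Let `W x = sgnPart (-1) (P 0) ∞ x`, `W1 x = sgnPart (-1) (P 1) ∞ x`.
Proof. By `Sx_HK` (iii) with `hec`, `nup`: `sgnPart (-1) (P (i+1)) ∞ r = ∑_(j<p) sgnPart (-1) (P i) ∞ ((r+j)/p)`. (1) is the
case `i = 0`. By induction on `k`: `sgnPart (-1) (P (k+1)) ∞ r = ∑_(j < p^k) W1 ((r + j)/p^k)` (`j = j0 + p^(k-1)..`: `r ↦ (r + j0)/p` in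
the sum for `k`: `((r + j0)/p + j1)/p^k = (r + j0 + p j1)/p^(k+1)`, `j0 + p j1` runs through `range (p^(k+1))`). Take `k = h - 1` and
`per`: (2). -/
def S_UPR : Prop := ∀ (p : ℕ) (V : ValuationSubring ℂ) (N₀ s₀ h : ℕ) (a : ℂ) (nu : ℤ → ℂ)
  (P : ℕ → OnePoint ℚ → OnePoint ℚ → ℂ) (_ : HypA p V N₀ s₀ h a nu P (-1)),
  (∀ x : ℚ, ∑ j ∈ range p, sgnPart (-1) (P 0) ∞ (((x + j) / p : ℚ) : OnePoint ℚ) =
    sgnPart (-1) (P 1) ∞ (x : OnePoint ℚ)) ∧
  (∀ x : ℚ, ∑ j ∈ range (p ^ (h - 1)),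
    sgnPart (-1) (P 1) ∞ (((x + j) / (p : ℚ) ^ (h - 1) : ℚ) : OnePoint ℚ) =
      a * sgnPart (-1) (P 0) ∞ (x : OnePoint ℚ))

def M_UPR : Prop := Sx_HK → S_UPR

/-- NB (200 lines), the twist is not zero on closed cycles. Proof. Let `W x = sgnPart (-1) (P 0) ∞ x` (period 1: `Sx_HK` (i)), `L = N'`,
and suppose `v(Bt ∞ (g ∞)) < 1` for all `g` in `Γ₁(L)`: so `v(∑_c w(c) W(y + c/p)) < 1` for `SS L y` (`SET` (ii);
`mob p c 0 p ∞ = ∞`, `mob p c 0 p y = y + c/p`). For `SS (L p²) y`: `SS L (y + s/p)` (`SET` (iv)), so by `REL` (and `v(w⁻¹ s) ≤ 1`, a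
root of unity or `0`) `v(∑_(u<p) W(y + u/p) - p W y) < 1`. For `SS (L p²) x`: `y = x/p` has `SS (L p²) y` (`SET` (iii)), so
with `W1 = sgnPart (-1) (P 1) ∞`: `v(W1 x - p W(x/p)) < 1` (`UPR` (1)). `UPR` (2): `a W x = ∑_(j < p^(h-1)) W1 ((x+j)/p^(h-1))`, all
points `x_j = (x+j)/p^(h-1)` have `SS (L p²) x_j`, so `v(a W x - p ∑_j W(x_j/p)) < 1`, with `SS (L p²) (x_j/p)`. By `Sx_BD` and `Sx_HK`
there is `k` with `v(p^k W x) ≤ 1` for all `x`. Claim: `v(p^e W x) < 1` for all `x` with `SS (L p²) x` and all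
`e ≥ 0`. For `e = k + 1` clear (`v p < 1`). If it holds for `e + 1` (for all such `x`) then
`v(p^e a W x) ≤ max(v(p^e) v(a W x - p ∑ ..), v(∑_j p^(e+1) W(x_j/p))) < 1`, and `v a = 1`. So `v(W x) < 1` for all `x` with
`SS (L p²) x`. Against `H1G` for `L p²` (`γ ≠ 0` there: otherwise the value is `sgnPart ∞ ∞ = 0`; `SET` (i)). -/
def S_NB : Prop := ∀ (p : ℕ) (V : ValuationSubring ℂ) (N₀ s₀ h : ℕ) (a : ℂ) (nu : ℤ → ℂ)
  (P : ℕ → OnePoint ℚ → OnePoint ℚ → ℂ) (_ : HypA p V N₀ s₀ h a nu P (-1))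
  (w : DirichletCharacter ℂ p) (_ : w (-1) = -1) (N' : ℕ) (_ : N' ≠ 0)
  (_ : p ^ (s₀ + 1) * N₀ ∣ N'),
  ∃ α β γ δ : ℤ, α * δ - β * γ = 1 ∧ (N' : ℤ) ∣ γ ∧ (N' : ℤ) ∣ δ - 1 ∧
    1 ≤ V.valuation (Bt p w (sgnPart (-1) (P 0)) ∞ (mob α β γ δ ∞))

def M_NB : Prop := Sx_HK → Sx_BD → S_SET → S_REL → S_H1G → S_UPR → S_NB

/-- TWB (200 lines). Proof. `TWR.S_TW2` for `N = p^(s₀+1) N₀ p²`, `nu' i d = nu i d * (w⁻¹ d)²`, `P' i = Bt p w (sgnPart (-1) (P i 0))`.
`v(nu' i d) ≤ 1`, `nu' i 1 = 1`, period `N` (`p N₀ ∣ N`, `p ∣ N`), algebraic (`NUA`; `w⁻¹ d` is `0` or a root of unity). `IsSym`: `SYM` with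
`Sx_HK` (ii). `P' i ∞ x = ∑_c w(c) W(x + c/p)`, `W x = P i 0 ∞ x - P i 0 ∞ (-x)`: algebraic (`HypA.alg`). Even:
`W(-x + c/p) = - W(x - c/p)`, `w(c) = - w(-c)`, and `c ↦ -c` permutes the classes (`W` has period 1: `Sx_HK` (i)). Depleted: `∑_k W(x + c/p + k/l) = 0`: the
hypothesis at `x + c/p`, and at `-x - c/p - (l-1)/l`.. (`-(x + k/l) = (-x - 1) + (l - k)/l`, period 1: the sum over `k` of
`P i 0 ∞ (-(x + k/l))` is the sum over `k` of `P i 0 ∞ (-x + k/l)`). Closed cycles: `NB`. Conclusion of `TW2` for `ψ`: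
`1 ≤ v(∑_b ψ(b) ∑_c w(c) W(b/l^n + c/p))`, and this sum is `S - S'`, `S = ∑_b ∑_c ψ(b) w(c) P i 0 ∞ (b/l^n + c/p)`,
`S' = ∑_b ∑_c ψ(b) w(c) P i 0 ∞ (-b/l^n - c/p)`. The substitution `b ↦ -b`, `c ↦ -c` (period 1, `ψ(-1) = 1`, `w(-1) = -1`) gives `S' = -S`. So
`1 ≤ v(2 S) ≤ v(S)`. (`2 < p`: `w(-1) = -1` excludes nothing needed; `v 2 ≤ 1` always.) -/
def S_TWB : Prop := ∀ (l g h' : ℕ) (_ : TWR.Gen l g h') (V : ValuationSubring ℂ) (p : ℕ)
  (_ : 5 ≤ p) (I : Type) [Finite I] (N₀ s₀ : ℕ) (h : I → ℕ) (a : I → ℂ) (nu : I → ℤ → ℂ)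
  (P : I → ℕ → OnePoint ℚ → OnePoint ℚ → ℂ)
  (_ : ∀ i, HypA p V N₀ s₀ (h i) (a i) (nu i) (P i) (-1))
  (_ : ∀ i (x : ℚ), ∑ k ∈ range l, P i 0 ∞ ((x + (k : ℚ) / l : ℚ) : OnePoint ℚ) = 0)
  (w : DirichletCharacter ℂ p) (_ : w (-1) = -1) (r : ℕ) (_ : 1 ≤ r) (n0 : ℕ),
  ∃ n ≥ n0, ∀ j < r, ∀ i, ∀ ψ : DirichletCharacter ℂ (l ^ (n + j)), ψ (-1) = 1 →
    ψ (1 + (l : ZMod (l ^ (n + j))) ^ (n + j - 1)) ≠ 1 →
    1 ≤ V.valuation (∑ b ∈ range (l ^ (n + j)), ∑ c ∈ range p, ψ b * w (c : ZMod p) *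
      P i 0 ∞ (((b : ℚ) / (l : ℚ) ^ (n + j) + (c : ℚ) / p : ℚ) : OnePoint ℚ))

def M_TWB : Prop := TWR.S_TW2 → Sx_HK → S_SYM → S_NUA → S_NB → S_TWB

end

end Pool.Agent.TWB


end

section

/-!
# TWB, module H1G: Theorem G for the part `s`, for every level
-/

set_option autoImplicit false

namespace Pool.Agent.TWB

open _root_.MU3 Pool.Agent.MuSym Pool.Agent.MUXH OnePoint Finset

noncomputable section

namespace H1GAux

/-- conjugation of a matrix by the translation by `a / D` -/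
theorem conj_mob (D a α γ' : ℤ) (hD : D ≠ 0) (β β' δ δ' : ℤ) :
    mob D a 0 D (mob α β (D ^ 2 * γ') δ ∞) = mob (α + a * D * γ') β' (D ^ 2 * γ') δ' ∞ := by
  have hD' : (D : ℚ) ≠ 0 := by exact_mod_cast hD
  by_cases hg : γ' = 0
  · subst hg
    simp [mob]
  · have hg' : (γ' : ℚ) ≠ 0 := by exact_mod_cast hg
    have h1 : D ^ 2 * γ' ≠ 0 := mul_ne_zero (pow_ne_zero _ hD) hg
    have e1 : mob α β (D ^ 2 * γ') δ ∞ = (((α : ℚ) / ((D ^ 2 * γ' : ℤ) : ℚ) : ℚ) : OnePoint ℚ) := by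
      show (if D ^ 2 * γ' = 0 then ∞ else (((α : ℚ) / ((D ^ 2 * γ' : ℤ) : ℚ) : ℚ) : OnePoint ℚ)) = _
      rw [if_neg h1]
    have e2 : mob (α + a * D * γ') β' (D ^ 2 * γ') δ' ∞ =
        ((((α + a * D * γ' : ℤ) : ℚ) / ((D ^ 2 * γ' : ℤ) : ℚ) : ℚ) : OnePoint ℚ) := by
      show (if D ^ 2 * γ' = 0 then ∞ else
        ((((α + a * D * γ' : ℤ) : ℚ) / ((D ^ 2 * γ' : ℤ) : ℚ) : ℚ) : OnePoint ℚ)) = _
      rw [if_neg h1]
    have e3 : ∀ r : ℚ, mob D a 0 D (r : OnePoint ℚ) =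
        ((((D : ℚ) * r + a) / (((0 : ℤ) : ℚ) * r + D) : ℚ) : OnePoint ℚ) := by
      intro r
      show (if ((0 : ℤ) : ℚ) * r + (D : ℚ) = 0 then ∞ else
        ((((D : ℚ) * r + a) / (((0 : ℤ) : ℚ) * r + D) : ℚ) : OnePoint ℚ)) = _
      rw [if_neg (by simpa using hD')]
    rw [e1, e2, e3]
    congr 1
    push_cast
    field_simp
    ring

theorem mob_inf (D a : ℤ) : mob D a 0 D ∞ = ∞ := by
  simp [mob]

end H1GAux

open _root_.Pool.Agent.TWB.H1GAux in
theorem t_H1G : S_H1G := by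
  intro p V N₀ s₀ h a nu P s hyp M hM0 hdvd
  by_contra hcon
  push Not at hcon
  obtain ⟨q, c, hq, hc, hprj⟩ := hyp.prj
  obtain ⟨D, hD⟩ : ∃ D : ℤ, D = (q : ℤ) := ⟨_, rfl⟩
  have hD0 : D ≠ 0 := by rw [hD]; exact_mod_cast hq
  obtain ⟨α, β, γ, δ, h1, h2, h3, h4⟩ := hyp.G (M * q ^ 2) (mul_ne_zero hM0 (pow_ne_zero _ hq))
    (dvd_mul_of_dvd_left hdvd _)
  have hcast : ((M * q ^ 2 : ℕ) : ℤ) = M * D ^ 2 := by
    push_cast
    rw [hD]
  rw [hcast] at h2 h3
  obtain ⟨u, hu⟩ := h2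
  obtain ⟨t, ht⟩ := h3
  have hterm : ∀ k ∈ Finset.range q, V.valuation (c k *
      sgnPart (s : ℂ) (P 0) (mob q k 0 q ∞) (mob q k 0 q (mob α β γ δ ∞))) < 1 := by
    intro k _
    have e1 : γ = D ^ 2 * (M * u) := by rw [hu]; ring
    have e2 : mob D k 0 D (mob α β γ δ ∞) =
        mob (α + k * D * (M * u)) (β + k * D * M * (t - (β * u - α * t)) - k ^ 2 * (M * u))
          (D ^ 2 * (M * u)) (δ - k * D * (M * u)) ∞ := by
      rw [e1]
      exact conj_mob D k α (M * u) hD0 _ _ _ _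
    have hδ2 : δ = 1 + M * D ^ 2 * t := by linarith
    have hα2 : α = 1 + M * D ^ 2 * (β * u - α * t) := by
      have h5 : α = 1 + β * γ - α * (δ - 1) := by linarith
      rw [ht, hu] at h5
      linarith
    rw [← hD, e2, mob_inf, map_mul]
    have h5 := hcon (α + k * D * (M * u))
      (β + k * D * M * (t - (β * u - α * t)) - k ^ 2 * (M * u))
      (D ^ 2 * (M * u)) (δ - k * D * (M * u)) ?_ ?_ ?_
    · exact mul_lt_one_of_nonneg_of_lt_one_right (hc k) zero_le h5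
    · have e3 : δ - α = M * D ^ 2 * (t - (β * u - α * t)) := by linarith
      have e4 : α * δ - β * (D ^ 2 * (M * u)) = 1 := by rw [← e1]; exact h1
      linear_combination e4 + (k * D * (M * u)) * e3
    · exact Dvd.intro_left (D ^ 2 * u) (by ring)
    · refine ⟨D ^ 2 * t - k * D * u, ?_⟩
      rw [hδ2]
      ring
  have hsum : V.valuation (P 0 ∞ (mob α β γ δ ∞)) < 1 := by
    rw [← hprj ∞ (mob α β γ δ ∞)]
    exact V.valuation.map_sum_lt one_ne_zero hterm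
  exact absurd h4 (not_le.2 hsum)

end

end Pool.Agent.TWB


end

section

/-!
# TWB, module NB: the twist is not zero on closed cycles
-/

set_option autoImplicit false

namespace Pool.Agent.TWB

open _root_.MU3 Pool.Agent.MuSym Pool.Agent.MUXH OnePoint Finset

noncomputable section

namespace NBAux

lemma val_char_le {p : ℕ} [NeZero p] (V : ValuationSubring ℂ) (χ : DirichletCharacter ℂ p)
    (x : ZMod p) : V.valuation (χ x) ≤ 1 := by
  by_cases hx : IsUnit x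
  · have h1 : (χ x) ^ Fintype.card (ZMod p)ˣ = 1 := by
      obtain ⟨u, rfl⟩ := hx
      rw [← map_pow, ← Units.val_pow_eq_pow_val, pow_card_eq_one, Units.val_one, map_one]
    have h2 : V.valuation (χ x) ^ Fintype.card (ZMod p)ˣ = 1 := by
      rw [← map_pow, h1, map_one]
    by_contra h
    push Not at h
    have h3 := one_lt_pow₀ h (n := Fintype.card (ZMod p)ˣ) Fintype.card_ne_zero
    rw [h2] at h3
    exact lt_irrefl _ h3
  · rw [MulChar.map_nonunit χ hx, map_zero]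
    exact zero_le_one

lemma mob_inf (a b c d : ℤ) (hc : c ≠ 0) :
    mob a b c d ∞ = (((a : ℚ) / c : ℚ) : OnePoint ℚ) := by
  show (if c = 0 then ∞ else (((a : ℚ) / c : ℚ) : OnePoint ℚ)) = _
  rw [if_neg hc]

lemma mob_inf0 (a b d : ℤ) : mob a b 0 d ∞ = ∞ := by
  show (if (0 : ℤ) = 0 then ∞ else (((a : ℚ) / (0 : ℤ) : ℚ) : OnePoint ℚ)) = _
  rw [if_pos rfl]

lemma mob_tr (p c : ℕ) (hp : p ≠ 0) (y : ℚ) :
    mob p c 0 p (y : OnePoint ℚ) = ((y + (c : ℚ) / p : ℚ) : OnePoint ℚ) := by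
  have hp' : (p : ℚ) ≠ 0 := Nat.cast_ne_zero.2 hp
  show (if ((0 : ℤ) : ℚ) * y + ((p : ℤ) : ℚ) = 0 then ∞ else
    (((((p : ℤ) : ℚ) * y + ((c : ℤ) : ℚ)) / (((0 : ℤ) : ℚ) * y + ((p : ℤ) : ℚ)) : ℚ) :
      OnePoint ℚ)) = _
  have e : ((0 : ℤ) : ℚ) * y + ((p : ℤ) : ℚ) = p := by push_cast; ring
  rw [e, if_neg hp']
  congr 1
  push_cast
  field_simp

lemma self_zero {N : ℕ} {nu : ℤ → ℂ} {P : OnePoint ℚ → OnePoint ℚ → ℂ} (h : IsSym N nu P)
    (x : OnePoint ℚ) : P x x = 0 := by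
  have := h.add x x x
  exact left_eq_add.1 this.symm

end NBAux

open _root_.Pool.Agent.TWB.NBAux

theorem t_NB : M_NB := by
  intro HK BD SET REL H1G UPR p V N₀ s₀ h a nu P H w hw N' hN' hdvd
  by_contra hcon
  push Not at hcon
  have hp := H.pp
  have hp0 : p ≠ 0 := hp.ne_zero
  have hpQ : (p : ℚ) ≠ 0 := Nat.cast_ne_zero.2 hp0
  have : NeZero p := ⟨hp0⟩
  obtain ⟨W, hW⟩ : ∃ W : ℚ → ℂ, ∀ x, W x = sgnPart (-1) (P 0) ∞ (x : OnePoint ℚ) :=
    ⟨_, fun _ => rfl⟩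
  obtain ⟨W1, hW1⟩ : ∃ W1 : ℚ → ℂ, ∀ x, W1 x = sgnPart (-1) (P 1) ∞ (x : OnePoint ℚ) :=
    ⟨_, fun _ => rfl⟩
  have hper : ∀ x, W (x + 1) = W x := by
    intro x
    have h1 := (HK p hp.one_lt.le _ nu (P 0) (P 1) (H.sym 0) H.nu1 (-1)).1 x 1
    rw [hW, hW, ← h1]
    norm_num
  obtain ⟨hS1, hS2, -, hS4, -⟩ := SET N' hN'
  have hL2 : N' * p ^ 2 ≠ 0 := mul_ne_zero hN' (pow_ne_zero _ hp0)
  obtain ⟨hT1, -, hT3, -, -⟩ := SET (N' * p ^ 2) hL2
  have hpL : p ∣ N' * p ^ 2 := (dvd_pow_self p two_ne_zero).mul_left _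
  -- the hypothesis on the twist
  have F2 : ∀ y, SS N' y →
      V.valuation (∑ c ∈ range p, w (c : ZMod p) * W (y + (c : ℚ) / p)) < 1 := by
    intro y hy
    obtain ⟨α, β, γ, δ, h1, h2, h3, h4, rfl⟩ := hS2 y hy
    have h5 := hcon α β γ δ h1 h2 h3
    rw [mob_inf α β γ δ h4] at h5
    have e : Bt p w (sgnPart (-1) (P 0)) ∞ (((α : ℚ) / γ : ℚ) : OnePoint ℚ) =
        ∑ c ∈ range p, w (c : ZMod p) * W ((α : ℚ) / γ + (c : ℚ) / p) := by
      unfold Bt
      refine Finset.sum_congr rfl fun c _ => ?_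
      rw [mob_tr p c hp0, mob_inf0, hW]
    rw [e] at h5
    exact h5
  have F3 : ∀ y, SS (N' * p ^ 2) y →
      V.valuation (∑ u ∈ range p, W (y + (u : ℚ) / p) - p * W y) < 1 := by
    intro y hy
    rw [← REL p hp w hw W hper y]
    refine Valuation.map_sum_lt _ one_ne_zero fun s _ => ?_
    rw [map_mul]
    have h1 := hS4 p hp y s hy
    have h2 := F2 _ h1
    have h3 := val_char_le V w⁻¹ (s : ZMod p)
    exact mul_lt_one_of_nonneg_of_lt_one_right h3 zero_le' (by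
      simpa using h2)
  have F4 : ∀ x, SS (N' * p ^ 2) x → V.valuation (W1 x - p * W (x / p)) < 1 := by
    intro x hx
    have h1 : SS (N' * p ^ 2) (x / p) := by
      have := hT3 p hp hpL x 0 1 hx
      simpa using this
    have h2 := F3 _ h1
    have h3 : ∑ u ∈ range p, W (x / p + (u : ℚ) / p) = W1 x := by
      rw [hW1, ← (UPR p V N₀ s₀ h a nu P H).1 x]
      refine Finset.sum_congr rfl fun u _ => ?_
      rw [hW, ← add_div]
    rw [h3] at h2
    exact h2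
  have F5 : ∀ x, SS (N' * p ^ 2) x →
      V.valuation (a * W x - p * ∑ j ∈ range (p ^ (h - 1)),
        W (((x + j) / (p : ℚ) ^ (h - 1)) / p)) < 1 := by
    intro x hx
    have h1 : a * W x - p * ∑ j ∈ range (p ^ (h - 1)), W (((x + j) / (p : ℚ) ^ (h - 1)) / p) =
        ∑ j ∈ range (p ^ (h - 1)), (W1 ((x + j) / (p : ℚ) ^ (h - 1)) -
          p * W (((x + j) / (p : ℚ) ^ (h - 1)) / p)) := by
      rw [Finset.sum_sub_distrib, ← Finset.mul_sum, hW x, ← (UPR p V N₀ s₀ h a nu P H).2 x]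
      congr 1
      exact Finset.sum_congr rfl fun j _ => (hW1 _).symm
    rw [h1]
    refine Valuation.map_sum_lt _ one_ne_zero fun j _ => ?_
    apply F4
    have := hT3 p hp hpL x j (h - 1) hx
    simpa using this
  obtain ⟨k, hk⟩ := BD p V N₀ s₀ h a nu P (-1) H
  have F6 : ∀ x, V.valuation (p ^ k * W x) ≤ 1 := by
    intro x
    rw [hW]
    unfold sgnPart
    have e : (p : ℂ) ^ k * (P 0 ∞ (x : OnePoint ℚ) +
        -1 * P 0 (mob (-1) 0 0 1 ∞) (mob (-1) 0 0 1 (x : OnePoint ℚ))) =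
        (p : ℂ) ^ k * P 0 ∞ (x : OnePoint ℚ) -
        (p : ℂ) ^ k * P 0 (mob (-1) 0 0 1 ∞) (mob (-1) 0 0 1 (x : OnePoint ℚ)) := by ring
    rw [e]
    exact (Valuation.map_sub _ _ _).trans (max_le (hk _ _ _) (hk _ _ _))
  have hvp1 : ∀ e : ℕ, V.valuation ((p : ℂ) ^ e) ≤ 1 := by
    intro e
    rw [map_pow]
    exact pow_le_one' H.vp.le e
  have F7 : ∀ i : ℕ, i ≤ k + 1 → ∀ x, SS (N' * p ^ 2) x →
      V.valuation ((p : ℂ) ^ (k + 1 - i) * W x) < 1 := by
    intro i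
    induction i with
    | zero =>
      intro _ x _
      rw [Nat.sub_zero, pow_succ', mul_assoc, map_mul]
      exact mul_lt_one_of_nonneg_of_lt_one_left zero_le' H.vp (F6 x)
    | succ i ih =>
      intro hi x hx
      obtain ⟨e, he⟩ : ∃ e, e = k + 1 - (i + 1) := ⟨_, rfl⟩
      have he1 : k + 1 - i = e + 1 := by omega
      rw [← he]
      have h1 := ih (by omega)
      rw [he1] at h1
      have h2 : (p : ℂ) ^ e * (a * W x) =
          (p : ℂ) ^ e * (a * W x - p * ∑ j ∈ range (p ^ (h - 1)),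
            W (((x + j) / (p : ℚ) ^ (h - 1)) / p)) +
          ∑ j ∈ range (p ^ (h - 1)), (p : ℂ) ^ (e + 1) *
            W (((x + j) / (p : ℚ) ^ (h - 1)) / p) := by
        rw [← Finset.mul_sum]
        ring
      have h3 : V.valuation ((p : ℂ) ^ e * (a * W x)) < 1 := by
        rw [h2]
        refine Valuation.map_add_lt _ ?_ ?_
        · rw [map_mul]
          exact mul_lt_one_of_nonneg_of_lt_one_right (hvp1 e) zero_le' (F5 x hx)
        · refine Valuation.map_sum_lt _ one_ne_zero fun j _ => ?_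
          apply h1
          have h4 := hT3 p hp hpL x j (h - 1) hx
          have h5 := hT3 p hp hpL _ 0 1 h4
          simpa using h5
      rw [map_mul, map_mul, H.va, one_mul, ← map_mul] at h3
      exact h3
  have F8 : ∀ x, SS (N' * p ^ 2) x → V.valuation (W x) < 1 := by
    intro x hx
    have := F7 (k + 1) le_rfl x hx
    simpa using this
  obtain ⟨α, β, γ, δ, h1, h2, h3, h4⟩ := H1G p V N₀ s₀ h a nu P (-1) H (N' * p ^ 2) hL2
    (hdvd.mul_right _)
  have e1 : (((-1 : ℤ)) : ℂ) = -1 := by norm_num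
  rw [e1] at h4
  by_cases hγ : γ = 0
  · rw [hγ, mob_inf0] at h4
    have h5 : sgnPart (-1) (P 0) ∞ ∞ = 0 := by
      unfold sgnPart
      rw [self_zero (H.sym 0), self_zero (H.sym 0), mul_zero, add_zero]
    rw [h5, map_zero] at h4
    exact absurd h4 (not_le.2 zero_lt_one)
  · rw [mob_inf α β γ δ hγ, ← hW] at h4
    exact absurd h4 (not_le.2 (F8 _ (hT1 α β γ δ h1 h2 h3 hγ)))

end

end Pool.Agent.TWB


end

section

set_option autoImplicit false

open _root_.MU3 Pool.Agent.MuSym Pool.Agent.MUXH OnePoint Finset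

namespace Pool.Agent.TWB

namespace NUAAux

/-- two equal powers with different exponents make a number algebraic -/
theorem alg_of_pow {z : ℂ} {k k' : ℕ} (h : k < k') (e : z ^ k = z ^ k') : IsAlgebraic ℚ z := by
  refine ⟨Polynomial.X ^ k' - Polynomial.X ^ k, ?_, ?_⟩
  · intro h0
    have h1 : (Polynomial.X ^ k' : Polynomial ℚ) = Polynomial.X ^ k := sub_eq_zero.1 h0
    have h2 := congrArg Polynomial.natDegree h1
    rw [Polynomial.natDegree_X_pow, Polynomial.natDegree_X_pow] at h2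
    omega
  · simp [e]

end NUAAux

theorem t_NUA : S_NUA := by
  intro p V N₀ s₀ h a nu P s H d
  have hM : 0 < p * N₀ := Nat.mul_pos H.pp.pos (Nat.pos_of_ne_zero H.N0)
  have hpow : ∀ k : ℕ, nu (d ^ k) = nu d ^ k := by
    intro k
    induction k with
    | zero => rw [pow_zero, pow_zero, H.nu1]
    | succ k ih => rw [pow_succ, pow_succ, H.num, ih]
  have hfin : (Set.range fun k : ℕ => nu d ^ k).Finite := by
    refine Set.Finite.subset (Set.Finite.image (fun j : ℕ => nu (j : ℤ))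
      (Set.finite_lt_nat (p * N₀))) ?_
    rintro _ ⟨k, rfl⟩
    have hM' : ((p * N₀ : ℕ) : ℤ) ≠ 0 := by exact_mod_cast hM.ne'
    refine ⟨((d ^ k) % ((p * N₀ : ℕ) : ℤ)).toNat, ?_, ?_⟩
    · have h1 : 0 ≤ (d ^ k) % ((p * N₀ : ℕ) : ℤ) := Int.emod_nonneg _ hM'
      have h2 : (d ^ k) % ((p * N₀ : ℕ) : ℤ) < ((p * N₀ : ℕ) : ℤ) :=
        Int.emod_lt_of_pos _ (by exact_mod_cast hM)
      change ((d ^ k) % ((p * N₀ : ℕ) : ℤ)).toNat < p * N₀
      omega
    · simp only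
      rw [← hpow k, Int.toNat_of_nonneg (Int.emod_nonneg _ hM')]
      exact (H.nuper _ _ (Int.dvd_self_sub_emod)).symm
  have hninj : ¬ Function.Injective fun k : ℕ => nu d ^ k := by
    intro hinj
    exact Set.infinite_range_of_injective hinj hfin
  rw [Function.Injective] at hninj
  push Not at hninj
  obtain ⟨k, k', he, hne⟩ := hninj
  rcases lt_or_gt_of_ne hne with hlt | hlt
  · exact NUAAux.alg_of_pow hlt he
  · exact NUAAux.alg_of_pow hlt he.symm

end Pool.Agent.TWB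


end

section

/-!
# TWB, module REL: the relation for the double twist
-/

set_option autoImplicit false

open Finset

noncomputable section

namespace Pool.Agent.TWB

namespace RELAux

theorem sum_range_zmod (p : ℕ) [NeZero p] (f : ZMod p → ℂ) :
    ∑ s ∈ range p, f (s : ZMod p) = ∑ s : ZMod p, f s := by
  refine Finset.sum_nbij' (fun s => (s : ZMod p)) (fun s => s.val) ?_ ?_ ?_ ?_ ?_
  · intro a _
    exact mem_univ _
  · intro a _
    exact mem_range.2 (ZMod.val_lt a)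
  · intro a ha
    exact ZMod.val_cast_of_lt (mem_range.1 ha)
  · intro a _
    exact ZMod.natCast_zmod_val a
  · intro a _
    rfl

theorem per_nat (W : ℚ → ℂ) (h : ∀ x, W (x + 1) = W x) (x : ℚ) (k : ℕ) : W (x + k) = W x := by
  induction k with
  | zero => simp
  | succ k ih =>
    rw [Nat.cast_succ, ← add_assoc, h, ih]

theorem per_cast (p : ℕ) [NeZero p] (W : ℚ → ℂ) (h : ∀ x, W (x + 1) = W x) (x : ℚ) (n : ℕ) :
    W (x + (n : ℚ) / p) = W (x + (((n : ZMod p).val : ℕ) : ℚ) / p) := by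
  have hp : (p : ℚ) ≠ 0 := Nat.cast_ne_zero.2 (NeZero.ne p)
  rw [ZMod.val_natCast]
  have h1 : (n : ℚ) = ((n % p : ℕ) : ℚ) + p * ((n / p : ℕ) : ℚ) := by
    exact_mod_cast (Nat.mod_add_div n p).symm
  have h2 : x + (n : ℚ) / p = x + ((n % p : ℕ) : ℚ) / p + ((n / p : ℕ) : ℚ) := by
    rw [h1]
    field_simp
    ring
  rw [h2, per_nat W h]

theorem J0 (p : ℕ) [Fact p.Prime] (w : DirichletCharacter ℂ p) (hw : w (-1) = -1) :
    ∑ s : ZMod p, w⁻¹ s * w (0 - s) = 1 - (p : ℂ) := by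
  have h1 : ∀ s : ZMod p, w⁻¹ s * w (0 - s) = (if s = 0 then 1 else 0) - 1 := by
    intro s
    by_cases hs : s = 0
    · subst hs
      have h0 : w⁻¹ (0 : ZMod p) = 0 := MulChar.map_zero _
      rw [h0, zero_mul]
      simp
    · have h2 : (0 - s) = (-1) * s := by ring
      rw [h2, map_mul, hw, if_neg hs, MulChar.inv_apply' w s]
      have h3 : w s⁻¹ * w s = 1 := by
        rw [← map_mul, inv_mul_cancel₀ hs, map_one]
      linear_combination (-1 : ℂ) * h3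
  rw [Finset.sum_congr rfl (fun s _ => h1 s), Finset.sum_sub_distrib, Finset.sum_ite_eq']
  simp [ZMod.card]

theorem J1 (p : ℕ) [Fact p.Prime] (w : DirichletCharacter ℂ p) (hw : w (-1) = -1) :
    ∑ s : ZMod p, w⁻¹ s * w (1 - s) = 1 := by
  have hne : w⁻¹ ≠ 1 := by
    intro h
    have h1 : w = 1 := inv_eq_one.1 h
    rw [h1] at hw
    have h2 : (1 : DirichletCharacter ℂ p) (-1 : ZMod p) = 1 :=
      MulChar.one_apply (isUnit_one.neg)
    rw [h2] at hw
    have h3 : (1 : ℂ) ≠ -1 := by norm_num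
    exact h3 hw
  have h := jacobiSum_nontrivial_inv hne
  rw [inv_inv] at h
  have h4 : w⁻¹ (-1 : ZMod p) = -1 := by
    rw [MulChar.inv_apply' w (-1), inv_neg_one, hw]
  rw [h4, neg_neg] at h
  exact h

theorem Ju (p : ℕ) [Fact p.Prime] (w : DirichletCharacter ℂ p) (hw : w (-1) = -1) (u : ZMod p)
    (hu : u ≠ 0) : ∑ s : ZMod p, w⁻¹ s * w (u - s) = 1 := by
  rw [← J1 p w hw]
  symm
  refine Fintype.sum_equiv (Equiv.mulLeft₀ u hu) _ _ fun s => ?_
  have h2 : u - u * s = u * (1 - s) := by ring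
  show w⁻¹ s * w (1 - s) = w⁻¹ (u * s) * w (u - u * s)
  rw [h2, map_mul, map_mul, MulChar.inv_apply' w u]
  have h3 : w u⁻¹ * w u = 1 := by
    rw [← map_mul, inv_mul_cancel₀ hu, map_one]
  linear_combination (-(w⁻¹ s * w (1 - s))) * h3

end RELAux

open _root_.Pool.Agent.TWB.RELAux in
theorem t_REL : S_REL := by
  intro p hp w hw W hW x
  haveI : Fact p.Prime := ⟨hp⟩
  haveI : NeZero p := ⟨hp.ne_zero⟩
  set F : ZMod p → ℂ := fun u => W (x + ((u.val : ℕ) : ℚ) / p) with hF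
  have hterm : ∀ s c : ℕ, W (x + (s : ℚ) / p + (c : ℚ) / p) = F ((s : ZMod p) + (c : ZMod p)) := by
    intro s c
    have h1 : x + (s : ℚ) / p + (c : ℚ) / p = x + ((s + c : ℕ) : ℚ) / p := by
      rw [Nat.cast_add, add_div, add_assoc]
    rw [h1, per_cast p W hW x (s + c), hF]
    simp only [Nat.cast_add]
  have hL : ∑ s ∈ range p, w⁻¹ (s : ZMod p) *
      ∑ c ∈ range p, w (c : ZMod p) * W (x + (s : ℚ) / p + (c : ℚ) / p) =
      ∑ s : ZMod p, ∑ c : ZMod p, w⁻¹ s * (w c * F (s + c)) := by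
    have h1 : ∀ s : ℕ, w⁻¹ (s : ZMod p) *
        ∑ c ∈ range p, w (c : ZMod p) * W (x + (s : ℚ) / p + (c : ℚ) / p) =
        ∑ c : ZMod p, w⁻¹ (s : ZMod p) * (w c * F ((s : ZMod p) + c)) := by
      intro s
      rw [← Finset.mul_sum, ← sum_range_zmod p (fun c => w c * F ((s : ZMod p) + c))]
      congr 1
      exact Finset.sum_congr rfl fun c _ => by rw [hterm s c]
    rw [Finset.sum_congr rfl fun s _ => h1 s,
      sum_range_zmod p (fun s => ∑ c : ZMod p, w⁻¹ s * (w c * F (s + c)))]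
  have hR : ∑ u ∈ range p, W (x + (u : ℚ) / p) = ∑ u : ZMod p, F u := by
    rw [← sum_range_zmod p F]
    exact Finset.sum_congr rfl fun u _ => per_cast p W hW x u
  have hx : W x = F 0 := by
    rw [hF]
    simp
  have hre : ∀ s : ZMod p, ∑ c : ZMod p, w⁻¹ s * (w c * F (s + c)) =
      ∑ u : ZMod p, w⁻¹ s * w (u - s) * F u := by
    intro s
    refine Fintype.sum_equiv (Equiv.addLeft s) _ _ fun c => ?_
    simp only [Equiv.coe_addLeft]
    rw [add_sub_cancel_left, mul_assoc]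
  have hJ : ∀ u : ZMod p, ∑ s : ZMod p, w⁻¹ s * w (u - s) = 1 - if u = 0 then (p : ℂ) else 0 := by
    intro u
    by_cases hu : u = 0
    · subst hu
      rw [J0 p w hw, if_pos rfl]
    · rw [Ju p w hw u hu, if_neg hu, sub_zero]
  rw [hL, hR, hx, Finset.sum_congr rfl fun s _ => hre s, Finset.sum_comm]
  have h5 : ∀ u : ZMod p, ∑ s : ZMod p, w⁻¹ s * w (u - s) * F u =
      F u - if u = 0 then (p : ℂ) * F u else 0 := by
    intro u
    rw [← Finset.sum_mul, hJ u]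
    by_cases hu : u = 0
    · rw [if_pos hu, if_pos hu]
      ring
    · rw [if_neg hu, if_neg hu]
      ring
  rw [Finset.sum_congr rfl fun u _ => h5 u, Finset.sum_sub_distrib, Finset.sum_ite_eq']
  simp

end Pool.Agent.TWB

end

end

section

/-!
# TWB, module SET: the points of `Γ₁(L) ∞`
-/

set_option autoImplicit false

namespace Pool.Agent.TWB

open _root_.MU3 Pool.Agent.MuSym Pool.Agent.MUXH OnePoint Finset

namespace SETAux

/-- (i) -/
theorem of_mat (L : ℕ) (a b c d : ℤ) (h : a * d - b * c = 1) (hc : (L : ℤ) ∣ c)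
    (hd : (L : ℤ) ∣ d - 1) (hc0 : c ≠ 0) : SS L ((a : ℚ) / c) := by
  refine ⟨a, c, ⟨d, -b, by linarith⟩, hc, ?_, hc0, rfl⟩
  have h1 : a - 1 = b * c - a * (d - 1) := by linarith
  rw [h1]
  exact dvd_sub (Dvd.dvd.mul_left hc b) (Dvd.dvd.mul_left hd a)

/-- (ii) -/
theorem to_mat (L : ℕ) (x : ℚ) (hx : SS L x) : ∃ a b c d : ℤ, a * d - b * c = 1 ∧
    (L : ℤ) ∣ c ∧ (L : ℤ) ∣ d - 1 ∧ c ≠ 0 ∧ x = (a : ℚ) / c := by
  obtain ⟨a, c, ⟨u, v, huv⟩, hc, ha, hc0, hx⟩ := hx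
  refine ⟨a, -v, c, u, by linarith, hc, ?_, hc0, hx⟩
  have h1 : u - 1 = (-v) * c - u * (a - 1) := by linarith
  rw [h1]
  exact dvd_sub (Dvd.dvd.mul_left hc (-v)) (Dvd.dvd.mul_left ha u)

/-- A shift by a multiple of the modulus. -/
theorem coprime_add (a m t : ℤ) (h : IsCoprime a m) : IsCoprime (a + t * m) m := by
  obtain ⟨u, v, huv⟩ := h
  exact ⟨u, v - u * t, by linear_combination huv⟩

/-- (iii) -/
theorem scale (L p : ℕ) (hp : p.Prime) (hpL : p ∣ L) (x : ℚ) (t : ℤ) (j : ℕ) (hx : SS L x) :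
    SS L ((x + t) / (p : ℚ) ^ j) := by
  obtain ⟨a, c, hac, hc, ha, hc0, rfl⟩ := hx
  have h1 : IsCoprime (a + t * c) c := coprime_add a c t hac
  have hpc : (p : ℤ) ∣ c := dvd_trans (Int.natCast_dvd_natCast.2 hpL) hc
  have h2 : IsCoprime (a + t * c) (p : ℤ) := IsCoprime.of_isCoprime_of_dvd_right h1 hpc
  have hp0 : (p : ℤ) ≠ 0 := by exact_mod_cast hp.ne_zero
  refine ⟨a + t * c, (p : ℤ) ^ j * c, (h2.pow_right).mul_right h1, Dvd.dvd.mul_left hc _, ?_,
    mul_ne_zero (pow_ne_zero _ hp0) hc0, ?_⟩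
  · have h3 : a + t * c - 1 = (a - 1) + t * c := by ring
    rw [h3]
    exact dvd_add ha (Dvd.dvd.mul_left hc t)
  · have hcq : (c : ℚ) ≠ 0 := by exact_mod_cast hc0
    have hpq : (p : ℚ) ≠ 0 := by exact_mod_cast hp.ne_zero
    push_cast
    field_simp

/-- (iv) -/
theorem shift (L p : ℕ) (hp : p.Prime) (x : ℚ) (t : ℤ) (hx : SS (L * p ^ 2) x) :
    SS L (x + (t : ℚ) / p) := by
  obtain ⟨a, c, hac, ⟨e, he⟩, ha, hc0, rfl⟩ := hx
  have hLd : (L : ℤ) ∣ ((L * p ^ 2 : ℕ) : ℤ) := by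
    push_cast
    exact Dvd.intro _ rfl
  have hc : c = (p : ℤ) * ((p : ℤ) * ((L : ℤ) * e)) := by
    rw [he]
    push_cast
    ring
  have hpc1 : (p : ℤ) * ((L : ℤ) * e) ∣ c := ⟨(p : ℤ), by rw [hc]; ring⟩
  have h1 : IsCoprime (a + t * ((p : ℤ) * ((L : ℤ) * e))) ((p : ℤ) * ((L : ℤ) * e)) :=
    coprime_add a _ t (IsCoprime.of_isCoprime_of_dvd_right hac hpc1)
  have h2 : IsCoprime (a + t * ((p : ℤ) * ((L : ℤ) * e))) (p : ℤ) :=
    IsCoprime.of_isCoprime_of_dvd_right h1 (Dvd.intro _ rfl)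
  have hcop : IsCoprime (a + t * ((p : ℤ) * ((L : ℤ) * e))) c := by
    have h3 := h2.mul_right h1
    rwa [← hc] at h3
  refine ⟨a + t * ((p : ℤ) * ((L : ℤ) * e)), c, hcop, dvd_trans hLd ⟨e, he⟩, ?_, hc0, ?_⟩
  · have h3 : a + t * ((p : ℤ) * ((L : ℤ) * e)) - 1 = (a - 1) + (L : ℤ) * (t * (p * e)) := by
      ring
    rw [h3]
    exact dvd_add (dvd_trans hLd ha) (Dvd.intro _ rfl)
  · have hcq : (c : ℚ) ≠ 0 := by exact_mod_cast hc0
    have hpq : (p : ℚ) ≠ 0 := by exact_mod_cast hp.ne_zero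
    have h4 : (c : ℚ) = (p : ℚ) * ((p : ℚ) * ((L : ℚ) * e)) := by
      rw [hc]
      push_cast
      ring
    push_cast
    rw [div_add_div _ _ hcq hpq, div_eq_div_iff (mul_ne_zero hcq hpq) hcq]
    rw [h4]
    ring

end SETAux

theorem t_SET : S_SET := by
  intro L _
  refine ⟨fun a b c d h hc hd hc0 => SETAux.of_mat L a b c d h hc hd hc0,
    fun x hx => SETAux.to_mat L x hx,
    fun p hp hpL x t j hx => SETAux.scale L p hp hpL x t j hx,
    fun p hp x t hx => SETAux.shift L p hp x t hx, ?_⟩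
  rintro L' x hL ⟨a, c, hac, hc, ha, hc0, hx⟩
  have hL' : (L : ℤ) ∣ (L' : ℤ) := Int.natCast_dvd_natCast.2 hL
  exact ⟨a, c, hac, dvd_trans hL' hc, dvd_trans hL' ha, hc0, hx⟩

end Pool.Agent.TWB


end

section

/-! SYM: the twist of a symbol is a symbol. -/

namespace Pool.Agent.TWB

open _root_.MU3 Pool.Agent.MuSym OnePoint Finset

namespace SYMAux

theorem mob_infty (a b c d : ℤ) :
    mob a b c d ∞ = if c = 0 then ∞ else ((a / c : ℚ) : OnePoint ℚ) := rfl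

theorem mob_coe (a b c d : ℤ) (r : ℚ) :
    mob a b c d (r : OnePoint ℚ) = if (c : ℚ) * r + d = 0 then ∞ else
      (((a * r + b) / (c * r + d) : ℚ) : OnePoint ℚ) := rfl

theorem mob_mob (A B C D a b c d : ℤ) (h1 : A * D - B * C ≠ 0) (h2 : a * d - b * c ≠ 0)
    (x : OnePoint ℚ) : mob A B C D (mob a b c d x) =
      mob (A * a + B * c) (A * b + B * d) (C * a + D * c) (C * b + D * d) x := by
  have H1 : (A : ℚ) * D - B * C ≠ 0 := by exact_mod_cast h1
  have H2 : (a : ℚ) * d - b * c ≠ 0 := by exact_mod_cast h2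
  -- a general point `(u : v)`
  have key : ∀ u v : ℚ, (u ≠ 0 ∨ v ≠ 0) →
      (if v = 0 then mob A B C D ∞ else mob A B C D ((u / v : ℚ) : OnePoint ℚ)) =
        if (C : ℚ) * u + D * v = 0 then ∞ else
          (((A * u + B * v) / (C * u + D * v) : ℚ) : OnePoint ℚ) := by
    intro u v huv
    by_cases hv : v = 0
    · subst hv
      have hu : u ≠ 0 := by simpa using huv
      rw [if_pos rfl, mob_infty]
      by_cases hC : C = 0
      · subst hC; simp
      · have hC' : (C : ℚ) ≠ 0 := by exact_mod_cast hC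
        rw [if_neg hC, if_neg (by simpa using ⟨hC, hu⟩)]
        congr 1
        simp only [mul_zero, add_zero]
        field_simp
    · rw [if_neg hv, mob_coe]
      have e1 : (C : ℚ) * (u / v) + D = (C * u + D * v) / v := by field_simp
      rw [e1]
      by_cases h0 : (C : ℚ) * u + D * v = 0
      · rw [h0, if_pos (by simp), if_pos rfl]
      · rw [if_neg (by rw [div_eq_zero_iff]; tauto), if_neg h0]
        congr 1
        field_simp
  induction x using OnePoint.rec with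
  | infty =>
    have h := key a c (by
      by_contra hcon
      push Not at hcon
      rw [hcon.1, hcon.2] at H2
      simp at H2)
    rw [mob_infty, mob_infty]
    by_cases hc : c = 0
    · subst hc
      rw [if_pos rfl]
      rw [if_pos (by simp)] at h
      rw [h]
      push_cast
      by_cases h5 : C * a + D * 0 = 0
      · rw [if_pos h5, if_pos (by exact_mod_cast h5)]
      · rw [if_neg h5, if_neg (by exact_mod_cast h5)]
    · rw [if_neg hc]
      rw [if_neg (by exact_mod_cast hc)] at h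
      rw [h]
      push_cast
      by_cases h5 : C * a + D * c = 0
      · rw [if_pos h5, if_pos (by exact_mod_cast h5)]
      · rw [if_neg h5, if_neg (by exact_mod_cast h5)]
  | coe r =>
    have h := key (a * r + b) (c * r + d) (by
      by_contra hcon
      push Not at hcon
      apply H2
      have e1 : (a : ℚ) * d - b * c = a * (c * r + d) - c * (a * r + b) := by ring
      rw [e1, hcon.1, hcon.2]; ring)
    rw [mob_coe, mob_coe]
    have e3 : ((C * a + D * c : ℤ) : ℚ) * r + ((C * b + D * d : ℤ) : ℚ) =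
        C * (a * r + b) + D * (c * r + d) := by push_cast; ring
    have e4 : ((A * a + B * c : ℤ) : ℚ) * r + ((A * b + B * d : ℤ) : ℚ) =
        A * (a * r + b) + B * (c * r + d) := by push_cast; ring
    rw [e3, e4, ← h]
    by_cases hc : (c : ℚ) * r + d = 0
    · rw [if_pos hc, if_pos hc]
    · rw [if_neg hc, if_neg hc]

theorem sum_range_eq (p : ℕ) [NeZero p] (H : ℤ → ℂ) :
    ∑ j ∈ range p, H (j : ℤ) = ∑ z : ZMod p, H (z.val : ℤ) := by
  refine Finset.sum_nbij' (fun j => (j : ZMod p)) (fun z => z.val) ?_ ?_ ?_ ?_ ?_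
  · intro j _; exact mem_univ _
  · intro z _; exact mem_range.2 (ZMod.val_lt z)
  · intro j hj; exact ZMod.val_natCast_of_lt (mem_range.1 hj)
  · intro z _; exact ZMod.natCast_zmod_val z
  · intro j hj
    rw [ZMod.val_natCast_of_lt (mem_range.1 hj)]

theorem periodic_eq (p : ℕ) (H : ℤ → ℂ) (hH : ∀ j, H (j + p) = H j) (a b : ℤ)
    (h : (a : ZMod p) = (b : ZMod p)) : H a = H b := by
  have hd : (p : ℤ) ∣ a - b := by
    have h2 : ((a - b : ℤ) : ZMod p) = 0 := by push_cast; rw [h, sub_self]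
    exact (ZMod.intCast_zmod_eq_zero_iff_dvd _ _).1 h2
  obtain ⟨k, hk⟩ := hd
  have hper : Function.Periodic H (p : ℤ) := hH
  have h3 := hper.int_mul k b
  rw [← h3]
  congr 1
  push_cast
  linarith [mul_comm (p : ℤ) k]

theorem sum_mul (p : ℕ) [NeZero p] (H : ℤ → ℂ) (hH : ∀ j, H (j + p) = H j) (u : ℤ)
    (hu : IsUnit (u : ZMod p)) :
    ∑ j ∈ range p, H ((j : ℤ) * u) = ∑ j ∈ range p, H (j : ℤ) := by
  rw [sum_range_eq p (fun j => H (j * u)), sum_range_eq p H]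
  obtain ⟨w, hw⟩ := hu
  refine Fintype.sum_equiv (Units.mulRight w) _ _ fun z => ?_
  apply periodic_eq p H hH
  push_cast
  rw [ZMod.natCast_zmod_val, ZMod.natCast_zmod_val, Units.mulRight_apply, hw]

end SYMAux

open _root_.Pool.Agent.TWB.SYMAux

theorem t_SYM : S_SYM := by
  intro p hp N hN nu hnu1 hper Q hQ w
  haveI : Fact p.Prime := ⟨hp⟩
  have hp0 : (p : ℤ) ≠ 0 := by exact_mod_cast hp.ne_zero
  refine ⟨?_, ?_⟩
  · intro x y z
    simp only [Bt]
    rw [← Finset.sum_add_distrib]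
    refine Finset.sum_congr rfl fun c _ => ?_
    rw [← hQ.add (mob p c 0 p x) (mob p c 0 p y) (mob p c 0 p z)]
    ring
  · intro a b c d hdet hc x y
    obtain ⟨c0, hc0⟩ := hc
    obtain ⟨c2, hc2⟩ : ∃ c2 : ℤ, c2 = N * c0 := ⟨_, rfl⟩
    have hcc : c = (p : ℤ) ^ 2 * c2 := by rw [hc0, hc2]; push_cast; ring
    -- `d` is a unit modulo `p`
    have hdu : IsUnit ((d : ℤ) : ZMod p) := by
      have h1 : ((a * d - b * c : ℤ) : ZMod p) = 1 := by rw [hdet]; simp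
      rw [hcc] at h1
      push_cast at h1
      rw [ZMod.natCast_self] at h1
      refine IsUnit.of_mul_eq_one (a : ZMod p) ?_
      linear_combination h1
    obtain ⟨F, hF⟩ : ∃ F : ℤ → ℂ, F = fun s => Q (mob p s 0 p x) (mob p s 0 p y) := ⟨_, rfl⟩
    have hFper : ∀ s, F (s + p) = F s := by
      intro s
      have e : ∀ z, mob p (s + p) 0 p z = mob 1 1 0 1 (mob p s 0 p z) := by
        intro z
        rw [mob_mob _ _ _ _ _ _ _ _ (by norm_num) (by
          simp only [mul_zero, sub_zero]; exact mul_ne_zero hp0 hp0)]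
        congr 1 <;> ring
      simp only [hF]
      rw [e x, e y, hQ.equiv 1 1 0 1 (by norm_num) (dvd_zero _), hnu1, one_mul]
    have hterm : ∀ t : ℕ, Q (mob p t 0 p (mob a b c d x)) (mob p t 0 p (mob a b c d y)) =
        nu d * F (t * d ^ 2) := by
      intro t
      obtain ⟨t', ht'⟩ : ∃ t' : ℤ, t' = t * d ^ 2 := ⟨_, rfl⟩
      have e : ∀ z, mob p t 0 p (mob a b c d z) =
          mob (a + t * p * c2) (b - t * d * b * p * c2 - t * t' * c2) c (d - p * c2 * t')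
            (mob p t' 0 p z) := by
        intro z
        rw [mob_mob _ _ _ _ _ _ _ _ (by
          simp only [mul_zero, sub_zero]; exact mul_ne_zero hp0 hp0) (by rw [hdet]; norm_num),
          mob_mob _ _ _ _ _ _ _ _ (by
            rw [hcc, ht']
            have : (a + t * p * c2) * (d - p * c2 * (t * d ^ 2)) -
              (b - t * d * b * p * c2 - t * (t * d ^ 2) * c2) * ((p : ℤ) ^ 2 * c2) = 1 := by
              rw [hcc] at hdet
              linear_combination (1 - t * d * p * c2) * hdet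
            rw [this]; norm_num) (by
          simp only [mul_zero, sub_zero]; exact mul_ne_zero hp0 hp0)]
        rw [hcc] at hdet ⊢
        congr 1
        · ring
        · rw [ht']
          linear_combination (-(t : ℤ) * d) * hdet
        · ring
        · ring
      rw [e x, e y, hQ.equiv _ _ _ _ (by
            rw [hcc, ht']
            rw [hcc] at hdet
            linear_combination (1 - t * d * p * c2) * hdet) (by
            rw [hcc, hc2]; exact ⟨(p : ℤ) ^ 2 * c0, by ring⟩)]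
      rw [hper (d - p * c2 * t') d (by rw [hc2]; exact ⟨-(p * c0 * t'), by ring⟩), ht', hF]
    simp only [Bt]
    have h1 : ∀ t ∈ range p, w (t : ZMod p) *
        Q (mob p t 0 p (mob a b c d x)) (mob p t 0 p (mob a b c d y)) =
          (nu d * (w⁻¹ (d : ZMod p)) ^ 2) * (w (((t : ℤ) * d ^ 2 : ℤ) : ZMod p) *
            F ((t : ℤ) * d ^ 2)) := by
      intro t _
      rw [hterm t]
      have h2 : w⁻¹ (d : ZMod p) * w (d : ZMod p) = 1 := by
        rw [← MulChar.mul_apply, inv_mul_cancel, MulChar.one_apply hdu]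
      have h3 : w (((t : ℤ) * d ^ 2 : ℤ) : ZMod p) = w (t : ZMod p) * w (d : ZMod p) ^ 2 := by
        push_cast
        rw [map_mul, map_pow]
      rw [h3]
      linear_combination (-(nu d * w (t : ZMod p) * F ((t : ℤ) * d ^ 2)) *
        (w⁻¹ (d : ZMod p) * w (d : ZMod p) + 1)) * h2
    rw [Finset.sum_congr rfl h1, ← Finset.mul_sum]
    congr 1
    have h4 := sum_mul p (fun s => w ((s : ℤ) : ZMod p) * F s) (by
      intro j
      rw [hFper j]
      push_cast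
      rw [ZMod.natCast_self, add_zero]) (d ^ 2) (by push_cast; exact hdu.pow 2)
    rw [h4]
    refine Finset.sum_congr rfl fun t _ => ?_
    rw [hF]
    simp

end Pool.Agent.TWB


end

section

/-!
# TWB, module TEI (helper34): existence of the Teichmüller character `TeiP` and its Dirichlet character
-/

set_option autoImplicit false

namespace Pool.Agent.TWB

open _root_.MU3 Pool.Agent.MU3A Pool.Agent.MUX Pool.Agent.TWT

noncomputable section

namespace TEI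

/-- the product over the roots of unity of order dividing `n` -/
lemma prod_roots (n : ℕ) (hn : 0 < n) (y : ℂ) :
    ∏ ζ ∈ Polynomial.nthRootsFinset n (1 : ℂ), (y - ζ) = y ^ n - 1 := by
  have h1 : (Polynomial.X ^ n - 1 : Polynomial ℂ) =
      ∏ ζ ∈ Polynomial.nthRootsFinset n (1 : ℂ), (Polynomial.X - Polynomial.C ζ) :=
    Polynomial.X_pow_sub_one_eq_prod hn (Complex.isPrimitiveRoot_exp n hn.ne')
  have h2 := congrArg (Polynomial.eval y) h1
  rw [Polynomial.eval_prod] at h2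
  simpa using h2.symm

lemma val_int (V : ValuationSubring ℂ) (n : ℤ) : V.valuation (n : ℂ) ≤ 1 := MUXHY.Val.int_le V n

lemma uniq (V : ValuationSubring ℂ) (p : ℕ) (hp : p.Prime) (hv : V.valuation (p : ℂ) < 1)
    (hp2 : 2 < p) (ζ ξ : ℂ) (h1 : ζ ^ (p - 1) = 1) (h2 : ξ ^ (p - 1) = 1)
    (h : V.valuation (ζ - ξ) < 1) : ζ = ξ := by
  classical
  by_contra hne
  have hp1 : 0 < p - 1 := by omega
  have hξ0 : ξ ≠ 0 := by
    rintro rfl
    rw [zero_pow hp1.ne'] at h2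
    exact zero_ne_one h2
  have hvξ : V.valuation ξ = 1 := MUXHY.Val.root_one V (p - 1) ξ hp1.ne' h2
  obtain ⟨η, hη⟩ : ∃ η, η = ζ / ξ := ⟨_, rfl⟩
  have hη1 : η ^ (p - 1) = 1 := by rw [hη, div_pow, h1, h2, div_one]
  have hηne : η ≠ 1 := by
    rw [hη]
    intro h3
    exact hne ((div_eq_one_iff_eq hξ0).1 h3)
  have hv1 : V.valuation (1 - η) < 1 := by
    have h3 : 1 - η = -(ζ - ξ) / ξ := by
      rw [hη]
      field_simp
      ring
    rw [h3, map_div₀, Valuation.map_neg, hvξ, div_one]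
    exact h
  -- the sum 1 + y + ... + y^(p-2) at y = 1 is p - 1
  have hsum : ∑ i ∈ Finset.range (p - 1), η ^ i = 0 := by
    have h4 : (η - 1) * ∑ i ∈ Finset.range (p - 1), η ^ i = 0 := by
      rw [mul_geom_sum, hη1, sub_self]
    rcases mul_eq_zero.1 h4 with h5 | h5
    · exact absurd (sub_eq_zero.1 h5) hηne
    · exact h5
  have hvη : V.valuation η = 1 := MUXHY.Val.root_one V (p - 1) η hp1.ne' hη1
  have hterm : ∀ i : ℕ, V.valuation (1 - η ^ i) < 1 := by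
    intro i
    have h6 : 1 - η ^ i = (1 - η) * ∑ j ∈ Finset.range i, η ^ j := by
      have := mul_geom_sum η i
      linear_combination this
    rw [h6, map_mul]
    have h7 : V.valuation (∑ j ∈ Finset.range i, η ^ j) ≤ 1 := by
      refine V.valuation.map_sum_le fun j _ => ?_
      rw [map_pow, hvη, one_pow]
    exact mul_lt_one_of_lt_of_le hv1 h7
  have h8 : ((p - 1 : ℕ) : ℂ) = ∑ i ∈ Finset.range (p - 1), (1 - η ^ i) := by
    rw [Finset.sum_sub_distrib, hsum]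
    simp
  have h9 : V.valuation ((p - 1 : ℕ) : ℂ) < 1 := by
    rw [h8]
    exact V.valuation.map_sum_lt one_ne_zero fun i _ => hterm i
  have h10 : V.valuation (((p - 1 : ℕ) : ℤ) : ℂ) = 1 := by
    refine MUXHY.Val.int_one hp hv _ ?_
    intro hd
    have := Int.le_of_dvd (by omega) hd
    omega
  rw [Int.cast_natCast] at h10
  exact absurd h9 (by rw [h10]; exact lt_irrefl _)

lemma fermat {A B : ℤ} (p : ℕ) (hp : p.Prime) (P : Ideal (OO A B)) (hP : IsPN p P) (x : OO A B)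
    (hx : x ∉ P) : x ^ (p - 1) - 1 ∈ P := by
  have hcard : Nat.card (OO A B ⧸ P) = p := hP.norm
  have hfin : Finite (OO A B ⧸ P) := Nat.finite_of_card_ne_zero (by rw [hcard]; exact hp.ne_zero)
  have hprime := hP.prime
  have hdom : IsDomain (OO A B ⧸ P) := Ideal.Quotient.isDomain P
  have : Fintype (OO A B ⧸ P) := Fintype.ofFinite _
  have hf := Finite.isField_of_domain (OO A B ⧸ P)
  letI := hf.toField
  have h1 : (Ideal.Quotient.mk P x) ≠ 0 := by
    rwa [Ne, Ideal.Quotient.eq_zero_iff_mem]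
  have h2 : (Ideal.Quotient.mk P x) ^ (p - 1) = 1 := by
    have h3 := FiniteField.pow_card_sub_one_eq_one (Ideal.Quotient.mk P x) h1
    rwa [← Nat.card_eq_fintype_card, hcard] at h3
  rw [← Ideal.Quotient.eq_zero_iff_mem, map_sub, map_pow, map_one, h2, sub_self]

/-- existence of the root of unity -/
lemma exi {A B : ℤ} (p : ℕ) (V : ValuationSubring ℂ) (P : Ideal (OO A B)) (hcq : CQ A B)
    (hp : p.Prime) (hp2 : 2 < p) (hP : IsPN p P) (hV : OverI V P) (x : OO A B) (hx : x ∉ P) :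
    ∃ ζ : ℂ, ζ ^ (p - 1) = 1 ∧ V.valuation (ζ - emb x) < 1 := by
  classical
  have hp1 : 0 < p - 1 := by omega
  have hQ := MUXHY.toCQ hcq
  have hmul : ∀ a b : OO A B, emb (a * b) = emb a * emb b :=
    fun a b => (MUXF.tx_ALG A B hQ).1 a b |>.1
  have h1e : emb (1 : OO A B) = 1 := by
    have := ((MUXF.tx_ALG A B hQ).2.2.1 1).1
    simpa using this
  have hadd : ∀ a b : OO A B, emb (a + b) = emb a + emb b :=
    fun a b => (MUXF.tx_ALG A B hQ).1 a b |>.2.1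
  have hpow : ∀ n : ℕ, emb (x ^ n) = emb x ^ n := by
    intro n
    induction n with
    | zero => simp [h1e]
    | succ n ih => rw [pow_succ, pow_succ, hmul, ih]
  have h1 := (hV _).2 (fermat p hp P hP x hx)
  rw [ValuationSubring.mem_nonunits_iff] at h1
  have h2 : emb (x ^ (p - 1) - 1) = emb x ^ (p - 1) - 1 := by
    have h3 := hadd (x ^ (p - 1) - 1) 1
    rw [sub_add_cancel, hpow, h1e] at h3
    linear_combination -h3
  rw [h2, ← prod_roots (p - 1) hp1 (emb x), map_prod] at h1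
  by_contra hcon
  push Not at hcon
  have h4 : ∀ ζ ∈ Polynomial.nthRootsFinset (p - 1) (1 : ℂ), 1 ≤ V.valuation (emb x - ζ) := by
    intro ζ hζ
    rw [Polynomial.mem_nthRootsFinset hp1] at hζ
    rw [← Valuation.map_sub_swap]
    exact hcon ζ hζ
  have h5 : 1 ≤ ∏ ζ ∈ Polynomial.nthRootsFinset (p - 1) (1 : ℂ), V.valuation (emb x - ζ) :=
    Finset.one_le_prod' h4
  exact absurd h1 (not_lt.2 h5)

end TEI

open _root_.Pool.Agent.TWB.TEI in
/-- the Teichmüller character exists -/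
theorem t_TEI (p : ℕ) (A B : ℤ) (P : Ideal (OO A B)) (V : ValuationSubring ℂ) (hcq : CQ A B)
    (hp : p.Prime) (hp2 : 2 < p) (hP : IsPN p P) (hV : OverI V P) :
    ∃ w : OO A B → ℂ, TeiP p P V w := by
  classical
  have hp1 : 0 < p - 1 := by omega
  have hQ := MUXHY.toCQ hcq
  have hmul : ∀ a b : OO A B, emb (a * b) = emb a * emb b :=
    fun a b => (MUXF.tx_ALG A B hQ).1 a b |>.1
  have h1e : emb (1 : OO A B) = 1 := by
    have := ((MUXF.tx_ALG A B hQ).2.2.1 1).1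
    simpa using this
  have hadd : ∀ a b : OO A B, emb (a + b) = emb a + emb b :=
    fun a b => (MUXF.tx_ALG A B hQ).1 a b |>.2.1
  have hcast : ∀ c : ℤ, emb (c : OO A B) = c := fun c => ((MUXF.tx_ALG A B hQ).2.2.1 c).1
  have hvp : V.valuation (p : ℂ) < 1 := by
    have h1 := (hV _).2 hP.mem
    rw [ValuationSubring.mem_nonunits_iff] at h1
    have h2 := hcast (p : ℤ)
    rw [Int.cast_natCast, Int.cast_natCast] at h2
    rwa [h2] at h1
  have hvle : ∀ x : OO A B, V.valuation (emb x) ≤ 1 := fun x =>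
    (ValuationSubring.valuation_le_one_iff _ _).2 (MUXHY.Val.emb_mem hQ V x)
  have hVlt : ∀ x ∈ P, V.valuation (emb x) < 1 := by
    intro x hx
    have h1 := (hV x).2 hx
    rwa [ValuationSubring.mem_nonunits_iff] at h1
  let w : OO A B → ℂ := fun x => if hx : x ∈ P then 0 else (exi p V P hcq hp hp2 hP hV x hx).choose
  have hw0 : ∀ x ∈ P, w x = 0 := fun x hx => dif_pos hx
  have hw1 : ∀ x ∉ P, w x ^ (p - 1) = 1 ∧ V.valuation (w x - emb x) < 1 := by
    intro x hx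
    have h1 : w x = (exi p V P hcq hp hp2 hP hV x hx).choose := dif_neg hx
    rw [h1]
    exact (exi p V P hcq hp hp2 hP hV x hx).choose_spec
  have hwu : ∀ x ∉ P, ∀ ζ : ℂ, ζ ^ (p - 1) = 1 → V.valuation (ζ - emb x) < 1 → w x = ζ := by
    intro x hx ζ h1 h2
    refine uniq V p hp hvp hp2 _ _ (hw1 x hx).1 h1 ?_
    have h3 : w x - ζ = (w x - emb x) - (ζ - emb x) := by ring
    rw [h3]
    exact lt_of_le_of_lt (V.valuation.map_sub _ _) (max_lt (hw1 x hx).2 h2)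
  have h1P : (1 : OO A B) ∉ P := fun h => hP.prime.ne_top ((Ideal.eq_top_iff_one _).2 h)
  have hne0 : ∀ x ∉ P, w x ≠ 0 := by
    intro x hx h0
    have := (hw1 x hx).1
    rw [h0, zero_pow hp1.ne'] at this
    exact zero_ne_one this
  refine ⟨w, ?_, ?_, ?_, ?_, ?_, ?_, ?_⟩
  · refine hwu 1 h1P 1 (one_pow _) ?_
    rw [h1e, sub_self, map_zero]
    exact zero_lt_one
  · intro x y
    by_cases hx : x ∈ P
    · rw [hw0 x hx, hw0 _ (P.mul_mem_right y hx), zero_mul]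
    by_cases hy : y ∈ P
    · rw [hw0 y hy, hw0 _ (P.mul_mem_left x hy), mul_zero]
    have hxy : x * y ∉ P := fun h => (hP.prime.mem_or_mem h).elim hx hy
    refine hwu _ hxy _ ?_ ?_
    · rw [mul_pow, (hw1 x hx).1, (hw1 y hy).1, one_mul]
    · have h3 : w x * w y - emb (x * y) = (w x - emb x) * w y + emb x * (w y - emb y) := by
        rw [hmul]; ring
      rw [h3]
      refine lt_of_le_of_lt (V.valuation.map_add _ _) (max_lt ?_ ?_)
      · rw [map_mul, MUXHY.Val.root_one V (p - 1) (w y) hp1.ne' (hw1 y hy).1, mul_one]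
        exact (hw1 x hx).2
      · exact MUXHY.Val.mul_lt (hvle x) (hw1 y hy).2
  · intro x y hxy
    by_cases hx : x ∈ P
    · have hy : y ∈ P := by
        have := P.sub_mem hx hxy
        rwa [sub_sub_cancel] at this
      rw [hw0 x hx, hw0 y hy]
    · have hy : y ∉ P := by
        intro hy
        have := P.add_mem hxy hy
        rw [sub_add_cancel] at this
        exact hx this
      refine hwu x hx (w y) (hw1 y hy).1 ?_
      have h3 : w y - emb x = (w y - emb y) - emb (x - y) := by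
        have h4 := hadd (x - y) y
        rw [sub_add_cancel] at h4
        rw [h4]; ring
      rw [h3]
      exact lt_of_le_of_lt (V.valuation.map_sub _ _) (max_lt (hw1 y hy).2 (hVlt _ hxy))
  · intro x
    refine ⟨fun h => ?_, hw0 x⟩
    by_contra hx
    exact hne0 x hx h
  · intro x hx
    exact (hw1 x hx).1
  · intro x
    by_cases hx : x ∈ P
    · rw [hw0 x hx, zero_sub, Valuation.map_neg]
      exact hVlt x hx
    · exact (hw1 x hx).2
  · intro c
    by_cases hc : (c : OO A B) ∈ P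
    · rw [hw0 _ hc, zero_sub, Valuation.map_neg]
      have h1 := hVlt _ hc
      rw [hcast] at h1
      have hd : (p : ℤ) ∣ c := by
        by_contra hd
        rw [MUXHY.Val.int_one hp hvp c hd] at h1
        exact lt_irrefl _ h1
      obtain ⟨t, rfl⟩ := hd
      push_cast
      rw [map_mul]
      exact mul_le_of_le_one_right' (val_int V t)
    · have hroots := prod_roots (p - 1) hp1 (c : ℂ)
      have hmem : w (c : OO A B) ∈ Polynomial.nthRootsFinset (p - 1) (1 : ℂ) := by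
        rw [Polynomial.mem_nthRootsFinset hp1]
        exact (hw1 _ hc).1
      have hv := congrArg V.valuation hroots
      rw [map_prod, ← Finset.mul_prod_erase _ _ hmem] at hv
      have hone : ∏ ζ ∈ (Polynomial.nthRootsFinset (p - 1) (1 : ℂ)).erase (w (c : OO A B)),
          V.valuation ((c : ℂ) - ζ) = 1 := by
        refine Finset.prod_eq_one fun ζ hζ => ?_
        rw [Finset.mem_erase, Polynomial.mem_nthRootsFinset hp1] at hζ
        have hle : V.valuation ((c : ℂ) - ζ) ≤ 1 := by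
          refine le_trans (V.valuation.map_sub _ _) (max_le (val_int V c) ?_)
          rw [MUXHY.Val.root_one V (p - 1) ζ hp1.ne' hζ.2]
        refine le_antisymm hle (not_lt.1 fun hlt => ?_)
        apply hζ.1
        refine (hwu _ hc ζ hζ.2 ?_).symm
        rw [hcast, Valuation.map_sub_swap]
        exact hlt
      rw [hone, mul_one] at hv
      rw [Valuation.map_sub_swap, hv]
      have hd : ¬ (p : ℤ) ∣ c := by
        intro hd
        apply hc
        obtain ⟨t, rfl⟩ := hd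
        push_cast
        exact P.mul_mem_right _ hP.mem
      have hf : (p : ℤ) ∣ c ^ (p - 1) - 1 := by
        have : Fact p.Prime := ⟨hp⟩
        have hcz : (c : ZMod p) ≠ 0 := by
          rw [Ne, ZMod.intCast_zmod_eq_zero_iff_dvd]
          exact hd
        have := ZMod.pow_card_sub_one_eq_one hcz
        rw [← ZMod.intCast_zmod_eq_zero_iff_dvd]
        push_cast
        rw [this, sub_self]
      obtain ⟨t, ht⟩ := hf
      have h6 : (c : ℂ) ^ (p - 1) - 1 = (p : ℂ) * t := by exact_mod_cast ht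
      rw [h6, map_mul]
      exact mul_le_of_le_one_right' (val_int V t)

/-- the Dirichlet character `c ↦ w(c)⁻¹` -/
theorem t_TED (p : ℕ) (A B : ℤ) (P : Ideal (OO A B)) (V : ValuationSubring ℂ) (hcq : CQ A B)
    (hp : p.Prime) (hp2 : 2 < p) (hP : IsPN p P) (hV : OverI V P) (w : OO A B → ℂ)
    (hw : TeiP p P V w) :
    ∃ wD : DirichletCharacter ℂ p, (∀ c : ℤ, wD (c : ZMod p) = (w (c : OO A B))⁻¹) ∧
      wD (-1) = -1 := by
  have : Fact p.Prime := ⟨hp⟩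
  have hp1 : 0 < p - 1 := by omega
  have hQ := MUXHY.toCQ hcq
  have hcast : ∀ c : ℤ, emb (c : OO A B) = c := fun c => ((MUXF.tx_ALG A B hQ).2.2.1 c).1
  have hper : ∀ a b : ℤ, (a : ZMod p) = (b : ZMod p) → w (a : OO A B) = w (b : OO A B) := by
    intro a b hab
    apply hw.per
    rw [ZMod.intCast_eq_intCast_iff_dvd_sub] at hab
    obtain ⟨t, ht⟩ := hab
    have h1 : (a : OO A B) - b = -((p : OO A B) * (t : OO A B)) := by
      have h2 : a - b = -((p : ℤ) * t) := by linarith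
      have h3 := congrArg (fun z : ℤ => (z : OO A B)) h2
      push_cast at h3
      exact h3
    rw [h1]
    exact P.neg_mem (P.mul_mem_right _ hP.mem)
  have hval : ∀ c : ZMod p, w (((c.val : ℕ) : ℤ) : OO A B) = w ((c.cast : ℤ) : OO A B) := by
    intro c
    apply hper
    simp
  let wD : DirichletCharacter ℂ p :=
    { toFun := fun c => (w ((c.cast : ℤ) : OO A B))⁻¹
      map_one' := by
        have h1 : w ((((1 : ZMod p).cast : ℤ)) : OO A B) = w (((1 : ℤ)) : OO A B) := by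
          apply hper
          simp
        simp only [h1]
        rw [Int.cast_one, hw.one, inv_one]
      map_mul' := by
        intro a b
        have h1 : w ((((a * b : ZMod p).cast : ℤ)) : OO A B) =
            w (((a.cast : ℤ) * (b.cast : ℤ) : ℤ) : OO A B) := by
          apply hper
          simp
        simp only [h1]
        rw [Int.cast_mul, hw.mul, mul_inv]
      map_nonunit' := by
        intro a ha
        have h1 : a = 0 := by
          by_contra h2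
          exact ha (isUnit_iff_ne_zero.2 h2)
        have h2 : w ((((a : ZMod p).cast : ℤ)) : OO A B) = w (((0 : ℤ)) : OO A B) := by
          apply hper
          simp [h1]
        simp only [h2]
        rw [Int.cast_zero, (hw.zero 0).2 P.zero_mem, inv_zero] }
  have hwD : ∀ c : ℤ, wD (c : ZMod p) = (w (c : OO A B))⁻¹ := by
    intro c
    change (w (((c : ZMod p).cast : ℤ) : OO A B))⁻¹ = _
    rw [hper _ c (by simp)]
  refine ⟨wD, hwD, ?_⟩
  have hvp : V.valuation (p : ℂ) < 1 := by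
    have h1 := (hV _).2 hP.mem
    rw [ValuationSubring.mem_nonunits_iff] at h1
    have h2 := hcast (p : ℤ)
    rw [Int.cast_natCast, Int.cast_natCast] at h2
    rwa [h2] at h1
  have h3 : w ((-1 : ℤ) : OO A B) = -1 := by
    have hn : ((-1 : ℤ) : OO A B) ∉ P := by
      intro h
      push_cast at h
      have := P.neg_mem h
      rw [neg_neg] at this
      exact hP.prime.ne_top ((Ideal.eq_top_iff_one _).2 this)
    refine TEI.uniq V p hp hvp hp2 _ _ (hw.root _ hn) ?_ ?_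
    · have hev : Even (p - 1) := hp.even_sub_one (by omega)
      exact hev.neg_one_pow
    · have := hw.red ((-1 : ℤ) : OO A B)
      rw [hcast] at this
      push_cast at this ⊢
      exact this
  have h4 := hwD (-1)
  rw [h3] at h4
  push_cast at h4
  rw [h4]
  norm_num

end

end Pool.Agent.TWB


end

section

/-!
# TWB, module TWB (helper88): from `TWR.S_TW2` to the block twist
-/

set_option autoImplicit false

namespace Pool.Agent.TWB

open _root_.MU3 Pool.Agent.MuSym Pool.Agent.MUXH OnePoint Finset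

noncomputable section

namespace TWBAux

lemma sum_neg (m : ℕ) (F : ℤ → ℂ) (hF : ∀ x, F (x + m) = F x) :
    ∑ c ∈ range m, F (-(c : ℤ)) = ∑ c ∈ range m, F (c : ℤ) := by
  cases m with
  | zero => simp
  | succ k =>
    rw [sum_range_succ', sum_range_succ']
    congr 1
    rw [← sum_range_reflect]
    refine sum_congr rfl fun c hc => ?_
    have h1 : c < k := mem_range.1 hc
    have h2 := hF (-((k - 1 - c + 1 : ℕ) : ℤ))
    rw [← h2]
    congr 1
    push_cast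
    omega

lemma chi_root (p : ℕ) [NeZero p] (χ : DirichletCharacter ℂ p) (x : ZMod p) :
    χ x = 0 ∨ ∃ n : ℕ, 0 < n ∧ χ x ^ n = 1 := by
  by_cases hx : IsUnit x
  · right
    obtain ⟨u, rfl⟩ := hx
    refine ⟨Fintype.card (ZMod p)ˣ, Fintype.card_pos, ?_⟩
    rw [← map_pow, ← Units.val_pow_eq_pow_val, pow_card_eq_one, Units.val_one, map_one]
  · left
    exact χ.map_nonunit hx

lemma chi_val (V : ValuationSubring ℂ) (p : ℕ) [NeZero p] (χ : DirichletCharacter ℂ p)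
    (x : ZMod p) : V.valuation (χ x) ≤ 1 := by
  rcases chi_root p χ x with h | ⟨n, hn, h⟩
  · rw [h, map_zero]
    exact zero_le_one
  · by_contra hc
    have hc' : 1 < V.valuation (χ x) := not_le.1 hc
    have h1 := one_lt_pow₀ hc' hn.ne'
    rw [← map_pow, h, map_one] at h1
    exact lt_irrefl _ h1

lemma chi_alg (p : ℕ) [NeZero p] (χ : DirichletCharacter ℂ p) (x : ZMod p) :
    IsAlgebraic ℚ (χ x) := by
  rcases chi_root p χ x with h | ⟨n, hn, h⟩
  · rw [h]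
    exact isAlgebraic_zero
  · refine IsAlgebraic.of_pow hn ?_
    rw [h]
    exact isAlgebraic_one

lemma alg_sum (s : Finset ℕ) (f : ℕ → ℂ) (hf : ∀ c, IsAlgebraic ℚ (f c)) :
    IsAlgebraic ℚ (∑ c ∈ s, f c) := by
  have h : ∑ c ∈ s, f c ∈ Subalgebra.algebraicClosure ℚ ℂ := sum_mem fun c _ => hf c
  exact h

lemma mob_inf (a b d : ℤ) : mob a b 0 d ∞ = ∞ := by
  simp [mob]

lemma mob_tr (p : ℕ) (hp : p ≠ 0) (c : ℕ) (x : ℚ) :
    mob (p : ℤ) (c : ℤ) 0 (p : ℤ) (x : OnePoint ℚ) = ((x + (c : ℚ) / p : ℚ) : OnePoint ℚ) := by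
  have hp' : (p : ℚ) ≠ 0 := Nat.cast_ne_zero.2 hp
  have h1 : mob (p : ℤ) (c : ℤ) 0 (p : ℤ) (x : OnePoint ℚ) =
      ((((p : ℚ) * x + c) / p : ℚ) : OnePoint ℚ) := by
    simp [mob, hp]
  rw [h1]
  congr 1
  field_simp

lemma mob_ng (x : ℚ) : mob (-1) 0 0 1 (x : OnePoint ℚ) = ((-x : ℚ) : OnePoint ℚ) := by
  simp [mob]

/-- the odd part on the paths from infinity -/
lemma sgn_inf (P : OnePoint ℚ → OnePoint ℚ → ℂ) (y : ℚ) :
    sgnPart (-1) P ∞ (y : OnePoint ℚ) = P ∞ (y : OnePoint ℚ) - P ∞ ((-y : ℚ) : OnePoint ℚ) := by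
  unfold sgnPart
  rw [mob_inf, mob_ng]
  ring

lemma Bt_inf (p : ℕ) (hp : p ≠ 0) (w : DirichletCharacter ℂ p)
    (Q : OnePoint ℚ → OnePoint ℚ → ℂ) (x : ℚ) :
    Bt p w Q ∞ (x : OnePoint ℚ) =
      ∑ c ∈ range p, w (c : ZMod p) * Q ∞ ((x + (c : ℚ) / p : ℚ) : OnePoint ℚ) := by
  unfold Bt
  refine sum_congr rfl fun c _ => ?_
  rw [mob_inf, mob_tr p hp]

/-- translations -/
lemma tr_P (hk : Sx_HK) (N' : ℕ) (nu : ℤ → ℂ) (P : OnePoint ℚ → OnePoint ℚ → ℂ)
    (hs : IsSym N' nu P) (h1 : nu 1 = 1) (r : ℚ) (k : ℤ) :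
    P ∞ ((r + k : ℚ) : OnePoint ℚ) = P ∞ (r : OnePoint ℚ) := by
  have h := (hk 1 le_rfl N' nu P P hs h1 0).1 r k
  simpa [sgnPart] using h

/-- the symbol in the direction `-y`: the substitution `c ↦ -c` -/
lemma sum_w (p : ℕ) (hp : p ≠ 0) (w : DirichletCharacter ℂ p) (hw : w (-1) = -1) (U : ℚ → ℂ)
    (hU : ∀ (r : ℚ) (k : ℤ), U (r + k) = U r) (x : ℚ) :
    ∑ c ∈ range p, w (c : ZMod p) * U (x - (c : ℚ) / p) =
      - ∑ c ∈ range p, w (c : ZMod p) * U (x + (c : ℚ) / p) := by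
  have hp' : (p : ℚ) ≠ 0 := Nat.cast_ne_zero.2 hp
  have h := sum_neg p (fun c => w ((c : ℤ) : ZMod p) * U (x + (c : ℚ) / p)) (by
    intro c
    have e1 : (((c + p : ℤ)) : ZMod p) = ((c : ℤ) : ZMod p) := by simp
    have e2 : x + ((c + p : ℤ) : ℚ) / p = (x + (c : ℚ) / p) + ((1 : ℤ) : ℚ) := by
      push_cast
      field_simp
      ring
    simp only [e1, e2, hU])
  have h3 : ∑ c ∈ range p, w (((-(c : ℤ) : ℤ)) : ZMod p) * U (x + ((-(c : ℤ) : ℤ) : ℚ) / p) =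
      - ∑ c ∈ range p, w (c : ZMod p) * U (x - (c : ℚ) / p) := by
    rw [← sum_neg_distrib]
    refine sum_congr rfl fun c _ => ?_
    have e1 : (((-(c : ℤ) : ℤ)) : ZMod p) = (-1) * (c : ZMod p) := by
      push_cast
      ring
    have e2 : x + ((-(c : ℤ) : ℤ) : ℚ) / p = x - (c : ℚ) / p := by
      push_cast
      ring
    rw [e1, map_mul, hw, e2]
    ring
  simp only [Int.cast_natCast] at h
  rw [← h]
  rw [h3]
  ring

end TWBAux

open _root_.Pool.Agent.TWB.TWBAux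

theorem t_TWB : M_TWB := by
  intro tw2 hk hsym hnua hnb l g h' hG V p hp5 I _ N₀ s₀ h a nu P hyp hdep w hw r hr n0
  rcases isEmpty_or_nonempty I with hI | ⟨⟨i₀⟩⟩
  · exact ⟨n0, le_rfl, fun j _ i => (hI.false i).elim⟩
  have hpp : p.Prime := (hyp i₀).pp
  have hp0 : p ≠ 0 := hpp.ne_zero
  have _nz : NeZero p := ⟨hp0⟩
  have hN1 : p ^ (s₀ + 1) * N₀ ≠ 0 := mul_ne_zero (pow_ne_zero _ hp0) (hyp i₀).N0
  have hN : p ^ (s₀ + 1) * N₀ * p ^ 2 ≠ 0 := mul_ne_zero hN1 (pow_ne_zero _ hp0)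
  have hdvd1 : ((p * N₀ : ℕ) : ℤ) ∣ ((p ^ (s₀ + 1) * N₀ : ℕ) : ℤ) := by
    refine Int.natCast_dvd_natCast.2 (Nat.mul_dvd_mul_right (dvd_pow_self p (Nat.succ_ne_zero _)) N₀)
  have hper1 : ∀ i (d d' : ℤ), ((p ^ (s₀ + 1) * N₀ : ℕ) : ℤ) ∣ d - d' → nu i d = nu i d' :=
    fun i d d' hd => (hyp i).nuper d d' (hdvd1.trans hd)
  have hS : ∀ i, IsSym (p ^ (s₀ + 1) * N₀) (nu i) (sgnPart (-1) (P i 0)) := fun i =>
    (hk 1 le_rfl _ (nu i) (P i 0) (P i 0) ((hyp i).sym 0) (hyp i).nu1 (-1)).2.1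
  have hW : ∀ i (y : ℚ) (k : ℤ), sgnPart (-1) (P i 0) ∞ ((y + k : ℚ) : OnePoint ℚ) =
      sgnPart (-1) (P i 0) ∞ (y : OnePoint ℚ) := fun i =>
    (hk 1 le_rfl _ (nu i) (P i 0) (P i 0) ((hyp i).sym 0) (hyp i).nu1 (-1)).1
  have hPt : ∀ i (y : ℚ) (k : ℤ), P i 0 ∞ ((y + k : ℚ) : OnePoint ℚ) =
      P i 0 ∞ (y : OnePoint ℚ) := fun i y k =>
    tr_P hk _ (nu i) (P i 0) ((hyp i).sym 0) (hyp i).nu1 y k
  have hodd : ∀ i (y : ℚ), sgnPart (-1) (P i 0) ∞ ((-y : ℚ) : OnePoint ℚ) =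
      - sgnPart (-1) (P i 0) ∞ (y : OnePoint ℚ) := by
    intro i y
    rw [sgn_inf, sgn_inf, neg_neg]
    ring
  obtain ⟨n, hn, hfin⟩ := tw2 l g h' hG V p hpp hp5 (hyp i₀).vp I (p ^ (s₀ + 1) * N₀ * p ^ 2) hN
    (fun i d => nu i d * (w⁻¹ (d : ZMod p)) ^ 2)
    (by
      intro i d
      rw [map_mul, map_pow]
      exact mul_le_one' ((hyp i).nuv d) (pow_le_one' (chi_val V p w⁻¹ _) 2))
    (by
      intro i
      simp [(hyp i).nu1])
    (by
      intro i d d' hd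
      have e1 : nu i d = nu i d' := hper1 i d d' (Dvd.dvd.trans (by
        push_cast
        exact Dvd.intro _ rfl) hd)
      have e2 : (d : ZMod p) = (d' : ZMod p) := by
        rw [ZMod.intCast_eq_intCast_iff_dvd_sub]
        refine (dvd_sub_comm).1 (Dvd.dvd.trans ?_ hd)
        push_cast
        exact Dvd.dvd.mul_left (dvd_pow_self _ two_ne_zero) _
      simp only [e1, e2])
    (by
      intro i d
      exact (hnua p V N₀ s₀ (h i) (a i) (nu i) (P i) (-1) (hyp i) d).mul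
        ((chi_alg p w⁻¹ _).pow 2))
    (fun i => Bt p w (sgnPart (-1) (P i 0)))
    (fun i => hsym p hpp _ hN1 (nu i) (hyp i).nu1 (hper1 i) _ (hS i) w)
    (by
      intro i x
      rw [Bt_inf p hp0]
      refine alg_sum _ _ fun c => ?_
      rw [sgn_inf]
      exact (chi_alg p w _).mul (((hyp i).alg _ _).sub ((hyp i).alg _ _)))
    (by
      intro i x
      rw [Bt_inf p hp0, Bt_inf p hp0]
      have h1 := sum_w p hp0 w hw (fun y : ℚ => sgnPart (-1) (P i 0) ∞ (y : OnePoint ℚ)) (hW i) x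
      have h2 : ∑ c ∈ range p, w (c : ZMod p) *
          sgnPart (-1) (P i 0) ∞ ((-x + (c : ℚ) / p : ℚ) : OnePoint ℚ) =
          - ∑ c ∈ range p, w (c : ZMod p) *
            sgnPart (-1) (P i 0) ∞ ((x - (c : ℚ) / p : ℚ) : OnePoint ℚ) := by
        rw [← sum_neg_distrib]
        refine sum_congr rfl fun c _ => ?_
        have e : (-x + (c : ℚ) / p : ℚ) = -(x - (c : ℚ) / p) := by ring
        rw [e, hodd]
        ring
      rw [h2, h1, neg_neg])
    (by
      intro i x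
      simp only [Bt_inf p hp0]
      rw [sum_comm]
      refine sum_eq_zero fun c _ => ?_
      rw [← mul_sum]
      have h0 : ∑ k ∈ range l, sgnPart (-1) (P i 0) ∞
          ((x + (k : ℚ) / l + (c : ℚ) / p : ℚ) : OnePoint ℚ) = 0 := by
        simp only [sgn_inf]
        rw [sum_sub_distrib]
        have h1 : ∑ k ∈ range l, P i 0 ∞ ((x + (k : ℚ) / l + (c : ℚ) / p : ℚ) : OnePoint ℚ) = 0 := by
          have := hdep i (x + (c : ℚ) / p)
          rw [← this]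
          refine sum_congr rfl fun k _ => ?_
          rw [show x + (k : ℚ) / l + (c : ℚ) / p = x + (c : ℚ) / p + (k : ℚ) / l by ring]
        have h2 : ∑ k ∈ range l, P i 0 ∞
            ((-(x + (k : ℚ) / l + (c : ℚ) / p) : ℚ) : OnePoint ℚ) = 0 := by
          have := hdep i (-(x + (c : ℚ) / p) - ((l : ℚ) - 1) / l)
          rw [← this, ← sum_range_reflect]
          refine sum_congr rfl fun k hk' => ?_
          have hkl : k < l := mem_range.1 hk'
          have hc : ((l - 1 - k : ℕ) : ℚ) = (l : ℚ) - 1 - k := by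
            rw [Nat.cast_sub (by omega), Nat.cast_sub (by omega)]
            simp
          rw [hc]
          congr 2
          ring
        rw [h1, h2, sub_zero]
      rw [h0, mul_zero])
    (by
      intro i N' hN' hd
      exact hnb p V N₀ s₀ (h i) (a i) (nu i) (P i) (hyp i) w hw N' hN'
        ((Dvd.intro _ rfl).trans hd))
    r hr n0
  refine ⟨n, hn, fun j hj i ψ hψ1 hψ2 => ?_⟩
  have hv := hfin j hj i ψ hψ1 hψ2
  have hm0 : l ^ (n + j) ≠ 0 := by
    rcases hG with ⟨hl, -, -⟩ | ⟨hl, -, -⟩ <;> rw [hl] <;> positivity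
  have hm0' : ((l ^ (n + j) : ℕ) : ℚ) ≠ 0 := Nat.cast_ne_zero.2 hm0
  -- the sum of the odd part
  set S : ℂ := ∑ b ∈ range (l ^ (n + j)), ∑ c ∈ range p, ψ b * w (c : ZMod p) *
      P i 0 ∞ (((b : ℚ) / (l : ℚ) ^ (n + j) + (c : ℚ) / p : ℚ) : OnePoint ℚ) with hSdef
  have hS' : ∑ b ∈ range (l ^ (n + j)), ∑ c ∈ range p, ψ b * w (c : ZMod p) *
      P i 0 ∞ ((-((b : ℚ) / (l : ℚ) ^ (n + j) + (c : ℚ) / p) : ℚ) : OnePoint ℚ) = - S := by
    have hin : ∀ b : ℕ, ∑ c ∈ range p, ψ b * w (c : ZMod p) *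
        P i 0 ∞ ((-((b : ℚ) / (l : ℚ) ^ (n + j) + (c : ℚ) / p) : ℚ) : OnePoint ℚ) =
        - ∑ c ∈ range p, ψ b * w (c : ZMod p) *
          P i 0 ∞ ((-((b : ℚ) / (l : ℚ) ^ (n + j)) + (c : ℚ) / p : ℚ) : OnePoint ℚ) := by
      intro b
      have h1 := sum_w p hp0 w hw (fun y : ℚ => P i 0 ∞ (y : OnePoint ℚ)) (hPt i)
        (-((b : ℚ) / (l : ℚ) ^ (n + j)))
      have h2 := congrArg (fun z => ψ b * z) h1
      simp only [mul_neg, mul_sum] at h2
      simp only [mul_assoc]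
      rw [← h2]
      refine sum_congr rfl fun c _ => ?_
      congr 3
      congr 1
      ring
    rw [sum_congr rfl fun b _ => hin b, sum_neg_distrib, hSdef]
    congr 1
    have h := sum_neg (l ^ (n + j)) (fun b : ℤ => ∑ c ∈ range p,
      ψ ((b : ℤ) : ZMod (l ^ (n + j))) * w (c : ZMod p) *
      P i 0 ∞ (((b : ℚ) / (l : ℚ) ^ (n + j) + (c : ℚ) / p : ℚ) : OnePoint ℚ)) (by
      intro b
      have e1 : (((b + (l ^ (n + j) : ℕ) : ℤ)) : ZMod (l ^ (n + j))) =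
          ((b : ℤ) : ZMod (l ^ (n + j))) := by
        rw [Int.cast_add, Int.cast_natCast, ZMod.natCast_self, add_zero]
      have e2 : ∀ c : ℕ, ((b + (l ^ (n + j) : ℕ) : ℤ) : ℚ) / (l : ℚ) ^ (n + j) + (c : ℚ) / p =
          ((b : ℚ) / (l : ℚ) ^ (n + j) + (c : ℚ) / p) + ((1 : ℤ) : ℚ) := by
        intro c
        have hl' : (l : ℚ) ^ (n + j) ≠ 0 := by
          have := hm0'
          push_cast at this
          exact this
        have : ((b + (l ^ (n + j) : ℕ) : ℤ) : ℚ) / (l : ℚ) ^ (n + j) =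
            (b : ℚ) / (l : ℚ) ^ (n + j) + 1 := by
          push_cast
          rw [add_div, div_self hl']
        rw [this]
        push_cast
        ring
      refine sum_congr rfl fun c _ => ?_
      rw [e1, e2, hPt])
    simp only [Int.cast_natCast] at h
    rw [← h]
    refine sum_congr rfl fun b _ => ?_
    refine sum_congr rfl fun c _ => ?_
    have e1 : ψ (((-(b : ℤ) : ℤ)) : ZMod (l ^ (n + j))) = ψ (b : ZMod (l ^ (n + j))) := by
      rw [show (((-(b : ℤ) : ℤ)) : ZMod (l ^ (n + j))) = (-1) * (b : ZMod (l ^ (n + j))) by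
        push_cast; ring, map_mul, hψ1, one_mul]
    have e2 : ((-(b : ℤ) : ℤ) : ℚ) / (l : ℚ) ^ (n + j) + (c : ℚ) / p =
        -((b : ℚ) / (l : ℚ) ^ (n + j)) + (c : ℚ) / p := by
      push_cast
      ring
    rw [e1, e2]
  have hsum : ∑ b ∈ range (l ^ (n + j)), ψ b *
      Bt p w (sgnPart (-1) (P i 0)) ∞ (((b : ℚ) / (l : ℚ) ^ (n + j) : ℚ) : OnePoint ℚ) = 2 * S := by
    have h1 : ∀ b : ℕ, ψ b *
        Bt p w (sgnPart (-1) (P i 0)) ∞ (((b : ℚ) / (l : ℚ) ^ (n + j) : ℚ) : OnePoint ℚ) =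
        ∑ c ∈ range p, ψ b * w (c : ZMod p) *
          P i 0 ∞ (((b : ℚ) / (l : ℚ) ^ (n + j) + (c : ℚ) / p : ℚ) : OnePoint ℚ) -
        ∑ c ∈ range p, ψ b * w (c : ZMod p) *
          P i 0 ∞ ((-((b : ℚ) / (l : ℚ) ^ (n + j) + (c : ℚ) / p) : ℚ) : OnePoint ℚ) := by
      intro b
      rw [Bt_inf p hp0, mul_sum, ← sum_sub_distrib]
      refine sum_congr rfl fun c _ => ?_
      rw [sgn_inf]
      ring
    rw [sum_congr rfl fun b _ => h1 b, sum_sub_distrib, hS', hSdef]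
    ring
  have hv' : 1 ≤ V.valuation (2 * S) := by
    rw [← hsum]
    exact hv
  rw [map_mul] at hv'
  have hv2 : V.valuation (2 : ℂ) ≤ 1 := by
    rw [ValuationSubring.valuation_le_one_iff]
    exact ofNat_mem V 2
  calc (1 : _) ≤ V.valuation 2 * V.valuation S := hv'
    _ ≤ 1 * V.valuation S := mul_le_mul_left hv2 _
    _ = V.valuation S := one_mul _

end

end Pool.Agent.TWB


end

section

/-!
# TWB, module UPR: the relation for `U_p`
-/

set_option autoImplicit false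

namespace Pool.Agent.TWB

open _root_.MU3 Pool.Agent.MuSym Pool.Agent.MUXH OnePoint Finset

noncomputable section

namespace UPRAux

/-- Division with remainder in a sum. -/
theorem sum_mul (m : ℕ) (f : ℕ → ℂ) : ∀ n : ℕ,
    ∑ j ∈ range (m * n), f j = ∑ a ∈ range m, ∑ b ∈ range n, f (a + m * b) := by
  intro n
  induction n with
  | zero => simp
  | succ n ih =>
    rw [Nat.mul_succ, Finset.sum_range_add, ih, ← Finset.sum_add_distrib]
    refine Finset.sum_congr rfl fun a _ => ?_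
    rw [Finset.sum_range_succ, Nat.add_comm (m * n) a]

variable {p : ℕ} {V : ValuationSubring ℂ} {N₀ s₀ h : ℕ} {a : ℂ} {nu : ℤ → ℂ}
  {P : ℕ → OnePoint ℚ → OnePoint ℚ → ℂ}

/-- One step. -/
theorem step (hHK : Sx_HK) (hyp : HypA p V N₀ s₀ h a nu P (-1)) (i : ℕ) (r : ℚ) :
    ∑ j ∈ range p, sgnPart (-1) (P i) ∞ (((r + j) / p : ℚ) : OnePoint ℚ) =
      sgnPart (-1) (P (i + 1)) ∞ (r : OnePoint ℚ) :=
  (hHK p hyp.pp.one_lt.le _ nu (P i) (P (i + 1)) (hyp.sym i) hyp.nu1 (-1)).2.2 hyp.nup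
    (hyp.hec i) r

/-- Several steps. -/
theorem steps (hHK : Sx_HK) (hyp : HypA p V N₀ s₀ h a nu P (-1)) : ∀ (k : ℕ) (r : ℚ),
    sgnPart (-1) (P (k + 1)) ∞ (r : OnePoint ℚ) =
      ∑ j ∈ range (p ^ k), sgnPart (-1) (P 1) ∞ (((r + j) / (p : ℚ) ^ k : ℚ) : OnePoint ℚ) := by
  have hp : (p : ℚ) ≠ 0 := Nat.cast_ne_zero.2 hyp.pp.ne_zero
  intro k
  induction k with
  | zero =>
    intro r
    simp
  | succ k ih =>
    intro r
    rw [← step hHK hyp (k + 1) r, pow_succ', sum_mul]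
    refine Finset.sum_congr rfl fun j _ => ?_
    rw [ih]
    refine Finset.sum_congr rfl fun l _ => ?_
    congr 2
    push_cast
    field_simp
    ring

end UPRAux

open _root_.Pool.Agent.TWB.UPRAux in
/-- Module UPR. -/
theorem t_UPR : M_UPR := by
  intro hHK p V N₀ s₀ h a nu P hyp
  refine ⟨fun x => step hHK hyp 0 x, fun x => ?_⟩
  rw [← steps hHK hyp (h - 1) x, Nat.sub_add_cancel hyp.h1]
  unfold sgnPart
  rw [hyp.per, hyp.per]
  ring

end

end Pool.Agent.TWB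


end

section

/-!
# TWB, assembly (helper34; the proof of `m_TWB3` is helper88's proof of `t_TWB`)

`a_TWB : S_TWB`, and `a_TWB3 : S_TWB3`, the same with bounded gaps: there is `C` such that every interval
`[n0, n0 + C]` contains an `n` for which all levels `n, …, n + r - 1` are good.
-/

set_option autoImplicit false

namespace Pool.Agent.TWB

open _root_.MU3 Pool.Agent.MuSym Pool.Agent.MUXH OnePoint Finset

noncomputable section

/-- TWB3: `S_TWB` with bounded gaps. -/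
def S_TWB3 : Prop := ∀ (l g h' : ℕ) (_ : TWR.Gen l g h') (V : ValuationSubring ℂ) (p : ℕ)
  (_ : 5 ≤ p) (I : Type) [Finite I] (N₀ s₀ : ℕ) (h : I → ℕ) (a : I → ℂ) (nu : I → ℤ → ℂ)
  (P : I → ℕ → OnePoint ℚ → OnePoint ℚ → ℂ)
  (_ : ∀ i, HypA p V N₀ s₀ (h i) (a i) (nu i) (P i) (-1))
  (_ : ∀ i (x : ℚ), ∑ k ∈ range l, P i 0 ∞ ((x + (k : ℚ) / l : ℚ) : OnePoint ℚ) = 0)
  (w : DirichletCharacter ℂ p) (_ : w (-1) = -1) (r : ℕ) (_ : 1 ≤ r),
  ∃ C : ℕ, ∀ n0 : ℕ, ∃ n, n0 ≤ n ∧ n ≤ n0 + C ∧ ∀ j < r, ∀ i,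
    ∀ ψ : DirichletCharacter ℂ (l ^ (n + j)), ψ (-1) = 1 →
    ψ (1 + (l : ZMod (l ^ (n + j))) ^ (n + j - 1)) ≠ 1 →
    1 ≤ V.valuation (∑ b ∈ range (l ^ (n + j)), ∑ c ∈ range p, ψ b * w (c : ZMod p) *
      P i 0 ∞ (((b : ℚ) / (l : ℚ) ^ (n + j) + (c : ℚ) / p : ℚ) : OnePoint ℚ))

open TWBAux

theorem m_TWB3 (tw2 : TWR.S_TW3) (hk : Sx_HK) (hsym : S_SYM) (hnua : S_NUA) (hnb : S_NB) : S_TWB3 := by
  intro l g h' hG V p hp5 I _ N₀ s₀ h a nu P hyp hdep w hw r hr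
  rcases isEmpty_or_nonempty I with hI | ⟨⟨i₀⟩⟩
  · exact ⟨0, fun n0 => ⟨n0, le_rfl, le_rfl, fun j _ i => (hI.false i).elim⟩⟩
  have hpp : p.Prime := (hyp i₀).pp
  have hp0 : p ≠ 0 := hpp.ne_zero
  have _nz : NeZero p := ⟨hp0⟩
  have hN1 : p ^ (s₀ + 1) * N₀ ≠ 0 := mul_ne_zero (pow_ne_zero _ hp0) (hyp i₀).N0
  have hN : p ^ (s₀ + 1) * N₀ * p ^ 2 ≠ 0 := mul_ne_zero hN1 (pow_ne_zero _ hp0)
  have hdvd1 : ((p * N₀ : ℕ) : ℤ) ∣ ((p ^ (s₀ + 1) * N₀ : ℕ) : ℤ) := by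
    refine Int.natCast_dvd_natCast.2 (Nat.mul_dvd_mul_right (dvd_pow_self p (Nat.succ_ne_zero _)) N₀)
  have hper1 : ∀ i (d d' : ℤ), ((p ^ (s₀ + 1) * N₀ : ℕ) : ℤ) ∣ d - d' → nu i d = nu i d' :=
    fun i d d' hd => (hyp i).nuper d d' (hdvd1.trans hd)
  have hS : ∀ i, IsSym (p ^ (s₀ + 1) * N₀) (nu i) (sgnPart (-1) (P i 0)) := fun i =>
    (hk 1 le_rfl _ (nu i) (P i 0) (P i 0) ((hyp i).sym 0) (hyp i).nu1 (-1)).2.1
  have hW : ∀ i (y : ℚ) (k : ℤ), sgnPart (-1) (P i 0) ∞ ((y + k : ℚ) : OnePoint ℚ) =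
      sgnPart (-1) (P i 0) ∞ (y : OnePoint ℚ) := fun i =>
    (hk 1 le_rfl _ (nu i) (P i 0) (P i 0) ((hyp i).sym 0) (hyp i).nu1 (-1)).1
  have hPt : ∀ i (y : ℚ) (k : ℤ), P i 0 ∞ ((y + k : ℚ) : OnePoint ℚ) =
      P i 0 ∞ (y : OnePoint ℚ) := fun i y k =>
    tr_P hk _ (nu i) (P i 0) ((hyp i).sym 0) (hyp i).nu1 y k
  have hodd : ∀ i (y : ℚ), sgnPart (-1) (P i 0) ∞ ((-y : ℚ) : OnePoint ℚ) =
      - sgnPart (-1) (P i 0) ∞ (y : OnePoint ℚ) := by
    intro i y
    rw [sgn_inf, sgn_inf, neg_neg]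
    ring
  obtain ⟨C, hC⟩ := tw2 l g h' hG V p hpp hp5 (hyp i₀).vp I (p ^ (s₀ + 1) * N₀ * p ^ 2) hN
    (fun i d => nu i d * (w⁻¹ (d : ZMod p)) ^ 2)
    (by
      intro i d
      rw [map_mul, map_pow]
      exact mul_le_one' ((hyp i).nuv d) (pow_le_one' (chi_val V p w⁻¹ _) 2))
    (by
      intro i
      simp [(hyp i).nu1])
    (by
      intro i d d' hd
      have e1 : nu i d = nu i d' := hper1 i d d' (Dvd.dvd.trans (by
        push_cast
        exact Dvd.intro _ rfl) hd)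
      have e2 : (d : ZMod p) = (d' : ZMod p) := by
        rw [ZMod.intCast_eq_intCast_iff_dvd_sub]
        refine (dvd_sub_comm).1 (Dvd.dvd.trans ?_ hd)
        push_cast
        exact Dvd.dvd.mul_left (dvd_pow_self _ two_ne_zero) _
      simp only [e1, e2])
    (by
      intro i d
      exact (hnua p V N₀ s₀ (h i) (a i) (nu i) (P i) (-1) (hyp i) d).mul
        ((chi_alg p w⁻¹ _).pow 2))
    (fun i => Bt p w (sgnPart (-1) (P i 0)))
    (fun i => hsym p hpp _ hN1 (nu i) (hyp i).nu1 (hper1 i) _ (hS i) w)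
    (by
      intro i x
      rw [Bt_inf p hp0]
      refine alg_sum _ _ fun c => ?_
      rw [sgn_inf]
      exact (chi_alg p w _).mul (((hyp i).alg _ _).sub ((hyp i).alg _ _)))
    (by
      intro i x
      rw [Bt_inf p hp0, Bt_inf p hp0]
      have h1 := sum_w p hp0 w hw (fun y : ℚ => sgnPart (-1) (P i 0) ∞ (y : OnePoint ℚ)) (hW i) x
      have h2 : ∑ c ∈ range p, w (c : ZMod p) *
          sgnPart (-1) (P i 0) ∞ ((-x + (c : ℚ) / p : ℚ) : OnePoint ℚ) =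
          - ∑ c ∈ range p, w (c : ZMod p) *
            sgnPart (-1) (P i 0) ∞ ((x - (c : ℚ) / p : ℚ) : OnePoint ℚ) := by
        rw [← sum_neg_distrib]
        refine sum_congr rfl fun c _ => ?_
        have e : (-x + (c : ℚ) / p : ℚ) = -(x - (c : ℚ) / p) := by ring
        rw [e, hodd]
        ring
      rw [h2, h1, neg_neg])
    (by
      intro i x
      simp only [Bt_inf p hp0]
      rw [sum_comm]
      refine sum_eq_zero fun c _ => ?_
      rw [← mul_sum]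
      have h0 : ∑ k ∈ range l, sgnPart (-1) (P i 0) ∞
          ((x + (k : ℚ) / l + (c : ℚ) / p : ℚ) : OnePoint ℚ) = 0 := by
        simp only [sgn_inf]
        rw [sum_sub_distrib]
        have h1 : ∑ k ∈ range l, P i 0 ∞ ((x + (k : ℚ) / l + (c : ℚ) / p : ℚ) : OnePoint ℚ) = 0 := by
          have := hdep i (x + (c : ℚ) / p)
          rw [← this]
          refine sum_congr rfl fun k _ => ?_
          rw [show x + (k : ℚ) / l + (c : ℚ) / p = x + (c : ℚ) / p + (k : ℚ) / l by ring]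
        have h2 : ∑ k ∈ range l, P i 0 ∞
            ((-(x + (k : ℚ) / l + (c : ℚ) / p) : ℚ) : OnePoint ℚ) = 0 := by
          have := hdep i (-(x + (c : ℚ) / p) - ((l : ℚ) - 1) / l)
          rw [← this, ← sum_range_reflect]
          refine sum_congr rfl fun k hk' => ?_
          have hkl : k < l := mem_range.1 hk'
          have hc : ((l - 1 - k : ℕ) : ℚ) = (l : ℚ) - 1 - k := by
            rw [Nat.cast_sub (by omega), Nat.cast_sub (by omega)]
            simp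
          rw [hc]
          congr 2
          ring
        rw [h1, h2, sub_zero]
      rw [h0, mul_zero])
    (by
      intro i N' hN' hd
      exact hnb p V N₀ s₀ (h i) (a i) (nu i) (P i) (hyp i) w hw N' hN'
        ((Dvd.intro _ rfl).trans hd))
    r hr
  refine ⟨C, fun n0 => ?_⟩
  obtain ⟨n, hn, hn2, hfin⟩ := hC n0
  refine ⟨n, hn, hn2, fun j hj i ψ hψ1 hψ2 => ?_⟩
  have hv := hfin j hj i ψ hψ1 hψ2
  have hm0 : l ^ (n + j) ≠ 0 := by
    rcases hG with ⟨hl, -, -⟩ | ⟨hl, -, -⟩ <;> rw [hl] <;> positivity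
  have hm0' : ((l ^ (n + j) : ℕ) : ℚ) ≠ 0 := Nat.cast_ne_zero.2 hm0
  -- the sum of the odd part
  set S : ℂ := ∑ b ∈ range (l ^ (n + j)), ∑ c ∈ range p, ψ b * w (c : ZMod p) *
      P i 0 ∞ (((b : ℚ) / (l : ℚ) ^ (n + j) + (c : ℚ) / p : ℚ) : OnePoint ℚ) with hSdef
  have hS' : ∑ b ∈ range (l ^ (n + j)), ∑ c ∈ range p, ψ b * w (c : ZMod p) *
      P i 0 ∞ ((-((b : ℚ) / (l : ℚ) ^ (n + j) + (c : ℚ) / p) : ℚ) : OnePoint ℚ) = - S := by
    have hin : ∀ b : ℕ, ∑ c ∈ range p, ψ b * w (c : ZMod p) *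
        P i 0 ∞ ((-((b : ℚ) / (l : ℚ) ^ (n + j) + (c : ℚ) / p) : ℚ) : OnePoint ℚ) =
        - ∑ c ∈ range p, ψ b * w (c : ZMod p) *
          P i 0 ∞ ((-((b : ℚ) / (l : ℚ) ^ (n + j)) + (c : ℚ) / p : ℚ) : OnePoint ℚ) := by
      intro b
      have h1 := sum_w p hp0 w hw (fun y : ℚ => P i 0 ∞ (y : OnePoint ℚ)) (hPt i)
        (-((b : ℚ) / (l : ℚ) ^ (n + j)))
      have h2 := congrArg (fun z => ψ b * z) h1
      simp only [mul_neg, mul_sum] at h2
      simp only [mul_assoc]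
      rw [← h2]
      refine sum_congr rfl fun c _ => ?_
      congr 3
      congr 1
      ring
    rw [sum_congr rfl fun b _ => hin b, sum_neg_distrib, hSdef]
    congr 1
    have h := sum_neg (l ^ (n + j)) (fun b : ℤ => ∑ c ∈ range p,
      ψ ((b : ℤ) : ZMod (l ^ (n + j))) * w (c : ZMod p) *
      P i 0 ∞ (((b : ℚ) / (l : ℚ) ^ (n + j) + (c : ℚ) / p : ℚ) : OnePoint ℚ)) (by
      intro b
      have e1 : (((b + (l ^ (n + j) : ℕ) : ℤ)) : ZMod (l ^ (n + j))) =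
          ((b : ℤ) : ZMod (l ^ (n + j))) := by
        rw [Int.cast_add, Int.cast_natCast, ZMod.natCast_self, add_zero]
      have e2 : ∀ c : ℕ, ((b + (l ^ (n + j) : ℕ) : ℤ) : ℚ) / (l : ℚ) ^ (n + j) + (c : ℚ) / p =
          ((b : ℚ) / (l : ℚ) ^ (n + j) + (c : ℚ) / p) + ((1 : ℤ) : ℚ) := by
        intro c
        have hl' : (l : ℚ) ^ (n + j) ≠ 0 := by
          have := hm0'
          push_cast at this
          exact this
        have : ((b + (l ^ (n + j) : ℕ) : ℤ) : ℚ) / (l : ℚ) ^ (n + j) =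
            (b : ℚ) / (l : ℚ) ^ (n + j) + 1 := by
          push_cast
          rw [add_div, div_self hl']
        rw [this]
        push_cast
        ring
      refine sum_congr rfl fun c _ => ?_
      rw [e1, e2, hPt])
    simp only [Int.cast_natCast] at h
    rw [← h]
    refine sum_congr rfl fun b _ => ?_
    refine sum_congr rfl fun c _ => ?_
    have e1 : ψ (((-(b : ℤ) : ℤ)) : ZMod (l ^ (n + j))) = ψ (b : ZMod (l ^ (n + j))) := by
      rw [show (((-(b : ℤ) : ℤ)) : ZMod (l ^ (n + j))) = (-1) * (b : ZMod (l ^ (n + j))) by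
        push_cast; ring, map_mul, hψ1, one_mul]
    have e2 : ((-(b : ℤ) : ℤ) : ℚ) / (l : ℚ) ^ (n + j) + (c : ℚ) / p =
        -((b : ℚ) / (l : ℚ) ^ (n + j)) + (c : ℚ) / p := by
      push_cast
      ring
    rw [e1, e2]
  have hsum : ∑ b ∈ range (l ^ (n + j)), ψ b *
      Bt p w (sgnPart (-1) (P i 0)) ∞ (((b : ℚ) / (l : ℚ) ^ (n + j) : ℚ) : OnePoint ℚ) = 2 * S := by
    have h1 : ∀ b : ℕ, ψ b *
        Bt p w (sgnPart (-1) (P i 0)) ∞ (((b : ℚ) / (l : ℚ) ^ (n + j) : ℚ) : OnePoint ℚ) =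
        ∑ c ∈ range p, ψ b * w (c : ZMod p) *
          P i 0 ∞ (((b : ℚ) / (l : ℚ) ^ (n + j) + (c : ℚ) / p : ℚ) : OnePoint ℚ) -
        ∑ c ∈ range p, ψ b * w (c : ZMod p) *
          P i 0 ∞ ((-((b : ℚ) / (l : ℚ) ^ (n + j) + (c : ℚ) / p) : ℚ) : OnePoint ℚ) := by
      intro b
      rw [Bt_inf p hp0, mul_sum, ← sum_sub_distrib]
      refine sum_congr rfl fun c _ => ?_
      rw [sgn_inf]
      ring
    rw [sum_congr rfl fun b _ => h1 b, sum_sub_distrib, hS', hSdef]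
    ring
  have hv' : 1 ≤ V.valuation (2 * S) := by
    rw [← hsum]
    exact hv
  rw [map_mul] at hv'
  have hv2 : V.valuation (2 : ℂ) ≤ 1 := by
    rw [ValuationSubring.valuation_le_one_iff]
    exact ofNat_mem V 2
  calc (1 : _) ≤ V.valuation 2 * V.valuation S := hv'
    _ ≤ 1 * V.valuation S := mul_le_mul_left hv2 _
    _ = V.valuation S := one_mul _


theorem a_NB : S_NB :=
  t_NB tx_HK (tx_BD tx_MAX tx_ALB) t_SET t_REL t_H1G (t_UPR tx_HK)

theorem a_TWB : S_TWB := t_TWB TWR.a_TW2 tx_HK t_SYM t_NUA a_NB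

theorem a_TWB3 : S_TWB3 := m_TWB3 TWR.a_TW3 tx_HK t_SYM t_NUA a_NB

end

end Pool.Agent.TWB


end

section

/-!
# TWB, all large levels (helper34; the proof is that of `m_TWB3`, which is helper88's proof of `t_TWB`)

`a_TWB4 : S_TWB4`: there is `n0` such that ALL levels `n ≥ n0` are good for all symbols of the family and all
even characters of conductor `l^n`.
-/

set_option autoImplicit false

namespace Pool.Agent.TWB

open _root_.MU3 Pool.Agent.MuSym Pool.Agent.MUXH OnePoint Finset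

noncomputable section

/-- TWB4: `S_TWB` for all large levels. -/
def S_TWB4 : Prop := ∀ (l g h' : ℕ) (_ : TWR.Gen l g h') (V : ValuationSubring ℂ) (p : ℕ)
  (_ : 5 ≤ p) (I : Type) [Finite I] (N₀ s₀ : ℕ) (h : I → ℕ) (a : I → ℂ) (nu : I → ℤ → ℂ)
  (P : I → ℕ → OnePoint ℚ → OnePoint ℚ → ℂ)
  (_ : ∀ i, HypA p V N₀ s₀ (h i) (a i) (nu i) (P i) (-1))
  (_ : ∀ i (x : ℚ), ∑ k ∈ range l, P i 0 ∞ ((x + (k : ℚ) / l : ℚ) : OnePoint ℚ) = 0)
  (w : DirichletCharacter ℂ p) (_ : w (-1) = -1),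
  ∃ n0 : ℕ, ∀ n, n0 ≤ n → ∀ i,
    ∀ ψ : DirichletCharacter ℂ (l ^ n), ψ (-1) = 1 →
    ψ (1 + (l : ZMod (l ^ n)) ^ (n - 1)) ≠ 1 →
    1 ≤ V.valuation (∑ b ∈ range (l ^ n), ∑ c ∈ range p, ψ b * w (c : ZMod p) *
      P i 0 ∞ (((b : ℚ) / (l : ℚ) ^ n + (c : ℚ) / p : ℚ) : OnePoint ℚ))

open TWBAux

theorem m_TWB4 (tw2 : TWR.S_TW4) (hk : Sx_HK) (hsym : S_SYM) (hnua : S_NUA) (hnb : S_NB) : S_TWB4 := by
  intro l g h' hG V p hp5 I _ N₀ s₀ h a nu P hyp hdep w hw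
  rcases isEmpty_or_nonempty I with hI | ⟨⟨i₀⟩⟩
  · exact ⟨0, fun n _ i => (hI.false i).elim⟩
  have hpp : p.Prime := (hyp i₀).pp
  have hp0 : p ≠ 0 := hpp.ne_zero
  have _nz : NeZero p := ⟨hp0⟩
  have hN1 : p ^ (s₀ + 1) * N₀ ≠ 0 := mul_ne_zero (pow_ne_zero _ hp0) (hyp i₀).N0
  have hN : p ^ (s₀ + 1) * N₀ * p ^ 2 ≠ 0 := mul_ne_zero hN1 (pow_ne_zero _ hp0)
  have hdvd1 : ((p * N₀ : ℕ) : ℤ) ∣ ((p ^ (s₀ + 1) * N₀ : ℕ) : ℤ) := by
    refine Int.natCast_dvd_natCast.2 (Nat.mul_dvd_mul_right (dvd_pow_self p (Nat.succ_ne_zero _)) N₀)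
  have hper1 : ∀ i (d d' : ℤ), ((p ^ (s₀ + 1) * N₀ : ℕ) : ℤ) ∣ d - d' → nu i d = nu i d' :=
    fun i d d' hd => (hyp i).nuper d d' (hdvd1.trans hd)
  have hS : ∀ i, IsSym (p ^ (s₀ + 1) * N₀) (nu i) (sgnPart (-1) (P i 0)) := fun i =>
    (hk 1 le_rfl _ (nu i) (P i 0) (P i 0) ((hyp i).sym 0) (hyp i).nu1 (-1)).2.1
  have hW : ∀ i (y : ℚ) (k : ℤ), sgnPart (-1) (P i 0) ∞ ((y + k : ℚ) : OnePoint ℚ) =
      sgnPart (-1) (P i 0) ∞ (y : OnePoint ℚ) := fun i =>
    (hk 1 le_rfl _ (nu i) (P i 0) (P i 0) ((hyp i).sym 0) (hyp i).nu1 (-1)).1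
  have hPt : ∀ i (y : ℚ) (k : ℤ), P i 0 ∞ ((y + k : ℚ) : OnePoint ℚ) =
      P i 0 ∞ (y : OnePoint ℚ) := fun i y k =>
    tr_P hk _ (nu i) (P i 0) ((hyp i).sym 0) (hyp i).nu1 y k
  have hodd : ∀ i (y : ℚ), sgnPart (-1) (P i 0) ∞ ((-y : ℚ) : OnePoint ℚ) =
      - sgnPart (-1) (P i 0) ∞ (y : OnePoint ℚ) := by
    intro i y
    rw [sgn_inf, sgn_inf, neg_neg]
    ring
  obtain ⟨C, hC⟩ := tw2 l g h' hG V p hpp hp5 (hyp i₀).vp I (p ^ (s₀ + 1) * N₀ * p ^ 2) hN
    (fun i d => nu i d * (w⁻¹ (d : ZMod p)) ^ 2)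
    (by
      intro i d
      rw [map_mul, map_pow]
      exact mul_le_one' ((hyp i).nuv d) (pow_le_one' (chi_val V p w⁻¹ _) 2))
    (by
      intro i
      simp [(hyp i).nu1])
    (by
      intro i d d' hd
      have e1 : nu i d = nu i d' := hper1 i d d' (Dvd.dvd.trans (by
        push_cast
        exact Dvd.intro _ rfl) hd)
      have e2 : (d : ZMod p) = (d' : ZMod p) := by
        rw [ZMod.intCast_eq_intCast_iff_dvd_sub]
        refine (dvd_sub_comm).1 (Dvd.dvd.trans ?_ hd)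
        push_cast
        exact Dvd.dvd.mul_left (dvd_pow_self _ two_ne_zero) _
      simp only [e1, e2])
    (by
      intro i d
      exact (hnua p V N₀ s₀ (h i) (a i) (nu i) (P i) (-1) (hyp i) d).mul
        ((chi_alg p w⁻¹ _).pow 2))
    (fun i => Bt p w (sgnPart (-1) (P i 0)))
    (fun i => hsym p hpp _ hN1 (nu i) (hyp i).nu1 (hper1 i) _ (hS i) w)
    (by
      intro i x
      rw [Bt_inf p hp0]
      refine alg_sum _ _ fun c => ?_
      rw [sgn_inf]
      exact (chi_alg p w _).mul (((hyp i).alg _ _).sub ((hyp i).alg _ _)))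
    (by
      intro i x
      rw [Bt_inf p hp0, Bt_inf p hp0]
      have h1 := sum_w p hp0 w hw (fun y : ℚ => sgnPart (-1) (P i 0) ∞ (y : OnePoint ℚ)) (hW i) x
      have h2 : ∑ c ∈ range p, w (c : ZMod p) *
          sgnPart (-1) (P i 0) ∞ ((-x + (c : ℚ) / p : ℚ) : OnePoint ℚ) =
          - ∑ c ∈ range p, w (c : ZMod p) *
            sgnPart (-1) (P i 0) ∞ ((x - (c : ℚ) / p : ℚ) : OnePoint ℚ) := by
        rw [← sum_neg_distrib]
        refine sum_congr rfl fun c _ => ?_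
        have e : (-x + (c : ℚ) / p : ℚ) = -(x - (c : ℚ) / p) := by ring
        rw [e, hodd]
        ring
      rw [h2, h1, neg_neg])
    (by
      intro i x
      simp only [Bt_inf p hp0]
      rw [sum_comm]
      refine sum_eq_zero fun c _ => ?_
      rw [← mul_sum]
      have h0 : ∑ k ∈ range l, sgnPart (-1) (P i 0) ∞
          ((x + (k : ℚ) / l + (c : ℚ) / p : ℚ) : OnePoint ℚ) = 0 := by
        simp only [sgn_inf]
        rw [sum_sub_distrib]
        have h1 : ∑ k ∈ range l, P i 0 ∞ ((x + (k : ℚ) / l + (c : ℚ) / p : ℚ) : OnePoint ℚ) = 0 := by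
          have := hdep i (x + (c : ℚ) / p)
          rw [← this]
          refine sum_congr rfl fun k _ => ?_
          rw [show x + (k : ℚ) / l + (c : ℚ) / p = x + (c : ℚ) / p + (k : ℚ) / l by ring]
        have h2 : ∑ k ∈ range l, P i 0 ∞
            ((-(x + (k : ℚ) / l + (c : ℚ) / p) : ℚ) : OnePoint ℚ) = 0 := by
          have := hdep i (-(x + (c : ℚ) / p) - ((l : ℚ) - 1) / l)
          rw [← this, ← sum_range_reflect]
          refine sum_congr rfl fun k hk' => ?_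
          have hkl : k < l := mem_range.1 hk'
          have hc : ((l - 1 - k : ℕ) : ℚ) = (l : ℚ) - 1 - k := by
            rw [Nat.cast_sub (by omega), Nat.cast_sub (by omega)]
            simp
          rw [hc]
          congr 2
          ring
        rw [h1, h2, sub_zero]
      rw [h0, mul_zero])
    (by
      intro i N' hN' hd
      exact hnb p V N₀ s₀ (h i) (a i) (nu i) (P i) (hyp i) w hw N' hN'
        ((Dvd.intro _ rfl).trans hd))
    
  refine ⟨C, fun n hn i ψ hψ1 hψ2 => ?_⟩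
  have hv := hC n hn i ψ hψ1 hψ2
  have hm0 : l ^ n ≠ 0 := by
    rcases hG with ⟨hl, -, -⟩ | ⟨hl, -, -⟩ <;> rw [hl] <;> positivity
  have hm0' : ((l ^ n : ℕ) : ℚ) ≠ 0 := Nat.cast_ne_zero.2 hm0
  -- the sum of the odd part
  set S : ℂ := ∑ b ∈ range (l ^ n), ∑ c ∈ range p, ψ b * w (c : ZMod p) *
      P i 0 ∞ (((b : ℚ) / (l : ℚ) ^ n + (c : ℚ) / p : ℚ) : OnePoint ℚ) with hSdef
  have hS' : ∑ b ∈ range (l ^ n), ∑ c ∈ range p, ψ b * w (c : ZMod p) *
      P i 0 ∞ ((-((b : ℚ) / (l : ℚ) ^ n + (c : ℚ) / p) : ℚ) : OnePoint ℚ) = - S := by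
    have hin : ∀ b : ℕ, ∑ c ∈ range p, ψ b * w (c : ZMod p) *
        P i 0 ∞ ((-((b : ℚ) / (l : ℚ) ^ n + (c : ℚ) / p) : ℚ) : OnePoint ℚ) =
        - ∑ c ∈ range p, ψ b * w (c : ZMod p) *
          P i 0 ∞ ((-((b : ℚ) / (l : ℚ) ^ n) + (c : ℚ) / p : ℚ) : OnePoint ℚ) := by
      intro b
      have h1 := sum_w p hp0 w hw (fun y : ℚ => P i 0 ∞ (y : OnePoint ℚ)) (hPt i)
        (-((b : ℚ) / (l : ℚ) ^ n))
      have h2 := congrArg (fun z => ψ b * z) h1
      simp only [mul_neg, mul_sum] at h2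
      simp only [mul_assoc]
      rw [← h2]
      refine sum_congr rfl fun c _ => ?_
      congr 3
      congr 1
      ring
    rw [sum_congr rfl fun b _ => hin b, sum_neg_distrib, hSdef]
    congr 1
    have h := sum_neg (l ^ n) (fun b : ℤ => ∑ c ∈ range p,
      ψ ((b : ℤ) : ZMod (l ^ n)) * w (c : ZMod p) *
      P i 0 ∞ (((b : ℚ) / (l : ℚ) ^ n + (c : ℚ) / p : ℚ) : OnePoint ℚ)) (by
      intro b
      have e1 : (((b + (l ^ n : ℕ) : ℤ)) : ZMod (l ^ n)) =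
          ((b : ℤ) : ZMod (l ^ n)) := by
        rw [Int.cast_add, Int.cast_natCast, ZMod.natCast_self, add_zero]
      have e2 : ∀ c : ℕ, ((b + (l ^ n : ℕ) : ℤ) : ℚ) / (l : ℚ) ^ n + (c : ℚ) / p =
          ((b : ℚ) / (l : ℚ) ^ n + (c : ℚ) / p) + ((1 : ℤ) : ℚ) := by
        intro c
        have hl' : (l : ℚ) ^ n ≠ 0 := by
          have := hm0'
          push_cast at this
          exact this
        have : ((b + (l ^ n : ℕ) : ℤ) : ℚ) / (l : ℚ) ^ n =
            (b : ℚ) / (l : ℚ) ^ n + 1 := by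
          push_cast
          rw [add_div, div_self hl']
        rw [this]
        push_cast
        ring
      refine sum_congr rfl fun c _ => ?_
      rw [e1, e2, hPt])
    simp only [Int.cast_natCast] at h
    rw [← h]
    refine sum_congr rfl fun b _ => ?_
    refine sum_congr rfl fun c _ => ?_
    have e1 : ψ (((-(b : ℤ) : ℤ)) : ZMod (l ^ n)) = ψ (b : ZMod (l ^ n)) := by
      rw [show (((-(b : ℤ) : ℤ)) : ZMod (l ^ n)) = (-1) * (b : ZMod (l ^ n)) by
        push_cast; ring, map_mul, hψ1, one_mul]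
    have e2 : ((-(b : ℤ) : ℤ) : ℚ) / (l : ℚ) ^ n + (c : ℚ) / p =
        -((b : ℚ) / (l : ℚ) ^ n) + (c : ℚ) / p := by
      push_cast
      ring
    rw [e1, e2]
  have hsum : ∑ b ∈ range (l ^ n), ψ b *
      Bt p w (sgnPart (-1) (P i 0)) ∞ (((b : ℚ) / (l : ℚ) ^ n : ℚ) : OnePoint ℚ) = 2 * S := by
    have h1 : ∀ b : ℕ, ψ b *
        Bt p w (sgnPart (-1) (P i 0)) ∞ (((b : ℚ) / (l : ℚ) ^ n : ℚ) : OnePoint ℚ) =
        ∑ c ∈ range p, ψ b * w (c : ZMod p) *
          P i 0 ∞ (((b : ℚ) / (l : ℚ) ^ n + (c : ℚ) / p : ℚ) : OnePoint ℚ) -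
        ∑ c ∈ range p, ψ b * w (c : ZMod p) *
          P i 0 ∞ ((-((b : ℚ) / (l : ℚ) ^ n + (c : ℚ) / p) : ℚ) : OnePoint ℚ) := by
      intro b
      rw [Bt_inf p hp0, mul_sum, ← sum_sub_distrib]
      refine sum_congr rfl fun c _ => ?_
      rw [sgn_inf]
      ring
    rw [sum_congr rfl fun b _ => h1 b, sum_sub_distrib, hS', hSdef]
    ring
  have hv' : 1 ≤ V.valuation (2 * S) := by
    rw [← hsum]
    exact hv
  rw [map_mul] at hv'
  have hv2 : V.valuation (2 : ℂ) ≤ 1 := by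
    rw [ValuationSubring.valuation_le_one_iff]
    exact ofNat_mem V 2
  calc (1 : _) ≤ V.valuation 2 * V.valuation S := hv'
    _ ≤ 1 * V.valuation S := mul_le_mul_left hv2 _
    _ = V.valuation S := one_mul _


theorem a_TWB4 : S_TWB4 := m_TWB4 TWR.a_TW4 tx_HK t_SYM t_NUA a_NB

end

end Pool.Agent.TWB


end
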