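import Pool.Agent.MVF.C014
import Pool.Agent.MVF.C015
import Pool.Agent.MVF.C016
import Pool.Agent.MVF.C019
import Pool.Agent.MVF.C021
import Pool.Agent.MVF.C032
import Pool.Agent.MVF.C033
import Pool.Agent.MVF.C087
import Pool.Agent.MVF.C090
import Pool.Agent.MVF.C103
import Pool.Agent.MVF.C111
import Pool.Agent.MVF.C119
import Pool.Agent.TWM.C05

/-! Parts: TWT.StT1, TWT.ADV, TWT.EVH, TWT.PRD, TWT.PTS, TWT.TAF, TWT.THT, TWT.UEX, TWT.UQN, TWT.StT1b, TWT.KEYA, TWT.MUG, TWT.PIS, TWT.PTA, TWT.UNRG -/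

section

/-!
# TWT, block A (helper3): `∏_(R ∈ E[P] - 0) Θ(z + R) / Θ(z)^(p-1)` to the first order

`W : y² = x³ + a₂ x² + a₄ x + a₆`, `t = -x/y`, `w = -1/y = t³ u` with `u = 1 + a₂ t² u + a₄ t⁴ u² + a₆ t⁶ u³`. The point `(x, y) + (point of parameter T)` has the
coordinates `xF, yF` (rational functions, regular at `T = 0`), and `q dX/dT = 2 Y`, `q dY/dT = 3 X² + 2 a₂ X + a₄`, `q = qF` (invariance of `dx/2y`). So modulo `T^p`
`f(z + T) = Σ_(k<p) (D^k f)(z)/k! λ(T)^k`, `D x = 2 y`, `D y = 3 x² + 2 a₂ x + a₄`, `λ' = 1/q`: only `1, .., p - 1` have to be invertible. All of this is algebra in `A⟦T⟧` and is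
evaluated in the ring `V / (t^p)`.

Every `def S_X : Prop` below is the statement of a module, which proves `theorem t_X : S_X` (or `theorem t_X (h : S_Y) : S_X` with the statements named
under USES) in `Pool/Agent/TWT/X.lean`, namespace `Pool.Agent.TWT` (`StT1b.lean` has the last three and uses `DefsT.lean`). Proved facts of block R of MUX (`Sx_..`, `Sq_..`): `Pool/Agent/MUX/RQ0.lean`, theorems
`Pool.Agent.MUXV.x_POL`, `x_HAL`, `x_R2`, `x_TRA`, `x_MIN`, `x_MUN`, `x_MLT`, `q_ISQ`, `q_AEL`, `q_VQI`, `q_YUN`, ..; `Pool.Agent.MU3B.b_TDL` in `Pool/Agent/MU3/BAll.lean`. Module files may import them.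
-/

set_option autoImplicit false

open WeierstrassCurve Polynomial PowerSeries

namespace Pool.Agent.TWT

open _root_.MU3 Pool.Agent.MU3A Pool.Agent.MU3B Pool.Agent.MUX Pool.Agent.MUXU
open Pool.Agent.MUXV (GR InK tX)

noncomputable section

/-! ## Definitions -/

section
variable {A : Type} [CommRing A]

/-- `q = 1 - a₂ T² - 2 a₄ T⁴ U - 3 a₆ T⁶ U²` -/
def qF (a2 a4 a6 T U : A) : A := 1 - a2 * T ^ 2 - 2 * a4 * T ^ 4 * U - 3 * a6 * T ^ 6 * U ^ 2

/-- the equation of `U = w / T³` -/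
def EqU (a2 a4 a6 T U : A) : Prop :=
  U = 1 + a2 * T ^ 2 * U + a4 * T ^ 4 * U ^ 2 + a6 * T ^ 6 * U ^ 3

/-- the numerator -/
def nF (a2 a4 a6 x y T U : A) : A :=
  2 * y + T * (a4 + 2 * a2 * x + 3 * x ^ 2) + T ^ 3 * U * (a6 + y ^ 2 - a2 * x ^ 2 - 2 * x ^ 3)

/-- the first coordinate of `(x, y) + (T)`; `e (1 - x T² U) = 1` -/
def xF (a2 a4 a6 x y T U e : A) : A := x + T * U * nF a2 a4 a6 x y T U * e ^ 2

/-- the second coordinate of `(x, y) + (T)` -/
def yF (a2 a4 a6 x y T U e : A) : A :=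
  -y + (1 + y * T ^ 3 * U) * U * nF a2 a4 a6 x y T U * e ^ 3

/-- the derivation `D x = 2 y`, `D y = 3 x² + 2 a₂ x + a₄` of `A[x, y]` (`x = X 0`, `y = X 1`) -/
def dW (a2 a4 : A) : Derivation A (MvPolynomial (Fin 2) A) (MvPolynomial (Fin 2) A) :=
  MvPolynomial.mkDerivation A ![2 * MvPolynomial.X 1,
    3 * MvPolynomial.X 0 ^ 2 + 2 * MvPolynomial.C a2 * MvPolynomial.X 0 + MvPolynomial.C a4]

/-- the truncated logarithm: `λ = Σ_(0<j<p) κ_(j-1)/j T^j` -/
def lamF (p : ℕ) (κ : A⟦X⟧) : A⟦X⟧ :=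
  PowerSeries.mk fun j => if 0 < j ∧ j < p then PowerSeries.coeff (j - 1) κ * Ring.inverse (j : A)
    else 0

end

/-- `Σ_(j<p) lam_j t^j` -/
def vpi (lam : ℕ → ℂ) (p : ℕ) (t : ℂ) : ℂ := ∑ j ∈ Finset.range p, lam j * t ^ j

/-- Taylor expansion modulo `t^p` at all points `z` outside the kernel of reduction, `t = t(R)`, `R` in the kernel of reduction;
`a2, a4` are the coefficients of the curve. -/
structure HasTay (V : ValuationSubring ℂ) (L : PeriodPair) (X Y : ℂ → ℂ) (p : ℕ) (a2 a4 : V)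
    (lam : ℕ → ℂ) : Prop where
  lam0 : lam 0 = 0
  lam1 : lam 1 = 1
  int : ∀ j, V.valuation (lam j) ≤ 1
  tay : ∀ R, InK V L X R → R ∉ L.lattice → ∀ z, ¬ InK V L X z → ∀ f : MvPolynomial (Fin 2) V,
    V.valuation (MvPolynomial.aeval ![X (z + R), Y (z + R)] f -
      ∑ k ∈ Finset.range p, MvPolynomial.aeval ![X z, Y z] ((dW a2 a4)^[k] f) / (k.factorial : ℂ) *
        vpi lam p (tX X Y R) ^ k) ≤ V.valuation (tX X Y R) ^ p

/-! ## Formal part -/

/-- (EVH) evaluation of power series at an element with `s^n = 0`.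

PROOF. Define `φ F` by the third formula. `φ 1 = 1`, additivity: clear (if `n = 0` then `1 = 0` in `S`). Multiplicativity: `f(coeff k (F G)) s^k = Σ_(i+j=k) f(F_i) s^i f(G_j) s^j` (`PowerSeries.coeff_mul`), and
`(Σ_(i<n) ..)(Σ_(j<n) ..) = Σ_(i,j<n) f(F_i) f(G_j) s^(i+j)`; the terms with `i + j ≥ n` are `0`. (`Finset.Nat.sum_antidiagonal_eq_sum_range_succ`, or sum over `range n ×ˢ range n` filtered by `i + j < n`; or `Finset.range_mul`-free: use `PowerSeries.trunc n`: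
`φ F = (trunc n F).eval₂ f s`, `trunc n (F * G)` and `(trunc n F) * (trunc n G)` have the same coefficients below `n`, and `eval₂` of `X^n * r` is `0`.) -/
def S_EVH : Prop :=
  ∀ (A S : Type) [CommRing A] [CommRing S] (f : A →+* S) (s : S) (n : ℕ), s ^ n = 0 → 2 ≤ n →
    ∃ φ : A⟦X⟧ →+* S, φ PowerSeries.X = s ∧ (∀ a, φ (PowerSeries.C a) = f a) ∧
      ∀ F, φ F = ∑ k ∈ Finset.range n, f (PowerSeries.coeff k F) * s ^ k

/-- (UEX) existence of the series `U`.

PROOF. `Φ(F) = 1 + a₂ T² F + a₄ T⁴ F² + a₆ T⁶ F³`. If `F ≡ G` modulo `T^k` then `Φ(F) ≡ Φ(G)` modulo `T^(k+2)` (`Φ(F) - Φ(G) = T² (F - G)(..)`). `F_0 = 1`, `F_(n+1) = Φ(F_n)`: `F_(n+1) ≡ F_n` modulo `T^(2n+2)` (induction), so for `m ≥ n`: `coeff n F_m = coeff n F_n`.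
`U := mk (fun n => coeff n F_n)`; `U ≡ F_m` modulo `T^(m+1)` for all `m`, so `Φ(U) ≡ Φ(F_m) = F_(m+1) ≡ U` modulo `T^(m+1)` for all `m`. (`PowerSeries.X_pow_dvd_iff`.) -/
def S_UEX : Prop :=
  ∀ (A : Type) [CommRing A] (a2 a4 a6 : A), ∃ U : A⟦X⟧, PowerSeries.constantCoeff U = 1 ∧
    EqU (PowerSeries.C a2) (PowerSeries.C a4) (PowerSeries.C a6) PowerSeries.X U

/-- (UQN) uniqueness of `U` for nilpotent `s`.

PROOF. `δ = u - u'`: `δ = s² c δ` with `c = a₂ + a₄ s² (u + u') + a₆ s⁴ (u² + u u' + u'²)`; `s² c` is nilpotent, so `1 - s² c` is a unit (`IsNilpotent.isUnit_one_sub`). -/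
def S_UQN : Prop :=
  ∀ (S : Type) [CommRing S] (a2 a4 a6 s u u' : S) (n : ℕ), s ^ n = 0 → EqU a2 a4 a6 s u →
    EqU a2 a4 a6 s u' → u = u'

/-- (ODE) the differential equations.

PROOF. `d = d⁄dX`. Put `T = X`, `s = d U`. From (EqU): `qF s = T (2 a₂ U + 4 a₄ T² U² + 6 a₆ T⁴ U³)`. `D = 1 - x T² U`, `d D = -x (2 T U + T² s)`, `d e = - (d D) e²` (from `e D = 1`), `d nF = (a₄ + 2 a₂ x + 3 x²) + (3 T² U + T³ s)(a₆ + y² - a₂ x² - 2 x³)`.
Then `d xF`, `d yF` by the product rule, and multiply by `qF D³`, `qF D⁴` (units). The two polynomial identities are PROVED (Lean, `linear_combination`) in `Pool/Agent/TWT/Ode0.lean`: `ode1`, `ode2`. -/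
def S_ODE : Prop :=
  ∀ (A : Type) [CommRing A] (a2 a4 a6 x y : A), y ^ 2 = x ^ 3 + a2 * x ^ 2 + a4 * x + a6 →
    ∀ U e κ : A⟦X⟧,
    EqU (PowerSeries.C a2) (PowerSeries.C a4) (PowerSeries.C a6) PowerSeries.X U →
    e * (1 - PowerSeries.C x * PowerSeries.X ^ 2 * U) = 1 →
    κ * qF (PowerSeries.C a2) (PowerSeries.C a4) (PowerSeries.C a6) PowerSeries.X U = 1 →
    ∀ gx gy : A⟦X⟧,
    gx = xF (PowerSeries.C a2) (PowerSeries.C a4) (PowerSeries.C a6) (PowerSeries.C x)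
      (PowerSeries.C y) PowerSeries.X U e →
    gy = yF (PowerSeries.C a2) (PowerSeries.C a4) (PowerSeries.C a6) (PowerSeries.C x)
      (PowerSeries.C y) PowerSeries.X U e →
    d⁄dX A gx = κ * (2 * gy) ∧
    d⁄dX A gy = κ * (3 * gx ^ 2 + 2 * PowerSeries.C a2 * gx + PowerSeries.C a4)

/-- (TAF) the formal Taylor expansion modulo `T^p`.

PROOF. `h_f = aeval ![gx, gy] f`, `x = gx(0)`, `y = gy(0)`, `e_f = Σ_(k<p) C((D^k f)(x, y)/k!) λ^k`, `λ = lamF p κ`. (1) `d h_f = κ h_(D f)`: induction on `f` (`MvPolynomial.induction_on`: constants, sums, product with `X i`; `dW` is a derivation with `dW (X 0) = 2 X 1` and so on: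
`MvPolynomial.mkDerivation_X`). (2) `d λ` has the same coefficients as `κ` below `p - 1` (`(j+1) κ_j/(j+1) = κ_j`, `j + 1 < p` is a unit). `d(λ^k) = k λ^(k-1) d λ`, `k/k! = 1/(k-1)!` for `1 ≤ k < p`, so `d e_f = (d λ) (e_(D f) - C(..) λ^(p-1))`; `λ^(p-1)` has no coefficients below `p - 1` (`λ(0) = 0`).
So `coeff j (d e_f) = coeff j (κ e_(D f))` for `j < p - 1`. (3) Induction on `j` for all `f` simultaneously (strong): `coeff 0`: both are `f(x, y)` (`λ(0) = 0`, `0! = 1`; `constantCoeff` is a ring homomorphism). `(j+1) coeff (j+1) h_f = coeff j (κ h_(Df)) = Σ_(i≤j) κ_(j-i) coeff i h_(D f)`, the same for `e_f`, and `j + 1` is a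
unit for `j + 1 < p` (`PowerSeries.coeff_derivative`). -/
def S_TAF : Prop :=
  ∀ (A : Type) [CommRing A] (p : ℕ), (∀ j : ℕ, 0 < j → j < p → IsUnit (j : A)) →
    ∀ (a2 a4 : A) (gx gy κ : A⟦X⟧), d⁄dX A gx = κ * (2 * gy) →
    d⁄dX A gy = κ * (3 * gx ^ 2 + 2 * PowerSeries.C a2 * gx + PowerSeries.C a4) →
    ∀ (f : MvPolynomial (Fin 2) A) (j : ℕ), j < p →
      PowerSeries.coeff j (MvPolynomial.aeval ![gx, gy] f) =
        PowerSeries.coeff j (∑ k ∈ Finset.range p, PowerSeries.C (MvPolynomial.aeval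
          ![PowerSeries.constantCoeff gx, PowerSeries.constantCoeff gy] ((dW a2 a4)^[k] f) *
            Ring.inverse (k.factorial : A)) * lamF p κ ^ k)

/-- (PRD) the product over the multiples, modulo `p`.

PROOF. `N = p - 1`, `Q = ∏_c rescale c E`, `G = X (d E) E'`. (1) `X d(rescale c E) = rescale c (X d E)` (coefficients `j c^j e_j`), so `X d Q = Q Σ_c rescale c G` (`rescale c E' = (rescale c E)⁻¹`, `rescale` is a ring homomorphism; product rule, induction on the finite set). (2) `coeff j (Σ_c rescale c G) = (Σ_c c^j) g_j`, and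
`p ∣ Σ_(c=1)^(p-1) c^j` for `0 < j < p - 1`, `p ∣ 1 + Σ_c c^(p-1)` (Mathlib: `FiniteField.sum_pow_lt_card_sub_one`, `ZMod.pow_card_sub_one_eq_one`; transfer `ZMod p → A/(p)` or `(p : ℤ) ∣ ..` and cast to `A`). `g_0 = 0`. So `Σ_c rescale c G ≡ -g_N X^N` modulo `(p, X^(N+1))`. (3) Let `q_j = coeff j Q`, `q_0 = 1`.
`coeff j (X d Q) = j q_j = Σ_(i ≤ j) q_(j-i) coeff i (Σ_c rescale c G)`: `p ∣ j q_j` for `0 < j < N`, so `p ∣ q_j` (`j` is prime to `p`: `1 = r j + s p`); and `N q_N ≡ -g_N`, `N ≡ -1`: `q_N ≡ g_N` modulo `p`. -/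
def S_PRD : Prop :=
  ∀ (A : Type) [CommRing A] (p : ℕ), p.Prime → ∀ E E' : A⟦X⟧, PowerSeries.constantCoeff E = 1 →
    E * E' = 1 → ∀ Q G : A⟦X⟧, Q = ∏ c ∈ Finset.Icc 1 (p - 1), PowerSeries.rescale (c : A) E →
    G = ∑ c ∈ Finset.Icc 1 (p - 1),
      PowerSeries.rescale (c : A) (PowerSeries.X * d⁄dX A E * E') →
    PowerSeries.coeff 0 Q = 1 ∧ PowerSeries.coeff 0 G = 0 ∧
    (∀ j, 0 < j → j < p → (p : A) ∣ PowerSeries.coeff j (Q + G)) ∧
    ∀ j, 0 < j → j < p - 1 → (p : A) ∣ PowerSeries.coeff j G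

/-- (KYR) evaluation at `ϖ` modulo an ideal `I` with `ϖ^p, p ϖ ∈ I`. `f c = Θ(z + c R)/Θ(z)`, `g c = (Θ'/Θ)(z + c R)`.

USES EVH, PRD. PROOF. `E = Σ_(k<p) e_k X^k` (`PowerSeries.mk`, zero for `k ≥ p`); `E' ` its inverse (`constantCoeff E = 1`: `PowerSeries.isUnit_iff_constantCoeff` or `invOfUnit`). `S = A ⧸ I`, `φ_c` = (EVH) for `Ideal.Quotient.mk I`, `s = c ϖ`, `n = p`; `φ_c F = φ_1 (rescale c F)`. `φ_c E = f c`, `φ_c (X d E) = c ϖ g_c f_c` by the hypotheses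
(`coeff k (X d E) = k e_k`), so `φ_c (X d E E') = c ϖ g_c f_c φ_c(E') = c ϖ g_c` (`f_c φ_c(E') = 1`). So `φ_1 Q = ∏ f_c`, `φ_1 G = ϖ Σ c g_c` (in `S`). (PRD): `φ_1(Q + G) = Σ_(k<p) coeff k (Q + G) ϖ^k = 1` in `S`, as `p ϖ = 0` there; and `φ_1 G = coeff (p-1) G ϖ^(p-1)`. -/
def S_KYR : Prop :=
  ∀ (A : Type) [CommRing A] (p : ℕ), p.Prime → ∀ (I : Ideal A) (w : A), w ^ p ∈ I → p * w ∈ I →
    ∀ (e f g : ℕ → A), e 0 = 1 →
    (∀ c ∈ Finset.Icc 1 (p - 1), f c - ∑ k ∈ Finset.range p, e k * (c * w) ^ k ∈ I) →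
    (∀ c ∈ Finset.Icc 1 (p - 1),
      c * w * (g c * f c) - ∑ k ∈ Finset.range p, k * e k * (c * w) ^ k ∈ I) →
    ∏ c ∈ Finset.Icc 1 (p - 1), f c - 1 + w * ∑ c ∈ Finset.Icc 1 (p - 1), (c : A) * g c ∈ I ∧
    ∃ r : A, w * ∑ c ∈ Finset.Icc 1 (p - 1), (c : A) * g c - r * w ^ (p - 1) ∈ I

/-! ## Points -/

/-- (PTS) the addition formula.

PROOF. `(x₂, y₂) = (X R, Y R)`, `t = -x₂/y₂`, `v(x₂) v(t)² = 1`, `0 < v t < 1` (`v_tX_lt` of `VX.lean`), `u = 1/(x₂ t²)`, `y₂ = -x₂/t = -1/(t³ u)`. (EqU) is the equation of the curve at `(x₂, y₂)` times `t⁶ u³`. `v(x t² u) < 1`. `x ≠ x₂` (`v x ≤ 1 < v x₂`): addition law (as in `Val.add_near`, `Pool/Agent/MU3/VCong.lean`: there `addX`, `addY`, slope `l = (y - y₂)/(x - x₂)`):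
`x₃ = l² - a₂ - x - x₂`, `y₃ = -(y + l (x₃ - x))`. Insert `x₂ = 1/(t² u)`, `y₂ = -1/(t³ u)`: `l = (1 + y t³ u)/(t (x t² u - 1)) = -(1 + y t³ u) e/t`, `l² - x₂ = (a₂ + a₄ t² u + a₆ t⁴ u² + 2 x + 2 y t u + y² t⁴ u² - x² t² u) e²` (use EqU), which gives the formulas (`field_simp`, `linear_combination (..) * hU + (..) * curve`; `1 - x t² u ≠ 0`, `t, u ≠ 0`). -/
def S_PTS : Prop :=
  ∀ (V : ValuationSubring ℂ) (W : WeierstrassCurve.Affine ℂ) (L : PeriodPair) (X Y : ℂ → ℂ)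
    (ξ : ℂ →+ W.Point), GR V W L X Y ξ → ∀ z R : ℂ, ¬ InK V L X z → InK V L X R →
    R ∉ L.lattice → ∀ t u : ℂ, t = tX X Y R → u = 1 / (X R * t ^ 2) →
      V.valuation u = 1 ∧ EqU W.a₂ W.a₄ W.a₆ t u ∧ V.valuation (1 - X z * t ^ 2 * u) = 1 ∧
      X (z + R) = xF W.a₂ W.a₄ W.a₆ (X z) (Y z) t u (1 / (1 - X z * t ^ 2 * u)) ∧
      Y (z + R) = yF W.a₂ W.a₄ W.a₆ (X z) (Y z) t u (1 / (1 - X z * t ^ 2 * u))

/-- (TAY) the Taylor expansion at the points.

USES EVH, UEX, UQN, ODE, TAF, PTS. PROOF. `A = V` (as a ring; `1, .., p-1` are units of `V`), `a₂, a₄, a₆ ∈ V` (`G.int`). `U` (UEX), `κ` the inverse of `qF` in `V⟦T⟧` (constant coefficient `1`), `lam j = coeff j (lamF p κ)` (`lam 1 = κ_0 = 1`, as `2 ≤ p`). Let `R, z` be given, `t = tX R ∈ V`, `v t < 1`; `I` = the ideal `(t^p)` of `V`, `S = V/I`; `r ∈ I` iff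
`v r ≤ v(t)^p`. `x = X z, y = Y z ∈ V` (`int_X`, `int_Y`), `e` = inverse of `1 - x T² U` in `V⟦T⟧`, `gx, gy` as in (ODE); `gx(0) = x`, `gy(0) = y` (`nF(0) = 2y`, `e(0) = U(0) = 1`). (EVH): `φ : V⟦T⟧ → S`, `T ↦ t`. `φ U` and the class of `u` (PTS) satisfy `EqU` in `S`, so they are equal (UQN); `φ e` and the class of `1/(1 - x t² u)` are inverses of the same element; so by (PTS)
`φ gx = X(z + R)`, `φ gy = Y(z + R)` in `S`. For `f`: `φ (aeval ![gx, gy] f) = ` class of `f(X(z+R), Y(z+R))` (`φ` is a ring homomorphism, constants to constants), and by (TAF) and the third property of (EVH) (only the coefficients below `p` matter) it is `φ(Σ_k C(..) λ^k) = Σ_k (D^k f)(x,y)/k! φ(λ)^k`, `φ(λ) = Σ_(j<p) lam_j t^j`. The inclusion `V → ℂ` is injective and `Ring.inverse (k! : V)` is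
`1/k!`, `aeval ![(x : V), y]` and `aeval ![X z, Y z]` agree (`MvPolynomial.aeval` of a polynomial over `V` in `V`, then in `ℂ`). -/
def S_TAY : Prop :=
  ∀ (V : ValuationSubring ℂ) (W : WeierstrassCurve.Affine ℂ) (L : PeriodPair) (X Y : ℂ → ℂ)
    (ξ : ℂ →+ W.Point), GR V W L X Y ξ → ∀ p : ℕ, 2 ≤ p →
    (∀ j : ℕ, 0 < j → j < p → V.valuation (j : ℂ) = 1) → ∀ a2 a4 : V, (a2 : ℂ) = W.a₂ →
    (a4 : ℂ) = W.a₄ → ∃ lam : ℕ → ℂ, HasTay V L X Y p a2 a4 lam

/-- (ADV) `ϖ(c R) = c ϖ(R)` modulo `τ^p`.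

USES Sq_YUN. PROOF. Let `ϖ(R) = vpi lam p (tX R)`; `v(ϖ(R)) ≤ v(tX R)` (`lam 0 = 0`). (1) ADDITIVITY: `R, R'`, `R + R'` in the kernel of reduction, not in `L`, `v(tX R), v(tX R') ≤ τ < 1`; `v(tX (R + R')) ≤ τ` (`v_tX_add`). `z = L.ω₁/3`: `3 z ∈ L`, `z, 2 z ∉ L`, `v 3 = 1` (`3 < p`), so `z, 2 z` are not in the kernel of reduction (`mem_of_nat_mul`) and `v(Y z) = 1` (YUN).
Let `d_k = (D^k X_0)(z)/k!` (`X_0` the variable `MvPolynomial.X 0`; `d_1 = 2 Y z`), in `V` for `k < p`. Taylor at `z + R` (not in the kernel of reduction) with `R'`, then at `z` with `R` for the polynomials `D^k X_0`, `k < p`: `X(z + R + R') ≡ Σ_(k,j<p) (D^(k+j) X_0)(z)/(k! j!) ϖ(R)^j ϖ(R')^k ≡ Σ_(n<p) d_n (ϖ(R) + ϖ(R'))^n` modulo `τ^p` (the terms with `k + j ≥ p` are `≤ τ^p`; binomial theorem).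
Taylor at `z` with `R + R'`: `≡ Σ d_n ϖ(R + R')^n`. The difference of the two is `(ϖ(R + R') - ϖ(R) - ϖ(R')) (2 Y z + (something of valuation ≤ τ))`. So `v(ϖ(R + R') - ϖ(R) - ϖ(R')) ≤ τ^p`. (2) induction on `c`. (`c R` is in the kernel of reduction: `inK_nat`; `c R ∉ L` is the hypothesis; `v(tX (c R)) = v(tX R)`: `v_tX_nat`.) -/
def S_ADV : Prop :=
  ∀ (V : ValuationSubring ℂ) (W : WeierstrassCurve.Affine ℂ) (L : PeriodPair) (X Y : ℂ → ℂ)
    (ξ : ℂ →+ W.Point), GR V W L X Y ξ → ∀ p : ℕ, 4 ≤ p →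
    (∀ j : ℕ, 0 < j → j < p → V.valuation (j : ℂ) = 1) → ∀ (a2 a4 : V), (a2 : ℂ) = W.a₂ →
    (a4 : ℂ) = W.a₄ → ∀ lam : ℕ → ℂ, HasTay V L X Y p a2 a4 lam →
    ∀ R, InK V L X R → (∀ c : ℕ, 0 < c → c < p → (c : ℂ) * R ∉ L.lattice) →
    ∀ c : ℕ, 0 < c → c < p →
      V.valuation (vpi lam p (tX X Y (c * R)) - c * vpi lam p (tX X Y R)) ≤
        V.valuation (tX X Y R) ^ p

/-- (THT) `Θ_a` and its logarithmic derivative as polynomials in `x, y`.

USES St_TDL (`Pool.Agent.MU3B.b_TDL`). PROOF. `q ∈ H`: `q ∉ L` (`2 q ∉ L`), `a q ∈ L`, `v a = 1`: `q` is not in the kernel of reduction (`mem_of_nat_mul`), `xn L q ∈ V`; `a (z ± q) ≡ a z`, so `z ± q` is not in the kernel of reduction (`inK_nat`, `inK_congr`): `v(xn L z - xn L q) = 1` (`v_X_sub`). `θ = ∏_(q ∈ H) (X 0 - C (xn L q))`,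
`℘ z - ℘ q = xn L z - xn L q`. `dW θ = Σ_q 2 X 1 ∏_(q' ≠ q) (X 0 - C (xn L q'))` (Leibniz), so `(dW θ)(x z, y z) = ThetaH z Σ_q ℘'(z)/(℘ z - ℘ q) = ThetaH z (a e(a z) - a² e(z))` (TDL; `‖(a : ℂ)‖² = a²`). -/
def S_THT : Prop :=
  ∀ (V : ValuationSubring ℂ) (W : WeierstrassCurve.Affine ℂ) (L : PeriodPair)
    (ξ : ℂ →+ W.Point), GR V W L (xn L) (yy L) ξ → ∀ (a : ℕ) (H : Finset ℂ), 1 < a →
    V.valuation (a : ℂ) = 1 → IsHalf L (a : ℂ) H → ∀ (a2 a4 : V),
    ∃ θ : MvPolynomial (Fin 2) V, ∀ z : ℂ, ¬ InK V L (xn L) z → ¬ InK V L (xn L) (a * z) →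
      MvPolynomial.aeval ![xn L z, yy L z] θ = ThetaH L H z ∧ V.valuation (ThetaH L H z) = 1 ∧
      MvPolynomial.aeval ![xn L z, yy L z] (dW a2 a4 θ) = ThetaH L H z * dlX L a z ∧
      V.valuation (dlX L a z) ≤ 1

/-- (KEY) the result for one lattice and one point `R` of order `p` in the kernel of reduction with `v(t(R))^(p-1) = v(p)`.

USES TAY, ADV, THT, KYR. PROOF. `τ = v(tX R)`, `ϖ = vpi lam p (tX R)`, `v ϖ = τ` (`lam 0 = 0`, `lam 1 = 1`). For `0 < c < p`: `c R ∉ L` (`p R ∈ L`, `p` prime), `c R` in the kernel of reduction, `v(tX (c R)) = τ` (`v_tX_nat`), `z + c R`, `a (z + c R)` not in the kernel of reduction. `θ` (THT), `T₀ = ThetaH z`, `e_k = (D^k θ)(z)/(k! T₀) ∈ V` for `k < p`, `e_0 = 1`.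
`f_c = ThetaH(z + c R)/T₀`, `g_c = dlX (z + c R)`. (TAY) for `θ`, `c R`, and (ADV): `f_c ≡ Σ_(k<p) e_k (c ϖ)^k` modulo `τ^p`; for `dW θ`: `g_c f_c ≡ Σ_(k<p) (D^(k+1) θ)(z)/(k! T₀) (c ϖ)^k`, times `c ϖ`: the term `k = p - 1` is `≤ τ^p`, the others are `(k+1) e_(k+1) (c ϖ)^(k+1)`. `A = V`, `I = {r : v r ≤ τ^p}` `= (ϖ^p)`; `v(p ϖ) = τ^p`. (KYR). The last two
claims: multiply by `T₀^(p-1)` (a unit), `τ^p = v(p) τ`; `v(ϖ Σ c g_c) ≤ τ^(p-1)`, divide by `ϖ`. For `c` arbitrary `v(ThetaH(z + c R)) = 1`, `v(dlX (z + c R)) ≤ 1`: (THT) at `z + c R`. -/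
def S_KEY : Prop :=
  ∀ (V : ValuationSubring ℂ) (W : WeierstrassCurve.Affine ℂ) (L : PeriodPair)
    (ξ : ℂ →+ W.Point), GR V W L (xn L) (yy L) ξ → ∀ p : ℕ, p.Prime → 5 ≤ p →
    V.valuation (p : ℂ) < 1 → (∀ j : ℕ, 0 < j → j < p → V.valuation (j : ℂ) = 1) →
    ∀ R : ℂ, InK V L (xn L) R → R ∉ L.lattice → (p : ℂ) * R ∈ L.lattice →
    V.valuation (tX (xn L) (yy L) R) ^ (p - 1) = V.valuation (p : ℂ) →
    ∃ w : ℂ, V.valuation (w - tX (xn L) (yy L) R) ≤ V.valuation (tX (xn L) (yy L) R) ^ 2 ∧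
    ∀ (a : ℕ) (H : Finset ℂ), 1 < a → V.valuation (a : ℂ) = 1 → IsHalf L (a : ℂ) H →
    ∀ z : ℂ, ¬ InK V L (xn L) z → ¬ InK V L (xn L) (a * z) →
      (∀ c : ℕ, V.valuation (ThetaH L H (z + c * R)) = 1 ∧
        V.valuation (dlX L a (z + c * R)) ≤ 1) ∧
      V.valuation (∑ c ∈ Finset.Icc 1 (p - 1), (c : ℂ) * dlX L a (z + c * R)) ≤
        V.valuation (tX (xn L) (yy L) R) ^ (p - 2) ∧
      V.valuation (∏ c ∈ Finset.Icc 1 (p - 1), ThetaH L H (z + c * R) -
          ThetaH L H z ^ (p - 1) * (1 - w *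
            ∑ c ∈ Finset.Icc 1 (p - 1), (c : ℂ) * dlX L a (z + c * R))) ≤
        V.valuation (tX (xn L) (yy L) R) ^ p

/-! ## The points of `E[P]`, and the lattices `L_i` -/

/-- (FOI) the parameter under an isogeny of odd order prime to the residue characteristic, to first order.

USES Sx_POL, Sx_HAL, Su_BAC. PROOF. (0) `C = {z : mu z ∈ M}`, killed by `n` modulo `L`; `C ∩ K₁(L) = L`, `K₁` the kernel of reduction (`mem_of_nat_mul`); no point of order two in `C/L` (`n` odd): half system `H` (HAL); for `q ∈ H`: `q ∉ K₁(L)`, `xn L q ∈ V`. `w = L.ω₁/2`, `e = xn L w`, `e' = ℘_M(mu w)`; `w + q ∉ K₁(L)` (`2 (w + q) ≡ 2 q`; `K₁` is a group, and `2 q ∈ K₁` gives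
`2 q ∈ L`), `w ∉ K₁`, `mu w ∉ K₁(M)` (order two): `e, e', xn L (w + q) ∈ V`. `mu u ∉ M` (otherwise `u ∈ C ∩ K₁ = L`). (1) (POL), second part, `c = 1/12`: for `mu z ∉ M`: `(℘_M(mu z) - e') Q(x)² = (x - e) B(x)²`, `x = xn L z`, `Q = mu ∏_(q ∈ H) (T - xn L q)`, `B = ∏_(q ∈ H) (T - xn L (w + q))`. (2) Differentiate in `z` (`HasDerivAt`; `℘' = 2 yy`; the set `mu z ∉ M` is open) at `z = u`:
`mu 2 yy_M(mu u) Q² + (℘_M(mu u) - e') 2 Q Q' 2 yy_L(u) = (B² + (x - e) 2 B B') 2 yy_L(u)`. (3) `x = xn L u`, `r = 1/x`, `v r = v(t u)² < 1` (`v_tX_lt`). For a finite product `F = ∏_(i<h) (T - a_i)`, `a_i ∈ V`: `v(F(x)/x^h - 1) ≤ v r`, `v(x F'(x)/x^h - h) ≤ v r` (induction on `h`: `(F (T - a))/x^(h+1) = (F/x^h)(1 - a r)`, `x (F (T-a))'/x^(h+1) = (x F'/x^h)(1 - a r) + F/x^h`). So with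
`b = B/x^h ≡ 1`, `q = Q/(mu x^h) ≡ 1`, `b' = x B'/x^h ≡ h`, `q' = x Q'/(mu x^h) ≡ h` modulo `r`: (1): `℘_M(mu u) - e' = mu⁻² x (1 - e r) b²/q²`; (2): `yy_M(mu u) = mu⁻³ yy_L(u) q⁻² [b² + 2 (1 - e r) b b' - 2 (1 - e r) b² q'/q] = mu⁻³ yy_L(u) (1 + O(r))` (`1 + 2h - 2h = 1`).
So `xn M (mu u) = mu⁻² x (1 + O(r))` (`v > 1`: `mu u ∈ K₁(M)`), and `tX = -x/y`: `t_M(mu u) = mu t_L(u) (1 + O(r))`, even `≤ v(t u)³`. -/
def S_FOI : Prop :=
  ∀ (V : ValuationSubring ℂ) (L M : PeriodPair) (mu : ℂ) (n : ℕ),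
    (∃ (W : WeierstrassCurve.Affine ℂ) (ξ : ℂ →+ W.Point), GR V W L (xn L) (yy L) ξ) →
    (∃ (W : WeierstrassCurve.Affine ℂ) (ξ : ℂ →+ W.Point), GR V W M (xn M) (yy M) ξ) →
    mu ≠ 0 → Isg L M mu → Odd n → V.valuation (n : ℂ) = 1 →
    (∀ z, mu * z ∈ M.lattice → (n : ℂ) * z ∈ L.lattice) → V.valuation mu = 1 →
    ∀ u, InK V L (xn L) u → u ∉ L.lattice → InK V M (xn M) (mu * u) ∧ mu * u ∉ M.lattice ∧
      V.valuation (tX (xn M) (yy M) (mu * u) - mu * tX (xn L) (yy L) u) ≤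
        V.valuation (tX (xn L) (yy L) u) ^ 2

end

end Pool.Agent.TWT


end

section

/-!
# TWT, block A, module ADV: additivity of the truncated logarithm (helper40)
-/

set_option autoImplicit false

open WeierstrassCurve Polynomial PowerSeries

namespace Pool.Agent.TWT

open _root_.MU3 Pool.Agent.MU3A Pool.Agent.MU3B Pool.Agent.MUX Pool.Agent.MUXU
open Pool.Agent.MUXV (GR InK tX)

namespace ADV

section
variable {V : ValuationSubring ℂ}

lemma v_vpi {lam : ℕ → ℂ} {p : ℕ} (h0 : lam 0 = 0) (hi : ∀ j, V.valuation (lam j) ≤ 1)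
    {t : ℂ} {τ : V.ValueGroup} (ht : V.valuation t ≤ τ) (hτ : τ ≤ 1) :
    V.valuation (vpi lam p t) ≤ τ := by
  unfold vpi
  refine Valuation.map_sum_le _ (fun j _ => ?_)
  rw [map_mul, map_pow]
  rcases Nat.eq_zero_or_pos j with rfl | hj
  · rw [h0, map_zero, zero_mul]; exact zero_le
  · calc V.valuation (lam j) * V.valuation t ^ j ≤ 1 * τ ^ j :=
          mul_le_mul' (hi j) (pow_le_pow_left' ht j)
      _ = τ ^ j := one_mul _
      _ ≤ τ := pow_le_of_le_one zero_le hτ hj.ne'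

lemma v_fac {p : ℕ} (hu : ∀ j : ℕ, 0 < j → j < p → V.valuation (j : ℂ) = 1) (k : ℕ) (hk : k < p) :
    V.valuation ((k.factorial : ℕ) : ℂ) = 1 := by
  induction k with
  | zero => simp
  | succ k ih =>
    rw [Nat.factorial_succ, Nat.cast_mul, map_mul, ih (by omega), mul_one]
    exact hu _ (Nat.succ_pos _) hk

lemma v_ev {x y : ℂ} (hx : V.valuation x ≤ 1) (hy : V.valuation y ≤ 1)
    (f : MvPolynomial (Fin 2) V) : V.valuation (MvPolynomial.aeval ![x, y] f) ≤ 1 := by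
  induction f using MvPolynomial.induction_on with
  | C a =>
    rw [MvPolynomial.aeval_C]
    exact V.valuation_le_one a
  | add f g hf hg =>
    rw [map_add]
    exact Valuation.map_add_le _ hf hg
  | mul_X f i hf =>
    rw [map_mul, map_mul, MvPolynomial.aeval_X]
    refine mul_le_one' hf ?_
    fin_cases i
    · exact hx
    · exact hy

lemma sum_anti {M : Type*} [AddCommMonoid M] (p : ℕ) (F : ℕ × ℕ → M) :
    ∑ n ∈ Finset.range p, ∑ m ∈ Finset.HasAntidiagonal.antidiagonal n, F m =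
      ∑ m ∈ (Finset.range p ×ˢ Finset.range p).filter (fun m => m.1 + m.2 < p), F m := by
  have h1 := Finset.sum_fiberwise_of_maps_to
    (s := (Finset.range p ×ˢ Finset.range p).filter (fun m => m.1 + m.2 < p))
    (t := Finset.range p) (g := fun m : ℕ × ℕ => m.1 + m.2)
    (fun m hm => by
      rw [Finset.mem_filter] at hm
      exact Finset.mem_range.2 hm.2) F
  rw [← h1]
  refine Finset.sum_congr rfl (fun n hn => ?_)
  rw [Finset.mem_range] at hn
  refine Finset.sum_congr ?_ (fun _ _ => rfl)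
  ext m
  simp only [Finset.HasAntidiagonal.mem_antidiagonal, Finset.mem_filter, Finset.mem_product, Finset.mem_range]
  omega

lemma binom {p : ℕ} (hu : ∀ j : ℕ, 0 < j → j < p → V.valuation (j : ℂ) = 1) (c : ℕ → ℂ)
    (hc : ∀ n, V.valuation (c n) ≤ 1) {a b : ℂ} {τ : V.ValueGroup} (hτ : τ ≤ 1)
    (ha : V.valuation a ≤ τ) (hb : V.valuation b ≤ τ) :
    V.valuation (∑ k ∈ Finset.range p, (∑ j ∈ Finset.range p,
        c (j + k) / (j.factorial : ℂ) * a ^ j) / (k.factorial : ℂ) * b ^ k -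
      ∑ n ∈ Finset.range p, c n / (n.factorial : ℂ) * (a + b) ^ n) ≤ τ ^ p := by
  set F : ℕ × ℕ → ℂ := fun m => c (m.1 + m.2) / (m.1.factorial : ℂ) / (m.2.factorial : ℂ) *
    (a ^ m.1 * b ^ m.2) with hF
  have h1 : ∑ k ∈ Finset.range p, (∑ j ∈ Finset.range p,
        c (j + k) / (j.factorial : ℂ) * a ^ j) / (k.factorial : ℂ) * b ^ k =
      ∑ m ∈ Finset.range p ×ˢ Finset.range p, F m := by
    rw [Finset.sum_product_right]
    refine Finset.sum_congr rfl (fun k _ => ?_)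
    rw [Finset.sum_div, Finset.sum_mul]
    refine Finset.sum_congr rfl (fun j _ => ?_)
    rw [hF]
    ring
  have h2 : ∑ n ∈ Finset.range p, c n / (n.factorial : ℂ) * (a + b) ^ n =
      ∑ m ∈ (Finset.range p ×ˢ Finset.range p).filter (fun m => m.1 + m.2 < p), F m := by
    rw [← sum_anti]
    refine Finset.sum_congr rfl (fun n _ => ?_)
    rw [(Commute.all a b).add_pow', Finset.mul_sum]
    refine Finset.sum_congr rfl (fun m hm => ?_)
    rw [Finset.HasAntidiagonal.mem_antidiagonal] at hm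
    subst hm
    rw [hF, nsmul_eq_mul]
    have h3 : ((m.1 + m.2).choose m.1 : ℂ) * (m.1.factorial : ℂ) * (m.2.factorial : ℂ) =
        ((m.1 + m.2).factorial : ℂ) := by
      have := Nat.choose_mul_factorial_mul_factorial (Nat.le_add_right m.1 m.2)
      rw [Nat.add_sub_cancel_left] at this
      exact_mod_cast this
    have h4 : (m.1.factorial : ℂ) ≠ 0 := by exact_mod_cast m.1.factorial_ne_zero
    have h5 : (m.2.factorial : ℂ) ≠ 0 := by exact_mod_cast m.2.factorial_ne_zero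
    show _ = c (m.1 + m.2) / (m.1.factorial : ℂ) / (m.2.factorial : ℂ) * (a ^ m.1 * b ^ m.2)
    have h7 : (((m.1 + m.2).choose m.1 : ℕ) : ℂ) ≠ 0 := by
      exact_mod_cast (Nat.choose_pos (Nat.le_add_right m.1 m.2)).ne'
    rw [← h3]
    field_simp
  rw [h1, h2, ← Finset.sum_filter_add_sum_filter_not (Finset.range p ×ˢ Finset.range p)
    (fun m : ℕ × ℕ => m.1 + m.2 < p) F, add_sub_cancel_left]
  refine Valuation.map_sum_le _ (fun m hm => ?_)
  rw [Finset.mem_filter, Finset.mem_product, Finset.mem_range, Finset.mem_range, not_lt] at hm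
  obtain ⟨⟨hm1, hm2⟩, hm3⟩ := hm
  rw [hF]
  show V.valuation (c (m.1 + m.2) / (m.1.factorial : ℂ) / (m.2.factorial : ℂ) *
    (a ^ m.1 * b ^ m.2)) ≤ _
  rw [map_mul, map_div₀, map_div₀, v_fac hu _ hm1, v_fac hu _ hm2, div_one, div_one, map_mul,
    map_pow, map_pow]
  calc V.valuation (c (m.1 + m.2)) * (V.valuation a ^ m.1 * V.valuation b ^ m.2)
      ≤ 1 * (τ ^ m.1 * τ ^ m.2) :=
        mul_le_mul' (hc _) (mul_le_mul' (pow_le_pow_left' ha _) (pow_le_pow_left' hb _))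
    _ = τ ^ (m.1 + m.2) := by rw [one_mul, pow_add]
    _ ≤ τ ^ p := pow_le_pow_right_of_le_one' hτ hm3

/-- cancellation of the linear term -/
lemma cancel {p : ℕ} (hp : 2 ≤ p) (d : ℕ → ℂ) (hd : ∀ n < p, V.valuation (d n) ≤ 1)
    (hd1 : V.valuation (d 1) = 1) {a b : ℂ} {τ : V.ValueGroup} (hτ : τ < 1)
    (ha : V.valuation a ≤ τ) (hb : V.valuation b ≤ τ)
    (h : V.valuation (∑ n ∈ Finset.range p, d n * a ^ n - ∑ n ∈ Finset.range p, d n * b ^ n) ≤
      τ ^ p) : V.valuation (a - b) ≤ τ ^ p := by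
  obtain ⟨q, rfl⟩ : ∃ q, p = q + 2 := ⟨p - 2, by omega⟩
  set e : ℂ := ∑ n ∈ Finset.range q, d (n + 2) *
    ∑ i ∈ Finset.range (n + 2), a ^ i * b ^ (n + 2 - 1 - i) with he
  have h1 : ∑ n ∈ Finset.range (q + 2), d n * a ^ n - ∑ n ∈ Finset.range (q + 2), d n * b ^ n =
      (a - b) * (d 1 + e) := by
    rw [Finset.sum_range_succ', Finset.sum_range_succ', Finset.sum_range_succ' _ (q + 1),
      Finset.sum_range_succ' _ q, he, mul_add, Finset.mul_sum]
    have h2 : ∀ n ∈ Finset.range q, (a - b) * (d (n + 2) *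
        ∑ i ∈ Finset.range (n + 2), a ^ i * b ^ (n + 2 - 1 - i)) =
        d (n + 2) * a ^ (n + 2) - d (n + 2) * b ^ (n + 2) := by
      intro n _
      have h3 := (Commute.all a b).mul_geom_sum₂ (n + 2)
      calc _ = d (n + 2) * ((a - b) *
          ∑ i ∈ Finset.range (n + 2), a ^ i * b ^ (n + 2 - 1 - i)) := by ring
        _ = _ := by rw [h3]; ring
    rw [Finset.sum_congr rfl h2, Finset.sum_sub_distrib]
    simp only [zero_add, pow_one, pow_zero, Nat.add_assoc]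
    ring
  have h4 : V.valuation e ≤ τ := by
    rw [he]
    refine Valuation.map_sum_le _ (fun n hn => ?_)
    rw [Finset.mem_range] at hn
    rw [map_mul]
    calc _ ≤ 1 * τ := mul_le_mul' (hd _ (by omega)) ?_
      _ = τ := one_mul _
    refine Valuation.map_sum_le _ (fun i hi => ?_)
    rw [Finset.mem_range] at hi
    rw [map_mul, map_pow, map_pow]
    calc _ ≤ τ ^ i * τ ^ (n + 2 - 1 - i) :=
          mul_le_mul' (pow_le_pow_left' ha _) (pow_le_pow_left' hb _)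
      _ = τ ^ (n + 1) := by rw [← pow_add]; congr 1; omega
      _ ≤ τ := pow_le_of_le_one zero_le hτ.le (Nat.succ_ne_zero n)
  have h5 : V.valuation (d 1 + e) = 1 := by
    rw [Valuation.map_add_eq_of_lt_left]
    · exact hd1
    · rw [hd1]; exact h4.trans_lt hτ
  rw [h1, map_mul, h5, mul_one] at h
  exact h

end

section
variable {V : ValuationSubring ℂ} {W : WeierstrassCurve.Affine ℂ} {L : PeriodPair}
  {X Y : ℂ → ℂ} {ξ : ℂ →+ W.Point}

lemma third (G : GR V W L X Y ξ) (h3 : V.valuation (3 : ℂ) = 1) :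
    ¬ InK V L X (L.ω₁ / 3) ∧ ¬ InK V L X (2 * (L.ω₁ / 3)) := by
  have hm : ((3 : ℕ) : ℂ) * (L.ω₁ / 3) ∈ L.lattice := by
    have : ((3 : ℕ) : ℂ) * (L.ω₁ / 3) = L.ω₁ := by push_cast; ring
    rw [this]
    exact L.ω₁_mem_lattice
  have h3' : V.valuation ((3 : ℕ) : ℂ) = 1 := by exact_mod_cast h3
  have hn : ∀ k : ℤ, (k : ℂ) / 3 * L.ω₁ ∈ L.lattice → (3 : ℤ) ∣ k := by
    intro k hk
    obtain ⟨m, n, hmn⟩ := L.mem_lattice.1 hk
    have hi := L.indep
    rw [LinearIndependent.pair_iff] at hi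
    have h1 := hi ((m : ℝ) - k / 3) n (by
      simp only [Complex.real_smul]
      push_cast
      linear_combination hmn)
    have h2 : (m : ℝ) = k / 3 := by linarith [h1.1]
    have h4 : (3 * m : ℝ) = k := by rw [h2]; ring
    exact ⟨m, by exact_mod_cast h4.symm⟩
  constructor
  · intro h
    have h1 := MUXV.mem_of_nat_mul G h h3' hm
    have h2 := hn 1 (by
      have : ((1 : ℤ) : ℂ) / 3 * L.ω₁ = L.ω₁ / 3 := by push_cast; ring
      rwa [this])
    omega
  · intro h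
    have h1 := MUXV.mem_of_nat_mul G h h3' (by
      have : ((3 : ℕ) : ℂ) * (2 * (L.ω₁ / 3)) = ((3 : ℕ) : ℂ) * (L.ω₁ / 3) +
        ((3 : ℕ) : ℂ) * (L.ω₁ / 3) := by ring
      rw [this]
      exact add_mem hm hm)
    have h2 := hn 2 (by
      have : ((2 : ℤ) : ℂ) / 3 * L.ω₁ = 2 * (L.ω₁ / 3) := by push_cast; ring
      rwa [this])
    omega

/-- additivity -/
lemma additive (G : GR V W L X Y ξ) {p : ℕ} (hp : 4 ≤ p)
    (hu : ∀ j : ℕ, 0 < j → j < p → V.valuation (j : ℂ) = 1) (a2 a4 : V) {lam : ℕ → ℂ}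
    (T : HasTay V L X Y p a2 a4 lam) {R R' : ℂ} (hR : InK V L X R) (hR' : InK V L X R')
    (hL : R ∉ L.lattice) (hL' : R' ∉ L.lattice) (hLL : R + R' ∉ L.lattice)
    {τ : V.ValueGroup} (hτ : τ < 1) (h1 : V.valuation (tX X Y R) ≤ τ)
    (h2 : V.valuation (tX X Y R') ≤ τ) (h3 : V.valuation (tX X Y (R + R')) ≤ τ) :
    V.valuation (vpi lam p (tX X Y (R + R')) - (vpi lam p (tX X Y R) + vpi lam p (tX X Y R'))) ≤
      τ ^ p := by
  have hRR : InK V L X (R + R') := MUXV.inK_add G hR hR'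
  obtain ⟨hz, hz2⟩ := third G (by exact_mod_cast hu 3 (by norm_num) (by omega))
  set z := L.ω₁ / 3 with hzd
  have hY : V.valuation (Y z) = 1 := (MUXV.tq_YUN V W L X Y ξ G z hz hz2).1
  have hzR : ¬ InK V L X (z + R) := (MUXV.near G hz hR hL).1
  have hvx : V.valuation (X z) ≤ 1 := (MUXV.int_X hz).2
  have hvy : V.valuation (Y z) ≤ 1 := MUXV.int_Y G hz
  have w1 := v_vpi (p := p) T.lam0 T.int h1 hτ.le
  have w2 := v_vpi (p := p) T.lam0 T.int h2 hτ.le
  have w3 := v_vpi (p := p) T.lam0 T.int h3 hτ.le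
  set c : ℕ → ℂ := fun n => MvPolynomial.aeval ![X z, Y z]
    ((dW a2 a4)^[n] (MvPolynomial.X 0)) with hc
  have hcv : ∀ n, V.valuation (c n) ≤ 1 := fun n => v_ev hvx hvy _
  -- Taylor at z + R with R'
  have t1 := T.tay R' hR' hL' (z + R) hzR (MvPolynomial.X 0)
  -- Taylor at z with R
  have t2 : ∀ k, V.valuation (MvPolynomial.aeval ![X (z + R), Y (z + R)]
      ((dW a2 a4)^[k] (MvPolynomial.X 0)) -
      ∑ j ∈ Finset.range p, c (j + k) / (j.factorial : ℂ) * vpi lam p (tX X Y R) ^ j) ≤ τ ^ p := by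
    intro k
    have h4 := T.tay R hR hL z hz ((dW a2 a4)^[k] (MvPolynomial.X 0))
    refine le_trans ?_ (h4.trans (pow_le_pow_left' h1 p))
    refine le_of_eq (congrArg _ ?_)
    refine congrArg _ (Finset.sum_congr rfl (fun j _ => ?_))
    rw [hc]
    show MvPolynomial.aeval ![X z, Y z] ((dW a2 a4)^[j + k] (MvPolynomial.X 0)) / _ * _ = _
    rw [Function.iterate_add_apply]
  have t3 := T.tay (R + R') hRR hLL z hz (MvPolynomial.X 0)
  have e1 : V.valuation (∑ k ∈ Finset.range p, MvPolynomial.aeval ![X (z + R), Y (z + R)]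
      ((dW a2 a4)^[k] (MvPolynomial.X 0)) / (k.factorial : ℂ) * vpi lam p (tX X Y R') ^ k -
      ∑ k ∈ Finset.range p, (∑ j ∈ Finset.range p,
        c (j + k) / (j.factorial : ℂ) * vpi lam p (tX X Y R) ^ j) / (k.factorial : ℂ) *
          vpi lam p (tX X Y R') ^ k) ≤ τ ^ p := by
    rw [← Finset.sum_sub_distrib]
    refine Valuation.map_sum_le _ (fun k hk => ?_)
    rw [Finset.mem_range] at hk
    rw [← sub_mul, ← sub_div, map_mul, map_div₀, v_fac hu k hk, div_one, map_pow]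
    calc _ ≤ τ ^ p * 1 := mul_le_mul' (t2 k) (pow_le_one' (w2.trans hτ.le) k)
      _ = τ ^ p := mul_one _
  have e2 := binom hu c hcv hτ.le w1 w2
  have e3 := t1.trans (pow_le_pow_left' h2 p)
  have e4 := t3.trans (pow_le_pow_left' h3 p)
  have hX : MvPolynomial.aeval ![X (z + R + R'), Y (z + R + R')]
      (MvPolynomial.X 0 : MvPolynomial (Fin 2) V) = MvPolynomial.aeval
      ![X (z + (R + R')), Y (z + (R + R'))] (MvPolynomial.X 0 : MvPolynomial (Fin 2) V) := by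
    rw [add_assoc]
  have e5 : V.valuation (∑ n ∈ Finset.range p, c n / (n.factorial : ℂ) *
      vpi lam p (tX X Y (R + R')) ^ n - ∑ n ∈ Finset.range p, c n / (n.factorial : ℂ) *
      (vpi lam p (tX X Y R) + vpi lam p (tX X Y R')) ^ n) ≤ τ ^ p := by
    have h5 := Valuation.map_sub_le _ (Valuation.map_add_le _ (Valuation.map_add_le _ e3 e1) e2) e4
    rw [hX] at h5
    refine le_trans (le_of_eq (congrArg _ ?_)) h5
    rw [hc]
    ring
  refine cancel (by omega) (fun n => c n / (n.factorial : ℂ)) (fun n hn => ?_) ?_ hτ w3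
    (Valuation.map_add_le _ w1 w2) e5
  · rw [map_div₀, v_fac hu n hn, div_one]
    exact hcv n
  · show V.valuation (c 1 / ((Nat.factorial 1 : ℕ) : ℂ)) = 1
    have h6 : c 1 = 2 * Y z := by
      rw [hc]
      show MvPolynomial.aeval ![X z, Y z] (dW a2 a4 (MvPolynomial.X 0)) = _
      rw [dW, MvPolynomial.mkDerivation_X]
      simp
    rw [h6, Nat.factorial_one, Nat.cast_one, div_one, map_mul, G.two, hY, one_mul]

end

end ADV

open _root_.Pool.Agent.TWT.ADV in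
theorem t_ADV : S_ADV := by
  intro V W L X Y ξ G p hp hu a2 a4 _ _ lam T R hR hL c hc0 hcp
  induction c with
  | zero => exact absurd hc0 (lt_irrefl 0)
  | succ c ih =>
    rcases Nat.eq_zero_or_pos c with rfl | hc
    · simp
    · have hRL : R ∉ L.lattice := by simpa using hL 1 (by norm_num) (by omega)
      have hcL : (c : ℂ) * R ∉ L.lattice := hL c hc (by omega)
      have hccL : (c : ℂ) * R + R ∉ L.lattice := by
        have := hL (c + 1) hc0 hcp
        have h : ((c + 1 : ℕ) : ℂ) * R = (c : ℂ) * R + R := by push_cast; ring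
        rwa [h] at this
      have hcR : InK V L X ((c : ℂ) * R) := MUXV.inK_nat G hR c
      have ht1 := MUXV.v_tX_nat G hR (hu c hc (by omega)) hRL hcL
      have ht2 : V.valuation (tX X Y ((c : ℂ) * R + R)) = V.valuation (tX X Y R) := by
        have h := MUXV.v_tX_nat G hR (hu (c + 1) hc0 hcp) hRL (hL (c + 1) hc0 hcp)
        have h' : ((c + 1 : ℕ) : ℂ) * R = (c : ℂ) * R + R := by push_cast; ring
        rwa [h'] at h
      have h1 := additive G hp hu a2 a4 T hcR hR hcL hRL hccL (MUXV.v_tX_lt G hR hRL).1 ht1.le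
        le_rfl ht2.le
      have h2 := ih hc (by omega)
      have h3 := Valuation.map_add_le _ h1 h2
      have h' : ((c + 1 : ℕ) : ℂ) * R = (c : ℂ) * R + R := by push_cast; ring
      rw [h']
      refine le_trans (le_of_eq (congrArg _ ?_)) h3
      push_cast
      ring

end Pool.Agent.TWT


end

section

/-!
# TWT: evaluation of power series at a nilpotent element
-/

set_option autoImplicit false

namespace Pool.Agent.TWT

open PowerSeries

namespace EVH

variable {A S : Type} [CommRing A] [CommRing S]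

/-- The value of a polynomial at `s` with `s ^ n = 0`. -/
theorem eval_poly (f : A →+* S) (s : S) (n : ℕ) (hs : s ^ n = 0) (p : Polynomial A) :
    ∑ k ∈ Finset.range n, f (p.coeff k) * s ^ k = p.eval₂ f s := by
  have h1 : p.natDegree < max n (p.natDegree + 1) := lt_of_lt_of_le (Nat.lt_succ_self _)
    (le_max_right _ _)
  rw [Polynomial.eval₂_eq_sum_range' f h1 s]
  refine Finset.sum_subset ?_ fun k _ hk => ?_
  · intro k hk
    rw [Finset.mem_range] at hk ⊢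
    exact lt_of_lt_of_le hk (le_max_left _ _)
  · rw [Finset.mem_range, not_lt] at hk
    rw [pow_eq_zero_of_le hk hs, mul_zero]

/-- The value of a power series. -/
noncomputable def val (f : A →+* S) (s : S) (n : ℕ) (F : A⟦X⟧) : S :=
  ∑ k ∈ Finset.range n, f (PowerSeries.coeff k F) * s ^ k

theorem val_trunc (f : A →+* S) (s : S) (n : ℕ) (hs : s ^ n = 0) (F : A⟦X⟧) :
    val f s n F = (PowerSeries.trunc n F).eval₂ f s := by
  rw [← eval_poly f s n hs]
  refine Finset.sum_congr rfl fun k hk => ?_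
  rw [PowerSeries.coeff_trunc, if_pos (Finset.mem_range.1 hk)]

theorem val_mul (f : A →+* S) (s : S) (n : ℕ) (hs : s ^ n = 0) (F G : A⟦X⟧) :
    val f s n (F * G) = val f s n F * val f s n G := by
  rw [val_trunc f s n hs F, val_trunc f s n hs G, ← Polynomial.eval₂_mul,
    ← eval_poly f s n hs]
  refine Finset.sum_congr rfl fun k hk => ?_
  rw [PowerSeries.coeff_mul_eq_coeff_trunc_mul_trunc F G (Finset.mem_range.1 hk),
    ← Polynomial.coe_mul, Polynomial.coeff_coe]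

theorem val_add (f : A →+* S) (s : S) (n : ℕ) (F G : A⟦X⟧) :
    val f s n (F + G) = val f s n F + val f s n G := by
  unfold val
  rw [← Finset.sum_add_distrib]
  refine Finset.sum_congr rfl fun k _ => ?_
  rw [map_add, map_add, add_mul]

theorem val_C (f : A →+* S) (s : S) (n : ℕ) (hn : 2 ≤ n) (a : A) :
    val f s n (PowerSeries.C a) = f a := by
  unfold val
  rw [Finset.sum_eq_single 0]
  · rw [PowerSeries.coeff_zero_C, pow_zero, mul_one]
  · intro k _ hk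
    rw [PowerSeries.coeff_C, if_neg hk, map_zero, zero_mul]
  · intro h
    exact absurd (Finset.mem_range.2 (by omega)) h

theorem val_X (f : A →+* S) (s : S) (n : ℕ) (hn : 2 ≤ n) :
    val f s n (PowerSeries.X) = s := by
  unfold val
  rw [Finset.sum_eq_single 1]
  · rw [PowerSeries.coeff_one_X, map_one, one_mul, pow_one]
  · intro k _ hk
    rw [PowerSeries.coeff_X, if_neg hk, map_zero, zero_mul]
  · intro h
    exact absurd (Finset.mem_range.2 (by omega)) h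

end EVH

open _root_.Pool.Agent.TWT.EVH in
theorem t_EVH : S_EVH := by
  intro A S _ _ f s n hs hn
  refine ⟨{ toFun := val f s n
            map_one' := ?_
            map_mul' := fun F G => val_mul f s n hs F G
            map_zero' := ?_
            map_add' := fun F G => val_add f s n F G }, ?_, ?_, ?_⟩
  · have h := val_C f s n hn (1 : A)
    rwa [map_one, map_one] at h
  · have h := val_C f s n hn (0 : A)
    rwa [map_zero, map_zero] at h
  · exact val_X f s n hn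
  · exact fun a => val_C f s n hn a
  · exact fun F => rfl

end Pool.Agent.TWT


end

section

/-!
# TWT_PRD: the product over the multiples, modulo `p`
-/

set_option autoImplicit false

open PowerSeries

namespace Pool.Agent.TWT

namespace PRD

/-- Power sums modulo `p`. -/
lemma pow_sum_dvd {p : ℕ} (hp : p.Prime) {j : ℕ} (h0 : 0 < j) (h1 : j < p - 1) :
    p ∣ ∑ c ∈ Finset.Icc 1 (p - 1), c ^ j := by
  have : Fact p.Prime := ⟨hp⟩
  rw [← ZMod.natCast_eq_zero_iff, Nat.cast_sum]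
  have h2 := FiniteField.sum_pow_lt_card_sub_one (ZMod p) j (by rw [ZMod.card]; exact h1)
  have h3 : ∑ x : ZMod p, x ^ j = ∑ c ∈ Finset.range p, ((c ^ j : ℕ) : ZMod p) := by
    obtain ⟨n, rfl⟩ : ∃ n, p = n + 1 := ⟨p - 1, by have := hp.pos; omega⟩
    rw [← Fin.sum_univ_eq_sum_range (fun c => ((c ^ j : ℕ) : ZMod (n + 1))) (n + 1)]
    refine Finset.sum_congr rfl fun x _ => ?_
    rw [Nat.cast_pow]
    congr 1
    exact (ZMod.natCast_zmod_val (n := n + 1) x).symm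
  rw [h2] at h3
  have h4 : Finset.range p = insert 0 (Finset.Icc 1 (p - 1)) := by
    ext c
    simp only [Finset.mem_range, Finset.mem_insert, Finset.mem_Icc]
    have := hp.pos
    omega
  rw [h4, Finset.sum_insert (by simp)] at h3
  have h5 : ((0 ^ j : ℕ) : ZMod p) = 0 := by
    rw [zero_pow h0.ne', Nat.cast_zero]
  rw [h5, zero_add] at h3
  exact h3.symm

variable {A : Type} [CommRing A]

lemma rescale_X_der (E : A⟦X⟧) (c : A) :
    X * d⁄dX A (rescale c E) = rescale c (X * d⁄dX A E) := by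
  ext n
  rw [coeff_rescale]
  rcases n with _ | n
  · simp
  · rw [coeff_succ_X_mul, coeff_succ_X_mul, coeff_derivative, coeff_derivative, coeff_rescale]
    ring

lemma der_prod (E E' : A⟦X⟧) (hE : E * E' = 1) (s : Finset ℕ) :
    X * d⁄dX A (∏ c ∈ s, rescale (c : A) E) =
      (∏ c ∈ s, rescale (c : A) E) * ∑ c ∈ s, rescale (c : A) (X * d⁄dX A E * E') := by
  classical
  induction s using Finset.induction_on with
  | empty => simp
  | insert a s ha ih =>
    rw [Finset.prod_insert ha, Finset.sum_insert ha, Derivation.leibniz, smul_eq_mul, smul_eq_mul,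
      mul_add]
    have h1 : X * ((rescale (a : A) E) * d⁄dX A (∏ c ∈ s, rescale (c : A) E)) =
        (rescale (a : A) E) * (X * d⁄dX A (∏ c ∈ s, rescale (c : A) E)) := by ring
    have h2 : X * ((∏ c ∈ s, rescale (c : A) E) * d⁄dX A (rescale (a : A) E)) =
        (∏ c ∈ s, rescale (c : A) E) * (X * d⁄dX A (rescale (a : A) E)) := by ring
    have h3 : rescale (a : A) E * rescale (a : A) E' = 1 := by
      rw [← map_mul, hE, map_one]
    rw [h1, h2, ih, rescale_X_der, map_mul (rescale (a : A)) (X * d⁄dX A E) E']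
    linear_combination (-(∏ c ∈ s, rescale (c : A) E) * rescale (a : A) (X * d⁄dX A E)) * h3

end PRD

open _root_.Pool.Agent.TWT.PRD in
theorem t_PRD : S_PRD := by
  intro A _ p hp E E' hE0 hEE Q G hQ hG
  classical
  have hp1 := hp.one_lt
  have hpos := hp.pos
  have h0G : coeff 0 G = 0 := by
    rw [hG, map_sum]
    refine Finset.sum_eq_zero fun c _ => ?_
    rw [coeff_rescale]
    simp
  have h0Q : coeff 0 Q = 1 := by
    rw [hQ, coeff_zero_eq_constantCoeff, map_prod]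
    refine Finset.prod_eq_one fun c _ => ?_
    rw [← coeff_zero_eq_constantCoeff, coeff_rescale, coeff_zero_eq_constantCoeff, hE0]
    simp
  have hGd : ∀ j, 0 < j → j < p - 1 → (p : A) ∣ coeff j G := by
    intro j hj0 hj1
    have h1 : coeff j G = ((∑ c ∈ Finset.Icc 1 (p - 1), c ^ j : ℕ) : A) *
        coeff j (X * d⁄dX A E * E') := by
      rw [hG, map_sum, Nat.cast_sum, Finset.sum_mul]
      refine Finset.sum_congr rfl fun c _ => ?_
      rw [coeff_rescale, Nat.cast_pow]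
    rw [h1]
    exact Dvd.dvd.mul_right (Nat.cast_dvd_cast (pow_sum_dvd hp hj0 hj1)) _
  refine ⟨h0Q, h0G, ?_, hGd⟩
  intro j hj0 hj1
  have hder : X * d⁄dX A Q = Q * G := by
    rw [hQ, hG]
    exact der_prod E E' hEE _
  have hc : (j : A) * coeff j Q = coeff j (Q * G) := by
    rw [← hder]
    obtain ⟨i, rfl⟩ : ∃ i, j = i + 1 := ⟨j - 1, by omega⟩
    rw [coeff_succ_X_mul, coeff_derivative]
    push_cast
    ring
  have hd : (p : A) ∣ (j : A) * coeff j Q - coeff j G := by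
    rw [hc, coeff_mul, ← Finset.add_sum_erase (Finset.HasAntidiagonal.antidiagonal j) _
      (a := ((0, j) : ℕ × ℕ)) (by simp), h0Q, one_mul, add_sub_cancel_left]
    refine Finset.dvd_sum fun x hx => ?_
    rw [Finset.mem_erase, Finset.HasAntidiagonal.mem_antidiagonal] at hx
    obtain ⟨hx1, hx2⟩ := hx
    rcases Nat.eq_zero_or_pos x.2 with h | h
    · rw [h, h0G, mul_zero]
      exact dvd_zero _
    · refine Dvd.dvd.mul_left (hGd x.2 h ?_) _
      have : x.1 ≠ 0 := by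
        intro h3
        apply hx1
        ext
        · exact h3
        · simp only
          omega
      omega
  rw [map_add]
  rcases Nat.lt_or_ge j (p - 1) with h | h
  · have h2 := hGd j hj0 h
    have h3 : (p : A) ∣ (j : A) * coeff j Q := by
      have := dvd_add hd h2
      rwa [sub_add_cancel] at this
    have hcop : IsCoprime (j : ℤ) (p : ℤ) := by
      rw [Nat.isCoprime_iff_coprime]
      exact ((Nat.Prime.coprime_iff_not_dvd hp).2 (Nat.not_dvd_of_pos_of_lt hj0 hj1)).symm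
    obtain ⟨r, s, hrs⟩ := hcop
    have hrs' : (r : A) * (j : A) + (s : A) * (p : A) = 1 := by
      exact_mod_cast congrArg (fun z : ℤ => (z : A)) hrs
    have h4 : coeff j Q = (r : A) * ((j : A) * coeff j Q) + (p : A) * ((s : A) * coeff j Q) := by
      linear_combination (-(coeff j Q)) * hrs'
    have h5 : (p : A) ∣ coeff j Q := by
      rw [h4]
      exact dvd_add (Dvd.dvd.mul_left h3 _) (dvd_mul_right _ _)
    exact dvd_add h5 h2
  · have hj : (j : A) = (p : A) - 1 := by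
      have h6 : j + 1 = p := by omega
      rw [← h6]
      push_cast
      ring
    have h7 : coeff j Q + coeff j G =
        (p : A) * coeff j Q - ((j : A) * coeff j Q - coeff j G) := by
      rw [hj]
      ring
    rw [h7]
    exact dvd_sub (dvd_mul_right _ _) hd

end Pool.Agent.TWT


end

section

/-!
# TWT, block A, module PTS: the addition formula (helper85)
-/

set_option autoImplicit false

open WeierstrassCurve

namespace Pool.Agent.TWT

open _root_.MU3 Pool.Agent.MU3A Pool.Agent.MU3B Pool.Agent.MUX Pool.Agent.MUXU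
open Pool.Agent.MUXV (GR InK tX)

namespace PTS

open Pool.Agent.MU3.Val

/-- the addition law for different first coordinates -/
theorem add_form {F : Type*} [Field F] {Γ₀ : Type*} [LinearOrderedCommGroupWithZero Γ₀]
    {v : Valuation F Γ₀} {W : Affine F} [DecidableEq F] (hW : IntW v W) {x₁ y₁ x₂ y₂ : F}
    (h₁ : W.Nonsingular x₁ y₁) (h₂ : W.Nonsingular x₂ y₂) (hx : x₁ ≠ x₂) :
    ∃ (x₃ y₃ l : F) (h₃ : W.Nonsingular x₃ y₃),
      Affine.Point.some x₁ y₁ h₁ + Affine.Point.some x₂ y₂ h₂ = Affine.Point.some x₃ y₃ h₃ ∧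
      l * (x₁ - x₂) = y₁ - y₂ ∧ x₃ = l ^ 2 - W.a₂ - x₁ - x₂ ∧ y₃ = -(l * (x₃ - x₁) + y₁) := by
  have hadd := Affine.Point.add_of_X_ne hx (h₁ := h₁) (h₂ := h₂)
  have hsl := Affine.slope_of_X_ne (W := W) (y₁ := y₁) (y₂ := y₂) hx
  have h₃ := Affine.nonsingular_add h₁ h₂ (fun h => hx h.1)
  refine ⟨W.addX x₁ x₂ (W.slope x₁ x₂ y₁ y₂), W.addY x₁ x₂ y₁ (W.slope x₁ x₂ y₁ y₂),
    W.slope x₁ x₂ y₁ y₂, h₃, hadd, ?_, ?_, ?_⟩
  · rw [hsl, div_mul_cancel₀ _ (sub_ne_zero.2 hx)]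
  · rw [Affine.addX, hW.a1]; ring
  · rw [Affine.addY, Affine.negAddY, Affine.negY, hW.a1, hW.a3]; ring

/-- the algebra -/
theorem alg {F : Type} [Field F] (a2 a4 a6 x y t u e l x₂ y₂ x₃ y₃ : F) (ht : t ≠ 0)
    (hu : u ≠ 0) (he : e * (1 - x * t ^ 2 * u) = 1) (hx₂ : x₂ * (t ^ 2 * u) = 1)
    (hy₂ : y₂ * (t ^ 3 * u) = -1) (hU : EqU a2 a4 a6 t u)
    (hl : l * (x - x₂) = y - y₂) (hx₃ : x₃ = l ^ 2 - a2 - x - x₂)
    (hy₃ : y₃ = -(l * (x₃ - x) + y)) :
    x₃ = xF a2 a4 a6 x y t u e ∧ y₃ = yF a2 a4 a6 x y t u e := by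
  have hl' : l * t = -((1 + y * t ^ 3 * u) * e) := by
    linear_combination (-(e * t ^ 3 * u)) * hl + (-(l * t)) * he + e * hy₂ + (-(l * t * e)) * hx₂
  have htu : t ^ 2 * u ≠ 0 := mul_ne_zero (pow_ne_zero 2 ht) hu
  have hX : x₃ = xF a2 a4 a6 x y t u e := by
    unfold EqU at hU
    refine mul_left_cancel₀ htu ?_
    rw [hx₃]
    unfold xF nF
    linear_combination (u * (l * t - (1 + y * t ^ 3 * u) * e)) * hl' - hx₂ + e ^ 2 * hU +
      ((t ^ 2 * u * (a2 + 2 * x) + 1) * (e * (1 - x * t ^ 2 * u) + 1)) * he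
  refine ⟨hX, ?_⟩
  rw [hy₃, hX]
  unfold xF yF
  linear_combination (-(u * nF a2 a4 a6 x y t u * e ^ 2)) * hl'

end PTS

open _root_.Pool.Agent.TWT.PTS Pool.Agent.MU3.Val in
theorem t_PTS : S_PTS := by
  intro V W L X Y ξ G z R hz hR hRL t u ht hu
  obtain ⟨hzL, hXz⟩ := Pool.Agent.MUXV.int_X hz
  obtain ⟨vt, vt0, vxt⟩ := Pool.Agent.MUXV.v_tX_lt G hR hRL
  obtain ⟨hzR, -, -, -⟩ := Pool.Agent.MUXV.near G hz hR hRL
  obtain ⟨h1, e1⟩ := G.some z hzL
  obtain ⟨h2, e2⟩ := G.some R hRL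
  obtain ⟨h3, e3⟩ := G.some (z + R) (Pool.Agent.MUXV.int_X hzR).1
  rw [← ht] at vt vt0 vxt
  have hX0 : X R ≠ 0 := by
    intro h
    rw [h, map_zero, zero_mul] at vxt
    exact zero_ne_one vxt
  have ht0 : t ≠ 0 := fun h => vt0 (by rw [h, map_zero])
  have hY0 : Y R ≠ 0 := by
    intro h
    apply ht0
    rw [ht]
    unfold Pool.Agent.MUXV.tX
    rw [h, div_zero, neg_zero]
  have vu : V.valuation u = 1 := by
    rw [hu, map_div₀, map_one, map_mul, map_pow, vxt, div_one]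
  have hu0 : u ≠ 0 := by
    intro h
    rw [h, map_zero] at vu
    exact zero_ne_one vu
  have hx₂ : X R = 1 / (t ^ 2 * u) := by
    rw [hu]; field_simp
  have hy₂ : Y R = -(1 / (t ^ 3 * u)) := by
    have h4 : Y R * t = -X R := by
      rw [ht]
      unfold Pool.Agent.MUXV.tX
      field_simp
    have h5 : Y R = -X R / t := by rw [← h4]; field_simp
    rw [h5, hx₂]
    field_simp
  have hU : EqU W.a₂ W.a₄ W.a₆ t u := by
    have h4 := eqn G.int h2
    rw [hx₂, hy₂] at h4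
    unfold EqU
    field_simp at h4
    linear_combination h4
  have vs : V.valuation (X z * t ^ 2 * u) < 1 := by
    rw [map_mul, map_mul, map_pow, vu, mul_one]
    refine lt_of_le_of_lt (mul_le_of_le_one_left' hXz) (pow_lt_one₀ zero_le vt (by norm_num))
  have vD : V.valuation (1 - X z * t ^ 2 * u) = 1 := by
    rw [sub_eq_add_neg, V.valuation.map_add_eq_of_lt_left, map_one]
    rw [Valuation.map_neg, map_one]
    exact vs
  have hD : 1 - X z * t ^ 2 * u ≠ 0 := by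
    intro h
    rw [h, map_zero] at vD
    exact zero_ne_one vD
  have hx : X z ≠ X R := by
    intro h
    rw [hx₂] at h
    apply hD
    rw [h]
    field_simp
    ring
  obtain ⟨x₃, y₃, l, h₃, hadd, hl, hx₃, hy₃⟩ := add_form G.int h1 h2 hx
  rw [← e1, ← e2, ← map_add, e3] at hadd
  obtain ⟨rfl, rfl⟩ : X (z + R) = x₃ ∧ Y (z + R) = y₃ := by
    simpa using hadd
  have key := alg W.a₂ W.a₄ W.a₆ (X z) (Y z) t u (1 / (1 - X z * t ^ 2 * u)) l (X R) (Y R) _ _
    ht0 hu0 (one_div_mul_cancel hD) (by rw [hx₂]; field_simp) (by rw [hy₂]; field_simp) hU hl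
    hx₃ hy₃
  exact ⟨vu, hU, vD, key.1, key.2⟩

end Pool.Agent.TWT


end

section

/-!
# TWT, module TAF: the formal Taylor expansion modulo `T^p`
-/

set_option autoImplicit false

open PowerSeries

namespace Pool.Agent.TWT

namespace TAF

section
variable {A : Type} [CommRing A]

/-- the derivation at the variables -/
theorem dW_X (a2 a4 : A) (i : Fin 2) : dW a2 a4 (MvPolynomial.X i) =
    ![2 * MvPolynomial.X 1,
      3 * MvPolynomial.X 0 ^ 2 + 2 * MvPolynomial.C a2 * MvPolynomial.X 0 + MvPolynomial.C a4] i := by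
  unfold dW
  exact MvPolynomial.mkDerivation_X _ _ _

/-- the derivative of a polynomial in `gx, gy` -/
theorem d_aeval (a2 a4 : A) (gx gy κ : A⟦X⟧) (h1 : d⁄dX A gx = κ * (2 * gy))
    (h2 : d⁄dX A gy = κ * (3 * gx ^ 2 + 2 * PowerSeries.C a2 * gx + PowerSeries.C a4))
    (f : MvPolynomial (Fin 2) A) :
    d⁄dX A (MvPolynomial.aeval ![gx, gy] f) =
      κ * MvPolynomial.aeval ![gx, gy] (dW a2 a4 f) := by
  have hX : ∀ i : Fin 2, d⁄dX A ((![gx, gy] : Fin 2 → A⟦X⟧) i) =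
      κ * MvPolynomial.aeval ![gx, gy] (dW a2 a4 (MvPolynomial.X i)) := by
    intro i
    rw [dW_X]
    fin_cases i
    · simp only [Fin.zero_eta, Fin.isValue, Matrix.cons_val_zero, map_mul, map_ofNat,
        MvPolynomial.aeval_X, Matrix.cons_val_one, Matrix.cons_val_fin_one]
      exact h1
    · simp only [Fin.mk_one, Fin.isValue, Matrix.cons_val_one, Matrix.cons_val_fin_one, map_add,
        map_mul, map_ofNat, map_pow, MvPolynomial.aeval_X, Matrix.cons_val_zero,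
        MvPolynomial.aeval_C]
      exact h2
  induction f using MvPolynomial.induction_on with
  | C a =>
    have e1 : dW a2 a4 (MvPolynomial.C a) = 0 := (dW a2 a4).map_algebraMap a
    rw [e1, map_zero, mul_zero, MvPolynomial.aeval_C]
    exact (d⁄dX A).map_algebraMap a
  | add p q hp hq => rw [map_add, map_add, hp, hq, map_add, map_add, mul_add]
  | mul_X p i hp =>
    rw [map_mul, MvPolynomial.aeval_X, Derivation.leibniz, hp, hX i, Derivation.leibniz, map_add,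
      smul_eq_mul, smul_eq_mul, smul_eq_mul, smul_eq_mul, map_mul, map_mul, MvPolynomial.aeval_X]
    ring

/-- the derivative of the truncated logarithm -/
theorem coeff_d_lam {p : ℕ} (hu : ∀ j : ℕ, 0 < j → j < p → IsUnit (j : A)) (κ : A⟦X⟧) {j : ℕ}
    (hj : j + 1 < p) : PowerSeries.coeff j (d⁄dX A (lamF p κ)) = PowerSeries.coeff j κ := by
  rw [PowerSeries.coeff_derivative, lamF, PowerSeries.coeff_mk, if_pos ⟨Nat.succ_pos j, hj⟩,
    Nat.add_sub_cancel, mul_assoc]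
  have h := Ring.inverse_mul_cancel _ (hu (j + 1) (Nat.succ_pos j) hj)
  push_cast at h ⊢
  rw [h, mul_one]

/-- the constant coefficient of the logarithm -/
theorem X_dvd_lam (p : ℕ) (κ : A⟦X⟧) : (PowerSeries.X : A⟦X⟧) ∣ lamF p κ := by
  rw [PowerSeries.X_dvd_iff, lamF, ← PowerSeries.coeff_zero_eq_constantCoeff_apply,
    PowerSeries.coeff_mk, if_neg (by omega)]

/-- the factorials below `p` are units -/
theorem isUnit_fac {p : ℕ} (hu : ∀ j : ℕ, 0 < j → j < p → IsUnit (j : A)) :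
    ∀ k : ℕ, k < p → IsUnit (k.factorial : A) := by
  intro k
  induction k with
  | zero => intro _; simp
  | succ k ih =>
    intro hk
    rw [Nat.factorial_succ, Nat.cast_mul]
    exact (hu (k + 1) (Nat.succ_pos k) hk).mul (ih (by omega))

/-- `(k+1) / (k+1)! = 1 / k!` -/
theorem inv_fac {p : ℕ} (hu : ∀ j : ℕ, 0 < j → j < p → IsUnit (j : A)) {k : ℕ} (hk : k + 1 < p) :
    Ring.inverse ((k + 1).factorial : A) * ((k + 1 : ℕ) : A) = Ring.inverse (k.factorial : A) := by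
  rw [Nat.factorial_succ, Nat.cast_mul, Ring.mul_inverse_rev, mul_assoc,
    Ring.inverse_mul_cancel _ (hu (k + 1) (Nat.succ_pos k) hk), mul_one]

/-- the coefficients of the expansion -/
noncomputable def cf (a2 a4 x y : A) (f : MvPolynomial (Fin 2) A) (k : ℕ) : A :=
  MvPolynomial.aeval ![x, y] ((dW a2 a4)^[k] f) * Ring.inverse (k.factorial : A)

theorem cf_succ {p : ℕ} (hu : ∀ j : ℕ, 0 < j → j < p → IsUnit (j : A)) (a2 a4 x y : A)
    (f : MvPolynomial (Fin 2) A) {k : ℕ} (hk : k + 1 < p) :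
    cf a2 a4 x y f (k + 1) * ((k + 1 : ℕ) : A) = cf a2 a4 x y (dW a2 a4 f) k := by
  unfold cf
  rw [mul_assoc, inv_fac hu hk, Function.iterate_succ_apply]

/-- the expansion -/
noncomputable def ex (p : ℕ) (a2 a4 x y : A) (κ : A⟦X⟧) (f : MvPolynomial (Fin 2) A) : A⟦X⟧ :=
  ∑ k ∈ Finset.range p, PowerSeries.C (cf a2 a4 x y f k) * lamF p κ ^ k

/-- the derivative of the expansion -/
theorem d_ex {p : ℕ} (hu : ∀ j : ℕ, 0 < j → j < p → IsUnit (j : A)) (a2 a4 x y : A) (κ : A⟦X⟧)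
    (f : MvPolynomial (Fin 2) A) {j : ℕ} (hj : j + 1 < p) :
    PowerSeries.coeff j (d⁄dX A (ex p a2 a4 x y κ f)) =
      PowerSeries.coeff j (κ * ex p a2 a4 x y κ (dW a2 a4 f)) := by
  obtain ⟨P, rfl⟩ : ∃ P, p = P + 1 := ⟨p - 1, by omega⟩
  obtain ⟨S, hS⟩ : ∃ S : A⟦X⟧, S = ∑ k ∈ Finset.range P,
      PowerSeries.C (cf a2 a4 x y (dW a2 a4 f) k) * lamF (P + 1) κ ^ k := ⟨_, rfl⟩
  have e1 : d⁄dX A (ex (P + 1) a2 a4 x y κ f) = S * d⁄dX A (lamF (P + 1) κ) := by
    unfold ex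
    rw [map_sum, Finset.sum_range_succ', hS, Finset.sum_mul]
    have e0 : d⁄dX A (PowerSeries.C (cf a2 a4 x y f 0) * lamF (P + 1) κ ^ 0) = 0 := by
      rw [pow_zero, mul_one]
      exact (d⁄dX A).map_algebraMap _
    rw [e0, add_zero]
    refine Finset.sum_congr rfl fun k hk => ?_
    have hk' : k + 1 < P + 1 := by
      have := Finset.mem_range.1 hk
      omega
    rw [← PowerSeries.smul_eq_C_mul, Derivation.map_smul, Derivation.leibniz_pow,
      Nat.add_sub_cancel, ← cf_succ hu a2 a4 x y f hk', PowerSeries.smul_eq_C_mul, map_mul,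
      map_natCast, nsmul_eq_mul, smul_eq_mul]
    ring
  have e2 : ex (P + 1) a2 a4 x y κ (dW a2 a4 f) =
      S + PowerSeries.C (cf a2 a4 x y (dW a2 a4 f) P) * lamF (P + 1) κ ^ P := by
    unfold ex
    rw [Finset.sum_range_succ, hS]
  have e3 : ∀ b < P, PowerSeries.coeff b (lamF (P + 1) κ ^ P) = 0 :=
    PowerSeries.X_pow_dvd_iff.1 (pow_dvd_pow_of_dvd (X_dvd_lam (P + 1) κ) P)
  rw [e1, e2, mul_comm S, PowerSeries.coeff_mul, PowerSeries.coeff_mul]
  refine Finset.sum_congr rfl fun ab hab => ?_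
  have h4 := Finset.HasAntidiagonal.mem_antidiagonal.1 hab
  rw [coeff_d_lam hu κ (by omega : ab.1 + 1 < P + 1), map_add, PowerSeries.coeff_C_mul,
    e3 ab.2 (by omega), mul_zero, add_zero]

/-- the constant coefficient -/
theorem coeff_zero {p : ℕ} (hp : 0 < p) (a2 a4 : A) (gx gy κ : A⟦X⟧)
    (f : MvPolynomial (Fin 2) A) :
    PowerSeries.coeff 0 (MvPolynomial.aeval ![gx, gy] f) =
      PowerSeries.coeff 0 (ex p a2 a4 (PowerSeries.constantCoeff gx)
        (PowerSeries.constantCoeff gy) κ f) := by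
  obtain ⟨P, rfl⟩ : ∃ P, p = P + 1 := ⟨p - 1, by omega⟩
  have e1 : PowerSeries.coeff 0 (ex (P + 1) a2 a4 (PowerSeries.constantCoeff gx)
      (PowerSeries.constantCoeff gy) κ f) = MvPolynomial.aeval
        ![PowerSeries.constantCoeff gx, PowerSeries.constantCoeff gy] f := by
    unfold ex
    rw [map_sum, Finset.sum_range_succ']
    have h0 : ∀ k ∈ Finset.range P, PowerSeries.coeff 0 (PowerSeries.C (cf a2 a4
        (PowerSeries.constantCoeff gx) (PowerSeries.constantCoeff gy) f (k + 1)) *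
          lamF (P + 1) κ ^ (k + 1)) = 0 := by
      intro k _
      have h := PowerSeries.X_dvd_iff.1 (X_dvd_lam (P + 1) κ)
      rw [PowerSeries.coeff_zero_eq_constantCoeff_apply, map_mul, map_pow, h, pow_succ, mul_zero,
        mul_zero]
    rw [Finset.sum_eq_zero h0, zero_add, pow_zero, mul_one,
      PowerSeries.coeff_zero_eq_constantCoeff_apply, PowerSeries.constantCoeff_C]
    unfold cf
    simp
  rw [e1, PowerSeries.coeff_zero_eq_constantCoeff_apply]
  clear e1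
  induction f using MvPolynomial.induction_on with
  | C a =>
    rw [MvPolynomial.aeval_C, MvPolynomial.aeval_C]
    exact PowerSeries.constantCoeff_C a
  | add p q hp hq =>
    rw [map_add, map_add, map_add, hp, hq]
  | mul_X p i hp =>
    rw [map_mul, map_mul, map_mul, hp, MvPolynomial.aeval_X, MvPolynomial.aeval_X]
    fin_cases i <;> rfl

/-- the expansion, by induction on the coefficient -/
theorem main {p : ℕ} (hu : ∀ j : ℕ, 0 < j → j < p → IsUnit (j : A)) (a2 a4 : A)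
    (gx gy κ : A⟦X⟧) (h1 : d⁄dX A gx = κ * (2 * gy))
    (h2 : d⁄dX A gy = κ * (3 * gx ^ 2 + 2 * PowerSeries.C a2 * gx + PowerSeries.C a4)) :
    ∀ (j : ℕ), j < p → ∀ f : MvPolynomial (Fin 2) A,
      PowerSeries.coeff j (MvPolynomial.aeval ![gx, gy] f) =
        PowerSeries.coeff j (ex p a2 a4 (PowerSeries.constantCoeff gx)
          (PowerSeries.constantCoeff gy) κ f) := by
  intro j
  induction j using Nat.strong_induction_on with
  | _ j ih =>
    intro hj f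
    rcases Nat.eq_zero_or_pos j with h0 | h0
    · rw [h0]
      exact coeff_zero (by omega) a2 a4 gx gy κ f
    · obtain ⟨i, rfl⟩ : ∃ i, j = i + 1 := ⟨j - 1, by omega⟩
      have hunit : IsUnit ((i : A) + 1) := by
        have := hu (i + 1) (Nat.succ_pos i) hj
        push_cast at this
        exact this
      refine hunit.mul_right_cancel ?_
      rw [← PowerSeries.coeff_derivative, ← PowerSeries.coeff_derivative,
        d_aeval a2 a4 gx gy κ h1 h2, d_ex hu _ _ _ _ _ _ hj, PowerSeries.coeff_mul,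
        PowerSeries.coeff_mul]
      refine Finset.sum_congr rfl fun ab hab => ?_
      have h4 := Finset.HasAntidiagonal.mem_antidiagonal.1 hab
      rw [ih ab.2 (by omega) (by omega)]

end

end TAF

theorem t_TAF : S_TAF := by
  intro A _ p hu a2 a4 gx gy κ h1 h2 f j hj
  exact TAF.main hu a2 a4 gx gy κ h1 h2 j hj f

end Pool.Agent.TWT


end

section

/-!
# TWT, module THT (helper49): `Θ_a` and its logarithmic derivative as polynomials
-/

set_option autoImplicit false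

open WeierstrassCurve

namespace Pool.Agent.TWT

open _root_.MU3 Pool.Agent.MU3A Pool.Agent.MU3B Pool.Agent.MUX Pool.Agent.MUXU
open Pool.Agent.MUXV (GR InK tX)

noncomputable section

namespace THT

lemma aeval_prod {V : ValuationSubring ℂ} (a2 a4 : V) (x y : ℂ) (c : ℂ → V) (H : Finset ℂ)
    (h : ∀ q ∈ H, x - (c q : ℂ) ≠ 0) :
    MvPolynomial.aeval ![x, y] (∏ q ∈ H, (MvPolynomial.X 0 - MvPolynomial.C (c q))) =
      ∏ q ∈ H, (x - (c q : ℂ)) ∧
    MvPolynomial.aeval ![x, y]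
      (dW a2 a4 (∏ q ∈ H, (MvPolynomial.X 0 - MvPolynomial.C (c q)))) =
      (∏ q ∈ H, (x - (c q : ℂ))) * ∑ q ∈ H, 2 * y / (x - (c q : ℂ)) := by
  classical
  have e0 : ∀ q, MvPolynomial.aeval ![x, y]
      (MvPolynomial.X 0 - MvPolynomial.C (c q) : MvPolynomial (Fin 2) V) = x - (c q : ℂ) := by
    intro q
    rw [map_sub, MvPolynomial.aeval_X, MvPolynomial.aeval_C]
    rfl
  have e1 : ∀ q, MvPolynomial.aeval ![x, y]
      (dW a2 a4 (MvPolynomial.X 0 - MvPolynomial.C (c q) : MvPolynomial (Fin 2) V)) = 2 * y := by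
    intro q
    rw [map_sub]
    have h1 : dW a2 a4 (MvPolynomial.X 0) = 2 * MvPolynomial.X 1 := by
      unfold dW
      rw [MvPolynomial.mkDerivation_X]
      rfl
    have h2 : dW a2 a4 (MvPolynomial.C (c q)) = 0 := by
      exact MvPolynomial.derivation_C _ _
    rw [h1, h2, sub_zero, map_mul, MvPolynomial.aeval_X, map_ofNat]
    rfl
  induction H using Finset.induction_on with
  | empty => simp
  | insert q H hq ih =>
    obtain ⟨i1, i2⟩ := ih fun q' hq' => h q' (Finset.mem_insert_of_mem hq')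
    have hn := h q (Finset.mem_insert_self _ _)
    rw [Finset.prod_insert hq, Finset.prod_insert hq, Finset.sum_insert hq]
    refine ⟨by rw [map_mul, e0, i1], ?_⟩
    rw [Derivation.leibniz, map_add, smul_eq_mul, smul_eq_mul, map_mul, map_mul, i2, e0, e1, i1]
    field_simp
    ring

end THT

open _root_.Pool.Agent.TWT.THT in
theorem t_THT : S_THT := by
  intro V W L ξ G a H ha hva hH a2 a4
  classical
  have hK : ∀ q ∈ H, ¬ InK V L (xn L) q := by
    intro q hq hk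
    have h1 := Pool.Agent.MUXV.mem_of_nat_mul G hk hva (hH.mem q hq)
    apply hH.ne q hq
    rw [two_mul]
    exact add_mem h1 h1
  let c : ℂ → V := fun q => if h : xn L q ∈ V then ⟨xn L q, h⟩ else 0
  have hc : ∀ q ∈ H, (c q : ℂ) = xn L q := by
    intro q hq
    have h1 : xn L q ∈ V :=
      (ValuationSubring.valuation_le_one_iff _ _).1 (Pool.Agent.MUXV.int_X (hK q hq)).2
    show ((if h : xn L q ∈ V then (⟨xn L q, h⟩ : V) else 0 : V) : ℂ) = xn L q
    rw [dif_pos h1]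
  refine ⟨∏ q ∈ H, (MvPolynomial.X 0 - MvPolynomial.C (c q)), ?_⟩
  intro z hz haz
  have hsub : ∀ q ∈ H, V.valuation (xn L z - (c q : ℂ)) = 1 := by
    intro q hq
    rw [hc q hq]
    have hq' : InK V L (xn L) ((a : ℂ) * q) := Or.inl (hH.mem q hq)
    apply Pool.Agent.MUXV.v_X_sub G hz (hK q hq)
    · intro hk
      apply haz
      have h1 := Pool.Agent.MUXV.inK_nat G hk a
      refine (Pool.Agent.MUXV.inK_congr G (z := (a : ℂ) * (z + q)) (w := (a : ℂ) * z) ?_).1 h1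
      have : (a : ℂ) * (z + q) - (a : ℂ) * z = (a : ℂ) * q := by ring
      rw [this]
      exact hq'
    · intro hk
      apply haz
      have h1 := Pool.Agent.MUXV.inK_nat G hk a
      refine (Pool.Agent.MUXV.inK_congr G (z := (a : ℂ) * (z - q)) (w := (a : ℂ) * z) ?_).1 h1
      have : (a : ℂ) * (z - q) - (a : ℂ) * z = -((a : ℂ) * q) := by ring
      rw [this]
      exact Pool.Agent.MUXV.inK_neg G hq'
  have hne : ∀ q ∈ H, xn L z - (c q : ℂ) ≠ 0 := by
    intro q hq h0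
    have := hsub q hq
    rw [h0, map_zero] at this
    exact zero_ne_one this
  obtain ⟨e1, e2⟩ := aeval_prod a2 a4 (xn L z) (yy L z) c H hne
  have hT : ∏ q ∈ H, (xn L z - (c q : ℂ)) = ThetaH L H z := by
    unfold ThetaH
    refine Finset.prod_congr rfl fun q hq => ?_
    rw [hc q hq]
    unfold xn
    ring
  have hazL : (a : ℂ) * z ∉ L.lattice := fun h => haz (Or.inl h)
  have hnn : ‖(a : ℂ)‖ = (a : ℝ) := by simp
  obtain ⟨d1, -⟩ := b_TDL L (a : ℂ) H (by
      have : a ≠ 0 := by omega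
      exact_mod_cast this) (by
      intro w hw
      have := nsmul_mem hw a
      rwa [nsmul_eq_mul] at this) hH z hazL
  have hS : ∑ q ∈ H, 2 * yy L z / (xn L z - (c q : ℂ)) = dlX L a z := by
    have h1 : ∑ q ∈ H, 2 * yy L z / (xn L z - (c q : ℂ)) =
        ∑ q ∈ H, L.derivWeierstrassP z / (L.weierstrassP z - L.weierstrassP q) := by
      refine Finset.sum_congr rfl fun q hq => ?_
      rw [hc q hq]
      unfold xn yy
      congr 1 <;> ring
    rw [h1, d1]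
    unfold dlX
    rw [hnn]
    push_cast
    ring
  refine ⟨by rw [e1, hT], ?_, by rw [e2, hT, hS], ?_⟩
  · rw [← hT, map_prod]
    exact Finset.prod_eq_one hsub
  · rw [← hS]
    refine V.valuation.map_sum_le fun q hq => ?_
    rw [map_div₀, map_mul, hsub q hq, div_one, G.two, one_mul]
    exact Pool.Agent.MUXV.int_Y G hz

end

end Pool.Agent.TWT


end

section

/-!
# TWT (UEX): existence of the power series `U = w / T³` by fixed point iteration
-/

set_option autoImplicit false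

open WeierstrassCurve Polynomial PowerSeries

namespace Pool.Agent.TWT

noncomputable section

namespace UEX

variable {A : Type} [CommRing A]

/-- the right side of the equation of `U` -/
def Phi (a2 a4 a6 : A) (F : A⟦X⟧) : A⟦X⟧ :=
  1 + PowerSeries.C a2 * PowerSeries.X ^ 2 * F + PowerSeries.C a4 * PowerSeries.X ^ 4 * F ^ 2 +
    PowerSeries.C a6 * PowerSeries.X ^ 6 * F ^ 3

theorem phi_dvd (a2 a4 a6 : A) (k : ℕ) (F G : A⟦X⟧)
    (h : (PowerSeries.X : A⟦X⟧) ^ k ∣ F - G) :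
    (PowerSeries.X : A⟦X⟧) ^ (k + 2) ∣ Phi a2 a4 a6 F - Phi a2 a4 a6 G := by
  obtain ⟨H, hH⟩ := h
  refine ⟨H * (PowerSeries.C a2 + PowerSeries.C a4 * PowerSeries.X ^ 2 * (F + G) +
    PowerSeries.C a6 * PowerSeries.X ^ 4 * (F ^ 2 + F * G + G ^ 2)), ?_⟩
  have : Phi a2 a4 a6 F - Phi a2 a4 a6 G = (F - G) * PowerSeries.X ^ 2 *
      (PowerSeries.C a2 + PowerSeries.C a4 * PowerSeries.X ^ 2 * (F + G) +
    PowerSeries.C a6 * PowerSeries.X ^ 4 * (F ^ 2 + F * G + G ^ 2)) := by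
    unfold Phi
    ring
  rw [this, hH, pow_add]
  ring

/-- the iterates -/
def It (a2 a4 a6 : A) (n : ℕ) : A⟦X⟧ := (Phi a2 a4 a6)^[n] 1

theorem it_succ (a2 a4 a6 : A) (n : ℕ) :
    It a2 a4 a6 (n + 1) = Phi a2 a4 a6 (It a2 a4 a6 n) := by
  unfold It
  rw [Function.iterate_succ_apply']

theorem it_step (a2 a4 a6 : A) (n : ℕ) :
    (PowerSeries.X : A⟦X⟧) ^ (n + 1) ∣ It a2 a4 a6 (n + 1) - It a2 a4 a6 n := by
  induction n with
  | zero =>
    rw [it_succ]
    have h0 : It a2 a4 a6 0 = 1 := rfl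
    rw [h0]
    refine ⟨PowerSeries.C a2 * PowerSeries.X + PowerSeries.C a4 * PowerSeries.X ^ 3 +
      PowerSeries.C a6 * PowerSeries.X ^ 5, ?_⟩
    unfold Phi
    ring
  | succ n ih =>
    rw [it_succ a2 a4 a6 (n + 1), it_succ a2 a4 a6 n]
    rw [it_succ a2 a4 a6 n] at ih
    exact dvd_trans (pow_dvd_pow _ (by omega)) (phi_dvd a2 a4 a6 (n + 1) _ _ ih)

theorem it_far (a2 a4 a6 : A) (n j : ℕ) :
    (PowerSeries.X : A⟦X⟧) ^ (n + 1) ∣ It a2 a4 a6 (n + j) - It a2 a4 a6 n := by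
  induction j with
  | zero => simp
  | succ j ih =>
    have h1 : (PowerSeries.X : A⟦X⟧) ^ (n + 1) ∣
        It a2 a4 a6 (n + j + 1) - It a2 a4 a6 (n + j) :=
      dvd_trans (pow_dvd_pow _ (by omega)) (it_step a2 a4 a6 (n + j))
    have h2 := dvd_add h1 ih
    have h3 : It a2 a4 a6 (n + j + 1) - It a2 a4 a6 (n + j) +
        (It a2 a4 a6 (n + j) - It a2 a4 a6 n) = It a2 a4 a6 (n + (j + 1)) - It a2 a4 a6 n := by
      rw [← add_assoc]
      ring
    rwa [h3] at h2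

theorem it_coeff (a2 a4 a6 : A) (n m : ℕ) (h : n ≤ m) :
    PowerSeries.coeff n (It a2 a4 a6 m) = PowerSeries.coeff n (It a2 a4 a6 n) := by
  obtain ⟨j, rfl⟩ := Nat.exists_eq_add_of_le h
  have h1 := it_far a2 a4 a6 n j
  rw [PowerSeries.X_pow_dvd_iff] at h1
  have h2 := h1 n (Nat.lt_succ_self n)
  rw [map_sub] at h2
  exact sub_eq_zero.mp h2

/-- the limit -/
def Lim (a2 a4 a6 : A) : A⟦X⟧ :=
  PowerSeries.mk fun n => PowerSeries.coeff n (It a2 a4 a6 n)

theorem lim_dvd (a2 a4 a6 : A) (m : ℕ) :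
    (PowerSeries.X : A⟦X⟧) ^ (m + 1) ∣ Lim a2 a4 a6 - It a2 a4 a6 m := by
  rw [PowerSeries.X_pow_dvd_iff]
  intro k hk
  rw [map_sub, Lim, PowerSeries.coeff_mk, it_coeff a2 a4 a6 k m (by omega), sub_self]

theorem lim_fix (a2 a4 a6 : A) : Lim a2 a4 a6 = Phi a2 a4 a6 (Lim a2 a4 a6) := by
  have key : ∀ m : ℕ, (PowerSeries.X : A⟦X⟧) ^ (m + 1) ∣
      Lim a2 a4 a6 - Phi a2 a4 a6 (Lim a2 a4 a6) := by
    intro m
    have h1 : (PowerSeries.X : A⟦X⟧) ^ (m + 1) ∣ Lim a2 a4 a6 - It a2 a4 a6 (m + 1) :=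
      dvd_trans (pow_dvd_pow _ (by omega)) (lim_dvd a2 a4 a6 (m + 1))
    have h2 : (PowerSeries.X : A⟦X⟧) ^ (m + 1) ∣
        Phi a2 a4 a6 (Lim a2 a4 a6) - Phi a2 a4 a6 (It a2 a4 a6 m) :=
      dvd_trans (pow_dvd_pow _ (by omega)) (phi_dvd a2 a4 a6 (m + 1) _ _ (lim_dvd a2 a4 a6 m))
    rw [← it_succ] at h2
    have h3 := dvd_sub h1 h2
    have h4 : Lim a2 a4 a6 - It a2 a4 a6 (m + 1) -
        (Phi a2 a4 a6 (Lim a2 a4 a6) - It a2 a4 a6 (m + 1)) =
        Lim a2 a4 a6 - Phi a2 a4 a6 (Lim a2 a4 a6) := by ring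
    rwa [h4] at h3
  ext m
  have h := key m
  rw [PowerSeries.X_pow_dvd_iff] at h
  have h2 := h m (Nat.lt_succ_self m)
  rw [map_sub] at h2
  exact sub_eq_zero.mp h2

end UEX

theorem t_UEX : S_UEX := by
  intro A _ a2 a4 a6
  refine ⟨UEX.Lim a2 a4 a6, ?_, ?_⟩
  · rw [← PowerSeries.coeff_zero_eq_constantCoeff_apply, UEX.Lim, PowerSeries.coeff_mk]
    have h0 : UEX.It a2 a4 a6 0 = 1 := rfl
    rw [h0]
    simp
  · exact UEX.lim_fix a2 a4 a6

end

end Pool.Agent.TWT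


end

section

/-!
# TWT (UQN): uniqueness of the solution `u` of the equation of the Weierstrass series for nilpotent `s`
-/

set_option autoImplicit false

open WeierstrassCurve Polynomial PowerSeries

namespace Pool.Agent.TWT

noncomputable section

namespace UQN

theorem key {S : Type} [CommRing S] (a2 a4 a6 s u u' : S) (h : EqU a2 a4 a6 s u)
    (h' : EqU a2 a4 a6 s u') :
    (1 - s * (s * (a2 + a4 * s ^ 2 * (u + u') + a6 * s ^ 4 * (u ^ 2 + u * u' + u' ^ 2)))) *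
      (u - u') = 0 := by
  unfold EqU at h h'
  linear_combination h - h'

end UQN

/-- the solution of the equation of `U` is unique when `s` is nilpotent -/
theorem t_UQN : S_UQN := by
  intro S _ a2 a4 a6 s u u' n hs h h'
  have hnil : IsNilpotent
      (s * (s * (a2 + a4 * s ^ 2 * (u + u') + a6 * s ^ 4 * (u ^ 2 + u * u' + u' ^ 2)))) := by
    refine ⟨n, ?_⟩
    rw [mul_pow, hs, zero_mul]
  have hunit := hnil.isUnit_one_sub
  have hk := UQN.key a2 a4 a6 s u u' h h'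
  exact sub_eq_zero.mp ((hunit.mul_right_eq_zero).mp hk)

end

end Pool.Agent.TWT


end

section

/-!
# TWT, block A, part 2 (helper3): the points of `E[P]` on the lattices `L_i`

Same conventions as in `StT1.lean`. `Sx_..`, `Sq_..` of block R of MUX are proved in `Pool/Agent/MUX/RQ0.lean` (`Pool.Agent.MUXV.x_MIN`, `q_ISQ`, ..). `XLib.lean` (namespace `Pool.Agent.MUX`): `mul_cjI`, `mul_cancel`, `nI_ne_zero`, ...
-/

set_option autoImplicit false

open WeierstrassCurve Polynomial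

namespace Pool.Agent.TWT

open _root_.MU3 Pool.Agent.MU3A Pool.Agent.MU3B Pool.Agent.MUX Pool.Agent.MUXU
open Pool.Agent.MUXV (GR InK tX)

noncomputable section

/-- (PIS) the lattice `P⁻¹ L_i` is homothetic to some `L_j`; good reduction of the `L_i`.

USES `Sc_QCR` (or directly), `Sx_NGR` (`RQAll.lean`), `XLib.lean`. PROOF. `GR`: (NGR), `v 2 = 1`, `kp = kap` by definition, `12 g₂ = 1 + 1728 kap`. `R.surj (cjI P * b_i)`: `sp x * (cjI P * b_i) = sp y * b_j`, `x, y ≠ 0`; multiply by `P`: `sp (x p) * b_i = sp y * (P * b_j)` (`P * cjI P = sp p`, `mul_cjI`). (QCR): `IsQ P L_i L_j mu`, `mu = om_j emb (x p)/(om_i emb y)`. -/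
def S_PIS : Prop :=
  ∀ (p : ℕ) (A B : ℤ) (P : Ideal (OO A B)) (V : ValuationSubring ℂ) (f : ℕ),
    SetG p A B P V f → ∀ (ι : Type) (R : Reps A B (p * f) ι), GRd V R →
    (∀ i, ∃ (W : WeierstrassCurve.Affine ℂ) (ξ : ℂ →+ W.Point),
      GR V W (R.L i) (xn (R.L i)) (yy (R.L i)) ξ) ∧
    V.valuation (p : ℂ) < 1 ∧ (∀ j : ℤ, ¬ (p : ℤ) ∣ j → V.valuation (j : ℂ) = 1) ∧
    (∀ i, ∃ (j : ι) (mu : ℂ), IsQ P (R.L i) (R.L j) mu) ∧
    ∀ i, muX R i ≠ 0 ∧ Isg (R.L R.i0) (R.L i) (muX R i) ∧ V.valuation (muX R i) = 1 ∧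
      Odd (nI (R.b i)) ∧ V.valuation ((nI (R.b i) : ℕ) : ℂ) = 1 ∧
      ∀ z, muX R i * z ∈ (R.L i).lattice → ((nI (R.b i) : ℕ) : ℂ) * z ∈ (R.L R.i0).lattice

/-- (KEP) the valuation of the parameter of the points of `E[P]`.

USES PIS, Sq_ISQ, Sx_TRA, Sx_MLT, Sx_R2, Sq_AEL, Sq_VQI (all proved, see `Pool/Agent/MUX/RQAll.lean`). PROOF. `L = L_i`, `j, mu` (PIS), `M = L_j`. (1) (ISQ) for `Q = P`, `q = p` (`p ≠ 2`, `p ∤ B² + 4A = -absD`): `IsoV V L M (1/12) (1/12) mu p H` and `v mu < 1` (`P` is below `V`). (2) `v mu = v p`: let `Q = cjI P`, `mu' = p/mu`: `IsQ Q M L mu'`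
(`z = mu z'`: `mu' z = p z' ∈ L` iff `emb x emb y z' ∈ L` for all `x ∈ P`, `y ∈ Q` (`P * Q = sp p`) iff `emb y z = mu (emb y z') ∈ M` for all `y ∈ Q`). (AEL) for `Q` (norm `p`): `a ∈ Q`, `a ≠ 0`, `c` odd, `p ∤ c`, `emb a z ∈ M → emb y (c z) ∈ M` for all `y ∈ Q`. `a ∉ P`: otherwise take `z ∉ M` with `P z ⊆ M` (exists: `P⁻¹ M ≠ M`, e.g. by (PIS), (CYQ) or (TRB); or `z = mu z₁`, ..): `emb a z ∈ M`,
so `Q (c z) ⊆ M`, `P (c z) ⊆ M`, `P + Q = O` (`p ∤ D`), so `c z ∈ M`, `p z ∈ M`, `z ∈ M`. So `v(emb a) = 1` (VQI). (MLT) with `n = c` for `mu' : M → L`: `Isg L M (emb a/mu')` (`z ∈ L`, `z = mu' z'`, `Q z' ⊆ M`, `(emb a/mu') z = emb a z' ∈ M`), kernel: `emb a z' ∈ M` gives `Q (c z') ⊆ M`, `mu' (c z') = c z ∈ L`. So `v mu' = v(emb a) = 1`, `v mu = v p`.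
(3) (TRA): for `z ∈ P⁻¹ L`, `z ∉ L`: `v(mu) v(xn L z)^((p-1)/2) = 1`; (R2): `z` is in the kernel of reduction; `v(xn L z) v(tX z)² = 1` (`v_tX_lt`), so `v(tX z)^(p-1) = v(mu) = v(p)`. -/
def S_KEP : Prop :=
  ∀ (p : ℕ) (A B : ℤ) (P : Ideal (OO A B)) (V : ValuationSubring ℂ) (f : ℕ),
    SetG p A B P V f → ∀ (ι : Type) (R : Reps A B (p * f) ι), GRd V R → ∀ (i : ι) (z : ℂ),
    Tor P (R.L i) z → z ∉ (R.L i).lattice → InK V (R.L i) (xn (R.L i)) z ∧
      V.valuation (tX (xn (R.L i)) (yy (R.L i)) z) ^ (p - 1) = V.valuation (p : ℂ)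

/-- (PTA) the points `pt R p i y0`.

PROOF. `pt R p i y0 = mu_i (om_0 emb y0/p)`, `mu_i = om_i N(b_i)/om_0` (definitions). `R.b0`, `IsLI`: `L_0 = om_0 emb O`. `x ∈ P`: `x y0 ∈ P * cjI P = sp p` (`mul_cjI`, `nI P = p`), so `emb x (om_0 emb y0/p) ∈ L_0`. `om_0 emb y0/p ∈ L_0` would give `y0 = p x ∈ P`. `p ∈ P`. -/
def S_PTA : Prop :=
  ∀ (p : ℕ) (A B : ℤ) (P : Ideal (OO A B)) (V : ValuationSubring ℂ) (f : ℕ),
    SetG p A B P V f → ∀ (ι : Type) (R : Reps A B (p * f) ι) (y0 : OO A B), y0 ∈ cjI P →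
    y0 ∉ P → Tor P (R.L R.i0) (R.om R.i0 * emb y0 / p) ∧
      R.om R.i0 * emb y0 / p ∉ (R.L R.i0).lattice ∧
      (∀ i, pt R p i y0 = muX R i * (R.om R.i0 * emb y0 / p)) ∧
      ∀ i, Isg (R.L R.i0) (R.L i) (muX R i) → Tor P (R.L i) (pt R p i y0) ∧
        (p : ℂ) * pt R p i y0 ∈ (R.L i).lattice

end

end Pool.Agent.TWT


end

section

/-!
# TWT, block A: assembly (helper3)
-/

set_option autoImplicit false

open WeierstrassCurve Polynomial

namespace Pool.Agent.TWT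

open _root_.MU3 Pool.Agent.MU3A Pool.Agent.MU3B Pool.Agent.MUX Pool.Agent.MUXU
open Pool.Agent.MUXV (GR InK tX)

noncomputable section

theorem t_KEYA (hKEY : S_KEY) (hFOI : S_FOI) (hPIS : S_PIS) (hKEP : S_KEP) (hPTA : S_PTA) :
    S_KEYA := by
  intro p A B P V f hS ι _ R hG y0 hy0 hy0P
  obtain ⟨hGR, hp1, hint, -, hmu⟩ := hPIS p A B P V f hS ι R hG
  obtain ⟨hT0, hR0, hpt, hTi⟩ := hPTA p A B P V f hS ι R y0 hy0 hy0P
  set R0 : ℂ := R.om R.i0 * emb y0 / p with hR0d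
  have hunit : ∀ j : ℕ, 0 < j → j < p → V.valuation (j : ℂ) = 1 := by
    intro j h0 h1
    have := hint (j : ℤ) (fun h => by
      have h2 := Int.le_of_dvd (by exact_mod_cast h0) h
      have h3 : p ≤ j := by exact_mod_cast h2
      omega)
    simpa using this
  obtain ⟨hK0, hv0⟩ := hKEP p A B P V f hS ι R hG R.i0 R0 hT0 hR0
  set t0 := tX (xn (R.L R.i0)) (yy (R.L R.i0)) R0 with ht0
  have hp0 : V.valuation (p : ℂ) ≠ 0 := by
    rw [(Valuation.ne_zero_iff _)]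
    exact_mod_cast hS.pp.ne_zero
  have hp5 := hS.p5
  have hτ0 : V.valuation t0 ≠ 0 := by
    intro h
    rw [h, zero_pow (by omega)] at hv0
    exact hp0 hv0.symm
  have hτ1 : V.valuation t0 < 1 := by
    by_contra h
    push Not at h
    have h2 : 1 ≤ V.valuation t0 ^ (p - 1) := one_le_pow₀ h
    rw [hv0] at h2
    exact absurd h2 (not_le.2 hp1)
  set τ := V.valuation t0 with hτ
  refine ⟨t0, hv0, fun h => hτ0 (by rw [hτ, h, map_zero]), ?_⟩
  intro i a H ha1 hac hH z hz hz2 haz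
  obtain ⟨hμ0, hIsg, hvμ, hodd, hvn, hker⟩ := hmu i
  have hfoi := hFOI V (R.L R.i0) (R.L i) (muX R i) (nI (R.b i)) (hGR R.i0) (hGR i) hμ0 hIsg hodd
    hvn hker hvμ R0 hK0 hR0
  rw [← hpt i] at hfoi
  obtain ⟨hKi, hRi, hti⟩ := hfoi
  obtain ⟨hTori, hpRi⟩ := hTi i hIsg
  obtain ⟨-, hvi⟩ := hKEP p A B P V f hS ι R hG i (pt R p i y0) hTori hRi
  set ti := tX (xn (R.L i)) (yy (R.L i)) (pt R p i y0) with htid
  have hτ2 : τ ^ 2 < τ := by
    rw [pow_two]
    exact mul_lt_of_lt_one_right (zero_lt_iff.2 hτ0) hτ1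
  have hvti : V.valuation ti = τ := by
    have e : ti = muX R i * t0 + (ti - muX R i * t0) := by ring
    have h1 : V.valuation (muX R i * t0) = τ := by rw [map_mul, hvμ, one_mul]
    rw [e, Valuation.map_add_eq_of_lt_left, h1]
    rw [h1]
    exact lt_of_le_of_lt hti hτ2
  have hva : V.valuation (a : ℂ) = 1 := by
    have := hint (a : ℤ) (fun h => by
      have h1 : p ∣ a := by exact_mod_cast h
      have h2 : p ∣ Nat.gcd a (2 * p) := Nat.dvd_gcd h1 (Dvd.intro_left 2 rfl)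
      rw [hac] at h2
      exact hS.pp.one_lt.ne' (Nat.dvd_one.1 h2))
    simpa using this
  obtain ⟨W, ξ, hGi⟩ := hGR i
  obtain ⟨w, hw, hmain⟩ := hKEY V W (R.L i) ξ hGi p hS.pp hp5 hp1 hunit (pt R p i y0) hKi hRi hpRi
    hvi
  obtain ⟨h1, h2, h3⟩ := hmain a H ha1 hva hH z hz haz
  rw [← htid, hvti] at hw h2 h3
  set Sg := ∑ c ∈ Finset.Icc 1 (p - 1), (c : ℂ) * dlX (R.L i) a (z + c * pt R p i y0) with hSg
  have hΘ : V.valuation (ThetaH (R.L i) H z) = 1 := by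
    have := (h1 0).1
    simpa using this
  have hpt' : V.valuation (p : ℂ) * τ = τ ^ p := by
    rw [← hv0, ← pow_succ]
    congr 1
    omega
  refine ⟨fun c => ⟨(h1 c).1, (ValuationSubring.valuation_le_one_iff _ _).1 (h1 c).2⟩, ?_, ?_⟩
  · rw [hpt']
    have e : ∏ c ∈ Finset.Icc 1 (p - 1), ThetaH (R.L i) H (z + c * pt R p i y0) -
        ThetaH (R.L i) H z ^ (p - 1) * (1 - muX R i * t0 * Sg) =
        (∏ c ∈ Finset.Icc 1 (p - 1), ThetaH (R.L i) H (z + c * pt R p i y0) -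
        ThetaH (R.L i) H z ^ (p - 1) * (1 - w * Sg)) -
        ThetaH (R.L i) H z ^ (p - 1) * ((w - muX R i * t0) * Sg) := by ring
    rw [e]
    refine (Valuation.map_sub _ _ _).trans (max_le h3 ?_)
    rw [map_mul, map_pow, hΘ, one_pow, one_mul, map_mul]
    have h4 : V.valuation (w - muX R i * t0) ≤ τ ^ 2 := by
      have e2 : w - muX R i * t0 = (w - ti) + (ti - muX R i * t0) := by ring
      rw [e2]
      exact (Valuation.map_add _ _ _).trans (max_le hw hti)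
    calc V.valuation (w - muX R i * t0) * V.valuation Sg ≤ τ ^ 2 * τ ^ (p - 2) :=
          mul_le_mul' h4 h2
      _ = τ ^ p := by rw [← pow_add]; congr 1; omega
  · calc τ * V.valuation Sg ≤ τ * τ ^ (p - 2) := mul_le_mul' le_rfl h2
      _ = V.valuation (p : ℂ) := by
        rw [← hv0, ← pow_succ']
        congr 1
        omega

end

end Pool.Agent.TWT


end

section

/-!
# TWT, block B: module MUG, the multipliers are units at `V`
-/

set_option autoImplicit false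

open WeierstrassCurve Polynomial NumberField IsDedekindDomain

namespace Pool.Agent.TWT

open _root_.MU3 Pool.Agent.MU3A Pool.Agent.MU3B Pool.Agent.MU3C Pool.Agent.RI Pool.Agent.RID
open Pool.Agent.MUX Pool.Agent.MUXU Pool.Agent.MUXW

namespace MUG

/-- the norm of an ideal lies in the ideal -/
lemma nI_mem {A B : ℤ} (b : Ideal (OO A B)) : ((nI b : ℕ) : OO A B) ∈ b := by
  rw [← Ideal.Quotient.eq_zero_iff_mem, map_natCast, ← nsmul_one]
  exact card_nsmul_eq_zero'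

lemma emb_nat_mul {A B : ℤ} (n : ℕ) (x : OO A B) : emb ((n : OO A B) * x) = n * emb x := by
  simp only [emb, QuadraticAlgebra.re_mul, QuadraticAlgebra.im_mul, QuadraticAlgebra.re_natCast,
    QuadraticAlgebra.im_natCast]
  push_cast
  ring

end MUG

open _root_.Pool.Agent.TWT.MUG in
theorem t_MUG (h : S_VPG) : S_MUG := by
  intro p A B P V f hS ι R hG i
  obtain ⟨-, -, -, hint, -, -, hlat⟩ := h p A B P V f hS
  have hGi := (hlat ι R hG i).1
  have hG0 := (hlat ι R hG R.i0).1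
  have hom0 : R.om R.i0 ≠ 0 := (R.nl R.i0).om_ne
  have homi : R.om i ≠ 0 := (R.nl i).om_ne
  have hcop : (nI (R.b i)).Coprime (p * f) := R.cop i
  have hpn : ¬ p ∣ nI (R.b i) := fun hd => by
    have h2 : p ∣ Nat.gcd (nI (R.b i)) (p * f) := Nat.dvd_gcd hd (dvd_mul_right _ _)
    rw [hcop] at h2
    exact hS.pp.one_lt.ne' (Nat.dvd_one.1 h2)
  have h2f : 2 ∣ f := by
    have h1 : (2 : ℤ) ∣ (f : ℤ) := (dvd_mul_right _ _).trans hS.fD
    exact_mod_cast h1
  have hodd : Odd (nI (R.b i)) := by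
    rw [← Nat.not_even_iff_odd, even_iff_two_dvd]
    intro hd
    have h2 : 2 ∣ Nat.gcd (nI (R.b i)) (p * f) := Nat.dvd_gcd hd (h2f.mul_left _)
    rw [hcop] at h2
    omega
  have hvn : V.valuation ((nI (R.b i) : ℕ) : ℂ) = 1 := by
    have h1 := hint (nI (R.b i) : ℤ) (fun hd => hpn (by exact_mod_cast hd))
    simpa using h1
  have hn0 : ((nI (R.b i) : ℕ) : ℂ) ≠ 0 := by
    intro h0
    rw [h0, map_zero] at hvn
    exact zero_ne_one hvn
  refine Pool.Agent.MUXV.x_MUN V (R.L R.i0) (R.L i) (1 / 12) (1 / 12) (muX R i) (nI (R.b i))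
    hG0 hGi (div_ne_zero (mul_ne_zero homi hn0) hom0) ?_ hodd hvn ?_
  · intro w hw
    obtain ⟨x, -, rfl⟩ := ((R.nl R.i0).mem w).1 hw
    refine ((R.nl i).mem _).2 ⟨((nI (R.b i) : ℕ) : OO A B) * x,
      Ideal.mul_mem_right _ _ (nI_mem _), ?_⟩
    rw [emb_nat_mul, muX]
    field_simp
  · intro z hz
    obtain ⟨x, -, hx⟩ := ((R.nl i).mem _).1 hz
    refine ((R.nl R.i0).mem _).2 ⟨x, by rw [R.b0]; trivial, ?_⟩
    rw [muX] at hx
    have h1 : R.om i * (((nI (R.b i) : ℕ) : ℂ) * z) = R.om i * (R.om R.i0 * emb x) := by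
      field_simp at hx
      linear_combination R.om i * hx
    exact mul_left_cancel₀ homi h1

end Pool.Agent.TWT


end

section

/-!
# TWT, block A, module PIS (helper44): the lattices `P⁻¹ L_i`, good reduction, the multipliers
-/

set_option autoImplicit false

open WeierstrassCurve Polynomial

namespace Pool.Agent.TWT

open _root_.MU3 Pool.Agent.MU3A Pool.Agent.MU3B Pool.Agent.MUX Pool.Agent.MUXU
open Pool.Agent.MUXV (GR InK tX)

noncomputable section

namespace PIS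

variable {p : ℕ} {A B : ℤ} {P : Ideal (OO A B)} {V : ValuationSubring ℂ} {f : ℕ}

theorem val_lt (h : SetG p A B P V f) : V.valuation (p : ℂ) < 1 := by
  have h1 : emb ((p : ℕ) : OO A B) ∈ V.nonunits := (h.hV _).2 h.hP.mem
  rw [Pool.Agent.MUX.emb_natCast h.cq] at h1
  exact V.mem_nonunits_iff.1 h1

theorem val_int (h : SetG p A B P V f) (j : ℤ) (hj : ¬ (p : ℤ) ∣ j) :
    V.valuation (j : ℂ) = 1 := by
  have h1 : ((j : ℤ) : OO A B) ∉ P := by
    intro hm
    have hc : IsCoprime (p : ℤ) j :=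
      ((Nat.prime_iff_prime_int.1 h.pp).coprime_iff_not_dvd).2 hj
    obtain ⟨a, b, hab⟩ := hc
    apply h.hP.prime.ne_top
    rw [Ideal.eq_top_iff_one]
    have h2 : (a : OO A B) * ((p : ℕ) : OO A B) + (b : OO A B) * ((j : ℤ) : OO A B) = 1 := by
      have h3 := congrArg (fun t : ℤ => (t : OO A B)) hab
      push_cast at h3
      exact h3
    rw [← h2]
    exact P.add_mem (P.mul_mem_left _ h.hP.mem) (P.mul_mem_left _ hm)
  have h2 : ¬ V.valuation (j : ℂ) < 1 := by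
    intro h3
    apply h1
    rw [← h.hV, Pool.Agent.MUX.emb_intCast h.cq]
    exact V.mem_nonunits_iff.2 h3
  have h4 : V.valuation (j : ℂ) ≤ 1 := (V.valuation_le_one_iff _).2 (intCast_mem V j)
  exact le_antisymm h4 (not_lt.1 h2)

theorem good (h : SetG p A B P V f) {ι : Type} (R : Reps A B (p * f) ι) (hR : GRd V R) (i : ι) :
    ∃ (W : WeierstrassCurve.Affine ℂ) (ξ : ℂ →+ W.Point),
      GR V W (R.L i) (fun z => (R.L i).weierstrassP z - 1 / 12)
        (fun z => (R.L i).derivWeierstrassP z / 2) ξ := by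
  have h5 := h.p5
  have h2 : V.valuation (2 : ℂ) = 1 := by
    have h3 := val_int h 2 (fun h4 => by
      have h6 := Int.le_of_dvd (by norm_num) h4
      omega)
    have h7 : ((2 : ℤ) : ℂ) = 2 := by norm_num
    rwa [h7] at h3
  refine Pool.Agent.MUXV.x_NGR V (R.L i) (R.nl i).nrm h2 (hR.kap i) ?_
  have h3 := hR.dis i
  have h4 : (1 : ℂ) + 1728 * Pool.Agent.MUX.kap (R.L i) = 12 * (R.L i).g₂ := by
    unfold Pool.Agent.MUX.kap
    ring
  rwa [h4] at h3

theorem P_ne (h : SetG p A B P V f) : P ≠ ⊥ := by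
  intro h0
  have h1 := h.hP.mem
  rw [h0, Ideal.mem_bot] at h1
  exact Pool.Agent.MUX.natCast_ne_zero' h.cq h.pp.ne_zero h1

theorem isq (h : SetG p A B P V f) {ι : Type} (R : Reps A B (p * f) ι) (i : ι) :
    ∃ (j : ι) (mu : ℂ), IsQ P (R.L i) (R.L j) mu := by
  have hC := h.cq
  have hP0 : P ≠ ⊥ := P_ne h
  have : IsDomain (OO A B) := Pool.Agent.MUX.isDomain hC
  have hp0 : ((p : ℕ) : OO A B) ≠ 0 := Pool.Agent.MUX.natCast_ne_zero' hC h.pp.ne_zero
  have hc : cjI P * R.b i ≠ ⊥ :=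
    Pool.Agent.MUX.mul_ne_bot hC (Pool.Agent.MUX.cjI_ne_bot hC hP0) (R.nl i).b_ne
  obtain ⟨j, x, y, hx, hy, hxy⟩ := R.surj _ hc
  have e : sp (x * ((p : ℕ) : OO A B)) * R.b i = sp y * (P * R.b j) := by
    have h1 : P * cjI P = sp ((p : ℕ) : OO A B) := by
      rw [Pool.Agent.MUX.mul_cjI hC hP0, h.hP.norm]
    calc sp (x * ((p : ℕ) : OO A B)) * R.b i = sp x * sp ((p : ℕ) : OO A B) * R.b i := by
          rw [Ideal.span_singleton_mul_span_singleton]
      _ = P * (sp x * (cjI P * R.b i)) := by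
          rw [← h1]
          ring
      _ = P * (sp y * R.b j) := by rw [hxy]
      _ = _ := by ring
  exact ⟨j, _, Pool.Agent.MUXC.tc_QCR Pool.Agent.MUXC.tc_TRO A B hC P (R.b i) (R.b j) (R.L i)
    (R.L j) (R.om i) (R.om j) (R.nl i).toIsLI (R.nl j).toIsLI hP0 _ _ (mul_ne_zero hx hp0) hy e⟩

theorem mult (h : SetG p A B P V f) {ι : Type} (R : Reps A B (p * f) ι) (hR : GRd V R) (i : ι) :
    muX R i ≠ 0 ∧ Isg (R.L R.i0) (R.L i) (muX R i) ∧ V.valuation (muX R i) = 1 ∧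
      Odd (nI (R.b i)) ∧ V.valuation ((nI (R.b i) : ℕ) : ℂ) = 1 ∧
      ∀ z, muX R i * z ∈ (R.L i).lattice →
        ((nI (R.b i) : ℕ) : ℂ) * z ∈ (R.L R.i0).lattice := by
  have hC := h.cq
  have hn0 : nI (R.b i) ≠ 0 := Pool.Agent.MUX.nI_ne_zero hC (R.nl i).b_ne
  have hnC : ((nI (R.b i) : ℕ) : ℂ) ≠ 0 := by exact_mod_cast hn0
  have ho := (R.nl i).om_ne
  have ho0 := (R.nl R.i0).om_ne
  have hmu : muX R i ≠ 0 := div_ne_zero (mul_ne_zero ho hnC) ho0
  have hisg : Isg (R.L R.i0) (R.L i) (muX R i) := by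
    intro w hw
    obtain ⟨x, _, rfl⟩ := ((R.nl R.i0).mem w).1 hw
    refine ((R.nl i).mem _).2 ⟨((nI (R.b i) : ℕ) : OO A B) * x,
      Ideal.mul_mem_right _ _ (Pool.Agent.MUX.nI_mem hC (R.nl i).b_ne), ?_⟩
    rw [Pool.Agent.MUX.emb_mul hC, Pool.Agent.MUX.emb_natCast hC]
    unfold muX
    field_simp
  have hker : ∀ z, muX R i * z ∈ (R.L i).lattice →
      ((nI (R.b i) : ℕ) : ℂ) * z ∈ (R.L R.i0).lattice := by
    intro z hz
    obtain ⟨x, _, hxz⟩ := ((R.nl i).mem _).1 hz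
    refine ((R.nl R.i0).mem _).2 ⟨x, by rw [R.b0]; exact Submodule.mem_top, ?_⟩
    have h1 : R.om i * (((nI (R.b i) : ℕ) : ℂ) * z) = R.om i * (R.om R.i0 * emb x) := by
      calc R.om i * (((nI (R.b i) : ℕ) : ℂ) * z) = R.om R.i0 * (muX R i * z) := by
            unfold muX
            field_simp
        _ = _ := by
            rw [hxz]
            ring
    exact mul_left_cancel₀ ho h1
  have hodd : Odd (nI (R.b i)) := by
    have h1 : (2 : ℤ) ∣ (f : ℤ) := dvd_trans (dvd_mul_right 2 _) h.fD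
    have h2 : 2 ∣ f := by exact_mod_cast h1
    exact Nat.coprime_two_right.1 ((R.cop i).coprime_dvd_right (dvd_mul_of_dvd_right h2 p))
  have hvn : V.valuation ((nI (R.b i) : ℕ) : ℂ) = 1 := by
    have h1 : ¬ (p : ℤ) ∣ ((nI (R.b i) : ℕ) : ℤ) := by
      intro h2
      have h3 : p ∣ nI (R.b i) := by exact_mod_cast h2
      have h4 : p ∣ 1 := by
        rw [← (R.cop i)]
        exact Nat.dvd_gcd h3 (dvd_mul_right p f)
      exact h.pp.one_lt.ne' (Nat.dvd_one.1 h4)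
    have h5 := val_int h _ h1
    rwa [Int.cast_natCast] at h5
  exact ⟨hmu, hisg, Pool.Agent.MUXV.x_MUN V (R.L R.i0) (R.L i) (1 / 12) (1 / 12) (muX R i)
    (nI (R.b i)) (good h R hR R.i0) (good h R hR i) hmu hisg hodd hvn hker, hodd, hvn, hker⟩

end PIS

theorem t_PIS : S_PIS := by
  intro p A B P V f h ι R hR
  exact ⟨fun i => PIS.good h R hR i, PIS.val_lt h, PIS.val_int h, fun i => PIS.isq h R i,
    fun i => PIS.mult h R hR i⟩

end

end Pool.Agent.TWT


end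

section

/-!
# TWT, block A, PTA (helper33): the points `pt R p i y0`
-/

set_option autoImplicit false

namespace Pool.Agent.TWT

open _root_.MU3 Pool.Agent.MU3A Pool.Agent.MU3B Pool.Agent.MUX Pool.Agent.MUXU

noncomputable section

namespace PTA

/-- `om emb y / p` is a point of `E[P]` on `om emb O` for `y ∈ cjI P`. -/
theorem tor0 {p : ℕ} {A B : ℤ} {P : Ideal (OO A B)} (cq : CQ A B) (pp : p.Prime)
    (hP : IsPN p P) {L : PeriodPair} {om : ℂ} (hL : IsLI (⊤ : Ideal (OO A B)) L om)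
    {y0 : OO A B} (hy : y0 ∈ cjI P) : Tor P L (om * emb y0 / p) := by
  have hp0 : ((p : ℕ) : ℂ) ≠ 0 := by exact_mod_cast pp.ne_zero
  have hbot : P ≠ ⊥ := by
    intro h
    have h1 := hP.mem
    rw [h, Ideal.mem_bot] at h1
    exact natCast_ne_zero' cq pp.ne_zero h1
  intro x hx
  have h1 : x * y0 ∈ P * cjI P := Ideal.mul_mem_mul hx hy
  rw [mul_cjI cq hbot, hP.norm] at h1
  obtain ⟨c, hc⟩ := Ideal.mem_span_singleton'.1 h1
  refine (hL.mem _).2 ⟨c, trivial, ?_⟩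
  have h2 : emb x * emb y0 = emb c * p := by
    rw [← emb_mul cq, ← hc, emb_mul cq, emb_natCast cq]
  rw [mul_div_assoc', div_eq_iff hp0]
  linear_combination om * h2

/-- `om emb y / p` is not in `om emb O` for `y ∉ P`. -/
theorem nmem0 {p : ℕ} {A B : ℤ} {P : Ideal (OO A B)} (cq : CQ A B) (pp : p.Prime)
    (hP : IsPN p P) {L : PeriodPair} {om : ℂ} (hL : IsLI (⊤ : Ideal (OO A B)) L om)
    {y0 : OO A B} (hy : y0 ∉ P) : om * emb y0 / p ∉ L.lattice := by
  have hp0 : ((p : ℕ) : ℂ) ≠ 0 := by exact_mod_cast pp.ne_zero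
  intro h
  obtain ⟨c, _, hc⟩ := (hL.mem _).1 h
  rw [div_eq_iff hp0, mul_assoc] at hc
  have h1 := mul_left_cancel₀ hL.om_ne hc
  have h2 : y0 = c * ((p : ℕ) : OO A B) := by
    apply emb_inj cq
    rw [emb_mul cq, emb_natCast cq]
    exact h1
  exact hy (h2 ▸ P.mul_mem_left c hP.mem)

end PTA

open _root_.Pool.Agent.TWT.PTA in
/-- PTA -/
theorem t_PTA : S_PTA := by
  intro p A B P V f hS ι R y0 hy hyP
  have hL : IsLI (⊤ : Ideal (OO A B)) (R.L R.i0) (R.om R.i0) := by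
    have h := (R.nl R.i0).toIsLI
    rwa [R.b0] at h
  have h1 := tor0 hS.cq hS.pp hS.hP hL hy
  have h3 : ∀ i, pt R p i y0 = muX R i * (R.om R.i0 * emb y0 / p) := by
    intro i
    have h0 := hL.om_ne
    unfold pt muX
    field_simp
  refine ⟨h1, nmem0 hS.cq hS.pp hS.hP hL hyP, h3, fun i hI => ?_⟩
  have h4 : Tor P (R.L i) (pt R p i y0) := by
    intro x hx
    have h5 := hI _ (h1 x hx)
    rw [h3 i]
    have e : emb x * (muX R i * (R.om R.i0 * emb y0 / p)) =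
      muX R i * (emb x * (R.om R.i0 * emb y0 / p)) := by ring
    rw [e]
    exact h5
  refine ⟨h4, ?_⟩
  have h6 := h4 _ hS.hP.mem
  rwa [emb_natCast hS.cq] at h6

end

end Pool.Agent.TWT


end

section

/-!
# TWT, block B, module UNRG (helper22): `RF (idl m) / k` is unramified at `V` for `p ∤ m`
-/

set_option autoImplicit false

open WeierstrassCurve Polynomial NumberField IsDedekindDomain

namespace Pool.Agent.TWT

open _root_.MU3 Pool.Agent.MU3A Pool.Agent.MU3B Pool.Agent.MU3C Pool.Agent.RI Pool.Agent.RID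
open Pool.Agent.MUX Pool.Agent.MUXU Pool.Agent.MUXW
open Pool.Agent.MU3V (cls Sub GD algDF)
open Pool.Agent.MUXV (GR InK tX)

noncomputable section

namespace UNRG

/-- an automorphism of `ℂ / k` which fixes the invariants of all normalised lattices is trivial on `RF ⊤` -/
lemma fixTop {A B : ℤ} (he : Pool.Agent.MUXV.Sq_EMB) (hC : CQ A B) {s : ℂ ≃+* ℂ}
    (hs : FixK A B s)
    (hk : ∀ (b : Ideal (OO A B)) (L : PeriodPair) (om : ℂ), IsNL b L om → s (kap L) = kap L) :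
    ∀ y ∈ (RF (⊤ : Ideal (OO A B)) : IntermediateField (kk A B) ℂ), s y = y := by
  have he1 : emb (1 : OO A B) = 1 := by
    have := (he A B (KER.cqF hC)).2.2.2.2.1 1
    simpa using this
  intro y hy
  unfold RF at hy
  induction hy using IntermediateField.adjoin_induction with
  | mem x hx =>
    obtain ⟨b, L, om, hL, h | ⟨z, hz, hz', -⟩⟩ := hx
    · rw [h]
      exact hk b L om hL
    · exfalso
      apply hz'
      have h1 := hz 1 trivial
      rwa [he1, one_mul] at h1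
  | algebraMap x => exact KER.fix hs _ x.2
  | add x y _ _ hx hy => rw [map_add, hx, hy]
  | inv x _ hx => rw [map_inv₀, hx]
  | mul x y _ _ hx hy => rw [map_mul, hx, hy]

end UNRG

open _root_.Pool.Agent.TWT.UNRG in
theorem t_UNRG (hVPG : S_VPG) (hRAM : S_RAMG) : S_UNRG := by
  intro p A B P V f hS T ι _ R hR m hm hpm
  have he : Pool.Agent.MUXV.Sq_EMB := Pool.Agent.MUXV.tq_EMB
  have hC := hS.cq
  obtain ⟨-, -, -, eint, enat, einj, -⟩ := he A B (KER.cqF hC)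
  have e0 : emb (0 : OO A B) = 0 := by simpa using eint 0
  have hm0 : ((m : ℕ) : OO A B) ≠ 0 := by
    intro h
    have h1 := enat m
    rw [h, e0] at h1
    exact hm (by exact_mod_cast h1.symm)
  have hmn : (idl m : Ideal (OO A B)) ≠ ⊥ := by
    rwa [Ne, Ideal.span_singleton_eq_bot]
  have := T.fin (idl m) hmn
  have := T.gal (idl m) hmn
  refine fun y hy hy0 => hRAM p A B P V f hS (RF (idl m)) ?_ y hy hy0
  intro σ hσ
  obtain ⟨-, -, -, -, -, -, hgr⟩ := hVPG p A B P V f hS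
  have hgr' := hgr ι R hR
  have hL : IsNL (⊤ : Ideal (OO A B)) (R.L R.i0) (R.om R.i0) := by
    have := R.nl R.i0
    rwa [R.b0] at this
  -- the extension to `ℂ`
  let D : IntermediateField ℚ ℂ :=
    (RF (idl m) : IntermediateField (kk A B) ℂ).restrictScalars ℚ
  have hle : kk A B ≤ D := fun x hx =>
    (RF (idl m) : IntermediateField (kk A B) ℂ).algebraMap_mem ⟨x, hx⟩
  have hDy : ∀ y ∈ D, y ∈ (RF (idl m) : IntermediateField (kk A B) ℂ) := fun y hy => hy
  obtain ⟨s, hs, hs2⟩ : ∃ s : ℂ ≃+* ℂ, FixK A B s ∧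
      ∀ y : (RF (idl m) : IntermediateField (kk A B) ℂ),
        ((σ y : (RF (idl m) : IntermediateField (kk A B) ℂ)) : ℂ) = s y := by
    letI := algC hle
    let τ : D ≃ₐ[kk A B] D := AlgEquiv.ofRingEquiv (f := (σ.toRingEquiv : D ≃+* D))
      (fun r => σ.commutes r)
    obtain ⟨s, hs, hs1⟩ := T.ext (idl m) hmn D hle hDy τ
    exact ⟨s, hs, fun y => (hs1 y).symm⟩
  obtain ⟨a, ha, ha'⟩ := T.act (idl m) hmn s hs
  have hki : ∀ i, s (kap (R.L i)) = kap (R.L i) := by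
    intro i
    obtain ⟨b', L', om', mu, hL', hA⟩ := ha' _ _ _ (R.nl i)
    obtain ⟨j, hj, -, -⟩ := HIT.repr he hC R hL'
    have h1 : kap (R.L i) ∈ (RF (idl m) : IntermediateField (kk A B) ℂ) :=
      IntermediateField.subset_adjoin _ _ ⟨_, _, _, R.nl i, Or.inl rfl⟩
    have h2 := hσ ⟨kap (R.L i), h1⟩ (hR.kap i).le
    have h3 : s (kap (R.L i)) = kap (R.L j) := by rw [← hj, hA.kap]
    rw [hs2] at h2
    change V.valuation (s (kap (R.L i)) - kap (R.L i)) < 1 at h2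
    rw [h3] at h2
    have h4 := hR.inj j i h2
    rw [h3, h4]
  have hkL : ∀ (b : Ideal (OO A B)) (L : PeriodPair) (om : ℂ), IsNL b L om →
      s (kap L) = kap L := by
    intro b L om hL
    obtain ⟨j, hj, -, -⟩ := HIT.repr he hC R hL
    rw [hj]
    exact hki j
  have htop := fixTop he hC hs hkL
  have hTr : TrH σ := by
    intro x hx
    apply Subtype.ext
    rw [hs2]
    exact htop _ hx
  obtain ⟨c, hc⟩ := (ty_KER he A B hC T ((m : ℕ) : OO A B) hm0).1 σ hTr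
  have hK : ∀ z, emb ((m : ℕ) : OO A B) * z ∈ (R.L R.i0).lattice →
      InK V (R.L R.i0) (fun z => (R.L R.i0).weierstrassP z - 1 / 12) z →
      z ∈ (R.L R.i0).lattice := by
    intro z hz hz'
    rw [enat] at hz
    exact (hgr' R.i0).2 m z hpm hz hz'
  have hinv := ty_INV he A B hC (R.L R.i0) (R.om R.i0) hL ((m : ℕ) : OO A B) hm0 V
    (hgr' R.i0).1 hK (RF (idl m)) le_rfl σ
    (fun x hx => hσ x ((ValuationSubring.valuation_le_one_iff _ _).2 hx)) c hc
  obtain ⟨-, acm2, -, -, acm5, acm6, -, -⟩ :=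
    ty_ACM he A B hC (R.L R.i0) (R.om R.i0) hL ((m : ℕ) : OO A B) hm0
  have h1 := acm2 _ σ c 1 hinv hc
  exact acm5 σ 1 1 h1 (acm6 _)

end

end Pool.Agent.TWT


end
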