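import Mathlib
import Pool.Agent.MVF.C025
import Pool.Agent.MVF.C029
import Pool.Agent.MVF.C030
import Pool.Agent.MVF.C031
import Pool.Agent.MVF.C033
import Pool.Agent.MVF.C036
import Pool.Agent.MVF.C037
import Pool.Agent.MVF.C045
import Pool.Agent.MVF.C061
import Pool.Agent.MVF.C066
import Pool.Agent.MVF.C068
import Pool.Agent.MVF.C071
import Pool.Agent.MVF.C076
import Pool.Agent.MVF.C078
import Pool.Agent.MVF.C090
import Pool.Agent.MVF.C103
import Pool.Agent.MVF.C109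
import Pool.Agent.MVF.C111
import Pool.Agent.MVF.C119
import Pool.Agent.TWM.C01
import Pool.Agent.TWM.C05
import Pool.Agent.TWM.C07

/-! Parts: TWF.CHA, TWF.Defs, TWF.CYC, TWF.GAL, TWF.NSP, TWF.CHR, TWF.DES, TWF.COR, TWF.StF, TWF.UNF0, TWF.UNF1, TWF.UNF2, TWF.UNF -/

section

/-!
# TWF: characters of `Gal(K B_n / k)`, group theory and cyclotomic part
-/

set_option autoImplicit false

open NumberField

namespace Pool.Agent.TWF

/-- Factorization of a character of a subgroup of a product. -/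
theorem factor {G G₁ G₂ : Type} [Group G] [Group G₁] [Group G₂] [Finite G₁] [Finite G₂]
    (h1 : ∀ a b : G₁, a * b = b * a) (h2 : ∀ a b : G₂, a * b = b * a) (r₁ : G →* G₁)
    (r₂ : G →* G₂) (hinj : ∀ g, r₁ g = 1 → r₂ g = 1 → g = 1) (X : G →* ℂˣ) :
    ∃ (X₁ : G₁ →* ℂˣ) (X₂ : G₂ →* ℂˣ), ∀ g, X g = X₁ (r₁ g) * X₂ (r₂ g) := by
  let i1 : CommGroup G₁ := { ‹Group G₁› with mul_comm := h1 }
  let i2 : CommGroup G₂ := { ‹Group G₂› with mul_comm := h2 }
  let r : G →* G₁ × G₂ := r₁.prod r₂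
  have hr : Function.Injective r := by
    rw [injective_iff_map_eq_one]
    intro g hg
    exact hinj g (congrArg Prod.fst hg) (congrArg Prod.snd hg)
  let e : G ≃* r.range := MonoidHom.ofInjective hr
  obtain ⟨Y, hY⟩ := MonoidHom.domRestrict_surjective ℂ r.range (X.comp e.symm.toMonoidHom)
  refine ⟨Y.comp (MonoidHom.inl G₁ G₂), Y.comp (MonoidHom.inr G₁ G₂), fun g => ?_⟩
  have h3 : Y (r g) = X g := by
    have h4 := DFunLike.congr_fun hY (e g)
    have h5 : (X.comp e.symm.toMonoidHom) (e g) = X g := by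
      show X (e.symm (e g)) = X g
      rw [e.symm_apply_apply]
    rw [h5] at h4
    exact h4
  rw [← h3]
  show Y (r g) = Y (r₁ g, 1) * Y (1, r₂ g)
  rw [← map_mul]
  congr 1
  show (r₁ g, r₂ g) = (r₁ g, 1) * (1, r₂ g)
  rw [Prod.mk_mul_mk, mul_one, one_mul]

/-- The automorphisms of a Galois subfield `B` of `ℚ(ζ)`. -/
theorem alpha (M : ℕ) [NeZero M] (ζ : ℂ) (hζ : IsPrimitiveRoot ζ M) (B : IntermediateField ℚ ℂ)
    [FiniteDimensional ℚ B] [IsGalois ℚ B] (hB : B ≤ IntermediateField.adjoin ℚ {ζ}) :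
    ∃ α : (ZMod M)ˣ →* (B ≃ₐ[ℚ] B), (∀ (σ : ℂ →+* ℂ) (c : ℕ) (u : (ZMod M)ˣ),
      (u : ZMod M) = (c : ZMod M) → σ ζ = ζ ^ c → ∀ y : B, σ (y : ℂ) = (α u y : B)) ∧
      ∀ (u : (ZMod M)ˣ) (y : B), (y : ℂ) = ζ + ζ⁻¹ →
        ((α u y : B) : ℂ) = ζ ^ (u : ZMod M).val + (ζ ^ (u : ZMod M).val)⁻¹ := by
  have hC : IsCyclotomicExtension {M} ℚ (IntermediateField.adjoin ℚ {ζ}) := by
    change IsCyclotomicExtension {M} ℚ (IntermediateField.adjoin ℚ {ζ}).toSubalgebra
    have hi : IsIntegral ℚ ζ := (hζ.isIntegral (NeZero.pos M)).tower_top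
    rw [IntermediateField.adjoin_simple_toSubalgebra_of_isAlgebraic hi.isAlgebraic]
    exact hζ.adjoin_isCyclotomicExtension ℚ
  set C := IntermediateField.adjoin ℚ {ζ} with hCdef
  have hfd : FiniteDimensional ℚ C := IsCyclotomicExtension.finiteDimensional {M} ℚ C
  have hnf : NumberField C := NumberField.mk
  let aB : Algebra B C := (IntermediateField.inclusion hB).toRingHom.toAlgebra
  have tow : IsScalarTower ℚ B C := IsScalarTower.of_algebraMap_eq (fun _ => rfl)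
  let E := (IsCyclotomicExtension.Rat.galEquivZMod M C)
  let α : (ZMod M)ˣ →* (B ≃ₐ[ℚ] B) :=
    (AlgEquiv.restrictNormalHom (F := ℚ) (K₁ := C) B).comp E.symm.toMonoidHom
  have hζC : ζ ∈ C := IntermediateField.mem_adjoin_simple_self ℚ ζ
  have hval : ∀ u : (ZMod M)ˣ, ((E.symm u ⟨ζ, hζC⟩ : C) : ℂ) = ζ ^ (u : ZMod M).val := by
    intro u
    have h3 : (⟨ζ, hζC⟩ : C) ^ M = 1 := by
      apply Subtype.ext
      exact hζ.pow_eq_one
    have h4 := IsCyclotomicExtension.Rat.galEquivZMod_apply_of_pow_eq M C (E.symm u) h3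
    rw [h4]
    have h5 : IsCyclotomicExtension.Rat.galEquivZMod M C (E.symm u) = u := E.apply_symm_apply u
    rw [h5]
    rfl
  have hres : ∀ (u : (ZMod M)ˣ) (y : B), ((α u y : B) : ℂ) =
      ((E.symm u (algebraMap B C y) : C) : ℂ) := by
    intro u y
    have h2 : algebraMap B C (α u y) = E.symm u (algebraMap B C y) :=
      AlgEquiv.restrictNormal_commutes (E.symm u) B y
    rw [← h2]
    rfl
  refine ⟨α, fun σ c u hu hσ y => ?_, fun u y hy => ?_⟩
  · have h2 : ((E.symm u ⟨ζ, hζC⟩ : C) : ℂ) = ζ ^ c := by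
      rw [hval]
      have h7 : (u : ZMod M).val ≡ c [MOD M] := by
        rw [← ZMod.natCast_eq_natCast_iff, ZMod.natCast_zmod_val, hu]
      rw [← Nat.mod_add_div (u : ZMod M).val M, ← Nat.mod_add_div c M, h7, pow_add, pow_add,
        pow_mul, pow_mul, hζ.pow_eq_one, one_pow, one_pow]
    let f : C →ₐ[ℚ] ℂ := (σ.comp (algebraMap C ℂ)).toRatAlgHom
    let g : C →ₐ[ℚ] ℂ := C.val.comp ((E.symm u : C ≃ₐ[ℚ] C) : C →ₐ[ℚ] C)
    have h6 : f = g := by
      refine IntermediateField.adjoin_algHom_ext ℚ ?_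
      intro x hx
      have hx' : x = ζ := hx
      subst hx'
      show σ x = ((E.symm u ⟨x, _⟩ : C) : ℂ)
      rw [hσ]
      exact h2.symm
    rw [hres]
    exact DFunLike.congr_fun h6 (algebraMap B C y)
  · have h1 : algebraMap B C y = (⟨ζ, hζC⟩ : C) + (⟨ζ, hζC⟩ : C)⁻¹ := by
      apply Subtype.ext
      exact hy
    rw [hres, h1, map_add, map_inv₀]
    show ((E.symm u ⟨ζ, hζC⟩ : C) : ℂ) + ((E.symm u ⟨ζ, hζC⟩ : C) : ℂ)⁻¹ = _
    rw [hval]

end Pool.Agent.TWF


end

section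

/-!
# TWF: the fields of the theorem on twisted layers

All fields are subfields of `ℂ`, `B n` is the `n`-th layer of the cyclotomic `ℤ_l`-extension of `ℚ`.
-/

set_option autoImplicit false

open NumberField

namespace Pool.Agent.TWF

open Pool.Agent.RI

/-- `K / k` is Galois with abelian group, `B n` the layers of the cyclotomic `ℤ_l`-extension of `ℚ`. -/
structure Twr (l : ℕ) (k K : IntermediateField ℚ ℂ) (B : ℕ → IntermediateField ℚ ℂ) : Prop where
  hk : k ≤ K
  gal : IsGalois k (IntermediateField.extendScalars hk)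
  ab : ∀ σ τ : (IntermediateField.extendScalars hk) ≃ₐ[k] (IntermediateField.extendScalars hk),
    σ * τ = τ * σ
  lay : ∀ n, IsLayer l n (B n)
  mono : Monotone B

end Pool.Agent.TWF


end

section

/-!
# TWF: Dirichlet characters attached to the characters of the layers
-/

set_option autoImplicit false

open NumberField

namespace Pool.Agent.TWF

open _root_.MU3 Pool.Agent.MU3 Pool.Agent.RI Pool.Agent.RID Pool.Agent.MUX Pool.Agent.MUXI
open Pool.Agent.MU3I (w3 zt)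

/-- in a cyclic group the elements killed by a prime `l` are the powers of an element of order `l` -/
theorem cyc_mem {G : Type} [Group G] [Finite G] [IsCyclic G] (l : ℕ) (hl : l.Prime) (ρ g : G)
    (hρ : ρ ^ l = 1) (hρ1 : ρ ≠ 1) (hg : g ^ l = 1) : g ∈ Subgroup.zpowers ρ := by
  classical
  have : Fintype G := Fintype.ofFinite G
  have ho : orderOf ρ = l := by
    have : Fact l.Prime := ⟨hl⟩
    exact orderOf_eq_prime hρ hρ1
  have hle := IsCyclic.card_pow_eq_one_le (α := G) (n := l) hl.pos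
  have hsub : (Finset.univ.filter fun a : G => a ∈ Subgroup.zpowers ρ) ⊆
      (Finset.univ.filter fun a : G => a ^ l = 1) := by
    intro a ha
    rw [Finset.mem_filter] at ha ⊢
    obtain ⟨k, rfl⟩ := ha.2
    refine ⟨Finset.mem_univ _, ?_⟩
    show (ρ ^ k) ^ l = 1
    rw [← zpow_natCast, ← zpow_mul, mul_comm, zpow_mul, zpow_natCast, hρ, one_zpow]
  have hcard : (Finset.univ.filter fun a : G => a ∈ Subgroup.zpowers ρ).card = l := by
    rw [← ho, ← Nat.card_zpowers, Nat.card_eq_fintype_card, Fintype.card_subtype]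
  have heq := Finset.eq_of_subset_of_card_le hsub (by rw [hcard]; exact hle)
  have h1 : g ∈ (Finset.univ.filter fun a : G => a ^ l = 1) := by
    rw [Finset.mem_filter]
    exact ⟨Finset.mem_univ _, hg⟩
  rw [← heq, Finset.mem_filter] at h1
  exact h1.2

/-- an automorphism of `B'` which is trivial on `B` is killed by the degree -/
theorem pow_deg {B B' : IntermediateField ℚ ℂ} (hle : B ≤ B') [FiniteDimensional ℚ B']
    (hG : IsGalois ℚ B') (l : ℕ) (hd : Module.finrank ℚ B' = Module.finrank ℚ B * l)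
    (g : B' ≃ₐ[ℚ] B') (hg : ∀ x : B', (x : ℂ) ∈ B → g x = x) : g ^ l = 1 := by
  let _ : Algebra B B' := (IntermediateField.inclusion hle).toRingHom.toAlgebra
  have tow : IsScalarTower ℚ B B' := IsScalarTower.of_algebraMap_eq (fun _ => rfl)
  have hB : FiniteDimensional ℚ B := FiniteDimensional.of_injective
    (IntermediateField.inclusion hle).toLinearMap
    (IntermediateField.inclusion hle).toRingHom.injective
  have hf : FiniteDimensional B B' := Module.Finite.of_restrictScalars_finite ℚ B B'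
  have hG' : IsGalois B B' := IsGalois.tower_top_of_isGalois ℚ B B'
  have hfr : Module.finrank B B' = l := by
    have h1 := Module.finrank_mul_finrank ℚ B B'
    rw [hd] at h1
    exact Nat.eq_of_mul_eq_mul_left (Module.finrank_pos) h1
  let g' : B' ≃ₐ[B] B' := AlgEquiv.ofRingEquiv (f := g.toRingEquiv) (by
    intro x
    exact hg (algebraMap B B' x) x.2)
  have hc : Nat.card (B' ≃ₐ[B] B') = l := by
    rw [IsGalois.card_aut_eq_finrank, hfr]
  have h1 : g' ^ l = 1 := by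
    rw [← hc]
    exact pow_card_eq_one'
  have h2 : ∀ (j : ℕ) (x : B'), (g ^ j) x = (g' ^ j) x := by
    intro j
    induction j with
    | zero => intro x; rfl
    | succ j ih =>
      intro x
      rw [pow_succ, pow_succ, AlgEquiv.mul_apply, AlgEquiv.mul_apply, ih]
      rfl
  ext x
  rw [h2, h1]
  rfl

/-- the Dirichlet character attached to a character of `Gal(B_(n+1)/ℚ)` -/
theorem cyc (hLAY : Si_LAY) (l s n : ℕ) [hl : Fact l.Prime]
    (hls : (l = 3 ∧ s = 1) ∨ (l = 2 ∧ s = 2)) (B B' : IntermediateField ℚ ℂ)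
    (hB : IsLayer l n B) (hB' : IsLayer l (n + 1) B') (hle : B ≤ B') :
    ∀ X : (B' ≃ₐ[ℚ] B') →* ℂˣ, ∃ ψ : DirichletCharacter ℂ (l ^ (n + 1 + s)), ψ (-1) = 1 ∧
      ((∃ g : B' ≃ₐ[ℚ] B', (∀ x : B', (x : ℂ) ∈ B → g x = x) ∧ X g ≠ 1) →
        ψ (1 + (l : ZMod (l ^ (n + 1 + s))) ^ (n + 1 + s - 1)) ≠ 1) ∧
      ∀ (σ : ℂ →+* ℂ) (c : ℕ) (g : B' ≃ₐ[ℚ] B'), c.Coprime l →
        (∀ z : ℂ, z ^ (l ^ (n + 1 + s)) = 1 → σ z = z ^ c) →
        (∀ y : B', σ (y : ℂ) = (g y : B')) →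
        ψ (c : ZMod (l ^ (n + 1 + s))) = (((X g)⁻¹ : ℂˣ) : ℂ) := by
  classical
  intro X
  have hl1 : 1 < l := hl.out.one_lt
  have hs1 : 1 ≤ s := by rcases hls with ⟨-, h⟩ | ⟨-, h⟩ <;> omega
  set M : ℕ := l ^ (n + 1 + s) with hMdef
  have hM0 : M ≠ 0 := pow_ne_zero _ hl.out.ne_zero
  have : NeZero M := ⟨hM0⟩
  have hq : q0 l * l ^ (n + 1) = M := by
    rcases hls with ⟨rfl, rfl⟩ | ⟨rfl, rfl⟩
    · have h3 : q0 3 = 3 := by simp [q0]
      rw [h3, hMdef]
      ring
    · have h3 : q0 2 = 4 := by simp [q0]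
      rw [h3, hMdef]
      ring
  have hζ : IsPrimitiveRoot (zt M) M := Complex.isPrimitiveRoot_exp M hM0
  set ζ := zt M with hζdef
  have hBeq : B' = IntermediateField.adjoin ℚ {ζ + ζ⁻¹} := by
    have h1 := hLAY l (n + 1) (by rcases hls with ⟨h, -⟩ | ⟨h, -⟩ <;> tauto) B' hB'
    rw [hq] at h1
    exact h1
  obtain ⟨fdB, hGB, -⟩ := LAY_thm l (n + 1) B' hB'
  have hcyc : IsCyclic (B' ≃ₐ[ℚ] B') := t_LAYC l (n + 1) B' hB'
  have hfin : Finite (B' ≃ₐ[ℚ] B') := inferInstance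
  have hBC : B' ≤ IntermediateField.adjoin ℚ {ζ} := by
    rw [hBeq, IntermediateField.adjoin_le_iff]
    intro x hx
    rw [Set.mem_singleton_iff] at hx
    rw [hx]
    have h1 := IntermediateField.mem_adjoin_simple_self ℚ ζ
    exact add_mem h1 (inv_mem h1)
  obtain ⟨α, hα1, hα2⟩ := alpha M ζ hζ B' hBC
  refine ⟨MulChar.ofUnitHom ((X.comp α)⁻¹), ?_, ?_, ?_⟩
  · -- complex conjugation
    have hM1 : 1 ≤ M := Nat.one_le_iff_ne_zero.2 hM0
    have h1 : α (-1) = 1 := by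
      ext y
      have h2 := hα1 (starRingEnd ℂ) (M - 1) (-1) ?_ ?_ y
      · have h3 : (starRingEnd ℂ) (y : ℂ) = y := hB'.2.1 _ y.2
        rw [h3] at h2
        exact h2.symm
      · rw [Units.val_neg, Units.val_one, Nat.cast_sub hM1, ZMod.natCast_self, Nat.cast_one,
          zero_sub]
      · have h3 : (starRingEnd ℂ) ζ * ζ = 1 := by
          have h4 : ‖ζ‖ = 1 := hζ.norm'_eq_one hM0
          rw [mul_comm, Complex.mul_conj, Complex.normSq_eq_norm_sq, h4]
          norm_num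
        have h4 : ζ ^ (M - 1) * ζ = 1 := by
          rw [← pow_succ, Nat.sub_add_cancel hM1]
          exact hζ.pow_eq_one
        exact mul_right_cancel₀ (hζ.ne_zero hM0) (h3.trans h4.symm)
    have h2 : ((-1 : (ZMod M)ˣ) : ZMod M) = -1 := by rw [Units.val_neg, Units.val_one]
    rw [← h2, MulChar.ofUnitHom_coe]
    show ((((X.comp α)⁻¹) (-1 : (ZMod M)ˣ) : ℂˣ) : ℂ) = 1
    rw [MonoidHom.inv_apply, MonoidHom.comp_apply, h1, map_one, inv_one, Units.val_one]
  · rintro ⟨g₀, hg1, hg2⟩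
    have he : n + 1 + s - 1 = n + s := by omega
    rw [he]
    have hMl : M = l ^ (n + s) * l := by
      rw [hMdef, ← pow_succ]
      congr 1
      omega
    have hsq : ((l : ZMod M) ^ (n + s)) * ((l : ZMod M) ^ (n + s)) = 0 := by
      rw [← pow_add]
      have h1 : ((l ^ (n + s + (n + s)) : ℕ) : ZMod M) = 0 := by
        rw [ZMod.natCast_eq_zero_iff, hMdef]
        exact pow_dvd_pow l (by omega)
      push_cast at h1
      exact h1
    let u₁ : (ZMod M)ˣ := ⟨1 + (l : ZMod M) ^ (n + s), 1 - (l : ZMod M) ^ (n + s), by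
      linear_combination -hsq, by linear_combination -hsq⟩
    have hu1 : (1 + (l : ZMod M) ^ (n + s)) = (u₁ : ZMod M) := rfl
    have hul : u₁ ^ l = 1 := by
      apply Units.ext
      rw [Units.val_pow_eq_pow_val, ← hu1, Units.val_one]
      have h1 : ∀ j : ℕ, (1 + (l : ZMod M) ^ (n + s)) ^ j = 1 + (j : ZMod M) * (l : ZMod M) ^ (n + s) := by
        intro j
        induction j with
        | zero => simp
        | succ j ih =>
          rw [pow_succ, ih]
          push_cast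
          linear_combination (j : ZMod M) * hsq
      rw [h1]
      have h2 : ((l : ZMod M) * (l : ZMod M) ^ (n + s)) = 0 := by
        have h3 : ((l ^ (n + s) * l : ℕ) : ZMod M) = 0 := by
          rw [← hMl, ZMod.natCast_self]
        push_cast at h3
        rw [mul_comm]
        exact h3
      rw [h2, add_zero]
    have hl4 : 4 ≤ l ^ (n + s) ∨ (l = 3 ∧ 3 ≤ l ^ (n + s)) := by
      rcases hls with ⟨rfl, rfl⟩ | ⟨rfl, rfl⟩
      · right
        refine ⟨rfl, ?_⟩
        calc 3 = 3 ^ 1 := by norm_num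
          _ ≤ 3 ^ (n + 1) := Nat.pow_le_pow_right (by norm_num) (by omega)
      · left
        calc 4 = 2 ^ 2 := by norm_num
          _ ≤ 2 ^ (n + 2) := Nat.pow_le_pow_right (by norm_num) (by omega)
    have hlt : 2 + l ^ (n + s) < M := by
      rw [hMl]
      rcases hl4 with h | ⟨h, h'⟩
      · nlinarith
      · subst h
        omega
    have hρ1 : α u₁ ≠ 1 := by
      intro h1
      have hy : ζ + ζ⁻¹ ∈ B' := by
        rw [hBeq]
        exact IntermediateField.mem_adjoin_simple_self ℚ _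
      have h2 := hα2 u₁ ⟨ζ + ζ⁻¹, hy⟩ rfl
      rw [h1] at h2
      have h3 : (u₁ : ZMod M).val = 1 + l ^ (n + s) := by
        have h4 : (u₁ : ZMod M) = ((1 + l ^ (n + s) : ℕ) : ZMod M) := by
          rw [← hu1]
          push_cast
          rfl
        rw [h4, ZMod.val_natCast, Nat.mod_eq_of_lt (by omega)]
      rw [h3] at h2
      have h5 : ζ ^ (1 + l ^ (n + s)) + (ζ ^ (1 + l ^ (n + s)))⁻¹ = ζ ^ 1 + (ζ ^ 1)⁻¹ := by
        rw [← h2, pow_one]
        rfl
      have hpos : 0 < l ^ (n + s) := pow_pos hl.out.pos _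
      rcases (Pool.Agent.NSI.Xmx.pm hM0 hζ _ _).1 h5 with h6 | h6
      · have h7 : (M : ℤ) ∣ (l ^ (n + s) : ℕ) := by
          have h8 : ((1 + l ^ (n + s) : ℕ) : ℤ) - ((1 : ℕ) : ℤ) = ((l ^ (n + s) : ℕ) : ℤ) := by
            push_cast
            ring
          rw [h8] at h6
          exact h6
        have h8 := Nat.le_of_dvd hpos (Int.natCast_dvd_natCast.1 h7)
        omega
      · have h7 : (M : ℤ) ∣ ((2 + l ^ (n + s) : ℕ) : ℤ) := by
          have h8 : ((1 + l ^ (n + s) : ℕ) : ℤ) + ((1 : ℕ) : ℤ) = ((2 + l ^ (n + s) : ℕ) : ℤ) := by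
            push_cast
            ring
          rw [h8] at h6
          exact h6
        have h8 := Nat.le_of_dvd (by omega) (Int.natCast_dvd_natCast.1 h7)
        omega
    have hρl : (α u₁) ^ l = 1 := by rw [← map_pow, hul, map_one]
    have hgl : g₀ ^ l = 1 := by
      refine pow_deg hle hGB l ?_ g₀ hg1
      rw [hB.1, hB'.1, pow_succ]
    obtain ⟨j, hj⟩ := cyc_mem l hl.out (α u₁) g₀ hρl hρ1 hgl
    have hX : X (α u₁) ≠ 1 := by
      intro h1
      apply hg2
      rw [← hj]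
      show X ((α u₁) ^ j) = 1
      rw [map_zpow, h1, one_zpow]
    rw [hu1, MulChar.ofUnitHom_coe]
    intro h1
    apply hX
    have h2 : ((X.comp α)⁻¹) u₁ = 1 := Units.ext h1
    rw [MonoidHom.inv_apply, MonoidHom.comp_apply, inv_eq_one] at h2
    exact h2
  · intro σ c g hc hσ hg
    have hcM : c.Coprime M := by
      rw [hMdef]
      exact Nat.Coprime.pow_right _ hc
    have h1 : ∀ y : B', σ (y : ℂ) = (α (ZMod.unitOfCoprime c hcM) y : B') :=
      hα1 σ c (ZMod.unitOfCoprime c hcM) (ZMod.coe_unitOfCoprime c hcM)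
        (hσ ζ hζ.pow_eq_one)
    have h2 : g = α (ZMod.unitOfCoprime c hcM) := by
      ext y
      rw [← hg y, h1 y]
    rw [← ZMod.coe_unitOfCoprime c hcM, MulChar.ofUnitHom_coe, MonoidHom.inv_apply,
      MonoidHom.comp_apply, ← h2]

end Pool.Agent.TWF


end

section

/-!
# TWF: `K B_n / k` is Galois with abelian group and unramified outside a finite set

The proofs of `MUX/K_GALX.lean` and `MUX/K_RAMX.lean` without linear disjointness.
-/

set_option autoImplicit false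

open NumberField IsDedekindDomain Finset
open scoped nonZeroDivisors Pointwise

namespace Pool.Agent.TWF

open Pool.Agent.MU3 Pool.Agent.RI Pool.Agent.RID Pool.Agent.MU3.P_RAMK
open Pool.Agent.MU3.P_GALK

/-- `K B_n / k` is Galois with abelian group. -/
theorem gal_ab (p : ℕ) [Fact p.Prime] (k K : IntermediateField ℚ ℂ)
    (B : ℕ → IntermediateField ℚ ℂ)
    [FiniteDimensional ℚ K] [∀ n, FiniteDimensional ℚ ↥(K ⊔ B n)] (hB : Twr p k K B)
    (n : ℕ) (h : k ≤ K ⊔ B n) : letI := algC h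
    IsGalois k ↥(K ⊔ B n) ∧ ∀ σ τ : ↥(K ⊔ B n) ≃ₐ[k] ↥(K ⊔ B n), σ * τ = τ * σ := by
  letI aL : Algebra k ↥(K ⊔ B n) := algC h
  obtain ⟨fdB, hGB, -⟩ := LAY_thm p n (B n) (hB.lay n)
  have hcyc : IsCyclic (B n ≃ₐ[ℚ] B n) := t_LAYC p n (B n) (hB.lay n)
  have fdk : FiniteDimensional ℚ k := FiniteDimensional.of_injective
    (IntermediateField.inclusion hB.hk).toLinearMap
    (IntermediateField.inclusion hB.hk).toRingHom.injective
  refine ⟨?_, ?_⟩
  · have h1 := BCH_thm.1 ⊥ (B n) k k (k ⊔ B n) bot_le le_sup_left (bot_sup_eq k).symm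
      (sup_comm k (B n)) (bot_gal hGB)
    have hfM : FiniteDimensional ℚ ↥(k ⊔ B n) := IntermediateField.finiteDimensional_sup k (B n)
    have h2 := BCH_thm.2 k K (k ⊔ B n) hB.hk le_sup_left (hB.hk.trans le_sup_left) hB.gal h1.1
    have e : K ⊔ (k ⊔ B n) = K ⊔ B n := by
      rw [← sup_assoc, sup_eq_left.2 hB.hk]
    exact (isGalois_algC h).2 (transp e _ h h2)
  · intro σ τ
    refine comm_of h σ τ ?_ ?_
    · intro x hx
      letI aK : Algebra k K := algC hB.hk
      letI aKL : Algebra K ↥(K ⊔ B n) := algC le_sup_left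
      haveI : IsScalarTower k K ↥(K ⊔ B n) := towerC hB.hk le_sup_left
      haveI : IsGalois k K := (isGalois_algC hB.hk).2 hB.gal
      have hab : ∀ a b : K ≃ₐ[k] K, a * b = b * a := by
        intro a b
        have h1 := hB.ab ((extEquiv hB.hk).symm.autCongr a) ((extEquiv hB.hk).symm.autCongr b)
        rw [← map_mul, ← map_mul] at h1
        exact (extEquiv hB.hk).symm.autCongr.injective h1
      exact comm_on hab σ τ (⟨(x : ℂ), hx⟩ : K)
    · intro x hx
      letI aBL : Algebra (B n) ↥(K ⊔ B n) := algC le_sup_right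
      haveI : IsScalarTower ℚ (B n) ↥(K ⊔ B n) := IsScalarTower.of_algebraMap_eq (fun _ => rfl)
      haveI : IsScalarTower ℚ k ↥(K ⊔ B n) := IsScalarTower.of_algebraMap_eq (fun _ => rfl)
      have hab : ∀ a b : B n ≃ₐ[ℚ] B n, a * b = b * a := by
        intro a b
        obtain ⟨g, hg⟩ := hcyc.exists_generator
        obtain ⟨i, rfl⟩ := hg a
        obtain ⟨j, rfl⟩ := hg b
        exact zpow_mul_comm g i j
      exact comm_on hab (σ.restrictScalars ℚ) (τ.restrictScalars ℚ) (⟨(x : ℂ), hx⟩ : B n)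

/-- `K B_n / k` is unramified outside a finite set independent of `n`. -/
theorem ram_out (p : ℕ) [hp : Fact p.Prime] (k K : IntermediateField ℚ ℂ)
    (B : ℕ → IntermediateField ℚ ℂ)
    [FiniteDimensional ℚ k] [FiniteDimensional ℚ K] [∀ n, FiniteDimensional ℚ ↥(K ⊔ B n)]
    (hB : Twr p k K B) : ∃ S' : Finset ℕ, 2 ∈ S' ∧ p ∈ S' ∧ (∀ ℓ ∈ S', ℓ.Prime) ∧
    ∀ S : Finset ℕ, S' ⊆ S → ∀ (n : ℕ) (h : k ≤ K ⊔ B n), letI := algC h
    ∀ v : HeightOneSpectrum (𝓞 ↥(K ⊔ B n)), ¬ Above S v →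
      v.asIdeal.ramificationIdx (𝓞 k) = 1 := by
  classical
  have h1 : _root_.MU3.N_RAMP := _root_.MU3.n_RAMP
  let a1 : Algebra k K := algC hB.hk
  have hfin := fin_ram k K
  choose f hf using exists_prime K
  refine ⟨insert 2 (insert p (hfin.toFinset.image f)), by simp, by simp, ?_, ?_⟩
  · intro q hq
    rcases Finset.mem_insert.1 hq with rfl | hq
    · exact Nat.prime_two
    · rcases Finset.mem_insert.1 hq with rfl | hq
      · exact hp.out
      · obtain ⟨v, -, rfl⟩ := Finset.mem_image.1 hq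
        exact (hf v).1
  · intro S hS n h v hv
    let a2 : Algebra K ↥(K ⊔ B n) := algC (le_sup_left : K ≤ K ⊔ B n)
    let a3 : Algebra k ↥(K ⊔ B n) := algC h
    have tow : IsScalarTower k K ↥(K ⊔ B n) := towerC hB.hk le_sup_left
    have hprime : v.asIdeal.IsPrime := v.isPrime
    have hvne : v.asIdeal.under (𝓞 K) ≠ ⊥ := by
      intro h0
      exact v.ne_bot (Ideal.eq_bot_of_comap_eq_bot h0)
    let w : HeightOneSpectrum (𝓞 K) := ⟨v.asIdeal.under (𝓞 K), inferInstance, hvne⟩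
    have hdown : ∀ q : ℕ, (q : 𝓞 K) ∈ w.asIdeal → (q : 𝓞 ↥(K ⊔ B n)) ∈ v.asIdeal := by
      intro q hq
      have h2 : algebraMap (𝓞 K) (𝓞 ↥(K ⊔ B n)) (q : 𝓞 K) ∈ v.asIdeal := hq
      rwa [map_natCast] at h2
    have e1 : v.asIdeal.ramificationIdx (𝓞 K) = 1 := by
      by_contra hne
      have h3 := h1 p n K (B n) (hB.lay n) v hne
      exact hv ⟨p, hS (by simp), hdown p h3⟩
    have e2 : w.asIdeal.ramificationIdx (𝓞 k) = 1 := by
      by_contra hne
      refine hv ⟨f w, hS ?_, hdown _ (hf w).2⟩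
      exact Finset.mem_insert_of_mem (Finset.mem_insert_of_mem
        (Finset.mem_image_of_mem f (hfin.mem_toFinset.2 hne)))
    have e3 := tower k K ↥(K ⊔ B n) v w rfl
    rw [e1, e2] at e3
    exact e3

end Pool.Agent.TWF


end

section

/-!
# TWF, module NSP: for large `n` no prime above `q` splits in `F B_m / F B_n`

The number of the primes of `F B_n` above `q` is bounded and does not decrease, so it is constant for
large `n`.
-/

set_option autoImplicit false

open NumberField IsDedekindDomain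
open scoped nonZeroDivisors Pointwise

namespace Pool.Agent.TWF

open Pool.Agent.RI

/-- The primes of `F` above `q`. -/
def Pr (q : ℕ) (F : IntermediateField ℚ ℂ) : Type :=
  {P : Ideal (𝓞 F) // P.IsPrime ∧ (q : 𝓞 F) ∈ P}

section

variable {F K : IntermediateField ℚ ℂ} (h : F ≤ K)

/-- The inclusion of the rings of integers. -/
noncomputable abbrev iO : 𝓞 F →+* 𝓞 K :=
  RingOfIntegers.mapRingHom (IntermediateField.inclusion h : F →+* K)

/-- Contraction. -/
noncomputable def con (q : ℕ) (P : Pr q K) : Pr q F :=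
  ⟨P.1.comap (iO h), by
    have := P.2.1
    exact ⟨Ideal.comap_isPrime _ _, by
      rw [Ideal.mem_comap, map_natCast]
      exact P.2.2⟩⟩

theorem con_surj (q : ℕ) [FiniteDimensional ℚ K] : Function.Surjective (con h q) := by
  intro P
  let a1 : Algebra F K := algC h
  have hP := P.2.1
  have hF : FiniteDimensional ℚ F := FiniteDimensional.of_injective
    (IntermediateField.inclusion h).toLinearMap
    (IntermediateField.inclusion h).toRingHom.injective
  obtain ⟨P', hP', hov⟩ := (inferInstance : Nonempty (P.1.primesOver (𝓞 K)))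
  have h1 : P'.comap (iO h) = P.1 := by
    have h2 : P'.under (𝓞 F) = P.1 := hov.over.symm
    rw [← h2]
    ext x
    rw [Ideal.mem_comap, Ideal.under_def, Ideal.mem_comap]
    have h3 : iO h x = algebraMap (𝓞 F) (𝓞 K) x := by
      apply RingOfIntegers.ext
      rfl
    rw [h3]
  refine ⟨⟨P', hP', ?_⟩, Subtype.ext h1⟩
  have h4 : (q : 𝓞 F) ∈ P'.comap (iO h) := by
    rw [h1]
    exact P.2.2
  rw [Ideal.mem_comap, map_natCast] at h4
  exact h4

end

/-- The primes of `F` above the prime number `q` and the height one primes. -/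
noncomputable def prEquiv (q : ℕ) (hq : q ≠ 0) (F : IntermediateField ℚ ℂ) :
    Pr q F ≃ {v : HeightOneSpectrum (𝓞 F) // (q : 𝓞 F) ∈ v.asIdeal} where
  toFun P := ⟨⟨P.1, P.2.1, by
    intro h0
    have h1 := P.2.2
    rw [h0, Ideal.mem_bot] at h1
    exact hq (by exact_mod_cast h1)⟩, P.2.2⟩
  invFun v := ⟨v.1.asIdeal, v.1.isPrime, v.2⟩
  left_inv _ := rfl
  right_inv _ := rfl

/-- NSP. -/
theorem nonsplit_large (l q : ℕ) [Fact l.Prime] (F : IntermediateField ℚ ℂ)
    [FiniteDimensional ℚ F] (B : ℕ → IntermediateField ℚ ℂ)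
    [∀ n, FiniteDimensional ℚ ↥(F ⊔ B n)] (hq : q.Prime) (hB : ∀ n, IsLayer l n (B n))
    (hm : Monotone B) : ∃ n₀, ∀ n m, n₀ ≤ n → n ≤ m → ∀ h : F ⊔ B n ≤ F ⊔ B m, Nonsplit q h := by
  obtain ⟨t, ht⟩ := _root_.MU3.p_NPL _root_.MU3.p_NPC l q F B hq hB
  have hfin : ∀ n, Finite (Pr q (F ⊔ B n)) := by
    intro n
    have := (ht n inferInstance).2
    exact Finite.of_equiv _ (prEquiv q hq.ne_zero (F ⊔ B n)).symm
  have hle : ∀ n, Nat.card (Pr q (F ⊔ B n)) ≤ t := by
    intro n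
    rw [Nat.card_congr (prEquiv q hq.ne_zero (F ⊔ B n))]
    exact (ht n inferInstance).1
  have hmono : ∀ n m, n ≤ m → Nat.card (Pr q (F ⊔ B n)) ≤ Nat.card (Pr q (F ⊔ B m)) := by
    intro n m hnm
    have h : F ⊔ B n ≤ F ⊔ B m := sup_le_sup_left (hm hnm) F
    have := hfin m
    exact Nat.card_le_card_of_surjective _ (con_surj h q)
  obtain ⟨n₀, hn₀⟩ : ∃ n₀, ∀ n, n₀ ≤ n →
      Nat.card (Pr q (F ⊔ B n)) = Nat.card (Pr q (F ⊔ B n₀)) := by
    have h1 : ∃ M, (∃ n₀, Nat.card (Pr q (F ⊔ B n₀)) = M) ∧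
        ∀ n, Nat.card (Pr q (F ⊔ B n)) ≤ M := by
      have hbdd : BddAbove (Set.range fun n => Nat.card (Pr q (F ⊔ B n))) :=
        ⟨t, by rintro _ ⟨n, rfl⟩; exact hle n⟩
      have hne : (Set.range fun n => Nat.card (Pr q (F ⊔ B n))).Nonempty := Set.range_nonempty _
      obtain ⟨n₀, hn₀⟩ := Nat.sSup_mem hne hbdd
      exact ⟨_, ⟨n₀, hn₀⟩, fun n => le_csSup hbdd ⟨n, rfl⟩⟩
    obtain ⟨M, ⟨n₀, rfl⟩, hM⟩ := h1
    exact ⟨n₀, fun n hn => le_antisymm (hM n) (hmono n₀ n hn)⟩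
  refine ⟨n₀, fun n m hn hnm h => ?_⟩
  have e1 : Nat.card (Pr q (F ⊔ B m)) = Nat.card (Pr q (F ⊔ B n)) := by
    rw [hn₀ n hn, hn₀ m (hn.trans hnm)]
  have f1 := hfin m
  have f2 := hfin n
  have hbij : Function.Bijective (con h q) :=
    (Nat.bijective_iff_surjective_and_card _).2 ⟨con_surj h q, e1⟩
  intro P Q hP hQ hpP hpQ hPQ
  have h1 : con h q ⟨P, hP, hpP⟩ = con h q ⟨Q, hQ, hpQ⟩ := Subtype.ext hPQ
  exact congrArg Subtype.val (hbij.1 h1)

end Pool.Agent.TWF


end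

section

/-!
# TWF: the characters of `Gal(K B_n / k)` are products of characters of `Gal(K / k)` and `Gal(B_n / ℚ)`
-/

set_option autoImplicit false

open NumberField IsDedekindDomain Finset
open scoped nonZeroDivisors Pointwise

namespace Pool.Agent.TWF

open Pool.Agent.MU3 Pool.Agent.RI Pool.Agent.RID

/-- The abelian group `Gal(K/k)`. -/
theorem comm_algC {k K : IntermediateField ℚ ℂ} (h : k ≤ K)
    (hab : ∀ σ τ : (IntermediateField.extendScalars h) ≃ₐ[k] (IntermediateField.extendScalars h),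
      σ * τ = τ * σ) : letI := algC h
    ∀ a b : K ≃ₐ[k] K, a * b = b * a := by
  letI := algC h
  intro a b
  have h1 := hab ((extEquiv h).symm.autCongr a) ((extEquiv h).symm.autCongr b)
  rw [← map_mul, ← map_mul] at h1
  exact (extEquiv h).symm.autCongr.injective h1

/-- An automorphism of `K B / k` which is trivial on `K` and on `B` is trivial. -/
theorem eq_one_of {k K B : IntermediateField ℚ ℂ} (h : k ≤ K ⊔ B) :
    letI := algC h
    ∀ τ : ↥(K ⊔ B) ≃ₐ[k] ↥(K ⊔ B),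
      (∀ x : ↥(K ⊔ B), (x : ℂ) ∈ K → τ x = x) →
      (∀ x : ↥(K ⊔ B), (x : ℂ) ∈ B → τ x = x) → τ = 1 := by
  letI := algC h
  intro τ h1 h2
  have hQ : ∀ (r : ℚ), τ (r : ↥(K ⊔ B)) = r := fun r => map_ratCast τ r
  let T : IntermediateField ℚ ℂ :=
    { carrier := {z | ∃ hz : z ∈ K ⊔ B, τ ⟨z, hz⟩ = ⟨z, hz⟩}
      mul_mem' := by
        rintro a b ⟨ha, ha'⟩ ⟨hb, hb'⟩
        refine ⟨mul_mem ha hb, ?_⟩
        have e : (⟨a * b, mul_mem ha hb⟩ : ↥(K ⊔ B)) = ⟨a, ha⟩ * ⟨b, hb⟩ := rfl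
        rw [e, map_mul, ha', hb']
      add_mem' := by
        rintro a b ⟨ha, ha'⟩ ⟨hb, hb'⟩
        refine ⟨add_mem ha hb, ?_⟩
        have e : (⟨a + b, add_mem ha hb⟩ : ↥(K ⊔ B)) = ⟨a, ha⟩ + ⟨b, hb⟩ := rfl
        rw [e, map_add, ha', hb']
      algebraMap_mem' := by
        intro r
        refine ⟨algebraMap_mem _ r, ?_⟩
        have e : (⟨algebraMap ℚ ℂ r, algebraMap_mem _ r⟩ : ↥(K ⊔ B)) = (r : ↥(K ⊔ B)) := by
          apply Subtype.ext
          simp
        rw [e, hQ]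
      inv_mem' := by
        rintro a ⟨ha, ha'⟩
        refine ⟨inv_mem ha, ?_⟩
        have e : (⟨a⁻¹, inv_mem ha⟩ : ↥(K ⊔ B)) = (⟨a, ha⟩)⁻¹ := rfl
        rw [e, map_inv₀, ha'] }
  have hT : K ⊔ B ≤ T := by
    apply sup_le
    · intro a ha
      exact ⟨(le_sup_left : K ≤ K ⊔ B) ha, h1 _ ha⟩
    · intro b hb
      exact ⟨(le_sup_right : B ≤ K ⊔ B) hb, h2 _ hb⟩
  ext x
  obtain ⟨hz, hx⟩ := hT x.2
  exact congrArg Subtype.val hx

/-- Restrictions of the automorphisms of `K B_n / k`, factorization of the characters. -/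
theorem chr_split (l : ℕ) [Fact l.Prime] (k K : IntermediateField ℚ ℂ)
    (B : ℕ → IntermediateField ℚ ℂ) [FiniteDimensional ℚ K]
    [∀ n, FiniteDimensional ℚ ↥(K ⊔ B n)] (hB : Twr l k K B) (n : ℕ) (h : k ≤ K ⊔ B n) :
    letI := algC h
    letI := algC hB.hk
    ∃ (r₁ : (↥(K ⊔ B n) ≃ₐ[k] ↥(K ⊔ B n)) →* (↥K ≃ₐ[k] ↥K))
      (r₂ : (↥(K ⊔ B n) ≃ₐ[k] ↥(K ⊔ B n)) →* (↥(B n) ≃ₐ[ℚ] ↥(B n))),
      (∀ (τ : ↥(K ⊔ B n) ≃ₐ[k] ↥(K ⊔ B n)) (x : K) (x' : ↥(K ⊔ B n)), (x' : ℂ) = x →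
        ((τ x' : ↥(K ⊔ B n)) : ℂ) = (r₁ τ x : K)) ∧
      (∀ (τ : ↥(K ⊔ B n) ≃ₐ[k] ↥(K ⊔ B n)) (x : ↥(B n)) (x' : ↥(K ⊔ B n)), (x' : ℂ) = x →
        ((τ x' : ↥(K ⊔ B n)) : ℂ) = (r₂ τ x : ↥(B n))) ∧
      ∀ X : (↥(K ⊔ B n) ≃ₐ[k] ↥(K ⊔ B n)) →* ℂˣ, ∃ (X₁ : (↥K ≃ₐ[k] ↥K) →* ℂˣ)
        (X₂ : (↥(B n) ≃ₐ[ℚ] ↥(B n)) →* ℂˣ), ∀ τ, X τ = X₁ (r₁ τ) * X₂ (r₂ τ) := by
  letI aL : Algebra k ↥(K ⊔ B n) := algC h
  letI aK : Algebra k K := algC hB.hk
  letI aKL : Algebra K ↥(K ⊔ B n) := algC le_sup_left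
  letI aBL : Algebra (B n) ↥(K ⊔ B n) := algC le_sup_right
  obtain ⟨fdB, hGB, -⟩ := LAY_thm l n (B n) (hB.lay n)
  have hcyc : IsCyclic (B n ≃ₐ[ℚ] B n) := t_LAYC l n (B n) (hB.lay n)
  have fdk : FiniteDimensional ℚ k := FiniteDimensional.of_injective
    (IntermediateField.inclusion hB.hk).toLinearMap
    (IntermediateField.inclusion hB.hk).toRingHom.injective
  haveI : IsScalarTower k K ↥(K ⊔ B n) := towerC hB.hk le_sup_left
  haveI : IsGalois k K := (isGalois_algC hB.hk).2 hB.gal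
  haveI : IsScalarTower ℚ (B n) ↥(K ⊔ B n) := IsScalarTower.of_algebraMap_eq (fun _ => rfl)
  haveI : IsScalarTower ℚ k ↥(K ⊔ B n) := IsScalarTower.of_algebraMap_eq (fun _ => rfl)
  have hfK : FiniteDimensional k K := Module.Finite.of_restrictScalars_finite ℚ k K
  have habB : ∀ a b : B n ≃ₐ[ℚ] B n, a * b = b * a := by
    intro a b
    obtain ⟨g, hg⟩ := hcyc.exists_generator
    obtain ⟨i, rfl⟩ := hg a
    obtain ⟨j, rfl⟩ := hg b
    exact zpow_mul_comm g i j
  let r₁ : (↥(K ⊔ B n) ≃ₐ[k] ↥(K ⊔ B n)) →* (↥K ≃ₐ[k] ↥K) := AlgEquiv.restrictNormalHom K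
  let r₂ : (↥(K ⊔ B n) ≃ₐ[k] ↥(K ⊔ B n)) →* (↥(B n) ≃ₐ[ℚ] ↥(B n)) :=
    { toFun := fun τ => (τ.restrictScalars ℚ).restrictNormal (B n)
      map_one' := by
        ext x
        apply congrArg Subtype.val
        apply (algebraMap (B n) ↥(K ⊔ B n)).injective
        rw [AlgEquiv.restrictNormal_commutes]
        rfl
      map_mul' := fun σ τ => by
        ext x
        apply congrArg Subtype.val
        apply (algebraMap (B n) ↥(K ⊔ B n)).injective
        rw [AlgEquiv.restrictNormal_commutes, AlgEquiv.mul_apply, AlgEquiv.restrictNormal_commutes,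
          AlgEquiv.restrictNormal_commutes]
        rfl }
  have p1 : ∀ (τ : ↥(K ⊔ B n) ≃ₐ[k] ↥(K ⊔ B n)) (x : K) (x' : ↥(K ⊔ B n)), (x' : ℂ) = x →
      ((τ x' : ↥(K ⊔ B n)) : ℂ) = (r₁ τ x : K) := by
    intro τ x x' hx
    have h1 : algebraMap K ↥(K ⊔ B n) (r₁ τ x) = τ (algebraMap K ↥(K ⊔ B n) x) :=
      AlgEquiv.restrictNormal_commutes τ K x
    have h2 : algebraMap K ↥(K ⊔ B n) x = x' := Subtype.ext hx.symm
    rw [h2] at h1
    rw [← h1]
    rfl
  have p2 : ∀ (τ : ↥(K ⊔ B n) ≃ₐ[k] ↥(K ⊔ B n)) (x : ↥(B n)) (x' : ↥(K ⊔ B n)), (x' : ℂ) = x →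
      ((τ x' : ↥(K ⊔ B n)) : ℂ) = (r₂ τ x : ↥(B n)) := by
    intro τ x x' hx
    have h1 : algebraMap (B n) ↥(K ⊔ B n) (r₂ τ x) = τ (algebraMap (B n) ↥(K ⊔ B n) x) :=
      AlgEquiv.restrictNormal_commutes (τ.restrictScalars ℚ) (B n) x
    have h2 : algebraMap (B n) ↥(K ⊔ B n) x = x' := Subtype.ext hx.symm
    rw [h2] at h1
    rw [← h1]
    rfl
  refine ⟨r₁, r₂, p1, p2, fun X => ?_⟩
  refine factor (comm_algC hB.hk hB.ab) habB r₁ r₂ ?_ X
  intro g h1 h2
  refine eq_one_of h g ?_ ?_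
  · intro x hx
    have h3 := p1 g ⟨(x : ℂ), hx⟩ x rfl
    rw [h1] at h3
    exact Subtype.ext h3
  · intro x hx
    have h3 := p2 g ⟨(x : ℂ), hx⟩ x rfl
    rw [h2] at h3
    exact Subtype.ext h3

end Pool.Agent.TWF


end

section

/-!
# TWF, module DES: descent of the triviality of the relative class group

`F ⊆ K`, `A ⊆ C`, `K ⊆ C`, `K ∩ A = F`. If the relative class group of `C / A` has trivial `p`-part then
so has the relative class group of `K / F`. If no prime above `p` splits in `C / A` then no prime above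
`p` splits in `K / F`.
-/

set_option autoImplicit false

open NumberField IsDedekindDomain
open scoped nonZeroDivisors Pointwise

namespace Pool.Agent.TWF

open Pool.Agent.RI

section

variable {F K A C : Type} [Field F] [NumberField F] [Field K] [NumberField K] [Field A]
  [NumberField A] [Field C] [NumberField C] [Algebra F K] [Algebra F A] [Algebra F C]
  [Algebra K C] [Algebra A C] [IsScalarTower F K C] [IsScalarTower F A C] [IsGalois F K]

/-- The restriction `Gal(C/A) → Gal(K/F)`. -/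
noncomputable def res : (C ≃ₐ[A] C) →* (K ≃ₐ[F] K) where
  toFun σ := (σ.restrictScalars F).restrictNormal K
  map_one' := by
    ext x
    apply (algebraMap K C).injective
    rw [AlgEquiv.restrictNormal_commutes]
    rfl
  map_mul' σ τ := by
    ext x
    apply (algebraMap K C).injective
    rw [AlgEquiv.restrictNormal_commutes, AlgEquiv.mul_apply, AlgEquiv.restrictNormal_commutes,
      AlgEquiv.restrictNormal_commutes]
    rfl

theorem res_commutes (σ : C ≃ₐ[A] C) (x : K) :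
    algebraMap K C (res (F := F) σ x) = σ (algebraMap K C x) :=
  AlgEquiv.restrictNormal_commutes (σ.restrictScalars F) K x

/-- The restriction is surjective if `K ∩ A = F`. -/
theorem res_surj [IsGalois A C]
    (hint : ∀ x : K, ∀ a : A, algebraMap K C x = algebraMap A C a → ∃ y : F, algebraMap F K y = x) :
    Function.Surjective (res (F := F) (K := K) (A := A) (C := C)) := by
  have h1 : (res (F := F) (K := K) (A := A) (C := C)).range = ⊤ := by
    rw [← IntermediateField.fixingSubgroup_fixedField (res (F := F) (K := K) (A := A) (C := C)).range]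
    have h2 : IntermediateField.fixedField (res (F := F) (K := K) (A := A) (C := C)).range = ⊥ := by
      rw [eq_bot_iff]
      intro x hx
      rw [IntermediateField.mem_fixedField_iff] at hx
      have h3 : algebraMap K C x ∈ (⊥ : IntermediateField A C) := by
        rw [IsGalois.mem_bot_iff_fixed]
        intro σ
        rw [← res_commutes (F := F) σ x, hx _ ⟨σ, rfl⟩]
      obtain ⟨a, ha⟩ := IntermediateField.mem_bot.1 h3
      obtain ⟨y, hy⟩ := hint x a ha.symm
      exact IntermediateField.mem_bot.2 ⟨y, hy⟩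
    rw [h2, IntermediateField.fixingSubgroup_bot]
  exact MonoidHom.range_eq_top.1 h1

/-- The norm of an extended ideal. -/
theorem prod_ext [IsGalois A C]
    (hint : ∀ x : K, ∀ a : A, algebraMap K C x = algebraMap A C a → ∃ y : F, algebraMap F K y = x)
    (c : J K) (hc : (∏ σ : K ≃ₐ[F] K, σ • c) = 1) : (∏ σ : C ≃ₐ[A] C, σ • ext K C c) = 1 := by
  classical
  have h1 : ∀ σ : C ≃ₐ[A] C, σ • ext K C c = ext K C (res (F := F) σ • c) := fun σ =>
    (EXTACT_thm F K A C σ (res (F := F) σ) (fun x => res_commutes σ x) c).symm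
  rw [Finset.prod_congr rfl fun σ _ => h1 σ, ← map_prod]
  have h2 : (∏ σ : C ≃ₐ[A] C, res (F := F) (K := K) σ • c) = 1 := by
    rw [← Finset.prod_fiberwise Finset.univ (fun σ : C ≃ₐ[A] C => res (F := F) (K := K) σ)]
    have h3 : ∀ τ : K ≃ₐ[F] K, (∏ σ ∈ Finset.univ.filter
        (fun σ : C ≃ₐ[A] C => res (F := F) (K := K) σ = τ), res (F := F) (K := K) σ • c) =
        (τ • c) ^ (Finset.univ.filter
          (fun σ : C ≃ₐ[A] C => res (F := F) (K := K) σ = 1)).card := by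
      intro τ
      rw [Finset.prod_congr rfl (g := fun _ => τ • c) (by
        intro σ hσ
        rw [(Finset.mem_filter.1 hσ).2]), Finset.prod_const]
      congr 1
      exact MonoidHom.card_fiber_eq_of_mem_range (res (F := F) (K := K) (A := A) (C := C))
        (res_surj hint τ) ⟨1, map_one _⟩
    rw [Finset.prod_congr rfl fun τ _ => h3 τ, Finset.prod_pow, hc, one_pow]
  rw [h2, map_one]

/-- DES: the relative class group goes down. -/
theorem relTriv_desc (p : ℕ) [IsGalois A C] [IsGalois K C]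
    (hcop : (Module.finrank K C).Coprime p)
    (hint : ∀ x : K, ∀ a : A, algebraMap K C x = algebraMap A C a → ∃ y : F, algebraMap F K y = x)
    (h : RelTriv A C p) : RelTriv F K p := by
  intro c hc
  obtain ⟨m, hm, x, hx⟩ := h (ext K C c) (prod_ext hint c hc)
  refine ⟨m * Module.finrank K C, Nat.Coprime.mul_left hm hcop,
    Units.map (Algebra.norm K : C →* K) x, ?_⟩
  apply ext_injective K C
  rw [← CL.nm_prin (F := K) x, ← hx, map_pow, map_pow (CL.nm K C), CL.nm_ext, ← pow_mul,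
    mul_comm]

/-- Primes that do not split in `C / A` do not split in `K / F`. -/
theorem nonsplit_desc (p : ℕ) [IsGalois A C]
    (hint : ∀ x : K, ∀ a : A, algebraMap K C x = algebraMap A C a → ∃ y : F, algebraMap F K y = x)
    (h : ∀ P Q : Ideal (𝓞 C), P.IsPrime → Q.IsPrime → (p : 𝓞 C) ∈ P → (p : 𝓞 C) ∈ Q →
      P.under (𝓞 A) = Q.under (𝓞 A) → P = Q) :
    ∀ P Q : Ideal (𝓞 K), P.IsPrime → Q.IsPrime → (p : 𝓞 K) ∈ P → (p : 𝓞 K) ∈ Q →
      P.under (𝓞 F) = Q.under (𝓞 F) → P = Q := by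
  intro P Q hP hQ hpP hpQ hPQ
  obtain ⟨τ, hτ⟩ := Algebra.IsInvariant.exists_smul_of_under_eq (𝓞 F) (𝓞 K) (K ≃ₐ[F] K) P Q hPQ
  obtain ⟨σ, hσ⟩ := res_surj (F := F) (K := K) (A := A) (C := C) hint τ
  obtain ⟨P', hP', hover⟩ : ∃ P' : Ideal (𝓞 C), P'.IsPrime ∧ P'.under (𝓞 K) = P := by
    obtain ⟨P', hP', hov⟩ := (inferInstance : Nonempty (P.primesOver (𝓞 C)))
    exact ⟨P', hP', hov.over.symm⟩
  have h1 : (p : 𝓞 C) ∈ P' := by
    have : (p : 𝓞 K) ∈ P'.under (𝓞 K) := by rw [hover]; exact hpP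
    rw [Ideal.under_def, Ideal.mem_comap, map_natCast] at this
    exact this
  have h2 : (σ • P').IsPrime := by
    have := hP'
    infer_instance
  have h3 : (p : 𝓞 C) ∈ σ • P' := by
    rw [Ideal.mem_pointwise_smul_iff_inv_smul_mem]
    have : σ⁻¹ • (p : 𝓞 C) = (p : 𝓞 C) := map_natCast (MulSemiringAction.toRingHom (C ≃ₐ[A] C) (𝓞 C) σ⁻¹) p
    rw [this]
    exact h1
  have h4 : (σ • P').under (𝓞 A) = P'.under (𝓞 A) := by
    exact Ideal.under_smul (𝓞 A) P' σ
  have h5 := h _ _ h2 hP' h3 h1 h4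
  have h6 : (σ • P').under (𝓞 K) = τ • P := by
    have h7 := NSN.under_smul (K := K) (σ.restrictScalars F) P'
    rw [NSN.restrictScalars_smul, hover] at h7
    rw [h7, ← hσ]
    rfl
  rw [hτ, ← h6, h5, hover]

end

end Pool.Agent.TWF


end

section

/-!
# TWF: the intersection of a cyclic extension `L / k`, `L ≤ K B_n`, with `K B_(n₀)`
-/

set_option autoImplicit false

open NumberField

namespace Pool.Agent.TWF

open Pool.Agent.MU3 Pool.Agent.RI Pool.Agent.RID

/-- in a finite cyclic group a subgroup contains all elements killed by its order -/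
theorem mem_of_pow {G : Type} [Group G] [Finite G] [IsCyclic G] (H : Subgroup G) (g : G)
    (hg : g ^ Nat.card H = 1) : g ∈ H := by
  classical
  have : Fintype G := Fintype.ofFinite G
  have hle := IsCyclic.card_pow_eq_one_le (α := G) (n := Nat.card H) Nat.card_pos
  have hsub : (Finset.univ.filter fun a : G => a ∈ H) ⊆
      (Finset.univ.filter fun a : G => a ^ Nat.card H = 1) := by
    intro a ha
    rw [Finset.mem_filter] at ha ⊢
    refine ⟨Finset.mem_univ _, ?_⟩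
    have h1 : (⟨a, ha.2⟩ : H) ^ Nat.card H = 1 := pow_card_eq_one'
    exact congrArg Subtype.val h1
  have hcard : (Finset.univ.filter fun a : G => a ∈ H).card = Nat.card H := by
    rw [Nat.card_eq_fintype_card, Fintype.card_subtype]
  have heq := Finset.eq_of_subset_of_card_le hsub (by rw [hcard]; exact hle)
  have h1 : g ∈ (Finset.univ.filter fun a : G => a ^ Nat.card H = 1) := by
    rw [Finset.mem_filter]
    exact ⟨Finset.mem_univ _, hg⟩
  rw [← heq, Finset.mem_filter] at h1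
  exact h1.2

/-- an element of the larger field which is fixed by the automorphisms over `E` is in `E` -/
theorem fix_mem {k E C : IntermediateField ℚ ℂ} (hkE : k ≤ E) (hEC : E ≤ C) (hkC : k ≤ C)
    [FiniteDimensional ℚ C] : letI := algC hkC
    IsGalois k C → ∀ x : C, (∀ σ : C ≃ₐ[k] C, (∀ y : C, (y : ℂ) ∈ E → σ y = y) → σ x = x) →
      (x : ℂ) ∈ E := by
  let i1 : Algebra k C := algC hkC
  let i2 : Algebra k E := algC hkE
  let i3 : Algebra E C := algC hEC
  have t1 : IsScalarTower k E C := towerC hkE hEC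
  intro hG x hx
  have hG' : IsGalois E C := IsGalois.tower_top_of_isGalois k E C
  have t2 : IsScalarTower ℚ E C := IsScalarTower.of_algebraMap_eq (fun _ => rfl)
  have hf : FiniteDimensional E C := Module.Finite.of_restrictScalars_finite ℚ E C
  obtain ⟨y, hy⟩ := (IsGalois.mem_range_algebraMap_iff_fixed (F := E) x).2 (fun σ =>
    hx (σ.restrictScalars k) (fun y hy => σ.commutes (⟨(y : ℂ), hy⟩ : E)))
  rw [← hy]
  exact y.2

section

variable {k C : IntermediateField ℚ ℂ} (hkC : k ≤ C)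

/-- the automorphisms of `C / k` which are trivial on `E` -/
def Fix (E : IntermediateField ℚ ℂ) : letI := algC hkC
    Subgroup (C ≃ₐ[k] C) :=
  letI := algC hkC
  { carrier := {σ | ∀ y : C, (y : ℂ) ∈ E → σ y = y}
    mul_mem' := fun {σ τ} hσ hτ y hy => by
      show σ (τ y) = y
      rw [hτ y hy, hσ y hy]
    one_mem' := fun y _ => rfl
    inv_mem' := fun {σ} hσ y hy => by
      have h1 := congrArg (σ⁻¹ : C ≃ₐ[k] C) (hσ y hy)
      rw [← AlgEquiv.mul_apply, inv_mul_cancel, AlgEquiv.one_apply] at h1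
      exact h1.symm }

end

/-- two subfields of a cyclic extension of degree a power of `l` are comparable -/
theorem comparable {k L : IntermediateField ℚ ℂ} (hkL : k ≤ L) [FiniteDimensional ℚ L] (l e : ℕ)
    (hl : l.Prime) (E F : IntermediateField ℚ ℂ) (hkE : k ≤ E) (hkF : k ≤ F) (hE : E ≤ L)
    (hF : F ≤ L) : letI := algC hkL
    IsGalois k L → IsCyclic (L ≃ₐ[k] L) → Nat.card (L ≃ₐ[k] L) ∣ l ^ e → E ≤ F ∨ F ≤ E := by
  let i1 : Algebra k L := algC hkL
  intro hG hc hd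
  have t2 : IsScalarTower ℚ k L := IsScalarTower.of_algebraMap_eq (fun _ => rfl)
  have hf : FiniteDimensional k L := Module.Finite.of_restrictScalars_finite ℚ k L
  have key : ∀ E F : IntermediateField ℚ ℂ, k ≤ F → E ≤ L → F ≤ L →
      Nat.card (Fix hkL F) ∣ Nat.card (Fix hkL E) → E ≤ F := by
    intro E F hkF hE hF hdvd x hx
    refine fix_mem hkF hF hkL hG ⟨x, hE hx⟩ fun σ hσ => ?_
    have h1 : σ ∈ Fix hkL E := by
      refine mem_of_pow _ σ ?_
      obtain ⟨c, hc⟩ := hdvd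
      have h2 : (⟨σ, hσ⟩ : Fix hkL F) ^ Nat.card (Fix hkL F) = 1 := pow_card_eq_one'
      have h3 : σ ^ Nat.card (Fix hkL F) = 1 := congrArg Subtype.val h2
      rw [hc, pow_mul, h3, one_pow]
    exact h1 _ hx
  obtain ⟨i, -, hi⟩ := (Nat.dvd_prime_pow hl).1 ((Subgroup.card_subgroup_dvd_card (Fix hkL E)).trans hd)
  obtain ⟨j, -, hj⟩ := (Nat.dvd_prime_pow hl).1 ((Subgroup.card_subgroup_dvd_card (Fix hkL F)).trans hd)
  rcases le_total i j with h | h
  · right
    refine key F E hkE hF hE ?_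
    rw [hi, hj]
    exact pow_dvd_pow l h
  · left
    refine key E F hkF hE hF ?_
    rw [hi, hj]
    exact pow_dvd_pow l h

/-- the automorphisms of `B_n` killed by `l^a` are trivial on `B_(n-a)` -/
theorem lay_fix (l n a : ℕ) [Fact l.Prime] (ha : a ≤ n) (B B' : IntermediateField ℚ ℂ)
    (hB : IsLayer l (n - a) B) (hB' : IsLayer l n B') (hle : B ≤ B') (g : B' ≃ₐ[ℚ] B')
    (hg : g ^ (l ^ a) = 1) : ∀ x : B', (x : ℂ) ∈ B → g x = x := by
  obtain ⟨fdB, hGB, -⟩ := LAY_thm l n B' hB'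
  have hcyc : IsCyclic (B' ≃ₐ[ℚ] B') := t_LAYC l n B' hB'
  let i1 : Algebra B B' := (IntermediateField.inclusion hle).toRingHom.toAlgebra
  have tow : IsScalarTower ℚ B B' := IsScalarTower.of_algebraMap_eq (fun _ => rfl)
  have hBf : FiniteDimensional ℚ B := FiniteDimensional.of_injective
    (IntermediateField.inclusion hle).toLinearMap
    (IntermediateField.inclusion hle).toRingHom.injective
  have hf : FiniteDimensional B B' := Module.Finite.of_restrictScalars_finite ℚ B B'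
  have hG' : IsGalois B B' := IsGalois.tower_top_of_isGalois ℚ B B'
  have hfr : Module.finrank B B' = l ^ a := by
    have h1 := Module.finrank_mul_finrank ℚ B B'
    rw [hB.1, hB'.1] at h1
    have h2 : l ^ n = l ^ (n - a) * l ^ a := by
      rw [← pow_add, Nat.sub_add_cancel ha]
    rw [h2] at h1
    exact Nat.eq_of_mul_eq_mul_left (pow_pos (Fact.out : l.Prime).pos _) h1
  let r : (B' ≃ₐ[B] B') →* (B' ≃ₐ[ℚ] B') := AlgEquiv.restrictScalarsHom ℚ
  let H : Subgroup (B' ≃ₐ[ℚ] B') := r.range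
  have hc : Nat.card H = l ^ a := by
    have h1 : Function.Injective r := AlgEquiv.restrictScalarsHom_injective ℚ
    rw [← hfr, ← IsGalois.card_aut_eq_finrank]
    exact (Nat.card_congr (MonoidHom.ofInjective h1).toEquiv).symm
  have h1 : g ∈ H := mem_of_pow H g (by rw [hc]; exact hg)
  obtain ⟨τ, rfl⟩ := h1
  intro x hx
  exact τ.commutes (⟨(x : ℂ), hx⟩ : B)

/-- degrees of subfields of `ℂ` -/
theorem deg_mul {E F : IntermediateField ℚ ℂ} (h : E ≤ F) [FiniteDimensional ℚ F] :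
    Module.finrank ℚ E * Module.finrank E (IntermediateField.extendScalars h) =
      Module.finrank ℚ F := by
  let i1 : Algebra E F := algC h
  have t1 : IsScalarTower ℚ E F := IsScalarTower.of_algebraMap_eq (fun _ => rfl)
  have hE : FiniteDimensional ℚ E := FiniteDimensional.of_injective
    (IntermediateField.inclusion h).toLinearMap
    (IntermediateField.inclusion h).toRingHom.injective
  have hf : FiniteDimensional E F := Module.Finite.of_restrictScalars_finite ℚ E F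
  have h1 := finrank_algC h
  rw [← h1]
  exact Module.finrank_mul_finrank ℚ E F

/-- a field between `k B_n` and `k B_(n+1)` is one of the two -/
theorem between (l n : ℕ) [Fact l.Prime] (k : IntermediateField ℚ ℂ) [FiniteDimensional ℚ k]
    (B : ℕ → IntermediateField ℚ ℂ) (hB : ∀ n, IsLayer l n (B n)) (hm : Monotone B)
    (F : IntermediateField ℚ ℂ) (h1 : k ⊔ B n ≤ F) (h2 : F ≤ k ⊔ B (n + 1))
    (hne : F ≠ k ⊔ B (n + 1)) : F = k ⊔ B n := by
  obtain ⟨fdB, hGB, -⟩ := LAY_thm l (n + 1) (B (n + 1)) (hB (n + 1))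
  obtain ⟨fdB', -, -⟩ := LAY_thm l n (B n) (hB n)
  have hle : B n ≤ B (n + 1) := hm (Nat.le_succ n)
  have hE : FiniteDimensional ℚ ↥(k ⊔ B (n + 1)) := IntermediateField.finiteDimensional_sup _ _
  have hD : FiniteDimensional ℚ ↥(k ⊔ B n) := IntermediateField.finiteDimensional_sup _ _
  have hF : FiniteDimensional ℚ F := FiniteDimensional.of_injective
    (IntermediateField.inclusion h2).toLinearMap
    (IntermediateField.inclusion h2).toRingHom.injective
  have hGal : IsGalois (B n) (IntermediateField.extendScalars hle) := by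
    let i1 : Algebra (B n) (B (n + 1)) := algC hle
    have t1 : IsScalarTower ℚ (B n) (B (n + 1)) := IsScalarTower.of_algebraMap_eq (fun _ => rfl)
    have h3 : IsGalois (B n) (B (n + 1)) := IsGalois.tower_top_of_isGalois ℚ _ _
    exact (isGalois_algC hle).1 h3
  have hDE : k ⊔ B n ≤ k ⊔ B (n + 1) := sup_le_sup_left hle k
  have hd := (BCH_thm.1 (B n) (B (n + 1)) k (k ⊔ B n) (k ⊔ B (n + 1)) hle hDE
    (sup_comm _ _) (sup_comm _ _) hGal).2
  have e1 := deg_mul hle
  rw [(hB n).1, (hB (n + 1)).1, pow_succ] at e1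
  have e2 : Module.finrank (B n) (IntermediateField.extendScalars hle) = l :=
    Nat.eq_of_mul_eq_mul_left (pow_pos (Fact.out : l.Prime).pos n) e1
  rw [e2] at hd
  have e3 := deg_mul hDE
  have e4 := deg_mul h1
  have e5 := deg_mul h2
  have hDpos : 0 < Module.finrank ℚ ↥(k ⊔ B n) := Module.finrank_pos
  have e6 : Module.finrank ↥(k ⊔ B n) (IntermediateField.extendScalars h1) *
      Module.finrank F (IntermediateField.extendScalars h2) =
      Module.finrank ↥(k ⊔ B n) (IntermediateField.extendScalars hDE) := by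
    apply Nat.eq_of_mul_eq_mul_left hDpos
    rw [← mul_assoc, e4, e5, e3]
  have e7 : Module.finrank ↥(k ⊔ B n) (IntermediateField.extendScalars h1) ∣ l :=
    (Dvd.intro _ e6).trans hd
  rcases (Nat.dvd_prime (Fact.out : l.Prime)).1 e7 with h | h
  · rw [h, mul_one] at e4
    exact (IntermediateField.eq_of_le_of_finrank_eq h1 e4).symm
  · exfalso
    have e8 : l ∣ Module.finrank ↥(k ⊔ B n) (IntermediateField.extendScalars hDE) := by
      rw [← h]
      exact Dvd.intro _ e6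
    have e9 : Module.finrank ↥(k ⊔ B n) (IntermediateField.extendScalars hDE) = l :=
      Nat.dvd_antisymm hd e8
    rw [h, e9] at e6
    have e10 : Module.finrank F (IntermediateField.extendScalars h2) = 1 := by
      apply Nat.eq_of_mul_eq_mul_left (Fact.out : l.Prime).pos
      rw [e6, mul_one]
    rw [e10, mul_one] at e5
    exact hne (IntermediateField.eq_of_le_of_finrank_eq h2 e5)

theorem cor (l a n₀ : ℕ) [Fact l.Prime] (k K : IntermediateField ℚ ℂ)
    (B : ℕ → IntermediateField ℚ ℂ)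
    [FiniteDimensional ℚ K] [∀ n, FiniteDimensional ℚ ↥(K ⊔ B n)] (hB : Twr l k K B)
    (hdeg : Module.finrank k (IntermediateField.extendScalars hB.hk) ∣ l ^ a)
    (hn₀ : ¬ B (n₀ + 1) ≤ K ⊔ B n₀) (n : ℕ) (hn : n₀ + a < n) (L : IntermediateField ℚ ℂ)
    (hkL : k ≤ L) (hL : L ≤ K ⊔ B n)
    (hcyc : IsCyclic ((IntermediateField.extendScalars hkL) ≃ₐ[k]
      (IntermediateField.extendScalars hkL)))
    (hnot : ¬ L ≤ K ⊔ B (n - 1)) :
    L ⊓ (K ⊔ B n₀) = k ⊔ B n₀ := by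
  classical
  have hlp : l.Prime := Fact.out
  have hkC : k ≤ K ⊔ B n := hB.hk.trans le_sup_left
  let aC : Algebra k ↥(K ⊔ B n) := algC hkC
  let aK : Algebra k K := algC hB.hk
  obtain ⟨galC, comC⟩ := gal_ab l k K B hB n hkC
  obtain ⟨r₁, r₂, p1, p2, -⟩ := chr_split l k K B hB n hkC
  obtain ⟨fdB, hGB, -⟩ := LAY_thm l n (B n) (hB.lay n)
  have hcycB : IsCyclic (B n ≃ₐ[ℚ] B n) := t_LAYC l n (B n) (hB.lay n)
  have fdk : FiniteDimensional ℚ k := FiniteDimensional.of_injective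
    (IntermediateField.inclusion hB.hk).toLinearMap
    (IntermediateField.inclusion hB.hk).toRingHom.injective
  have fdL : FiniteDimensional ℚ L := FiniteDimensional.of_injective
    (IntermediateField.inclusion hL).toLinearMap
    (IntermediateField.inclusion hL).toRingHom.injective
  have tC : IsScalarTower ℚ k ↥(K ⊔ B n) := IsScalarTower.of_algebraMap_eq (fun _ => rfl)
  have tK : IsScalarTower ℚ k K := IsScalarTower.of_algebraMap_eq (fun _ => rfl)
  have ffC : FiniteDimensional k ↥(K ⊔ B n) := Module.Finite.of_restrictScalars_finite ℚ k _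
  have ffK : FiniteDimensional k K := Module.Finite.of_restrictScalars_finite ℚ k _
  have galK : IsGalois k K := (isGalois_algC hB.hk).2 hB.gal
  have hone : ∀ τ : ↥(K ⊔ B n) ≃ₐ[k] ↥(K ⊔ B n), r₁ τ = 1 → r₂ τ = 1 → τ = 1 := by
    intro τ h1 h2
    refine eq_one_of hkC τ ?_ ?_
    · intro x hx
      have h3 := p1 τ ⟨(x : ℂ), hx⟩ x rfl
      rw [h1] at h3
      exact Subtype.ext h3
    · intro x hx
      have h3 := p2 τ ⟨(x : ℂ), hx⟩ x rfl
      rw [h2] at h3
      exact Subtype.ext h3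
  have hr1 : ∀ τ : ↥(K ⊔ B n) ≃ₐ[k] ↥(K ⊔ B n), (∀ y : ↥(K ⊔ B n), (y : ℂ) ∈ K → τ y = y) →
      r₁ τ = 1 := by
    intro τ h
    ext x
    have h3 := p1 τ x ⟨(x : ℂ), (le_sup_left : K ≤ K ⊔ B n) x.2⟩ rfl
    rw [h _ x.2] at h3
    exact h3.symm
  have hr2 : ∀ (τ : ↥(K ⊔ B n) ≃ₐ[k] ↥(K ⊔ B n)) (x : B n),
      τ ⟨(x : ℂ), (le_sup_right : B n ≤ K ⊔ B n) x.2⟩ =
        ⟨(x : ℂ), (le_sup_right : B n ≤ K ⊔ B n) x.2⟩ → r₂ τ x = x := by
    intro τ x h
    have h3 := p2 τ x ⟨(x : ℂ), (le_sup_right : B n ≤ K ⊔ B n) x.2⟩ rfl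
    rw [h] at h3
    exact Subtype.ext h3.symm
  have hcardB : Nat.card (B n ≃ₐ[ℚ] B n) = l ^ n := by
    rw [IsGalois.card_aut_eq_finrank, (hB.lay n).1]
  have hcardK : Nat.card (K ≃ₐ[k] K) ∣ l ^ a := by
    rw [IsGalois.card_aut_eq_finrank]
    have h1 := finrank_algC hB.hk
    rw [h1]
    exact hdeg
  -- step 1: an automorphism over `K B_(n-1)` which moves `L`
  have hle1 : K ⊔ B (n - 1) ≤ K ⊔ B n := sup_le_sup_left (hB.mono (Nat.sub_le n 1)) K
  obtain ⟨σ₁, hσ1, hσ2⟩ : ∃ σ₁ : ↥(K ⊔ B n) ≃ₐ[k] ↥(K ⊔ B n),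
      (∀ y : ↥(K ⊔ B n), (y : ℂ) ∈ K ⊔ B (n - 1) → σ₁ y = y) ∧
      ¬ ∀ y : ↥(K ⊔ B n), (y : ℂ) ∈ L → σ₁ y = y := by
    by_contra hall
    push Not at hall
    apply hnot
    intro x hx
    exact fix_mem (hB.hk.trans le_sup_left) hle1 hkC galC ⟨x, hL hx⟩
      (fun σ hσ => hall σ hσ _ hx)
  have hσl : (r₂ σ₁) ^ l = 1 := by
    refine pow_deg (B := B (n - 1)) (B' := B n) (hB.mono (Nat.sub_le n 1)) hGB l ?_ _ ?_
    · rw [(hB.lay n).1, (hB.lay (n - 1)).1, ← pow_succ]
      congr 1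
      omega
    · intro x hx
      exact hr2 σ₁ x (hσ1 _ ((le_sup_right : B (n - 1) ≤ K ⊔ B (n - 1)) hx))
  have hσK : r₁ σ₁ = 1 := hr1 σ₁ fun y hy => hσ1 y ((le_sup_left : K ≤ K ⊔ B (n - 1)) hy)
  -- step 2: the automorphisms over `L` and over `K` meet trivially
  have hmeet : ∀ τ : ↥(K ⊔ B n) ≃ₐ[k] ↥(K ⊔ B n), (∀ y : ↥(K ⊔ B n), (y : ℂ) ∈ L → τ y = y) →
      r₁ τ = 1 → τ = 1 := by
    intro τ hτL hτK
    by_contra hne
    have h1 : r₂ τ ≠ 1 := fun h => hne (hone τ hτK h)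
    obtain ⟨e, -, he⟩ := (Nat.dvd_prime_pow hlp).1 ((orderOf_dvd_natCard (r₂ τ)).trans
      (dvd_of_eq hcardB))
    have he0 : e ≠ 0 := by
      rintro rfl
      rw [pow_zero, orderOf_eq_one_iff] at he
      exact h1 he
    obtain ⟨e', rfl⟩ := Nat.exists_eq_succ_of_ne_zero he0
    have h2 : (r₂ (τ ^ l ^ e')) ^ l = 1 := by
      rw [map_pow, ← pow_mul, ← pow_succ, ← he, pow_orderOf_eq_one]
    have h3 : r₂ (τ ^ l ^ e') ≠ 1 := by
      intro h
      rw [map_pow] at h
      have h4 := orderOf_dvd_of_pow_eq_one h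
      rw [he] at h4
      have h5 := (Nat.pow_dvd_pow_iff_le_right hlp.one_lt).1 h4
      omega
    obtain ⟨j, hj⟩ := cyc_mem l hlp (r₂ (τ ^ l ^ e')) (r₂ σ₁) h2 h3 hσl
    have hj' : (r₂ (τ ^ l ^ e')) ^ j = r₂ σ₁ := hj
    have h4 : σ₁ * ((τ ^ l ^ e') ^ j)⁻¹ = 1 := by
      refine hone _ ?_ ?_
      · rw [map_mul, map_inv, map_zpow, map_pow, hσK, hτK, one_pow, one_zpow, inv_one, mul_one]
      · rw [map_mul, map_inv, map_zpow, hj', mul_inv_cancel]
    have h5 : σ₁ = (τ ^ l ^ e') ^ j := mul_inv_eq_one.1 h4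
    apply hσ2
    have h6 : τ ∈ Fix hkC L := hτL
    have h7 : σ₁ ∈ Fix hkC L := by
      rw [h5]
      exact Subgroup.zpow_mem _ (Subgroup.pow_mem _ h6 _) _
    exact h7
  -- step 3: `B_(n-a) ≤ L`
  have ha : a ≤ n := by omega
  have hBL : B (n - a) ≤ L := by
    intro x hx
    have hxn : x ∈ B n := hB.mono (Nat.sub_le n a) hx
    refine fix_mem hkL hL hkC galC ⟨x, (le_sup_right : B n ≤ K ⊔ B n) hxn⟩ fun τ hτ => ?_
    have h6 : τ ∈ Fix hkC L := hτ
    have h7 : τ ^ l ^ a ∈ Fix hkC L := Subgroup.pow_mem _ h6 _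
    have h8 : r₁ (τ ^ l ^ a) = 1 := by
      obtain ⟨c, hc⟩ := hcardK
      rw [map_pow, hc, pow_mul, pow_card_eq_one', one_pow]
    have h9 := hmeet _ h7 h8
    have h10 : (r₂ τ) ^ l ^ a = 1 := by rw [← map_pow, h9, map_one]
    have h11 := lay_fix l n a ha (B (n - a)) (B n) (hB.lay (n - a)) (hB.lay n)
      (hB.mono (Nat.sub_le n a)) (r₂ τ) h10 ⟨x, hxn⟩ hx
    have h12 := p2 τ ⟨x, hxn⟩ ⟨x, (le_sup_right : B n ≤ K ⊔ B n) hxn⟩ rfl
    rw [h11] at h12
    exact Subtype.ext h12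
  -- the fields
  have hEL : k ⊔ B (n₀ + 1) ≤ L := sup_le hkL ((hB.mono (by omega)).trans hBL)
  have hFL : L ⊓ (K ⊔ B n₀) ≤ L := inf_le_left
  have hkF : k ≤ L ⊓ (K ⊔ B n₀) := le_inf hkL (hB.hk.trans le_sup_left)
  have hDF : k ⊔ B n₀ ≤ L ⊓ (K ⊔ B n₀) :=
    le_inf ((sup_le_sup_left (hB.mono (Nat.le_succ n₀)) k).trans hEL)
      (sup_le_sup_right hB.hk (B n₀))
  -- `L / k` is cyclic of degree a power of `l`
  let aL : Algebra k L := algC hkL
  have tL : IsScalarTower ℚ k L := IsScalarTower.of_algebraMap_eq (fun _ => rfl)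
  have ffL : FiniteDimensional k L := Module.Finite.of_restrictScalars_finite ℚ k _
  have abC : IsAbelianGalois k ↥(K ⊔ B n) :=
    { toIsGalois := galC
      is_comm := ⟨comC⟩ }
  let iLC : Algebra L ↥(K ⊔ B n) := algC hL
  have tLC : IsScalarTower k L ↥(K ⊔ B n) := towerC hkL hL
  have abL : IsAbelianGalois k L := IsAbelianGalois.of_algHom (IsScalarTower.toAlgHom k L ↥(K ⊔ B n))
  have galL : IsGalois k L := abL.toIsGalois
  have cycL : IsCyclic (L ≃ₐ[k] L) :=
    (extEquiv hkL).autCongr.isCyclic.1 hcyc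
  have hcardL : Nat.card (L ≃ₐ[k] L) ∣ l ^ (a + n) := by
    have h1 : Nat.card (L ≃ₐ[k] L) ∣ Nat.card (↥(K ⊔ B n) ≃ₐ[k] ↥(K ⊔ B n)) :=
      Subgroup.card_dvd_of_surjective (AlgEquiv.restrictNormalHom L)
        (AlgEquiv.restrictNormalHom_surjective ↥(K ⊔ B n))
    have h2 : Nat.card (↥(K ⊔ B n) ≃ₐ[k] ↥(K ⊔ B n)) ∣
        Nat.card ((K ≃ₐ[k] K) × (B n ≃ₐ[ℚ] B n)) := by
      refine Subgroup.card_dvd_of_injective (r₁.prod r₂) ?_
      rw [injective_iff_map_eq_one]
      intro g hg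
      exact hone g (congrArg Prod.fst hg) (congrArg Prod.snd hg)
    rw [Nat.card_prod, hcardB] at h2
    rw [pow_add]
    exact h1.trans (h2.trans (Nat.mul_dvd_mul_right hcardK _))
  have hcomp := comparable hkL l (a + n) hlp (k ⊔ B (n₀ + 1)) (L ⊓ (K ⊔ B n₀)) le_sup_left hkF
    hEL hFL galL cycL hcardL
  have hnE : ¬ k ⊔ B (n₀ + 1) ≤ L ⊓ (K ⊔ B n₀) := fun h =>
    hn₀ (le_sup_right.trans (h.trans inf_le_right))
  have hFE : L ⊓ (K ⊔ B n₀) ≤ k ⊔ B (n₀ + 1) := hcomp.resolve_left hnE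
  exact between l n₀ k B hB.lay hB.mono _ hDF hFE fun h => hnE h.ge

end Pool.Agent.TWF


end

section

/-!
# TWF: statement of module UNF (helper56)
-/

set_option autoImplicit false

open NumberField IsDedekindDomain

namespace Pool.Agent.TWF

open _root_.MU3 Pool.Agent.MU3 Pool.Agent.MU3A Pool.Agent.MU3B Pool.Agent.RI Pool.Agent.RID
  Pool.Agent.MUX Pool.Agent.TWT
open Pool.Agent.MU3V (Sub)

/-- UNF: a field which is unramified above `p`, of degree prime to `p` over `k`, is contained in a ray class field of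
level prime to `p`. -/
def S_UNF : Prop :=
  ∀ (p : ℕ) (A B : ℤ) (P : Ideal (OO A B)) (V V' : ValuationSubring ℂ) (f₀ : ℕ),
    SetG p A B P V f₀ → OverI V' (cjI P) → TorX A B →
    ∀ (n : ℕ) (ι : Type) [Finite ι] (R : Reps A B n ι), GRd V R → GRd V' R →
    ∀ (K : IntermediateField ℚ ℂ) [FiniteDimensional ℚ K] (hk : kk A B ≤ K),
    ¬ p ∣ Module.finrank (kk A B) (IntermediateField.extendScalars hk) →
    ∀ M : ℕ, M ≠ 0 → (∀ x ∈ K, x ∈ (RF (idl M) : IntermediateField (kk A B) ℂ)) →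
    (∀ Q : Ideal (𝓞 K), Q.IsPrime → (p : 𝓞 K) ∈ Q → (p : 𝓞 K) ∉ Q ^ 2) →
    ∀ N : ℕ, N ≠ 0 → ¬ p ∣ N →
    ∃ f : ℕ, f ≠ 0 ∧ ¬ p ∣ f ∧ N ∣ f ∧ 2 * absD A B ∣ (f : ℤ) ∧
      ∀ x ∈ K, x ∈ (RF (idl f) : IntermediateField (kk A B) ℂ)

end Pool.Agent.TWF


end

section

/-!
# TWF, module UNF, part 0: a field unramified above `p`, of degree prime to `p` over `k`, has a level prime to `p` (helper56)

The level `f p` (the proof of `Pool/Agent/MUX/J_LEV.lean` for all odd `p`).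
-/

set_option autoImplicit false

open WeierstrassCurve Polynomial NumberField IsDedekindDomain

namespace Pool.Agent.TWF

open _root_.MU3 Pool.Agent.MU3A Pool.Agent.MU3B Pool.Agent.MU3C Pool.Agent.RI Pool.Agent.RID
open Pool.Agent.MUX Pool.Agent.MUXU Pool.Agent.MUXW Pool.Agent.TWT
open Pool.Agent.MU3V (cls Sub GD algDF)
open Pool.Agent.MUXV (GR InK tX)
open OnePoint

noncomputable section

open Pool.Agent.MUXJ.LEV in
/-- a field of degree prime to `p` over `k` is contained in a ray class field of level `f p` -/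
theorem unf_lev {p : ℕ} {A B : ℤ} (hp : p.Prime) (hp2 : p ≠ 2) (hneg : B ^ 2 + 4 * A < 0)
    (hpD : ¬ (p : ℤ) ∣ absD A B) (T : TorX A B)
    (hN : ∃ (b : Ideal (OO A B)) (L : PeriodPair) (om : ℂ), IsNL b L om)
    (K : IntermediateField ℚ ℂ) [FiniteDimensional ℚ K] (hk : kk A B ≤ K)
    (hKp : ¬ p ∣ Module.finrank (kk A B) (IntermediateField.extendScalars hk)) (M : ℕ)
    (hM0 : M ≠ 0) (hM : ∀ x ∈ K, x ∈ (RF (idl M) : IntermediateField (kk A B) ℂ))
    (N : ℕ) (hN0 : N ≠ 0) (hNp : ¬ p ∣ N) :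
    ∃ f : ℕ, f ≠ 0 ∧ ¬ p ∣ f ∧ N ∣ f ∧ 2 * absD A B ∣ (f : ℤ) ∧
      ∀ x ∈ K, x ∈ (RF (idl (f * p)) : IntermediateField (kk A B) ℂ) := by
  obtain ⟨j, M', hM', hMj⟩ := Nat.exists_eq_pow_mul_and_not_dvd hM0 p hp.ne_one
  have hM'0 : M' ≠ 0 := by
    rintro rfl
    exact hM' (dvd_zero p)
  have hD0 : 0 < absD A B := by
    unfold absD
    omega
  set c : ℕ := (absD A B).toNat with hc
  have hcD : (c : ℤ) = absD A B := Int.toNat_of_nonneg hD0.le
  have hc0 : c ≠ 0 := by omega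
  have hcp : ¬ p ∣ c := by
    intro h
    apply hpD
    rw [← hcD]
    exact_mod_cast h
  have hup : ¬ p ∣ 2 := by
    intro h3
    rcases (Nat.dvd_prime Nat.prime_two).1 h3 with h4 | h4
    · exact hp.ne_one h4
    · exact hp2 h4
  set f : ℕ := 2 * c * (N * M') with hf
  have hf0 : f ≠ 0 := mul_ne_zero (mul_ne_zero two_ne_zero hc0) (mul_ne_zero hN0 hM'0)
  have hfp : ¬ p ∣ f := by
    rw [hf, hp.dvd_mul, hp.dvd_mul, hp.dvd_mul]
    push Not
    exact ⟨⟨hup, hcp⟩, hNp, hM'⟩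
  refine ⟨f, hf0, hfp, ⟨2 * c * M', by rw [hf]; ring⟩, ?_, ?_⟩
  · refine ⟨(N * M' : ℕ), ?_⟩
    rw [hf, ← hcD]
    push_cast
    ring
  -- the two levels
  set m1 : Ideal (OO A B) := idl (f * p * p ^ j) with hm1
  set m0 : Ideal (OO A B) := idl (f * p) with hm0
  have hm1' : m1 ≠ ⊥ := idl_ne (mul_ne_zero (mul_ne_zero hf0 hp.ne_zero)
    (pow_ne_zero _ hp.ne_zero))
  have hm0' : m0 ≠ ⊥ := idl_ne (mul_ne_zero hf0 hp.ne_zero)
  have h01 : m1 ≤ m0 := idl_le (Dvd.intro _ rfl)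
  have hMm : m1 ≤ idl M := idl_le (by
    rw [hMj]
    exact ⟨2 * c * N * p, by rw [hf]; ring⟩)
  have hK1 : ∀ x ∈ K, x ∈ RF m1 := fun x hx => T.mono _ _ hMm (hM x hx)
  have hfin := T.fin m1 hm1'
  have hgal := T.gal m1 hm1'
  have h01' : RF m0 ≤ RF m1 := T.mono _ _ h01
  let K' : IntermediateField (kk A B) ℂ := IntermediateField.extendScalars hk
  have hK' : K' ≤ RF m1 := fun x hx => hK1 x hx
  let E : IntermediateField (kk A B) (RF m1) := IntermediateField.restrict hK'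
  let F0 : IntermediateField (kk A B) (RF m1) := IntermediateField.restrict h01'
  have hcomm := T.comm m1 hm1'
  have hnorm : E.fixingSubgroup.Normal := by
    constructor
    intro n hn g
    rw [hcomm g n, mul_assoc, mul_inv_cancel, mul_one]
    exact hn
  have hidx : ¬ p ∣ E.fixingSubgroup.index := by
    rw [← IntermediateField.finrank_eq_fixingSubgroup_index,
      ← (IntermediateField.restrictAlgEquiv hK').toLinearEquiv.finrank_eq]
    exact hKp
  -- elements which are trivial on `RF m0`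
  have hkey : F0.fixingSubgroup ≤ E.fixingSubgroup := by
    intro σ hσ
    rw [IntermediateField.mem_fixingSubgroup_iff] at hσ
    obtain ⟨s, hs, hsσ⟩ := lift T hm1' σ
    obtain ⟨a, hac, ha⟩ := T.act m1 hm1' s hs
    obtain ⟨b, L, om, hL⟩ := hN
    obtain ⟨b', L', om', mu, hL', hact⟩ := ha b L om hL
    have htr0 : ∀ y ∈ RF m0, s y = y := by
      intro y hy
      have h1 := hsσ ⟨y, h01' hy⟩
      have h2 := hσ ⟨y, h01' hy⟩ ((IntermediateField.mem_restrict h01' _).2 hy)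
      rw [h2] at h1
      exact h1
    obtain ⟨x, hx, hax⟩ := (T.triv m0 a s b L L' om mu hm0' hs hL (act_mono h01 hact)
      hL'.nrm).1 htr0
    -- powers
    have hpow : ∀ n : ℕ, ∃ t : ℂ ≃+* ℂ, FixK A B t ∧
        (∀ y : RF m1, t (y : ℂ) = ((σ ^ (n + 1)) y : ℂ)) ∧
        ∃ (b' : Ideal (OO A B)) (L' : PeriodPair) (om' mu : ℂ), IsNL b' L' om' ∧
          ActI t m1 (a ^ (n + 1)) L L' mu := by
      intro n
      induction n with
      | zero =>
        refine ⟨s, hs, fun y => ?_, b', L', om', mu, hL', ?_⟩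
        · rw [zero_add, pow_one]; exact hsσ y
        · rw [zero_add, pow_one]; exact hact
      | succ n ih =>
        obtain ⟨t, ht, ht1, b₁, L₁, om₁, mu₁, hL₁, hact₁⟩ := ih
        obtain ⟨b₂, L₂, om₂, mu₂, hL₂, hact₂⟩ := ha b₁ L₁ om₁ hL₁
        refine ⟨t.trans s, ?_, fun y => ?_, b₂, L₂, om₂, mu₂ * mu₁, hL₂, ?_⟩
        · show s (t (wC A B)) = wC A B
          rw [show t (wC A B) = wC A B from ht]
          exact hs
        · show s (t (y : ℂ)) = _
          rw [ht1 y, hsσ, pow_succ' σ (n + 1)]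
          rfl
        · rw [pow_succ a (n + 1)]
          exact T.comp m1 _ a t s L L₁ L₂ mu₁ mu₂ hact₁ hact₂
    have hpj : 0 < p ^ j := pow_pos hp.pos j
    obtain ⟨t, ht, ht1, b₁, L₁, om₁, mu₁, hL₁, hact₁⟩ := hpow (p ^ j - 1)
    rw [Nat.sub_add_cancel hpj] at ht1 hact₁
    have h3 : x ^ p ^ j - 1 ∈ m1 := by
      have h4 : ((f * p : ℕ) : OO A B) ∣ x - 1 := Ideal.mem_span_singleton.1 hx
      have h5 : ((p : ℕ) : OO A B) ∣ ((f * p : ℕ) : OO A B) :=
        Nat.cast_dvd_cast (Dvd.intro_left _ rfl)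
      have h6 := pow_dvd p _ x h5 h4 j
      rw [hm1, Ideal.mem_span_singleton]
      push_cast at h6 ⊢
      exact h6
    have h4 : σ ^ p ^ j = 1 := by
      have h5 := (T.triv m1 _ t b L L₁ om mu₁ hm1' ht hL hact₁ hL₁.nrm).2
        ⟨x ^ p ^ j, h3, by rw [hax, Ideal.span_singleton_pow]⟩
      refine AlgEquiv.ext fun y => Subtype.ext ?_
      rw [← ht1 y, h5 y y.2]
      rfl
    have h5 : σ ^ E.fixingSubgroup.index ∈ E.fixingSubgroup := Subgroup.pow_index_mem _ σ
    refine mem_of_pow_mem _ (m := p ^ j) (by rw [h4]; exact one_mem _) h5 ?_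
    exact Nat.Coprime.pow_left j ((Nat.Prime.coprime_iff_not_dvd hp).2 hidx)
  have hEF : E ≤ F0 := by
    rw [← IsGalois.fixedField_fixingSubgroup F0, IntermediateField.le_iff_le]
    exact hkey
  intro x hx
  have h1 : (⟨x, hK1 x hx⟩ : RF m1) ∈ F0 :=
    hEF ((IntermediateField.mem_restrict hK' _).2 hx)
  exact (IntermediateField.mem_restrict h01' _).1 h1

end

end Pool.Agent.TWF


end

section

/-!
# TWF, module UNF, part 1: the order of the inertia group at `V` (helper56)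

From the proof of `Pool/Agent/MUX/J_RAM.lean` (helper48).
-/

set_option autoImplicit false

open NumberField IsDedekindDomain

namespace Pool.Agent.TWF

open _root_.MU3 Pool.Agent.MU3 Pool.Agent.MU3A Pool.Agent.MU3B Pool.Agent.MUX Pool.Agent.MUXE

noncomputable section

/-- the inertia group of `F / k` at `V` -/
def IGV {A B : ℤ} (V : ValuationSubring ℂ) (F : IntermediateField (kk A B) ℂ) :
    Set (F ≃ₐ[kk A B] F) :=
  {σ | ∀ x : F, V.valuation (x : ℂ) ≤ 1 → V.valuation ((σ x : ℂ) - x) < 1}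

open Pool.Agent.MUXJ.JRAM Pool.Agent.MUXE.RamE Pool.Agent.MU3E.RAM in
/-- the prime `w` of `F` below `V`, and the value of `p` -/
theorem unf_w {p : ℕ} {A B : ℤ} {P : Ideal (OO A B)} {V : ValuationSubring ℂ} (hC : CQ A B)
    (hp : p.Prime) (hpP : ((p : ℕ) : OO A B) ∈ P) (hV : OverI V P)
    (hsplit : ((p : ℕ) : OO A B) ∉ P ^ 2)
    (F : IntermediateField (kk A B) ℂ) [FiniteDimensional (kk A B) F] [IsGalois (kk A B) F]
    [NumberField F] :
    ∃ w : HeightOneSpectrum (𝓞 F),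
      (∀ x : 𝓞 F, x ∈ w.asIdeal ↔ V.valuation ((algebraMap F ℂ) (x : F)) < 1) ∧
      w.valuation F (p : F) = WithZero.exp (-1 : ℤ) ^ Nat.card (IGV V F) := by
  obtain ⟨⟨φ, hφ⟩, hinj, hded, hpos, hint⟩ := te_RNG A B hC
  have hw0 : IsIntegral ℤ (wC A B) := by
    rw [hint _ (wC_mem A B)]
    exact ⟨⟨0, 1⟩, by simp [emb]⟩
  have hfd : FiniteDimensional ℚ (kk A B) :=
    IntermediateField.adjoin.finiteDimensional hw0.tower_top
  have hk : NumberField (kk A B) := ⟨⟩
  have hIn : ∀ x : OO A B, IsIntegral ℤ (ek x) := by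
    intro x
    have h2 : IsIntegral ℤ (emb x) := (hint (emb x) (Pool.Agent.MU3A.emb_mem x)).mpr ⟨x, rfl⟩
    have h3 : algebraMap (kk A B) ℂ (ek x) = emb x := rfl
    rw [← h3] at h2
    exact (isIntegral_algebraMap_iff (FaithfulSMul.algebraMap_injective (kk A B) ℂ)).mp h2
  -- the ring isomorphism
  let e : OO A B →+* 𝓞 (kk A B) :=
    { toFun := fun x => ⟨ek x, hIn x⟩
      map_one' := by
        apply RingOfIntegers.ext
        apply Subtype.ext
        change emb 1 = 1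
        rw [← hφ, map_one]
      map_mul' := by
        intro a b
        apply RingOfIntegers.ext
        apply Subtype.ext
        change emb (a * b) = emb a * emb b
        rw [← hφ, ← hφ, ← hφ, map_mul]
      map_zero' := by
        apply RingOfIntegers.ext
        apply Subtype.ext
        change emb 0 = 0
        rw [← hφ, map_zero]
      map_add' := by
        intro a b
        apply RingOfIntegers.ext
        apply Subtype.ext
        change emb (a + b) = emb a + emb b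
        rw [← hφ, ← hφ, ← hφ, map_add] }
  have he : ∀ x, (((e x : 𝓞 (kk A B)) : kk A B) : ℂ) = emb x := fun x => rfl
  have hesurj : Function.Surjective e := by
    intro x
    have h2 : IsIntegral ℤ ((x : kk A B) : ℂ) :=
      (RingOfIntegers.isIntegral_coe x).map (Algebra.ofId (kk A B) ℂ |>.restrictScalars ℤ)
    obtain ⟨z, hz⟩ := (hint _ (x : kk A B).2).mp h2
    refine ⟨z, ?_⟩
    apply RingOfIntegers.ext
    apply Subtype.ext
    rw [he, hz]
  have heinj : Function.Injective e := by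
    rw [injective_iff_map_eq_zero]
    intro x hx
    apply hinj
    rw [← he, hx]
    rfl
  have hpC : emb ((p : ℕ) : OO A B) = (p : ℂ) := by rw [← hφ, map_natCast]
  have hpne : (p : ℂ) ≠ 0 := by exact_mod_cast hp.ne_zero
  have hvP : ∀ x : OO A B, V.valuation (emb x) < 1 ↔ x ∈ P := fun x => by
    rw [← hV x, ValuationSubring.mem_nonunits_iff]
  obtain ⟨w, hw⟩ := exists_prime (V := V) (algebraMap F ℂ)
    (z := ((p : ℕ) : 𝓞 F)) (by
      intro h
      have h1 := congrArg (fun t : 𝓞 F => algebraMap F ℂ (t : F)) h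
      have h2 : ((p : ℕ) : ℂ) = 0 := by
        simpa using h1
      exact hpne h2) (by
      have h2 : (algebraMap F ℂ) ((((p : ℕ) : 𝓞 F)) : F) = (p : ℂ) := by simp
      rw [h2, ← hpC, hvP]
      exact hpP)
  have hcomap : (w.asIdeal.under (𝓞 (kk A B))).comap e = P := by
    ext z
    have hxw : z ∈ (w.asIdeal.under (𝓞 (kk A B))).comap e ↔ V.valuation (emb z) < 1 := by
      exact hw (algebraMap (𝓞 (kk A B)) (𝓞 F) (e z))
    rw [hxw, hvP]
  have hmap : P.map e = w.asIdeal.under (𝓞 (kk A B)) := by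
    rw [← hcomap]
    exact Ideal.map_comap_of_surjective e hesurj _
  have hep : e ((p : ℕ) : OO A B) = ((p : ℕ) : 𝓞 (kk A B)) := map_natCast e p
  have hq1 : ((p : ℕ) : 𝓞 (kk A B)) ∈ w.asIdeal.under (𝓞 (kk A B)) := by
    rw [← hmap, ← hep]
    exact Ideal.mem_map_of_mem e hpP
  have hq2 : ((p : ℕ) : 𝓞 (kk A B)) ∉ (w.asIdeal.under (𝓞 (kk A B))) ^ 2 := by
    rw [← hmap, ← Ideal.map_pow, ← hep, Ideal.mem_map_iff_of_surjective e hesurj]
    rintro ⟨z, hz, hz2⟩
    rw [heinj hz2] at hz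
    exact hsplit hz
  have hord := val_card (k := kk A B) (algebraMap F ℂ) hw hq1 hq2
  have hpF : (algebraMap (kk A B) F (((p : ℕ) : 𝓞 (kk A B)) : kk A B)) = (p : F) := by
    simp
  rw [hpF] at hord
  exact ⟨w, hw, hord⟩

/-- `F` is a number field -/
theorem unf_nf {A B : ℤ} (hC : CQ A B) (F : IntermediateField (kk A B) ℂ)
    [FiniteDimensional (kk A B) F] : NumberField F := by
  obtain ⟨⟨φ, hφ⟩, hinj, hded, hpos, hint⟩ := te_RNG A B hC
  have hw0 : IsIntegral ℤ (wC A B) := by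
    rw [hint _ (wC_mem A B)]
    exact ⟨⟨0, 1⟩, by simp [emb]⟩
  have hfd : FiniteDimensional ℚ (kk A B) :=
    IntermediateField.adjoin.finiteDimensional hw0.tower_top
  have hk : NumberField (kk A B) := ⟨⟩
  have hFQ : FiniteDimensional ℚ F := FiniteDimensional.trans ℚ (kk A B) F
  exact ⟨⟩

open Pool.Agent.MUXJ.JRAM in
/-- if `F` contains the roots of unity of order `p` then `p - 1` divides the order of the inertia group -/
theorem unf_dvd {p : ℕ} {A B : ℤ} {P : Ideal (OO A B)} {V : ValuationSubring ℂ} (hC : CQ A B)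
    (hp : p.Prime) (hpP : ((p : ℕ) : OO A B) ∈ P) (hV : OverI V P)
    (hsplit : ((p : ℕ) : OO A B) ∉ P ^ 2)
    (F : IntermediateField (kk A B) ℂ) [FiniteDimensional (kk A B) F] [IsGalois (kk A B) F]
    (hζ : ∃ ζ ∈ F, IsPrimitiveRoot ζ p) : (p - 1) ∣ Nat.card (IGV V F) := by
  have hF : NumberField F := unf_nf hC F
  obtain ⟨ζ, hζF, hζ⟩ := hζ
  obtain ⟨w, -, hord⟩ := unf_w hC hp hpP hV hsplit F
  have hζ' : IsPrimitiveRoot (⟨ζ, hζF⟩ : F) (p ^ (0 + 1)) := by
    rw [zero_add, pow_one]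
    exact IsPrimitiveRoot.of_map_of_injective (f := algebraMap F ℂ) hζ
      (FaithfulSMul.algebraMap_injective F ℂ)
  have hcy := val_p w hp hζ'
  rw [zero_add, pow_one, Nat.totient_prime hp] at hcy
  rw [hcy] at hord
  set N := Nat.card (IGV V F) with hN
  have hp1 : p - 1 ≠ 0 := Nat.sub_ne_zero_of_lt hp.one_lt
  have h0 : w.valuation F (1 - (⟨ζ, hζF⟩ : F)) ≠ 0 := by
    intro h0
    rw [h0, zero_pow hp1] at hord
    have h5 : (WithZero.exp (-1 : ℤ)) ^ N ≠ (0 : WithZero (Multiplicative ℤ)) :=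
      pow_ne_zero _ WithZero.exp_ne_zero
    exact h5 hord.symm
  rw [← WithZero.exp_log h0, ← WithZero.exp_nsmul, ← WithZero.exp_nsmul, WithZero.exp_inj,
    nsmul_eq_mul, nsmul_eq_mul] at hord
  have h6 : ((p - 1 : ℕ) : ℤ) ∣ (N : ℤ) :=
    ⟨-WithZero.log (w.valuation F (1 - (⟨ζ, hζF⟩ : F))), by linear_combination hord⟩
  exact_mod_cast h6

open Pool.Agent.MUXE.RamE in
/-- if `p` is not in the square of a prime ideal then the inertia group is trivial -/
theorem unf_one {p : ℕ} {A B : ℤ} {P : Ideal (OO A B)} {V : ValuationSubring ℂ} (hC : CQ A B)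
    (hp : p.Prime) (hpP : ((p : ℕ) : OO A B) ∈ P) (hV : OverI V P)
    (hsplit : ((p : ℕ) : OO A B) ∉ P ^ 2)
    (F : IntermediateField (kk A B) ℂ) [FiniteDimensional (kk A B) F] [IsGalois (kk A B) F]
    (hun : ∀ Q : Ideal (𝓞 F), Q.IsPrime → (p : 𝓞 F) ∈ Q → (p : 𝓞 F) ∉ Q ^ 2) :
    ∀ σ ∈ IGV V F, σ = 1 := by
  have hF : NumberField F := unf_nf hC F
  obtain ⟨w, hw, hord⟩ := unf_w hC hp hpP hV hsplit F
  have hvp : V.valuation (p : ℂ) < 1 := by
    obtain ⟨⟨φ, hφ⟩, -⟩ := te_RNG A B hC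
    have h1 : emb ((p : ℕ) : OO A B) = (p : ℂ) := by rw [← hφ, map_natCast]
    rw [← h1, ← ValuationSubring.mem_nonunits_iff]
    exact (hV _).2 hpP
  have h1 : (p : 𝓞 F) ∈ w.asIdeal := by
    rw [hw]
    have h2 : (algebraMap F ℂ) (((p : 𝓞 F)) : F) = (p : ℂ) := by simp
    rw [h2]
    exact hvp
  have h2 := hun w.asIdeal w.isPrime h1
  have h3 := intVal_one w h1 h2
  have h4 : w.valuation F (p : F) = WithZero.exp (-1 : ℤ) := by
    have h5 := w.valuation_of_algebraMap (K := F) (p : 𝓞 F)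
    rw [h3] at h5
    rw [← h5]
    simp
  rw [h4] at hord
  have h5 : Nat.card (IGV V F) = 1 := by
    have h6 : (WithZero.exp (-1 : ℤ) : WithZero (Multiplicative ℤ)) =
        WithZero.exp ((Nat.card (IGV V F)) • (-1 : ℤ)) := by
      rw [hord, WithZero.exp_nsmul]
    rw [WithZero.exp_inj, nsmul_eq_mul] at h6
    have h7 : (Nat.card (IGV V F) : ℤ) = 1 := by linear_combination h6
    exact_mod_cast h7
  have h6 : (1 : F ≃ₐ[kk A B] F) ∈ IGV V F := by
    intro x _
    simp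
  rw [Nat.card_eq_one_iff_unique] at h5
  intro σ hσ
  have h7 := h5.1
  exact congrArg Subtype.val (Subsingleton.elim (⟨σ, hσ⟩ : IGV V F) ⟨1, h6⟩)

end

end Pool.Agent.TWF


end

section

/-!
# TWF, module UNF, part 2: the points of level `f cjI P` at `V` (helper56)
-/

set_option autoImplicit false

open WeierstrassCurve Polynomial NumberField IsDedekindDomain

namespace Pool.Agent.TWF

open _root_.MU3 Pool.Agent.MU3A Pool.Agent.MU3B Pool.Agent.MU3C Pool.Agent.RI Pool.Agent.RID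
open Pool.Agent.MUX Pool.Agent.MUXU Pool.Agent.MUXW Pool.Agent.TWT
open Pool.Agent.MU3V (cls Sub GD algDF)
open Pool.Agent.MUXV (GR InK tX)
open OnePoint

noncomputable section

namespace UNF

lemma mem_l {S : Type*} [CommRing S] {I J : Ideal S} {x : S} (h : x ∈ I * J) : x ∈ I :=
  Ideal.mul_le_left h

lemma mem_r {S : Type*} [CommRing S] {I J : Ideal S} {x : S} (h : x ∈ I * J) : x ∈ J :=
  Ideal.mul_le_right h

lemma mem_of_cop {S : Type*} [CommRing S] {I J : Ideal S} (hIJ : IsCoprime I J) {x : S}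
    (h : x ∈ I) (h' : x ∈ J) : x ∈ I * J := by
  rw [Ideal.mul_eq_inf_of_coprime (Ideal.isCoprime_iff_sup_eq.1 hIJ)]
  exact ⟨h, h'⟩

variable {p : ℕ} {A B : ℤ} {P : Ideal (OO A B)} {V : ValuationSubring ℂ} {f n : ℕ} {ι : Type}

theorem good (h : SetG p A B P V f) (R : Reps A B n ι) (hR : GRd V R) (i : ι) :
    ∃ (W : WeierstrassCurve.Affine ℂ) (ξ : ℂ →+ W.Point),
      GR V W (R.L i) (fun z => (R.L i).weierstrassP z - 1 / 12)
        (fun z => (R.L i).derivWeierstrassP z / 2) ξ := by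
  have h5 := h.p5
  have h2 : V.valuation (2 : ℂ) = 1 := by
    have h3 := PIS.val_int h 2 (fun h4 => by
      have h6 := Int.le_of_dvd (by norm_num) h4
      omega)
    have h7 : ((2 : ℤ) : ℂ) = 2 := by norm_num
    rwa [h7] at h3
  refine Pool.Agent.MUXV.x_NGR V (R.L i) (R.nl i).nrm h2 (hR.kap i) ?_
  have h3 := hR.dis i
  have h4 : (1 : ℂ) + 1728 * Pool.Agent.MUX.kap (R.L i) = 12 * (R.L i).g₂ := by
    unfold Pool.Agent.MUX.kap
    ring
  rwa [h4] at h3

theorem cmo (hC : CQ A B) {b : Ideal (OO A B)} {L : PeriodPair} {om : ℂ} (hL : IsNL b L om) :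
    Pool.Agent.MUXV.CMO A B L := by
  intro x z hz
  obtain ⟨t, ht, rfl⟩ := (hL.mem z).1 hz
  exact (hL.mem _).2 ⟨x * t, b.mul_mem_left x ht, by rw [Pool.Agent.MUX.emb_mul hC]; ring⟩

theorem isq (hC : CQ A B) {Q : Ideal (OO A B)} (hQ : Q ≠ ⊥) (R : Reps A B n ι) (i : ι) :
    ∃ (j : ι) (mu : ℂ), IsQ Q (R.L i) (R.L j) mu := by
  have : IsDomain (OO A B) := Pool.Agent.MUX.isDomain hC
  have hp0 : ((nI Q : ℕ) : OO A B) ≠ 0 :=
    Pool.Agent.MUX.natCast_ne_zero' hC (Pool.Agent.MUX.nI_ne_zero hC hQ)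
  have hc : cjI Q * R.b i ≠ ⊥ :=
    Pool.Agent.MUX.mul_ne_bot hC (Pool.Agent.MUX.cjI_ne_bot hC hQ) (R.nl i).b_ne
  obtain ⟨j, x, y, hx, hy, hxy⟩ := R.surj _ hc
  have e : sp (x * ((nI Q : ℕ) : OO A B)) * R.b i = sp y * (Q * R.b j) := by
    have h1 : Q * cjI Q = sp ((nI Q : ℕ) : OO A B) := Pool.Agent.MUX.mul_cjI hC hQ
    calc sp (x * ((nI Q : ℕ) : OO A B)) * R.b i = sp x * sp ((nI Q : ℕ) : OO A B) * R.b i := by
          rw [Ideal.span_singleton_mul_span_singleton]
      _ = Q * (sp x * (cjI Q * R.b i)) := by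
          rw [← h1]
          ring
      _ = Q * (sp y * R.b j) := by rw [hxy]
      _ = _ := by ring
  exact ⟨j, _, Pool.Agent.MUXC.tc_QCR Pool.Agent.MUXC.tc_TRO A B hC Q (R.b i) (R.b j) (R.L i)
    (R.L j) (R.om i) (R.om j) (R.nl i).toIsLI (R.nl j).toIsLI hQ _ _ (mul_ne_zero hx hp0) hy e⟩

/-- the points of `E[cjI P]` are not in the kernel of reduction -/
theorem injQ (h : SetG p A B P V f) (R : Reps A B n ι) (hR : GRd V R) (i : ι) (z : ℂ)
    (hz : Tor (cjI P) (R.L i) z)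
    (hK : InK V (R.L i) (fun z => (R.L i).weierstrassP z - 1 / 12) z) :
    z ∈ (R.L i).lattice := by
  have hC := h.cq
  have hp := h.pp
  have hp2 : p ≠ 2 := by have := h.p5; omega
  obtain ⟨-, -, i3, i4, -, ⟨y0, hy0, hy0'⟩, -⟩ := t_IDP p A B P V f h
  have hP0 : P ≠ ⊥ := PIS.P_ne h
  set Q : Ideal (OO A B) := cjI P with hQ
  have hQ0 : Q ≠ ⊥ := Pool.Agent.MUX.cjI_ne_bot hC hP0
  have hcard : Nat.card (OO A B ⧸ Q) = p := by
    have h1 := Pool.Agent.MUX.nI_cjI hC hP0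
    rw [h.hP.norm] at h1
    exact h1
  have hdisc : ¬ (p : ℤ) ∣ B ^ 2 + 4 * A := by
    intro h1
    apply h.pD
    have h2 : absD A B = -(B ^ 2 + 4 * A) := by
      unfold absD
      ring
    rw [h2]
    exact (dvd_neg).2 h1
  have hpC : (p : ℂ) ≠ 0 := by exact_mod_cast hp.ne_zero
  have hpO : ((p : ℕ) : OO A B) ≠ 0 := Pool.Agent.MUX.natCast_ne_zero' hC hp.ne_zero
  obtain ⟨j, mu, hmu⟩ := isq hC hQ0 R i
  obtain ⟨a, c, haQ, ha0, hc, hpc, hael⟩ := Pool.Agent.MUXV.q_AEL A B hC.toF Q p hp hp2 hdisc hcard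
  have haP : a ∉ P := by
    intro haP
    have h1 : a ∈ P * Q := mem_of_cop i4 haP haQ
    rw [i3] at h1
    obtain ⟨a', rfl⟩ := Ideal.mem_span_singleton.1 h1
    have hL := R.nl R.i0
    have hom := hL.om_ne
    have h2 := hael (R.L R.i0) (cmo hC hL) (R.om R.i0 / p) (by
      refine (hL.mem _).2 ⟨a', by rw [R.b0]; exact Submodule.mem_top, ?_⟩
      rw [Pool.Agent.MUX.emb_mul hC, Pool.Agent.MUX.emb_natCast hC]
      field_simp)
    obtain ⟨t, -, ht⟩ := (hL.mem _).1 (h2 y0 hy0)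
    have h3 : y0 * ((c : ℕ) : OO A B) = ((p : ℕ) : OO A B) * t := by
      apply Pool.Agent.MUX.emb_inj hC
      rw [Pool.Agent.MUX.emb_mul hC, Pool.Agent.MUX.emb_mul hC, Pool.Agent.MUX.emb_natCast hC,
        Pool.Agent.MUX.emb_natCast hC]
      field_simp at ht
      linear_combination ht
    have h4 : IsCoprime (p : ℤ) (c : ℤ) :=
      Nat.isCoprime_iff_coprime.2 ((Nat.Prime.coprime_iff_not_dvd hp).2 hpc)
    obtain ⟨u, v, huv⟩ := h4
    apply hy0'
    have h5 : ((u : ℤ) : OO A B) * ((p : ℕ) : OO A B) + ((v : ℤ) : OO A B) * ((c : ℕ) : OO A B) = 1 := by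
      have h6 := congrArg (fun t : ℤ => (t : OO A B)) huv
      push_cast at h6
      exact h6
    have h6 : y0 = ((p : ℕ) : OO A B) * (((u : ℤ) : OO A B) * y0 + ((v : ℤ) : OO A B) * t) := by
      linear_combination (-y0) * h5 + ((v : ℤ) : OO A B) * h3
    rw [h6]
    exact P.mul_mem_right _ h.hP.mem
  have hva : V.valuation (emb a) = 1 := by
    have h1 := (Pool.Agent.MUXV.q_VQI A B hC.toF V).1 a
    refine le_antisymm h1 (not_lt.1 fun h2 => haP ?_)
    rw [← h.hV]
    exact V.mem_nonunits_iff.2 h2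
  have hL := R.nl i
  have hM := R.nl j
  have hmu0 := hmu.1
  have hvmu : V.valuation mu = 1 := by
    rw [← hva]
    refine Pool.Agent.MUXV.x_MLT V (R.L i) (R.L j) (1 / 12) (1 / 12) mu (emb a) c (good h R hR i)
      (good h R hR j) hmu0 ?_ ?_ hc ?_ ?_
    · intro h1
      rw [h1, map_zero] at hva
      exact zero_ne_one hva
    · intro w hw
      have h1 : mu * (w / mu) ∈ (R.L j).lattice := by
        rw [mul_div_cancel₀ _ hmu0]
        exact hw
      have h2 := (hmu.2 _).1 h1 a haQ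
      have h3 : emb a / mu * w = emb a * (w / mu) := by ring
      rw [h3]
      exact h2
    · have h1 := PIS.val_int h (c : ℤ) (by exact_mod_cast hpc)
      rwa [Int.cast_natCast] at h1
    · intro w hw
      have h3 : emb a / mu * w = emb a * (w / mu) := by ring
      rw [h3] at hw
      have h4 := hael (R.L i) (cmo hC hL) _ hw
      have h5 := (hmu.2 _).2 h4
      have h6 : mu * ((c : ℂ) * (w / mu)) = (c : ℂ) * w := by
        field_simp
      rwa [h6] at h5
  obtain ⟨⟨H, hH⟩, -, -⟩ := Pool.Agent.MUXV.q_ISQ A B hC.toF Q p hp hp2 hdisc hcard (R.L i) (R.L j)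
    (1 / 12) (1 / 12) mu (cmo hC hL) hmu V (good h R hR i) (good h R hR j)
  exact Pool.Agent.MUXV.x_INJ V (R.L i) (R.L j) (1 / 12) (1 / 12) mu p H hH hvmu z
    ((hmu.2 z).2 hz) hK

/-- the points of `E[f cjI P]` are not in the kernel of reduction -/
theorem inj (h : SetG p A B P V f) (R : Reps A B n ι) (hR : GRd V R) (i : ι) (z : ℂ)
    (hz : Tor (idl f * cjI P) (R.L i) z)
    (hK : InK V (R.L i) (fun z => (R.L i).weierstrassP z - 1 / 12) z) :
    z ∈ (R.L i).lattice := by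
  have hC := h.cq
  obtain ⟨W, ξ, G⟩ := good h R hR i
  have h1 : (f : ℂ) * z ∈ (R.L i).lattice := by
    refine injQ h R hR i _ ?_ (Pool.Agent.MUXV.inK_nat G hK f)
    intro x hx
    have h2 := hz (((f : ℕ) : OO A B) * x) (Ideal.mul_mem_mul (Ideal.mem_span_singleton_self _) hx)
    rw [Pool.Agent.MUX.emb_mul hC, Pool.Agent.MUX.emb_natCast hC] at h2
    have h3 : emb x * ((f : ℂ) * z) = (f : ℂ) * emb x * z := by ring
    rwa [h3]
  refine Pool.Agent.MUXV.mem_of_nat_mul G hK ?_ h1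
  have h2 := PIS.val_int h (f : ℤ) (by exact_mod_cast h.fp)
  rwa [Int.cast_natCast] at h2

/-- an element of the inertia group acts trivially on `E[f cjI P]`, up to the sign -/
theorem act_cong (h : SetG p A B P V f) (R : Reps A B n ι) (hR : GRd V R)
    (F : IntermediateField (kk A B) ℂ) (hF : RF (idl (f * p)) ≤ F) (σ : F ≃ₐ[kk A B] F)
    (hσ : σ ∈ IGV V F) (c : OO A B) (hc : ActH σ ((f * p : ℕ) : OO A B) c) :
    c - 1 ∈ idl f * cjI P ∨ c + 1 ∈ idl f * cjI P := by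
  have hC := h.cq
  have hp := h.pp
  obtain ⟨-, -, i3, i4, i5, -, -⟩ := t_IDP p A B P V f h
  obtain ⟨i6, i7, x0, hx0, hx1⟩ := i5 f h.fp
  have hL := R.nl R.i0
  have hom := hL.om_ne
  obtain ⟨W, ξ, G⟩ := good h R hR R.i0
  have hmem : ∀ y : OO A B, R.om R.i0 * emb y ∈ (R.L R.i0).lattice := fun y =>
    (hL.mem _).2 ⟨y, by rw [R.b0]; exact Submodule.mem_top, rfl⟩
  have hfpC : ((f * p : ℕ) : ℂ) ≠ 0 := by exact_mod_cast mul_ne_zero h.f0 hp.ne_zero
  have hfp0 : ((f * p : ℕ) : OO A B) ≠ 0 :=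
    Pool.Agent.MUX.natCast_ne_zero' hC (mul_ne_zero h.f0 hp.ne_zero)
  -- the ideal of level `f p`
  have hid : idl (A := A) (B := B) f * cjI P * P = idl (f * p) := by
    rw [mul_assoc, mul_comm (cjI P) P, i3]
    unfold idl
    rw [Ideal.span_singleton_mul_span_singleton, ← Nat.cast_mul]
  set z : ℂ := R.om R.i0 * emb x0 / ((f * p : ℕ) : ℂ) with hz
  -- membership
  have hlat : ∀ y : OO A B, emb y * z ∈ (R.L R.i0).lattice ↔ y * x0 ∈ idl (A := A) (B := B) (f * p) := by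
    intro y
    rw [Ideal.mem_span_singleton]
    constructor
    · intro h1
      obtain ⟨t, -, ht⟩ := (hL.mem _).1 h1
      refine ⟨t, ?_⟩
      apply Pool.Agent.MUX.emb_inj hC
      rw [Pool.Agent.MUX.emb_mul hC, Pool.Agent.MUX.emb_mul hC, Pool.Agent.MUX.emb_natCast hC]
      rw [hz] at ht
      have h2 : R.om R.i0 * (emb y * emb x0) = R.om R.i0 * (((f * p : ℕ) : ℂ) * emb t) := by
        calc R.om R.i0 * (emb y * emb x0)
            = ((f * p : ℕ) : ℂ) * (emb y * (R.om R.i0 * emb x0 / ((f * p : ℕ) : ℂ))) := by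
              field_simp
          _ = _ := by
              rw [ht]
              ring
      exact mul_left_cancel₀ hom h2
    · rintro ⟨t, ht⟩
      have h2 : emb y * z = R.om R.i0 * emb t := by
        have h3 : emb y * emb x0 = ((f * p : ℕ) : ℂ) * emb t := by
          rw [← Pool.Agent.MUX.emb_mul hC, ht, Pool.Agent.MUX.emb_mul hC,
            Pool.Agent.MUX.emb_natCast hC]
        rw [hz]
        calc emb y * (R.om R.i0 * emb x0 / ((f * p : ℕ) : ℂ))
            = R.om R.i0 * (emb y * emb x0) / ((f * p : ℕ) : ℂ) := by ring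
          _ = R.om R.i0 * emb t := by
              rw [h3]
              field_simp
      rw [h2]
      exact hmem t
  -- the annihilator of `z`
  have hann : ∀ y : OO A B, y ∈ idl f * cjI P ↔ emb y * z ∈ (R.L R.i0).lattice := by
    intro y
    rw [hlat]
    constructor
    · intro hy
      rw [← hid]
      exact Ideal.mul_mem_mul hy hx0
    · intro hy
      have h1 : y * x0 ∈ idl f * cjI P := mem_l (hid.symm ▸ hy)
      have h2 : y = y * x0 - y * (x0 - 1) := by ring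
      rw [h2]
      exact Ideal.sub_mem _ h1 (Ideal.mul_mem_left _ _ hx1)
  have htop : idl (A := A) (B := B) f * cjI P ≠ ⊤ := by
    intro h1
    have h5 : (1 : OO A B) ∈ idl (A := A) (B := B) f * cjI P := by
      rw [h1]
      exact Submodule.mem_top
    have h2 : (1 : OO A B) ∈ cjI P := mem_r h5
    have h3 : (1 : OO A B) ∈ P := by
      have h4 : starRingEnd (OO A B) 1 ∈ P := h2
      rwa [map_one] at h4
    exact h.hP.prime.ne_top ((Ideal.eq_top_iff_one _).2 h3)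
  have hzL : z ∉ (R.L R.i0).lattice := by
    intro h1
    apply htop
    rw [Ideal.eq_top_iff_one, hann, Pool.Agent.MUX.emb_one hC, one_mul]
    exact h1
  have hTor : Tor (idl f * cjI P) (R.L R.i0) z := fun x hx => (hann x).1 hx
  have hmz : emb ((f * p : ℕ) : OO A B) * z ∈ (R.L R.i0).lattice := by
    rw [hlat]
    exact Ideal.mul_mem_right _ _ (Ideal.mem_span_singleton_self _)
  obtain ⟨hcL, hact⟩ := hc.pt _ _ _ hL z hmz hzL
  have hxF : xn (R.L R.i0) z ∈ F := by
    apply hF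
    refine IntermediateField.subset_adjoin _ _ ⟨_, _, _, hL, Or.inr ⟨z, ?_, hzL, rfl⟩⟩
    intro x hx
    obtain ⟨t, rfl⟩ := Ideal.mem_span_singleton.1 hx
    have h2 : emb (((f * p : ℕ) : OO A B) * t) * z =
        emb t * (emb ((f * p : ℕ) : OO A B) * z) := by
      rw [Pool.Agent.MUX.emb_mul hC]
      ring
    rw [h2]
    exact cmo hC hL t _ hmz
  have hTorc : Tor (idl f * cjI P) (R.L R.i0) (emb c * z) := by
    intro x hx
    have h1 : emb x * (emb c * z) = emb c * (emb x * z) := by ring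
    rw [h1]
    exact cmo hC hL c _ (hTor x hx)
  have hnz : ¬ InK V (R.L R.i0) (fun z => (R.L R.i0).weierstrassP z - 1 / 12) z := fun h1 =>
    hzL (inj h R hR R.i0 z hTor h1)
  have hncz : ¬ InK V (R.L R.i0) (fun z => (R.L R.i0).weierstrassP z - 1 / 12) (emb c * z) :=
    fun h1 => hcL (inj h R hR R.i0 _ hTorc h1)
  have hlt : V.valuation (xn (R.L R.i0) (emb c * z) - xn (R.L R.i0) z) < 1 := by
    have h1 := hσ ⟨xn (R.L R.i0) z, hxF⟩ (Pool.Agent.MUXV.int_X hnz).2
    rw [hact hxF] at h1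
    exact h1
  by_cases h1 : InK V (R.L R.i0) (fun z => (R.L R.i0).weierstrassP z - 1 / 12) (emb c * z + z)
  · right
    rw [hann]
    have h2 : emb (c + 1) * z = emb c * z + z := by
      rw [Pool.Agent.MUX.emb_add hC, Pool.Agent.MUX.emb_one hC]
      ring
    rw [h2]
    refine inj h R hR R.i0 _ ?_ h1
    intro x hx
    rw [mul_add]
    exact (R.L R.i0).lattice.add_mem (hTorc x hx) (hTor x hx)
  by_cases h2 : InK V (R.L R.i0) (fun z => (R.L R.i0).weierstrassP z - 1 / 12) (emb c * z - z)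
  · left
    rw [hann]
    have h3 : emb (c - 1) * z = emb c * z - z := by
      rw [Pool.Agent.MUX.emb_sub hC, Pool.Agent.MUX.emb_one hC]
      ring
    rw [h3]
    refine inj h R hR R.i0 _ ?_ h2
    intro x hx
    rw [mul_sub]
    exact (R.L R.i0).lattice.sub_mem (hTorc x hx) (hTor x hx)
  exact absurd (Pool.Agent.MUXV.v_X_sub G hncz hnz h1 h2) hlt.ne

/-- an element of the inertia group is trivial on the Hilbert class field -/
theorem trH (h : SetG p A B P V f) (T : TorX A B) (R : Reps A B n ι) (hR : GRd V R)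
    {m : Ideal (OO A B)} (hm : m ≠ ⊥) (σ : RF m ≃ₐ[kk A B] RF m) (hσ : σ ∈ IGV V (RF m)) :
    TrH σ := by
  have hC := h.cq
  have hle : (RF (⊤ : Ideal (OO A B)) : IntermediateField (kk A B) ℂ) ≤ RF m :=
    T.mono _ _ le_top
  obtain ⟨s, hs, hsσ⟩ := Pool.Agent.MUXJ.LEV.lift T hm σ
  -- the values `kap`
  have hkap : ∀ (b : Ideal (OO A B)) (L : PeriodPair) (om : ℂ), IsNL b L om →
      ∃ i, kap L = kap (R.L i) := by
    intro b L om hL
    obtain ⟨i, x, y, hx, hy, hxy⟩ := R.surj b hL.b_ne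
    refine ⟨i, ?_⟩
    have h1 := Pool.Agent.MUXY.ty_SAM Pool.Agent.MUXF.xf_ALG A B hC b (R.b i) L (R.L i) om (R.om i)
      x y hL (R.nl i) hx hy hxy
    obtain ⟨-, -, h2, -⟩ := ta_SCP L (R.L i) 1 one_ne_zero (fun u => by rw [one_mul]; exact h1 u)
    unfold kap
    rw [h2]
    norm_num
  have hfix : ∀ (b : Ideal (OO A B)) (L : PeriodPair) (om : ℂ), IsNL b L om →
      s (kap L) = kap L := by
    intro b L om hL
    obtain ⟨a, -, ha⟩ := T.act m hm s hs
    obtain ⟨b', L', om', mu, hL', hact⟩ := ha b L om hL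
    obtain ⟨i, hi⟩ := hkap b L om hL
    obtain ⟨j, hj⟩ := hkap b' L' om' hL'
    have hmem : kap L ∈ (RF m : IntermediateField (kk A B) ℂ) :=
      IntermediateField.subset_adjoin _ _ ⟨b, L, om, hL, Or.inl rfl⟩
    have h1 := hσ ⟨kap L, hmem⟩ (by
      show V.valuation (kap L) ≤ 1
      rw [hi, hR.kap i])
    rw [← hsσ, ← hact.kap] at h1
    have h2 : j = i := hR.inj j i (by
      rw [← hi, ← hj]
      exact h1)
    rw [← hact.kap, hj, h2, ← hi]
  intro x hx
  have h1 : s (x : ℂ) = (x : ℂ) := by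
    have h2 : ∀ y ∈ (RF (⊤ : Ideal (OO A B)) : IntermediateField (kk A B) ℂ), s y = y := by
      intro y hy
      induction hy using IntermediateField.adjoin_induction with
      | mem y hy =>
        obtain ⟨b, L, om, hL, rfl | ⟨z, hz, hzL, rfl⟩⟩ := hy
        · exact hfix b L om hL
        · exfalso
          apply hzL
          have h3 := hz 1 Submodule.mem_top
          rwa [Pool.Agent.MUX.emb_one hC, one_mul] at h3
      | algebraMap y =>
        have h3 := hsσ (algebraMap (kk A B) (RF m) y)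
        rw [σ.commutes] at h3
        exact h3
      | add y z _ _ hy hz => rw [map_add, hy, hz]
      | inv y _ hy => rw [map_inv₀, hy]
      | mul y z _ _ hy hz => rw [map_mul, hy, hz]
    exact h2 _ hx
  apply Subtype.ext
  rw [← hsσ, h1]

end UNF

end

end Pool.Agent.TWF


end

section

/-!
# TWF, module UNF: a field unramified above `p`, of degree prime to `p` over `k`, has a level prime to `p` (helper56)

`S_UNF` (`UNF0.lean`). Let `F = RF (idl (f p)) ≥ K`. The inertia group of `F / k` at `V` (above `P`) has order divisible by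
`p - 1` and is contained in the group `{σ : σ = (c), c ≡ 1 modulo f cjI P}`, which has at most `p - 1` elements; so they are equal,
and this group is trivial on `K`, which is unramified at `V`. The same for `V'` and `cjI P`. The two groups generate
`Gal(F / RF (idl f))`.
-/

set_option autoImplicit false

open WeierstrassCurve Polynomial NumberField IsDedekindDomain

namespace Pool.Agent.TWF

open _root_.MU3 Pool.Agent.MU3A Pool.Agent.MU3B Pool.Agent.MU3C Pool.Agent.RI Pool.Agent.RID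
open Pool.Agent.MUX Pool.Agent.MUXU Pool.Agent.MUXW Pool.Agent.TWT
open Pool.Agent.MU3V (cls Sub GD algDF)
open Pool.Agent.MUXV (GR InK tX)
open OnePoint

noncomputable section

namespace UNF

variable {p : ℕ} {A B : ℤ} {P : Ideal (OO A B)} {V : ValuationSubring ℂ} {f n : ℕ} {ι : Type}

theorem idl_mul (a b : ℕ) : idl (A := A) (B := B) a * idl b = idl (a * b) := by
  unfold idl
  rw [Ideal.span_singleton_mul_span_singleton, ← Nat.cast_mul]

/-- the automorphisms which act trivially on `E[f cjI P]` are in the inertia group at `V` -/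
theorem inert (h : SetG p A B P V f) (T : TorX A B) (R : Reps A B n ι) (hR : GRd V R)
    (σ : (RF (idl (f * p)) : IntermediateField (kk A B) ℂ) ≃ₐ[kk A B] RF (idl (f * p)))
    (c : OO A B) (hc : ActH σ ((f * p : ℕ) : OO A B) c) (hc1 : c - 1 ∈ idl f * cjI P) :
    σ ∈ IGV V (RF (idl (f * p))) := by
  have hC := h.cq
  have hp := h.pp
  have hm0 : ((f * p : ℕ) : OO A B) ≠ 0 :=
    Pool.Agent.MUX.natCast_ne_zero' hC (mul_ne_zero h.f0 hp.ne_zero)
  have hmI : idl (A := A) (B := B) (f * p) ≠ ⊥ := Pool.Agent.MUXJ.LEV.idl_ne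
    (mul_ne_zero h.f0 hp.ne_zero)
  have hL0 : IsNL (⊤ : Ideal (OO A B)) (R.L R.i0) (R.om R.i0) := by
    have h1 := R.nl R.i0
    rwa [R.b0] at h1
  obtain ⟨i1, i2, i3, i4, i5, -, -⟩ := t_IDP p A B P V f h
  have hfin := T.fin _ hmI
  have hgal := T.gal _ hmI
  obtain ⟨a1, a2, a3, a4, a5, a6, a7, a8⟩ := ty_ACM Pool.Agent.MUXV.q_EMB A B hC _ _ hL0 _ hm0
  obtain ⟨k1, k2⟩ := ty_KER Pool.Agent.MUXV.q_EMB A B hC T _ hm0
  -- the group
  set HP : Set ((RF (idl (f * p)) : IntermediateField (kk A B) ℂ) ≃ₐ[kk A B] RF (idl (f * p))) :=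
    {τ | ∃ d : OO A B, ActH τ ((f * p : ℕ) : OO A B) d ∧ d - 1 ∈ idl f * cjI P} with hHP
  have hsub : IGV V (RF (idl (f * p))) ⊆ HP := by
    intro τ hτ
    obtain ⟨d, hd⟩ := k1 τ (trH h T R hR hmI τ hτ)
    rcases act_cong h R hR _ le_rfl τ hτ d hd with h1 | h1
    · exact ⟨d, hd, h1⟩
    · refine ⟨-d, a2 _ τ d (-d) (Or.inr (by rw [add_neg_cancel]; exact dvd_zero _)) hd, ?_⟩
      have h2 : -d - 1 = -(d + 1) := by ring
      rw [h2]
      exact (Ideal.neg_mem_iff _).2 h1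
  have hHPfin : HP.Finite := Set.toFinite _
  -- at most `p - 1` elements
  have hcard : HP.ncard ≤ p - 1 := by
    have hch : ∀ τ : HP, ∃ (d : OO A B) (j : ℕ), ActH τ.1 ((f * p : ℕ) : OO A B) d ∧
        d - 1 ∈ idl f * cjI P ∧ j ∈ Finset.Icc 1 (p - 1) ∧ d - (j : OO A B) ∈ P := by
      rintro ⟨τ, d, hd, hd1⟩
      obtain ⟨j, hj, hjP⟩ := i1 d
      refine ⟨d, j, hd, hd1, ?_, hjP⟩
      rw [Finset.mem_Icc]
      have hj0 : j ≠ 0 := by
        rintro rfl
        rw [Nat.cast_zero, sub_zero] at hjP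
        have h1 := hd.cop
        obtain ⟨u, v, huv⟩ := h1
        apply h.hP.prime.ne_top
        rw [Ideal.eq_top_iff_one, ← huv]
        refine P.add_mem (P.mul_mem_left _ hjP) (P.mul_mem_left _ ?_)
        rw [Nat.cast_mul]
        exact P.mul_mem_left _ h.hP.mem
      omega
    choose d j hd hd1 hj hjP using hch
    rw [← Nat.card_coe_set_eq]
    have hinj : Function.Injective (fun τ : HP => (⟨j τ, hj τ⟩ : Finset.Icc 1 (p - 1))) := by
      intro τ τ' hττ
      have h1 : j τ = j τ' := congrArg Subtype.val hττ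
      have h2 : d τ - d τ' ∈ P := by
        have h3 : d τ - d τ' = (d τ - (j τ : OO A B)) - (d τ' - (j τ' : OO A B)) := by
          rw [h1]
          ring
        rw [h3]
        exact P.sub_mem (hjP τ) (hjP τ')
      have h3 : d τ - d τ' ∈ idl f * cjI P := by
        have h4 : d τ - d τ' = (d τ - 1) - (d τ' - 1) := by ring
        rw [h4]
        exact Ideal.sub_mem _ (hd1 τ) (hd1 τ')
      have h4 : IsCoprime (idl (A := A) (B := B) f * cjI P) P :=
        IsCoprime.mul_left (i5 f h.fp).1 i4.symm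
      have h5 : d τ - d τ' ∈ idl (A := A) (B := B) (f * p) := by
        have h6 : idl (A := A) (B := B) f * cjI P * P = idl (f * p) := by
          rw [mul_assoc, mul_comm (cjI P) P, i3, idl_mul]
        rw [← h6, Ideal.mul_eq_inf_of_coprime (Ideal.isCoprime_iff_sup_eq.1 h4)]
        exact ⟨h3, h2⟩
      have h6 : ActH τ'.1 ((f * p : ℕ) : OO A B) (d τ) :=
        a2 _ _ (d τ') (d τ) (Or.inl (by
          have h7 := Ideal.mem_span_singleton.1 h5
          rw [← neg_sub]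
          exact (dvd_neg).2 h7)) (hd τ')
      exact Subtype.ext (a5 _ _ _ (hd τ) h6)
    have h8 : Nat.card (Finset.Icc 1 (p - 1)) = p - 1 := by
      rw [Nat.card_eq_fintype_card, Fintype.card_coe, Nat.card_Icc, Nat.add_sub_cancel]
    exact (Nat.card_le_card_of_injective _ hinj).trans h8.le
  -- roots of unity
  have hdvd : (p - 1) ∣ Nat.card (IGV V (RF (idl (A := A) (B := B) (f * p)))) := by
    refine unf_dvd hC hp h.hP.mem h.hV (RAMG.not_sq hp h.p5 h.pD h.hP.norm) _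
      ⟨_, ?_, Complex.isPrimitiveRoot_exp p hp.ne_zero⟩
    obtain ⟨a, -, ha⟩ := T.act (idl (f * p)) hmI (RingEquiv.refl ℂ) rfl
    obtain ⟨b', L', om', mu, -, hact⟩ := ha _ _ _ hL0
    refine (T.zeta p (idl (f * p)) a (RingEquiv.refl ℂ) ⊤ _ L' _ mu hmI rfl hp.ne_zero
      (Pool.Agent.MUXJ.LEV.idl_le (Dvd.intro_left _ rfl)) hL0 hact _ ?_).1
    exact (Complex.isPrimitiveRoot_exp p hp.ne_zero).pow_eq_one
  have h1mem : (1 : (RF (idl (f * p)) : IntermediateField (kk A B) ℂ) ≃ₐ[kk A B]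
      RF (idl (f * p))) ∈ IGV V (RF (idl (f * p))) := by
    intro x _
    simp
  have hpos : 0 < (IGV V (RF (idl (A := A) (B := B) (f * p)))).ncard :=
    (Set.ncard_pos (Set.toFinite _)).2 ⟨1, h1mem⟩
  rw [Nat.card_coe_set_eq] at hdvd
  have hle := Nat.le_of_dvd hpos hdvd
  have heq := Set.eq_of_subset_of_ncard_le hsub (hcard.trans hle) hHPfin
  rw [heq]
  exact ⟨c, hc, hc1⟩

/-- the inertia group is trivial on `K` -/
theorem fixes (h : SetG p A B P V f) (T : TorX A B)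
    (K : IntermediateField ℚ ℂ) [FiniteDimensional ℚ K] (hk : kk A B ≤ K)
    {m : Ideal (OO A B)} (hm : m ≠ ⊥)
    (hK : ∀ x ∈ K, x ∈ (RF m : IntermediateField (kk A B) ℂ))
    (hun : ∀ Q : Ideal (𝓞 K), Q.IsPrime → (p : 𝓞 K) ∈ Q → (p : 𝓞 K) ∉ Q ^ 2)
    (σ : RF m ≃ₐ[kk A B] RF m) (hσ : σ ∈ IGV V (RF m)) (x : RF m) (hx : (x : ℂ) ∈ K) :
    σ x = x := by
  have hC := h.cq
  have hp := h.pp
  obtain ⟨hgal, hfin, -⟩ := Pool.Agent.MUXJ.t_GAL A B T m hm K hk hK
  set K' : IntermediateField (kk A B) ℂ := IntermediateField.extendScalars hk with hK'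
  have hle : K' ≤ RF m := fun y hy => hK y hy
  -- the ramification hypothesis for `K'`
  let e0 : K ≃+* K' :=
    { toFun := fun y => ⟨y.1, y.2⟩
      invFun := fun y => ⟨y.1, y.2⟩
      left_inv := fun _ => rfl
      right_inv := fun _ => rfl
      map_mul' := fun _ _ => rfl
      map_add' := fun _ _ => rfl }
  let e : 𝓞 K' ≃+* 𝓞 K := RingOfIntegers.mapRingEquiv e0.symm
  have hun' : ∀ Q : Ideal (𝓞 K'), Q.IsPrime → (p : 𝓞 K') ∈ Q → (p : 𝓞 K') ∉ Q ^ 2 := by
    intro Q hQ hpQ hpQ2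
    have hQ' : (Q.map e).IsPrime := Ideal.map_isPrime_of_equiv e
    refine hun (Q.map e) hQ' ?_ ?_
    · have h1 := Ideal.mem_map_of_mem e hpQ
      rwa [map_natCast] at h1
    · have h1 := Ideal.mem_map_of_mem e hpQ2
      rwa [map_natCast, Ideal.map_pow] at h1
  let _ : Algebra K' (RF m) := (IntermediateField.inclusion hle).toRingHom.toAlgebra
  have _ : IsScalarTower (kk A B) K' (RF m) := IsScalarTower.of_algebraMap_eq fun y => rfl
  let σ' : K' ≃ₐ[kk A B] K' := σ.restrictNormal K'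
  have hσ' : ∀ y : K', ((σ' y : K') : ℂ) = ((σ ⟨y.1, hle y.2⟩ : RF m) : ℂ) := by
    intro y
    have h1 := σ.restrictNormal_commutes K' y
    exact congrArg Subtype.val h1
  have h1 : σ' = 1 := by
    refine unf_one hC hp h.hP.mem h.hV (RAMG.not_sq hp h.p5 h.pD h.hP.norm) K' hun' σ' ?_
    intro y hy
    rw [hσ']
    exact hσ ⟨y.1, hle y.2⟩ hy
  have h2 := hσ' ⟨x.1, hx⟩
  rw [h1] at h2
  exact Subtype.ext h2.symm

end UNF

open _root_.Pool.Agent.TWF.UNF in
/-- a field unramified above `p`, of degree prime to `p` over `k`, has a level prime to `p` -/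
theorem t_UNF : S_UNF := by
  intro p A B P V V' f₀ hS₀ hV' T n ι _ R hR hR' K _ hk hKp M hM0 hM hun N hN0 hNp
  have hC := hS₀.cq
  have hp := hS₀.pp
  have hp2 : p ≠ 2 := by have := hS₀.p5; omega
  obtain ⟨f, hf0, hfp, hNf, hDf, hKf⟩ := unf_lev hp hp2 hC.neg hS₀.pD T
    ⟨_, _, _, R.nl R.i0⟩ K hk hKp M hM0 hM N hN0 hNp
  refine ⟨f, hf0, hfp, hNf, hDf, ?_⟩
  have hP0 : P ≠ ⊥ := PIS.P_ne hS₀
  have hS : SetG p A B P V f := ⟨hC, hp, hS₀.p5, hS₀.hP, hS₀.hV, hS₀.pD, hf0, hfp, hDf⟩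
  have hPc : IsPN p (cjI P) := by
    refine ⟨?_, ?_, ?_⟩
    · have := hS₀.hP.prime
      exact Ideal.comap_isPrime _ _
    · show starRingEnd (OO A B) ((p : ℕ) : OO A B) ∈ P
      rw [map_natCast]
      exact hS₀.hP.mem
    · rw [Pool.Agent.MUX.nI_cjI hC hP0]
      exact hS₀.hP.norm
  have hS' : SetG p A B (cjI P) V' f := ⟨hC, hp, hS₀.p5, hPc, hV', hS₀.pD, hf0, hfp, hDf⟩
  have hm0 : ((f * p : ℕ) : OO A B) ≠ 0 :=
    Pool.Agent.MUX.natCast_ne_zero' hC (mul_ne_zero hf0 hp.ne_zero)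
  have hmI : idl (A := A) (B := B) (f * p) ≠ ⊥ := Pool.Agent.MUXJ.LEV.idl_ne
    (mul_ne_zero hf0 hp.ne_zero)
  have hfO : ((f : ℕ) : OO A B) ≠ 0 := Pool.Agent.MUX.natCast_ne_zero' hC hf0
  have hL0 : IsNL (⊤ : Ideal (OO A B)) (R.L R.i0) (R.om R.i0) := by
    have h1 := R.nl R.i0
    rwa [R.b0] at h1
  obtain ⟨i1, i2, i3, i4, i5, -, -⟩ := t_IDP p A B P V f hS
  have hfin := T.fin _ hmI
  have hgal := T.gal _ hmI
  obtain ⟨a1, a2, a3, a4, a5, a6, a7, a8⟩ := ty_ACM Pool.Agent.MUXV.q_EMB A B hC _ _ hL0 _ hm0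
  obtain ⟨b1, -, -, -, -, b6, -, -⟩ := ty_ACM Pool.Agent.MUXV.q_EMB A B hC _ _ hL0 _ hfO
  obtain ⟨k1, k2⟩ := ty_KER Pool.Agent.MUXV.q_EMB A B hC T _ hm0
  have h01 : idl (A := A) (B := B) (f * p) ≤ idl f :=
    Pool.Agent.MUXJ.LEV.idl_le (Dvd.intro _ rfl)
  have h01' : (RF (idl f) : IntermediateField (kk A B) ℂ) ≤ RF (idl (f * p)) := T.mono _ _ h01
  -- the automorphisms which are trivial on `RF (idl f)`
  have key : ∀ σ : (RF (idl (f * p)) : IntermediateField (kk A B) ℂ) ≃ₐ[kk A B] RF (idl (f * p)),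
      (∀ y : (RF (idl (f * p)) : IntermediateField (kk A B) ℂ),
        (y : ℂ) ∈ (RF (idl f) : IntermediateField (kk A B) ℂ) → σ y = y) →
      ∀ x : (RF (idl (f * p)) : IntermediateField (kk A B) ℂ), (x : ℂ) ∈ K → σ x = x := by
    intro σ hσ x hx
    have hH : TrH σ := by
      intro y hy
      exact hσ y (T.mono _ _ le_top hy)
    have hex : ∃ c : OO A B, ActH σ ((f * p : ℕ) : OO A B) c ∧ ((f : ℕ) : OO A B) ∣ c - 1 := by
      obtain ⟨c, hc⟩ := k1 σ hH
      have h1 : ActH (1 : (RF (idl f) : IntermediateField (kk A B) ℂ) ≃ₐ[kk A B] RF (idl f))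
          ((f : ℕ) : OO A B) c := by
        refine a8 _ σ 1 c (Nat.cast_dvd_cast (Dvd.intro _ rfl)) ?_ hc
        intro y hy
        rw [hσ ⟨y, hy⟩ y.2]
        rfl
      rcases b1 _ _ c 1 le_rfl h1 (b6 _) with h2 | h2
      · exact ⟨c, hc, h2⟩
      · refine ⟨-c, a2 _ σ c (-c) (Or.inr (by rw [add_neg_cancel]; exact dvd_zero _)) hc, ?_⟩
        have h3 : -c - 1 = -(c + 1) := by ring
        rw [h3]
        exact (dvd_neg).2 h2
    obtain ⟨c, hc, t, ht⟩ := hex
    obtain ⟨i, hi, j, hj, hij⟩ := Ideal.isCoprime_iff_exists.1 i4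
    have hijP : i * j ∈ idl (A := A) (B := B) p := by
      rw [← i3]
      exact Ideal.mul_mem_mul hi hj
    obtain ⟨u, hu⟩ := Ideal.mem_span_singleton.1 hijP
    set c1 : OO A B := 1 + (c - 1) * j with hc1
    set c2 : OO A B := 1 + (c - 1) * i with hc2
    have hprod : c1 * c2 = c + ((f * p : ℕ) : OO A B) * (t * u * (c - 1)) := by
      rw [hc1, hc2, Nat.cast_mul]
      linear_combination (c - 1) * hij + (c - 1) ^ 2 * hu + ((p : ℕ) : OO A B) * u * (c - 1) * ht
    have hcop : IsCoprime (c1 * c2) ((f * p : ℕ) : OO A B) := by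
      rw [hprod]
      exact IsCoprime.add_mul_left_left hc.cop _
    obtain ⟨σ1, hσ1⟩ := k2 c1 hcop.of_mul_left_left
    obtain ⟨σ2, hσ2⟩ := k2 c2 hcop.of_mul_left_right
    have h12 : σ = σ1 * σ2 := by
      refine a5 _ _ c hc (a2 _ _ (c1 * c2) c (Or.inl ?_) (a4 _ _ _ _ _ le_rfl hσ1 hσ2))
      rw [hprod, add_sub_cancel_left]
      exact Dvd.intro _ rfl
    have hcf : c - 1 ∈ idl (A := A) (B := B) f := Ideal.mem_span_singleton.2 ⟨t, ht⟩
    have hI1 := inert hS T R hR σ1 c1 hσ1 (by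
      rw [hc1, add_sub_cancel_left]
      exact Ideal.mul_mem_mul hcf hj)
    have hI2 := inert hS' T R hR' σ2 c2 hσ2 (by
      rw [hc2, add_sub_cancel_left, Pool.Agent.MUX.cjI_cjI hC hP0]
      exact Ideal.mul_mem_mul hcf hi)
    rw [h12, AlgEquiv.mul_apply, fixes hS' T K hk hmI hKf hun σ2 hI2 x hx,
      fixes hS T K hk hmI hKf hun σ1 hI1 x hx]
  let F0 : IntermediateField (kk A B) (RF (idl (A := A) (B := B) (f * p))) :=
    IntermediateField.restrict h01'
  intro x hx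
  have h1 : (⟨x, hKf x hx⟩ : (RF (idl (A := A) (B := B) (f * p)) :
      IntermediateField (kk A B) ℂ)) ∈ F0 := by
    rw [← IsGalois.fixedField_fixingSubgroup F0, IntermediateField.mem_fixedField_iff]
    intro σ hσ
    refine key σ (fun y hy => ?_) _ hx
    rw [IntermediateField.mem_fixingSubgroup_iff] at hσ
    exact hσ y ((IntermediateField.mem_restrict h01' _).2 hy)
  exact (IntermediateField.mem_restrict h01' _).1 h1

end

end Pool.Agent.TWF


end
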