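import Pool.Agent.TWM.C08

/-! Parts: TWF.COR2 -/

section

/-!
# TWF: the intersection of a cyclic extension `L / k`, `L ≤ K B_n`, with `K B_(n₀)`, for any degree of `K / k`
-/

set_option autoImplicit false

open NumberField

namespace Pool.Agent.TWF

open Pool.Agent.MU3 Pool.Agent.RI Pool.Agent.RID

/-- `L / k` is cyclic, `L ≤ K B_n`, not `L ≤ K B_(n-1)`, `[K : k] ∣ l^a r` with `r` prime to `l`; `L₁` is the part of `L` of
degree prime to `l` over `k`. -/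
theorem cor2 (l a r n₀ : ℕ) [Fact l.Prime] (hr : ¬ l ∣ r) (k K : IntermediateField ℚ ℂ)
    (B : ℕ → IntermediateField ℚ ℂ)
    [FiniteDimensional ℚ K] [∀ n, FiniteDimensional ℚ ↥(K ⊔ B n)] (hB : Twr l k K B)
    (hdeg : Module.finrank k (IntermediateField.extendScalars hB.hk) ∣ l ^ a * r)
    (hn₀ : ¬ B (n₀ + 1) ≤ K ⊔ B n₀) (n : ℕ) (hn : n₀ + a < n) (L : IntermediateField ℚ ℂ)
    (hkL : k ≤ L) (hL : L ≤ K ⊔ B n)
    (hcyc : IsCyclic ((IntermediateField.extendScalars hkL) ≃ₐ[k]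
      (IntermediateField.extendScalars hkL)))
    (hnot : ¬ L ≤ K ⊔ B (n - 1)) (L₁ : IntermediateField ℚ ℂ) (hkL₁ : k ≤ L₁) (hL₁ : L₁ ≤ L)
    (e : ℕ) (hd1 : Module.finrank L₁ (IntermediateField.extendScalars hL₁) ∣ l ^ e)
    (hd2 : ¬ l ∣ Module.finrank k (IntermediateField.extendScalars hkL₁)) :
    L ⊓ (K ⊔ B n₀) = L₁ ⊔ B n₀ := by
  classical
  have hlp : l.Prime := Fact.out
  have hkC : k ≤ K ⊔ B n := hB.hk.trans le_sup_left
  let aC : Algebra k ↥(K ⊔ B n) := algC hkC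
  let aK : Algebra k K := algC hB.hk
  obtain ⟨galC, comC⟩ := gal_ab l k K B hB n hkC
  obtain ⟨r₁, r₂, p1, p2, -⟩ := chr_split l k K B hB n hkC
  obtain ⟨fdB, hGB, -⟩ := LAY_thm l n (B n) (hB.lay n)
  have hcycB : IsCyclic (B n ≃ₐ[ℚ] B n) := t_LAYC l n (B n) (hB.lay n)
  have fdk : FiniteDimensional ℚ k := FiniteDimensional.of_injective
    (IntermediateField.inclusion hB.hk).toLinearMap
    (IntermediateField.inclusion hB.hk).toRingHom.injective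
  have fdL : FiniteDimensional ℚ L := FiniteDimensional.of_injective
    (IntermediateField.inclusion hL).toLinearMap
    (IntermediateField.inclusion hL).toRingHom.injective
  have tC : IsScalarTower ℚ k ↥(K ⊔ B n) := IsScalarTower.of_algebraMap_eq (fun _ => rfl)
  have tK : IsScalarTower ℚ k K := IsScalarTower.of_algebraMap_eq (fun _ => rfl)
  have ffC : FiniteDimensional k ↥(K ⊔ B n) := Module.Finite.of_restrictScalars_finite ℚ k _
  have ffK : FiniteDimensional k K := Module.Finite.of_restrictScalars_finite ℚ k _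
  have galK : IsGalois k K := (isGalois_algC hB.hk).2 hB.gal
  have hone : ∀ τ : ↥(K ⊔ B n) ≃ₐ[k] ↥(K ⊔ B n), r₁ τ = 1 → r₂ τ = 1 → τ = 1 := by
    intro τ h1 h2
    refine eq_one_of hkC τ ?_ ?_
    · intro x hx
      have h3 := p1 τ ⟨(x : ℂ), hx⟩ x rfl
      rw [h1] at h3
      exact Subtype.ext h3
    · intro x hx
      have h3 := p2 τ ⟨(x : ℂ), hx⟩ x rfl
      rw [h2] at h3
      exact Subtype.ext h3
  have hr1 : ∀ τ : ↥(K ⊔ B n) ≃ₐ[k] ↥(K ⊔ B n), (∀ y : ↥(K ⊔ B n), (y : ℂ) ∈ K → τ y = y) →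
      r₁ τ = 1 := by
    intro τ h
    ext x
    have h3 := p1 τ x ⟨(x : ℂ), (le_sup_left : K ≤ K ⊔ B n) x.2⟩ rfl
    rw [h _ x.2] at h3
    exact h3.symm
  have hr2 : ∀ (τ : ↥(K ⊔ B n) ≃ₐ[k] ↥(K ⊔ B n)) (x : B n),
      τ ⟨(x : ℂ), (le_sup_right : B n ≤ K ⊔ B n) x.2⟩ =
        ⟨(x : ℂ), (le_sup_right : B n ≤ K ⊔ B n) x.2⟩ → r₂ τ x = x := by
    intro τ x h
    have h3 := p2 τ x ⟨(x : ℂ), (le_sup_right : B n ≤ K ⊔ B n) x.2⟩ rfl
    rw [h] at h3
    exact Subtype.ext h3.symm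
  have hcardB : Nat.card (B n ≃ₐ[ℚ] B n) = l ^ n := by
    rw [IsGalois.card_aut_eq_finrank, (hB.lay n).1]
  have hcardK : Nat.card (K ≃ₐ[k] K) ∣ l ^ a * r := by
    rw [IsGalois.card_aut_eq_finrank]
    have h1 := finrank_algC hB.hk
    rw [h1]
    exact hdeg
  -- step 1: an automorphism over `K B_(n-1)` which moves `L`
  have hle1 : K ⊔ B (n - 1) ≤ K ⊔ B n := sup_le_sup_left (hB.mono (Nat.sub_le n 1)) K
  obtain ⟨σ₁, hσ1, hσ2⟩ : ∃ σ₁ : ↥(K ⊔ B n) ≃ₐ[k] ↥(K ⊔ B n),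
      (∀ y : ↥(K ⊔ B n), (y : ℂ) ∈ K ⊔ B (n - 1) → σ₁ y = y) ∧
      ¬ ∀ y : ↥(K ⊔ B n), (y : ℂ) ∈ L → σ₁ y = y := by
    by_contra hall
    push Not at hall
    apply hnot
    intro x hx
    exact fix_mem (hB.hk.trans le_sup_left) hle1 hkC galC ⟨x, hL hx⟩
      (fun σ hσ => hall σ hσ _ hx)
  have hσl : (r₂ σ₁) ^ l = 1 := by
    refine pow_deg (B := B (n - 1)) (B' := B n) (hB.mono (Nat.sub_le n 1)) hGB l ?_ _ ?_
    · rw [(hB.lay n).1, (hB.lay (n - 1)).1, ← pow_succ]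
      congr 1
      omega
    · intro x hx
      exact hr2 σ₁ x (hσ1 _ ((le_sup_right : B (n - 1) ≤ K ⊔ B (n - 1)) hx))
  have hσK : r₁ σ₁ = 1 := hr1 σ₁ fun y hy => hσ1 y ((le_sup_left : K ≤ K ⊔ B (n - 1)) hy)
  -- step 2: the automorphisms over `L` and over `K` meet trivially
  have hmeet : ∀ τ : ↥(K ⊔ B n) ≃ₐ[k] ↥(K ⊔ B n), (∀ y : ↥(K ⊔ B n), (y : ℂ) ∈ L → τ y = y) →
      r₁ τ = 1 → τ = 1 := by
    intro τ hτL hτK
    by_contra hne
    have h1 : r₂ τ ≠ 1 := fun h => hne (hone τ hτK h)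
    obtain ⟨e, -, he⟩ := (Nat.dvd_prime_pow hlp).1 ((orderOf_dvd_natCard (r₂ τ)).trans
      (dvd_of_eq hcardB))
    have he0 : e ≠ 0 := by
      rintro rfl
      rw [pow_zero, orderOf_eq_one_iff] at he
      exact h1 he
    obtain ⟨e', rfl⟩ := Nat.exists_eq_succ_of_ne_zero he0
    have h2 : (r₂ (τ ^ l ^ e')) ^ l = 1 := by
      rw [map_pow, ← pow_mul, ← pow_succ, ← he, pow_orderOf_eq_one]
    have h3 : r₂ (τ ^ l ^ e') ≠ 1 := by
      intro h
      rw [map_pow] at h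
      have h4 := orderOf_dvd_of_pow_eq_one h
      rw [he] at h4
      have h5 := (Nat.pow_dvd_pow_iff_le_right hlp.one_lt).1 h4
      omega
    obtain ⟨j, hj⟩ := cyc_mem l hlp (r₂ (τ ^ l ^ e')) (r₂ σ₁) h2 h3 hσl
    have hj' : (r₂ (τ ^ l ^ e')) ^ j = r₂ σ₁ := hj
    have h4 : σ₁ * ((τ ^ l ^ e') ^ j)⁻¹ = 1 := by
      refine hone _ ?_ ?_
      · rw [map_mul, map_inv, map_zpow, map_pow, hσK, hτK, one_pow, one_zpow, inv_one, mul_one]
      · rw [map_mul, map_inv, map_zpow, hj', mul_inv_cancel]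
    have h5 : σ₁ = (τ ^ l ^ e') ^ j := mul_inv_eq_one.1 h4
    apply hσ2
    have h6 : τ ∈ Fix hkC L := hτL
    have h7 : σ₁ ∈ Fix hkC L := by
      rw [h5]
      exact Subgroup.zpow_mem _ (Subgroup.pow_mem _ h6 _) _
    exact h7
  -- step 3: `B_(n-a) ≤ L`
  have ha : a ≤ n := by omega
  have hBL : B (n - a) ≤ L := by
    intro x hx
    have hxn : x ∈ B n := hB.mono (Nat.sub_le n a) hx
    refine fix_mem hkL hL hkC galC ⟨x, (le_sup_right : B n ≤ K ⊔ B n) hxn⟩ fun τ hτ => ?_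
    have h6 : τ ∈ Fix hkC L := hτ
    have h7 : τ ^ (l ^ a * r) ∈ Fix hkC L := Subgroup.pow_mem _ h6 _
    have h8 : r₁ (τ ^ (l ^ a * r)) = 1 := by
      obtain ⟨c, hc⟩ := hcardK
      rw [map_pow, hc, pow_mul, pow_card_eq_one', one_pow]
    have h9 := hmeet _ h7 h8
    have h10 : (r₂ τ) ^ l ^ a = 1 := by
      have h11 : ((r₂ τ) ^ l ^ a) ^ r = 1 := by rw [← pow_mul, ← map_pow, h9, map_one]
      have h12 : ((r₂ τ) ^ l ^ a) ^ l ^ n = 1 := by
        rw [← hcardB, pow_card_eq_one']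
      have h13 : Nat.Coprime (l ^ n) r :=
        Nat.Coprime.pow_left n ((Nat.Prime.coprime_iff_not_dvd hlp).2 hr)
      have h14 := Nat.dvd_gcd (orderOf_dvd_of_pow_eq_one h12) (orderOf_dvd_of_pow_eq_one h11)
      rw [h13] at h14
      exact orderOf_eq_one_iff.1 (Nat.dvd_one.1 h14)
    have h11 := lay_fix l n a ha (B (n - a)) (B n) (hB.lay (n - a)) (hB.lay n)
      (hB.mono (Nat.sub_le n a)) (r₂ τ) h10 ⟨x, hxn⟩ hx
    have h12 := p2 τ ⟨x, hxn⟩ ⟨x, (le_sup_right : B n ≤ K ⊔ B n) hxn⟩ rfl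
    rw [h11] at h12
    exact Subtype.ext h12
  -- the fields
  have hL₁K : L₁ ≤ K := by
    intro x hx
    refine fix_mem hB.hk le_sup_left hkC galC ⟨x, hL (hL₁ hx)⟩ fun τ hτ => ?_
    -- `τ` has order a power of `l`
    have h1 : r₁ τ = 1 := hr1 τ hτ
    have h2 : τ ^ l ^ n = 1 := by
      refine hone _ (by rw [map_pow, h1, one_pow]) ?_
      rw [map_pow, ← hcardB, pow_card_eq_one']
    -- its restriction to `L₁` is trivial
    have fd1 : FiniteDimensional ℚ L₁ := FiniteDimensional.of_injective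
      (IntermediateField.inclusion hL₁).toLinearMap
      (IntermediateField.inclusion hL₁).toRingHom.injective
    let j1 : Algebra k L₁ := algC hkL₁
    let j2 : Algebra L₁ ↥(K ⊔ B n) := algC (hL₁.trans hL)
    have j3 : IsScalarTower k L₁ ↥(K ⊔ B n) := towerC hkL₁ (hL₁.trans hL)
    have j4 : IsScalarTower ℚ k L₁ := IsScalarTower.of_algebraMap_eq (fun _ => rfl)
    have j5 : FiniteDimensional k L₁ := Module.Finite.of_restrictScalars_finite ℚ k _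
    have abC : IsAbelianGalois k ↥(K ⊔ B n) :=
      { toIsGalois := galC
        is_comm := ⟨comC⟩ }
    have ab1 : IsAbelianGalois k L₁ :=
      IsAbelianGalois.of_algHom (IsScalarTower.toAlgHom k L₁ ↥(K ⊔ B n))
    have g1 : IsGalois k L₁ := ab1.toIsGalois
    let ρ : (↥(K ⊔ B n) ≃ₐ[k] ↥(K ⊔ B n)) →* (L₁ ≃ₐ[k] L₁) := AlgEquiv.restrictNormalHom L₁
    have h3 : (ρ τ) ^ l ^ n = 1 := by rw [← map_pow, h2, map_one]
    have h4 : (ρ τ) ^ Nat.card (L₁ ≃ₐ[k] L₁) = 1 := pow_card_eq_one'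
    have h5 : Nat.Coprime (l ^ n) (Nat.card (L₁ ≃ₐ[k] L₁)) := by
      refine Nat.Coprime.pow_left n ((Nat.Prime.coprime_iff_not_dvd hlp).2 ?_)
      rw [IsGalois.card_aut_eq_finrank, finrank_algC hkL₁]
      exact hd2
    have h6 := Nat.dvd_gcd (orderOf_dvd_of_pow_eq_one h3) (orderOf_dvd_of_pow_eq_one h4)
    rw [h5] at h6
    have h7 : ρ τ = 1 := orderOf_eq_one_iff.1 (Nat.dvd_one.1 h6)
    have h8 := AlgEquiv.restrictNormal_commutes τ L₁ ⟨x, hx⟩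
    have h9 : τ.restrictNormal L₁ = 1 := h7
    rw [h9, AlgEquiv.one_apply] at h8
    exact h8.symm
  have hEL : L₁ ⊔ B (n₀ + 1) ≤ L := sup_le hL₁ ((hB.mono (by omega)).trans hBL)
  have hFL : L ⊓ (K ⊔ B n₀) ≤ L := inf_le_left
  have hkF : L₁ ≤ L ⊓ (K ⊔ B n₀) := le_inf hL₁ (hL₁K.trans le_sup_left)
  have hDF : L₁ ⊔ B n₀ ≤ L ⊓ (K ⊔ B n₀) :=
    le_inf ((sup_le_sup_left (hB.mono (Nat.le_succ n₀)) L₁).trans hEL)
      (sup_le_sup_right hL₁K (B n₀))
  -- `L / L₁` is cyclic of degree a power of `l`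
  have fd1 : FiniteDimensional ℚ L₁ := FiniteDimensional.of_injective
    (IntermediateField.inclusion hL₁).toLinearMap
    (IntermediateField.inclusion hL₁).toRingHom.injective
  let aL : Algebra k L := algC hkL
  let aL1 : Algebra L₁ L := algC hL₁
  let ak1 : Algebra k L₁ := algC hkL₁
  have tL : IsScalarTower ℚ k L := IsScalarTower.of_algebraMap_eq (fun _ => rfl)
  have tL1 : IsScalarTower ℚ L₁ L := IsScalarTower.of_algebraMap_eq (fun _ => rfl)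
  have tk1 : IsScalarTower k L₁ L := towerC hkL₁ hL₁
  have ffL : FiniteDimensional k L := Module.Finite.of_restrictScalars_finite ℚ k _
  have ffL1 : FiniteDimensional L₁ L := Module.Finite.of_restrictScalars_finite ℚ L₁ _
  have abC : IsAbelianGalois k ↥(K ⊔ B n) :=
    { toIsGalois := galC
      is_comm := ⟨comC⟩ }
  let iLC : Algebra L ↥(K ⊔ B n) := algC hL
  have tLC : IsScalarTower k L ↥(K ⊔ B n) := towerC hkL hL
  have abL : IsAbelianGalois k L := IsAbelianGalois.of_algHom (IsScalarTower.toAlgHom k L ↥(K ⊔ B n))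
  have galL : IsGalois k L := abL.toIsGalois
  have galL1 : IsGalois L₁ L := IsGalois.tower_top_of_isGalois k L₁ L
  have cycL : IsCyclic (L ≃ₐ[k] L) :=
    (extEquiv hkL).autCongr.isCyclic.1 hcyc
  have cycL1 : IsCyclic (L ≃ₐ[L₁] L) :=
    isCyclic_of_injective (AlgEquiv.restrictScalarsHom k : (L ≃ₐ[L₁] L) →* (L ≃ₐ[k] L))
      (AlgEquiv.restrictScalarsHom_injective k)
  have hcardL : Nat.card (L ≃ₐ[L₁] L) ∣ l ^ e := by
    rw [IsGalois.card_aut_eq_finrank, finrank_algC hL₁]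
    exact hd1
  have hcomp := comparable hL₁ l e hlp (L₁ ⊔ B (n₀ + 1)) (L ⊓ (K ⊔ B n₀)) le_sup_left hkF
    hEL hFL galL1 cycL1 hcardL
  have hnE : ¬ L₁ ⊔ B (n₀ + 1) ≤ L ⊓ (K ⊔ B n₀) := fun h =>
    hn₀ (le_sup_right.trans (h.trans inf_le_right))
  have hFE : L ⊓ (K ⊔ B n₀) ≤ L₁ ⊔ B (n₀ + 1) := hcomp.resolve_left hnE
  exact between l n₀ L₁ B hB.lay hB.mono _ hDF hFE fun h => hnE h.ge

end Pool.Agent.TWF


end
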