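import Mathlib.RingTheory.Ideal.Norm.AbsNorm
import Pool.Agent.MVF.C021
import Pool.Agent.MVF.C027
import Pool.Agent.MVF.C030
import Pool.Agent.MVF.C031
import Pool.Agent.MVF.C032
import Pool.Agent.MVF.C033
import Pool.Agent.MVF.C035
import Pool.Agent.MVF.C037
import Pool.Agent.MVF.C048
import Pool.Agent.MVF.C049
import Pool.Agent.MVF.C061
import Pool.Agent.MVF.C071
import Pool.Agent.MVF.C087
import Pool.Agent.MVF.C093
import Pool.Agent.MVF.C103
import Pool.Agent.MVF.C117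
import Pool.Agent.MVF.C119
import Pool.Agent.MVF.C121
import Pool.Agent.TWM.C01
import Pool.Agent.TWM.C04
import Pool.Agent.TWM.C05

/-! Parts: TWK.OMP, TWK.PVX, TWK.CLG1, TWK.KOL1, TWK.REL1, TWK.CYC2, TWK.DSC2, TWK.PRM2, TWK.RAMC, TWK.GRD, TWK.K3, TWK.K4, TWK.KNM3, TWK.KOL3, TWK.K5, TWK.All, TWK.FIN1, TWK.FIN3, TWK.SETD, TWK.All3 -/

section

/-!
# TWK, module OMP: the ray class field of level `m` prime to `p` contains no primitive `p`-th root of unity
-/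

set_option autoImplicit false

open NumberField IsDedekindDomain

namespace Pool.Agent.TWK

open _root_.MU3 Pool.Agent.MU3 Pool.Agent.MU3A Pool.Agent.MU3B Pool.Agent.RI Pool.Agent.RID
  Pool.Agent.MUX Pool.Agent.MUXJ

namespace OMPx

theorem natO_ne {A B : ℤ} {N : ℕ} (hN : N ≠ 0) : ((N : ℕ) : OO A B) ≠ 0 := by
  intro h0
  have h1 := congrArg QuadraticAlgebra.re h0
  rw [QuadraticAlgebra.re_natCast, QuadraticAlgebra.re_zero] at h1
  exact hN (by exact_mod_cast h1)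

theorem idl_ne {A B : ℤ} {N : ℕ} (hN : N ≠ 0) : idl (A := A) (B := B) N ≠ ⊥ := by
  intro h0
  rw [Ideal.span_singleton_eq_bot] at h0
  exact natO_ne hN h0

theorem idl_le {A B : ℤ} {n m : ℕ} (h : m ∣ n) : (idl n : Ideal (OO A B)) ≤ idl m := by
  rw [Ideal.span_singleton_le_span_singleton]
  obtain ⟨c, rfl⟩ := h
  exact ⟨(c : OO A B), by push_cast; ring⟩

/-- a primitive `M`-th root of unity is in `RF (idl m)` if `M ∣ m` -/
theorem zeta_mem {A B : ℤ} (T : TorX A B) (hNL : NLex A B) {M m : ℕ} (hM : M ≠ 0) (hm : m ≠ 0)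
    (hMm : M ∣ m) {z : ℂ} (hz : z ^ M = 1) :
    z ∈ (RF (idl (A := A) (B := B) m) : IntermediateField (kk A B) ℂ) := by
  obtain ⟨b, L, om, hL⟩ := hNL
  have hfix : FixK A B (RingEquiv.refl ℂ) := rfl
  obtain ⟨a, -, ha⟩ := T.act (idl m) (idl_ne hm) (RingEquiv.refl ℂ) hfix
  obtain ⟨b', L', om', mu, -, hact⟩ := ha b L om hL
  exact (T.zeta M (idl m) a (RingEquiv.refl ℂ) b L L' om mu (idl_ne hm) hfix hM (idl_le hMm) hL
    hact z hz).1

theorem cop_int {A B : ℤ} {x m : ℕ} (h : x.Coprime m) :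
    IsCoprime (sp ((x : ℕ) : OO A B)) (idl m) := by
  rw [Ideal.isCoprime_span_singleton_iff]
  obtain ⟨u, v, huv⟩ : IsCoprime ((x : ℕ) : ℤ) ((m : ℕ) : ℤ) := Nat.isCoprime_iff_coprime.2 h
  refine ⟨((u : ℤ) : OO A B), ((v : ℤ) : OO A B), ?_⟩
  have := congrArg (fun k : ℤ => ((k : ℤ) : OO A B)) huv
  simpa using this

theorem nm_nat {A B : ℤ} (m : ℕ) : nm ((m : ℕ) : OO A B) = (m : ℤ) ^ 2 := by
  simp [nm]

end OMPx

open _root_.Pool.Agent.TWK.OMPx in
/-- `RF (idl m)` contains no primitive `p`-th root of unity if `p ≥ 5` does not divide `m`. -/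
theorem t_OMP (p : ℕ) (hp : p.Prime) (h5 : 5 ≤ p) (A B : ℤ) (hc : MUX.CQ A B) (T : TorX A B)
    (hNL : NLex A B) (m : ℕ) (hm : m ≠ 0) (hpm : ¬ p ∣ m) :
    ∀ z ∈ (RF (idl (A := A) (B := B) m) : IntermediateField (kk A B) ℂ),
      ¬ IsPrimitiveRoot z p := by
  intro z hz hprim
  have hcop : Nat.Coprime m p := (Nat.Prime.coprime_iff_not_dvd hp).2 hpm |>.symm
  obtain ⟨x, hx1, hx2⟩ := Nat.chineseRemainder hcop 1 2
  have hxm : x.Coprime m := by
    have h1 : Nat.gcd x m = Nat.gcd 1 m := Nat.ModEq.gcd_eq hx1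
    rw [Nat.coprime_iff_gcd_eq_one, h1, Nat.gcd_one_left]
  have hxp : x.Coprime p := by
    have h1 : Nat.gcd x p = Nat.gcd 2 p := Nat.ModEq.gcd_eq hx2
    rw [Nat.coprime_iff_gcd_eq_one, h1]
    exact (Nat.coprime_primes Nat.prime_two hp).2 (by omega)
  have hmp0 : m * p ≠ 0 := mul_ne_zero hm hp.ne_zero
  have hx0 : x ≠ 0 := by
    rintro rfl
    rw [Nat.coprime_zero_left] at hxp
    omega
  have hxO : ((x : ℕ) : OO A B) ≠ 0 := natO_ne hx0
  have hspx : sp ((x : ℕ) : OO A B) ≠ ⊥ := by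
    rw [Ne, Ideal.span_singleton_eq_bot]
    exact hxO
  obtain ⟨σ, hσ, hact⟩ := T.surj (idl (m * p)) (idl_ne hmp0) (sp ((x : ℕ) : OO A B)) hspx
    (cop_int (Nat.Coprime.mul_right hxm hxp))
  obtain ⟨b, L, om, hL⟩ := hNL
  obtain ⟨b', L', om', mu, hL', hI⟩ := hact b L om hL
  have hpz : z ^ p = 1 := hprim.pow_eq_one
  have h1 := (T.zeta p (idl (m * p)) (sp ((x : ℕ) : OO A B)) σ b L L' om mu (idl_ne hmp0) hσ
    hp.ne_zero (idl_le (dvd_mul_left p m)) hL hI z hpz).2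
  -- level `m`
  have hI' : ActI σ (idl m) (sp ((x : ℕ) : OO A B)) L L' mu := by
    refine ⟨hI.kap, cop_int hxm, hI.isq, ?_⟩
    intro w hw
    exact hI.act w (fun y hy => hw y (idl_le (dvd_mul_right m p) hy))
  have h2 := (T.triv (idl m) (sp ((x : ℕ) : OO A B)) σ b L L' om mu (idl_ne hm) hσ hL hI'
    hL'.nrm).2 ⟨((x : ℕ) : OO A B), ?_, rfl⟩ z hz
  · rw [h1] at h2
    have hnI : nI (sp ((x : ℕ) : OO A B)) = x ^ 2 := by
      rw [MUX.nI_sp hc hxO, nm_nat]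
      simp [Int.natAbs_pow]
    rw [hnI] at h2
    have hz0 : z ≠ 0 := hprim.ne_zero hp.ne_zero
    have hx2' : 1 ≤ x ^ 2 := Nat.one_le_pow _ _ (Nat.pos_of_ne_zero hx0)
    have h3 : z ^ (x ^ 2 - 1) = 1 := by
      apply mul_right_cancel₀ hz0
      rw [← pow_succ, Nat.sub_add_cancel hx2', h2, one_mul]
    have h4 : x ^ 2 ≡ 1 [MOD p] :=
      ((Nat.modEq_iff_dvd' hx2').2 (hprim.dvd_of_pow_eq_one _ h3)).symm
    have h6 : x ^ 2 ≡ 2 ^ 2 [MOD p] := hx2.pow 2
    have h7 : 1 ≡ 4 [MOD p] := h4.symm.trans h6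
    have h8 : p ∣ 3 := by
      have := (Nat.modEq_iff_dvd' (by norm_num : 1 ≤ 4)).1 h7
      simpa using this
    have := Nat.le_of_dvd (by norm_num) h8
    omega
  · rw [Ideal.mem_span_singleton]
    have h9 : (m : ℤ) ∣ (x : ℤ) - 1 := by
      have := (Nat.modEq_iff_dvd.1 hx1.symm)
      exact_mod_cast this
    obtain ⟨c, hc'⟩ := h9
    refine ⟨((c : ℤ) : OO A B), ?_⟩
    have := congrArg (fun k : ℤ => ((k : ℤ) : OO A B)) hc'
    push_cast at this
    exact this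

end Pool.Agent.TWK


end

section

/-!
# TWK, module PVX: a prime `p` with two different primes of `k` above it

Existence of an ideal `P` of norm `p` of the order `O = OO A B` and of a valuation ring of `ℂ` above it.
-/

set_option autoImplicit false

open NumberField IsDedekindDomain
open scoped nonZeroDivisors Pointwise

namespace Pool.Agent.TWK

open _root_.MU3 Pool.Agent.MU3 Pool.Agent.MU3A Pool.Agent.MU3B Pool.Agent.RI Pool.Agent.RID
open Pool.Agent.MUX Pool.Agent.MUXU Pool.Agent.MUXW Pool.Agent.MUXJ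

noncomputable section

namespace PVXx

theorem finrank_le {A B : ℤ} (hw : wC A B ^ 2 = A + B * wC A B) :
    FiniteDimensional ℚ (kk A B) ∧ Module.finrank ℚ (kk A B) ≤ 2 := by
  have h0 : (Polynomial.X ^ 2 - Polynomial.C (B : ℚ) * Polynomial.X
      - Polynomial.C (A : ℚ)).Monic := by
    monicity!
  have h1 : (Polynomial.X ^ 2 - Polynomial.C (B : ℚ) * Polynomial.X
      - Polynomial.C (A : ℚ)).natDegree ≤ 2 := by
    compute_degree
  have h2 : (Polynomial.aeval (wC A B)) (Polynomial.X ^ 2 - Polynomial.C (B : ℚ) * Polynomial.X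
      - Polynomial.C (A : ℚ)) = 0 := by
    simp only [map_sub, map_mul, map_pow, Polynomial.aeval_X, Polynomial.aeval_C]
    simp only [eq_ratCast, Rat.cast_intCast]
    linear_combination hw
  have hint : IsIntegral ℚ (wC A B) := ⟨_, h0, h2⟩
  refine ⟨IntermediateField.adjoin.finiteDimensional hint, ?_⟩
  have h3 : Module.finrank ℚ (kk A B) = (minpoly ℚ (wC A B)).natDegree :=
    IntermediateField.adjoin.finrank hint
  rw [h3]
  exact (Polynomial.natDegree_le_natDegree (minpoly.min ℚ _ h0 h2)).trans h1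

/-- two different primes above `p` in a field of degree at most two have `p` elements -/
theorem absNorm_eq {k : Type} [Field k] [NumberField k] (h2 : Module.finrank ℚ k ≤ 2) {p : ℕ}
    (hp : p.Prime) {P Q : Ideal (𝓞 k)} (hP : P.IsPrime) (hQ : Q.IsPrime) (hPQ : P ≠ Q)
    (hpP : (p : 𝓞 k) ∈ P) (hpQ : (p : 𝓞 k) ∈ Q) : Ideal.absNorm P = p := by
  have hp0 : (p : 𝓞 k) ≠ 0 := by exact_mod_cast hp.ne_zero
  have hP0 : P ≠ ⊥ := by
    rintro rfl
    exact hp0 ((Ideal.mem_bot).1 hpP)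
  have hQ0 : Q ≠ ⊥ := by
    rintro rfl
    exact hp0 ((Ideal.mem_bot).1 hpQ)
  have hPm : P.IsMaximal := hP.isMaximal hP0
  have hQm : Q.IsMaximal := hQ.isMaximal hQ0
  have hcop : IsCoprime P Q := Ideal.isCoprime_of_isMaximal hPQ
  have hle : Ideal.span {(p : 𝓞 k)} ≤ P * Q := by
    rw [Ideal.mul_eq_inf_of_isCoprime hcop, Ideal.span_singleton_le_iff_mem]
    exact ⟨hpP, hpQ⟩
  have h3 := Ideal.absNorm_dvd_absNorm_of_le hle
  rw [map_mul, Ideal.absNorm_span_natCast, RingOfIntegers.rank] at h3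
  have h4 : Ideal.absNorm P * Ideal.absNorm Q ∣ p ^ 2 := h3.trans (pow_dvd_pow p h2)
  have hP1 : Ideal.absNorm P ≠ 1 := by
    rw [Ne, Ideal.absNorm_eq_one_iff]
    exact hP.ne_top
  have hQ1 : Ideal.absNorm Q ≠ 1 := by
    rw [Ne, Ideal.absNorm_eq_one_iff]
    exact hQ.ne_top
  have h5 : Ideal.absNorm P ∣ p ^ 2 := (dvd_mul_right _ _).trans h4
  obtain ⟨i, hi, hiP⟩ := (Nat.dvd_prime_pow hp).1 h5
  interval_cases i
  · exact absurd (by rw [hiP, pow_zero]) hP1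
  · rw [hiP, pow_one]
  · exfalso
    rw [hiP] at h4
    have h6 : Ideal.absNorm Q ∣ 1 :=
      (mul_dvd_mul_iff_left (pow_ne_zero 2 hp.ne_zero)).1 (by rwa [mul_one])
    exact hQ1 (Nat.dvd_one.1 h6)

/-- a valuation ring of `ℂ` above a maximal ideal -/
theorem exV {A B : ℤ} (h : MUX.CQ A B) (P : Ideal (OO A B)) (p : ℕ) (hpP : ((p : ℕ) : OO A B) ∈ P)
    (hm : P.IsMaximal) : ∃ V : ValuationSubring ℂ, OverI V P ∧ (p : ℂ) ∈ V.nonunits := by
  let φ : OO A B →+* ℂ := Pool.Agent.MUXE.RNGaux.eH h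
  have hφ : ∀ x, φ x = emb x := Pool.Agent.MUXE.RNGaux.eH_apply h
  have hinj : ∀ x y, φ x = φ y → x = y := by
    intro x y hxy
    rw [hφ, hφ] at hxy
    exact Pool.Agent.MUXE.RNGaux.emb_inj h hxy
  let I : Ideal φ.range := P.map φ.rangeRestrict
  have hmem : ∀ y, y ∈ I ↔ ∃ x ∈ P, φ.rangeRestrict x = y := fun y =>
    Ideal.mem_map_iff_of_surjective _ φ.rangeRestrict_surjective
  have hI : I ≠ ⊤ := by
    intro hI
    have h1 : (1 : φ.range) ∈ I := by rw [hI]; trivial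
    obtain ⟨x, hx, hx1⟩ := (hmem _).1 h1
    have h2 : φ x = φ 1 := by
      have := congrArg Subtype.val hx1
      rw [map_one]
      simpa using this
    rw [hinj _ _ h2] at hx
    exact hm.ne_top ((Ideal.eq_top_iff_one P).2 hx)
  obtain ⟨V, hV, hVI⟩ := Ideal.image_subset_nonunits_valuationSubring I hI
  have hle : ∀ x : OO A B, V.valuation (emb x) ≤ 1 := by
    intro x
    rw [← hφ]
    exact (V.valuation_le_one_iff _).2 (hV ⟨x, rfl⟩)
  have hP1 : ∀ x ∈ P, emb x ∈ V.nonunits := by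
    intro x hx
    rw [← hφ]
    exact hVI ⟨φ.rangeRestrict x, (hmem _).2 ⟨x, hx, rfl⟩, rfl⟩
  have hO : OverI V P := by
    intro x
    refine ⟨fun hx => ?_, hP1 x⟩
    by_contra hxP
    obtain ⟨y, i, hi, hy⟩ := hm.exists_inv hxP
    have h1 : emb y * emb x + emb i = 1 := by
      rw [← hφ, ← hφ, ← hφ, ← map_mul, ← map_add, hy, map_one]
    rw [ValuationSubring.mem_nonunits_iff] at hx
    have hi' := hP1 i hi
    rw [ValuationSubring.mem_nonunits_iff] at hi'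
    have h2 : V.valuation (emb y * emb x) < 1 := by
      rw [map_mul]
      exact lt_of_le_of_lt (mul_le_of_le_one_left' (hle y)) hx
    have h3 : V.valuation (emb y * emb x + emb i) < 1 := Valuation.map_add_lt _ h2 hi'
    rw [h1, map_one] at h3
    exact lt_irrefl _ h3
  refine ⟨V, hO, ?_⟩
  have h4 : emb ((p : ℕ) : OO A B) = (p : ℂ) := by
    rw [← hφ, map_natCast]
  rw [← h4]
  exact (hO _).2 hpP

end PVXx

open _root_.Pool.Agent.TWK.PVXx in
/-- two different primes of `k = kk A B` above `p`: an ideal `P` of norm `p` of `O` and a valuation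
ring above it -/
theorem t_PVX (A B : ℤ) (hc : CQ A B) (p : ℕ) (hp : p.Prime) (P₁ P₂ : Ideal (𝓞 (kk A B)))
    (h1 : P₁.IsPrime) (h2 : P₂.IsPrime) (h12 : P₁ ≠ P₂) (hp1 : (p : 𝓞 (kk A B)) ∈ P₁)
    (hp2 : (p : 𝓞 (kk A B)) ∈ P₂) :
    ∃ (P : Ideal (OO A B)) (V : ValuationSubring ℂ), IsPN p P ∧ OverI V P ∧
      (p : ℂ) ∈ V.nonunits := by
  have hpF := Fact.mk hp
  obtain ⟨hmul, hadd, -, -, hnat, hinj, hw, -⟩ :=
    Pool.Agent.MUXV.tq_EMB A B ⟨hc.hB, hc.neg, hc.fund1, hc.fund0⟩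
  obtain ⟨hfd, hfr⟩ := finrank_le hw
  have hnf : NumberField (kk A B) := ⟨⟩
  have hcard : Ideal.absNorm P₁ = p := absNorm_eq hfr hp h1 h2 h12 hp1 hp2
  obtain ⟨hsurj, -, hQ⟩ := ty_PRQ Pool.Agent.MUXV.tq_EMB A B ⟨hc.hB, hc.neg, hc.fund1, hc.fund0⟩
  obtain ⟨Q, hQc, hQm⟩ := hQ P₁
  have hQcard : Nat.card (OO A B ⧸ Q) = p := by
    rw [hQc, ← hcard]
    rfl
  have hpe : (((p : 𝓞 (kk A B)) : kk A B) : ℂ) = emb ((p : ℕ) : OO A B) := by
    rw [hnat p]
    simp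
  have hpQ : ((p : ℕ) : OO A B) ∈ Q := (hQm _ _ hpe).1 hp1
  have hmax : Q.IsMaximal := by
    have hfin : Finite (OO A B ⧸ Q) := Nat.finite_of_card_ne_zero (by rw [hQcard]; exact hp.ne_zero)
    have := Fintype.ofFinite (OO A B ⧸ Q)
    have hc1 : Fintype.card (OO A B ⧸ Q) = p := by rw [← Nat.card_eq_fintype_card, hQcard]
    apply Ideal.Quotient.maximal_of_isField
    let e := ZMod.ringEquivOfPrime (OO A B ⧸ Q) hp hc1
    exact e.symm.toMulEquiv.isField (Field.toIsField (ZMod p))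
  have hIs : IsPN p Q := ⟨hmax.isPrime, hpQ, hQcard⟩
  obtain ⟨V, hV, hpV⟩ := exV ⟨hc.hB, hc.neg, hc.fund1, hc.fund0⟩ Q p hpQ hmax
  exact ⟨Q, V, hIs, hV, hpV⟩

end

end Pool.Agent.TWK


end

section

/-!
# Module CLG1 of the project TWK: the class numbers

`p` does not divide `[L : F₁]` and the generator `g` of `Gal(L / F₁)` acts trivially on the ideal
classes modulo `p`-th powers: the class numbers of `L` and `F₁` have the same `p`-part.
-/

set_option autoImplicit false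

open NumberField IsDedekindDomain Finset
open scoped nonZeroDivisors Pointwise

namespace Pool.Agent.TWK

open Pool.Agent.MU3 Pool.Agent.RI Pool.Agent.MUXK

namespace CLG1x

/-- The group theory: `N` is a norm, `x ^ d / N x` is a `p`-th power modulo the kernel of `φ`;
then the kernel of `N` has no `p`-torsion modulo the kernel of `φ`. -/
private theorem grp (p : ℕ) (hp : p.Prime) {A B : Type} [CommGroup A] [CommGroup B] [Finite B]
    (φ : A →* B) (N : A →* A) (d : ℕ) (hd : d.Coprime p)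
    (h1 : ∀ x, N (N x) = N x ^ d) (h2 : ∀ x, φ x = 1 → φ (N x) = 1)
    (h3 : ∀ x, ∃ y, φ (x ^ d / N x) = φ y ^ p) (x : A) (hx : N x = 1) :
    ∃ m : ℕ, m.Coprime p ∧ φ (x ^ m) = 1 := by
  have hpi : Fact p.Prime := ⟨hp⟩
  let π : A →* A := powMonoidHom d / N
  have hπ : ∀ a, π a = a ^ d / N a := fun a => rfl
  have hNπ : ∀ a, N (π a) = 1 := fun a => by
    rw [hπ, map_div, map_pow, h1, div_self']
  have hππ : ∀ a, π (π a) = π a ^ d := fun a => by
    rw [hπ (π a), hNπ, div_one]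
  have hker : ∀ a, φ a = 1 → φ (π a) = 1 := fun a ha => by
    rw [hπ, map_div, map_pow, ha, h2 a ha, one_pow, div_one]
  let ψ : A →* B := φ.comp π
  have hψ : ∀ a, ψ a = φ (π a) := fun a => rfl
  -- every `d`-th power is a `p`-th power in the range of `ψ`
  have hC : ∀ c : ψ.range, ∃ b : ψ.range, b ^ p = c ^ d := by
    rintro ⟨_, a, rfl⟩
    obtain ⟨y, hy⟩ := h3 a
    refine ⟨⟨ψ y, y, rfl⟩, Subtype.ext ?_⟩
    show ψ y ^ p = ψ a ^ d
    have h4 : φ (π a / y ^ p) = 1 := by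
      rw [map_div, map_pow, hπ, hy, div_self']
    have h5 := hker _ h4
    rw [map_div, map_div, map_pow, map_pow, hππ, map_pow, div_eq_one] at h5
    rw [hψ, hψ, h5]
  have hsurj : Function.Surjective (fun c : ψ.range => c ^ p) := by
    intro c
    obtain ⟨b, hb⟩ := hC c
    have hz : (d : ℤ) * Int.gcdA d p + p * Int.gcdB d p = 1 := by
      have := Nat.gcd_eq_gcd_ab d p
      rw [hd.gcd_eq_one] at this
      exact_mod_cast this.symm
    refine ⟨b ^ (Int.gcdA d p) * c ^ (Int.gcdB d p), ?_⟩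
    show (b ^ (Int.gcdA d p) * c ^ (Int.gcdB d p)) ^ p = c
    rw [mul_pow, ← zpow_natCast, ← zpow_natCast, ← zpow_mul, ← zpow_mul, mul_comm _ (p : ℤ),
      mul_comm _ (p : ℤ), zpow_mul, zpow_natCast, hb, ← zpow_natCast, ← zpow_mul, ← zpow_add, hz,
      zpow_one]
  have hinj : Function.Injective (fun c : ψ.range => c ^ p) :=
    Finite.injective_iff_surjective.2 hsurj
  have hcard : ¬ p ∣ Nat.card ψ.range := by
    intro hdv
    obtain ⟨c, hc⟩ := exists_prime_orderOf_dvd_card' p hdv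
    have h6 : c ^ p = 1 := by rw [← hc]; exact pow_orderOf_eq_one c
    have h7 : c = 1 := hinj (by show c ^ p = 1 ^ p; rw [h6, one_pow])
    rw [h7, orderOf_one] at hc
    exact hp.one_lt.ne hc
  refine ⟨d * Nat.card ψ.range, Nat.Coprime.mul_left hd
    ((Nat.Prime.coprime_iff_not_dvd hp).2 hcard).symm, ?_⟩
  have h8 : (⟨ψ x, x, rfl⟩ : ψ.range) ^ Nat.card ψ.range = 1 := pow_card_eq_one'
  have h9 : ψ x ^ Nat.card ψ.range = 1 := congrArg Subtype.val h8
  rw [hψ, hπ, hx, div_one] at h9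
  rw [pow_mul, map_pow, h9]

/-- The same with a subgroup of finite index. -/
private theorem grp2 (p : ℕ) (hp : p.Prime) {A : Type} [CommGroup A] (P : Subgroup A)
    [Finite (A ⧸ P)] (N : A →* A) (d : ℕ) (hd : d.Coprime p)
    (h1 : ∀ x, N (N x) = N x ^ d) (h2 : ∀ x ∈ P, N x ∈ P)
    (h3 : ∀ x, ∃ y, ∃ z ∈ P, x ^ d / N x = y ^ p * z) (x : A) (hx : N x = 1) :
    ∃ m : ℕ, m.Coprime p ∧ x ^ m ∈ P := by
  have key : ∀ a : A, (QuotientGroup.mk' P) a = 1 ↔ a ∈ P := fun a => by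
    rw [QuotientGroup.mk'_apply, QuotientGroup.eq_one_iff]
  obtain ⟨m, hm, h⟩ := grp (B := A ⧸ P) p hp (QuotientGroup.mk' P) N d hd h1
    (fun a ha => (key _).2 (h2 a ((key a).1 ha))) (fun a => by
      obtain ⟨y, z, hz, hy⟩ := h3 a
      exact ⟨y, by rw [hy, map_mul, (key z).2 hz, mul_one, map_pow]⟩) x hx
  exact ⟨m, hm, (key _).1 h⟩

end CLG1x

open _root_.Pool.Agent.TWK.CLG1x

theorem t_CLG1 : S_CLG1 := by
  intro p hpi k F₁ L _ _ _ _ _ _ _ _ g g₁ hg hgen hdv hyp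
  have hp : p.Prime := hpi.out
  have hd : (Module.finrank F₁ L).Coprime p := ((Nat.Prime.coprime_iff_not_dvd hp).2 hdv).symm
  refine (CL_thm p F₁ L hd).2 ?_
  -- the same action
  have hsm : ∀ x : J L, g₁ • x = g • x := by
    intro x
    apply Units.ext
    ext y
    rw [RI.mem_smul, RI.mem_smul]
    have : g₁.symm y = g.symm y := by
      rw [AlgEquiv.symm_apply_eq, hg, AlgEquiv.apply_symm_apply]
    rw [this]
  let H : Subgroup (J L) :=
    { carrier := {x | ∃ y : J L, ∃ z ∈ (prin (K := L)).range, x = y ^ p * z}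
      one_mem' := ⟨1, 1, one_mem _, by rw [one_pow, mul_one]⟩
      mul_mem' := by
        rintro x y ⟨a, z, hz, ha⟩ ⟨b, w, hw, hb⟩
        exact ⟨a * b, z * w, mul_mem hz hw, by rw [mul_pow, ha, hb, mul_mul_mul_comm]⟩
      inv_mem' := by
        rintro x ⟨a, z, hz, ha⟩
        exact ⟨a⁻¹, z⁻¹, inv_mem hz, by rw [inv_pow, ha, mul_inv]⟩ }
  -- all `σ` act trivially modulo `H`
  let W : Subgroup (L ≃ₐ[F₁] L) :=
    { carrier := {σ | ∀ x : J L, (σ • x) * x⁻¹ ∈ H}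
      one_mem' := fun x => by rw [one_smul, mul_inv_cancel]; exact H.one_mem
      mul_mem' := fun {σ τ} hσ hτ x => by
        have h1 := H.mul_mem (hσ (τ • x)) (hτ x)
        rw [← mul_assoc, inv_mul_cancel_right, ← mul_smul] at h1
        exact h1
      inv_mem' := fun {σ} hσ x => by
        have h1 := H.inv_mem (hσ (σ⁻¹ • x))
        rw [smul_inv_smul, mul_inv, inv_inv, mul_comm] at h1
        exact h1 }
  have hgW : g₁ ∈ W := fun x => by
    obtain ⟨y, z, hyz⟩ := hyp x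
    rw [hsm, hyz]
    exact ⟨y, prin z, ⟨z, rfl⟩, rfl⟩
  have hW : ∀ (σ : L ≃ₐ[F₁] L) (x : J L), (σ • x) * x⁻¹ ∈ H := fun σ =>
    (Subgroup.zpowers_le.2 hgW) (hgen σ)
  have hcard : Fintype.card (L ≃ₐ[F₁] L) = Module.finrank F₁ L := by
    rw [← Nat.card_eq_fintype_card, IsGalois.card_aut_eq_finrank]
  have h3 : ∀ x : J L, ∃ y : J L, ∃ z ∈ (prin (K := L)).range,
      x ^ Module.finrank F₁ L / CL.nm F₁ L x = y ^ p * z := by
    intro x
    have h4 : x ^ Module.finrank F₁ L / CL.nm F₁ L x = ∏ σ : L ≃ₐ[F₁] L, ((σ • x) * x⁻¹)⁻¹ := by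
      rw [Finset.prod_inv_distrib, Finset.prod_mul_distrib, Finset.prod_const, Finset.card_univ,
        hcard, CL.nm_apply, mul_inv, inv_pow, inv_inv, mul_comm, div_eq_mul_inv]
    have h5 : x ^ Module.finrank F₁ L / CL.nm F₁ L x ∈ H := by
      rw [h4]
      exact Subgroup.prod_mem _ fun σ _ => H.inv_mem (hW σ x)
    exact h5
  have h1 : ∀ x : J L, CL.nm F₁ L (CL.nm F₁ L x) = CL.nm F₁ L x ^ Module.finrank F₁ L := by
    intro x
    have h5 : ∀ σ : L ≃ₐ[F₁] L, σ • CL.nm F₁ L x = CL.nm F₁ L x := fun σ => by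
      rw [CL.nm_apply, Finset.smul_prod']
      rw [← Equiv.prod_comp (Equiv.mulLeft σ) (fun τ : L ≃ₐ[F₁] L => τ • x)]
      exact Finset.prod_congr rfl fun τ _ => by rw [← mul_smul]; rfl
    rw [CL.nm_apply (CL.nm F₁ L x), Finset.prod_congr rfl (fun σ _ => h5 σ), Finset.prod_const,
      Finset.card_univ, hcard]
  have h2 : ∀ x ∈ (prin (K := L)).range, CL.nm F₁ L x ∈ (prin (K := L)).range := by
    rintro _ ⟨z, rfl⟩
    refine ⟨∏ σ : L ≃ₐ[F₁] L, σ • z, ?_⟩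
    rw [CL.nm_apply, map_prod]
    exact Finset.prod_congr rfl fun σ _ => (smul_prin σ z).symm
  intro c hc
  obtain ⟨m, hm, z, hz⟩ := grp2 p hp (prin (K := L)).range (CL.nm F₁ L) (Module.finrank F₁ L) hd
    h1 h2 h3 c hc
  exact ⟨m, hm, z, hz.symm⟩

end Pool.Agent.TWK


end

section

/-!
# TWK, block K: module KOL1 (helper63)
-/

set_option autoImplicit false

open NumberField IsDedekindDomain Finset
open scoped nonZeroDivisors Pointwise

namespace Pool.Agent.TWK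

open Pool.Agent.MU3 Pool.Agent.RI Pool.Agent.MUXK

namespace KOL1x

/-- The norm commutes with compatible automorphisms (from `Pool/Agent/MUX/K_KOLX.lean`). -/
theorem norm_comp {k L M : Type} [Field k] [Field L] [Field M] [Algebra k L] [Algebra L M]
    [Algebra k M] [IsScalarTower k L M] [FiniteDimensional L M] [IsGalois L M]
    (comm : ∀ σ τ : M ≃ₐ[k] M, σ * τ = τ * σ) (g : L ≃ₐ[k] L) (g' : M ≃ₐ[k] M)
    (hg : ∀ x : L, algebraMap L M (g x) = g' (algebraMap L M x)) (x : M) :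
    Algebra.norm L (g' x) = g (Algebra.norm L x) := by
  apply (algebraMap L M).injective
  rw [hg, Algebra.norm_eq_prod_automorphisms, Algebra.norm_eq_prod_automorphisms, map_prod]
  refine Finset.prod_congr rfl fun σ _ => ?_
  have h1 := congrArg (fun τ : M ≃ₐ[k] M => τ x) (comm (σ.restrictScalars k) g')
  simpa using h1

theorem norm_comp_pow {k L M : Type} [Field k] [Field L] [Field M] [Algebra k L] [Algebra L M]
    [Algebra k M] [IsScalarTower k L M] [FiniteDimensional L M] [IsGalois L M]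
    (comm : ∀ σ τ : M ≃ₐ[k] M, σ * τ = τ * σ) (g : L ≃ₐ[k] L) (g' : M ≃ₐ[k] M)
    (hg : ∀ x : L, algebraMap L M (g x) = g' (algebraMap L M x)) (x : M) (j : ℕ) :
    Algebra.norm L ((g' ^ j) x) = (g ^ j) (Algebra.norm L x) := by
  induction j with
  | zero => simp
  | succ j ih =>
    rw [pow_succ', pow_succ', AlgEquiv.mul_apply, AlgEquiv.mul_apply, norm_comp comm g g' hg, ih]

end KOL1x

theorem t_KOL1 (h1 : S_KINX) (h2 : S_KNM) : S_KOL1 := by
  intro p _ k L M _ _ _ _ _ _ _ _ _ _ galL galM comm S ζ hζ h2S hpS hSp hram c Gs hc hSU hK g' hg'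
    hfix g hgg
  obtain ⟨u', hu'⟩ := t_UNI k M S c hc hSU g' hfix p
  have hrel := h1 p k M comm S hpS c hc hSU Gs hK g' hg' hfix u' hu'
  have galLM : IsGalois L M := IsGalois.tower_top_of_isGalois k L M
  have fdLM : FiniteDimensional L M := inferInstance
  have hc0 : Algebra.norm L c ≠ 0 := Algebra.norm_ne_zero_iff.2 hc
  have hn : (((Units.map (RingOfIntegers.norm L) u' : (𝓞 L)ˣ) : 𝓞 L) : L) =
      Algebra.norm L ((u' : 𝓞 M) : M) := by
    rw [Units.coe_map]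
    exact RingOfIntegers.coe_norm (K := L) (L := M) _
  refine ⟨Units.map (RingOfIntegers.norm L) u', ?_, ?_⟩
  · rw [hn, eq_div_iff hc0, ← KOL1x.norm_comp_pow comm g g' hgg, ← map_mul, hu',
      div_mul_cancel₀ _ hc]
  · exact h2 p k L M comm S ζ hζ h2S hpS hSp hram u' _ hn hrel

end Pool.Agent.TWK


end

section

/-!
# TWK, module REL1: the relation at one good prime for one eigenfunctional (helper45)
-/

set_option autoImplicit false

open NumberField IsDedekindDomain Finset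
open scoped nonZeroDivisors Pointwise

namespace Pool.Agent.TWK

open Pool.Agent.MU3 Pool.Agent.RI Pool.Agent.MUXK

namespace REL1x

/-- An automorphism fixing the prime ideal fixes the fractional ideal. -/
lemma fix_vJ {k L : Type} [Field k] [Field L] [NumberField L] [Algebra k L] (g : L ≃ₐ[k] L)
    (v : HeightOneSpectrum (𝓞 L)) (h : g • v.asIdeal = v.asIdeal) : g • vJ v = vJ v := by
  apply Units.ext
  ext x
  rw [RI.mem_smul]
  show g.symm x ∈ (v.asIdeal : FractionalIdeal (𝓞 L)⁰ L) ↔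
    x ∈ (v.asIdeal : FractionalIdeal (𝓞 L)⁰ L)
  rw [FractionalIdeal.mem_coeIdeal, FractionalIdeal.mem_coeIdeal]
  constructor
  · rintro ⟨y, hy, hx⟩
    refine ⟨g • y, ?_, ?_⟩
    · rw [← h]; exact Ideal.smul_mem_pointwise_smul_iff.mpr hy
    · show g (algebraMap (𝓞 L) L y) = x
      rw [hx]; exact g.apply_symm_apply x
  · rintro ⟨y, hy, hx⟩
    refine ⟨g⁻¹ • y, ?_, ?_⟩
    · have : g • (g⁻¹ • y) ∈ g • v.asIdeal := by rw [smul_inv_smul, h]; exact hy
      exact Ideal.smul_mem_pointwise_smul_iff.mp this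
    · show g.symm (algebraMap (𝓞 L) L y) = g.symm x
      rw [hx]

lemma fix_SJ {k L : Type} [Field k] [Field L] [NumberField L] [Algebra k L] (S : Finset ℕ)
    (g : L ≃ₐ[k] L)
    (h : ∀ v : HeightOneSpectrum (𝓞 L), Above S v → g • v.asIdeal = v.asIdeal) (s : J L)
    (hs : s ∈ SJ S L) : g • s = s := by
  unfold SJ at hs
  induction hs using Subgroup.closure_induction with
  | mem x hx => obtain ⟨v, hv, rfl⟩ := hx; exact fix_vJ g v (h v hv)
  | one => exact smul_one g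
  | mul x y _ _ hx hy => rw [smul_mul', hx, hy]
  | inv x _ hx => rw [smul_inv', hx]

/-- The congruence for `h⁻¹ c` modulo `lam` gives the one for `c` modulo `h lam`. -/
lemma tr {k L : Type} [Field k] [Field L] [NumberField L] [Algebra k L] (h : L ≃ₐ[k] L)
    (c : (𝓞 L)ˣ) (e b : ℕ) (a : ℤ) (I : Ideal (𝓞 L))
    (hh : ((h⁻¹ • c : (𝓞 L)ˣ) : 𝓞 L) ^ e - (a : 𝓞 L) ^ b ∈ I) :
    (c : 𝓞 L) ^ e - (a : 𝓞 L) ^ b ∈ h • I := by
  have h1 : h • (((h⁻¹ • c : (𝓞 L)ˣ) : 𝓞 L) ^ e - (a : 𝓞 L) ^ b) ∈ h • I :=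
    Ideal.smul_mem_pointwise_smul_iff.mpr hh
  have h2 : ((h⁻¹ • c : (𝓞 L)ˣ) : 𝓞 L) = h⁻¹ • (c : 𝓞 L) := rfl
  have h3 : h • (a : 𝓞 L) = (a : 𝓞 L) :=
    map_intCast (MulSemiringAction.toRingHom (L ≃ₐ[k] L) (𝓞 L) h) a
  rw [smul_sub, smul_pow', smul_pow', h2, smul_inv_smul, h3] at h1
  exact h1

lemma f_prod {I F ι : Type} [CommGroup I] [Field F] (f : I → F)
    (hf : ∀ x y, f (x * y) = f x + f y) (s : Finset ι) (x : ι → I) :
    f (∏ i ∈ s, x i) = ∑ i ∈ s, f (x i) := by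
  have h1 : f 1 = 0 := by
    have := hf 1 1
    rw [mul_one] at this
    linear_combination -this
  classical
  induction s using Finset.induction_on with
  | empty => rw [prod_empty, sum_empty, h1]
  | insert a s ha ih => rw [prod_insert ha, sum_insert ha, hf, ih]

lemma f_pow {I F : Type} [CommGroup I] [Field F] (f : I → F)
    (hf : ∀ x y, f (x * y) = f x + f y) (x : I) (n : ℕ) : f (x ^ n) = n * f x := by
  induction n with
  | zero =>
    rw [pow_zero, Nat.cast_zero, zero_mul]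
    have := hf 1 1
    rw [mul_one] at this
    linear_combination -this
  | succ n ih => rw [pow_succ, hf, ih]; push_cast; ring

/-- The value of `lg` on the unit `sU`. -/
lemma lg_sU {p : ℕ} [Fact p.Prime] {k L F : Type} [Field k] [NumberField k] [Field L]
    [NumberField L] [Algebra k L] [Field F] [CharP F p] (χ : (L ≃ₐ[k] L) →* Fˣ)
    (θ : F →+ ZMod p) (c : (𝓞 L)ˣ) (lg : (𝓞 L)ˣ →* Multiplicative (ZMod p)) :
    Multiplicative.toAdd (lg (sU p χ θ c)) =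
      θ (∑ δ : L ≃ₐ[k] L, ((χ δ)⁻¹ : Fˣ) *
        ((Multiplicative.toAdd (lg (δ • c))).val : F)) := by
  unfold sU
  rw [map_prod, toAdd_prod, map_sum]
  refine sum_congr rfl fun δ _ => ?_
  rw [map_pow, toAdd_pow]
  set z : ZMod p := Multiplicative.toAdd (lg (δ • c)) with hz
  rw [mul_comm, ← nsmul_eq_mul, map_nsmul, nsmul_eq_mul, nsmul_eq_mul,
    ZMod.natCast_zmod_val, ZMod.natCast_zmod_val, mul_comm]

end REL1x

open _root_.Pool.Agent.TWK.REL1x in
theorem t_REL1 (h1 : S_LGX) : S_REL1 := by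
  intro p _ F _ _ k L _ _ _ _ _ _ S χ θ f hE g hg hfix u lam q hgood hK hnc
  obtain ⟨a, lg, ha1, ha2, hlg, hcube⟩ := h1 p L lam q hgood.prime
    (dvd_trans (dvd_mul_left p 2) hgood.dvd) hgood.card
  have h3 : (p : F) = 0 := CharP.cast_eq_zero F p
  -- the functional is zero on `SJ S L`
  have hS : ∀ s : J L, s ∈ SJ S L → f s = 0 := by
    intro s hs
    have e1 := hE.eig g s
    rw [fix_SJ S g hfix s hs] at e1
    have e2 : (1 - (χ g : F)) * f s = 0 := by linear_combination e1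
    rcases mul_eq_zero.mp e2 with e3 | e3
    · exact absurd (Units.ext (by rw [Units.val_one]; exact (sub_eq_zero.mp e3).symm)) hg
    · exact e3
  -- the exponents
  let b : (L ≃ₐ[k] L) → ℕ := fun h => (Multiplicative.toAdd (lg (h⁻¹ • u))).val
  obtain ⟨κ, I, s, hs, hrel⟩ := hK a ha1 ha2 b
    (fun h => tr h u _ _ a _ (hlg (h⁻¹ • u)))
  have hsum : (∑ h : L ≃ₐ[k] L, (b h : F) * (χ h : F)) * f (vJ lam) = 0 := by
    have e1 : f (∏ h : L ≃ₐ[k] L, (h • vJ lam) ^ b h) =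
        (∑ h : L ≃ₐ[k] L, (b h : F) * (χ h : F)) * f (vJ lam) := by
      rw [f_prod f hE.add, sum_mul]
      refine sum_congr rfl fun h _ => ?_
      rw [f_pow f hE.add, hE.eig, mul_assoc]
    rw [← e1, hrel, hE.add, hE.add, f_pow f hE.add, hE.pri _ ⟨_, rfl⟩, hS s hs, h3]
    ring
  rcases mul_eq_zero.mp hsum with h0 | h0
  · exfalso
    have e3 := lg_sU χ θ u lg
    have e4 : (∑ δ : L ≃ₐ[k] L, ((χ δ)⁻¹ : Fˣ) *
        ((Multiplicative.toAdd (lg (δ • u))).val : F)) = 0 := by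
      rw [← h0, ← Equiv.sum_comp (Equiv.inv (L ≃ₐ[k] L))]
      refine sum_congr rfl fun δ _ => ?_
      simp only [Equiv.inv_apply, map_inv, inv_inv, b]
      rw [mul_comm]
    rw [e4, map_zero] at e3
    obtain ⟨v, hv⟩ := hcube _ (by
      rw [← ofAdd_toAdd (lg (sU p χ θ u)), e3, ofAdd_zero])
    exact hnc v hv
  · exact h0

end Pool.Agent.TWK


end

section

/-!
# TWK_CYC2: a generator of `Gal(K B_(n+1) / K)`
-/

set_option autoImplicit false

open NumberField IsDedekindDomain Finset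
open scoped nonZeroDivisors Pointwise

namespace Pool.Agent.TWK

open Pool.Agent.MU3 Pool.Agent.RI Pool.Agent.RID Pool.Agent.MUXK

namespace CYC2x

/-- In a cyclic Galois extension an automorphism of order dividing `[E' : E]` is trivial on `E`. -/
lemma fix {B' : Type} [Field B'] [Algebra ℚ B'] [FiniteDimensional ℚ B'] [IsGalois ℚ B']
    [IsCyclic (B' ≃ₐ[ℚ] B')] (E : IntermediateField ℚ B') (l : ℕ) (hl : 0 < l)
    (h : Module.finrank E B' = l) (ρ : B' ≃ₐ[ℚ] B') (hρ : ρ ^ l = 1) : ∀ x ∈ E, ρ x = x := by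
  classical
  have h1 : Nat.card E.fixingSubgroup = l := by
    rw [IsGalois.card_fixingSubgroup_eq_finrank, h]
  have h2 := IsCyclic.card_pow_eq_one_le (α := B' ≃ₐ[ℚ] B') hl
  let H : Finset (B' ≃ₐ[ℚ] B') := univ.filter fun a => a ∈ E.fixingSubgroup
  have h3 : H.card = l := by
    rw [← h1, Nat.card_eq_fintype_card, Fintype.card_subtype]
  have h4 : H ⊆ univ.filter fun a : B' ≃ₐ[ℚ] B' => a ^ l = 1 := by
    intro a ha
    have h5 : a ∈ E.fixingSubgroup := (mem_filter.1 ha).2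
    refine mem_filter.2 ⟨mem_univ _, ?_⟩
    have h6 : (⟨a, h5⟩ : E.fixingSubgroup) ^ l = 1 := by
      rw [← h1]
      exact pow_card_eq_one'
    exact congrArg Subtype.val h6
  have h5 := Finset.eq_of_subset_of_card_le h4 (h2.trans h3.ge)
  have h6 : ρ ∈ H := by
    rw [h5]
    exact mem_filter.2 ⟨mem_univ _, hρ⟩
  have h7 : ρ ∈ E.fixingSubgroup := (mem_filter.1 h6).2
  exact (IntermediateField.mem_fixingSubgroup_iff E ρ).1 h7

/-- The subfield `A` of `C` as an extension of `ℚ`. -/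
noncomputable def sub {A C : IntermediateField ℚ ℂ} (_h : A ≤ C) : IntermediateField ℚ C where
  carrier := {x | (x : ℂ) ∈ A}
  mul_mem' := by
    intro a b ha hb
    exact mul_mem (S := IntermediateField ℚ ℂ) ha hb
  add_mem' := by
    intro a b ha hb
    exact add_mem (S := IntermediateField ℚ ℂ) ha hb
  algebraMap_mem' := fun r => by
    rw [eq_ratCast]
    exact SubfieldClass.ratCast_mem A r
  inv_mem' := by
    intro a ha
    exact inv_mem (S := IntermediateField ℚ ℂ) ha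

lemma mem_sub {A C : IntermediateField ℚ ℂ} (h : A ≤ C) (x : C) : x ∈ sub h ↔ (x : ℂ) ∈ A :=
  Iff.rfl

lemma finrank_sub {A C : IntermediateField ℚ ℂ} (h : A ≤ C) :
    Module.finrank ℚ (sub h) = Module.finrank ℚ A := by
  let f : sub h →+ A :=
    { toFun := fun x => ⟨((x : C) : ℂ), x.2⟩
      map_zero' := rfl
      map_add' := fun _ _ => rfl }
  have hf : Function.Bijective f := by
    constructor
    · intro x y hxy
      apply Subtype.ext
      apply Subtype.ext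
      have h1 : ((f x : A) : ℂ) = ((f y : A) : ℂ) := by rw [hxy]
      exact h1
    · intro y
      exact ⟨⟨⟨(y : ℂ), h y.2⟩, y.2⟩, rfl⟩
  exact (LinearEquiv.ofBijective (AddMonoidHom.toRatLinearMap f) hf).finrank_eq

end CYC2x

open _root_.Pool.Agent.TWK.CYC2x in
theorem t_CYC2 : S_CYC2 := by
  intro l _ k K B _ _ hB n h
  have hpr : l.Prime := Fact.out
  let akL : Algebra k ↥(K ⊔ B (n + 1)) := algC h
  have hKL : K ≤ K ⊔ B (n + 1) := le_sup_left
  have hBL : B (n + 1) ≤ K ⊔ B (n + 1) := le_sup_right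
  let akK : Algebra k K := algC hB.hk
  let aKL : Algebra K ↥(K ⊔ B (n + 1)) := algC hKL
  let aBL : Algebra (B (n + 1)) ↥(K ⊔ B (n + 1)) := algC hBL
  have t0 : IsScalarTower k K ↥(K ⊔ B (n + 1)) := towerC hB.hk hKL
  have hT : IsScalarTower ℚ (B (n + 1)) ↥(K ⊔ B (n + 1)) :=
    IsScalarTower.of_algebraMap_eq fun x => by
      apply Subtype.ext
      rw [eq_ratCast, eq_ratCast, map_ratCast]
  have hT' : IsScalarTower ℚ K ↥(K ⊔ B (n + 1)) :=
    IsScalarTower.of_algebraMap_eq fun x => by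
      apply Subtype.ext
      rw [eq_ratCast, eq_ratCast, map_ratCast]
  obtain ⟨hfB, hGB, -⟩ := LAY_thm l (n + 1) (B (n + 1)) (hB.lay (n + 1))
  have hc0 : IsCyclic (B (n + 1) ≃ₐ[ℚ] B (n + 1)) := t_LAYC l (n + 1) _ (hB.lay (n + 1))
  have fdL : FiniteDimensional K ↥(K ⊔ B (n + 1)) :=
    Module.Finite.of_restrictScalars_finite ℚ K _
  obtain ⟨gL0, hdvd⟩ := MU3.Gal.base K (B (n + 1)) (hB.lay (n + 1))
  have gL : IsGalois K ↥(K ⊔ B (n + 1)) := (isGalois_algC hKL).2 gL0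
  obtain ⟨e, -, he⟩ := (Nat.dvd_prime_pow hpr).1 hdvd
  have dL : Module.finrank K ↥(K ⊔ B (n + 1)) = l ^ e := (finrank_algC hKL).trans he
  have hcyc := CDL.cyclic (F := K) hc0
  have hcyc2 : IsCyclic (↥(K ⊔ B (n + 1)) ≃ₐ[K] ↥(K ⊔ B (n + 1))) :=
    isCyclic_of_injective (AlgEquiv.autCongr (extEquiv hKL)).symm.toMonoidHom
      (AlgEquiv.autCongr (extEquiv hKL)).symm.injective
  obtain ⟨g, hg⟩ := hcyc2.exists_generator
  have hgo : orderOf g = l ^ e := by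
    rw [orderOf_eq_card_of_forall_mem_zpowers hg, IsGalois.card_aut_eq_finrank, dL]
  let r : (↥(K ⊔ B (n + 1)) ≃ₐ[K] ↥(K ⊔ B (n + 1))) →* (B (n + 1) ≃ₐ[ℚ] B (n + 1)) :=
    (AlgEquiv.restrictNormalHom (F := ℚ) (K₁ := ↥(K ⊔ B (n + 1))) (B (n + 1))).comp
      (AlgEquiv.restrictScalarsHom ℚ)
  have hr : ∀ (σ : ↥(K ⊔ B (n + 1)) ≃ₐ[K] ↥(K ⊔ B (n + 1))) (x : B (n + 1)),
      algebraMap (B (n + 1)) ↥(K ⊔ B (n + 1)) (r σ x) =
        σ (algebraMap (B (n + 1)) ↥(K ⊔ B (n + 1)) x) := by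
    intro σ x
    exact AlgEquiv.restrictNormal_commutes (AlgEquiv.restrictScalars ℚ σ) (B (n + 1)) x
  have hpow : ∀ j : ℕ, (AlgEquiv.restrictScalars k g :
      ↥(K ⊔ B (n + 1)) ≃ₐ[k] ↥(K ⊔ B (n + 1))) ^ j = AlgEquiv.restrictScalars k (g ^ j) := fun j =>
    (map_pow (AlgEquiv.restrictScalarsHom k :
      (↥(K ⊔ B (n + 1)) ≃ₐ[K] ↥(K ⊔ B (n + 1))) →* _) g j).symm
  have hord : orderOf (AlgEquiv.restrictScalars k g :
      ↥(K ⊔ B (n + 1)) ≃ₐ[k] ↥(K ⊔ B (n + 1))) = orderOf g := by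
    refine orderOf_injective
      (AlgEquiv.restrictScalarsHom k : (↥(K ⊔ B (n + 1)) ≃ₐ[K] ↥(K ⊔ B (n + 1))) →* _) ?_ g
    exact AlgEquiv.restrictScalars_injective k
  refine ⟨e, AlgEquiv.restrictScalars k g, hord.trans hgo, ?_, ?_, ?_⟩
  · have h3 : Module.finrank ℚ K * Module.finrank K ↥(K ⊔ B (n + 1)) =
        Module.finrank ℚ ↥(K ⊔ B (n + 1)) := Module.finrank_mul_finrank ℚ K _
    rw [mul_comm, ← dL, h3, ← (hB.lay (n + 1)).1]
    exact LinearMap.finrank_le_finrank_of_injective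
      (f := (IntermediateField.inclusion hBL).toLinearMap)
      (IntermediateField.inclusion hBL).toRingHom.injective
  · intro x hx
    exact g.commutes ⟨(x : ℂ), hx⟩
  · intro e' he'
    have h1 : (g ^ (l ^ e')) ^ l = 1 := by
      rw [← pow_mul, ← pow_succ, ← he', ← hgo, pow_orderOf_eq_one]
    have h2 : g ^ (l ^ e') ≠ 1 := by
      intro h3
      have h4 := orderOf_dvd_of_pow_eq_one h3
      rw [hgo, he', pow_succ] at h4
      have h5 := Nat.le_of_dvd (pow_pos hpr.pos e') h4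
      have h6 := hpr.two_le
      have h7 : 0 < l ^ e' := pow_pos hpr.pos e'
      nlinarith
    rw [hpow]
    constructor
    · have hBB : B n ≤ B (n + 1) := hB.mono (Nat.le_succ n)
      obtain ⟨hfBn, -, -⟩ := LAY_thm l n (B n) (hB.lay n)
      have h3 : Module.finrank (sub hBB) (B (n + 1)) = l := by
        have h4 : Module.finrank ℚ (sub hBB) * Module.finrank (sub hBB) (B (n + 1)) =
            Module.finrank ℚ (B (n + 1)) := Module.finrank_mul_finrank ℚ _ _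
        have h5 : Module.finrank ℚ (sub hBB) = l ^ n := by
          rw [← (hB.lay n).1]
          exact finrank_sub hBB
        rw [h5, (hB.lay (n + 1)).1, pow_succ] at h4
        exact Nat.eq_of_mul_eq_mul_left (pow_pos hpr.pos n) h4
      have h4 := fix (sub hBB) l hpr.pos h3 (r (g ^ (l ^ e'))) (by
        rw [← map_pow, h1, map_one])
      intro x hx
      have h5 := h4 ⟨(x : ℂ), hBB hx⟩ ((mem_sub hBB _).2 hx)
      have h6 := hr (g ^ (l ^ e')) ⟨(x : ℂ), hBB hx⟩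
      rw [h5] at h6
      exact h6.symm
    · by_contra hcon
      push Not at hcon
      apply h2
      have h3 := GCC.triv hKL (g ^ (l ^ e')) (fun x hx => (g ^ (l ^ e')).commutes ⟨(x : ℂ), hx⟩)
        (fun x hx => hcon x hx)
      exact h3

end Pool.Agent.TWK


end

section

/-!
# TWK, module DSC2: descent of the equality of class numbers to subfields
-/

set_option autoImplicit false

open NumberField IsDedekindDomain Finset
open scoped nonZeroDivisors Pointwise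

namespace Pool.Agent.TWK.DSC2x

open Pool.Agent.RI

/-- a product over a group of a function of the image under a surjective homomorphism -/
lemma prod_surj {G H X : Type} [Group G] [Group H] [Fintype G] [Fintype H] [CommMonoid X]
    (r : G →* H) (hr : Function.Surjective r) (f : H → X) :
    ∃ n : ℕ, ∏ τ : G, f (r τ) = (∏ σ : H, f σ) ^ n := by
  classical
  refine ⟨(univ.filter fun τ : G => r τ = 1).card, ?_⟩
  rw [← Finset.prod_fiberwise_of_maps_to (g := fun τ : G => r τ) (t := (univ : Finset H))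
    (fun _ _ => mem_univ _), ← Finset.prod_pow]
  refine Finset.prod_congr rfl fun σ _ => ?_
  rw [Finset.prod_congr rfl (g := fun _ => f σ)
    (fun τ hτ => by rw [(Finset.mem_filter.1 hτ).2]), Finset.prod_const]
  congr 1
  obtain ⟨g, hg⟩ := hr σ
  apply Finset.card_bij' (fun τ _ => g⁻¹ * τ) (fun τ _ => g * τ)
  · intro τ hτ
    rw [mem_filter] at hτ ⊢
    exact ⟨mem_univ _, by rw [map_mul, map_inv, hτ.2, hg, inv_mul_cancel]⟩
  · intro τ hτ
    rw [mem_filter] at hτ ⊢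
    exact ⟨mem_univ _, by rw [map_mul, hτ.2, hg, mul_one]⟩
  · intro τ _
    rw [mul_inv_cancel_left]
  · intro τ _
    rw [inv_mul_cancel_left]

/-- The relative class group of `L / F₀` has trivial `p`-part if that of `N₁ / N₀` has. -/
lemma descend (p : ℕ) (F₀ L N₀ N₁ : Type) [Field F₀] [Field L] [NumberField L] [Field N₀]
    [Field N₁] [NumberField N₁] [Algebra F₀ L] [Algebra L N₁] [Algebra N₀ N₁]
    [FiniteDimensional F₀ L] [FiniteDimensional N₀ N₁] [IsGalois L N₁]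
    (hd : (Module.finrank L N₁).Coprime p)
    (r : (N₁ ≃ₐ[N₀] N₁) →* (L ≃ₐ[F₀] L)) (hr : Function.Surjective r)
    (hc : ∀ τ x, algebraMap L N₁ (r τ x) = τ (algebraMap L N₁ x))
    (h : RelTriv N₀ N₁ p) : RelTriv F₀ L p := by
  intro c hc1
  obtain ⟨n, hn⟩ := prod_surj r hr (fun σ => σ • c)
  have h1 : ∏ τ : N₁ ≃ₐ[N₀] N₁, τ • ext L N₁ c = 1 := by
    have h2 : ∀ τ : N₁ ≃ₐ[N₀] N₁, τ • ext L N₁ c = ext L N₁ (r τ • c) := fun τ =>
      (EXTACT_thm F₀ L N₀ N₁ τ (r τ) (hc τ) c).symm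
    rw [Finset.prod_congr rfl fun τ _ => h2 τ, ← map_prod, hn, hc1, one_pow, map_one]
  obtain ⟨m, hm, x, hx⟩ := h _ h1
  refine ⟨Module.finrank L N₁ * m, Nat.Coprime.mul_left hd hm,
    Units.map (Algebra.norm L : N₁ →* L) x, ?_⟩
  apply ext_injective L N₁
  rw [← CL.nm_prin, ← hx, map_pow, map_pow, CL.nm_ext, pow_mul]

/-- The restriction homomorphism. -/
lemma restr (F₀ L N₀ N₁ : Type) [Field F₀] [Field L] [Field N₀] [Field N₁] [Algebra F₀ L]
    [Algebra L N₁] [Algebra N₀ N₁] [Algebra F₀ N₀] [Algebra F₀ N₁] [IsScalarTower F₀ L N₁]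
    [IsScalarTower F₀ N₀ N₁] [FiniteDimensional F₀ L] [IsGalois F₀ L] [FiniteDimensional N₀ N₁]
    [IsGalois N₀ N₁]
    (hint : ∀ x : L, (∃ y : N₀, algebraMap N₀ N₁ y = algebraMap L N₁ x) →
      ∃ z : F₀, algebraMap F₀ L z = x) :
    ∃ r : (N₁ ≃ₐ[N₀] N₁) →* (L ≃ₐ[F₀] L), Function.Surjective r ∧
      ∀ τ x, algebraMap L N₁ (r τ x) = τ (algebraMap L N₁ x) := by
  let r : (N₁ ≃ₐ[N₀] N₁) →* (L ≃ₐ[F₀] L) :=
    (AlgEquiv.restrictNormalHom L).comp (AlgEquiv.restrictScalarsHom F₀)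
  have hc : ∀ τ x, algebraMap L N₁ (r τ x) = τ (algebraMap L N₁ x) := fun τ x =>
    AlgEquiv.restrictNormal_commutes (AlgEquiv.restrictScalars F₀ τ) L x
  refine ⟨r, ?_, hc⟩
  have h1 : IntermediateField.fixedField r.range = ⊥ := by
    rw [eq_bot_iff]
    intro x hx
    have h2 : ∀ τ : N₁ ≃ₐ[N₀] N₁, τ (algebraMap L N₁ x) = algebraMap L N₁ x := by
      intro τ
      rw [← hc τ x]
      congr 1
      exact hx ⟨r τ, τ, rfl⟩
    obtain ⟨y, hy⟩ := (IsGalois.mem_range_algebraMap_iff_fixed (F := N₀) _).2 h2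
    rw [IntermediateField.mem_bot]
    exact hint x ⟨y, hy⟩
  have h2 : r.range = ⊤ := by
    rw [← IntermediateField.fixingSubgroup_fixedField r.range, h1,
      IntermediateField.fixingSubgroup_bot]
  exact MonoidHom.range_eq_top.1 h2

/-- A subextension of an abelian extension is Galois. -/
lemma gal_sub (k L N₁ : Type) [Field k] [Field L] [Field N₁] [Algebra k L] [Algebra L N₁]
    [Algebra k N₁] [IsScalarTower k L N₁] [IsGalois k N₁]
    (hab : ∀ σ τ : N₁ ≃ₐ[k] N₁, σ * τ = τ * σ) : IsGalois k L := by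
  let E : IntermediateField k N₁ := (IsScalarTower.toAlgHom k L N₁).fieldRange
  have h1 : E.fixingSubgroup.Normal := ⟨fun n hn g => by
    rw [hab g n, mul_inv_cancel_right]
    exact hn⟩
  have h2 : IsGalois k E := (InfiniteGalois.normal_iff_isGalois E).1 h1
  have e : E ≃ₐ[k] L := (AlgEquiv.ofInjectiveField (IsScalarTower.toAlgHom k L N₁)).symm
  exact IsGalois.of_algEquiv e

end Pool.Agent.TWK.DSC2x

namespace Pool.Agent.TWK

open Pool.Agent.MU3 Pool.Agent.RI Pool.Agent.RID Pool.Agent.MUXK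

/-- Module DSC2. -/
theorem t_DSC2 : S_DSC2 := by
  intro p hp k N₀ N₁ _ h₀ h₁ hyp heq L hkL hLN
  have f1 : FiniteDimensional ℚ N₀ := BASE.finDim_of_le h₁
  have f2 : FiniteDimensional ℚ L := BASE.finDim_of_le hLN
  have f3 : FiniteDimensional ℚ ↥(L ⊓ N₀) := BASE.finDim_of_le (inf_le_left.trans hLN)
  have f4 : FiniteDimensional ℚ k := BASE.finDim_of_le hkL
  have hin : L ⊓ N₀ ≤ N₁ := inf_le_left.trans hLN
  letI := algC (h₀.trans h₁)
  letI := algC hkL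
  letI := algC hLN
  letI := algC h₁
  letI := algC h₀
  letI := algC (inf_le_left : L ⊓ N₀ ≤ L)
  letI := algC (inf_le_right : L ⊓ N₀ ≤ N₀)
  letI := algC hin
  letI := algC (le_inf hkL h₀)
  have t1 : IsScalarTower k L N₁ := towerC hkL hLN
  have t2 : IsScalarTower k N₀ N₁ := towerC h₀ h₁
  have t3 : IsScalarTower ↥(L ⊓ N₀) L N₁ := towerC inf_le_left hLN
  have t4 : IsScalarTower ↥(L ⊓ N₀) N₀ N₁ := towerC inf_le_right h₁
  have t5 : IsScalarTower k ↥(L ⊓ N₀) L := towerC (le_inf hkL h₀) inf_le_left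
  obtain ⟨hg, hab, hdeg⟩ := hyp
  have g1 : IsGalois k N₁ := hg
  have g2 : IsGalois L N₁ := IsGalois.tower_top_of_isGalois k L N₁
  have g3 : IsGalois N₀ N₁ := IsGalois.tower_top_of_isGalois k N₀ N₁
  have g4 : IsGalois k L := DSC2x.gal_sub k L N₁ hab
  have g5 : IsGalois ↥(L ⊓ N₀) L := IsGalois.tower_top_of_isGalois k ↥(L ⊓ N₀) L
  have d1 := Module.finrank_mul_finrank k L N₁
  have d2 := Module.finrank_mul_finrank k N₀ N₁
  have d3 := Module.finrank_mul_finrank k ↥(L ⊓ N₀) L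
  have c1 : ¬ p ∣ Module.finrank L N₁ := fun h => hdeg (by rw [← d1]; exact Dvd.dvd.mul_left h _)
  have c2 : ¬ p ∣ Module.finrank N₀ N₁ := fun h => hdeg (by rw [← d2]; exact Dvd.dvd.mul_left h _)
  have c3 : ¬ p ∣ Module.finrank ↥(L ⊓ N₀) L := fun h => hdeg (by
    rw [← d1, ← d3]; exact Dvd.dvd.mul_right (Dvd.dvd.mul_left h _) _)
  have cop : ∀ n : ℕ, ¬ p ∣ n → n.Coprime p := fun n h => by
    rw [Nat.coprime_comm, hp.out.coprime_iff_not_dvd]
    exact h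
  -- the hypothesis
  have b1 := BASE_thm CL_thm p N₀ N₁ h₁ ((isGalois_algC h₁).1 g3) (by
    rw [← finrank_algC h₁]; exact c2)
  obtain ⟨h', hF', hK', hr⟩ := b1.1 heq
  have r1 : RelTriv N₀ N₁ p := hr.2.2
  -- the conclusion
  have b2 := BASE_thm CL_thm p (L ⊓ N₀) L inf_le_left ((isGalois_algC inf_le_left).1 g5) (by
    rw [← finrank_algC inf_le_left]; exact c3)
  apply b2.2
  obtain ⟨r, hr1, hr2⟩ := DSC2x.restr ↥(L ⊓ N₀) L N₀ N₁ (by
    rintro x ⟨y, hy⟩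
    have e : (y : ℂ) = (x : ℂ) := congrArg Subtype.val hy
    exact ⟨⟨(x : ℂ), x.2, e ▸ y.2⟩, rfl⟩)
  exact ⟨inf_le_left, f3, f2, g5, cop _ c3,
    DSC2x.descend p ↥(L ⊓ N₀) L N₀ N₁ (cop _ c1) r hr1 hr2 r1⟩

end Pool.Agent.TWK


end

section

/-!
# TWK, block K, module PRM2 (helper88): a bounded power fixes all primes above `S`
-/

set_option autoImplicit false

open NumberField IsDedekindDomain Finset
open scoped nonZeroDivisors Pointwise

namespace Pool.Agent.TWK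

open Pool.Agent.MU3 Pool.Agent.RI Pool.Agent.RID Pool.Agent.MUXK

theorem t_PRM2 (h1 : S_PRB) : S_PRM2 := by
  intro l _ k K B _ _ hB S hS
  classical
  have h3 : ∀ q : ℕ, ∃ C : ℕ, q ∈ S → ∀ n,
      Nat.card {v : HeightOneSpectrum (𝓞 ↥(K ⊔ B n)) // (q : 𝓞 ↥(K ⊔ B n)) ∈ v.asIdeal} ≤ C := by
    intro q
    by_cases hq : q ∈ S
    · obtain ⟨C, hC⟩ := h1 l K B hB.lay q (hS q hq)
      exact ⟨C, fun _ => hC⟩
    · exact ⟨0, fun h => absurd h hq⟩
  choose C hC using h3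
  refine ⟨S.sup C, ?_⟩
  intro n h
  let _ := Pool.Agent.RI.algC h
  intro γ e hγ v hv
  obtain ⟨q, hq, hqv⟩ := hv
  exact K_M0X.aux l γ e (S.sup C) q (hS q hq).ne_zero hγ
    (le_trans (hC q hq n) (Finset.le_sup hq)) v hqv

end Pool.Agent.TWK


end

section

/-!
# Module RAMC of the project TWK: `K B_n / k` is unramified outside a finite set

The finite set does not depend on `n`; adapted from `Pool/Agent/MUX/K_RAMX.lean`.
-/

set_option autoImplicit false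

open NumberField IsDedekindDomain
open scoped nonZeroDivisors Pointwise

namespace Pool.Agent.TWK

open Pool.Agent.MU3 Pool.Agent.RI Pool.Agent.RID Pool.Agent.MUXK Pool.Agent.MU3.P_RAMK

/-- RAMC. -/
theorem t_RAMC : S_RAMC := by
  classical
  intro p l hp hl k K B _ _ _ hB
  have h1 : _root_.MU3.N_RAMP := _root_.MU3.n_RAMP
  let a1 : Algebra k K := algC hB.hk
  have hfin := fin_ram k K
  choose f hf using exists_prime K
  refine ⟨insert 2 (insert p (insert l (hfin.toFinset.image f))), by simp, by simp, ?_, ?_⟩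
  · intro q hq
    rcases Finset.mem_insert.1 hq with rfl | hq
    · exact Nat.prime_two
    · rcases Finset.mem_insert.1 hq with rfl | hq
      · exact hp.out
      · rcases Finset.mem_insert.1 hq with rfl | hq
        · exact hl.out
        · obtain ⟨v, -, rfl⟩ := Finset.mem_image.1 hq
          exact (hf v).1
  · intro S hS n h v hv
    let a2 : Algebra K ↥(K ⊔ B n) := algC (le_sup_left : K ≤ K ⊔ B n)
    let a3 : Algebra k ↥(K ⊔ B n) := algC h
    have tow : IsScalarTower k K ↥(K ⊔ B n) := towerC hB.hk le_sup_left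
    have hprime : v.asIdeal.IsPrime := v.isPrime
    have hvne : v.asIdeal.under (𝓞 K) ≠ ⊥ := by
      intro h0
      exact v.ne_bot (Ideal.eq_bot_of_comap_eq_bot h0)
    let w : HeightOneSpectrum (𝓞 K) := ⟨v.asIdeal.under (𝓞 K), inferInstance, hvne⟩
    have hdown : ∀ q : ℕ, (q : 𝓞 K) ∈ w.asIdeal → (q : 𝓞 ↥(K ⊔ B n)) ∈ v.asIdeal := by
      intro q hq
      have h2 : algebraMap (𝓞 K) (𝓞 ↥(K ⊔ B n)) (q : 𝓞 K) ∈ v.asIdeal := hq
      rwa [map_natCast] at h2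
    have e1 : v.asIdeal.ramificationIdx (𝓞 K) = 1 := by
      by_contra hne
      have h3 := h1 l n K (B n) (hB.lay n) v hne
      exact hv ⟨l, hS (by simp), hdown l h3⟩
    have e2 : w.asIdeal.ramificationIdx (𝓞 k) = 1 := by
      by_contra hne
      refine hv ⟨f w, hS ?_, hdown _ (hf w).2⟩
      exact Finset.mem_insert_of_mem (Finset.mem_insert_of_mem (Finset.mem_insert_of_mem
        (Finset.mem_image_of_mem f (hfin.mem_toFinset.2 hne))))
    have e3 := tower k K ↥(K ⊔ B n) v w rfl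
    rw [e1, e2] at e3
    exact e3

end Pool.Agent.TWK


end

section

/-!
# TWK, module GRD: good reduction of all normalised lattices outside finitely many primes
-/

set_option autoImplicit false

open WeierstrassCurve Polynomial NumberField IsDedekindDomain

namespace Pool.Agent.TWK

open _root_.MU3 Pool.Agent.MU3A Pool.Agent.MU3B Pool.Agent.MU3C Pool.Agent.RI Pool.Agent.RID
open Pool.Agent.MUX Pool.Agent.MUXU Pool.Agent.MUXW Pool.Agent.TWT
open Pool.Agent.MU3V (cls Sub GD algDF)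
open Pool.Agent.MUXV (GR InK tX CMO Ovr)

noncomputable section

namespace GRDx

/-- homothetic normalised lattices have the same `kap` -/
theorem kap_eq {L L' : PeriodPair} (h : L.g₂ = -18 * L.g₃) (h' : L'.g₂ = -18 * L'.g₃) (mu : ℂ)
    (hmu : mu ≠ 0) (hz : ∀ z : ℂ, z ∈ L.lattice ↔ mu * z ∈ L'.lattice) : kap L' = kap L := by
  obtain ⟨-, -, e2, e3⟩ := ta_SCP L L' mu hmu (fun u => hz u)
  have hg0 : L.g₂ ≠ 0 := by
    intro h0
    have h3 : L.g₃ = 0 := by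
      rw [h0] at h
      have := h.symm
      simpa using this
    apply (b_DSC L).1
    rw [h0, h3]
    norm_num
  have hmu2 : mu ^ 2 = 1 := by
    rw [e2, e3, h] at h'
    have hg3 : L.g₃ ≠ 0 := by
      intro h0
      rw [h0, mul_zero] at h
      exact hg0 h
    field_simp at h'
    linear_combination -h'
  unfold kap
  rw [e2]
  have h4 : mu ^ 4 = 1 := by
    calc mu ^ 4 = (mu ^ 2) ^ 2 := by ring
      _ = 1 := by rw [hmu2, one_pow]
  rw [h4]
  simp

variable {A B : ℤ}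

/-- equal lattices with multiplication by `b`, `b'`: the ideals are in the same class -/
theorem same_class (hc : MUX.CQ A B) {b b' : Ideal (OO A B)} {L L' : PeriodPair} {om om' : ℂ}
    (hL : IsNL b L om) (hL' : IsNL b' L' om') (h : L'.lattice = L.lattice) :
    ∃ x y : OO A B, x ≠ 0 ∧ y ≠ 0 ∧ sp x * b = sp y * b' := by
  obtain ⟨eM, eA, -, -, eN, eI, -, -, -, -, -, -, -⟩ :=
    Pool.Agent.MUXV.tq_EMB A B (Cxs.toCQ hc)
  have e0 : emb (0 : OO A B) = 0 := by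
    have := eN 0
    simpa using this
  obtain ⟨β, hβ, hβ0⟩ : ∃ β ∈ b, β ≠ 0 := by
    by_contra hcon
    push Not at hcon
    exact hL.b_ne ((Submodule.eq_bot_iff _).2 hcon)
  have hemb0 : ∀ x : OO A B, x ≠ 0 → emb x ≠ 0 := fun x hx h0 => hx (eI x 0 (by rw [h0, e0]))
  obtain ⟨β', hβ', hβe⟩ := (hL'.mem (om * emb β)).1 (by rw [h]; exact (hL.mem _).2 ⟨β, hβ, rfl⟩)
  have hβ'0 : β' ≠ 0 := by
    rintro rfl
    rw [e0, mul_zero] at hβe
    exact (mul_ne_zero hL.om_ne (hemb0 β hβ0)) hβe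
  refine ⟨β', β, hβ'0, hβ0, ?_⟩
  have key : ∀ {c c' : Ideal (OO A B)} {M M' : PeriodPair} {o o' : ℂ} (_ : IsNL c M o)
      (_ : IsNL c' M' o') (_ : ∀ z, z ∈ M.lattice → z ∈ M'.lattice) (γ γ' : OO A B)
      (_ : o * emb γ = o' * emb γ'), sp γ' * c ≤ sp γ * c' := by
    intro c c' M M' o o' hM hM' hle γ γ' hγ x hx
    obtain ⟨u, hu, rfl⟩ := Ideal.mem_span_singleton_mul.1 hx
    obtain ⟨u', hu', hue⟩ := (hM'.mem (o * emb u)).1 (hle _ ((hM.mem _).2 ⟨u, hu, rfl⟩))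
    refine Ideal.mem_span_singleton_mul.2 ⟨u', hu', ?_⟩
    apply eI
    rw [eM, eM]
    have ho : o ≠ 0 := hM.om_ne
    apply mul_left_cancel₀ (mul_ne_zero ho hM'.om_ne)
    linear_combination (o' * emb u') * hγ - (o' * emb γ') * hue
  apply le_antisymm
  · exact key hL hL' (fun z hz => by rw [h]; exact hz) β β' hβe
  · exact key hL' hL (fun z hz => by rw [← h]; exact hz) β' β hβe.symm

/-- lattices of the same class have the same `kap` -/
theorem kap_class (hc : MUX.CQ A B) {b b' : Ideal (OO A B)} {L L' : PeriodPair} {om om' : ℂ}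
    (hL : IsNL b L om) (hL' : IsNL b' L' om') (x y : OO A B) (hx : x ≠ 0) (hy : y ≠ 0)
    (h : sp x * b = sp y * b') : kap L' = kap L := by
  obtain ⟨eM, eA, -, -, eN, eI, -, -, -, -, -, -, -⟩ :=
    Pool.Agent.MUXV.tq_EMB A B (Cxs.toCQ hc)
  have e0 : emb (0 : OO A B) = 0 := by
    have := eN 0
    simpa using this
  have hemb0 : ∀ x : OO A B, x ≠ 0 → emb x ≠ 0 := fun x hx h0 => hx (eI x 0 (by rw [h0, e0]))
  have hx0 := hemb0 x hx
  have hy0 := hemb0 y hy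
  have ho := hL.om_ne
  have ho' := hL'.om_ne
  refine kap_eq hL.nrm hL'.nrm (om' * emb x / (om * emb y))
    (div_ne_zero (mul_ne_zero ho' hx0) (mul_ne_zero ho hy0)) ?_
  intro z
  rw [hL.mem, hL'.mem]
  constructor
  · rintro ⟨u, hu, rfl⟩
    have h1 : x * u ∈ sp y * b' := by
      rw [← h]
      exact Ideal.mem_span_singleton_mul.2 ⟨u, hu, rfl⟩
    obtain ⟨w, hw, hwe⟩ := Ideal.mem_span_singleton_mul.1 h1
    refine ⟨w, hw, ?_⟩
    have h2 : emb y * emb w = emb x * emb u := by rw [← eM, ← eM, hwe]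
    field_simp
    linear_combination -h2
  · rintro ⟨w, hw, hwe⟩
    have h1 : y * w ∈ sp x * b := by
      rw [h]
      exact Ideal.mem_span_singleton_mul.2 ⟨w, hw, rfl⟩
    obtain ⟨u, hu, hue⟩ := Ideal.mem_span_singleton_mul.1 h1
    refine ⟨u, hu, ?_⟩
    have h2 : emb x * emb u = emb y * emb w := by rw [← eM, ← eM, hue]
    field_simp at hwe
    apply mul_left_cancel₀ hx0
    linear_combination hwe - om * h2

theorem val_prod {ι : Type} (s : Finset ι) (n : ι → ℕ) (V : ValuationSubring ℂ)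
    (h : V.valuation ((∏ i ∈ s, n i : ℕ) : ℂ) = 1) : ∀ i ∈ s, V.valuation (n i : ℂ) = 1 := by
  classical
  intro i hi
  rw [← Finset.mul_prod_erase s n hi] at h
  exact (GRB.val_mul V _ _ h).1

end GRDx

open _root_.Pool.Agent.TWK.GRDx in
/-- GRD: outside finitely many primes all the normalised lattices have good reduction, with different reductions. -/
theorem t_GRD (A B : ℤ) (hc : MUX.CQ A B) (T : TorX A B) (hGRB : Sy_GRB)
    (hALU : Pool.Agent.MUXV.Sq_ALU) (N₁ : ℕ) (ι₁ : Type) [Finite ι₁] (R₁ : Reps A B N₁ ι₁) :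
    ∃ n₀ : ℕ, n₀ ≠ 0 ∧ ∀ V : ValuationSubring ℂ, V.valuation (n₀ : ℂ) = 1 →
      ∀ (N₀ : ℕ) (ι : Type) (R : Reps A B N₀ ι), GRd V R := by
  classical
  have hfin : Fintype ι₁ := Fintype.ofFinite ι₁
  choose n1 hn1 hn1' using fun j => hGRB A B hc T (R₁.b j) (R₁.L j) (R₁.om j) (R₁.nl j)
  have htop : (⊤ : Ideal (OO A B)) ≠ ⊥ := by
    intro h
    have h1 : (1 : OO A B) ∈ (⊤ : Ideal (OO A B)) := Submodule.mem_top
    rw [h, Ideal.mem_bot] at h1
    have h2 := congrArg QuadraticAlgebra.re h1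
    exact one_ne_zero h2
  have halg : ∀ j, IsAlgebraic ℚ (kap (R₁.L j)) := fun j =>
    GRB.alg_RF hc T ⊤ htop (IntermediateField.subset_adjoin _ _
      ⟨R₁.b j, R₁.L j, R₁.om j, R₁.nl j, Or.inl rfl⟩)
  have hdiff : ∀ q : ι₁ × ι₁, ∃ n : ℕ, n ≠ 0 ∧ (q.1 ≠ q.2 → ∀ V : ValuationSubring ℂ,
      V.valuation (n : ℂ) = 1 → V.valuation (kap (R₁.L q.1) - kap (R₁.L q.2)) = 1) := by
    rintro ⟨i, j⟩
    by_cases hij : i = j
    · exact ⟨1, one_ne_zero, fun h => absurd hij h⟩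
    · have hne : kap (R₁.L i) - kap (R₁.L j) ≠ 0 := by
        intro h0
        apply hij
        have h1 := Cxs.lat_eq (R₁.nl i).nrm (R₁.nl j).nrm (sub_eq_zero.1 h0).symm
        obtain ⟨x, y, hx, hy, hxy⟩ := same_class hc (R₁.nl i) (R₁.nl j) h1
        exact R₁.inj i j x y hx hy hxy
      obtain ⟨n, hn, hn'⟩ := hALU _ ((halg i).sub (halg j)) hne
      exact ⟨n, hn, fun _ => hn'⟩
  choose n2 hn2 hn2' using hdiff
  refine ⟨(∏ j, n1 j) * ∏ q, n2 q, mul_ne_zero (Finset.prod_ne_zero_iff.2 fun j _ => hn1 j)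
    (Finset.prod_ne_zero_iff.2 fun q _ => hn2 q), ?_⟩
  intro V hV N₀ ι R
  obtain ⟨hV1, hV2⟩ := GRB.val_mul V _ _ hV
  have hv1 : ∀ j, V.valuation (n1 j : ℂ) = 1 := fun j => val_prod _ _ V hV1 j (Finset.mem_univ j)
  have hv2 : ∀ q, V.valuation (n2 q : ℂ) = 1 := fun q => val_prod _ _ V hV2 q (Finset.mem_univ q)
  have hJ : ∀ i : ι, ∃ (j : ι₁) (x y : OO A B), x ≠ 0 ∧ y ≠ 0 ∧ sp x * R.b i = sp y * R₁.b j :=
    fun i => R₁.surj (R.b i) (R.nl i).b_ne
  choose J x y hx hy hxy using hJ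
  have hk : ∀ i, kap (R.L i) = kap (R₁.L (J i)) := fun i =>
    (kap_class hc (R.nl i) (R₁.nl (J i)) (x i) (y i) (hx i) (hy i) (hxy i)).symm
  refine ⟨fun i => ?_, fun i => ?_, fun i i' h => ?_⟩
  · rw [hk i]
    exact (hn1' (J i) V (hv1 _)).2.2.1
  · rw [hk i]
    have h1 := (hn1' (J i) V (hv1 _)).2.2.2.1
    have h2 : 12 * (R₁.L (J i)).g₂ = 1 + 1728 * kap (R₁.L (J i)) := by
      unfold kap
      ring
    rwa [h2] at h1
  · rw [hk i, hk i'] at h
    have hJJ : J i = J i' := by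
      by_contra hne
      have h1 := hn2' (J i, J i') hne V (hv2 _)
      rw [h1] at h
      exact lt_irrefl _ h
    obtain ⟨eM, eA, -, -, eN, eI, -, -, -, -, -, -, hdom⟩ :=
      Pool.Agent.MUXV.tq_EMB A B (Cxs.toCQ hc)
    have hd : IsDomain (OO A B) := hdom
    refine R.inj i i' (x i * y i') (x i' * y i) (mul_ne_zero (hx i) (hy i'))
      (mul_ne_zero (hx i') (hy i)) ?_
    have e1 : sp (x i * y i') = sp (x i) * sp (y i') := by
      rw [Ideal.span_singleton_mul_span_singleton]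
    have e2 : sp (x i' * y i) = sp (x i') * sp (y i) := by
      rw [Ideal.span_singleton_mul_span_singleton]
    have h3 := hxy i
    have h4 := hxy i'
    rw [← hJJ] at h4
    calc sp (x i * y i') * R.b i = sp (y i') * (sp (x i) * R.b i) := by rw [e1]; ring
      _ = sp (y i) * (sp (y i') * R₁.b (J i)) := by rw [h3]; ring
      _ = sp (x i' * y i) * R.b i' := by rw [← h4, e2]; ring

end

end Pool.Agent.TWK


end

section

/-!
# TWK, module K3: the assembly of block K with an intermediate field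
-/

set_option autoImplicit false

open NumberField IsDedekindDomain Finset
open scoped nonZeroDivisors Pointwise

namespace Pool.Agent.TWK

open Pool.Agent.MU3 Pool.Agent.RI Pool.Agent.MUXK

theorem t_K3 (hNRJ : S_NRJ) (hNRM : S_NRM1) (hIDX : S_IDX1) (hTRV : S_TRV1) (hCLG : S_CLG1)
    (hNPW : S_NPW1) (hKOL : S_KOL3) (hFIX : S_FIX1) : S_K3 := by
  intro p _ F _ _ _ k F₁ L D M _ _ _ _ _ _ _ _ _ _ _ _ _ _ _ _ _ _ _ _ _ _ _ _ _ hab hpk hp1 S
    ζ hζ h2 hpS hS hram c Gs hc0 hSU hKol g'' g' g g₁ hg' hfix hgg'' hgg' hg₁ hgen hchi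
  obtain ⟨N, hN1, hN2, hN3⟩ := hNRJ k L M
  have hN : IsN k L M N := ⟨hN1, fun w v h hcard => (hN2 w v h).2 hcard, hN3⟩
  have habD : ∀ σ τ : D ≃ₐ[k] D, σ * τ = τ * σ := by
    intro σ τ
    obtain ⟨σ', rfl⟩ := AlgEquiv.restrictNormalHom_surjective (F := k) (K₁ := D) (E := M) σ
    obtain ⟨τ', rfl⟩ := AlgEquiv.restrictNormalHom_surjective (F := k) (K₁ := D) (E := M) τ
    rw [← map_mul, hab, map_mul]
  have hfixD := (hFIX k D M S).1 g'' g' hgg'' hfix
  have hramD := (hFIX k D M S).2 hram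
  obtain ⟨u, hu, hrel⟩ := hKOL p k L D M habD S ζ hζ h2 hpS hS hramD c Gs hc0 hSU hKol g' hg' hfixD
    g hgg'
  have hfixL := (hFIX k L D S).1 g' g hgg' hfixD
  have hramL := (hFIX k L D S).2 hramD
  have hn0 : Algebra.norm L c ≠ 0 := Algebra.norm_ne_zero_iff.2 hc0
  have habL : ∀ σ τ : L ≃ₐ[k] L, σ * τ = τ * σ := by
    intro σ τ
    obtain ⟨σ', rfl⟩ := AlgEquiv.restrictNormalHom_surjective (F := k) (K₁ := L) (E := M) σ
    obtain ⟨τ', rfl⟩ := AlgEquiv.restrictNormalHom_surjective (F := k) (K₁ := L) (E := M) τ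
    rw [← map_mul, hab, map_mul]
  refine hCLG p k F₁ L g g₁ hg₁ hgen hp1 (hTRV p F k L habL hpk g ?_)
  intro χ f hf hχg x
  obtain ⟨⟨h, hh⟩, θ, hθ⟩ := hchi χ hχg
  obtain ⟨θ', hθ'⟩ := hNPW p F k L M χ g hχg (Algebra.norm L c) u hn0 hu θ hθ
  exact hIDX F k L M S hS χ f hf N hN (hNRM p F k L M S ζ hζ h2 hpS hS hramL g hfixL χ θ' u hχg hrel
    hθ' f hf N hN) h hh x

end Pool.Agent.TWK


end

section

/-!
# TWK, module K4: the assembly of block K for subfields of `ℂ`, with an intermediate field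
-/

set_option autoImplicit false

open NumberField IsDedekindDomain Finset
open scoped nonZeroDivisors Pointwise

namespace Pool.Agent.TWK

open Pool.Agent.MU3 Pool.Agent.RI Pool.Agent.RID Pool.Agent.MUXK

namespace K4x

theorem classNo_eq (E : IntermediateField ℚ ℂ) [FiniteDimensional ℚ E] :
    classNo E = NumberField.classNumber E := by
  unfold classNo NumberField.classNumber
  rw [Nat.card_eq_fintype_card]

end K4x

theorem t_K4 (hK3 : S_K3) (hPWL : S_PWL1) (hSUB : S_SUBC) (hGAL : S_GALC) (hRAM : S_RAMC)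
    (hLFT : S_LFT2) (hDEG : S_DEG2) (hNRM : S_NRM2) (hDSC : S_DSC2) : S_K4 := by
  intro p l _ _ hpl F _ _ _ k K K'' K' B _ _ _ _ _ _ _ hD
  have hB := hD.set
  obtain ⟨S', h2', hp', hS', hram'⟩ := hRAM p l k K' B hB.bas
  refine ⟨S', h2', hp', hS', ?_⟩
  intro S hSS hS
  obtain ⟨n₀, hn₀⟩ := hLFT l k K K' B hB.bas hB.hk hB.le S hS (Module.finrank ℚ K')
  refine ⟨n₀, ?_⟩
  intro n hn h h''
  let i1 : Algebra k ↥(K ⊔ B (n + 1)) := algC h
  let j2 : Algebra k ↥(K'' ⊔ B (n + 1)) := algC h''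
  intro c c₀ hc0 hSU hKol hcc hchi L hkL hLN
  have hLD : K ⊔ B (n + 1) ≤ K'' ⊔ B (n + 1) := sup_le_sup_right hD.le1 _
  have hDM : K'' ⊔ B (n + 1) ≤ K' ⊔ B (n + 1) := sup_le_sup_right hD.le2 _
  have hh : K ⊔ B (n + 1) ≤ K' ⊔ B (n + 1) := hLD.trans hDM
  have h' : k ≤ K' ⊔ B (n + 1) := h.trans hh
  let i2 : Algebra k ↥(K' ⊔ B (n + 1)) := algC h'
  have hF : K ⊔ B n ≤ K ⊔ B (n + 1) := sup_le_sup_left (hB.bas.mono (Nat.le_succ n)) K
  have hkF : k ≤ K ⊔ B n := hB.hk.trans le_sup_left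
  obtain ⟨g'', g, g₁, hg1, hg2, hg3, hg4, hg5, hg6⟩ := hn₀ n hn h h' hh hF
  let i3 : Algebra ↥(K ⊔ B (n + 1)) ↥(K' ⊔ B (n + 1)) := algC hh
  let i4 : Algebra ↥(K ⊔ B n) ↥(K ⊔ B (n + 1)) := algC hF
  let j3 : Algebra ↥(K ⊔ B (n + 1)) ↥(K'' ⊔ B (n + 1)) := algC hLD
  let j4 : Algebra ↥(K'' ⊔ B (n + 1)) ↥(K' ⊔ B (n + 1)) := algC hDM
  have t1 : IsScalarTower k ↥(K ⊔ B (n + 1)) ↥(K' ⊔ B (n + 1)) := towerC h hh
  have t3 : IsScalarTower k ↥(K ⊔ B (n + 1)) ↥(K'' ⊔ B (n + 1)) := towerC h hLD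
  have t4 : IsScalarTower k ↥(K'' ⊔ B (n + 1)) ↥(K' ⊔ B (n + 1)) := towerC h'' hDM
  have t5 : IsScalarTower ↥(K ⊔ B (n + 1)) ↥(K'' ⊔ B (n + 1)) ↥(K' ⊔ B (n + 1)) := towerC hLD hDM
  have hbK : BasC l k K B := hSUB l k K K' B hB.bas hB.hk hB.le
  have hbK'' : BasC l k K'' B := hSUB l k K'' K' B hB.bas (hB.hk.trans hD.le1) hD.le2
  obtain ⟨gal1, ab1⟩ := hGAL l k K B hbK (n + 1) h
  obtain ⟨gal2, ab2⟩ := hGAL l k K' B hB.bas (n + 1) h'
  obtain ⟨gal5, ab5⟩ := hGAL l k K'' B hbK'' (n + 1) h''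
  obtain ⟨d1, d2, d3⟩ := hDEG p l hpl k K K' B hB.bas.lay hB.bas.mono hB.hk hB.le hB.cop
  let i5 : Algebra k ↥(K ⊔ B n) := algC hkF
  have t2 : IsScalarTower k ↥(K ⊔ B n) ↥(K ⊔ B (n + 1)) := towerC hkF hF
  have gal3 : IsGalois ↥(K ⊔ B n) ↥(K ⊔ B (n + 1)) :=
    IsGalois.tower_top_of_isGalois k ↥(K ⊔ B n) ↥(K ⊔ B (n + 1))
  have gal4 : IsGalois ↥(K ⊔ B (n + 1)) ↥(K' ⊔ B (n + 1)) :=
    IsGalois.tower_top_of_isGalois k ↥(K ⊔ B (n + 1)) ↥(K' ⊔ B (n + 1))
  have gal6 : IsGalois ↥(K ⊔ B (n + 1)) ↥(K'' ⊔ B (n + 1)) :=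
    IsGalois.tower_top_of_isGalois k ↥(K ⊔ B (n + 1)) ↥(K'' ⊔ B (n + 1))
  have hdp1 : ¬ p ∣ Module.finrank k ↥(K ⊔ B (n + 1)) := d2 (n + 1) h
  -- the roots of unity
  obtain ⟨z, hzK, hz⟩ := hB.ze
  have hzM : z ∈ K' ⊔ B (n + 1) := (le_sup_left : K' ≤ K' ⊔ B (n + 1)) hzK
  have hpp : p.Prime := Fact.out
  have hzM' : IsPrimitiveRoot (⟨z, hzM⟩ : ↥(K' ⊔ B (n + 1))) (2 * p) := by
    refine IsPrimitiveRoot.of_map_of_injective
      (f := (algebraMap ↥(K' ⊔ B (n + 1)) ℂ)) (k := 2 * p) ?_ (algebraMap ↥(K' ⊔ B (n + 1)) ℂ).injective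
    exact hz
  have h2p : 0 < 2 * p := Nat.mul_pos two_pos hpp.pos
  have hne : NeZero (2 * p) := ⟨h2p.ne'⟩
  let ζ : 𝓞 ↥(K' ⊔ B (n + 1)) := hzM'.toInteger
  have hζ : IsPrimitiveRoot ζ (2 * p) := hzM'.toInteger_isPrimitiveRoot
  have hω : IsPrimitiveRoot ((⟨z, hzM⟩ : ↥(K' ⊔ B (n + 1))) ^ 2) p :=
    hzM'.pow h2p rfl
  have habML : ∀ σ τ : ↥(K' ⊔ B (n + 1)) ≃ₐ[↥(K ⊔ B (n + 1))] ↥(K' ⊔ B (n + 1)),
      σ * τ = τ * σ := by
    intro σ τ
    apply AlgEquiv.restrictScalars_injective k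
    exact ab2 (σ.restrictScalars k) (τ.restrictScalars k)
  have hnorm : Algebra.norm ↥(K ⊔ B (n + 1)) c = c₀ := by
    apply Subtype.ext
    rw [hcc]
    exact hNRM k (K ⊔ B (n + 1)) (K'' ⊔ B (n + 1)) h h'' hLD gal6 c
  -- the automorphism of `D`
  let g' : ↥(K'' ⊔ B (n + 1)) ≃ₐ[k] ↥(K'' ⊔ B (n + 1)) :=
    AlgEquiv.restrictNormalHom ↥(K'' ⊔ B (n + 1)) g''
  have hg' : ∀ x : ↥(K'' ⊔ B (n + 1)), algebraMap ↥(K'' ⊔ B (n + 1)) ↥(K' ⊔ B (n + 1)) (g' x) =
      g'' (algebraMap ↥(K'' ⊔ B (n + 1)) ↥(K' ⊔ B (n + 1)) x) := fun x =>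
    AlgEquiv.restrictNormal_commutes g'' ↥(K'' ⊔ B (n + 1)) x
  have hg'' : g' ∈ {g : ↥(K'' ⊔ B (n + 1)) ≃ₐ[k] ↥(K'' ⊔ B (n + 1)) |
      ∀ x : ↥(K'' ⊔ B (n + 1)), (x : ℂ) ∈ K'' → g x = x} := by
    intro x hx
    apply (algebraMap ↥(K'' ⊔ B (n + 1)) ↥(K' ⊔ B (n + 1))).injective
    rw [hg' x]
    exact hg1 _ (hD.le2 hx)
  have hgg' : ∀ x : ↥(K ⊔ B (n + 1)), algebraMap ↥(K ⊔ B (n + 1)) ↥(K'' ⊔ B (n + 1)) (g x) =
      g' (algebraMap ↥(K ⊔ B (n + 1)) ↥(K'' ⊔ B (n + 1)) x) := by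
    intro x
    apply (algebraMap ↥(K'' ⊔ B (n + 1)) ↥(K' ⊔ B (n + 1))).injective
    rw [hg', ← IsScalarTower.algebraMap_apply, ← IsScalarTower.algebraMap_apply]
    exact hg3 x
  refine hDSC p k (K ⊔ B n) (K ⊔ B (n + 1)) hkF hF ⟨gal1, ab1, hdp1⟩ ?_ L hkL hLN
  rw [K4x.classNo_eq, K4x.classNo_eq]
  refine hK3 p F k ↥(K ⊔ B n) ↥(K ⊔ B (n + 1)) ↥(K'' ⊔ B (n + 1)) ↥(K' ⊔ B (n + 1)) ab2 hdp1
    (d3 n hF) S ζ hζ (hSS h2') (hSS hp') hS (hram' S hSS (n + 1) h') c _ hc0 hSU hKol g'' g' g g₁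
    hg'' hg2 hg' hgg' hg4 hg5 ?_
  intro χ hχ
  obtain ⟨s, hs⟩ := hg6 F χ hχ
  refine ⟨⟨s, (d1 (n + 1) hh).trans hs⟩, ?_⟩
  obtain ⟨θ, hθ⟩ := hchi χ ⟨g, fun x hx => by
    have := g₁.commutes (⟨(x : ℂ), hx⟩ : ↥(K ⊔ B n))
    rw [hg4] at this
    exact this, hχ⟩
  refine ⟨θ, ?_⟩
  intro y hy
  rw [hnorm] at hy
  obtain ⟨x, hx⟩ := hPWL p ↥(K ⊔ B (n + 1)) ↥(K' ⊔ B (n + 1)) _ habML hω (by
    rintro ⟨w, hw⟩
    refine hB.om (n + 1) w w.2 ?_
    exact hw.map_of_injective (f := algebraMap ↥(K ⊔ B (n + 1)) ℂ)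
      (algebraMap ↥(K ⊔ B (n + 1)) ℂ).injective) _ y hy
  exact hθ x hx

end Pool.Agent.TWK


end

section

/-!
# TWK, module KNM3: the norm step from `D` to `L`

The proof of `Pool/Agent/MUX/K_KNM.lean` with one more field.
-/

set_option autoImplicit false

open NumberField IsDedekindDomain Finset
open scoped nonZeroDivisors Pointwise

namespace Pool.Agent.TWK

open Pool.Agent.MU3 Pool.Agent.RI Pool.Agent.MUXK

namespace KNM3x

/-- A residue field between two residue fields with `q` elements. -/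
theorem card_mid {L D M : Type} [Field L] [NumberField L] [Field D] [NumberField D] [Field M]
    [NumberField M] [Algebra L D] [Algebra D M] (w' : HeightOneSpectrum (𝓞 M))
    (w : HeightOneSpectrum (𝓞 D)) (v : HeightOneSpectrum (𝓞 L)) {q : ℕ}
    (h1 : w'.asIdeal.under (𝓞 D) = w.asIdeal) (h2 : w.asIdeal.under (𝓞 L) = v.asIdeal)
    (hc : Nat.card (𝓞 M ⧸ w'.asIdeal) = q) (hv : Nat.card (𝓞 L ⧸ v.asIdeal) = q) :
    Nat.card (𝓞 D ⧸ w.asIdeal) = q := by
  have fM : Finite (𝓞 M ⧸ w'.asIdeal) := Ring.HasFiniteQuotients.finiteQuotient w'.ne_bot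
  have fD : Finite (𝓞 D ⧸ w.asIdeal) := Ring.HasFiniteQuotients.finiteQuotient w.ne_bot
  apply le_antisymm
  · rw [← hc]
    refine Nat.card_le_card_of_injective
      (Ideal.quotientMap w'.asIdeal (algebraMap (𝓞 D) (𝓞 M)) (le_of_eq h1.symm)) ?_
    exact Ideal.quotientMap_injective' (le_of_eq h1)
  · rw [← hv]
    refine Nat.card_le_card_of_injective
      (Ideal.quotientMap w.asIdeal (algebraMap (𝓞 L) (𝓞 D)) (le_of_eq h2.symm)) ?_
    exact Ideal.quotientMap_injective' (le_of_eq h2)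

end KNM3x

open K_KNM in
theorem t_KNM3 (h1 : S_NRJ) (h2 : S_STABX) : S_KNM3 := by
  classical
  intro p hpf k L M M' _ _ _ _ _ _ _ _ _ _ _ _ _ _ _ _ _ hab S ζ hζ h2S hpS hS hram u u₀ hu hK
    lam q hgood hAb a ha ha1 b₀ hb₀
  have hp : p.Prime := hpf.out
  obtain ⟨w', hw', hwc'⟩ := hAb
  have hq := hgood.prime
  let w : HeightOneSpectrum (𝓞 M) :=
    ⟨w'.asIdeal.under (𝓞 M), inferInstance, Ideal.under_ne_bot (𝓞 M) w'.ne_bot⟩
  have hw : w.asIdeal.under (𝓞 L) = lam.asIdeal := by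
    rw [← hw']
    exact Ideal.under_under (A := 𝓞 L) (B := 𝓞 M) w'.asIdeal
  have hwc : Nat.card (𝓞 M ⧸ w.asIdeal) = q := KNM3x.card_mid w' w lam rfl hw hwc' hgood.card
  have hgw : GoodPrP p k M S w q := by
    exact h2 p k M M' S ζ hζ h2S hpS hS hram w q hq hgood.notin hwc ⟨w', rfl, hwc'⟩
  have hpq : p ∣ q - 1 := (dvd_mul_left p 2).trans hgw.dvd
  have hex : ∀ h : M ≃ₐ[k] M, ∃ b : ℕ,
      (u : 𝓞 M) ^ ((q - 1) / p) - (a : 𝓞 M) ^ b ∈ h • w.asIdeal := by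
    intro h
    obtain ⟨b, hb⟩ := exists_exp w hp hq hpq hwc a ha ha1
      (Units.map (MulSemiringAction.toRingHom (M ≃ₐ[k] M) (𝓞 M) h⁻¹ : 𝓞 M →* 𝓞 M) u)
    refine ⟨b, ?_⟩
    rw [Ideal.mem_pointwise_smul_iff_inv_smul_mem, smul_sub, smul_pow', smul_pow']
    have h3 : h⁻¹ • ((a : ℤ) : 𝓞 M) = (a : 𝓞 M) :=
      map_intCast (MulSemiringAction.toRingHom (M ≃ₐ[k] M) (𝓞 M) h⁻¹) a
    rw [h3]
    exact hb
  choose b hb using hex
  obtain ⟨κ, I, s, hs, he⟩ := hK w q hgw a ha ha1 b hb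
  obtain ⟨N, hN1, hN2, hN3⟩ := h1 k L M
  set r : (M ≃ₐ[k] M) →* (L ≃ₐ[k] L) := AlgEquiv.restrictNormalHom L with hr
  have hrs : Function.Surjective r := AlgEquiv.restrictNormalHom_surjective M
  have hNw : N (vJ w) = vJ lam :=
    (hN2 w lam hw).2 (by rw [hwc, hgood.card])
  have hNh : ∀ h : M ≃ₐ[k] M, N (h • vJ w) = r h • vJ lam := by
    intro h
    rw [hN3 h (r h) (fun x => AlgEquiv.restrictNormal_commutes h L x) (vJ w), hNw]
  have hNs : N s ∈ SJ S L := by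
    have h3 : SJ S M ≤ (SJ S L).comap N := by
      unfold SJ
      rw [Subgroup.closure_le]
      rintro _ ⟨v', hv', rfl⟩
      rw [SetLike.mem_coe, Subgroup.mem_comap]
      set v : HeightOneSpectrum (𝓞 L) :=
        ⟨v'.asIdeal.under (𝓞 L), inferInstance, Ideal.under_ne_bot (𝓞 L) v'.ne_bot⟩ with hv
      obtain ⟨f, hf⟩ := (hN2 v' v rfl).1
      rw [hf]
      apply Subgroup.pow_mem
      apply Subgroup.subset_closure
      refine ⟨v, ?_, rfl⟩
      obtain ⟨ℓ, hℓ, hm⟩ := hv'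
      refine ⟨ℓ, hℓ, ?_⟩
      change algebraMap (𝓞 L) (𝓞 M) (ℓ : 𝓞 L) ∈ v'.asIdeal
      rw [map_natCast]
      exact hm
    exact h3 hs
  set B : (L ≃ₐ[k] L) → ℕ := fun h₀ => ∑ g ∈ univ.filter (fun g : M ≃ₐ[k] M => r g = h₀), b g
    with hB
  have hBc : ∀ h₀ : L ≃ₐ[k] L, b₀ h₀ ≡ B h₀ [MOD p] := by
    intro h₀
    obtain ⟨h, rfl⟩ := hrs h₀
    have h3 := cong w lam hw ((q - 1) / p) a b u u₀ hu hb h
    have h4 := hb₀ (r h)
    have h5 := (r h • lam.asIdeal).sub_mem h3 h4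
    have h6 : (a : 𝓞 L) ^ b₀ (r h) - (a : 𝓞 L) ^ B (r h) ∈ r h • lam.asIdeal := by
      convert h5 using 1
      simp only [hB, hr]
      ring
    rw [Ideal.mem_pointwise_smul_iff_inv_smul_mem, smul_sub, smul_pow', smul_pow'] at h6
    have h7 : (r h)⁻¹ • ((a : ℤ) : 𝓞 L) = (a : 𝓞 L) :=
      map_intCast (MulSemiringAction.toRingHom (L ≃ₐ[k] L) (𝓞 L) (r h)⁻¹) a
    rw [h7] at h6
    exact modEq lam hp hq hgood.card a ha ha1 _ _ h6
  have hBd : ∀ h₀ : L ≃ₐ[k] L, ∃ c : ℤ, (b₀ h₀ : ℤ) = B h₀ + p * c := by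
    intro h₀
    obtain ⟨c, hc⟩ := (Nat.modEq_iff_dvd.1 (hBc h₀).symm)
    exact ⟨c, by linarith⟩
  choose c hc using hBd
  have hprod : ∏ h₀ : L ≃ₐ[k] L, (h₀ • vJ lam) ^ B h₀ =
      prin (Units.map (Algebra.norm L : M →* L) κ) * (N I) ^ p * N s := by
    have h3 := congrArg N he
    rw [map_mul, map_mul, map_pow, hN1, map_prod] at h3
    rw [← h3, ← Finset.prod_fiberwise univ (fun h : M ≃ₐ[k] M => r h)]
    refine Finset.prod_congr rfl (fun h₀ _ => ?_)
    rw [hB]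
    simp only
    rw [← Finset.prod_pow_eq_pow_sum]
    refine Finset.prod_congr rfl (fun g hg => ?_)
    rw [map_pow, hNh, (mem_filter.1 hg).2]
  refine ⟨Units.map (Algebra.norm L : M →* L) κ,
    N I * ∏ h₀ : L ≃ₐ[k] L, (h₀ • vJ lam) ^ c h₀, N s, hNs, ?_⟩
  have h3 : ∏ h₀ : L ≃ₐ[k] L, (h₀ • vJ lam) ^ b₀ h₀ =
      (∏ h₀ : L ≃ₐ[k] L, (h₀ • vJ lam) ^ B h₀) *
        (∏ h₀ : L ≃ₐ[k] L, (h₀ • vJ lam) ^ c h₀) ^ p := by
    rw [← Finset.prod_pow, ← Finset.prod_mul_distrib]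
    refine Finset.prod_congr rfl (fun h₀ _ => ?_)
    rw [← zpow_natCast, hc h₀, zpow_add, zpow_natCast, mul_comm (p : ℤ) (c h₀), zpow_mul,
      zpow_natCast]
  rw [h3, hprod, mul_pow]
  exact mul_right_comm _ _ _ |>.trans (by rw [mul_assoc (prin _) (N I ^ p) _])

end Pool.Agent.TWK


end

section

/-!
# TWK, module KOL3: the relations for the norm of `g' ^ p c / c`, `c ∈ D`
-/

set_option autoImplicit false

open NumberField IsDedekindDomain Finset
open scoped nonZeroDivisors Pointwise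

namespace Pool.Agent.TWK

open Pool.Agent.MU3 Pool.Agent.RI Pool.Agent.MUXK

theorem t_KOL3 (h1 : S_KINX) (h2 : S_KNM3) : S_KOL3 := by
  intro p _ k L D M _ _ _ _ _ _ _ _ _ _ _ _ _ _ _ galL galD comm S ζ hζ h2S hpS hSp hram c Gs hc
    hSU hK g' hg' hfix g hgg
  obtain ⟨u', hu'⟩ := t_UNI k D S c hc hSU g' hfix p
  have hrel := h1 p k D comm S hpS c hc hSU Gs hK g' hg' hfix u' hu'
  have galLD : IsGalois L D := IsGalois.tower_top_of_isGalois k L D
  have fdLD : FiniteDimensional L D := inferInstance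
  have hc0 : Algebra.norm L c ≠ 0 := Algebra.norm_ne_zero_iff.2 hc
  have hn : (((Units.map (RingOfIntegers.norm L) u' : (𝓞 L)ˣ) : 𝓞 L) : L) =
      Algebra.norm L ((u' : 𝓞 D) : D) := by
    rw [Units.coe_map]
    exact RingOfIntegers.coe_norm (K := L) (L := D) _
  refine ⟨Units.map (RingOfIntegers.norm L) u', ?_, ?_⟩
  · rw [hn, eq_div_iff hc0, ← KOL1x.norm_comp_pow comm g g' hgg, ← map_mul, hu',
      div_mul_cancel₀ _ hc]
  · exact h2 p k L D M comm S ζ hζ h2S hpS hSp hram u' _ hn hrel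

end Pool.Agent.TWK


end

section

/-!
# TWK, module K5: block K in the vocabulary of the elliptic units
-/

set_option autoImplicit false

open NumberField IsDedekindDomain Finset
open scoped nonZeroDivisors Pointwise

namespace Pool.Agent.TWK

open _root_.MU3 Pool.Agent.MU3 Pool.Agent.MU3A Pool.Agent.MU3B Pool.Agent.RI Pool.Agent.RID
  Pool.Agent.MUX Pool.Agent.MUXK Pool.Agent.MUXW
open Pool.Agent.MU3V (Sub GD)

namespace K5x

theorem nm_nat {A B : ℤ} (m : ℕ) : nm ((m : ℕ) : OO A B) = (m : ℤ) ^ 2 := by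
  simp [nm]

theorem natO_ne {A B : ℤ} {N : ℕ} (hN : N ≠ 0) : ((N : ℕ) : OO A B) ≠ 0 := by
  intro h0
  have h1 := congrArg QuadraticAlgebra.re h0
  rw [QuadraticAlgebra.re_natCast, QuadraticAlgebra.re_zero] at h1
  exact hN (by exact_mod_cast h1)

theorem idl_ne {A B : ℤ} {N : ℕ} (hN : N ≠ 0) : idl (A := A) (B := B) N ≠ ⊥ := by
  intro h0
  rw [Ideal.span_singleton_eq_bot] at h0
  exact natO_ne hN h0

end K5x

open _root_.Pool.Agent.TWK.K5x in
theorem t_K5 (hK4 : S_K4) (hMEM : Sy_MEM) (hTOW : Sy_TOW) (hSUC : Sy_SUC) (hKOL : Sy_KOL) :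
    S_K5 := by
  intro p l _ _ hpl F _ _ _ A B hc T N₀ ι _ R K K'' K' Bn _ _ _ _ _ _ _ hD hHK a H ha hhalf S₀
  have hnl : IsNL (⊤ : Ideal (OO A B)) (R.L R.i0) (R.om R.i0) := by
    have h1 := R.nl R.i0
    rw [R.b0] at h1
    exact h1
  obtain ⟨S', h2', hp', hS', hmain⟩ := hK4 p l hpl F (kk A B) K K'' K' Bn hD
  obtain ⟨n0, hn0, hSUC'⟩ := hSUC A B hc T (R.L R.i0) (R.om R.i0) hnl
  obtain ⟨n1, hn1, hKOL'⟩ := hKOL A B hc T N₀ ι R
  have haZ : (a : ℤ) ≠ 0 := by exact_mod_cast ha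
  set S : Finset ℕ := S' ∪ S₀.filter Nat.Prime ∪ n0.primeFactors ∪ n1.primeFactors ∪
    a.primeFactors with hSdef
  have hSprime : ∀ q ∈ S, q.Prime := by
    intro q hq
    rw [hSdef] at hq
    simp only [Finset.mem_union, Finset.mem_filter] at hq
    rcases hq with (((h | h) | h) | h) | h
    · exact hS' q h
    · exact h.2
    all_goals exact Nat.prime_of_mem_primeFactors h
  have hSS : S' ⊆ S := by
    intro q hq
    rw [hSdef]
    simp only [Finset.mem_union]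
    exact Or.inl (Or.inl (Or.inl (Or.inl hq)))
  have hS0 : ∀ q : ℕ, q.Prime → q ∣ n0 → q ∈ S := by
    intro q hq hd
    rw [hSdef]
    simp only [Finset.mem_union]
    exact Or.inl (Or.inl (Or.inr (Nat.mem_primeFactors.2 ⟨hq, hd, hn0⟩)))
  have hS1 : ∀ q : ℕ, q.Prime → q ∣ n1 → q ∈ S := by
    intro q hq hd
    rw [hSdef]
    simp only [Finset.mem_union]
    exact Or.inl (Or.inr (Nat.mem_primeFactors.2 ⟨hq, hd, hn1⟩))
  have hSa : ∀ q : ℕ, q.Prime → (q : ℤ) ∣ (a : ℤ) → q ∈ S := by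
    intro q hq hd
    have h1 : q ∣ a := by exact_mod_cast hd
    rw [hSdef]
    simp only [Finset.mem_union]
    exact Or.inr (Nat.mem_primeFactors.2 ⟨hq, h1, ha⟩)
  obtain ⟨n₀, hn₀⟩ := hmain S hSS hSprime
  refine ⟨n₀, ?_⟩
  intro n hn m hm hm2 ham hmS hsub θ hθ0 hθ h
  let i1 : Algebra (kk A B) ↥(K ⊔ Bn (n + 1)) := algC h
  intro c₀ hc₀ hchi
  have hSm : ∀ q : ℕ, q.Prime → (q : ℤ) ∣ nm ((m : ℕ) : OO A B) → q ∈ S := by
    intro q hq hd
    rw [nm_nat] at hd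
    have h1 : (q : ℤ) ∣ (m : ℤ) := (Nat.prime_iff_prime_int.1 hq).dvd_of_dvd_pow hd
    have h2 : q ∣ m := by exact_mod_cast h1
    rw [hSdef]
    simp only [Finset.mem_union, Finset.mem_filter]
    exact Or.inl (Or.inl (Or.inl (Or.inr ⟨hmS q hq h2, hq⟩)))
  have hcopO : IsCoprime ((a : ℤ) : OO A B) ((m : ℕ) : OO A B) := by
    obtain ⟨u, v, huv⟩ : IsCoprime ((a : ℕ) : ℤ) ((m : ℕ) : ℤ) := Nat.isCoprime_iff_coprime.2 ham
    refine ⟨((u : ℤ) : OO A B), ((v : ℤ) : OO A B), ?_⟩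
    have := congrArg (fun k : ℤ => ((k : ℤ) : OO A B)) huv
    simpa using this
  have hmu : ¬ IsUnit ((m : ℕ) : OO A B) := fun hu => hm2 (hu.dvd)
  have hhalf' : IsHalf (R.L R.i0) ((a : ℤ) : ℂ) H := by
    rw [Int.cast_natCast]
    exact hhalf
  have h' : kk A B ≤ K'' ⊔ Bn (n + 1) := h.trans (sup_le_sup_right hD.le1 _)
  let i2 : Algebra (kk A B) ↥(K'' ⊔ Bn (n + 1)) := algC h'
  have hle : K ⊔ Bn (n + 1) ≤ K'' ⊔ Bn (n + 1) := sup_le_sup_right hD.le1 _
  have fin := T.fin _ (idl_ne (A := A) (B := B) hm)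
  have gal := T.gal _ (idl_ne (A := A) (B := B) hm)
  have com := T.comm _ (idl_ne (A := A) (B := B) hm)
  have hM := hMEM A B (RF (idl (A := A) (B := B) m)) fin gal com (K'' ⊔ Bn (n + 1)) h' hsub θ hθ0
  have hmem : cW h' θ ∈ K'' ⊔ Bn (n + 1) := by
    rw [hM.1]
    exact (hM.2.1 _).1
  have hne : cW h' θ ≠ 0 := by
    rw [hM.1]
    exact (hM.2.1 _).2
  have hHas : HasH A B (K'' ⊔ Bn (n + 1)) := fun x hx =>
    (le_sup_left : K'' ≤ K'' ⊔ Bn (n + 1)) (hHK x hx)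
  refine hn₀ n hn h h' ⟨cW h' θ, hmem⟩ c₀ ?_ ?_ ?_ ?_ hchi
  · intro h0
    exact hne (congrArg Subtype.val h0)
  · exact hSUC' _ (natO_ne hm) hmu (a : ℤ) H haZ hcopO hhalf' S hS0 hSa hSm θ hθ
      (K'' ⊔ Bn (n + 1)) h' hsub _ rfl
  · have h1 := hKOL' p Fact.out _ (natO_ne hm) hm2 (a : ℤ) H haZ hcopO hhalf' S hS1 hSa hSm θ hθ
      (K'' ⊔ Bn (n + 1)) h' hHas hsub ⟨cW h' θ, hmem⟩ rfl
    refine KolInP.mono ?_ h1
    intro g hg x hx
    exact hg x (hHK _ hx)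
  · rw [hc₀]
    exact hTOW A B (RF (idl (A := A) (B := B) m)) fin gal com (K ⊔ Bn (n + 1)) (K'' ⊔ Bn (n + 1))
      h h' hle hsub θ hθ0 hmem

end Pool.Agent.TWK


end

section

/-!
# TWK: block K of Theorem C, assembled (helper96)

`k_K4 : S_K4` (`StK3.lean`) without hypotheses; `S_K5` (`StK5.lean`) from the statements of block W of MUX.
-/

namespace Pool.Agent.TWK

open Pool.Agent.MU3 Pool.Agent.MUXK Pool.Agent.MUXW

theorem k_REL1 : S_REL1 := t_REL1 k_LGX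
theorem k_NRM1 : S_NRM1 := t_NRM1 k_REL1 k_STABX k_THDX
theorem k_IDX1 : S_IDX1 := t_IDX1 k_NIX
theorem k_TRV1 : S_TRV1 := t_TRV1 k_EIGX
theorem k_KNM3 : S_KNM3 := t_KNM3 k_NRJ k_STABX
theorem k_KOL3 : S_KOL3 := t_KOL3 k_KINX k_KNM3
theorem k_K3 : S_K3 := t_K3 k_NRJ k_NRM1 k_IDX1 k_TRV1 t_CLG1 t_NPW1 k_KOL3 t_FIX1
theorem k_PRM2 : S_PRM2 := t_PRM2 kPRB
theorem k_LFT2 : S_LFT2 := t_LFT2 t_SUBC t_GALC t_CYC2 k_PRM2
theorem k_K4 : S_K4 := t_K4 k_K3 t_PWL1 t_SUBC t_GALC t_RAMC k_LFT2 t_DEG2 t_NRM2 t_DSC2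

theorem k_K5 (h1 : Sy_MEM) (h2 : Sy_TOW) (h3 : Sy_SUC) (h4 : Sy_KOL) : S_K5 :=
  t_K5 k_K4 h1 h2 h3 h4

end Pool.Agent.TWK


end

section

/-!
# TWK, module FIN1: block K combined with the unit theorem
-/

set_option autoImplicit false

open NumberField IsDedekindDomain

namespace Pool.Agent.TWK

open _root_.MU3 Pool.Agent.MU3 Pool.Agent.MU3A Pool.Agent.MU3B Pool.Agent.RI Pool.Agent.RID
  Pool.Agent.MUX Pool.Agent.MUXK Pool.Agent.MUXW Pool.Agent.MUXJ Pool.Agent.MUXZ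
open Pool.Agent.MU3V (Sub GD)

namespace FIN1x

/-- the residue field of a valuation ring of an algebraically closed field is algebraically
closed -/
theorem isAlgClosed_residueField {K : Type*} [Field K] [IsAlgClosed K] (V : ValuationSubring K) :
    IsAlgClosed (IsLocalRing.ResidueField V) := by
  apply IsAlgClosed.of_exists_root
  intro p hp hirr
  have h1 : p ∈ Polynomial.lifts (IsLocalRing.residue V) := by
    rw [Polynomial.mem_lifts]
    exact Polynomial.map_surjective _ IsLocalRing.residue_surjective p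
  obtain ⟨P, hP, hdeg, hPm⟩ := Polynomial.lifts_and_natDegree_eq_and_monic h1 hp
  have h2 : P.degree ≠ 0 := by
    intro h3
    have h4 : P.natDegree = 0 := Polynomial.natDegree_eq_of_degree_eq_some h3
    rw [hdeg] at h4
    have h5 := hirr.natDegree_pos
    omega
  obtain ⟨z, hz⟩ := IsAlgClosed.exists_aeval_eq_zero K P h2
  have hint : IsIntegral V z := ⟨P, hPm, hz⟩
  obtain ⟨y, hy⟩ := (IsIntegrallyClosed.isIntegral_iff (R := V) (K := K)).1 hint
  have h6 : P.eval y = 0 := by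
    rw [← hy, Polynomial.aeval_algebraMap_apply] at hz
    have h7 := (FaithfulSMul.algebraMap_injective V K) (hz.trans (map_zero _).symm)
    simpa using h7
  refine ⟨IsLocalRing.residue V y, ?_⟩
  rw [← hP, Polynomial.eval_map, Polynomial.eval₂_at_apply, h6, map_zero]

theorem charP_residueField (V : ValuationSubring ℂ) {p : ℕ} (hp : p.Prime)
    (hv : V.valuation (p : ℂ) < 1) : CharP (IsLocalRing.ResidueField V) p := by
  rw [CharP.charP_iff_prime_eq_zero hp]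
  have h3 : (p : ℂ) ∈ V.nonunits := by
    rw [ValuationSubring.mem_nonunits_iff]
    exact hv
  obtain ⟨h4, h5⟩ := ValuationSubring.mem_nonunits_iff_exists_mem_maximalIdeal.1 h3
  have h6 : ((p : ℕ) : IsLocalRing.ResidueField V) = IsLocalRing.residue V ⟨p, h4⟩ := by
    have h7 : (⟨p, h4⟩ : V) = ((p : ℕ) : V) := by
      apply Subtype.ext
      push_cast
      rfl
    rw [h7, map_natCast]
  rw [h6]
  exact (IsLocalRing.residue_eq_zero_iff _).2 h5

theorem natO_ne {A B : ℤ} {N : ℕ} (hN : N ≠ 0) : ((N : ℕ) : OO A B) ≠ 0 := by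
  intro h0
  have h1 := congrArg QuadraticAlgebra.re h0
  rw [QuadraticAlgebra.re_natCast, QuadraticAlgebra.re_zero] at h1
  exact hN (by exact_mod_cast h1)

theorem idl_ne {A B : ℤ} {N : ℕ} (hN : N ≠ 0) : idl (A := A) (B := B) N ≠ ⊥ := by
  intro h0
  rw [Ideal.span_singleton_eq_bot] at h0
  exact natO_ne hN h0

theorem idl_le {A B : ℤ} {n m : ℕ} (h : m ∣ n) : (idl n : Ideal (OO A B)) ≤ idl m := by
  rw [Ideal.span_singleton_le_span_singleton]
  obtain ⟨c, rfl⟩ := h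
  exact ⟨(c : OO A B), by push_cast; ring⟩

theorem not_dvd_two {A B : ℤ} {m : ℕ} (hm : 5 ≤ m) : ¬ ((m : ℕ) : OO A B) ∣ 2 := by
  rintro ⟨c, hc⟩
  have h1 := congrArg QuadraticAlgebra.re hc
  rw [QuadraticAlgebra.re_mul, QuadraticAlgebra.re_natCast, QuadraticAlgebra.im_natCast] at h1
  have h2 : ((2 : OO A B)).re = 2 := by
    have : (2 : OO A B) = ((2 : ℕ) : OO A B) := by norm_num
    rw [this, QuadraticAlgebra.re_natCast]
    norm_num
  rw [h2] at h1
  have h3 : (m : ℤ) ∣ 2 := ⟨c.re, by rw [h1]; ring⟩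
  have h4 := Int.le_of_dvd (by norm_num) h3
  omega

end FIN1x

open _root_.Pool.Agent.TWK.FIN1x in
theorem t_FIN1 (hSETD : S_SETD) (hK5 : S_K5) (hMEM : Sy_MEM) (hTHN : Sz_THN) : S_FIN1 := by
  intro p l hp hl h f h5 hpf hf0 h2f hlf A B hc T V hV N₀ ι _ R K _ _ hk hcop hKf Bn _ hlay hmono
    hsub
  have hpp : p.Prime := hp.out
  have hlp : l.Prime := hl.out
  have hpl : p ≠ l := by
    rintro rfl
    exact hpf hlf
  have hNL : NLex A B := ⟨_, _, _, R.nl R.i0⟩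
  obtain ⟨K'', K', hfd1, hfd2, hD, hHas, hsub''⟩ := hSETD p l h f h5 hpf hf0 h2f hlf A B hc T hNL K
    hk hcop hKf Bn hlay hmono
    hsub
  have hfB : ∀ n, FiniteDimensional ℚ (Bn n) := fun n => (LAY_thm l n (Bn n) (hlay n)).1
  have hfd1' : ∀ n, FiniteDimensional ℚ ↥(K'' ⊔ Bn n) := fun n => by
    have := hfB n
    exact IntermediateField.finiteDimensional_sup K'' (Bn n)
  have hfd2' : ∀ n, FiniteDimensional ℚ ↥(K' ⊔ Bn n) := fun n => by
    have := hfB n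
    exact IntermediateField.finiteDimensional_sup K' (Bn n)
  have hAC : IsAlgClosed (IsLocalRing.ResidueField V) := isAlgClosed_residueField V
  have hCP : CharP (IsLocalRing.ResidueField V) p := charP_residueField V hpp hV
  set a : ℕ := 6 * f * p + 1 with hadef
  have ha1 : 1 < a := by
    have : 0 < 6 * f * p := Nat.mul_pos (Nat.mul_pos (by norm_num) (Nat.pos_of_ne_zero hf0)) hpp.pos
    omega
  have hacop : a.Coprime (6 * f * p) := by
    rw [hadef, Nat.coprime_comm]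
    exact Nat.coprime_self_add_right.2 (Nat.coprime_one_right _)
  have haodd : Odd a := by
    rw [hadef]
    refine Even.add_one ?_
    exact ((by decide : Even 6).mul_right f).mul_right p
  obtain ⟨H, hH, hθ⟩ := hTHN A B hc T N₀ ι R a haodd
  refine ⟨a, H R.i0, ha1, hacop, hH R.i0, ?_⟩
  obtain ⟨n₀, hn₀⟩ := hK5 p l hpl (IsLocalRing.ResidueField V) A B hc T N₀ ι R K K'' K' Bn hD hHas
    a (H R.i0) (by omega) (hH R.i0) (f * p * l).primeFactors
  refine ⟨n₀, ?_⟩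
  have step : ∀ n, n₀ ≤ n → UnitAt p l h f V R (H R.i0) K Bn n →
      ∀ L : IntermediateField ℚ ℂ, kk A B ≤ L → L ≤ K ⊔ Bn (n + 1) →
        padicValNat p (classNo L) = padicValNat p (classNo (L ⊓ (K ⊔ Bn n))) := by
    intro n hn hU L hkL hL
    set m : ℕ := f * l ^ (n + 1 + h) * p with hm
    have hm0 : m ≠ 0 := mul_ne_zero (mul_ne_zero hf0 (pow_ne_zero _ hlp.ne_zero)) hpp.ne_zero
    have hm5 : 5 ≤ m := by
      refine h5.trans (Nat.le_of_dvd (Nat.pos_of_ne_zero hm0) ?_)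
      exact dvd_mul_left p _
    have hm2 : ¬ ((m : ℕ) : OO A B) ∣ 2 := not_dvd_two hm5
    have hmu : ¬ IsUnit ((m : ℕ) : OO A B) := fun hu => hm2 hu.dvd
    have h6f : f ∣ 6 * f * p := ⟨6 * p, by ring⟩
    have h6p : p ∣ 6 * f * p := dvd_mul_left p _
    have haf : a.Coprime f := hacop.coprime_dvd_right h6f
    have hal : a.Coprime l := haf.coprime_dvd_right hlf
    have hap : a.Coprime p := hacop.coprime_dvd_right h6p
    have ham : a.Coprime m := (haf.mul_right (hal.pow_right _)).mul_right hap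
    obtain ⟨θ, hpt, hom, hne⟩ := hθ m hm0 hmu ham
    have h0 : kk A B ≤ K ⊔ Bn (n + 1) := hk.trans le_sup_left
    let i1 : Algebra (kk A B) ↥(K ⊔ Bn (n + 1)) := algC h0
    have hmle : RF (idl (A := A) (B := B) (f * l ^ (n + 1 + h))) ≤ RF (idl m) :=
      T.mono _ _ (idl_le (dvd_mul_right _ _))
    have hsubm : Sub (K ⊔ Bn (n + 1)) (RF (idl (A := A) (B := B) m)) := fun x hx =>
      hmle (hsub (n + 1) x hx)
    have hsubm'' : Sub (K'' ⊔ Bn (n + 1)) (RF (idl (A := A) (B := B) m)) := fun x hx =>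
      hmle (hsub'' (n + 1) x hx)
    have hM := hMEM A B (RF (idl (A := A) (B := B) m)) (T.fin _ (idl_ne hm0))
      (T.gal _ (idl_ne hm0)) (T.comm _ (idl_ne hm0)) (K ⊔ Bn (n + 1)) h0 hsubm θ hne
    have hmem : cW h0 θ ∈ K ⊔ Bn (n + 1) := by
      rw [hM.1]
      exact (hM.2.1 _).1
    refine hn₀ n hn m hm0 hm2 ham ?_ hsubm'' θ hne hom h0 ⟨cW h0 θ, hmem⟩ rfl
      (hU θ hpt h0 ⟨cW h0 θ, hmem⟩ rfl) L hkL hL
    intro q hq hqm
    refine Nat.mem_primeFactors.2 ⟨hq, ?_, mul_ne_zero (mul_ne_zero hf0 hpp.ne_zero) hlp.ne_zero⟩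
    rcases (Nat.Prime.dvd_mul hq).1 hqm with h1 | h1
    · rcases (Nat.Prime.dvd_mul hq).1 h1 with h2 | h2
      · exact (h2.mul_right p).mul_right l
      · exact (hq.dvd_of_dvd_pow h2).mul_left _
    · exact (h1.mul_left f).mul_right l
  intro n hn b
  induction b with
  | zero =>
    intro _ L hkL hL
    have : L ⊓ (K ⊔ Bn n) = L := inf_eq_left.2 (by simpa using hL)
    rw [this]
  | succ b ih =>
    intro hU L hkL hL
    have h1 := step (n + b) (by omega) (hU b (Nat.lt_succ_self b)) L hkL hL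
    have hkKb : kk A B ≤ L ⊓ (K ⊔ Bn (n + b)) := le_inf hkL (hk.trans le_sup_left)
    have h2 := ih (fun s hs => hU s (Nat.lt_succ_of_lt hs)) (L ⊓ (K ⊔ Bn (n + b))) hkKb inf_le_right
    rw [h1, h2, inf_assoc]
    have h3 : (K ⊔ Bn (n + b)) ⊓ (K ⊔ Bn n) = K ⊔ Bn n :=
      inf_eq_right.2 (sup_le_sup_left (hmono (Nat.le_add_right n b)) K)
    rw [h3]

end Pool.Agent.TWK


end

section

/-!
# TWK, module FIN3: from the unit theorem for all large `n` to the class numbers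
-/

set_option autoImplicit false

open NumberField IsDedekindDomain

namespace Pool.Agent.TWK

open _root_.MU3 Pool.Agent.MU3 Pool.Agent.MU3A Pool.Agent.MU3B Pool.Agent.RI Pool.Agent.RID
  Pool.Agent.MUX Pool.Agent.MUXK Pool.Agent.MUXW Pool.Agent.MUXJ Pool.Agent.TWT Pool.Agent.TWR
open Pool.Agent.MU3V (Sub GD)

/-- FIN3: there is `n₀` such that `v_p h(L) = v_p h(L ∩ K B_n)` for all `n ≥ n₀`, `b` and all fields
`k ≤ L ≤ K B_(n+b)`. -/
def S_FIN3 : Prop :=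
  ∀ (l g h : ℕ), Gen l g h → ∀ (p : ℕ) (A B : ℤ) (P : Ideal (OO A B))
    (V : ValuationSubring ℂ) (f : ℕ), SetG p A B P V f → l ^ h ∣ f → TorX A B →
    ∀ (ι : Type) [Fintype ι] (R : Reps A B (p * f) ι), GRd V R →
    ∀ (K : IntermediateField ℚ ℂ) [FiniteDimensional ℚ K] [FiniteDimensional ℚ (kk A B)]
    (hk : kk A B ≤ K), ¬ p ∣ Module.finrank (kk A B) (IntermediateField.extendScalars hk) →
    Sub K (RF (idl f) : IntermediateField (kk A B) ℂ) →
    ∀ (Bn : ℕ → IntermediateField ℚ ℂ) [∀ n, FiniteDimensional ℚ ↥(K ⊔ Bn n)],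
    (∀ n, IsLayer l n (Bn n)) → Monotone Bn →
    (∀ n, Sub (K ⊔ Bn n) (RF (idl (f * l ^ (n + h))) : IntermediateField (kk A B) ℂ)) →
    ∃ n₀ : ℕ, ∀ n : ℕ, n₀ ≤ n → ∀ b : ℕ,
      ∀ L : IntermediateField ℚ ℂ, kk A B ≤ L → L ≤ K ⊔ Bn (n + b) →
        padicValNat p (classNo L) = padicValNat p (classNo (L ⊓ (K ⊔ Bn n)))

theorem t_FIN3 (hF : S_FIN1) (hU : S_UNITA) : S_FIN3 := by
  intro l g h hgen p A B P V f hS hlf T ι _ R hR K _ _ hk hcop hKf Bn _ hlay hmono hsub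
  have hp : Fact p.Prime := ⟨hS.pp⟩
  have hl : l.Prime := by
    rcases hgen with h1 | h1
    · rw [h1.1]; exact Nat.prime_three
    · rw [h1.1]; exact Nat.prime_two
  have hlF : Fact l.Prime := ⟨hl⟩
  have hh : h ≠ 0 := by
    rcases hgen with h1 | h1 <;> omega
  have hlf' : l ∣ f := (dvd_pow_self l hh).trans hlf
  have h2f : 2 ∣ f := by
    have h1 : (2 : ℤ) ∣ (f : ℤ) := (Dvd.intro _ rfl).trans hS.fD
    exact_mod_cast h1
  have hV : V.valuation (p : ℂ) < 1 := by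
    have h1 : ((p : ℕ) : OO A B) ∈ P := hS.hP.mem
    have h2 := (hS.hV _).2 h1
    rw [ValuationSubring.mem_nonunits_iff] at h2
    have h3 : emb ((p : ℕ) : OO A B) = (p : ℂ) := by
      unfold emb
      simp
    rwa [h3] at h2
  obtain ⟨a, H, ha1, hacop, hH, n₁, hn₁⟩ := hF p l h f hS.p5 hS.fp hS.f0 h2f hlf' A B hS.cq T V hV
    (p * f) ι R K hk hcop hKf Bn hlay hmono hsub
  obtain ⟨n₂, hn₂⟩ := hU l g h hgen p A B P V f hS hlf T ι R hR K hk hKf Bn hlay hmono hsub a ha1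
    hacop H hH
  refine ⟨n₁ + n₂, fun n hn b => ?_⟩
  exact hn₁ n (by omega) b fun s _ => hn₂ (n + s) (by omega)

end Pool.Agent.TWK


end

section

/-!
# TWK, module SETD: the fields `K'' = RF (idl f)`, `K' = RF (idl (f p))`
-/

set_option autoImplicit false

open NumberField IsDedekindDomain

namespace Pool.Agent.TWK

open _root_.MU3 Pool.Agent.MU3 Pool.Agent.MU3A Pool.Agent.MU3B Pool.Agent.RI Pool.Agent.RID
  Pool.Agent.MUX Pool.Agent.MUXK Pool.Agent.MUXW Pool.Agent.MUXJ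
open Pool.Agent.MU3V (Sub GD)

open OMPx in
theorem t_SETD : S_SETD := by
  intro p l hp hl h f h5 hpf hf0 h2f hlf A B hc T hNL K _ hfk hk hcop hKf Bn hlay hmono hsub
  have hpp : p.Prime := hp.out
  have hlp : l.Prime := hl.out
  have hpl : ¬ p ∣ l := by
    intro hd
    rw [Nat.prime_dvd_prime_iff_eq hpp hlp] at hd
    exact hpf (hd ▸ hlf)
  have hfp0 : f * p ≠ 0 := mul_ne_zero hf0 hpp.ne_zero
  set F1 : IntermediateField (kk A B) ℂ := RF (idl (A := A) (B := B) f) with hF1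
  set F2 : IntermediateField (kk A B) ℂ := RF (idl (A := A) (B := B) (f * p)) with hF2
  have hF12 : F1 ≤ F2 := T.mono _ _ (idl_le (dvd_mul_right f p))
  have hfin1 : FiniteDimensional (kk A B) F1 := T.fin _ (idl_ne hf0)
  have hfin2 : FiniteDimensional (kk A B) F2 := T.fin _ (idl_ne hfp0)
  have hfd1 : FiniteDimensional ℚ (F1.restrictScalars ℚ) := by
    have : FiniteDimensional ℚ F1 := FiniteDimensional.trans ℚ (kk A B) F1
    exact this
  have hfd2 : FiniteDimensional ℚ (F2.restrictScalars ℚ) := by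
    have : FiniteDimensional ℚ F2 := FiniteDimensional.trans ℚ (kk A B) F2
    exact this
  have hk2 : kk A B ≤ F2.restrictScalars ℚ := fun x hx => F2.algebraMap_mem ⟨x, hx⟩
  have he2 : IntermediateField.extendScalars hk2 = F2 := SetLike.ext fun x => Iff.rfl
  have h12 : F1.restrictScalars ℚ ≤ F2.restrictScalars ℚ := fun x hx => hF12 hx
  have hK1 : K ≤ F1.restrictScalars ℚ := fun x hx => hKf x hx
  have h2p : 2 * p ∣ f * p := Nat.mul_dvd_mul_right h2f p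
  have h2p0 : 2 * p ≠ 0 := mul_ne_zero two_ne_zero hpp.ne_zero
  obtain ⟨ζ, hζ⟩ : ∃ ζ : ℂ, IsPrimitiveRoot ζ (2 * p) := ⟨_, Complex.isPrimitiveRoot_exp _ h2p0⟩
  have hζm : ζ ∈ F2 := zeta_mem T hNL h2p0 hfp0 h2p hζ.pow_eq_one
  refine ⟨F1.restrictScalars ℚ, F2.restrictScalars ℚ, hfd1, hfd2, ?_, ?_, ?_⟩
  · refine ⟨⟨⟨hk2, ?_, ?_, hlay, hmono⟩, hk, hK1.trans h12, hcop, ⟨ζ, hζm, hζ⟩, ?_⟩, hK1, h12⟩
    · rw [he2]
      exact T.gal _ (idl_ne hfp0)
    · rw [he2]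
      exact T.comm _ (idl_ne hfp0)
    · intro n z hz
      refine t_OMP p hpp h5 A B hc T hNL (f * l ^ (n + h)) (mul_ne_zero hf0
        (pow_ne_zero _ hlp.ne_zero)) ?_ z (hsub n z hz)
      intro hd
      rcases (Nat.Prime.dvd_mul hpp).1 hd with hd | hd
      · exact hpf hd
      · exact hpl (hpp.dvd_of_dvd_pow hd)
  · intro x hx
    exact T.mono ⊤ _ le_top hx
  · intro n
    have hle : F1.restrictScalars ℚ ⊔ Bn n ≤
        (RF (idl (A := A) (B := B) (f * l ^ (n + h)))).restrictScalars ℚ := by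
      refine sup_le (fun x hx => ?_) (fun x hx => ?_)
      · exact T.mono _ _ (idl_le (dvd_mul_right f (l ^ (n + h)))) hx
      · exact hsub n x ((le_sup_right : Bn n ≤ K ⊔ Bn n) hx)
    exact fun x hx => hle hx

end Pool.Agent.TWK


end

section

/-!
# TWK: block K of Theorem C up to the class number statement (helper96)

`k_FIN3 : S_FIN3` from the statements of block W of MUX, `Sz_THN` and the unit theorem `S_UNITA`.
-/

namespace Pool.Agent.TWK

open Pool.Agent.MU3 Pool.Agent.MUXK Pool.Agent.MUXW Pool.Agent.MUXJ Pool.Agent.MUX Pool.Agent.TWT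
  Pool.Agent.MUXZ

theorem k_FIN1 (h1 : Sy_MEM) (h2 : Sy_TOW) (h3 : Sy_SUC) (h4 : Sy_KOL) (h5 : Sz_THN) : S_FIN1 :=
  t_FIN1 t_SETD (k_K5 h1 h2 h3 h4) h1 h5

theorem k_FIN3 (h1 : Sy_MEM) (h2 : Sy_TOW) (h3 : Sy_SUC) (h4 : Sy_KOL) (h5 : Sz_THN)
    (h6 : S_UNITA) : S_FIN3 :=
  t_FIN3 (k_FIN1 h1 h2 h3 h4 h5) h6

end Pool.Agent.TWK


end
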