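import Pool.Agent.MVF.C025
import Pool.Agent.MVF.C033
import Pool.Agent.MVF.C037
import Pool.Agent.MVF.C041
import Pool.Agent.MVF.C068
import Pool.Agent.MVF.C076
import Pool.Agent.MVF.C078
import Pool.Agent.MVF.C091
import Pool.Agent.TWM.C05
import Pool.Agent.TWM.C08
import Pool.Agent.TWM.C09
import Pool.Agent.TWM.C10

/-! Parts: TWF.E0C, TWF.LFT, TWF.LVL, TWF.END1, TWF.FACT, TWF.GRO, TWF.END2, TWF.END3 -/

section

/-!
# TWF: the character of ideals attached to a character of `Gal(K / k)`, `K ≤ RF f`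
-/

set_option autoImplicit false

namespace Pool.Agent.TWF

open _root_.MU3 Pool.Agent.MU3 Pool.Agent.MU3A Pool.Agent.MU3B Pool.Agent.RI Pool.Agent.RID
  Pool.Agent.MUX Pool.Agent.MUXE Pool.Agent.MUXK Pool.Agent.MUXI Pool.Agent.MUXI.E0

theorem e0c (h1 : Si_ARF) (h4 : Pool.Agent.MUXF.Sx_NIM) (A B : ℤ) (hc : CQ A B) (T : TorX A B)
    (n₀ : ℕ) (ι : Type) (R : Reps A B n₀ ι) (f : ℕ) (hf : 2 ≤ f)
    (hcop : ∀ i, (nI (R.b i)).Coprime f) (K : IntermediateField ℚ ℂ) (hK : kk A B ≤ K)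
    (hKm : ∀ y ∈ K, y ∈ RF (idl (A := A) (B := B) f)) : letI := algC hK
    ∀ (_ : IsGalois (kk A B) K) (X : (K ≃ₐ[kk A B] K) →* ℂˣ) (r : ℕ) (_ : ∀ τ, X τ ^ r = 1),
    ∃ ψ : Ideal (OO A B) → ℂ,
      (∀ (τ : K ≃ₐ[kk A B] K) a, AR hK (idl f) τ a → ψ a = (((X τ)⁻¹ : ℂˣ) : ℂ)) ∧
      (∀ a a', ψ (a * a') = ψ a * ψ a') ∧ ψ ⊤ = 1 ∧
      (∀ a, ψ a ≠ 0 ↔ IsCoprime a (idl (A := A) (B := B) f)) ∧
      (∀ a, ψ a ≠ 0 → ψ a ^ r = 1) ∧
      (∀ x y, x - y ∈ (idl f : Ideal (OO A B)) → ψ (sp x) = ψ (sp y)) ∧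
      ψ (sp (-1)) = 1 ∧ ∀ i, ψ (cjI (R.b i)) ^ r = 1 := by
  let _ : Algebra (kk A B) K := algC hK
  intro hG X r hX
  have hm : (idl f : Ideal (OO A B)) ≠ ⊥ := by
    rw [Ne, Ideal.span_singleton_eq_bot]
    exact nat_ne (by omega)
  have hm1 : (idl f : Ideal (OO A B)) ≠ ⊤ := by
    rw [Ne, Ideal.span_singleton_eq_top]
    intro hu
    obtain ⟨y, hy⟩ := hu.exists_right_inv
    have h := congrArg QuadraticAlgebra.re hy
    rw [QuadraticAlgebra.re_mul] at h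
    simp only [QuadraticAlgebra.re_natCast, QuadraticAlgebra.im_natCast, QuadraticAlgebra.re_one,
      mul_zero, zero_mul, add_zero] at h
    have h' : ((f : ℕ) : ℤ) ∣ 1 := ⟨_, h.symm⟩
    have h'' := Int.le_of_dvd one_pos h'
    omega
  have hbot : ∀ a : Ideal (OO A B), IsCoprime a (idl f) → a ≠ ⊥ := by
    rintro a ha rfl
    apply hm1
    rw [← Ideal.isCoprime_iff_sup_eq.1 ha, bot_sup_eq]
  obtain ⟨a1, a2, -, a4, a5, -, -⟩ := h1 A B hc T ⟨_, _, _, R.nl R.i0⟩ (idl f) hm K hK hKm hG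
  obtain ⟨ψ, s1, s2, s3, s4, s5, s6⟩ := psi (idl f)
    (fun τ a => AR hK (idl f) τ a) X r hX a1
    (fun a ha => a2 a (hbot a ha) ha)
    (fun τ a h => by obtain ⟨σ, h, -⟩ := h; exact h.cop)
    a4 a5
  refine ⟨ψ, s1, s2, s3, s4, s5, ?_, ?_, ?_⟩
  · intro x y hxy
    by_cases hx : IsCoprime (sp x) (idl f)
    · have hy := cop_sub hxy hx
      have hx0 : x ≠ 0 := by
        rintro rfl
        exact hbot _ hx (by rw [sp, Ideal.span_singleton_eq_bot])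
      have hy0 : y ≠ 0 := by
        rintro rfl
        exact hbot _ hy (by rw [sp, Ideal.span_singleton_eq_bot])
      refine s6 _ _ ⟨y, x, hy0, hx0, hy, ?_, mul_comm _ _⟩ hx hy
      rw [← neg_sub]
      exact neg_mem hxy
    · have hy : ¬ IsCoprime (sp y) (idl f) := fun hy => hx (cop_sub (by
        rw [← neg_sub]
        exact neg_mem hxy) hy)
      rw [not_not.1 fun h => hx ((s4 _).1 h), not_not.1 fun h => hy ((s4 _).1 h)]
  · rw [sp, Ideal.span_singleton_neg, Ideal.span_singleton_one, s3]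
  · intro i
    apply s5
    rw [s4]
    obtain ⟨-, -, n3, -⟩ := h4 A B (Pool.Agent.MUXY.cqF hc)
    obtain ⟨-, -, -, n4⟩ := n3 (R.b i) (R.nl i).b_ne
    have h5 : ((nI (R.b i) : ℕ) : OO A B) ∈ cjI (R.b i) := by
      show (starRingEnd (OO A B)) ((nI (R.b i) : ℕ) : OO A B) ∈ R.b i
      rw [map_natCast]
      exact n4
    obtain ⟨u, v, huv⟩ := cop_nat (A := A) (B := B) (hcop i)
    exact Ideal.isCoprime_iff_exists.2 ⟨u * _, Ideal.mul_mem_left _ _ h5, v * _,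
      Ideal.mul_mem_left _ _ (Ideal.mem_span_singleton_self _), huv⟩

end Pool.Agent.TWF


end

section

/-!
# TWF: characters with values in the residue field lift to `ℂ`, with order prime to `p`
-/

set_option autoImplicit false

namespace Pool.Agent.TWF

open Pool.Agent.MU3I (ichi_mem_unitGroup ichiRed ichiRed_coe ichi_mem)

theorem lift_chr (p : ℕ) [hp : Fact p.Prime] (V : ValuationSubring ℂ)
    (hV : (p : ℂ) ∈ V.nonunits) (G : Type) [Group G] [Finite G]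
    (χ : G →* (IsLocalRing.ResidueField V)ˣ) :
    ∃ (X : G →* ℂˣ) (s : ℕ), ¬ p ∣ s ∧ (∀ g, X g ^ s = 1) ∧
      ∀ g, ∃ h : ((X g : ℂˣ) : ℂ) ∈ V, IsLocalRing.residue V ⟨_, h⟩ =
        ((χ g : (IsLocalRing.ResidueField V)ˣ) : IsLocalRing.ResidueField V) := by
  have hC : CharP (IsLocalRing.ResidueField V) p := (Pool.Agent.MUXJ.t_RES p V hV).1
  have hA : IsAlgClosed (IsLocalRing.ResidueField V) := (Pool.Agent.MUXJ.t_RES p V hV).2
  have hc0 : Nat.card G ≠ 0 := Nat.card_pos.ne'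
  obtain ⟨a, s, hs, hcs⟩ := Nat.exists_eq_pow_mul_and_not_dvd hc0 p hp.out.ne_one
  have hs0 : s ≠ 0 := by
    rintro rfl
    exact hs (dvd_zero p)
  have hχ : ∀ g, χ g ∈ rootsOfUnity s (IsLocalRing.ResidueField V) := by
    intro g
    rw [mem_rootsOfUnity]
    have h1 : χ g ^ (p ^ a * s) = 1 := by
      rw [← hcs, ← map_pow, pow_card_eq_one', map_one]
    have h2 : ((χ g : (IsLocalRing.ResidueField V)ˣ) : IsLocalRing.ResidueField V) ^ s = 1 := by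
      have h3 : (((χ g : (IsLocalRing.ResidueField V)ˣ) : IsLocalRing.ResidueField V) ^ s)
          ^ (p ^ a) = 1 := by
        rw [← pow_mul, mul_comm s, ← Units.val_pow_eq_pow_val, h1, Units.val_one]
      have h4 : ((((χ g : (IsLocalRing.ResidueField V)ˣ) : IsLocalRing.ResidueField V) ^ s) -
          1) ^ p ^ a = 0 := by
        rw [sub_pow_char_pow, h3, one_pow, sub_self]
      exact sub_eq_zero.1 (pow_eq_zero_iff (pow_ne_zero a hp.out.ne_zero) |>.1 h4)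
    apply Units.ext
    rw [Units.val_pow_eq_pow_val, h2, Units.val_one]
  let χ' : G →* rootsOfUnity s (IsLocalRing.ResidueField V) := χ.codRestrict _ hχ
  let E : rootsOfUnity s ℂ ≃* rootsOfUnity s (IsLocalRing.ResidueField V) :=
    MulEquiv.ofBijective (ichiRed V s hs0) (Pool.Agent.MUXI.CHI.red_bij p V hC s hs0 hs)
  refine ⟨(rootsOfUnity s ℂ).subtype.comp (E.symm.toMonoidHom.comp χ'), s, hs, ?_, ?_⟩
  · intro g
    exact (E.symm (χ' g)).2
  · intro g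
    refine ⟨ichi_mem V hs0 (E.symm (χ' g)), ?_⟩
    have h1 := ichiRed_coe V s hs0 (E.symm (χ' g)) (ichi_mem V hs0 (E.symm (χ' g)))
    have h2 : ichiRed V s hs0 (E.symm (χ' g)) = χ' g := E.apply_symm_apply (χ' g)
    rw [h2] at h1
    exact h1.symm

end Pool.Agent.TWF


end

section

/-!
# TWF: `K B_n` is contained in the ray class field of level `f l^(n+s)`
-/

set_option autoImplicit false

namespace Pool.Agent.TWF

open _root_.MU3 Pool.Agent.MU3 Pool.Agent.MU3A Pool.Agent.MU3B Pool.Agent.RI Pool.Agent.RID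
  Pool.Agent.MUX Pool.Agent.MUXE Pool.Agent.MUXK Pool.Agent.MUXI
open Pool.Agent.MU3I (w3 zt)

theorem lvl (hLAY : Si_LAY) (hIAF : Si_IAF) (l s : ℕ) (hls : (l = 3 ∧ s = 1) ∨ (l = 2 ∧ s = 2))
    (A B : ℤ) (hc : CQ A B) (T : TorX A B)
    (hNL : ∃ (b : Ideal (OO A B)) (L : PeriodPair) (om : ℂ), IsNL b L om) (f : ℕ) (hf : f ≠ 0)
    (K : IntermediateField ℚ ℂ) (hK : ∀ y ∈ K, y ∈ RF (idl (A := A) (B := B) f)) (n : ℕ)
    (Bn : IntermediateField ℚ ℂ) (hB : IsLayer l n Bn) :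
    ∀ y ∈ K ⊔ Bn, y ∈ RF (idl (A := A) (B := B) (f * l ^ (n + s))) := by
  have hl0 : l ≠ 0 := by rcases hls with ⟨rfl, -⟩ | ⟨rfl, -⟩ <;> norm_num
  set M : ℕ := l ^ (n + s) with hM
  have hM0 : M ≠ 0 := pow_ne_zero _ hl0
  have hm0 : idl (A := A) (B := B) (f * M) ≠ ⊥ := by
    rw [Ne, Ideal.span_singleton_eq_bot]
    exact natCast_ne_zero' hc (mul_ne_zero hf hM0)
  have hmf : idl (A := A) (B := B) (f * M) ≤ idl f := by
    rw [Ideal.span_singleton_le_span_singleton]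
    push_cast
    exact dvd_mul_right _ _
  have hmM : idl (A := A) (B := B) (f * M) ≤ idl M := by
    rw [Ideal.span_singleton_le_span_singleton]
    push_cast
    exact dvd_mul_left _ _
  obtain ⟨i1, -, -, -, -, -, -, i8⟩ := hIAF A B hc T hNL _ hm0
  obtain ⟨a₀, ha₀⟩ := i1 (RingEquiv.refl ℂ) rfl
  have hq0 : q0 l * l ^ n = M := by
    rcases hls with ⟨rfl, rfl⟩ | ⟨rfl, rfl⟩
    · have h3 : q0 3 = 3 := by simp [q0]
      rw [h3, hM]
      ring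
    · have h3 : q0 2 = 4 := by simp [q0]
      rw [h3, hM]
      ring
  have hζ : IsPrimitiveRoot (zt M) M := Complex.isPrimitiveRoot_exp M hM0
  have hz := (i8 M (RingEquiv.refl ℂ) a₀ (zt M) hM0 hmM ha₀ hζ.pow_eq_one).1
  have hBeq := hLAY l n (by rcases hls with ⟨h, -⟩ | ⟨h, -⟩ <;> tauto) Bn hB
  rw [hq0] at hBeq
  have hBn : Bn ≤ IntermediateField.restrictScalars ℚ (RF (idl (A := A) (B := B) (f * M))) := by
    rw [hBeq, IntermediateField.adjoin_le_iff]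
    intro x hx
    rw [Set.mem_singleton_iff] at hx
    rw [hx]
    exact add_mem hz (inv_mem hz)
  have hK' : K ≤ IntermediateField.restrictScalars ℚ (RF (idl (A := A) (B := B) (f * M))) := by
    intro x hx
    exact T.mono _ _ hmf (hK x hx)
  intro y hy
  exact (sup_le hK' hBn) hy

end Pool.Agent.TWF


end

section

/-!
# TWF: from the fields `L ≤ K B_(n+b)` to all layers of their cyclotomic `ℤ_p`-extensions
-/

set_option autoImplicit false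

open NumberField IsDedekindDomain Finset
open scoped nonZeroDivisors Pointwise

namespace Pool.Agent.TWF

open Pool.Agent.MU3 Pool.Agent.RI Pool.Agent.RID

/-- `B / ℚ` Galois, over the bottom field -/
theorem bot_data {B : IntermediateField ℚ ℂ} (hG : IsGalois ℚ B) :
    IsGalois ↥(⊥ : IntermediateField ℚ ℂ)
      (IntermediateField.extendScalars (bot_le : (⊥ : IntermediateField ℚ ℂ) ≤ B)) ∧
    Module.finrank ↥(⊥ : IntermediateField ℚ ℂ)
      (IntermediateField.extendScalars (bot_le : (⊥ : IntermediateField ℚ ℂ) ≤ B)) =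
      Module.finrank ℚ B := by
  refine ⟨P_GALK.bot_gal hG, ?_⟩
  let e : B ≃ₗ[ℚ] (IntermediateField.extendScalars
      (bot_le : (⊥ : IntermediateField ℚ ℂ) ≤ B)) :=
    { toFun := fun x => ⟨x.1, x.2⟩
      invFun := fun x => ⟨x.1, x.2⟩
      left_inv := fun _ => rfl
      right_inv := fun _ => rfl
      map_add' := fun _ _ => rfl
      map_smul' := fun _ _ => rfl }
  rw [e.finrank_eq, ← Module.finrank_mul_finrank ℚ ↥(⊥ : IntermediateField ℚ ℂ)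
    (IntermediateField.extendScalars (bot_le : (⊥ : IntermediateField ℚ ℂ) ≤ B)),
    IntermediateField.finrank_bot, one_mul]

/-- the degree of `K B_m / K B_n` is a power of `l` -/
theorem deg_dvd (l : ℕ) [Fact l.Prime] (K : IntermediateField ℚ ℂ)
    (B : ℕ → IntermediateField ℚ ℂ) [FiniteDimensional ℚ K]
    [∀ n, FiniteDimensional ℚ ↥(K ⊔ B n)] (hB : ∀ n, IsLayer l n (B n)) (hm : Monotone B)
    (n m : ℕ) (hnm : n ≤ m) (h : K ⊔ B n ≤ K ⊔ B m) :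
    Module.finrank ↥(K ⊔ B n) (IntermediateField.extendScalars h) ∣ l ^ m := by
  obtain ⟨fdB, hGB, -⟩ := LAY_thm l m (B m) (hB m)
  obtain ⟨g1, g2⟩ := bot_data hGB
  have h1 := (BCH_thm.1 ⊥ (B m) (K ⊔ B n) (K ⊔ B n) (K ⊔ B m) bot_le h
    (bot_sup_eq _).symm (by
      rw [sup_comm (B m), sup_assoc, sup_eq_right.2 (hm hnm)]) g1).2
  rw [g2, (hB m).1] at h1
  exact h1

theorem end1 (p l : ℕ) [Fact p.Prime] [Fact l.Prime] (hpl : p ≠ l)
    (k K : IntermediateField ℚ ℂ) (B : ℕ → IntermediateField ℚ ℂ)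
    [FiniteDimensional ℚ K] [∀ n, FiniteDimensional ℚ ↥(K ⊔ B n)] (hB : Twr l k K B) :
    ∃ n₂, ∀ n, n₂ ≤ n → ∀ (b : ℕ) (L : IntermediateField ℚ ℂ), k ≤ L → L ≤ K ⊔ B (n + b) →
      padicValNat p (classNo L) = padicValNat p (classNo (L ⊓ (K ⊔ B n))) →
      ∀ (m : ℕ) (Q : IntermediateField ℚ ℂ), IsLayer p m Q →
        padicValNat p (classNo (L ⊔ Q)) =
          padicValNat p (classNo ((L ⊓ (K ⊔ B n)) ⊔ Q)) := by
  obtain ⟨n₀, hn₀⟩ := nonsplit_large l p K B Fact.out hB.lay hB.mono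
  refine ⟨n₀, fun n hn b L hkL hL hcl m Q hQ => ?_⟩
  have hle : K ⊔ B n ≤ K ⊔ B (n + b) := sup_le_sup_left (hB.mono (Nat.le_add_right n b)) K
  have hFL : L ⊓ (K ⊔ B n) ≤ L := inf_le_left
  have hFA : L ⊓ (K ⊔ B n) ≤ K ⊔ B n := inf_le_right
  have hkF : k ≤ L ⊓ (K ⊔ B n) := le_inf hkL (hB.hk.trans le_sup_left)
  have hkC : k ≤ K ⊔ B (n + b) := hB.hk.trans le_sup_left
  have fdL : FiniteDimensional ℚ L := FiniteDimensional.of_injective
    (IntermediateField.inclusion hL).toLinearMap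
    (IntermediateField.inclusion hL).toRingHom.injective
  have fdF : FiniteDimensional ℚ ↥(L ⊓ (K ⊔ B n)) := FiniteDimensional.of_injective
    (IntermediateField.inclusion hFL).toLinearMap
    (IntermediateField.inclusion hFL).toRingHom.injective
  -- `C / k` is abelian, so `L / k` is Galois
  have hgal : IsGalois k (IntermediateField.extendScalars hkC) ∧
      ∀ σ τ : (IntermediateField.extendScalars hkC) ≃ₐ[k] (IntermediateField.extendScalars hkC),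
        σ * τ = τ * σ := by
    obtain ⟨g1, g2⟩ := gal_ab l k K B hB (n + b) hkC
    let _ : Algebra k ↥(K ⊔ B (n + b)) := algC hkC
    refine ⟨(isGalois_algC hkC).1 g1, fun σ τ => ?_⟩
    have h1 := g2 ((extEquiv hkC).autCongr σ) ((extEquiv hkC).autCongr τ)
    rw [← map_mul, ← map_mul] at h1
    exact (extEquiv hkC).autCongr.injective h1
  have abC : IsAbelianGalois k (IntermediateField.extendScalars hkC) :=
    { toIsGalois := hgal.1
      is_comm := ⟨fun σ τ => hgal.2 σ τ⟩ }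
  have hleL : IntermediateField.extendScalars hkL ≤ IntermediateField.extendScalars hkC :=
    fun x hx => hL hx
  have abL : IsAbelianGalois k (IntermediateField.extendScalars hkL) :=
    IsAbelianGalois.of_algHom (IntermediateField.inclusion hleL)
  -- the algebras
  let i1 : Algebra ↥(L ⊓ (K ⊔ B n)) L := algC hFL
  let i2 : Algebra ↥(L ⊓ (K ⊔ B n)) ↥(K ⊔ B n) := algC hFA
  let i3 : Algebra ↥(K ⊔ B n) ↥(K ⊔ B (n + b)) := algC hle
  let i4 : Algebra L ↥(K ⊔ B (n + b)) := algC hL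
  let i5 : Algebra ↥(L ⊓ (K ⊔ B n)) ↥(K ⊔ B (n + b)) := algC (hFL.trans hL)
  let i6 : Algebra k L := algC hkL
  let i7 : Algebra k ↥(L ⊓ (K ⊔ B n)) := algC hkF
  let i8 : Algebra k ↥(K ⊔ B n) := algC (hB.hk.trans le_sup_left)
  let i9 : Algebra k ↥(K ⊔ B (n + b)) := algC hkC
  have t1 : IsScalarTower ↥(L ⊓ (K ⊔ B n)) L ↥(K ⊔ B (n + b)) := towerC hFL hL
  have t2 : IsScalarTower ↥(L ⊓ (K ⊔ B n)) ↥(K ⊔ B n) ↥(K ⊔ B (n + b)) := towerC hFA hle
  have t3 : IsScalarTower k ↥(L ⊓ (K ⊔ B n)) L := towerC hkF hFL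
  have t4 : IsScalarTower k ↥(K ⊔ B n) ↥(K ⊔ B (n + b)) :=
    towerC (hB.hk.trans le_sup_left) hle
  have gL : IsGalois k L := (isGalois_algC hkL).2 abL.toIsGalois
  have gC : IsGalois k ↥(K ⊔ B (n + b)) := (isGalois_algC hkC).2 hgal.1
  have gLF : IsGalois ↥(L ⊓ (K ⊔ B n)) L := IsGalois.tower_top_of_isGalois k _ _
  have gCA : IsGalois ↥(K ⊔ B n) ↥(K ⊔ B (n + b)) := IsGalois.tower_top_of_isGalois k _ _
  have hint : ∀ x : L, ∀ a : ↥(K ⊔ B n), algebraMap L ↥(K ⊔ B (n + b)) x =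
      algebraMap ↥(K ⊔ B n) ↥(K ⊔ B (n + b)) a →
      ∃ y : ↥(L ⊓ (K ⊔ B n)), algebraMap ↥(L ⊓ (K ⊔ B n)) L y = x := by
    intro x a hxa
    have h1 : (x : ℂ) = (a : ℂ) := congrArg Subtype.val hxa
    exact ⟨⟨(x : ℂ), x.2, h1 ▸ a.2⟩, rfl⟩
  -- the degree
  have hd : ¬ p ∣ Module.finrank ↥(L ⊓ (K ⊔ B n)) (IntermediateField.extendScalars hFL) := by
    intro hp
    have h1 : Module.finrank ↥(K ⊔ B n) (IntermediateField.extendScalars hle) ∣ l ^ (n + b) :=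
      deg_dvd l K B hB.lay hB.mono n (n + b) (Nat.le_add_right n b) hle
    have fLF : FiniteDimensional ↥(L ⊓ (K ⊔ B n)) L :=
      Module.Finite.of_restrictScalars_finite ℚ ↥(L ⊓ (K ⊔ B n)) L
    have fCA : FiniteDimensional ↥(K ⊔ B n) ↥(K ⊔ B (n + b)) :=
      Module.Finite.of_restrictScalars_finite ℚ ↥(K ⊔ B n) ↥(K ⊔ B (n + b))
    have h2 : Nat.card (L ≃ₐ[↥(L ⊓ (K ⊔ B n))] L) ∣
        Nat.card (↥(K ⊔ B (n + b)) ≃ₐ[↥(K ⊔ B n)] ↥(K ⊔ B (n + b))) :=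
      Subgroup.card_dvd_of_surjective _ (res_surj (F := ↥(L ⊓ (K ⊔ B n))) (K := L)
        (A := ↥(K ⊔ B n)) (C := ↥(K ⊔ B (n + b))) hint)
    rw [IsGalois.card_aut_eq_finrank, IsGalois.card_aut_eq_finrank] at h2
    have h3 := finrank_algC hFL
    have h4 := finrank_algC hle
    have h5 : p ∣ l ^ (n + b) := by
      refine (hp.trans ?_).trans h1
      rw [← h3, ← h4]
      exact h2
    exact hpl ((Nat.prime_dvd_prime_iff_eq Fact.out Fact.out).1 (Nat.Prime.dvd_of_dvd_pow Fact.out h5))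
  -- the primes above `p`
  have hns : Nonsplit p hFL := by
    have h1 := hn₀ n (n + b) hn (Nat.le_add_right n b) hle
    exact nonsplit_desc (F := ↥(L ⊓ (K ⊔ B n))) (K := L) (A := ↥(K ⊔ B n))
      (C := ↥(K ⊔ B (n + b))) p hint h1
  exact finalC p (L ⊓ (K ⊔ B n)) L hFL ((isGalois_algC hFL).1 gLF) hd hns hcl m Q hQ

end Pool.Agent.TWF


end

section

/-!
# TWF: the characters of `Gal(K B_(n+1) / k)` with values in the residue field (`S_FACT` of `TWT/DefsT.lean`)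
-/

set_option autoImplicit false

open NumberField IsDedekindDomain Finset
open scoped nonZeroDivisors Pointwise

namespace Pool.Agent.TWF

open _root_.MU3 Pool.Agent.MU3 Pool.Agent.MU3A Pool.Agent.MU3B Pool.Agent.RI Pool.Agent.RID
  Pool.Agent.MUX Pool.Agent.MUXK Pool.Agent.MUXI Pool.Agent.TWT
open Pool.Agent.MU3I (w3 zt)
open Pool.Agent.MU3V (Sub)

/-- the characters of a finite group with values in the `r`-th roots of unity -/
theorem fin_chr {G : Type} [Group G] [Finite G] (r : ℕ) (hr : r ≠ 0) :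
    Finite {X : G →* ℂˣ // ∀ g, X g ^ r = 1} := by
  have : NeZero r := ⟨hr⟩
  have h1 : Finite (G → rootsOfUnity r ℂ) := inferInstance
  refine Finite.of_injective
    (fun (X : {X : G →* ℂˣ // ∀ g, X g ^ r = 1}) (g : G) => (⟨X.1 g, X.2 g⟩ : rootsOfUnity r ℂ)) ?_
  intro X Y hXY
  apply Subtype.ext
  ext g
  have h2 := congrArg Subtype.val (congrFun hXY g)
  exact congrArg Units.val h2

/-- correction of the first factor to order prime to `p` -/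
theorem fix_ord {G G₁ G₂ : Type} [Group G] [Group G₁] [Group G₂] [Finite G₁] (p a r t s : ℕ)
    (hp : p.Prime) (hc : Nat.card G₁ = p ^ a * r) (r₁ : G →* G₁) (r₂ : G →* G₂)
    (X : G →* ℂˣ) (X₁ : G₁ →* ℂˣ) (X₂ : G₂ →* ℂˣ) (hX : ∀ g, X g = X₁ (r₁ g) * X₂ (r₂ g))
    (ht : ¬ p ∣ t) (hXt : ∀ g, X g ^ t = 1) (hs : ¬ p ∣ s) (hXs : ∀ g, X₂ g ^ s = 1) :
    ∃ Y : G₁ →* ℂˣ, (∀ g, Y g ^ r = 1) ∧ ∀ g, X g = Y (r₁ g) * X₂ (r₂ g) := by
  have hcop : Nat.Coprime (p ^ a) (t * s) := by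
    refine Nat.Coprime.pow_left _ ?_
    rw [Nat.Prime.coprime_iff_not_dvd hp]
    intro h
    rcases (Nat.Prime.dvd_mul hp).1 h with h | h
    · exact ht h
    · exact hs h
  obtain ⟨e, he1, he2⟩ := Nat.chineseRemainder hcop 0 1
  have he1' : p ^ a ∣ e := (Nat.modEq_zero_iff_dvd).1 he1
  obtain ⟨e', rfl⟩ := he1'
  refine ⟨(powMonoidHom (p ^ a * e')).comp X₁, ?_, ?_⟩
  · intro g
    show (X₁ g ^ (p ^ a * e')) ^ r = 1
    have h1 : X₁ g ^ (p ^ a * r) = 1 := by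
      rw [← hc, ← map_pow, pow_card_eq_one', map_one]
    calc (X₁ g ^ (p ^ a * e')) ^ r = (X₁ g ^ (p ^ a * r)) ^ e' := by
          rw [← pow_mul, ← pow_mul]
          congr 1
          ring
      _ = 1 := by rw [h1, one_pow]
  · intro g
    show X g = X₁ (r₁ g) ^ (p ^ a * e') * X₂ (r₂ g)
    have h1 : X₁ (r₁ g) = X g * (X₂ (r₂ g))⁻¹ := by
      rw [hX g, mul_inv_cancel_right]
    have h2 : (X g * (X₂ (r₂ g))⁻¹) ^ (t * s) = 1 := by
      rw [mul_pow, pow_mul, hXt, one_pow, one_mul, inv_pow, mul_comm t s, pow_mul, hXs, one_pow,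
        inv_one]
    have h3 : (X g * (X₂ (r₂ g))⁻¹) ^ (p ^ a * e') = X g * (X₂ (r₂ g))⁻¹ := by
      have h4 : (X g * (X₂ (r₂ g))⁻¹) ^ (p ^ a * e') = (X g * (X₂ (r₂ g))⁻¹) ^ 1 := by
        rw [pow_eq_pow_iff_modEq]
        exact he2.of_dvd (orderOf_dvd_of_pow_eq_one h2)
      rw [h4, pow_one]
    rw [h1, h3, inv_mul_cancel_right]

theorem t_FACT (hARF : Si_ARF) (hIAF : Si_IAF) (hXXF : Si_XXF) (hLAY : Si_LAY)
    (hNIM : Pool.Agent.MUXF.Sx_NIM) (hGAL : Pool.Agent.MUXJ.Sj_GAL) : S_FACT := by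
  classical
  intro l g s hGen p hp A B P V f hS hlf T ι _ R K _ hK hSub Bn hlay hmono
  have hc : CQ A B := hS.cq
  have hls : (l = 3 ∧ s = 1) ∨ (l = 2 ∧ s = 2) := by
    rcases hGen with ⟨h1, -, h2⟩ | ⟨h1, -, h2⟩
    · exact Or.inl ⟨h1, h2⟩
    · exact Or.inr ⟨h1, h2⟩
  have hlp : l.Prime := by
    rcases hls with ⟨rfl, -⟩ | ⟨rfl, -⟩
    · exact Nat.prime_three
    · exact Nat.prime_two
  have : Fact l.Prime := ⟨hlp⟩
  have hs1 : 1 ≤ s := by rcases hls with ⟨-, h⟩ | ⟨-, h⟩ <;> omega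
  have hlf1 : l ∣ f := (dvd_pow_self l (by omega)).trans hlf
  have hpl : ¬ p ∣ l := by
    intro h
    exact hS.fp (h.trans hlf1)
  have hf2 : 2 ≤ f := by
    have h1 := Nat.le_of_dvd (Nat.pos_of_ne_zero hS.f0) hlf1
    exact hlp.two_le.trans h1
  have hfm : (idl f : Ideal (OO A B)) ≠ ⊥ := by
    rw [Ne, Ideal.span_singleton_eq_bot]
    exact natCast_ne_zero' hc hS.f0
  have hpV : (p : ℂ) ∈ V.nonunits := by
    have h1 := (hS.hV ((p : ℕ) : OO A B)).2 hS.hP.mem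
    rwa [Pool.Agent.MUX.emb_natCast hc] at h1
  have fdk : FiniteDimensional ℚ (kk A B) := FiniteDimensional.of_injective
    (IntermediateField.inclusion hK).toLinearMap
    (IntermediateField.inclusion hK).toRingHom.injective
  obtain ⟨gK, -, cK⟩ := hGAL A B T (idl f) hfm K hK hSub
  have hB : Twr l (kk A B) K Bn := ⟨hK, gK, cK, hlay, hmono⟩
  let aK : Algebra (kk A B) K := algC hK
  have galK : IsGalois (kk A B) K := (isGalois_algC hK).2 gK
  have tK : IsScalarTower ℚ (kk A B) K := IsScalarTower.of_algebraMap_eq (fun _ => rfl)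
  have fdK : FiniteDimensional (kk A B) K := Module.Finite.of_restrictScalars_finite ℚ (kk A B) K
  have hfB : ∀ n, FiniteDimensional ℚ (Bn n) := fun n => (LAY_thm l n (Bn n) (hlay n)).1
  have hfL : ∀ n, FiniteDimensional ℚ ↥(K ⊔ Bn n) := fun n =>
    IntermediateField.finiteDimensional_sup K (Bn n)
  have hc0 : Nat.card (K ≃ₐ[kk A B] K) ≠ 0 := Nat.card_pos.ne'
  obtain ⟨a, r, hr, hcr⟩ := Nat.exists_eq_pow_mul_and_not_dvd hc0 p hp.out.ne_one
  have hr0 : r ≠ 0 := by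
    rintro rfl
    exact hr (dvd_zero p)
  have hcopf : ∀ i, (nI (R.b i)).Coprime f := fun i => (R.cop i).coprime_mul_left_right
  -- the characters of `Gal(K/k)`
  have hE := fun (j : {X : (K ≃ₐ[kk A B] K) →* ℂˣ // ∀ g, X g ^ r = 1}) =>
    e0c hARF hNIM A B hc T (p * f) ι R f hf2 hcopf K hK hSub galK j.1 r j.2
  choose Ψ e1 e2 e3 e4 e5 e6 e7 e8 using hE
  refine ⟨{X : (K ≃ₐ[kk A B] K) →* ℂˣ // ∀ g, X g ^ r = 1}, fin_chr r hr0,
    fun j i => Ψ j (cjI (R.b i)), fun j x => Ψ j (sp x), ?_, ?_⟩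
  · intro j
    refine ⟨?_, ?_, ?_, ?_, ?_, ?_, r, hr, ?_, ?_⟩
    · show Ψ j (sp 1) = 1
      rw [sp, Ideal.span_singleton_one, e3]
    · intro x y
      show Ψ j (sp (x * y)) = Ψ j (sp x) * Ψ j (sp y)
      rw [← e2, sp, sp, sp, Ideal.span_singleton_mul_span_singleton]
    · intro x y hxy
      exact e6 j x y hxy
    · intro x
      exact e4 j (sp x)
    · exact e7 j
    · show Ψ j (cjI (R.b R.i0)) = 1
      rw [R.b0]
      have h1 : cjI (⊤ : Ideal (OO A B)) = ⊤ := Ideal.comap_top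
      rw [h1, e3]
    · intro i
      exact e8 j i
    · intro x hx
      exact e5 j _ hx
  · intro n hn
    let aL : Algebra (kk A B) ↥(K ⊔ Bn (n + 1)) := algC hn
    intro χ hg₀
    obtain ⟨g₀, hg1, hg2⟩ := hg₀
    obtain ⟨galL, comL⟩ := gal_ab l (kk A B) K Bn hB (n + 1) hn
    have tL : IsScalarTower ℚ (kk A B) ↥(K ⊔ Bn (n + 1)) :=
      IsScalarTower.of_algebraMap_eq (fun _ => rfl)
    have fdL : FiniteDimensional (kk A B) ↥(K ⊔ Bn (n + 1)) :=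
      Module.Finite.of_restrictScalars_finite ℚ (kk A B) _
    obtain ⟨X, t, ht, hXt, hXres⟩ :=
      lift_chr p V hpV (↥(K ⊔ Bn (n + 1)) ≃ₐ[kk A B] ↥(K ⊔ Bn (n + 1))) χ
    obtain ⟨r₁, r₂, hr1, hr2, hsplit⟩ := chr_split l (kk A B) K Bn hB (n + 1) hn
    obtain ⟨X₁, X₂, hX12⟩ := hsplit X
    have hX2 : ∀ g : Bn (n + 1) ≃ₐ[ℚ] Bn (n + 1), X₂ g ^ (l ^ (n + 1)) = 1 := by
      intro g
      have hGB : IsGalois ℚ (Bn (n + 1)) := (LAY_thm l (n + 1) (Bn (n + 1)) (hlay (n + 1))).2.1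
      have h1 : Nat.card (Bn (n + 1) ≃ₐ[ℚ] Bn (n + 1)) = l ^ (n + 1) := by
        rw [IsGalois.card_aut_eq_finrank, (hlay (n + 1)).1]
      rw [← h1, ← map_pow, pow_card_eq_one', map_one]
    have hpl' : ¬ p ∣ l ^ (n + 1) := fun h => hpl (hp.out.dvd_of_dvd_pow h)
    obtain ⟨Y, hYr, hXY⟩ := fix_ord p a r t (l ^ (n + 1)) hp.out hcr r₁ r₂ X X₁ X₂ hX12 ht hXt
      hpl' hX2
    obtain ⟨ψ, hψ1, hψ2, hψ3⟩ := cyc hLAY l s n hls (Bn n) (Bn (n + 1)) (hlay n) (hlay (n + 1))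
      (hmono (Nat.le_succ n)) X₂
    refine ⟨⟨Y, hYr⟩, ψ, hψ1, hψ2 ?_, ?_⟩
    · -- the ramified part
      refine ⟨r₂ g₀, ?_, ?_⟩
      · intro x hx
        have h1 := hr2 g₀ x ⟨(x : ℂ), (le_sup_right : Bn (n + 1) ≤ K ⊔ Bn (n + 1)) x.2⟩ rfl
        have h2 := hg1 ⟨(x : ℂ), (le_sup_right : Bn (n + 1) ≤ K ⊔ Bn (n + 1)) x.2⟩
          ((le_sup_right : Bn n ≤ K ⊔ Bn n) hx)
        rw [h2] at h1
        exact Subtype.ext h1.symm
      · intro h1
        have h2 : r₁ g₀ = 1 := by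
          ext x
          have h3 := hr1 g₀ x ⟨(x : ℂ), (le_sup_left : K ≤ K ⊔ Bn (n + 1)) x.2⟩ rfl
          have h4 := hg1 ⟨(x : ℂ), (le_sup_left : K ≤ K ⊔ Bn (n + 1)) x.2⟩
            ((le_sup_left : K ≤ K ⊔ Bn n) x.2)
          rw [h4] at h3
          exact h3.symm
        have h3 : X g₀ = 1 := by rw [hXY g₀, h1, h2, map_one, mul_one]
        apply hg2
        obtain ⟨h4, h5⟩ := hXres g₀
        apply Units.ext
        rw [← h5, Units.val_one, ← map_one (IsLocalRing.residue V)]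
        congr 1
        apply Subtype.ext
        show ((X g₀ : ℂˣ) : ℂ) = 1
        rw [h3, Units.val_one]
    · intro τ q hq
      have hM0 : (l ^ (n + 1 + s)) ≠ 0 := pow_ne_zero _ hlp.ne_zero
      have hm2 : 2 ≤ (f * l ^ (n + 1 + s)) := by
        calc 2 ≤ f := hf2
          _ = f * 1 := (mul_one f).symm
          _ ≤ f * (l ^ (n + 1 + s)) := Nat.mul_le_mul_left _ (Nat.pos_of_ne_zero hM0)
      have hm0 : idl (A := A) (B := B) (f * l ^ (n + 1 + s)) ≠ ⊥ := by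
        rw [Ne, Ideal.span_singleton_eq_bot]
        exact natCast_ne_zero' hc (by omega)
      have hcl : ∀ i, (nI (R.b i)).Coprime l := fun i => (hcopf i).coprime_dvd_right hlf1
      have hcopm : ∀ i, (nI (R.b i)).Coprime (f * l ^ (n + 1 + s)) := fun i =>
        (hcopf i).mul_right ((hcl i).pow_right _)
      have hNL : ∃ (b : Ideal (OO A B)) (L : PeriodPair) (om : ℂ), IsNL b L om :=
        ⟨_, _, _, R.nl R.i0⟩
      have hmf : idl (A := A) (B := B) (f * l ^ (n + 1 + s)) ≤ idl f := by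
        rw [Ideal.span_singleton_le_span_singleton]
        push_cast
        exact dvd_mul_right _ _
      have hmM : idl (A := A) (B := B) (f * l ^ (n + 1 + s)) ≤ idl (l ^ (n + 1 + s)) := by
        rw [Ideal.span_singleton_le_span_singleton]
        push_cast
        exact dvd_mul_left _ _
      -- the field is contained in the ray class field
      obtain ⟨i1, -, -, -, -, -, -, i8⟩ := hIAF A B hc T hNL _ hm0
      have hD : ∀ y ∈ K ⊔ Bn (n + 1), y ∈ RF (idl (A := A) (B := B) (f * l ^ (n + 1 + s))) :=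
        lvl hLAY hIAF l s hls A B hc T hNL f hS.f0 K hSub (n + 1) (Bn (n + 1)) (hlay (n + 1))
      obtain ⟨a1, -, a3, a4, a5, a6, a7⟩ := hARF A B hc T hNL (idl (f * l ^ (n + 1 + s))) hm0 (K ⊔ Bn (n + 1)) hn hD
        galL
      obtain ⟨x1, -⟩ := hXXF A B hc T (p * f) ι R (f * l ^ (n + 1 + s)) hm2 hcopm (K ⊔ Bn (n + 1)) hn hD galL
      obtain ⟨x, hx⟩ : ∃ x : OO A B, x = Quotient.out q.2 := ⟨_, rfl⟩
      have hxc : IsCoprime x (((f * l ^ (n + 1 + s)) : ℕ) : OO A B) := by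
        rw [hx]
        exact hq.1
      rw [← hx]
      have hqe : (q.1, Ideal.Quotient.mk (idl (A := A) (B := B) (f * l ^ (n + 1 + s))) x) = q := by
        have h5 : Ideal.Quotient.mk (idl (A := A) (B := B) (f * l ^ (n + 1 + s))) x = q.2 := by
          rw [hx]
          exact Quotient.out_eq q.2
        rw [h5]
      have hAR : AR hn (idl (f * l ^ (n + 1 + s))) τ (sp x * cjI (R.b q.1)) := by
        refine (x1 τ q.1 x hxc).1 ?_
        rw [hqe]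
        exact hq
      have hx0 : x ≠ 0 := by
        intro h0
        rw [h0, isCoprime_zero_left] at hxc
        obtain ⟨z, hz⟩ := hxc.exists_right_inv
        exact Pool.Agent.NSI.Xmx.natCast_not_unit hm2 z hz
      have hb0 : R.b q.1 ≠ ⊥ := (R.nl q.1).b_ne
      have hspx : sp x ≠ ⊥ := by
        rwa [Ne, Ideal.span_singleton_eq_bot]
      obtain ⟨N, hNdef⟩ : ∃ N : ℕ, N = nI (sp x * cjI (R.b q.1)) := ⟨_, rfl⟩
      have hN : ((N : ℕ) : ℤ) = nm x * nI (R.b q.1) := by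
        rw [hNdef, nI_mul hc hspx (cjI_ne_bot hc hb0), nI_sp hc hx0, nI_cjI hc hb0]
        push_cast
        rw [abs_of_nonneg (nm_nonneg hc x)]
      -- the automorphism of `ℂ`
      obtain ⟨σ, hσ, hσe⟩ := hAR
      have hσz : ∀ z : ℂ, z ^ (l ^ (n + 1 + s)) = 1 → σ z = z ^ N := fun z hz => by
        rw [hNdef]
        exact (i8 (l ^ (n + 1 + s)) σ _ z hM0 hmM hσ hz).2
      have hNl : N.Coprime l := by
        have hζ : IsPrimitiveRoot (zt (l ^ (n + 1 + s))) (l ^ (n + 1 + s)) := Complex.isPrimitiveRoot_exp (l ^ (n + 1 + s)) hM0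
        have h1 : IsPrimitiveRoot (σ (zt (l ^ (n + 1 + s)))) (l ^ (n + 1 + s)) := hζ.map_of_injective (f := σ) σ.injective
        rw [hσz _ hζ.pow_eq_one] at h1
        have h2 := (hζ.pow_iff_coprime (Nat.pos_of_ne_zero hM0) N).1 h1
        exact h2.coprime_dvd_right (dvd_pow_self l (by omega))
      have hσB : ∀ y : Bn (n + 1), (σ : ℂ →+* ℂ) (y : ℂ) = (r₂ τ y : Bn (n + 1)) := by
        intro y
        have h1 := hσe ⟨(y : ℂ), (le_sup_right : Bn (n + 1) ≤ K ⊔ Bn (n + 1)) y.2⟩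
        have h2 := hr2 τ y ⟨(y : ℂ), (le_sup_right : Bn (n + 1) ≤ K ⊔ Bn (n + 1)) y.2⟩ rfl
        rw [h2] at h1
        exact h1
      have hψN := hψ3 (σ : ℂ →+* ℂ) N (r₂ τ) hNl hσz hσB
      have hARK : AR hK (idl f) (r₁ τ) (sp x * cjI (R.b q.1)) :=
        a6 K hK (idl f) hmf le_sup_left τ (r₁ τ) _ (fun y y' h => hr1 τ y y' h) ⟨σ, hσ, hσe⟩
      have hΨ := e1 ⟨Y, hYr⟩ (r₁ τ) _ hARK
      rw [e2] at hΨ
      have hcast : ((nm x * nI (R.b q.1) : ℤ) : ZMod (l ^ (n + 1 + s))) = ((N : ℕ) : ZMod (l ^ (n + 1 + s))) := by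
        rw [← hN, Int.cast_natCast]
      have hth : thT R (fun i => Ψ ⟨Y, hYr⟩ (cjI (R.b i))) (fun x => Ψ ⟨Y, hYr⟩ (sp x)) ψ q.1 x =
          ((X τ⁻¹ : ℂˣ) : ℂ) := by
        show Ψ ⟨Y, hYr⟩ (cjI (R.b q.1)) * Ψ ⟨Y, hYr⟩ (sp x) *
          ψ ((nm x * nI (R.b q.1) : ℤ) : ZMod (l ^ (n + 1 + s))) = _
        rw [hcast, hψN, mul_comm (Ψ ⟨Y, hYr⟩ (cjI (R.b q.1))), hΨ, ← Units.val_mul, ← mul_inv,
          ← hXY τ, map_inv]
      refine (congrArg (rsd V) hth).trans ?_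
      obtain ⟨h4, h5⟩ := hXres τ⁻¹
      unfold rsd
      rw [dif_pos h4, h5, map_inv]

end Pool.Agent.TWF


end

section

/-!
# TWF: the fields `K B_n` grow at every large level
-/

set_option autoImplicit false

open NumberField

namespace Pool.Agent.TWF

open Pool.Agent.MU3 Pool.Agent.RI Pool.Agent.RID

/-- An automorphism of `C / k` which is trivial on `E₁` and on `E₂` is trivial on `E₁ E₂`. -/
theorem fix_sup {k C : IntermediateField ℚ ℂ} (h : k ≤ C) :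
    letI := algC h
    ∀ (τ : C ≃ₐ[k] C) (E₁ E₂ : IntermediateField ℚ ℂ), E₁ ≤ C → E₂ ≤ C →
      (∀ x : C, (x : ℂ) ∈ E₁ → τ x = x) → (∀ x : C, (x : ℂ) ∈ E₂ → τ x = x) →
      ∀ x : C, (x : ℂ) ∈ E₁ ⊔ E₂ → τ x = x := by
  let i1 : Algebra k C := algC h
  intro τ E₁ E₂ hE1 hE2 h1 h2 x hx
  have hQ : ∀ (r : ℚ), τ (r : C) = r := fun r => map_ratCast τ r
  let T : IntermediateField ℚ ℂ :=
    { carrier := {z | ∃ hz : z ∈ C, τ ⟨z, hz⟩ = ⟨z, hz⟩}
      mul_mem' := by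
        rintro a b ⟨ha, ha'⟩ ⟨hb, hb'⟩
        refine ⟨mul_mem ha hb, ?_⟩
        have e : (⟨a * b, mul_mem ha hb⟩ : C) = ⟨a, ha⟩ * ⟨b, hb⟩ := rfl
        rw [e, map_mul, ha', hb']
      add_mem' := by
        rintro a b ⟨ha, ha'⟩ ⟨hb, hb'⟩
        refine ⟨add_mem ha hb, ?_⟩
        have e : (⟨a + b, add_mem ha hb⟩ : C) = ⟨a, ha⟩ + ⟨b, hb⟩ := rfl
        rw [e, map_add, ha', hb']
      algebraMap_mem' := by
        intro r
        refine ⟨algebraMap_mem _ r, ?_⟩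
        have e : (⟨algebraMap ℚ ℂ r, algebraMap_mem _ r⟩ : C) = (r : C) := by
          apply Subtype.ext
          simp
        rw [e, hQ]
      inv_mem' := by
        rintro a ⟨ha, ha'⟩
        refine ⟨inv_mem ha, ?_⟩
        have e : (⟨a⁻¹, inv_mem ha⟩ : C) = (⟨a, ha⟩)⁻¹ := rfl
        rw [e, map_inv₀, ha'] }
  have hT : E₁ ⊔ E₂ ≤ T := by
    apply sup_le
    · intro a ha
      exact ⟨hE1 ha, h1 _ ha⟩
    · intro b hb
      exact ⟨hE2 hb, h2 _ hb⟩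
  obtain ⟨hz, hx'⟩ := hT hx
  exact hx'

theorem grow (l : ℕ) [Fact l.Prime] (k K : IntermediateField ℚ ℂ)
    (B : ℕ → IntermediateField ℚ ℂ) [FiniteDimensional ℚ K]
    [∀ n, FiniteDimensional ℚ ↥(K ⊔ B n)] (hB : Twr l k K B) :
    ∃ c, ∀ n, c ≤ n → ¬ B (n + 1) ≤ K ⊔ B n := by
  have hlp : l.Prime := Fact.out
  refine ⟨Module.finrank ℚ K, fun n hn hle => ?_⟩
  have hkC : k ≤ K ⊔ B (n + 1) := hB.hk.trans le_sup_left
  let i1 : Algebra k ↥(K ⊔ B (n + 1)) := algC hkC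
  obtain ⟨e, σ, -, h2, h3, h4⟩ := Pool.Agent.TWK.t_CYC2 l k K B
    ⟨hB.hk, hB.gal, hB.ab, hB.lay, hB.mono⟩ n hkC
  have he : e ≠ 0 := by
    rintro rfl
    rw [pow_zero, one_mul] at h2
    have h5 : n + 1 < l ^ (n + 1) := Nat.lt_pow_self hlp.one_lt
    omega
  obtain ⟨e', rfl⟩ := Nat.exists_eq_succ_of_ne_zero he
  obtain ⟨h5, x, hx1, hx2⟩ := h4 e' rfl
  apply hx2
  refine fix_sup hkC (σ ^ l ^ e') K (B n) le_sup_left
    ((hB.mono (Nat.le_succ n)).trans le_sup_right) ?_ h5 x (hle hx1)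
  intro y hy
  have h6 : ∀ j : ℕ, (σ ^ j) y = y := by
    intro j
    induction j with
    | zero => rfl
    | succ j ih => rw [pow_succ, AlgEquiv.mul_apply, h3 y hy, ih]
  exact h6 _

end Pool.Agent.TWF


end

section

/-!
# TWF: the final theorem from its inputs
-/

set_option autoImplicit false

open NumberField IsDedekindDomain

namespace Pool.Agent.TWF

open _root_.MU3 Pool.Agent.MU3 Pool.Agent.MU3A Pool.Agent.MU3B Pool.Agent.RI Pool.Agent.RID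
  Pool.Agent.MUX Pool.Agent.MUXJ Pool.Agent.MUXY Pool.Agent.TWT Pool.Agent.TWK
open Pool.Agent.MU3V (Sub)

/-- The layers, in the form used here. -/
theorem layers (hLAYs : Sj_LAY) (l : ℕ) (hl : l = 2 ∨ l = 3) :
    ∃ Bn : ℕ → IntermediateField ℚ ℂ, (∀ n, IsLayer l n (Bn n)) ∧ Monotone Bn ∧
      ∀ (n : ℕ) (Q : IntermediateField ℚ ℂ), IsLayer l n Q → Q = Bn n := hLAYs l hl

/-- All good reduction data outside a finite set of primes. -/
def Good (A B : ℤ) (n₀ : ℕ) : Prop :=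
  n₀ ≠ 0 ∧ ∀ V : ValuationSubring ℂ, V.valuation (n₀ : ℂ) = 1 →
    ∀ (N₀ : ℕ) (ι : Type) (R : Reps A B N₀ ι), GRd V R

/-- a natural number prime to `p` is a unit of `V` -/
theorem val_unit (V : ValuationSubring ℂ) (p n : ℕ) (hp : p.Prime) (hV : (p : ℂ) ∈ V.nonunits)
    (hn : ¬ p ∣ n) : V.valuation (n : ℂ) = 1 := by
  have hle : ∀ m : ℤ, V.valuation (m : ℂ) ≤ 1 := by
    intro m
    rw [ValuationSubring.valuation_le_one_iff]
    exact intCast_mem V m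
  have hcop : IsCoprime (p : ℤ) (n : ℤ) :=
    Nat.isCoprime_iff_coprime.2 ((Nat.Prime.coprime_iff_not_dvd hp).2 hn)
  obtain ⟨u, v, huv⟩ := hcop
  have h1 : V.valuation ((u : ℂ) * p) < 1 := by
    rw [map_mul]
    have h2 : V.valuation (p : ℂ) < 1 := (V.mem_nonunits_iff).1 hV
    calc V.valuation (u : ℂ) * V.valuation (p : ℂ) ≤ 1 * V.valuation (p : ℂ) :=
          mul_le_mul_left (hle u) _
      _ = V.valuation (p : ℂ) := one_mul _
      _ < 1 := h2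
  by_contra hne
  have h3 : V.valuation (n : ℂ) < 1 := by
    have h4 := hle n
    rw [Int.cast_natCast] at h4
    exact lt_of_le_of_ne h4 hne
  have h5 : V.valuation ((v : ℂ) * n) < 1 := by
    rw [map_mul]
    calc V.valuation (v : ℂ) * V.valuation (n : ℂ) ≤ 1 * V.valuation (n : ℂ) :=
          mul_le_mul_left (hle v) _
      _ = V.valuation (n : ℂ) := one_mul _
      _ < 1 := h3
  have h6 : (u : ℂ) * p + (v : ℂ) * n = 1 := by exact_mod_cast huv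
  have h7 := V.valuation.map_add_lt h1 h5
  rw [h6, map_one] at h7
  exact lt_irrefl _ h7

/-- The core: `k = kk A B`, one prime `p`, one field `K`, one prime `l`. -/
theorem core (hFIN : S_FIN3) (hLAY : Pool.Agent.MUXI.Si_LAY) (hIAF : Pool.Agent.MUXI.Si_IAF)
    (hREX : Sy_REX) (l g h : ℕ) (hgen : Pool.Agent.TWR.Gen l g h) (p : ℕ) (A B : ℤ)
    (P : Ideal (OO A B)) (V : ValuationSubring ℂ) (f : ℕ) (hS : SetG p A B P V f)
    (hlf : l ^ h ∣ f) (T : TorX A B) (hd3 : absD A B ≠ 3) (hd4 : absD A B ≠ 4)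
    (hgood : ∀ (N₀ : ℕ) (ι : Type) (R : Reps A B N₀ ι), GRd V R)
    (K : IntermediateField ℚ ℂ) [FiniteDimensional ℚ K] (hk : kk A B ≤ K)
    (hG : IsGalois (kk A B) (IntermediateField.extendScalars hk))
    (hab : ∀ σ τ : (IntermediateField.extendScalars hk) ≃ₐ[kk A B]
      (IntermediateField.extendScalars hk), σ * τ = τ * σ)
    (hdeg : ¬ p ∣ Module.finrank (kk A B) (IntermediateField.extendScalars hk))
    (hKf : ∀ x ∈ K, x ∈ (RF (idl f) : IntermediateField (kk A B) ℂ))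
    (Bn : ℕ → IntermediateField ℚ ℂ) (hlay : ∀ n, IsLayer l n (Bn n)) (hmono : Monotone Bn) :
    ∃ n₀ : ℕ, (¬ Bn (n₀ + 1) ≤ K ⊔ Bn n₀) ∧ ∀ n, n₀ ≤ n →
      ∀ L : IntermediateField ℚ ℂ, kk A B ≤ L → L ≤ K ⊔ Bn n →
      ∀ (m : ℕ) (Q : IntermediateField ℚ ℂ), IsLayer p m Q →
        padicValNat p (classNo (L ⊔ Q)) =
          padicValNat p (classNo ((L ⊓ (K ⊔ Bn n₀)) ⊔ Q)) := by
  have hpp : Fact p.Prime := ⟨hS.pp⟩
  have hls : (l = 3 ∧ h = 1) ∨ (l = 2 ∧ h = 2) := by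
    rcases hgen with ⟨h1, -, h2⟩ | ⟨h1, -, h2⟩
    · exact Or.inl ⟨h1, h2⟩
    · exact Or.inr ⟨h1, h2⟩
  have hlp : l.Prime := by
    rcases hls with ⟨rfl, -⟩ | ⟨rfl, -⟩
    · exact Nat.prime_three
    · exact Nat.prime_two
  have hlF : Fact l.Prime := ⟨hlp⟩
  have hpl : p ≠ l := by
    have h5 := hS.p5
    rcases hls with ⟨rfl, -⟩ | ⟨rfl, -⟩ <;> omega
  obtain ⟨ι, iι, ⟨R⟩⟩ := hREX A B hS.cq hd3 hd4 (p * f) (mul_ne_zero hS.pp.ne_zero hS.f0)
  have fdk : FiniteDimensional ℚ (kk A B) := FiniteDimensional.of_injective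
    (IntermediateField.inclusion hk).toLinearMap
    (IntermediateField.inclusion hk).toRingHom.injective
  have hfB : ∀ n, FiniteDimensional ℚ (Bn n) := fun n => (LAY_thm l n (Bn n) (hlay n)).1
  have hfL : ∀ n, FiniteDimensional ℚ ↥(K ⊔ Bn n) := fun n =>
    IntermediateField.finiteDimensional_sup K (Bn n)
  have hT : Twr l (kk A B) K Bn := ⟨hk, hG, hab, hlay, hmono⟩
  have hNL : ∃ (b : Ideal (OO A B)) (L : PeriodPair) (om : ℂ), IsNL b L om :=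
    ⟨_, _, _, R.nl R.i0⟩
  obtain ⟨n₁, hn₁⟩ := hFIN l g h hgen p A B P V f hS hlf T ι R (hgood _ _ R) K hk hdeg hKf Bn
    hlay hmono (fun n => lvl hLAY hIAF l h hls A B hS.cq T hNL f hS.f0 K hKf n (Bn n) (hlay n))
  obtain ⟨n₂, hn₂⟩ := end1 p l hpl (kk A B) K Bn hT
  obtain ⟨n₃, hn₃⟩ := grow l (kk A B) K Bn hT
  refine ⟨n₁ + n₂ + n₃, hn₃ _ (by omega), ?_⟩
  intro n hn L hkL hL m Q hQ
  obtain ⟨b, rfl⟩ := Nat.exists_eq_add_of_le hn
  exact hn₂ _ (by omega) b L hkL hL (hn₁ _ (by omega) b L hkL hL) m Q hQ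

end Pool.Agent.TWF


end

section

/-!
# TWF: the final theorem for `k = kk A B` and for all `k`
-/

set_option autoImplicit false

open NumberField IsDedekindDomain

namespace Pool.Agent.TWF

open _root_.MU3 Pool.Agent.MU3 Pool.Agent.MU3A Pool.Agent.MU3B Pool.Agent.RI Pool.Agent.RID
  Pool.Agent.MUX Pool.Agent.MUXJ Pool.Agent.MUXY Pool.Agent.TWT Pool.Agent.TWK
open Pool.Agent.MU3V (Sub)

/-- a valuation ring above the conjugate of an ideal of norm `p` -/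
theorem conjV (A B : ℤ) (hc : CQ A B) (p : ℕ) (hp : p.Prime) (P : Ideal (OO A B))
    (hP : IsPN p P) : ∃ V' : ValuationSubring ℂ, OverI V' (cjI P) := by
  have hP0 : P ≠ ⊥ := by
    rintro rfl
    exact natCast_ne_zero' hc hp.ne_zero (Ideal.mem_bot.1 hP.mem)
  have hpr : (cjI P).IsPrime := by
    have := hP.prime
    exact Ideal.IsPrime.comap _
  have hmem : ((p : ℕ) : OO A B) ∈ cjI P := by
    unfold cjI
    rw [Ideal.mem_comap, map_natCast]
    exact hP.mem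
  have hcard : Nat.card (OO A B ⧸ cjI P) = p := by
    have h1 : nI (cjI P) = p := by rw [nI_cjI hc hP0, hP.norm]
    exact h1
  have hmax : (cjI P).IsMaximal := by
    have hfin : Finite (OO A B ⧸ cjI P) :=
      Nat.finite_of_card_ne_zero (by rw [hcard]; exact hp.ne_zero)
    have := Fintype.ofFinite (OO A B ⧸ cjI P)
    have hc1 : Fintype.card (OO A B ⧸ cjI P) = p := by rw [← Nat.card_eq_fintype_card, hcard]
    apply Ideal.Quotient.maximal_of_isField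
    have := Fact.mk hp
    let e := ZMod.ringEquivOfPrime (OO A B ⧸ cjI P) hp hc1
    exact e.symm.toMulEquiv.isField (Field.toIsField (ZMod p))
  obtain ⟨V', hV', -⟩ := PVXx.exV hc (cjI P) p hmem hmax
  exact ⟨V', hV'⟩

/-- the prime-to-`l` part -/
theorem dvd_split (l a N : ℕ) [Fact l.Prime] (h : ¬ l ^ (a + 1) ∣ N) :
    ∃ r, ¬ l ∣ r ∧ N ∣ l ^ a * r := by
  have hN : N ≠ 0 := by
    rintro rfl
    exact h (dvd_zero _)
  obtain ⟨b, r, hr, hb⟩ := Nat.exists_eq_pow_mul_and_not_dvd hN l (Fact.out : l.Prime).ne_one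
  refine ⟨r, hr, ?_⟩
  rw [hb]
  refine Nat.mul_dvd_mul_right (pow_dvd_pow l ?_) r
  by_contra hlt
  push Not at hlt
  exact h ((pow_dvd_pow l hlt).trans (by rw [hb]; exact dvd_mul_right _ _))

/-- The statement for the field `k` and the prime `p`. -/
def StP (k : IntermediateField ℚ ℂ) (p : ℕ) : Prop :=
  ∀ (K : IntermediateField ℚ ℂ) [FiniteDimensional ℚ K] (hk : k ≤ K),
    IsGalois k (IntermediateField.extendScalars hk) →
    (∀ σ τ : (IntermediateField.extendScalars hk) ≃ₐ[k] (IntermediateField.extendScalars hk),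
      σ * τ = τ * σ) →
    ¬ p ∣ Module.finrank k (IntermediateField.extendScalars hk) →
    (∀ Q : Ideal (𝓞 K), Q.IsPrime → (p : 𝓞 K) ∈ Q → (p : 𝓞 K) ∉ Q ^ 2) →
    ∀ l : ℕ, (l = 2 ∨ l = 3) → ∃ n₀ : ℕ, ∀ B₀ : IntermediateField ℚ ℂ, IsLayer l n₀ B₀ →
      (∀ a : ℕ, ¬ l ^ (a + 1) ∣ Module.finrank k (IntermediateField.extendScalars hk) →
        ∀ n : ℕ, n₀ + a ≤ n → ∀ B B' : IntermediateField ℚ ℂ, IsLayer l n B →
        IsLayer l (n + 1) B' → ∀ (L : IntermediateField ℚ ℂ) (hL : k ≤ L),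
        L ≤ K ⊔ B' → ¬ L ≤ K ⊔ B →
        IsCyclic ((IntermediateField.extendScalars hL) ≃ₐ[k]
          (IntermediateField.extendScalars hL)) →
        ∀ (L₁ : IntermediateField ℚ ℂ) (h₁ : k ≤ L₁) (h₂ : L₁ ≤ L),
        ¬ l ∣ Module.finrank k (IntermediateField.extendScalars h₁) →
        (∃ e : ℕ, Module.finrank L₁ (IntermediateField.extendScalars h₂) = l ^ e) →
        ∀ (m : ℕ) (Q : IntermediateField ℚ ℂ), IsLayer p m Q →
          padicValNat p (classNo (L ⊔ Q)) = padicValNat p (classNo (L₁ ⊔ B₀ ⊔ Q))) ∧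
      ∀ n : ℕ, n₀ ≤ n → ∀ B : IntermediateField ℚ ℂ, IsLayer l n B →
        ∀ L : IntermediateField ℚ ℂ, k ≤ L → L ≤ K ⊔ B →
        ∀ (m : ℕ) (Q : IntermediateField ℚ ℂ), IsLayer p m Q →
          padicValNat p (classNo (L ⊔ Q)) = padicValNat p (classNo ((L ⊓ (K ⊔ B₀)) ⊔ Q))

/-- the statement for `k = kk A B` and one prime `p` with good reduction -/
theorem fin_p (hFIN : S_FIN3) (hLAY : Pool.Agent.MUXI.Si_LAY) (hIAF : Pool.Agent.MUXI.Si_IAF)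
    (hREX : Sy_REX) (hUNF : S_UNF) (hJTR : Pool.Agent.JT.Sj_JTR) (hDIR : Sj_DIR)
    (hLAYs : Sj_LAY) (A B : ℤ) (hc : CQ A B) (T : TorX A B) (hNL : NLex A B)
    (hd3 : absD A B ≠ 3) (hd4 : absD A B ≠ 4)
    (n₀ : ℕ) (hn₀ : Good A B n₀) (p : ℕ) (hp : p.Prime)
    (hp5 : 5 ≤ p) (hpD : ¬ (p : ℤ) ∣ absD A B) (hpn : ¬ p ∣ n₀)
    (P₁ P₂ : Ideal (𝓞 (kk A B))) (h1 : P₁.IsPrime) (h2 : P₂.IsPrime) (h12 : P₁ ≠ P₂)
    (hp1 : (p : 𝓞 (kk A B)) ∈ P₁) (hp2 : (p : 𝓞 (kk A B)) ∈ P₂) : StP (kk A B) p := by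
  intro K fdK hk hG hab hdeg hram l hl
  have hpF : Fact p.Prime := ⟨hp⟩
  obtain ⟨P, V, hP, hV, hpV⟩ := t_PVX A B hc p hp P₁ P₂ h1 h2 h12 hp1 hp2
  obtain ⟨V', hV'⟩ := conjV A B hc p hp P hP
  have hp0 : P ≠ ⊥ := by
    rintro rfl
    exact natCast_ne_zero' hc hp.ne_zero (Ideal.mem_bot.1 hP.mem)
  have hpV' : (p : ℂ) ∈ V'.nonunits := by
    have h3 : ((p : ℕ) : OO A B) ∈ cjI P := by
      unfold cjI
      rw [Ideal.mem_comap, map_natCast]
      exact hP.mem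
    have h4 := (hV' _).2 h3
    rwa [emb_natCast hc] at h4
  have hVn : V.valuation (n₀ : ℂ) = 1 := val_unit V p n₀ hp hpV hpn
  have hVn' : V'.valuation (n₀ : ℂ) = 1 := val_unit V' p n₀ hp hpV' hpn
  have hU : TorU A B K := hJTR A B hc T hNL K hk hG hab
  obtain ⟨M, hM0, hM⟩ := hDIR A B hc T K hU
  -- the exponent `h`
  obtain ⟨g, h, hgen⟩ : ∃ g h : ℕ, Pool.Agent.TWR.Gen l g h := by
    rcases hl with rfl | rfl
    · exact ⟨5, 2, Or.inr ⟨rfl, rfl, rfl⟩⟩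
    · exact ⟨4, 1, Or.inl ⟨rfl, rfl, rfl⟩⟩
  have hlp : l.Prime := by
    rcases hl with rfl | rfl
    · exact Nat.prime_two
    · exact Nat.prime_three
  have hlF : Fact l.Prime := ⟨hlp⟩
  have hpl : ¬ p ∣ l ^ h := by
    intro h3
    have h4 := (Nat.prime_dvd_prime_iff_eq hp hlp).1 (hp.dvd_of_dvd_pow h3)
    rcases hl with rfl | rfl <;> omega
  -- a base level
  have hD0 : absD A B ≠ 0 := by
    intro h3
    exact hpD (by rw [h3]; exact dvd_zero _)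
  have hDn : (((absD A B).natAbs : ℕ) : ℤ) = |absD A B| := Int.natCast_natAbs _
  have hSet : SetG p A B P V (2 * (absD A B).natAbs) := by
    refine ⟨hc, hp, hp5, hP, hV, hpD, ?_, ?_, ?_⟩
    · exact mul_ne_zero two_ne_zero (Int.natAbs_ne_zero.2 hD0)
    · intro h3
      rcases (Nat.Prime.dvd_mul hp).1 h3 with h4 | h4
      · have := Nat.le_of_dvd (by norm_num) h4
        omega
      · exact hpD (Int.natCast_dvd.2 h4)
    · rw [Nat.cast_mul, hDn, Nat.cast_two]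
      exact mul_dvd_mul_left 2 ((dvd_abs _ _).2 dvd_rfl)
  obtain ⟨ι, iι, ⟨R⟩⟩ := hREX A B hc hd3 hd4 1 one_ne_zero
  obtain ⟨f, hf0, hfp, hlf, hfD, hKf⟩ := hUNF p A B P V V' _ hSet hV' T 1 ι R
    (hn₀.2 V hVn 1 ι R) (hn₀.2 V' hVn' 1 ι R) K hk hdeg M hM0 hM hram (l ^ h)
    (pow_ne_zero _ hlp.ne_zero) hpl
  have hS : SetG p A B P V f := ⟨hc, hp, hp5, hP, hV, hpD, hf0, hfp, hfD⟩
  obtain ⟨Bn, hlay, hmono, huni⟩ := layers hLAYs l hl
  obtain ⟨n₁, hno, hmain⟩ := core hFIN hLAY hIAF hREX l g h hgen p A B P V f hS hlf T hd3 hd4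
    (fun N₀ ι' R' => hn₀.2 V hVn N₀ ι' R') K hk hG hab hdeg hKf Bn hlay hmono
  refine ⟨n₁, fun B₀ hB₀ => ?_⟩
  obtain rfl := huni n₁ B₀ hB₀
  refine ⟨?_, ?_⟩
  · intro a ha n hn B₁ B₂ hB₁ hB₂ L hkL hL hnL hcyc L₁ hk1 h1L hd1 hd2 m Q hQ
    obtain ⟨e, he⟩ := hd2
    obtain rfl := huni n B₁ hB₁
    obtain rfl := huni (n + 1) B₂ hB₂
    have hfL : ∀ n, FiniteDimensional ℚ ↥(K ⊔ Bn n) := fun n => by
      have : FiniteDimensional ℚ (Bn n) := (LAY_thm l n (Bn n) (hlay n)).1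
      exact IntermediateField.finiteDimensional_sup K (Bn n)
    have hT : Twr l (kk A B) K Bn := ⟨hk, hG, hab, hlay, hmono⟩
    obtain ⟨r, hr, hdr⟩ := dvd_split l a _ ha
    rw [hmain (n + 1) (by omega) L hkL hL m Q hQ,
      cor2 l a r n₁ hr (kk A B) K Bn hT hdr hno (n + 1) (by omega) L hkL hL hcyc hnL L₁ hk1 h1L e
        (dvd_of_eq he) hd1]
  · intro n hn B₁ hB₁ L hkL hL m Q hQ
    obtain rfl := huni n B₁ hB₁
    exact hmain n hn L hkL hL m Q hQ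

lemma kk_one : Complex.I ∈ kk (MUXZ.pA 1) (MUXZ.pB 1) := by
  have h : wC (MUXZ.pA 1) (MUXZ.pB 1) = Complex.I := by
    unfold wC
    rw [MUXZ.absD_p]
    unfold MUXZ.pB
    norm_num
  rw [← h]
  exact IntermediateField.subset_adjoin ℚ _ rfl

lemma kk_three : ∃ z ∈ kk (MUXZ.pA 3) (MUXZ.pB 3), z ^ 2 = -3 := by
  refine ⟨2 * wC (MUXZ.pA 3) (MUXZ.pB 3) - 1, ?_, ?_⟩
  · have h1 : wC (MUXZ.pA 3) (MUXZ.pB 3) ∈ kk (MUXZ.pA 3) (MUXZ.pB 3) :=
      IntermediateField.subset_adjoin ℚ _ rfl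
    have h2 : (2 : ℂ) ∈ kk (MUXZ.pA 3) (MUXZ.pB 3) := by
      exact_mod_cast (kk (MUXZ.pA 3) (MUXZ.pB 3)).algebraMap_mem 2
    have h3 : (1 : ℂ) ∈ kk (MUXZ.pA 3) (MUXZ.pB 3) := one_mem _
    exact sub_mem (mul_mem h2 h1) h3
  · unfold wC
    rw [MUXZ.absD_p]
    unfold MUXZ.pB
    norm_num
    have h3 : ((Real.sqrt 3 : ℝ) : ℂ) ^ 2 = 3 := by
      rw [← Complex.ofReal_pow, Real.sq_sqrt (by norm_num)]
      norm_num
    ring_nf
    rw [h3, Complex.I_sq]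
    norm_num

/-- All imaginary quadratic `k` except `ℚ(i)` and `ℚ(√-3)`, all split primes outside a finite set. -/
theorem final (hFIN : S_FIN3) (hLAY : Pool.Agent.MUXI.Si_LAY) (hIAF : Pool.Agent.MUXI.Si_IAF)
    (hREX : Sy_REX) (hNLE : Sy_NLE) (hUNF : S_UNF) (hTOR : ∀ A B : ℤ, CQ A B → TorX A B)
    (hGRB : Pool.Agent.MUXW.Sy_GRB) (hALU : Pool.Agent.MUXV.Sq_ALU)
    (hJTR : Pool.Agent.JT.Sj_JTR) (hJQF : Pool.Agent.JT.Sj_JQF) (hDIR : Sj_DIR)
    (hLAYs : Sj_LAY) (k : IntermediateField ℚ ℂ) (h2 : Module.finrank ℚ k = 2)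
    (hi : ∃ z ∈ k, (starRingEnd ℂ) z ≠ z) (h4 : ∀ z ∈ k, z ^ 2 ≠ -1)
    (h3 : ∀ z ∈ k, z ^ 2 ≠ -3) :
    ∃ S : Finset ℕ, ∀ p : ℕ, p.Prime → p ∉ S →
      (∃ P₁ P₂ : Ideal (𝓞 k), P₁.IsPrime ∧ P₂.IsPrime ∧ P₁ ≠ P₂ ∧ (p : 𝓞 k) ∈ P₁ ∧
        (p : 𝓞 k) ∈ P₂) → StP k p := by
  obtain ⟨d, hd, rfl, -⟩ := hJQF k h2 hi
  have hd1 : d ≠ 1 := by
    rintro rfl
    exact h4 _ kk_one Complex.I_sq
  have hd3 : d ≠ 3 := by
    rintro rfl
    obtain ⟨z, hz, hz3⟩ := kk_three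
    exact h3 z hz hz3
  have hc : CQ (MUXZ.pA d) (MUXZ.pB d) := MUXZ.cq_p hd
  have T := hTOR _ _ hc
  have hD3 : absD (MUXZ.pA d) (MUXZ.pB d) ≠ 3 := by
    rw [MUXZ.absD_p]
    split_ifs <;> omega
  have hD4 : absD (MUXZ.pA d) (MUXZ.pB d) ≠ 4 := by
    rw [MUXZ.absD_p]
    split_ifs <;> omega
  have hd0 : d ≠ 0 := hd.ne_zero
  have hD0 : absD (MUXZ.pA d) (MUXZ.pB d) ≠ 0 := by
    rw [MUXZ.absD_p]
    split_ifs <;> omega
  have hNL : NLex (MUXZ.pA d) (MUXZ.pB d) := by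
    obtain ⟨L, om, hL⟩ := hNLE _ _ hc hD3 hD4 ⊤ (by
      have h1 := natCast_ne_zero' hc one_ne_zero
      intro h5
      have h6 : ((1 : ℕ) : OO (MUXZ.pA d) (MUXZ.pB d)) ∈
        (⊤ : Ideal (OO (MUXZ.pA d) (MUXZ.pB d))) := Submodule.mem_top
      rw [h5, Ideal.mem_bot] at h6
      exact h1 h6)
    exact ⟨⊤, L, om, hL⟩
  obtain ⟨ι, iι, ⟨R⟩⟩ := hREX _ _ hc hD3 hD4 1 one_ne_zero
  obtain ⟨n₀, hn₀⟩ := t_GRD _ _ hc T hGRB hALU 1 ι R
  refine ⟨{2, 3} ∪ (absD (MUXZ.pA d) (MUXZ.pB d)).natAbs.primeFactors ∪ n₀.primeFactors,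
    fun p hp hpS hex => ?_⟩
  rw [Finset.notMem_union, Finset.notMem_union] at hpS
  obtain ⟨⟨hp23, hpD⟩, hpn⟩ := hpS
  have hp5 : 5 ≤ p := by
    by_contra h5
    have h6 := hp.two_le
    have h7 : p ≠ 4 := by rintro rfl; exact absurd hp (by norm_num)
    apply hp23
    have h8 : p = 2 ∨ p = 3 := by omega
    rcases h8 with rfl | rfl <;> simp
  have hpD' : ¬ (p : ℤ) ∣ absD (MUXZ.pA d) (MUXZ.pB d) := by
    intro h5
    exact hpD (Nat.mem_primeFactors.2 ⟨hp, Int.natCast_dvd.1 h5, Int.natAbs_ne_zero.2 hD0⟩)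
  have hpn' : ¬ p ∣ n₀ := fun h5 => hpn (Nat.mem_primeFactors.2 ⟨hp, h5, hn₀.1⟩)
  obtain ⟨P₁, P₂, e1, e2, e12, ep1, ep2⟩ := hex
  exact fin_p hFIN hLAY hIAF hREX hUNF hJTR hDIR hLAYs _ _ hc T hNL hD3 hD4 n₀ hn₀ p hp hp5
    hpD' hpn' P₁ P₂ e1 e2 e12 ep1 ep2

end Pool.Agent.TWF


end
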