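import Pool.Agent.MVF.C006
import Pool.Agent.TWM.C02
import Pool.Agent.TWM.C06

/-! Parts: TWG.GAU -/

section

/-!
# TWG, module GAU (helper19): Gauss sums of primitive characters and their valuations
-/

set_option autoImplicit false

namespace Pool.Agent.TWG

open Pool.Agent.MU3F (ex)
open Finset

noncomputable section

namespace Gau

lemma ex_int (N : ℕ) [NeZero N] (j : ℤ) :
    ex ((j : ℚ) / N) = ZMod.stdAddChar ((j : ℤ) : ZMod N) := by
  rw [ZMod.stdAddChar_coe]
  unfold ex
  congr 1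
  push_cast
  ring

/-- the shifted Gauss sum of a primitive character -/
theorem shift {N : ℕ} [NeZero N] (χ : DirichletCharacter ℂ N) (hχ : χ.IsPrimitive) (k : ℤ) :
    ∑ b ∈ range N, χ (b : ZMod N) * ex (((b * k : ℤ) : ℚ) / N) =
      χ⁻¹ (k : ZMod N) * gaussSum χ ZMod.stdAddChar := by
  rw [← gaussSum_mulShift_of_isPrimitive _ hχ, gaussSum, ← TWR.STAAux.sum_zmod]
  refine sum_congr rfl fun b _ => ?_
  rw [ex_int, AddChar.mulShift_apply]
  push_cast
  rw [mul_comm (k : ZMod N)]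

lemma one_sub_dvd (l n : ℕ) (hn : 2 ≤ n) :
    ((l : ZMod (l ^ n)) ^ (n - 1)) * ((l : ZMod (l ^ n)) ^ (n - 1)) = 0 := by
  rw [← pow_add]
  have h1 : n - 1 + (n - 1) = n + (n - 2) := by omega
  rw [h1, pow_add]
  have h2 : (l : ZMod (l ^ n)) ^ n = 0 := by
    have := ZMod.natCast_self (l ^ n)
    push_cast at this
    exact this
  rw [h2, zero_mul]

/-- a character modulo `l ^ n` which is not trivial at `1 + l ^ (n - 1)` is primitive -/
theorem prim {l n : ℕ} (hl : l.Prime) (hn : 2 ≤ n) (χ : DirichletCharacter ℂ (l ^ n))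
    (h : χ (1 + (l : ZMod (l ^ n)) ^ (n - 1)) ≠ 1) : χ.IsPrimitive := by
  have _nz : NeZero (l ^ n) := ⟨pow_ne_zero _ hl.ne_zero⟩
  obtain ⟨k, hk, hk'⟩ := (Nat.dvd_prime_pow hl).1 χ.conductor_dvd_level
  by_contra hne
  have hkn : k ≤ n - 1 := by
    rcases Nat.lt_or_ge k n with h1 | h1
    · omega
    · exfalso
      apply hne
      show χ.conductor = l ^ n
      rw [hk', le_antisymm hk h1]
  obtain ⟨hdv, χ0, hχ0⟩ := χ.factorsThrough_conductor
  have hx := one_sub_dvd l n hn
  set x : ZMod (l ^ n) := (l : ZMod (l ^ n)) ^ (n - 1) with hxd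
  have h3 : (1 + x) * (1 - x) = 1 := by linear_combination -hx
  let u : (ZMod (l ^ n))ˣ := ⟨1 + x, 1 - x, h3, by rw [mul_comm]; exact h3⟩
  have h4 : χ (u : ZMod (l ^ n)) = χ0 ((u : ZMod (l ^ n)).cast : ZMod χ.conductor) := by
    conv_lhs => rw [hχ0]
    exact DirichletCharacter.changeLevel_eq_cast_of_dvd χ0 hdv u
  have h5 : ((u : ZMod (l ^ n)).cast : ZMod χ.conductor) = 1 := by
    show (((1 + x : ZMod (l ^ n))).cast : ZMod χ.conductor) = 1
    have h6 : (1 + x : ZMod (l ^ n)) = ((1 + l ^ (n - 1) : ℕ) : ZMod (l ^ n)) := by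
      rw [hxd]
      push_cast
      ring
    rw [h6, ZMod.cast_natCast hdv]
    have h7 : ((l ^ (n - 1) : ℕ) : ZMod χ.conductor) = 0 := by
      rw [ZMod.natCast_eq_zero_iff, hk']
      exact pow_dvd_pow l hkn
    push_cast at h7
    push_cast
    rw [h7, add_zero]
  apply h
  show χ (u : ZMod (l ^ n)) = 1
  rw [h4, h5, map_one]

/-- a nontrivial character modulo a prime number is primitive -/
theorem prim1 {p : ℕ} (hp : p.Prime) (χ : DirichletCharacter ℂ p) (h : χ ≠ 1) :
    χ.IsPrimitive := by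
  have _nz : NeZero p := ⟨hp.ne_zero⟩
  rcases (Nat.dvd_prime hp).1 χ.conductor_dvd_level with h1 | h1
  · exfalso
    apply h
    rw [← DirichletCharacter.factorsThrough_one_iff, ← h1]
    exact χ.factorsThrough_conductor
  · exact h1

theorem prim_inv {N : ℕ} {χ : DirichletCharacter ℂ N} (h : χ.IsPrimitive) :
    χ⁻¹.IsPrimitive := by
  show χ⁻¹.conductor = N
  rw [DirichletCharacter.conductor_inv]
  exact h

/-- the product of the Gauss sums of `χ` and `χ⁻¹` -/
theorem gmul {N : ℕ} [NeZero N] (χ : DirichletCharacter ℂ N) (hχ : χ.IsPrimitive) :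
    gaussSum χ ZMod.stdAddChar * gaussSum χ⁻¹ ZMod.stdAddChar = χ (-1) * N := by
  have h1 : gaussSum χ ZMod.stdAddChar * gaussSum χ⁻¹ ZMod.stdAddChar =
      ∑ k : ZMod N, (∑ b : ZMod N, χ b * ZMod.stdAddChar (k * b)) * ZMod.stdAddChar k := by
    conv_lhs => rw [gaussSum.eq_1 χ⁻¹]
    rw [mul_sum]
    refine sum_congr rfl fun k _ => ?_
    have h2 := gaussSum_mulShift_of_isPrimitive (ZMod.stdAddChar (N := N)) hχ k
    rw [gaussSum.eq_1 χ (AddChar.mulShift _ _)] at h2
    simp only [AddChar.mulShift_apply] at h2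
    rw [h2]
    ring
  have h3 : ∀ t : ZMod N, ∑ i : ZMod N, (ZMod.stdAddChar (t * i) : ℂ) =
      if t = 0 then (N : ℂ) else 0 := by
    intro t
    have := AddChar.sum_mulShift t (ZMod.isPrimitive_stdAddChar N)
    simp only [ZMod.card] at this
    have h4 : ∀ i : ZMod N, (ZMod.stdAddChar (t * i) : ℂ) = ZMod.stdAddChar (i * t) := by
      intro i; rw [mul_comm]
    simp only [h4]
    exact_mod_cast this
  rw [h1]
  simp only [sum_mul]
  rw [sum_comm]
  have h5 : ∀ b : ZMod N, ∑ k : ZMod N, χ b * ZMod.stdAddChar (k * b) * ZMod.stdAddChar k =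
      χ b * if b + 1 = 0 then (N : ℂ) else 0 := by
    intro b
    rw [← h3 (b + 1), mul_sum]
    refine sum_congr rfl fun k _ => ?_
    rw [mul_assoc, ← AddChar.map_add_eq_mul]
    congr 2
    ring
  rw [sum_congr rfl fun b _ => h5 b, sum_eq_single (-1)]
  · simp
  · intro b _ hb
    rw [if_neg, mul_zero]
    intro h6
    exact hb (eq_neg_of_add_eq_zero_left h6)
  · intro h6
    exact absurd (mem_univ _) h6

lemma std_pow {N : ℕ} [NeZero N] (a : ZMod N) : (ZMod.stdAddChar a : ℂ) ^ N = 1 := by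
  rw [← AddChar.map_nsmul_eq_pow, nsmul_eq_mul, ZMod.natCast_self, zero_mul,
    AddChar.map_zero_eq_one]

lemma root_one (V : ValuationSubring ℂ) {N : ℕ} (hN : N ≠ 0) {z : ℂ} (h : z ^ N = 1) :
    V.valuation z = 1 := by
  have h1 : V.valuation z ^ N = 1 := by rw [← map_pow, h, map_one]
  rcases lt_trichotomy (V.valuation z) 1 with h2 | h2 | h2
  · have := pow_lt_one₀ (zero_le) h2 hN
    exact absurd h1 this.ne
  · exact h2
  · have := one_lt_pow₀ h2 hN
    exact absurd h1 this.ne'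

/-- Gauss sums are integral -/
theorem gle (V : ValuationSubring ℂ) {N : ℕ} [NeZero N] (χ : DirichletCharacter ℂ N) :
    V.valuation (gaussSum χ ZMod.stdAddChar) ≤ 1 := by
  rw [gaussSum]
  refine V.valuation.map_sum_le fun a _ => ?_
  rw [map_mul, root_one V (NeZero.ne N) (std_pow a), mul_one]
  exact Pool.Agent.TWB.TWBAux.chi_val V N χ a

/-- `v (g χ) = 1` if `v N = 1` -/
theorem gone (V : ValuationSubring ℂ) {N : ℕ} [NeZero N] (χ : DirichletCharacter ℂ N)
    (hχ : χ.IsPrimitive) (hN : V.valuation (N : ℂ) = 1) :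
    V.valuation (gaussSum χ ZMod.stdAddChar) = 1 := by
  have h1 := congrArg V.valuation (gmul χ hχ)
  have h2 : V.valuation (χ (-1)) = 1 := by
    refine root_one V two_ne_zero ?_
    rw [← map_pow]
    simp
  rw [map_mul, map_mul, h2, hN, one_mul] at h1
  refine le_antisymm (gle V χ) ?_
  calc (1 : _) = V.valuation (gaussSum χ ZMod.stdAddChar) *
        V.valuation (gaussSum χ⁻¹ ZMod.stdAddChar) := h1.symm
    _ ≤ V.valuation (gaussSum χ ZMod.stdAddChar) * 1 := mul_le_mul_right (gle V χ⁻¹) _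
    _ = _ := mul_one _

/-- `v (g χ) ^ (p - 1) ≤ v p` for a nontrivial character modulo `p` -/
theorem gpi (V : ValuationSubring ℂ) {p : ℕ} (hp : p.Prime) (χ : DirichletCharacter ℂ p)
    (hχ : χ ≠ 1) [NeZero p] :
    V.valuation (gaussSum χ ZMod.stdAddChar) ^ (p - 1) ≤ V.valuation (p : ℂ) := by
  set ζ : ℂ := ZMod.stdAddChar (1 : ZMod p) with hζ
  have hpr : IsPrimitiveRoot ζ p := by
    rw [IsPrimitiveRoot.iff_def]
    refine ⟨std_pow 1, fun k hk => ?_⟩
    rw [hζ, ← AddChar.map_nsmul_eq_pow, nsmul_eq_mul, mul_one] at hk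
    have h1 : ZMod.stdAddChar ((k : ℕ) : ZMod p) = ZMod.stdAddChar (0 : ZMod p) := by
      rw [hk, AddChar.map_zero_eq_one]
    exact (ZMod.natCast_eq_zero_iff _ _).1 (ZMod.injective_stdAddChar h1)
  have hv : V.valuation ζ = 1 := root_one V hp.ne_zero (std_pow 1)
  have hpow : ∀ k : ℕ, V.valuation (ζ ^ k - 1) ≤ V.valuation (ζ - 1) := by
    intro k
    induction k with
    | zero => simp
    | succ k ih =>
      have h1 : ζ ^ (k + 1) - 1 = ζ * (ζ ^ k - 1) + (ζ - 1) := by ring
      rw [h1]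
      refine (V.valuation.map_add _ _).trans (max_le ?_ le_rfl)
      rw [map_mul, hv, one_mul]
      exact ih
  have h2 : V.valuation (gaussSum χ ZMod.stdAddChar) ≤ V.valuation (ζ - 1) := by
    have h3 : gaussSum χ ZMod.stdAddChar =
        ∑ a : ZMod p, χ a * (ζ ^ (a.val) - 1) := by
      have h4 : ∑ a : ZMod p, χ a = 0 := MulChar.sum_eq_zero_of_ne_one hχ
      have h5 : ∀ a : ZMod p, ζ ^ a.val = ZMod.stdAddChar a := by
        intro a
        rw [hζ, ← AddChar.map_nsmul_eq_pow, nsmul_eq_mul, mul_one, ZMod.natCast_val,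
          ZMod.cast_id]
      rw [gaussSum]
      simp only [mul_sub, mul_one, sum_sub_distrib, h5]
      rw [h4, sub_zero]
    rw [h3]
    refine V.valuation.map_sum_le fun a _ => ?_
    rw [map_mul]
    calc V.valuation (χ a) * V.valuation (ζ ^ a.val - 1) ≤ 1 * V.valuation (ζ ^ a.val - 1) :=
          mul_le_mul_left (Pool.Agent.TWB.TWBAux.chi_val V p χ a) _
      _ = V.valuation (ζ ^ a.val - 1) := one_mul _
      _ ≤ _ := hpow _
  have h6 : V.valuation (ζ - 1) ^ (p - 1) ≤ V.valuation (p : ℂ) := by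
    obtain ⟨n, hn⟩ : ∃ n, p = n + 1 := ⟨p - 1, by have := hp.pos; omega⟩
    have h7 : ∏ k ∈ range n, (1 - ζ ^ (k + 1)) = (p : ℂ) := by
      have h8 : IsPrimitiveRoot ζ (n + 1) := by rw [← hn]; exact hpr
      rw [h8.prod_one_sub_pow_eq_order, hn]
      push_cast
      ring
    rw [← h7, map_prod]
    have h9 : V.valuation (ζ - 1) ^ (p - 1) = ∏ _k ∈ range n, V.valuation (ζ - 1) := by
      rw [prod_const, card_range]
      congr 1
      omega
    rw [h9]
    refine prod_le_prod' fun k hk => ?_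
    have hk1 : k + 1 < p := by
      rw [mem_range] at hk
      omega
    have hcop : Nat.Coprime (k + 1) p := by
      rw [Nat.coprime_comm, hp.coprime_iff_not_dvd]
      intro hd
      exact absurd (Nat.le_of_dvd (Nat.succ_pos k) hd) (by omega)
    obtain ⟨j, hj⟩ : ∃ j : ℕ, (ζ ^ (k + 1)) ^ j = ζ := by
      obtain ⟨j, hj⟩ := Nat.exists_mul_mod_eq_one_of_coprime hcop hp.one_lt
      refine ⟨j, ?_⟩
      rw [← pow_mul]
      have h11 := Nat.div_add_mod ((k + 1) * j) p
      rw [hj.2] at h11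
      rw [← h11, pow_add, pow_mul, hpr.pow_eq_one, one_pow, one_mul, pow_one]
    have hpow2 : ∀ (z : ℂ) (_ : V.valuation z = 1) (i : ℕ),
        V.valuation (z ^ i - 1) ≤ V.valuation (z - 1) := by
      intro z hz i
      induction i with
      | zero => simp
      | succ i ih =>
        have h1 : z ^ (i + 1) - 1 = z * (z ^ i - 1) + (z - 1) := by ring
        rw [h1]
        refine (V.valuation.map_add _ _).trans (max_le ?_ le_rfl)
        rw [map_mul, hz, one_mul]
        exact ih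
    have h10 := hpow2 (ζ ^ (k + 1)) (by rw [map_pow, hv, one_pow]) j
    rw [hj] at h10
    refine h10.trans (le_of_eq ?_)
    rw [← Valuation.map_neg]
    congr 1
    ring
  calc V.valuation (gaussSum χ ZMod.stdAddChar) ^ (p - 1) ≤ V.valuation (ζ - 1) ^ (p - 1) :=
        pow_le_pow_left₀ zero_le h2 _
    _ ≤ _ := h6

end Gau

end

end Pool.Agent.TWG


end
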