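import Pool.Agent.MVF.C008
import Pool.Agent.MVF.C014
import Pool.Agent.MVF.C123
import Pool.Agent.TWM.C05
import Pool.Agent.TWM.C06
import Pool.Agent.TWM.C12

/-! Parts: TWG.HG, TWG.GG, TWG.HYP, TWG.SUM, TWG.SYMA -/

section

/-!
# TWG (helper19): block HY of MUX for every prime `p` (Theorem C of MP_b78433_nt)

`SetH` replaces `SetP` (no condition on `p`). The statements and the proofs are those of `Pool/Agent/MUX/StHX2.lean`
and `HY_*.lean`.
-/

set_option autoImplicit false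

namespace Pool.Agent.TWG

open _root_.MU3 Pool.Agent.MU3A Pool.Agent.MU3B Pool.Agent.MU3F Pool.Agent.MUX Pool.Agent.MUXH
  Pool.Agent.MuSym OnePoint
open Pool.Agent.MUXHY (toCQ toEI toLI nI_eq cjI_eq PhiI_eq PP N0X Sy_RAT Sy_ROU)
open scoped ComplexConjugate

noncomputable section

/-- `p` a prime number which splits in `k`, `P` a prime ideal above `p`, `V` above `P`, `p` does not divide `f`, `D` divides `f` -/
structure SetH (p : ℕ) (A B : ℤ) (P : Ideal (OO A B)) (V : ValuationSubring ℂ) (f : ℕ) : Prop where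
  cq : CQ A B
  pp : p.Prime
  hP : IsPN p P
  hV : OverI V P
  f0 : f ≠ 0
  fp : ¬ p ∣ f
  fD : absD A B ∣ (f : ℤ)

/-- VAL for every prime `p` -/
def Sy_VAL : Prop :=
  ∀ (p : ℕ) (A B : ℤ) (P : Ideal (OO A B)) (V : ValuationSubring ℂ) (f : ℕ)
    (_ : SetH p A B P V f),
    p.Prime ∧ V.valuation (p : ℂ) < 1 ∧ (∀ x : OO A B, V.valuation (emb x) ≤ 1) ∧
    (∀ x : OO A B, V.valuation (emb x) = 1 ↔ x ∉ P) ∧
    (∀ n : ℤ, V.valuation (n : ℂ) ≤ 1) ∧
    (∀ n : ℤ, ¬ (p : ℤ) ∣ n → V.valuation (n : ℂ) = 1) ∧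
    (∀ (r : ℕ) (z : ℂ), r ≠ 0 → z ^ r = 1 → V.valuation z = 1) ∧
    V.valuation (f : ℂ) = 1 ∧ V.valuation (absD A B : ℂ) = 1 ∧ 0 < absD A B ∧
    ¬ (p : ℤ) ∣ absD A B

/-- IDE for every prime `p` -/
def Sy_IDE : Prop :=
  ∀ (p : ℕ) (A B : ℤ) (P : Ideal (OO A B)) (V : ValuationSubring ℂ) (f : ℕ)
    (_ : SetH p A B P V f),
    P ≠ ⊥ ∧ P.IsMaximal ∧ IsCoprime P (cjI P) ∧ IsCoprime P (idl (A := A) (B := B) f) ∧
    idl f * cjI P ≠ ⊥ ∧ ((p * f : ℕ) : OO A B) ∈ idl f * cjI P ∧ idl f * cjI P ≤ cjI P ∧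
    idl f * cjI P ≤ sp ((absD A B : ℤ) : OO A B) ∧ ((p : ℕ) : OO A B) ∈ cjI P ∧
    ∀ (h : ℕ) (al : OO A B), 1 ≤ h → P ^ h = sp al →
      al ≠ 0 ∧ IsCoprime (sp al) (idl f * cjI P) ∧ star al ∉ P

/-- CHR for every prime `p` -/
def Sy_CHR : Prop :=
  ∀ (p : ℕ) (A B : ℤ) (P : Ideal (OO A B)) (V : ValuationSubring ℂ) (f : ℕ)
    (_ : SetH p A B P V f) (e : OO A B → ℂ) (_ : IsEI (idl f * cjI P) e),
    nuX e 1 = 1 ∧ nuX e p = 0 ∧ (∀ d d', nuX e (d * d') = nuX e d * nuX e d') ∧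
    (∀ d d' : ℤ, ((p * N0X A B f : ℕ) : ℤ) ∣ d - d' → nuX e d = nuX e d') ∧
    (∀ d, V.valuation (nuX e d) ≤ 1)

/-- EIG for every prime `p` -/
def Sy_EIG : Prop :=
  ∀ (p : ℕ) (A B : ℤ) (P : Ideal (OO A B)) (V : ValuationSubring ℂ) (f : ℕ)
    (_ : SetH p A B P V f) (e : OO A B → ℂ) (_ : IsEI (idl f * cjI P) e) (h : ℕ)
    (al : OO A B) (_ : 1 ≤ h) (_ : P ^ h = sp al),
    V.valuation (e al * conj (emb al)) = 1 ∧ IsAlgebraic ℚ (e al * conj (emb al))

/-- SYM for every prime `p` -/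
def Sy_SYM : Prop :=
  ∀ (p : ℕ) (A B : ℤ) (P : Ideal (OO A B)) (V : ValuationSubring ℂ) (f : ℕ)
    (_ : SetH p A B P V f) (ι : Type) (_ : Fintype ι) (R : Reps A B (p * f) ι)
    (e : OO A B → ℂ) (_ : IsEI (idl f * cjI P) e) (kk : ι → ℂ),
    (∀ i, IsSym (p ^ (1 + 1) * N0X A B f) (nuX e) (PP R P e kk i)) ∧
    (∀ i x y, hecke p (nuX e) (PP R P e kk i) x y = PP R P e kk (i + 1) x y) ∧
    ∀ (h : ℕ) (al : OO A B), 1 ≤ h → P ^ h = sp al → ∀ x y,
      PP R P e kk h x y = e al * conj (emb al) * PP R P e kk 0 x y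

/-- ALF for every prime `p` -/
def Sy_ALF : Prop :=
  ∀ (p : ℕ) (A B : ℤ) (P : Ideal (OO A B)) (V : ValuationSubring ℂ) (f : ℕ)
    (_ : SetH p A B P V f) (ι : Type) (_ : Fintype ι) (R : Reps A B (p * f) ι)
    (e : OO A B → ℂ) (_ : IsEI (idl f * cjI P) e) (kk : ι → ℂ) (_ : ∀ i, IsAlgebraic ℚ (kk i)),
    (∀ x y, IsAlgebraic ℚ (PP R P e kk 0 x y)) ∧
    ∃ T : Finset ℂ, ∀ x y, PP R P e kk 0 x y ∈ AddSubgroup.closure (T : Set ℂ)

/-- PRX for every prime `p` -/
def Sy_PRX : Prop :=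
  ∀ (p : ℕ) (A B : ℤ) (P : Ideal (OO A B)) (V : ValuationSubring ℂ) (f : ℕ)
    (_ : SetH p A B P V f) (ι : Type) (_ : Fintype ι) (R : Reps A B (p * f) ι)
    (e : OO A B → ℂ) (_ : IsEI (idl f * cjI P) e) (kk : ι → ℂ) (s : ℂ),
    ∃ (q : ℕ) (c : ℕ → ℂ), q ≠ 0 ∧ (∀ t, V.valuation (c t) ≤ 1) ∧ ∀ x y : OnePoint ℚ,
      ∑ t ∈ Finset.range q, c t * sgnPart s (PP R P e kk 0) (mob q t 0 q x) (mob q t 0 q y) =
        PP R P e kk 0 x y

theorem ty_VAL : Sy_VAL := by
  intro p A B P V f hS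
  have hQ : MUXF.CQ A B := toCQ hS.cq
  have hp : p.Prime := hS.pp
  have hpv : V.valuation (p : ℂ) < 1 := by
    have h1 := (hS.hV _).2 hS.hP.mem
    have h2 : emb ((p : ℕ) : OO A B) = (p : ℂ) := by
      have h3 := MUXF.AlgX.emb_intCast hQ (p : ℤ)
      rw [Int.cast_natCast, Int.cast_natCast] at h3
      exact h3
    rw [h2] at h1
    exact (ValuationSubring.mem_nonunits_iff _).1 h1
  have hle : ∀ x : OO A B, V.valuation (emb x) ≤ 1 := fun x =>
    (ValuationSubring.valuation_le_one_iff _ _).2 (MUXHY.Val.emb_mem hQ V x)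
  have hpf : ¬ (p : ℤ) ∣ (f : ℤ) := fun h => hS.fp (Int.natCast_dvd_natCast.1 h)
  have hpD : ¬ (p : ℤ) ∣ absD A B := fun h => hpf (h.trans hS.fD)
  refine ⟨hp, hpv, hle, ?_, MUXHY.Val.int_le V, MUXHY.Val.int_one hp hpv, MUXHY.Val.root_one V, ?_, ?_, ?_, hpD⟩
  · intro x
    constructor
    · intro h hx
      have h1 := (hS.hV x).2 hx
      have h2 : V.valuation (emb x) < 1 := (ValuationSubring.mem_nonunits_iff _).1 h1
      rw [h] at h2
      exact lt_irrefl _ h2
    · intro hx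
      refine le_antisymm (hle x) (not_lt.1 fun hlt => hx ?_)
      exact (hS.hV x).1 ((ValuationSubring.mem_nonunits_iff _).2 hlt)
  · have h := MUXHY.Val.int_one hp hpv (f : ℤ) hpf
    rwa [Int.cast_natCast] at h
  · exact MUXHY.Val.int_one hp hpv _ hpD
  · exact MUXF.AlgX.absD_pos hQ

open MUXHY.Ide in
theorem ty_IDE (h1 : MUXF.Sx_ALG) : Sy_IDE := by
  intro p A B P V f hs
  have hcq := toCQ hs.cq
  obtain ⟨-, -, hint, hfin, hdom⟩ := h1 A B hcq
  have hpr := hs.hP.prime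
  have hpp : p.Prime := hs.pp
  have hndvd : ¬ (p : ℤ) ∣ B ^ 2 + 4 * A := by
    intro h
    apply hs.fp
    have h1 : (p : ℤ) ∣ absD A B := by
      have h2 : absD A B = -(B ^ 2 + 4 * A) := rfl
      rw [h2]
      exact (dvd_neg).2 h
    exact Int.natCast_dvd_natCast.1 (h1.trans hs.fD)
  have hnat0 : ∀ n : ℕ, n ≠ 0 → (n : OO A B) ≠ 0 := by
    intro n hn h0
    have e1 := (hint (n : ℤ)).2
    have e2 : (((n : ℕ) : ℤ) : OO A B) = (n : OO A B) := by push_cast; rfl
    rw [e2, h0] at e1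
    have e3 : nm (0 : OO A B) = 0 := by
      have := (hint 0).2
      simpa using this
    rw [e3] at e1
    have e4 : (n : ℤ) = 0 := by
      by_contra hne
      have := pow_ne_zero 2 hne
      exact this e1.symm
    exact hn (by exact_mod_cast e4)
  have hpP := hs.hP.mem
  -- the integer `r`
  obtain ⟨r, hr1, hr2⟩ := Pool.Agent.MUXV.tq_DGI A B P p hpp hs.hP.norm
  have c1 : P ≠ ⊥ := by
    intro h
    rw [h] at hpP
    exact hnat0 p hpp.ne_zero (by simpa using hpP)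
  have c2 : P.IsMaximal := by
    have := hfin P c1
    exact Ideal.Quotient.maximal_of_isField P (Finite.isField_of_domain (OO A B ⧸ P))
  have hpC : (p : OO A B) ∈ cjI P := nat_mem_cjI hpP
  have c3 : IsCoprime P (cjI P) := by
    have hx : (⟨-r, 1⟩ : OO A B) ∈ P := (hr2 _).2 (by simp)
    have hy : (⟨-(B - r), 1⟩ : OO A B) ∈ cjI P := by
      rw [mem_cjI]
      refine (hr2 _).2 ?_
      simp
    have hcop : IsCoprime (B - 2 * r) (p : ℤ) := by
      have hp' := Nat.prime_iff_prime_int.1 hpp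
      refine ((hp'.coprime_iff_not_dvd).2 ?_).symm
      intro hd
      apply hndvd
      have e1 : B ^ 2 + 4 * A = (B - 2 * r) * (B - 2 * r) - 4 * (r ^ 2 - B * r - A) := by ring
      rw [e1]
      exact dvd_sub (hd.mul_right _) (hr1.mul_left _)
    obtain ⟨u, v, huv⟩ := hcop
    rw [Ideal.isCoprime_iff_exists]
    refine ⟨(u : OO A B) * ⟨-r, 1⟩ + (v : OO A B) * (p : OO A B),
      add_mem (P.mul_mem_left _ hx) (P.mul_mem_left _ hpP),
      -((u : OO A B) * ⟨-(B - r), 1⟩), neg_mem ((cjI P).mul_mem_left _ hy), ?_⟩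
    have e1 : (⟨-r, 1⟩ : OO A B) = ⟨-(B - r), 1⟩ + ((B - 2 * r : ℤ) : OO A B) := by
      apply QuadraticAlgebra.ext
      · simp only [QuadraticAlgebra.re_add, QuadraticAlgebra.re_intCast, Int.cast_id]
        ring
      · simp only [QuadraticAlgebra.im_add, QuadraticAlgebra.im_intCast, add_zero]
    have e2 : (u : OO A B) * ((B - 2 * r : ℤ) : OO A B) + (v : OO A B) * (p : OO A B) = 1 := by
      have := congrArg (fun n : ℤ => (n : OO A B)) huv
      simpa using this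
    rw [e1]
    linear_combination e2
  have c4 : IsCoprime P (idl (A := A) (B := B) f) := by
    have hcop : IsCoprime (p : ℤ) (f : ℤ) := by
      rw [Nat.isCoprime_iff_coprime]
      exact (Nat.Prime.coprime_iff_not_dvd hpp).2 hs.fp
    obtain ⟨u, v, huv⟩ := hcop
    rw [Ideal.isCoprime_iff_exists]
    refine ⟨(u : OO A B) * (p : OO A B), P.mul_mem_left _ hpP, (v : OO A B) * (f : OO A B),
      Ideal.mul_mem_left _ _ (Ideal.mem_span_singleton_self _), ?_⟩
    have := congrArg (fun n : ℤ => (n : OO A B)) huv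
    simpa using this
  have c6 : ((p * f : ℕ) : OO A B) ∈ idl f * cjI P := by
    have e : ((p * f : ℕ) : OO A B) = (f : OO A B) * (p : OO A B) := by push_cast; ring
    rw [e]
    exact Ideal.mul_mem_mul (Ideal.mem_span_singleton_self _) hpC
  refine ⟨c1, c2, c3, c4, ?_, c6, Ideal.mul_le_right, ?_, hpC, ?_⟩
  · intro h
    rw [h] at c6
    exact hnat0 (p * f) (mul_ne_zero hpp.ne_zero hs.f0) (by simpa using c6)
  · refine Ideal.mul_le_left.trans ?_
    rw [Ideal.span_singleton_le_span_singleton]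
    obtain ⟨k, hk⟩ := hs.fD
    refine ⟨(k : OO A B), ?_⟩
    have := congrArg (fun n : ℤ => (n : OO A B)) hk
    simpa using this
  · intro h al hh hPal
    have hcc : IsCoprime (P ^ h) (cjI P) := IsCoprime.pow_left c3
    refine ⟨?_, ?_, ?_⟩
    · rintro rfl
      have e1 : ((p : OO A B)) ^ h ∈ P ^ h := Ideal.pow_mem_pow hpP h
      rw [hPal] at e1
      have e2 : (((p ^ h : ℕ) : ℕ) : OO A B) = 0 := by
        push_cast
        simpa using e1
      exact hnat0 (p ^ h) (pow_ne_zero _ hpp.ne_zero) e2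
    · rw [← hPal]
      exact (IsCoprime.pow_left c4).mul_right hcc
    · intro hal
      have e1 : sp al ≤ cjI P := by
        rw [Ideal.span_singleton_le_iff_mem]
        exact hal
      rw [hPal, Ideal.isCoprime_iff_sup_eq, sup_eq_right.2 e1] at hcc
      have e2 : (1 : OO A B) ∈ cjI P := by rw [hcc]; trivial
      rw [mem_cjI, star_one] at e2
      exact hpr.ne_top ((Ideal.eq_top_iff_one _).2 e2)

open MUXHY.Chr in
theorem ty_CHR (h1 : Sy_VAL) (h2 : Sy_IDE) (h3 : Sy_ROU) (h4 : MUXF.Sx_CHI) : Sy_CHR := by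
  intro p A B P V f H e he
  obtain ⟨hpp, -, -, -, vZ, -, vru, -, -, hDpos, -⟩ := h1 p A B P V f H
  obtain ⟨-, hPmax, -, -, hg0, hpf, hgcj, hgD, hpcj, -⟩ := h2 p A B P V f H
  have hcq : CQ A B := H.cq
  obtain ⟨r, hr0, hr⟩ := h3 A B hcq _ e hg0 he
  have hcjtop : cjI P ≠ ⊤ := by
    intro h
    have h5 : (1 : OO A B) ∈ cjI P := h ▸ Submodule.mem_top
    have h6 : (starRingEnd (OO A B)) 1 ∈ P := h5
    rw [map_one] at h6
    exact hPmax.ne_top ((Ideal.eq_top_iff_one P).2 h6)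
  have ev : ∀ x, V.valuation (e x) ≤ 1 := by
    intro x
    by_cases hx : e x = 0
    · rw [hx, map_zero]
      exact zero_le_one
    · exact (vru r (e x) hr0 (hr x hx)).le
  -- integers on which `e` does not vanish are prime to `D`
  have hcopD : ∀ d : ℤ, e (d : OO A B) ≠ 0 → IsCoprime d (absD A B) := by
    intro d hd
    have h5 := (he.supp _).1 hd
    apply coprime_int (A := A) (B := B)
    rw [← Ideal.isCoprime_span_singleton_iff]
    rw [Ideal.isCoprime_iff_sup_eq] at h5 ⊢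
    exact top_le_iff.1 (h5 ▸ sup_le_sup_left hgD _)
  refine ⟨?_, ?_, ?_, ?_, ?_⟩
  · unfold nuX
    have : ((1 : ℤ) : OO A B) = 1 := by push_cast; rfl
    rw [chiX_one, this, he.one]
    norm_num
  · unfold nuX
    have h5 : e (((p : ℤ)) : OO A B) = 0 := by
      by_contra hne
      have h6 := (he.supp _).1 hne
      rw [Ideal.isCoprime_iff_sup_eq] at h6
      apply hcjtop
      rw [← top_le_iff, ← h6]
      refine sup_le ?_ hgcj
      rw [Ideal.span_singleton_le_iff_mem]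
      have h7 : (((p : ℤ)) : OO A B) = ((p : ℕ) : OO A B) := by push_cast; rfl
      rw [h7]
      exact hpcj
    rw [h5, mul_zero]
  · intro d d'
    unfold nuX
    have : ((d * d' : ℤ) : OO A B) = (d : OO A B) * (d' : OO A B) := by push_cast; rfl
    rw [chiX_mul, this, he.mul]
    push_cast
    ring
  · intro d d' hd
    have hDnat : (((absD A B).toNat : ℕ) : ℤ) = absD A B := Int.toNat_of_nonneg hDpos.le
    have hd2 : (p : ℤ) * (absD A B * (f : ℤ) ^ 2) ∣ d - d' := by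
      have h5 : ((p * N0X A B f : ℕ) : ℤ) = (p : ℤ) * (absD A B * (f : ℤ) ^ 2) := by
        unfold N0X
        push_cast
        rw [hDnat]
      rwa [h5] at hd
    obtain ⟨t, ht⟩ := hd2
    have hD : absD A B ∣ d - d' := ⟨(p : ℤ) * (f : ℤ) ^ 2 * t, by rw [ht]; ring⟩
    unfold nuX
    by_cases hcop : IsCoprime d (absD A B)
    · have h5 : chiX A B d' = chiX A B d := ((h4 A B (toCQ hcq) d hcop).2.2 d' hD)
      have h6 : e (d : OO A B) = e (d' : OO A B) := by
        apply he.per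
        have h7 : (d : OO A B) - (d' : OO A B) =
            (((absD A B * f * t : ℤ)) : OO A B) * ((p * f : ℕ) : OO A B) := by
          have h8 : (d : OO A B) - (d' : OO A B) = ((d - d' : ℤ) : OO A B) := by push_cast; rfl
          rw [h8, ht]
          push_cast
          ring
        rw [h7]
        exact Ideal.mul_mem_left _ _ hpf
      rw [h5, h6]
    · have h5 : e (d : OO A B) = 0 := by
        by_contra hne
        exact hcop (hcopD d hne)
      have h6 : e (d' : OO A B) = 0 := by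
        by_contra hne
        apply hcop
        obtain ⟨s, hs⟩ := hD
        have h7 : d = d' + absD A B * s := by linarith
        rw [h7]
        exact (IsCoprime.add_mul_left_left_iff).2 (hcopD d' hne)
      rw [h5, h6, mul_zero, mul_zero]
  · intro d
    unfold nuX
    rw [map_mul]
    exact mul_le_one' (vZ _) (ev _)

theorem ty_EIG (h1 : Sy_VAL) (h2 : Sy_IDE) (h3 : Sy_ROU) (h4 : MUXF.Sx_ALG) : Sy_EIG := by
  intro p A B P V f hS e he h al hh hal
  have hCQ : CQ A B := hS.cq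
  obtain ⟨-, -, -, hv2, -, -, hv5, -⟩ := h1 p A B P V f hS
  obtain ⟨-, -, -, -, i5, -, -, -, -, i10⟩ := h2 p A B P V f hS
  obtain ⟨-, halc, hals⟩ := i10 h al hh hal
  obtain ⟨r, hr, hre⟩ := h3 A B hCQ _ e i5 he
  have hne : e al ≠ 0 := (he.supp al).2 halc
  have hroot := hre al hne
  have hcj : conj (emb al) = emb (star al) :=
    ((h4 A B (toCQ hCQ)).2.1 al).2.2.2.2.2.1.symm
  constructor
  · rw [map_mul, hv5 r (e al) hr hroot, hcj, (hv2 (star al)).2 hals, one_mul]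
  · refine IsAlgebraic.mul ?_ ?_
    · have h5 : IsAlgebraic ℚ (e al ^ r) := by
        rw [hroot]; exact isAlgebraic_one
      exact h5.of_pow (Nat.pos_of_ne_zero hr)
    · rw [hcj]
      exact MUXHY.Eig.alg_emb h4 hCQ _

theorem ty_SYM (h1 : Sy_IDE) (h2 : MUXT.Xs_FTI) (h3 : MUXF.Sx_HU) (h4 : MUXF.Sx_PRI)
    (h5 : MUXF.Sx_NIM) : Sy_SYM := by
  intro p A B P V f hS ι _ R e he kk
  obtain ⟨hP0, hPm, -, -, hg0, hpf, hgP, -, -, hal⟩ := h1 p A B P V f hS
  have hcq : CQ A B := hS.cq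
  obtain ⟨hmul, -, -, -⟩ := h5 A B (toCQ hcq)
  have hp : p.Prime := hS.pp
  have hP : ∀ i : ℕ, P ^ i ≠ ⊥ := by
    intro i
    induction i with
    | zero =>
      rw [pow_zero, Ideal.one_eq_top]
      intro h0
      apply hP0
      rw [eq_bot_iff, ← h0]
      exact le_top
    | succ i ih => exact (hmul _ _ ih hP0).2
  have hb : ∀ (c : ι) (i : ℕ), R.b c * P ^ i ≠ ⊥ := fun c i =>
    (hmul _ _ (R.nl c).b_ne (hP i)).2
  have hD : 0 < absD A B := by
    have := hcq.neg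
    unfold absD
    omega
  have hDc : ((absD A B).toNat : ℤ) = -(B ^ 2 + 4 * A) := by
    rw [Int.toNat_of_nonneg hD.le]
    rfl
  refine ⟨fun i => ?_, fun i x y => ?_, ?_⟩
  · refine MUXHY.Sym.isSym_lin (fun c => ?_) (fun c => kk c / e ((nI (R.b c) : ℕ) : OO A B)) (R.om R.i0)
    have h6 := h2 A B hcq.hB hcq.neg (R.b c * P ^ i) (hb c i) e (p * f)
      (Nat.mul_pos hp.pos (Nat.pos_of_ne_zero hS.f0)) he.mul
      (fun x y hxy => he.per x y (Ideal.mem_of_dvd _ hxy hpf)) he.neg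
    have hN : p ^ (1 + 1) * N0X A B f ≠ 0 := by
      unfold N0X
      have h7 : (absD A B).toNat ≠ 0 := by omega
      exact mul_ne_zero (pow_ne_zero _ hp.ne_zero) (mul_ne_zero h7 (pow_ne_zero _ hS.f0))
    have hdiv : -(B ^ 2 + 4 * A) * ((p * f : ℕ) : ℤ) ^ 2 ∣ ((p ^ (1 + 1) * N0X A B f : ℕ) : ℤ) := by
      unfold N0X
      refine ⟨1, ?_⟩
      push_cast
      rw [hDc]
      ring
    exact (h6.2 _ hN hdiv).1
  · have h6 := MUXHY.Sym.hecke_lin p (nuX e) (fun c => PhiI (R.b c * P ^ i) e)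
      (fun c => kk c / e ((nI (R.b c) : ℕ) : OO A B)) (R.om R.i0) x y
    have h7 : hecke p (nuX e) (PP R P e kk i) x y = (∑ c, kk c / e ((nI (R.b c) : ℕ) : OO A B) *
        hecke p (nuX e) (PhiI (R.b c * P ^ i) e) x y) / R.om R.i0 := h6
    rw [h7]
    unfold PP
    congr 1
    refine Finset.sum_congr rfl fun c _ => ?_
    have h8 := (h3 A B (toCQ hcq) (R.b c * P ^ i) (idl f * cjI P) P e p (hb c i) hg0 (toEI he)
      hS.hP.prime hS.hP.norm hp hgP).2 x y
    have h9 : R.b c * P ^ (i + 1) = R.b c * P ^ i * P := by rw [pow_succ, mul_assoc]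
    rw [h9]
    congr 1
  · intro h al hh hPh x y
    obtain ⟨hal0, -, -⟩ := hal h al hh hPh
    unfold PP
    rw [← mul_div_assoc, Finset.mul_sum]
    congr 1
    refine Finset.sum_congr rfl fun c _ => ?_
    have h8 := (h4 A B (toCQ hcq) (R.b c) (idl f * cjI P) e al (R.nl c).b_ne (toEI he) hal0).2 x y
    have h9 : PhiI (sp al * R.b c) e x y = e al * conj (emb al) * PhiI (R.b c) e x y := h8
    rw [hPh, mul_comm (R.b c) (sp al), h9, pow_zero, mul_one]
    ring

theorem ty_ALF (h1 : Sy_IDE) (h2 : Sy_ROU) (h3 : Sy_RAT) (h4 : MUXT.Xs_FTI) (h5 : MUXF.Sx_F7) :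
    Sy_ALF := by
  intro p A B P V f hS ι _ R e he kk hkk
  have hc : CQ A B := hS.cq
  obtain ⟨_, _, _, _, hg, hpf, _, _, _, _⟩ := h1 p A B P V f hS
  obtain ⟨r, hr, hr1⟩ := h2 A B hc _ e hg he
  have hp : p ≠ 0 := hS.pp.ne_zero
  refine ⟨fun x y => ?_, ?_⟩
  · rw [MUXHY.Alf.PP_zero]
    have hcoef : ∀ c, kk c / e ((nI (R.b c) : ℕ) : OO A B) / R.om R.i0 * PhiI (R.b c) e x y =
        kk c / e ((nI (R.b c) : ℕ) : OO A B) * (PhiI (R.b c) e x y / R.om c) *
          (R.om c / R.om R.i0) := by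
      intro c
      have h0 : R.om c ≠ 0 := (R.nl c).om_ne
      field_simp
    rw [Finset.sum_congr rfl fun c _ => hcoef c]
    rw [← mem_algebraicClosure_iff]
    apply sum_mem
    intro c _
    have hrat := h3 A B hc (R.b c) (R.L c) (R.om c) (R.nl c)
    refine mul_mem (mul_mem (div_mem ?_ ?_) ?_) ?_
    · exact mem_algebraicClosure_iff.2 (hkk c)
    · rw [mem_algebraicClosure_iff]
      by_cases h0 : e ((nI (R.b c) : ℕ) : OO A B) = 0
      · rw [h0]; exact isAlgebraic_zero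
      · have h6 := hr1 _ h0
        apply IsAlgebraic.of_pow (Nat.pos_of_ne_zero hr)
        rw [h6]
        exact isAlgebraic_one
    · exact mem_algebraicClosure_iff.2 (hrat.2 _ e hg he x y)
    · exact mem_algebraicClosure_iff.2 (hrat.1 _ _ _ (R.nl R.i0))
  · have hD : (0 : ℤ) < -(B ^ 2 + 4 * A) := by have := hc.neg; linarith
    obtain ⟨D, hDe⟩ : ∃ D : ℕ, (D : ℤ) = -(B ^ 2 + 4 * A) :=
      ⟨(-(B ^ 2 + 4 * A)).toNat, Int.toNat_of_nonneg hD.le⟩
    have hD0 : D ≠ 0 := by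
      rintro rfl
      simp at hDe
      omega
    have hG : 0 < p * f := Nat.mul_pos (Nat.pos_of_ne_zero hp) (Nat.pos_of_ne_zero hS.f0)
    have hN : D * (p * f) ^ 2 ≠ 0 := mul_ne_zero hD0 (pow_ne_zero _ hG.ne')
    have hex : ∀ c, ∃ S : Finset ℂ, ∀ x y, PhiI (R.b c) e x y ∈ AddSubgroup.closure (S : Set ℂ) := by
      intro c
      have h7 := h4 A B hc.hB hc.neg (R.b c) (R.nl c).b_ne e (p * f) hG he.mul ?_ he.neg
      · have h8 := (h7.2 (D * (p * f) ^ 2) hN ?_).1
        · exact h5 A B (toCQ hc) (R.b c) _ e (R.nl c).b_ne hg (toEI he) _ hN h8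
        · rw [← hDe]
          push_cast
          exact dvd_refl _
      · intro x y hxy
        apply he.per
        obtain ⟨z, hz⟩ := hxy
        rw [hz]
        exact Ideal.mul_mem_right _ _ hpf
    choose S hSm using hex
    classical
    refine ⟨Finset.univ.biUnion fun c => (S c).image fun s =>
      (kk c / e ((nI (R.b c) : ℕ) : OO A B) / R.om R.i0) * s, fun x y => ?_⟩
    rw [MUXHY.Alf.PP_zero]
    apply sum_mem
    intro c _
    refine AddSubgroup.closure_mono ?_ (MUXHY.Alf.mul_mem_closure (S c) _ _ (hSm c x y))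
    intro z hz
    obtain ⟨s, hs, rfl⟩ := hz
    simp only [Finset.coe_biUnion, Finset.coe_image, Set.mem_iUnion]
    exact ⟨c, Finset.mem_coe.2 (Finset.mem_univ c), s, hs, rfl⟩

theorem ty_PRX (h1 : Sy_VAL) (h2 : Sy_IDE) (h3 : MUXF.Sx_PHX) (h4 : MUXF.Sx_PRJ) : Sy_PRX := by
  intro p A B P V f hS ι _ R e he kk s
  obtain ⟨-, -, -, -, -, -, hr, -, hvD, hD, -⟩ := h1 p A B P V f hS
  obtain ⟨-, -, -, -, hg, -, -, hgD, -, -⟩ := h2 p A B P V f hS
  obtain ⟨φ, hφ, hper, hφ2⟩ := h3 A B (toCQ hS.cq)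
  have hqD : (((absD A B).toNat : ℕ) : ℤ) = absD A B := Int.toNat_of_nonneg hD.le
  have hq : (absD A B).toNat ≠ 0 := by omega
  have hv : V.valuation (((absD A B).toNat : ℕ) : ℂ) = 1 := by
    have h5 : (((absD A B).toNat : ℕ) : ℂ) = ((absD A B : ℤ) : ℂ) := by
      rw [← Int.cast_natCast (R := ℂ) (absD A B).toNat, hqD]
    rw [h5]; exact hvD
  refine ⟨(absD A B).toNat, fun t => (1 / ((absD A B).toNat : ℂ)) *
    ∑ n ∈ Finset.range (absD A B).toNat, φ n * ex (-(t * n) / (absD A B).toNat), hq,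
    fun t => MUXHY.Prx.val_le V hr _ hq hv φ hφ t, fun x y => ?_⟩
  have key : ∀ c, ∑ t ∈ Finset.range (absD A B).toNat, ((1 / ((absD A B).toNat : ℂ)) *
      ∑ n ∈ Finset.range (absD A B).toNat, φ n * ex (-(t * n) / (absD A B).toNat)) *
      sgnPart s (PhiI (R.b c) e) (mob (absD A B).toNat t 0 (absD A B).toNat x)
        (mob (absD A B).toNat t 0 (absD A B).toNat y) = PhiI (R.b c) e x y := by
    intro c
    exact h4 A B (toCQ hS.cq) (R.b c) _ e (R.nl c).b_ne hg (toEI he) _ φ hq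
      (fun n => by rw [hqD]; exact hper n)
      (hφ2 (R.b c) _ e (R.nl c).b_ne (toEI he) hgD) s x y
  have e1 : PP R P e kk 0 x y = (∑ c, kk c / e ((nI (R.b c) : ℕ) : OO A B) *
      PhiI (R.b c) e x y) / R.om R.i0 := by
    unfold PP
    simp only [pow_zero, mul_one]
  rw [e1]
  simp only [MUXHY.Prx.sgn_PP]
  simp only [← mul_div_assoc]
  rw [← Finset.sum_div]
  congr 1
  simp only [Finset.mul_sum (s := (Finset.univ : Finset ι))]
  rw [Finset.sum_comm]
  refine Finset.sum_congr rfl fun c _ => ?_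
  rw [← key c, Finset.mul_sum]
  refine Finset.sum_congr rfl fun t _ => ?_
  ring

end

end Pool.Agent.TWG


end

section

/-!
# TWG (helper19): Theorem G (the symbol is not a boundary symbol modulo `V`) for every prime `p`

The proofs are those of `MUX/N_UNIT.lean`, `N_QXP.lean`, `N_GDT.lean`, `StGF.lean`; the only use of `p = 2, 3` there is the
module UNIT (`nm x = 1` implies `x = 1` or `x = -1`), which follows here from the existence of a normalised lattice.
-/

set_option autoImplicit false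

namespace Pool.Agent.TWG

open _root_.MU3 Pool.Agent.MU3A Pool.Agent.MU3B Pool.Agent.MU3Q Pool.Agent.MUX Pool.Agent.MuSym
  OnePoint UpperHalfPlane
open Pool.Agent.MUXF (Sx_ALG Sx_IDL Sx_QB Sx_BDD Sx_TSM qb)
open Pool.Agent.MUXY (cqF eiF)
open Pool.Agent.MUXN (Sg_GTHX GDat)
open scoped ComplexConjugate

noncomputable section

/-- UNIT without condition on `p`: there is a normalised lattice -/
theorem t_UNT (h : MUXF.Sx_IDL) (h' : MUXF.Sx_NIM) (hA : Sx_ALG) (A B : ℤ) (hc : MUX.CQ A B)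
    (b0 : Ideal (OO A B)) (L : PeriodPair) (om : ℂ) (hL : IsNL b0 L om) :
    (∀ x : OO A B, nm x = 1 → x = 1 ∨ x = -1) ∧
    ∀ (b : Ideal (OO A B)) (_ : b ≠ ⊥) (x : OO A B), x ∈ b → nm x = MUX.nI b → b = MUX.sp x := by
  obtain ⟨a1, a2, -, -, -⟩ := hA A B (cqF hc)
  refine ⟨fun x hx => ?_, fun b hb x hx hn => ?_⟩
  · have emul : ∀ u v : OO A B, emb (u * v) = emb u * emb v := fun u v => (a1 u v).1
    have hss : star x * x = 1 := by
      have h1 := (a2 x).2.2.2.2.1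
      rw [hx, Int.cast_one] at h1
      rw [mul_comm]
      exact h1
    have hx0 : x ≠ 0 := by
      intro h0
      rw [h0, mul_zero] at hss
      rw [h0] at hx
      have h3 : nm (0 : OO A B) = 0 := by
        unfold nm
        simp
      rw [h3] at hx
      exact absurd hx (by norm_num)
    have ex0 : emb x ≠ 0 := fun h => hx0 ((a2 x).1.1 h)
    have key : ∀ z : ℂ, z ∈ L.lattice ↔ emb x * z ∈ L.lattice := by
      intro z
      rw [hL.mem, hL.mem]
      constructor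
      · rintro ⟨t, ht, rfl⟩
        exact ⟨x * t, b0.mul_mem_left _ ht, by rw [emul]; ring⟩
      · rintro ⟨t, ht, h2⟩
        refine ⟨star x * t, b0.mul_mem_left _ ht, ?_⟩
        have h3 : emb (star x) * emb x = 1 := by
          rw [← emul, hss, ← Pool.Agent.MUXN.N_GJ.eHom_apply hc, map_one]
        rw [emul]
        linear_combination (-z) * h3 + emb (star x) * h2
    obtain ⟨-, -, g2, g3⟩ := ta_SCP L L (emb x) ex0 key
    have n1 := hL.nrm
    have hd := (b_DSC L).1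
    have hg2 : L.g₂ ≠ 0 := by
      intro h0
      rw [h0] at n1
      have h3 : L.g₃ = 0 := by
        have : (-18 : ℂ) * L.g₃ = 0 := n1.symm
        rcases mul_eq_zero.1 this with h | h
        · norm_num at h
        · exact h
      apply hd
      rw [h0, h3]
      norm_num
    have hg3 : L.g₃ ≠ 0 := by
      intro h0
      apply hg2
      rw [n1, h0, mul_zero]
    have h4 : emb x ^ 4 = 1 := by
      have := (eq_div_iff (pow_ne_zero 4 ex0)).1 g2
      exact mul_left_cancel₀ hg2 (by rw [this, mul_one])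
    have h6 : emb x ^ 6 = 1 := by
      have := (eq_div_iff (pow_ne_zero 6 ex0)).1 g3
      exact mul_left_cancel₀ hg3 (by rw [this, mul_one])
    have h2 : emb x ^ 2 = 1 := by
      have h7 : emb x ^ 6 = emb x ^ 4 * emb x ^ 2 := by ring
      rw [h4, one_mul, h6] at h7
      exact h7.symm
    have h8 : emb ((x - 1) * (x + 1)) = 0 := by
      rw [← Pool.Agent.MUXN.N_GJ.eHom_apply hc]
      rw [← Pool.Agent.MUXN.N_GJ.eHom_apply hc] at h2
      rw [map_mul, map_sub, map_add, map_one]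
      linear_combination h2
    have h9 : (x - 1) * (x + 1) = 0 := (a2 _).1.1 h8
    have hdom := (hA A B (cqF hc)).2.2.2.2
    rcases mul_eq_zero.1 h9 with h10 | h10
    · exact Or.inl (sub_eq_zero.1 h10)
    · exact Or.inr (eq_neg_of_add_eq_zero_left h10)

  · have hcq : MUXF.CQ A B := cqF hc
    have hn0 : MUX.nI b ≠ 0 := (h A B hcq b hb).1
    obtain ⟨-, h2, -, -⟩ := h' A B hcq
    have hx0 : x ≠ 0 := by
      rintro rfl
      apply hn0
      have : nm (0 : OO A B) = 0 := by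
        unfold nm
        simp
      rw [this] at hn
      exact_mod_cast hn.symm
    have hle : MUX.sp x ≤ b := (Ideal.span_singleton_le_iff_mem b).2 hx
    have hcard : Nat.card (OO A B ⧸ MUX.sp x) = Nat.card (OO A B ⧸ b) := by
      have h3 := (h2 x).resolve_right hx0
      have h4 : (nm x).natAbs = MUX.nI b := by
        rw [hn]
        simp
      exact h3.trans h4
    have : Finite (OO A B ⧸ MUX.sp x) := by
      apply Nat.finite_of_card_ne_zero
      rw [hcard]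
      exact hn0
    have hbij := Function.Surjective.bijective_of_nat_card_le (Ideal.Quotient.factor_surjective hle)
      hcard.le
    apply le_antisymm _ hle
    intro y hy
    rw [← Ideal.Quotient.eq_zero_iff_mem]
    apply hbij.injective
    rw [map_zero, Ideal.Quotient.factor_mk]
    exact Ideal.Quotient.eq_zero_iff_mem.2 hy

/-- QXP without condition on `p` -/
def Sq_QXP : Prop :=
  ∀ (A B : ℤ) (_ : MUX.CQ A B) (n : ℕ) (ι : Type) (R : Reps A B n ι)
    (g : Ideal (OO A B)) (_ : g ≠ ⊥) (e : OO A B → ℂ) (_ : IsEI g e) (r : ℕ) (_ : r ≠ 0)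
    (_ : ∀ x, e x ≠ 0 → e x ^ r = 1) (i : ι),
    ∃ α : ℕ → ℂ, (∀ n, IsIntegral ℤ (α n)) ∧
      (∃ K : Subfield ℂ, NumberField K ∧ ∀ n, α n ∈ K) ∧ (i = R.i0 → α 1 = 1) ∧
      (i ≠ R.i0 → α 1 = 0) ∧ ∀ τ : ℂ, 0 < τ.im → HasSum (fun n : ℕ => α n / n *
        Complex.exp (2 * Real.pi * Complex.I * τ) ^ n) (thetaIntI (R.b i) e τ)

open Pool.Agent.MUXN.N_QXP in
/-- the `q`-expansion of `thetaIntI` -/
theorem t_QXP (hN : MUXF.Sx_NIM) (hA : Sx_ALG) (hI : Sx_IDL) (hQB : Sx_QB) (hBD : Sx_BDD)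
    (hTS : Sx_TSM) : Sq_QXP := by
  classical
  intro A B hc n ι R g hg e he r hr her i
  have hb : R.b i ≠ ⊥ := (R.nl i).b_ne
  obtain ⟨u1, u2⟩ := t_UNT hI hN hA A B hc _ _ _ (R.nl i)
  obtain ⟨a1, a2, a3, a4, -⟩ := hA A B (cqF hc)
  obtain ⟨q1, -, -⟩ := hQB A B (cqF hc) (R.b i) hb
  have hnb : MUX.nI (R.b i) ≠ 0 := (hI A B (cqF hc) (R.b i) hb).1
  have hnbC : ((MUX.nI (R.b i) : ℕ) : ℂ) ≠ 0 := by exact_mod_cast hnb
  obtain ⟨hfin, C, hC0, hC⟩ := hBD A B (cqF hc) g e hg (eiF he)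
  set b : Ideal (OO A B) := R.b i with hbdef
  set S : ℕ → Finset b := fun m => (fin_fib hc hQB b hb m).toFinset with hSdef
  have hS : ∀ (m : ℕ) (x : b), x ∈ S m ↔ (qb b (x : OO A B)).toNat = m := by
    intro m x
    rw [hSdef]
    simp
  set t : b → ℂ := fun x => e x * conj (emb (x : OO A B)) with htdef
  have hconj : ∀ x : OO A B, conj (emb x) = emb (star x) := fun x => ((a2 x).2.2.2.2.2.1).symm
  have hnmneg : ∀ x : OO A B, nm (-x) = nm x := by
    intro x
    unfold nm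
    have h1 : (-x).im = -x.im := rfl
    have h2 : (-x).re = -x.re := rfl
    rw [h1, h2]
    ring
  have hembneg : ∀ x : OO A B, emb (-x) = -emb x := by
    intro x
    rw [← Pool.Agent.MUXN.N_GJ.eHom_apply hc, ← Pool.Agent.MUXN.N_GJ.eHom_apply hc, map_neg]
  have heneg : ∀ x : OO A B, e (-x) = -e x := by
    intro x
    have h1 := he.mul (-1) x
    rw [neg_one_mul, he.neg, neg_one_mul] at h1
    exact h1
  have htneg : ∀ x : b, t (-x) = t x := by
    intro x
    show e (-(x : OO A B)) * conj (emb (-(x : OO A B))) = e x * conj (emb (x : OO A B))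
    rw [heneg, hembneg, map_neg, neg_mul_neg]
  have hqbneg : ∀ x : OO A B, qb b (-x) = qb b x := by
    intro x
    unfold qb
    rw [hnmneg]
  have hSneg : ∀ m, ∀ x ∈ S m, -x ∈ S m := by
    intro m x hx
    rw [hS] at hx ⊢
    show (qb b (-(x : OO A B))).toNat = m
    rw [hqbneg, hx]
  have hqb0 : qb b (0 : OO A B) = 0 := by
    unfold qb nm
    simp
  have hS0 : ∀ m, m ≠ 0 → (0 : b) ∉ S m := by
    intro m hm h
    rw [hS] at h
    apply hm
    rw [← h]
    show (qb b (0 : OO A B)).toNat = 0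
    rw [hqb0]
    rfl
  have hnmS : ∀ (m : ℕ) (x : b), x ∈ S m → nm (x : OO A B) = MUX.nI b * m := by
    intro m x hx
    rw [hS] at hx
    obtain ⟨h2, h3⟩ := q1 x x.2
    have h4 : qb b (x : OO A B) = m := by omega
    rw [h2, h4]
    rfl
  have hS00 : ∀ x ∈ S 0, t x = 0 := by
    intro x hx
    have h1 := hnmS 0 x hx
    have h2 : (x : OO A B) = 0 := (a2 x).2.1.1 (by rw [h1]; simp)
    rw [htdef]
    beta_reduce
    rw [h2, (a2 0).1.2 rfl]
    simp
  set α : ℕ → ℂ := fun m => (1 / 2) * ∑ x ∈ S m, t x with hαdef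
  have hα0 : α 0 = 0 := by
    rw [hαdef]
    beta_reduce
    rw [Finset.sum_eq_zero hS00, mul_zero]
  have hαn : ∀ m, m ≠ 0 → α m = ∑ x ∈ (S m).filter (fun x : b => PH (x : OO A B)), t x := by
    intro m hm
    rw [hαdef]
    beta_reduce
    rw [half_sum (S m) (hSneg m) (hS0 m hm) t htneg]
    ring
  have htint : ∀ x : b, IsIntegral ℤ (t x) := by
    intro x
    show IsIntegral ℤ (e x * conj (emb (x : OO A B)))
    rw [hconj]
    refine IsIntegral.mul ?_ (emb_int hc _)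
    by_cases h : e x = 0
    · rw [h]
      exact isIntegral_zero
    · exact IsIntegral.of_pow (n := r) (Nat.pos_of_ne_zero hr)
        (by rw [her x h]; exact isIntegral_one)
  refine ⟨α, ?_, ?_, ?_, ?_, ?_⟩
  · intro m
    by_cases hm : m = 0
    · rw [hm, hα0]
      exact isIntegral_zero
    · rw [hαn m hm]
      exact IsIntegral.sum _ fun x _ => htint x
  · have hfin2 : (Set.range e ∪ {wC A B}).Finite := hfin.union (Set.finite_singleton _)
    have hfin3 : Finite ↑(Set.range e ∪ {wC A B}) := hfin2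
    set K : IntermediateField ℚ ℂ := IntermediateField.adjoin ℚ (Set.range e ∪ {wC A B}) with hK
    have hKfd : FiniteDimensional ℚ K := by
      apply IntermediateField.finiteDimensional_adjoin
      rintro x (⟨y, rfl⟩ | hx)
      · by_cases h : e y = 0
        · rw [h]
          exact isIntegral_zero
        · exact IsIntegral.of_pow (n := r) (Nat.pos_of_ne_zero hr)
            (by rw [her y h]; exact isIntegral_one)
      · rw [Set.mem_singleton_iff] at hx
        rw [hx]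
        exact (Pool.Agent.MUXN.N_GJ.wC_int hc).tower_top
    have hKe : ∀ x, e x ∈ K := fun x =>
      IntermediateField.subset_adjoin ℚ _ (Or.inl ⟨x, rfl⟩)
    have hKw : wC A B ∈ K := IntermediateField.subset_adjoin ℚ _ (Or.inr rfl)
    have hKemb : ∀ x : OO A B, emb x ∈ K := fun x =>
      add_mem (intCast_mem _ _) (mul_mem (intCast_mem _ _) hKw)
    refine ⟨K.toSubfield, ?_, ?_⟩
    · have h4 : NumberField K := ⟨⟩
      exact h4
    · intro m
      show α m ∈ K
      refine mul_mem (div_mem (one_mem _) (ofNat_mem K 2)) (sum_mem fun x _ => ?_)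
      show e x * conj (emb (x : OO A B)) ∈ K
      rw [hconj]
      exact mul_mem (hKe _) (hKemb _)
  · intro hi
    have hbt : b = ⊤ := by rw [hbdef, hi, R.b0]
    have hn1 : MUX.nI b = 1 := by
      rw [hbt]
      unfold MUX.nI
      exact Nat.card_unique
    have h1mem : (1 : OO A B) ∈ b := by rw [hbt]; trivial
    rw [hαn 1 one_ne_zero]
    have hfil : (S 1).filter (fun x : b => PH (x : OO A B)) = {⟨1, h1mem⟩} := by
      ext x
      rw [Finset.mem_filter, Finset.mem_singleton]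
      constructor
      · rintro ⟨h1, h2⟩
        have h3 := hnmS 1 x h1
        rw [hn1] at h3
        rcases u1 x (by rw [h3]; norm_num) with h4 | h4
        · exact Subtype.ext h4
        · exfalso
          rw [h4] at h2
          have h5 : (-1 : OO A B).im = 0 := neg_zero
          have h6 : (-1 : OO A B).re = -1 := rfl
          unfold PH at h2
          rw [h5, h6] at h2
          omega
      · intro h
        rw [h]
        constructor
        · rw [hS]
          show (qb b (1 : OO A B)).toNat = 1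
          have h3 := (q1 1 h1mem).1
          have h4 : (MUX.nI b : ℤ) = 1 := by rw [hn1]; rfl
          have h5 : nm (1 : OO A B) = 1 := by
            unfold nm
            rw [QuadraticAlgebra.re_one, QuadraticAlgebra.im_one]
            ring
          have h6 : nm (1 : OO A B) = (MUX.nI b : ℤ) * qb b (1 : OO A B) := h3
          rw [h4, h5, one_mul] at h6
          rw [← h6]
          rfl
        · unfold PH
          right
          exact ⟨QuadraticAlgebra.im_one, by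
            show (0 : ℤ) < (1 : OO A B).re
            rw [QuadraticAlgebra.re_one]
            exact one_pos⟩
    rw [hfil, Finset.sum_singleton]
    show e 1 * conj (emb (1 : OO A B)) = 1
    rw [he.one, ← Pool.Agent.MUXN.N_GJ.eHom_apply hc, map_one, map_one, one_mul]
  · intro hi
    have hS1 : S 1 = ∅ := by
      apply Finset.eq_empty_of_forall_notMem
      intro x hx
      have h1 := hnmS 1 x hx
      rw [Nat.cast_one, mul_one] at h1
      have h2 := u2 b hb x x.2 h1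
      apply hi
      have hx0 : (x : OO A B) ≠ 0 := by
        intro h0
        rw [h0] at h1
        have h3 : nm (0 : OO A B) = 0 := by
          unfold nm
          simp
        rw [h3] at h1
        exact hnb (by exact_mod_cast h1.symm)
      have hone : (1 : OO A B) ≠ 0 := by
        intro h0
        apply hx0
        rw [← mul_one (x : OO A B), h0, mul_zero]
      refine R.inj i R.i0 1 x hone hx0 ?_
      rw [R.b0]
      show sp (1 : OO A B) * b = sp (x : OO A B) * ⊤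
      rw [← h2, Ideal.mul_top]
      show Ideal.span {(1 : OO A B)} * b = b
      rw [Ideal.span_singleton_one, Ideal.top_mul]
    show (1 / 2) * ∑ x ∈ S 1, t x = 0
    rw [hS1, Finset.sum_empty, mul_zero]
  · intro τ hτ
    have hsum := hTS A B (cqF hc) b hb e C hC τ hτ
    have hq : ∀ x : b, ((nm (x : OO A B) : ℤ) : ℂ) / ((MUX.nI b : ℕ) : ℂ) =
        ((qb b (x : OO A B) : ℤ) : ℂ) := by
      intro x
      have h1 : nm (x : OO A B) = (MUX.nI b : ℤ) * qb b (x : OO A B) := (q1 x x.2).1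
      rw [h1]
      push_cast
      field_simp
    set f : b → ℂ := fun x => e x * conj (emb (x : OO A B)) /
      (((nm (x : OO A B) : ℤ) : ℂ) / ((MUX.nI b : ℕ) : ℂ)) *
        Complex.exp (2 * Real.pi * Complex.I *
          (((nm (x : OO A B) : ℤ) : ℂ) / ((MUX.nI b : ℕ) : ℂ)) * τ) with hf
    have hfs : Summable f := by
      refine Summable.of_norm_bounded hsum.norm fun x => ?_
      rw [hf]
      beta_reduce
      show _ ≤ ‖e x * conj (emb (x : OO A B)) * Complex.exp (2 * Real.pi * Complex.I *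
          (((nm (x : OO A B) : ℤ) : ℂ) / ((MUX.nI b : ℕ) : ℂ)) * τ)‖
      rw [hq x, norm_mul, norm_mul (e x * conj (emb (x : OO A B))), norm_div]
      refine mul_le_mul_of_nonneg_right ?_ (norm_nonneg _)
      by_cases h0 : qb b (x : OO A B) = 0
      · rw [h0, Int.cast_zero, norm_zero, div_zero]
        exact norm_nonneg _
      · have h1 : 1 ≤ qb b (x : OO A B) := by
          have := (q1 x x.2).2
          omega
        have h2 : (1 : ℝ) ≤ ‖((qb b (x : OO A B) : ℤ) : ℂ)‖ := by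
          rw [Complex.norm_intCast]
          have h3 : (1 : ℝ) ≤ ((qb b (x : OO A B) : ℤ) : ℝ) := by exact_mod_cast h1
          exact h3.trans (le_abs_self _)
        exact div_le_self (norm_nonneg _) h2
    have hfib := hfs.hasSum.tsum_fiberwise (fun x : b => (qb b (x : OO A B)).toNat)
    have hfib2 := hfib.mul_left (1 / 2 : ℂ)
    have e1 : (fun m : ℕ => α m / m * Complex.exp (2 * Real.pi * Complex.I * τ) ^ m) =
        fun m : ℕ => (1 / 2 : ℂ) * ∑' x : (fun x : b => (qb b (x : OO A B)).toNat) ⁻¹' {m},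
          f x := by
      funext m
      have h1 : (fun x : b => (qb b (x : OO A B)).toNat) ⁻¹' {m} = ((S m : Finset b) : Set b) := by
        ext x
        rw [Finset.mem_coe, hS]
        rfl
      rw [h1, Finset.tsum_subtype' (S m) f, hαdef]
      beta_reduce
      rw [mul_div_assoc, mul_assoc]
      congr 1
      rw [div_mul_eq_mul_div, Finset.sum_mul, Finset.sum_div]
      refine Finset.sum_congr rfl fun x hx => ?_
      have h2 : ((qb b (x : OO A B) : ℤ) : ℂ) = (m : ℂ) := by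
        rw [hS] at hx
        have h3 := (q1 x x.2).2
        have h4 : qb b (x : OO A B) = m := by omega
        rw [h4]
        simp
      rw [hf, htdef]
      beta_reduce
      rw [hq x, h2, ← Complex.exp_nat_mul]
      rw [show 2 * (Real.pi : ℂ) * Complex.I * (m : ℂ) * τ =
        (m : ℂ) * (2 * Real.pi * Complex.I * τ) by ring]
      ring
    rw [e1]
    exact hfib2

open MUXY Pool.Agent.MUXN.Gdt in
theorem t_GDT {A B : ℤ} (h1 : Sq_QXP) (h2 : MUXT.Xs_FTI) (h3 : MUXF.Sx_CHI) (h4 : Sy_CON) (h5 : Sy_ALP)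
    (h6 : Sy_ALM) (h7 : Sy_FEC) (h8 : Sy_COP) (p : ℕ) (P : Ideal (OO A B))
    (V : ValuationSubring ℂ) (f : ℕ) (hS : SetH p A B P V f) (hT : TorX A B) (ι : Type)
    [hι : Finite ι] (R : Reps A B (p * f) ι) (e : OO A B → ℂ) (he : IsEI (idl f * cjI P) e)
    (r : ℕ) (hr : r ≠ 0) (her : ∀ x, e x ≠ 0 → e x ^ r = 1) (N' : ℕ) (hN : N' ≠ 0)
    (hNd : absD A B * ((p : ℤ) * f) ^ 2 ∣ (N' : ℤ)) :
    ∃ E : Set (OO A B → ℂ), e ∈ E ∧ GDat R E N' := by
  have hQ := hS.cq
  have hp0 : p ≠ 0 := hS.pp.ne_zero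
  set g : Ideal (OO A B) := idl f * cjI P with hg
  have hpc : ((p : ℕ) : OO A B) ∈ cjI P := by
    show starRingEnd (OO A B) ((p : ℕ) : OO A B) ∈ P
    rw [map_natCast]
    exact hS.hP.mem
  have hpf : ((p * f : ℕ) : OO A B) ∈ g := by
    rw [Nat.mul_comm, Nat.cast_mul]
    exact Ideal.mul_mem_mul (Ideal.mem_span_singleton_self _) hpc
  have hgb : g ≠ ⊥ := by
    intro h
    rw [h, Ideal.mem_bot] at hpf
    exact nat_ne _ (mul_ne_zero hp0 hS.f0) hpf
  have hgt : g ≠ ⊤ := by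
    intro h
    have h1 : g ≤ cjI P := Ideal.mul_le_right
    rw [h, top_le_iff] at h1
    have := hS.hP.prime
    have h2 : (cjI P).IsPrime := Ideal.IsPrime.comap _
    exact h2.ne_top h1
  have hcop : ∀ i, IsCoprime (MUX.sp ((MUX.nI (R.b i) : ℕ) : OO A B)) g :=
    h8 A B (p * f) ι R g 1 (by rw [pow_one]; exact hpf)
  set E : Set (OO A B → ℂ) := {e' | ∃ σ : ℂ ≃+* ℂ, e' = fun x => σ (e x)} with hE
  have hEI : ∀ e' ∈ E, IsEI g e' := by
    rintro e' ⟨σ, rfl⟩
    exact ei_conj he σ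
  have hEr : ∀ e' ∈ E, ∀ x, e' x ≠ 0 → e' x ^ r = 1 := by
    rintro e' ⟨σ, rfl⟩ x hx
    show σ (e x) ^ r = 1
    have hx' : e x ≠ 0 := by
      intro h0
      apply hx
      show σ (e x) = 0
      rw [h0, map_zero]
    rw [← map_pow, her x hx', map_one]
  have hEG : ∀ e' ∈ E, ∀ x y : OO A B, (((p * f : ℕ) : ℕ) : OO A B) ∣ x - y → e' x = e' y := by
    rintro e' he' x y ⟨z, hz⟩
    apply (hEI e' he').per
    rw [hz]
    exact Ideal.mul_mem_right _ _ hpf
  have hb : ∀ i, R.b i ≠ ⊥ := fun i => (R.nl i).b_ne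
  have hNd' : -(B ^ 2 + 4 * A) * ((p * f : ℕ) : ℤ) ^ 2 ∣ (N' : ℤ) := by
    have : -(B ^ 2 + 4 * A) * ((p * f : ℕ) : ℤ) ^ 2 = absD A B * (p * f) ^ 2 := by
      unfold absD
      push_cast
      ring
    rw [this]
    exact hNd
  have hF : ∀ e' ∈ E, ∀ i, _ := fun e' he' i =>
    (h2 A B hQ.hB hQ.neg (R.b i) (hb i) e' (p * f) (Nat.pos_of_ne_zero (mul_ne_zero hp0 hS.f0))
      (hEI e' he').mul (hEG e' he') (hEI e' he').neg).2 N' hN hNd'
  have hDN : absD A B ∣ (N' : ℤ) := dvd_trans (Dvd.intro _ rfl) hNd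
  have hGN : ((p * f : ℕ) : ℤ) ∣ (N' : ℤ) := by
    refine dvd_trans ?_ hNd
    exact ⟨absD A B * (p * f), by push_cast; ring⟩
  have hnu : ∀ e' ∈ E, ∀ d : ℤ, (N' : ℤ) ∣ d - 1 →
      (MUXT.chiQ A B d : ℂ) * e' (d : OO A B) = 1 := by
    intro e' he' d hd
    have h10 : MUXF.chiQ A B d = 1 := by
      have := (h3 A B (cqF hQ) 1 isCoprime_one_left).2.2 d (by
        rw [← dvd_neg, neg_sub]
        exact dvd_trans hDN hd)
      rw [this, chiQ_one]
    have h11 : e' (d : OO A B) = 1 := by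
      rw [← (hEI e' he').one]
      apply (hEI e' he').per
      obtain ⟨t, ht⟩ := dvd_trans hGN hd
      have h12 : (d : OO A B) - 1 = ((p * f : ℕ) : OO A B) * (t : OO A B) := by
        have := congrArg (fun z : ℤ => (z : OO A B)) ht
        push_cast at this
        push_cast
        exact this
      rw [h12]
      exact Ideal.mul_mem_right _ _ hpf
    have h13 : MUXT.chiQ A B d = 1 := h10
    rw [h13, h11]
    norm_num
  refine ⟨E, ⟨RingEquiv.refl ℂ, rfl⟩, ?_⟩
  refine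
    { fin := (h7 A B e r hr her).1
      pos := Nat.pos_of_ne_zero hN
      add := ?_
      inv := ?_
      per := ?_
      cusp := ?_
      qexp := ?_
      rat := ?_
      alg := ?_
      algo := ?_ }
  · intro e' _ i x y z
    unfold PhiI
    ring
  · intro e' he' i a b c d hdet hc hd x y
    have := (hF e' he' i).1.equiv a b c d hdet hc x y
    rw [hnu e' he' d hd, one_mul] at this
    exact this
  · intro e' he' i a b c d hdet hc hd τ hτ
    have := ((hF e' he' i).2.1 a b c d hdet hc τ hτ).2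
    rw [hnu e' he' d hd, one_mul] at this
    exact this
  · intro e' he' i a b c d hdet
    obtain ⟨w, hw⟩ := (hF e' he' i).2.2 a b c d hdet
    exact ⟨_, w, hw⟩
  · intro e' he' i
    exact h1 A B hQ (p * f) ι R g hgb e' (hEI e' he') r hr (hEr e' he') i
  · intro σ hσ e' he' i
    obtain ⟨-, j, C, -, hC0, hC⟩ := h4 A B hQ hT (p * f) ι R g e' hgb hgt (hEI e' he') hcop σ hσ i
    obtain ⟨τ, rfl⟩ := he'
    refine ⟨fun x => σ (τ (e x)), ⟨τ.trans σ, rfl⟩, j,
      C * σ (R.om R.i0 / R.om i) * (R.om j / R.om R.i0), fun x y => ?_⟩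
    have ho : R.om R.i0 ≠ 0 := (R.nl R.i0).om_ne
    have hoj : R.om j ≠ 0 := (R.nl j).om_ne
    have hoi : R.om i ≠ 0 := (R.nl i).om_ne
    have e1 : PhiI (R.b i) (fun x => τ (e x)) x y / R.om i =
        PhiI (R.b i) (fun x => τ (e x)) x y / R.om R.i0 * (R.om R.i0 / R.om i) := by
      field_simp
    rw [e1, map_mul, hC x y]
    field_simp
  · intro e' he' i x y
    exact (h5 A B hQ hT (p * f) ι hι R g e' hgb hgt (hEI e' he') hcop r hr (hEr e' he') i x y).1
  · intro i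
    exact (h6 A B hQ hT (p * f) ι hι R i).2

/-- the hypotheses of Theorem G for the representatives: good ordinary reduction of the lattice `L_(i0)` -/
theorem t_GX (hT : ∀ A B : ℤ, MUX.CQ A B → TorX A B) (hG : Sg_GTHX) (p : ℕ) (A B : ℤ)
    (P : Ideal (OO A B)) (V : ValuationSubring ℂ) (f : ℕ) (hS : SetH p A B P V f) (ι : Type)
    [Fintype ι] (R : Reps A B (p * f) ι) (hk : V.valuation (kap (R.L R.i0)) = 1)
    (hd : V.valuation (1 + 1728 * kap (R.L R.i0)) = 1) (e : OO A B → ℂ)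
    (he : IsEI (idl f * cjI P) e) (wt : ι → ℂ) (hkk : V.valuation (wt R.i0) = 1) (N' : ℕ)
    (hN : N' ≠ 0) (hN' : absD A B * ((p : ℤ) * f) ^ 2 ∣ (N' : ℤ)) :
    ∃ a b c d : ℤ, a * d - b * c = 1 ∧ (N' : ℤ) ∣ c ∧ (N' : ℤ) ∣ d - 1 ∧
      1 ≤ V.valuation (PhiK R e wt ∞ (mob a b c d ∞) / R.om R.i0) := by
  have hq : idl (A := A) (B := B) f * cjI P ≠ ⊥ :=
    (ty_IDE MUXF.xf_ALG p A B P V f hS).2.2.2.2.1
  obtain ⟨r, hr, her⟩ := MUXHY.y_ROU A B hS.cq _ e hq he
  obtain ⟨E, heE, hE⟩ := t_GDT (t_QXP MUXF.xf_NIM MUXF.xf_ALG MUXF.xf_IDL MUXF.xf_QB MUXF.xf_BDD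
    MUXF.xf_TSM) MUXT.main_FTI MUXF.xf_CHI MUXY.z_CON MUXY.z_ALP MUXY.z_ALM
    MUXY.z_FEC MUXY.z_COP p P V f hS (hT A B hS.cq) ι R e he r hr her N' hN hN'
  have hka : IsAlgebraic ℚ (kap (R.L R.i0)) := by
    have hdom : IsDomain (OO A B) := (MUXF.xf_ALG A B (cqF hS.cq)).2.2.2.2
    have hne : (⊤ : Ideal (OO A B)) ≠ ⊥ := bot_ne_top.symm
    have hmem : kap (R.L R.i0) ∈ (RF (⊤ : Ideal (OO A B)) : IntermediateField (kk A B) ℂ) :=
      IntermediateField.subset_adjoin _ _ ⟨_, _, _, R.nl R.i0, Or.inl rfl⟩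
    exact Pool.Agent.MUXW.GRB.alg_RF hS.cq (hT A B hS.cq) ⊤ hne hmem
  obtain ⟨a, b, c, d, h4, h5, h6, h7⟩ := hG A B hS.cq (p * f) ι R E N' hE p hS.pp P hS.hP V
    hS.hV hka hk hd e heE wt (fun h => by
      rw [ValuationSubring.mem_nonunits_iff] at h
      exact absurd hkk h.ne)
  refine ⟨a, b, c, d, h4, h5, h6, ?_⟩
  rw [ValuationSubring.mem_nonunits_iff] at h7
  exact not_lt.mp h7

end

end Pool.Agent.TWG


end

section

/-!
# TWG (helper19): the hypotheses of the abstract part for every prime `p` which splits in `k`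

`t_HYP`: `HypA` for the symbols `PP R P e wt` of an odd character `e` modulo `f cjI P` and weights of valuation `1`.
-/

set_option autoImplicit false

namespace Pool.Agent.TWG

open _root_.MU3 Pool.Agent.MU3A Pool.Agent.MU3B Pool.Agent.MU3F Pool.Agent.MUX Pool.Agent.MUXH
  Pool.Agent.MuSym OnePoint
open Pool.Agent.MUXHY (toCQ toEI toLI nI_eq cjI_eq PhiI_eq PP N0X Sy_RAT Sy_ROU)
open scoped ComplexConjugate

noncomputable section

/-- Theorem G without hypotheses -/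
theorem g_GX (p : ℕ) (A B : ℤ)
    (P : Ideal (OO A B)) (V : ValuationSubring ℂ) (f : ℕ) (hS : SetH p A B P V f) (ι : Type)
    [Fintype ι] (R : Reps A B (p * f) ι) (hk : V.valuation (kap (R.L R.i0)) = 1)
    (hd : V.valuation (1 + 1728 * kap (R.L R.i0)) = 1) (e : OO A B → ℂ)
    (he : IsEI (idl f * cjI P) e) (wt : ι → ℂ) (hkk : V.valuation (wt R.i0) = 1) (N' : ℕ)
    (hN : N' ≠ 0) (hN' : absD A B * ((p : ℤ) * f) ^ 2 ∣ (N' : ℤ)) :
    ∃ a b c d : ℤ, a * d - b * c = 1 ∧ (N' : ℤ) ∣ c ∧ (N' : ℤ) ∣ d - 1 ∧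
      1 ≤ V.valuation (PhiK R e wt ∞ (mob a b c d ∞) / R.om R.i0) :=
  t_GX MUXC.c_TOR (MUXN.tg_GTHX (MUXN.tg_GJ (MUXN.tg_BIN MU3Q.wq MUXN.z_GP MUXN.z_DV) MUXN.z_RET
      MUXN.z_NFE MUXN.tg_LOC MUXN.z_FGG) MUXN.z_DSC MUXN.z_ZL MUXN.z_FK MUXN.z_FGG)
    p A B P V f hS ι R hk hd e he wt hkk N' hN hN'

theorem g_VAL : Sy_VAL := ty_VAL
theorem g_IDE : Sy_IDE := ty_IDE MUXF.xf_ALG
theorem g_CHR : Sy_CHR := ty_CHR g_VAL g_IDE MUXHY.y_ROU MUXF.xf_CHI
theorem g_EIG : Sy_EIG := ty_EIG g_VAL g_IDE MUXHY.y_ROU MUXF.xf_ALG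
theorem g_SYM : Sy_SYM := ty_SYM g_IDE MUXT.main_FTI MUXF.xf_HU MUXF.xf_PRI MUXF.xf_NIM
theorem g_RAT : Sy_RAT := by
  intro A B hCQ b L om hL
  exact MUXY.z_ALQ A B hCQ (MUXC.c_TOR A B hCQ) b L om hL
theorem g_ALF : Sy_ALF := ty_ALF g_IDE MUXHY.y_ROU g_RAT MUXT.main_FTI MUXF.xf_F7
theorem g_PRX : Sy_PRX := ty_PRX g_VAL g_IDE MUXF.xf_PHX MUXF.xf_PRJ

open MUXHY.Brg in
theorem t_HYP (p : ℕ) (A B : ℤ) (P : Ideal (OO A B)) (V : ValuationSubring ℂ) (f : ℕ)
    (hS : SetH p A B P V f) (ι : Type) [hι : Fintype ι] (R : Reps A B (p * f) ι)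
    (hk : V.valuation (kap (R.L R.i0)) = 1)
    (hd : V.valuation (1 + 1728 * kap (R.L R.i0)) = 1) (e : OO A B → ℂ)
    (he : IsEI (idl f * cjI P) e) (wt : ι → ℂ) (hka : ∀ i, IsAlgebraic ℚ (wt i))
    (hkv : ∀ i, V.valuation (wt i) = 1) (s : ℤ) (hs : s = 1 ∨ s = -1) (h : ℕ) (al : OO A B)
    (hh : 1 ≤ h) (hal : P ^ h = sp al) :
    HypA p V (N0X A B f) 1 h (e al * conj (emb al)) (nuX e) (PP R P e wt) s := by
  obtain ⟨pp, vp, -, -, -, -, vr, -, -, D0, pD⟩ := g_VAL p A B P V f hS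
  obtain ⟨-, -, -, -, gne, pfg, -, -, -, -⟩ := g_IDE p A B P V f hS
  obtain ⟨r, r0, hr⟩ := MUXHY.y_ROU A B hS.cq _ e gne he
  obtain ⟨nu1, nup, num, nuper, nuv⟩ := g_CHR p A B P V f hS e he
  obtain ⟨va, alga⟩ := g_EIG p A B P V f hS e he h al hh hal
  obtain ⟨sym, hec, per⟩ := g_SYM p A B P V f hS ι hι R e he wt
  obtain ⟨alg, fin⟩ := g_ALF p A B P V f hS ι hι R e he wt hka
  have hN0c := N0X_cast (A := A) (B := B) f D0
  have hN0 : N0X A B f ≠ 0 := by
    intro h0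
    rw [h0] at hN0c
    have : (0 : ℤ) < absD A B * (f : ℤ) ^ 2 :=
      mul_pos D0 (pow_pos (by exact_mod_cast Nat.pos_of_ne_zero hS.f0) 2)
    rw [← hN0c] at this
    exact absurd this (by norm_num)
  have hcop : p.Coprime (N0X A B f) := by
    rw [Nat.Prime.coprime_iff_not_dvd pp]
    intro hd
    have h1 : (p : ℤ) ∣ absD A B * (f : ℤ) ^ 2 := by
      rw [← hN0c]
      exact_mod_cast hd
    rcases (Nat.prime_iff_prime_int.mp pp).dvd_or_dvd h1 with h2 | h2
    · exact pD h2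
    · exact hS.fp (by exact_mod_cast (Nat.prime_iff_prime_int.mp pp).dvd_of_dvd_pow h2)
  have hke : ∀ c, V.valuation (e ((nI (R.b c) : ℕ) : OO A B)) = 1 := fun c =>
    vr r _ r0 (hr _ (e_nI R he pfg c))
  refine { pp := pp, vp := vp, N0 := hN0, cop := hcop, h1 := hh, va := va, alga := alga,
           nu1 := nu1, nup := nup, num := num, nuper := nuper, nuv := nuv, sym := sym,
           hec := hec, per := per h al hh hal, alg := alg, fin := fin, s1 := hs, G := ?_,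
           prj := g_PRX p A B P V f hS ι hι R e he wt (s : ℂ) }
  intro N' hN' hdvd
  have hd' : absD A B * ((p : ℤ) * f) ^ 2 ∣ (N' : ℤ) := by
    have h0 : ((p ^ (1 + 1) * N0X A B f : ℕ) : ℤ) ∣ (N' : ℤ) := Int.natCast_dvd_natCast.mpr hdvd
    push_cast at h0
    rw [hN0c] at h0
    refine dvd_trans (dvd_of_eq ?_) h0
    ring
  obtain ⟨a, b, c, d, hdet, hc, hd1, hv⟩ := g_GX p A B P V f hS ι R hk hd e he
    (fun c => wt c / e ((nI (R.b c) : ℕ) : OO A B))
    (by simp only [map_div₀, hkv, hke, div_one]) N' hN' hd'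
  refine ⟨a, b, c, d, hdet, hc, hd1, ?_⟩
  rw [PP_zero]
  exact hv

end

end Pool.Agent.TWG


end

section

/-!
# TWG, module SUM (helper19): the double sum over two primitive characters of the values of the symbol
-/

set_option autoImplicit false

namespace Pool.Agent.TWG

open _root_.MU3 Pool.Agent.MU3A Pool.Agent.MU3B Pool.Agent.MU3F Pool.Agent.MuSym OnePoint
open scoped ComplexConjugate

noncomputable section

section PHV

open Pool.Agent.MUXF Pool.Agent.MUXF.F5x Pool.Agent.MU3F.F5aux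

/-- the values of the symbol at the cusps `β / M` (the first half of the proof of `MUX/F_F5.lean`) -/
theorem t_PHV (A B : ℤ) (hAB : CQ A B) (b : Ideal (OO A B)) (L : PeriodPair) (Om : ℂ)
    (hL : IsLI b L Om) (g : Ideal (OO A B)) (e : OO A B → ℂ) (he : IsEI g e) (m M : ℕ)
    (hm0 : m ≠ 0) (hmg : (m : OO A B) ∈ g) (hM0 : M ≠ 0) (hMm : M ∣ m)
    (hcop : (nI b).Coprime m) : e ((nI b : ℕ) : OO A B) ≠ 0 ∧
    ∀ β : ℕ, PhiI b e ∞ (((β / M : ℚ) : ℚ) : OnePoint ℚ) =
      (Om * nI b / (2 * m)) * (e ((nI b : ℕ) : OO A B)) * sumMod (m : OO A B) (fun x =>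
        ex (β * (nI b * nm x) / M) * (e x * ee L (Om * nI b * emb x / m))) := by
  classical
  have h2 := xf_IDL
  have h4 := xf_QB
  have h6 := xf_CNV
  have h7 := xf_F4
  have h8 := b_PER
  obtain ⟨hal, hx, hz, hfin, hdom⟩ := xf_ALG A B hAB
  have hb : b ≠ ⊥ := hL.b_ne
  obtain ⟨hN0, -⟩ := h2 A B hAB b hb
  obtain ⟨-, hq2, hq3⟩ := h4 A B hAB b hb
  have hmC : (m : ℂ) ≠ 0 := by exact_mod_cast hm0
  have hMC : (M : ℂ) ≠ 0 := by exact_mod_cast hM0
  have hNC : ((nI b : ℕ) : ℂ) ≠ 0 := by exact_mod_cast hN0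
  have hOm := hL.om_ne
  have hembN : ∀ n : ℕ, emb ((n : ℕ) : OO A B) = n := by
    intro n
    have := (hz n).1
    rw [Int.cast_natCast] at this
    rw [this]
    push_cast
    rfl
  have hmO : ((m : ℕ) : OO A B) ≠ 0 := by
    intro h0
    have h9 := ((hx _).1).2 h0
    rw [hembN] at h9
    exact hmC h9
  have hspan : Ideal.span {((m : ℕ) : OO A B)} ≠ ⊥ := by
    rw [Ne, Ideal.span_singleton_eq_bot]
    exact hmO
  have hF := hfin _ hspan
  -- `e (N b)` is not zero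
  have hbez : ∃ u v : ℤ, u * (nI b : ℤ) + v * (m : ℤ) = 1 := by
    have h9 : IsCoprime ((nI b : ℕ) : ℤ) (m : ℤ) := Nat.isCoprime_iff_coprime.2 hcop
    obtain ⟨u, v, huv⟩ := h9
    exact ⟨u, v, huv⟩
  have heN : e ((nI b : ℕ) : OO A B) ≠ 0 := by
    rw [he.supp]
    rw [Ideal.isCoprime_iff_exists]
    obtain ⟨u, v, huv⟩ := hbez
    refine ⟨(u : OO A B) * ((nI b : ℕ) : OO A B),
      Ideal.mul_mem_left _ _ (Ideal.mem_span_singleton_self _), (v : OO A B) * (m : OO A B),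
      Ideal.mul_mem_left _ _ hmg, ?_⟩
    have h9 := congrArg (fun z : ℤ => (z : OO A B)) huv
    push_cast at h9
    exact h9
  -- periodicity
  set F : ℤ → OO A B → ℂ := fun β x => e x * ex (β * qb b x / M) * ee L (Om * emb x / m) with hFd
  have hper : ∀ β : ℤ, ∀ x ∈ b, ∀ y ∈ b, F β (x + m * y) = F β x := by
    intro β x hxb y hyb
    rw [hFd]
    have e1 : e (x + m * y) = e x := by
      apply he.per
      rw [add_sub_cancel_left]
      exact Ideal.mul_mem_right _ _ hmg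
    have e2 : ex (β * qb b (x + m * y) / M) = ex (β * qb b x / M) := by
      obtain ⟨k, hk⟩ := hq2 x hxb y hyb m
      rw [Int.cast_natCast] at hk
      obtain ⟨j, hj⟩ := hMm
      have hMq : (M : ℚ) ≠ 0 := by exact_mod_cast hM0
      have h9 : ((β : ℚ) * ((qb b (x + m * y) : ℤ) : ℚ) / (M : ℚ)) =
          β * qb b x / M + ((β * j * k : ℤ) : ℚ) := by
        rw [hk, hj]
        push_cast
        field_simp
      rw [h9, ex_add, (ex_eq_one _).2 ⟨_, rfl⟩, mul_one]
    have e3 : ee L (Om * emb (x + (m : OO A B) * y) / m) = ee L (Om * emb x / m) := by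
      have h9 : Om * emb (x + (m : OO A B) * y) / m = Om * emb x / m + Om * emb y := by
        rw [(hal _ _).2.1, (hal _ _).1, hembN]
        field_simp
      rw [h9]
      exact (h8 L).1 _ _ ((hL.mem _).2 ⟨y, hyb, rfl⟩)
    dsimp only
    rw [e1, e2, e3]
  -- values of the symbol
  have hPhi : ∀ β : ℕ, PhiI b e ∞ (((β / M : ℚ) : ℚ) : OnePoint ℚ) =
      (Om * nI b / (2 * m)) * (e ((nI b : ℕ) : OO A B)) * sumMod (m : OO A B) (fun x =>
        ex (β * (nI b * nm x) / M) * (e x * ee L (Om * nI b * emb x / m))) := by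
    intro β
    have h9 : PhiI b e ∞ (((β / M : ℚ) : ℚ) : OnePoint ℚ) = 0 - IvI b e ((β : ℚ) / M) := rfl
    have h10 := (h7 A B hAB b L Om hL g e he m M hm0 hmg hM0 hMm (β : ℤ)).2
    have h11 := h6 A B hAB b m hb hm0 hcop (F β) (hper β)
    rw [Int.cast_natCast] at h10
    have h12 : (fun x => e x * ex ((β : ℚ) * qb b x / M) * ee L (Om * emb x / m)) = F β := by
      rw [hFd]
      dsimp only
      rw [Int.cast_natCast]
    rw [h9, h10, h12, h11]
    have h13 : (fun x : OO A B => F β (((nI b : ℕ) : OO A B) * x)) = fun x =>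
        (e ((nI b : ℕ) : OO A B)) * (ex (β * (nI b * nm x) / M) *
          (e x * ee L (Om * nI b * emb x / m))) := by
      funext x
      rw [hFd]
      dsimp only
      rw [he.mul, hq3, (hal _ _).1, hembN]
      push_cast
      rw [show Om * (((nI b : ℕ) : ℂ) * emb x) / m = Om * nI b * emb x / m by ring]
      ring
    rw [h13, sm_mul]
    ring
  exact ⟨heN, hPhi⟩

end PHV

open Pool.Agent.MUX
open Pool.Agent.MUXHY (toCQ toEI toLI nI_eq cjI_eq PhiI_eq PP N0X)

lemma sm_const {A B : ℤ} (I : OO A B) [Finite (OO A B ⧸ Ideal.span {I})] (s : Finset ℕ)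
    (F : ℕ → OO A B → ℂ) :
    ∑ b ∈ s, sumMod I (F b) = sumMod I (fun x => ∑ b ∈ s, F b x) :=
  (Pool.Agent.MUXF.F5x.sm_sum I s F).symm

/-- (SUM) the double sum over two primitive characters -/
theorem t_SUM (A B : ℤ) (hc : MUX.CQ A B) (n : ℕ) (ι : Type) [Fintype ι] (R : Reps A B n ι)
    (P g : Ideal (OO A B)) (e : OO A B → ℂ) (he : MUX.IsEI g e) (wt : ι → ℂ) (m q r : ℕ)
    (hm : m ≠ 0) (hmg : (m : OO A B) ∈ g) (hqr : q * r ∣ m)
    (hcop : ∀ i, (MUX.nI (R.b i)).Coprime m) [NeZero q] [NeZero r]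
    (ψ : DirichletCharacter ℂ q) (hψ : ψ.IsPrimitive) (χ : DirichletCharacter ℂ r)
    (hχ : χ.IsPrimitive) :
    ∑ b ∈ Finset.range q, ∑ c ∈ Finset.range r, ψ (b : ZMod q) * χ (c : ZMod r) *
      PP R P e wt 0 ∞ (((b : ℚ) / q + (c : ℚ) / r : ℚ) : OnePoint ℚ) =
    gaussSum ψ ZMod.stdAddChar * gaussSum χ ZMod.stdAddChar / (2 * m) *
      ∑ i, wt i * muX R i * sumMod (m : OO A B) (fun x =>
        e x * ψ⁻¹ ((nm x * MUX.nI (R.b i) : ℤ) : ZMod q) *
          χ⁻¹ ((nm x * MUX.nI (R.b i) : ℤ) : ZMod r) * ee (R.L i) (pt R m i x)) := by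
  have hQ := toCQ hc
  obtain ⟨hal, hx, hz, hfin, hdom⟩ := MUXF.xf_ALG A B hQ
  have hq0 : q ≠ 0 := NeZero.ne q
  have hr0 : r ≠ 0 := NeZero.ne r
  have hM0 : q * r ≠ 0 := mul_ne_zero hq0 hr0
  have hmC : (m : ℂ) ≠ 0 := by exact_mod_cast hm
  have hqQ : (q : ℚ) ≠ 0 := by exact_mod_cast hq0
  have hrQ : (r : ℚ) ≠ 0 := by exact_mod_cast hr0
  have hmO : ((m : ℕ) : OO A B) ≠ 0 := by
    intro h0
    have h9 := ((hx _).1).2 h0
    have h10 := (hz m).1
    rw [Int.cast_natCast, Int.cast_natCast] at h10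
    rw [h10] at h9
    exact hmC h9
  have hspan : Ideal.span {((m : ℕ) : OO A B)} ≠ ⊥ := by
    rw [Ne, Ideal.span_singleton_eq_bot]
    exact hmO
  have hF := hfin _ hspan
  have homi : ∀ i, R.om i ≠ 0 := fun i => (R.nl i).om_ne
  -- the values of the symbols
  have hval : ∀ (i : ι) (β : ℕ), wt i / e ((MUX.nI (R.b i) : ℕ) : OO A B) *
      MUX.PhiI (R.b i * P ^ 0) e ∞ (((β / ((q * r : ℕ) : ℚ) : ℚ)) : OnePoint ℚ) / R.om R.i0 =
      wt i * muX R i / (2 * m) * sumMod (m : OO A B) (fun x =>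
        ex (β * (MUX.nI (R.b i) * nm x) / ((q * r : ℕ) : ℚ)) *
          (e x * ee (R.L i) (pt R m i x))) := by
    intro i β
    obtain ⟨h1, h2⟩ := t_PHV A B hQ (R.b i) (R.L i) (R.om i) (toLI (R.nl i).toIsLI) g e
      (toEI he) m (q * r) hm hmg hM0 hqr (hcop i)
    have h3 := h2 β
    have h1' : e ((MUX.nI (R.b i) : ℕ) : OO A B) ≠ 0 := h1
    rw [pow_zero, mul_one]
    have h4 : MUX.PhiI (R.b i) e ∞ (((β / ((q * r : ℕ) : ℚ) : ℚ)) : OnePoint ℚ) =
        (R.om i * MUX.nI (R.b i) / (2 * m)) * (e ((MUX.nI (R.b i) : ℕ) : OO A B)) *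
          sumMod (m : OO A B) (fun x =>
        ex (β * (MUX.nI (R.b i) * nm x) / ((q * r : ℕ) : ℚ)) *
          (e x * ee (R.L i) (pt R m i x))) := h3
    rw [h4]
    unfold muX
    have := homi R.i0
    field_simp
  have hPP : ∀ β : ℕ, PP R P e wt 0 ∞ (((β / ((q * r : ℕ) : ℚ) : ℚ)) : OnePoint ℚ) =
      ∑ i, wt i * muX R i / (2 * m) * sumMod (m : OO A B) (fun x =>
        ex (β * (MUX.nI (R.b i) * nm x) / ((q * r : ℕ) : ℚ)) *
          (e x * ee (R.L i) (pt R m i x))) := by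
    intro β
    unfold PP
    rw [Finset.sum_div]
    exact Finset.sum_congr rfl fun i _ => hval i β
  -- the inner sums
  have hin : ∀ k : ℤ, ∑ b ∈ Finset.range q, ∑ c ∈ Finset.range r, ψ (b : ZMod q) *
      χ (c : ZMod r) * ex ((((b * r + c * q : ℕ) : ℚ)) * k / ((q * r : ℕ) : ℚ)) =
      (gaussSum ψ ZMod.stdAddChar * gaussSum χ ZMod.stdAddChar) *
        (ψ⁻¹ (k : ZMod q) * χ⁻¹ (k : ZMod r)) := by
    intro k
    have h1 := Gau.shift ψ hψ k
    have h2 := Gau.shift χ hχ k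
    have h3 : (gaussSum ψ ZMod.stdAddChar * gaussSum χ ZMod.stdAddChar) *
        (ψ⁻¹ (k : ZMod q) * χ⁻¹ (k : ZMod r)) =
        (ψ⁻¹ (k : ZMod q) * gaussSum ψ ZMod.stdAddChar) *
          (χ⁻¹ (k : ZMod r) * gaussSum χ ZMod.stdAddChar) := by ring
    rw [h3, ← h1, ← h2, Finset.sum_mul_sum]
    refine Finset.sum_congr rfl fun b _ => Finset.sum_congr rfl fun c _ => ?_
    have h4 : (((b * r + c * q : ℕ) : ℚ)) * k / ((q * r : ℕ) : ℚ) =
        (((b * k : ℤ) : ℚ) / q) + (((c * k : ℤ) : ℚ) / r) := by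
      push_cast
      field_simp
    rw [h4, Pool.Agent.MU3F.F5aux.ex_add]
    ring
  have hstep : ∀ b ∈ Finset.range q, ∀ c ∈ Finset.range r, ψ (b : ZMod q) * χ (c : ZMod r) *
      PP R P e wt 0 ∞ (((b : ℚ) / q + (c : ℚ) / r : ℚ) : OnePoint ℚ) =
      ∑ i, wt i * muX R i / (2 * m) * sumMod (m : OO A B) (fun x =>
        (ψ (b : ZMod q) * χ (c : ZMod r) *
        ex ((((b * r + c * q : ℕ) : ℚ)) * ((nm x * MUX.nI (R.b i) : ℤ)) / ((q * r : ℕ) : ℚ))) *
          (e x * ee (R.L i) (pt R m i x))) := by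
    intro b _ c _
    have h1 : ((b : ℚ) / q + (c : ℚ) / r : ℚ) =
        ((b * r + c * q : ℕ) : ℚ) / ((q * r : ℕ) : ℚ) := by
      push_cast
      field_simp
    rw [h1, hPP, Finset.mul_sum]
    refine Finset.sum_congr rfl fun i _ => ?_
    rw [mul_left_comm, ← Pool.Agent.MUXF.F5x.sm_mul]
    congr 2
    funext x
    rw [← mul_assoc]
    congr 3
    push_cast
    ring
  rw [Finset.sum_congr rfl fun b hb => Finset.sum_congr rfl fun c hc => hstep b hb c hc]
  have hcomm : ∀ G : ℕ → ℕ → ι → ℂ, ∑ b ∈ Finset.range q, ∑ c ∈ Finset.range r, ∑ i, G b c i =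
      ∑ i, ∑ b ∈ Finset.range q, ∑ c ∈ Finset.range r, G b c i := by
    intro G
    have h1 : ∀ b ∈ Finset.range q, ∑ c ∈ Finset.range r, ∑ i, G b c i =
        ∑ i, ∑ c ∈ Finset.range r, G b c i := fun b _ => Finset.sum_comm
    rw [Finset.sum_congr rfl h1]
    exact Finset.sum_comm
  rw [hcomm, Finset.mul_sum]
  refine Finset.sum_congr rfl fun i _ => ?_
  have hpull : ∀ (c : ℂ) (G : ℕ → ℕ → ℂ), ∑ b ∈ Finset.range q, ∑ d ∈ Finset.range r,
      c * G b d = c * ∑ b ∈ Finset.range q, ∑ d ∈ Finset.range r, G b d := by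
    intro c G
    rw [Finset.mul_sum]
    exact Finset.sum_congr rfl fun b _ => (Finset.mul_sum _ _ _).symm
  rw [hpull, Finset.sum_congr rfl fun b _ => sm_const (m : OO A B) (Finset.range r) _, sm_const]
  have hfun : (fun x : OO A B => ∑ b ∈ Finset.range q, ∑ c ∈ Finset.range r,
      (ψ (b : ZMod q) * χ (c : ZMod r) *
        ex ((((b * r + c * q : ℕ) : ℚ)) * ((nm x * MUX.nI (R.b i) : ℤ)) / ((q * r : ℕ) : ℚ))) *
          (e x * ee (R.L i) (pt R m i x))) =
      fun x => (gaussSum ψ ZMod.stdAddChar * gaussSum χ ZMod.stdAddChar) *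
        (e x * ψ⁻¹ ((nm x * MUX.nI (R.b i) : ℤ) : ZMod q) *
          χ⁻¹ ((nm x * MUX.nI (R.b i) : ℤ) : ZMod r) * ee (R.L i) (pt R m i x)) := by
    funext x
    have h5 := hin (nm x * MUX.nI (R.b i) : ℤ)
    simp only [← Finset.sum_mul]
    rw [h5]
    ring
  rw [hfun, Pool.Agent.MUXF.F5x.sm_mul]
  ring

end

end Pool.Agent.TWG


end

section

/-!
# TWG, module SYMA (helper19): `S_SYMA`, from the rigidity theorem (all large levels) and the double sum
-/

set_option autoImplicit false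

open WeierstrassCurve Polynomial NumberField IsDedekindDomain

namespace Pool.Agent.TWG

open _root_.MU3 Pool.Agent.MU3A Pool.Agent.MU3B Pool.Agent.MU3F Pool.Agent.MUX Pool.Agent.MUXH
  Pool.Agent.MuSym OnePoint Pool.Agent.TWT
open Pool.Agent.MUXHY (toCQ toEI toLI nI_eq cjI_eq PhiI_eq PP N0X)
open scoped ComplexConjugate

noncomputable section

namespace Syma

lemma toH {p : ℕ} {A B : ℤ} {P : Ideal (OO A B)} {V : ValuationSubring ℂ} {f : ℕ}
    (hS : SetG p A B P V f) : SetH p A B P V f where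
  cq := hS.cq
  pp := hS.pp
  hP := hS.hP
  hV := hS.hV
  f0 := hS.f0
  fp := hS.fp
  fD := (Dvd.intro_left 2 rfl).trans hS.fD

lemma vint {p : ℕ} {A B : ℤ} {P : Ideal (OO A B)} {V : ValuationSubring ℂ} {f : ℕ}
    (hS : SetG p A B P V f) (n : ℤ) (h : ¬ (p : ℤ) ∣ n) : V.valuation (n : ℂ) = 1 :=
  (g_VAL p A B P V f (toH hS)).2.2.2.2.2.1 n h

/-- `w (-1) = -1` -/
lemma w_neg {p : ℕ} {A B : ℤ} {P : Ideal (OO A B)} {V : ValuationSubring ℂ} {f : ℕ}
    (hS : SetG p A B P V f) {w : OO A B → ℂ} (hw : TeiP p P V w) : w (-1) = -1 := by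
  have h1 : w (-1) ^ 2 = 1 := by
    rw [pow_two, ← hw.mul]
    simp [hw.one]
  have h2 : (w (-1) - 1) * (w (-1) + 1) = 0 := by linear_combination h1
  rcases mul_eq_zero.1 h2 with h3 | h3
  · exfalso
    have h4 := hw.int (-1)
    have h5 : w (((-1 : ℤ) : ℤ) : OO A B) = 1 := by
      rw [show (((-1 : ℤ) : ℤ) : OO A B) = -1 by push_cast; rfl]
      exact sub_eq_zero.1 h3
    rw [h5] at h4
    have h6 : (1 : ℂ) - ((-1 : ℤ) : ℂ) = ((2 : ℤ) : ℂ) := by push_cast; ring
    rw [h6, vint hS 2 (fun hd => by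
      have := Int.le_of_dvd (by norm_num) hd
      have := hS.p5
      omega)] at h4
    have h7 := (g_VAL p A B P V f (toH hS)).2.1
    exact absurd (lt_of_le_of_lt h4 h7) (lt_irrefl _)
  · exact eq_neg_of_add_eq_zero_left h3

/-- the character `epT eta w` is odd, modulo `f cjI P` -/
theorem ei {p : ℕ} {A B : ℤ} {P : Ideal (OO A B)} {V : ValuationSubring ℂ} {f : ℕ}
    (hS : SetG p A B P V f) {w : OO A B → ℂ} (hw : TeiP p P V w) {n : ℕ} {ι : Type}
    {R : Reps A B n ι} {kp : ι → ℂ} {eta : OO A B → ℂ} (hch : ChD p f R kp eta) :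
    IsEI (idl f * cjI P) (epT eta w) := by
  obtain ⟨-, hmax, -, -, -, -, -, -, -, -⟩ := g_IDE p A B P V f (toH hS)
  have hst1 : star (1 : OO A B) = 1 := star_one _
  have hcmax : (cjI P).IsMaximal := by
    refine Ideal.comap_isMaximal_of_surjective (starRingEnd (OO A B)) ?_
    intro x
    exact ⟨star x, star_star x⟩
  have hcop : ∀ x : OO A B, w (star x) ≠ 0 ↔ IsCoprime (sp x) (cjI P) := by
    intro x
    rw [Ne, hw.zero]
    constructor
    · intro h
      rw [Ideal.isCoprime_iff_sup_eq]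
      refine hcmax.1.2 _ ?_
      rw [lt_iff_le_not_ge]
      refine ⟨le_sup_right, fun h1 => h ?_⟩
      exact h1 (Ideal.mem_sup_left (Ideal.mem_span_singleton_self x))
    · intro h h1
      rw [Ideal.isCoprime_iff_sup_eq] at h
      have h2 : sp x ≤ cjI P := (Ideal.span_singleton_le_iff_mem _).2 h1
      rw [sup_eq_right.2 h2] at h
      exact hcmax.ne_top h
  constructor
  · show eta 1 * (w (star 1))⁻¹ = 1
    rw [hst1, hch.one, hw.one, inv_one, mul_one]
  · intro x y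
    show eta (x * y) * (w (star (x * y)))⁻¹ = eta x * (w (star x))⁻¹ * (eta y * (w (star y))⁻¹)
    rw [hch.mul, star_mul', hw.mul, mul_inv]
    ring
  · intro x y h
    show eta x * (w (star x))⁻¹ = eta y * (w (star y))⁻¹
    have h1 : x - y ∈ (idl f : Ideal (OO A B)) := Ideal.mul_le_left h
    have h2 : x - y ∈ cjI P := Ideal.mul_le_right h
    have h3 : star (x - y) ∈ P := (MUXHY.Ide.mem_cjI P (x - y)).1 h2
    rw [star_sub] at h3
    rw [hch.per x y h1, hw.per (star x) (star y) h3]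
  · intro x
    show eta x * (w (star x))⁻¹ ≠ 0 ↔ _
    have h1 : (w (star x))⁻¹ ≠ 0 ↔ w (star x) ≠ 0 := by rw [Ne, Ne, inv_eq_zero]
    rw [mul_ne_zero_iff, h1, hch.supp, hcop, ← IsCoprime.mul_right_iff]
  · show eta (-1) * (w (star (-1)))⁻¹ = -1
    rw [hch.neg, star_neg, hst1, w_neg hS hw]
    norm_num

/-- the inner sum is `SST` -/
theorem sst {p : ℕ} {A B : ℤ} {P : Ideal (OO A B)} {V : ValuationSubring ℂ} {f : ℕ}
    (hS : SetG p A B P V f) {w : OO A B → ℂ} (hw : TeiP p P V w) {ι : Type} [Fintype ι]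
    (R : Reps A B (p * f) ι) {kp : ι → ℂ} {eta : OO A B → ℂ}
    (m q : ℕ) (ψ : DirichletCharacter ℂ q) (wD : DirichletCharacter ℂ p)
    (hwD : ∀ c : ℤ, wD (c : ZMod p) = (w (c : OO A B))⁻¹) (hm : m ≠ 0) :
    ∑ i, kp i * (w ((MUX.nI (R.b i) : ℕ) : OO A B))⁻¹ * muX R i * sumMod (m : OO A B) (fun x =>
        epT eta w x * ψ⁻¹⁻¹ ((nm x * MUX.nI (R.b i) : ℤ) : ZMod q) *
          wD⁻¹ ((nm x * MUX.nI (R.b i) : ℤ) : ZMod p) * ee (R.L i) (pt R m i x)) =
      SST R m (thT R kp eta ψ) w := by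
  have hQ := toCQ hS.cq
  obtain ⟨hal, hx, hz, hfin, hdom⟩ := MUXF.xf_ALG A B hQ
  have hmC : (m : ℂ) ≠ 0 := by exact_mod_cast hm
  have hmO : ((m : ℕ) : OO A B) ≠ 0 := by
    intro h0
    have h9 := ((hx _).1).2 h0
    have h10 := (hz m).1
    rw [Int.cast_natCast, Int.cast_natCast] at h10
    rw [h10] at h9
    exact hmC h9
  have hspan : Ideal.span {((m : ℕ) : OO A B)} ≠ ⊥ := by
    rw [Ne, Ideal.span_singleton_eq_bot]
    exact hmO
  have hF := hfin _ hspan
  have _nz : NeZero p := ⟨hS.pp.ne_zero⟩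
  -- `wD⁻¹` on the integers
  have hwi : ∀ c : ℤ, wD⁻¹ (c : ZMod p) = w (c : OO A B) := by
    intro c
    have h1 : wD⁻¹ (c : ZMod p) = (wD (c : ZMod p))⁻¹ := by
      rw [MulChar.inv_apply_eq_inv']
    rw [h1, hwD, inv_inv]
  unfold SST
  refine Finset.sum_congr rfl fun i _ => ?_
  have hwn : w ((MUX.nI (R.b i) : ℕ) : OO A B) ≠ 0 := by
    intro h0
    rw [hw.zero] at h0
    have h1 : ¬ (p : ℤ) ∣ ((MUX.nI (R.b i) : ℕ) : ℤ) := by
      intro hd
      have h2 := R.cop i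
      have h3 : p ∣ MUX.nI (R.b i) := by exact_mod_cast hd
      have h4 : p ∣ 1 := by
        rw [← Nat.Coprime.gcd_eq_one h2]
        exact Nat.dvd_gcd h3 (dvd_mul_right p f)
      exact hS.pp.one_lt.ne' (Nat.dvd_one.1 h4)
    have h5 := vint hS _ h1
    have h6 := ((g_VAL p A B P V f (toH hS)).2.2.2.1 ((MUX.nI (R.b i) : ℕ) : OO A B)).1 (by
      have := (hz ((MUX.nI (R.b i) : ℕ) : ℤ)).1
      rw [Int.cast_natCast] at this
      rw [this]
      exact h5)
    exact h6 h0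
  rw [mul_assoc, mul_comm (kp i * _), mul_assoc, mul_comm (sumMod _ _), ← Pool.Agent.MUXF.F5x.sm_mul]
  congr 2
  funext x
  have hnm : ((nm x * MUX.nI (R.b i) : ℤ) : OO A B) =
      x * star x * ((MUX.nI (R.b i) : ℕ) : OO A B) := by
    rw [(hx x).2.2.2.2.1]
    push_cast
    ring
  rw [inv_inv, hwi, hnm, hw.mul, hw.mul]
  unfold epT thT oneT
  field_simp

end Syma

open _root_.Pool.Agent.TWG.Syma in
/-- (SYMA) -/
theorem t_SYMA : S_SYMA := by
  intro l g h hG p A B P V f hS hlf hTor ι _ R hGR w hw J _ kp eta hch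
  have hQ := toCQ hS.cq
  obtain ⟨hal, hx, hz, hfin, hdom⟩ := MUXF.xf_ALG A B hQ
  obtain ⟨hPb, hmax, -, -, hgb, hpf, -, -, -, -⟩ := g_IDE p A B P V f (toH hS)
  obtain ⟨-, vp, -, -, -, vn, vr, vf, -, -, -⟩ := g_VAL p A B P V f (toH hS)
  have hp := hS.pp
  have _nzp : NeZero p := ⟨hp.ne_zero⟩
  have hl : l.Prime := by
    rcases hG with ⟨h1, -, -⟩ | ⟨h1, -, -⟩ <;> rw [h1]
    · exact Nat.prime_three
    · exact Nat.prime_two
  obtain ⟨hn, al, hh, hPal⟩ := MUXHY.y_CLN A B hS.cq (p * f) ι inferInstance R P hPb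
  obtain ⟨wD, hwD, hwD1⟩ := Pool.Agent.TWB.t_TED p A B P V hS.cq hp
    (lt_of_lt_of_le (by norm_num) hS.p5) hS.hP hS.hV w hw
  have hne : ∀ j, IsEI (idl f * cjI P) (epT (eta j) w) := fun j => ei hS hw (hch j)
  -- the weights
  have hwn : ∀ i, w ((MUX.nI (R.b i) : ℕ) : OO A B) ^ (p - 1) = 1 := by
    intro i
    apply hw.root
    have h1 : ¬ (p : ℤ) ∣ ((MUX.nI (R.b i) : ℕ) : ℤ) := by
      intro hd
      have h2 := R.cop i
      have h3 : p ∣ MUX.nI (R.b i) := by exact_mod_cast hd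
      have h4 : p ∣ 1 := by
        rw [← Nat.Coprime.gcd_eq_one h2]
        exact Nat.dvd_gcd h3 (dvd_mul_right p f)
      exact hS.pp.one_lt.ne' (Nat.dvd_one.1 h4)
    have h5 := vint hS _ h1
    exact ((g_VAL p A B P V f (toH hS)).2.2.2.1 ((MUX.nI (R.b i) : ℕ) : OO A B)).1 (by
      have := (hz ((MUX.nI (R.b i) : ℕ) : ℤ)).1
      rw [Int.cast_natCast] at this
      rw [this]
      exact h5)
  have hp1 : p - 1 ≠ 0 := by
    have := hS.p5
    omega
  have hroot : ∀ j i, ∃ r : ℕ, r ≠ 0 ∧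
      (kp j i * (w ((MUX.nI (R.b i) : ℕ) : OO A B))⁻¹) ^ r = 1 := by
    intro j i
    obtain ⟨r, hr, h1, -⟩ := (hch j).fin
    refine ⟨r * (p - 1), mul_ne_zero (fun h0 => hr (h0 ▸ dvd_zero p)) hp1, ?_⟩
    rw [mul_pow, pow_mul, h1, one_pow, inv_pow, mul_comm r, pow_mul, hwn, one_pow, inv_one,
      mul_one]
  obtain ⟨n0, hn0⟩ := Pool.Agent.TWB.a_TWB4 l g h hG V p hS.p5 J (N0X A B f) 1 (fun _ => hn)
    (fun j => epT (eta j) w al * conj (emb al)) (fun j => nuX (epT (eta j) w))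
    (fun j => PP R P (epT (eta j) w) (fun i => kp j i * (w ((MUX.nI (R.b i) : ℕ) : OO A B))⁻¹))
    (fun j => t_HYP p A B P V f (toH hS) ι R (hGR.kap _) (hGR.dis _) _ (hne j) _
      (fun i => by
        obtain ⟨r, hr, h1⟩ := hroot j i
        exact IsAlgebraic.of_pow (Nat.pos_of_ne_zero hr) (by rw [h1]; exact isAlgebraic_one))
      (fun i => by
        obtain ⟨r, hr, h1⟩ := hroot j i
        exact vr r _ hr h1) (-1) (Or.inr rfl) hn al hh hPal)
    (fun j x => Pool.Agent.TWB.t_DPP A B hS.cq (p * f) ι R P hPb (idl f * cjI P) _ hgb (hne j) l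
      hl (Ideal.mul_le_left.trans (by
        rw [Ideal.span_singleton_le_span_singleton]
        obtain ⟨k, hk⟩ := hlf
        refine ⟨(k : OO A B), ?_⟩
        rw [hk]
        push_cast
        rfl)) _ 0 x) wD hwD1
  refine ⟨max n0 2, fun n hn' j ψ hψ1 hψ2 => ?_⟩
  have hn2 : 2 ≤ n := (le_max_right _ _).trans hn'
  have hnn : n0 ≤ n := (le_max_left _ _).trans hn'
  have _nzl : NeZero (l ^ n) := ⟨pow_ne_zero _ hl.ne_zero⟩
  have hψi1 : ψ⁻¹ (-1) = 1 := by
    rw [MulChar.inv_apply_eq_inv', hψ1, inv_one]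
  have hψi2 : ψ⁻¹ (1 + (l : ZMod (l ^ n)) ^ (n - 1)) ≠ 1 := by
    rw [MulChar.inv_apply_eq_inv']
    intro h1
    exact hψ2 (inv_eq_one.1 h1)
  have hv := hn0 n hnn j ψ⁻¹ hψi1 hψi2
  have hprim := Gau.prim hl hn2 ψ⁻¹ hψi2
  have hwDne : wD ≠ 1 := by
    intro h1
    rw [h1] at hwD1
    rw [MulChar.one_apply (isUnit_one.neg)] at hwD1
    norm_num at hwD1
  have hprim2 := Gau.prim1 hp wD hwDne
  have hm : f * l ^ n * p ≠ 0 :=
    mul_ne_zero (mul_ne_zero hS.f0 (pow_ne_zero _ hl.ne_zero)) hp.ne_zero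
  have hmg : ((f * l ^ n * p : ℕ) : OO A B) ∈ (idl f * cjI P : Ideal (OO A B)) := by
    have : ((f * l ^ n * p : ℕ) : OO A B) = ((l ^ n : ℕ) : OO A B) * ((p * f : ℕ) : OO A B) := by
      push_cast
      ring
    rw [this]
    exact Ideal.mul_mem_left _ _ hpf
  have hcopm : ∀ i, (MUX.nI (R.b i)).Coprime (f * l ^ n * p) := by
    intro i
    have h1 := R.cop i
    have h2 : (MUX.nI (R.b i)).Coprime p := Nat.Coprime.coprime_mul_right_right h1
    have h3 : (MUX.nI (R.b i)).Coprime f := Nat.Coprime.coprime_mul_left_right h1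
    have h4 : (MUX.nI (R.b i)).Coprime l := Nat.Coprime.coprime_dvd_right hlf h3
    exact Nat.Coprime.mul_right (Nat.Coprime.mul_right h3 (Nat.Coprime.pow_right n h4)) h2
  have hsum := t_SUM A B hS.cq (p * f) ι R P (idl f * cjI P) (epT (eta j) w) (hne j)
    (fun i => kp j i * (w ((MUX.nI (R.b i) : ℕ) : OO A B))⁻¹) (f * l ^ n * p) (l ^ n) p hm hmg
    (by rw [mul_assoc]; exact Dvd.intro_left f rfl) hcopm ψ⁻¹ hprim wD hprim2
  rw [sst hS hw R (f * l ^ n * p) (l ^ n) ψ wD hwD hm] at hsum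
  have hcast : ∀ b c : ℕ, (((b : ℚ) / ((l ^ n : ℕ) : ℚ) + (c : ℚ) / p : ℚ) : OnePoint ℚ) =
      (((b : ℚ) / (l : ℚ) ^ n + (c : ℚ) / p : ℚ) : OnePoint ℚ) := by
    intro b c
    push_cast
    rfl
  simp only [hcast] at hsum
  rw [hsum] at hv
  -- valuations
  set S : ℂ := SST R (f * l ^ n * p) (thT R (kp j) (eta j) ψ) w with hSd
  have hlp : ¬ (p : ℤ) ∣ (l : ℤ) := by
    intro hd
    have h1 : p ∣ l := by exact_mod_cast hd
    exact hS.fp (h1.trans hlf)
  have vl : V.valuation (l : ℂ) = 1 := by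
    have := vn l hlp
    rwa [Int.cast_natCast] at this
  have v2 : V.valuation (2 : ℂ) = 1 := by
    have := vn 2 (fun hd => by
      have := Int.le_of_dvd (by norm_num) hd
      have := hS.p5
      omega)
    rwa [show ((2 : ℤ) : ℂ) = 2 by norm_num] at this
  have hv2m : V.valuation (2 * ((f * l ^ n * p : ℕ) : ℂ)) = V.valuation (p : ℂ) := by
    push_cast
    rw [map_mul, map_mul, map_mul, map_pow, v2, vf, vl, one_pow, one_mul, one_mul, one_mul]
  have hg1 : V.valuation (gaussSum ψ⁻¹ ZMod.stdAddChar) ≤ 1 := Gau.gle V ψ⁻¹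
  have hg2 : V.valuation (gaussSum wD ZMod.stdAddChar) ^ (p - 1) ≤ V.valuation (p : ℂ) :=
    Gau.gpi V hp wD hwDne
  have hp0 : (p : ℂ) ≠ 0 := by exact_mod_cast hp.ne_zero
  have hvp0 : V.valuation (p : ℂ) ≠ 0 := (Valuation.ne_zero_iff _).2 hp0
  rw [map_mul, map_div₀, map_mul, hv2m] at hv
  have h3 : V.valuation (p : ℂ) ≤ V.valuation (gaussSum wD ZMod.stdAddChar) * V.valuation S := by
    calc V.valuation (p : ℂ) = V.valuation (p : ℂ) * 1 := (mul_one _).symm
      _ ≤ V.valuation (p : ℂ) * (V.valuation (gaussSum ψ⁻¹ ZMod.stdAddChar) *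
          V.valuation (gaussSum wD ZMod.stdAddChar) / V.valuation (p : ℂ) * V.valuation S) :=
        mul_le_mul_right hv _
      _ = V.valuation (gaussSum ψ⁻¹ ZMod.stdAddChar) *
          (V.valuation (gaussSum wD ZMod.stdAddChar) * V.valuation S) := by
        field_simp
      _ ≤ 1 * (V.valuation (gaussSum wD ZMod.stdAddChar) * V.valuation S) :=
        mul_le_mul_left hg1 _
      _ = _ := one_mul _
  have h4 : V.valuation (p : ℂ) ^ (p - 1) ≤ V.valuation (p : ℂ) * V.valuation S ^ (p - 1) := by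
    calc V.valuation (p : ℂ) ^ (p - 1) ≤
        (V.valuation (gaussSum wD ZMod.stdAddChar) * V.valuation S) ^ (p - 1) :=
          pow_le_pow_left₀ zero_le h3 _
      _ = V.valuation (gaussSum wD ZMod.stdAddChar) ^ (p - 1) * V.valuation S ^ (p - 1) :=
          mul_pow _ _ _
      _ ≤ _ := mul_le_mul_left hg2 _
  have h5 : V.valuation (p : ℂ) ^ (p - 1) = V.valuation (p : ℂ) * V.valuation (p : ℂ) ^ (p - 2) := by
    rw [← pow_succ']
    congr 1
    have := hS.p5
    omega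
  rw [h5] at h4
  exact (mul_le_mul_iff_right₀ (zero_lt_iff.2 hvp0)).1 h4

end

end Pool.Agent.TWG


end
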