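import Mathlib
import Pool.Agent.MVF.C027
import Pool.Agent.MVF.C033
import Pool.Agent.MVF.C087
import Pool.Agent.MVF.C092
import Pool.Agent.MVF.C118
import Pool.Agent.MVF.C119
import Pool.Agent.TWM.C05
import Pool.Agent.TWM.C06
import Pool.Agent.TWM.C07
import Pool.Agent.TWM.C14

/-! Parts: TWT.Ode0, TWT.FOI, TWT.KEY, TWT.KYR, TWT.ODE, TWT.TAY, TWT.CRA, TWT.SDE, TWT.UNITA, TWT.VPG, TWT.CRB, TWT.CRIT -/

section

/-!
# TWT, block A: the two polynomial identities behind `S_ODE` (helper3)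

`s` is the derivative of `U`, `D'`, `N1'` those of `D`, `N1`.
-/

set_option autoImplicit false

namespace Pool.Agent.TWT

theorem ode1 {A : Type*} [CommRing A] (T U s x y a2 a4 a6 : A)
  (hc : y ^ 2 = x ^ 3 + a2 * x ^ 2 + a4 * x + a6)
  (hU : U = 1 + a2 * T ^ 2 * U + a4 * T ^ 4 * U ^ 2 + a6 * T ^ 6 * U ^ 3)
  (q : A) (hq : q = 1 - a2 * T ^ 2 - 2 * a4 * T ^ 4 * U - 3 * a6 * T ^ 6 * U ^ 2)
  (hs : q * s = T * (2 * a2 * U + 4 * a4 * T ^ 2 * U ^ 2 + 6 * a6 * T ^ 4 * U ^ 3)) 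
  (D N1 : A) (hD : D = 1 - x * T ^ 2 * U) 
  (hN : N1 = 2 * y + T * (a4 + 2 * a2 * x + 3 * x ^ 2) + T ^ 3 * U * (a6 + y ^ 2 - a2 * x ^ 2 - 2 * x ^ 3))
  (D' N1' : A) (hD' : D' = - (x * (2 * T * U + T ^ 2 * s))) 
  (hN' : N1' = (a4 + 2 * a2 * x + 3 * x ^ 2) + (3 * T ^ 2 * U + T ^ 3 * s) * (a6 + y ^ 2 - a2 * x ^ 2 - 2 * x ^ 3)) :
  q * (((U + T * s) * N1 + T * U * N1') * D) - 2 * q * T * U * N1 * D' = 2 * (- y * D ^ 3 + (1 + y * T ^ 3 * U) * U * N1) := by
  have h6 : a6 = y ^ 2 - (x ^ 3 + a2 * x ^ 2 + a4 * x) := by rw [hc]; ring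
  subst h6
  subst hN hN' hD hD' hq
  linear_combination (exp := 1) 
    (((2 * y + T * (a4 + 2 * a2 * x + 3 * x ^ 2) + T ^ 3 * U * ((y ^ 2 - (x ^ 3 + a2 * x ^ 2 + a4 * x)) + y ^ 2 - a2 * x ^ 2 - 2 * x ^ 3)) + T ^ 3 * U * ((y ^ 2 - (x ^ 3 + a2 * x ^ 2 + a4 * x)) + y ^ 2 - a2 * x ^ 2 - 2 * x ^ 3)) * (1 - x * T ^ 2 * U) + 2 * T ^ 2 * U * (2 * y + T * (a4 + 2 * a2 * x + 3 * x ^ 2) + T ^ 3 * U * ((y ^ 2 - (x ^ 3 + a2 * x ^ 2 + a4 * x)) + y ^ 2 - a2 * x ^ 2 - 2 * x ^ 3)) * x) * T * hs + (- 2 * y + 6 * T ^ 2 * U * x * y) * hU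

theorem ode2 {A : Type*} [CommRing A] (T U s x y a2 a4 a6 : A)
  (hc : y ^ 2 = x ^ 3 + a2 * x ^ 2 + a4 * x + a6)
  (hU : U = 1 + a2 * T ^ 2 * U + a4 * T ^ 4 * U ^ 2 + a6 * T ^ 6 * U ^ 3)
  (q : A) (hq : q = 1 - a2 * T ^ 2 - 2 * a4 * T ^ 4 * U - 3 * a6 * T ^ 6 * U ^ 2)
  (hs : q * s = T * (2 * a2 * U + 4 * a4 * T ^ 2 * U ^ 2 + 6 * a6 * T ^ 4 * U ^ 3)) 
  (D N1 : A) (hD : D = 1 - x * T ^ 2 * U) 
  (hN : N1 = 2 * y + T * (a4 + 2 * a2 * x + 3 * x ^ 2) + T ^ 3 * U * (a6 + y ^ 2 - a2 * x ^ 2 - 2 * x ^ 3))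
  (D' N1' : A) (hD' : D' = - (x * (2 * T * U + T ^ 2 * s))) 
  (hN' : N1' = (a4 + 2 * a2 * x + 3 * x ^ 2) + (3 * T ^ 2 * U + T ^ 3 * s) * (a6 + y ^ 2 - a2 * x ^ 2 - 2 * x ^ 3)) :
  q * (y * (3 * T ^ 2 * U + T ^ 3 * s) * U * N1 + (1 + y * T ^ 3 * U) * (s * N1 + U * N1')) * D - 3 * q * (1 + y * T ^ 3 * U) * U * N1 * D' = 
    3 * (x * D ^ 2 + T * U * N1) ^ 2 + 2 * a2 * (x * D ^ 2 + T * U * N1) * D ^ 2 + a4 * D ^ 4 := by
  have h6 : a6 = y ^ 2 - (x ^ 3 + a2 * x ^ 2 + a4 * x) := by rw [hc]; ring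
  subst h6
  set M1 := 2 * y + T * (a4 + 2 * a2 * x + 3 * x ^ 2) + T ^ 3 * U * ((y ^ 2 - (x ^ 3 + a2 * x ^ 2 + a4 * x)) + y ^ 2 - a2 * x ^ 2 - 2 * x ^ 3) with hM1
  have key : q * (y * (3 * T ^ 2 * U + T ^ 3 * s) * U * N1 + (1 + y * T ^ 3 * U) * (s * N1 + U * N1')) * D - 3 * q * (1 + y * T ^ 3 * U) * U * N1 * D' = 
    (y * (3 * q * T ^ 2 * U + T ^ 3 * (q * s)) * U * N1 + (1 + y * T ^ 3 * U) * ((q * s) * N1 + U * (q * (a4 + 2 * a2 * x + 3 * x ^ 2) + (3 * q * T ^ 2 * U + T ^ 3 * (q * s)) * ((y ^ 2 - (x ^ 3 + a2 * x ^ 2 + a4 * x)) + y ^ 2 - a2 * x ^ 2 - 2 * x ^ 3)))) * D + 3 * (1 + y * T ^ 3 * U) * U * N1 * x * (2 * q * T * U + T ^ 2 * (q * s)) := by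
    rw [hN', hD']; ring
  rw [key, hs]
  subst hN hD hq
  linear_combination (exp := 1) 
    (a4 + 2 * x * a2 + 3 * x ^ 2 + 12 * T * U * x * y + 2 * T ^ 2 * U * x * a4 + 4 * T ^ 2 * U * x ^ 2 * a2 + 6 * T ^ 2 * U * x ^ 3 + 12 * T ^ 4 * U ^ 2 * x * y ^ 2 - 3 * T ^ 4 * U ^ 2 * x ^ 2 * a4 - 6 * T ^ 4 * U ^ 2 * x ^ 3 * a2 - 9 * T ^ 4 * U ^ 2 * x ^ 4) * hU

end Pool.Agent.TWT


end

section

/-!
# TWT, block A, module FOI: the parameter under an isogeny, to first order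
-/

set_option autoImplicit false

open WeierstrassCurve Polynomial

namespace Pool.Agent.TWT

open _root_.MU3 Pool.Agent.MU3A Pool.Agent.MU3B Pool.Agent.MUX Pool.Agent.MUXU
open Pool.Agent.MUXV

noncomputable section

namespace FOI

variable (V : ValuationSubring ℂ)

/-- congruence of two integral elements -/
structure Cg (ρ : V.ValueGroup) (a b : ℂ) : Prop where
  l : V.valuation a ≤ 1
  r : V.valuation b ≤ 1
  d : V.valuation (a - b) ≤ ρ

variable {V} {ρ : V.ValueGroup}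

lemma Cg.add {a b c d : ℂ} (h : Cg V ρ a b) (h' : Cg V ρ c d) : Cg V ρ (a + c) (b + d) := by
  refine ⟨(V.valuation.map_add _ _).trans (max_le h.l h'.l),
    (V.valuation.map_add _ _).trans (max_le h.r h'.r), ?_⟩
  rw [show a + c - (b + d) = (a - b) + (c - d) by ring]
  exact (V.valuation.map_add _ _).trans (max_le h.d h'.d)

lemma Cg.sub {a b c d : ℂ} (h : Cg V ρ a b) (h' : Cg V ρ c d) : Cg V ρ (a - c) (b - d) := by
  refine ⟨(V.valuation.map_sub _ _).trans (max_le h.l h'.l),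
    (V.valuation.map_sub _ _).trans (max_le h.r h'.r), ?_⟩
  rw [show a - c - (b - d) = (a - b) - (c - d) by ring]
  exact (V.valuation.map_sub _ _).trans (max_le h.d h'.d)

lemma Cg.mul {a b c d : ℂ} (h : Cg V ρ a b) (h' : Cg V ρ c d) : Cg V ρ (a * c) (b * d) := by
  refine ⟨by rw [map_mul]; exact mul_le_one' h.l h'.l, by rw [map_mul]; exact mul_le_one' h.r h'.r, ?_⟩
  rw [show a * c - b * d = a * (c - d) + d * (a - b) by ring]
  refine (V.valuation.map_add _ _).trans (max_le ?_ ?_)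
  · rw [map_mul]
    exact (mul_le_of_le_one_left' h.l).trans h'.d
  · rw [map_mul]
    exact (mul_le_of_le_one_left' h'.r).trans h.d

lemma Cg.refl {a : ℂ} (h : V.valuation a ≤ 1) : Cg V ρ a a := ⟨h, h, by simp⟩

lemma Cg.unit {a : ℂ} (hρ : ρ < 1) (h : Cg V ρ a 1) : V.valuation a = 1 := by
  have h1 : V.valuation (a - 1) < V.valuation (1 : ℂ) := by
    rw [map_one]; exact h.d.trans_lt hρ
  have h2 := V.valuation.map_add_eq_of_lt_left h1
  rwa [add_sub_cancel, map_one] at h2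

lemma Cg.inv {a : ℂ} (hρ : ρ < 1) (h : Cg V ρ a 1) : Cg V ρ a⁻¹ 1 := by
  have h1 := h.unit hρ
  have ha : a ≠ 0 := by
    rintro rfl
    simp at h1
  refine ⟨by rw [map_inv₀, h1, inv_one], by simp, ?_⟩
  rw [show a⁻¹ - 1 = -(a - 1) * a⁻¹ by field_simp; ring, map_mul, Valuation.map_neg, map_inv₀, h1,
    inv_one, mul_one]
  exact h.d

lemma Cg.congr {a b c : ℂ} (h : Cg V ρ a b) (e : b = c) : Cg V ρ a c := e ▸ h

lemma int_nat (n : ℕ) : V.valuation (n : ℂ) ≤ 1 :=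
  (ValuationSubring.valuation_le_one_iff _ _).2 (natCast_mem V n)

/-- finite products of linear factors at a point of large valuation -/
lemma prd (x : ℂ) (hx : x ≠ 0) (hρ : V.valuation x⁻¹ < 1) (s : Finset ℂ) (a : ℂ → ℂ)
    (ha : ∀ q ∈ s, V.valuation (a q) ≤ 1) :
    Cg V (V.valuation x⁻¹) ((∏ q ∈ s, (X - C (a q))).eval x / x ^ s.card) 1 ∧
    Cg V (V.valuation x⁻¹)
      (x * (derivative (∏ q ∈ s, (X - C (a q)))).eval x / x ^ s.card) s.card := by
  classical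
  induction s using Finset.induction_on with
  | empty => 
    constructor
    · simpa using Cg.refl (by simp)
    · simpa using Cg.refl (by simp)
  | insert p s hp ih =>
    obtain ⟨h1, h2⟩ := ih fun q hq => ha q (Finset.mem_insert_of_mem hq)
    have h3 : Cg V (V.valuation x⁻¹) (1 - a p * x⁻¹) 1 := by
      have : V.valuation (a p * x⁻¹) ≤ V.valuation x⁻¹ := by
        rw [map_mul]
        exact mul_le_of_le_one_left' (ha p (Finset.mem_insert_self _ _))
      refine ⟨(V.valuation.map_sub _ _).trans (max_le (by simp) (this.trans hρ.le)), by simp, ?_⟩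
      rw [show 1 - a p * x⁻¹ - 1 = -(a p * x⁻¹) by ring, Valuation.map_neg]
      exact this
    rw [Finset.prod_insert hp, Finset.card_insert_of_notMem hp]
    constructor
    · have h5 : Cg V (V.valuation x⁻¹) _ 1 := (h3.mul h1).congr (by ring)
      convert h5 using 1
      rw [eval_mul, eval_sub, eval_X, eval_C, pow_succ]
      field_simp
    · have h4 := (h1.add (h3.mul h2)).congr (show (1 : ℂ) + 1 * (s.card : ℂ) = ((s.card + 1 : ℕ) : ℂ) by push_cast; ring)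
      convert h4 using 1
      rw [derivative_mul, eval_add, eval_mul, eval_mul, eval_sub, eval_X, eval_C, derivative_sub,
        derivative_X, derivative_C, sub_zero, eval_one, one_mul, pow_succ]
      field_simp

lemma algx (x e e' x' mu A B P : ℂ) (hx : x ≠ 0) (hmu : mu ≠ 0) (hA : A ≠ 0) (hP : P ≠ 0)
    (h1 : (x' - e') * (mu * A) ^ 2 = (x - e) * B ^ 2) :
    x' = (mu ^ 2)⁻¹ * x *
      ((1 - e * x⁻¹) * (B / P) ^ 2 * ((A / P)⁻¹) ^ 2 + e' * mu ^ 2 * x⁻¹) := by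
  have h : (mu ^ 2)⁻¹ * x *
      ((1 - e * x⁻¹) * (B / P) ^ 2 * ((A / P)⁻¹) ^ 2 + e' * mu ^ 2 * x⁻¹) =
      ((x - e) * B ^ 2) / (mu * A) ^ 2 + e' := by
    field_simp
  rw [h, ← h1]
  field_simp
  ring

lemma algy (x y e e' x' y' mu A A' B B' P : ℂ) (hx : x ≠ 0) (hmu : mu ≠ 0) (hA : A ≠ 0)
    (hP : P ≠ 0) (h1 : (x' - e') * (mu * A) ^ 2 = (x - e) * B ^ 2)
    (h2 : mu * (2 * y') * (mu * A) ^ 2 + (x' - e') * (2 * (mu * A) * (mu * (A' * (2 * y)))) =
      2 * y * B ^ 2 + (x - e) * (2 * B * (B' * (2 * y)))) :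
    y' = (mu ^ 3)⁻¹ * y * (((A / P)⁻¹) ^ 2 * ((B / P) ^ 2 +
      2 * ((1 - e * x⁻¹) * (B / P) * (x * B' / P)) -
      2 * ((1 - e * x⁻¹) * (B / P) ^ 2 * (x * A' / P) * (A / P)⁻¹))) := by
  have h : (mu ^ 3)⁻¹ * y * (((A / P)⁻¹) ^ 2 * ((B / P) ^ 2 +
      2 * ((1 - e * x⁻¹) * (B / P) * (x * B' / P)) -
      2 * ((1 - e * x⁻¹) * (B / P) ^ 2 * (x * A' / P) * (A / P)⁻¹))) =
      (y * B ^ 2 + 2 * (x - e) * B * B' * y) / (mu ^ 3 * A ^ 2) -
        2 * ((x - e) * B ^ 2) * A' * y / (mu ^ 3 * A ^ 3) := by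
    field_simp
  rw [h, ← h1]
  have h3 : y' * (mu ^ 3 * A ^ 2) = y * B ^ 2 + 2 * (x - e) * B * B' * y -
      2 * (x' - e') * mu ^ 2 * A * A' * y := by
    linear_combination (1 / 2) * h2
  have h4 : (2 * ((x' - e') * (mu * A) ^ 2) * A' * y / (mu ^ 3 * A ^ 3)) =
      (2 * (x' - e') * mu ^ 2 * A * A' * y) / (mu ^ 3 * A ^ 2) := by
    field_simp
  rw [h4, ← sub_div, ← h3]
  field_simp

lemma hdP (L : PeriodPair) {z : ℂ} (hz : z ∉ L.lattice) :
    HasDerivAt L.weierstrassP (L.derivWeierstrassP z) z := by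
  have h1 : DifferentiableAt ℂ L.weierstrassP z :=
    (L.analyticOnNhd_weierstrassP z (by simpa using hz)).differentiableAt
  rw [← L.deriv_weierstrassP]
  exact h1.hasDerivAt

/-- the derivative of the identity of the isogeny -/
lemma der (L M : PeriodPair) (c mu E E' u : ℂ) (A B : ℂ[X]) (hu : u ∉ L.lattice)
    (hmu : mu * u ∉ M.lattice)
    (h : ∀ z, mu * z ∉ M.lattice →
      (M.weierstrassP (mu * z) - E') * (mu * A.eval (L.weierstrassP z - c)) ^ 2 =
        (L.weierstrassP z - E) * B.eval (L.weierstrassP z - c) ^ 2) :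
    mu * (2 * (M.derivWeierstrassP (mu * u) / 2)) * (mu * A.eval (L.weierstrassP u - c)) ^ 2 +
      (M.weierstrassP (mu * u) - E') * (2 * (mu * A.eval (L.weierstrassP u - c)) *
        (mu * ((derivative A).eval (L.weierstrassP u - c) *
          (2 * (L.derivWeierstrassP u / 2))))) =
    2 * (L.derivWeierstrassP u / 2) * B.eval (L.weierstrassP u - c) ^ 2 +
      (L.weierstrassP u - E) * (2 * B.eval (L.weierstrassP u - c) *
        ((derivative B).eval (L.weierstrassP u - c) * (2 * (L.derivWeierstrassP u / 2)))) := by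
  have dL := hdP L hu
  have dm : HasDerivAt (fun z : ℂ => mu * z) mu u := by
    simpa using (hasDerivAt_id u).const_mul mu
  have dM : HasDerivAt (fun z => M.weierstrassP (mu * z))
      (M.derivWeierstrassP (mu * u) * mu) u := HasDerivAt.comp u (hdP M hmu) dm
  have dA : HasDerivAt (fun z => A.eval (L.weierstrassP z - c))
      ((derivative A).eval (L.weierstrassP u - c) * L.derivWeierstrassP u) u :=
    HasDerivAt.comp (h₂ := fun t => A.eval t) u (A.hasDerivAt _) (dL.sub_const c)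
  have dB : HasDerivAt (fun z => B.eval (L.weierstrassP z - c))
      ((derivative B).eval (L.weierstrassP u - c) * L.derivWeierstrassP u) u :=
    HasDerivAt.comp (h₂ := fun t => B.eval t) u (B.hasDerivAt _) (dL.sub_const c)
  have dF := (dM.sub_const E').fun_mul ((dA.const_mul mu).fun_pow 2)
  have dG := (dL.sub_const E).fun_mul (dB.fun_pow 2)
  have hev : (fun z => (M.weierstrassP (mu * z) - E') *
      (mu * A.eval (L.weierstrassP z - c)) ^ 2) =ᶠ[nhds u]
      (fun z => (L.weierstrassP z - E) * B.eval (L.weierstrassP z - c) ^ 2) := by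
    have h1 : ∀ᶠ z in nhds u, mu * z ∉ M.lattice :=
      dm.continuousAt.eventually (M.isClosed_lattice.isOpen_compl.mem_nhds hmu)
    filter_upwards [h1] with z hz using h z hz
  have key := dF.unique (dG.congr_of_eventuallyEq hev)
  simp only [Nat.cast_ofNat, Nat.add_one_sub_one, pow_one] at key
  linear_combination key

end FOI

open _root_.Pool.Agent.TWT.FOI in
theorem t_FOI : S_FOI := by
  intro V L M mu n hGL hGM hmu hI hodd hn hker hvmu u hu huL
  obtain ⟨W, ξ, gL⟩ := hGL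
  obtain ⟨W', ξ', gM⟩ := hGM
  -- the kernel
  have hk2 : ∀ z, mu * z ∈ M.lattice → 2 * z ∈ L.lattice → z ∈ L.lattice := by
    intro z hz h2z
    obtain ⟨k, hk⟩ := hodd
    have h1 := hker z hz
    have h2 := sub_mem h1 (nsmul_mem h2z k)
    have e : (n : ℂ) * z - k • (2 * z) = z := by
      rw [hk, nsmul_eq_mul]; push_cast; ring
    rwa [e] at h2
  have hkerK : ∀ z, mu * z ∈ M.lattice → InK V L (xn L) z → z ∈ L.lattice := fun z hz hz2 =>
    mem_of_nat_mul gL hz2 hn (hker z hz)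
  obtain ⟨H, hH⟩ := x_HAL L M mu hmu hI hk2
  have huM : mu * u ∉ M.lattice := fun h => huL (hkerK u h hu)
  have htwo : ∀ w : ℂ, 2 * w ∈ L.lattice → w ∉ L.lattice → ¬ InK V L (xn L) w := by
    intro w hw hwL hw1
    exact hwL (mem_of_nat_mul gL hw1 (n := 2) (by simpa using gL.two) (by simpa using hw))
  have htwoM : ∀ w : ℂ, 2 * w ∈ M.lattice → w ∉ M.lattice → ¬ InK V M (xn M) w := by
    intro w hw hwL hw1
    exact hwL (mem_of_nat_mul gM hw1 (n := 2) (by simpa using gM.two) (by simpa using hw))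
  have hq : ∀ q ∈ H, ¬ InK V L (xn L) q := by
    intro q hq hqK
    have h1 := hkerK q (hH.mem q hq) hqK
    apply hH.ne q hq
    have := add_mem h1 h1
    rwa [← two_mul] at this
  obtain ⟨w, -, hw2, hwL, -, -, -, -⟩ := RMin.half_period L
  have hwK := htwo w hw2 hwL
  have hwq : ∀ q ∈ H, ¬ InK V L (xn L) (w + q) := by
    intro q hq hqK
    have h1 := inK_nat gL hqK 2
    have h2 := inK_sub gL h1 (inK_of_mem (V := V) (X := xn L) hw2)
    have e : ((2 : ℕ) : ℂ) * (w + q) - 2 * w = 2 * q := by push_cast; ring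
    rw [e] at h2
    apply hH.ne q hq
    apply hkerK _ _ h2
    have h3 := hH.mem q hq
    have h4 := add_mem h3 h3
    rwa [← two_mul, ← mul_assoc, mul_comm 2 mu, mul_assoc] at h4
  have hmw : mu * w ∉ M.lattice := fun h => hwL (hk2 w h hw2)
  have hmwK : ¬ InK V M (xn M) (mu * w) := by
    apply htwoM _ _ hmw
    have := hI _ hw2
    rwa [mul_left_comm] at this
  -- the polynomials
  obtain ⟨A, hA⟩ : ∃ A : ℂ[X], A = ∏ q ∈ H, (X - C (L.weierstrassP q - 1 / 12)) := ⟨_, rfl⟩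
  obtain ⟨B, hB⟩ : ∃ B : ℂ[X], B = ∏ q ∈ H, (X - C (L.weierstrassP (w + q) - 1 / 12)) := ⟨_, rfl⟩
  have hpol : ∀ z, mu * z ∉ M.lattice →
      (M.weierstrassP (mu * z) - M.weierstrassP (mu * w)) *
        (mu * A.eval (L.weierstrassP z - 1 / 12)) ^ 2 =
        (L.weierstrassP z - L.weierstrassP w) * B.eval (L.weierstrassP z - 1 / 12) ^ 2 := by
    intro z hz
    have h1 := (x_POL L M (1 / 12) mu H hmu hI hH).2 w hw2 hwL z hz
    rw [hA, hB]
    simpa [QI, CI] using h1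
  have hder := der L M (1 / 12) mu (L.weierstrassP w) (M.weierstrassP (mu * w)) u A B huL huM hpol
  have hpu := hpol u huM
  -- valuations
  obtain ⟨ht1, ht0, htx⟩ := v_tX_lt gL hu huL
  have hx0 : xn L u ≠ 0 := by
    intro h
    rw [h, map_zero, zero_mul] at htx
    exact zero_ne_one htx
  have hvr : V.valuation (xn L u)⁻¹ = V.valuation (tX (xn L) (yy L) u) ^ 2 := by
    rw [map_inv₀]
    exact inv_eq_of_mul_eq_one_right htx
  have hρ : V.valuation (xn L u)⁻¹ < 1 := by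
    rw [hvr]
    exact pow_lt_one₀ zero_le ht1 two_ne_zero
  obtain ⟨hα, hα'⟩ := prd (xn L u) hx0 hρ H (fun q => L.weierstrassP q - 1 / 12)
    (fun q hqH => (int_X (hq q hqH)).2)
  obtain ⟨hβ, hβ'⟩ := prd (xn L u) hx0 hρ H (fun q => L.weierstrassP (w + q) - 1 / 12)
    (fun q hqH => (int_X (hwq q hqH)).2)
  rw [← hA] at hα hα'
  rw [← hB] at hβ hβ'
  obtain ⟨P, hP⟩ : ∃ P : ℂ, P = xn L u ^ H.card := ⟨_, rfl⟩
  have hP0 : P ≠ 0 := by rw [hP]; exact pow_ne_zero _ hx0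
  rw [← hP] at hα hα' hβ hβ'
  have hA0 : A.eval (xn L u) ≠ 0 := by
    intro h
    have := hα.unit hρ
    rw [h, zero_div, map_zero] at this
    exact zero_ne_one this
  have he : V.valuation (xn L w) ≤ 1 := (int_X hwK).2
  have he' : V.valuation (xn M (mu * w)) ≤ 1 := (int_X hmwK).2
  have h1 : (xn M (mu * u) - xn M (mu * w)) * (mu * A.eval (xn L u)) ^ 2 =
      (xn L u - xn L w) * B.eval (xn L u) ^ 2 := by
    have e1 : xn M (mu * u) - xn M (mu * w) =
      M.weierstrassP (mu * u) - M.weierstrassP (mu * w) := by unfold xn; ring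
    have e2 : xn L u - xn L w = L.weierstrassP u - L.weierstrassP w := by unfold xn; ring
    rw [e1, e2]
    exact hpu
  have h2 : mu * (2 * yy M (mu * u)) * (mu * A.eval (xn L u)) ^ 2 +
      (xn M (mu * u) - xn M (mu * w)) * (2 * (mu * A.eval (xn L u)) *
        (mu * ((derivative A).eval (xn L u) * (2 * yy L u)))) =
      2 * yy L u * B.eval (xn L u) ^ 2 + (xn L u - xn L w) * (2 * B.eval (xn L u) *
        ((derivative B).eval (xn L u) * (2 * yy L u))) := by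
    have e1 : xn M (mu * u) - xn M (mu * w) =
      M.weierstrassP (mu * u) - M.weierstrassP (mu * w) := by unfold xn; ring
    have e2 : xn L u - xn L w = L.weierstrassP u - L.weierstrassP w := by unfold xn; ring
    rw [e1, e2]
    exact hder
  have kx := algx _ _ _ _ _ _ _ P hx0 hmu hA0 hP0 h1
  have ky := algy _ _ _ _ _ _ _ _ _ _ _ P hx0 hmu hA0 hP0 h1 h2
  have h1r : Cg V (V.valuation (xn L u)⁻¹) (1 - xn L w * (xn L u)⁻¹) 1 := by
    have h3 : V.valuation (xn L w * (xn L u)⁻¹) ≤ V.valuation (xn L u)⁻¹ := by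
      rw [map_mul]
      exact mul_le_of_le_one_left' he
    refine ⟨(V.valuation.map_sub _ _).trans (max_le (by simp) (h3.trans hρ.le)), by simp, ?_⟩
    rw [show 1 - xn L w * (xn L u)⁻¹ - 1 = -(xn L w * (xn L u)⁻¹) by ring, Valuation.map_neg]
    exact h3
  have h2r : Cg V (V.valuation (xn L u)⁻¹) (xn M (mu * w) * mu ^ 2 * (xn L u)⁻¹) 0 := by
    have h3 : V.valuation (xn M (mu * w) * mu ^ 2 * (xn L u)⁻¹) ≤ V.valuation (xn L u)⁻¹ := by
      rw [map_mul, map_mul, map_pow, hvmu, one_pow, mul_one]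
      exact mul_le_of_le_one_left' he'
    exact ⟨h3.trans hρ.le, by simp, by rwa [sub_zero]⟩
  have hαi := hα.inv hρ
  have hX1 := (((h1r.mul (hβ.mul hβ)).mul (hαi.mul hαi)).add h2r)
  have hY1 := (hαi.mul hαi).mul (((hβ.mul hβ).add (((Cg.refl (V := V)
    (ρ := V.valuation (xn L u)⁻¹) (a := 2) (by rw [gL.two])).mul
    ((h1r.mul hβ).mul hβ')))).sub (((Cg.refl (V := V)
    (ρ := V.valuation (xn L u)⁻¹) (a := 2) (by rw [gL.two])).mul
    (((h1r.mul (hβ.mul hβ)).mul hα').mul hαi))))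
  obtain ⟨X1, hX1d⟩ : ∃ X1 : ℂ, X1 = (1 - xn L w * (xn L u)⁻¹) * (B.eval (xn L u) / P) ^ 2 *
    ((A.eval (xn L u) / P)⁻¹) ^ 2 + xn M (mu * w) * mu ^ 2 * (xn L u)⁻¹ := ⟨_, rfl⟩
  obtain ⟨Y1, hY1d⟩ : ∃ Y1 : ℂ, Y1 = ((A.eval (xn L u) / P)⁻¹) ^ 2 * ((B.eval (xn L u) / P) ^ 2 +
      2 * ((1 - xn L w * (xn L u)⁻¹) * (B.eval (xn L u) / P) *
        (xn L u * (derivative B).eval (xn L u) / P)) -
      2 * ((1 - xn L w * (xn L u)⁻¹) * (B.eval (xn L u) / P) ^ 2 *
        (xn L u * (derivative A).eval (xn L u) / P) * (A.eval (xn L u) / P)⁻¹)) := ⟨_, rfl⟩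
  have cX : Cg V (V.valuation (xn L u)⁻¹) X1 1 := by
    rw [hX1d]
    convert hX1 using 1
    · ring
    · ring
  have cY : Cg V (V.valuation (xn L u)⁻¹) Y1 1 := by
    rw [hY1d]
    convert hY1 using 1
    · ring
    · ring
  rw [← hX1d] at kx
  rw [← hY1d] at ky
  have hvX := cX.unit hρ
  have hvY := cY.unit hρ
  have hY0 : Y1 ≠ 0 := by
    rintro rfl
    rw [map_zero] at hvY
    exact zero_ne_one hvY
  have hy0 : yy L u ≠ 0 := by
    intro h
    apply ht0
    unfold tX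
    rw [h, div_zero, neg_zero, map_zero]
  refine ⟨Or.inr ?_, huM, ?_⟩
  · rw [← ValuationSubring.valuation_le_one_iff, kx, map_mul, map_mul, map_inv₀, map_pow, hvmu,
      one_pow, inv_one, one_mul, hvX, mul_one]
    intro h3
    have h4 : V.valuation (xn L u) * V.valuation (tX (xn L) (yy L) u) ^ 2 < 1 :=
      (mul_le_of_le_one_left' h3).trans_lt (pow_lt_one₀ zero_le ht1 two_ne_zero)
    exact absurd htx h4.ne
  · have e : tX (xn M) (yy M) (mu * u) - mu * tX (xn L) (yy L) u =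
        mu * tX (xn L) (yy L) u * (X1 * Y1⁻¹ - 1) := by
      unfold tX
      rw [kx, ky]
      field_simp
      ring
    have h3 := (cX.mul (cY.inv hρ)).d
    rw [one_mul] at h3
    rw [e, map_mul, map_mul, hvmu, one_mul]
    rw [hvr] at h3
    exact (mul_le_of_le_one_left' ht1.le).trans h3

end

end Pool.Agent.TWT


end

section

/-!
# TWT, module KEY (helper48): the product of `Θ(z + c R)` to the first order, one lattice
-/

set_option autoImplicit false

open WeierstrassCurve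

namespace Pool.Agent.TWT

open _root_.MU3 Pool.Agent.MU3A Pool.Agent.MU3B Pool.Agent.MUX Pool.Agent.MUXU
open Pool.Agent.MUXV (GR InK tX)

noncomputable section

namespace KEY

variable {V : ValuationSubring ℂ}

/-- closeness to order `b` -/
lemma add_le' {x y : ℂ} {b : V.ValueGroup} (hx : V.valuation x ≤ b) (hy : V.valuation y ≤ b) :
    V.valuation (x + y) ≤ b :=
  (V.valuation.map_add x y).trans (max_le hx hy)

lemma sub_le' {x y : ℂ} {b : V.ValueGroup} (hx : V.valuation x ≤ b) (hy : V.valuation y ≤ b) :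
    V.valuation (x - y) ≤ b :=
  (V.valuation.map_sub x y).trans (max_le hx hy)

lemma sum_le' {ι : Type} (s : Finset ι) (f : ι → ℂ) {b : V.ValueGroup}
    (h : ∀ i ∈ s, V.valuation (f i) ≤ b) : V.valuation (∑ i ∈ s, f i) ≤ b := by
  classical
  induction s using Finset.induction_on with
  | empty => simp
  | insert i s hi ih =>
    rw [Finset.sum_insert hi]
    exact add_le' (h i (Finset.mem_insert_self _ _))
      (ih fun j hj => h j (Finset.mem_insert_of_mem hj))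

lemma pow_close {x y : ℂ} {b : V.ValueGroup} (hx : V.valuation x ≤ 1) (hy : V.valuation y ≤ 1)
    (h : V.valuation (x - y) ≤ b) (k : ℕ) : V.valuation (x ^ k - y ^ k) ≤ b := by
  induction k with
  | zero => simp
  | succ k ih =>
    have e : x ^ (k + 1) - y ^ (k + 1) = (x ^ k - y ^ k) * x + y ^ k * (x - y) := by ring
    rw [e]
    apply add_le'
    · rw [map_mul]
      exact (mul_le_mul' ih hx).trans_eq (mul_one _)
    · rw [map_mul, map_pow]
      calc V.valuation y ^ k * V.valuation (x - y) ≤ 1 * b :=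
            mul_le_mul' (pow_le_one' hy k) h
        _ = b := one_mul _

lemma vpi_close {lam : ℕ → ℂ} (h0 : lam 0 = 0) (h1 : lam 1 = 1)
    (hi : ∀ j, V.valuation (lam j) ≤ 1) {p : ℕ} (hp : 2 ≤ p) {t : ℂ} (ht : V.valuation t ≤ 1) :
    V.valuation (vpi lam p t - t) ≤ V.valuation t ^ 2 := by
  have e : vpi lam p t - t = ∑ j ∈ Finset.range p, (if j < 2 then 0 else lam j * t ^ j) := by
    unfold vpi
    obtain ⟨q, rfl⟩ : ∃ q, p = q + 2 := ⟨p - 2, by omega⟩
    rw [Finset.sum_range_succ', Finset.sum_range_succ', Finset.sum_range_succ',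
      Finset.sum_range_succ']
    simp only [zero_add, h0, h1]
    have : ∀ j : ℕ, ¬ (j + 1 + 1 < 2) := fun j => by omega
    simp only [this, if_false]
    simp
  rw [e]
  apply sum_le'
  intro j _
  split_ifs with hj
  · simp
  · rw [map_mul, map_pow]
    calc V.valuation (lam j) * V.valuation t ^ j ≤ 1 * V.valuation t ^ 2 :=
          mul_le_mul' (hi j) (pow_le_pow_right_of_le_one' ht (by omega))
      _ = _ := one_mul _

lemma aeval_int {x y : ℂ} (hx : V.valuation x ≤ 1) (hy : V.valuation y ≤ 1)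
    (f : MvPolynomial (Fin 2) V) : V.valuation (MvPolynomial.aeval ![x, y] f) ≤ 1 := by
  induction f using MvPolynomial.induction_on with
  | C a =>
    rw [MvPolynomial.aeval_C]
    exact (ValuationSubring.valuation_le_one_iff _ _).2 a.2
  | add f g hf hg => rw [map_add]; exact add_le' hf hg
  | mul_X f i hf =>
    rw [map_mul, map_mul, MvPolynomial.aeval_X]
    refine (mul_le_mul' hf ?_).trans_eq (mul_one 1)
    fin_cases i
    · simpa using hx
    · simpa using hy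

lemma fac_unit {p : ℕ} (hu : ∀ j : ℕ, 0 < j → j < p → V.valuation (j : ℂ) = 1) :
    ∀ k : ℕ, k < p → V.valuation ((k.factorial : ℕ) : ℂ) = 1 := by
  intro k
  induction k with
  | zero => intro _; simp
  | succ k ih =>
    intro hk
    rw [Nat.factorial_succ, Nat.cast_mul, map_mul, ih (by omega), hu (k + 1) (by omega) hk,
      one_mul]

end KEY

theorem t_KEY (hTAY : S_TAY) (hADV : S_ADV) (hTHT : S_THT) (hKYR : S_KYR) : S_KEY := by
  intro V W L ξ G p hp hp5 hpV hu R hRK hRL hpR hτp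
  have h2p : 2 ≤ p := by omega
  obtain ⟨a2, ha2⟩ : ∃ a2 : V, (a2 : ℂ) = W.a₂ :=
    ⟨⟨W.a₂, (ValuationSubring.valuation_le_one_iff _ _).1 G.int.a2⟩, rfl⟩
  obtain ⟨a4, ha4⟩ : ∃ a4 : V, (a4 : ℂ) = W.a₄ :=
    ⟨⟨W.a₄, (ValuationSubring.valuation_le_one_iff _ _).1 G.int.a4⟩, rfl⟩
  obtain ⟨lam, hlam⟩ := hTAY V W L (xn L) (yy L) ξ G p h2p hu a2 a4 ha2 ha4
  obtain ⟨ht1, ht0, -⟩ := Pool.Agent.MUXV.v_tX_lt G hRK hRL
  have hwt : V.valuation (vpi lam p (tX (xn L) (yy L) R) - tX (xn L) (yy L) R) ≤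
      V.valuation (tX (xn L) (yy L) R) ^ 2 :=
    KEY.vpi_close hlam.lam0 hlam.lam1 hlam.int h2p ht1.le
  have hcL : ∀ c : ℕ, 0 < c → c < p → (c : ℂ) * R ∉ L.lattice := by
    intro c h0 h1 h
    exact hRL (Pool.Agent.MUXV.mem_of_nat_mul G hRK (hu c h0 h1) h)
  have hcK : ∀ c : ℕ, InK V L (xn L) (c * R) := fun c => Pool.Agent.MUXV.inK_nat G hRK c
  have hcτ : ∀ c : ℕ, 0 < c → c < p → V.valuation (tX (xn L) (yy L) (c * R)) =
      V.valuation (tX (xn L) (yy L) R) := fun c h0 h1 =>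
    Pool.Agent.MUXV.v_tX_nat G hRK (hu c h0 h1) hRL (hcL c h0 h1)
  have hadv := hADV V W L (xn L) (yy L) ξ G p (by omega) hu a2 a4 ha2 ha4 lam hlam R hRK hcL
  refine ⟨vpi lam p (tX (xn L) (yy L) R), hwt, ?_⟩
  generalize hw : vpi lam p (tX (xn L) (yy L) R) = w at hwt hadv ⊢
  generalize hτ : V.valuation (tX (xn L) (yy L) R) = τ at *
  have hwv : V.valuation w = τ := by
    have h1 : V.valuation (w - tX (xn L) (yy L) R) < V.valuation (tX (xn L) (yy L) R) := by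
      refine hwt.trans_lt ?_
      rw [hτ, pow_two]
      exact mul_lt_of_lt_one_left (zero_lt_iff.2 ht0) ht1
    have h2 := Valuation.map_add_eq_of_lt_left V.valuation h1
    rw [add_sub_cancel] at h2
    rw [h2, hτ]
  intro a H ha1 hav hH z hz haz
  obtain ⟨θ, hθ⟩ := hTHT V W L ξ G a H ha1 hav hH a2 a4
  have hzc : ∀ c : ℕ, ¬ InK V L (xn L) (z + c * R) := by
    intro c h
    exact hz ((Pool.Agent.MUXV.inK_congr G (z := z + c * R) (w := z)
      (by rw [add_sub_cancel_left]; exact hcK c)).1 h)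
  have hazc : ∀ c : ℕ, ¬ InK V L (xn L) (a * (z + c * R)) := by
    intro c h
    refine haz ((Pool.Agent.MUXV.inK_congr G (z := a * (z + c * R)) (w := a * z) ?_).1 h)
    have e : (a : ℂ) * (z + c * R) - a * z = ((a * c : ℕ) : ℂ) * R := by push_cast; ring
    rw [e]
    exact hcK (a * c)
  have hT := fun c : ℕ => hθ (z + c * R) (hzc c) (hazc c)
  obtain ⟨hT0, hTu, -, -⟩ := hθ z hz haz
  refine ⟨fun c => ⟨(hT c).2.1, (hT c).2.2.2⟩, ?_⟩
  generalize hT0d : ThetaH L H z = T0 at hT0 hTu ⊢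
  have hT00 : T0 ≠ 0 := by
    intro h
    rw [h, map_zero] at hTu
    exact zero_ne_one hTu
  have hxz : V.valuation (xn L z) ≤ 1 := (Pool.Agent.MUXV.int_X hz).2
  have hyz : V.valuation (yy L z) ≤ 1 := Pool.Agent.MUXV.int_Y G hz
  have hfac := KEY.fac_unit hu
  -- coefficients
  have hAint : ∀ (f : MvPolynomial (Fin 2) V) (k : ℕ), k < p →
      V.valuation (MvPolynomial.aeval ![xn L z, yy L z] f / (k.factorial : ℂ)) ≤ 1 := by
    intro f k hk
    rw [map_div₀, hfac k hk, div_one]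
    exact KEY.aeval_int hxz hyz f
  have hcw : ∀ c : ℕ, 0 < c → c < p → V.valuation ((c : ℂ) * w) = τ := by
    intro c h0 h1
    rw [map_mul, hu c h0 h1, one_mul, hwv]
  -- the Taylor expansion with `c w`
  have tay' : ∀ (f : MvPolynomial (Fin 2) V) (c : ℕ), 0 < c → c < p →
      V.valuation (MvPolynomial.aeval ![xn L (z + c * R), yy L (z + c * R)] f -
        ∑ k ∈ Finset.range p, MvPolynomial.aeval ![xn L z, yy L z] ((dW a2 a4)^[k] f) /
          (k.factorial : ℂ) * (c * w) ^ k) ≤ τ ^ p := by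
    intro f c h0 h1
    have h3 := hlam.tay (c * R) (hcK c) (hcL c h0 h1) z hz f
    rw [hcτ c h0 h1] at h3
    have h4 := hadv c h0 h1
    have h5 : V.valuation (vpi lam p (tX (xn L) (yy L) (c * R))) ≤ 1 := by
      unfold vpi
      apply KEY.sum_le'
      intro j _
      rw [map_mul, map_pow, hcτ c h0 h1]
      exact (mul_le_mul' (hlam.int j) (pow_le_one' ht1.le j)).trans_eq (one_mul _)
    have e : MvPolynomial.aeval ![xn L (z + c * R), yy L (z + c * R)] f -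
        ∑ k ∈ Finset.range p, MvPolynomial.aeval ![xn L z, yy L z] ((dW a2 a4)^[k] f) /
          (k.factorial : ℂ) * (c * w) ^ k =
        (MvPolynomial.aeval ![xn L (z + c * R), yy L (z + c * R)] f -
        ∑ k ∈ Finset.range p, MvPolynomial.aeval ![xn L z, yy L z] ((dW a2 a4)^[k] f) /
          (k.factorial : ℂ) * vpi lam p (tX (xn L) (yy L) (c * R)) ^ k) +
        ∑ k ∈ Finset.range p, MvPolynomial.aeval ![xn L z, yy L z] ((dW a2 a4)^[k] f) /
          (k.factorial : ℂ) * (vpi lam p (tX (xn L) (yy L) (c * R)) ^ k - (c * w) ^ k) := by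
      simp only [mul_sub, Finset.sum_sub_distrib]
      ring
    rw [e]
    apply KEY.add_le' h3
    apply KEY.sum_le'
    intro k hk
    rw [map_mul]
    refine (mul_le_mul' (hAint _ k (Finset.mem_range.1 hk)) (KEY.pow_close h5 ?_ h4 k)).trans_eq
      (one_mul _)
    rw [hcw c h0 h1]
    exact ht1.le
  -- elements of `V`
  have hmemV : ∀ x : ℂ, V.valuation x ≤ 1 → x ∈ V := fun x hx =>
    (ValuationSubring.valuation_le_one_iff _ _).1 hx
  obtain ⟨e, he⟩ : ∃ e : ℕ → V, ∀ k, k < p → ((e k : V) : ℂ) =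
      MvPolynomial.aeval ![xn L z, yy L z] ((dW a2 a4)^[k] θ) / (k.factorial : ℂ) / T0 := by
    classical
    refine ⟨fun k => if h : (MvPolynomial.aeval ![xn L z, yy L z] ((dW a2 a4)^[k] θ) /
      (k.factorial : ℂ) / T0) ∈ V then ⟨_, h⟩ else 0, fun k hk => ?_⟩
    have h3 : (MvPolynomial.aeval ![xn L z, yy L z] ((dW a2 a4)^[k] θ) /
      (k.factorial : ℂ) / T0) ∈ V := by
      apply hmemV
      rw [map_div₀, hTu, div_one]
      exact hAint _ k hk
    simp only [dif_pos h3]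
  obtain ⟨f, hf⟩ : ∃ f : ℕ → V, ∀ c, ((f c : V) : ℂ) = ThetaH L H (z + c * R) / T0 :=
    ⟨fun c => ⟨ThetaH L H (z + c * R) / T0, hmemV _ (by
      rw [map_div₀, hTu, div_one]; exact (hT c).2.1.le)⟩, fun c => rfl⟩
  obtain ⟨g, hg⟩ : ∃ g : ℕ → V, ∀ c, ((g c : V) : ℂ) = dlX L a (z + c * R) :=
    ⟨fun c => ⟨dlX L a (z + c * R), hmemV _ (hT c).2.2.2⟩, fun c => rfl⟩
  obtain ⟨wV, hwV⟩ : ∃ wV : V, (wV : ℂ) = w :=
    ⟨⟨w, hmemV _ (by rw [hwv]; exact ht1.le)⟩, rfl⟩
  obtain ⟨I, hI⟩ : ∃ I : Ideal V, ∀ r : V, r ∈ I ↔ V.valuation (r : ℂ) ≤ τ ^ p := by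
    refine ⟨{ carrier := {r : V | V.valuation (r : ℂ) ≤ τ ^ p}
              add_mem' := ?_
              zero_mem' := ?_
              smul_mem' := ?_ }, fun r => Iff.rfl⟩
    · intro r s hr hs
      show V.valuation (((r + s : V)) : ℂ) ≤ τ ^ p
      rw [show (((r + s : V)) : ℂ) = (r : ℂ) + s from rfl]
      exact KEY.add_le' hr hs
    · show V.valuation (((0 : V)) : ℂ) ≤ τ ^ p
      simp
    · intro r s hs
      show V.valuation (((r * s : V)) : ℂ) ≤ τ ^ p
      rw [show (((r * s : V)) : ℂ) = (r : ℂ) * s from rfl, map_mul]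
      exact (mul_le_mul' ((ValuationSubring.valuation_le_one_iff _ _).2 r.2) hs).trans_eq
        (one_mul _)
  have hτ' : τ ^ p = V.valuation (p : ℂ) * τ := by
    rw [← hτp, ← pow_succ, Nat.sub_add_cancel (by omega)]
  have cS : ∀ (h : ℕ → V) (s : Finset ℕ), ((∑ k ∈ s, h k : V) : ℂ) = ∑ k ∈ s, ((h k : V) : ℂ) :=
    fun h s => map_sum V.subtype h s
  have cP : ∀ (h : ℕ → V) (s : Finset ℕ), ((∏ k ∈ s, h k : V) : ℂ) = ∏ k ∈ s, ((h k : V) : ℂ) :=
    fun h s => map_prod V.subtype h s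
  have cN : ∀ c : ℕ, (((c : ℕ) : V) : ℂ) = (c : ℂ) := fun c => map_natCast V.subtype c
  have hK := hKYR V p hp I wV ?_ ?_ e f g ?_ ?_ ?_
  · obtain ⟨hK1, r, hK2⟩ := hK
    rw [hI] at hK1 hK2
    have hS : ((∑ c ∈ Finset.Icc 1 (p - 1), (c : V) * g c : V) : ℂ) =
        ∑ c ∈ Finset.Icc 1 (p - 1), (c : ℂ) * dlX L a (z + c * R) := by
      rw [cS]
      refine Finset.sum_congr rfl fun c _ => ?_
      rw [← hg c]
      simp
    have hP : ((∏ c ∈ Finset.Icc 1 (p - 1), f c : V) : ℂ) =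
        (∏ c ∈ Finset.Icc 1 (p - 1), ThetaH L H (z + c * R)) / T0 ^ (p - 1) := by
      rw [cP, Finset.prod_congr rfl fun c _ => hf c, Finset.prod_div_distrib, Finset.prod_const,
        Nat.card_Icc]
      congr 2
    rw [show ((∏ c ∈ Finset.Icc 1 (p - 1), f c - 1 + wV * ∑ c ∈ Finset.Icc 1 (p - 1),
        (c : V) * g c : V) : ℂ) = ((∏ c ∈ Finset.Icc 1 (p - 1), f c : V) : ℂ) - 1 +
        (wV : ℂ) * ((∑ c ∈ Finset.Icc 1 (p - 1), (c : V) * g c : V) : ℂ) from rfl,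
      hP, hS, hwV] at hK1
    rw [show ((wV * ∑ c ∈ Finset.Icc 1 (p - 1), (c : V) * g c - r * wV ^ (p - 1) : V) : ℂ) =
        (wV : ℂ) * ((∑ c ∈ Finset.Icc 1 (p - 1), (c : V) * g c : V) : ℂ) -
        (r : ℂ) * (wV : ℂ) ^ (p - 1) from rfl, hS, hwV] at hK2
    generalize hSd : ∑ c ∈ Finset.Icc 1 (p - 1), (c : ℂ) * dlX L a (z + c * R) = S at *
    generalize hPd : ∏ c ∈ Finset.Icc 1 (p - 1), ThetaH L H (z + c * R) = Q at *
    constructor
    · have h3 : V.valuation (w * S) ≤ τ ^ (p - 1) := by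
        have e3 : w * S = (w * S - (r : ℂ) * w ^ (p - 1)) + (r : ℂ) * w ^ (p - 1) := by ring
        rw [e3]
        apply KEY.add_le'
        · exact hK2.trans (pow_le_pow_right_of_le_one' ht1.le (by omega))
        · rw [map_mul, map_pow, hwv]
          exact (mul_le_mul' ((ValuationSubring.valuation_le_one_iff _ _).2 r.2)
            le_rfl).trans_eq (one_mul _)
      rw [map_mul, hwv] at h3
      have e4 : τ ^ (p - 1) = τ * τ ^ (p - 2) := by
        rw [← pow_succ']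
        congr 1
        omega
      rw [e4] at h3
      exact (mul_le_mul_iff_right₀ (zero_lt_iff.2 ht0)).1 h3
    · have e3 : Q - T0 ^ (p - 1) * (1 - w * S) = T0 ^ (p - 1) * (Q / T0 ^ (p - 1) - 1 + w * S) := by
        have : T0 ^ (p - 1) ≠ 0 := pow_ne_zero _ hT00
        field_simp
        ring
      rw [e3, map_mul, map_pow, hTu, one_pow, one_mul]
      exact hK1
  · rw [hI]
    rw [show (((wV ^ p : V)) : ℂ) = (wV : ℂ) ^ p from rfl, hwV, map_pow, hwv]
  · rw [hI]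
    rw [show (((p : V) * wV : V) : ℂ) = (((p : ℕ) : V) : ℂ) * (wV : ℂ) from rfl, hwV, map_mul, hwv,
      hτ']
    simp
  · have h3 := he 0 (by omega)
    apply Subtype.ext
    rw [h3]
    simp only [Function.iterate_zero, id_eq, Nat.factorial_zero, Nat.cast_one, div_one, hT0]
    rw [div_self hT00]
    rfl
  · intro c hc
    rw [Finset.mem_Icc] at hc
    have h0 : 0 < c := by omega
    have h1 : c < p := by omega
    rw [hI]
    have h3 := tay' θ c h0 h1
    rw [(hT c).1] at h3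
    have e3 : ((f c - ∑ k ∈ Finset.range p, e k * ((c : V) * wV) ^ k : V) : ℂ) =
        (ThetaH L H (z + c * R) -
        ∑ k ∈ Finset.range p, MvPolynomial.aeval ![xn L z, yy L z] ((dW a2 a4)^[k] θ) /
          (k.factorial : ℂ) * (c * w) ^ k) / T0 := by
      rw [show ((f c - ∑ k ∈ Finset.range p, e k * ((c : V) * wV) ^ k : V) : ℂ) =
        ((f c : V) : ℂ) - ((∑ k ∈ Finset.range p, e k * ((c : V) * wV) ^ k : V) : ℂ) from rfl,
        hf, cS, sub_div, Finset.sum_div]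
      congr 1
      refine Finset.sum_congr rfl fun k hk => ?_
      rw [show ((e k * ((c : V) * wV) ^ k : V) : ℂ) = ((e k : V) : ℂ) *
        ((((c : ℕ) : V) : ℂ) * (wV : ℂ)) ^ k from rfl, he k (Finset.mem_range.1 hk), hwV]
      rw [cN]
      ring
    rw [e3, map_div₀, hTu, div_one]
    exact h3
  · intro c hc
    rw [Finset.mem_Icc] at hc
    have h0 : 0 < c := by omega
    have h1 : c < p := by omega
    rw [hI]
    have h3 := tay' (dW a2 a4 θ) c h0 h1
    rw [(hT c).2.2.1] at h3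
    have h4 : V.valuation (MvPolynomial.aeval ![xn L z, yy L z] ((dW a2 a4)^[p] θ) /
        ((p - 1).factorial : ℂ) * (c * w) ^ p) ≤ τ ^ p := by
      rw [map_mul, map_pow, hcw c h0 h1]
      exact (mul_le_mul' (hAint _ (p - 1) (by omega)) le_rfl).trans_eq (one_mul _)
    have e4 : (c * w : ℂ) * ∑ k ∈ Finset.range p, MvPolynomial.aeval ![xn L z, yy L z]
          ((dW a2 a4)^[k] (dW a2 a4 θ)) / (k.factorial : ℂ) * (c * w) ^ k =
        ∑ k ∈ Finset.range p, (k : ℂ) * (MvPolynomial.aeval ![xn L z, yy L z]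
          ((dW a2 a4)^[k] θ) / (k.factorial : ℂ)) * (c * w) ^ k +
        MvPolynomial.aeval ![xn L z, yy L z] ((dW a2 a4)^[p] θ) /
        ((p - 1).factorial : ℂ) * (c * w) ^ p := by
      obtain ⟨q, rfl⟩ : ∃ q, p = q + 1 := ⟨p - 1, by omega⟩
      rw [Finset.mul_sum, Finset.sum_range_succ, Finset.sum_range_succ', Nat.add_sub_cancel]
      congr 1
      · rw [Nat.cast_zero, zero_mul, zero_mul, add_zero]
        refine Finset.sum_congr rfl fun k _ => ?_
        rw [← Function.iterate_succ_apply, Nat.factorial_succ]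
        have h5 : ((k.factorial : ℕ) : ℂ) ≠ 0 := Nat.cast_ne_zero.2 (Nat.factorial_ne_zero _)
        have h6 : ((k : ℂ) + 1) ≠ 0 := Nat.cast_add_one_ne_zero k
        push_cast
        field_simp
        rw [pow_succ]
        ring
      · rw [← Function.iterate_succ_apply]
        ring
    have e3 : ((c * wV * (g c * f c) - ∑ k ∈ Finset.range p,
          (k : V) * e k * ((c : V) * wV) ^ k : V) : ℂ) =
        ((c * w : ℂ) * (ThetaH L H (z + c * R) * dlX L a (z + c * R) -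
          ∑ k ∈ Finset.range p, MvPolynomial.aeval ![xn L z, yy L z]
          ((dW a2 a4)^[k] (dW a2 a4 θ)) / (k.factorial : ℂ) * (c * w) ^ k) +
        MvPolynomial.aeval ![xn L z, yy L z] ((dW a2 a4)^[p] θ) /
        ((p - 1).factorial : ℂ) * (c * w) ^ p) / T0 := by
      rw [mul_sub, e4, show ((c * wV * (g c * f c) - ∑ k ∈ Finset.range p,
          (k : V) * e k * ((c : V) * wV) ^ k : V) : ℂ) =
        (((c : ℕ) : V) : ℂ) * (wV : ℂ) * (((g c : V) : ℂ) * ((f c : V) : ℂ)) -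
          ((∑ k ∈ Finset.range p, (k : V) * e k * ((c : V) * wV) ^ k : V) : ℂ) from rfl,
        cS, cN, hwV, hg, hf]
      have e5 : ∑ k ∈ Finset.range p, (((k : V) * e k * ((c : V) * wV) ^ k : V) : ℂ) =
          (∑ k ∈ Finset.range p, (k : ℂ) * (MvPolynomial.aeval ![xn L z, yy L z]
          ((dW a2 a4)^[k] θ) / (k.factorial : ℂ)) * (c * w) ^ k) / T0 := by
        rw [Finset.sum_div]
        refine Finset.sum_congr rfl fun k hk => ?_
        rw [show (((k : V) * e k * ((c : V) * wV) ^ k : V) : ℂ) = (((k : ℕ) : V) : ℂ) *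
          ((e k : V) : ℂ) * ((((c : ℕ) : V) : ℂ) * (wV : ℂ)) ^ k from rfl, cN, cN, hwV,
          he k (Finset.mem_range.1 hk)]
        ring
      rw [e5]
      ring
    rw [e3, map_div₀, hTu, div_one]
    apply KEY.add_le' _ h4
    rw [map_mul, hcw c h0 h1]
    exact (mul_le_mul' ht1.le h3).trans_eq (one_mul _)

end

end Pool.Agent.TWT


end

section

/-!
# TWT, block A: module KYR (helper52): evaluation of the power series at `w` modulo an ideal
-/

set_option autoImplicit false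

open PowerSeries

namespace Pool.Agent.TWT

namespace KYR

variable {A S : Type} [CommRing A] [CommRing S]

/-- the coefficients of `X * dE` -/
theorem coeff_X_mul_deriv (E : A⟦X⟧) (k : ℕ) :
    PowerSeries.coeff k (PowerSeries.X * d⁄dX A E) = (k : A) * PowerSeries.coeff k E := by
  cases k with
  | zero => simp
  | succ n =>
    rw [PowerSeries.coeff_succ_X_mul, PowerSeries.coeff_derivative]
    push_cast
    ring

/-- value of a rescaled series -/
theorem ev_rescale (f : A →+* S) (s : S) (n : ℕ) (φ : A⟦X⟧ →+* S)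
    (h : ∀ F, φ F = ∑ k ∈ Finset.range n, f (PowerSeries.coeff k F) * s ^ k) (c : ℕ) (F : A⟦X⟧) :
    φ (PowerSeries.rescale (c : A) F) =
      ∑ k ∈ Finset.range n, f (PowerSeries.coeff k F) * ((c : S) * s) ^ k := by
  rw [h]
  refine Finset.sum_congr rfl fun k _ => ?_
  rw [PowerSeries.coeff_rescale, map_mul, map_pow, map_natCast]
  ring

/-- all terms of positive degree vanish if the coefficients are divisible by `p` -/
theorem ev_zero (f : A →+* S) (s : S) (p : ℕ) (hps : (p : S) * s = 0) (a : A) (k : ℕ)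
    (hk : 0 < k) (h : (p : A) ∣ a) : f a * s ^ k = 0 := by
  obtain ⟨r, rfl⟩ := h
  obtain ⟨j, rfl⟩ := Nat.exists_eq_succ_of_ne_zero (Nat.pos_iff_ne_zero.mp hk)
  rw [map_mul, map_natCast, Nat.succ_eq_add_one, pow_succ]
  calc (p : S) * f r * (s ^ j * s) = f r * s ^ j * ((p : S) * s) := by ring
    _ = 0 := by rw [hps, mul_zero]

end KYR

theorem t_KYR (hE : S_EVH) (hP : S_PRD) : S_KYR := by
  intro A _ p hp I w hwp hpw e f g he0 hf hg
  have hp2 : 2 ≤ p := hp.two_le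
  set S := A ⧸ I with hS
  set q : A →+* A ⧸ I := Ideal.Quotient.mk I with hq
  have hs : q w ^ p = 0 := by
    rw [← map_pow]
    exact Ideal.Quotient.eq_zero_iff_mem.mpr hwp
  have hps : (p : A ⧸ I) * q w = 0 := by
    rw [← map_natCast q p, ← map_mul]
    exact Ideal.Quotient.eq_zero_iff_mem.mpr hpw
  obtain ⟨φ, -, -, hφ⟩ := hE A (A ⧸ I) q (q w) p hs hp2
  set E : A⟦X⟧ := PowerSeries.mk e with hEd
  have hE0 : PowerSeries.constantCoeff E = 1 := by
    rw [hEd, ← PowerSeries.coeff_zero_eq_constantCoeff_apply, PowerSeries.coeff_mk, he0]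
  have hU : IsUnit E := by
    rw [PowerSeries.isUnit_iff_constantCoeff, hE0]
    exact isUnit_one
  obtain ⟨E', hEE⟩ := hU.exists_right_inv
  obtain ⟨hQ0, hG0, hQG, hG⟩ := hP A p hp E E' hE0 hEE _ _ rfl rfl
  set Q : A⟦X⟧ := ∏ c ∈ Finset.Icc 1 (p - 1), PowerSeries.rescale (c : A) E with hQd
  set G : A⟦X⟧ := ∑ c ∈ Finset.Icc 1 (p - 1),
      PowerSeries.rescale (c : A) (PowerSeries.X * d⁄dX A E * E') with hGd
  have key := KYR.ev_rescale q (q w) p φ hφ
  have h1 : ∀ c ∈ Finset.Icc 1 (p - 1), φ (PowerSeries.rescale (c : A) E) = q (f c) := by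
    intro c hc
    have h := Ideal.Quotient.eq_zero_iff_mem.mpr (hf c hc)
    rw [map_sub, sub_eq_zero] at h
    rw [key, hq, h, map_sum]
    refine Finset.sum_congr rfl fun k _ => ?_
    rw [hEd, PowerSeries.coeff_mk, map_mul, map_pow, map_mul, map_natCast]
  have h2 : ∀ c ∈ Finset.Icc 1 (p - 1),
      φ (PowerSeries.rescale (c : A) (PowerSeries.X * d⁄dX A E)) =
        q ((c : A) * w * (g c * f c)) := by
    intro c hc
    have h := Ideal.Quotient.eq_zero_iff_mem.mpr (hg c hc)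
    rw [map_sub, sub_eq_zero] at h
    rw [key, hq, h, map_sum]
    refine Finset.sum_congr rfl fun k _ => ?_
    rw [KYR.coeff_X_mul_deriv, hEd, PowerSeries.coeff_mk, map_mul, map_mul, map_natCast, map_mul,
      map_pow, map_mul, map_natCast, map_natCast]
  have h3 : ∀ c ∈ Finset.Icc 1 (p - 1),
      φ (PowerSeries.rescale (c : A) (PowerSeries.X * d⁄dX A E * E')) = q (w * ((c : A) * g c)) := by
    intro c hc
    have h4 : q (f c) * φ (PowerSeries.rescale (c : A) E') = 1 := by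
      rw [← h1 c hc, ← map_mul, ← map_mul, hEE, map_one, map_one]
    rw [map_mul, map_mul, h2 c hc]
    calc q ((c : A) * w * (g c * f c)) * φ (PowerSeries.rescale (c : A) E')
        = q (w * ((c : A) * g c)) * (q (f c) * φ (PowerSeries.rescale (c : A) E')) := by
          rw [map_mul, map_mul, map_mul, map_mul, map_mul]
          ring
      _ = q (w * ((c : A) * g c)) := by rw [h4, mul_one]
  have hφQ : φ Q = q (∏ c ∈ Finset.Icc 1 (p - 1), f c) := by
    rw [hQd, map_prod, map_prod]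
    exact Finset.prod_congr rfl h1
  have hφG : φ G = q (w * ∑ c ∈ Finset.Icc 1 (p - 1), (c : A) * g c) := by
    rw [hGd, map_sum, Finset.mul_sum, map_sum]
    exact Finset.sum_congr rfl h3
  constructor
  · have h5 : φ (Q + G) = 1 := by
      rw [hφ, Finset.sum_eq_single_of_mem 0 (Finset.mem_range.mpr (by omega))]
      · rw [map_add, hQ0, hG0, add_zero, map_one, pow_zero, mul_one]
      · intro k hk hk0
        exact KYR.ev_zero q (q w) p hps _ k (Nat.pos_of_ne_zero hk0)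
          (hQG k (Nat.pos_of_ne_zero hk0) (Finset.mem_range.mp hk))
    rw [← Ideal.Quotient.eq_zero_iff_mem, map_add, map_sub, map_one]
    rw [map_add, hφQ, hφG] at h5
    calc q (∏ c ∈ Finset.Icc 1 (p - 1), f c) - 1 + q (w * ∑ c ∈ Finset.Icc 1 (p - 1), (c : A) * g c)
        = q (∏ c ∈ Finset.Icc 1 (p - 1), f c) + q (w * ∑ c ∈ Finset.Icc 1 (p - 1), (c : A) * g c) - 1 := by
          ring
      _ = 0 := by rw [h5, sub_self]
  · refine ⟨PowerSeries.coeff (p - 1) G, ?_⟩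
    have h6 : φ G = q (PowerSeries.coeff (p - 1) G) * q w ^ (p - 1) := by
      rw [hφ, Finset.sum_eq_single_of_mem (p - 1) (Finset.mem_range.mpr (by omega))]
      intro k hk hk1
      rcases Nat.eq_zero_or_pos k with rfl | hk0
      · rw [hG0, map_zero, zero_mul]
      · have hkp := Finset.mem_range.mp hk
        exact KYR.ev_zero q (q w) p hps _ k hk0 (hG k hk0 (by omega))
    rw [← Ideal.Quotient.eq_zero_iff_mem]
    change q _ = 0
    rw [map_sub, ← hφG, h6, map_mul, map_pow, sub_self]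

end Pool.Agent.TWT


end

section

/-!
# TWT_ODE: the differential equations of the formal group law (helper30)
-/

set_option autoImplicit false

open PowerSeries

namespace Pool.Agent.TWT

namespace ODE

theorem fin1 {A : Type*} [CommRing A] (q κ e D D' P R S y : A) (hR : R = 2 * S * D')
    (W : A) (he : e * D = 1) (hκ : κ * q = 1)
    (h : q * (P * D) - 2 * q * S * D' = 2 * (-y * D ^ 3 + W)) :
    P * e ^ 2 - R * e ^ 3 = κ * (2 * (-y + W * e ^ 3)) := by
  subst hR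
  linear_combination (κ * e ^ 3) * h + (-(P * e ^ 2 * (e * D)) + 2 * S * D' * e ^ 3) * hκ +
    (-(P * e ^ 2) - 2 * κ * y * (1 + e * D + (e * D) ^ 2)) * he

theorem fin2 {A : Type*} [CommRing A] (q κ e D D' Q S M x a2 a4 : A)
    (he : e * D = 1) (hκ : κ * q = 1)
    (h : q * Q * D - 3 * q * S * D' =
      3 * (x * D ^ 2 + M) ^ 2 + 2 * a2 * (x * D ^ 2 + M) * D ^ 2 + a4 * D ^ 4) :
    Q * e ^ 3 - 3 * S * D' * e ^ 4 =
      κ * (3 * (x + M * e ^ 2) ^ 2 + 2 * a2 * (x + M * e ^ 2) + a4) := by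
  linear_combination (κ * e ^ 4) * h + (-(Q * e ^ 3 * (e * D)) + 3 * S * D' * e ^ 4) * hκ +
    (-(Q * e ^ 3) + κ * (3 * x * (e * D + 1) * (x * (e * D) ^ 2 + x + 2 * M * e ^ 2) +
      2 * a2 * (e * D + 1) * (x * ((e * D) ^ 2 + 1) + M * e ^ 2) +
      a4 * (e * D + 1) * ((e * D) ^ 2 + 1))) * he

end ODE

theorem t_ODE : S_ODE := by
  intro A _ a2 a4 a6 x y hc U e κ hU he hκ gx gy hgx hgy
  have hc' : (C y : A⟦X⟧) ^ 2 = C x ^ 3 + C a2 * C x ^ 2 + C a4 * C x + C a6 := by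
    rw [← map_pow, hc]
    simp only [map_add, map_mul, map_pow]
  set T : A⟦X⟧ := PowerSeries.X with hT
  have dT : d⁄dX A T = 1 := by
    rw [hT]
    exact PowerSeries.derivative_X
  have dC : ∀ a : A, d⁄dX A (C a : A⟦X⟧) = 0 := fun a => PowerSeries.derivative_C
  have dm : ∀ f g : A⟦X⟧, d⁄dX A (f * g) = f * d⁄dX A g + g * d⁄dX A f := by
    intro f g
    rw [Derivation.leibniz, smul_eq_mul, smul_eq_mul]
  have dp : ∀ (f : A⟦X⟧) (n : ℕ), d⁄dX A (f ^ n) = n * f ^ (n - 1) * d⁄dX A f := by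
    intro f n
    rw [Derivation.leibniz_pow, nsmul_eq_mul, smul_eq_mul, mul_assoc]
  have d1 : d⁄dX A (1 : A⟦X⟧) = 0 := Derivation.map_one_eq_zero _
  have d2 : d⁄dX A (2 : A⟦X⟧) = 0 := by
    rw [← one_add_one_eq_two, map_add, d1, add_zero]
  have d3 : d⁄dX A (3 : A⟦X⟧) = 0 := by
    have : (3 : A⟦X⟧) = 2 + 1 := by norm_num
    rw [this, map_add, d1, d2, add_zero]
  set s : A⟦X⟧ := d⁄dX A U with hs0
  have hU' : U = 1 + C a2 * T ^ 2 * U + C a4 * T ^ 4 * U ^ 2 + C a6 * T ^ 6 * U ^ 3 := hU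
  set q : A⟦X⟧ := 1 - C a2 * T ^ 2 - 2 * C a4 * T ^ 4 * U - 3 * C a6 * T ^ 6 * U ^ 2 with hq
  have hκ' : κ * q = 1 := hκ
  have hs : q * s = T * (2 * C a2 * U + 4 * C a4 * T ^ 2 * U ^ 2 + 6 * C a6 * T ^ 4 * U ^ 3) := by
    have h1 := congrArg (d⁄dX A) hU'
    simp only [map_add, dm, dp, dT, dC, d1] at h1
    rw [← hs0] at h1
    rw [hq]
    norm_num at h1
    linear_combination h1
  set D : A⟦X⟧ := 1 - C x * T ^ 2 * U with hD
  have he' : e * D = 1 := he
  set D' : A⟦X⟧ := -(C x * (2 * T * U + T ^ 2 * s)) with hD'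
  have dD : d⁄dX A D = D' := by
    rw [hD, hD', map_sub, d1, dm, dm, dp, dT, dC]
    rw [← hs0]
    norm_num
    ring
  have de : d⁄dX A e = -(D' * e ^ 2) := by
    have h1 := congrArg (d⁄dX A) he'
    rw [dm, dD, d1] at h1
    linear_combination e * h1 - (d⁄dX A e) * he'
  set N : A⟦X⟧ := 2 * C y + T * (C a4 + 2 * C a2 * C x + 3 * C x ^ 2) +
    T ^ 3 * U * (C a6 + C y ^ 2 - C a2 * C x ^ 2 - 2 * C x ^ 3) with hN
  set N' : A⟦X⟧ := (C a4 + 2 * C a2 * C x + 3 * C x ^ 2) +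
    (3 * T ^ 2 * U + T ^ 3 * s) * (C a6 + C y ^ 2 - C a2 * C x ^ 2 - 2 * C x ^ 3) with hN'
  have dN : d⁄dX A N = N' := by
    rw [hN, hN']
    simp only [map_add, map_sub, dm, dp, dT, dC, d2, d3]
    rw [← hs0]
    norm_num
    ring
  have hgx' : gx = C x + T * U * N * e ^ 2 := hgx
  have hgy' : gy = -C y + (1 + C y * T ^ 3 * U) * U * N * e ^ 3 := hgy
  have o1 := ode1 T U s (C x) (C y) (C a2) (C a4) (C a6) hc' hU' q hq hs D N hD hN D' N' hD' hN'
  have o2 := ode2 T U s (C x) (C y) (C a2) (C a4) (C a6) hc' hU' q hq hs D N hD hN D' N' hD' hN'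
  constructor
  · have h1 := ODE.fin1 q κ e D D' ((U + T * s) * N + T * U * N') (2 * (T * U * N) * D')
      (T * U * N) (C y) rfl ((1 + C y * T ^ 3 * U) * U * N) he' hκ' (by
        linear_combination o1)
    rw [hgy']
    have h2 : d⁄dX A gx = ((U + T * s) * N + T * U * N') * e ^ 2 -
        2 * (T * U * N) * D' * e ^ 3 := by
      rw [hgx']
      simp only [map_add, dm, dp, dT, dC, dN, de]
      rw [← hs0]
      norm_num
      ring
    rw [h2, h1]
  · have h1 := ODE.fin2 q κ e D D' (C y * (3 * T ^ 2 * U + T ^ 3 * s) * U * N +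
        (1 + C y * T ^ 3 * U) * (s * N + U * N')) ((1 + C y * T ^ 3 * U) * U * N)
      (T * U * N) (C x) (C a2) (C a4) he' hκ' (by
        linear_combination o2)
    have h2 : d⁄dX A gy = (C y * (3 * T ^ 2 * U + T ^ 3 * s) * U * N +
        (1 + C y * T ^ 3 * U) * (s * N + U * N')) * e ^ 3 -
        3 * ((1 + C y * T ^ 3 * U) * U * N) * D' * e ^ 4 := by
      rw [hgy']
      simp only [map_add, map_neg, dm, dp, dT, dC, dN, de, d1]
      rw [← hs0]
      norm_num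
      ring
    rw [h2, h1, hgx']

end Pool.Agent.TWT


end

section

/-!
# TWT, block A: the Taylor expansion at the points
-/

set_option autoImplicit false

open WeierstrassCurve Polynomial PowerSeries

namespace Pool.Agent.TWT

open _root_.MU3 Pool.Agent.MU3A Pool.Agent.MU3B Pool.Agent.MUX Pool.Agent.MUXU
open Pool.Agent.MUXV (GR InK tX)

namespace TAY

section
variable {A B : Type} [CommRing A] [CommRing B] (φ : A →+* B)

lemma map_qF (a2 a4 a6 T U : A) :
    φ (qF a2 a4 a6 T U) = qF (φ a2) (φ a4) (φ a6) (φ T) (φ U) := by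
  simp only [qF, map_sub, map_mul, map_pow, map_one, map_ofNat]

lemma map_nF (a2 a4 a6 x y T U : A) :
    φ (nF a2 a4 a6 x y T U) = nF (φ a2) (φ a4) (φ a6) (φ x) (φ y) (φ T) (φ U) := by
  simp only [nF, map_sub, map_add, map_mul, map_pow, map_ofNat]

lemma map_xF (a2 a4 a6 x y T U e : A) :
    φ (xF a2 a4 a6 x y T U e) = xF (φ a2) (φ a4) (φ a6) (φ x) (φ y) (φ T) (φ U) (φ e) := by
  simp only [xF, map_add, map_mul, map_pow, map_nF]

lemma map_yF (a2 a4 a6 x y T U e : A) :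
    φ (yF a2 a4 a6 x y T U e) = yF (φ a2) (φ a4) (φ a6) (φ x) (φ y) (φ T) (φ U) (φ e) := by
  simp only [yF, map_add, map_mul, map_pow, map_nF, map_neg, map_one]

lemma map_EqU {a2 a4 a6 T U : A} (h : EqU a2 a4 a6 T U) :
    EqU (φ a2) (φ a4) (φ a6) (φ T) (φ U) := by
  unfold EqU at h ⊢
  have := congrArg φ h
  simpa only [map_add, map_mul, map_pow, map_one] using this

lemma inj_EqU (hφ : Function.Injective φ) {a2 a4 a6 T U : A}
    (h : EqU (φ a2) (φ a4) (φ a6) (φ T) (φ U)) : EqU a2 a4 a6 T U := by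
  unfold EqU at h ⊢
  apply hφ
  simpa only [map_add, map_mul, map_pow, map_one] using h

end

/-- evaluation of a polynomial and ring homomorphisms -/
lemma map_ev {A B S : Type} [CommRing A] [CommRing B] [CommRing S] [Algebra A B] (φ : B →+* S)
    (π : A →+* S) (hπ : ∀ a, φ (algebraMap A B a) = π a) (g h : B) (f : MvPolynomial (Fin 2) A) :
    φ (MvPolynomial.aeval ![g, h] f) = MvPolynomial.eval₂ π ![φ g, φ h] f := by
  rw [MvPolynomial.aeval_def, MvPolynomial.hom_eval₂]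
  have e1 : φ.comp (algebraMap A B) = π := RingHom.ext hπ
  rw [e1]
  congr 1
  funext i
  fin_cases i <;> rfl

lemma coe_ev (V : ValuationSubring ℂ) (g h : V) (f : MvPolynomial (Fin 2) V) :
    ((MvPolynomial.aeval ![g, h] f : V) : ℂ) = MvPolynomial.aeval ![(g : ℂ), (h : ℂ)] f := by
  have := map_ev (algebraMap V ℂ) (algebraMap V ℂ) (fun _ => rfl) g h f
  rw [MvPolynomial.aeval_def ![(g : ℂ), (h : ℂ)]]
  exact this

end TAY

open _root_.Pool.Agent.TWT.TAY

theorem t_TAY (hEVH : S_EVH) (hUEX : S_UEX) (hUQN : S_UQN) (hODE : S_ODE) (hTAF : S_TAF)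
    (hPTS : S_PTS) : S_TAY := by
  intro V W L X Y ξ G p hp hv a2 a4 ha2 ha4
  obtain ⟨a6, ha6⟩ : ∃ a6 : V, (a6 : ℂ) = W.a₆ :=
    ⟨⟨W.a₆, (ValuationSubring.valuation_le_one_iff _ _).1 G.int.a6⟩, rfl⟩
  have hinj : Function.Injective (algebraMap V ℂ) := Subtype.val_injective
  have hunit : ∀ j : ℕ, 0 < j → j < p → IsUnit (j : V) := by
    intro j h0 hj
    refine (ValuationSubring.valuation_eq_one_iff V (j : V)).2 ?_
    have := hv j h0 hj
    simpa using this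
  have hfac : ∀ k : ℕ, k < p → IsUnit (k.factorial : V) := by
    intro k
    induction k with
    | zero => intro _; simp
    | succ k ih =>
      intro hk
      rw [Nat.factorial_succ, Nat.cast_mul]
      exact (hunit (k + 1) (Nat.succ_pos k) hk).mul (ih (by omega))
  obtain ⟨U, hU0, hU⟩ := hUEX V a2 a4 a6
  have hq0 : PowerSeries.constantCoeff (qF (PowerSeries.C a2) (PowerSeries.C a4)
      (PowerSeries.C a6) PowerSeries.X U) = 1 := by
    simp [qF]
  obtain ⟨κ, hκ⟩ : ∃ κ : V⟦X⟧, κ * qF (PowerSeries.C a2) (PowerSeries.C a4) (PowerSeries.C a6)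
      PowerSeries.X U = 1 := by
    have h1 : IsUnit (qF (PowerSeries.C a2) (PowerSeries.C a4) (PowerSeries.C a6)
      PowerSeries.X U) := by
      rw [PowerSeries.isUnit_iff_constantCoeff, hq0]
      exact isUnit_one
    obtain ⟨u, hu⟩ := h1
    exact ⟨↑u⁻¹, by rw [← hu]; exact u.inv_mul⟩
  have hκ0 : PowerSeries.constantCoeff κ = 1 := by
    have := congrArg PowerSeries.constantCoeff hκ
    rwa [map_mul, hq0, mul_one, map_one] at this
  refine ⟨fun j => ((PowerSeries.coeff j (lamF p κ) : V) : ℂ), ?_, ?_, ?_, ?_⟩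
  · simp [lamF]
  · have h1 : (1 : ℕ) < p := hp
    simp [lamF, h1, hκ0]
  · intro j
    exact (ValuationSubring.valuation_le_one_iff _ _).2 (PowerSeries.coeff j (lamF p κ)).2
  · intro R hR hRL z hz f
    obtain ⟨hvt, hvt0, hvt2⟩ := Pool.Agent.MUXV.v_tX_lt G hR hRL
    obtain ⟨hu1, hEq, he1, hXe, hYe⟩ := hPTS V W L X Y ξ G z R hz hR hRL _ _ rfl rfl
    obtain ⟨t, ht⟩ : ∃ t : V, (t : ℂ) = tX X Y R :=
      ⟨⟨_, (ValuationSubring.valuation_le_one_iff _ _).1 hvt.le⟩, rfl⟩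
    obtain ⟨u, hu⟩ : ∃ u : V, (u : ℂ) = 1 / (X R * (tX X Y R) ^ 2) :=
      ⟨⟨_, (ValuationSubring.valuation_le_one_iff _ _).1 hu1.le⟩, rfl⟩
    obtain ⟨x, hx⟩ : ∃ x : V, (x : ℂ) = X z :=
      ⟨⟨_, (ValuationSubring.valuation_le_one_iff _ _).1 (Pool.Agent.MUXV.int_X hz).2⟩, rfl⟩
    obtain ⟨y, hy⟩ : ∃ y : V, (y : ℂ) = Y z :=
      ⟨⟨_, (ValuationSubring.valuation_le_one_iff _ _).1 (Pool.Agent.MUXV.int_Y G hz)⟩, rfl⟩
    have hcurve : y ^ 2 = x ^ 3 + a2 * x ^ 2 + a4 * x + a6 := by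
      obtain ⟨h1, -⟩ := G.some z (Pool.Agent.MUXV.int_X hz).1
      have h2 := (Affine.equation_iff _ _).1 h1.1
      rw [G.int.a1, G.int.a3] at h2
      apply Subtype.val_injective
      push_cast
      rw [hx, hy, ha2, ha4, ha6]
      linear_combination h2
    rw [← ht] at hu hEq he1 hXe hYe hvt ⊢
    rw [← hu] at hEq he1 hXe hYe
    rw [← hx] at he1 hXe hYe
    rw [← hy] at hXe hYe
    rw [← ha2, ← ha4, ← ha6] at hEq hXe hYe
    have hEqV : EqU a2 a4 a6 t u := inj_EqU (algebraMap V ℂ) hinj hEq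
    obtain ⟨e, he⟩ : ∃ e : V, (e : ℂ) = 1 / (1 - (x : ℂ) * (t : ℂ) ^ 2 * u) :=
      ⟨⟨_, (ValuationSubring.valuation_le_one_iff _ _).1 (by
        rw [map_div₀, map_one, he1, div_one])⟩, rfl⟩
    have hne : (1 - (x : ℂ) * (t : ℂ) ^ 2 * u) ≠ 0 := by
      intro h0
      rw [h0, map_zero] at he1
      exact zero_ne_one he1
    have heV : e * (1 - x * t ^ 2 * u) = 1 := by
      apply Subtype.val_injective
      push_cast
      rw [he]
      field_simp
    rw [← he] at hXe hYe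
    -- the quotient
    obtain ⟨I, hI⟩ : ∃ I : Ideal V, I = Ideal.span {t ^ p} := ⟨_, rfl⟩
    obtain ⟨π, hπ⟩ : ∃ π : V →+* V ⧸ I, π = Ideal.Quotient.mk I := ⟨_, rfl⟩
    have hsp : (π t) ^ p = 0 := by
      rw [← map_pow, hπ, Ideal.Quotient.eq_zero_iff_mem, hI]
      exact Ideal.mem_span_singleton_self _
    obtain ⟨φ, hφX, hφC, hφ⟩ := hEVH V (V ⧸ I) π (π t) p hsp hp
    have hφU : φ U = π u := by
      refine hUQN (V ⧸ I) (π a2) (π a4) (π a6) (π t) _ _ p hsp ?_ (map_EqU π hEqV)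
      have := map_EqU φ hU
      rwa [hφC, hφC, hφC, hφX] at this
    obtain ⟨E, hE⟩ : ∃ E : V⟦X⟧, E * (1 - PowerSeries.C x * PowerSeries.X ^ 2 * U) = 1 := by
      have h1 : IsUnit (1 - PowerSeries.C x * PowerSeries.X ^ 2 * U) := by
        rw [PowerSeries.isUnit_iff_constantCoeff]
        simp
      obtain ⟨w, hw⟩ := h1
      exact ⟨↑w⁻¹, by rw [← hw]; exact w.inv_mul⟩
    have hE0 : PowerSeries.constantCoeff E = 1 := by
      have := congrArg PowerSeries.constantCoeff hE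
      rw [map_mul] at this
      simpa using this
    have hφE : φ E = π e := by
      have h1 := congrArg φ hE
      rw [map_mul, map_sub, map_one, map_mul, map_mul, map_pow, hφC, hφX, hφU] at h1
      have h2 := congrArg π heV
      rw [map_mul, map_sub, map_one, map_mul, map_mul, map_pow] at h2
      calc φ E = φ E * (π e * (1 - π x * π t ^ 2 * π u)) := by rw [h2, mul_one]
        _ = π e * (φ E * (1 - π x * π t ^ 2 * π u)) := by ring
        _ = π e := by rw [h1, mul_one]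
    obtain ⟨gx, hgx⟩ : ∃ gx : V⟦X⟧, gx = xF (PowerSeries.C a2) (PowerSeries.C a4)
      (PowerSeries.C a6) (PowerSeries.C x) (PowerSeries.C y) PowerSeries.X U E := ⟨_, rfl⟩
    obtain ⟨gy, hgy⟩ : ∃ gy : V⟦X⟧, gy = yF (PowerSeries.C a2) (PowerSeries.C a4)
      (PowerSeries.C a6) (PowerSeries.C x) (PowerSeries.C y) PowerSeries.X U E := ⟨_, rfl⟩
    obtain ⟨hdx, hdy⟩ := hODE V a2 a4 a6 x y hcurve U E κ hU hE hκ gx gy hgx hgy
    have hT := hTAF V p hunit a2 a4 gx gy κ hdx hdy f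
    have hgx0 : PowerSeries.constantCoeff gx = x := by
      rw [hgx]; simp [xF]
    have hgy0 : PowerSeries.constantCoeff gy = y := by
      have h2 : PowerSeries.constantCoeff (2 : V⟦X⟧) = 2 := map_ofNat _ 2
      rw [hgy]
      simp [yF, nF, hU0, hE0, h2]
      ring
    rw [hgx0, hgy0] at hT
    obtain ⟨XV, hXV⟩ : ∃ XV : V, XV = xF a2 a4 a6 x y t u e := ⟨_, rfl⟩
    obtain ⟨YV, hYV⟩ : ∃ YV : V, YV = yF a2 a4 a6 x y t u e := ⟨_, rfl⟩
    have hXVc : X (z + R) = (XV : ℂ) := by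
      rw [hXe, hXV]
      exact (map_xF (algebraMap V ℂ) a2 a4 a6 x y t u e).symm
    have hYVc : Y (z + R) = (YV : ℂ) := by
      rw [hYe, hYV]
      exact (map_yF (algebraMap V ℂ) a2 a4 a6 x y t u e).symm
    have hφgx : φ gx = π XV := by
      rw [hgx, hXV, map_xF, map_xF, hφC, hφC, hφC, hφC, hφC, hφX, hφU, hφE]
    have hφgy : φ gy = π YV := by
      rw [hgy, hYV, map_yF, map_yF, hφC, hφC, hφC, hφC, hφC, hφX, hφU, hφE]
    obtain ⟨w, hw⟩ : ∃ w : V, w = ∑ j ∈ Finset.range p, PowerSeries.coeff j (lamF p κ) * t ^ j :=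
      ⟨_, rfl⟩
    have hφl : φ (lamF p κ) = π w := by
      rw [hφ, hw, map_sum]
      simp only [map_mul, map_pow]
    obtain ⟨c, hc⟩ : ∃ c : ℕ → V, c = fun k => MvPolynomial.aeval ![x, y] ((dW a2 a4)^[k] f) *
      Ring.inverse (k.factorial : V) := ⟨_, rfl⟩
    have hL : π (MvPolynomial.aeval ![XV, YV] f) =
        π (∑ k ∈ Finset.range p, c k * w ^ k) := by
      have h1 : φ (MvPolynomial.aeval ![gx, gy] f) = π (MvPolynomial.aeval ![XV, YV] f) := by
        rw [map_ev φ π (fun a => hφC a) gx gy f, hφgx, hφgy,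
          ← map_ev π π (fun _ => rfl) XV YV f]
      have h2 : φ (MvPolynomial.aeval ![gx, gy] f) =
          φ (∑ k ∈ Finset.range p, PowerSeries.C (c k) * lamF p κ ^ k) := by
        rw [hφ, hφ]
        refine Finset.sum_congr rfl fun k hk => ?_
        rw [hT k (Finset.mem_range.1 hk), hc]
      rw [← h1, h2, map_sum, map_sum]
      refine Finset.sum_congr rfl fun k _ => ?_
      rw [map_mul, map_pow, hφC, hφl, map_mul, map_pow]
    rw [hπ] at hL
    have hmem := Ideal.Quotient.eq.1 hL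
    rw [hI] at hmem
    obtain ⟨r, hr⟩ := Ideal.mem_span_singleton'.1 hmem
    have hwc : (w : ℂ) = vpi (fun j => ((PowerSeries.coeff j (lamF p κ) : V) : ℂ)) p (t : ℂ) := by
      rw [hw]
      simp only [vpi]
      push_cast
      rfl
    have key : MvPolynomial.aeval ![X (z + R), Y (z + R)] f -
        ∑ k ∈ Finset.range p, MvPolynomial.aeval ![X z, Y z] ((dW a2 a4)^[k] f) /
          (k.factorial : ℂ) *
          vpi (fun j => ((PowerSeries.coeff j (lamF p κ) : V) : ℂ)) p (t : ℂ) ^ k =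
        ((r * t ^ p : V) : ℂ) := by
      rw [hr, ← hwc, hXVc, hYVc, ← coe_ev, ← hx, ← hy]
      push_cast
      congr 1
      refine Finset.sum_congr rfl fun k hk => ?_
      rw [hc, ← coe_ev]
      have hk1 := hfac k (Finset.mem_range.1 hk)
      have hk2 := Ring.inverse_mul_cancel _ hk1
      have hk3 : ((Ring.inverse (k.factorial : V) : V) : ℂ) * (k.factorial : ℂ) = 1 := by
        have := congrArg (fun a : V => (a : ℂ)) hk2
        simpa using this
      have hk4 : ((Ring.inverse (k.factorial : V) : V) : ℂ) = 1 / (k.factorial : ℂ) :=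
        eq_div_of_mul_eq (by exact_mod_cast k.factorial_ne_zero) hk3
      push_cast
      rw [hk4]
      ring
    rw [key]
    push_cast
    rw [map_mul, map_pow]
    calc V.valuation (r : ℂ) * V.valuation (t : ℂ) ^ p ≤ 1 * V.valuation (t : ℂ) ^ p :=
          mul_le_mul_left ((ValuationSubring.valuation_le_one_iff _ _).2 r.2) _
      _ = V.valuation (t : ℂ) ^ p := one_mul _

end Pool.Agent.TWT


end

section

/-!
# TWT, block B, assembly, part 1 (helper59): the powers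
-/

set_option autoImplicit false

open WeierstrassCurve Polynomial NumberField IsDedekindDomain

namespace Pool.Agent.TWT

open _root_.MU3 Pool.Agent.MU3A Pool.Agent.MU3B Pool.Agent.MU3C Pool.Agent.RI Pool.Agent.RID
open Pool.Agent.MUX Pool.Agent.MUXU Pool.Agent.MUXW
open Pool.Agent.MU3V (cls Sub GD algDF)
open Pool.Agent.MUXV (GR InK tX)
open Pool.Agent.MUXI (IA RE AR)
open OnePoint

noncomputable section

namespace CRA

theorem idl_ne {A B : ℤ} {m : ℕ} (hm : m ≠ 0) :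
    (idl (A := A) (B := B) m) ≠ ⊥ := by
  intro h
  rw [Ideal.span_singleton_eq_bot] at h
  have h1 : ((m : ℕ) : OO A B).re = 0 := by rw [h]; rfl
  have h2 : ((m : ℕ) : OO A B).re = (m : ℤ) := by
    simp
  rw [h2] at h1
  exact hm (by exact_mod_cast h1)

theorem idl_le {A B : ℤ} (m p : ℕ) : (idl (A := A) (B := B) (m * p)) ≤ idl m := by
  rw [Ideal.span_singleton_le_span_singleton]
  push_cast
  exact Dvd.intro _ rfl

theorem subF {A B : ℤ} (hT : TorX A B) {D : IntermediateField ℚ ℂ} (m p : ℕ)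
    (hs : Sub D (RF (idl m) : IntermediateField (kk A B) ℂ)) :
    Sub D (RF (idl (m * p)) : IntermediateField (kk A B) ℂ) :=
  fun x hx => hT.mono _ _ (idl_le m p) (hs x hx)

theorem cWt_one {A B : ℤ} {F : IntermediateField (kk A B) ℂ} {D : IntermediateField ℚ ℂ}
    (h : kk A B ≤ D) : letI := algC h
    ∀ (τ : D ≃ₐ[kk A B] D), cWt (F := F) h 1 τ = 1 := by
  intro τ
  unfold cWt
  simp

theorem partA (hNMF : S_NMF) (hEAB : S_EAB) (p : ℕ) [Fact p.Prime] (A B : ℤ) (hcq : CQ A B)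
    (hT : TorX A B) (m : ℕ) (hm : m ≠ 0) (D : IntermediateField ℚ ℂ) [FiniteDimensional ℚ D]
    [FiniteDimensional ℚ (kk A B)] (h : kk A B ≤ D)
    (hs : Sub D (RF (idl m) : IntermediateField (kk A B) ℂ)) (Fr : Type) [Field Fr] [CharP Fr p] :
    letI := algC h
    ∀ (χ : (D ≃ₐ[kk A B] D) →* Frˣ) (g : D ≃ₐ[kk A B] D), (∀ x : D, (x : ℂ) ∈
      (RF (⊤ : Ideal (OO A B)) : IntermediateField (kk A B) ℂ) → g x = x) → χ g ≠ 1 →
    ∀ (θ θ'' κ : (RF (idl (m * p)) : IntermediateField (kk A B) ℂ))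
      (γ : ℕ → ((RF (idl (m * p)) : IntermediateField (kk A B) ℂ) ≃ₐ[kk A B] RF (idl (m * p))))
      (φ : (RF (idl (m * p)) : IntermediateField (kk A B) ℂ) ≃ₐ[kk A B] RF (idl (m * p)))
      (τφ : D ≃ₐ[kk A B] D), θ ≠ 0 → θ'' ≠ 0 → κ ≠ 0 →
      (κ : ℂ) ∈ (RF (⊤ : Ideal (OO A B)) : IntermediateField (kk A B) ℂ) →
      (∀ c : ℕ, 1 ≤ c → c < p → ∀ y : (RF (idl (m * p)) : IntermediateField (kk A B) ℂ),
        (y : ℂ) ∈ (RF (idl m) : IntermediateField (kk A B) ℂ) → γ c y = y) →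
      (∏ c ∈ Finset.Icc 1 (p - 1), γ c θ) * θ'' = κ * φ θ'' → Ext1 h τφ φ → χ τφ ≠ 1 →
    ∀ c₀ : D, (c₀ : ℂ) = cW h θ →
    (∀ t : Fr →+ ZMod p, ∃ y : D, y ^ p = Pool.Agent.TWK.sE p χ t c₀) →
    ∀ t : Fr →+ ZMod p, ∃ y : D, ((y ^ p : D) : ℂ) = ∏ τ : D ≃ₐ[kk A B] D,
      cWt h ((∏ c ∈ Finset.Icc 1 (p - 1), γ c θ) / θ'' ^ (p - 1)) τ ^
        (t ((χ τ)⁻¹ : Frˣ)).val := by
  let _ := algC h
  intro χ g hg hgχ θ θ'' κ γ φ τφ hθ hθ'' hκ hκ1 hγ hrel hφ hχφ c₀ hc₀ hpow t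
  have hp : p.Prime := Fact.out
  have hmp : m * p ≠ 0 := mul_ne_zero hm hp.ne_zero
  have hsF := subF hT m p hs
  haveI := hT.fin _ (idl_ne (A := A) (B := B) hmp)
  haveI := hT.gal _ (idl_ne (A := A) (B := B) hmp)
  have MEM := ty_MEM A B _ (hT.fin _ (idl_ne hmp)) (hT.gal _ (idl_ne hmp))
    (hT.comm _ (idl_ne hmp)) D h hsF
  have NMF := hNMF A B hcq hT (m * p) hmp D h hsF
  -- multiplicativity
  have mul : ∀ x y : (RF (idl (m * p)) : IntermediateField (kk A B) ℂ), x ≠ 0 → y ≠ 0 →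
      ∀ τ : D ≃ₐ[kk A B] D, cWt h (x * y) τ = cWt h x τ * cWt h y τ :=
    fun x y hx hy τ => ((NMF x y hx hy).1 τ).1
  have inv : ∀ x : (RF (idl (m * p)) : IntermediateField (kk A B) ℂ), x ≠ 0 →
      ∀ τ : D ≃ₐ[kk A B] D, cWt h x⁻¹ τ = (cWt h x τ)⁻¹ :=
    fun x hx τ => ((NMF x x hx hx).1 τ).2
  have pw : ∀ x : (RF (idl (m * p)) : IntermediateField (kk A B) ℂ), x ≠ 0 → ∀ (n : ℕ)
      (τ : D ≃ₐ[kk A B] D), cWt h (x ^ n) τ = cWt h x τ ^ n := by
    intro x hx n τ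
    induction n with
    | zero => rw [pow_zero, pow_zero, cWt_one]
    | succ n ih => rw [pow_succ, pow_succ, mul _ _ (pow_ne_zero n hx) hx, ih]
  have hγ0 : ∀ c, γ c θ ≠ 0 := fun c => (map_ne_zero_iff _ (γ c).injective).2 hθ
  have hγ1 : ∀ c, 1 ≤ c → c < p → ∀ τ : D ≃ₐ[kk A B] D, cWt h (γ c θ) τ = cWt h θ τ := by
    intro c h1 h2 τ
    have e : Ext1 h (1 : D ≃ₐ[kk A B] D) (γ c) := by
      intro y hy
      rw [hγ c h1 h2 ⟨y, hy⟩ (hs y y.2)]
      rfl
    rw [(NMF θ θ hθ hθ).2.1 τ 1 (γ c) e, mul_one]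
  have prd : ∀ (s : Finset ℕ), s ⊆ Finset.Icc 1 (p - 1) → ∀ τ : D ≃ₐ[kk A B] D,
      cWt h (∏ c ∈ s, γ c θ) τ = cWt h θ τ ^ s.card := by
    intro s
    induction s using Finset.induction_on with
    | empty => intro _ τ; rw [Finset.prod_empty, Finset.card_empty, pow_zero, cWt_one]
    | insert a s ha ih =>
      intro hsub τ
      rw [Finset.prod_insert ha, Finset.card_insert_of_notMem ha, pow_succ,
        mul _ _ (hγ0 a) (Finset.prod_ne_zero_iff.2 fun c _ => hγ0 c),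
        ih (fun x hx => hsub (Finset.mem_insert_of_mem hx))]
      have h1 := Finset.mem_Icc.1 (hsub (Finset.mem_insert_self a s))
      have h2 := hp.two_le
      rw [hγ1 a h1.1 (by omega), mul_comm]
  have hprod0 : (∏ c ∈ Finset.Icc 1 (p - 1), γ c θ) ≠ 0 :=
    Finset.prod_ne_zero_iff.2 fun c _ => hγ0 c
  have prd' : ∀ τ : D ≃ₐ[kk A B] D,
      cWt h (∏ c ∈ Finset.Icc 1 (p - 1), γ c θ) τ = cWt h θ τ ^ (p - 1) := by
    intro τ
    rw [prd _ (Finset.Subset.refl _), Nat.card_Icc, Nat.add_sub_cancel]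
  -- the units
  let U : ∀ x : (RF (idl (m * p)) : IntermediateField (kk A B) ℂ), x ≠ 0 →
      (D ≃ₐ[kk A B] D) → Dˣ := fun x hx τ =>
    Units.mk0 ⟨cWt h x τ, ((MEM x hx).2.1 τ).1⟩
      (fun e => ((MEM x hx).2.1 τ).2 (congrArg Subtype.val e))
  have hU : ∀ x hx τ, (((U x hx τ : Dˣ) : D) : ℂ) = cWt h x τ := fun x hx τ => rfl
  have R1 : ∀ τ, U θ hθ τ ^ (p - 1) * U θ'' hθ'' τ = U κ hκ τ * U θ'' hθ'' (τ * τφ) := by
    intro τ
    apply Units.ext
    apply Subtype.ext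
    push_cast
    rw [hU θ hθ τ, hU θ'' hθ'' τ, hU κ hκ τ, hU θ'' hθ'' (τ * τφ), ← prd', ← mul _ _ hprod0 hθ'', hrel,
      mul _ _ hκ ((map_ne_zero_iff _ φ.injective).2 hθ''), (NMF θ'' θ'' hθ'' hθ'').2.1 τ τφ φ hφ]
  have R2 : ∀ τ, U κ hκ (τ * g) = U κ hκ τ := by
    intro τ
    apply Units.ext
    apply Subtype.ext
    rw [hU κ hκ (τ * g), hU κ hκ τ]
    exact (NMF κ κ hκ hκ).2.2 hκ1 g hg τ
  -- powers
  have P1 : ∀ t : Fr →+ ZMod p, ∃ y : Dˣ, y ^ p = EtT p χ t (U θ hθ) := by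
    intro t
    obtain ⟨y, hy⟩ := hpow t
    have e0 : ∀ δ : D ≃ₐ[kk A B] D, δ c₀ = ((U θ hθ δ : Dˣ) : D) := by
      intro δ
      apply Subtype.ext
      rw [hU θ hθ δ]
      have h1 : cW h θ ∈ D := hc₀ ▸ c₀.2
      have h2 : c₀ = ⟨cW h θ, h1⟩ := Subtype.ext hc₀
      rw [h2]
      exact (MEM θ hθ).2.2.1 δ h1
    have e1 : y ^ p = ((EtT p χ t (U θ hθ) : Dˣ) : D) := by
      rw [hy]
      unfold Pool.Agent.TWK.sE EtT
      rw [Units.coe_prod]
      refine Finset.prod_congr (by congr) fun δ _ => ?_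
      rw [e0 δ]
      push_cast
      rfl
    have hy0 : y ≠ 0 := by
      intro h0
      rw [h0, zero_pow hp.ne_zero] at e1
      exact (EtT p χ t (U θ hθ)).ne_zero e1.symm
    exact ⟨Units.mk0 y hy0, Units.ext (by push_cast; exact e1)⟩
  have E1 := (hEAB p (D ≃ₐ[kk A B] D) Fr Dˣ χ).1 (U κ hκ) g hgχ R2
  obtain ⟨y, hy⟩ := (hEAB p (D ≃ₐ[kk A B] D) Fr Dˣ χ).2 (U θ hθ) (U θ'' hθ'') (U κ hκ) τφ hχφ R1
    P1 E1 t
  refine ⟨(y : D), ?_⟩
  have h1 : ((y : D) ^ p) = ((EtT p χ t (fun τ => (U θ hθ τ / U θ'' hθ'' τ) ^ (p - 1)) : Dˣ) : D) := by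
    rw [← hy]; push_cast; rfl
  rw [h1]
  unfold EtT
  rw [Units.coe_prod]
  push_cast
  refine Finset.prod_congr (by congr) fun τ _ => ?_
  have e : cWt h ((∏ c ∈ Finset.Icc 1 (p - 1), γ c θ) / θ'' ^ (p - 1)) τ =
      (cWt h θ τ / cWt h θ'' τ) ^ (p - 1) := by
    rw [div_eq_mul_inv, mul _ _ hprod0 (inv_ne_zero (pow_ne_zero _ hθ'')),
      inv _ (pow_ne_zero _ hθ''), pw _ hθ'', prd', div_pow, div_eq_mul_inv]
  rw [e]
  push_cast
  rw [hU θ hθ τ, hU θ'' hθ'' τ]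

end CRA

end

end Pool.Agent.TWT


end

section

/-!
# TWT_SDE: from the logarithmic derivatives to `ee`
-/

set_option autoImplicit false

open WeierstrassCurve Polynomial NumberField IsDedekindDomain

namespace Pool.Agent.TWT

open _root_.MU3 Pool.Agent.MU3A Pool.Agent.MU3B Pool.Agent.MU3C Pool.Agent.RI Pool.Agent.RID
open Pool.Agent.MUX Pool.Agent.MUXU Pool.Agent.MUXW
open Pool.Agent.MU3V (cls Sub GD algDF)
open Pool.Agent.MUXV (GR InK tX)
open Pool.Agent.MUXI (IA RE AR)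

noncomputable section

namespace SDE

variable {A B : ℤ}

lemma nat_dvd_iff (n : ℕ) (x : OO A B) :
    ((n : ℕ) : OO A B) ∣ x ↔ (n : ℤ) ∣ x.re ∧ (n : ℤ) ∣ x.im := by
  constructor
  · rintro ⟨t, rfl⟩
    refine ⟨⟨t.re, ?_⟩, ⟨t.im, ?_⟩⟩
    · rw [QuadraticAlgebra.re_mul]; simp
    · rw [QuadraticAlgebra.im_mul]; simp
  · rintro ⟨⟨s, hs⟩, ⟨t, ht⟩⟩
    refine ⟨⟨s, t⟩, ?_⟩
    apply QuadraticAlgebra.ext
    · rw [QuadraticAlgebra.re_mul]; simp [hs]
    · rw [QuadraticAlgebra.im_mul]; simp [ht]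

lemma mk_eq_iff (m x y : OO A B) :
    Ideal.Quotient.mk (Ideal.span {m}) x = Ideal.Quotient.mk (Ideal.span {m}) y ↔ m ∣ x - y := by
  rw [Ideal.Quotient.eq, Ideal.mem_span_singleton]

lemma finR (n : ℕ) (hn : n ≠ 0) : Finite (OO A B ⧸ Ideal.span {((n : ℕ) : OO A B)}) := by
  have : NeZero n := ⟨hn⟩
  refine Finite.of_injective (fun q : OO A B ⧸ Ideal.span {((n : ℕ) : OO A B)} =>
    (((Quotient.out q).re : ZMod n), ((Quotient.out q).im : ZMod n))) ?_
  intro q q' h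
  simp only [Prod.mk.injEq] at h
  rw [← Ideal.Quotient.mk_out q, ← Ideal.Quotient.mk_out q', mk_eq_iff, nat_dvd_iff]
  refine ⟨?_, ?_⟩
  · rw [QuadraticAlgebra.re_sub, ← ZMod.intCast_zmod_eq_zero_iff_dvd, Int.cast_sub, sub_eq_zero]
    exact h.1
  · rw [QuadraticAlgebra.im_sub, ← ZMod.intCast_zmod_eq_zero_iff_dvd, Int.cast_sub, sub_eq_zero]
    exact h.2

lemma sumMod_mul {m a : OO A B} (ha : IsCoprime a m) {F : OO A B → ℂ}
    (hF : ∀ x y, x - y ∈ Ideal.span {m} → F x = F y) :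
    sumMod m (fun x => F (a * x)) = sumMod m F := by
  obtain ⟨u, v, huv⟩ := ha
  have h1 : Ideal.Quotient.mk (Ideal.span {m}) a * Ideal.Quotient.mk (Ideal.span {m}) u = 1 := by
    rw [← map_mul, ← map_one (Ideal.Quotient.mk (Ideal.span {m})), Ideal.Quotient.eq,
      Ideal.mem_span_singleton]
    exact ⟨-v, by linear_combination huv⟩
  let e : (OO A B ⧸ Ideal.span {m}) ≃ (OO A B ⧸ Ideal.span {m}) :=
    (Units.mkOfMulEqOne _ _ h1).mulLeft
  unfold sumMod
  rw [← finsum_comp_equiv (f := fun q : OO A B ⧸ Ideal.span {m} => F (Quotient.out q)) e]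
  refine finsum_congr fun q => ?_
  refine hF _ _ ?_
  rw [← Ideal.Quotient.eq, map_mul, Ideal.Quotient.mk_out]
  have h2 : Ideal.Quotient.mk (Ideal.span {m}) (Quotient.out (e q)) = e q :=
    Ideal.Quotient.mk_out _
  rw [h2]
  rfl

lemma sumMod_sub {m : OO A B} (_ : Finite (OO A B ⧸ Ideal.span {m})) (F F' : OO A B → ℂ) :
    sumMod m (fun x => F x - F' x) = sumMod m F - sumMod m F' := by
  unfold sumMod
  exact finsum_sub_distrib (Set.toFinite _) (Set.toFinite _)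

lemma sumMod_cmul {m : OO A B} (c : ℂ) (F : OO A B → ℂ) :
    sumMod m (fun x => c * F x) = c * sumMod m F := by
  unfold sumMod
  exact (mul_finsum _ _).symm

lemma nm_per (N : ℕ) {x y : OO A B} (h : x - y ∈ idl (A := A) (B := B) N) :
    (N : ℤ) ∣ nm x - nm y := by
  rw [Ideal.mem_span_singleton, nat_dvd_iff, QuadraticAlgebra.re_sub, QuadraticAlgebra.im_sub] at h
  obtain ⟨⟨s, hs⟩, ⟨t, ht⟩⟩ := h
  have h1 : x.re = y.re + N * s := by linarith
  have h2 : x.im = y.im + N * t := by linarith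
  refine ⟨2 * y.re * s + N * s ^ 2 + B * (y.re * t + s * y.im + N * s * t) -
    A * (2 * y.im * t + N * t ^ 2), ?_⟩
  unfold nm
  rw [h1, h2]
  ring

lemma nm_nat_mul (a : ℕ) (x : OO A B) : nm ((a : OO A B) * x) = (a : ℤ) ^ 2 * nm x := by
  unfold nm
  rw [QuadraticAlgebra.re_mul, QuadraticAlgebra.im_mul]
  simp
  ring

lemma nm_nat (a : ℕ) : nm ((a : OO A B)) = (a : ℤ) ^ 2 := by
  unfold nm
  simp

lemma nI_top : nI (⊤ : Ideal (OO A B)) = 1 := by
  unfold nI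
  have : Subsingleton (OO A B ⧸ (⊤ : Ideal (OO A B))) := Ideal.Quotient.subsingleton_iff.2 rfl
  exact Nat.card_unique

/-- a root of unity has valuation one -/
lemma val_root (V : ValuationSubring ℂ) {x : ℂ} {r : ℕ} (hr : r ≠ 0) (h : x ^ r = 1) :
    V.valuation x = 1 := by
  have h1 : V.valuation x ^ r = 1 := by rw [← map_pow, h, map_one]
  exact (pow_eq_one_iff.1 h1).resolve_right hr

end SDE

open _root_.Pool.Agent.TWT.SDE in
theorem t_SDE (h1 : S_IDP) (h2 : S_VPG) : S_SDE := by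
  intro p A B P V f hS ι _ R w hw kp eta hC l N hl hlf ψ a ha1 hac hunit
  obtain ⟨-, id2, -⟩ := h1 p A B P V f hS
  obtain ⟨vp, -⟩ := h2 p A B P V f hS
  have hcq := hS.cq
  set M : ℕ := f * l ^ N * p with hM
  have hM0 : M ≠ 0 := mul_ne_zero (mul_ne_zero hS.f0 (pow_ne_zero _ hl.ne_zero)) hS.pp.ne_zero
  -- coprimality
  have haf : a.Coprime f := Nat.Coprime.coprime_dvd_right ⟨6 * p, by ring⟩ hac
  have hap : a.Coprime p := Nat.Coprime.coprime_dvd_right ⟨6 * f, by ring⟩ hac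
  have hal : a.Coprime l := Nat.Coprime.coprime_dvd_right hlf haf
  have haM : a.Coprime M := by
    rw [hM]
    exact Nat.Coprime.mul_right (Nat.Coprime.mul_right haf (Nat.Coprime.pow_right _ hal)) hap
  have hcO : ∀ b : ℕ, a.Coprime b → IsCoprime ((a : ℕ) : OO A B) ((b : ℕ) : OO A B) := by
    intro b hb
    have h5 := (Nat.isCoprime_iff_coprime.2 hb).map (Int.castRingHom (OO A B))
    simpa using h5
  have haP : ((a : ℕ) : OO A B) ∉ P := by
    intro h
    have h3 := (id2 (a : ℤ)).1 (by simpa using h)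
    have h4 : p ∣ a := by exact_mod_cast h3
    have h5 : p ∣ 1 := by
      rw [← hap.gcd_eq_one]
      exact Nat.dvd_gcd h4 dvd_rfl
    exact hS.pp.one_lt.ne' (Nat.dvd_one.1 h5)
  have hwa : w (a : OO A B) ≠ 0 := fun h => haP ((hw.zero _).1 h)
  have hpM : ((M : ℕ) : OO A B) ∈ P := by
    rw [hM, Nat.cast_mul]
    exact P.mul_mem_left _ hS.hP.mem
  have hMP : ∀ x : OO A B, x ∈ idl (A := A) (B := B) M → x ∈ P := by
    intro x hx
    obtain ⟨t, rfl⟩ := Ideal.mem_span_singleton.1 hx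
    exact P.mul_mem_right _ hpM
  have hMs : ∀ x : OO A B, x ∈ idl (A := A) (B := B) M → star x ∈ P := by
    intro x hx
    obtain ⟨t, rfl⟩ := Ideal.mem_span_singleton.1 hx
    rw [star_mul', star_natCast]
    exact P.mul_mem_right _ hpM
  have hMf : ∀ x : OO A B, x ∈ idl (A := A) (B := B) M → x ∈ idl (A := A) (B := B) f := by
    intro x hx
    obtain ⟨t, rfl⟩ := Ideal.mem_span_singleton.1 hx
    rw [Ideal.mem_span_singleton]
    refine Dvd.dvd.mul_right ?_ _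
    exact Nat.cast_dvd_cast ⟨l ^ N * p, by rw [hM]; ring⟩
  have hMl : ∀ x : OO A B, x ∈ idl (A := A) (B := B) M → x ∈ idl (A := A) (B := B) (l ^ N) := by
    intro x hx
    obtain ⟨t, rfl⟩ := Ideal.mem_span_singleton.1 hx
    rw [Ideal.mem_span_singleton]
    refine Dvd.dvd.mul_right ?_ _
    exact Nat.cast_dvd_cast ⟨f * p, by rw [hM]; ring⟩
  -- the character
  have hth : ∀ (i : ι) (x : OO A B), thT R kp eta ψ i ((a : OO A B) * x) =
      thT R kp eta ψ R.i0 (a : OO A B) * thT R kp eta ψ i x := by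
    intro i x
    unfold thT
    rw [hC.mul, hC.kp0, R.b0, nI_top, nm_nat_mul, nm_nat]
    have e1 : (((a : ℤ) ^ 2 * nm x * (nI (R.b i) : ℤ) : ℤ) : ZMod (l ^ N)) =
        (((a : ℤ) ^ 2 * ((1 : ℕ) : ℤ) : ℤ) : ZMod (l ^ N)) *
          ((nm x * (nI (R.b i) : ℤ) : ℤ) : ZMod (l ^ N)) := by
      push_cast
      ring
    rw [e1, map_mul]
    ring
  have hone : ∀ x : OO A B, oneT w ((a : OO A B) * x) = oneT w x := by
    intro x
    unfold oneT
    rw [star_mul', star_natCast, hw.mul, mul_inv]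
    field_simp
  have hth_per : ∀ (i : ι) (x y : OO A B), x - y ∈ idl (A := A) (B := B) M →
      thT R kp eta ψ i x = thT R kp eta ψ i y := by
    intro i x y hxy
    unfold thT
    rw [hC.per x y (hMf _ hxy)]
    have h3 := nm_per (l ^ N) (hMl _ hxy)
    have h4 : ((nm x * (nI (R.b i) : ℤ) : ℤ) : ZMod (l ^ N)) =
        ((nm y * (nI (R.b i) : ℤ) : ℤ) : ZMod (l ^ N)) := by
      rw [← sub_eq_zero, ← Int.cast_sub, ZMod.intCast_zmod_eq_zero_iff_dvd, ← sub_mul]
      exact h3.mul_right _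
    rw [h4]
  have hone_per : ∀ x y : OO A B, x - y ∈ idl (A := A) (B := B) M → oneT w x = oneT w y := by
    intro x y hxy
    unfold oneT
    rw [hw.per (star x) (star y) (by rw [← star_sub]; exact hMs _ hxy)]
  set c0 : ℂ := thT R kp eta ψ R.i0 (a : OO A B) with hc0
  -- `c0` has valuation one
  have hv0 : V.valuation c0 = 1 := by
    rw [hc0]
    unfold thT
    rw [hC.kp0, one_mul, map_mul]
    obtain ⟨r, hr, -, hr2⟩ := hC.fin
    have hr0 : r ≠ 0 := fun h => hr (h ▸ dvd_zero p)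
    have he : eta (a : OO A B) ≠ 0 := by
      rw [hC.supp, Ideal.isCoprime_span_singleton_iff]
      exact hcO f haf
    rw [val_root V hr0 (hr2 _ he), one_mul, R.b0, nI_top, nm_nat]
    have hu : IsUnit ((((a : ℤ) ^ 2 * ((1 : ℕ) : ℤ) : ℤ)) : ZMod (l ^ N)) := by
      have h5 : ((((a : ℤ) ^ 2 * ((1 : ℕ) : ℤ) : ℤ)) : ZMod (l ^ N)) =
          ((a : ℕ) : ZMod (l ^ N)) ^ 2 := by push_cast; ring
      rw [h5]
      exact ((ZMod.isUnit_iff_coprime a (l ^ N)).2 (Nat.Coprime.pow_right _ hal)).pow 2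
    obtain ⟨u, hu⟩ := hu
    rw [← hu]
    have : NeZero (l ^ N) := ⟨pow_ne_zero _ hl.ne_zero⟩
    refine val_root V (r := Fintype.card (ZMod (l ^ N))ˣ) Fintype.card_ne_zero ?_
    rw [← map_pow, ← Units.val_pow_eq_pow_val, pow_card_eq_one, Units.val_one, map_one]
  have hc00 : c0 ≠ 0 := by
    intro h
    rw [h, map_zero] at hv0
    exact zero_ne_one hv0
  -- valuation of `w a`
  have hvw : V.valuation (w (a : OO A B)) = 1 :=
    val_root V (Nat.sub_ne_zero_of_lt hS.pp.one_lt) (hw.root _ haP)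
  have hint : V.valuation ((a : ℂ) - w (a : OO A B)) < 1 := by
    have h3 := hw.int (a : ℤ)
    rw [Valuation.map_sub_swap]
    refine lt_of_le_of_lt ?_ vp
    simpa using h3
  have hq : V.valuation ((a : ℂ) / w (a : OO A B) - 1) < 1 := by
    rw [show (a : ℂ) / w (a : OO A B) - 1 = ((a : ℂ) - w (a : OO A B)) / w (a : OO A B) by
      field_simp, map_div₀, hvw, div_one]
    exact hint
  -- the sums
  have hfin := finR (A := A) (B := B) M hM0
  have key : ∀ i : ι, sumMod ((M : ℕ) : OO A B) (fun x =>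
      thT R kp eta ψ i x * oneT w x * w x * dlX (R.L i) a (pt R M i x)) =
      ((a : ℂ) * (c0 * w (a : OO A B))⁻¹ - (a : ℂ) ^ 2) * sumMod ((M : ℕ) : OO A B) (fun x =>
      thT R kp eta ψ i x * oneT w x * w x * ee (R.L i) (pt R M i x)) := by
    intro i
    obtain ⟨ptp1, ptp2⟩ := Pool.Agent.MUXI.ti_PTP A B hcq (p * f) ι R M hM0 i
    set G : OO A B → ℂ := fun x =>
      thT R kp eta ψ i x * oneT w x * w x * ee (R.L i) (pt R M i x) with hG
    have hGp : ∀ x y, x - y ∈ Ideal.span {((M : ℕ) : OO A B)} → G x = G y := by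
      intro x y hxy
      simp only [hG]
      rw [hth_per i x y hxy, hone_per x y hxy, hw.per x y (hMP _ hxy), (ptp1 x y hxy).2.1]
    have e1 := sumMod_mul (hcO M haM) hGp
    have e2 : sumMod ((M : ℕ) : OO A B) (fun x =>
        thT R kp eta ψ i x * oneT w x * w x * dlX (R.L i) a (pt R M i x)) =
        (a : ℂ) * (c0 * w (a : OO A B))⁻¹ *
          sumMod ((M : ℕ) : OO A B) (fun x => G (((a : ℕ) : OO A B) * x)) -
        (a : ℂ) ^ 2 * sumMod ((M : ℕ) : OO A B) G := by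
      rw [← sumMod_cmul, ← sumMod_cmul, ← sumMod_sub hfin]
      congr 1
      funext x
      simp only [hG]
      rw [hth, hone, hw.mul, ← ptp2]
      unfold dlX
      field_simp
    rw [e2, e1]
    ring
  have hSDT : SDT R M a (thT R kp eta ψ) w =
      ((a : ℂ) * (c0 * w (a : OO A B))⁻¹ - (a : ℂ) ^ 2) * SST R M (thT R kp eta ψ) w := by
    unfold SDT SST
    rw [Finset.mul_sum]
    refine Finset.sum_congr rfl fun i _ => ?_
    rw [key i]
    ring
  have hfac : (a : ℂ) * (c0 * w (a : OO A B))⁻¹ - (a : ℂ) ^ 2 =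
      c0⁻¹ * (((a : ℂ) / w (a : OO A B) - 1) + (1 - (a : ℂ) ^ 2 * c0)) := by
    field_simp
    ring
  have hvf : V.valuation ((a : ℂ) * (c0 * w (a : OO A B))⁻¹ - (a : ℂ) ^ 2) = 1 := by
    rw [hfac, map_mul, map_inv₀, hv0, inv_one, one_mul, Valuation.map_add_eq_of_lt_right]
    · exact hunit
    · rw [hunit]
      exact hq
  rw [hSDT, map_mul, hvf, one_mul]

end

end Pool.Agent.TWT


end

section

/-!
# TWT: the unit theorem for all large `n` (helper59)
-/

set_option autoImplicit false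

open WeierstrassCurve Polynomial NumberField IsDedekindDomain

namespace Pool.Agent.TWT

open _root_.MU3 Pool.Agent.MU3A Pool.Agent.MU3B Pool.Agent.MU3C Pool.Agent.RI Pool.Agent.RID
open Pool.Agent.MUX Pool.Agent.MUXU Pool.Agent.MUXW
open Pool.Agent.MU3V (cls Sub GD algDF)
open Pool.Agent.MUXV (GR InK tX)
open OnePoint

noncomputable section

namespace UNITA

/-- `K B_(n+1) ∩ RF ⊤ ≤ K B_n` for large `n` -/
theorem stab {A B : ℤ} (hT : TorX A B) (K : IntermediateField ℚ ℂ) (hk : kk A B ≤ K)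
    (Bn : ℕ → IntermediateField ℚ ℂ) (hB : Monotone Bn) :
    ∃ n0 : ℕ, ∀ n, n0 ≤ n → ∀ x : ℂ, x ∈ K ⊔ Bn (n + 1) →
      x ∈ (RF (⊤ : Ideal (OO A B)) : IntermediateField (kk A B) ℂ) → x ∈ K ⊔ Bn n := by
  haveI : FiniteDimensional (kk A B) (RF (⊤ : Ideal (OO A B)) : IntermediateField (kk A B) ℂ) :=
    hT.fin ⊤ (by
      intro h
      have h1 : (1 : OO A B) ∈ (⊥ : Ideal (OO A B)) := h ▸ Submodule.mem_top
      exact one_ne_zero ((Submodule.mem_bot _).1 h1))
  let g : ℕ →o Submodule (kk A B) (RF (⊤ : Ideal (OO A B)) : IntermediateField (kk A B) ℂ) :=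
    { toFun := fun n =>
        { carrier := {x | (x : ℂ) ∈ K ⊔ Bn n}
          add_mem' := fun {x y} hx hy => by
            simp only [Set.mem_ofPred_eq] at hx hy ⊢
            push_cast
            exact add_mem hx hy
          zero_mem' := by
            simp only [Set.mem_ofPred_eq]
            exact zero_mem _
          smul_mem' := fun c x hx => by
            simp only [Set.mem_ofPred_eq] at hx ⊢
            have h1 : ((c • x : (RF (⊤ : Ideal (OO A B)) : IntermediateField (kk A B) ℂ)) : ℂ) =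
                (c : ℂ) * (x : ℂ) := by
              rw [IntermediateField.coe_smul]
              rfl
            rw [h1]
            exact mul_mem ((le_sup_left : K ≤ K ⊔ Bn n) (hk c.2)) hx }
      monotone' := fun m n hmn x hx => by
        exact (sup_le_sup_left (hB hmn) K) hx }
  obtain ⟨n0, hn0⟩ := monotone_stabilizes_iff_noetherian.2 inferInstance g
  refine ⟨n0, fun n hn x hx hx' => ?_⟩
  have h1 : (⟨x, hx'⟩ : (RF (⊤ : Ideal (OO A B)) : IntermediateField (kk A B) ℂ)) ∈ g (n + 1) := hx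
  rw [← hn0 (n + 1) (hn.trans (Nat.le_succ n)), hn0 n hn] at h1
  exact h1

theorem nI_top {A B : ℤ} : nI (⊤ : Ideal (OO A B)) = 1 := by
  have hs : Subsingleton (OO A B ⧸ (⊤ : Ideal (OO A B))) := Ideal.Quotient.subsingleton_iff.2 rfl
  show Nat.card (OO A B ⧸ (⊤ : Ideal (OO A B))) = 1
  exact Nat.card_eq_one_iff_unique.2 ⟨hs, ⟨0⟩⟩

/-- the value of `thT` at `(i0, x)` -/
theorem th0 {A B : ℤ} {n : ℕ} {ι : Type} (R : Reps A B n ι) {p f : ℕ} {kp : ι → ℂ}
    {eta : OO A B → ℂ} (hC : ChD p f R kp eta) {q : ℕ} (ψ : DirichletCharacter ℂ q)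
    (x : OO A B) (m : ℤ) (hm : nm x = m) :
    thT R kp eta ψ R.i0 x = eta x * ψ (m : ZMod q) := by
  unfold thT
  rw [hC.kp0, R.b0, nI_top, hm]
  push_cast
  rw [one_mul, mul_one]

variable {p : ℕ} {A B : ℤ} {P : Ideal (OO A B)} {V : ValuationSubring ℂ} {f : ℕ}

theorem P_ne_bot (hS : SetG p A B P V f) : P ≠ ⊥ := by
  intro h
  have h1 := hS.hP.mem
  rw [h] at h1
  exact natCast_ne_zero' hS.cq hS.pp.ne_zero ((Submodule.mem_bot _).1 h1)

theorem v_p_lt (hS : SetG p A B P V f) : V.valuation (p : ℂ) < 1 := by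
  have h1 := (hS.hV ((p : ℕ) : OO A B)).2 hS.hP.mem
  rw [emb_natCast hS.cq] at h1
  exact (ValuationSubring.mem_nonunits_iff V).1 h1

theorem powP (hS : SetG p A B P V f) {n : ℕ} {ι : Type} [Fintype ι] (R : Reps A B n ι) :
    ∃ (r : ℕ) (y : OO A B), 1 ≤ r ∧ P ^ r = sp y ∧ nm y = (p : ℤ) ^ r := by
  obtain ⟨r, y, hr, hy⟩ := Pool.Agent.MUXHY.ty_CLN MUXF.tx_ALG
    (MUXF.tx_NIM MUXF.tx_ALG (MUXF.tx_IDL MUXF.tx_ALG)) A B hS.cq n ι inferInstance R P
    (P_ne_bot hS)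
  refine ⟨r, y, hr, hy, ?_⟩
  have hpw : ∀ k : ℕ, P ^ k ≠ ⊥ ∧ nI (P ^ k) = p ^ k := by
    intro k
    induction k with
    | zero =>
      rw [pow_zero, pow_zero, Ideal.one_eq_top]
      refine ⟨?_, nI_top⟩
      intro h
      have h1 : (1 : OO A B) ∈ (⊥ : Ideal (OO A B)) := h ▸ Submodule.mem_top
      exact one_ne_zero ((Submodule.mem_bot _).1 h1)
    | succ k ih =>
      rw [pow_succ, pow_succ]
      exact ⟨mul_ne_bot hS.cq ih.1 (P_ne_bot hS), by
        rw [nI_mul hS.cq ih.1 (P_ne_bot hS), ih.2, hS.hP.norm]⟩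
  have hy0 : y ≠ 0 := by
    rintro rfl
    have h1 := (hpw r).1
    rw [hy] at h1
    exact h1 (by rw [Ideal.span_singleton_eq_bot])
  have h1 := (hpw r).2
  rw [hy, nI_sp hS.cq hy0] at h1
  have h2 := nm_nonneg hS.cq y
  have h3 : ((nm y).natAbs : ℤ) = (p : ℤ) ^ r := by rw [h1]; push_cast; rfl
  rw [Int.natAbs_of_nonneg h2] at h3
  exact h3

theorem eta_root {n : ℕ} {ι : Type} {R : Reps A B n ι} {kp : ι → ℂ} {eta : OO A B → ℂ}
    (hC : ChD p f R kp eta) : ∃ r : ℕ, ¬ p ∣ r ∧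
      ∀ x, IsCoprime (sp x) (idl f : Ideal (OO A B)) → eta x ^ r = 1 := by
  obtain ⟨r, hr, -, h⟩ := hC.fin
  exact ⟨r, hr, fun x hx => h x ((hC.supp x).2 hx)⟩

/-- the factor at `a` -/
theorem fac_a (hS : SetG p A B P V f) {n : ℕ} {ι : Type} (R : Reps A B n ι) {kp : ι → ℂ}
    {eta : OO A B → ℂ} (hC : ChD p f R kp eta) (l : ℕ) (hl : l.Prime) (hpl : p ≠ l)
    (hpl1 : ¬ p ∣ l - 1) (hlf : l ∣ f) (a : ℕ) (ha1 : 1 < a) (hac : a.Coprime (6 * f * p)) :
    ∃ M₀ : ℕ, ∀ M, M₀ ≤ M → ∀ ψ : DirichletCharacter ℂ (l ^ M),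
      ψ (1 + (l : ZMod (l ^ M)) ^ (M - 1)) ≠ 1 →
      V.valuation (1 - (a : ℂ) ^ 2 * thT R kp eta ψ R.i0 (a : OO A B)) = 1 := by
  obtain ⟨r, hr, hη⟩ := eta_root hC
  have hv := v_p_lt hS
  have haf : a.Coprime f := Nat.Coprime.coprime_dvd_right ⟨6 * p, by ring⟩ hac
  have hap : a.Coprime p := Nat.Coprime.coprime_dvd_right ⟨6 * f, by ring⟩ hac
  have hal : a.Coprime l := Nat.Coprime.coprime_dvd_right hlf haf
  have hla : ¬ (l : ℤ) ∣ (a : ℤ) := by
    intro h
    have h1 : l ∣ a := by exact_mod_cast h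
    have h2 := Nat.dvd_gcd h1 (dvd_refl l)
    rw [hal] at h2
    exact hl.one_lt.ne' (Nat.dvd_one.1 h2)
  have ha2 : (a : ℤ) ^ 2 ≠ 1 := by
    intro h
    have h1 : (1 : ℤ) < a := by exact_mod_cast ha1
    nlinarith
  obtain ⟨M₀, hM⟩ := Pool.Agent.TWX.t_FAC V p hS.pp hv l hl hpl hpl1 r hr a hla ha2
  refine ⟨M₀, fun M hM0 ψ hψ => ?_⟩
  have hcop : IsCoprime (sp ((a : ℕ) : OO A B)) (idl f : Ideal (OO A B)) := by
    rw [Ideal.isCoprime_span_singleton_iff]
    exact (Nat.isCoprime_iff_coprime.2 haf).map (Int.castRingHom (OO A B)) |> fun h => by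
      simpa using h
  -- an inverse of `a²` modulo `p`
  obtain ⟨b, c, hbc⟩ : ∃ b c : ℤ, (a : ℤ) ^ 2 * b = 1 + p * c := by
    have h1 : IsCoprime ((a : ℤ) ^ 2) (p : ℤ) := (Nat.isCoprime_iff_coprime.2 hap).pow_left
    obtain ⟨u, v, huv⟩ := h1
    exact ⟨u, -v, by linear_combination huv⟩
  have hpb : ¬ (p : ℤ) ∣ b := by
    intro h
    have h1 : (p : ℤ) ∣ 1 := by
      have h2 : (1 : ℤ) = (a : ℤ) ^ 2 * b - p * c := by rw [hbc]; ring
      rw [h2]
      exact dvd_sub (h.mul_left _) (Dvd.intro _ rfl)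
    have h3 : p ∣ 1 := by exact_mod_cast h1
    exact hS.pp.one_lt.ne' (Nat.dvd_one.1 h3)
  have h1 := hM M hM0 ψ hψ (eta ((a : ℕ) : OO A B)) (hη _ hcop) b hpb
  have hth : thT R kp eta ψ R.i0 ((a : ℕ) : OO A B) =
      eta ((a : ℕ) : OO A B) * ψ ((a : ℤ) : ZMod (l ^ M)) ^ 2 := by
    rw [th0 R hC ψ _ ((a : ℤ) ^ 2) (by
      have := nm_intCast (A := A) (B := B) (a : ℤ)
      simpa using this)]
    push_cast
    rw [map_pow]
  rw [hth]
  set X : ℂ := eta ((a : ℕ) : OO A B) * ψ ((a : ℤ) : ZMod (l ^ M)) ^ 2 with hX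
  have e1 : 1 - (a : ℂ) ^ 2 * X = -((a : ℂ) ^ 2 * (X - b)) + (1 - (a : ℂ) ^ 2 * b) := by ring
  have hint : ∀ z : ℤ, V.valuation (z : ℂ) ≤ 1 := fun z =>
    (V.valuation_le_one_iff _).2 (intCast_mem V z)
  have e2 : V.valuation (1 - (a : ℂ) ^ 2 * b) < 1 := by
    have h2 : 1 - (a : ℂ) ^ 2 * b = (p : ℂ) * ((-c : ℤ) : ℂ) := by
      have : ((a : ℂ) ^ 2 * b) = 1 + p * c := by exact_mod_cast hbc
      rw [this]
      push_cast
      ring
    rw [h2, map_mul]
    calc V.valuation (p : ℂ) * V.valuation ((-c : ℤ) : ℂ) ≤ V.valuation (p : ℂ) * 1 :=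
          mul_le_mul' le_rfl (hint _)
      _ < 1 := by rw [mul_one]; exact hv
  have e3 : V.valuation ((a : ℂ) ^ 2) = 1 := by
    have h3 : V.valuation ((a : ℂ) ^ 2 * b) = 1 := by
      have h4 : (a : ℂ) ^ 2 * b = 1 - (1 - (a : ℂ) ^ 2 * b) := by ring
      rw [h4]
      exact Valuation.map_one_sub_of_lt V.valuation e2
    rw [map_mul] at h3
    have h5 : V.valuation ((a : ℂ) ^ 2) ≤ 1 := by
      have := hint ((a : ℤ) ^ 2)
      simpa using this
    refine le_antisymm h5 ?_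
    by_contra h6
    rw [not_le] at h6
    have h7 : V.valuation ((a : ℂ) ^ 2) * V.valuation (b : ℂ) < 1 :=
      calc V.valuation ((a : ℂ) ^ 2) * V.valuation (b : ℂ) ≤ V.valuation ((a : ℂ) ^ 2) * 1 :=
            mul_le_mul' le_rfl (hint b)
        _ < 1 := by rw [mul_one]; exact h6
    exact absurd h3 h7.ne
  have e4 : V.valuation (-((a : ℂ) ^ 2 * (X - b))) = 1 := by
    rw [Valuation.map_neg, map_mul, e3, h1, one_mul]
  rw [e1, ← e4]
  exact Valuation.map_add_eq_of_lt_left V.valuation (e2.trans_eq e4.symm)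

/-- the factor at `P` -/
theorem fac_P (hS : SetG p A B P V f) {n : ℕ} {ι : Type} (R : Reps A B n ι)
    {kp : ι → ℂ} {eta : OO A B → ℂ} (hC : ChD p f R kp eta) (l : ℕ) (hl : l.Prime) (hpl : p ≠ l)
    (hpl1 : ¬ p ∣ l - 1) (r : ℕ) (y : OO A B) (hr : 1 ≤ r) (hy : P ^ r = sp y)
    (hny : nm y = (p : ℤ) ^ r) :
    ∃ M₀ : ℕ, ∀ M, M₀ ≤ M → ∀ ψ : DirichletCharacter ℂ (l ^ M),
      ψ (1 + (l : ZMod (l ^ M)) ^ (M - 1)) ≠ 1 →
      V.valuation (1 - thT R kp eta ψ R.i0 y) = 1 := by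
  obtain ⟨e, he, hη⟩ := eta_root hC
  have hv := v_p_lt hS
  have hlp : ¬ (l : ℤ) ∣ (p : ℤ) ^ r := by
    intro h
    have h1 : l ∣ p ^ r := by exact_mod_cast h
    exact hpl ((Nat.prime_dvd_prime_iff_eq hl hS.pp).1 (hl.dvd_of_dvd_pow h1)).symm
  have hp2 : ((p : ℤ) ^ r) ^ 2 ≠ 1 := by
    intro h
    have h1 : (p ^ r) ^ 2 = 1 := by exact_mod_cast h
    have h2 : 1 < p ^ r := Nat.one_lt_pow (by omega) hS.pp.one_lt
    nlinarith
  obtain ⟨M₀, hM⟩ := Pool.Agent.TWX.t_FAC1 V p hS.pp hv l hl hpl hpl1 e he ((p : ℤ) ^ r) hlp hp2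
  refine ⟨M₀, fun M hM0 ψ hψ => ?_⟩
  have hcop : IsCoprime (sp y) (idl f : Ideal (OO A B)) := by
    rw [← hy]
    refine IsCoprime.pow_left ?_
    have h1 : IsCoprime ((p : ℕ) : OO A B) ((f : ℕ) : OO A B) := by
      have h2 : Nat.Coprime p f := (Nat.Prime.coprime_iff_not_dvd hS.pp).2 hS.fp
      exact (Nat.isCoprime_iff_coprime.2 h2).map (Int.castRingHom (OO A B)) |> fun h => by
        simpa using h
    obtain ⟨u, v, huv⟩ := h1
    rw [Ideal.isCoprime_iff_exists]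
    exact ⟨u * (p : ℕ), Ideal.mul_mem_left _ _ hS.hP.mem, v * (f : ℕ),
      Ideal.mul_mem_left _ _ (Ideal.mem_span_singleton_self _), huv⟩
  have h1 := hM M hM0 ψ hψ (eta y) (hη _ hcop) 1 (by
    intro h
    have h3 : p ∣ 1 := by exact_mod_cast h
    exact hS.pp.one_lt.ne' (Nat.dvd_one.1 h3))
  rw [th0 R hC ψ y _ hny, ← h1, Valuation.map_sub_swap]
  push_cast
  rfl

/-- a bound over a finite family -/
theorem bound {J : Type} [Finite J] (M : J → ℕ) : ∃ b : ℕ, ∀ j, M j ≤ b := by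
  obtain ⟨b, hb⟩ := (Set.finite_range M).bddAbove
  exact ⟨b, fun j => hb ⟨j, rfl⟩⟩

end UNITA

open Pool.Agent.TWR _root_.Pool.Agent.TWT.UNITA in
/-- the unit theorem for all large `n` -/
theorem t_UNITA (hSYM : S_SYMA) (hCRIT : S_CRIT) (hFACT : S_FACT) : S_UNITA := by
  intro l g h hgen p _ A B P V f hS hlf hT ι _ R hG K _ _ hkK hK Bn _ hLay hMon hRF a ha1 hac H hH
  have hl : l.Prime := by
    rcases hgen with ⟨rfl, -, -⟩ | ⟨rfl, -, -⟩
    · exact Nat.prime_three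
    · exact Nat.prime_two
  have hh : 1 ≤ h := by
    rcases hgen with ⟨-, -, rfl⟩ | ⟨-, -, rfl⟩ <;> norm_num
  have hl1 : l - 1 = 1 ∨ l - 1 = 2 := by
    rcases hgen with ⟨rfl, -, -⟩ | ⟨rfl, -, -⟩ <;> norm_num
  have hl3 : l ≤ 3 := by
    rcases hgen with ⟨rfl, -, -⟩ | ⟨rfl, -, -⟩ <;> norm_num
  have hp5 := hS.p5
  have hpl : p ≠ l := by omega
  have hpl1 : ¬ p ∣ l - 1 := by
    intro hd
    have := Nat.le_of_dvd (by omega) hd
    omega
  have hlf' : l ∣ f := (dvd_pow_self l (by omega)).trans hlf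
  obtain ⟨J, hJ, kp, eta, hCh, hF⟩ := hFACT l g h hgen p A B P V f hS hlf hT ι R K hkK hK Bn hLay
    hMon
  obtain ⟨w, hw⟩ := Pool.Agent.TWB.t_TEI p A B P V hS.cq hS.pp (by omega) hS.hP hS.hV
  obtain ⟨n1, hn1⟩ := hSYM l g h hgen p A B P V f hS hlf' hT ι R hG w hw J kp eta hCh
  obtain ⟨n2, hn2⟩ := stab hT K hkK Bn hMon
  obtain ⟨r, y, hr, hy, hny⟩ := powP hS R
  choose M1 hM1 using fun j => fac_a hS R (hCh j) l hl hpl hpl1 hlf' a ha1 hac
  choose M2 hM2 using fun j => fac_P hS R (hCh j) l hl hpl hpl1 r y hr hy hny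
  obtain ⟨b1, hb1⟩ := bound M1
  obtain ⟨b2, hb2⟩ := bound M2
  refine ⟨max (max n1 n2) (max b1 b2), fun n hn θ hθ h0 => ?_⟩
  have hnn1 : n1 ≤ n := ((le_max_left _ _).trans (le_max_left _ _)).trans hn
  have hnn2 : n2 ≤ n := ((le_max_right _ _).trans (le_max_left _ _)).trans hn
  have hnb1 : b1 ≤ n := ((le_max_left _ _).trans (le_max_right _ _)).trans hn
  have hnb2 : b2 ≤ n := ((le_max_right _ _).trans (le_max_right _ _)).trans hn
  let _ := algC h0
  intro c₀ hc₀ χ hχ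
  obtain ⟨j, ψ, hψ1, hψ2, hval⟩ := hF n h0 χ hχ
  obtain ⟨γ, hγ1, hγχ⟩ := hχ
  refine hCRIT p A B P V f hS hT ι R hG w hw (kp j) (eta j) (hCh j) l (n + 1 + h) hl hlf' ψ hψ1 a
    ha1 hac (hM1 j (n + 1 + h) (by have := hb1 j; omega) ψ hψ2)
    ⟨r, y, hy, hM2 j (n + 1 + h) (by have := hb2 j; omega) ψ hψ2⟩ H hH θ hθ (K ⊔ Bn (n + 1)) h0
    (hRF (n + 1)) χ hval ⟨γ, fun x hx => hγ1 x (hn2 n hnn2 x x.2 hx), hγχ⟩ c₀ hc₀
    (hn1 (n + 1 + h) (by omega) j ψ hψ1 hψ2)

end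

end Pool.Agent.TWT


end

section

/-!
# TWT, block B, module VPG: the valuation
-/

set_option autoImplicit false

open WeierstrassCurve Polynomial NumberField IsDedekindDomain

namespace Pool.Agent.TWT

open _root_.MU3 Pool.Agent.MU3A Pool.Agent.MU3B Pool.Agent.MU3C Pool.Agent.RI Pool.Agent.RID
open Pool.Agent.MUX Pool.Agent.MUXU Pool.Agent.MUXW
open Pool.Agent.MUXV (GR InK tX)

noncomputable section

namespace VPG

variable {A B : ℤ}

lemma cqF (h : CQ A B) : MUXF.CQ A B := ⟨h.hB, h.neg, h.fund1, h.fund0⟩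

lemma sq_eq (x : OO A B) :
    x * x = ((2 * x.re + B * x.im : ℤ) : OO A B) * x - ((nm x : ℤ) : OO A B) := by
  have key : ∀ t n : ℤ, t = 2 * x.re + B * x.im → n = nm x →
      x * x = (t : OO A B) * x - (n : OO A B) := by
    intro t n ht hn
    unfold nm at hn
    apply QuadraticAlgebra.ext
    · simp only [QuadraticAlgebra.re_mul, QuadraticAlgebra.re_sub, QuadraticAlgebra.re_intCast,
        QuadraticAlgebra.im_intCast, Int.cast_id]
      rw [ht, hn]
      ring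
    · simp only [QuadraticAlgebra.im_mul, QuadraticAlgebra.im_sub, QuadraticAlgebra.re_intCast,
        QuadraticAlgebra.im_intCast, Int.cast_id]
      rw [ht]
      ring
  exact key _ _ rfl rfl

lemma val_le (h : CQ A B) (V : ValuationSubring ℂ) (x : OO A B) : V.valuation (emb x) ≤ 1 := by
  obtain ⟨hmul, -, hsub, hint, -⟩ := Pool.Agent.MUXV.q_EMB A B (cqF h)
  rw [ValuationSubring.valuation_le_one_iff]
  by_contra hx
  have h1 := congrArg emb (sq_eq x)
  rw [hmul, hsub, hmul, hint, hint] at h1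
  rcases V.mem_or_inv_mem (emb x) with h2 | h2
  · exact hx h2
  · have h0 : emb x ≠ 0 := by
      intro h0
      rw [h0] at hx
      exact hx V.zero_mem
    apply hx
    have h3 : emb x = ((2 * x.re + B * x.im : ℤ) : ℂ) - ((nm x : ℤ) : ℂ) * (emb x)⁻¹ := by
      field_simp
      linear_combination h1
    rw [h3]
    exact sub_mem (intCast_mem V _) (mul_mem (intCast_mem V _) h2)

lemma emb_pow (h : CQ A B) (x : OO A B) (n : ℕ) : emb (x ^ n) = emb x ^ n := by
  obtain ⟨hmul, -, -, hint, -⟩ := Pool.Agent.MUXV.q_EMB A B (cqF h)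
  induction n with
  | zero =>
    have := hint 1
    rw [Int.cast_one, Int.cast_one] at this
    rw [pow_zero, pow_zero, this]
  | succ n ih => rw [pow_succ, pow_succ, hmul, ih]

lemma pow_sub {p : ℕ} (hpp : p.Prime) {P : Ideal (OO A B)} (hP : P.IsPrime) (hn : nI P = p)
    {x : OO A B} (hx : x ∉ P) : x ^ (p - 1) - 1 ∈ P := by
  have hfin : Finite (OO A B ⧸ P) := by
    apply Nat.finite_of_card_ne_zero
    change nI P ≠ 0
    rw [hn]
    exact hpp.ne_zero
  have hmax : P.IsMaximal :=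
    Ideal.Quotient.maximal_of_isField P (Finite.isField_of_domain (OO A B ⧸ P))
  let _ := Ideal.Quotient.field P
  have : Fintype (OO A B ⧸ P) := Fintype.ofFinite _
  have hc : Fintype.card (OO A B ⧸ P) = p := by
    rw [← Nat.card_eq_fintype_card]
    exact hn
  have h0 : Ideal.Quotient.mk P x ≠ 0 := by
    rw [Ne, Ideal.Quotient.eq_zero_iff_mem]
    exact hx
  have h1 := FiniteField.pow_card_sub_one_eq_one (Ideal.Quotient.mk P x) h0
  rw [hc, ← map_pow, ← map_one (Ideal.Quotient.mk P), Ideal.Quotient.eq] at h1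
  exact h1

end VPG

open _root_.Pool.Agent.TWT.VPG in
/-- VPG -/
theorem t_VPG : S_VPG := by
  intro p A B P V f h
  obtain ⟨hmul, -, hsub, hint, hnat, hinj, -⟩ := Pool.Agent.MUXV.q_EMB A B (cqF h.cq)
  have hlt : ∀ x : OO A B, V.valuation (emb x) < 1 ↔ x ∈ P := by
    intro x
    rw [← h.hV x]
    exact (ValuationSubring.mem_nonunits_iff (A := V)).symm
  have hone : emb (1 : OO A B) = 1 := by
    have := hint 1
    rwa [Int.cast_one, Int.cast_one] at this
  have hpv : V.valuation (p : ℂ) < 1 := by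
    rw [← hnat p, hlt]
    exact h.hP.mem
  have hp0 : V.valuation (p : ℂ) ≠ 0 := by
    rw [Ne, map_eq_zero]
    exact_mod_cast h.pp.ne_zero
  have hmemn : ∀ n : ℤ, ¬ (p : ℤ) ∣ n → (n : OO A B) ∉ P := by
    intro n hn hnP
    have hco : IsCoprime (p : ℤ) n :=
      (Prime.coprime_iff_not_dvd (Nat.prime_iff_prime_int.1 h.pp)).2 hn
    obtain ⟨r, s, hrs⟩ := hco
    apply h.hP.prime.ne_top
    rw [Ideal.eq_top_iff_one]
    have h1 : ((r * (p : ℤ) + s * n : ℤ) : OO A B) ∈ P := by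
      push_cast
      exact P.add_mem (P.mul_mem_left _ h.hP.mem) (P.mul_mem_left _ hnP)
    rw [hrs, Int.cast_one] at h1
    exact h1
  have hnv : ∀ n : ℤ, ¬ (p : ℤ) ∣ n → V.valuation (n : ℂ) = 1 := by
    intro n hn
    apply le_antisymm
    · rw [ValuationSubring.valuation_le_one_iff]
      exact intCast_mem V n
    · rw [← not_lt, ← hint n, hlt]
      exact hmemn n hn
  have h2 : V.valuation (2 : ℂ) = 1 := by
    have := hnv 2 (by
      intro hd
      have := Int.le_of_dvd (by norm_num) hd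
      have := h.p5
      omega)
    exact_mod_cast this
  have h3 : V.valuation (3 : ℂ) = 1 := by
    have := hnv 3 (by
      intro hd
      have := Int.le_of_dvd (by norm_num) hd
      have := h.p5
      omega)
    exact_mod_cast this
  refine ⟨hpv, hp0, fun x => ⟨val_le h.cq V x, hlt x⟩, hnv, h2, h3, ?_⟩
  intro ι R hR i
  have hdis : V.valuation (12 * (R.L i).g₂) = 1 := by
    have h4 : 12 * (R.L i).g₂ = 1 + 1728 * MUX.kap (R.L i) := by
      unfold MUX.kap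
      ring
    rw [h4]
    exact hR.dis i
  obtain ⟨W, ξ, G⟩ := Pool.Agent.MUXV.x_NGR V (R.L i) (R.nl i).nrm h2 (hR.kap i) hdis
  refine ⟨⟨W, ξ, G⟩, ?_⟩
  intro m z hm hz hE
  refine Pool.Agent.MUXV.mem_of_nat_mul G hE (n := m) ?_ hz
  have := hnv m (by exact_mod_cast hm)
  exact_mod_cast this

end

end Pool.Agent.TWT


end

section

/-!
# TWT, block B, assembly, part 2 (helper59): the valuations
-/

set_option autoImplicit false

open WeierstrassCurve Polynomial NumberField IsDedekindDomain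

namespace Pool.Agent.TWT

open _root_.MU3 Pool.Agent.MU3A Pool.Agent.MU3B Pool.Agent.MU3C Pool.Agent.RI Pool.Agent.RID
open Pool.Agent.MUX Pool.Agent.MUXU Pool.Agent.MUXW
open Pool.Agent.MU3V (cls Sub GD algDF)
open Pool.Agent.MUXV (GR InK tX)
open Pool.Agent.MUXI (IA RE AR)
open OnePoint

noncomputable section

namespace CRB

/-- general form of `S_PRO` -/
def PROG : Prop :=
  ∀ (V : ValuationSubring ℂ) (p q : ℂ), V.valuation p < 1 → V.valuation p ^ 2 ≤ V.valuation q →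
    V.valuation q ≤ V.valuation p → ∀ (J : Type) (S : Finset J) (u e : J → ℂ) (n : J → ℕ),
    (∀ j ∈ S, V.valuation (e j) ≤ V.valuation p) →
    (∀ j ∈ S, V.valuation (u j - 1 - e j) ≤ V.valuation q) →
    V.valuation (∏ j ∈ S, u j ^ n j - 1 - ∑ j ∈ S, (n j : ℂ) * e j) ≤ V.valuation q

theorem charP_res (V : ValuationSubring ℂ) (p : ℕ) [Fact p.Prime]
    (h : V.valuation (p : ℂ) < 1) : CharP (IsLocalRing.ResidueField V) p := by
  have h1 : IsLocalRing.residue V ((p : ℕ) : V) = 0 := by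
    rw [IsLocalRing.residue_eq_zero_iff, ValuationSubring.valuation_lt_one_iff]
    simpa using h
  have h2 : ((p : ℕ) : IsLocalRing.ResidueField V) = 0 := by
    rw [← h1, map_natCast]
  exact (CharP.charP_iff_prime_eq_zero Fact.out).2 h2

theorem v_nat (V : ValuationSubring ℂ) (n : ℕ) : V.valuation (n : ℂ) ≤ 1 := by
  rw [ValuationSubring.valuation_le_one_iff]
  exact natCast_mem V n

theorem rsd_ne (V : ValuationSubring ℂ) {x : ℂ} (h : rsd V x ≠ 0) :
    ∃ hx : x ∈ V, rsd V x = IsLocalRing.residue V ⟨x, hx⟩ := by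
  unfold rsd at h ⊢
  by_cases hx : x ∈ V
  · exact ⟨hx, by rw [dif_pos hx]⟩
  · rw [dif_neg hx] at h
    exact absurd rfl h

theorem cWt_fib {A B : ℤ} {F : IntermediateField (kk A B) ℂ} {D : IntermediateField ℚ ℂ}
    (h : kk A B ≤ D) (hs : Sub D F) [Fintype (F ≃ₐ[kk A B] F)] : letI := algC h
    ∀ (ρ : (F ≃ₐ[kk A B] F) → (D ≃ₐ[kk A B] D)), (∀ σ, Ext1 h (ρ σ) σ) → ∀ (x : F)
      [DecidableEq (D ≃ₐ[kk A B] D)] (τ : D ≃ₐ[kk A B] D),
      cWt h x τ = ∏ σ ∈ Finset.univ.filter (fun σ => ρ σ = τ), ((σ x : F) : ℂ) := by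
  let _ := algC h
  intro ρ hρ x _ τ
  classical
  unfold cWt
  rw [finprod_eq_prod_of_fintype]
  symm
  refine Finset.prod_subtype (p := fun σ => Ext1 h τ σ) _ (fun σ => ?_)
    (fun σ : F ≃ₐ[kk A B] F => ((σ x : F) : ℂ))
  · rw [Finset.mem_filter]
    constructor
    · rintro ⟨_, rfl⟩
      exact hρ σ
    · intro hσ
      refine ⟨Finset.mem_univ _, ?_⟩
      apply AlgEquiv.ext
      intro y
      apply Subtype.ext
      rw [← hρ σ y (hs y y.2), ← hσ y (hs y y.2)]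

theorem partB (hUNRG : S_UNRG) (hKUM : S_KUM) (hPRO : PROG) (hRSF : S_RSF)
    (p : ℕ) [Fact p.Prime] (A B : ℤ) (P : Ideal (OO A B)) (V : ValuationSubring ℂ) (f : ℕ)
    (hS : SetG p A B P V f) (hT : TorX A B) (ι : Type) [Finite ι] (R : Reps A B (p * f) ι)
    (hG : GRd V R) (hv1 : V.valuation (p : ℂ) < 1) (hv0 : V.valuation (p : ℂ) ≠ 0)
    (m : ℕ) (hm : m ≠ 0) (hpm : ¬ p ∣ m)
    (D : IntermediateField ℚ ℂ) [FiniteDimensional ℚ D] [FiniteDimensional ℚ (kk A B)]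
    (h : kk A B ≤ D) (hs : Sub D (RF (idl m) : IntermediateField (kk A B) ℂ)) :
    letI := algC h
    ∀ (χ : (D ≃ₐ[kk A B] D) →* (IsLocalRing.ResidueField V)ˣ)
      (u : (RF (idl (m * p)) : IntermediateField (kk A B) ℂ))
      (ρ : GalF A B (m * p) → (D ≃ₐ[kk A B] D)), (∀ σ, Ext1 h (ρ σ) σ) →
    ∀ [Fintype (GalF A B (m * p))] (e th : GalF A B (m * p) → ℂ) (q : ℂ),
      V.valuation (p : ℂ) ^ 2 ≤ V.valuation q → V.valuation q < V.valuation (p : ℂ) →
      (∀ σ, V.valuation (e σ) ≤ V.valuation (p : ℂ)) →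
      (∀ σ, V.valuation (((σ u : (RF (idl (m * p)) : IntermediateField (kk A B) ℂ)) : ℂ) - 1 -
        e σ) ≤ V.valuation q) →
      (∀ σ, rsd V (th σ) = (((χ (ρ σ))⁻¹ : (IsLocalRing.ResidueField V)ˣ) :
        IsLocalRing.ResidueField V)) →
      (∀ t : (IsLocalRing.ResidueField V) →+ ZMod p, ∃ y : D, ((y ^ p : D) : ℂ) =
        ∏ τ : D ≃ₐ[kk A B] D,
          cWt h u τ ^ (t ((χ τ)⁻¹ : (IsLocalRing.ResidueField V)ˣ)).val) →
      V.valuation (∑ σ, th σ * e σ) < V.valuation (p : ℂ) := by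
  let _ := algC h
  intro χ u ρ hρ _ e th q hq2 hq1 he hu hth hpow
  classical
  have hp : p.Prime := Fact.out
  have hp0 : (p : ℂ) ≠ 0 := by exact_mod_cast hp.ne_zero
  haveI := charP_res V p hv1
  have hsF := CRA.subF hT m p hs
  -- the elements `e σ / p`
  have hdiv : ∀ x : ℂ, V.valuation (x / p) = V.valuation x / V.valuation (p : ℂ) :=
    fun x => map_div₀ _ _ _
  have heV : ∀ σ, e σ / p ∈ V := by
    intro σ
    rw [← ValuationSubring.valuation_le_one_iff, hdiv]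
    exact div_le_one_of_le₀ (he σ) zero_le
  let eV : GalF A B (m * p) → V := fun σ => ⟨e σ / p, heV σ⟩
  have hthne : ∀ σ, rsd V (th σ) ≠ 0 := by
    intro σ
    rw [hth σ]
    exact Units.ne_zero _
  choose hthV hthr using fun σ => rsd_ne V (hthne σ)
  let tV : GalF A B (m * p) → V := fun σ => ⟨th σ, hthV σ⟩
  have key : ∀ g : GalF A B (m * p) → V, (∑ σ, IsLocalRing.residue V (g σ) *
      IsLocalRing.residue V (eV σ) = 0 ↔
      V.valuation (∑ σ, (g σ : ℂ) * e σ) < V.valuation (p : ℂ)) := by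
    intro g
    have e1 : ∑ σ, IsLocalRing.residue V (g σ) * IsLocalRing.residue V (eV σ) =
        IsLocalRing.residue V (∑ σ, g σ * eV σ) := by
      rw [map_sum]
      exact Finset.sum_congr rfl fun σ _ => (map_mul _ _ _).symm
    rw [e1, IsLocalRing.residue_eq_zero_iff, ValuationSubring.valuation_lt_one_iff]
    have e2 : ((∑ σ, g σ * eV σ : V) : ℂ) = (∑ σ, (g σ : ℂ) * e σ) / p := by
      rw [Finset.sum_div]
      push_cast
      exact Finset.sum_congr rfl fun σ _ => by rw [mul_div_assoc]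
    rw [e2, hdiv, div_lt_one₀ (zero_lt_iff.2 hv0)]
  -- the functionals
  have F1 : ∀ t : (IsLocalRing.ResidueField V) →+ ZMod p,
      V.valuation (∑ σ, (((t ((χ (ρ σ))⁻¹ : (IsLocalRing.ResidueField V)ˣ)).val : ℕ) : ℂ) * e σ) <
        V.valuation (p : ℂ) := by
    intro t
    set n : (D ≃ₐ[kk A B] D) → ℕ := fun τ =>
      (t ((χ τ)⁻¹ : (IsLocalRing.ResidueField V)ˣ)).val with hn
    obtain ⟨y, hy⟩ := hpow t
    have e1 : (∏ τ : D ≃ₐ[kk A B] D, cWt h u τ ^ n τ) = ∏ σ : GalF A B (m * p),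
        ((σ u : (RF (idl (m * p)) : IntermediateField (kk A B) ℂ)) : ℂ) ^ n (ρ σ) := by
      rw [← Finset.prod_fiberwise Finset.univ ρ]
      refine Finset.prod_congr (by congr) fun τ _ => ?_
      rw [cWt_fib h hsF ρ hρ u τ, ← Finset.prod_pow]
      refine Finset.prod_congr rfl fun σ hσ => ?_
      rw [(Finset.mem_filter.1 hσ).2]
    have e2 := hPRO V (p : ℂ) q hv1 hq2 hq1.le (GalF A B (m * p)) Finset.univ
      (fun σ => ((σ u : (RF (idl (m * p)) : IntermediateField (kk A B) ℂ)) : ℂ)) e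
      (fun σ => n (ρ σ)) (fun σ _ => he σ) (fun σ _ => hu σ)
    have e3 : V.valuation (∑ σ : GalF A B (m * p), ((n (ρ σ) : ℕ) : ℂ) * e σ) ≤
        V.valuation (p : ℂ) := by
      refine Valuation.map_sum_le _ fun σ _ => ?_
      rw [map_mul]
      calc V.valuation ((n (ρ σ) : ℕ) : ℂ) * V.valuation (e σ) ≤ 1 * V.valuation (p : ℂ) :=
            mul_le_mul' (v_nat V _) (he σ)
        _ = V.valuation (p : ℂ) := one_mul _
    have hy' : (y : ℂ) ^ p = ∏ σ : GalF A B (m * p),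
        ((σ u : (RF (idl (m * p)) : IntermediateField (kk A B) ℂ)) : ℂ) ^ n (ρ σ) := by
      rw [← e1, ← hy]
      push_cast
      rfl
    rw [← hy'] at e2
    set Sg := ∑ σ : GalF A B (m * p), ((n (ρ σ) : ℕ) : ℂ) * e σ with hSg
    have e4 : V.valuation ((y : ℂ) ^ p - 1) ≤ V.valuation (p : ℂ) := by
      have : (y : ℂ) ^ p - 1 = ((y : ℂ) ^ p - 1 - Sg) + Sg := by ring
      rw [this]
      exact Valuation.map_add_le _ (e2.trans hq1.le) e3
    have e5 := hKUM V p hp hv1 (y : ℂ) (fun hy0 => hUNRG p A B P V f hS hT ι R hG m hm hpm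
      ((y : ℂ) - 1) (sub_mem (hs y y.2) (one_mem _)) hy0) e4
    have e6 : Sg = ((y : ℂ) ^ p - 1) - ((y : ℂ) ^ p - 1 - Sg) := by ring
    rw [e6]
    exact (Valuation.map_sub_le V.valuation (e5.trans hq2) e2).trans_lt hq1
  have F2 := hRSF p (IsLocalRing.ResidueField V) (D ≃ₐ[kk A B] D)
    (fun τ => (((χ τ)⁻¹ : (IsLocalRing.ResidueField V)ˣ) : IsLocalRing.ResidueField V))
    (fun τ => ∑ σ ∈ Finset.univ.filter (fun σ => ρ σ = τ), IsLocalRing.residue V (eV σ)) ?_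
  · have e1 : ∑ σ, IsLocalRing.residue V (tV σ) * IsLocalRing.residue V (eV σ) = 0 := by
      rw [← F2, ← Finset.sum_fiberwise Finset.univ ρ]
      refine Finset.sum_congr (by congr) fun τ _ => ?_
      rw [Finset.mul_sum]
      refine Finset.sum_congr rfl fun σ hσ => ?_
      rw [← (Finset.mem_filter.1 hσ).2, ← hth σ, hthr σ]
    exact (key tV).1 e1
  · intro t
    have e1 := (key (fun σ => (((t ((χ (ρ σ))⁻¹ : (IsLocalRing.ResidueField V)ˣ)).val : ℕ) : V))).2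
      (by
        refine lt_of_eq_of_lt ?_ (F1 t)
        congr 1)
    rw [← e1, ← Finset.sum_fiberwise Finset.univ ρ]
    refine Finset.sum_congr (by congr) fun τ _ => ?_
    rw [Finset.mul_sum]
    refine Finset.sum_congr rfl fun σ hσ => ?_
    rw [← (Finset.mem_filter.1 hσ).2, map_natCast]

end CRB

end

end Pool.Agent.TWT


end

section

/-!
# TWT, block B, assembly, part 3 (helper59): S_CRIT
-/

set_option autoImplicit false

open WeierstrassCurve Polynomial NumberField IsDedekindDomain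

namespace Pool.Agent.TWT

open _root_.MU3 Pool.Agent.MU3A Pool.Agent.MU3B Pool.Agent.MU3C Pool.Agent.RI Pool.Agent.RID
open Pool.Agent.MUX Pool.Agent.MUXU Pool.Agent.MUXW
open Pool.Agent.MU3V (cls Sub GD algDF)
open Pool.Agent.MUXV (GR InK tX)
open Pool.Agent.MUXI (IA RE AR)
open OnePoint

noncomputable section

namespace CRIT

theorem nm_per {A B : ℤ} (M : ℕ) {x y : OO A B} (h : x - y ∈ idl (A := A) (B := B) M) :
    (M : ℤ) ∣ nm x - nm y := by
  obtain ⟨z, hz⟩ := Ideal.mem_span_singleton'.1 h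
  have h1 : x = y + z * ((M : ℕ) : OO A B) := by rw [hz]; ring
  have hr : ((M : ℕ) : OO A B).re = (M : ℤ) := by simp
  have hi : ((M : ℕ) : OO A B).im = 0 := by simp
  have e1 : x.re = y.re + z.re * M := by
    rw [h1, QuadraticAlgebra.re_add, QuadraticAlgebra.re_mul, hr, hi]; ring
  have e2 : x.im = y.im + z.im * M := by
    rw [h1, QuadraticAlgebra.im_add, QuadraticAlgebra.im_mul, hr, hi]; ring
  unfold nm
  rw [e1, e2]
  refine ⟨2 * y.re * z.re + z.re ^ 2 * M + B * (y.re * z.im + z.re * y.im + z.re * z.im * M) -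
    A * (2 * y.im * z.im + z.im ^ 2 * M), ?_⟩
  ring

theorem th_per {A B : ℤ} {n : ℕ} {ι : Type} (R : Reps A B n ι) {p f : ℕ} {kp : ι → ℂ}
    {eta : OO A B → ℂ} (hC : ChD p f R kp eta) {l N : ℕ} (ψ : DirichletCharacter ℂ (l ^ N))
    (i : ι) {x y : OO A B} (h : x - y ∈ idl (A := A) (B := B) (f * l ^ N)) :
    thT R kp eta ψ i x = thT R kp eta ψ i y := by
  unfold thT
  have h1 : x - y ∈ idl (A := A) (B := B) f := CRA.idl_le f (l ^ N) h
  have h2 : x - y ∈ idl (A := A) (B := B) (l ^ N) := by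
    rw [mul_comm] at h
    exact CRA.idl_le (l ^ N) f h
  have h3 : ((nm x * nI (R.b i) : ℤ) : ZMod (l ^ N)) = ((nm y * nI (R.b i) : ℤ) : ZMod (l ^ N)) := by
    rw [ZMod.intCast_eq_intCast_iff_dvd_sub]
    have := nm_per (l ^ N) h2
    rw [← dvd_neg] at this
    refine (this.mul_right (nI (R.b i) : ℤ)).trans (dvd_of_eq ?_)
    ring
  rw [hC.per x y h1, h3]

theorem f_big {p : ℕ} {A B : ℤ} {P : Ideal (OO A B)} {V : ValuationSubring ℂ} {f : ℕ}
    (hS : SetG p A B P V f) : 3 ≤ f := by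
  have h1 : 2 * absD A B ∣ (f : ℤ) := hS.fD
  have h2 : 3 ≤ absD A B := by
    have h3 := hS.cq.neg
    unfold absD
    rcases hS.cq.hB with h4 | h4 <;> rw [h4] at h3 ⊢ <;> omega
  have h5 : (0 : ℤ) < f := by
    have := hS.f0
    omega
  have h6 := Int.le_of_dvd h5 h1
  omega

theorem main (hIDP : S_IDP) (hVPG : S_VPG) (hUNRG : S_UNRG) (hMUG : S_MUG) (hKUM : S_KUM)
    (hPRO : CRB.PROG) (hRSF : S_RSF) (hEAB : S_EAB) (hNMF : S_NMF) (hHTF : S_HTF)
    (hNRR : S_NRR) (hXPC : S_XPC) (hSIG : S_SIG) (hSDE : S_SDE) (hPHI : S_PHI) : S_CRIT := by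
  intro p _ A B P V f hS hT ι _ R hG w hw kp eta hC l N hl hlf ψ hψ a ha1 hac hfac hry H hH θ hθ
    D _ _ h hs
  let _ := algC h
  intro χ hχ hg c₀ hc₀ hbig
  by_contra hcon
  push Not at hcon
  have hp : p.Prime := Fact.out
  have hf0 := hS.f0
  have hpl : ¬ p ∣ l := by
    intro h1
    exact hS.fp (h1.trans hlf)
  have hm0 : f * l ^ N ≠ 0 := mul_ne_zero hf0 (pow_ne_zero _ hl.ne_zero)
  have hpm : ¬ p ∣ f * l ^ N := by
    intro h1
    rcases (hp.dvd_mul).1 h1 with h2 | h2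
    · exact hS.fp h2
    · exact hpl (hp.dvd_of_dvd_pow h2)
  have hmp0 : f * l ^ N * p ≠ 0 := mul_ne_zero hm0 hp.ne_zero
  have hLv : LvM p f (f * l ^ N) R := by
    refine ⟨hm0, Dvd.intro _ rfl, hpm, fun i => ?_⟩
    have h1 := R.cop i
    have h2 : (nI (R.b i)).Coprime p := Nat.Coprime.coprime_dvd_right (Dvd.intro _ rfl) h1
    have h3 : (nI (R.b i)).Coprime f := Nat.Coprime.coprime_dvd_right (Dvd.intro_left _ rfl) h1
    have h4 : (nI (R.b i)).Coprime l := Nat.Coprime.coprime_dvd_right hlf h3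
    exact Nat.Coprime.mul_right (Nat.Coprime.mul_right h3 (h4.pow_right N)) h2
  have hac2 : a.Coprime (2 * (f * l ^ N) * p) := by
    have h2 : a.Coprime 2 := Nat.Coprime.coprime_dvd_right ⟨3 * f * p, by ring⟩ hac
    have h3 : a.Coprime f := Nat.Coprime.coprime_dvd_right ⟨6 * p, by ring⟩ hac
    have h4 : a.Coprime p := Nat.Coprime.coprime_dvd_right ⟨6 * f, by ring⟩ hac
    have h5 : a.Coprime l := Nat.Coprime.coprime_dvd_right hlf h3
    exact Nat.Coprime.mul_right (Nat.Coprime.mul_right h2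
      (Nat.Coprime.mul_right h3 (h5.pow_right N))) h4
  have hf3 := f_big hS
  have hm3 : 3 ≤ f * l ^ N := hf3.trans (Nat.le_mul_of_pos_right f (pow_pos hl.pos N))
  have hM3 : 3 ≤ f * l ^ N * p := hm3.trans (Nat.le_mul_of_pos_right _ hp.pos)
  obtain ⟨i1, i2, i3, i4, i5, i6, i7⟩ := hIDP p A B P V f hS
  obtain ⟨x0, hx0, hx01⟩ := (i5 (f * l ^ N) hpm).2.2
  obtain ⟨y0, hy0, hy0P⟩ := i6
  obtain ⟨hv1, hv0, -, -, -, -, -⟩ := hVPG p A B P V f hS
  obtain ⟨θ'', κ, γ, φ, s₀, hθ'', hθ0, hθ''0, hκ0, hκ1, hγh, hγt, hrel, hIA, hs₀⟩ :=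
    hNRR p A B P V f hS hT ι R (f * l ^ N) hLv x0 y0 hx0 hx01 hy0 hy0P a H ha1 hac2 hH θ hθ
  have hsF := CRA.subF hT (f * l ^ N) p hs
  have hfin := hT.fin _ (CRA.idl_ne (A := A) (B := B) hmp0)
  have MEM := ty_MEM A B _ hfin (hT.gal _ (CRA.idl_ne hmp0))
    (hT.comm _ (CRA.idl_ne hmp0)) D h hsF
  obtain ⟨τφ, hτφ⟩ := (MEM θ hθ0).2.2.2.2 φ
  have hExt : ExtC h τφ s₀ := by
    intro y
    have h1 := hs₀ ⟨(y : ℂ), hsF y y.2⟩
    exact h1.trans (hτφ y (hsF y y.2))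
  obtain ⟨r, y, hPr, hy1⟩ := hry
  have hχφ := hPHI p A B P V f hS hT ι R kp eta hC l N hl hlf ψ hψ r y hPr hy1 D h hs χ hχ s₀ τφ
    hIA hExt
  obtain ⟨g, hg1, hgχ⟩ := hg
  haveI := CRB.charP_res V p hv1
  have hpow := CRA.partA hNMF hEAB p A B hS.cq hT (f * l ^ N) hm0 D h hs
    (IsLocalRing.ResidueField V) χ g hg1 hgχ θ θ'' κ γ φ τφ hθ0 hθ''0 hκ0 hκ1 hγt hrel hτφ hχφ c₀
    hc₀ hcon
  -- the points
  obtain ⟨q1, q2, q3, q4, q5, q6⟩ := hHTF A B hS.cq hT (p * f) ι R (f * l ^ N * p) hM3 hLv.cop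
  choose I X hIX using q1
  choose ρ hρ using (MEM θ hθ0).2.2.2.2
  obtain ⟨t0, ht00, ht0p, hX⟩ := hXPC p A B P V f hS hT ι R hG (f * l ^ N) hLv x0 y0 hx0 hx01 hy0
    hy0P
  have hX' := fun σ => hX a H ha1 hac2 hH θ θ'' hθ hθ'' γ hγh σ (I σ) (X σ) (hIX σ)
  letI : Fintype (GalF A B (f * l ^ N * p)) := by
    haveI := hfin
    exact Fintype.ofFinite _
  set S : GalF A B (f * l ^ N * p) → ℂ := fun σ => ∑ c ∈ Finset.Icc 1 (p - 1),
    (c : ℂ) * dlX (R.L (I σ)) a (pt R (f * l ^ N * p) (I σ)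
      (X σ * x0 + c * (f * l ^ N : ℕ) * y0)) with hSdef
  have hvt1 : V.valuation t0 < 1 := by
    by_contra h1
    rw [not_lt] at h1
    have h2 := one_le_pow₀ h1 (n := p - 1)
    rw [ht0p] at h2
    exact absurd hv1 (not_lt.2 h2)
  have hvt : V.valuation (p : ℂ) ≤ V.valuation t0 := by
    rw [← ht0p]
    refine pow_le_of_le_one zero_le hvt1.le ?_
    have := hS.p5
    omega
  have hB := CRB.partB hUNRG hKUM hPRO hRSF p A B P V f hS hT ι R hG hv1 hv0 (f * l ^ N) hm0 hpm D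
    h hs χ ((∏ c ∈ Finset.Icc 1 (p - 1), γ c θ) / θ'' ^ (p - 1)) ρ hρ
    (fun σ => -(muX R (I σ) * t0 * S σ)) (fun σ => thT R kp eta ψ (I σ) (X σ)) ((p : ℂ) * t0)
    (by
      rw [map_mul, pow_two]
      exact mul_le_mul' le_rfl hvt)
    (by
      rw [map_mul]
      exact mul_lt_of_lt_one_right (zero_lt_iff.2 hv0) hvt1)
    (fun σ => by
      rw [Valuation.map_neg, map_mul, map_mul, hMUG p A B P V f hS ι R hG, one_mul]
      exact (hX' σ).2.1)
    (fun σ => by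
      rw [map_mul, sub_neg_eq_add]
      exact (hX' σ).1)
    (fun σ => by
      rw [← hχ (ρ σ) _ (q6 (f * l ^ N) (Dvd.intro _ rfl) hm3 D h hs (ρ σ) σ (I σ) (X σ) (hρ σ)
        (hIX σ))]
      congr 1
      refine th_per R hC ψ (I σ) ?_
      rw [← Ideal.Quotient.eq]
      exact (Quotient.out_eq _).symm)
    hpow
  obtain ⟨u1, hu1, hSig⟩ := hSIG p A B P V f hS hT ι R hG w hw kp eta hC l N hl hlf ψ hψ x0 y0 hx0
    hx01 hy0 hy0P
  have hSig' := hSig a ha1 hac I X hIX (fun σ c => (hX' σ).2.2 c)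
  have hSde := hSDE p A B P V f hS ι R w hw kp eta hC l N hl hlf ψ a ha1 hac hfac
  rw [← hSde] at hbig
  set Z : ℂ := ∑ σ : GalF A B (f * l ^ N * p), thT R kp eta ψ (I σ) (X σ) *
    (muX R (I σ) * S σ) with hZ
  have e1 : (∑ σ : GalF A B (f * l ^ N * p), thT R kp eta ψ (I σ) (X σ) *
      -(muX R (I σ) * t0 * S σ)) = -(t0 * Z) := by
    rw [hZ, Finset.mul_sum, ← Finset.sum_neg_distrib]
    exact Finset.sum_congr rfl fun σ _ => by ring
  rw [e1, Valuation.map_neg, map_mul] at hB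
  set SD : ℂ := SDT R (f * l ^ N * p) a (thT R kp eta ψ) w with hSD
  have e2 : V.valuation (t0 * SD) < V.valuation (p : ℂ) := by
    have : t0 * SD = t0 * (u1 * Z) - t0 * (u1 * Z - SD) := by ring
    rw [this]
    refine (Valuation.map_sub _ _ _).trans_lt (max_lt ?_ ?_)
    · rw [map_mul, map_mul, hu1, one_mul]
      exact hB
    · rw [map_mul]
      calc V.valuation t0 * V.valuation (u1 * Z - SD) ≤ V.valuation t0 * V.valuation (p : ℂ) :=
            mul_le_mul' le_rfl hSig'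
        _ < V.valuation (p : ℂ) := mul_lt_of_lt_one_left (zero_lt_iff.2 hv0) hvt1
  have hp1 : p - 1 ≠ 0 := by
    have := hS.p5
    omega
  have e3 := pow_lt_pow_left₀ e2 zero_le hp1
  rw [map_mul, mul_pow, ht0p] at e3
  have e4 : V.valuation (p : ℂ) ^ (p - 1) = V.valuation (p : ℂ) * V.valuation (p : ℂ) ^ (p - 2) := by
    rw [← pow_succ']
    congr 1
    have := hS.p5
    omega
  rw [e4] at e3
  exact absurd (lt_of_mul_lt_mul_left' e3) (not_lt.2 hbig)

end CRIT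

end

end Pool.Agent.TWT


end
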