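import Pool.Agent.MVF.C033
import Pool.Agent.MVF.C047
import Pool.Agent.MVF.C076
import Pool.Agent.MVF.C087
import Pool.Agent.MVF.C112
import Pool.Agent.TWM.C04
import Pool.Agent.TWM.C05
import Pool.Agent.TWM.C06
import Pool.Agent.TWM.C07

/-! Parts: TWI.DefsI, TWI.FINI, TWI.StI1, TWI.StI2, TWI.TEP, TWI.LGI, TWI.MLI, TWI.MUGI, TWI.PTI, TWI.StI4, TWI.TRG, TWI.TYI, TWI.UNRGI, TWI.YALT, TWI.YUNF, TWI.YVAK -/

section

/-!
# TWI: Theorem C for the primes which are inert in `k` (MP_b78433_nt): common definitions and final statements (helper3)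

As `Pool/Agent/TWT/DefsT.lean`, with `p ≥ 5` INERT in `k = kk A B`: `P = (p)` is a prime ideal, `O/P` has `p²` elements, `V` is a valuation
ring of `ℂ` above `P`, `w` the Teichmüller character of `(O/P)^*` (values in `μ_(p²-1)`), `t0^(p²-1) ~ p`.

* `SSTI R m th w = Σ_i mu_i Σ_(x mod m) th i x w(x) ee(pt R m i x; L_i)`.
* `epI eta w x = eta x * w x`, an odd character of `(O/(f p))^*`; `PhI` : the symbol (no twist).

FINAL STATEMENTS: `S_KEYI` (block A, helper3), `S_SYMI` (block C), `S_CRITI`, `S_UNITI` (block B, helper59).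
-/

set_option autoImplicit false

open WeierstrassCurve Polynomial NumberField IsDedekindDomain

namespace Pool.Agent.TWI

open _root_.MU3 Pool.Agent.MU3A Pool.Agent.MU3B Pool.Agent.MU3C Pool.Agent.RI Pool.Agent.RID
open Pool.Agent.MUX Pool.Agent.MUXU Pool.Agent.MUXW Pool.Agent.TWT
open Pool.Agent.MU3V (cls Sub GD algDF)
open Pool.Agent.MUXV (GR InK tX)
open OnePoint

noncomputable section

/-! ## Definitions -/

/-- the standing hypotheses for an inert prime `p ≥ 5` -/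
structure SetI (p : ℕ) (A B : ℤ) (P : Ideal (OO A B)) (V : ValuationSubring ℂ) (f : ℕ) : Prop where
  cq : CQ A B
  pp : p.Prime
  p5 : 5 ≤ p
  eP : P = idl (A := A) (B := B) p
  hP : P.IsPrime
  hV : OverI V P
  pD : ¬ (p : ℤ) ∣ absD A B
  f0 : f ≠ 0
  fp : ¬ p ∣ f
  fD : 2 * absD A B ∣ (f : ℤ)

variable {A B : ℤ} {n : ℕ} {ι : Type}

/-- `w` is the Teichmüller character of `(O/P)^*`, `P = (p)` -/
structure TeiI (p : ℕ) (P : Ideal (OO A B)) (V : ValuationSubring ℂ) (w : OO A B → ℂ) : Prop where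
  one : w 1 = 1
  mul : ∀ x y, w (x * y) = w x * w y
  per : ∀ x y, x - y ∈ P → w x = w y
  zero : ∀ x, w x = 0 ↔ x ∈ P
  root : ∀ x, x ∉ P → w x ^ (p ^ 2 - 1) = 1
  red : ∀ x, V.valuation (w x - emb x) < 1

/-- `T` is a system of representatives of the classes modulo `P` which are not zero -/
structure RepI (P : Ideal (OO A B)) (T : Finset (OO A B)) : Prop where
  nz : ∀ x ∈ T, x ∉ P
  inj : ∀ x ∈ T, ∀ y ∈ T, x - y ∈ P → x = y
  surj : ∀ x, x ∉ P → ∃ y ∈ T, x - y ∈ P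

/-- `Σ_i mu_i Σ_(x mod m) th i x w(x) ee(pt R m i x; L_i)` -/
def SSTI [Fintype ι] (R : Reps A B n ι) (m : ℕ) (th : ι → OO A B → ℂ) (w : OO A B → ℂ) : ℂ :=
  ∑ i, muX R i * sumMod ((m : ℕ) : OO A B) fun x => th i x * w x * ee (R.L i) (pt R m i x)

/-- the same with the logarithmic derivative of `Θ_a` -/
def SDTI [Fintype ι] (R : Reps A B n ι) (m a : ℕ) (th : ι → OO A B → ℂ) (w : OO A B → ℂ) : ℂ :=
  ∑ i, muX R i * sumMod ((m : ℕ) : OO A B) fun x => th i x * w x * dlX (R.L i) a (pt R m i x)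

/-- the character of the theta series -/
def epI (eta : OO A B → ℂ) (w : OO A B → ℂ) (x : OO A B) : ℂ := eta x * w x

/-- the weights of the symbols -/
def kkI (R : Reps A B n ι) (kp : ι → ℂ) (eta w : OO A B → ℂ) (i : ι) : ℂ :=
  kp i * (epI eta w ((nI (R.b i) : ℕ) : OO A B))⁻¹

/-- the symbol `Φ` -/
def PhI [Fintype ι] (R : Reps A B n ι) (kp : ι → ℂ) (eta w : OO A B → ℂ)
    (x y : OnePoint ℚ) : ℂ :=
  PhiK R (epI eta w) (kkI R kp eta w) x y / R.om R.i0

/-! ## Block A (helper3) -/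

/-- (KEYI) the unit `∏_(R ∈ E[p] - 0) Θ(z + R)/Θ(z)^(q-1)`, `q = p²`, to the first order. -/
def S_KEYI : Prop :=
  ∀ (p : ℕ) (A B : ℤ) (P : Ideal (OO A B)) (V : ValuationSubring ℂ) (f : ℕ),
    SetI p A B P V f → ∀ (ι : Type) [Finite ι] (R : Reps A B (p * f) ι), GRd V R →
    ∃ t0 : ℂ, V.valuation t0 ^ (p ^ 2 - 1) = V.valuation (p : ℂ) ∧ t0 ≠ 0 ∧
      ∀ w : OO A B → ℂ, TeiI p P V w → ∀ T : Finset (OO A B), RepI P T →
      ∀ (i : ι) (a : ℕ) (H : Finset ℂ), 1 < a → a.Coprime (2 * p) → IsHalf (R.L i) a H →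
      ∀ z : ℂ, ¬ InEn V (R.L i) z → ¬ InEn V (R.L i) (2 * z) → ¬ InEn V (R.L i) (a * z) →
        (∀ x : OO A B, V.valuation (ThetaH (R.L i) H (z + pt R p i x)) = 1 ∧
          dlX (R.L i) a (z + pt R p i x) ∈ V) ∧
        V.valuation (∏ x ∈ T, ThetaH (R.L i) H (z + pt R p i x) -
            ThetaH (R.L i) H z ^ (p ^ 2 - 1) * (1 - muX R i * t0 *
              ∑ x ∈ T, w x * dlX (R.L i) a (z + pt R p i x))) ≤
          V.valuation (p : ℂ) * V.valuation t0 ∧
        V.valuation t0 * V.valuation (∑ x ∈ T, w x * dlX (R.L i) a (z + pt R p i x)) ≤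
          V.valuation (p : ℂ)

/-! ## Block C -/

/-- (GAUI) the value of the symbol at a character `ψ`, even and primitive modulo `l^N`: it is a unit times `SSTI/p`. -/
def S_GAUI : Prop :=
  ∀ (p : ℕ) (A B : ℤ) (P : Ideal (OO A B)) (V : ValuationSubring ℂ) (f : ℕ),
    SetI p A B P V f → ∀ (ι : Type) [Fintype ι] (R : Reps A B (p * f) ι)
    (w : OO A B → ℂ), TeiI p P V w → ∀ (kp : ι → ℂ) (eta : OO A B → ℂ), ChD p f R kp eta →
    ∀ (l N : ℕ), l.Prime → l ∣ f → 2 ≤ N → ∀ ψ : DirichletCharacter ℂ (l ^ N), ψ (-1) = 1 →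
    ψ (1 + (l : ZMod (l ^ N)) ^ (N - 1)) ≠ 1 →
    V.valuation (p : ℂ) * V.valuation (∑ b ∈ Finset.range (l ^ N),
      ψ⁻¹ (b : ZMod (l ^ N)) *
        sgnPart 1 (PhI R kp eta w) ∞ (((b : ℚ) / (l : ℚ) ^ N : ℚ) : OnePoint ℚ)) =
      V.valuation (SSTI R (f * l ^ N * p) (thT R kp eta ψ) w)

/-- (TYPI) the type: the values of `Φ` have valuation in `v(tau)⁻¹ v(p)^ℤ`, `v(tau)^(p²-1) = v(p)`; stated as: a value of
valuation `≥ 1` has valuation `≥ v(tau)⁻¹`. -/
def S_TYPI : Prop :=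
  ∀ (p : ℕ) (A B : ℤ) (P : Ideal (OO A B)) (V : ValuationSubring ℂ) (f : ℕ),
    SetI p A B P V f → TorX A B → ∀ (ι : Type) [Fintype ι] (R : Reps A B (p * f) ι), GRd V R →
    ∀ (w : OO A B → ℂ), TeiI p P V w → ∀ (kp : ι → ℂ) (eta : OO A B → ℂ), ChD p f R kp eta →
    ∀ x y : OnePoint ℚ, 1 ≤ V.valuation (sgnPart 1 (PhI R kp eta w) x y) →
      1 ≤ V.valuation (p : ℂ) * V.valuation (sgnPart 1 (PhI R kp eta w) x y) ^ (p ^ 2 - 1)

open Pool.Agent.TWR in
/-- (SYMI) for ALL large `n` the sums `SSTI` of all characters of level `n` are large. -/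
def S_SYMI : Prop :=
  ∀ (l g h : ℕ), Gen l g h → ∀ (p : ℕ) (A B : ℤ) (P : Ideal (OO A B)) (V : ValuationSubring ℂ)
    (f : ℕ), SetI p A B P V f → l ∣ f → TorX A B → ∀ (ι : Type) [Fintype ι]
    (R : Reps A B (p * f) ι), GRd V R → ∀ (w : OO A B → ℂ), TeiI p P V w →
    ∀ (J : Type) [Finite J] (kp : J → ι → ℂ) (eta : J → OO A B → ℂ),
    (∀ j, ChD p f R (kp j) (eta j)) → ∃ n0 : ℕ, ∀ n : ℕ, n0 ≤ n → ∀ j,
      ∀ ψ : DirichletCharacter ℂ (l ^ n), ψ (-1) = 1 →
      ψ (1 + (l : ZMod (l ^ n)) ^ (n - 1)) ≠ 1 →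
      V.valuation (p : ℂ) ^ (p ^ 2 - 2) ≤
        V.valuation (SSTI R (f * l ^ n * p) (thT R (kp j) (eta j) ψ) w) ^ (p ^ 2 - 1)

/-! ## Block B and the unit theorem (helper59) -/

open Pool.Agent.TWR in
/-- (UNITI) the input of the frame, for ALL large `n`: as `S_UNITA` of `Pool/Agent/TWT/DefsU.lean`, `p` inert. -/
def S_UNITI : Prop :=
  ∀ (l g h : ℕ), Gen l g h → ∀ (p : ℕ) [Fact p.Prime] (A B : ℤ) (P : Ideal (OO A B))
    (V : ValuationSubring ℂ) (f : ℕ), SetI p A B P V f → l ^ h ∣ f → TorX A B →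
    ∀ (ι : Type) [Fintype ι] (R : Reps A B (p * f) ι), GRd V R →
    ∀ (K : IntermediateField ℚ ℂ) [FiniteDimensional ℚ K] [FiniteDimensional ℚ (kk A B)],
    kk A B ≤ K → Sub K (RF (idl f) : IntermediateField (kk A B) ℂ) →
    ∀ (Bn : ℕ → IntermediateField ℚ ℂ) [∀ n, FiniteDimensional ℚ ↥(K ⊔ Bn n)],
    (∀ n, IsLayer l n (Bn n)) → Monotone Bn →
    (∀ n, Sub (K ⊔ Bn n) (RF (idl (f * l ^ (n + h))) : IntermediateField (kk A B) ℂ)) →
    ∀ (a : ℕ), 1 < a → a.Coprime (6 * f * p) → ∀ (H : Finset ℂ), IsHalf (R.L R.i0) a H →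
    ∃ n0 : ℕ, ∀ n : ℕ, n0 ≤ n →
    ∀ (θ : (RF (idl (f * l ^ (n + 1 + h) * p)) : IntermediateField (kk A B) ℂ)),
    (θ : ℂ) = ThetaH (R.L R.i0) H (pt R (f * l ^ (n + 1 + h) * p) R.i0 1) →
    ∀ (h0 : kk A B ≤ K ⊔ Bn (n + 1)), letI := algC h0
    ∀ (c₀ : ↥(K ⊔ Bn (n + 1))), (c₀ : ℂ) = cW h0 θ →
    ∀ χ : (↥(K ⊔ Bn (n + 1)) ≃ₐ[kk A B] ↥(K ⊔ Bn (n + 1))) →*
      (IsLocalRing.ResidueField V)ˣ,
      (∃ g : ↥(K ⊔ Bn (n + 1)) ≃ₐ[kk A B] ↥(K ⊔ Bn (n + 1)),
        (∀ x : ↥(K ⊔ Bn (n + 1)), (x : ℂ) ∈ K ⊔ Bn n → g x = x) ∧ χ g ≠ 1) →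
      ∃ t : (IsLocalRing.ResidueField V) →+ ZMod p, ∀ y : ↥(K ⊔ Bn (n + 1)),
        y ^ p ≠ Pool.Agent.TWK.sE p χ t c₀

end

end Pool.Agent.TWI


end

section

/-!
# TWI, module FINI (helper96): from the unit theorem for inert primes to the class numbers
-/

set_option autoImplicit false

open NumberField IsDedekindDomain

namespace Pool.Agent.TWI

open _root_.MU3 Pool.Agent.MU3 Pool.Agent.MU3A Pool.Agent.MU3B Pool.Agent.RI Pool.Agent.RID
  Pool.Agent.MUX Pool.Agent.MUXK Pool.Agent.MUXW Pool.Agent.MUXJ Pool.Agent.TWT Pool.Agent.TWR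
  Pool.Agent.TWK
open Pool.Agent.MU3V (Sub GD)

/-- FINI: there is `n₀` such that `v_p h(L) = v_p h(L ∩ K B_n)` for all `n ≥ n₀`, `b` and all fields
`k ≤ L ≤ K B_(n+b)`, `p` inert. -/
def S_FINI : Prop :=
  ∀ (l g h : ℕ), Gen l g h → ∀ (p : ℕ) (A B : ℤ) (P : Ideal (OO A B))
    (V : ValuationSubring ℂ) (f : ℕ), SetI p A B P V f → l ^ h ∣ f → TorX A B →
    ∀ (ι : Type) [Fintype ι] (R : Reps A B (p * f) ι), GRd V R →
    ∀ (K : IntermediateField ℚ ℂ) [FiniteDimensional ℚ K] [FiniteDimensional ℚ (kk A B)]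
    (hk : kk A B ≤ K), ¬ p ∣ Module.finrank (kk A B) (IntermediateField.extendScalars hk) →
    Sub K (RF (idl f) : IntermediateField (kk A B) ℂ) →
    ∀ (Bn : ℕ → IntermediateField ℚ ℂ) [∀ n, FiniteDimensional ℚ ↥(K ⊔ Bn n)],
    (∀ n, IsLayer l n (Bn n)) → Monotone Bn →
    (∀ n, Sub (K ⊔ Bn n) (RF (idl (f * l ^ (n + h))) : IntermediateField (kk A B) ℂ)) →
    ∃ n₀ : ℕ, ∀ n : ℕ, n₀ ≤ n → ∀ b : ℕ,
      ∀ L : IntermediateField ℚ ℂ, kk A B ≤ L → L ≤ K ⊔ Bn (n + b) →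
        padicValNat p (classNo L) = padicValNat p (classNo (L ⊓ (K ⊔ Bn n)))

theorem t_FINI (hF : S_FIN1) (hU : S_UNITI) : S_FINI := by
  intro l g h hgen p A B P V f hS hlf T ι _ R hR K _ _ hk hcop hKf Bn _ hlay hmono hsub
  have hp : Fact p.Prime := ⟨hS.pp⟩
  have hl : l.Prime := by
    rcases hgen with h1 | h1
    · rw [h1.1]; exact Nat.prime_three
    · rw [h1.1]; exact Nat.prime_two
  have hlF : Fact l.Prime := ⟨hl⟩
  have hh : h ≠ 0 := by
    rcases hgen with h1 | h1 <;> omega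
  have hlf' : l ∣ f := (dvd_pow_self l hh).trans hlf
  have h2f : 2 ∣ f := by
    have h1 : (2 : ℤ) ∣ (f : ℤ) := (Dvd.intro _ rfl).trans hS.fD
    exact_mod_cast h1
  have hV : V.valuation (p : ℂ) < 1 := by
    have h1 : ((p : ℕ) : OO A B) ∈ P := by
      rw [hS.eP]
      exact Ideal.mem_span_singleton_self _
    have h2 := (hS.hV _).2 h1
    rw [ValuationSubring.mem_nonunits_iff] at h2
    have h3 : emb ((p : ℕ) : OO A B) = (p : ℂ) := by
      unfold emb
      simp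
    rwa [h3] at h2
  obtain ⟨a, H, ha1, hacop, hH, n₁, hn₁⟩ := hF p l h f hS.p5 hS.fp hS.f0 h2f hlf' A B hS.cq T V hV
    (p * f) ι R K hk hcop hKf Bn hlay hmono hsub
  obtain ⟨n₂, hn₂⟩ := hU l g h hgen p A B P V f hS hlf T ι R hR K hk hKf Bn hlay hmono hsub a ha1
    hacop H hH
  refine ⟨n₁ + n₂, fun n hn b => ?_⟩
  exact hn₁ n (by omega) b fun s _ => hn₂ (n + s) (by omega)

end Pool.Agent.TWI


end

section

/-!
# TWI, block A (helper3): `∏_(R ∈ E[p] - 0) Θ(z + R) / Θ(z)^(q-1)` to the first order, `p` inert, `q = p²`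

As block A of the split case (`Pool/Agent/TWT/StT1.lean`: read its header, definitions `dW, qF, EqU, nF, xF, yF, vpi, HasTay` are used here), with `p`
replaced by `q = p²` (`v(t(R))^(q-1) = v p`). New: the formal logarithm `Λ` has coefficients `Λ_j ∈ V` for `j < q` although `p` divides some `j < q`
(`S_LOG`, by the complex multiplications `α ∈ O` of odd norm prime to `3 p`).

Every `def S_X : Prop` is the statement of a module, which proves `theorem i_X : S_X` (or `theorem i_X (h : S_Y) .. : S_X` with the statements named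
under USES, fewer is fine) in `Pool/Agent/TWI/X.lean`, namespace `Pool.Agent.TWI`. THEOREMS which may be cited (import the file): block A of the split
case: `Pool.Agent.TWT.t_EVH, t_UEX, t_UQN, t_ODE, t_TAF, t_PTS, t_THT, t_FOI` (files `Pool/Agent/TWT/EVH.lean`, ..), and as MODELS `t_TAY` (`TAY.lean`), `t_ADV` (`ADV.lean`), `t_KYR`, `t_KEY` (`KEY.lean`), `t_PIS`, `t_PTA`, `KEYA.lean`.
`Sx_..`, `Sq_..` of `StVX.lean`, `StQX.lean`: `Pool.Agent.MUXV.x_X`, `q_X` (`Pool/Agent/MUX/RQ0.lean`): `x_POL, x_HAL, x_MUN, x_NGR, q_YUN, q_VQI, ..`. `Sx_..` of `StXF.lean`: `Pool.Agent.MUXF.xf_X` (`XFAll.lean`). `t_TEP : S_TEP` (helper34, `Pool/Agent/TWI/TEP.lean`): facts on `O/P`, representatives, the Teichmüller character. `XLib.lean` (namespace `Pool.Agent.MUX`):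
`emb_mul`, `nm_mul`, `mul_cjI`, `mul_cancel`, `nI_ne_zero`, `nI_mem`, `IsLI.hasCM`, ...
-/

set_option autoImplicit false

open WeierstrassCurve PowerSeries

namespace Pool.Agent.TWI

open _root_.MU3 Pool.Agent.MU3A Pool.Agent.MU3B Pool.Agent.MUX Pool.Agent.MUXU Pool.Agent.TWT
open Pool.Agent.MUXV (GR InK tX HalfI)

noncomputable section

/-! ## Definitions -/

/-- the value at `z` of the `k`-th derivative of `f`, divided by `k!` -/
def dd {V : ValuationSubring ℂ} (L : PeriodPair) (a2 a4 : V) (f : MvPolynomial (Fin 2) V) (k : ℕ)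
    (z : ℂ) : ℂ :=
  MvPolynomial.aeval ![xn L z, yy L z] ((dW a2 a4)^[k] f) / (k.factorial : ℂ)

/-- the polynomial `g(x)` as a polynomial in `x, y` -/
def inX {V : ValuationSubring ℂ} (g : Polynomial V) : MvPolynomial (Fin 2) V :=
  Polynomial.aeval (MvPolynomial.X 0) g

/-- the expansions at all points outside the kernel of reduction; `Λ` is the formal logarithm -/
structure HasExp (V : ValuationSubring ℂ) (L : PeriodPair) (a2 a4 : V) (Λ : PowerSeries ℂ) :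
    Prop where
  c0 : PowerSeries.coeff 0 Λ = 0
  c1 : PowerSeries.coeff 1 Λ = 1
  exp : ∀ z, ¬ InK V L (xn L) z → ∃ gx gy : PowerSeries V,
    (∀ (f : MvPolynomial (Fin 2) V) (n j : ℕ), j < n →
      ((PowerSeries.coeff j (MvPolynomial.aeval ![gx, gy] f) : V) : ℂ) =
        PowerSeries.coeff j (∑ k ∈ Finset.range n, PowerSeries.C (dd L a2 a4 f k z) * Λ ^ k)) ∧
    ∀ R, InK V L (xn L) R → R ∉ L.lattice → ∀ (f : MvPolynomial (Fin 2) V) (n : ℕ), 2 ≤ n →
      V.valuation (MvPolynomial.aeval ![xn L (z + R), yy L (z + R)] f - ∑ j ∈ Finset.range n,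
        ((PowerSeries.coeff j (MvPolynomial.aeval ![gx, gy] f) : V) : ℂ) *
          tX (xn L) (yy L) R ^ j) ≤ V.valuation (tX (xn L) (yy L) R) ^ n

/-- Taylor expansion modulo `t^n` (`HasTay` of the split case) with integral coefficients -/
structure HasTyI (V : ValuationSubring ℂ) (L : PeriodPair) (n : ℕ) (a2 a4 : V) (lam : ℕ → ℂ) :
    Prop extends HasTay V L (xn L) (yy L) n a2 a4 lam where
  dint : ∀ z, ¬ InK V L (xn L) z → ∀ (f : MvPolynomial (Fin 2) V), ∀ k < n,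
    V.valuation (dd L a2 a4 f k z) ≤ 1

/-- `L` has good reduction at `V`, with coefficients `a2, a4` -/
def GRa (V : ValuationSubring ℂ) (L : PeriodPair) (a2 a4 : V) : Prop :=
  ∃ (W : WeierstrassCurve.Affine ℂ) (ξ : ℂ →+ W.Point), GR V W L (xn L) (yy L) ξ ∧
    (a2 : ℂ) = W.a₂ ∧ (a4 : ℂ) = W.a₄

/-- `mu : L → M` is an isogeny of odd degree prime to the residue characteristic and to `3` -/
structure IsgN (V : ValuationSubring ℂ) (L M : PeriodPair) (mu : ℂ) (n : ℕ) : Prop where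
  ne : mu ≠ 0
  sub : Isg L M mu
  odd : Odd n
  unit : V.valuation (n : ℂ) = 1
  ker : ∀ z, mu * z ∈ M.lattice → (n : ℂ) * z ∈ L.lattice
  vmu : V.valuation mu = 1
  v3 : V.valuation (3 : ℂ) = 1
  n3 : ¬ 3 ∣ n

/-! ## 1. The formal logarithm -/

/-- (EXP) expansions.

USES (all proved) t_EVH, t_UEX, t_UQN, t_ODE, t_TAF, t_PTS. MODEL: `t_TAY` (`Pool/Agent/TWT/TAY.lean`), almost word for word. PROOF. `X = xn L`, `Y = yy L`. `U` (UEX for `A = V`), `κ ∈ V⟦T⟧` the inverse of `qF`; `Λ := Σ_(j ≥ 1) κ_(j-1)/j T^j ∈ ℂ⟦T⟧`. For `z`: `gx, gy ∈ V⟦T⟧` as in `t_TAY` (`xF`, `yF` at `x = X z`, `y = Y z`; they do not depend on `n`). First clause: map everything to `ℂ⟦T⟧`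
(`PowerSeries.map` of the inclusion), ODE holds there, and (TAF) for `A = ℂ`, `p := n` (every `(j : ℂ)`, `j > 0`, is a unit); `lamF n κ` and `Λ` have the same coefficients below `n`, so their powers have, too (`PowerSeries.trunc` or `X^n ∣ F - G → X^n ∣ F^k - G^k`: `sub_dvd_pow_sub_pow`). The inclusion commutes with `dW` and `aeval`. Second clause: (EVH) for `V → V/(t^n)`, exactly as in
`t_TAY` before (TAF) is used (there `n = p`). -/
def S_EXP : Prop :=
  ∀ (V : ValuationSubring ℂ) (L : PeriodPair) (a2 a4 : V), GRa V L a2 a4 →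
    ∃ Λ : PowerSeries ℂ, HasExp V L a2 a4 Λ

/-- (TRG) triangular systems. `c j = coeff j (Σ_(k<n) D_k Λ^k)`, `Λ = T + ..`.

PROOF. `Λ = T M`, `M_i = Λ_(i+1)`, `M_0 = 1`; `coeff j (Λ^k) = coeff (j-k) (M^k)` (`0` if `k > j`, `1` if `k = j`). If `v(M_i) ≤ 1` for `i < r` then `v(coeff i (M^k)) ≤ 1` for `i < r` (induction on `k`, `PowerSeries.coeff_mul`). `c_j = D_j + Σ_(k<j) D_k coeff (j-k) (M^k)`. Strong induction on `j < N`: `k = 0`: `coeff j 1 = 0` for `j > 0`; `1 ≤ k < j < N`: `j - k ≤ N - 2`, `v(M_(j-k)) ≤ 1`: so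
`v(D_j) ≤ 1`. `j = N`: the terms `2 ≤ k < N` only use `M_i` with `i ≤ N - 2`, the term `k = 1` is `D_1 Λ_N`. -/
def S_TRG : Prop :=
  ∀ (V : ValuationSubring ℂ) (n : ℕ) (Λ : PowerSeries ℂ) (D : ℕ → ℂ),
    PowerSeries.coeff 0 Λ = 0 → PowerSeries.coeff 1 Λ = 1 →
    (∀ j < n, V.valuation (PowerSeries.coeff j (∑ k ∈ Finset.range n,
      PowerSeries.C (D k) * Λ ^ k)) ≤ 1) →
    ∀ N ≤ n, (∀ j < N, V.valuation (PowerSeries.coeff j Λ) ≤ 1) →
      (∀ k < N, V.valuation (D k) ≤ 1) ∧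
      (2 ≤ N → N < n → V.valuation (D N + PowerSeries.coeff N Λ * D 1) ≤ 1)

/-- (COM) `x_M(mu z)` as a quotient of polynomials in `x_L(z)`.

USES `x_HAL, x_POL` (StVX). MODEL: the beginning of `t_FOI` (`Pool/Agent/TWT/FOI.lean`). PROOF. `C = {z : mu z ∈ M}` is killed by `n` modulo `L`, `C ∩ K₁(L) = L` (`mem_of_nat_mul`), `K₁` = kernel of reduction; half system `H` (HAL; no points of order two, `n` odd). `w = L.ω₁/2`. (POL), second part, `c = 1/12`: for `mu z ∉ M`: `(℘_M(mu z) - ℘_M(mu w)) Q(x)² = (x - xn L w) B(x)²`, `Q = mu ∏_(q ∈ H) (T - xn L q)`,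
`B = ∏_(q ∈ H) (T - xn L (w + q))`. All numbers are in `V` (as in `t_FOI`). `PB = Q²`, `PA = (T - xn L w) B² + xn M (mu w) Q²`. If `mu z ∉ K₁(M)`: `z ∉ L`; `z ∉ K₁(L)` and `z ± q ∉ K₁(L)` (`t_FOI`, first claim: `mu u ∈ K₁(M)` for `u ∈ K₁(L)`, `u ∉ L`; `mu (z ± q) = mu z ± mu q`, `mu q ∈ M`; if `u ∈ L` then `mu u ∈ M`): `v(xn L z - xn L q) = 1` (`v_X_sub`), `v(mu) = 1`. -/
def S_COM : Prop :=
  ∀ (V : ValuationSubring ℂ) (L M : PeriodPair) (a2 a4 b2 b4 : V), GRa V L a2 a4 →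
    GRa V M b2 b4 → ∀ (mu : ℂ) (n : ℕ), IsgN V L M mu n →
    ∃ PA PB : Polynomial V,
      (∀ z, mu * z ∉ M.lattice → xn M (mu * z) * Polynomial.aeval (xn L z) PB =
        Polynomial.aeval (xn L z) PA) ∧
      ∀ z, ¬ InK V M (xn M) (mu * z) → ¬ InK V L (xn L) z ∧
        V.valuation (Polynomial.aeval (xn L z) PB) = 1

/-- (LEI) the Leibniz rule for the identity of (COM).

PROOF. For `f ∈ V[x, y]` let `F(z) = aeval ![xn L z, yy L z] f`. `F' = aeval ![..] (dW a2 a4 f)` on `z ∉ L` (`HasDerivAt`; `xn' = 2 yy`; `yy' = 3 x² + 2 a₂ x + a₄`: differentiate `yy² = x³ + a₂ x² + a₄ x + a₆` (`GR`), or `℘'' = 6 ℘² - g₂/2`; Mathlib / `MU3B` has the derivative of `derivWeierstrassP`; see `t_FOI`, `b_TDL`. Induction on `f`: `MvPolynomial.induction_on`, `dW` is a derivation). The same for `M` at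
`mu z` (chain rule: factor `mu`). The set `{mu z ∉ M}` is open and `⊆ {z ∉ L}`. Induction on `k` of the identity `Σ_(i ≤ k) choose k i mu^i (D_M^i x)(mu z) (D_L^(k-i) PB)(z) = (D_L^k PA)(z)` for all `z` with `mu z ∉ M`: differentiate (both sides have the same derivative, as they agree on an open set) and use Pascal's rule (`Finset.sum_range_succ`-manipulation, or `iterate_derivative`-style as in
`Polynomial.iterate_derivative_mul`/`Nat.sum_antidiagonal_choose_succ_mul`). Divide by `k!`: `choose k i/k! = 1/(i! (k-i)!)`. -/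
def S_LEI : Prop :=
  ∀ (V : ValuationSubring ℂ) (L M : PeriodPair) (a2 a4 b2 b4 : V), GRa V L a2 a4 →
    GRa V M b2 b4 → ∀ (mu : ℂ), mu ≠ 0 → Isg L M mu → ∀ PA PB : Polynomial V,
    (∀ z, mu * z ∉ M.lattice → xn M (mu * z) * Polynomial.aeval (xn L z) PB =
        Polynomial.aeval (xn L z) PA) →
    ∀ (k : ℕ) (z : ℂ), mu * z ∉ M.lattice →
      ∑ i ∈ Finset.range (k + 1), mu ^ i * dd M b2 b4 (MvPolynomial.X 0) i (mu * z) *
        dd L a2 a4 (inX PB) (k - i) z = dd L a2 a4 (inX PA) k z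

/-- (LOG) the coefficient `Λ_N` is integral if `mu^N - mu` is a unit for a complex multiplication `mu`.

USES TRG, COM, LEI, `q_YUN`. PROOF. `z = L.ω₁/3`: `3 z ∈ L`, `mu z ∉ L` (otherwise `n z ∈ L`, `3 ∤ n`, `z ∈ L`; `L.ω₁/3 ∉ L`), `3 (mu z) ∈ L`, so `mu z`, `2 mu z` are not in the kernel of reduction (`mem_of_nat_mul`, `v 3 = 1`): `v(yy L (mu z)) = 1` (YUN). (COM) for `M = L`: `PA, PB`, `z ∉ K₁`. Let `n' = N + 1`, `D'_k = dd L a2 a4 (X 0) k (mu z)`; `D'_1 = 2 yy L (mu z)` (`dW (X 0) = 2 X 1`). (TRG) for the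
expansion of `X 0` at `mu z` (`HasExp.exp`): `v(D'_N + Λ_N D'_1) ≤ 1`. At `z`: `a = aeval ![gx, gy] (inX PA)`, `b = aeval ![gx, gy] (inX PB) ∈ V⟦T⟧`; the constant coefficient of `b` is `aeval (xn L z) PB` (`HasExp.exp` for `j = 0`), a unit of `V`, so `b` is a unit of `V⟦T⟧`; `F := a b⁻¹`. In `ℂ⟦T⟧` modulo `T^n'`: `a = Σ A_k Λ^k`, `b = Σ B_k Λ^k`, and with
`F_k = mu^k D'_k`: `(Σ F_k Λ^k)(Σ B_k Λ^k) = Σ A_k Λ^k` (LEI; the products `Λ^(i+j)`, `i + j ≥ n'`, are `0` modulo `T^n'` as `T ∣ Λ`). `b` is invertible in `ℂ⟦T⟧`: `F = Σ_(k<n') F_k Λ^k` modulo `T^n'`. (TRG) for `D_k = F_k`: `v(F_N + Λ_N F_1) ≤ 1`. `mu^N (D'_N + Λ_N D'_1) - (mu^N D'_N + Λ_N mu D'_1) = Λ_N D'_1 (mu^N - mu)`. -/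
def S_LOG : Prop :=
  ∀ (V : ValuationSubring ℂ) (L : PeriodPair) (a2 a4 : V), GRa V L a2 a4 →
    ∀ Λ : PowerSeries ℂ, HasExp V L a2 a4 Λ → ∀ (mu : ℂ) (n : ℕ), IsgN V L L mu n →
    ∀ N : ℕ, 2 ≤ N → (∀ j < N, V.valuation (PowerSeries.coeff j Λ) ≤ 1) →
    V.valuation (mu ^ N - mu) = 1 → V.valuation (PowerSeries.coeff N Λ) ≤ 1

/-- (TYI) from expansions to Taylor.

USES TRG. PROOF. `dint`: (TRG) with `N = n`, the `c_j` are in `V`. `lam 0 = 0`, `lam 1 = 1` (`2 ≤ n`), `int`: clear (`0` for `j ≥ n`). `tay`: `t = tX R`, `v t < 1`. Both `Σ_(j<n) c_j t^j` and `Σ_(k<n) D_k ϖ^k`, `ϖ = Σ_(j<n) lam_j t^j`: the polynomial `Σ_k D_k (Σ_(j<n) lam_j T^j)^k` has coefficients in `V` (`v(D_k) ≤ 1`) and agrees with `Σ_(k<n) D_k Λ^k` modulo `T^n`, so its coefficients below `n` are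
the `c_j` (`HasExp.exp`, first clause); the terms of degree `≥ n` are `≤ v(t)^n` at `t`. Add the second clause of `exp`. (`Polynomial` over `ℂ`, `trunc n Λ`; `Polynomial.eval_eq_sum_range`.) -/
def S_TYI : Prop :=
  ∀ (V : ValuationSubring ℂ) (L : PeriodPair) (a2 a4 : V), GRa V L a2 a4 →
    ∀ Λ : PowerSeries ℂ, HasExp V L a2 a4 Λ → ∀ n : ℕ, 2 ≤ n →
    (∀ j < n, V.valuation (PowerSeries.coeff j Λ) ≤ 1) →
    HasTyI V L n a2 a4 (fun j => if j < n then PowerSeries.coeff j Λ else 0)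

/-- (VPA) `ϖ_M(mu R) = mu ϖ_L(R)` modulo `τ^q`.

USES COM, LEI, `t_FOI`, `q_YUN`. MODEL: `t_ADV`. PROOF. `τ = v(tX_L R)`. `S = mu R`: (FOI) `S ∈ K₁(M)`, `S ∉ M`, `v(tX_M S) = τ`. `z = L.ω₁/3`, `mu z ∉ M`, `mu z, 2 mu z ∉ K₁(M)`, `v(yy M (mu z)) = 1` as in (LOG). `PA, PB` (COM), `z ∉ K₁(L)`, `mu (z + R) ∉ K₁(M)` (`S ∈ K₁(M)`): `v(PB(x(z + R))) = 1`. `HasTay` at `z`, `R` for `inX PA`, `inX PB`, `ϖ = vpi lam q (tX R)`, `v ϖ ≤ τ`:
`PA(x(z+R)) ≡ Σ_k A_k ϖ^k`, `PB(x(z+R)) ≡ Σ_k B_k ϖ^k` modulo `τ^q`, `A_k = dd L (inX PA) k z`, and `A_k = Σ_(i ≤ k) F_i B_(k-i)` (LEI), `F_i = mu^i dd M (X 0) i (mu z)`, all `v ≤ 1` for indices `< q` (`dint`). So `PA ≡ (Σ_(i<q) F_i ϖ^i) PB(x(z+R))`, and dividing by the unit: `xn M (mu z + S) ≡ Σ_(i<q) F_i ϖ^i`. `HasTay` for `M` at `mu z`, `S`, `f = X 0`: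
`xn M (mu z + S) ≡ Σ_(i<q) D'_i ϖ'^i`, `D'_i = dd M (X 0) i (mu z)`, `ϖ' = vpi lam' q (tX_M S)`, `v ϖ' ≤ τ`. Difference: `Σ_(1≤i<q) D'_i (ϖ'^i - (mu ϖ)^i) = (ϖ' - mu ϖ)(D'_1 + (valuation ≤ τ))`, `D'_1 = 2 yy M (mu z)` a unit. So `v(ϖ' - mu ϖ) ≤ τ^q`. -/
def S_VPA : Prop :=
  ∀ (V : ValuationSubring ℂ) (L M : PeriodPair) (a2 a4 b2 b4 : V), GRa V L a2 a4 →
    GRa V M b2 b4 → ∀ (mu : ℂ) (n : ℕ), IsgN V L M mu n → ∀ q : ℕ, 2 ≤ q →
    ∀ lam lam' : ℕ → ℂ, HasTyI V L q a2 a4 lam → HasTyI V M q b2 b4 lam' →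
    ∀ R, InK V L (xn L) R → R ∉ L.lattice →
      V.valuation (vpi lam' q (tX (xn M) (yy M) (mu * R)) - mu * vpi lam q (tX (xn L) (yy L) R)) ≤
        V.valuation (tX (xn L) (yy L) R) ^ q

/-! ## 2. The product over the roots of unity -/

/-- (KY1) the result for one lattice and points `S x` with `ϖ(S x) ≡ ζ x ϖ₀`, `ζ x` with the power sums of the `(q-1)`-th roots of unity.

USES `t_KYI` (PROVED by helper34: `Pool/Agent/TWI/KYI.lean`, read `S_KYI` there), `t_THT`. MODEL: `t_KEY` (`Pool/Agent/TWT/KEY.lean`; there `S c = c R`, `ζ c = c`, `q = p`; the only use of `ADV` is the congruence which is a hypothesis here; `HasTyI.dint` gives `e_k ∈ V`). `τ = v(t₀)`, `v(ϖ₀) = τ` (`v(ϖ₀ - t₀) ≤ τ²`), `v(t(S x)) = τ`;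
`v(q ϖ₀^(q-1)) ≤ v(p)^2 v(p) ≤ τ^q`, `q = p²`. `A = V`, `I = {r : v r ≤ τ^q}`, `N = q - 1`. -/
def S_KY1 : Prop :=
  ∀ (V : ValuationSubring ℂ) (L : PeriodPair) (a2 a4 : V), GRa V L a2 a4 → ∀ p : ℕ, p.Prime →
    5 ≤ p → V.valuation (p : ℂ) < 1 → ∀ lam : ℕ → ℂ, HasTyI V L (p ^ 2) a2 a4 lam →
    ∀ (J : Type) (T : Finset J) (ζ S : J → ℂ), (∀ x ∈ T, V.valuation (ζ x) ≤ 1) →
    (∀ j, 0 < j → j < p ^ 2 - 1 → ∑ x ∈ T, ζ x ^ j = 0) →
    ∑ x ∈ T, ζ x ^ (p ^ 2 - 1) = ((p ^ 2 - 1 : ℕ) : ℂ) → T.card = p ^ 2 - 1 →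
    ∀ w0 t0 : ℂ, V.valuation (w0 - t0) ≤ V.valuation t0 ^ 2 →
    V.valuation t0 ^ (p ^ 2 - 1) = V.valuation (p : ℂ) →
    (∀ x ∈ T, InK V L (xn L) (S x) ∧ S x ∉ L.lattice ∧
      V.valuation (tX (xn L) (yy L) (S x)) = V.valuation t0 ∧
      V.valuation (vpi lam (p ^ 2) (tX (xn L) (yy L) (S x)) - ζ x * w0) ≤
        V.valuation t0 ^ (p ^ 2)) →
    ∀ (a : ℕ) (H : Finset ℂ), 1 < a → V.valuation (a : ℂ) = 1 → IsHalf L (a : ℂ) H →
    ∀ z : ℂ, ¬ InK V L (xn L) z → ¬ InK V L (xn L) (a * z) →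
      (∀ u : ℂ, InK V L (xn L) u → V.valuation (ThetaH L H (z + u)) = 1 ∧
        V.valuation (dlX L a (z + u)) ≤ 1) ∧
      V.valuation (∑ x ∈ T, ζ x * dlX L a (z + S x)) ≤ V.valuation t0 ^ (p ^ 2 - 2) ∧
      V.valuation (∏ x ∈ T, ThetaH L H (z + S x) -
          ThetaH L H z ^ (p ^ 2 - 1) * (1 - w0 * ∑ x ∈ T, ζ x * dlX L a (z + S x))) ≤
        V.valuation t0 ^ (p ^ 2)

/-! ## 3. The kernel of an isogeny and the kernel of reduction (composite degrees) -/

/-- (R2I) if the multiplier is not a unit, some point of the kernel is in the kernel of reduction.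

USES `x_POL`. PROOF. `Pool/Agent/MUX/R_R2.lean` word for word: suppose no point `u ∉ L` with `mu u ∈ M` is in `K₁` (this is `hno` there, the only use of `cyc`). Then `R2.red`. -/
def S_R2I : Prop :=
  ∀ (V : ValuationSubring ℂ) (L M : PeriodPair) (a2 a4 b2 b4 : V), GRa V L a2 a4 →
    GRa V M b2 b4 → ∀ (mu : ℂ) (H : Finset ℂ), mu ≠ 0 → Isg L M mu → HalfI L M mu H →
    V.valuation mu < 1 → ∃ u, mu * u ∈ M.lattice ∧ u ∉ L.lattice ∧ InK V L (xn L) u

/-- (R4I) kernel of order `p^k` inside the kernel of reduction.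

USES `x_POL`. PROOF. `Pool/Agent/MUX/R_R4.lean` (claim (1), `tx_R4`), with `q` replaced by `N = p ^ k` (`(X - e)^N` in characteristic `p`: `sub_pow_char_pow`). `w₁, w₂` incongruent points of order two (`R2.half`). (POL) at `x = 0`, `c = 1/12`: `(e₂' - e₁') (mu ∏ (- x(q)))² = (-e₁) ∏ (x(w₁+q))² - (-e₂) ∏ (x(w₂ + q))² ≡ (-e₁)^N - (-e₂)^N ≡ (e₂ - e₁)^N`, a unit; `e₂' - e₁'` is a unit. -/
def S_R4I : Prop :=
  ∀ (V : ValuationSubring ℂ) (L M : PeriodPair) (a2 a4 b2 b4 : V), GRa V L a2 a4 →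
    GRa V M b2 b4 → ∀ (mu : ℂ) (H : Finset ℂ), mu ≠ 0 → Isg L M mu → HalfI L M mu H →
    ∀ p k : ℕ, p.Prime → p ≠ 2 → V.valuation (p : ℂ) < 1 → 2 * H.card + 1 = p ^ k →
    (∀ u, mu * u ∈ M.lattice → InK V L (xn L) u) →
    V.valuation mu * ∏ q ∈ H, V.valuation (xn L q) = 1

/-! ## 4. Points of order `p` and multipliers for the lattices `L_i` -/

/-- (GRI) the lattices `L_i` and the multipliers `mu_i`. MODEL: `t_PIS` (`Pool/Agent/TWT/PIS.lean`).

USES `x_NGR, x_MUN` (StVX). PROOF. `v p < 1`: `OverI` for `x = p ∈ P`. Integers prime to `p` are units (`OverI`: `j ∈ P = (p)` iff `p ∣ j`; they are in `V`). `GR`: (NGR), `kp = kap` by definition, `12 g₂ = 1 + 1728 kap`. `mu_i = muX R i = om_i N(b_i)/om_0`: `L_0 = om_0 emb O` (`R.b0`), `N(b_i) ∈ b_i` (`nI_mem`): `Isg`; kernel: as `t_PIS`. `nI (b_i)` is prime to `p f` (`R.cop`), `f` is even; NOT nec. prime to `3`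
(so this is not `IsgN`). (MUN): `v(mu_i) = 1`. -/
def S_GRI : Prop :=
  ∀ (p : ℕ) (A B : ℤ) (P : Ideal (OO A B)) (V : ValuationSubring ℂ) (f : ℕ),
    SetI p A B P V f → ∀ (ι : Type) (R : Reps A B (p * f) ι), GRd V R →
    (∀ i, ∃ a2 a4 : V, GRa V (R.L i) a2 a4) ∧
    V.valuation (p : ℂ) < 1 ∧ (∀ j : ℤ, ¬ (p : ℤ) ∣ j → V.valuation (j : ℂ) = 1) ∧
    (∀ x : OO A B, V.valuation (emb x) ≤ 1 ∧ (V.valuation (emb x) = 1 ↔ x ∉ P)) ∧
    ∀ i, muX R i ≠ 0 ∧ Isg (R.L R.i0) (R.L i) (muX R i) ∧ V.valuation (muX R i) = 1 ∧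
      Odd (nI (R.b i)) ∧ V.valuation ((nI (R.b i) : ℕ) : ℂ) = 1 ∧
      ∀ z, muX R i * z ∈ (R.L i).lattice → ((nI (R.b i) : ℕ) : ℂ) * z ∈ (R.L R.i0).lattice

/-- (PTI) the points `pt R p i x` are the points of order `p` of `L_i`.

PROOF. `n = nI (b_i)`, prime to `p` (`R.cop`); `L_i = om_i emb b_i`, `pt R p i x = om_i n emb x/p`. (1) `n x/p ∈ b_i` iff `n x ∈ p b_i`; then `n x ∈ (p)`, `x ∈ (p)` (`n` prime to `p`); conversely `x = p y`: `n y ∈ b_i`. (2) definition. (3) `z = om_i emb y/p`, `y ∈ b_i`; `u n + v p = 1`: `y = n (u y) + p (v y)`, `v y ∈ b_i`: `z - pt R p i (u y) = om_i emb (v y) ∈ L_i`. (4), (5) definitions (`emb` additive,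
multiplicative); `x - y ∈ P = (p)`: `pt (x - y) = om_i n emb y' ∈ L_i`. (6) `O` is a domain and `b_i` an ideal: `emb α L_i ⊆ L_i`. -/
def S_PTI : Prop :=
  ∀ (p : ℕ) (A B : ℤ) (P : Ideal (OO A B)) (V : ValuationSubring ℂ) (f : ℕ),
    SetI p A B P V f → ∀ (ι : Type) (R : Reps A B (p * f) ι) (i : ι),
    (∀ x, pt R p i x ∈ (R.L i).lattice ↔ x ∈ P) ∧
    (∀ x, (p : ℂ) * pt R p i x ∈ (R.L i).lattice) ∧
    (∀ z, (p : ℂ) * z ∈ (R.L i).lattice → ∃ x, z - pt R p i x ∈ (R.L i).lattice) ∧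
    (∀ x y, x - y ∈ P → pt R p i x - pt R p i y ∈ (R.L i).lattice) ∧
    (∀ x y, pt R p i (x * y) = emb x * pt R p i y) ∧
    (∀ x, pt R p i x = muX R i * pt R p R.i0 x) ∧
    ∀ (α : OO A B) (z : ℂ), z ∈ (R.L i).lattice → emb α * z ∈ (R.L i).lattice

/-- (MLI) every class modulo `P`, not zero, is the class of a complex multiplication as in `IsgN`.

USES GRI. PROOF. `P = (p)`, `p ≥ 5`: `u p + v 6 = 1` (integers), `α = v 6 x + u p`: `α ≡ x` modulo `p`, `α ≡ 1` modulo `6`. `n = (nm α).natAbs`: `nm α = α star α`, `≡ 1` modulo `6` (`nm α - 1 = (α - 1) star α + (star α - 1) ∈ (6)`, an integer in `6 O` is divisible by `6`): odd, not divisible by `3`; `p ∤ nm α`: otherwise `α star α ∈ P`, `P` prime and `star P = P`: `α ∈ P`, `x ∈ P`. `v n = 1` (GRI). Kernel: `emb α z ∈ L_i` gives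
`nm α z = emb (star α) (emb α z) ∈ L_i` (`IsLI.hasCM`). `v(emb α) = 1`: GRI. `α ≠ 0`, `emb` injective. -/
def S_MLI : Prop :=
  ∀ (p : ℕ) (A B : ℤ) (P : Ideal (OO A B)) (V : ValuationSubring ℂ) (f : ℕ),
    SetI p A B P V f → ∀ (ι : Type) (R : Reps A B (p * f) ι), GRd V R → ∀ x : OO A B, x ∉ P →
    ∃ (α : OO A B) (n : ℕ), α - x ∈ P ∧ ∀ i, IsgN V (R.L i) (R.L i) (emb α) n

/-- (LGI) the coefficients of the formal logarithms of the `L_i` below `p²` are integral.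

USES LOG, MLI, `t_TEP`. PROOF. Strong induction on `j < p²`. `j = 0, 1`: `c0, c1`. `N = j ≥ 2`: (TEP) `x ∉ P`, `v(emb x^N - emb x) = 1`; (MLI) `α ≡ x` modulo `P`: `α^N - α ≡ x^N - x` modulo `P`, so `v(emb α^N - emb α) = 1`. (LOG) for `mu = emb α`. -/
def S_LGI : Prop :=
  ∀ (p : ℕ) (A B : ℤ) (P : Ideal (OO A B)) (V : ValuationSubring ℂ) (f : ℕ),
    SetI p A B P V f → ∀ (ι : Type) (R : Reps A B (p * f) ι), GRd V R → ∀ (i : ι) (a2 a4 : V),
    GRa V (R.L i) a2 a4 → ∀ Λ : PowerSeries ℂ, HasExp V (R.L i) a2 a4 Λ →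
    ∀ j < p ^ 2, V.valuation (PowerSeries.coeff j Λ) ≤ 1

/-- (KRI) the points of order `p` are in the kernel of reduction, `v(t)^(p²-1) = v p`.

USES R2I, R4I, GRI, PTI, MLI, `t_TEP`, `x_HAL, x_HRE` (StVX), `t_FOI`. PROOF. `L = L_i`. `mu = p : L → L`, `Isg`; the kernel `{z : p z ∈ L}` has no point of order two: half system `H` (HAL). `2 |H| + 1 = p²`: (HRE) `H ∪ -H` are representatives of `E[p] - 0`, and so are the `pt R p i x`, `x ∈ T`, `RepI P T`, `T.card = p² - 1` (PTI, TEP). (R2I) with `mu = p` (`v p < 1`): `u ∈ E[p]`, `u ∉ L`, in the kernel of reduction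
`K₁`. (PTI): `u ≡ pt R p i x₀`, `x₀ ∉ P`. For `x ∉ P`: `O/P` is a field: `y x₀ - x ∈ P`, `y ∉ P`; (MLI) `α ≡ y`: `pt R p i x ≡ emb α u` modulo `L`; (FOI) with `M = L`, `mu = emb α`: in `K₁`, and `v(tX(emb α u) - emb α tX u) ≤ v(tX u)²`, so `v(tX (pt x)) = v(tX u)` (`v(emb α) = 1`, `v(tX u) < 1`; `tX` is periodic: `TRA.tX_congr`). So all points of `E[p]` are in `K₁`
(`z ∈ L` too), with the same `τ = v(tX)`. (R4I), `k = 2`: `v(p) ∏_(q ∈ H) v(xn L q) = 1`, `v(xn L q) τ² = 1` (`v_tX_lt`): `v(p) = τ^(2|H|) = τ^(p²-1)`. -/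
def S_KRI : Prop :=
  ∀ (p : ℕ) (A B : ℤ) (P : Ideal (OO A B)) (V : ValuationSubring ℂ) (f : ℕ),
    SetI p A B P V f → ∀ (ι : Type) (R : Reps A B (p * f) ι), GRd V R → ∀ (i : ι) (x : OO A B),
    x ∉ P → InK V (R.L i) (xn (R.L i)) (pt R p i x) ∧ pt R p i x ∉ (R.L i).lattice ∧
      V.valuation (tX (xn (R.L i)) (yy (R.L i)) (pt R p i x)) ^ (p ^ 2 - 1) = V.valuation (p : ℂ)

/-- (TRI) the local parameter to first order (also for the TYPE block).

USES KRI, MLI, PTI, `t_TEP`, GRI, `t_FOI`. PROOF. (MLI) `α ≡ x`: `pt R p i x ≡ emb α pt R p i 1` modulo `L_i` (PTI), (FOI): `v(tX(emb α R) - emb α tX R) ≤ v(tX R)²`; `v(emb α - w x) = v(emb α - w α) ≤ v p ≤ v(tX R)` (TEP; `v p = v(tX R)^(p²-1)`, `v(tX R) < 1`). -/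
def S_TRI : Prop :=
  ∀ (p : ℕ) (A B : ℤ) (P : Ideal (OO A B)) (V : ValuationSubring ℂ) (f : ℕ),
    SetI p A B P V f → ∀ w : OO A B → ℂ, TeiI p P V w → ∀ (ι : Type)
    (R : Reps A B (p * f) ι), GRd V R → ∀ (i : ι) (x : OO A B), x ∉ P →
      V.valuation (tX (xn (R.L i)) (yy (R.L i)) (pt R p i x) -
        w x * tX (xn (R.L i)) (yy (R.L i)) (pt R p i 1)) ≤
      V.valuation (tX (xn (R.L i)) (yy (R.L i)) (pt R p i 1)) ^ 2

/-- (ROT) `ϖ(pt x) ≡ w(x) ϖ(pt 1)` modulo `τ^q`.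

USES VPA, KRI, MLI, PTI, `t_TEP`, GRI. PROOF. `L = L_i`, `R₁ = pt R p i 1`, `τ = v(tX R₁)`, `τ^(q-1) = v p`. (MLI) `α ≡ x` modulo `P`, `pt R p i x ≡ emb α R₁` modulo `L`; `tX` periodic; (VPA) for `M = L`, `mu = emb α`: `v(ϖ(emb α R₁) - emb α ϖ(R₁)) ≤ τ^q`; `v(emb α - w x) ≤ v p`, `v(ϖ(R₁)) ≤ τ`: `v((emb α - w x) ϖ(R₁)) ≤ v(p) τ = τ^q`. -/
def S_ROT : Prop :=
  ∀ (p : ℕ) (A B : ℤ) (P : Ideal (OO A B)) (V : ValuationSubring ℂ) (f : ℕ),
    SetI p A B P V f → ∀ w : OO A B → ℂ, TeiI p P V w → ∀ (ι : Type)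
    (R : Reps A B (p * f) ι), GRd V R → ∀ (i : ι) (a2 a4 : V), GRa V (R.L i) a2 a4 →
    ∀ lam : ℕ → ℂ, HasTyI V (R.L i) (p ^ 2) a2 a4 lam → ∀ x : OO A B, x ∉ P →
      V.valuation (vpi lam (p ^ 2) (tX (xn (R.L i)) (yy (R.L i)) (pt R p i x)) -
        w x * vpi lam (p ^ 2) (tX (xn (R.L i)) (yy (R.L i)) (pt R p i 1))) ≤
      V.valuation (tX (xn (R.L i)) (yy (R.L i)) (pt R p i 1)) ^ (p ^ 2)

end

end Pool.Agent.TWI


end

section

/-!
# TWI, block B: a large sum `SSTI` gives a non-power, `p` inert (helper59)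

As `Pool/Agent/TWT/StT2.lean` (block B for split `p`; its modules are proved, the files `Pool/Agent/TWT/X.lean` are the models: copy and adapt them).
`SetI p A B P V f`: `P = (p)` is prime, `O/P` has `q = p²` elements; `R : Reps A B (p * f) ι`, `m` a level prime to `p` (`LvM`), `M = m p`, `F = RF (idl M)`,
`G = Gal(F/k)`. `v = V.valuation`. `x0 ∈ P`, `x0 ≡ 1` modulo `m`; `T` = representatives of the nonzero classes modulo `P` (`RepI P T`), `a_c = x0 + c m`, `c ∈ T`: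
prime to `M`, `≡ 1` modulo `m`. `pt R M i (x a_c) = z + pt R p i (x c)`, `z = pt R M i (x x0)` of level `m` (`x0 = p x1`, `z = pt R m i (x x1)`).
Every `def S_X : Prop` is the statement of a module, which proves `theorem t_X (h : S_Y) ... : S_X` (hypotheses: the statements named under USES, fewer is fine)
in `Pool/Agent/TWI/X.lean`, namespace `Pool.Agent.TWI`. The general modules of the split block B are THEOREMS which may be cited: `Pool.Agent.TWT.t_HTF`, `t_DTP`, `t_NMF`,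
`t_KUM`, `t_PROG`, `t_RSF` (`Pool/Agent/TWT/HTF.lean`, ..); also all facts named in the header of `StT2.lean`.
-/

set_option autoImplicit false

open WeierstrassCurve Polynomial NumberField IsDedekindDomain

namespace Pool.Agent.TWI

open _root_.MU3 Pool.Agent.MU3A Pool.Agent.MU3B Pool.Agent.MU3C Pool.Agent.RI Pool.Agent.RID
open Pool.Agent.MUX Pool.Agent.MUXU Pool.Agent.MUXW Pool.Agent.TWT
open Pool.Agent.MU3V (cls Sub GD algDF)
open Pool.Agent.MUXV (GR InK tX)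
open Pool.Agent.MUXI (IA RE AR)
open OnePoint

noncomputable section

/-! ## 1. Ideals and valuations -/

/-- (IDPI) ideals. PROOF. `x ∈ idl p` iff `p` divides `x.re` and `x.im` ((1)). (2) `nI (sp p) = nm p = p²` (`nI_sp` of `XLib.lean`); `T` is in bijection with the nonzero classes; a set `T` exists (choose a representative in each nonzero class; `O/P` is finite). (3) `u m + v p = 1` in `ℤ`: `x0 = v p`. (4) `x0 + c m`: modulo `P`: `≡ c m ∉ P` (`P` prime, `m ∉ P` by (1)); `P` is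
maximal (finite domain), so it is prime to `p`; modulo `m`: `≡ 1`. (5) an `x` prime to `f` and not in `P` is prime to every `m p`, if the prime divisors of `m` divide `f` (stated for `m = f l^N`). -/
def S_IDPI : Prop :=
  ∀ (p : ℕ) (A B : ℤ) (P : Ideal (OO A B)) (V : ValuationSubring ℂ) (f : ℕ), SetI p A B P V f →
    (∀ c : ℤ, (c : OO A B) ∈ P ↔ (p : ℤ) ∣ c) ∧
    Nat.card (OO A B ⧸ P) = p ^ 2 ∧ (∃ T, RepI P T) ∧ (∀ T, RepI P T → T.card = p ^ 2 - 1) ∧
    (∀ m : ℕ, ¬ p ∣ m → IsCoprime (idl (A := A) (B := B) m) P ∧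
      (∃ x0 : OO A B, x0 ∈ P ∧ x0 - 1 ∈ idl (A := A) (B := B) m)) ∧
    (∀ (m : ℕ) (x0 : OO A B), m ≠ 0 → ¬ p ∣ m → x0 ∈ P → x0 - 1 ∈ idl (A := A) (B := B) m →
      ∀ c : OO A B, c ∉ P → IsCoprime (x0 + c * m) ((m * p : ℕ) : OO A B) ∧
        x0 + c * m - 1 ∈ idl (A := A) (B := B) m) ∧
    ∀ (l N : ℕ), l ∣ f → ∀ x : OO A B, IsCoprime (sp x) (idl f : Ideal (OO A B)) → x ∉ P →
      IsCoprime x ((f * l ^ N * p : ℕ) : OO A B)

/-- (VPGI) the valuation: as `S_VPG` (`TWT/VPG.lean`), for `SetI`. -/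
def S_VPGI : Prop :=
  ∀ (p : ℕ) (A B : ℤ) (P : Ideal (OO A B)) (V : ValuationSubring ℂ) (f : ℕ), SetI p A B P V f →
    V.valuation (p : ℂ) < 1 ∧ V.valuation (p : ℂ) ≠ 0 ∧
    (∀ x : OO A B, V.valuation (emb x) ≤ 1 ∧ (V.valuation (emb x) < 1 ↔ x ∈ P)) ∧
    (∀ n : ℤ, ¬ (p : ℤ) ∣ n → V.valuation (n : ℂ) = 1) ∧
    V.valuation (2 : ℂ) = 1 ∧ V.valuation (3 : ℂ) = 1 ∧
    ∀ (ι : Type) (R : Reps A B (p * f) ι), GRd V R → ∀ i, GRn V (R.L i) ∧
      ∀ (m : ℕ) (z : ℂ), ¬ p ∣ m → (m : ℂ) * z ∈ (R.L i).lattice → InEn V (R.L i) z →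
        z ∈ (R.L i).lattice

/-- (RAMGI) as `S_RAMG` (`TWT/RAMG.lean`), for `SetI`. USES VPGI. Only change: `p ∉ P²`: `P² = (p²)`, `p = p² y` is impossible (`1 = p y`, `P` would be `⊤`). -/
def S_RAMGI : Prop :=
  ∀ (p : ℕ) (A B : ℤ) (P : Ideal (OO A B)) (V : ValuationSubring ℂ) (f : ℕ), SetI p A B P V f →
    ∀ (F : IntermediateField (kk A B) ℂ) [FiniteDimensional (kk A B) F] [IsGalois (kk A B) F],
      (∀ σ : F ≃ₐ[kk A B] F, (∀ x : F, V.valuation (x : ℂ) ≤ 1 →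
        V.valuation ((σ x : ℂ) - x) < 1) → σ = 1) →
      ∀ y ∈ F, y ≠ 0 → ∃ k : ℤ, V.valuation y = V.valuation (p : ℂ) ^ k

/-- (UNRGI) as `S_UNRG` (`TWT/UNRG.lean`), for `SetI`. USES VPGI, RAMGI. -/
def S_UNRGI : Prop :=
  ∀ (p : ℕ) (A B : ℤ) (P : Ideal (OO A B)) (V : ValuationSubring ℂ) (f : ℕ), SetI p A B P V f →
    TorX A B → ∀ (ι : Type) [Finite ι] (R : Reps A B (p * f) ι), GRd V R →
    ∀ m : ℕ, m ≠ 0 → ¬ p ∣ m → ∀ y ∈ (RF (idl m) : IntermediateField (kk A B) ℂ), y ≠ 0 →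
      ∃ k : ℤ, V.valuation y = V.valuation (p : ℂ) ^ k

/-- (MUGI) as `S_MUG` (`TWT/MUG.lean`), for `SetI`. USES VPGI. -/
def S_MUGI : Prop :=
  ∀ (p : ℕ) (A B : ℤ) (P : Ideal (OO A B)) (V : ValuationSubring ℂ) (f : ℕ), SetI p A B P V f →
    ∀ (ι : Type) (R : Reps A B (p * f) ι), GRd V R → ∀ i, V.valuation (muX R i) = 1

/-- (EABE) the second part of `S_EAB` (`TWT/EAB.lean`) with any exponent `e` in place of `p - 1`; same proof: `EtT t C ^ e * EtT t C'' = EtT t K * EtT (t ∘ (χ φ *)) C''` up to powers. -/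
def S_EABE : Prop :=
  ∀ (p : ℕ) [Fact p.Prime] (G Fr Mt : Type) [Group G] [Fintype G] [Field Fr] [CharP Fr p]
    [CommGroup Mt] (χ : G →* Frˣ) (e : ℕ) (C C'' K : G → Mt) (φ : G), χ φ ≠ 1 →
      (∀ τ, C τ ^ e * C'' τ = K τ * C'' (τ * φ)) →
      (∀ t : Fr →+ ZMod p, ∃ y : Mt, y ^ p = EtT p χ t C) →
      (∀ t : Fr →+ ZMod p, ∃ y : Mt, y ^ p = EtT p χ t K) →
      ∀ t : Fr →+ ZMod p, ∃ y : Mt, y ^ p = EtT p χ t (fun τ => (C τ / C'' τ) ^ e)

/-! ## 2. The points and the norm relation -/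

/-- (KRPI) the kernel `E[p]` (model: `TWT/KRP.lean`).

USES IDPI. PROOF. `L = R.L i = om_i emb (b_i)`, `P = (p)`: `mu z ∈ L'` iff `x z ∈ L` for all `x ∈ P`, iff `p z ∈ L` (`L` is stable under `emb O`). (2) `pt R p i c - pt R p i c' = om_i N(b_i) emb (c - c')/p`; it is in `L` iff `N(b_i)(c - c') ∈ p b_i`; `c - c' ∈ P` suffices (`N(b_i) ∈ b_i`); conversely multiply by `cjI b_i`: `N(b_i) (c - c') cjI (b_i) ⊆ p N(b_i) O`, so `(c - c') cjI (b_i) ⊆ (p) = P`,
`cjI (b_i)` contains `N(b_i)`, which is prime to `p` (`R.cop`), so `c - c' ∈ P`. (3) `0 < ` all classes: `p z ∈ L`, `z = om_i u`, `p u = emb β`, `β ∈ b_i`; `s N(b_i) + t p = 1` in `ℤ`: `u = emb (s N(b_i) β + t p β)/p = N(b_i) emb (s β)/p + emb (t β)`, so `z ≡ pt R p i (s β)` modulo `L`. So `{pt R p i c : c ∈ T}` represents the nonzero classes. Card: by (2) and `RepI.inj` the map is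
injective on `T`. -/
def S_KRPI : Prop :=
  ∀ (p : ℕ) (A B : ℤ) (P : Ideal (OO A B)) (V : ValuationSubring ℂ) (f : ℕ), SetI p A B P V f →
    ∀ (ι : Type) (R : Reps A B (p * f) ι) (i : ι) (L' : PeriodPair) (mu : ℂ),
    IsQ P (R.L i) L' mu → ∀ T : Finset (OO A B), RepI P T →
    Isg (R.L i) L' mu ∧ (∀ z, mu * z ∈ L'.lattice → (p : ℂ) * z ∈ (R.L i).lattice) ∧
    (∀ c c' : OO A B, pt R p i c - pt R p i c' ∈ (R.L i).lattice ↔ c - c' ∈ P) ∧
    IsRpM (R.L i) L' mu (T.image (pt R p i)) ∧ (T.image (pt R p i)).card = p ^ 2 - 1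

/-- (NRRI) the norm relation over `P = (p)` (model: `TWT/NRR.lean`).

USES IDPI, KRPI (and `t_HTF`, `t_DTP` of TWT). PROOF. As `S_NRR`, with these changes: `I = idl m` (`P` is coprime to `I`: IDPI), `TorX.surj (idl m) P` gives `s₀`; `x0 = p x1`, so `z_b = pt R M i0 (b x0) = om_0 emb (b x1)/m` is of level `m`. `a_c = x0 + c m`, `c ∈ T`: `pt R M i0 (b a_c) = z_b + pt R p i0 (b c)`. For `b` prime to `M` the set `b T` is a system of
representatives too (`b ∉ P`, `P` prime), so (KRPI) for `b T`, (DTP) with `n = p` and `card = p² - 1` even; the product over the classes of `E[p] - 0` does not depend on `b`. `φ(Θ(z_b)) = Θ(mu z_b; L')`. Galois theory at the end as in NRR. -/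
def S_NRRI : Prop :=
  ∀ (p : ℕ) (A B : ℤ) (P : Ideal (OO A B)) (V : ValuationSubring ℂ) (f : ℕ), SetI p A B P V f →
    TorX A B → ∀ (ι : Type) [Finite ι] (R : Reps A B (p * f) ι) (m : ℕ), LvM p f m R →
    ∀ (x0 : OO A B), x0 ∈ P → x0 - 1 ∈ idl (A := A) (B := B) m → ∀ T : Finset (OO A B), RepI P T →
    ∀ (a : ℕ) (H : Finset ℂ), 1 < a → a.Coprime (2 * m * p) → IsHalf (R.L R.i0) a H →
    ∀ θ : (RF (idl (m * p)) : IntermediateField (kk A B) ℂ),
    (θ : ℂ) = ThetaH (R.L R.i0) H (pt R (m * p) R.i0 1) →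
    ∃ (θ'' κ : (RF (idl (m * p)) : IntermediateField (kk A B) ℂ))
      (γ : OO A B →
        ((RF (idl (m * p)) : IntermediateField (kk A B) ℂ) ≃ₐ[kk A B] RF (idl (m * p))))
      (φ : (RF (idl (m * p)) : IntermediateField (kk A B) ℂ) ≃ₐ[kk A B] RF (idl (m * p)))
      (s₀ : ℂ ≃+* ℂ),
      (θ'' : ℂ) = ThetaH (R.L R.i0) H (pt R (m * p) R.i0 x0) ∧ θ ≠ 0 ∧ θ'' ≠ 0 ∧ κ ≠ 0 ∧
      (κ : ℂ) ∈ (RF (⊤ : Ideal (OO A B)) : IntermediateField (kk A B) ℂ) ∧
      (∀ c ∈ T, HitF R (m * p) _ (γ c) R.i0 (x0 + c * m)) ∧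
      (∀ c ∈ T, ∀ y : (RF (idl (m * p)) : IntermediateField (kk A B) ℂ),
        (y : ℂ) ∈ (RF (idl m) : IntermediateField (kk A B) ℂ) → γ c y = y) ∧
      (∏ c ∈ T, γ c θ) * θ'' = κ * φ θ'' ∧
      IA s₀ (idl (A := A) (B := B) m) P ∧
      ∀ y : (RF (idl (m * p)) : IntermediateField (kk A B) ℂ), s₀ (y : ℂ) = ((φ y :
        (RF (idl (m * p)) : IntermediateField (kk A B) ℂ)) : ℂ)

/-! ## 3. The sums -/

/-- (XPCI) the conjugates of `u = ∏ γ_c θ / θ''^(q-1)` to the first order (model: `TWT/XPC.lean`).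

USES S_KEYI (block A), IDPI, VPGI (and `t_HTF`). PROOF. `t0 := t0' w(m)⁻¹`, `t0'` from `S_KEYI`; `w(m)` is a root of unity (`m ∉ P`). HTF (5): `σ(γ_c θ) = Θ(L_i; pt R M i (x a_c))` (`γ_c θ = Θ(pt R M i0 a_c)` by HTF (5) for `γ_c` and `x' = 1`), `σ θ'' = Θ(L_i; z)`, `z = pt R M i (x x0)`, `pt R M i (x a_c) = z + pt R p i (x c)`. `x ∉ P` (prime to `M`), so `T' = x T` is a system
of representatives (`RepI`), and `c ↦ x c` is injective on `T`. Apply `S_KEYI` for `T'` (`∏_(y ∈ T') = ∏_(c ∈ T)`, `Finset.prod_image`) and `H' = H i` a half system on `L_i`; divide by `Θ(z)^(q-1)`, a unit (first clause, `x = 0`: `pt R p i 0 = 0`). `w (x c) = w(m)⁻¹ w (x a_c)` (`x a_c ≡ x c m` modulo `P`). `z`, `2 z`, `a z` are not in the kernel of reduction: if `n z` is (`n = 1, 2, a`):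
`m (n z) ∈ L_i` (`x0 = p x1`), so `n z ∈ L_i` (VPGI), `m ∣ n x x1`.. as in XPC: `x` and `x1` are prime to `m` (`p x1 ≡ 1`), so `m ∣ n`; `m ≥ 3`, `a > 1` prime to `m`: a contradiction. -/
def S_XPCI : Prop :=
  ∀ (p : ℕ) (A B : ℤ) (P : Ideal (OO A B)) (V : ValuationSubring ℂ) (f : ℕ), SetI p A B P V f →
    TorX A B → ∀ (ι : Type) [Finite ι] (R : Reps A B (p * f) ι), GRd V R → ∀ (m : ℕ),
    LvM p f m R → ∀ (x0 : OO A B), x0 ∈ P → x0 - 1 ∈ idl (A := A) (B := B) m →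
    ∀ w : OO A B → ℂ, TeiI p P V w → ∀ T : Finset (OO A B), RepI P T →
    ∃ t0 : ℂ, t0 ≠ 0 ∧ V.valuation t0 ^ (p ^ 2 - 1) = V.valuation (p : ℂ) ∧
    ∀ (a : ℕ) (H : Finset ℂ), 1 < a → a.Coprime (2 * m * p) → IsHalf (R.L R.i0) a H →
    ∀ θ θ'' : (RF (idl (m * p)) : IntermediateField (kk A B) ℂ),
    (θ : ℂ) = ThetaH (R.L R.i0) H (pt R (m * p) R.i0 1) →
    (θ'' : ℂ) = ThetaH (R.L R.i0) H (pt R (m * p) R.i0 x0) →
    ∀ γ : OO A B →
      ((RF (idl (m * p)) : IntermediateField (kk A B) ℂ) ≃ₐ[kk A B] RF (idl (m * p))),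
    (∀ c ∈ T, HitF R (m * p) _ (γ c) R.i0 (x0 + c * m)) →
    ∀ (σ : (RF (idl (m * p)) : IntermediateField (kk A B) ℂ) ≃ₐ[kk A B] RF (idl (m * p)))
      (i : ι) (x : OO A B), HitF R (m * p) _ σ i x →
      V.valuation (((σ ((∏ c ∈ T, γ c θ) / θ'' ^ (p ^ 2 - 1)) :
          (RF (idl (m * p)) : IntermediateField (kk A B) ℂ)) : ℂ) - 1 +
        muX R i * t0 * ∑ c ∈ T, w (x * (x0 + c * m)) *
          dlX (R.L i) a (pt R (m * p) i (x * (x0 + c * m)))) ≤
        V.valuation (p : ℂ) * V.valuation t0 ∧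
      V.valuation t0 * V.valuation (∑ c ∈ T, w (x * (x0 + c * m)) *
          dlX (R.L i) a (pt R (m * p) i (x * (x0 + c * m)))) ≤ V.valuation (p : ℂ)

/-- (CNTI) counting, for any level (model: `TWT/CNT.lean`).

Uses `t_HTF`. PROOF. `G' i x := G i (x a)` is periodic modulo `M`, even, `0` if `x` is not prime to `M`, and `sumMod M (G' i) = sumMod M (G i)` (`x ↦ x a` permutes `O/M`). So let `a = 1`. By HTF (1)-(4) every `(i, x)`, `x` modulo `M` prime to `M`, is `(I σ, ± X σ)` for exactly one `σ` and one sign (`2 x ∉ idl M` as `x` is prime to `M` and `M ≥ 3`). -/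
def S_CNTI : Prop :=
  ∀ (A B : ℤ), CQ A B → TorX A B → ∀ (n : ℕ) (ι : Type) [Fintype ι] (R : Reps A B n ι) (M : ℕ),
    3 ≤ M → (∀ i, (nI (R.b i)).Coprime M) → ∀ (G : ι → OO A B → ℂ),
    (∀ i x y, x - y ∈ idl (A := A) (B := B) M → G i x = G i y) →
    (∀ i x, G i (-x) = G i x) →
    (∀ i x, ¬ IsCoprime x ((M : ℕ) : OO A B) → G i x = 0) →
    ∀ a : OO A B, IsCoprime a ((M : ℕ) : OO A B) →
    ∀ [Fintype (GalF A B M)] (I : GalF A B M → ι) (X : GalF A B M → OO A B),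
    (∀ σ, HitF R M _ σ (I σ) (X σ)) →
    2 * ∑ σ : GalF A B M, G (I σ) (X σ * a) = ∑ i, sumMod ((M : ℕ) : OO A B) (G i)

/-- (SIGI) the sum over `Gal(F/k)` in terms of `SDTI` (model: `TWT/SIG.lean`, but exact and simpler).

USES IDPI, VPGI, CNTI. PROOF. `M = f l^N p`, `m = f l^N`. `G i x = th i x w x mu_i dlX (L_i) a (pt R M i x)`, `th = thT R kp eta ψ`: periodic modulo `M`, even (`th` even; `w(-1) = -1` as `w(-1)² = 1`, `v(w(-1) + 1) < 1`, `v 2 = 1`; `dlX` odd), `0` if `x` is not prime to `M` (IDPI (5): `x` not prime to `f`: `eta x = 0`; `x ∈ P`: `w x = 0`). `a_c = x0 + c m` is prime to `M` and `≡ 1` modulo `m` (IDPI), so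
`th i (x a_c) = th i x`, and `Σ_σ th (I σ) (X σ) mu w (X σ a_c) dlX(pt (X σ a_c)) = Σ_σ G (I σ) (X σ a_c) = (1/2) Σ_i sumMod M (G i) = SDTI / 2` (CNTI) for every `c ∈ T`; `T.card = p² - 1`. (HTF needs `M ≥ 3` and `R.cop`: `l ∣ f`.) -/
def S_SIGI : Prop :=
  ∀ (p : ℕ) (A B : ℤ) (P : Ideal (OO A B)) (V : ValuationSubring ℂ) (f : ℕ), SetI p A B P V f →
    TorX A B → ∀ (ι : Type) [Fintype ι] (R : Reps A B (p * f) ι),
    ∀ (w : OO A B → ℂ), TeiI p P V w → ∀ (kp : ι → ℂ) (eta : OO A B → ℂ), ChD p f R kp eta →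
    ∀ (l N : ℕ), l.Prime → l ∣ f → ∀ ψ : DirichletCharacter ℂ (l ^ N), ψ (-1) = 1 →
    ∀ (x0 : OO A B), x0 ∈ P → x0 - 1 ∈ idl (A := A) (B := B) (f * l ^ N) →
    ∀ T : Finset (OO A B), RepI P T → ∀ (a : ℕ), 1 < a → a.Coprime (6 * f * p) →
    ∀ [Fintype (GalF A B (f * l ^ N * p))] (I : GalF A B (f * l ^ N * p) → ι)
      (X : GalF A B (f * l ^ N * p) → OO A B),
    (∀ σ, HitF R (f * l ^ N * p) _ σ (I σ) (X σ)) →
    2 * ∑ σ : GalF A B (f * l ^ N * p), thT R kp eta ψ (I σ) (X σ) * (muX R (I σ) *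
      ∑ c ∈ T, w (X σ * (x0 + c * (f * l ^ N : ℕ))) * dlX (R.L (I σ)) a
        (pt R (f * l ^ N * p) (I σ) (X σ * (x0 + c * (f * l ^ N : ℕ))))) =
      ((p : ℂ) ^ 2 - 1) * SDTI R (f * l ^ N * p) a (thT R kp eta ψ) w

/-- (SDEI) from `dlX` to `ee` (model: `TWT/SDE.lean`; there is no factor `oneT` here). USES IDPI, VPGI. -/
def S_SDEI : Prop :=
  ∀ (p : ℕ) (A B : ℤ) (P : Ideal (OO A B)) (V : ValuationSubring ℂ) (f : ℕ), SetI p A B P V f →
    ∀ (ι : Type) [Fintype ι] (R : Reps A B (p * f) ι) (w : OO A B → ℂ), TeiI p P V w →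
    ∀ (kp : ι → ℂ) (eta : OO A B → ℂ), ChD p f R kp eta →
    ∀ (l N : ℕ), l.Prime → l ∣ f → ∀ ψ : DirichletCharacter ℂ (l ^ N),
    ∀ (a : ℕ), 1 < a → a.Coprime (6 * f * p) →
    V.valuation (1 - (a : ℂ) ^ 2 * thT R kp eta ψ R.i0 a) = 1 →
    V.valuation (SDTI R (f * l ^ N * p) a (thT R kp eta ψ) w) =
      V.valuation (SSTI R (f * l ^ N * p) (thT R kp eta ψ) w)

/-- (PHII) `χ(φ) ≠ 1` (model: `TWT/PHI.lean`, with `r = 1`, `y = p`: `P = sp p`). PROOF. `IA s₀ (idl m) (sp p * cjI (b i0))` (`b0`, `cjI ⊤ = ⊤`), so `(i0, mk p) ∈ XX R m h τφ`, `(χ τφ)⁻¹ = rsd V (th i0 p) ≠ 1`. -/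
def S_PHII : Prop :=
  ∀ (p : ℕ) [Fact p.Prime] (A B : ℤ) (P : Ideal (OO A B)) (V : ValuationSubring ℂ) (f : ℕ),
    SetI p A B P V f → TorX A B → ∀ (ι : Type) [Finite ι] (R : Reps A B (p * f) ι)
    (kp : ι → ℂ) (eta : OO A B → ℂ), ChD p f R kp eta →
    ∀ (l N : ℕ), l.Prime → l ∣ f → ∀ ψ : DirichletCharacter ℂ (l ^ N), ψ (-1) = 1 →
    V.valuation (1 - thT R kp eta ψ R.i0 ((p : ℕ) : OO A B)) = 1 →
    ∀ (D : IntermediateField ℚ ℂ) (h : kk A B ≤ D),
    Sub D (RF (idl (f * l ^ N)) : IntermediateField (kk A B) ℂ) → letI := algC h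
    ∀ (χ : (D ≃ₐ[kk A B] D) →* (IsLocalRing.ResidueField V)ˣ),
    (∀ (τ : D ≃ₐ[kk A B] D), ∀ q ∈ XX R (f * l ^ N) h τ,
      rsd V (thT R kp eta ψ q.1 (Quotient.out q.2)) = (((χ τ)⁻¹ : (IsLocalRing.ResidueField V)ˣ) :
        IsLocalRing.ResidueField V)) →
    ∀ (s₀ : ℂ ≃+* ℂ) (τφ : D ≃ₐ[kk A B] D), IA s₀ (idl (A := A) (B := B) (f * l ^ N)) P →
      ExtC h τφ s₀ → χ τφ ≠ 1

/-! ## 4. The result of the block -/

/-- (CRITI) from a large sum to a non-power (assembly: helper59). -/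
def S_CRITI : Prop :=
  ∀ (p : ℕ) [Fact p.Prime] (A B : ℤ) (P : Ideal (OO A B)) (V : ValuationSubring ℂ) (f : ℕ),
    SetI p A B P V f → TorX A B → ∀ (ι : Type) [Fintype ι] (R : Reps A B (p * f) ι), GRd V R →
    ∀ (w : OO A B → ℂ), TeiI p P V w → ∀ (kp : ι → ℂ) (eta : OO A B → ℂ), ChD p f R kp eta →
    ∀ (l N : ℕ), l.Prime → l ∣ f → ∀ ψ : DirichletCharacter ℂ (l ^ N), ψ (-1) = 1 →
    ∀ (a : ℕ), 1 < a → a.Coprime (6 * f * p) →
    V.valuation (1 - (a : ℂ) ^ 2 * thT R kp eta ψ R.i0 a) = 1 →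
    V.valuation (1 - thT R kp eta ψ R.i0 ((p : ℕ) : OO A B)) = 1 →
    ∀ (H : Finset ℂ), IsHalf (R.L R.i0) a H →
    ∀ (θ : (RF (idl (f * l ^ N * p)) : IntermediateField (kk A B) ℂ)),
    (θ : ℂ) = ThetaH (R.L R.i0) H (pt R (f * l ^ N * p) R.i0 1) →
    ∀ (D : IntermediateField ℚ ℂ) [FiniteDimensional ℚ D] [FiniteDimensional ℚ (kk A B)]
      (h : kk A B ≤ D),
    Sub D (RF (idl (f * l ^ N)) : IntermediateField (kk A B) ℂ) → letI := algC h
    ∀ (χ : (D ≃ₐ[kk A B] D) →* (IsLocalRing.ResidueField V)ˣ),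
    (∀ (τ : D ≃ₐ[kk A B] D), ∀ q ∈ XX R (f * l ^ N) h τ,
      rsd V (thT R kp eta ψ q.1 (Quotient.out q.2)) = (((χ τ)⁻¹ : (IsLocalRing.ResidueField V)ˣ) :
        IsLocalRing.ResidueField V)) →
    (∃ g : D ≃ₐ[kk A B] D, (∀ x : D,
      (x : ℂ) ∈ (RF (⊤ : Ideal (OO A B)) : IntermediateField (kk A B) ℂ) → g x = x) ∧ χ g ≠ 1) →
    ∀ c₀ : D, (c₀ : ℂ) = cW h θ →
    V.valuation (p : ℂ) ^ (p ^ 2 - 2) ≤
      V.valuation (SSTI R (f * l ^ N * p) (thT R kp eta ψ) w) ^ (p ^ 2 - 1) →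
    ∃ t : (IsLocalRing.ResidueField V) →+ ZMod p, ∀ y : D, y ^ p ≠ Pool.Agent.TWK.sE p χ t c₀

open Pool.Agent.TWR in
/-- (FACTI) `S_FACT` of `DefsT.lean` for `SetI` (frame, helper51: `TWF/FACT.lean` with `SetI`). -/
def S_FACTI : Prop :=
  ∀ (l g h : ℕ), Gen l g h → ∀ (p : ℕ) [Fact p.Prime] (A B : ℤ) (P : Ideal (OO A B))
    (V : ValuationSubring ℂ) (f : ℕ), SetI p A B P V f → l ^ h ∣ f → TorX A B →
    ∀ (ι : Type) [Finite ι] (R : Reps A B (p * f) ι)
    (K : IntermediateField ℚ ℂ) [FiniteDimensional ℚ K], kk A B ≤ K →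
    Sub K (RF (idl f) : IntermediateField (kk A B) ℂ) →
    ∀ (Bn : ℕ → IntermediateField ℚ ℂ), (∀ n, IsLayer l n (Bn n)) → Monotone Bn →
    ∃ (J : Type) (_ : Finite J) (kp : J → ι → ℂ) (eta : J → OO A B → ℂ),
      (∀ j, ChD p f R (kp j) (eta j)) ∧
      ∀ (n : ℕ) (hn : kk A B ≤ K ⊔ Bn (n + 1)), letI := algC hn
      ∀ χ : (↥(K ⊔ Bn (n + 1)) ≃ₐ[kk A B] ↥(K ⊔ Bn (n + 1))) →* (IsLocalRing.ResidueField V)ˣ,
      (∃ g : ↥(K ⊔ Bn (n + 1)) ≃ₐ[kk A B] ↥(K ⊔ Bn (n + 1)),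
        (∀ x : ↥(K ⊔ Bn (n + 1)), (x : ℂ) ∈ K ⊔ Bn n → g x = x) ∧ χ g ≠ 1) →
      ∃ (j : J) (ψ : DirichletCharacter ℂ (l ^ (n + 1 + h))), ψ (-1) = 1 ∧
        ψ (1 + (l : ZMod (l ^ (n + 1 + h))) ^ (n + 1 + h - 1)) ≠ 1 ∧
        ∀ (τ : ↥(K ⊔ Bn (n + 1)) ≃ₐ[kk A B] ↥(K ⊔ Bn (n + 1))),
        ∀ q ∈ XX R (f * l ^ (n + 1 + h)) hn τ,
          rsd V (thT R (kp j) (eta j) ψ q.1 (Quotient.out q.2)) =
            (((χ τ)⁻¹ : (IsLocalRing.ResidueField V)ˣ) : IsLocalRing.ResidueField V)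

/-- (TEII) the Teichmüller character exists (model: `TWB/TEI.lean`, `p` replaced by `p²`). PROOF. The residue field of `V` contains `O/P` (`p²` elements); an element `x ∉ P`: `emb x ^ (p^2 - 1) ≡ 1`; the `p² - 1` different roots of unity of order dividing `p² - 1` in `ℂ` are in `V` and have different residues (`X^(p²-1) - 1` is separable modulo `p`), so exactly one of them, `w x`, is
`≡ emb x`. -/
def S_TEII : Prop :=
  ∀ (p : ℕ) (A B : ℤ) (P : Ideal (OO A B)) (V : ValuationSubring ℂ) (f : ℕ), SetI p A B P V f →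
    ∃ w : OO A B → ℂ, TeiI p P V w

end

end Pool.Agent.TWI


end

section

/-!
# TWI, module TEP (helper34): the residue field of an inert prime and its Teichmüller character

`t_TEI2`: `TeiI` exists. `t_TEP`: the number of elements, the power sums, permutations of the representatives, the distance of
`w x` and `emb x`, elements `α` with `α ^ N - α` a unit.
-/

set_option autoImplicit false

namespace Pool.Agent.TWI

open _root_.MU3 Pool.Agent.MU3A Pool.Agent.MUX Pool.Agent.TWT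

noncomputable section

namespace TEP

/-- two roots of unity of order prime to the residue characteristic with the same reduction -/
lemma uniq (V : ValuationSubring ℂ) (n : ℕ) (hn : 0 < n) (hvn : V.valuation (n : ℂ) = 1)
    (ζ ξ : ℂ) (h1 : ζ ^ n = 1) (h2 : ξ ^ n = 1) (h : V.valuation (ζ - ξ) < 1) : ζ = ξ := by
  classical
  by_contra hne
  have hξ0 : ξ ≠ 0 := by
    rintro rfl
    rw [zero_pow hn.ne'] at h2
    exact zero_ne_one h2
  have hvξ : V.valuation ξ = 1 := MUXHY.Val.root_one V n ξ hn.ne' h2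
  obtain ⟨η, hη⟩ : ∃ η, η = ζ / ξ := ⟨_, rfl⟩
  have hη1 : η ^ n = 1 := by rw [hη, div_pow, h1, h2, div_one]
  have hηne : η ≠ 1 := by
    rw [hη]
    intro h3
    exact hne ((div_eq_one_iff_eq hξ0).1 h3)
  have hv1 : V.valuation (1 - η) < 1 := by
    have h3 : 1 - η = -(ζ - ξ) / ξ := by
      rw [hη]
      field_simp
      ring
    rw [h3, map_div₀, Valuation.map_neg, hvξ, div_one]
    exact h
  have hsum : ∑ i ∈ Finset.range n, η ^ i = 0 := by
    have h4 : (η - 1) * ∑ i ∈ Finset.range n, η ^ i = 0 := by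
      rw [mul_geom_sum, hη1, sub_self]
    rcases mul_eq_zero.1 h4 with h5 | h5
    · exact absurd (sub_eq_zero.1 h5) hηne
    · exact h5
  have hvη : V.valuation η = 1 := MUXHY.Val.root_one V n η hn.ne' hη1
  have hterm : ∀ i : ℕ, V.valuation (1 - η ^ i) < 1 := by
    intro i
    have h6 : 1 - η ^ i = (1 - η) * ∑ j ∈ Finset.range i, η ^ j := by
      have := mul_geom_sum η i
      linear_combination this
    rw [h6, map_mul]
    have h7 : V.valuation (∑ j ∈ Finset.range i, η ^ j) ≤ 1 := by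
      refine V.valuation.map_sum_le fun j _ => ?_
      rw [map_pow, hvη, one_pow]
    exact mul_lt_one_of_lt_of_le hv1 h7
  have h8 : (n : ℂ) = ∑ i ∈ Finset.range n, (1 - η ^ i) := by
    rw [Finset.sum_sub_distrib, hsum]
    simp
  have h9 : V.valuation (n : ℂ) < 1 := by
    rw [h8]
    exact V.valuation.map_sum_lt one_ne_zero fun i _ => hterm i
  exact absurd h9 (by rw [hvn]; exact lt_irrefl _)

/-- the situation: `P` a prime ideal of `O`, `O/P` has `q` elements, `V` above `P` -/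
structure Sit {A B : ℤ} (q : ℕ) (P : Ideal (OO A B)) (V : ValuationSubring ℂ) : Prop where
  cq : CQ A B
  prime : P.IsPrime
  ov : OverI V P
  card : Nat.card (OO A B ⧸ P) = q
  q2 : 2 < q
  vq : V.valuation ((q - 1 : ℕ) : ℂ) = 1

variable {A B : ℤ} {q : ℕ} {P : Ideal (OO A B)} {V : ValuationSubring ℂ}

theorem Sit.vle (h : Sit q P V) (x : OO A B) : V.valuation (emb x) ≤ 1 :=
  (ValuationSubring.valuation_le_one_iff _ _).2 (MUXHY.Val.emb_mem (MUXHY.toCQ h.cq) V x)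

theorem Sit.vlt (h : Sit q P V) (x : OO A B) : V.valuation (emb x) < 1 ↔ x ∈ P := by
  rw [← ValuationSubring.mem_nonunits_iff]
  exact h.ov x

theorem Sit.v1 (h : Sit q P V) (x : OO A B) : V.valuation (emb x) = 1 ↔ x ∉ P := by
  rw [← h.vlt x, not_lt]
  exact ⟨fun h1 => h1.ge, fun h1 => le_antisymm (h.vle x) h1⟩

theorem Sit.fermat (h : Sit q P V) (x : OO A B) (hx : x ∉ P) : x ^ (q - 1) - 1 ∈ P := by
  have hcard := h.card
  have hq2 := h.q2
  have hfin : Finite (OO A B ⧸ P) := Nat.finite_of_card_ne_zero (by rw [hcard]; omega)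
  have hprime := h.prime
  have hdom : IsDomain (OO A B ⧸ P) := Ideal.Quotient.isDomain P
  have : Fintype (OO A B ⧸ P) := Fintype.ofFinite _
  have hf := Finite.isField_of_domain (OO A B ⧸ P)
  letI := hf.toField
  have h1 : (Ideal.Quotient.mk P x) ≠ 0 := by
    rwa [Ne, Ideal.Quotient.eq_zero_iff_mem]
  have h2 : (Ideal.Quotient.mk P x) ^ (q - 1) = 1 := by
    have h3 := FiniteField.pow_card_sub_one_eq_one (Ideal.Quotient.mk P x) h1
    rwa [← Nat.card_eq_fintype_card, hcard] at h3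
  rw [← Ideal.Quotient.eq_zero_iff_mem, map_sub, map_pow, map_one, h2, sub_self]

/-- a generator -/
theorem Sit.gen (h : Sit q P V) : ∃ g : OO A B, g ∉ P ∧ ∀ n : ℕ, g ^ n - 1 ∈ P → q - 1 ∣ n := by
  have hcard := h.card
  have hq2 := h.q2
  have hfin : Finite (OO A B ⧸ P) := Nat.finite_of_card_ne_zero (by rw [hcard]; omega)
  have hprime := h.prime
  have hdom : IsDomain (OO A B ⧸ P) := Ideal.Quotient.isDomain P
  have : Fintype (OO A B ⧸ P) := Fintype.ofFinite _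
  have hf := Finite.isField_of_domain (OO A B ⧸ P)
  letI := hf.toField
  obtain ⟨u, hu⟩ := IsCyclic.exists_generator (α := (OO A B ⧸ P)ˣ)
  obtain ⟨g, hg⟩ := Ideal.Quotient.mk_surjective (I := P) (u : OO A B ⧸ P)
  refine ⟨g, ?_, ?_⟩
  · intro hgP
    have h1 := Ideal.Quotient.eq_zero_iff_mem.2 hgP
    rw [hg] at h1
    exact u.ne_zero h1
  · intro n hn
    have h1 := Ideal.Quotient.eq_zero_iff_mem.2 hn
    rw [map_sub, map_pow, map_one, hg, sub_eq_zero] at h1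
    have h2 : u ^ n = 1 := by
      apply Units.ext
      rw [Units.val_pow_eq_pow_val, h1, Units.val_one]
    have h3 : orderOf u = q - 1 := by
      rw [orderOf_eq_card_of_forall_mem_zpowers hu, Nat.card_units, hcard]
    rw [← h3]
    exact orderOf_dvd_of_pow_eq_one h2

/-- existence of the root of unity -/
theorem Sit.exi (h : Sit q P V) (x : OO A B) (hx : x ∉ P) :
    ∃ ζ : ℂ, ζ ^ (q - 1) = 1 ∧ V.valuation (ζ - emb x) < 1 := by
  classical
  have hq2 := h.q2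
  have hq1 : 0 < q - 1 := by omega
  have h1 := (h.vlt _).2 (h.fermat x hx)
  rw [emb_sub h.cq, emb_pow h.cq, emb_one h.cq, ← TWB.TEI.prod_roots (q - 1) hq1 (emb x),
    map_prod] at h1
  by_contra hcon
  push Not at hcon
  have h4 : ∀ ζ ∈ Polynomial.nthRootsFinset (q - 1) (1 : ℂ), 1 ≤ V.valuation (emb x - ζ) := by
    intro ζ hζ
    rw [Polynomial.mem_nthRootsFinset hq1] at hζ
    rw [← Valuation.map_sub_swap]
    exact hcon ζ hζ
  have h5 : 1 ≤ ∏ ζ ∈ Polynomial.nthRootsFinset (q - 1) (1 : ℂ), V.valuation (emb x - ζ) :=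
    Finset.one_le_prod' h4
  exact absurd h1 (not_lt.2 h5)

/-- the Teichmüller character -/
theorem Sit.tei (h : Sit q P V) : ∃ w : OO A B → ℂ, w 1 = 1 ∧ (∀ x y, w (x * y) = w x * w y) ∧
    (∀ x y, x - y ∈ P → w x = w y) ∧ (∀ x, w x = 0 ↔ x ∈ P) ∧ (∀ x, x ∉ P → w x ^ (q - 1) = 1) ∧
    ∀ x, V.valuation (w x - emb x) < 1 := by
  classical
  have hq2 := h.q2
  have hq1 : 0 < q - 1 := by omega
  have hprime := h.prime
  let w : OO A B → ℂ := fun x => if hx : x ∈ P then 0 else (h.exi x hx).choose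
  have hw0 : ∀ x ∈ P, w x = 0 := fun x hx => dif_pos hx
  have hw1 : ∀ x ∉ P, w x ^ (q - 1) = 1 ∧ V.valuation (w x - emb x) < 1 := by
    intro x hx
    have h1 : w x = (h.exi x hx).choose := dif_neg hx
    rw [h1]
    exact (h.exi x hx).choose_spec
  have hwu : ∀ x ∉ P, ∀ ζ : ℂ, ζ ^ (q - 1) = 1 → V.valuation (ζ - emb x) < 1 → w x = ζ := by
    intro x hx ζ h1 h2
    refine uniq V (q - 1) hq1 h.vq _ _ (hw1 x hx).1 h1 ?_
    have h3 : w x - ζ = (w x - emb x) - (ζ - emb x) := by ring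
    rw [h3]
    exact lt_of_le_of_lt (V.valuation.map_sub _ _) (max_lt (hw1 x hx).2 h2)
  have h1P : (1 : OO A B) ∉ P := fun h1 => hprime.ne_top ((Ideal.eq_top_iff_one _).2 h1)
  have hne0 : ∀ x ∉ P, w x ≠ 0 := by
    intro x hx h0
    have := (hw1 x hx).1
    rw [h0, zero_pow hq1.ne'] at this
    exact zero_ne_one this
  refine ⟨w, ?_, ?_, ?_, ?_, ?_, ?_⟩
  · refine hwu 1 h1P 1 (one_pow _) ?_
    rw [emb_one h.cq, sub_self, map_zero]
    exact zero_lt_one
  · intro x y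
    by_cases hx : x ∈ P
    · rw [hw0 x hx, hw0 _ (P.mul_mem_right y hx), zero_mul]
    by_cases hy : y ∈ P
    · rw [hw0 y hy, hw0 _ (P.mul_mem_left x hy), mul_zero]
    have hxy : x * y ∉ P := fun h1 => (hprime.mem_or_mem h1).elim hx hy
    refine hwu _ hxy _ ?_ ?_
    · rw [mul_pow, (hw1 x hx).1, (hw1 y hy).1, one_mul]
    · have h3 : w x * w y - emb (x * y) = (w x - emb x) * w y + emb x * (w y - emb y) := by
        rw [emb_mul h.cq]; ring
      rw [h3]
      refine lt_of_le_of_lt (V.valuation.map_add _ _) (max_lt ?_ ?_)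
      · rw [map_mul, MUXHY.Val.root_one V (q - 1) (w y) hq1.ne' (hw1 y hy).1, mul_one]
        exact (hw1 x hx).2
      · exact MUXHY.Val.mul_lt (h.vle x) (hw1 y hy).2
  · intro x y hxy
    by_cases hx : x ∈ P
    · have hy : y ∈ P := by
        have := P.sub_mem hx hxy
        rwa [sub_sub_cancel] at this
      rw [hw0 x hx, hw0 y hy]
    · have hy : y ∉ P := by
        intro hy
        have := P.add_mem hxy hy
        rw [sub_add_cancel] at this
        exact hx this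
      refine hwu x hx (w y) (hw1 y hy).1 ?_
      have h3 : w y - emb x = (w y - emb y) - emb (x - y) := by
        rw [emb_sub h.cq]; ring
      rw [h3]
      exact lt_of_le_of_lt (V.valuation.map_sub _ _) (max_lt (hw1 y hy).2 ((h.vlt _).2 hxy))
  · intro x
    refine ⟨fun h1 => ?_, hw0 x⟩
    by_contra hx
    exact hne0 x hx h1
  · intro x hx
    exact (hw1 x hx).1
  · intro x
    by_cases hx : x ∈ P
    · rw [hw0 x hx, zero_sub, Valuation.map_neg]
      exact (h.vlt x).2 hx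
    · exact (hw1 x hx).2

/-- representatives exist -/
theorem Sit.rep (h : Sit q P V) : ∃ T : Finset (OO A B), RepI P T := by
  classical
  have hcard := h.card
  have hq2 := h.q2
  have hfin : Finite (OO A B ⧸ P) := Nat.finite_of_card_ne_zero (by rw [hcard]; omega)
  have : Fintype (OO A B ⧸ P) := Fintype.ofFinite _
  have hout : ∀ y : OO A B ⧸ P, Ideal.Quotient.mk P (Quotient.out y) = y := fun y =>
    Ideal.Quotient.mk_out y
  refine ⟨(Finset.univ.filter fun y : OO A B ⧸ P => y ≠ 0).image Quotient.out, ?_, ?_, ?_⟩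
  · intro x hx hxP
    obtain ⟨y, hy, rfl⟩ := Finset.mem_image.1 hx
    rw [Finset.mem_filter] at hy
    apply hy.2
    rw [← hout y]
    exact Ideal.Quotient.eq_zero_iff_mem.2 hxP
  · intro x hx y hy hxy
    obtain ⟨x', hx', rfl⟩ := Finset.mem_image.1 hx
    obtain ⟨y', hy', rfl⟩ := Finset.mem_image.1 hy
    have h1 := (Ideal.Quotient.eq (I := P)).2 hxy
    rw [hout, hout] at h1
    rw [h1]
  · intro x hx
    refine ⟨Quotient.out (Ideal.Quotient.mk P x), ?_, ?_⟩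
    · refine Finset.mem_image.2 ⟨_, ?_, rfl⟩
      rw [Finset.mem_filter]
      refine ⟨Finset.mem_univ _, ?_⟩
      rwa [Ne, Ideal.Quotient.eq_zero_iff_mem]
    · rw [← Ideal.Quotient.eq, hout]

/-- the number of representatives -/
theorem Sit.cardT (h : Sit q P V) (T : Finset (OO A B)) (hT : RepI P T) : T.card = q - 1 := by
  classical
  have hcard := h.card
  have hq2 := h.q2
  have hfin : Finite (OO A B ⧸ P) := Nat.finite_of_card_ne_zero (by rw [hcard]; omega)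
  have : Fintype (OO A B ⧸ P) := Fintype.ofFinite _
  have h1 : T.image (Ideal.Quotient.mk P) = Finset.univ.erase 0 := by
    ext y
    rw [Finset.mem_image, Finset.mem_erase]
    constructor
    · rintro ⟨x, hx, rfl⟩
      refine ⟨?_, Finset.mem_univ _⟩
      rw [Ne, Ideal.Quotient.eq_zero_iff_mem]
      exact hT.nz x hx
    · rintro ⟨hy, -⟩
      obtain ⟨x, rfl⟩ := Ideal.Quotient.mk_surjective y
      rw [Ne, Ideal.Quotient.eq_zero_iff_mem] at hy
      obtain ⟨z, hz, hxz⟩ := hT.surj x hy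
      exact ⟨z, hz, ((Ideal.Quotient.eq (I := P)).2 hxz).symm⟩
  have h2 : (T.image (Ideal.Quotient.mk P)).card = T.card := by
    apply Finset.card_image_of_injOn
    intro x hx y hy hxy
    exact hT.inj x hx y hy ((Ideal.Quotient.eq (I := P)).1 hxy)
  rw [← h2, h1, Finset.card_erase_of_mem (Finset.mem_univ _), Finset.card_univ,
    ← Nat.card_eq_fintype_card, hcard]

/-- multiplication by `y ∉ P` permutes the representatives -/
theorem Sit.perm (h : Sit q P V) (T : Finset (OO A B)) (hT : RepI P T) {M : Type}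
    [AddCommMonoid M] (F : OO A B → M) (hF : ∀ x x', x - x' ∈ P → F x = F x') (y : OO A B)
    (hy : y ∉ P) : ∑ x ∈ T, F (y * x) = ∑ x ∈ T, F x := by
  classical
  have hprime := h.prime
  have hnz : ∀ x ∈ T, y * x ∉ P := fun x hx h1 =>
    (hprime.mem_or_mem h1).elim hy (hT.nz x hx)
  choose! r hr using fun x (hx : x ∈ T) => hT.surj (y * x) (hnz x hx)
  have hmaps : ∀ x ∈ T, r x ∈ T := fun x hx => (hr x hx).1
  have hinj : ∀ x ∈ T, ∀ x' ∈ T, r x = r x' → x = x' := by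
    intro x hx x' hx' hxx
    apply hT.inj x hx x' hx'
    have h1 : y * (x - x') ∈ P := by
      have h2 : y * (x - x') = (y * x - r x) - (y * x' - r x') := by rw [hxx]; ring
      rw [h2]
      exact P.sub_mem (hr x hx).2 (hr x' hx').2
    exact (hprime.mem_or_mem h1).resolve_left hy
  have himg : T.image r = T := by
    apply Finset.eq_of_subset_of_card_le
    · intro z hz
      obtain ⟨x, hx, rfl⟩ := Finset.mem_image.1 hz
      exact hmaps x hx
    · rw [Finset.card_image_of_injOn (fun x hx x' hx' => hinj x hx x' hx')]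
  calc ∑ x ∈ T, F (y * x) = ∑ x ∈ T, F (r x) :=
        Finset.sum_congr rfl fun x hx => hF _ _ (hr x hx).2
    _ = ∑ x ∈ T.image r, F x := by
        rw [Finset.sum_image (fun x hx x' hx' => hinj x hx x' hx')]
    _ = ∑ x ∈ T, F x := by rw [himg]

/-- the power sums -/
theorem Sit.psum (h : Sit q P V) (T : Finset (OO A B)) (hT : RepI P T) (w : OO A B → ℂ)
    (hmul : ∀ x y, w (x * y) = w x * w y) (hper : ∀ x y, x - y ∈ P → w x = w y)
    (hroot : ∀ x, x ∉ P → w x ^ (q - 1) = 1) (hred : ∀ x, V.valuation (w x - emb x) < 1) :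
    (∀ j, 0 < j → j < q - 1 → ∑ x ∈ T, w x ^ j = 0) ∧
    ∑ x ∈ T, w x ^ (q - 1) = ((q - 1 : ℕ) : ℂ) := by
  have hq2 := h.q2
  constructor
  · intro j hj0 hj1
    obtain ⟨g, hg, hgn⟩ := h.gen
    have h1 := h.perm T hT (fun x => w x ^ j) (fun x x' hx => by simp only [hper x x' hx]) g hg
    have h2 : ∑ x ∈ T, w (g * x) ^ j = w g ^ j * ∑ x ∈ T, w x ^ j := by
      rw [Finset.mul_sum]
      refine Finset.sum_congr rfl fun x _ => ?_
      rw [hmul, mul_pow]
    rw [h2] at h1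
    have h3 : w g ^ j ≠ 1 := by
      intro h4
      have h5 : g ^ j - 1 ∈ P := by
        rw [← h.vlt, emb_sub h.cq, emb_pow h.cq, emb_one h.cq, ← h4]
        have h6 : emb g ^ j - w g ^ j = -((w g - emb g) *
            ∑ i ∈ Finset.range j, w g ^ i * emb g ^ (j - 1 - i)) := by
          rw [mul_comm, Commute.geom_sum₂_mul (Commute.all _ _)]
          ring
        rw [h6, Valuation.map_neg, map_mul]
        refine mul_lt_one_of_lt_of_le (hred g) ?_
        refine V.valuation.map_sum_le fun i _ => ?_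
        rw [map_mul, map_pow, map_pow,
          MUXHY.Val.root_one V (q - 1) (w g) (by omega) (hroot g hg), one_pow, one_mul]
        exact pow_le_one' (h.vle g) _
      have := Nat.le_of_dvd hj0 (hgn j h5)
      omega
    have h4 : (w g ^ j - 1) * ∑ x ∈ T, w x ^ j = 0 := by
      linear_combination h1
    exact (mul_eq_zero.1 h4).resolve_left (sub_ne_zero.2 h3)
  · rw [Finset.sum_congr rfl fun x hx => hroot x (hT.nz x hx), Finset.sum_const, h.cardT T hT,
      nsmul_eq_mul, mul_one]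

end TEP

/-- the situation for an inert prime -/
theorem sit {p : ℕ} {A B : ℤ} {P : Ideal (OO A B)} {V : ValuationSubring ℂ} (hcq : CQ A B)
    (hp : p.Prime) (hp2 : 2 < p) (eP : P = idl (A := A) (B := B) p) (hP : P.IsPrime)
    (hV : OverI V P) : TEP.Sit (p ^ 2) P V := by
  have hp0 : (p : OO A B) ≠ 0 := by
    intro h0
    have h1 := congrArg emb h0
    rw [emb_natCast hcq, emb_zero hcq] at h1
    exact hp.ne_zero (by exact_mod_cast h1)
  have hvp : V.valuation (p : ℂ) < 1 := by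
    have h1 := (hV ((p : ℕ) : OO A B)).2 (by
      rw [eP]
      exact Ideal.mem_span_singleton_self _)
    rw [ValuationSubring.mem_nonunits_iff, emb_natCast hcq] at h1
    exact h1
  refine ⟨hcq, hP, hV, ?_, ?_, ?_⟩
  · have hQ := MUXHY.toCQ hcq
    have h2 := ((MUXF.xf_NIM A B hQ).2.1 ((p : ℕ) : OO A B)).resolve_right hp0
    have h3 : nm ((p : ℕ) : OO A B) = (p : ℤ) ^ 2 := by
      unfold nm
      rw [QuadraticAlgebra.re_natCast, QuadraticAlgebra.im_natCast]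
      ring
    rw [h3] at h2
    rw [eP]
    have h4 : ((p : ℤ) ^ 2).natAbs = p ^ 2 := by
      rw [Int.natAbs_pow, Int.natAbs_natCast]
    rw [h4] at h2
    exact h2
  · nlinarith [hp.two_le]
  · have h1 := MUXHY.Val.int_one hp hvp ((p : ℤ) ^ 2 - 1) (by
      intro hd
      have h2 : (p : ℤ) ∣ 1 := by
        have h3 : (1 : ℤ) = (p : ℤ) ^ 2 - ((p : ℤ) ^ 2 - 1) := by ring
        rw [h3]
        exact dvd_sub (dvd_pow_self _ two_ne_zero) hd
      have := Int.le_of_dvd one_pos h2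
      omega)
    have h2 : (((p ^ 2 - 1 : ℕ) : ℤ)) = (p : ℤ) ^ 2 - 1 := by
      rw [Nat.cast_sub (Nat.one_le_pow _ _ hp.pos)]
      push_cast
      ring
    rw [← h2, Int.cast_natCast] at h1
    exact h1

/-- the Teichmüller character of an inert prime exists -/
theorem t_TEI2 (p : ℕ) (A B : ℤ) (P : Ideal (OO A B)) (V : ValuationSubring ℂ) (hcq : CQ A B)
    (hp : p.Prime) (hp2 : 2 < p) (eP : P = idl (A := A) (B := B) p) (hP : P.IsPrime)
    (hV : OverI V P) : ∃ w : OO A B → ℂ, TeiI p P V w := by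
  obtain ⟨w, h1, h2, h3, h4, h5, h6⟩ := (sit hcq hp hp2 eP hP hV).tei
  exact ⟨w, h1, h2, h3, h4, h5, h6⟩

/-- (TEP) facts on the residue field of an inert prime. -/
def S_TEP : Prop :=
  ∀ (p : ℕ) (A B : ℤ) (P : Ideal (OO A B)) (V : ValuationSubring ℂ) (f : ℕ), SetI p A B P V f →
    Nat.card (OO A B ⧸ P) = p ^ 2 ∧ V.valuation ((p ^ 2 - 1 : ℕ) : ℂ) = 1 ∧
    (∀ x : OO A B, V.valuation (emb x) ≤ 1 ∧ (V.valuation (emb x) < 1 ↔ x ∈ P) ∧
      (V.valuation (emb x) = 1 ↔ x ∉ P)) ∧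
    (∀ x : OO A B, x ∉ P → x ^ (p ^ 2 - 1) - 1 ∈ P) ∧
    (∃ T : Finset (OO A B), RepI P T) ∧ (∃ w : OO A B → ℂ, TeiI p P V w) ∧
    (∀ N : ℕ, 1 < N → N < p ^ 2 → ∃ α : OO A B, α ∉ P ∧ Odd (nm α) ∧ ¬ (3 : ℤ) ∣ nm α ∧
      V.valuation (emb α ^ N - emb α) = 1) ∧
    (∀ T : Finset (OO A B), RepI P T → T.card = p ^ 2 - 1 ∧
      (∀ (F : OO A B → ℂ), (∀ x x', x - x' ∈ P → F x = F x') → ∀ y, y ∉ P →
        ∑ x ∈ T, F (y * x) = ∑ x ∈ T, F x) ∧
      ∀ w : OO A B → ℂ, TeiI p P V w → (∀ j, 0 < j → j < p ^ 2 - 1 → ∑ x ∈ T, w x ^ j = 0) ∧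
        ∑ x ∈ T, w x ^ (p ^ 2 - 1) = ((p ^ 2 - 1 : ℕ) : ℂ)) ∧
    ∀ w : OO A B → ℂ, TeiI p P V w → w (-1) = -1 ∧ (∀ x ∉ P, V.valuation (w x) = 1) ∧
      (∀ x, V.valuation (w x) ≤ 1) ∧ ∀ x, V.valuation (w x - emb x) ≤ V.valuation (p : ℂ)

open _root_.Pool.Agent.TWI.TEP in
theorem t_TEP : S_TEP := by
  intro p A B P V f hS
  classical
  have hp := hS.pp
  have hp5 := hS.p5
  have hcq := hS.cq
  have hs := sit hS.cq hS.pp (by omega) hS.eP hS.hP hS.hV
  have hprime := hS.hP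
  have hq2 := hs.q2
  have hpP : ((p : ℕ) : OO A B) ∈ P := by
    rw [hS.eP]
    exact Ideal.mem_span_singleton_self _
  have hvp : V.valuation (p : ℂ) < 1 := by
    have h1 := (hs.vlt ((p : ℕ) : OO A B)).2 hpP
    rwa [emb_natCast hcq] at h1
  have hvdiv : ∀ x ∈ P, V.valuation (emb x) ≤ V.valuation (p : ℂ) := by
    intro x hx
    rw [hS.eP] at hx
    obtain ⟨y, rfl⟩ := Ideal.mem_span_singleton.1 hx
    rw [emb_mul hcq, emb_natCast hcq, map_mul]
    exact mul_le_of_le_one_right' (hs.vle y)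
  refine ⟨hs.card, hs.vq, fun x => ⟨hs.vle x, hs.vlt x, hs.v1 x⟩, hs.fermat, hs.rep, ?_, ?_,
    fun T hT => ⟨hs.cardT T hT, fun F hF y hy => hs.perm T hT F hF y hy, fun w hw =>
      hs.psum T hT w hw.mul hw.per hw.root hw.red⟩, ?_⟩
  · exact t_TEI2 p A B P V hcq hp (by omega) hS.eP hS.hP hS.hV
  · intro N hN1 hN2
    obtain ⟨g, hg, hgn⟩ := hs.gen
    -- `α ≡ g` modulo `p`, `α ≡ 1` modulo `6`
    have hcop : IsCoprime (p : ℤ) (6 : ℤ) := by
      have h1 : Nat.Coprime p 6 := by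
        rw [Nat.Prime.coprime_iff_not_dvd hp]
        intro hd
        have h2 : p ∣ 2 * 3 := hd
        rcases (hp.dvd_mul).1 h2 with h3 | h3
        · have := Nat.le_of_dvd (by norm_num) h3
          omega
        · have := Nat.le_of_dvd (by norm_num) h3
          omega
      exact_mod_cast Nat.isCoprime_iff_coprime.2 h1
    obtain ⟨a, b, hab⟩ := hcop
    have hab' : (a : OO A B) * (p : OO A B) + (b : OO A B) * 6 = 1 := by
      have := congrArg (fun z : ℤ => (z : OO A B)) hab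
      push_cast at this
      exact this
    obtain ⟨α, hα⟩ : ∃ α : OO A B, α = (b : OO A B) * 6 * g + (a : OO A B) * (p : OO A B) := ⟨_, rfl⟩
    have hα1 : α - g ∈ P := by
      have h1 : α - g = (p : OO A B) * ((a : OO A B) * (1 - g)) := by
        rw [hα]
        linear_combination g * hab'
      rw [h1]
      exact P.mul_mem_right _ hpP
    have hαP : α ∉ P := by
      intro h1
      apply hg
      have := P.sub_mem h1 hα1
      rwa [sub_sub_cancel] at this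
    obtain ⟨γ, hγ⟩ : ∃ γ : OO A B, α = 1 + 6 * γ := by
      refine ⟨(b : OO A B) * (g - 1), ?_⟩
      rw [hα]
      linear_combination hab'
    have hnm : ∃ k : ℤ, nm α = 1 + 6 * k := by
      refine ⟨2 * γ.re + B * γ.im + 6 * nm γ, ?_⟩
      have h1 : α.re = 1 + 6 * γ.re := by
        rw [hγ]
        simp [QuadraticAlgebra.re_mul, QuadraticAlgebra.re_ofNat, QuadraticAlgebra.im_ofNat,
          QuadraticAlgebra.re_one]
      have h2 : α.im = 6 * γ.im := by
        rw [hγ]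
        simp [QuadraticAlgebra.im_mul, QuadraticAlgebra.re_ofNat, QuadraticAlgebra.im_ofNat,
          QuadraticAlgebra.im_one]
      unfold nm
      rw [h1, h2]
      ring
    obtain ⟨k, hk⟩ := hnm
    refine ⟨α, hαP, ?_, ?_, ?_⟩
    · rw [hk]
      exact ⟨3 * k, by ring⟩
    · rw [hk]
      intro hd
      omega
    · have h1 : emb α ^ N - emb α = emb (α * (α ^ (N - 1) - 1)) := by
        rw [emb_mul hcq, emb_sub hcq, emb_pow hcq, emb_one hcq]
        obtain ⟨M, rfl⟩ : ∃ M, N = M + 1 := ⟨N - 1, by omega⟩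
        rw [Nat.add_sub_cancel, pow_succ]
        ring
      rw [h1, hs.v1]
      intro h2
      have h3 := (hprime.mem_or_mem h2).resolve_left hαP
      have h4 : g ^ (N - 1) - 1 ∈ P := by
        have h5 : g ^ (N - 1) - 1 = (α ^ (N - 1) - 1) - (α ^ (N - 1) - g ^ (N - 1)) := by ring
        rw [h5]
        refine P.sub_mem h3 ?_
        obtain ⟨c, hc⟩ := sub_dvd_pow_sub_pow α g (N - 1)
        rw [hc]
        exact P.mul_mem_right _ hα1
      have := Nat.le_of_dvd (by omega) (hgn _ h4)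
      omega
  · intro w hw
    have hq1 : p ^ 2 - 1 ≠ 0 := by omega
    have hv1 : ∀ x ∉ P, V.valuation (w x) = 1 := fun x hx =>
      MUXHY.Val.root_one V (p ^ 2 - 1) (w x) hq1 (hw.root x hx)
    have hvle : ∀ x, V.valuation (w x) ≤ 1 := by
      intro x
      by_cases hx : x ∈ P
      · rw [(hw.zero x).2 hx, map_zero]
        exact zero_le_one
      · exact (hv1 x hx).le
    refine ⟨?_, hv1, hvle, ?_⟩
    · have h1P : (-1 : OO A B) ∉ P := by
        intro h1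
        have := P.neg_mem h1
        rw [neg_neg] at this
        exact hprime.ne_top ((Ideal.eq_top_iff_one _).2 this)
      refine uniq V (p ^ 2 - 1) (by omega) hs.vq _ _ (hw.root _ h1P) ?_ ?_
      · have hodd : Odd p := hp.odd_of_ne_two (by omega)
        obtain ⟨k, hk⟩ := hodd.pow (n := 2)
        have : p ^ 2 - 1 = 2 * k := by omega
        rw [this, pow_mul]
        simp
      · have := hw.red (-1)
        rwa [emb_neg hcq, emb_one hcq] at this
    · intro x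
      by_cases hx : x ∈ P
      · rw [(hw.zero x).2 hx, zero_sub, Valuation.map_neg]
        exact hvdiv x hx
      · obtain ⟨n, hn⟩ : ∃ n, n = p ^ 2 - 1 := ⟨_, rfl⟩
        have h1 : (w x - emb x) * ∑ i ∈ Finset.range n, w x ^ i * emb x ^ (n - 1 - i) =
            1 - emb x ^ n := by
          rw [mul_comm, Commute.geom_sum₂_mul (Commute.all _ _), hn, hw.root x hx]
        have h2 : V.valuation (1 - emb x ^ n) ≤ V.valuation (p : ℂ) := by
          have h3 := hvdiv _ (hs.fermat x hx)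
          rw [emb_sub hcq, emb_pow hcq, emb_one hcq, Valuation.map_sub_swap, ← hn] at h3
          exact h3
        have h3 : V.valuation (∑ i ∈ Finset.range n, w x ^ i * emb x ^ (n - 1 - i)) = 1 := by
          have h4 : ∑ i ∈ Finset.range n, w x ^ i * emb x ^ (n - 1 - i) =
              (n : ℂ) * w x ^ (n - 1) + ∑ i ∈ Finset.range n,
                w x ^ i * (emb x ^ (n - 1 - i) - w x ^ (n - 1 - i)) := by
            have h5 : (n : ℂ) * w x ^ (n - 1) =
                ∑ i ∈ Finset.range n, w x ^ i * w x ^ (n - 1 - i) := by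
              rw [Finset.sum_congr rfl (g := fun _ => w x ^ (n - 1)), Finset.sum_const,
                Finset.card_range, nsmul_eq_mul]
              intro i hi
              rw [← pow_add]
              congr 1
              have := Finset.mem_range.1 hi
              omega
            rw [h5, ← Finset.sum_add_distrib]
            refine Finset.sum_congr rfl fun i _ => ?_
            ring
          have h6 : V.valuation ((n : ℂ) * w x ^ (n - 1)) = 1 := by
            rw [map_mul, map_pow, hv1 x hx, one_pow, mul_one, hn]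
            exact hs.vq
          have h7 : V.valuation (∑ i ∈ Finset.range n,
              w x ^ i * (emb x ^ (n - 1 - i) - w x ^ (n - 1 - i))) < 1 := by
            refine V.valuation.map_sum_lt one_ne_zero fun i _ => ?_
            rw [map_mul, map_pow, hv1 x hx, one_pow, one_mul]
            have h8 : emb x ^ (n - 1 - i) - w x ^ (n - 1 - i) = -((w x - emb x) *
                ∑ j ∈ Finset.range (n - 1 - i), w x ^ j * emb x ^ (n - 1 - i - 1 - j)) := by
              rw [mul_comm, Commute.geom_sum₂_mul (Commute.all _ _)]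
              ring
            rw [h8, Valuation.map_neg, map_mul]
            refine mul_lt_one_of_lt_of_le (hw.red x) ?_
            refine V.valuation.map_sum_le fun j _ => ?_
            rw [map_mul, map_pow, map_pow, hv1 x hx, one_pow, one_mul]
            exact pow_le_one' (hs.vle x) _
          rw [h4, Valuation.map_add_eq_of_lt_left _ (by rw [h6]; exact h7), h6]
        have h4 := congrArg V.valuation h1
        rw [map_mul, h3, mul_one] at h4
        rw [h4]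
        exact h2

end

end Pool.Agent.TWI


end

section

/-!
# TWI, block A, LGI (helper3): the coefficients of the formal logarithms of the `L_i` below `p²` are integral
-/

set_option autoImplicit false

open WeierstrassCurve Polynomial

namespace Pool.Agent.TWI

open _root_.MU3 Pool.Agent.MU3A Pool.Agent.MU3B Pool.Agent.MUX Pool.Agent.MUXU Pool.Agent.TWT
open Pool.Agent.MUXV (GR InK tX HalfI)

noncomputable section

theorem i_LGI (hLOG : S_LOG) (hMLI : S_MLI) : S_LGI := by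
  intro p A B P V f hS ι R hG i a2 a4 hGa Λ hΛ
  obtain ⟨-, -, hemb, -, -, -, hgen, -, -⟩ := t_TEP p A B P V f hS
  intro j
  induction j using Nat.strong_induction_on with
  | _ N ih =>
    intro hN
    rcases Nat.lt_or_ge N 2 with h2 | h2
    · interval_cases N
      · rw [hΛ.c0, map_zero]
        exact zero_le
      · rw [hΛ.c1, map_one]
    · obtain ⟨x, hxP, -, -, hx⟩ := hgen N (by omega) hN
      obtain ⟨α, n, hα, hI⟩ := hMLI p A B P V f hS ι R hG x hxP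
      refine hLOG V (R.L i) a2 a4 hGa Λ hΛ (emb α) n (hI i) N h2 (fun j hj => ih j hj (by omega)) ?_
      have hmem : (α ^ N - α) - (x ^ N - x) ∈ P := by
        have h1 : α ^ N - x ^ N ∈ P := by
          have := sub_dvd_pow_sub_pow α x N
          exact P.mem_of_dvd this hα
        have e : (α ^ N - α) - (x ^ N - x) = (α ^ N - x ^ N) - (α - x) := by ring
        rw [e]
        exact P.sub_mem h1 hα
      have e1 : ∀ y : OO A B, emb y ^ N - emb y = emb (y ^ N - y) := by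
        intro y
        rw [MUX.emb_sub hS.cq, MUX.emb_pow hS.cq]
      rw [e1] at hx ⊢
      rw [((hemb _).2.2)] at hx ⊢
      intro hc
      apply hx
      have := P.sub_mem hc hmem
      rwa [sub_sub_cancel] at this

end

end Pool.Agent.TWI


end

section

/-!
# TWI, block A, module MLI (helper19): complex multiplications of norm prime to `6 p` in every class modulo `P`
-/

set_option autoImplicit false

open WeierstrassCurve PowerSeries

namespace Pool.Agent.TWI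

open _root_.MU3 Pool.Agent.MU3A Pool.Agent.MU3B Pool.Agent.MUX Pool.Agent.MUXU Pool.Agent.TWT
open Pool.Agent.MUXV (GR InK tX HalfI)

noncomputable section

namespace MLI

variable {A B : ℤ}

lemma nm_six (b : OO A B) : ∃ k : ℤ, nm (1 + 6 * b) = 1 + 6 * k := by
  obtain ⟨r, s⟩ := b
  have h1 : (1 + 6 * (⟨r, s⟩ : OO A B)) = ⟨1 + 6 * r, 6 * s⟩ := by
    have h6 : (6 : OO A B) = ⟨6, 0⟩ := rfl
    have h0 : (1 : OO A B) = ⟨1, 0⟩ := rfl
    rw [h6, h0]
    ext <;> simp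
  rw [h1]
  unfold nm
  refine ⟨2 * r + 6 * r ^ 2 + B * (1 + 6 * r) * s - 6 * A * s ^ 2, ?_⟩
  simp only
  ring

end MLI

open _root_.Pool.Agent.TWI.MLI in
theorem i_MLI (hG : S_GRI) : S_MLI := by
  intro p A B P V f hS ι R hR x hx
  obtain ⟨-, -, hj, hv, -⟩ := hG p A B P V f hS ι R hR
  have hC := hS.cq
  have hpr := hS.hP
  have hpP : ((p : ℕ) : OO A B) ∈ P := by
    rw [hS.eP]
    exact Ideal.mem_span_singleton_self _
  have hcop : IsCoprime (p : ℤ) 6 := by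
    rw [Int.isCoprime_iff_gcd_eq_one]
    have h1 : Nat.Coprime p 6 := by
      rw [hS.pp.coprime_iff_not_dvd]
      intro hd
      have h2 := Nat.le_of_dvd (by norm_num) hd
      have h3 := hS.p5
      have h4 := hS.pp
      interval_cases p
      · omega
      · exact absurd h4 (by norm_num)
    exact h1
  obtain ⟨u, v, huv⟩ := hcop
  have huv' : (u : OO A B) * ((p : ℕ) : OO A B) + (v : OO A B) * 6 = 1 := by
    have := congrArg (fun t : ℤ => (t : OO A B)) huv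
    push_cast at this
    exact this
  obtain ⟨al, hal⟩ : ∃ al : OO A B, al = 1 + 6 * ((v : OO A B) * (x - 1)) := ⟨_, rfl⟩
  have hax : al - x ∈ P := by
    have h1 : al - x = ((u : OO A B) * (1 - x)) * ((p : ℕ) : OO A B) := by
      rw [hal]
      linear_combination (x - 1) * huv'
    rw [h1]
    exact P.mul_mem_left _ hpP
  have haP : al ∉ P := by
    intro h1
    apply hx
    have h2 : x = al - (al - x) := by ring
    rw [h2]
    exact P.sub_mem h1 hax
  have hstar : star al ∉ P := by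
    intro h1
    apply haP
    rw [hS.eP] at h1 ⊢
    obtain ⟨t, ht⟩ := Ideal.mem_span_singleton.1 h1
    rw [Ideal.mem_span_singleton]
    refine ⟨star t, ?_⟩
    have h2 := congrArg star ht
    rw [star_star, star_mul', star_natCast] at h2
    exact h2
  obtain ⟨k, hk⟩ := nm_six ((v : OO A B) * (x - 1))
  rw [← hal] at hk
  have hnn := nm_nonneg hC al
  obtain ⟨n, hn⟩ : ∃ n : ℕ, (n : ℤ) = nm al := ⟨(nm al).toNat, Int.toNat_of_nonneg hnn⟩
  have hpn : ¬ (p : ℤ) ∣ (n : ℤ) := by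
    intro hd
    rw [hn] at hd
    obtain ⟨t, ht⟩ := hd
    have h1 : al * star al ∈ P := by
      rw [mul_star, ht]
      push_cast
      exact P.mul_mem_right _ hpP
    rcases hpr.mem_or_mem h1 with h2 | h2
    · exact haP h2
    · exact hstar h2
  have h3 : V.valuation (3 : ℂ) = 1 := by
    have := hj 3 (fun hd => by
      have h1 := Int.le_of_dvd (by norm_num) hd
      have h2 := hS.p5
      omega)
    exact_mod_cast this
  have hvn : V.valuation (n : ℂ) = 1 := by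
    have := hj n hpn
    exact_mod_cast this
  have ha0 : al ≠ 0 := by
    intro h0
    apply haP
    rw [h0]
    exact P.zero_mem
  refine ⟨al, n, hax, fun i => ?_⟩
  have hcm := IsLI.hasCM hC (R.nl i).toIsLI
  refine
    { ne := emb_ne_zero hC ha0
      sub := fun w hw => hcm al w hw
      odd := ?_
      unit := hvn
      ker := ?_
      vmu := (hv al).2.2 haP
      v3 := h3
      n3 := ?_ }
  · rw [← Int.odd_coe_nat, hn, hk]
    exact ⟨3 * k, by ring⟩
  · intro z hz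
    have h1 := hcm (star al) _ hz
    have h2 : ((n : ℕ) : ℂ) * z = emb (star al) * (emb al * z) := by
      rw [← mul_assoc, ← emb_mul hC, mul_comm (star al), mul_star, emb_intCast hC, ← hn]
      push_cast
      rfl
    rw [h2]
    exact h1
  · intro hd
    have h1 : (3 : ℤ) ∣ (n : ℤ) := by exact_mod_cast hd
    rw [hn, hk] at h1
    omega

end

end Pool.Agent.TWI


end

section

/-!
# TWI, block B: module MUGI, the multipliers are units at `V`, `p` inert
-/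

set_option autoImplicit false

open WeierstrassCurve Polynomial NumberField IsDedekindDomain

namespace Pool.Agent.TWI

open _root_.MU3 Pool.Agent.MU3A Pool.Agent.MU3B Pool.Agent.MU3C Pool.Agent.RI Pool.Agent.RID
open Pool.Agent.MUX Pool.Agent.MUXU Pool.Agent.MUXW Pool.Agent.TWT

open Pool.Agent.TWT.MUG in
theorem t_MUGI (h : S_VPGI) : S_MUGI := by
  intro p A B P V f hS ι R hG i
  obtain ⟨-, -, -, hint, -, -, hlat⟩ := h p A B P V f hS
  have hGi := (hlat ι R hG i).1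
  have hG0 := (hlat ι R hG R.i0).1
  have hom0 : R.om R.i0 ≠ 0 := (R.nl R.i0).om_ne
  have homi : R.om i ≠ 0 := (R.nl i).om_ne
  have hcop : (nI (R.b i)).Coprime (p * f) := R.cop i
  have hpn : ¬ p ∣ nI (R.b i) := fun hd => by
    have h2 : p ∣ Nat.gcd (nI (R.b i)) (p * f) := Nat.dvd_gcd hd (dvd_mul_right _ _)
    rw [hcop] at h2
    exact hS.pp.one_lt.ne' (Nat.dvd_one.1 h2)
  have h2f : 2 ∣ f := by
    have h1 : (2 : ℤ) ∣ (f : ℤ) := (dvd_mul_right _ _).trans hS.fD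
    exact_mod_cast h1
  have hodd : Odd (nI (R.b i)) := by
    rw [← Nat.not_even_iff_odd, even_iff_two_dvd]
    intro hd
    have h2 : 2 ∣ Nat.gcd (nI (R.b i)) (p * f) := Nat.dvd_gcd hd (h2f.mul_left _)
    rw [hcop] at h2
    omega
  have hvn : V.valuation ((nI (R.b i) : ℕ) : ℂ) = 1 := by
    have h1 := hint (nI (R.b i) : ℤ) (fun hd => hpn (by exact_mod_cast hd))
    simpa using h1
  have hn0 : ((nI (R.b i) : ℕ) : ℂ) ≠ 0 := by
    intro h0
    rw [h0, map_zero] at hvn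
    exact zero_ne_one hvn
  refine Pool.Agent.MUXV.x_MUN V (R.L R.i0) (R.L i) (1 / 12) (1 / 12) (muX R i) (nI (R.b i))
    hG0 hGi (div_ne_zero (mul_ne_zero homi hn0) hom0) ?_ hodd hvn ?_
  · intro w hw
    obtain ⟨x, -, rfl⟩ := ((R.nl R.i0).mem w).1 hw
    refine ((R.nl i).mem _).2 ⟨((nI (R.b i) : ℕ) : OO A B) * x,
      Ideal.mul_mem_right _ _ (nI_mem _), ?_⟩
    rw [emb_nat_mul, muX]
    field_simp
  · intro z hz
    obtain ⟨x, -, hx⟩ := ((R.nl i).mem _).1 hz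
    refine ((R.nl R.i0).mem _).2 ⟨x, by rw [R.b0]; trivial, ?_⟩
    rw [muX] at hx
    have h1 : R.om i * (((nI (R.b i) : ℕ) : ℂ) * z) = R.om i * (R.om R.i0 * emb x) := by
      field_simp at hx
      linear_combination R.om i * hx
    exact mul_left_cancel₀ homi h1

end Pool.Agent.TWI


end

section

/-! # TWI, module PTI (helper34): the points `pt R p i x` are the points of order `p` of `L_i` -/

set_option autoImplicit false

namespace Pool.Agent.TWI

open _root_.MU3 Pool.Agent.MU3A Pool.Agent.MUX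

noncomputable section

theorem i_PTI : S_PTI := by
  intro p A B P V f hS ι R i
  have hC := hS.cq
  have hp5 := hS.p5
  have hs := sit hS.cq hS.pp (by omega) hS.eP hS.hP hS.hV
  have hpC : (p : ℂ) ≠ 0 := by exact_mod_cast hS.pp.ne_zero
  have hpO : ((p : ℕ) : OO A B) ≠ 0 := natCast_ne_zero' hC hS.pp.ne_zero
  have hn0 : nI (R.b i) ≠ 0 := nI_ne_zero hC (R.nl i).b_ne
  have hnC : ((nI (R.b i) : ℕ) : ℂ) ≠ 0 := by exact_mod_cast hn0
  have hnO : ((nI (R.b i) : ℕ) : OO A B) ≠ 0 := natCast_ne_zero' hC hn0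
  have hnb : ((nI (R.b i) : ℕ) : OO A B) ∈ R.b i := nI_mem hC (R.nl i).b_ne
  have ho := (R.nl i).om_ne
  have ho0 := (R.nl R.i0).om_ne
  have hdom : IsDomain (OO A B) := isDomain hC
  have hmemP : ∀ x : OO A B, x ∈ P ↔ ∃ y, x = ((p : ℕ) : OO A B) * y := by
    intro x
    rw [hS.eP, Ideal.mem_span_singleton]
    exact Iff.rfl
  -- Bezout
  have hcop : IsCoprime ((nI (R.b i) : ℕ) : ℤ) (p : ℤ) := by
    rw [Nat.isCoprime_iff_coprime]
    exact (R.cop i).coprime_dvd_right (dvd_mul_right p f)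
  obtain ⟨u, v, huv⟩ := hcop
  have huv' : (u : OO A B) * ((nI (R.b i) : ℕ) : OO A B) + (v : OO A B) * ((p : ℕ) : OO A B) = 1 := by
    have h3 := congrArg (fun t : ℤ => (t : OO A B)) huv
    push_cast at h3
    exact h3
  have hlat : ∀ z, z ∈ (R.L i).lattice ↔ ∃ x ∈ R.b i, z = R.om i * emb x := fun z =>
    (R.nl i).mem z
  have hpt : ∀ x, pt R p i x = R.om i * nI (R.b i) * emb x / p := fun x => rfl
  have h1 : ∀ x, pt R p i x ∈ (R.L i).lattice ↔ x ∈ P := by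
    intro x
    rw [hlat, hmemP]
    constructor
    · rintro ⟨y, hy, hxy⟩
      rw [hpt] at hxy
      have h2 : emb (((nI (R.b i) : ℕ) : OO A B) * x) = emb (((p : ℕ) : OO A B) * y) := by
        rw [emb_mul hC, emb_mul hC, emb_natCast hC, emb_natCast hC]
        rw [div_eq_iff hpC] at hxy
        apply mul_left_cancel₀ ho
        linear_combination hxy
      have h3 := emb_inj hC h2
      refine ⟨u * y + v * x, ?_⟩
      calc x = ((u : OO A B) * ((nI (R.b i) : ℕ) : OO A B) + (v : OO A B) * ((p : ℕ) : OO A B)) * x := by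
            rw [huv', one_mul]
        _ = (u : OO A B) * (((nI (R.b i) : ℕ) : OO A B) * x) + (v : OO A B) * ((p : ℕ) : OO A B) * x := by
            ring
        _ = _ := by
            rw [h3]
            ring
    · rintro ⟨y, rfl⟩
      refine ⟨((nI (R.b i) : ℕ) : OO A B) * y, (R.b i).mul_mem_right _ hnb, ?_⟩
      rw [hpt, emb_mul hC, emb_mul hC, emb_natCast hC, emb_natCast hC]
      field_simp
  refine ⟨h1, ?_, ?_, ?_, ?_, ?_, ?_⟩
  · intro x
    rw [hlat]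
    refine ⟨((nI (R.b i) : ℕ) : OO A B) * x, (R.b i).mul_mem_right _ hnb, ?_⟩
    rw [hpt, emb_mul hC, emb_natCast hC]
    field_simp
  · intro z hz
    obtain ⟨y, hy, hyz⟩ := (hlat _).1 hz
    refine ⟨u * y, (hlat _).2 ⟨v * y, (R.b i).mul_mem_left _ hy, ?_⟩⟩
    rw [hpt]
    have h2 : z = R.om i * emb y / p := by
      rw [eq_div_iff hpC, ← hyz]
      ring
    have h3 : emb y = emb (u : OO A B) * ((nI (R.b i) : ℕ) : ℂ) * emb y +
        emb (v : OO A B) * (p : ℂ) * emb y := by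
      have h4 := congrArg emb huv'
      rw [emb_add hC, emb_mul hC, emb_mul hC, emb_natCast hC, emb_natCast hC, emb_one hC] at h4
      linear_combination (-emb y) * h4
    rw [h2, emb_mul hC, emb_mul hC]
    field_simp
    linear_combination h3
  · intro x y hxy
    have h2 : pt R p i x - pt R p i y = pt R p i (x - y) := by
      rw [hpt, hpt, hpt, emb_sub hC]
      ring
    rw [h2, h1]
    exact hxy
  · intro x y
    rw [hpt, hpt, emb_mul hC]
    ring
  · intro x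
    have hb0 : nI (R.b R.i0) = 1 := by
      rw [R.b0]
      unfold nI
      have : Subsingleton (OO A B ⧸ (⊤ : Ideal (OO A B))) := Ideal.Quotient.subsingleton_iff.2 rfl
      exact Nat.card_of_subsingleton 0
    unfold muX pt
    rw [hb0]
    push_cast
    field_simp
  · intro α z hz
    obtain ⟨x, hx, rfl⟩ := (hlat z).1 hz
    refine (hlat _).2 ⟨α * x, (R.b i).mul_mem_left _ hx, ?_⟩
    rw [emb_mul hC]
    ring

end

end Pool.Agent.TWI


end

section

/-!
# TWI, block C4: the TYPE of the symbol, `p` inert (helper54)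

`SetI p A B P V f`, `v = V.valuation`, `q = p²`, `L_i = R.L i`, `om_i = R.om i`, `mu_i = muX R i`. Model: block TN of MUX-NS (`Pool/Agent/NS/StTN.lean`, files `NS/T_X.lean`), there `p = 3` and the
lattices have no good normalised model; here (`GRd`) there are no `u, e, lam`, everything is simpler. RESULT: `S_TYPI` of `DefsI.lean`.

IDEA. `e = epI eta w`, `y0` = a value of `Φ` (`= PhiK/om_0`). `σ` in the inertia group at `V` of a large Galois extension `F / k`. `σ` is trivial on `RF (m')`, `m'` prime to `p` (YINE), so it acts on the points of level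
`m = p^(j+1) m'` of every `L_i` as `d_i c`, `c ∈ O`, `c ≡ 1` modulo `m'`, `d_i = ±1` (YACI), `d_i = 1` (YSGN), `σ mu_i = mu_i` (YSGM), `e(c) σ(P_i/om_i) = P_i/om_i` (YVAL), `e(c) σ(y0) = y0` (YVAK), `e(c) = w(c)`.
`tau = Σ w(x)⁻¹ t(pt R p i0 x)`: `σ tau = w(c) tau`, `v(tau)^(q-1) = v p` (YTAU). So `y0 tau` is in the inertia field of `F`, where `v < 1` implies `v ≤ v p` (YUNF). If `v(y0) ≥ 1` then `v(y0 tau) ≥ v(tau) > v(p)`, so `v(y0 tau) ≥ 1`.

Every `def S_X : Prop` is the statement of a module, which proves `theorem t_X (h : S_Y) ... : S_X` (hypotheses: the statements `S_..` named under USES, fewer is fine) in `Pool/Agent/TWI/X.lean`, namespace `Pool.Agent.TWI`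
(private lemmas in `Pool.Agent.TWI.X`). `ActT`, `KIn` are the definitions of `NS/StTN.lean` (general). The lemmas of the model files (`namespace Pool.Agent.NST.X`) may be cited, import the file: many are general. Unconditional: `Pool.Agent.MUXU.u_X` (`MUX/UAll.lean`), `Pool.Agent.MUXY.y_X : Sy_X`
(`MUX/YAll.lean`), `Pool.Agent.MUXV.x_X`, `q_X` (`MUX/RQAll.lean`), `MUX/XLib.lean`, `Pool.Agent.TWI.t_TEP`.
-/

set_option autoImplicit false

open WeierstrassCurve Polynomial NumberField IsDedekindDomain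

namespace Pool.Agent.TWI

open _root_.MU3 Pool.Agent.MU3A Pool.Agent.MU3B Pool.Agent.MU3C Pool.Agent.RI Pool.Agent.RID
open Pool.Agent.MUX Pool.Agent.MUXU Pool.Agent.MUXW Pool.Agent.TWT
open Pool.Agent.MUXV (GR InK tX)
open Pool.Agent.MUXY (ActN Dn)
open Pool.Agent.NST (ActT KIn)
open OnePoint

noncomputable section

/-! ## 1. Fields -/

/-- (YUNF) the inertia field is unramified.

MODEL: `nt_UNF` (`Pool/Agent/NS/T_UNF.lean`) with `3` replaced by `p` (its lemmas `inertia_lt`, `val_card`, `card_fixed` are general: cite them). `v(emb x) < 1` iff `x ∈ P = idl p`, iff `p ∣ x` (`SetI.hV`, `SetI.eP`). -/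
def S_YUNF : Prop :=
  ∀ (p : ℕ) (A B : ℤ) (P : Ideal (OO A B)) (V : ValuationSubring ℂ) (f : ℕ), SetI p A B P V f →
    ∀ (F : IntermediateField (kk A B) ℂ) [FiniteDimensional (kk A B) F] [IsGalois (kk A B) F],
    ∀ w ∈ KIn A B V F, V.valuation w < 1 → V.valuation w ≤ V.valuation (p : ℂ)

/-- (YINE) an automorphism which is trivial modulo `V` on `RF (idl m)`, `p ∤ m`, is trivial on it.

USES VPGI. MODEL: the second half of `t_UNRG` (`Pool/Agent/TWT/UNRG.lean`; `TWI/UNRGI.lean` for `SetI`). `s : ℂ ≃+* ℂ` with `FixK` is `kk A B`-linear (`KER.fix`): `s' := AlgEquiv.ofRingEquiv (f := s) ..`, `σ := s'.restrictNormal (RF (idl m))` (`TorX.gal`; `AlgEquiv.restrictNormal_commutes`): `(σ y : ℂ) = s y`. The proof of `t_UNRG` shows `σ = 1`. -/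
def S_YINE : Prop :=
  ∀ (p : ℕ) (A B : ℤ) (P : Ideal (OO A B)) (V : ValuationSubring ℂ) (f : ℕ), SetI p A B P V f →
    TorX A B → ∀ (ι : Type) [Finite ι] (R : Reps A B (p * f) ι), GRd V R →
    ∀ m : ℕ, m ≠ 0 → ¬ p ∣ m → ∀ s : ℂ ≃+* ℂ, FixK A B s →
    (∀ y ∈ (RF (idl m) : IntermediateField (kk A B) ℂ), V.valuation y ≤ 1 →
      V.valuation (s y - y) < 1) →
    ∀ y ∈ (RF (idl m) : IntermediateField (kk A B) ℂ), s y = y

/-! ## 2. Algebraic numbers -/

/-- (YALT) the coordinates of torsion points are algebraic.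

MODEL: `nt_ALT` (`Pool/Agent/NS/T_ALT.lean`), its lemmas `alg_RF`, `wp_mem`. -/
def S_YALT : Prop :=
  ∀ (A B : ℤ), CQ A B → TorX A B → ∀ (b : Ideal (OO A B)) (L : PeriodPair) (om : ℂ),
    IsNL b L om → ∀ N : ℕ, N ≠ 0 → ∀ z, z ∉ L.lattice → (N : ℂ) * z ∈ L.lattice →
    IsAlgebraic ℚ (xn L z) ∧ IsAlgebraic ℚ (yy L z)

/-- (YALV) the values are algebraic.

MODEL: `nt_ALV` (`Pool/Agent/NS/T_ALV.lean`; uses `Sy_ALP`, theorem `Pool.Agent.MUXY.y_ALP`). -/
def S_YALV : Prop :=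
  ∀ (A B : ℤ), CQ A B → TorX A B → ∀ (n : ℕ), 2 ≤ n → ∀ (ι : Type) [Fintype ι]
    (R : Reps A B n ι) (e : OO A B → ℂ), IsEI (idl (A := A) (B := B) n) e →
    ∀ r : ℕ, r ≠ 0 → (∀ x, e x ≠ 0 → e x ^ r = 1) → ∀ kk : ι → ℂ, (∀ i, kk i ^ r = 1) →
    ∀ x y : OnePoint ℚ, IsAlgebraic ℚ (PhiK R e kk x y / R.om R.i0)

/-! ## 3. The action of an automorphism in the inertia group -/

/-- (YACI) the number `c` and the signs `d_i`.

MODEL: `nt_ACI` (`Pool/Agent/NS/T_ACI.lean`), `3` replaced by `p ≥ 2`; the first part (`Sn_RFIN`) is a hypothesis here. `idl m ≤ idl p ≠ ⊤`. -/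
def S_YACI : Prop :=
  ∀ (A B : ℤ), CQ A B → TorX A B → ∀ (n : ℕ) (ι : Type) (R : Reps A B n ι) (p j m' : ℕ),
    2 ≤ p → m' ≠ 0 → ∀ σ : ℂ ≃+* ℂ, FixK A B σ →
    (∀ y ∈ RF (idl (A := A) (B := B) m'), σ y = y) →
    ∃ (c : OO A B) (d : ι → ℤ), c - 1 ∈ idl (A := A) (B := B) m' ∧
      c ∉ idl (A := A) (B := B) p ∧ ActT R (p ^ (j + 1) * m') σ c d

/-- (YSGN) all signs are `1`.

USES VPGI. MODEL: `nt_SGU` (`Pool/Agent/NS/T_SGU.lean`) with `u = 1`, `L_i` in place of `L_0`. `z = pt R m' i 1 = om_i N(b_i)/m'`: `m' z ∈ L_i` (`N(b_i) ∈ b_i`, `nI_mem`), `2 z ∉ L_i`: otherwise `2 N(b_i) = m' x`, `x ∈ O`, so `m' ∣ 2 N(b_i)` (real parts), `f ∣ 2 N(b_i)`, `f ∣ 2` (`R.cop`), but `f ≥ 6`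
(`2 absD ∣ f`, `absD ≥ 3`; this argument is in `T_SGM.lean`). So `z`, `2 z` are not in the kernel of reduction (VPGI, last clause) and `v(yy L_i z) = 1` (`Pool.Agent.MUXV.q_YUN`, or `Pool.Agent.MU3.Val.v_y_unit` as in the model; `GRn` from VPGI). `c z - z ∈ L_i`, `ActT.act i`: `σ(yy z) = yy(d_i c z) = d_i yy z`. If `d_i = -1`:
`σ(yy z) - yy z = -2 yy z` has valuation `1`, against the hypothesis. -/
def S_YSGN : Prop :=
  ∀ (p : ℕ) (A B : ℤ) (P : Ideal (OO A B)) (V : ValuationSubring ℂ) (f : ℕ), SetI p A B P V f →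
    ∀ (ι : Type) (R : Reps A B (p * f) ι), GRd V R → ∀ (j m' : ℕ), m' ≠ 0 → ¬ p ∣ m' → f ∣ m' →
    ∀ (σ : ℂ ≃+* ℂ) (c : OO A B) (d : ι → ℤ), c - 1 ∈ idl (A := A) (B := B) m' →
    ActT R (p ^ (j + 1) * m') σ c d →
    (∀ i, V.valuation (yy (R.L i) (pt R m' i 1)) ≤ 1 →
      V.valuation (σ (yy (R.L i) (pt R m' i 1)) - yy (R.L i) (pt R m' i 1)) < 1) →
    ∀ i, d i = 1

/-- (YSGM) conjugation of the multipliers.

MODEL: `nt_SGM` (`Pool/Agent/NS/T_SGM.lean`), `3` replaced by `p`. -/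
def S_YSGM : Prop :=
  ∀ (A B : ℤ) (p f : ℕ), CQ A B → 1 ≤ p → 3 ≤ f → ∀ (ι : Type) (R : Reps A B (p * f) ι)
    (j m' : ℕ), m' ≠ 0 → f ∣ m' → ∀ (σ : ℂ ≃+* ℂ) (c : OO A B) (d : ι → ℤ),
    c - 1 ∈ idl (A := A) (B := B) m' → ActT R (p ^ (j + 1) * m') σ c d →
    ∀ i, σ (muX R i) = d R.i0 * d i * muX R i

/-- (YVAL) conjugation of the values.

MODEL: `nt_VAL` (`Pool/Agent/NS/T_VAL.lean`; uses `Sy_RA1`, theorem `Pool.Agent.MUXY.y_RA1`), `3 * f` replaced by `n`. -/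
def S_YVAL : Prop :=
  ∀ (A B : ℤ) (n : ℕ), CQ A B → 2 ≤ n → ∀ (ι : Type) (R : Reps A B n ι)
    (e : OO A B → ℂ), IsEI (idl (A := A) (B := B) n) e → ∀ m : ℕ, m ≠ 0 → n ∣ m →
    ∀ (σ : ℂ ≃+* ℂ) (c : OO A B) (d : ι → ℤ), ActT R m σ c d → (∀ x, σ (e x) = e x) →
    ∀ (i : ι) (x y : OnePoint ℚ), Dn m x → Dn m y →
      e c * σ (PhiI (R.b i) e x y / R.om i) = d i * (PhiI (R.b i) e x y / R.om i)

/-- (YVAK) conjugation of the values of `PhiK/om_0`.

USES YSGM, YVAL. MODEL: `nt_VAK` (`Pool/Agent/NS/T_VAK.lean`) with `u = 1`, `d = 1`. -/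
def S_YVAK : Prop :=
  ∀ (A B : ℤ) (p f : ℕ), CQ A B → 1 ≤ p → 3 ≤ f → ∀ (ι : Type) [Fintype ι]
    (R : Reps A B (p * f) ι) (e : OO A B → ℂ), IsEI (idl (A := A) (B := B) (p * f)) e →
    ∀ (j m' : ℕ), m' ≠ 0 → f ∣ m' → ∀ (σ : ℂ ≃+* ℂ) (c : OO A B) (d : ι → ℤ),
    c - 1 ∈ idl (A := A) (B := B) m' → ActT R (p ^ (j + 1) * m') σ c d → (∀ i, d i = 1) →
    (∀ x, σ (e x) = e x) → ∀ kk : ι → ℂ, (∀ i, σ (kk i) = kk i) →
    ∀ x y : OnePoint ℚ, Dn (p ^ (j + 1) * m') x → Dn (p ^ (j + 1) * m') y →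
      e c * σ (PhiK R e kk x y / R.om R.i0) = PhiK R e kk x y / R.om R.i0

/-! ## 4. The number `tau` -/

/-- (YTAU) the number `tau`.

USES YALT, KRI, TRI, PTI (block A, `StI1.lean`), `t_TEP`. MODEL: `nt_TAU` (`Pool/Agent/NS/T_TAU.lean`). PROOF. `T` with `RepI P T` (TEP), `t(x) = tX (xn L_0) (yy L_0) (pt R p i0 x)`, `tau = Σ_(x ∈ T) (w x)⁻¹ t(x)`. (1) (TRI) `v(t(x) - w x t(1)) ≤ v(t(1))²`, `v(w x) = 1`: `v(tau - (p² - 1) t(1)) ≤ v(t(1))² < v(t(1))`
(`T.card = p² - 1`; `v(t(1)) < 1`, `≠ 0` by (KRI) for `x = 1`), `v(p² - 1) = 1` (TEP): `v(tau) = v(t(1))`. (2) algebraic: (YALT) for `N = p` (`pt R p i0 x ∉ L_0`, KRI), roots of unity. (3) `ActT.act i0` with `d = 1` for `z = pt R p i0 x` (`m z ∈ L_0` as `p ∣ m`): `σ(℘ z) = ℘(emb c z)`, `σ(℘' z) = ℘'(emb c z)`,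
`emb c z = pt R p i0 (c x)` (PTI): `σ(t(x)) = t(c x)`. `F x = (w x)⁻¹ t(x)` depends only on `x` modulo `P` (`TeiI.per`; PTI and the periods of `℘`, `℘'`), `σ tau = Σ (w x)⁻¹ t(c x) = w(c) Σ_(x ∈ T) F(c x) = w(c) tau` (TEP). -/
def S_YTAU : Prop :=
  ∀ (p : ℕ) (A B : ℤ) (P : Ideal (OO A B)) (V : ValuationSubring ℂ) (f : ℕ), SetI p A B P V f →
    TorX A B → ∀ (ι : Type) (R : Reps A B (p * f) ι), GRd V R → ∀ w : OO A B → ℂ, TeiI p P V w →
    ∃ tau : ℂ, V.valuation tau ^ (p ^ 2 - 1) = V.valuation (p : ℂ) ∧ IsAlgebraic ℚ tau ∧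
      ∀ (m : ℕ), p ∣ m → ∀ (σ : ℂ ≃+* ℂ) (c : OO A B) (d : ι → ℤ), ActT R m σ c d →
        (∀ i, d i = 1) → c ∉ P → (∀ x, σ (w x) = w x) → σ tau = w c * tau

/-! ## 5. The result

(TYPI) `S_TYPI` of `DefsI.lean`; `theorem t_TYPI : S_TYPI` in `Pool/Agent/TWI/TYPI.lean`.

USES YUNF, YINE, YALT, YALV, YACI, YSGN, YVAK, YTAU, `t_TEP`, `Pool.Agent.NST.nt_GLC`. MODEL: `nt_TYF` (`Pool/Agent/NS/T_TYF.lean`). PROOF. `e = epI eta w` is `IsEI (idl (p * f))` (`eta` modulo `f`, `w` modulo `P = (p)`; `e(-1) = w(-1) = -1` by TEP; `supp`: prime to `f` and not in `P`). `kk = kkI R kp eta w`. With `r` from `ChD.fin` (`p ∤ r`),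
`s = r (p² - 1)`: `e x ^ s = 1` or `e x = 0`, `kk i ^ s = 1` (`e(nI (b i)) ≠ 0` by `R.cop`), `p ∤ s`. Given `x`, `y`: `D` = the product of the denominators of `x`, `y` (those of `-x`, `-y` are the same), `D = p^j N`, `p ∤ N`; `m' = f N`. `y0 = sgnPart 1 Φ x y = (1/2)(Φ x y + Φ (-x) (-y))`, `Φ = PhiK/om_0`. `tau` (YTAU).
(GLC): `F ⊇ RF (idl m')`, finite Galois over `k`, with `Φ x y`, `Φ (-x) (-y)`, `tau`, the `yy L_i (pt R m' i 1)` (`i ∈ ι`, finite; YALT) and all roots of unity of order dividing `s`. `σ` in `InI A B V F`: YINE, YACI, YSGN; `σ z = z` for `z^s = 1` (`TEP.uniq`; `v(s) = 1`), so `σ (e x) = e x`, `σ (kk i) = kk i`, `σ (w x) = w x`. YVAK: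
`e(c) σ(y0) = y0`; `c ≡ 1` modulo `f`, so `e(c) = w(c)`; YTAU: `σ(y0 tau) = y0 tau`: `g = y0 tau ∈ KIn`. If `1 ≤ v(y0)` and `v(g) < 1`: `v(tau) ≤ v(g) ≤ v(p) = v(tau)^(q-1) < v(tau)` (YUNF; `v(tau) < 1`, `q - 1 ≥ 2`), a contradiction. So `1 ≤ v(g)`, `1 ≤ v(g)^(q-1) = v(y0)^(q-1) v(p)`. -/

end

end Pool.Agent.TWI


end

section

/-!
# TWI, module TRG: triangular systems
-/

set_option autoImplicit false

open PowerSeries

namespace Pool.Agent.TWI

namespace TRG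

/-- the powers of a power series whose coefficients below `r` are integral -/
lemma coeff_pow_mem (V : ValuationSubring ℂ) (M : PowerSeries ℂ) (r : ℕ)
    (h : ∀ i < r, PowerSeries.coeff i M ∈ V) (k : ℕ) : ∀ i < r, PowerSeries.coeff i (M ^ k) ∈ V := by
  induction k with
  | zero =>
    intro i _
    rw [pow_zero, PowerSeries.coeff_one]
    split_ifs
    · exact V.one_mem
    · exact V.zero_mem
  | succ k ih =>
    intro i hi
    rw [pow_succ, PowerSeries.coeff_mul]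
    refine V.sum_mem fun x hx => ?_
    rw [Finset.HasAntidiagonal.mem_antidiagonal] at hx
    exact V.mul_mem _ _ (ih _ (by omega)) (h _ (by omega))

/-- the coefficients of the powers of `Λ = T + ...` -/
lemma coeff_pow (Λ M : PowerSeries ℂ) (h : Λ = PowerSeries.X * M) (j k : ℕ) :
    PowerSeries.coeff j (Λ ^ k) = if k ≤ j then PowerSeries.coeff (j - k) (M ^ k) else 0 := by
  rw [h, mul_pow, PowerSeries.coeff_X_pow_mul']

/-- the diagonal coefficient -/
lemma coeff_diag (Λ M : PowerSeries ℂ) (h : Λ = PowerSeries.X * M)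
    (h1 : PowerSeries.coeff 1 Λ = 1) (j : ℕ) : PowerSeries.coeff j (Λ ^ j) = 1 := by
  have h0 : PowerSeries.constantCoeff M = 1 := by
    have := coeff_pow Λ M h 1 1
    rw [pow_one, h1, if_pos le_rfl, Nat.sub_self, pow_one,
      PowerSeries.coeff_zero_eq_constantCoeff_apply] at this
    exact this.symm
  rw [coeff_pow Λ M h, if_pos le_rfl, Nat.sub_self, PowerSeries.coeff_zero_eq_constantCoeff_apply,
    map_pow, h0, one_pow]

end TRG

open _root_.Pool.Agent.TWI.TRG in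
/-- triangular systems -/
theorem i_TRG : S_TRG := by
  intro V n Λ D h0 h1 hc N hN hΛ
  obtain ⟨M, hM⟩ : PowerSeries.X ∣ Λ := by
    rw [PowerSeries.X_dvd_iff, ← PowerSeries.coeff_zero_eq_constantCoeff_apply]
    exact h0
  have hΛ' : ∀ j < N, PowerSeries.coeff j Λ ∈ V := fun j hj =>
    (V.valuation_le_one_iff _).1 (hΛ j hj)
  have hsum : ∀ j, PowerSeries.coeff j (∑ k ∈ Finset.range n, PowerSeries.C (D k) * Λ ^ k) =
      ∑ k ∈ Finset.range n, D k * PowerSeries.coeff j (Λ ^ k) := by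
    intro j
    rw [map_sum]
    refine Finset.sum_congr rfl fun k _ => ?_
    rw [PowerSeries.coeff_C_mul]
  have hc' : ∀ j < n, ∑ k ∈ Finset.range n, D k * PowerSeries.coeff j (Λ ^ k) ∈ V := by
    intro j hj
    rw [← hsum]
    exact (V.valuation_le_one_iff _).1 (hc j hj)
  have hbig : ∀ j k, j < k → PowerSeries.coeff j (Λ ^ k) = 0 := by
    intro j k hjk
    rw [coeff_pow Λ M hM, if_neg (by omega)]
  have hD : ∀ k < N, D k ∈ V := by
    intro j
    induction j using Nat.strong_induction_on with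
    | _ j ih =>
      intro hj
      have h2 := hc' j (by omega)
      rw [← Finset.add_sum_erase _ _ (Finset.mem_range.2 (show j < n by omega)),
        coeff_diag Λ M hM h1, mul_one] at h2
      have h3 : ∑ k ∈ (Finset.range n).erase j, D k * PowerSeries.coeff j (Λ ^ k) ∈ V := by
        refine V.sum_mem fun k hk => ?_
        rw [Finset.mem_erase, Finset.mem_range] at hk
        rcases Nat.lt_or_ge k j with h4 | h4
        · exact V.mul_mem _ _ (ih k h4 (by omega)) (coeff_pow_mem V Λ N hΛ' k j hj)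
        · rw [hbig j k (by omega), mul_zero]
          exact V.zero_mem
      have h4 := sub_mem h2 h3
      rwa [add_sub_cancel_right] at h4
  refine ⟨fun k hk => (V.valuation_le_one_iff _).2 (hD k hk), fun h2N hNn => ?_⟩
  rw [V.valuation_le_one_iff]
  have h2 := hc' N hNn
  rw [← Finset.add_sum_erase _ _ (Finset.mem_range.2 hNn), coeff_diag Λ M hM h1, mul_one,
    ← Finset.add_sum_erase _ _ (show 1 ∈ (Finset.range n).erase N by
      rw [Finset.mem_erase, Finset.mem_range]; omega), pow_one] at h2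
  have h3 : ∑ k ∈ ((Finset.range n).erase N).erase 1, D k * PowerSeries.coeff N (Λ ^ k) ∈ V := by
    refine V.sum_mem fun k hk => ?_
    rw [Finset.mem_erase, Finset.mem_erase, Finset.mem_range] at hk
    rcases Nat.lt_or_ge N k with h4 | h4
    · rw [hbig N k h4, mul_zero]
      exact V.zero_mem
    · rcases Nat.eq_zero_or_pos k with h5 | h5
      · rw [h5, pow_zero, PowerSeries.coeff_one, if_neg (by omega), mul_zero]
        exact V.zero_mem
      · refine V.mul_mem _ _ (hD k (by omega)) ?_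
        rw [coeff_pow Λ M hM, if_pos h4]
        refine coeff_pow_mem V M (N - 1) (fun i hi => ?_) k _ (by omega)
        have h6 := coeff_pow Λ M hM (i + 1) 1
        rw [if_pos (by omega), pow_one, pow_one, Nat.add_sub_cancel] at h6
        rw [← h6]
        exact hΛ' _ (by omega)
  have h4 := sub_mem h2 h3
  rw [← add_assoc, add_sub_cancel_right, mul_comm (D 1)] at h4
  exact h4

end Pool.Agent.TWI


end

section

/-!
# TWI, block A: from expansions to Taylor expansions with integral coefficients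
-/

set_option autoImplicit false

open WeierstrassCurve PowerSeries

namespace Pool.Agent.TWI

open _root_.MU3 Pool.Agent.MU3A Pool.Agent.MU3B Pool.Agent.MUX Pool.Agent.MUXU Pool.Agent.TWT
open Pool.Agent.MUXV (GR InK tX HalfI)

namespace TYI

/-- the coefficients below `n` of powers only depend on the truncation -/
lemma coeff_trunc_pow (Λ : PowerSeries ℂ) (n k j : ℕ) (hj : j < n) :
    PowerSeries.coeff j (((PowerSeries.trunc n Λ : Polynomial ℂ) : PowerSeries ℂ) ^ k) =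
      PowerSeries.coeff j (Λ ^ k) := by
  have h := PowerSeries.trunc_trunc_pow Λ n k
  rw [← PowerSeries.coeff_coe_trunc_of_lt hj, h, PowerSeries.coeff_coe_trunc_of_lt hj]

/-- the difference of the two evaluations is a multiple of `t ^ n` -/
lemma key (V : ValuationSubring ℂ) (n : ℕ) (Λ : PowerSeries ℂ) (D : ℕ → ℂ) (t : V)
    (hL : ∀ j < n, V.valuation (PowerSeries.coeff j Λ) ≤ 1)
    (hD : ∀ k < n, V.valuation (D k) ≤ 1) :
    ∃ r : V, ∑ k ∈ Finset.range n, D k *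
        (∑ j ∈ Finset.range n, PowerSeries.coeff j Λ * (t : ℂ) ^ j) ^ k -
      ∑ j ∈ Finset.range n, PowerSeries.coeff j (∑ k ∈ Finset.range n,
        PowerSeries.C (D k) * Λ ^ k) * (t : ℂ) ^ j = ((t ^ n * r : V) : ℂ) := by
  classical
  obtain ⟨l, hl⟩ : ∃ l : ℕ → V, ∀ j < n, ((l j : V) : ℂ) = PowerSeries.coeff j Λ :=
    ⟨fun j => if h : j < n then ⟨_, (ValuationSubring.valuation_le_one_iff _ _).1 (hL j h)⟩ else 0,
      fun j hj => by simp [hj]⟩
  obtain ⟨d, hd⟩ : ∃ d : ℕ → V, ∀ k < n, ((d k : V) : ℂ) = D k :=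
    ⟨fun j => if h : j < n then ⟨_, (ValuationSubring.valuation_le_one_iff _ _).1 (hD j h)⟩ else 0,
      fun j hj => by simp [hj]⟩
  obtain ⟨P, hP⟩ : ∃ P : Polynomial V,
      P = ∑ j ∈ Finset.range n, Polynomial.monomial j (l j) := ⟨_, rfl⟩
  obtain ⟨Q, hQ⟩ : ∃ Q : Polynomial V,
      Q = ∑ k ∈ Finset.range n, Polynomial.C (d k) * P ^ k := ⟨_, rfl⟩
  have hPm : P.map (algebraMap V ℂ) = PowerSeries.trunc n Λ := by
    ext j
    rw [Polynomial.coeff_map, PowerSeries.coeff_trunc, hP, Polynomial.finsetSum_coeff]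
    simp only [Polynomial.coeff_monomial]
    rw [Finset.sum_ite_eq']
    simp only [Finset.mem_range]
    split_ifs with h
    · exact hl j h
    · simp
  have hQm : ∀ j < n, ((Q.coeff j : V) : ℂ) = PowerSeries.coeff j (∑ k ∈ Finset.range n,
        PowerSeries.C (D k) * Λ ^ k) := by
    intro j hj
    have h1 : ((Q.coeff j : V) : ℂ) = (Q.map (algebraMap V ℂ)).coeff j := by
      rw [Polynomial.coeff_map]; rfl
    rw [h1, ← Polynomial.coeff_coe, hQ, Polynomial.map_sum, map_sum]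
    have h2 : ((∑ k ∈ Finset.range n, (Polynomial.C (d k) * P ^ k).map (algebraMap V ℂ) :
        Polynomial ℂ) : PowerSeries ℂ) = ∑ k ∈ Finset.range n,
        PowerSeries.C ((d k : V) : ℂ) *
          ((PowerSeries.trunc n Λ : Polynomial ℂ) : PowerSeries ℂ) ^ k := by
      rw [← Polynomial.coeToPowerSeries.ringHom_apply, map_sum]
      refine Finset.sum_congr rfl fun k _ => ?_
      rw [Polynomial.map_mul, Polynomial.map_pow, hPm, Polynomial.map_C, map_mul, map_pow,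
        Polynomial.coeToPowerSeries.ringHom_apply, Polynomial.coeToPowerSeries.ringHom_apply,
        Polynomial.coe_C]
      rfl
    rw [h2, map_sum]
    refine Finset.sum_congr rfl fun k hk => ?_
    rw [PowerSeries.coeff_C_mul, PowerSeries.coeff_C_mul, coeff_trunc_pow Λ n k j hj,
      hd k (Finset.mem_range.1 hk)]
  have hdvd : (Polynomial.X : Polynomial V) ^ n ∣
      Q - ∑ j ∈ Finset.range n, Polynomial.monomial j (Q.coeff j) := by
    rw [Polynomial.X_pow_dvd_iff]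
    intro e he
    rw [Polynomial.coeff_sub, Polynomial.finsetSum_coeff]
    simp only [Polynomial.coeff_monomial]
    rw [Finset.sum_ite_eq']
    simp [he]
  obtain ⟨S, hS⟩ := hdvd
  refine ⟨S.eval t, ?_⟩
  have hev := congrArg (Polynomial.eval t) hS
  rw [Polynomial.eval_sub, Polynomial.eval_mul, Polynomial.eval_pow, Polynomial.eval_X] at hev
  rw [← hev, hQ, Polynomial.eval_finsetSum]
  simp only [Polynomial.eval_mul, Polynomial.eval_C, Polynomial.eval_pow,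
    Polynomial.eval_finsetSum, Polynomial.eval_monomial]
  rw [← hQ]
  have hPt : ((P.eval t : V) : ℂ) =
      ∑ j ∈ Finset.range n, PowerSeries.coeff j Λ * (t : ℂ) ^ j := by
    rw [hP, Polynomial.eval_finsetSum]
    push_cast
    refine Finset.sum_congr rfl fun j hj => ?_
    rw [Polynomial.eval_monomial]
    push_cast
    rw [hl j (Finset.mem_range.1 hj)]
  push_cast
  rw [hPt]
  congr 1
  · refine Finset.sum_congr rfl fun k hk => ?_
    rw [hd k (Finset.mem_range.1 hk)]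
  · refine Finset.sum_congr rfl fun j hj => ?_
    rw [hQm j (Finset.mem_range.1 hj)]

end TYI

open _root_.Pool.Agent.TWI.TYI

theorem i_TYI (h : S_TRG) : S_TYI := by
  intro V L a2 a4 hG Λ hΛ n hn hint
  obtain ⟨W, ξ, G, -, -⟩ := hG
  have hdint : ∀ z, ¬ InK V L (xn L) z → ∀ (f : MvPolynomial (Fin 2) V), ∀ k < n,
      V.valuation (dd L a2 a4 f k z) ≤ 1 := by
    intro z hz f
    obtain ⟨gx, gy, h1, -⟩ := hΛ.exp z hz
    refine (h V n Λ (fun k => dd L a2 a4 f k z) hΛ.c0 hΛ.c1 ?_ n le_rfl hint).1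
    intro j hj
    rw [← h1 f n j hj]
    exact (ValuationSubring.valuation_le_one_iff _ _).2
      (PowerSeries.coeff j (MvPolynomial.aeval ![gx, gy] f)).2
  refine ⟨⟨?_, ?_, ?_, ?_⟩, hdint⟩
  · have h0 : 0 < n := by omega
    simp only [h0, if_true]
    exact hΛ.c0
  · have h1 : 1 < n := by omega
    simp only [h1, if_true]
    exact hΛ.c1
  · intro j
    by_cases hj : j < n
    · simp only [hj, if_true]
      exact hint j hj
    · simp only [hj, if_false, map_zero]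
      exact zero_le_one
  · intro R hR hRL z hz f
    obtain ⟨hvt, hvt0, hvt2⟩ := Pool.Agent.MUXV.v_tX_lt G hR hRL
    obtain ⟨t, ht⟩ : ∃ t : V, (t : ℂ) = tX (xn L) (yy L) R :=
      ⟨⟨_, (ValuationSubring.valuation_le_one_iff _ _).1 hvt.le⟩, rfl⟩
    obtain ⟨gx, gy, h1, h2⟩ := hΛ.exp z hz
    have h2' := h2 R hR hRL f n hn
    obtain ⟨r, hr⟩ := key V n Λ (fun k => dd L a2 a4 f k z) t hint (hdint z hz f)
    have hvpi : vpi (fun j => if j < n then PowerSeries.coeff j Λ else 0) n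
        (tX (xn L) (yy L) R) = ∑ j ∈ Finset.range n, PowerSeries.coeff j Λ * (t : ℂ) ^ j := by
      rw [vpi, ht]
      refine Finset.sum_congr rfl fun j hj => ?_
      simp only [Finset.mem_range.1 hj, if_true]
    have hc : ∑ j ∈ Finset.range n,
        ((PowerSeries.coeff j (MvPolynomial.aeval ![gx, gy] f) : V) : ℂ) *
          tX (xn L) (yy L) R ^ j = ∑ j ∈ Finset.range n, PowerSeries.coeff j
          (∑ k ∈ Finset.range n, PowerSeries.C (dd L a2 a4 f k z) * Λ ^ k) * (t : ℂ) ^ j := by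
      rw [ht]
      refine Finset.sum_congr rfl fun j hj => ?_
      rw [h1 f n j (Finset.mem_range.1 hj)]
    rw [hc] at h2'
    have e : MvPolynomial.aeval ![xn L (z + R), yy L (z + R)] f -
        ∑ k ∈ Finset.range n, MvPolynomial.aeval ![xn L z, yy L z] ((dW a2 a4)^[k] f) /
          (k.factorial : ℂ) *
          vpi (fun j => if j < n then PowerSeries.coeff j Λ else 0) n
            (tX (xn L) (yy L) R) ^ k =
        (MvPolynomial.aeval ![xn L (z + R), yy L (z + R)] f - ∑ j ∈ Finset.range n,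
          PowerSeries.coeff j (∑ k ∈ Finset.range n,
            PowerSeries.C (dd L a2 a4 f k z) * Λ ^ k) * (t : ℂ) ^ j) -
          ((t ^ n * r : V) : ℂ) := by
      rw [← hr, hvpi]
      simp only [dd]
      ring
    rw [e]
    refine (Valuation.map_sub _ _ _).trans (max_le h2' ?_)
    push_cast
    rw [map_mul, map_pow, ht]
    calc V.valuation (tX (xn L) (yy L) R) ^ n * V.valuation (r : ℂ)
        ≤ V.valuation (tX (xn L) (yy L) R) ^ n * 1 :=
          mul_le_mul_right ((ValuationSubring.valuation_le_one_iff _ _).2 r.2) _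
      _ = V.valuation (tX (xn L) (yy L) R) ^ n := mul_one _

end Pool.Agent.TWI


end

section

/-!
# TWI, block B, module UNRGI (helper81): `RF (idl m) / k` is unramified at `V` for `p ∤ m`, `p` inert

Text of `Pool/Agent/TWT/UNRG.lean` (helper22) for `SetI`.
-/

set_option autoImplicit false

open WeierstrassCurve Polynomial NumberField IsDedekindDomain

namespace Pool.Agent.TWI

open _root_.MU3 Pool.Agent.MU3A Pool.Agent.MU3B Pool.Agent.MU3C Pool.Agent.RI Pool.Agent.RID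
open Pool.Agent.MUX Pool.Agent.MUXU Pool.Agent.MUXW Pool.Agent.TWT
open Pool.Agent.MU3V (cls Sub GD algDF)
open Pool.Agent.MUXV (GR InK tX)

noncomputable section

theorem t_UNRGI (hVPG : S_VPGI) (hRAM : S_RAMGI) : S_UNRGI := by
  intro p A B P V f hS T ι _ R hR m hm hpm
  have he : Pool.Agent.MUXV.Sq_EMB := Pool.Agent.MUXV.tq_EMB
  have hC := hS.cq
  obtain ⟨-, -, -, eint, enat, einj, -⟩ := he A B (KER.cqF hC)
  have e0 : emb (0 : OO A B) = 0 := by simpa using eint 0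
  have hm0 : ((m : ℕ) : OO A B) ≠ 0 := by
    intro h
    have h1 := enat m
    rw [h, e0] at h1
    exact hm (by exact_mod_cast h1.symm)
  have hmn : (idl m : Ideal (OO A B)) ≠ ⊥ := by
    rwa [Ne, Ideal.span_singleton_eq_bot]
  have := T.fin (idl m) hmn
  have := T.gal (idl m) hmn
  refine fun y hy hy0 => hRAM p A B P V f hS (RF (idl m)) ?_ y hy hy0
  intro σ hσ
  obtain ⟨-, -, -, -, -, -, hgr⟩ := hVPG p A B P V f hS
  have hgr' := hgr ι R hR
  have hL : IsNL (⊤ : Ideal (OO A B)) (R.L R.i0) (R.om R.i0) := by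
    have := R.nl R.i0
    rwa [R.b0] at this
  -- the extension to `ℂ`
  let D : IntermediateField ℚ ℂ :=
    (RF (idl m) : IntermediateField (kk A B) ℂ).restrictScalars ℚ
  have hle : kk A B ≤ D := fun x hx =>
    (RF (idl m) : IntermediateField (kk A B) ℂ).algebraMap_mem ⟨x, hx⟩
  have hDy : ∀ y ∈ D, y ∈ (RF (idl m) : IntermediateField (kk A B) ℂ) := fun y hy => hy
  obtain ⟨s, hs, hs2⟩ : ∃ s : ℂ ≃+* ℂ, FixK A B s ∧
      ∀ y : (RF (idl m) : IntermediateField (kk A B) ℂ),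
        ((σ y : (RF (idl m) : IntermediateField (kk A B) ℂ)) : ℂ) = s y := by
    letI := algC hle
    let τ : D ≃ₐ[kk A B] D := AlgEquiv.ofRingEquiv (f := (σ.toRingEquiv : D ≃+* D))
      (fun r => σ.commutes r)
    obtain ⟨s, hs, hs1⟩ := T.ext (idl m) hmn D hle hDy τ
    exact ⟨s, hs, fun y => (hs1 y).symm⟩
  obtain ⟨a, ha, ha'⟩ := T.act (idl m) hmn s hs
  have hki : ∀ i, s (kap (R.L i)) = kap (R.L i) := by
    intro i
    obtain ⟨b', L', om', mu, hL', hA⟩ := ha' _ _ _ (R.nl i)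
    obtain ⟨j, hj, -, -⟩ := HIT.repr he hC R hL'
    have h1 : kap (R.L i) ∈ (RF (idl m) : IntermediateField (kk A B) ℂ) :=
      IntermediateField.subset_adjoin _ _ ⟨_, _, _, R.nl i, Or.inl rfl⟩
    have h2 := hσ ⟨kap (R.L i), h1⟩ (hR.kap i).le
    have h3 : s (kap (R.L i)) = kap (R.L j) := by rw [← hj, hA.kap]
    rw [hs2] at h2
    change V.valuation (s (kap (R.L i)) - kap (R.L i)) < 1 at h2
    rw [h3] at h2
    have h4 := hR.inj j i h2
    rw [h3, h4]
  have hkL : ∀ (b : Ideal (OO A B)) (L : PeriodPair) (om : ℂ), IsNL b L om →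
      s (kap L) = kap L := by
    intro b L om hL
    obtain ⟨j, hj, -, -⟩ := HIT.repr he hC R hL
    rw [hj]
    exact hki j
  have htop := Pool.Agent.TWT.UNRG.fixTop he hC hs hkL
  have hTr : TrH σ := by
    intro x hx
    apply Subtype.ext
    rw [hs2]
    exact htop _ hx
  obtain ⟨c, hc⟩ := (ty_KER he A B hC T ((m : ℕ) : OO A B) hm0).1 σ hTr
  have hK : ∀ z, emb ((m : ℕ) : OO A B) * z ∈ (R.L R.i0).lattice →
      InK V (R.L R.i0) (fun z => (R.L R.i0).weierstrassP z - 1 / 12) z →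
      z ∈ (R.L R.i0).lattice := by
    intro z hz hz'
    rw [enat] at hz
    exact (hgr' R.i0).2 m z hpm hz hz'
  have hinv := ty_INV he A B hC (R.L R.i0) (R.om R.i0) hL ((m : ℕ) : OO A B) hm0 V
    (hgr' R.i0).1 hK (RF (idl m)) le_rfl σ
    (fun x hx => hσ x ((ValuationSubring.valuation_le_one_iff _ _).2 hx)) c hc
  obtain ⟨-, acm2, -, -, acm5, acm6, -, -⟩ :=
    ty_ACM he A B hC (R.L R.i0) (R.om R.i0) hL ((m : ℕ) : OO A B) hm0
  have h1 := acm2 _ σ c 1 hinv hc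
  exact acm5 σ 1 1 h1 (acm6 _)

end

end Pool.Agent.TWI


end

section

/-!
# TWI, block C4, module YALT: the coordinates of torsion points are algebraic (helper54)
-/

set_option autoImplicit false

namespace Pool.Agent.TWI

open _root_.MU3 Pool.Agent.MU3A Pool.Agent.MU3B Pool.Agent.MUX

open Pool.Agent.NST.ALT in
/-- (YALT) -/
theorem t_YALT : S_YALT := by
  intro A B hC T b L om hL N hN z hz hz'
  have hP : IsAlgebraic ℚ (L.weierstrassP z) := alg_RF hC T hN (wp_mem hC hL hz hz')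
  have hk : IsAlgebraic ℚ (MUX.kap L) := alg_RF hC T hN
    (IntermediateField.subset_adjoin _ _ ⟨b, L, om, hL, Or.inl rfl⟩)
  have hg2 : IsAlgebraic ℚ L.g₂ := by
    have h8 : L.g₂ = ((1 / 12 : ℚ) : ℂ) + ((144 : ℚ) : ℂ) * MUX.kap L := by
      unfold MUX.kap
      push_cast
      ring
    rw [h8]
    exact (alg_num _).add ((alg_num _).mul hk)
  have hg3 : IsAlgebraic ℚ L.g₃ := by
    have h8 : L.g₃ = ((-1 / 18 : ℚ) : ℂ) * L.g₂ := by
      rw [hL.nrm]
      push_cast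
      ring
    rw [h8]
    exact (alg_num _).mul hg2
  have hD : IsAlgebraic ℚ (L.derivWeierstrassP z) := by
    apply IsAlgebraic.of_pow two_pos
    rw [L.derivWeierstrassP_sq z hz]
    have h4 : IsAlgebraic ℚ (4 : ℂ) := by simpa using alg_num 4
    exact ((h4.mul (hP.pow 3)).sub (hg2.mul hP)).sub hg3
  constructor
  · unfold xn
    have h5 : (1 / 12 : ℂ) = (((1 / 12 : ℚ)) : ℂ) := by push_cast; ring
    rw [h5]
    exact hP.sub (alg_num _)
  · unfold yy
    rw [div_eq_mul_inv]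
    have h2 : IsAlgebraic ℚ (2 : ℂ) := by simpa using alg_num 2
    exact hD.mul h2.inv

end Pool.Agent.TWI


end

section

/-!
# TWI, block C4, module YUNF (helper19): the inertia field of `F` at `V` is unramified, `p` inert

The proof is that of `nt_UNF` (`NS/T_UNF.lean`, helper37).
-/

set_option autoImplicit false

open NumberField IsDedekindDomain

namespace Pool.Agent.TWI

open _root_.MU3 Pool.Agent.MU3A Pool.Agent.MU3B Pool.Agent.RI Pool.Agent.MUX Pool.Agent.MUXU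
open OnePoint
open Pool.Agent.NST (KIn)
open Pool.Agent.NS (InI)

noncomputable section

open Pool.Agent.NST.UNF Pool.Agent.MU3E.RAM in
theorem t_YUNF : S_YUNF := by
  intro p A B P V f hS F _ _ y hyK hy1
  have hcq : CQ A B := hS.cq
  have hp0 : p ≠ 0 := hS.pp.ne_zero
  have hV : OverI V (idl (A := A) (B := B) p) := hS.eP ▸ hS.hV
  obtain ⟨⟨φ, hφ⟩, hinj, hded, hpos, hint⟩ := Pool.Agent.MUXE.te_RNG A B hcq
  have hw0 : IsIntegral ℤ (wC A B) := by
    rw [hint _ (wC_mem A B)]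
    exact ⟨⟨0, 1⟩, by simp [emb]⟩
  have hfd : FiniteDimensional ℚ (kk A B) :=
    IntermediateField.adjoin.finiteDimensional hw0.tower_top
  have hk : NumberField (kk A B) := ⟨⟩
  have hFQ : FiniteDimensional ℚ F := FiniteDimensional.trans ℚ (kk A B) F
  have hF : NumberField F := ⟨⟩
  have h3O : emb ((p : ℕ) : OO A B) = (p : ℂ) := by rw [← hφ, map_natCast]
  have hv : ∀ x : OO A B, V.valuation (emb x) < 1 ↔ ((p : ℕ) : OO A B) ∣ x := by
    intro x
    rw [← ValuationSubring.mem_nonunits_iff, hV x, Ideal.mem_span_singleton]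
  have hv3 : V.valuation (p : ℂ) < 1 := by
    rw [← h3O]
    exact (hv _).2 (dvd_refl _)
  obtain ⟨w, hw⟩ := exists_prime (V := V) (algebraMap F ℂ) (z := ((p : ℕ) : 𝓞 F)) (by exact_mod_cast hp0) (by
    have h2 : (algebraMap F ℂ) ((((p : ℕ) : 𝓞 F)) : F) = (p : ℂ) := by
      have h1 : (((p : ℕ) : 𝓞 F) : F) = p := map_natCast (algebraMap (𝓞 F) F) p
      rw [h1, map_natCast]
    rw [h2]
    exact hv3)
  have hspan : w.asIdeal.under (𝓞 (kk A B)) = Ideal.span {((p : ℕ) : 𝓞 (kk A B))} := by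
    ext x
    rw [Ideal.mem_span_singleton]
    have h2 : IsIntegral ℤ ((x : kk A B) : ℂ) :=
      (RingOfIntegers.isIntegral_coe x).map (Algebra.ofId (kk A B) ℂ |>.restrictScalars ℤ)
    obtain ⟨z, hz⟩ := (hint _ (x : kk A B).2).mp h2
    have hxw : x ∈ w.asIdeal.under (𝓞 (kk A B)) ↔ V.valuation (emb z) < 1 := by
      rw [← hz]
      exact hw (algebraMap (𝓞 (kk A B)) (𝓞 F) x)
    rw [hxw, hv]
    constructor
    · rintro ⟨c, rfl⟩
      have hcI : IsIntegral ℤ (ek c) := by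
        have h2 : IsIntegral ℤ (emb c) := (hint (emb c) (Pool.Agent.MU3A.emb_mem c)).mpr ⟨c, rfl⟩
        have h3 : algebraMap (kk A B) ℂ (ek c) = emb c := rfl
        rw [← h3] at h2
        exact (isIntegral_algebraMap_iff (FaithfulSMul.algebraMap_injective (kk A B) ℂ)).mp h2
      refine ⟨⟨ek c, hcI⟩, ?_⟩
      apply RingOfIntegers.ext
      apply Subtype.ext
      rw [hz, ← hφ, map_mul, hφ, hφ, h3O]
      rfl
    · rintro ⟨c, hc⟩
      have h2 : IsIntegral ℤ ((c : kk A B) : ℂ) :=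
        (RingOfIntegers.isIntegral_coe c).map (Algebra.ofId (kk A B) ℂ |>.restrictScalars ℤ)
      obtain ⟨t, ht⟩ := (hint _ (c : kk A B).2).mp h2
      refine ⟨t, ?_⟩
      have h4 : emb z = p * emb t := by
        rw [← hz, ← ht, hc]
        rfl
      have h5 : emb (z - ((p : ℕ) : OO A B) * t) = 0 := by
        rw [← hφ, map_sub, map_mul, hφ, hφ, hφ, h3O, h4, sub_self]
      exact sub_eq_zero.1 (hinj _ h5)
  set K₁ : IntermediateField (kk A B) F :=
    IntermediateField.fixedField (w.asIdeal.inertia (F ≃ₐ[kk A B] F)) with hK₁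
  have hK₁Q : FiniteDimensional ℚ K₁ := FiniteDimensional.trans ℚ (kk A B) K₁
  have hK₁n : NumberField K₁ := ⟨⟩
  have hcard := card_fixed w K₁ hK₁
  obtain ⟨v, hvp, hvv⟩ := val_card (k := kk A B) w
  obtain ⟨v₁, -, hvv₁⟩ := val_card (k := K₁) w
  rw [hcard] at hvv₁
  set e := Nat.card (w.asIdeal.inertia (F ≃ₐ[kk A B] F)) with he
  have hval3 : w.valuation F ((p : ℕ) : F) = WithZero.exp (-1 : ℤ) ^ e := by
    have h1 := hvv ((p : ℕ) : kk A B)
    rw [map_natCast] at h1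
    rw [h1]
    congr 1
    have h2 : (algebraMap (𝓞 (kk A B)) (kk A B)) ((p : ℕ) : 𝓞 (kk A B)) = ((p : ℕ) : kk A B) :=
      map_natCast _ p
    rw [← h2, HeightOneSpectrum.valuation_of_algebraMap]
    exact v.intValuation_singleton (by exact_mod_cast hp0) (by rw [hvp, hspan])
  -- the element `y` is in `K₁`
  have hyF : y ∈ F := hyK.1
  have hyK₁ : (⟨y, hyF⟩ : F) ∈ K₁ := by
    rw [hK₁, IntermediateField.mem_fixedField_iff]
    intro σ hσ
    obtain ⟨s, hs⟩ := tu_AUE (F.restrictScalars ℚ) (by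
      have h1 : Algebra.IsAlgebraic ℚ F := inferInstance
      exact h1) ((algebraMap F ℂ).comp (σ : F →+* F))
    have hs' : ∀ x : F, s (x : ℂ) = ((σ x : F) : ℂ) := hs
    have hI : InI A B V (F : Set ℂ) s := by
      refine ⟨?_, ?_, ?_⟩
      · have h1 := hs' (algebraMap (kk A B) F ⟨wC A B, wC_mem A B⟩)
        rw [σ.commutes] at h1
        exact h1
      · intro x hx
        rw [hs' ⟨x, hx⟩]
        exact (σ ⟨x, hx⟩).2
      · intro x hx hxV
        rw [ValuationSubring.mem_nonunits_iff, hs' ⟨x, hx⟩]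
        exact inertia_lt (algebraMap F ℂ) hw hσ (x := ⟨x, hx⟩)
          ((V.valuation_le_one_iff _).2 hxV)
    apply Subtype.ext
    rw [← hs']
    exact hyK.2 s hI
  have h1 := hvv₁ ⟨⟨y, hyF⟩, hyK₁⟩
  have h2 : w.valuation F (⟨y, hyF⟩ : F) < 1 := by
    refine lt_of_le_of_ne (le_ord (algebraMap F ℂ) hw hy1.le) ?_
    intro h
    have h3 := ord_one (algebraMap F ℂ) hw h
    exact absurd h3 hy1.ne
  have h3 : w.valuation F (⟨y, hyF⟩ : F) ≤ w.valuation F ((p : ℕ) : F) := by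
    have h4 : (algebraMap K₁ F) ⟨⟨y, hyF⟩, hyK₁⟩ = (⟨y, hyF⟩ : F) := rfl
    rw [h4] at h1
    rw [h1] at h2 ⊢
    rw [hval3]
    apply pow_le_pow_left₀ zero_le
    have h5 : v₁.valuation K₁ ⟨⟨y, hyF⟩, hyK₁⟩ < 1 := by
      by_contra h6
      push Not at h6
      exact absurd h2 (not_lt.2 (one_le_pow₀ h6))
    by_cases h0 : v₁.valuation K₁ ⟨⟨y, hyF⟩, hyK₁⟩ = 0
    · rw [h0]
      exact zero_le
    · rw [← WithZero.exp_log h0] at h5 ⊢
      rw [← WithZero.exp_zero, WithZero.exp_lt_exp] at h5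
      rw [WithZero.exp_le_exp]
      omega
  have h4 : w.valuation F ((⟨y, hyF⟩ : F) / ((p : ℕ) : F)) ≤ 1 := by
    rw [map_div₀]
    have h30 : w.valuation F ((p : ℕ) : F) ≠ 0 := (map_ne_zero _).2 (by exact_mod_cast hp0)
    exact (div_le_one₀ (zero_lt_iff.2 h30)).2 h3
  have h5 := ord_le (algebraMap F ℂ) hw h4
  rw [map_div₀, map_div₀, map_natCast] at h5
  have h30 : V.valuation (p : ℂ) ≠ 0 := (map_ne_zero _).2 (by exact_mod_cast hp0)
  exact (div_le_one₀ (zero_lt_iff.2 h30)).1 h5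

end

end Pool.Agent.TWI


end

section

/-!
# TWI, block C4, module YVAK: conjugation of the values of `PhiK/om_0` (helper54, after the module VAK of MUX-NS)
-/

set_option autoImplicit false

namespace Pool.Agent.TWI

open _root_.MU3 Pool.Agent.MU3A Pool.Agent.MU3B Pool.Agent.RI Pool.Agent.MUX Pool.Agent.MUXU
open OnePoint
open Pool.Agent.MUXY (ActN Dn)
open Pool.Agent.NST (ActT KIn)

noncomputable section

/-- (YVAK) -/
theorem t_YVAK (h1 : S_YSGM) (h2 : S_YVAL) : S_YVAK := by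
  intro A B p f hQ hp hf ι _ R e he j m' hm hfm σ c d hc hT hd1 hσ kk hkk x y hx hy
  have hm0 : p ^ (j + 1) * m' ≠ 0 := mul_ne_zero (pow_ne_zero _ (by omega)) hm
  have hfm' : p * f ∣ p ^ (j + 1) * m' := by
    rw [pow_succ, mul_assoc, mul_comm (p ^ j)]
    exact (mul_dvd_mul_left p hfm).mul_right _
  have hpf : 2 ≤ p * f := by
    have := Nat.mul_le_mul hp hf
    omega
  have key : ∀ i, e c * σ (kk i * PhiI (R.b i) e x y / R.om R.i0) =
      kk i * PhiI (R.b i) e x y / R.om R.i0 := by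
    intro i
    have homi : R.om i ≠ 0 := (R.nl i).om_ne
    have hom0 : R.om R.i0 ≠ 0 := (R.nl R.i0).om_ne
    have hn : ((nI (R.b i) : ℕ) : ℂ) ≠ 0 :=
      Nat.cast_ne_zero.2 (Pool.Agent.MUX.nI_ne_zero hQ (R.nl i).b_ne)
    have e1 : kk i * PhiI (R.b i) e x y / R.om R.i0 =
        kk i * (PhiI (R.b i) e x y / R.om i) * muX R i / nI (R.b i) := by
      rw [muX]
      field_simp
    have e2 := h1 A B p f hQ hp hf ι R j m' hm hfm σ c d hc hT i
    have e3 := h2 A B (p * f) hQ hpf ι R e he _ hm0 hfm' σ c d hT hσ i x y hx hy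
    rw [hd1 i, hd1 R.i0] at e2
    rw [hd1 i] at e3
    push_cast at e2 e3
    rw [one_mul, one_mul] at e2
    rw [one_mul] at e3
    rw [e1, map_div₀, map_mul, map_mul, hkk, e2, map_natCast]
    have e4 : e c * (kk i * σ (PhiI (R.b i) e x y / R.om i) * muX R i / (nI (R.b i) : ℂ)) =
        kk i * (e c * σ (PhiI (R.b i) e x y / R.om i)) * muX R i / (nI (R.b i) : ℂ) := by
      ring
    rw [e4, e3]
  rw [PhiK, Finset.sum_div, map_sum, Finset.mul_sum]
  exact Finset.sum_congr rfl fun i _ => key i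

end

end Pool.Agent.TWI


end
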