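import Pool.Agent.MVF.C014
import Pool.Agent.MVF.C087
import Pool.Agent.TWM.C15
import Pool.Agent.TWM.C17

/-! Parts: TWI.COM, TWI.LEI, TWI.UNITI -/

section

/-!
# TWI, block A, module COM: `x_M(mu z)` as a quotient of integral polynomials in `x_L(z)`
-/

set_option autoImplicit false

open WeierstrassCurve Polynomial

namespace Pool.Agent.TWI

open _root_.MU3 Pool.Agent.MU3A Pool.Agent.MU3B Pool.Agent.MUX Pool.Agent.MUXU Pool.Agent.TWT
open Pool.Agent.MUXV

noncomputable section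

namespace COM

variable {V : ValuationSubring ℂ} {L M : PeriodPair} {mu : ℂ} {n : ℕ}
  {W W' : WeierstrassCurve.Affine ℂ} {ξ : ℂ →+ W.Point} {ξ' : ℂ →+ W'.Point}

/-- an element of `V`, if it is one -/
def vl (V : ValuationSubring ℂ) (x : ℂ) : V := by
  classical
  exact if h : x ∈ V then ⟨x, h⟩ else 0

lemma vl_coe {x : ℂ} (h : V.valuation x ≤ 1) : ((vl V x : V) : ℂ) = x := by
  have h1 := (ValuationSubring.valuation_le_one_iff _ _).1 h
  unfold vl
  rw [dif_pos h1]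

/-- the kernel of reduction is mapped into the kernel of reduction -/
lemma inK_map (gL : GR V W L (xn L) (yy L) ξ) (gM : GR V W' M (xn M) (yy M) ξ')
    (h : IsgN V L M mu n) {u : ℂ} (hu : InK V L (xn L) u) : InK V M (xn M) (mu * u) := by
  by_cases huL : u ∈ L.lattice
  · exact inK_of_mem (h.sub u huL)
  · exact (t_FOI V L M mu n ⟨W, ξ, gL⟩ ⟨W', ξ', gM⟩ h.ne h.sub h.odd h.unit h.ker h.vmu u hu
      huL).1

end COM

open _root_.Pool.Agent.TWI.COM in
theorem i_COM : S_COM := by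
  intro V L M a2 a4 b2 b4 hGL hGM mu n hmn
  obtain ⟨W, ξ, gL, -, -⟩ := hGL
  obtain ⟨W', ξ', gM, -, -⟩ := hGM
  have hmu := hmn.ne
  have hI := hmn.sub
  have hk2 : ∀ z, mu * z ∈ M.lattice → 2 * z ∈ L.lattice → z ∈ L.lattice := by
    intro z hz h2z
    obtain ⟨k, hk⟩ := hmn.odd
    have h1 := hmn.ker z hz
    have h2 := sub_mem h1 (nsmul_mem h2z k)
    have e : (n : ℂ) * z - k • (2 * z) = z := by
      rw [hk, nsmul_eq_mul]; push_cast; ring
    rwa [e] at h2
  have hkerK : ∀ z, mu * z ∈ M.lattice → InK V L (xn L) z → z ∈ L.lattice := fun z hz hz2 =>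
    mem_of_nat_mul gL hz2 hmn.unit (hmn.ker z hz)
  obtain ⟨H, hH⟩ := x_HAL L M mu hmu hI hk2
  have htwo : ∀ w : ℂ, 2 * w ∈ L.lattice → w ∉ L.lattice → ¬ InK V L (xn L) w := by
    intro w hw hwL hw1
    exact hwL (mem_of_nat_mul gL hw1 (n := 2) (by simpa using gL.two) (by simpa using hw))
  have htwoM : ∀ w : ℂ, 2 * w ∈ M.lattice → w ∉ M.lattice → ¬ InK V M (xn M) w := by
    intro w hw hwL hw1
    exact hwL (mem_of_nat_mul gM hw1 (n := 2) (by simpa using gM.two) (by simpa using hw))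
  have hq : ∀ q ∈ H, ¬ InK V L (xn L) q := by
    intro q hq hqK
    have h1 := hkerK q (hH.mem q hq) hqK
    apply hH.ne q hq
    have := add_mem h1 h1
    rwa [← two_mul] at this
  obtain ⟨w, -, hw2, hwL, -, -, -, -⟩ := RMin.half_period L
  have hwK := htwo w hw2 hwL
  have hwq : ∀ q ∈ H, ¬ InK V L (xn L) (w + q) := by
    intro q hq hqK
    have h1 := inK_nat gL hqK 2
    have h2 := inK_sub gL h1 (inK_of_mem (V := V) (X := xn L) hw2)
    have e : ((2 : ℕ) : ℂ) * (w + q) - 2 * w = 2 * q := by push_cast; ring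
    rw [e] at h2
    apply hH.ne q hq
    apply hkerK _ _ h2
    have h3 := hH.mem q hq
    have h4 := add_mem h3 h3
    rwa [← two_mul, ← mul_assoc, mul_comm 2 mu, mul_assoc] at h4
  have hmw : mu * w ∉ M.lattice := fun h => hwL (hk2 w h hw2)
  have hmwK : ¬ InK V M (xn M) (mu * w) := by
    apply htwoM _ _ hmw
    have := hI _ hw2
    rwa [mul_left_comm] at this
  obtain ⟨Q, hQ⟩ : ∃ Q : V[X], Q = C (vl V mu) * ∏ q ∈ H, (X - C (vl V (xn L q))) := ⟨_, rfl⟩
  obtain ⟨B, hB⟩ : ∃ B : V[X], B = ∏ q ∈ H, (X - C (vl V (xn L (w + q)))) := ⟨_, rfl⟩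
  have ac : ∀ (x : ℂ) (a : V), Polynomial.aeval x (C a) = (a : ℂ) := by
    intro x a
    rw [Polynomial.aeval_C]
    rfl
  have eQ : ∀ x : ℂ, Polynomial.aeval x Q = mu * ∏ q ∈ H, (x - xn L q) := by
    intro x
    rw [hQ, map_mul, ac, vl_coe hmn.vmu.le, map_prod]
    congr 1
    apply Finset.prod_congr rfl
    intro q hqH
    rw [map_sub, Polynomial.aeval_X, ac, vl_coe (int_X (hq q hqH)).2]
  have eB : ∀ x : ℂ, Polynomial.aeval x B = ∏ q ∈ H, (x - xn L (w + q)) := by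
    intro x
    rw [hB, map_prod]
    apply Finset.prod_congr rfl
    intro q hqH
    rw [map_sub, Polynomial.aeval_X, ac, vl_coe (int_X (hwq q hqH)).2]
  refine ⟨(X - C (vl V (xn L w))) * B ^ 2 + C (vl V (xn M (mu * w))) * Q ^ 2, Q ^ 2, ?_, ?_⟩
  · intro z hz
    have h1 := (x_POL L M (1 / 12) mu H hmu hI hH).2 w hw2 hwL z hz
    have h2 : (QI L (1 / 12) mu H).eval (L.weierstrassP z - 1 / 12) =
        Polynomial.aeval (xn L z) Q := by
      rw [eQ, QI, eval_mul, eval_C, eval_prod]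
      simp only [eval_sub, eval_X, eval_C]
      rfl
    have h3 : (CI L (1 / 12) w H).eval (L.weierstrassP z - 1 / 12) =
        Polynomial.aeval (xn L z) B := by
      rw [eB, CI, eval_prod]
      simp only [eval_sub, eval_X, eval_C]
      rfl
    rw [h2, h3] at h1
    rw [map_add, map_mul, map_mul, map_pow, map_pow, map_sub, Polynomial.aeval_X, ac, ac,
      vl_coe (int_X hwK).2, vl_coe (int_X hmwK).2]
    unfold xn at h1 ⊢
    linear_combination h1
  · intro z hz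
    have hmap : ∀ u, InK V L (xn L) u → InK V M (xn M) (mu * u) := fun u hu =>
      inK_map gL gM hmn hu
    have hzL : ¬ InK V L (xn L) z := fun h => hz (hmap z h)
    refine ⟨hzL, ?_⟩
    have hp : ∀ q ∈ H, ¬ InK V L (xn L) (z + q) := by
      intro q hqH hK
      have h1 := hmap _ hK
      apply hz
      rw [inK_congr gM (w := mu * z) ] at h1
      · exact h1
      · rw [mul_add, add_sub_cancel_left]
        exact inK_of_mem (hH.mem q hqH)
    have hm : ∀ q ∈ H, ¬ InK V L (xn L) (z - q) := by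
      intro q hqH hK
      have h1 := hmap _ hK
      apply hz
      rw [inK_congr gM (w := mu * z) ] at h1
      · exact h1
      · rw [mul_sub, sub_sub_cancel_left]
        exact inK_neg gM (inK_of_mem (hH.mem q hqH))
    have hv : V.valuation (∏ q ∈ H, (xn L z - xn L q)) = 1 := by
      rw [map_prod]
      apply Finset.prod_eq_one
      intro q hqH
      exact v_X_sub gL hzL (hq q hqH) (hp q hqH) (hm q hqH)
    rw [map_pow, eQ, map_pow, map_mul, hv, hmn.vmu, mul_one, one_pow]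

end

end Pool.Agent.TWI


end

section

/-!
# TWI, block A: module LEI (helper52): the Leibniz rule for the identity of (COM)
-/

set_option autoImplicit false

namespace Pool.Agent.TWI

open _root_.MU3 Pool.Agent.MU3A Pool.Agent.MU3B Pool.Agent.MUX Pool.Agent.MUXU Pool.Agent.TWT
open Pool.Agent.MUXV (GR InK tX HalfI)

noncomputable section

namespace LEI

variable {V : ValuationSubring ℂ}

lemma hdP (L : PeriodPair) {z : ℂ} (hz : z ∉ L.lattice) :
    HasDerivAt L.weierstrassP (L.derivWeierstrassP z) z := by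
  have h1 : DifferentiableAt ℂ L.weierstrassP z :=
    (L.analyticOnNhd_weierstrassP z (by simpa using hz)).differentiableAt
  rw [← L.deriv_weierstrassP]
  exact h1.hasDerivAt

lemma dx (L : PeriodPair) {z : ℂ} (hz : z ∉ L.lattice) : HasDerivAt (xn L) (2 * yy L z) z := by
  have h1 := (hdP L hz).sub_const (1 / 12)
  have h2 : 2 * yy L z = L.derivWeierstrassP z := by
    unfold yy
    ring
  rw [h2]
  exact h1

/-- the coefficients of the curve -/
lemma coeffs {L : PeriodPair} {a2 a4 : V} (h : GRa V L a2 a4) :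
    (a2 : ℂ) = 1 / 4 ∧ (a4 : ℂ) = 1 / 48 - L.g₂ / 4 := by
  obtain ⟨W, ξ, G, e2, e4⟩ := h
  have key : ∀ x : ℂ, x ^ 3 + W.a₂ * x ^ 2 + W.a₄ * x + W.a₆ =
      (x + 1 / 12) ^ 3 - L.g₂ / 4 * (x + 1 / 12) - L.g₃ / 4 := by
    intro x
    obtain ⟨z, hz, hzx⟩ := b_SUR L (x + 1 / 12)
    obtain ⟨hn, -⟩ := G.some z hz
    have h1 := hn.1
    rw [WeierstrassCurve.Affine.equation_iff, G.int.a1, G.int.a3] at h1
    have h2 : xn L z = x := by
      unfold xn
      rw [hzx]
      ring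
    have h3 : yy L z ^ 2 = (x + 1 / 12) ^ 3 - L.g₂ / 4 * (x + 1 / 12) - L.g₃ / 4 := by
      have h4 := L.derivWeierstrassP_sq z hz
      rw [hzx] at h4
      unfold yy
      linear_combination (1 / 4) * h4
    rw [h2] at h1
    linear_combination h3 - h1
  have k0 := key 0
  have k1 := key 1
  have k2 := key (-1)
  rw [e2, e4]
  constructor
  · linear_combination (1 / 2) * k1 + (1 / 2) * k2 - k0
  · linear_combination (1 / 2) * k1 - (1 / 2) * k2

lemma dy {L : PeriodPair} {a2 a4 : V} (h : GRa V L a2 a4) {z : ℂ} (hz : z ∉ L.lattice) :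
    HasDerivAt (yy L) (3 * xn L z ^ 2 + 2 * (a2 : ℂ) * xn L z + a4) z := by
  have h1 := (b_P2 L z hz).div_const 2
  obtain ⟨e2, e4⟩ := coeffs h
  have h2 : 3 * xn L z ^ 2 + 2 * (a2 : ℂ) * xn L z + a4 =
      (6 * L.weierstrassP z ^ 2 - L.g₂ / 2) / 2 := by
    rw [e2, e4]
    unfold xn
    ring
  rw [h2]
  exact h1

/-- the value of `f` at the point of `z` -/
def Fv (L : PeriodPair) (f : MvPolynomial (Fin 2) V) (z : ℂ) : ℂ :=
  MvPolynomial.aeval ![xn L z, yy L z] f

lemma dX0 (a2 a4 : V) : dW a2 a4 (MvPolynomial.X 0) = 2 * MvPolynomial.X 1 := by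
  unfold dW
  rw [MvPolynomial.mkDerivation_X]
  rfl

lemma dX1 (a2 a4 : V) : dW a2 a4 (MvPolynomial.X 1) =
    3 * MvPolynomial.X 0 ^ 2 + 2 * MvPolynomial.C a2 * MvPolynomial.X 0 + MvPolynomial.C a4 := by
  unfold dW
  rw [MvPolynomial.mkDerivation_X]
  rfl

lemma dF {L : PeriodPair} {a2 a4 : V} (h : GRa V L a2 a4) (f : MvPolynomial (Fin 2) V) {z : ℂ}
    (hz : z ∉ L.lattice) : HasDerivAt (Fv L f) (Fv L (dW a2 a4 f) z) z := by
  induction f using MvPolynomial.induction_on with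
  | C a =>
    have h1 : dW a2 a4 (MvPolynomial.C a) = 0 := by
      have := (dW a2 a4).map_algebraMap a
      rwa [MvPolynomial.algebraMap_eq] at this
    rw [h1]
    have h2 : Fv L (0 : MvPolynomial (Fin 2) V) z = 0 := by
      unfold Fv
      rw [map_zero]
    rw [h2]
    have h3 : Fv L (MvPolynomial.C a : MvPolynomial (Fin 2) V) = fun _ => algebraMap V ℂ a := by
      funext w
      unfold Fv
      rw [MvPolynomial.aeval_C]
    rw [h3]
    exact hasDerivAt_const _ _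
  | add p q hp hq =>
    have h1 : Fv L (p + q) = fun w => Fv L p w + Fv L q w := by
      funext w
      unfold Fv
      rw [map_add]
    have h2 : Fv L (dW a2 a4 (p + q)) z = Fv L (dW a2 a4 p) z + Fv L (dW a2 a4 q) z := by
      unfold Fv
      rw [map_add, map_add]
    rw [h1, h2]
    exact hp.add hq
  | mul_X p i hp =>
    have h1 : Fv L (p * MvPolynomial.X i) =
        fun w => Fv L p w * Fv L (MvPolynomial.X i : MvPolynomial (Fin 2) V) w := by
      funext w
      unfold Fv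
      rw [map_mul]
    have h2 : Fv L (dW a2 a4 (p * MvPolynomial.X i)) z =
        Fv L (dW a2 a4 p) z * Fv L (MvPolynomial.X i : MvPolynomial (Fin 2) V) z +
          Fv L p z * Fv L (dW a2 a4 (MvPolynomial.X i)) z := by
      unfold Fv
      rw [Derivation.leibniz, map_add, smul_eq_mul, smul_eq_mul, map_mul, map_mul]
      ring
    have h3 : HasDerivAt (Fv L (MvPolynomial.X i : MvPolynomial (Fin 2) V))
        (Fv L (dW a2 a4 (MvPolynomial.X i)) z) z := by
      fin_cases i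
      · have e1 : Fv L (MvPolynomial.X 0 : MvPolynomial (Fin 2) V) = xn L := by
          funext w
          unfold Fv
          rw [MvPolynomial.aeval_X]
          rfl
        have e2 : Fv L (dW a2 a4 (MvPolynomial.X 0)) z = 2 * yy L z := by
          rw [dX0]
          unfold Fv
          rw [map_mul, MvPolynomial.aeval_X, map_ofNat]
          rfl
        show HasDerivAt (Fv L (MvPolynomial.X 0 : MvPolynomial (Fin 2) V))
          (Fv L (dW a2 a4 (MvPolynomial.X 0)) z) z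
        rw [e1, e2]
        exact dx L hz
      · have e1 : Fv L (MvPolynomial.X 1 : MvPolynomial (Fin 2) V) = yy L := by
          funext w
          unfold Fv
          rw [MvPolynomial.aeval_X]
          rfl
        have e2 : Fv L (dW a2 a4 (MvPolynomial.X 1)) z =
            3 * xn L z ^ 2 + 2 * (a2 : ℂ) * xn L z + a4 := by
          rw [dX1]
          unfold Fv
          rw [map_add, map_add, map_mul, map_mul, map_mul, map_pow, MvPolynomial.aeval_X,
            MvPolynomial.aeval_C, MvPolynomial.aeval_C, map_ofNat, map_ofNat]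
          rfl
        show HasDerivAt (Fv L (MvPolynomial.X 1 : MvPolynomial (Fin 2) V))
          (Fv L (dW a2 a4 (MvPolynomial.X 1)) z) z
        rw [e1, e2]
        exact dy h hz
    rw [h1, h2]
    exact hp.mul h3

lemma inX_ev (L : PeriodPair) (g : Polynomial V) (z : ℂ) :
    Fv L (inX g) z = Polynomial.aeval (xn L z) g := by
  unfold Fv inX
  rw [← Polynomial.aeval_algHom_apply, MvPolynomial.aeval_X]
  rfl

open Finset in
/-- the Leibniz rule -/
lemma main {L M : PeriodPair} {a2 a4 b2 b4 : V} (hL : GRa V L a2 a4) (hM : GRa V M b2 b4) {mu : ℂ}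
    (hI : Isg L M mu) (P Q R : MvPolynomial (Fin 2) V)
    (h : ∀ z, mu * z ∉ M.lattice → Fv M P (mu * z) * Fv L Q z = Fv L R z) (k : ℕ) :
    ∀ z, mu * z ∉ M.lattice → ∑ ij ∈ antidiagonal k, (k.choose ij.1 : ℂ) *
      ((mu ^ ij.1 * Fv M ((dW b2 b4)^[ij.1] P) (mu * z)) * Fv L ((dW a2 a4)^[ij.2] Q) z) =
        Fv L ((dW a2 a4)^[k] R) z := by
  induction k with
  | zero =>
    intro z hz
    rw [Finset.Nat.antidiagonal_zero, Finset.sum_singleton]
    simp only [Nat.choose_self, Nat.cast_one, one_mul, pow_zero,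
      Function.iterate_zero, id_eq]
    exact h z hz
  | succ k ih =>
    intro z hz
    have hzL : z ∉ L.lattice := fun h0 => hz (hI z h0)
    have dm : HasDerivAt (fun w : ℂ => mu * w) mu z := by
      simpa using (hasDerivAt_id z).const_mul mu
    have dc : ∀ i : ℕ, HasDerivAt (fun w => mu ^ i * Fv M ((dW b2 b4)^[i] P) (mu * w))
        (mu ^ (i + 1) * Fv M ((dW b2 b4)^[i + 1] P) (mu * z)) z := by
      intro i
      have h1 : HasDerivAt (fun w => Fv M ((dW b2 b4)^[i] P) (mu * w))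
          (Fv M (dW b2 b4 ((dW b2 b4)^[i] P)) (mu * z) * mu) z :=
        HasDerivAt.comp z (dF hM ((dW b2 b4)^[i] P) hz) dm
      have h2 := h1.const_mul (mu ^ i)
      have h3 : mu ^ i * (Fv M (dW b2 b4 ((dW b2 b4)^[i] P)) (mu * z) * mu) =
          mu ^ (i + 1) * Fv M ((dW b2 b4)^[i + 1] P) (mu * z) := by
        rw [Function.iterate_succ_apply', pow_succ]
        ring
      rwa [h3] at h2
    have db : ∀ j : ℕ, HasDerivAt (fun w => Fv L ((dW a2 a4)^[j] Q) w)
        (Fv L ((dW a2 a4)^[j + 1] Q) z) z := by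
      intro j
      rw [Function.iterate_succ_apply']
      exact dF hL _ hzL
    have dS : HasDerivAt (fun w => ∑ ij ∈ antidiagonal k, (k.choose ij.1 : ℂ) *
        ((mu ^ ij.1 * Fv M ((dW b2 b4)^[ij.1] P) (mu * w)) * Fv L ((dW a2 a4)^[ij.2] Q) w))
        (∑ ij ∈ antidiagonal k, (k.choose ij.1 : ℂ) *
          ((mu ^ (ij.1 + 1) * Fv M ((dW b2 b4)^[ij.1 + 1] P) (mu * z)) *
              Fv L ((dW a2 a4)^[ij.2] Q) z +
            (mu ^ ij.1 * Fv M ((dW b2 b4)^[ij.1] P) (mu * z)) *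
              Fv L ((dW a2 a4)^[ij.2 + 1] Q) z)) z := by
      refine HasDerivAt.fun_sum fun ij _ => ?_
      exact ((dc ij.1).fun_mul (db ij.2)).const_mul _
    have dR : HasDerivAt (fun w => Fv L ((dW a2 a4)^[k] R) w) (Fv L ((dW a2 a4)^[k + 1] R) z) z := by
      rw [Function.iterate_succ_apply']
      exact dF hL _ hzL
    have hev : (fun w => ∑ ij ∈ antidiagonal k, (k.choose ij.1 : ℂ) *
        ((mu ^ ij.1 * Fv M ((dW b2 b4)^[ij.1] P) (mu * w)) * Fv L ((dW a2 a4)^[ij.2] Q) w))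
        =ᶠ[nhds z] (fun w => Fv L ((dW a2 a4)^[k] R) w) := by
      have h1 : ∀ᶠ w in nhds z, mu * w ∉ M.lattice :=
        dm.continuousAt.eventually (M.isClosed_lattice.isOpen_compl.mem_nhds hz)
      filter_upwards [h1] with w hw using ih w hw
    have key := dS.unique (dR.congr_of_eventuallyEq hev)
    rw [← key]
    have hp := Finset.sum_antidiagonal_choose_succ_mul (R := ℂ)
      (fun i j => (mu ^ i * Fv M ((dW b2 b4)^[i] P) (mu * z)) * Fv L ((dW a2 a4)^[j] Q) z) k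
    rw [hp, ← Finset.sum_add_distrib]
    refine Finset.sum_congr rfl fun ij hij => ?_
    have h5 : k.choose ij.2 = k.choose ij.1 := by
      have h6 := Finset.HasAntidiagonal.mem_antidiagonal.mp hij
      exact (Nat.choose_symm_of_eq_add h6.symm).symm
    rw [h5]
    ring

end LEI

theorem i_LEI : S_LEI := by
  intro V L M a2 a4 b2 b4 hL hM mu hmu hI PA PB h k z hz
  have h1 := LEI.main hL hM hI (MvPolynomial.X 0) (inX PB) (inX PA) (fun w hw => by
    rw [LEI.inX_ev, LEI.inX_ev]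
    have h2 : LEI.Fv M (MvPolynomial.X 0 : MvPolynomial (Fin 2) V) (mu * w) = xn M (mu * w) := by
      unfold LEI.Fv
      rw [MvPolynomial.aeval_X]
      rfl
    rw [h2]
    exact h w hw) k z hz
  rw [Finset.Nat.sum_antidiagonal_eq_sum_range_succ (fun i j => (k.choose i : ℂ) *
      ((mu ^ i * LEI.Fv M ((dW b2 b4)^[i] (MvPolynomial.X 0)) (mu * z)) *
        LEI.Fv L ((dW a2 a4)^[j] (inX PB)) z))] at h1
  unfold dd
  unfold LEI.Fv at h1
  rw [← h1, Finset.sum_div]
  refine Finset.sum_congr rfl fun i hi => ?_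
  have hik : i ≤ k := Nat.lt_succ_iff.mp (Finset.mem_range.mp hi)
  have h3 : ((k.choose i : ℕ) : ℂ) * (i.factorial : ℂ) * ((k - i).factorial : ℂ) =
      (k.factorial : ℂ) := by
    have := Nat.choose_mul_factorial_mul_factorial hik
    exact_mod_cast this
  have hf1 : (i.factorial : ℂ) ≠ 0 := by exact_mod_cast i.factorial_ne_zero
  have hf2 : ((k - i).factorial : ℂ) ≠ 0 := by exact_mod_cast (k - i).factorial_ne_zero
  have hf3 : (k.factorial : ℂ) ≠ 0 := by exact_mod_cast k.factorial_ne_zero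
  have hf4 : ((k.choose i : ℕ) : ℂ) ≠ 0 := by
    exact_mod_cast (Nat.choose_pos hik).ne'
  rw [← h3]
  field_simp

end

end Pool.Agent.TWI


end

section

/-!
# TWI: the unit theorem for all large `n`, inert primes (helper59)
-/

set_option autoImplicit false

open WeierstrassCurve Polynomial NumberField IsDedekindDomain

namespace Pool.Agent.TWI

open _root_.MU3 Pool.Agent.MU3A Pool.Agent.MU3B Pool.Agent.MU3C Pool.Agent.RI Pool.Agent.RID
open Pool.Agent.MUX Pool.Agent.MUXU Pool.Agent.MUXW Pool.Agent.TWT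
open Pool.Agent.TWT.UNITA (stab nI_top th0 bound)
open Pool.Agent.MU3V (cls Sub GD algDF)
open Pool.Agent.MUXV (GR InK tX)
open OnePoint

noncomputable section

namespace UNITI

variable {p : ℕ} {A B : ℤ} {P : Ideal (OO A B)} {V : ValuationSubring ℂ} {f : ℕ}

theorem v_p_lt (hS : SetI p A B P V f) : V.valuation (p : ℂ) < 1 := by
  have h1 := (hS.hV ((p : ℕ) : OO A B)).2 (by
    rw [hS.eP]
    exact Ideal.mem_span_singleton_self _)
  rw [emb_natCast hS.cq] at h1
  exact (ValuationSubring.mem_nonunits_iff V).1 h1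

theorem eta_root {n : ℕ} {ι : Type} {R : Reps A B n ι} {kp : ι → ℂ} {eta : OO A B → ℂ}
    (hC : ChD p f R kp eta) : ∃ r : ℕ, ¬ p ∣ r ∧
      ∀ x, IsCoprime (sp x) (idl f : Ideal (OO A B)) → eta x ^ r = 1 := by
  obtain ⟨r, hr, -, h⟩ := hC.fin
  exact ⟨r, hr, fun x hx => h x ((hC.supp x).2 hx)⟩

/-- the factor at `a` -/
theorem fac_a (hS : SetI p A B P V f) {n : ℕ} {ι : Type} (R : Reps A B n ι) {kp : ι → ℂ}
    {eta : OO A B → ℂ} (hC : ChD p f R kp eta) (l : ℕ) (hl : l.Prime) (hpl : p ≠ l)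
    (hpl1 : ¬ p ∣ l - 1) (hlf : l ∣ f) (a : ℕ) (ha1 : 1 < a) (hac : a.Coprime (6 * f * p)) :
    ∃ M₀ : ℕ, ∀ M, M₀ ≤ M → ∀ ψ : DirichletCharacter ℂ (l ^ M),
      ψ (1 + (l : ZMod (l ^ M)) ^ (M - 1)) ≠ 1 →
      V.valuation (1 - (a : ℂ) ^ 2 * thT R kp eta ψ R.i0 (a : OO A B)) = 1 := by
  obtain ⟨r, hr, hη⟩ := eta_root hC
  have hv := v_p_lt hS
  have haf : a.Coprime f := Nat.Coprime.coprime_dvd_right ⟨6 * p, by ring⟩ hac
  have hap : a.Coprime p := Nat.Coprime.coprime_dvd_right ⟨6 * f, by ring⟩ hac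
  have hal : a.Coprime l := Nat.Coprime.coprime_dvd_right hlf haf
  have hla : ¬ (l : ℤ) ∣ (a : ℤ) := by
    intro h
    have h1 : l ∣ a := by exact_mod_cast h
    have h2 := Nat.dvd_gcd h1 (dvd_refl l)
    rw [hal] at h2
    exact hl.one_lt.ne' (Nat.dvd_one.1 h2)
  have ha2 : (a : ℤ) ^ 2 ≠ 1 := by
    intro h
    have h1 : (1 : ℤ) < a := by exact_mod_cast ha1
    nlinarith
  obtain ⟨M₀, hM⟩ := Pool.Agent.TWX.t_FAC V p hS.pp hv l hl hpl hpl1 r hr a hla ha2
  refine ⟨M₀, fun M hM0 ψ hψ => ?_⟩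
  have hcop : IsCoprime (sp ((a : ℕ) : OO A B)) (idl f : Ideal (OO A B)) := by
    rw [Ideal.isCoprime_span_singleton_iff]
    exact (Nat.isCoprime_iff_coprime.2 haf).map (Int.castRingHom (OO A B)) |> fun h => by
      simpa using h
  -- an inverse of `a²` modulo `p`
  obtain ⟨b, c, hbc⟩ : ∃ b c : ℤ, (a : ℤ) ^ 2 * b = 1 + p * c := by
    have h1 : IsCoprime ((a : ℤ) ^ 2) (p : ℤ) := (Nat.isCoprime_iff_coprime.2 hap).pow_left
    obtain ⟨u, v, huv⟩ := h1
    exact ⟨u, -v, by linear_combination huv⟩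
  have hpb : ¬ (p : ℤ) ∣ b := by
    intro h
    have h1 : (p : ℤ) ∣ 1 := by
      have h2 : (1 : ℤ) = (a : ℤ) ^ 2 * b - p * c := by rw [hbc]; ring
      rw [h2]
      exact dvd_sub (h.mul_left _) (Dvd.intro _ rfl)
    have h3 : p ∣ 1 := by exact_mod_cast h1
    exact hS.pp.one_lt.ne' (Nat.dvd_one.1 h3)
  have h1 := hM M hM0 ψ hψ (eta ((a : ℕ) : OO A B)) (hη _ hcop) b hpb
  have hth : thT R kp eta ψ R.i0 ((a : ℕ) : OO A B) =
      eta ((a : ℕ) : OO A B) * ψ ((a : ℤ) : ZMod (l ^ M)) ^ 2 := by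
    rw [th0 R hC ψ _ ((a : ℤ) ^ 2) (by
      have := nm_intCast (A := A) (B := B) (a : ℤ)
      simpa using this)]
    push_cast
    rw [map_pow]
  rw [hth]
  set X : ℂ := eta ((a : ℕ) : OO A B) * ψ ((a : ℤ) : ZMod (l ^ M)) ^ 2 with hX
  have e1 : 1 - (a : ℂ) ^ 2 * X = -((a : ℂ) ^ 2 * (X - b)) + (1 - (a : ℂ) ^ 2 * b) := by ring
  have hint : ∀ z : ℤ, V.valuation (z : ℂ) ≤ 1 := fun z =>
    (V.valuation_le_one_iff _).2 (intCast_mem V z)
  have e2 : V.valuation (1 - (a : ℂ) ^ 2 * b) < 1 := by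
    have h2 : 1 - (a : ℂ) ^ 2 * b = (p : ℂ) * ((-c : ℤ) : ℂ) := by
      have : ((a : ℂ) ^ 2 * b) = 1 + p * c := by exact_mod_cast hbc
      rw [this]
      push_cast
      ring
    rw [h2, map_mul]
    calc V.valuation (p : ℂ) * V.valuation ((-c : ℤ) : ℂ) ≤ V.valuation (p : ℂ) * 1 :=
          mul_le_mul' le_rfl (hint _)
      _ < 1 := by rw [mul_one]; exact hv
  have e3 : V.valuation ((a : ℂ) ^ 2) = 1 := by
    have h3 : V.valuation ((a : ℂ) ^ 2 * b) = 1 := by
      have h4 : (a : ℂ) ^ 2 * b = 1 - (1 - (a : ℂ) ^ 2 * b) := by ring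
      rw [h4]
      exact Valuation.map_one_sub_of_lt V.valuation e2
    rw [map_mul] at h3
    have h5 : V.valuation ((a : ℂ) ^ 2) ≤ 1 := by
      have := hint ((a : ℤ) ^ 2)
      simpa using this
    refine le_antisymm h5 ?_
    by_contra h6
    rw [not_le] at h6
    have h7 : V.valuation ((a : ℂ) ^ 2) * V.valuation (b : ℂ) < 1 :=
      calc V.valuation ((a : ℂ) ^ 2) * V.valuation (b : ℂ) ≤ V.valuation ((a : ℂ) ^ 2) * 1 :=
            mul_le_mul' le_rfl (hint b)
        _ < 1 := by rw [mul_one]; exact h6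
    exact absurd h3 h7.ne
  have e4 : V.valuation (-((a : ℂ) ^ 2 * (X - b))) = 1 := by
    rw [Valuation.map_neg, map_mul, e3, h1, one_mul]
  rw [e1, ← e4]
  exact Valuation.map_add_eq_of_lt_left V.valuation (e2.trans_eq e4.symm)

/-- the factor at `p` -/
theorem fac_p (hS : SetI p A B P V f) {n : ℕ} {ι : Type} (R : Reps A B n ι)
    {kp : ι → ℂ} {eta : OO A B → ℂ} (hC : ChD p f R kp eta) (l : ℕ) (hl : l.Prime) (hpl : p ≠ l)
    (hpl1 : ¬ p ∣ l - 1) :
    ∃ M₀ : ℕ, ∀ M, M₀ ≤ M → ∀ ψ : DirichletCharacter ℂ (l ^ M),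
      ψ (1 + (l : ZMod (l ^ M)) ^ (M - 1)) ≠ 1 →
      V.valuation (1 - thT R kp eta ψ R.i0 ((p : ℕ) : OO A B)) = 1 := by
  obtain ⟨e, he, hη⟩ := eta_root hC
  have hv := v_p_lt hS
  have hlp : ¬ (l : ℤ) ∣ (p : ℤ) := by
    intro h
    have h1 : l ∣ p := by exact_mod_cast h
    exact hpl ((Nat.prime_dvd_prime_iff_eq hl hS.pp).1 h1).symm
  have hp2 : (p : ℤ) ^ 2 ≠ 1 := by
    intro h
    have h1 : p ^ 2 = 1 := by exact_mod_cast h
    have := hS.p5
    nlinarith
  obtain ⟨M₀, hM⟩ := Pool.Agent.TWX.t_FAC V p hS.pp hv l hl hpl hpl1 e he (p : ℤ) hlp hp2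
  refine ⟨M₀, fun M hM0 ψ hψ => ?_⟩
  have hcop : IsCoprime (sp ((p : ℕ) : OO A B)) (idl f : Ideal (OO A B)) := by
    rw [Ideal.isCoprime_span_singleton_iff]
    have h2 : Nat.Coprime p f := (Nat.Prime.coprime_iff_not_dvd hS.pp).2 hS.fp
    exact (Nat.isCoprime_iff_coprime.2 h2).map (Int.castRingHom (OO A B)) |> fun h => by
      simpa using h
  have h1 := hM M hM0 ψ hψ (eta ((p : ℕ) : OO A B)) (hη _ hcop) 1 (by
    intro h
    have h3 : p ∣ 1 := by exact_mod_cast h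
    exact hS.pp.one_lt.ne' (Nat.dvd_one.1 h3))
  have hth : thT R kp eta ψ R.i0 ((p : ℕ) : OO A B) =
      eta ((p : ℕ) : OO A B) * ψ ((p : ℤ) : ZMod (l ^ M)) ^ 2 := by
    rw [th0 R hC ψ _ ((p : ℤ) ^ 2) (by
      have := nm_intCast (A := A) (B := B) (p : ℤ)
      simpa using this)]
    push_cast
    rw [map_pow]
  rw [hth, ← h1, Valuation.map_sub_swap]
  push_cast
  rfl

end UNITI

open Pool.Agent.TWR _root_.Pool.Agent.TWI.UNITI in
/-- the unit theorem for all large `n`, `p` inert -/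
theorem t_UNITI (hSYM : S_SYMI) (hCRIT : S_CRITI) (hFACT : S_FACTI) : S_UNITI := by
  intro l g h hgen p _ A B P V f hS hlf hT ι _ R hG K _ _ hkK hK Bn _ hLay hMon hRF a ha1 hac H hH
  have hl : l.Prime := by
    rcases hgen with ⟨rfl, -, -⟩ | ⟨rfl, -, -⟩
    · exact Nat.prime_three
    · exact Nat.prime_two
  have hh : 1 ≤ h := by
    rcases hgen with ⟨-, -, rfl⟩ | ⟨-, -, rfl⟩ <;> norm_num
  have hl1 : l - 1 = 1 ∨ l - 1 = 2 := by
    rcases hgen with ⟨rfl, -, -⟩ | ⟨rfl, -, -⟩ <;> norm_num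
  have hl3 : l ≤ 3 := by
    rcases hgen with ⟨rfl, -, -⟩ | ⟨rfl, -, -⟩ <;> norm_num
  have hp5 := hS.p5
  have hpl : p ≠ l := by omega
  have hpl1 : ¬ p ∣ l - 1 := by
    intro hd
    have := Nat.le_of_dvd (by omega) hd
    omega
  have hlf' : l ∣ f := (dvd_pow_self l (by omega)).trans hlf
  obtain ⟨J, hJ, kp, eta, hCh, hF⟩ := hFACT l g h hgen p A B P V f hS hlf hT ι R K hkK hK Bn hLay
    hMon
  obtain ⟨w, hw⟩ := t_TEI2 p A B P V hS.cq hS.pp (by omega) hS.eP hS.hP hS.hV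
  obtain ⟨n1, hn1⟩ := hSYM l g h hgen p A B P V f hS hlf' hT ι R hG w hw J kp eta hCh
  obtain ⟨n2, hn2⟩ := stab hT K hkK Bn hMon
  choose M1 hM1 using fun j => fac_a hS R (hCh j) l hl hpl hpl1 hlf' a ha1 hac
  choose M2 hM2 using fun j => fac_p hS R (hCh j) l hl hpl hpl1
  obtain ⟨b1, hb1⟩ := bound M1
  obtain ⟨b2, hb2⟩ := bound M2
  refine ⟨max (max n1 n2) (max b1 b2), fun n hn θ hθ h0 => ?_⟩
  have hnn1 : n1 ≤ n := ((le_max_left _ _).trans (le_max_left _ _)).trans hn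
  have hnn2 : n2 ≤ n := ((le_max_right _ _).trans (le_max_left _ _)).trans hn
  have hnb1 : b1 ≤ n := ((le_max_left _ _).trans (le_max_right _ _)).trans hn
  have hnb2 : b2 ≤ n := ((le_max_right _ _).trans (le_max_right _ _)).trans hn
  let _ := algC h0
  intro c₀ hc₀ χ hχ
  obtain ⟨j, ψ, hψ1, hψ2, hval⟩ := hF n h0 χ hχ
  obtain ⟨γ, hγ1, hγχ⟩ := hχ
  refine hCRIT p A B P V f hS hT ι R hG w hw (kp j) (eta j) (hCh j) l (n + 1 + h) hl hlf' ψ hψ1 a
    ha1 hac (hM1 j (n + 1 + h) (by have := hb1 j; omega) ψ hψ2)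
    (hM2 j (n + 1 + h) (by have := hb2 j; omega) ψ hψ2) H hH θ hθ (K ⊔ Bn (n + 1)) h0
    (hRF (n + 1)) χ hval ⟨γ, fun x hx => hγ1 x (hn2 n hnn2 x x.2 hx), hγχ⟩ c₀ hc₀
    (hn1 (n + 1 + h) (by omega) j ψ hψ1 hψ2)

end

end Pool.Agent.TWI


end
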