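import Pool.Agent.MVF.C016
import Pool.Agent.MVF.C033
import Pool.Agent.MVF.C057
import Pool.Agent.MVF.C113
import Pool.Agent.MVF.C139
import Pool.Agent.TWM.C07
import Pool.Agent.TWM.C15
import Pool.Agent.TWM.C17

/-! Parts: TWI.EXP, TWI.KEYI, TWI.TRI, TWI.VPA, TWI.YACI, TWI.YSGM -/

section

/-!
# TWI, module EXP: the expansions at the points outside the kernel of reduction (helper43)
-/

set_option autoImplicit false

open WeierstrassCurve PowerSeries

namespace Pool.Agent.TWI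

open _root_.MU3 Pool.Agent.MU3A Pool.Agent.MU3B Pool.Agent.MUX Pool.Agent.MUXU Pool.Agent.TWT
open Pool.Agent.MUXV (GR InK tX HalfI)
open Pool.Agent.TWT.TAY

namespace EXP

/-! ## Formal part -/

section
variable {A B : Type} [CommRing A] [CommRing B] (φ : A →+* B)

lemma map_ddX (g : PowerSeries A) :
    PowerSeries.map φ (d⁄dX A g) = d⁄dX B (PowerSeries.map φ g) := by
  ext j
  rw [PowerSeries.coeff_map, PowerSeries.coeff_derivative, PowerSeries.coeff_derivative,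
    PowerSeries.coeff_map, map_mul, map_add, map_natCast, map_one]

lemma map_dW (a2 a4 : A) (f : MvPolynomial (Fin 2) A) :
    MvPolynomial.map φ (dW a2 a4 f) = dW (φ a2) (φ a4) (MvPolynomial.map φ f) := by
  induction f using MvPolynomial.induction_on with
  | C a =>
    rw [MvPolynomial.map_C, MvPolynomial.derivation_C, MvPolynomial.derivation_C, map_zero]
  | add p q hp hq => rw [map_add, map_add, map_add, map_add, hp, hq]
  | mul_X p i hp =>
    rw [Derivation.leibniz, map_mul, Derivation.leibniz, map_add, smul_eq_mul, smul_eq_mul,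
      smul_eq_mul, smul_eq_mul, map_mul, map_mul, hp, MvPolynomial.map_X]
    congr 2
    unfold dW
    rw [MvPolynomial.mkDerivation_X, MvPolynomial.mkDerivation_X]
    fin_cases i
    · simp
    · simp

lemma map_dW_iter (a2 a4 : A) (k : ℕ) (f : MvPolynomial (Fin 2) A) :
    MvPolynomial.map φ ((dW a2 a4)^[k] f) = (dW (φ a2) (φ a4))^[k] (MvPolynomial.map φ f) := by
  induction k generalizing f with
  | zero => rfl
  | succ k ih => rw [Function.iterate_succ_apply, Function.iterate_succ_apply, ih, map_dW]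

lemma map_aev (g h : PowerSeries A) (f : MvPolynomial (Fin 2) A) :
    PowerSeries.map φ (MvPolynomial.aeval ![g, h] f) =
      MvPolynomial.aeval ![PowerSeries.map φ g, PowerSeries.map φ h] (MvPolynomial.map φ f) := by
  have h1 : ∀ a : A, PowerSeries.map φ (algebraMap A (PowerSeries A) a) =
      ((PowerSeries.C : B →+* PowerSeries B).comp φ) a := by
    intro a
    rw [show algebraMap A (PowerSeries A) a = PowerSeries.C a from rfl, PowerSeries.map_C]
    rfl
  rw [map_ev (PowerSeries.map φ) _ h1 g h f, MvPolynomial.aeval_def, MvPolynomial.eval₂_map]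
  rfl

end

/-- the formal logarithm -/
noncomputable def lamI (κ : PowerSeries ℂ) : PowerSeries ℂ :=
  PowerSeries.mk fun j => if 0 < j then PowerSeries.coeff (j - 1) κ * Ring.inverse (j : ℂ) else 0

lemma lamI_dvd (κ : PowerSeries ℂ) (n : ℕ) :
    (PowerSeries.X : PowerSeries ℂ) ^ n ∣ lamF n κ - lamI κ := by
  rw [PowerSeries.X_pow_dvd_iff]
  intro m hm
  rw [map_sub]
  unfold lamF lamI
  rw [PowerSeries.coeff_mk, PowerSeries.coeff_mk]
  by_cases h : 0 < m
  · rw [if_pos ⟨h, hm⟩, if_pos h, sub_self]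
  · rw [if_neg (fun h' => h h'.1), if_neg h, sub_self]

lemma coeff_sum_eq (κ : PowerSeries ℂ) (n : ℕ) (c : ℕ → ℂ) (j : ℕ) (hj : j < n) :
    PowerSeries.coeff j (∑ k ∈ Finset.range n, PowerSeries.C (c k) * lamF n κ ^ k) =
      PowerSeries.coeff j (∑ k ∈ Finset.range n, PowerSeries.C (c k) * lamI κ ^ k) := by
  have h : (PowerSeries.X : PowerSeries ℂ) ^ n ∣
      (∑ k ∈ Finset.range n, PowerSeries.C (c k) * lamF n κ ^ k) -
        ∑ k ∈ Finset.range n, PowerSeries.C (c k) * lamI κ ^ k := by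
    rw [← Finset.sum_sub_distrib]
    refine Finset.dvd_sum fun k _ => ?_
    rw [← mul_sub]
    exact Dvd.dvd.mul_left ((lamI_dvd κ n).trans (sub_dvd_pow_sub_pow _ _ k)) _
  rw [PowerSeries.X_pow_dvd_iff] at h
  have h2 := h j hj
  rw [map_sub, sub_eq_zero] at h2
  exact h2

/-- the first clause, formally -/
lemma first (V : ValuationSubring ℂ) (a2 a4 : V) (gx gy κ : PowerSeries V)
    (hdx : d⁄dX V gx = κ * (2 * gy))
    (hdy : d⁄dX V gy = κ * (3 * gx ^ 2 + 2 * PowerSeries.C a2 * gx + PowerSeries.C a4))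
    (f : MvPolynomial (Fin 2) V) (n j : ℕ) (hj : j < n) :
    ((PowerSeries.coeff j (MvPolynomial.aeval ![gx, gy] f) : V) : ℂ) =
      PowerSeries.coeff j (∑ k ∈ Finset.range n, PowerSeries.C
        (MvPolynomial.aeval ![((PowerSeries.constantCoeff gx : V) : ℂ),
          ((PowerSeries.constantCoeff gy : V) : ℂ)] ((dW a2 a4)^[k] f) / (k.factorial : ℂ)) *
        lamI (PowerSeries.map (algebraMap V ℂ) κ) ^ k) := by
  have hM2 : PowerSeries.map (algebraMap V ℂ) (2 : PowerSeries V) = 2 := map_ofNat _ 2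
  have hM3 : PowerSeries.map (algebraMap V ℂ) (3 : PowerSeries V) = 3 := map_ofNat _ 3
  have h1 := congrArg (PowerSeries.map (algebraMap V ℂ)) hdx
  rw [map_ddX, map_mul, map_mul, hM2] at h1
  have h2 := congrArg (PowerSeries.map (algebraMap V ℂ)) hdy
  rw [map_ddX, map_mul, map_add, map_add, map_mul, map_pow, map_mul, map_mul, hM2, hM3,
    PowerSeries.map_C, PowerSeries.map_C] at h2
  have hT := t_TAF ℂ n (fun j h0 _ => by
      rw [isUnit_iff_ne_zero]
      exact_mod_cast h0.ne') (algebraMap V ℂ a2) (algebraMap V ℂ a4) _ _ _ h1 h2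
    (MvPolynomial.map (algebraMap V ℂ) f) j hj
  rw [← map_aev, PowerSeries.coeff_map, coeff_sum_eq _ n _ j hj] at hT
  have e0 : ((PowerSeries.coeff j (MvPolynomial.aeval ![gx, gy] f) : V) : ℂ) =
      algebraMap V ℂ (PowerSeries.coeff j (MvPolynomial.aeval ![gx, gy] f)) := rfl
  rw [e0, hT]
  congr 1
  refine Finset.sum_congr rfl fun k _ => ?_
  congr 2
  rw [← map_dW_iter, MvPolynomial.aeval_map_algebraMap, Ring.inverse_eq_inv', div_eq_mul_inv]
  rfl

end EXP

open _root_.Pool.Agent.TWI.EXP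

theorem i_EXP : S_EXP := by
  intro V L a2 a4 hG
  obtain ⟨W, ξ, G, ha2, ha4⟩ := hG
  obtain ⟨a6, ha6⟩ : ∃ a6 : V, (a6 : ℂ) = W.a₆ :=
    ⟨⟨W.a₆, (ValuationSubring.valuation_le_one_iff _ _).1 G.int.a6⟩, rfl⟩
  have hinj : Function.Injective (algebraMap V ℂ) := Subtype.val_injective
  obtain ⟨U, hU0, hU⟩ := t_UEX V a2 a4 a6
  have hq0 : PowerSeries.constantCoeff (qF (PowerSeries.C a2) (PowerSeries.C a4)
      (PowerSeries.C a6) PowerSeries.X U) = 1 := by
    simp [qF]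
  obtain ⟨κ, hκ⟩ : ∃ κ : V⟦X⟧, κ * qF (PowerSeries.C a2) (PowerSeries.C a4) (PowerSeries.C a6)
      PowerSeries.X U = 1 := by
    have h1 : IsUnit (qF (PowerSeries.C a2) (PowerSeries.C a4) (PowerSeries.C a6)
      PowerSeries.X U) := by
      rw [PowerSeries.isUnit_iff_constantCoeff, hq0]
      exact isUnit_one
    obtain ⟨u, hu⟩ := h1
    exact ⟨↑u⁻¹, by rw [← hu]; exact u.inv_mul⟩
  have hκ0 : PowerSeries.constantCoeff κ = 1 := by
    have := congrArg PowerSeries.constantCoeff hκ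
    rwa [map_mul, hq0, mul_one, map_one] at this
  refine ⟨lamI (PowerSeries.map (algebraMap V ℂ) κ), ?_, ?_, ?_⟩
  · simp [lamI]
  · simp [lamI, hκ0]
  · intro z hz
    obtain ⟨x, hx⟩ : ∃ x : V, (x : ℂ) = xn L z :=
      ⟨⟨_, (ValuationSubring.valuation_le_one_iff _ _).1 (Pool.Agent.MUXV.int_X hz).2⟩, rfl⟩
    obtain ⟨y, hy⟩ : ∃ y : V, (y : ℂ) = yy L z :=
      ⟨⟨_, (ValuationSubring.valuation_le_one_iff _ _).1 (Pool.Agent.MUXV.int_Y G hz)⟩, rfl⟩
    have hcurve : y ^ 2 = x ^ 3 + a2 * x ^ 2 + a4 * x + a6 := by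
      obtain ⟨h1, -⟩ := G.some z (Pool.Agent.MUXV.int_X hz).1
      have h2 := (Affine.equation_iff _ _).1 h1.1
      rw [G.int.a1, G.int.a3] at h2
      apply Subtype.val_injective
      push_cast
      rw [hx, hy, ha2, ha4, ha6]
      linear_combination h2
    obtain ⟨E, hE⟩ : ∃ E : V⟦X⟧, E * (1 - PowerSeries.C x * PowerSeries.X ^ 2 * U) = 1 := by
      have h1 : IsUnit (1 - PowerSeries.C x * PowerSeries.X ^ 2 * U) := by
        rw [PowerSeries.isUnit_iff_constantCoeff]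
        simp
      obtain ⟨w, hw⟩ := h1
      exact ⟨↑w⁻¹, by rw [← hw]; exact w.inv_mul⟩
    have hE0 : PowerSeries.constantCoeff E = 1 := by
      have := congrArg PowerSeries.constantCoeff hE
      rw [map_mul] at this
      simpa using this
    obtain ⟨gx, hgx⟩ : ∃ gx : V⟦X⟧, gx = xF (PowerSeries.C a2) (PowerSeries.C a4)
      (PowerSeries.C a6) (PowerSeries.C x) (PowerSeries.C y) PowerSeries.X U E := ⟨_, rfl⟩
    obtain ⟨gy, hgy⟩ : ∃ gy : V⟦X⟧, gy = yF (PowerSeries.C a2) (PowerSeries.C a4)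
      (PowerSeries.C a6) (PowerSeries.C x) (PowerSeries.C y) PowerSeries.X U E := ⟨_, rfl⟩
    obtain ⟨hdx, hdy⟩ := t_ODE V a2 a4 a6 x y hcurve U E κ hU hE hκ gx gy hgx hgy
    have hgx0 : PowerSeries.constantCoeff gx = x := by
      rw [hgx]; simp [xF]
    have hgy0 : PowerSeries.constantCoeff gy = y := by
      have h2 : PowerSeries.constantCoeff (2 : V⟦X⟧) = 2 := map_ofNat _ 2
      rw [hgy]
      simp [yF, nF, hU0, hE0, h2]
      ring
    refine ⟨gx, gy, ?_, ?_⟩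
    · intro f n j hj
      have h := first V a2 a4 gx gy κ hdx hdy f n j hj
      rw [hgx0, hgy0, hx, hy] at h
      exact h
    · intro R hR hRL f n hn
      obtain ⟨hvt, hvt0, hvt2⟩ := Pool.Agent.MUXV.v_tX_lt G hR hRL
      obtain ⟨hu1, hEq, he1, hXe, hYe⟩ := t_PTS V W L (xn L) (yy L) ξ G z R hz hR hRL _ _ rfl rfl
      obtain ⟨t, ht⟩ : ∃ t : V, (t : ℂ) = tX (xn L) (yy L) R :=
        ⟨⟨_, (ValuationSubring.valuation_le_one_iff _ _).1 hvt.le⟩, rfl⟩
      obtain ⟨u, hu⟩ : ∃ u : V, (u : ℂ) = 1 / (xn L R * (tX (xn L) (yy L) R) ^ 2) :=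
        ⟨⟨_, (ValuationSubring.valuation_le_one_iff _ _).1 hu1.le⟩, rfl⟩
      rw [← ht] at hu hEq he1 hXe hYe hvt ⊢
      rw [← hu] at hEq he1 hXe hYe
      rw [← hx] at he1 hXe hYe
      rw [← hy] at hXe hYe
      rw [← ha2, ← ha4, ← ha6] at hEq hXe hYe
      have hEqV : EqU a2 a4 a6 t u := inj_EqU (algebraMap V ℂ) hinj hEq
      obtain ⟨e, he⟩ : ∃ e : V, (e : ℂ) = 1 / (1 - (x : ℂ) * (t : ℂ) ^ 2 * u) :=
        ⟨⟨_, (ValuationSubring.valuation_le_one_iff _ _).1 (by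
          rw [map_div₀, map_one, he1, div_one])⟩, rfl⟩
      have hne : (1 - (x : ℂ) * (t : ℂ) ^ 2 * u) ≠ 0 := by
        intro h0
        rw [h0, map_zero] at he1
        exact zero_ne_one he1
      have heV : e * (1 - x * t ^ 2 * u) = 1 := by
        apply Subtype.val_injective
        push_cast
        rw [he]
        field_simp
      rw [← he] at hXe hYe
      -- the quotient
      obtain ⟨I, hI⟩ : ∃ I : Ideal V, I = Ideal.span {t ^ n} := ⟨_, rfl⟩
      obtain ⟨π, hπ⟩ : ∃ π : V →+* V ⧸ I, π = Ideal.Quotient.mk I := ⟨_, rfl⟩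
      have hsp : (π t) ^ n = 0 := by
        rw [← map_pow, hπ, Ideal.Quotient.eq_zero_iff_mem, hI]
        exact Ideal.mem_span_singleton_self _
      obtain ⟨φ, hφX, hφC, hφ⟩ := t_EVH V (V ⧸ I) π (π t) n hsp hn
      have hφU : φ U = π u := by
        refine t_UQN (V ⧸ I) (π a2) (π a4) (π a6) (π t) _ _ n hsp ?_ (map_EqU π hEqV)
        have := map_EqU φ hU
        rwa [hφC, hφC, hφC, hφX] at this
      have hφE : φ E = π e := by
        have h1 := congrArg φ hE
        rw [map_mul, map_sub, map_one, map_mul, map_mul, map_pow, hφC, hφX, hφU] at h1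
        have h2 := congrArg π heV
        rw [map_mul, map_sub, map_one, map_mul, map_mul, map_pow] at h2
        calc φ E = φ E * (π e * (1 - π x * π t ^ 2 * π u)) := by rw [h2, mul_one]
          _ = π e * (φ E * (1 - π x * π t ^ 2 * π u)) := by ring
          _ = π e := by rw [h1, mul_one]
      obtain ⟨XV, hXV⟩ : ∃ XV : V, XV = xF a2 a4 a6 x y t u e := ⟨_, rfl⟩
      obtain ⟨YV, hYV⟩ : ∃ YV : V, YV = yF a2 a4 a6 x y t u e := ⟨_, rfl⟩
      have hXVc : xn L (z + R) = (XV : ℂ) := by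
        rw [hXe, hXV]
        exact (map_xF (algebraMap V ℂ) a2 a4 a6 x y t u e).symm
      have hYVc : yy L (z + R) = (YV : ℂ) := by
        rw [hYe, hYV]
        exact (map_yF (algebraMap V ℂ) a2 a4 a6 x y t u e).symm
      have hφgx : φ gx = π XV := by
        rw [hgx, hXV, map_xF, map_xF, hφC, hφC, hφC, hφC, hφC, hφX, hφU, hφE]
      have hφgy : φ gy = π YV := by
        rw [hgy, hYV, map_yF, map_yF, hφC, hφC, hφC, hφC, hφC, hφX, hφU, hφE]
      have hL : π (MvPolynomial.aeval ![XV, YV] f) = π (∑ j ∈ Finset.range n,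
          PowerSeries.coeff j (MvPolynomial.aeval ![gx, gy] f) * t ^ j) := by
        have h1 : φ (MvPolynomial.aeval ![gx, gy] f) = π (MvPolynomial.aeval ![XV, YV] f) := by
          rw [map_ev φ π (fun a => hφC a) gx gy f, hφgx, hφgy,
            ← map_ev π π (fun _ => rfl) XV YV f]
        rw [← h1, hφ, map_sum]
        refine Finset.sum_congr rfl fun j _ => ?_
        rw [map_mul, map_pow]
      rw [hπ] at hL
      have hmem := Ideal.Quotient.eq.1 hL
      rw [hI] at hmem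
      obtain ⟨r, hr⟩ := Ideal.mem_span_singleton'.1 hmem
      have key : MvPolynomial.aeval ![xn L (z + R), yy L (z + R)] f -
          ∑ j ∈ Finset.range n, ((PowerSeries.coeff j (MvPolynomial.aeval ![gx, gy] f) : V) : ℂ) *
            (t : ℂ) ^ j = ((r * t ^ n : V) : ℂ) := by
        rw [hr, hXVc, hYVc, ← coe_ev]
        push_cast
        rfl
      rw [key]
      push_cast
      rw [map_mul, map_pow]
      calc V.valuation (r : ℂ) * V.valuation (t : ℂ) ^ n ≤ 1 * V.valuation (t : ℂ) ^ n :=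
            mul_le_mul_left ((ValuationSubring.valuation_le_one_iff _ _).2 r.2) _
        _ = V.valuation (t : ℂ) ^ n := one_mul _

end Pool.Agent.TWI


end

section

/-!
# TWI, block A: assembly (helper3)
-/

set_option autoImplicit false

open WeierstrassCurve Polynomial

namespace Pool.Agent.TWI

open _root_.MU3 Pool.Agent.MU3A Pool.Agent.MU3B Pool.Agent.MUX Pool.Agent.MUXU Pool.Agent.TWT
open Pool.Agent.MUXV (GR InK tX HalfI)

noncomputable section

theorem i_KEYI (hEXP : S_EXP) (hLGI : S_LGI) (hTYI : S_TYI) (hROT : S_ROT) (hKY1 : S_KY1)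
    (hGRI : S_GRI) (hPTI : S_PTI) (hKRI : S_KRI) : S_KEYI := by
  intro p A B P V f hS ι _ R hG
  obtain ⟨hGR, hp1, hint, -, hmu⟩ := hGRI p A B P V f hS ι R hG
  have hp5 := hS.p5
  have hq : 25 ≤ p ^ 2 := by nlinarith
  have h1P : (1 : OO A B) ∉ P := fun h => hS.hP.ne_top ((Ideal.eq_top_iff_one _).2 h)
  obtain ⟨hK0, hR0, hv0⟩ := hKRI p A B P V f hS ι R hG R.i0 1 h1P
  set t0 := tX (xn (R.L R.i0)) (yy (R.L R.i0)) (pt R p R.i0 1) with ht0
  have hp0 : V.valuation (p : ℂ) ≠ 0 := by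
    rw [(Valuation.ne_zero_iff _)]
    exact_mod_cast hS.pp.ne_zero
  have hτ0 : V.valuation t0 ≠ 0 := by
    intro h
    rw [h, zero_pow (by omega)] at hv0
    exact hp0 hv0.symm
  have hτ1 : V.valuation t0 < 1 := by
    by_contra h
    push Not at h
    have h2 : 1 ≤ V.valuation t0 ^ (p ^ 2 - 1) := one_le_pow₀ h
    rw [hv0] at h2
    exact absurd h2 (not_le.2 hp1)
  set τ := V.valuation t0 with hτ
  refine ⟨t0, hv0, fun h => hτ0 (by rw [hτ, h, map_zero]), ?_⟩
  intro w hw T hT i a H ha1 hac hH z hz hz2 haz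
  obtain ⟨hμ0, hIsg, hvμ, hodd, hvn, hker⟩ := hmu i
  obtain ⟨a2, a4, hGa⟩ := hGR i
  obtain ⟨hpt1, hpt2, -, -, -, hpt6, -⟩ := hPTI p A B P V f hS ι R i
  have hGR' : ∀ j, ∃ (W : WeierstrassCurve.Affine ℂ) (ξ : ℂ →+ W.Point),
      GR V W (R.L j) (xn (R.L j)) (yy (R.L j)) ξ := by
    intro j
    obtain ⟨b2, b4, W, ξ, h, -⟩ := hGR j
    exact ⟨W, ξ, h⟩
  have hfoi := t_FOI V (R.L R.i0) (R.L i) (muX R i) (nI (R.b i)) (hGR' R.i0) (hGR' i) hμ0 hIsg
    hodd hvn hker hvμ (pt R p R.i0 1) hK0 hR0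
  rw [← hpt6 1] at hfoi
  obtain ⟨hKi, hRi, hti⟩ := hfoi
  set ti := tX (xn (R.L i)) (yy (R.L i)) (pt R p i 1) with htid
  have hτ2 : τ ^ 2 < τ := by
    rw [pow_two]
    exact mul_lt_of_lt_one_right (zero_lt_iff.2 hτ0) hτ1
  have hvti : V.valuation ti = τ := by
    have e : ti = muX R i * t0 + (ti - muX R i * t0) := by ring
    have h1 : V.valuation (muX R i * t0) = τ := by rw [map_mul, hvμ, one_mul]
    rw [e, Valuation.map_add_eq_of_lt_left, h1]
    rw [h1]
    exact lt_of_le_of_lt hti hτ2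
  have hva : V.valuation (a : ℂ) = 1 := by
    have := hint (a : ℤ) (fun h => by
      have h1 : p ∣ a := by exact_mod_cast h
      have h2 : p ∣ Nat.gcd a (2 * p) := Nat.dvd_gcd h1 (Dvd.intro_left 2 rfl)
      rw [hac] at h2
      exact hS.pp.one_lt.ne' (Nat.dvd_one.1 h2))
    simpa using this
  -- the formal logarithm of `L_i`
  obtain ⟨Λ, hΛ⟩ := hEXP V (R.L i) a2 a4 hGa
  have hlam := hTYI V (R.L i) a2 a4 hGa Λ hΛ (p ^ 2) (by omega)
    (hLGI p A B P V f hS ι R hG i a2 a4 hGa Λ hΛ)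
  set lam : ℕ → ℂ := fun j => if j < p ^ 2 then PowerSeries.coeff j Λ else 0 with hlamd
  set w0 := vpi lam (p ^ 2) ti with hw0
  have hti1 : V.valuation ti < 1 := by rw [hvti]; exact hτ1
  have hw0t : V.valuation (w0 - ti) ≤ V.valuation ti ^ 2 := by
    rw [hw0, vpi]
    obtain ⟨m, hm⟩ : ∃ m, p ^ 2 = m + 2 := ⟨p ^ 2 - 2, by omega⟩
    rw [hm, Finset.sum_range_succ', Finset.sum_range_succ']
    have e0 : lam 0 = 0 := hlam.lam0
    have e1 : lam (0 + 1) = 1 := hlam.lam1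
    rw [e0, e1]
    have e : ∑ k ∈ Finset.range m, lam (k + 1 + 1) * ti ^ (k + 1 + 1) + 1 * ti ^ (0 + 1) +
        0 * ti ^ 0 - ti = ∑ k ∈ Finset.range m, lam (k + 1 + 1) * ti ^ (k + 1 + 1) := by ring
    rw [e]
    refine Valuation.map_sum_le _ fun k _ => ?_
    rw [map_mul, map_pow]
    calc V.valuation (lam (k + 1 + 1)) * V.valuation ti ^ (k + 1 + 1)
        ≤ 1 * V.valuation ti ^ 2 :=
          mul_le_mul' (hlam.int _) (pow_le_pow_right_of_le_one' hti1.le (by omega))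
      _ = _ := one_mul _
  obtain ⟨-, -, hemb, -, -, -, -, hTT, hww⟩ := t_TEP p A B P V f hS
  obtain ⟨hcard, hperm, hps⟩ := hTT T hT
  obtain ⟨hps1, hps2⟩ := hps w hw
  obtain ⟨-, -, hwle, -⟩ := hww w hw
  have hpow : ∀ b : ℂ, V.valuation b ^ (p ^ 2 - 1) = V.valuation (p : ℂ) → V.valuation b = τ := by
    intro b hb
    rw [← hv0] at hb
    exact (pow_left_inj (by omega)).mp hb
  have hS' : ∀ x ∈ T, InK V (R.L i) (xn (R.L i)) (pt R p i x) ∧ pt R p i x ∉ (R.L i).lattice ∧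
      V.valuation (tX (xn (R.L i)) (yy (R.L i)) (pt R p i x)) = V.valuation ti ∧
      V.valuation (vpi lam (p ^ 2) (tX (xn (R.L i)) (yy (R.L i)) (pt R p i x)) - w x * w0) ≤
        V.valuation ti ^ (p ^ 2) := by
    intro x hx
    have hxP := hT.nz x hx
    obtain ⟨h1, h2, h3⟩ := hKRI p A B P V f hS ι R hG i x hxP
    refine ⟨h1, h2, ?_, ?_⟩
    · rw [hvti]
      exact hpow _ h3
    · exact hROT p A B P V f hS w hw ι R hG i a2 a4 hGa lam hlam x hxP
  obtain ⟨h1, h2, h3⟩ := hKY1 V (R.L i) a2 a4 hGa p hS.pp hp5 hp1 lam hlam (OO A B) T w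
    (pt R p i) (fun x _ => hwle x) hps1 hps2 hcard w0 ti hw0t (by rw [hvti]; exact hv0) hS' a H
    ha1 hva hH z hz haz
  rw [hvti] at h2 h3 hw0t
  set Sg := ∑ x ∈ T, w x * dlX (R.L i) a (z + pt R p i x) with hSg
  have hΘ : V.valuation (ThetaH (R.L i) H z) = 1 := by
    have := (h1 0 (Or.inl (zero_mem _))).1
    simpa using this
  have hpt' : V.valuation (p : ℂ) * τ = τ ^ (p ^ 2) := by
    rw [← hv0, ← pow_succ]
    congr 1
    omega
  refine ⟨fun x => ?_, ?_, ?_⟩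
  · have hx : InK V (R.L i) (xn (R.L i)) (pt R p i x) := by
      by_cases hxP : x ∈ P
      · exact Or.inl ((hpt1 x).2 hxP)
      · exact (hKRI p A B P V f hS ι R hG i x hxP).1
    exact ⟨(h1 _ hx).1, (ValuationSubring.valuation_le_one_iff _ _).1 (h1 _ hx).2⟩
  · rw [hpt']
    have e : ∏ x ∈ T, ThetaH (R.L i) H (z + pt R p i x) -
        ThetaH (R.L i) H z ^ (p ^ 2 - 1) * (1 - muX R i * t0 * Sg) =
        (∏ x ∈ T, ThetaH (R.L i) H (z + pt R p i x) -
        ThetaH (R.L i) H z ^ (p ^ 2 - 1) * (1 - w0 * Sg)) -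
        ThetaH (R.L i) H z ^ (p ^ 2 - 1) * ((w0 - muX R i * t0) * Sg) := by ring
    rw [e]
    refine (Valuation.map_sub _ _ _).trans (max_le h3 ?_)
    rw [map_mul, map_pow, hΘ, one_pow, one_mul, map_mul]
    have h4 : V.valuation (w0 - muX R i * t0) ≤ τ ^ 2 := by
      have e2 : w0 - muX R i * t0 = (w0 - ti) + (ti - muX R i * t0) := by ring
      rw [e2]
      exact (Valuation.map_add _ _ _).trans (max_le hw0t hti)
    calc V.valuation (w0 - muX R i * t0) * V.valuation Sg ≤ τ ^ 2 * τ ^ (p ^ 2 - 2) :=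
          mul_le_mul' h4 h2
      _ = τ ^ (p ^ 2) := by rw [← pow_add]; congr 1; omega
  · calc τ * V.valuation Sg ≤ τ * τ ^ (p ^ 2 - 2) := mul_le_mul' le_rfl h2
      _ = V.valuation (p : ℂ) := by
        rw [← hv0, ← pow_succ']
        congr 1
        omega

end

end Pool.Agent.TWI


end

section

/-!
# TWI, block A, TRI (helper3): the local parameter of the points of order `p` to first order
-/

set_option autoImplicit false

open WeierstrassCurve Polynomial

namespace Pool.Agent.TWI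

open _root_.MU3 Pool.Agent.MU3A Pool.Agent.MU3B Pool.Agent.MUX Pool.Agent.MUXU Pool.Agent.TWT
open Pool.Agent.MUXV (GR InK tX HalfI)

noncomputable section

theorem i_TRI (hKRI : S_KRI) (hMLI : S_MLI) (hPTI : S_PTI) (hGRI : S_GRI) : S_TRI := by
  intro p A B P V f hS w hw ι R hG i x hx
  obtain ⟨hGR, hp1, -, -, -⟩ := hGRI p A B P V f hS ι R hG
  obtain ⟨a2, a4, W, ξ, hGi, -⟩ := hGR i
  have hp5 := hS.p5
  have hq : 25 ≤ p ^ 2 := by nlinarith
  have h1P : (1 : OO A B) ∉ P := fun h => hS.hP.ne_top ((Ideal.eq_top_iff_one _).2 h)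
  obtain ⟨hK1, hR1, hv1⟩ := hKRI p A B P V f hS ι R hG i 1 h1P
  obtain ⟨-, hRx, -⟩ := hKRI p A B P V f hS ι R hG i x hx
  obtain ⟨α, n, hα, hI⟩ := hMLI p A B P V f hS ι R hG x hx
  obtain ⟨-, -, -, hpt4, hpt5, -, -⟩ := hPTI p A B P V f hS ι R i
  obtain ⟨-, -, -, -, -, -, -, -, hww⟩ := t_TEP p A B P V f hS
  obtain ⟨-, -, -, hwe⟩ := hww w hw
  have hIi := hI i
  set t1 := tX (xn (R.L i)) (yy (R.L i)) (pt R p i 1) with ht1
  have hfoi := t_FOI V (R.L i) (R.L i) (emb α) n ⟨W, ξ, hGi⟩ ⟨W, ξ, hGi⟩ hIi.ne hIi.sub hIi.odd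
    hIi.unit hIi.ker hIi.vmu (pt R p i 1) hK1 hR1
  rw [← hpt5 α 1, mul_one] at hfoi
  obtain ⟨-, hRα, hfo⟩ := hfoi
  have hcg : tX (xn (R.L i)) (yy (R.L i)) (pt R p i x) =
      tX (xn (R.L i)) (yy (R.L i)) (pt R p i α) :=
    Pool.Agent.MUXV.TRA.tX_congr hGi hRx hRα (hpt4 x α (by
      have := P.neg_mem hα
      rwa [neg_sub] at this))
  have hv1' : V.valuation t1 < 1 := by
    by_contra h
    push Not at h
    have h2 : 1 ≤ V.valuation t1 ^ (p ^ 2 - 1) := one_le_pow₀ h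
    rw [hv1] at h2
    exact absurd h2 (not_le.2 hp1)
  have hwα : w x = w α := hw.per _ _ (by
      have := P.neg_mem hα
      rwa [neg_sub] at this)
  rw [hcg, hwα]
  have e : tX (xn (R.L i)) (yy (R.L i)) (pt R p i α) - w α * t1 =
      (tX (xn (R.L i)) (yy (R.L i)) (pt R p i α) - emb α * t1) - (w α - emb α) * t1 := by ring
  rw [e]
  refine (Valuation.map_sub _ _ _).trans (max_le hfo ?_)
  rw [map_mul, pow_two]
  refine mul_le_mul' ((hwe α).trans ?_) le_rfl
  rw [← hv1]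
  calc V.valuation t1 ^ (p ^ 2 - 1) ≤ V.valuation t1 ^ 1 :=
        pow_le_pow_right_of_le_one' hv1'.le (by omega)
    _ = _ := pow_one _

end

end Pool.Agent.TWI


end

section

/-!
# TWI, block A, module VPA: the truncated logarithm under an isogeny (helper68)
-/

set_option autoImplicit false

open WeierstrassCurve PowerSeries

namespace Pool.Agent.TWI

open _root_.MU3 Pool.Agent.MU3A Pool.Agent.MU3B Pool.Agent.MUX Pool.Agent.MUXU Pool.Agent.TWT
open Pool.Agent.MUXV (GR InK tX HalfI)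

namespace VPA

lemma aeval_inX {V : ValuationSubring ℂ} (x y : ℂ) (g : Polynomial V) :
    MvPolynomial.aeval ![x, y] (inX g) = Polynomial.aeval x g := by
  unfold inX
  rw [← Polynomial.aeval_algHom_apply]
  simp

/-- `n (ω₁/3) ∈ L` only if `3 ∣ n` -/
lemma third_mem {L : PeriodPair} {n : ℕ} (h : (n : ℂ) * (L.ω₁ / 3) ∈ L.lattice) : 3 ∣ n := by
  obtain ⟨m, k, hmn⟩ := L.mem_lattice.1 h
  have hi := L.indep
  rw [LinearIndependent.pair_iff] at hi
  have h1 := hi ((m : ℝ) - n / 3) k (by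
    simp only [Complex.real_smul]
    push_cast
    linear_combination hmn)
  have h2 : (m : ℝ) = n / 3 := by linarith [h1.1]
  have h4 : (3 * m : ℝ) = n := by rw [h2]; ring
  have h5 : (3 * m : ℤ) = n := by exact_mod_cast h4
  omega

/-- the Cauchy product, truncated -/
lemma cauchy {V : ValuationSubring ℂ} {q : ℕ} (F B : ℕ → ℂ)
    (hF : ∀ i < q, V.valuation (F i) ≤ 1) (hB : ∀ i < q, V.valuation (B i) ≤ 1) {w : ℂ}
    {τ : V.ValueGroup} (hτ : τ ≤ 1) (hw : V.valuation w ≤ τ) :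
    V.valuation ((∑ i ∈ Finset.range q, F i * w ^ i) * (∑ j ∈ Finset.range q, B j * w ^ j) -
      ∑ k ∈ Finset.range q, (∑ i ∈ Finset.range (k + 1), F i * B (k - i)) * w ^ k) ≤ τ ^ q := by
  set G : ℕ × ℕ → ℂ := fun m => F m.1 * B m.2 * (w ^ m.1 * w ^ m.2) with hG
  have h1 : (∑ i ∈ Finset.range q, F i * w ^ i) * (∑ j ∈ Finset.range q, B j * w ^ j) =
      ∑ m ∈ Finset.range q ×ˢ Finset.range q, G m := by
    rw [Finset.sum_mul_sum, ← Finset.sum_product']
    refine Finset.sum_congr rfl (fun m _ => ?_)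
    rw [hG]
    ring
  have h2 : ∑ k ∈ Finset.range q, (∑ i ∈ Finset.range (k + 1), F i * B (k - i)) * w ^ k =
      ∑ m ∈ (Finset.range q ×ˢ Finset.range q).filter (fun m => m.1 + m.2 < q), G m := by
    rw [← ADV.sum_anti]
    refine Finset.sum_congr rfl (fun k _ => ?_)
    rw [Finset.Nat.sum_antidiagonal_eq_sum_range_succ_mk, Finset.sum_mul]
    refine Finset.sum_congr rfl (fun i hi => ?_)
    rw [Finset.mem_range] at hi
    rw [hG]
    show F i * B (k - i) * w ^ k = F i * B (k - i) * (w ^ i * w ^ (k - i))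
    rw [← pow_add]
    congr 2
    omega
  rw [h1, h2, ← Finset.sum_filter_add_sum_filter_not (Finset.range q ×ˢ Finset.range q)
    (fun m : ℕ × ℕ => m.1 + m.2 < q) G, add_sub_cancel_left]
  refine Valuation.map_sum_le _ (fun m hm => ?_)
  rw [Finset.mem_filter, Finset.mem_product, Finset.mem_range, Finset.mem_range, not_lt] at hm
  obtain ⟨⟨hm1, hm2⟩, hm3⟩ := hm
  rw [hG]
  show V.valuation (F m.1 * B m.2 * (w ^ m.1 * w ^ m.2)) ≤ _
  rw [map_mul, map_mul, map_mul, map_pow, map_pow]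
  calc V.valuation (F m.1) * V.valuation (B m.2) *
        (V.valuation w ^ m.1 * V.valuation w ^ m.2)
      ≤ 1 * 1 * (τ ^ m.1 * τ ^ m.2) :=
        mul_le_mul' (mul_le_mul' (hF _ hm1) (hB _ hm2))
          (mul_le_mul' (pow_le_pow_left' hw _) (pow_le_pow_left' hw _))
    _ = τ ^ (m.1 + m.2) := by rw [one_mul, one_mul, pow_add]
    _ ≤ τ ^ q := pow_le_pow_right_of_le_one' hτ hm3

end VPA

theorem i_VPA (hCOM : S_COM) (hLEI : S_LEI) : S_VPA := by
  intro V L M a2 a4 b2 b4 hGL hGM mu n hI q hq lam lam' T T' R hR hRL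
  have hGL2 := hGL
  have hGM2 := hGM
  obtain ⟨W, ξ, G, -, -⟩ := hGL2
  obtain ⟨W', ξ', G', -, -⟩ := hGM2
  obtain ⟨hSK, hSM, hSt⟩ := t_FOI V L M mu n ⟨W, ξ, G⟩ ⟨W', ξ', G'⟩ hI.ne hI.sub hI.odd hI.unit
    hI.ker hI.vmu R hR hRL
  obtain ⟨hτ1, hτ0, -⟩ := MUXV.v_tX_lt G hR hRL
  set t := tX (xn L) (yy L) R with ht
  set t' := tX (xn M) (yy M) (mu * R) with ht'
  set τ := V.valuation t with hτ
  have hτ2 : τ ^ 2 ≤ τ := by
    rw [pow_two]
    exact mul_le_of_le_one_right' hτ1.le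
  have hvt' : V.valuation t' ≤ τ := by
    have h1 : t' = (t' - mu * t) + mu * t := by ring
    rw [h1]
    refine Valuation.map_add_le _ (hSt.trans hτ2) ?_
    rw [map_mul, hI.vmu, one_mul]
  -- the auxiliary point
  set z := L.ω₁ / 3 with hz
  have hmz : mu * z ∉ M.lattice := fun h => hI.n3 (VPA.third_mem (hI.ker z h))
  have h3 : V.valuation ((3 : ℕ) : ℂ) = 1 := by exact_mod_cast hI.v3
  have h3mz : ((3 : ℕ) : ℂ) * (mu * z) ∈ M.lattice := by
    have : ((3 : ℕ) : ℂ) * (mu * z) = mu * L.ω₁ := by rw [hz]; push_cast; ring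
    rw [this]
    exact hI.sub _ L.ω₁_mem_lattice
  have hz1 : ¬ InK V M (xn M) (mu * z) := fun h =>
    hmz (MUXV.mem_of_nat_mul G' h h3 h3mz)
  have hz2 : ¬ InK V M (xn M) (2 * (mu * z)) := by
    intro h
    have h4 : 2 * (mu * z) ∈ M.lattice := MUXV.mem_of_nat_mul G' h h3 (by
      have : ((3 : ℕ) : ℂ) * (2 * (mu * z)) = ((3 : ℕ) : ℂ) * (mu * z) +
        ((3 : ℕ) : ℂ) * (mu * z) := by ring
      rw [this]
      exact add_mem h3mz h3mz)
    apply hmz
    have h5 : mu * z = ((3 : ℕ) : ℂ) * (mu * z) - 2 * (mu * z) := by push_cast; ring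
    rw [h5]
    exact sub_mem h3mz h4
  have hY : V.valuation (yy M (mu * z)) = 1 :=
    (MUXV.tq_YUN V W' M (xn M) (yy M) ξ' G' (mu * z) hz1 hz2).1
  -- the quotient of polynomials
  obtain ⟨PA, PB, hAB, hPB⟩ := hCOM V L M a2 a4 b2 b4 hGL hGM mu n hI
  have hzL : ¬ InK V L (xn L) z := (hPB z hz1).1
  have hzS : ¬ InK V M (xn M) (mu * z + mu * R) := (MUXV.near G' hz1 hSK hSM).1
  have hmzR : mu * (z + R) = mu * z + mu * R := by ring
  have hzS' : ¬ InK V M (xn M) (mu * (z + R)) := by rw [hmzR]; exact hzS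
  obtain ⟨-, hPBv⟩ := hPB (z + R) hzS'
  have hE := hAB (z + R) (MUXV.int_X hzS').1
  rw [hmzR] at hE
  -- Taylor expansions
  have tA := T.tay R hR hRL z hzL (inX PA)
  have tB := T.tay R hR hRL z hzL (inX PB)
  rw [VPA.aeval_inX] at tA tB
  have tM := (T'.tay (mu * R) hSK hSM (mu * z) hz1 (MvPolynomial.X 0)).trans
    (pow_le_pow_left' hvt' q)
  rw [MvPolynomial.aeval_X] at tM
  rw [← ht, ← hτ] at tA tB
  rw [← ht'] at tM
  set w := vpi lam q t with hw
  set w' := vpi lam' q t' with hw'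
  have hvw : V.valuation w ≤ τ := ADV.v_vpi T.lam0 T.int le_rfl hτ1.le
  have hvw' : V.valuation w' ≤ τ := ADV.v_vpi T'.lam0 T'.int hvt' hτ1.le
  set D : ℕ → ℂ := fun i => dd M b2 b4 (MvPolynomial.X 0) i (mu * z) with hD
  set B : ℕ → ℂ := fun i => dd L a2 a4 (inX PB) i z with hB
  have hDv : ∀ i < q, V.valuation (D i) ≤ 1 := fun i hi => T'.dint (mu * z) hz1 _ i hi
  have hBv : ∀ i < q, V.valuation (B i) ≤ 1 := fun i hi => T.dint z hzL _ i hi
  have hFv : ∀ i < q, V.valuation (mu ^ i * D i) ≤ 1 := fun i hi => by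
    rw [map_mul, map_pow, hI.vmu, one_pow, one_mul]
    exact hDv i hi
  have hA : ∀ k, dd L a2 a4 (inX PA) k z =
      ∑ i ∈ Finset.range (k + 1), mu ^ i * D i * B (k - i) := fun k =>
    (hLEI V L M a2 a4 b2 b4 hGL hGM mu hI.ne hI.sub PA PB hAB k z hmz).symm
  have tA' : V.valuation (Polynomial.aeval (xn L (z + R)) PA -
      ∑ k ∈ Finset.range q, (∑ i ∈ Finset.range (k + 1), mu ^ i * D i * B (k - i)) * w ^ k) ≤
        τ ^ q := by
    refine le_trans (le_of_eq (congrArg _ (congrArg _ (Finset.sum_congr rfl fun k _ => ?_)))) tA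
    rw [← hA k]
    rfl
  have tB' : V.valuation (Polynomial.aeval (xn L (z + R)) PB -
      ∑ k ∈ Finset.range q, B k * w ^ k) ≤ τ ^ q := tB
  have tM' : V.valuation (xn M (mu * z + mu * R) - ∑ k ∈ Finset.range q, D k * w' ^ k) ≤
      τ ^ q := tM
  have hC := VPA.cauchy (V := V) (q := q) (fun i => mu ^ i * D i) B hFv hBv hτ1.le hvw
  -- the sum with the multiplier
  obtain ⟨SF, hSF⟩ : ∃ SF : ℂ, SF = ∑ i ∈ Finset.range q, mu ^ i * D i * w ^ i := ⟨_, rfl⟩
  have hSFv : V.valuation SF ≤ 1 := by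
    rw [hSF]
    refine Valuation.map_sum_le _ (fun i hi => ?_)
    rw [Finset.mem_range] at hi
    rw [map_mul, map_pow]
    exact mul_le_one' (hFv i hi) (pow_le_one' (hvw.trans hτ1.le) i)
  have hSF2 : SF = ∑ i ∈ Finset.range q, D i * (mu * w) ^ i := by
    rw [hSF]
    refine Finset.sum_congr rfl fun i _ => ?_
    rw [mul_pow]
    ring
  have hC' : V.valuation (SF * ∑ k ∈ Finset.range q, B k * w ^ k -
      ∑ k ∈ Finset.range q, (∑ i ∈ Finset.range (k + 1), mu ^ i * D i * B (k - i)) * w ^ k) ≤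
        τ ^ q := by
    rw [hSF]
    exact hC
  have hSB : V.valuation (SF * (Polynomial.aeval (xn L (z + R)) PB -
      ∑ k ∈ Finset.range q, B k * w ^ k)) ≤ τ ^ q := by
    rw [map_mul]
    calc _ ≤ 1 * τ ^ q := mul_le_mul' hSFv tB'
      _ = τ ^ q := one_mul _
  have h5 : V.valuation ((xn M (mu * z + mu * R) - SF) *
      Polynomial.aeval (xn L (z + R)) PB) ≤ τ ^ q := by
    have h6 := Valuation.map_sub_le _ (Valuation.map_sub_le _ tA' hC') hSB
    refine le_trans (le_of_eq (congrArg _ ?_)) h6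
    rw [sub_mul, hE]
    ring
  rw [map_mul, hPBv, mul_one] at h5
  have h7 : V.valuation (∑ k ∈ Finset.range q, D k * w' ^ k -
      ∑ k ∈ Finset.range q, D k * (mu * w) ^ k) ≤ τ ^ q := by
    have h8 := Valuation.map_sub_le _ h5 tM'
    refine le_trans (le_of_eq (congrArg _ ?_)) h8
    rw [hSF2]
    ring
  refine ADV.cancel hq D hDv ?_ hτ1 hvw' ?_ h7
  · have h8 : D 1 = 2 * yy M (mu * z) := by
      show MvPolynomial.aeval ![xn M (mu * z), yy M (mu * z)]
        (dW b2 b4 (MvPolynomial.X 0)) / ((Nat.factorial 1 : ℕ) : ℂ) = _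
      rw [dW, MvPolynomial.mkDerivation_X]
      simp
    rw [h8, map_mul, G'.two, hY, one_mul]
  · rw [map_mul, hI.vmu, one_mul]
    exact hvw

end Pool.Agent.TWI


end

section

/-!
# TWI, block C4, module YACI: the number `c` and the signs `d_i` (helper54, after the module ACI of MUX-NS)
-/

set_option autoImplicit false

namespace Pool.Agent.TWI

open _root_.MU3 Pool.Agent.MU3A Pool.Agent.MU3B Pool.Agent.RI Pool.Agent.MUX Pool.Agent.MUXU
open OnePoint
open Pool.Agent.MUXY (ActN Dn Sy_MUU Sy_BRI)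
open Pool.Agent.NST (ActT KIn)
open Pool.Agent.NST.ACI (idl_le)

noncomputable section

namespace YACI

variable {A B : ℤ}

lemma idl_ne_top {p : ℕ} (hp : 2 ≤ p) : (1 : OO A B) ∉ idl (A := A) (B := B) p := by
  intro h
  obtain ⟨x, hx⟩ := Ideal.mem_span_singleton'.1 h
  have h1 := congrArg QuadraticAlgebra.re hx
  have h2 : (x * ((p : ℕ) : OO A B)).re = p * x.re := by
    have e1 : ((p : ℕ) : OO A B).re = ((p : ℕ) : ℤ) := QuadraticAlgebra.re_natCast _
    have e2 : ((p : ℕ) : OO A B).im = 0 := QuadraticAlgebra.im_natCast _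
    rw [QuadraticAlgebra.re_mul, e1, e2]
    ring
  rw [h2] at h1
  have h4 : (1 : OO A B).re = 1 := rfl
  rw [h4] at h1
  have h5 : (p : ℤ) ∣ 1 := ⟨_, h1.symm⟩
  have h6 := Int.le_of_dvd one_pos h5
  omega

end YACI

open _root_.Pool.Agent.TWI.YACI in
/-- (YACI) -/
theorem t_YACI : S_YACI := by
  intro A B hC T n ι R p j m' hp hm' σ hσ hfix
  have h1 := Pool.Agent.MUXY.y_MUU
  have h2 := Pool.Agent.MUXY.y_BRI
  set m : ℕ := p ^ (j + 1) * m' with hmdef
  have hm : m ≠ 0 := mul_ne_zero (pow_ne_zero _ (by omega)) hm'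
  have hI : idl (A := A) (B := B) m ≠ ⊥ := by
    rw [Ne, Ideal.span_singleton_eq_bot]
    exact natCast_ne_zero' hC hm
  have hI' : idl (A := A) (B := B) m' ≠ ⊥ := by
    rw [Ne, Ideal.span_singleton_eq_bot]
    exact natCast_ne_zero' hC hm'
  have hle : idl (A := A) (B := B) m ≤ idl (A := A) (B := B) m' := idl_le (Dvd.intro_left _ rfl)
  have hle3 : idl (A := A) (B := B) m ≤ idl (A := A) (B := B) p :=
    idl_le (Dvd.dvd.mul_right (dvd_pow_self p (Nat.succ_ne_zero j)) m')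
  obtain ⟨a, hcop, ha⟩ := T.act (idl m) hI σ hσ
  obtain ⟨b₀, L₀, om₀, mu₀, hL₀, hA₀⟩ := ha _ _ _ (R.nl R.i0)
  have hA' : ActI σ (idl m') a (R.L R.i0) L₀ mu₀ := by
    refine ⟨hA₀.kap, ?_, hA₀.isq, fun z hz => hA₀.act z fun x hx => hz x (hle hx)⟩
    have h3 := hcop
    rw [Ideal.isCoprime_iff_sup_eq] at h3 ⊢
    rw [eq_top_iff, ← h3]
    exact sup_le_sup_left hle a
  obtain ⟨c, hc1, hca⟩ := (T.triv (idl m') a σ _ _ _ _ mu₀ hI' hσ (R.nl R.i0) hA' hL₀.nrm).1 hfix
  subst hca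
  have hc3 : c ∉ idl (A := A) (B := B) p := by
    intro hc
    have h3 := hcop
    rw [Ideal.isCoprime_iff_sup_eq] at h3
    have h4 : (sp c) ⊔ idl (A := A) (B := B) m ≤ idl (A := A) (B := B) p :=
      sup_le ((Ideal.span_singleton_le_iff_mem _).2 hc) hle3
    rw [h3] at h4
    exact idl_ne_top hp (h4 trivial)
  have hc0 : c ≠ 0 := by
    rintro rfl
    exact hc3 (Ideal.zero_mem _)
  have key : ∀ i, ∃ d : ℤ, (d = 1 ∨ d = -1) ∧
      ActN σ m (sp c) (R.L i) (R.L i) ((d : ℂ) * emb c) := by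
    intro i
    obtain ⟨b', L', om', mu, hL', hA⟩ := ha _ _ _ (R.nl i)
    have hk : kap L' = kap (R.L i) := by
      rw [hA.kap]
      exact hfix _ (IntermediateField.subset_adjoin _ _ ⟨R.b i, R.L i, R.om i, R.nl i, Or.inl rfl⟩)
    have hg2 : L'.g₂ = (R.L i).g₂ := by
      unfold kap at hk
      linear_combination (1728 / 12) * hk
    have hg3 : L'.g₃ = (R.L i).g₃ := by
      have e1 := hL'.nrm
      have e2 := (R.nl i).nrm
      rw [hg2, e2] at e1
      linear_combination (1 / 18) * e1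
    have hlat : L'.lattice = (R.L i).lattice := u_DET L' (R.L i) hg2 hg3
    have hN : ActN σ m (sp c) (R.L i) (R.L i) mu :=
      h2 A B hC σ m (sp c) (R.b i) b' (R.L i) L' (R.L i) (R.om i) om' mu (R.nl i) hL' hA
        (fun z => by rw [hlat])
    have hq1 : IsQ (sp c) (R.L i) (R.L i) mu := ⟨hN.ne, hN.isq⟩
    have hCM : HasCM A B (R.L i) := (R.nl i).toIsLI.hasCM hC
    have hq2 : IsQ (sp c) (R.L i) (R.L i) (emb c) := by
      refine ⟨emb_ne_zero hC hc0, fun z => ⟨fun hz x hx => ?_, fun hz => ?_⟩⟩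
      · obtain ⟨y, rfl⟩ := Ideal.mem_span_singleton'.1 hx
        rw [emb_mul hC, mul_assoc]
        exact hCM y _ hz
      · exact hz c (Ideal.mem_span_singleton_self c)
    rcases h1 A B (sp c) (R.L i) (R.L i) (emb c) mu (R.nl i).nrm hq2 hq1 with h | h
    · refine ⟨1, Or.inl rfl, ?_⟩
      have e : (((1 : ℤ) : ℂ)) * emb c = mu := by rw [h]; push_cast; ring
      rw [e]
      exact hN
    · refine ⟨-1, Or.inr rfl, ?_⟩
      have e : (((-1 : ℤ) : ℂ)) * emb c = mu := by rw [h]; push_cast; ring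
      rw [e]
      exact hN
  choose d hd hact using key
  refine ⟨c, d, hc1, hc3, hσ, hd, hact, fun z hz => ?_⟩
  exact (T.zeta m (idl m) (sp c) σ _ _ _ _ mu₀ hI hσ hm le_rfl (R.nl R.i0) hA₀ z hz).2

end

end Pool.Agent.TWI


end

section

/-!
# TWI, block C4, module YSGM: conjugation of the multipliers (helper54, after the module SGM of MUX-NS)
-/

set_option autoImplicit false

namespace Pool.Agent.TWI

open _root_.MU3 Pool.Agent.MU3A Pool.Agent.MU3B Pool.Agent.RI Pool.Agent.MUX Pool.Agent.MUXU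
open OnePoint
open Pool.Agent.MUXY (ActN Dn)
open Pool.Agent.NST (ActT KIn)
open Pool.Agent.NST.SGM (zmul_mem phi_cong)

noncomputable section

namespace YSGM

/-- `Φ z ≡ d z` if `c ≡ 1` modulo `m'` and `m' z ∈ L` -/
theorem phi_dp {A B : ℤ} (hC : CQ A B) {σ : ℂ ≃+* ℂ} {b : Ideal (OO A B)} {L : PeriodPair} {om : ℂ}
    (hL : IsLI b L om) {Φ : ℂ → ℂ} (hΦ : IsPhi σ L L Φ)
    {p j m' : ℕ} {a : Ideal (OO A B)} {c : OO A B} (hc : c - 1 ∈ idl (A := A) (B := B) m') {d : ℤ}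
    (h : ActN σ (p ^ (j + 1) * m') a L L (d * emb c)) {z : ℂ}
    (hz : (m' : ℂ) * z ∈ L.lattice) (hzL : z ∉ L.lattice) : Φ z - d * z ∈ L.lattice := by
  have h1 : ((p ^ (j + 1) * m' : ℕ) : ℂ) * z ∈ L.lattice := by
    have h2 := nsmul_mem hz (p ^ (j + 1))
    rw [nsmul_eq_mul, ← mul_assoc, ← Nat.cast_mul] at h2
    exact h2
  have h3 := phi_cong hΦ h h1 hzL
  obtain ⟨y, hy⟩ := Ideal.mem_span_singleton'.1 hc
  have h4 : emb c = emb y * m' + 1 := by
    have h5 : c = y * ((m' : ℕ) : OO A B) + 1 := by rw [hy]; ring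
    rw [h5, Pool.Agent.MUX.emb_add hC, Pool.Agent.MUX.emb_mul hC,
      Pool.Agent.MUX.emb_natCast hC, Pool.Agent.MUX.emb_one hC]
  have h5 : emb y * (m' * z) ∈ L.lattice := by
    obtain ⟨t, ht, he⟩ := (hL.mem _).1 hz
    rw [he]
    refine (hL.mem _).2 ⟨y * t, b.mul_mem_left y ht, ?_⟩
    rw [Pool.Agent.MUX.emb_mul hC]; ring
  have h6 := add_mem h3 (zmul_mem d h5)
  have h7 : Φ z - d * emb c * z + d * (emb y * (m' * z)) = Φ z - d * z := by
    rw [h4]; ring
  rwa [h7] at h6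

end YSGM

open _root_.Pool.Agent.TWI.YSGM in
/-- (YSGM) -/
theorem t_YSGM : S_YSGM := by
  intro A B p f hC hp hf ι R j m' hm' hfm σ c d hc hact i
  have hI := Pool.Agent.MUXY.y_MUI
  have hMC := Pool.Agent.MUXY.y_MUC
  have hMU := Pool.Agent.MUXY.y_MUU
  have hN0 : nI (R.b i) ≠ 0 := by
    intro h
    have h1 := R.cop i
    rw [h, Nat.coprime_zero_left] at h1
    have h2 := Nat.mul_le_mul hp hf
    omega
  have hμ : muX R i ≠ 0 := by
    unfold muX
    exact div_ne_zero (mul_ne_zero (R.nl i).om_ne (by exact_mod_cast hN0)) (R.nl R.i0).om_ne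
  have hQ := hI A B hC _ ι R i
  have hQ' := hMC A B hC σ hact.fix (cjI (R.b i)) (R.b R.i0) (R.L R.i0) (R.L i) (R.L R.i0) (R.L i)
    (R.om R.i0) (muX R i) (R.nl R.i0).toIsLI (hact.act R.i0).cj (hact.act i).cj hQ
  have hs := hMU A B _ _ _ _ _ (R.nl i).nrm hQ hQ'
  have hisg : Isg (R.L R.i0) (R.L i) (muX R i) := by
    intro w hw
    refine (hQ.2 w).2 fun x _ => ?_
    obtain ⟨t, ht, rfl⟩ := ((R.nl R.i0).mem w).1 hw
    refine ((R.nl R.i0).mem _).2 ⟨x * t, (R.b R.i0).mul_mem_left x ht, ?_⟩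
    rw [Pool.Agent.MUX.emb_mul hC]; ring
  obtain ⟨Φ, hΦ⟩ := u_PHI σ _ _ (hact.act R.i0).cj
  obtain ⟨Ψ, hΨ⟩ := u_PHI σ _ _ (hact.act i).cj
  obtain ⟨-, hfun⟩ := u_FUN σ _ _ _ _ (muX R i) Φ Ψ hμ hisg (hact.act R.i0).cj (hact.act i).cj hΦ hΨ
  have hm0 : (m' : ℂ) ≠ 0 := by exact_mod_cast hm'
  -- the point
  obtain ⟨z, hz⟩ : ∃ z : ℂ, z = R.om R.i0 / m' := ⟨_, rfl⟩
  have hmz : (m' : ℂ) * z = R.om R.i0 := by rw [hz]; field_simp
  have hom0 : R.om R.i0 ∈ (R.L R.i0).lattice := by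
    refine ((R.nl R.i0).mem _).2 ⟨1, by rw [R.b0]; trivial, ?_⟩
    rw [Pool.Agent.MUX.emb_one hC, mul_one]
  have hμz : (m' : ℂ) * (muX R i * z) = R.om i * nI (R.b i) := by
    rw [mul_left_comm, hmz]
    unfold muX
    have := (R.nl R.i0).om_ne
    field_simp
  have h2 : 2 * (muX R i * z) ∉ (R.L i).lattice := by
    intro h
    obtain ⟨x, -, hx⟩ := ((R.nl i).mem _).1 h
    have h3 : emb (((2 * nI (R.b i) : ℕ) : OO A B)) = emb (((m' : ℕ) : OO A B) * x) := by
      rw [Pool.Agent.MUX.emb_mul hC, Pool.Agent.MUX.emb_natCast hC, Pool.Agent.MUX.emb_natCast hC]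
      apply mul_left_cancel₀ (R.nl i).om_ne
      push_cast
      linear_combination -2 * hμz + (m' : ℂ) * hx
    have h4 := Pool.Agent.MUX.emb_inj hC h3
    have h5 : ((2 * nI (R.b i) : ℕ) : ℤ) = (m' : ℤ) * x.re := by
      have h6 := congrArg QuadraticAlgebra.re h4
      rw [QuadraticAlgebra.re_natCast, QuadraticAlgebra.re_mul, QuadraticAlgebra.re_natCast,
        QuadraticAlgebra.im_natCast] at h6
      rw [h6]; ring
    have h6 : m' ∣ 2 * nI (R.b i) := by
      have : (m' : ℤ) ∣ ((2 * nI (R.b i) : ℕ) : ℤ) := ⟨_, h5⟩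
      exact_mod_cast this
    have h7 : f ∣ 2 * nI (R.b i) := hfm.trans h6
    have h8 : Nat.Coprime f (nI (R.b i)) := ((R.cop i).coprime_mul_left_right).symm
    have h9 := h8.dvd_of_dvd_mul_right h7
    exact absurd (Nat.le_of_dvd (by norm_num) h9) (by omega)
  have h1 : muX R i * z ∉ (R.L i).lattice := fun h => h2 (by
    have := add_mem h h
    rwa [← two_mul] at this)
  have hz0 : z ∉ (R.L R.i0).lattice := fun h => h1 (hisg z h)
  have e1 := phi_dp hC (R.nl R.i0).toIsLI hΦ hc (hact.act R.i0) (hmz ▸ hom0) hz0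
  have e2 : Ψ (muX R i * z) - d i * (muX R i * z) ∈ (R.L i).lattice := by
    refine phi_dp hC (R.nl i).toIsLI hΨ hc (hact.act i) ?_ h1
    rw [mul_left_comm, hmz]
    exact hisg _ hom0
  have e3 := hfun z
  have e4 := hisg _ e1
  -- the sign
  obtain ⟨s, hs1, hs2⟩ : ∃ s : ℤ, (s = 1 ∨ s = -1) ∧ σ (muX R i) = s * muX R i := by
    rcases hs with h | h
    · exact ⟨1, Or.inl rfl, by rw [h]; push_cast; ring⟩
    · exact ⟨-1, Or.inr rfl, by rw [h]; push_cast; ring⟩
  rw [hs2] at e3 ⊢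
  have e5 : ((d i - s * d R.i0 : ℤ) : ℂ) * (muX R i * z) ∈ (R.L i).lattice := by
    have h6 := add_mem (sub_mem e3 e2) (zmul_mem s e4)
    have h7 : Ψ (muX R i * z) - s * muX R i * Φ z - (Ψ (muX R i * z) - d i * (muX R i * z)) +
        s * (muX R i * (Φ z - d R.i0 * z)) =
        ((d i - s * d R.i0 : ℤ) : ℂ) * (muX R i * z) := by
      push_cast; ring
    rwa [h7] at h6
  have e6 : d i = s * d R.i0 := by
    by_contra hne
    have h8 : d i - s * d R.i0 = 2 ∨ d i - s * d R.i0 = -2 := by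
      rcases hact.sgn i with h9 | h9 <;> rcases hact.sgn R.i0 with h10 | h10 <;>
        rcases hs1 with h11 | h11 <;> rw [h9, h10, h11] at hne ⊢ <;> simp at hne ⊢
    apply h2
    rcases h8 with h8 | h8
    · rw [h8] at e5
      exact_mod_cast e5
    · rw [h8] at e5
      have := neg_mem e5
      push_cast at this
      rwa [← neg_mul, neg_neg] at this
  rw [e6]
  rcases hact.sgn R.i0 with h10 | h10 <;> rw [h10] <;> push_cast <;> ring

end

end Pool.Agent.TWI


end
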