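import Pool.Agent.MVF.C033
import Pool.Agent.MVF.C035
import Pool.Agent.MVF.C040
import Pool.Agent.MVF.C111
import Pool.Agent.MVF.C113
import Pool.Agent.MVF.C119
import Pool.Agent.MVF.C139
import Pool.Agent.TWM.C08
import Pool.Agent.TWM.C10
import Pool.Agent.TWM.C17

/-! Parts: TWI.PVI, TWI.StUI, TWI.GRI, TWI.RAMGI, TWI.YALV, TWI.YVAL, TWI.UNFI -/

section

/-!
# TWI, module PVI (helper96): every large prime is split or inert; existence of `P`, `V`, good reduction
-/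

set_option autoImplicit false

open NumberField IsDedekindDomain
open scoped nonZeroDivisors Pointwise

namespace Pool.Agent.TWI

open _root_.MU3 Pool.Agent.MU3 Pool.Agent.MU3A Pool.Agent.MU3B Pool.Agent.RI Pool.Agent.RID
open Pool.Agent.MUX Pool.Agent.MUXU Pool.Agent.MUXW Pool.Agent.TWT Pool.Agent.TWK

noncomputable section

namespace PVIx

variable {A B : ℤ}

/-- the kernel of a homomorphism `O → ℤ/p` -/
theorem isPN_ker {p : ℕ} (hp : p.Prime) (ψ : OO A B →+* ZMod p) : IsPN p (RingHom.ker ψ) := by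
  have hpF := Fact.mk hp
  have hsurj : Function.Surjective ψ := ZMod.ringHom_surjective ψ
  have hmax : (RingHom.ker ψ).IsMaximal := RingHom.ker_isMaximal_of_surjective ψ hsurj
  refine ⟨hmax.isPrime, ?_, ?_⟩
  · rw [RingHom.mem_ker, map_natCast, CharP.cast_eq_zero]
  · unfold MUX.nI
    rw [Nat.card_congr (RingHom.quotientKerEquivOfSurjective hsurj).toEquiv, Nat.card_zmod]

/-- an ideal of norm `p` is maximal -/
theorem max_of_isPN {p : ℕ} (hp : p.Prime) {Q : Ideal (OO A B)} (hQ : IsPN p Q) :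
    Q.IsMaximal := by
  have hcard : Nat.card (OO A B ⧸ Q) = p := hQ.norm
  have hfin : Finite (OO A B ⧸ Q) := Nat.finite_of_card_ne_zero (by rw [hcard]; exact hp.ne_zero)
  have := Fintype.ofFinite (OO A B ⧸ Q)
  have hc1 : Fintype.card (OO A B ⧸ Q) = p := by rw [← Nat.card_eq_fintype_card, hcard]
  apply Ideal.Quotient.maximal_of_isField
  let e := ZMod.ringEquivOfPrime (OO A B ⧸ Q) hp hc1
  have hpF := Fact.mk hp
  exact e.symm.toMulEquiv.isField (Field.toIsField (ZMod p))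

/-- every ideal of norm `p` is the kernel of a homomorphism to `ℤ/p` -/
theorem ker_of_isPN {p : ℕ} (hp : p.Prime) {Q : Ideal (OO A B)} (hQ : IsPN p Q) :
    ∃ ψ : OO A B →+* ZMod p, RingHom.ker ψ = Q := by
  have hcard : Nat.card (OO A B ⧸ Q) = p := hQ.norm
  have hfin : Finite (OO A B ⧸ Q) := Nat.finite_of_card_ne_zero (by rw [hcard]; exact hp.ne_zero)
  have := Fintype.ofFinite (OO A B ⧸ Q)
  have hc1 : Fintype.card (OO A B ⧸ Q) = p := by rw [← Nat.card_eq_fintype_card, hcard]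
  let e := ZMod.ringEquivOfPrime (OO A B ⧸ Q) hp hc1
  refine ⟨(e.symm : (OO A B ⧸ Q) →+* ZMod p).comp (Ideal.Quotient.mk Q), ?_⟩
  ext x
  rw [RingHom.mem_ker, RingHom.comp_apply]
  constructor
  · intro h
    have h1 : Ideal.Quotient.mk Q x = 0 := by
      have h2 := congrArg e h
      rw [map_zero] at h2
      simpa using h2
    exact (Ideal.Quotient.eq_zero_iff_mem).1 h1
  · intro h
    rw [(Ideal.Quotient.eq_zero_iff_mem).2 h, map_zero]

theorem isPN_cj {p : ℕ} (hp : p.Prime) {Q : Ideal (OO A B)} (hQ : IsPN p Q) :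
    IsPN p (cjI Q) := by
  obtain ⟨ψ, hψ⟩ := ker_of_isPN hp hQ
  have h := isPN_ker hp (ψ.comp (starRingEnd (OO A B)))
  have e : RingHom.ker (ψ.comp (starRingEnd (OO A B))) = cjI Q := by
    unfold cjI
    ext x
    rw [RingHom.mem_ker, Ideal.mem_comap, ← hψ, RingHom.mem_ker, RingHom.comp_apply]
  rwa [e] at h

theorem exV_isPN (hc : MUX.CQ A B) {p : ℕ} (hp : p.Prime) {Q : Ideal (OO A B)} (hQ : IsPN p Q) :
    ∃ V : ValuationSubring ℂ, OverI V Q ∧ (p : ℂ) ∈ V.nonunits :=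
  PVXx.exV hc Q p hQ.mem (max_of_isPN hp hQ)

theorem mem_idl {m : ℕ} {x : OO A B} :
    x ∈ idl (A := A) (B := B) m ↔ (m : ℤ) ∣ x.re ∧ (m : ℤ) ∣ x.im := by
  rw [Ideal.mem_span_singleton]
  constructor
  · rintro ⟨y, hy⟩
    rw [hy]
    constructor
    · refine ⟨y.re, ?_⟩
      simp
    · refine ⟨y.im, ?_⟩
      simp
  · rintro ⟨⟨a, ha⟩, ⟨b, hb⟩⟩
    refine ⟨⟨a, b⟩, ?_⟩
    ext
    · simp [ha]
    · simp [hb]

/-- the element `nm x` is not divisible by `p` if `D` is no square -/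
theorem dvd_nm {p : ℕ} (hp : p.Prime) (hsq : ¬ IsSquare ((B ^ 2 + 4 * A : ℤ) : ZMod p))
    {x : OO A B} (h : (p : ℤ) ∣ nm x) : (p : ℤ) ∣ x.re ∧ (p : ℤ) ∣ x.im := by
  have hpF := Fact.mk hp
  have h1 : ((nm x : ℤ) : ZMod p) = 0 := (ZMod.intCast_zmod_eq_zero_iff_dvd _ _).2 h
  have h2 : (2 * (x.re : ZMod p) + B * x.im) ^ 2 = ((B ^ 2 + 4 * A : ℤ) : ZMod p) * (x.im) ^ 2 := by
    unfold nm at h1
    push_cast at h1 ⊢
    linear_combination 4 * h1
  have h3 : (x.im : ZMod p) = 0 := by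
    by_contra h4
    apply hsq
    refine ⟨(2 * (x.re : ZMod p) + B * x.im) / x.im, ?_⟩
    field_simp
    linear_combination -h2
  have h5 : (x.re : ZMod p) ^ 2 = 0 := by
    unfold nm at h1
    push_cast at h1
    rw [h3] at h1
    linear_combination h1
  exact ⟨(ZMod.intCast_zmod_eq_zero_iff_dvd _ _).1 (pow_eq_zero_iff (two_ne_zero) |>.1 h5),
    (ZMod.intCast_zmod_eq_zero_iff_dvd _ _).1 h3⟩

end PVIx

open _root_.Pool.Agent.TWI.PVIx

/-- (PVD) an odd prime is split (or ramified), or `(p)` is a prime ideal -/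
theorem t_PVD (A B : ℤ) (hc : MUX.CQ A B) (p : ℕ) (hp : p.Prime) (hp2 : p ≠ 2) :
    (∃ P : Ideal (OO A B), IsPN p P) ∨ (idl (A := A) (B := B) p).IsPrime := by
  have hpF := Fact.mk hp
  by_cases hsq : IsSquare ((B ^ 2 + 4 * A : ℤ) : ZMod p)
  · left
    obtain ⟨s, hs⟩ := hsq
    have h20 : (2 : ZMod p) ≠ 0 := by
      intro h
      have h1 : ((2 : ℕ) : ZMod p) = 0 := by exact_mod_cast h
      rw [ZMod.natCast_eq_zero_iff] at h1
      have h2 := (Nat.prime_dvd_prime_iff_eq hp Nat.prime_two).1 h1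
      exact hp2 h2
    have hr : ((B + s) / 2 : ZMod p) * ((B + s) / 2) =
        (A : ZMod p) + B * ((B + s) / 2) := by
      push_cast at hs
      field_simp
      linear_combination -hs
    let ψ : OO A B →+* ZMod p :=
      (QuadraticAlgebra.lift (R := ℤ) (a := A) (b := B) (A := ZMod p)
        ⟨((B + s) / 2 : ZMod p), by simpa [zsmul_eq_mul] using hr⟩).toRingHom
    exact ⟨_, isPN_ker hp ψ⟩
  · right
    obtain ⟨-, -, -, -, -, -, -, -, -, hnm, -⟩ := Pool.Agent.MUXV.tq_EMB A B (Cxs.toCQ hc)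
    constructor
    · intro h
      have h1 : (1 : OO A B) ∈ idl (A := A) (B := B) p := by rw [h]; trivial
      have h2 := (mem_idl.1 h1).1
      have h3 : (p : ℤ) ∣ 1 := h2
      have h4 : p ∣ 1 := by exact_mod_cast h3
      exact hp.one_lt.ne' (Nat.dvd_one.1 h4)
    · intro x y hxy
      obtain ⟨h1, h2⟩ := mem_idl.1 hxy
      have h3 : (p : ℤ) ∣ nm (x * y) := by
        unfold nm
        exact ((((dvd_pow h1 two_ne_zero)).add (by
          exact (Dvd.dvd.mul_left h1 _).mul_right _)).sub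
            (Dvd.dvd.mul_left (dvd_pow h2 two_ne_zero) _))
      rw [hnm] at h3
      rcases (Nat.prime_iff_prime_int.1 hp).dvd_or_dvd h3 with h4 | h4
      · exact Or.inl (mem_idl.2 (dvd_nm hp hsq h4))
      · exact Or.inr (mem_idl.2 (dvd_nm hp hsq h4))

namespace PVIx

variable {A B : ℤ}

/-- `(p)` prime is maximal -/
theorem max_idl (hc : MUX.CQ A B) {p : ℕ} (hp : p.Prime)
    (h : (idl (A := A) (B := B) p).IsPrime) : (idl (A := A) (B := B) p).IsMaximal := by
  have h0 : idl (A := A) (B := B) p ≠ ⊥ := by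
    intro hb
    have h1 : ((p : ℕ) : OO A B) ∈ idl (A := A) (B := B) p := Ideal.mem_span_singleton_self _
    rw [hb, Ideal.mem_bot] at h1
    exact natCast_ne_zero' hc hp.ne_zero h1
  have hfin := finite_quot hc h0
  have hdom : IsDomain (OO A B ⧸ idl (A := A) (B := B) p) := Ideal.Quotient.isDomain _
  exact Ideal.Quotient.maximal_of_isField _ (Finite.isField_of_domain _)

theorem exV_idl (hc : MUX.CQ A B) {p : ℕ} (hp : p.Prime)
    (h : (idl (A := A) (B := B) p).IsPrime) :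
    ∃ V : ValuationSubring ℂ, OverI V (idl (A := A) (B := B) p) ∧ (p : ℂ) ∈ V.nonunits :=
  PVXx.exV hc _ p (Ideal.mem_span_singleton_self _) (max_idl hc hp h)

/-- a number prime to `p` is a unit at `V` -/
theorem v_one {V : ValuationSubring ℂ} {p n : ℕ} (hp : p.Prime) (hV : (p : ℂ) ∈ V.nonunits)
    (hn : ¬ p ∣ n) : V.valuation (n : ℂ) = 1 := by
  rw [ValuationSubring.mem_nonunits_iff] at hV
  have hint : ∀ z : ℤ, V.valuation (z : ℂ) ≤ 1 := fun z =>
    (V.valuation_le_one_iff _).2 (intCast_mem V z)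
  have hcop : IsCoprime (p : ℤ) (n : ℤ) := by
    rw [Nat.isCoprime_iff_coprime]
    exact (Nat.Prime.coprime_iff_not_dvd hp).2 hn
  obtain ⟨a, b, hab⟩ := hcop
  refine le_antisymm (by exact_mod_cast hint n) ?_
  by_contra hlt
  rw [not_le] at hlt
  have h1 : V.valuation ((a : ℂ) * p + b * n) < 1 := by
    apply Valuation.map_add_lt
    · rw [map_mul]
      exact lt_of_le_of_lt (mul_le_of_le_one_left' (hint a)) hV
    · rw [map_mul]
      exact lt_of_le_of_lt (mul_le_of_le_one_left' (hint b)) hlt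
  have h2 : ((a : ℂ) * p + b * n) = 1 := by exact_mod_cast hab
  rw [h2, map_one] at h1
  exact lt_irrefl _ h1

end PVIx

/-- (GOOD) outside a finite set of primes: `p ≥ 5`, unramified, and split with `P`, `V`, `V'`, or inert with `V`,
everything of good reduction. -/
theorem t_GOOD (A B : ℤ) (hc : MUX.CQ A B) (T : TorX A B) (hGRB : Sy_GRB)
    (hALU : Pool.Agent.MUXV.Sq_ALU) (N₁ : ℕ) (ι₁ : Type) [Finite ι₁] (R₁ : Reps A B N₁ ι₁) :
    ∃ n₀ : ℕ, n₀ ≠ 0 ∧ ∀ p : ℕ, p.Prime → ¬ p ∣ n₀ → 5 ≤ p ∧ ¬ (p : ℤ) ∣ absD A B ∧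
      ((∃ (P : Ideal (OO A B)) (V V' : ValuationSubring ℂ), IsPN p P ∧ IsPN p (cjI P) ∧
        OverI V P ∧ OverI V' (cjI P) ∧ (p : ℂ) ∈ V.nonunits ∧ (p : ℂ) ∈ V'.nonunits ∧
        (∀ (N₀ : ℕ) (ι : Type) (R : Reps A B N₀ ι), GRd V R) ∧
        ∀ (N₀ : ℕ) (ι : Type) (R : Reps A B N₀ ι), GRd V' R) ∨
      ((idl (A := A) (B := B) p).IsPrime ∧ ∃ V : ValuationSubring ℂ,
        OverI V (idl (A := A) (B := B) p) ∧ (p : ℂ) ∈ V.nonunits ∧
        ∀ (N₀ : ℕ) (ι : Type) (R : Reps A B N₀ ι), GRd V R)) := by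
  obtain ⟨m, hm, hgr⟩ := t_GRD A B hc T hGRB hALU N₁ ι₁ R₁
  have hD : (absD A B).natAbs ≠ 0 := by
    have h1 := hc.neg
    unfold absD
    omega
  refine ⟨6 * (absD A B).natAbs * m, by positivity, fun p hp hpn => ?_⟩
  have h6 : ¬ p ∣ 6 := fun h => hpn (h.mul_right _ |>.mul_right _)
  have hpD : ¬ p ∣ (absD A B).natAbs := fun h => hpn ((h.mul_left _).mul_right _)
  have hpm : ¬ p ∣ m := fun h => hpn (h.mul_left _)
  have h5 : 5 ≤ p := by
    by_contra h
    have h1 := hp.two_le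
    have h2 : p < 5 := by omega
    interval_cases p
    · exact h6 (by norm_num)
    · exact h6 (by norm_num)
    · exact absurd hp (by norm_num)
  refine ⟨h5, fun h => hpD (by rwa [← Int.natCast_dvd]), ?_⟩
  rcases t_PVD A B hc p hp (by omega) with ⟨P, hP⟩ | hP
  · left
    obtain ⟨V, hV, hpV⟩ := PVIx.exV_isPN hc hp hP
    have hP' := PVIx.isPN_cj hp hP
    obtain ⟨V', hV', hpV'⟩ := PVIx.exV_isPN hc hp hP'
    exact ⟨P, V, V', hP, hP', hV, hV', hpV, hpV', hgr V (PVIx.v_one hp hpV hpm),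
      hgr V' (PVIx.v_one hp hpV' hpm)⟩
  · right
    obtain ⟨V, hV, hpV⟩ := PVIx.exV_idl hc hp hP
    exact ⟨hP, V, hV, hpV, hgr V (PVIx.v_one hp hpV hpm)⟩

end

end Pool.Agent.TWI


end

section

/-!
# TWI: statement of module UNFI (helper56)
-/

set_option autoImplicit false

open NumberField IsDedekindDomain

namespace Pool.Agent.TWI

open _root_.MU3 Pool.Agent.MU3 Pool.Agent.MU3A Pool.Agent.MU3B Pool.Agent.RI Pool.Agent.RID
  Pool.Agent.MUX Pool.Agent.TWT

/-- UNFI: as `Pool.Agent.TWF.S_UNF`, `p` inert in `k`. -/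
def S_UNFI : Prop :=
  ∀ (p : ℕ) (A B : ℤ) (P : Ideal (OO A B)) (V : ValuationSubring ℂ) (f₀ : ℕ),
    SetI p A B P V f₀ → TorX A B →
    ∀ (ι : Type) [Finite ι] (R : Reps A B (p * f₀) ι), GRd V R →
    ∀ (K : IntermediateField ℚ ℂ) [FiniteDimensional ℚ K] (hk : kk A B ≤ K),
    ¬ p ∣ Module.finrank (kk A B) (IntermediateField.extendScalars hk) →
    ∀ M : ℕ, M ≠ 0 → (∀ x ∈ K, x ∈ (RF (idl M) : IntermediateField (kk A B) ℂ)) →
    (∀ Q : Ideal (𝓞 K), Q.IsPrime → (p : 𝓞 K) ∈ Q → (p : 𝓞 K) ∉ Q ^ 2) →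
    ∀ N : ℕ, N ≠ 0 → ¬ p ∣ N →
    ∃ f : ℕ, f ≠ 0 ∧ ¬ p ∣ f ∧ N ∣ f ∧ 2 * absD A B ∣ (f : ℤ) ∧
      ∀ x ∈ K, x ∈ (RF (idl f) : IntermediateField (kk A B) ℂ)

end Pool.Agent.TWI


end

section

/-!
# TWI, block A, module GRI (helper89): the lattices `L_i`, good reduction, the multipliers, `p` inert

Model: `Pool/Agent/TWT/PIS.lean` and `Pool/Agent/TWT/VPG.lean`.
-/

set_option autoImplicit false

open WeierstrassCurve Polynomial

namespace Pool.Agent.TWI

open _root_.MU3 Pool.Agent.MU3A Pool.Agent.MU3B Pool.Agent.MUX Pool.Agent.MUXU Pool.Agent.TWT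
open Pool.Agent.MUXV (GR InK tX HalfI)

noncomputable section

namespace GRI

variable {p : ℕ} {A B : ℤ} {P : Ideal (OO A B)} {V : ValuationSubring ℂ} {f : ℕ}

lemma cqF (h : CQ A B) : MUXF.CQ A B := ⟨h.hB, h.neg, h.fund1, h.fund0⟩

lemma sq_eq (x : OO A B) :
    x * x = ((2 * x.re + B * x.im : ℤ) : OO A B) * x - ((nm x : ℤ) : OO A B) := by
  have key : ∀ t n : ℤ, t = 2 * x.re + B * x.im → n = nm x →
      x * x = (t : OO A B) * x - (n : OO A B) := by
    intro t n ht hn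
    unfold nm at hn
    apply QuadraticAlgebra.ext
    · simp only [QuadraticAlgebra.re_mul, QuadraticAlgebra.re_sub, QuadraticAlgebra.re_intCast,
        QuadraticAlgebra.im_intCast, Int.cast_id]
      rw [ht, hn]
      ring
    · simp only [QuadraticAlgebra.im_mul, QuadraticAlgebra.im_sub, QuadraticAlgebra.re_intCast,
        QuadraticAlgebra.im_intCast, Int.cast_id]
      rw [ht]
      ring
  exact key _ _ rfl rfl

lemma val_le (h : CQ A B) (V : ValuationSubring ℂ) (x : OO A B) : V.valuation (emb x) ≤ 1 := by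
  obtain ⟨hmul, -, hsub, hint, -⟩ := Pool.Agent.MUXV.q_EMB A B (cqF h)
  rw [ValuationSubring.valuation_le_one_iff]
  by_contra hx
  have h1 := congrArg emb (sq_eq x)
  rw [hmul, hsub, hmul, hint, hint] at h1
  rcases V.mem_or_inv_mem (emb x) with h2 | h2
  · exact hx h2
  · have h0 : emb x ≠ 0 := by
      intro h0
      rw [h0] at hx
      exact hx V.zero_mem
    apply hx
    have h3 : emb x = ((2 * x.re + B * x.im : ℤ) : ℂ) - ((nm x : ℤ) : ℂ) * (emb x)⁻¹ := by
      field_simp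
      linear_combination h1
    rw [h3]
    exact sub_mem (intCast_mem V _) (mul_mem (intCast_mem V _) h2)

theorem p_mem (h : SetI p A B P V f) : ((p : ℕ) : OO A B) ∈ P := by
  rw [h.eP]
  exact Ideal.subset_span rfl

theorem val_lt (h : SetI p A B P V f) : V.valuation (p : ℂ) < 1 := by
  have h1 : emb ((p : ℕ) : OO A B) ∈ V.nonunits := (h.hV _).2 (p_mem h)
  rw [Pool.Agent.MUX.emb_natCast h.cq] at h1
  exact V.mem_nonunits_iff.1 h1

theorem val_int (h : SetI p A B P V f) (j : ℤ) (hj : ¬ (p : ℤ) ∣ j) :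
    V.valuation (j : ℂ) = 1 := by
  have h1 : ((j : ℤ) : OO A B) ∉ P := by
    intro hm
    have hc : IsCoprime (p : ℤ) j :=
      ((Nat.prime_iff_prime_int.1 h.pp).coprime_iff_not_dvd).2 hj
    obtain ⟨a, b, hab⟩ := hc
    apply h.hP.ne_top
    rw [Ideal.eq_top_iff_one]
    have h2 : (a : OO A B) * ((p : ℕ) : OO A B) + (b : OO A B) * ((j : ℤ) : OO A B) = 1 := by
      have h3 := congrArg (fun t : ℤ => (t : OO A B)) hab
      push_cast at h3
      exact h3
    rw [← h2]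
    exact P.add_mem (P.mul_mem_left _ (p_mem h)) (P.mul_mem_left _ hm)
  have h2 : ¬ V.valuation (j : ℂ) < 1 := by
    intro h3
    apply h1
    rw [← h.hV, Pool.Agent.MUX.emb_intCast h.cq]
    exact V.mem_nonunits_iff.2 h3
  have h4 : V.valuation (j : ℂ) ≤ 1 := (V.valuation_le_one_iff _).2 (intCast_mem V j)
  exact le_antisymm h4 (not_lt.1 h2)

theorem good (h : SetI p A B P V f) {ι : Type} (R : Reps A B (p * f) ι) (hR : GRd V R) (i : ι) :
    ∃ (W : WeierstrassCurve.Affine ℂ) (ξ : ℂ →+ W.Point),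
      GR V W (R.L i) (fun z => (R.L i).weierstrassP z - 1 / 12)
        (fun z => (R.L i).derivWeierstrassP z / 2) ξ := by
  have h5 := h.p5
  have h2 : V.valuation (2 : ℂ) = 1 := by
    have h3 := val_int h 2 (fun h4 => by
      have h6 := Int.le_of_dvd (by norm_num) h4
      omega)
    have h7 : ((2 : ℤ) : ℂ) = 2 := by norm_num
    rwa [h7] at h3
  refine Pool.Agent.MUXV.x_NGR V (R.L i) (R.nl i).nrm h2 (hR.kap i) ?_
  have h3 := hR.dis i
  have h4 : (1 : ℂ) + 1728 * Pool.Agent.MUX.kap (R.L i) = 12 * (R.L i).g₂ := by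
    unfold Pool.Agent.MUX.kap
    ring
  rwa [h4] at h3

theorem mult (h : SetI p A B P V f) {ι : Type} (R : Reps A B (p * f) ι) (hR : GRd V R) (i : ι) :
    muX R i ≠ 0 ∧ Isg (R.L R.i0) (R.L i) (muX R i) ∧ V.valuation (muX R i) = 1 ∧
      Odd (nI (R.b i)) ∧ V.valuation ((nI (R.b i) : ℕ) : ℂ) = 1 ∧
      ∀ z, muX R i * z ∈ (R.L i).lattice →
        ((nI (R.b i) : ℕ) : ℂ) * z ∈ (R.L R.i0).lattice := by
  have hC := h.cq
  have hn0 : nI (R.b i) ≠ 0 := Pool.Agent.MUX.nI_ne_zero hC (R.nl i).b_ne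
  have hnC : ((nI (R.b i) : ℕ) : ℂ) ≠ 0 := by exact_mod_cast hn0
  have ho := (R.nl i).om_ne
  have ho0 := (R.nl R.i0).om_ne
  have hmu : muX R i ≠ 0 := div_ne_zero (mul_ne_zero ho hnC) ho0
  have hisg : Isg (R.L R.i0) (R.L i) (muX R i) := by
    intro w hw
    obtain ⟨x, _, rfl⟩ := ((R.nl R.i0).mem w).1 hw
    refine ((R.nl i).mem _).2 ⟨((nI (R.b i) : ℕ) : OO A B) * x,
      Ideal.mul_mem_right _ _ (Pool.Agent.MUX.nI_mem hC (R.nl i).b_ne), ?_⟩
    rw [Pool.Agent.MUX.emb_mul hC, Pool.Agent.MUX.emb_natCast hC]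
    unfold muX
    field_simp
  have hker : ∀ z, muX R i * z ∈ (R.L i).lattice →
      ((nI (R.b i) : ℕ) : ℂ) * z ∈ (R.L R.i0).lattice := by
    intro z hz
    obtain ⟨x, _, hxz⟩ := ((R.nl i).mem _).1 hz
    refine ((R.nl R.i0).mem _).2 ⟨x, by rw [R.b0]; exact Submodule.mem_top, ?_⟩
    have h1 : R.om i * (((nI (R.b i) : ℕ) : ℂ) * z) = R.om i * (R.om R.i0 * emb x) := by
      calc R.om i * (((nI (R.b i) : ℕ) : ℂ) * z) = R.om R.i0 * (muX R i * z) := by
            unfold muX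
            field_simp
        _ = _ := by
            rw [hxz]
            ring
    exact mul_left_cancel₀ ho h1
  have hodd : Odd (nI (R.b i)) := by
    have h1 : (2 : ℤ) ∣ (f : ℤ) := dvd_trans (dvd_mul_right 2 _) h.fD
    have h2 : 2 ∣ f := by exact_mod_cast h1
    exact Nat.coprime_two_right.1 ((R.cop i).coprime_dvd_right (dvd_mul_of_dvd_right h2 p))
  have hvn : V.valuation ((nI (R.b i) : ℕ) : ℂ) = 1 := by
    have h1 : ¬ (p : ℤ) ∣ ((nI (R.b i) : ℕ) : ℤ) := by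
      intro h2
      have h3 : p ∣ nI (R.b i) := by exact_mod_cast h2
      have h4 : p ∣ 1 := by
        rw [← (R.cop i)]
        exact Nat.dvd_gcd h3 (dvd_mul_right p f)
      exact h.pp.one_lt.ne' (Nat.dvd_one.1 h4)
    have h5 := val_int h _ h1
    rwa [Int.cast_natCast] at h5
  exact ⟨hmu, hisg, Pool.Agent.MUXV.x_MUN V (R.L R.i0) (R.L i) (1 / 12) (1 / 12) (muX R i)
    (nI (R.b i)) (good h R hR R.i0) (good h R hR i) hmu hisg hodd hvn hker, hodd, hvn, hker⟩

theorem gra (h : SetI p A B P V f) {ι : Type} (R : Reps A B (p * f) ι) (hR : GRd V R) (i : ι) :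
    ∃ a2 a4 : V, GRa V (R.L i) a2 a4 := by
  obtain ⟨W, ξ, G⟩ := good h R hR i
  exact ⟨⟨W.a₂, (V.valuation_le_one_iff _).1 G.int.a2⟩, ⟨W.a₄, (V.valuation_le_one_iff _).1 G.int.a4⟩,
    W, ξ, G, rfl, rfl⟩

theorem val_emb (h : SetI p A B P V f) (x : OO A B) :
    V.valuation (emb x) ≤ 1 ∧ (V.valuation (emb x) = 1 ↔ x ∉ P) := by
  have h1 := val_le h.cq V x
  refine ⟨h1, ?_⟩
  rw [← h.hV x, ValuationSubring.mem_nonunits_iff, not_lt]
  exact ⟨fun h2 => h2.ge, fun h2 => le_antisymm h1 h2⟩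

end GRI

theorem i_GRI : S_GRI := by
  intro p A B P V f h ι R hR
  exact ⟨fun i => GRI.gra h R hR i, GRI.val_lt h, GRI.val_int h, fun x => GRI.val_emb h x,
    fun i => GRI.mult h R hR i⟩

end

end Pool.Agent.TWI


end

section

/-!
# TWI, block B: module RAMGI (helper11; after `Pool/Agent/TWT/RAMG.lean` of helper71)
-/

set_option autoImplicit false

open WeierstrassCurve Polynomial NumberField IsDedekindDomain

namespace Pool.Agent.TWI

open _root_.MU3 Pool.Agent.MU3A Pool.Agent.MU3B Pool.Agent.MU3C Pool.Agent.RI Pool.Agent.RID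
open Pool.Agent.MUX Pool.Agent.MUXU Pool.Agent.MUXW Pool.Agent.TWT
open OnePoint

noncomputable section

namespace RAMGI

variable {A B : ℤ}

/-- `p` is not in `P²`, `P = (p)` -/
theorem not_sq {p : ℕ} (hp : p.Prime) : ((p : ℕ) : OO A B) ∉ (idl (A := A) (B := B) p) ^ 2 := by
  intro hmem
  have h0 : (idl (A := A) (B := B) p) ^ 2 = Ideal.span {((p : ℕ) : OO A B) ^ 2} := by
    show (Ideal.span {((p : ℕ) : OO A B)}) ^ 2 = _
    rw [Ideal.span_singleton_pow]
  rw [h0, Ideal.mem_span_singleton] at hmem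
  obtain ⟨c, hc⟩ := hmem
  have h1 : ((p : ℕ) : OO A B) ^ 2 * c = (((p : ℤ) ^ 2 : ℤ) : OO A B) * c := by push_cast; ring
  have h2 := congrArg QuadraticAlgebra.re (hc.trans h1)
  have h3 : ((((p : ℤ) ^ 2 : ℤ) : OO A B) * c).re = (p : ℤ) ^ 2 * c.re := by
    rw [QuadraticAlgebra.re_mul]
    have e1 : ((((p : ℤ) ^ 2 : ℤ) : OO A B)).re = (p : ℤ) ^ 2 := QuadraticAlgebra.re_intCast _
    have e2 : ((((p : ℤ) ^ 2 : ℤ) : OO A B)).im = 0 := QuadraticAlgebra.im_intCast _
    rw [e1, e2]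
    ring
  have h4 : ((p : ℕ) : OO A B).re = p := by simp
  rw [h3, h4] at h2
  have hp0 : (p : ℤ) ≠ 0 := by exact_mod_cast hp.ne_zero
  have h5 : (p : ℤ) ∣ 1 := by
    refine ⟨c.re, ?_⟩
    have h6 : (p : ℤ) * 1 = p * (p * c.re) := by linear_combination h2
    exact mul_left_cancel₀ hp0 h6
  have h7 : p ∣ 1 := by exact_mod_cast h5
  exact hp.one_lt.ne' (Nat.dvd_one.1 h7)

end RAMGI

open _root_.Pool.Agent.TWI.RAMGI MUXE.RamE Pool.Agent.MU3E.RAM MUXE in
theorem t_RAMGI (h : S_VPGI) : S_RAMGI := by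
  intro p A B P V f hS F _ _ htriv y hy hy0
  obtain ⟨hvp, hp0, hvP, -, -, -, -⟩ := h p A B P V f hS
  obtain ⟨⟨φ, hφ⟩, hinj, hded, hpos, hint⟩ := MUXE.te_RNG A B hS.cq
  have hw0 : IsIntegral ℤ (wC A B) := by
    rw [hint _ (wC_mem A B)]
    exact ⟨⟨0, 1⟩, by simp [emb]⟩
  have hfd : FiniteDimensional ℚ (kk A B) :=
    IntermediateField.adjoin.finiteDimensional hw0.tower_top
  have hk : NumberField (kk A B) := ⟨⟩
  have hFQ : FiniteDimensional ℚ F := FiniteDimensional.trans ℚ (kk A B) F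
  have hF : NumberField F := ⟨⟩
  have hIn : ∀ x : OO A B, IsIntegral ℤ (ek x) := by
    intro x
    have h2 : IsIntegral ℤ (emb x) := (hint (emb x) (Pool.Agent.MU3A.emb_mem x)).mpr ⟨x, rfl⟩
    have h3 : algebraMap (kk A B) ℂ (ek x) = emb x := rfl
    rw [← h3] at h2
    exact (isIntegral_algebraMap_iff (FaithfulSMul.algebraMap_injective (kk A B) ℂ)).mp h2
  -- the ring isomorphism
  let e : OO A B →+* 𝓞 (kk A B) :=
    { toFun := fun x => ⟨ek x, hIn x⟩
      map_one' := by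
        apply RingOfIntegers.ext
        apply Subtype.ext
        change emb 1 = 1
        rw [← hφ, map_one]
      map_mul' := by
        intro a b
        apply RingOfIntegers.ext
        apply Subtype.ext
        change emb (a * b) = emb a * emb b
        rw [← hφ, ← hφ, ← hφ, map_mul]
      map_zero' := by
        apply RingOfIntegers.ext
        apply Subtype.ext
        change emb 0 = 0
        rw [← hφ, map_zero]
      map_add' := by
        intro a b
        apply RingOfIntegers.ext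
        apply Subtype.ext
        change emb (a + b) = emb a + emb b
        rw [← hφ, ← hφ, ← hφ, map_add] }
  have he : ∀ x, (((e x : 𝓞 (kk A B)) : kk A B) : ℂ) = emb x := fun x => rfl
  have hesurj : Function.Surjective e := by
    intro x
    have h2 : IsIntegral ℤ ((x : kk A B) : ℂ) :=
      (RingOfIntegers.isIntegral_coe x).map (Algebra.ofId (kk A B) ℂ |>.restrictScalars ℤ)
    obtain ⟨z, hz⟩ := (hint _ (x : kk A B).2).mp h2
    refine ⟨z, ?_⟩
    apply RingOfIntegers.ext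
    apply Subtype.ext
    rw [he, hz]
  have heinj : Function.Injective e := by
    rw [injective_iff_map_eq_zero]
    intro x hx
    apply hinj
    rw [← he, hx]
    rfl
  have hpC : emb ((p : ℕ) : OO A B) = (p : ℂ) := by rw [← hφ, map_natCast]
  have hpne : (p : ℂ) ≠ 0 := by
    intro h
    exact hp0 (by rw [h, map_zero])
  obtain ⟨w, hw⟩ := exists_prime (V := V) (algebraMap F ℂ)
    (z := ((p : ℕ) : 𝓞 F)) (by
      intro h
      have h1 := congrArg (fun t : 𝓞 F => algebraMap F ℂ (t : F)) h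
      have h2 : ((p : ℕ) : ℂ) = 0 := by
        simpa using h1
      exact hpne h2) (by
      have h2 : (algebraMap F ℂ) ((((p : ℕ) : 𝓞 F)) : F) = (p : ℂ) := by simp
      rw [h2]
      exact hvp)
  have hcomap : (w.asIdeal.under (𝓞 (kk A B))).comap e = P := by
    ext z
    have hxw : z ∈ (w.asIdeal.under (𝓞 (kk A B))).comap e ↔ V.valuation (emb z) < 1 := by
      exact hw (algebraMap (𝓞 (kk A B)) (𝓞 F) (e z))
    rw [hxw]
    exact (hvP z).2
  have hmap : P.map e = w.asIdeal.under (𝓞 (kk A B)) := by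
    rw [← hcomap]
    exact Ideal.map_comap_of_surjective e hesurj _
  have hep : e ((p : ℕ) : OO A B) = ((p : ℕ) : 𝓞 (kk A B)) := map_natCast e p
  have hq1 : ((p : ℕ) : 𝓞 (kk A B)) ∈ w.asIdeal.under (𝓞 (kk A B)) := by
    rw [← hmap, ← hep]
    refine Ideal.mem_map_of_mem e ?_
    rw [hS.eP]
    exact Ideal.mem_span_singleton_self _
  have hq2 : ((p : ℕ) : 𝓞 (kk A B)) ∉ (w.asIdeal.under (𝓞 (kk A B))) ^ 2 := by
    rw [← hmap, ← Ideal.map_pow, ← hep, Ideal.mem_map_iff_of_surjective e hesurj]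
    rintro ⟨z, hz, hz2⟩
    rw [heinj hz2] at hz
    rw [hS.eP] at hz
    exact not_sq hS.pp hz
  have hord := unramP (algebraMap F ℂ) hw hq1 hq2 (by
    intro σ hσ
    apply htriv σ
    intro x hx
    exact hσ x hx)
  obtain ⟨n, hn⟩ := pow_unif (algebraMap F ℂ) hw hord (x := (⟨y, hy⟩ : F))
    (fun h => hy0 (congrArg Subtype.val h))
  refine ⟨n, ?_⟩
  have h5 : (algebraMap F ℂ) (algebraMap (kk A B) F (((p : ℕ) : 𝓞 (kk A B)) : kk A B)) = (p : ℂ) := by
    simp
  rw [h5] at hn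
  exact hn

end

end Pool.Agent.TWI


end

section

/-!
# TWI, block C4, module YALV: the values are algebraic (helper54)
-/

set_option autoImplicit false

namespace Pool.Agent.TWI

open _root_.MU3 Pool.Agent.MU3A Pool.Agent.MU3B Pool.Agent.MUX
open OnePoint

open Pool.Agent.NST in
/-- (YALV) -/
theorem t_YALV : S_YALV := by
  intro A B hC hX n hn ι _ R e he r hr her kk hkk x y
  have h := Pool.Agent.MUXY.y_ALP
  have hn0 : n ≠ 0 := by omega
  have hbot : idl (A := A) (B := B) n ≠ ⊥ := ALV.ne_bot hC hn0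
  have htop : idl (A := A) (B := B) n ≠ ⊤ := ALV.ne_top hC hn
  have hval := fun i => (h A B hC hX n ι inferInstance R _ e hbot htop he
    (fun i => ALV.cop R i) r hr her i x y).2
  have hsum : PhiK R e kk x y / R.om R.i0 =
      ∑ i, kk i * (PhiI (R.b i) e x y / R.om R.i0) := by
    rw [PhiK, Finset.sum_div]
    refine Finset.sum_congr rfl fun i _ => ?_
    rw [mul_div_assoc]
  rw [hsum]
  refine ALV.sum _ _ fun i _ => ?_
  have hk : IsAlgebraic ℚ (kk i) := by
    refine IsAlgebraic.of_pow (n := r) (Nat.pos_of_ne_zero hr) ?_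
    rw [hkk i]
    exact isAlgebraic_one
  exact hk.mul (hval i)

end Pool.Agent.TWI


end

section

/-!
# TWI, block C4, module YVAL: conjugation of the values (helper54, after the module VAL of MUX-NS)
-/

set_option autoImplicit false

namespace Pool.Agent.TWI

open _root_.MU3 Pool.Agent.MU3A Pool.Agent.MU3B Pool.Agent.RI Pool.Agent.MUX Pool.Agent.MUXU
open OnePoint
open Pool.Agent.MUXY (ActN Dn)
open Pool.Agent.NST (ActT KIn)

noncomputable section

open Pool.Agent.NST.VAL in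
/-- (YVAL) -/
theorem t_YVAL : S_YVAL := by
  intro A B n hQ hn ι R e he m hm hfm σ c d hT hσ i x y hx hy
  have h := Pool.Agent.MUXY.y_RA1
  have hcop := R.cop i
  have hn0 : MUX.nI (R.b i) ≠ 0 := by
    intro h0
    rw [h0, Nat.coprime_zero_left] at hcop
    omega
  have hnC : ((MUX.nI (R.b i) : ℕ) : ℂ) ≠ 0 := Nat.cast_ne_zero.2 hn0
  have hen : e ((MUX.nI (R.b i) : ℕ) : OO A B) ≠ 0 := (he.supp _).2 (coprime_idl hcop)
  have hg : (idl (A := A) (B := B) n) ≠ ⊤ := idl_ne_top (by omega)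
  have hmg : ((m : ℕ) : OO A B) ∈ idl (A := A) (B := B) n :=
    Ideal.mem_span_singleton.2 (Nat.cast_dvd_cast hfm)
  have hd := hT.sgn i
  have hd2 : ((d i : ℤ) : ℂ) * ((d i : ℤ) : ℂ) = 1 := by
    rcases hd with hd | hd <;> rw [hd] <;> norm_num
  have hfe : (fun x => σ (e x)) = e := funext hσ
  have key : ∀ x : OnePoint ℚ, Dn m x →
      e c * σ (MUX.PhiI (R.b i) e ∞ x / R.om i) = d i * (MUX.PhiI (R.b i) e ∞ x / R.om i) := by
    intro x hx
    induction x using OnePoint.rec with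
    | infty => rw [phi_infty, zero_div, map_zero, mul_zero, mul_zero]
    | coe r =>
      have h1 := h A B (MUXY.cqF hQ) σ m (MUX.sp c) (R.b i) (R.b i) (R.L i) (R.L i) (R.om i)
        (R.om i) (d i * emb c) (fun x => ((d i : ℤ) : OO A B) * c * x)
        (MUXY.liF (R.nl i).toIsLI) (MUXY.liF (R.nl i).toIsLI) (hT.act i) (isF hQ _ _ _)
        hT.zeta (idl (A := A) (B := B) n) e (MUXY.eiF he) hg hm hmg r.den r.den_nz
        (hx r rfl) r.num
      rw [Rat.num_div_den, hfe, hσ, hσ] at h1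
      have h2 : e (((d i : ℤ) : OO A B) * c * ((MUX.nI (R.b i) : ℕ) : OO A B)) =
          d i * e c * e ((MUX.nI (R.b i) : ℕ) : OO A B) := by
        rw [he.mul, he.mul, e_sgn he hd]
      have h3 : ((MUX.nI (R.b i) : ℕ) : ℂ) * e ((MUX.nI (R.b i) : ℕ) : OO A B) *
          ((d i : ℂ) * e c * σ (MUX.PhiI (R.b i) e ∞ (r : OnePoint ℚ) / R.om i)) =
          ((MUX.nI (R.b i) : ℕ) : ℂ) * e ((MUX.nI (R.b i) : ℕ) : OO A B) *
          (MUX.PhiI (R.b i) e ∞ (r : OnePoint ℚ) / R.om i) := by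
        have h4 := h1
        change ((MUX.nI (R.b i) : ℕ) : ℂ) *
          e (((d i : ℤ) : OO A B) * c * ((MUX.nI (R.b i) : ℕ) : OO A B)) *
            σ (MUX.PhiI (R.b i) e ∞ (r : OnePoint ℚ) / R.om i) =
          ((MUX.nI (R.b i) : ℕ) : ℂ) * e ((MUX.nI (R.b i) : ℕ) : OO A B) *
            (MUX.PhiI (R.b i) e ∞ (r : OnePoint ℚ) / R.om i) at h4
        rw [h2] at h4
        linear_combination h4
      have h5 := mul_left_cancel₀ (mul_ne_zero hnC hen) h3
      linear_combination (d i : ℂ) * h5 -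
        e c * σ (MUX.PhiI (R.b i) e ∞ (r : OnePoint ℚ) / R.om i) * hd2
  rw [phi_sub (R.b i) e x y, sub_div, map_sub, mul_sub, key x hx, key y hy]
  ring

end

end Pool.Agent.TWI


end

section

/-!
# TWI, module UNFI: a field unramified above the inert prime `p`, of degree prime to `p` over `k`, has a level prime to `p` (helper56)

As `Pool/Agent/TWF/UNF.lean`. Let `F = RF (idl (f p)) ≥ K`. The group `{σ : σ = (c), c ≡ 1 modulo f}` has at most `p² - 1`
elements and contains the inertia group at `V`, whose order is divisible by `p² - 1`, because `F` contains the element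
`x(z₀ + R) - x(z₀)`, `z₀` of order `f`, `R ∈ E[p]`, of the value `v(t(R))`, `v(t(R))^(p² - 1) = v(p)` (`S_KRI`).
-/

set_option autoImplicit false

open WeierstrassCurve Polynomial NumberField IsDedekindDomain

namespace Pool.Agent.TWI

open _root_.MU3 Pool.Agent.MU3A Pool.Agent.MU3B Pool.Agent.MU3C Pool.Agent.RI Pool.Agent.RID
open Pool.Agent.MUX Pool.Agent.MUXU Pool.Agent.MUXW Pool.Agent.TWT
open Pool.Agent.TWF (IGV unf_w unf_nf unf_one unf_lev)
open Pool.Agent.MU3V (cls Sub GD algDF)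
open Pool.Agent.MUXV (GR InK tX)
open OnePoint

noncomputable section

namespace UNFI

variable {p : ℕ} {A B : ℤ} {P : Ideal (OO A B)} {V : ValuationSubring ℂ} {f n : ℕ} {ι : Type}

open Pool.Agent.MU3E.RAM in
/-- if the value `v(y)` of an element of `F` has `v(y)^N = v(p)` then `N` divides the order of the inertia group -/
theorem dvd_card (hC : CQ A B) (hp : p.Prime) (hpP : ((p : ℕ) : OO A B) ∈ P) (hV : OverI V P)
    (hsplit : ((p : ℕ) : OO A B) ∉ P ^ 2)
    (F : IntermediateField (kk A B) ℂ) [FiniteDimensional (kk A B) F] [IsGalois (kk A B) F]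
    (N : ℕ) (hN : N ≠ 0) (y : F) (hy : V.valuation (y : ℂ) ^ N = V.valuation (p : ℂ)) :
    N ∣ Nat.card (IGV V F) := by
  have hF : NumberField F := unf_nf hC F
  obtain ⟨w, hw, hord⟩ := unf_w hC hp hpP hV hsplit F
  have hpC : (p : ℂ) ≠ 0 := by exact_mod_cast hp.ne_zero
  have hvp0 : V.valuation (p : ℂ) ≠ 0 := (V.valuation.ne_zero_iff).2 hpC
  have hy0 : (y : ℂ) ≠ 0 := by
    intro h0
    rw [h0, map_zero, zero_pow hN] at hy
    exact hvp0 hy.symm
  have hyF : y ≠ 0 := by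
    rintro rfl
    exact hy0 rfl
  have hpF : (p : F) ≠ 0 := by exact_mod_cast hp.ne_zero
  -- the quotient is a unit
  have h1 : V.valuation ((algebraMap F ℂ) (y ^ N / (p : F))) = 1 := by
    have h2 : (algebraMap F ℂ) (y ^ N / (p : F)) = (y : ℂ) ^ N / (p : ℂ) := by
      rw [map_div₀, map_pow, map_natCast]
      rfl
    rw [h2, map_div₀, map_pow, hy, div_self hvp0]
  have h2 : V.valuation ((algebraMap F ℂ) (y ^ N / (p : F))⁻¹) = 1 := by
    rw [map_inv₀, map_inv₀, h1, inv_one]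
  have h3 : w.valuation F (y ^ N / (p : F)) ≤ 1 := le_ord (algebraMap F ℂ) hw h1.le
  have h4 : w.valuation F (y ^ N / (p : F))⁻¹ ≤ 1 := le_ord (algebraMap F ℂ) hw h2.le
  have h5 : w.valuation F (y ^ N / (p : F)) = 1 := by
    refine le_antisymm h3 ?_
    rw [map_inv₀] at h4
    have h6 : w.valuation F (y ^ N / (p : F)) ≠ 0 :=
      ((w.valuation F).ne_zero_iff).2 (div_ne_zero (pow_ne_zero _ hyF) hpF)
    exact (inv_le_one₀ (zero_lt_iff.2 h6)).1 h4
  have h6 : w.valuation F y ^ N = w.valuation F (p : F) := by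
    have h7 : w.valuation F (p : F) ≠ 0 := ((w.valuation F).ne_zero_iff).2 hpF
    rw [map_div₀, map_pow, div_eq_one_iff_eq h7] at h5
    exact h5
  rw [← h6] at hord
  have h0 : w.valuation F y ≠ 0 := ((w.valuation F).ne_zero_iff).2 hyF
  rw [← WithZero.exp_log h0, ← WithZero.exp_nsmul, ← WithZero.exp_nsmul, WithZero.exp_inj,
    nsmul_eq_mul, nsmul_eq_mul] at hord
  have h7 : (N : ℤ) ∣ (Nat.card (IGV V F) : ℤ) :=
    ⟨-WithZero.log (w.valuation F y), by linear_combination hord⟩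
  exact_mod_cast h7

theorem val_int (h : SetI p A B P V f) (j : ℤ) (hj : ¬ (p : ℤ) ∣ j) :
    V.valuation (j : ℂ) = 1 := by
  have hpm : ((p : ℕ) : OO A B) ∈ P := by
    rw [h.eP]
    exact Ideal.mem_span_singleton_self _
  have h1 : ((j : ℤ) : OO A B) ∉ P := by
    intro hm
    have hc : IsCoprime (p : ℤ) j :=
      ((Nat.prime_iff_prime_int.1 h.pp).coprime_iff_not_dvd).2 hj
    obtain ⟨a, b, hab⟩ := hc
    apply h.hP.ne_top
    rw [Ideal.eq_top_iff_one]
    have h2 : (a : OO A B) * ((p : ℕ) : OO A B) + (b : OO A B) * ((j : ℤ) : OO A B) = 1 := by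
      have h3 := congrArg (fun t : ℤ => (t : OO A B)) hab
      push_cast at h3
      exact h3
    rw [← h2]
    exact P.add_mem (P.mul_mem_left _ hpm) (P.mul_mem_left _ hm)
  have h2 : ¬ V.valuation (j : ℂ) < 1 := by
    intro h3
    apply h1
    rw [← h.hV, Pool.Agent.MUX.emb_intCast h.cq]
    exact V.mem_nonunits_iff.2 h3
  have h4 : V.valuation (j : ℂ) ≤ 1 := (V.valuation_le_one_iff _).2 (intCast_mem V j)
  exact le_antisymm h4 (not_lt.1 h2)

theorem good (h : SetI p A B P V f) (R : Reps A B n ι) (hR : GRd V R) (i : ι) :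
    ∃ (W : WeierstrassCurve.Affine ℂ) (ξ : ℂ →+ W.Point),
      GR V W (R.L i) (fun z => (R.L i).weierstrassP z - 1 / 12)
        (fun z => (R.L i).derivWeierstrassP z / 2) ξ := by
  have h5 := h.p5
  have h2 : V.valuation (2 : ℂ) = 1 := by
    have h3 := val_int h 2 (fun h4 => by
      have h6 := Int.le_of_dvd (by norm_num) h4
      omega)
    have h7 : ((2 : ℤ) : ℂ) = 2 := by norm_num
    rwa [h7] at h3
  refine Pool.Agent.MUXV.x_NGR V (R.L i) (R.nl i).nrm h2 (hR.kap i) ?_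
  have h3 := hR.dis i
  have h4 : (1 : ℂ) + 1728 * Pool.Agent.MUX.kap (R.L i) = 12 * (R.L i).g₂ := by
    unfold Pool.Agent.MUX.kap
    ring
  rwa [h4] at h3

/-- an element of the inertia group is trivial on the Hilbert class field -/
theorem trH (hC : CQ A B) (T : TorX A B) (R : Reps A B n ι) (hR : GRd V R)
    {m : Ideal (OO A B)} (hm : m ≠ ⊥) (σ : RF m ≃ₐ[kk A B] RF m) (hσ : σ ∈ IGV V (RF m)) :
    TrH σ := by
  obtain ⟨s, hs, hsσ⟩ := Pool.Agent.MUXJ.LEV.lift T hm σ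
  -- the values `kap`
  have hkap : ∀ (b : Ideal (OO A B)) (L : PeriodPair) (om : ℂ), IsNL b L om →
      ∃ i, kap L = kap (R.L i) := by
    intro b L om hL
    obtain ⟨i, x, y, hx, hy, hxy⟩ := R.surj b hL.b_ne
    refine ⟨i, ?_⟩
    have h1 := Pool.Agent.MUXY.ty_SAM Pool.Agent.MUXF.xf_ALG A B hC b (R.b i) L (R.L i) om (R.om i)
      x y hL (R.nl i) hx hy hxy
    obtain ⟨-, -, h2, -⟩ := ta_SCP L (R.L i) 1 one_ne_zero (fun u => by rw [one_mul]; exact h1 u)
    unfold kap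
    rw [h2]
    norm_num
  have hfix : ∀ (b : Ideal (OO A B)) (L : PeriodPair) (om : ℂ), IsNL b L om →
      s (kap L) = kap L := by
    intro b L om hL
    obtain ⟨a, -, ha⟩ := T.act m hm s hs
    obtain ⟨b', L', om', mu, hL', hact⟩ := ha b L om hL
    obtain ⟨i, hi⟩ := hkap b L om hL
    obtain ⟨j, hj⟩ := hkap b' L' om' hL'
    have hmem : kap L ∈ (RF m : IntermediateField (kk A B) ℂ) :=
      IntermediateField.subset_adjoin _ _ ⟨b, L, om, hL, Or.inl rfl⟩
    have h1 := hσ ⟨kap L, hmem⟩ (by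
      show V.valuation (kap L) ≤ 1
      rw [hi, hR.kap i])
    rw [← hsσ, ← hact.kap] at h1
    have h2 : j = i := hR.inj j i (by
      rw [← hi, ← hj]
      exact h1)
    rw [← hact.kap, hj, h2, ← hi]
  intro x hx
  have h1 : s (x : ℂ) = (x : ℂ) := by
    have h2 : ∀ y ∈ (RF (⊤ : Ideal (OO A B)) : IntermediateField (kk A B) ℂ), s y = y := by
      intro y hy
      induction hy using IntermediateField.adjoin_induction with
      | mem y hy =>
        obtain ⟨b, L, om, hL, rfl | ⟨z, hz, hzL, rfl⟩⟩ := hy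
        · exact hfix b L om hL
        · exfalso
          apply hzL
          have h3 := hz 1 Submodule.mem_top
          rwa [Pool.Agent.MUX.emb_one hC, one_mul] at h3
      | algebraMap y =>
        have h3 := hsσ (algebraMap (kk A B) (RF m) y)
        rw [σ.commutes] at h3
        exact h3
      | add y z _ _ hy hz => rw [map_add, hy, hz]
      | inv y _ hy => rw [map_inv₀, hy]
      | mul y z _ _ hy hz => rw [map_mul, hy, hz]
    exact h2 _ hx
  apply Subtype.ext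
  rw [← hsσ, h1]

/-- the inertia group is trivial on `K` -/
theorem fixes (hC : CQ A B) (hp : p.Prime) (hpP : ((p : ℕ) : OO A B) ∈ P) (hV : OverI V P)
    (hsplit : ((p : ℕ) : OO A B) ∉ P ^ 2) (T : TorX A B)
    (K : IntermediateField ℚ ℂ) [FiniteDimensional ℚ K] (hk : kk A B ≤ K)
    {m : Ideal (OO A B)} (hm : m ≠ ⊥)
    (hK : ∀ x ∈ K, x ∈ (RF m : IntermediateField (kk A B) ℂ))
    (hun : ∀ Q : Ideal (𝓞 K), Q.IsPrime → (p : 𝓞 K) ∈ Q → (p : 𝓞 K) ∉ Q ^ 2)
    (σ : RF m ≃ₐ[kk A B] RF m) (hσ : σ ∈ IGV V (RF m)) (x : RF m) (hx : (x : ℂ) ∈ K) :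
    σ x = x := by
  obtain ⟨hgal, hfin, -⟩ := Pool.Agent.MUXJ.t_GAL A B T m hm K hk hK
  set K' : IntermediateField (kk A B) ℂ := IntermediateField.extendScalars hk with hK'
  have hle : K' ≤ RF m := fun y hy => hK y hy
  -- the ramification hypothesis for `K'`
  let e0 : K ≃+* K' :=
    { toFun := fun y => ⟨y.1, y.2⟩
      invFun := fun y => ⟨y.1, y.2⟩
      left_inv := fun _ => rfl
      right_inv := fun _ => rfl
      map_mul' := fun _ _ => rfl
      map_add' := fun _ _ => rfl }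
  let e : 𝓞 K' ≃+* 𝓞 K := RingOfIntegers.mapRingEquiv e0.symm
  have hun' : ∀ Q : Ideal (𝓞 K'), Q.IsPrime → (p : 𝓞 K') ∈ Q → (p : 𝓞 K') ∉ Q ^ 2 := by
    intro Q hQ hpQ hpQ2
    have hQ' : (Q.map e).IsPrime := Ideal.map_isPrime_of_equiv e
    refine hun (Q.map e) hQ' ?_ ?_
    · have h1 := Ideal.mem_map_of_mem e hpQ
      rwa [map_natCast] at h1
    · have h1 := Ideal.mem_map_of_mem e hpQ2
      rwa [map_natCast, Ideal.map_pow] at h1
  let _ : Algebra K' (RF m) := (IntermediateField.inclusion hle).toRingHom.toAlgebra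
  have _ : IsScalarTower (kk A B) K' (RF m) := IsScalarTower.of_algebraMap_eq fun y => rfl
  let σ' : K' ≃ₐ[kk A B] K' := σ.restrictNormal K'
  have hσ' : ∀ y : K', ((σ' y : K') : ℂ) = ((σ ⟨y.1, hle y.2⟩ : RF m) : ℂ) := by
    intro y
    have h1 := σ.restrictNormal_commutes K' y
    exact congrArg Subtype.val h1
  have h1 : σ' = 1 := by
    refine unf_one hC hp hpP hV hsplit K' hun' σ' ?_
    intro y hy
    rw [hσ']
    exact hσ ⟨y.1, hle y.2⟩ hy
  have h2 := hσ' ⟨x.1, hx⟩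
  rw [h1] at h2
  exact Subtype.ext h2.symm

/-- `absD ≥ 3`, so `f` does not divide `2` in `O` -/
theorem not_dvd_two (h : SetI p A B P V f) : ¬ ((f : ℕ) : OO A B) ∣ 2 := by
  rintro ⟨t, ht⟩
  have h1 := congrArg QuadraticAlgebra.re ht
  have h2 : (((f : ℕ) : OO A B) * t).re = (f : ℤ) * t.re := by
    rw [QuadraticAlgebra.re_mul]
    have e1 : (((f : ℕ) : OO A B)).re = (f : ℤ) := by simp
    have e2 : (((f : ℕ) : OO A B)).im = 0 := by simp
    rw [e1, e2]
    ring
  have h3 : (2 : OO A B).re = 2 := by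
    have h4 : (2 : OO A B) = ((2 : ℤ) : OO A B) := by norm_num
    rw [h4]
    exact QuadraticAlgebra.re_intCast _
  rw [h2, h3] at h1
  have h4 : (f : ℤ) ∣ 2 := ⟨t.re, h1⟩
  have h5 : 2 * absD A B ∣ 2 := h.fD.trans h4
  have h6 := Int.le_of_dvd (by norm_num) h5
  have h7 := h.cq.neg
  have h8 := h.cq.hB
  unfold absD at h6
  rcases h8 with h8 | h8
  · rw [h8] at h6 h7
    omega
  · rw [h8] at h6 h7
    omega

/-- the automorphisms which act trivially on `E[f]` are in the inertia group at `V` -/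
theorem inert (hKRI : S_KRI) (f₀ : ℕ) (h₀ : SetI p A B P V f₀) (h : SetI p A B P V f)
    (T : TorX A B) (R : Reps A B (p * f₀) ι) (hR : GRd V R)
    (σ : (RF (idl (f * p)) : IntermediateField (kk A B) ℂ) ≃ₐ[kk A B] RF (idl (f * p)))
    (c : OO A B) (hc : ActH σ ((f * p : ℕ) : OO A B) c) (hc1 : ((f : ℕ) : OO A B) ∣ c - 1) :
    σ ∈ IGV V (RF (idl (f * p))) := by
  have hC := h.cq
  have hp := h.pp
  have hpP : ((p : ℕ) : OO A B) ∈ P := by
    rw [h.eP]
    exact Ideal.mem_span_singleton_self _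
  have hsplit : ((p : ℕ) : OO A B) ∉ P ^ 2 := by
    rw [h.eP]
    exact RAMGI.not_sq hp
  have hm0 : ((f * p : ℕ) : OO A B) ≠ 0 :=
    Pool.Agent.MUX.natCast_ne_zero' hC (mul_ne_zero h.f0 hp.ne_zero)
  have hfO : ((f : ℕ) : OO A B) ≠ 0 := Pool.Agent.MUX.natCast_ne_zero' hC h.f0
  have hmI : idl (A := A) (B := B) (f * p) ≠ ⊥ := Pool.Agent.MUXJ.LEV.idl_ne
    (mul_ne_zero h.f0 hp.ne_zero)
  have hL0 : IsNL (⊤ : Ideal (OO A B)) (R.L R.i0) (R.om R.i0) := by
    have h1 := R.nl R.i0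
    rwa [R.b0] at h1
  have hom := hL0.om_ne
  have hfin := T.fin _ hmI
  have hgal := T.gal _ hmI
  have hle : (RF (idl f) : IntermediateField (kk A B) ℂ) ≤ RF (idl (f * p)) :=
    T.mono _ _ (Pool.Agent.MUXJ.LEV.idl_le (Dvd.intro _ rfl))
  obtain ⟨a1, a2, a3, a4, a5, a6, a7, a8⟩ := ty_ACM Pool.Agent.MUXV.q_EMB A B hC _ _ hL0 _ hm0
  obtain ⟨k1, k2⟩ := ty_KER Pool.Agent.MUXV.q_EMB A B hC T _ hm0
  have hfCC : (f : ℂ) ≠ 0 := by exact_mod_cast h.f0
  have hpCC : (p : ℂ) ≠ 0 := by exact_mod_cast hp.ne_zero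
  have hmem : ∀ y : OO A B, R.om R.i0 * emb y ∈ (R.L R.i0).lattice := fun y =>
    (hL0.mem _).2 ⟨y, Submodule.mem_top, rfl⟩
  have hvf : V.valuation ((f : ℕ) : ℂ) = 1 := by
    have h2 := val_int h (f : ℤ) (by exact_mod_cast h.fp)
    rwa [Int.cast_natCast] at h2
  obtain ⟨W, ξ, G⟩ := good h₀ R hR R.i0
  -- torsion of order `f`
  have htor : ∀ z : ℂ, (f : ℂ) * z ∈ (R.L R.i0).lattice →
      InK V (R.L R.i0) (fun z => (R.L R.i0).weierstrassP z - 1 / 12) z →
      z ∈ (R.L R.i0).lattice := fun z hz hK => Pool.Agent.MUXV.mem_of_nat_mul G hK hvf hz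
  -- the group
  set HP : Set ((RF (idl (f * p)) : IntermediateField (kk A B) ℂ) ≃ₐ[kk A B] RF (idl (f * p))) :=
    {τ | ∃ d : OO A B, ActH τ ((f * p : ℕ) : OO A B) d ∧ ((f : ℕ) : OO A B) ∣ d - 1} with hHP
  have hsub : IGV V (RF (idl (f * p))) ⊆ HP := by
    intro τ hτ
    obtain ⟨d, hd⟩ := k1 τ (trH hC T R hR hmI τ hτ)
    have h3 : ActH τ ((f : ℕ) : OO A B) d := a3 _ τ _ d (Nat.cast_dvd_cast (Dvd.intro _ rfl)) hd
    have h4 := ty_INV Pool.Agent.MUXV.q_EMB A B hC _ _ hL0 ((f : ℕ) : OO A B) hfO V ⟨W, ξ, G⟩ (by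
      intro z hz hK
      rw [Pool.Agent.MUX.emb_natCast hC] at hz
      exact htor z hz hK) (RF (idl (f * p))) hle τ (by
      intro x hx
      exact hτ x ((ValuationSubring.valuation_le_one_iff _ _).2 hx)) d h3
    rcases h4 with h1 | h1
    · exact ⟨d, hd, h1⟩
    · refine ⟨-d, a2 _ τ d (-d) (Or.inr (by rw [add_neg_cancel]; exact dvd_zero _)) hd, ?_⟩
      have h2 : -d - 1 = -(d + 1) := by ring
      rw [h2]
      exact (dvd_neg).2 h1
  have hHPfin : HP.Finite := Set.toFinite _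
  -- at most `p² - 1` elements
  have hfinq : Finite (OO A B ⧸ P) := Pool.Agent.MUX.finite_quot hC (by
    rw [h.eP]
    exact Pool.Agent.MUXJ.LEV.idl_ne hp.ne_zero)
  have hcardq : Nat.card (OO A B ⧸ P) = p ^ 2 := by
    have h1 : nI P = p ^ 2 := by
      rw [h.eP]
      have h2 := Pool.Agent.MUX.nI_sp hC (Pool.Agent.MUX.natCast_ne_zero' hC hp.ne_zero)
      have h3 : nm ((p : ℕ) : OO A B) = (p : ℤ) ^ 2 := by
        unfold nm
        simp
      rw [h3] at h2
      rw [h2, Int.natAbs_pow]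
      simp
    exact h1
  have hcard : HP.ncard + 1 ≤ p ^ 2 := by
    choose d hd hd1 using fun τ : HP => τ.2
    have hnz : ∀ τ : HP, d τ ∉ P := by
      intro τ hP
      obtain ⟨u, v, huv⟩ := (hd τ).cop
      apply h.hP.ne_top
      rw [Ideal.eq_top_iff_one, ← huv]
      refine P.add_mem (P.mul_mem_left _ hP) (P.mul_mem_left _ ?_)
      rw [Nat.cast_mul]
      exact P.mul_mem_left _ hpP
    have hinj : Function.Injective (fun o : Option HP =>
        o.elim (0 : OO A B ⧸ P) fun τ => Ideal.Quotient.mk P (d τ)) := by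
      rintro (_ | τ) (_ | τ') hττ
      · rfl
      · exact absurd (Ideal.Quotient.eq_zero_iff_mem.1 hττ.symm) (hnz τ')
      · exact absurd (Ideal.Quotient.eq_zero_iff_mem.1 hττ) (hnz τ)
      · have h2 : d τ - d τ' ∈ P := Ideal.Quotient.eq.1 hττ
        rw [h.eP, Ideal.mem_span_singleton] at h2
        have h3 : ((f : ℕ) : OO A B) ∣ d τ - d τ' := by
          have h4 : d τ - d τ' = (d τ - 1) - (d τ' - 1) := by ring
          rw [h4]
          exact dvd_sub (hd1 τ) (hd1 τ')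
        have hcop : IsCoprime ((f : ℕ) : OO A B) ((p : ℕ) : OO A B) := by
          have h4 : IsCoprime (f : ℤ) (p : ℤ) :=
            (Nat.isCoprime_iff_coprime.2 ((Nat.Prime.coprime_iff_not_dvd hp).2 h.fp)).symm
          have h5 := h4.map (Int.castRingHom (OO A B))
          simpa using h5
        have h5 : ((f * p : ℕ) : OO A B) ∣ d τ - d τ' := by
          rw [Nat.cast_mul]
          exact hcop.mul_dvd h3 h2
        have h6 : ActH τ'.1 ((f * p : ℕ) : OO A B) (d τ) :=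
          a2 _ _ (d τ') (d τ) (Or.inl (by
            rw [← neg_sub]
            exact (dvd_neg).2 h5)) (hd τ')
        exact congrArg Option.some (Subtype.ext (a5 _ _ _ (hd τ) h6))
    have h8 := Nat.card_le_card_of_injective _ hinj
    rw [Finite.card_option, Nat.card_coe_set_eq, hcardq] at h8
    exact h8
  -- the point of order `f`
  set z₀ : ℂ := R.om R.i0 / f with hz₀
  set w : ℂ := pt R p R.i0 1 with hw
  have hfz : (f : ℂ) * z₀ ∈ (R.L R.i0).lattice := by
    have h1 := hmem 1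
    rw [Pool.Agent.MUX.emb_one hC, mul_one] at h1
    have h2 : (f : ℂ) * z₀ = R.om R.i0 := by
      rw [hz₀]
      field_simp
    rwa [h2]
  have hdiv : ∀ j : OO A B, emb j * z₀ ∈ (R.L R.i0).lattice → ((f : ℕ) : OO A B) ∣ j := by
    intro j hj
    obtain ⟨t, -, ht⟩ := (hL0.mem _).1 hj
    refine ⟨t, ?_⟩
    apply Pool.Agent.MUX.emb_inj hC
    rw [Pool.Agent.MUX.emb_mul hC, Pool.Agent.MUX.emb_natCast hC]
    rw [hz₀] at ht
    have h2 : R.om R.i0 * emb j = R.om R.i0 * ((f : ℂ) * emb t) := by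
      calc R.om R.i0 * emb j = (f : ℂ) * (emb j * (R.om R.i0 / f)) := by
            field_simp
        _ = _ := by
            rw [ht]
            ring
    exact mul_left_cancel₀ hom h2
  have h2f := not_dvd_two h
  have he2 : emb (2 : OO A B) = 2 := by
    have h4 : (2 : OO A B) = ((2 : ℕ) : OO A B) := by norm_num
    rw [h4, Pool.Agent.MUX.emb_natCast hC]
    norm_num
  have hz2 : ¬ InK V (R.L R.i0) (fun z => (R.L R.i0).weierstrassP z - 1 / 12) (2 * z₀) := by
    intro hK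
    have h1 := htor (2 * z₀) (by
      have h2 : (f : ℂ) * (2 * z₀) = 2 * ((f : ℂ) * z₀) := by ring
      rw [h2, ← he2]
      exact Pool.Agent.TWF.UNF.cmo hC hL0 2 _ hfz) hK
    rw [← he2] at h1
    exact h2f (hdiv 2 h1)
  have hz1 : ¬ InK V (R.L R.i0) (fun z => (R.L R.i0).weierstrassP z - 1 / 12) z₀ := by
    intro hK
    apply hz2
    have h1 := Pool.Agent.MUXV.inK_nat G hK 2
    rwa [Nat.cast_two] at h1
  have h1P : (1 : OO A B) ∉ P := fun h1 => h.hP.ne_top ((Ideal.eq_top_iff_one _).2 h1)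
  obtain ⟨hwK, hwL, hwt⟩ := hKRI p A B P V f₀ h₀ ι R hR R.i0 1 h1P
  have hval : V.valuation (xn (R.L R.i0) (z₀ + w) - xn (R.L R.i0) z₀) =
      V.valuation (tX (xn (R.L R.i0)) (yy (R.L R.i0)) w) :=
    (Pool.Agent.MUXV.q_YUN V W (R.L R.i0) _ _ ξ G z₀ hz1 hz2).2 w hwK hwL
  have hpw : (p : ℂ) * w ∈ (R.L R.i0).lattice := by
    have h1 : (p : ℂ) * w = R.om R.i0 * emb ((nI (R.b R.i0) : ℕ) : OO A B) := by
      rw [hw]
      unfold pt
      rw [Pool.Agent.MUX.emb_natCast hC, Pool.Agent.MUX.emb_one hC]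
      field_simp
    rw [h1]
    exact hmem _
  have hzwK : ¬ InK V (R.L R.i0) (fun z => (R.L R.i0).weierstrassP z - 1 / 12) (z₀ + w) := by
    rw [Pool.Agent.MUXV.inK_congr G (w := z₀) (by
      rw [add_sub_cancel_left]
      exact hwK)]
    exact hz1
  -- membership in `F`
  have hxF : ∀ z : ℂ, z ∉ (R.L R.i0).lattice → ((f * p : ℕ) : ℂ) * z ∈ (R.L R.i0).lattice →
      xn (R.L R.i0) z ∈ (RF (idl (f * p)) : IntermediateField (kk A B) ℂ) := by
    intro z hzL hz
    refine IntermediateField.subset_adjoin _ _ ⟨_, _, _, hL0, Or.inr ⟨z, ?_, hzL, rfl⟩⟩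
    intro x hx
    obtain ⟨t, rfl⟩ := Ideal.mem_span_singleton.1 hx
    have h2 : emb (((f * p : ℕ) : OO A B) * t) * z = emb t * (((f * p : ℕ) : ℂ) * z) := by
      rw [Pool.Agent.MUX.emb_mul hC, Pool.Agent.MUX.emb_natCast hC]
      ring
    rw [h2]
    exact Pool.Agent.TWF.UNF.cmo hC hL0 t _ hz
  have hnat : ∀ (k : ℕ) (z : ℂ), z ∈ (R.L R.i0).lattice → (k : ℂ) * z ∈ (R.L R.i0).lattice := by
    intro k z hz
    have h1 := Pool.Agent.TWF.UNF.cmo hC hL0 ((k : ℕ) : OO A B) _ hz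
    rwa [Pool.Agent.MUX.emb_natCast hC] at h1
  have hx1 := hxF z₀ (Pool.Agent.MUXV.int_X hz1).1 (by
    have h1 : ((f * p : ℕ) : ℂ) * z₀ = (p : ℂ) * ((f : ℂ) * z₀) := by
      push_cast
      ring
    rw [h1]
    exact hnat p _ hfz)
  have hx2 := hxF (z₀ + w) (Pool.Agent.MUXV.int_X hzwK).1 (by
    have h1 : ((f * p : ℕ) : ℂ) * (z₀ + w) = (p : ℂ) * ((f : ℂ) * z₀) + (f : ℂ) * ((p : ℂ) * w) := by
      push_cast
      ring
    rw [h1]
    exact (R.L R.i0).lattice.add_mem (hnat p _ hfz) (hnat f _ hpw))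
  have hp1 : p ^ 2 - 1 ≠ 0 := by
    have h1 : 1 < p ^ 2 := Nat.one_lt_pow two_ne_zero hp.one_lt
    omega
  have hdvd : (p ^ 2 - 1) ∣ Nat.card (IGV V (RF (idl (A := A) (B := B) (f * p)))) := by
    refine dvd_card hC hp hpP h.hV hsplit _ (p ^ 2 - 1) hp1 (⟨_, hx2⟩ - ⟨_, hx1⟩) ?_
    show V.valuation (xn (R.L R.i0) (z₀ + w) - xn (R.L R.i0) z₀) ^ (p ^ 2 - 1) = _
    rw [hval]
    exact hwt
  have h1mem : (1 : (RF (idl (f * p)) : IntermediateField (kk A B) ℂ) ≃ₐ[kk A B]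
      RF (idl (f * p))) ∈ IGV V (RF (idl (f * p))) := by
    intro x _
    simp
  have hpos : 0 < (IGV V (RF (idl (A := A) (B := B) (f * p)))).ncard :=
    (Set.ncard_pos (Set.toFinite _)).2 ⟨1, h1mem⟩
  rw [Nat.card_coe_set_eq] at hdvd
  have hle2 := Nat.le_of_dvd hpos hdvd
  have heq := Set.eq_of_subset_of_ncard_le hsub (by omega) hHPfin
  rw [heq]
  exact ⟨c, hc, hc1⟩

end UNFI

open _root_.Pool.Agent.TWI.UNFI in
/-- a field unramified above the inert prime `p`, of degree prime to `p` over `k`, has a level prime to `p` -/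
theorem i_UNFI (hKRI : S_KRI) : S_UNFI := by
  intro p A B P V f₀ hS₀ T ι _ R hR K _ hk hKp M hM0 hM hun N hN0 hNp
  have hC := hS₀.cq
  have hp := hS₀.pp
  have hp2 : p ≠ 2 := by have := hS₀.p5; omega
  obtain ⟨f, hf0, hfp, hNf, hDf, hKf⟩ := unf_lev hp hp2 hC.neg hS₀.pD T
    ⟨_, _, _, R.nl R.i0⟩ K hk hKp M hM0 hM N hN0 hNp
  refine ⟨f, hf0, hfp, hNf, hDf, ?_⟩
  have hS : SetI p A B P V f := ⟨hC, hp, hS₀.p5, hS₀.eP, hS₀.hP, hS₀.hV, hS₀.pD, hf0, hfp, hDf⟩
  have hpP : ((p : ℕ) : OO A B) ∈ P := by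
    rw [hS₀.eP]
    exact Ideal.mem_span_singleton_self _
  have hsplit : ((p : ℕ) : OO A B) ∉ P ^ 2 := by
    rw [hS₀.eP]
    exact RAMGI.not_sq hp
  have hm0 : ((f * p : ℕ) : OO A B) ≠ 0 :=
    Pool.Agent.MUX.natCast_ne_zero' hC (mul_ne_zero hf0 hp.ne_zero)
  have hmI : idl (A := A) (B := B) (f * p) ≠ ⊥ := Pool.Agent.MUXJ.LEV.idl_ne
    (mul_ne_zero hf0 hp.ne_zero)
  have hfO : ((f : ℕ) : OO A B) ≠ 0 := Pool.Agent.MUX.natCast_ne_zero' hC hf0
  have hL0 : IsNL (⊤ : Ideal (OO A B)) (R.L R.i0) (R.om R.i0) := by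
    have h1 := R.nl R.i0
    rwa [R.b0] at h1
  have hfin := T.fin _ hmI
  have hgal := T.gal _ hmI
  obtain ⟨a1, a2, a3, a4, a5, a6, a7, a8⟩ := ty_ACM Pool.Agent.MUXV.q_EMB A B hC _ _ hL0 _ hm0
  obtain ⟨b1, -, -, -, -, b6, -, -⟩ := ty_ACM Pool.Agent.MUXV.q_EMB A B hC _ _ hL0 _ hfO
  obtain ⟨k1, k2⟩ := ty_KER Pool.Agent.MUXV.q_EMB A B hC T _ hm0
  have h01 : idl (A := A) (B := B) (f * p) ≤ idl f :=
    Pool.Agent.MUXJ.LEV.idl_le (Dvd.intro _ rfl)
  have h01' : (RF (idl f) : IntermediateField (kk A B) ℂ) ≤ RF (idl (f * p)) := T.mono _ _ h01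
  -- the automorphisms which are trivial on `RF (idl f)`
  have key : ∀ σ : (RF (idl (f * p)) : IntermediateField (kk A B) ℂ) ≃ₐ[kk A B] RF (idl (f * p)),
      (∀ y : (RF (idl (f * p)) : IntermediateField (kk A B) ℂ),
        (y : ℂ) ∈ (RF (idl f) : IntermediateField (kk A B) ℂ) → σ y = y) →
      ∀ x : (RF (idl (f * p)) : IntermediateField (kk A B) ℂ), (x : ℂ) ∈ K → σ x = x := by
    intro σ hσ x hx
    have hH : TrH σ := by
      intro y hy
      exact hσ y (T.mono _ _ le_top hy)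
    have hex : ∃ c : OO A B, ActH σ ((f * p : ℕ) : OO A B) c ∧ ((f : ℕ) : OO A B) ∣ c - 1 := by
      obtain ⟨c, hc⟩ := k1 σ hH
      have h1 : ActH (1 : (RF (idl f) : IntermediateField (kk A B) ℂ) ≃ₐ[kk A B] RF (idl f))
          ((f : ℕ) : OO A B) c := by
        refine a8 _ σ 1 c (Nat.cast_dvd_cast (Dvd.intro _ rfl)) ?_ hc
        intro y hy
        rw [hσ ⟨y, hy⟩ y.2]
        rfl
      rcases b1 _ _ c 1 le_rfl h1 (b6 _) with h2 | h2
      · exact ⟨c, hc, h2⟩
      · refine ⟨-c, a2 _ σ c (-c) (Or.inr (by rw [add_neg_cancel]; exact dvd_zero _)) hc, ?_⟩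
        have h3 : -c - 1 = -(c + 1) := by ring
        rw [h3]
        exact (dvd_neg).2 h2
    obtain ⟨c, hc, hc1⟩ := hex
    exact fixes hC hp hpP hS.hV hsplit T K hk hmI hKf hun σ
      (inert hKRI f₀ hS₀ hS T R hR σ c hc hc1) x hx
  let F0 : IntermediateField (kk A B) (RF (idl (A := A) (B := B) (f * p))) :=
    IntermediateField.restrict h01'
  intro x hx
  have h1 : (⟨x, hKf x hx⟩ : (RF (idl (A := A) (B := B) (f * p)) :
      IntermediateField (kk A B) ℂ)) ∈ F0 := by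
    rw [← IsGalois.fixedField_fixingSubgroup F0, IntermediateField.mem_fixedField_iff]
    intro σ hσ
    refine key σ (fun y hy => ?_) _ hx
    rw [IntermediateField.mem_fixingSubgroup_iff] at hσ
    exact hσ y ((IntermediateField.mem_restrict h01' _).2 hy)
  exact (IntermediateField.mem_restrict h01' _).1 h1

end

end Pool.Agent.TWI


end
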