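import Pool.Agent.MVF.C033
import Pool.Agent.MVF.C087
import Pool.Agent.TWM.C07
import Pool.Agent.TWM.C15
import Pool.Agent.TWM.C17

/-! Parts: TWI.KYI, TWI.KRI, TWI.KY1, TWI.SDEI, TWI.YTAU -/

section

/-!
# TWI, module KYI (helper34): the product over the roots of unity

`A` a domain of characteristic zero, `ζ_i`, `i ∈ S`, elements with the power sums of the `N`-th roots of
unity: `Σ ζ_i ^ j = 0` for `0 < j < N`, `Σ ζ_i ^ N = N`. `E = 1 + ..`, `Q = ∏_i E(ζ_i X)`,
`G = Σ_i (X E'/E)(ζ_i X)`: `Q = 1 + g X^N + ..`, `G = N g X^N + ..`, so `Q + G = 1 + (N + 1) g X^N + ..`.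
-/

set_option autoImplicit false

open PowerSeries

namespace Pool.Agent.TWI

open Pool.Agent.TWT

/-- (PRI) the product over the roots of unity. -/
def S_PRI : Prop :=
  ∀ (A : Type) [CommRing A] [IsDomain A] [CharZero A] (N : ℕ), 0 < N → ∀ (J : Type) (S : Finset J)
    (ζ : J → A), (∀ j, 0 < j → j < N → ∑ i ∈ S, ζ i ^ j = 0) → ∑ i ∈ S, ζ i ^ N = N →
    ∀ E E' : A⟦X⟧, PowerSeries.constantCoeff E = 1 →
    E * E' = 1 → ∀ Q G : A⟦X⟧, Q = ∏ i ∈ S, PowerSeries.rescale (ζ i) E →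
    G = ∑ i ∈ S, PowerSeries.rescale (ζ i) (PowerSeries.X * d⁄dX A E * E') →
    PowerSeries.coeff 0 Q = 1 ∧ PowerSeries.coeff 0 G = 0 ∧
    (∀ j, 0 < j → j < N → PowerSeries.coeff j Q = 0 ∧ PowerSeries.coeff j G = 0) ∧
    PowerSeries.coeff N G = N * PowerSeries.coeff N Q

namespace PRI

variable {A : Type} [CommRing A]

lemma der_prod (E E' : A⟦X⟧) (hE : E * E' = 1) {J : Type} (s : Finset J) (ζ : J → A) :
    X * d⁄dX A (∏ i ∈ s, rescale (ζ i) E) =
      (∏ i ∈ s, rescale (ζ i) E) * ∑ i ∈ s, rescale (ζ i) (X * d⁄dX A E * E') := by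
  classical
  induction s using Finset.induction_on with
  | empty => simp
  | insert a s ha ih =>
    rw [Finset.prod_insert ha, Finset.sum_insert ha, Derivation.leibniz, smul_eq_mul, smul_eq_mul,
      mul_add]
    have h1 : X * ((rescale (ζ a) E) * d⁄dX A (∏ i ∈ s, rescale (ζ i) E)) =
        (rescale (ζ a) E) * (X * d⁄dX A (∏ i ∈ s, rescale (ζ i) E)) := by ring
    have h2 : X * ((∏ i ∈ s, rescale (ζ i) E) * d⁄dX A (rescale (ζ a) E)) =
        (∏ i ∈ s, rescale (ζ i) E) * (X * d⁄dX A (rescale (ζ a) E)) := by ring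
    have h3 : rescale (ζ a) E * rescale (ζ a) E' = 1 := by
      rw [← map_mul, hE, map_one]
    rw [h1, h2, ih, Pool.Agent.TWT.PRD.rescale_X_der, map_mul (rescale (ζ a)) (X * d⁄dX A E) E']
    linear_combination (-(∏ i ∈ s, rescale (ζ i) E) * rescale (ζ a) (X * d⁄dX A E)) * h3

end PRI

open _root_.Pool.Agent.TWI.PRI in
theorem t_PRI : S_PRI := by
  intro A _ _ _ N hN J S ζ hζ hζN E E' hE0 hEE Q G hQ hG
  classical
  have hcG : ∀ j, coeff j G = (∑ i ∈ S, ζ i ^ j) * coeff j (X * d⁄dX A E * E') := by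
    intro j
    rw [hG, map_sum, Finset.sum_mul]
    refine Finset.sum_congr rfl fun i _ => ?_
    rw [coeff_rescale]
  have h0G : coeff 0 G = 0 := by
    rw [hcG]
    simp
  have h0Q : coeff 0 Q = 1 := by
    rw [hQ, coeff_zero_eq_constantCoeff, map_prod]
    refine Finset.prod_eq_one fun i _ => ?_
    rw [← coeff_zero_eq_constantCoeff, coeff_rescale, coeff_zero_eq_constantCoeff, hE0]
    simp
  have hGd : ∀ j, 0 < j → j < N → coeff j G = 0 := by
    intro j hj0 hj1
    rw [hcG, hζ j hj0 hj1, zero_mul]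
  have hder : X * d⁄dX A Q = Q * G := by
    rw [hQ, hG]
    exact der_prod E E' hEE S ζ
  -- the coefficients up to `N`
  have key : ∀ j, 0 < j → j ≤ N → (j : A) * coeff j Q = coeff j G := by
    intro j hj0 hj1
    have hc : (j : A) * coeff j Q = coeff j (Q * G) := by
      rw [← hder]
      obtain ⟨i, rfl⟩ : ∃ i, j = i + 1 := ⟨j - 1, by omega⟩
      rw [coeff_succ_X_mul, coeff_derivative]
      push_cast
      ring
    rw [hc, coeff_mul, ← Finset.add_sum_erase (Finset.HasAntidiagonal.antidiagonal j) _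
      (a := ((0, j) : ℕ × ℕ)) (by simp), h0Q, one_mul, Finset.sum_eq_zero, add_zero]
    intro x hx
    rw [Finset.mem_erase, Finset.HasAntidiagonal.mem_antidiagonal] at hx
    obtain ⟨hx1, hx2⟩ := hx
    rcases Nat.eq_zero_or_pos x.2 with h | h
    · rw [h, h0G, mul_zero]
    · rw [hGd x.2 h, mul_zero]
      have : x.1 ≠ 0 := by
        intro h3
        apply hx1
        ext
        · exact h3
        · simp only
          omega
      omega
  refine ⟨h0Q, h0G, fun j hj0 hj1 => ⟨?_, hGd j hj0 hj1⟩, (key N hN le_rfl).symm⟩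
  have h1 := key j hj0 hj1.le
  rw [hGd j hj0 hj1] at h1
  exact (mul_eq_zero.1 h1).resolve_left (by exact_mod_cast hj0.ne')

/-- (KYI) evaluation at `w` modulo an ideal `I` with `w^(N+1) ∈ I`, `(N+1) w^N ∈ I`. `f i = Θ(z + i R)/Θ(z)`, `g i = (Θ'/Θ)(z + i R)`. -/
def S_KYI : Prop :=
  ∀ (A : Type) [CommRing A] [IsDomain A] [CharZero A] (N : ℕ), 0 < N → ∀ (J : Type) (S : Finset J)
    (ζ : J → A), (∀ j, 0 < j → j < N → ∑ i ∈ S, ζ i ^ j = 0) → ∑ i ∈ S, ζ i ^ N = N →
    ∀ (I : Ideal A) (w : A), w ^ (N + 1) ∈ I → ((N : A) + 1) * w ^ N ∈ I →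
    ∀ (e : ℕ → A) (f g : J → A), e 0 = 1 →
    (∀ i ∈ S, f i - ∑ k ∈ Finset.range (N + 1), e k * (ζ i * w) ^ k ∈ I) →
    (∀ i ∈ S, ζ i * w * (g i * f i) - ∑ k ∈ Finset.range (N + 1), k * e k * (ζ i * w) ^ k ∈ I) →
    ∏ i ∈ S, f i - 1 + w * ∑ i ∈ S, ζ i * g i ∈ I ∧
    ∃ r : A, w * ∑ i ∈ S, ζ i * g i - r * w ^ N ∈ I

theorem t_KYI : S_KYI := by
  intro A _ _ _ N hN J S ζ hζ hζN I w hwp hpw e f g he0 hf hg
  set q : A →+* A ⧸ I := Ideal.Quotient.mk I with hq
  have hs : q w ^ (N + 1) = 0 := by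
    rw [← map_pow]
    exact Ideal.Quotient.eq_zero_iff_mem.mpr hwp
  have hps : q ((N : A) + 1) * q w ^ N = 0 := by
    rw [← map_pow, ← map_mul]
    exact Ideal.Quotient.eq_zero_iff_mem.mpr hpw
  obtain ⟨φ, -, -, hφ⟩ := t_EVH A (A ⧸ I) q (q w) (N + 1) hs (by omega)
  set E : A⟦X⟧ := PowerSeries.mk e with hEd
  have hE0 : PowerSeries.constantCoeff E = 1 := by
    rw [hEd, ← PowerSeries.coeff_zero_eq_constantCoeff_apply, PowerSeries.coeff_mk, he0]
  have hU : IsUnit E := by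
    rw [PowerSeries.isUnit_iff_constantCoeff, hE0]
    exact isUnit_one
  obtain ⟨E', hEE⟩ := hU.exists_right_inv
  obtain ⟨hQ0, hG0, hQG, hN1⟩ := t_PRI A N hN J S ζ hζ hζN E E' hE0 hEE _ _ rfl rfl
  set Q : A⟦X⟧ := ∏ i ∈ S, PowerSeries.rescale (ζ i) E with hQd
  set G : A⟦X⟧ := ∑ i ∈ S, PowerSeries.rescale (ζ i) (PowerSeries.X * d⁄dX A E * E') with hGd
  have key : ∀ (c : A) (F : A⟦X⟧), φ (PowerSeries.rescale c F) =
      ∑ k ∈ Finset.range (N + 1), q (PowerSeries.coeff k F) * (q c * q w) ^ k := by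
    intro c F
    rw [hφ]
    refine Finset.sum_congr rfl fun k _ => ?_
    rw [PowerSeries.coeff_rescale, map_mul, map_pow]
    ring
  have h1 : ∀ i ∈ S, φ (PowerSeries.rescale (ζ i) E) = q (f i) := by
    intro i hi
    have h := Ideal.Quotient.eq_zero_iff_mem.mpr (hf i hi)
    rw [map_sub, sub_eq_zero] at h
    rw [key, hq, h, map_sum]
    refine Finset.sum_congr rfl fun k _ => ?_
    rw [hEd, PowerSeries.coeff_mk, map_mul, map_pow, map_mul]
  have h2 : ∀ i ∈ S, φ (PowerSeries.rescale (ζ i) (PowerSeries.X * d⁄dX A E)) =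
      q (ζ i * w * (g i * f i)) := by
    intro i hi
    have h := Ideal.Quotient.eq_zero_iff_mem.mpr (hg i hi)
    rw [map_sub, sub_eq_zero] at h
    rw [key, hq, h, map_sum]
    refine Finset.sum_congr rfl fun k _ => ?_
    rw [Pool.Agent.TWT.KYR.coeff_X_mul_deriv, hEd, PowerSeries.coeff_mk, map_mul, map_mul,
      map_pow, map_mul, map_mul]
  have h3 : ∀ i ∈ S, φ (PowerSeries.rescale (ζ i) (PowerSeries.X * d⁄dX A E * E')) =
      q (w * (ζ i * g i)) := by
    intro i hi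
    have h4 : q (f i) * φ (PowerSeries.rescale (ζ i) E') = 1 := by
      rw [← h1 i hi, ← map_mul, ← map_mul, hEE, map_one, map_one]
    rw [map_mul, map_mul, h2 i hi]
    calc q (ζ i * w * (g i * f i)) * φ (PowerSeries.rescale (ζ i) E')
        = q (w * (ζ i * g i)) * (q (f i) * φ (PowerSeries.rescale (ζ i) E')) := by
          rw [map_mul, map_mul, map_mul, map_mul, map_mul]
          ring
      _ = q (w * (ζ i * g i)) := by rw [h4, mul_one]
  have hφQ : φ Q = q (∏ i ∈ S, f i) := by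
    rw [hQd, map_prod, map_prod]
    exact Finset.prod_congr rfl h1
  have hφG : φ G = q (w * ∑ i ∈ S, ζ i * g i) := by
    rw [hGd, map_sum, Finset.mul_sum, map_sum]
    exact Finset.sum_congr rfl h3
  have hvQ : φ Q = 1 + q (coeff N Q) * q w ^ N := by
    rw [hφ, Finset.sum_range_succ, Finset.sum_eq_single_of_mem 0 (Finset.mem_range.mpr hN)]
    · rw [hQ0, map_one, pow_zero, mul_one]
    · intro k hk hk0
      rw [(hQG k (Nat.pos_of_ne_zero hk0) (Finset.mem_range.mp hk)).1, map_zero, zero_mul]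
  have hvG : φ G = q (coeff N G) * q w ^ N := by
    rw [hφ, Finset.sum_range_succ, Finset.sum_eq_zero, zero_add]
    intro k hk
    rcases Nat.eq_zero_or_pos k with rfl | hk0
    · rw [hG0, map_zero, zero_mul]
    · rw [(hQG k hk0 (Finset.mem_range.mp hk)).2, map_zero, zero_mul]
  constructor
  · rw [← Ideal.Quotient.eq_zero_iff_mem]
    change q _ = 0
    rw [map_add, map_sub, map_one, ← hφQ, ← hφG, hvQ, hvG, hN1]
    have h5 : q ((N : A) + 1) = q (N : A) + 1 := by rw [map_add, map_one]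
    rw [h5] at hps
    rw [map_mul]
    linear_combination q (coeff N Q) * hps
  · refine ⟨coeff N G, ?_⟩
    rw [← Ideal.Quotient.eq_zero_iff_mem]
    change q _ = 0
    rw [map_sub, ← hφG, hvG, map_mul, map_pow, sub_self]

end Pool.Agent.TWI


end

section

/-!
# TWI, block A, module KRI (helper97): the points of order `p` are in the kernel of reduction
-/

set_option autoImplicit false

open WeierstrassCurve PowerSeries

namespace Pool.Agent.TWI

open _root_.MU3 Pool.Agent.MU3A Pool.Agent.MU3B Pool.Agent.MUX Pool.Agent.MUXU Pool.Agent.TWT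
open Pool.Agent.MUXV (GR InK tX HalfI)

noncomputable section

namespace KRI

variable {p : ℕ} {A B : ℤ} {P : Ideal (OO A B)} {V : ValuationSubring ℂ} {f : ℕ}

theorem P_ne (h : SetI p A B P V f) : P ≠ ⊥ := by
  intro h0
  have h1 : ((p : ℕ) : OO A B) ∈ P := by
    rw [h.eP]
    exact Ideal.mem_span_singleton_self _
  rw [h0, Ideal.mem_bot] at h1
  exact Pool.Agent.MUX.natCast_ne_zero' h.cq h.pp.ne_zero h1

theorem ex_rep (h : SetI p A B P V f) : ∃ T : Finset (OO A B), RepI P T := by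
  classical
  have hfin : Finite (OO A B ⧸ P) := Pool.Agent.MUX.finite_quot h.cq (P_ne h)
  have := Fintype.ofFinite (OO A B ⧸ P)
  have hs : Function.Surjective (Ideal.Quotient.mk P) := Ideal.Quotient.mk_surjective
  refine ⟨(Finset.univ.filter fun c : OO A B ⧸ P => c ≠ 0).image (Function.surjInv hs), ?_, ?_, ?_⟩
  · intro x hx hxP
    obtain ⟨c, hc, rfl⟩ := Finset.mem_image.1 hx
    have h1 : Ideal.Quotient.mk P (Function.surjInv hs c) = c := Function.surjInv_eq hs c
    rw [Ideal.Quotient.eq_zero_iff_mem.2 hxP] at h1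
    exact (Finset.mem_filter.1 hc).2 h1.symm
  · intro x hx y hy hxy
    obtain ⟨c, hc, rfl⟩ := Finset.mem_image.1 hx
    obtain ⟨d, hd, rfl⟩ := Finset.mem_image.1 hy
    have h1 := Ideal.Quotient.eq.2 hxy
    rw [Function.surjInv_eq hs c, Function.surjInv_eq hs d] at h1
    rw [h1]
  · intro x hx
    refine ⟨Function.surjInv hs (Ideal.Quotient.mk P x), ?_, ?_⟩
    · refine Finset.mem_image.2 ⟨_, Finset.mem_filter.2 ⟨Finset.mem_univ _, ?_⟩, rfl⟩
      intro h1
      exact hx (Ideal.Quotient.eq_zero_iff_mem.1 h1)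
    · refine Ideal.Quotient.eq.1 ?_
      rw [Function.surjInv_eq hs]

theorem quo (h : SetI p A B P V f) {x0 x : OO A B} (h0 : x0 ∉ P) :
    ∃ y, y * x0 - x ∈ P := by
  have hfin : Finite (OO A B ⧸ P) := Pool.Agent.MUX.finite_quot h.cq (P_ne h)
  have := h.hP
  have hd : IsDomain (OO A B ⧸ P) := inferInstance
  have hx0 : Ideal.Quotient.mk P x0 ≠ 0 := fun h1 => h0 (Ideal.Quotient.eq_zero_iff_mem.1 h1)
  have hi : Function.Injective fun c : OO A B ⧸ P => c * Ideal.Quotient.mk P x0 :=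
    mul_left_injective₀ hx0
  obtain ⟨c, hc⟩ := (Finite.injective_iff_surjective.1 hi) (Ideal.Quotient.mk P x)
  obtain ⟨y, rfl⟩ := Ideal.Quotient.mk_surjective c
  refine ⟨y, Ideal.Quotient.eq.1 ?_⟩
  rw [map_mul]
  exact hc

end KRI

open _root_.Pool.Agent.TWI.KRI in
theorem i_KRI (hR2 : S_R2I) (hR4 : S_R4I) (hG : S_GRI) (hP : S_PTI) (hM : S_MLI) : S_KRI := by
  classical
  intro p A B P V f h ι R hR i x hx
  obtain ⟨g1, hvp, hint, hemb, -⟩ := hG p A B P V f h ι R hR
  obtain ⟨a2, a4, hGa⟩ := g1 i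
  obtain ⟨W, ξ, G, -, -⟩ := id hGa
  obtain ⟨p1, p2, p3, p4, p5, -, p7⟩ := hP p A B P V f h ι R i
  set L := R.L i with hLdef
  have hp0 : (p : ℂ) ≠ 0 := Nat.cast_ne_zero.2 h.pp.ne_zero
  have hpo : Odd p := h.pp.odd_of_ne_two (by have := h.p5; omega)
  have hIs : Isg L L (p : ℂ) := by
    intro w hw
    have h1 := L.lattice.smul_mem (p : ℤ) hw
    rw [zsmul_eq_mul] at h1
    exact_mod_cast h1
  -- no points of order two
  have hno : ∀ z, (p : ℂ) * z ∈ L.lattice → 2 * z ∈ L.lattice → z ∈ L.lattice := by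
    intro z h1 h2
    obtain ⟨m, hm⟩ := hpo
    have h3 : ((m : ℕ) : ℂ) * (2 * z) ∈ L.lattice := by
      have h4 := L.lattice.smul_mem (m : ℤ) h2
      rw [zsmul_eq_mul] at h4
      exact_mod_cast h4
    have h4 : z = (p : ℂ) * z - ((m : ℕ) : ℂ) * (2 * z) := by
      rw [hm]
      push_cast
      ring
    rw [h4]
    exact sub_mem h1 h3
  obtain ⟨H, hH⟩ := Pool.Agent.MUXV.x_HAL L L (p : ℂ) hp0 hIs hno
  obtain ⟨u, hu1, hu2, hu3⟩ := hR2 V L L a2 a4 a2 a4 hGa hGa (p : ℂ) H hp0 hIs hH hvp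
  obtain ⟨τ1, τ0, -⟩ := Pool.Agent.MUXV.v_tX_lt G hu3 hu2
  obtain ⟨x0, hx0⟩ := p3 u hu1
  have hx0P : x0 ∉ P := by
    intro h1
    have h2 := (p1 x0).2 h1
    apply hu2
    have h3 := add_mem hx0 h2
    rwa [sub_add_cancel] at h3
  -- all points
  have key : ∀ x, x ∉ P → InK V L (xn L) (pt R p i x) ∧ pt R p i x ∉ L.lattice ∧
      V.valuation (tX (xn L) (yy L) (pt R p i x)) = V.valuation (tX (xn L) (yy L) u) := by
    intro x hx
    obtain ⟨y, hy⟩ := quo h (x := x) hx0P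
    have hyP : y ∉ P := by
      intro h1
      apply hx
      have h2 := sub_mem (P.mul_mem_right x0 h1) hy
      rwa [sub_sub_cancel] at h2
    obtain ⟨α, n, hα, hI⟩ := hM p A B P V f h ι R hR y hyP
    have I := hI i
    have hpx : pt R p i x ∉ L.lattice := fun h1 => hx ((p1 x).1 h1)
    have hdif : pt R p i x - emb α * u ∈ L.lattice := by
      have h1 : x - α * x0 ∈ P := by
        have h2 : x - α * x0 = -((α - y) * x0 + (y * x0 - x)) := by ring
        rw [h2]
        exact neg_mem (add_mem (P.mul_mem_right x0 hα) hy)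
      have h3 := p4 x (α * x0) h1
      rw [p5] at h3
      have h4 := p7 α _ hx0
      have h5 : pt R p i x - emb α * u =
          (pt R p i x - emb α * pt R p i x0) - emb α * (u - pt R p i x0) := by ring
      rw [h5]
      exact sub_mem h3 h4
    obtain ⟨f1, f2, f3⟩ := Pool.Agent.TWT.t_FOI V L L (emb α) n ⟨W, ξ, G⟩ ⟨W, ξ, G⟩ I.ne I.sub
      I.odd I.unit I.ker I.vmu u hu3 hu2
    refine ⟨(Pool.Agent.MUXV.inK_congr G (Or.inl hdif)).2 f1, hpx, ?_⟩
    rw [Pool.Agent.MUXV.TRA.tX_congr G hpx f2 hdif]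
    have h6 : V.valuation (emb α * tX (xn L) (yy L) u) = V.valuation (tX (xn L) (yy L) u) := by
      rw [map_mul, I.vmu, one_mul]
    rw [← h6]
    refine Valuation.map_eq_of_sub_lt _ ?_
    rw [h6]
    refine lt_of_le_of_lt f3 ?_
    rw [pow_two]
    exact mul_lt_of_lt_one_left (lt_of_le_of_ne zero_le (Ne.symm τ0)) τ1
  -- the number of classes
  obtain ⟨hrep, hdis⟩ := Pool.Agent.MUXV.x_HRE L L (p : ℂ) H hH
  obtain ⟨T, hT⟩ := ex_rep h
  have hTc : T.card = p ^ 2 - 1 :=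
    (sit h.cq h.pp (by have := h.p5; omega) h.eP h.hP h.hV).cardT T hT
  have hcard : 2 * H.card + 1 = p ^ 2 := by
    have h1 : (H ∪ H.image (fun q => -q)).card = 2 * H.card := by
      rw [Finset.card_union_of_disjoint hdis, Finset.card_image_of_injective _ neg_injective]
      ring
    have h2 : (H ∪ H.image (fun q => -q)).card = T.card := by
      symm
      have e1 : ∀ x ∈ T, ∃ q ∈ H ∪ H.image (fun q => -q), pt R p i x - q ∈ L.lattice :=
        fun x hx => hrep.surj _ (p2 x) fun h3 => hT.nz x hx ((p1 x).1 h3)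
      choose! g hg1 hg2 using e1
      refine Finset.card_bij (fun x _ => g x) (fun x hx => hg1 x hx) ?_ ?_
      · intro x hx y hy hxy
        refine hT.inj x hx y hy ?_
        refine (p1 _).1 ?_
        have h3 := sub_mem (hg2 x hx) (hg2 y hy)
        rw [hxy] at h3
        have h4 : pt R p i (x - y) = pt R p i x - g y - (pt R p i y - g y) := by
          unfold pt
          rw [Pool.Agent.MUX.emb_sub h.cq]
          ring
        rw [h4]
        exact h3
      · intro q hq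
        obtain ⟨x, hx⟩ := p3 q (hrep.mem q hq)
        have hxP : x ∉ P := by
          intro h3
          apply hrep.ne q hq
          have h4 := add_mem hx ((p1 x).2 h3)
          rwa [sub_add_cancel] at h4
        obtain ⟨y, hy, hxy⟩ := hT.surj x hxP
        refine ⟨y, hy, ?_⟩
        refine hrep.inj _ (hg1 y hy) _ hq ?_
        have h5 := p4 x y hxy
        have h6 := hg2 y hy
        have h7 : g y - q = -((q - pt R p i x) + (pt R p i x - pt R p i y) +
            (pt R p i y - g y)) := by ring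
        rw [h7]
        exact neg_mem (add_mem (add_mem hx h5) h6)
    have h3 : 1 ≤ p ^ 2 := Nat.one_le_pow _ _ h.pp.pos
    omega
  have hall : ∀ u', (p : ℂ) * u' ∈ L.lattice → InK V L (xn L) u' := by
    intro u' hu'
    obtain ⟨x', hx'⟩ := p3 u' hu'
    by_cases hxP : x' ∈ P
    · left
      have h3 := add_mem hx' ((p1 x').2 hxP)
      rwa [sub_add_cancel] at h3
    · exact (Pool.Agent.MUXV.inK_congr G (Or.inl hx')).2 (key x' hxP).1
  have hprod := hR4 V L L a2 a4 a2 a4 hGa hGa (p : ℂ) H hp0 hIs hH p 2 h.pp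
    (by have := h.p5; omega) hvp hcard hall
  have hq : ∀ q ∈ H, V.valuation (xn L q) * V.valuation (tX (xn L) (yy L) u) ^ 2 = 1 := by
    intro q hq
    have hqL : q ∉ L.lattice := by
      intro h1
      apply hH.ne q hq
      rw [two_mul]
      exact add_mem h1 h1
    obtain ⟨x', hx'⟩ := p3 q (hH.mem q hq)
    have hxP : x' ∉ P := by
      intro h3
      apply hqL
      have h4 := add_mem hx' ((p1 x').2 h3)
      rwa [sub_add_cancel] at h4
    obtain ⟨k1, k2, k3⟩ := key x' hxP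
    rw [← k3, ← Pool.Agent.MUXV.TRA.tX_congr G hqL k2 hx']
    exact (Pool.Agent.MUXV.v_tX_lt G (hall q (hH.mem q hq)) hqL).2.2
  obtain ⟨k1, k2, k3⟩ := key x hx
  refine ⟨k1, k2, ?_⟩
  rw [k3]
  have h9 : (∏ q ∈ H, V.valuation (xn L q)) * (V.valuation (tX (xn L) (yy L) u) ^ 2) ^ H.card =
      1 := by
    rw [← Finset.prod_const, ← Finset.prod_mul_distrib]
    exact Finset.prod_eq_one hq
  have h10 : p ^ 2 - 1 = 2 * H.card := by omega
  rw [h10, pow_mul]
  calc (V.valuation (tX (xn L) (yy L) u) ^ 2) ^ H.card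
      = (V.valuation (p : ℂ) * ∏ q ∈ H, V.valuation (xn L q)) *
        (V.valuation (tX (xn L) (yy L) u) ^ 2) ^ H.card := by rw [hprod, one_mul]
    _ = V.valuation (p : ℂ) * ((∏ q ∈ H, V.valuation (xn L q)) *
        (V.valuation (tX (xn L) (yy L) u) ^ 2) ^ H.card) := by rw [mul_assoc]
    _ = V.valuation (p : ℂ) := by rw [h9, mul_one]

end

end Pool.Agent.TWI


end

section

/-!
# TWI, module KY1 (helper55): the product of `Θ(z + S x)` to the first order, one lattice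
-/

set_option autoImplicit false

open WeierstrassCurve

namespace Pool.Agent.TWI

open _root_.MU3 Pool.Agent.MU3A Pool.Agent.MU3B Pool.Agent.MUX Pool.Agent.MUXU Pool.Agent.TWT
open Pool.Agent.MUXV (GR InK tX)

noncomputable section

namespace KY1

variable {V : ValuationSubring ℂ}

/-- `x ^ m < 1` gives `x < 1` -/
lemma lt_one_of_pow {x : V.ValueGroup} {m : ℕ} (h : x ^ m < 1) : x < 1 := by
  by_contra hcon
  exact absurd h (not_lt.2 (one_le_pow_of_one_le' (not_lt.1 hcon) m))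

end KY1

theorem i_KY1 : S_KY1 := by
  intro V L a2 a4 hGRa p hp hp5 hpV lam hlam J T ζ S hζ hps hpN hTc w0 t0 hw0 ht0p hS
  obtain ⟨W, ξ, G, -, -⟩ := hGRa
  have hpp : 5 * 5 ≤ p ^ 2 := by
    rw [pow_two]
    exact Nat.mul_le_mul hp5 hp5
  obtain ⟨m, hm⟩ : ∃ m, p ^ 2 = m + 1 := ⟨p ^ 2 - 1, by omega⟩
  have hm1 : 1 ≤ m := by omega
  have hvq : V.valuation ((m + 1 : ℕ) : ℂ) ≤ V.valuation (p : ℂ) := by
    rw [← hm, Nat.cast_pow, map_pow, pow_two]
    exact (mul_le_mul' hpV.le le_rfl).trans_eq (one_mul _)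
  have hp0 : (p : ℂ) ≠ 0 := Nat.cast_ne_zero.2 hp.ne_zero
  rw [hm] at hlam
  simp only [hm, Nat.add_sub_cancel, show m + 1 - 2 = m - 1 by omega] at hps hpN hTc ht0p hS ⊢
  have ht1 : V.valuation t0 < 1 := KY1.lt_one_of_pow (by rw [ht0p]; exact hpV)
  have ht0 : V.valuation t0 ≠ 0 := by
    intro h
    rw [h, zero_pow (by omega)] at ht0p
    exact (Valuation.ne_zero_iff V.valuation).2 hp0 ht0p.symm
  have hwv : V.valuation w0 = V.valuation t0 := by
    have h1 : V.valuation (w0 - t0) < V.valuation t0 := by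
      refine hw0.trans_lt ?_
      rw [pow_two]
      exact mul_lt_of_lt_one_left (zero_lt_iff.2 ht0) ht1
    have h2 := Valuation.map_add_eq_of_lt_left V.valuation h1
    rw [add_sub_cancel] at h2
    exact h2
  generalize V.valuation t0 = τ at *
  intro a H ha1 hav hH z hz haz
  obtain ⟨θ, hθ⟩ := t_THT V W L ξ G a H ha1 hav hH a2 a4
  have hzu : ∀ u : ℂ, InK V L (xn L) u → ¬ InK V L (xn L) (z + u) := by
    intro u hu h
    exact hz ((Pool.Agent.MUXV.inK_congr G (z := z + u) (w := z)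
      (by rw [add_sub_cancel_left]; exact hu)).1 h)
  have hazu : ∀ u : ℂ, InK V L (xn L) u → ¬ InK V L (xn L) (a * (z + u)) := by
    intro u hu h
    refine haz ((Pool.Agent.MUXV.inK_congr G (z := a * (z + u)) (w := a * z) ?_).1 h)
    have e : (a : ℂ) * (z + u) - a * z = (a : ℂ) * u := by ring
    rw [e]
    exact Pool.Agent.MUXV.inK_nat G hu a
  have hT := fun (u : ℂ) (hu : InK V L (xn L) u) => hθ (z + u) (hzu u hu) (hazu u hu)
  obtain ⟨hT0, hTu, -, -⟩ := hθ z hz haz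
  refine ⟨fun u hu => ⟨(hT u hu).2.1, (hT u hu).2.2.2⟩, ?_⟩
  generalize hT0d : ThetaH L H z = T0 at hT0 hTu ⊢
  have hT00 : T0 ≠ 0 := by
    intro h
    rw [h, map_zero] at hTu
    exact zero_ne_one hTu
  -- coefficients
  have hAint : ∀ (f : MvPolynomial (Fin 2) V) (k : ℕ), k < m + 1 →
      V.valuation (dd L a2 a4 f k z) ≤ 1 := fun f k hk => hlam.dint z hz f k hk
  have hcw : ∀ x ∈ T, V.valuation (ζ x * w0) ≤ τ := by
    intro x hx
    rw [map_mul, hwv]
    exact (mul_le_mul' (hζ x hx) le_rfl).trans_eq (one_mul _)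
  -- the Taylor expansion with `ζ x w0`
  have tay' : ∀ (f : MvPolynomial (Fin 2) V), ∀ x ∈ T,
      V.valuation (MvPolynomial.aeval ![xn L (z + S x), yy L (z + S x)] f -
        ∑ k ∈ Finset.range (m + 1), dd L a2 a4 f k z * (ζ x * w0) ^ k) ≤ τ ^ (m + 1) := by
    intro f x hx
    obtain ⟨hK, hL, hτx, hadv⟩ := hS x hx
    have h3 := hlam.tay (S x) hK hL z hz f
    rw [hτx] at h3
    have h5 : V.valuation (vpi lam (m + 1) (tX (xn L) (yy L) (S x))) ≤ 1 := by
      unfold vpi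
      apply KEY.sum_le'
      intro j _
      rw [map_mul, map_pow, hτx]
      exact (mul_le_mul' (hlam.int j) (pow_le_one' ht1.le j)).trans_eq (one_mul _)
    have e : MvPolynomial.aeval ![xn L (z + S x), yy L (z + S x)] f -
        ∑ k ∈ Finset.range (m + 1), dd L a2 a4 f k z * (ζ x * w0) ^ k =
        (MvPolynomial.aeval ![xn L (z + S x), yy L (z + S x)] f -
        ∑ k ∈ Finset.range (m + 1), MvPolynomial.aeval ![xn L z, yy L z] ((dW a2 a4)^[k] f) /
          (k.factorial : ℂ) * vpi lam (m + 1) (tX (xn L) (yy L) (S x)) ^ k) +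
        ∑ k ∈ Finset.range (m + 1), dd L a2 a4 f k z *
          (vpi lam (m + 1) (tX (xn L) (yy L) (S x)) ^ k - (ζ x * w0) ^ k) := by
      simp only [dd, mul_sub, Finset.sum_sub_distrib]
      ring
    rw [e]
    apply KEY.add_le' h3
    apply KEY.sum_le'
    intro k hk
    rw [map_mul]
    refine (mul_le_mul' (hAint _ k (Finset.mem_range.1 hk)) (KEY.pow_close h5 ?_ hadv k)).trans_eq
      (one_mul _)
    exact (hcw x hx).trans ht1.le
  -- elements of `V`
  have hmemV : ∀ x : ℂ, V.valuation x ≤ 1 → x ∈ V := fun x hx =>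
    (ValuationSubring.valuation_le_one_iff _ _).1 hx
  classical
  obtain ⟨lift, hlift⟩ : ∃ lift : ℂ → V, ∀ x : ℂ, V.valuation x ≤ 1 → ((lift x : V) : ℂ) = x := by
    refine ⟨fun x => if h : x ∈ V then ⟨x, h⟩ else 0, fun x hx => ?_⟩
    simp only [dif_pos (hmemV x hx)]
  obtain ⟨e, he⟩ : ∃ e : ℕ → V, ∀ k, k < m + 1 → ((e k : V) : ℂ) = dd L a2 a4 θ k z / T0 := by
    refine ⟨fun k => lift (dd L a2 a4 θ k z / T0), fun k hk => hlift _ ?_⟩
    rw [map_div₀, hTu, div_one]
    exact hAint _ k hk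
  obtain ⟨f, hf⟩ : ∃ f : J → V, ∀ x ∈ T, ((f x : V) : ℂ) = ThetaH L H (z + S x) / T0 := by
    refine ⟨fun x => lift (ThetaH L H (z + S x) / T0), fun x hx => hlift _ ?_⟩
    rw [map_div₀, hTu, div_one]
    exact (hT (S x) (hS x hx).1).2.1.le
  obtain ⟨g, hg⟩ : ∃ g : J → V, ∀ x ∈ T, ((g x : V) : ℂ) = dlX L a (z + S x) :=
    ⟨fun x => lift (dlX L a (z + S x)), fun x hx => hlift _ (hT (S x) (hS x hx).1).2.2.2⟩
  obtain ⟨ζV, hζV⟩ : ∃ ζV : J → V, ∀ x ∈ T, ((ζV x : V) : ℂ) = ζ x :=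
    ⟨fun x => lift (ζ x), fun x hx => hlift _ (hζ x hx)⟩
  obtain ⟨wV, hwV⟩ : ∃ wV : V, (wV : ℂ) = w0 :=
    ⟨lift w0, hlift _ (by rw [hwv]; exact ht1.le)⟩
  obtain ⟨I, hI⟩ : ∃ I : Ideal V, ∀ r : V, r ∈ I ↔ V.valuation (r : ℂ) ≤ τ ^ (m + 1) := by
    refine ⟨{ carrier := {r : V | V.valuation (r : ℂ) ≤ τ ^ (m + 1)}
              add_mem' := ?_
              zero_mem' := ?_
              smul_mem' := ?_ }, fun r => Iff.rfl⟩
    · intro r s hr hs
      show V.valuation (((r + s : V)) : ℂ) ≤ τ ^ (m + 1)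
      rw [show (((r + s : V)) : ℂ) = (r : ℂ) + s from rfl]
      exact KEY.add_le' hr hs
    · show V.valuation (((0 : V)) : ℂ) ≤ τ ^ (m + 1)
      simp
    · intro r s hs
      show V.valuation (((r * s : V)) : ℂ) ≤ τ ^ (m + 1)
      rw [show (((r * s : V)) : ℂ) = (r : ℂ) * s from rfl, map_mul]
      exact (mul_le_mul' ((ValuationSubring.valuation_le_one_iff _ _).2 r.2) hs).trans_eq
        (one_mul _)
  have cS : ∀ (h : ℕ → V) (s : Finset ℕ), ((∑ k ∈ s, h k : V) : ℂ) = ∑ k ∈ s, ((h k : V) : ℂ) :=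
    fun h s => map_sum V.subtype h s
  have cSJ : ∀ (h : J → V) (s : Finset J), ((∑ k ∈ s, h k : V) : ℂ) = ∑ k ∈ s, ((h k : V) : ℂ) :=
    fun h s => map_sum V.subtype h s
  have cPJ : ∀ (h : J → V) (s : Finset J), ((∏ k ∈ s, h k : V) : ℂ) = ∏ k ∈ s, ((h k : V) : ℂ) :=
    fun h s => map_prod V.subtype h s
  have cN : ∀ c : ℕ, (((c : ℕ) : V) : ℂ) = (c : ℂ) := fun c => map_natCast V.subtype c
  have hK := t_KYI V m hm1 J T ζV ?_ ?_ I wV ?_ ?_ e f g ?_ ?_ ?_
  · obtain ⟨hK1, r, hK2⟩ := hK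
    rw [hI] at hK1 hK2
    have hSum : ((∑ x ∈ T, ζV x * g x : V) : ℂ) = ∑ x ∈ T, ζ x * dlX L a (z + S x) := by
      rw [cSJ]
      refine Finset.sum_congr rfl fun x hx => ?_
      rw [← hg x hx, ← hζV x hx]
      rfl
    have hP : ((∏ x ∈ T, f x : V) : ℂ) = (∏ x ∈ T, ThetaH L H (z + S x)) / T0 ^ m := by
      rw [cPJ, Finset.prod_congr rfl fun x hx => hf x hx, Finset.prod_div_distrib,
        Finset.prod_const, hTc]
    rw [show ((∏ x ∈ T, f x - 1 + wV * ∑ x ∈ T, ζV x * g x : V) : ℂ) =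
        ((∏ x ∈ T, f x : V) : ℂ) - 1 + (wV : ℂ) * ((∑ x ∈ T, ζV x * g x : V) : ℂ) from rfl,
      hP, hSum, hwV] at hK1
    rw [show ((wV * ∑ x ∈ T, ζV x * g x - r * wV ^ m : V) : ℂ) =
        (wV : ℂ) * ((∑ x ∈ T, ζV x * g x : V) : ℂ) - (r : ℂ) * (wV : ℂ) ^ m from rfl,
      hSum, hwV] at hK2
    generalize ∑ x ∈ T, ζ x * dlX L a (z + S x) = SS at *
    generalize ∏ x ∈ T, ThetaH L H (z + S x) = Q at *
    constructor
    · have h3 : V.valuation (w0 * SS) ≤ τ ^ m := by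
        have e3 : w0 * SS = (w0 * SS - (r : ℂ) * w0 ^ m) + (r : ℂ) * w0 ^ m := by ring
        rw [e3]
        apply KEY.add_le'
        · exact hK2.trans (pow_le_pow_right_of_le_one' ht1.le (by omega))
        · rw [map_mul, map_pow, hwv]
          exact (mul_le_mul' ((ValuationSubring.valuation_le_one_iff _ _).2 r.2)
            le_rfl).trans_eq (one_mul _)
      rw [map_mul, hwv] at h3
      have e4 : τ ^ m = τ * τ ^ (m - 1) := by
        rw [← pow_succ']
        congr 1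
        omega
      rw [e4] at h3
      exact (mul_le_mul_iff_right₀ (zero_lt_iff.2 ht0)).1 h3
    · have e3 : Q - T0 ^ m * (1 - w0 * SS) = T0 ^ m * (Q / T0 ^ m - 1 + w0 * SS) := by
        have : T0 ^ m ≠ 0 := pow_ne_zero _ hT00
        field_simp
        ring
      rw [e3, map_mul, map_pow, hTu, one_pow, one_mul]
      exact hK1
  · intro j hj0 hj1
    apply Subtype.ext
    rw [cSJ]
    refine Eq.trans ?_ (hps j hj0 hj1)
    refine Finset.sum_congr rfl fun x hx => ?_
    rw [show (((ζV x ^ j : V)) : ℂ) = (ζV x : ℂ) ^ j from rfl, hζV x hx]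
  · apply Subtype.ext
    rw [cSJ, cN]
    refine Eq.trans ?_ hpN
    refine Finset.sum_congr rfl fun x hx => ?_
    rw [show (((ζV x ^ m : V)) : ℂ) = (ζV x : ℂ) ^ m from rfl, hζV x hx]
  · rw [hI]
    rw [show (((wV ^ (m + 1) : V)) : ℂ) = (wV : ℂ) ^ (m + 1) from rfl, hwV, map_pow, hwv]
  · rw [hI]
    rw [show ((((m : V) + 1) * wV ^ m : V) : ℂ) = (((m : V) : ℂ) + 1) * (wV : ℂ) ^ m from rfl,
      cN, hwV, map_mul, map_pow, hwv, pow_succ', ← Nat.cast_succ]
    refine mul_le_mul' (hvq.trans ?_) le_rfl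
    rw [← ht0p]
    exact (pow_le_pow_right_of_le_one' ht1.le hm1).trans_eq (pow_one _)
  · have h3 := he 0 (by omega)
    apply Subtype.ext
    rw [h3]
    unfold dd
    simp only [Function.iterate_zero, id_eq, Nat.factorial_zero, Nat.cast_one, div_one, hT0]
    rw [div_self hT00]
    rfl
  · intro x hx
    rw [hI]
    have h3 := tay' θ x hx
    rw [(hT (S x) (hS x hx).1).1] at h3
    have e3 : ((f x - ∑ k ∈ Finset.range (m + 1), e k * (ζV x * wV) ^ k : V) : ℂ) =
        (ThetaH L H (z + S x) -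
        ∑ k ∈ Finset.range (m + 1), dd L a2 a4 θ k z * (ζ x * w0) ^ k) / T0 := by
      rw [show ((f x - ∑ k ∈ Finset.range (m + 1), e k * (ζV x * wV) ^ k : V) : ℂ) =
        ((f x : V) : ℂ) - ((∑ k ∈ Finset.range (m + 1), e k * (ζV x * wV) ^ k : V) : ℂ) from rfl,
        hf x hx, cS, sub_div, Finset.sum_div]
      congr 1
      refine Finset.sum_congr rfl fun k hk => ?_
      rw [show ((e k * (ζV x * wV) ^ k : V) : ℂ) = ((e k : V) : ℂ) *
        ((ζV x : ℂ) * (wV : ℂ)) ^ k from rfl, he k (Finset.mem_range.1 hk), hwV, hζV x hx]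
      ring
    rw [e3, map_div₀, hTu, div_one]
    exact h3
  · intro x hx
    rw [hI]
    have h3 := tay' (dW a2 a4 θ) x hx
    rw [(hT (S x) (hS x hx).1).2.2.1] at h3
    have h4 : V.valuation (dd L a2 a4 (dW a2 a4 θ) m z * (ζ x * w0) ^ (m + 1)) ≤
        τ ^ (m + 1) := by
      rw [map_mul, map_pow]
      exact (mul_le_mul' (hAint _ m (by omega)) (pow_le_pow_left' (hcw x hx) _)).trans_eq
        (one_mul _)
    have e4 : (ζ x * w0 : ℂ) * ∑ k ∈ Finset.range (m + 1),
          dd L a2 a4 (dW a2 a4 θ) k z * (ζ x * w0) ^ k =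
        ∑ k ∈ Finset.range (m + 1), (k : ℂ) * dd L a2 a4 θ k z * (ζ x * w0) ^ k +
        dd L a2 a4 (dW a2 a4 θ) m z * (ζ x * w0) ^ (m + 1) := by
      rw [Finset.mul_sum, Finset.sum_range_succ, Finset.sum_range_succ']
      congr 1
      · rw [Nat.cast_zero, zero_mul, zero_mul, add_zero]
        refine Finset.sum_congr rfl fun k _ => ?_
        unfold dd
        rw [← Function.iterate_succ_apply, Nat.factorial_succ]
        have h5 : ((k.factorial : ℕ) : ℂ) ≠ 0 := Nat.cast_ne_zero.2 (Nat.factorial_ne_zero _)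
        have h6 : ((k : ℂ) + 1) ≠ 0 := Nat.cast_add_one_ne_zero k
        push_cast
        field_simp
        rw [pow_succ]
        ring
      · ring
    have e3 : ((ζV x * wV * (g x * f x) - ∑ k ∈ Finset.range (m + 1),
          (k : V) * e k * (ζV x * wV) ^ k : V) : ℂ) =
        ((ζ x * w0 : ℂ) * (ThetaH L H (z + S x) * dlX L a (z + S x) -
          ∑ k ∈ Finset.range (m + 1), dd L a2 a4 (dW a2 a4 θ) k z * (ζ x * w0) ^ k) +
        dd L a2 a4 (dW a2 a4 θ) m z * (ζ x * w0) ^ (m + 1)) / T0 := by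
      rw [mul_sub, e4, show ((ζV x * wV * (g x * f x) - ∑ k ∈ Finset.range (m + 1),
          (k : V) * e k * (ζV x * wV) ^ k : V) : ℂ) =
        (ζV x : ℂ) * (wV : ℂ) * (((g x : V) : ℂ) * ((f x : V) : ℂ)) -
          ((∑ k ∈ Finset.range (m + 1), (k : V) * e k * (ζV x * wV) ^ k : V) : ℂ) from rfl,
        cS, hwV, hg x hx, hf x hx]
      have e5 : ∑ k ∈ Finset.range (m + 1), (((k : V) * e k * (ζV x * wV) ^ k : V) : ℂ) =
          (∑ k ∈ Finset.range (m + 1), (k : ℂ) * dd L a2 a4 θ k z * (ζ x * w0) ^ k) / T0 := by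
        rw [Finset.sum_div]
        refine Finset.sum_congr rfl fun k hk => ?_
        rw [show (((k : V) * e k * (ζV x * wV) ^ k : V) : ℂ) = (((k : ℕ) : V) : ℂ) *
          ((e k : V) : ℂ) * ((ζV x : ℂ) * (wV : ℂ)) ^ k from rfl, cN, hwV, hζV x hx,
          he k (Finset.mem_range.1 hk)]
        ring
      rw [e5, hζV x hx]
      ring
    rw [e3, map_div₀, hTu, div_one]
    apply KEY.add_le' _ h4
    rw [map_mul]
    exact (mul_le_mul' ((hcw x hx).trans ht1.le) h3).trans_eq (one_mul _)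

end

end Pool.Agent.TWI


end

section

/-!
# TWI_SDEI: from the logarithmic derivatives to `ee`, `p` inert
-/

set_option autoImplicit false

open WeierstrassCurve Polynomial NumberField IsDedekindDomain

namespace Pool.Agent.TWI

open _root_.MU3 Pool.Agent.MU3A Pool.Agent.MU3B Pool.Agent.MU3C Pool.Agent.RI Pool.Agent.RID
open Pool.Agent.MUX Pool.Agent.MUXU Pool.Agent.MUXW Pool.Agent.TWT
open Pool.Agent.MU3V (cls Sub GD algDF)
open Pool.Agent.MUXV (GR InK tX)
open Pool.Agent.MUXI (IA RE AR)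

noncomputable section

open Pool.Agent.TWT.SDE in
theorem t_SDEI (h1 : S_IDPI) : S_SDEI := by
  intro p A B P V f hS ι _ R w hw kp eta hC l N hl hlf ψ a ha1 hac hunit
  obtain ⟨id2, -⟩ := h1 p A B P V f hS
  have hcq := hS.cq
  set M : ℕ := f * l ^ N * p with hM
  have hM0 : M ≠ 0 := mul_ne_zero (mul_ne_zero hS.f0 (pow_ne_zero _ hl.ne_zero)) hS.pp.ne_zero
  -- coprimality
  have haf : a.Coprime f := Nat.Coprime.coprime_dvd_right ⟨6 * p, by ring⟩ hac
  have hap : a.Coprime p := Nat.Coprime.coprime_dvd_right ⟨6 * f, by ring⟩ hac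
  have hal : a.Coprime l := Nat.Coprime.coprime_dvd_right hlf haf
  have haM : a.Coprime M := by
    rw [hM]
    exact Nat.Coprime.mul_right (Nat.Coprime.mul_right haf (Nat.Coprime.pow_right _ hal)) hap
  have hcO : ∀ b : ℕ, a.Coprime b → IsCoprime ((a : ℕ) : OO A B) ((b : ℕ) : OO A B) := by
    intro b hb
    have h5 := (Nat.isCoprime_iff_coprime.2 hb).map (Int.castRingHom (OO A B))
    simpa using h5
  have haP : ((a : ℕ) : OO A B) ∉ P := by
    intro h
    have h3 := (id2 (a : ℤ)).1 (by simpa using h)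
    have h4 : p ∣ a := by exact_mod_cast h3
    have h5 : p ∣ 1 := by
      rw [← hap.gcd_eq_one]
      exact Nat.dvd_gcd h4 dvd_rfl
    exact hS.pp.one_lt.ne' (Nat.dvd_one.1 h5)
  have hwa : w (a : OO A B) ≠ 0 := fun h => haP ((hw.zero _).1 h)
  have hpP : ((p : ℕ) : OO A B) ∈ P := by
    have h := (id2 (p : ℤ)).2 dvd_rfl
    simpa using h
  have hpM : ((M : ℕ) : OO A B) ∈ P := by
    rw [hM, Nat.cast_mul]
    exact P.mul_mem_left _ hpP
  have hMP : ∀ x : OO A B, x ∈ idl (A := A) (B := B) M → x ∈ P := by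
    intro x hx
    obtain ⟨t, rfl⟩ := Ideal.mem_span_singleton.1 hx
    exact P.mul_mem_right _ hpM
  have hMf : ∀ x : OO A B, x ∈ idl (A := A) (B := B) M → x ∈ idl (A := A) (B := B) f := by
    intro x hx
    obtain ⟨t, rfl⟩ := Ideal.mem_span_singleton.1 hx
    rw [Ideal.mem_span_singleton]
    refine Dvd.dvd.mul_right ?_ _
    exact Nat.cast_dvd_cast ⟨l ^ N * p, by rw [hM]; ring⟩
  have hMl : ∀ x : OO A B, x ∈ idl (A := A) (B := B) M → x ∈ idl (A := A) (B := B) (l ^ N) := by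
    intro x hx
    obtain ⟨t, rfl⟩ := Ideal.mem_span_singleton.1 hx
    rw [Ideal.mem_span_singleton]
    refine Dvd.dvd.mul_right ?_ _
    exact Nat.cast_dvd_cast ⟨f * p, by rw [hM]; ring⟩
  -- the character
  have hth : ∀ (i : ι) (x : OO A B), thT R kp eta ψ i ((a : OO A B) * x) =
      thT R kp eta ψ R.i0 (a : OO A B) * thT R kp eta ψ i x := by
    intro i x
    unfold thT
    rw [hC.mul, hC.kp0, R.b0, nI_top, nm_nat_mul, nm_nat]
    have e1 : (((a : ℤ) ^ 2 * nm x * (nI (R.b i) : ℤ) : ℤ) : ZMod (l ^ N)) =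
        (((a : ℤ) ^ 2 * ((1 : ℕ) : ℤ) : ℤ) : ZMod (l ^ N)) *
          ((nm x * (nI (R.b i) : ℤ) : ℤ) : ZMod (l ^ N)) := by
      push_cast
      ring
    rw [e1, map_mul]
    ring
  have hth_per : ∀ (i : ι) (x y : OO A B), x - y ∈ idl (A := A) (B := B) M →
      thT R kp eta ψ i x = thT R kp eta ψ i y := by
    intro i x y hxy
    unfold thT
    rw [hC.per x y (hMf _ hxy)]
    have h3 := nm_per (l ^ N) (hMl _ hxy)
    have h4 : ((nm x * (nI (R.b i) : ℤ) : ℤ) : ZMod (l ^ N)) =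
        ((nm y * (nI (R.b i) : ℤ) : ℤ) : ZMod (l ^ N)) := by
      rw [← sub_eq_zero, ← Int.cast_sub, ZMod.intCast_zmod_eq_zero_iff_dvd, ← sub_mul]
      exact h3.mul_right _
    rw [h4]
  set c0 : ℂ := thT R kp eta ψ R.i0 (a : OO A B) with hc0
  -- `c0` has valuation one
  have hv0 : V.valuation c0 = 1 := by
    rw [hc0]
    unfold thT
    rw [hC.kp0, one_mul, map_mul]
    obtain ⟨r, hr, -, hr2⟩ := hC.fin
    have hr0 : r ≠ 0 := fun h => hr (h ▸ dvd_zero p)
    have he : eta (a : OO A B) ≠ 0 := by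
      rw [hC.supp, Ideal.isCoprime_span_singleton_iff]
      exact hcO f haf
    rw [val_root V hr0 (hr2 _ he), one_mul, R.b0, nI_top, nm_nat]
    have hu : IsUnit ((((a : ℤ) ^ 2 * ((1 : ℕ) : ℤ) : ℤ)) : ZMod (l ^ N)) := by
      have h5 : ((((a : ℤ) ^ 2 * ((1 : ℕ) : ℤ) : ℤ)) : ZMod (l ^ N)) =
          ((a : ℕ) : ZMod (l ^ N)) ^ 2 := by push_cast; ring
      rw [h5]
      exact ((ZMod.isUnit_iff_coprime a (l ^ N)).2 (Nat.Coprime.pow_right _ hal)).pow 2
    obtain ⟨u, hu⟩ := hu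
    rw [← hu]
    have : NeZero (l ^ N) := ⟨pow_ne_zero _ hl.ne_zero⟩
    refine val_root V (r := Fintype.card (ZMod (l ^ N))ˣ) Fintype.card_ne_zero ?_
    rw [← map_pow, ← Units.val_pow_eq_pow_val, pow_card_eq_one, Units.val_one, map_one]
  have hc00 : c0 ≠ 0 := by
    intro h
    rw [h, map_zero] at hv0
    exact zero_ne_one hv0
  -- valuation of `w a`
  have hvw : V.valuation (w (a : OO A B)) = 1 :=
    val_root V (Nat.sub_ne_zero_of_lt (Nat.one_lt_pow two_ne_zero hS.pp.one_lt)) (hw.root _ haP)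
  have hint : V.valuation ((a : ℂ) - w (a : OO A B)) < 1 := by
    have h3 := hw.red (a : OO A B)
    rw [Valuation.map_sub_swap]
    simpa [emb] using h3
  have hq : V.valuation ((a : ℂ) / w (a : OO A B) - 1) < 1 := by
    rw [show (a : ℂ) / w (a : OO A B) - 1 = ((a : ℂ) - w (a : OO A B)) / w (a : OO A B) by
      field_simp, map_div₀, hvw, div_one]
    exact hint
  -- the sums
  have hfin := finR (A := A) (B := B) M hM0
  have key : ∀ i : ι, sumMod ((M : ℕ) : OO A B) (fun x =>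
      thT R kp eta ψ i x * w x * dlX (R.L i) a (pt R M i x)) =
      ((a : ℂ) * (c0 * w (a : OO A B))⁻¹ - (a : ℂ) ^ 2) * sumMod ((M : ℕ) : OO A B) (fun x =>
      thT R kp eta ψ i x * w x * ee (R.L i) (pt R M i x)) := by
    intro i
    obtain ⟨ptp1, ptp2⟩ := Pool.Agent.MUXI.ti_PTP A B hcq (p * f) ι R M hM0 i
    set G : OO A B → ℂ := fun x =>
      thT R kp eta ψ i x * w x * ee (R.L i) (pt R M i x) with hG
    have hGp : ∀ x y, x - y ∈ Ideal.span {((M : ℕ) : OO A B)} → G x = G y := by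
      intro x y hxy
      simp only [hG]
      rw [hth_per i x y hxy, hw.per x y (hMP _ hxy), (ptp1 x y hxy).2.1]
    have e1 := sumMod_mul (hcO M haM) hGp
    have e2 : sumMod ((M : ℕ) : OO A B) (fun x =>
        thT R kp eta ψ i x * w x * dlX (R.L i) a (pt R M i x)) =
        (a : ℂ) * (c0 * w (a : OO A B))⁻¹ *
          sumMod ((M : ℕ) : OO A B) (fun x => G (((a : ℕ) : OO A B) * x)) -
        (a : ℂ) ^ 2 * sumMod ((M : ℕ) : OO A B) G := by
      rw [← sumMod_cmul, ← sumMod_cmul, ← sumMod_sub hfin]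
      congr 1
      funext x
      simp only [hG]
      rw [hth, hw.mul, ← ptp2]
      unfold dlX
      field_simp
    rw [e2, e1]
    ring
  have hSDT : SDTI R M a (thT R kp eta ψ) w =
      ((a : ℂ) * (c0 * w (a : OO A B))⁻¹ - (a : ℂ) ^ 2) * SSTI R M (thT R kp eta ψ) w := by
    unfold SDTI SSTI
    rw [Finset.mul_sum]
    refine Finset.sum_congr rfl fun i _ => ?_
    rw [key i]
    ring
  have hfac : (a : ℂ) * (c0 * w (a : OO A B))⁻¹ - (a : ℂ) ^ 2 =
      c0⁻¹ * (((a : ℂ) / w (a : OO A B) - 1) + (1 - (a : ℂ) ^ 2 * c0)) := by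
    field_simp
    ring
  have hvf : V.valuation ((a : ℂ) * (c0 * w (a : OO A B))⁻¹ - (a : ℂ) ^ 2) = 1 := by
    rw [hfac, map_mul, map_inv₀, hv0, inv_one, one_mul, Valuation.map_add_eq_of_lt_right]
    · exact hunit
    · rw [hunit]
      exact hq
  rw [hSDT, map_mul, hvf, one_mul]

end

end Pool.Agent.TWI


end

section

/-! # TWI, block C4, module YTAU (helper34): the number `tau` -/

set_option autoImplicit false

namespace Pool.Agent.TWI

open _root_.MU3 Pool.Agent.MU3A Pool.Agent.MU3B Pool.Agent.MU3C Pool.Agent.RI Pool.Agent.RID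
open Pool.Agent.MUX Pool.Agent.MUXU Pool.Agent.MUXW Pool.Agent.TWT
open Pool.Agent.MUXV (GR InK tX)
open Pool.Agent.MUXY (ActN Dn)
open Pool.Agent.NST (ActT KIn)

noncomputable section

namespace YTAU

lemma per (L : PeriodPair) {z u : ℂ} (h : z - u ∈ L.lattice) :
    L.weierstrassP z = L.weierstrassP u ∧ L.derivWeierstrassP z = L.derivWeierstrassP u := by
  have h1 : z = u + ((⟨z - u, h⟩ : L.lattice) : ℂ) := by
    show z = u + (z - u)
    ring
  constructor
  · conv_lhs => rw [h1]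
    exact L.weierstrassP_add_coe _ _
  · conv_lhs => rw [h1]
    exact L.derivWeierstrassP_add_coe _ _

end YTAU

open _root_.Pool.Agent.TWI.YTAU in
theorem t_YTAU (h1 : S_YALT) (h2 : S_KRI) (h3 : S_TRI) : S_YTAU := by
  classical
  intro p A B P V f hS hTor ι R hg w hw
  have hcq := hS.cq
  have hp := hS.pp
  have hp5 := hS.p5
  obtain ⟨hcard, hvq, hemb, -, ⟨T, hT⟩, -, -, hTT, hwall⟩ := t_TEP p A B P V f hS
  obtain ⟨hwm, hw1, hwle, hwc⟩ := hwall w hw
  obtain ⟨hTc, hperm, -⟩ := hTT T hT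
  obtain ⟨hq1, hq2, hq3, hq4, hq5, -, -⟩ := i_PTI p A B P V f hS ι R R.i0
  set L := R.L R.i0 with hL
  set t : OO A B → ℂ := fun x => tX (xn L) (yy L) (pt R p R.i0 x) with ht
  have h1P : (1 : OO A B) ∉ P := (Ideal.ne_top_iff_one _).1 hS.hP.ne_top
  obtain ⟨-, -, hk1⟩ := h2 p A B P V f hS ι R hg R.i0 1 h1P
  have hpP : ((p : ℕ) : OO A B) ∈ P := by
    rw [hS.eP]
    exact Ideal.mem_span_singleton_self _
  have hvp : V.valuation (p : ℂ) < 1 := by
    have h4 := (hemb ((p : ℕ) : OO A B)).2.1.2 hpP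
    rwa [emb_natCast hcq] at h4
  have hvp0 : V.valuation (p : ℂ) ≠ 0 := by
    rw [Ne, map_eq_zero]
    exact_mod_cast hp.ne_zero
  have hq0 : 0 < p ^ 2 - 1 := by
    have : 25 ≤ p ^ 2 := by nlinarith
    omega
  have hk1' : V.valuation (t 1) ^ (p ^ 2 - 1) = V.valuation (p : ℂ) := hk1
  have ht1 : V.valuation (t 1) < 1 := by
    by_contra hc
    have h4 := one_le_pow₀ (not_lt.1 hc) (n := p ^ 2 - 1)
    rw [hk1'] at h4
    exact absurd hvp (not_lt.2 h4)
  have ht0 : V.valuation (t 1) ≠ 0 := by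
    intro h0
    rw [h0, zero_pow hq0.ne'] at hk1'
    exact hvp0 hk1'.symm
  have hw0 : ∀ x, x ∉ P → w x ≠ 0 := fun x hx h0 => hx ((hw.zero x).1 h0)
  -- the function `F`
  set F : OO A B → ℂ := fun x => (w x)⁻¹ * t x with hF
  have hFper : ∀ x y : OO A B, x - y ∈ P → F x = F y := by
    intro x y hxy
    have h4 := per L (hq4 x y hxy)
    have h5 : t x = t y := by
      simp only [ht, tX, xn, yy]
      rw [h4.1, h4.2]
    simp only [hF]
    rw [h5, hw.per x y hxy]
  refine ⟨∑ x ∈ T, F x, ?_, ?_, ?_⟩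
  · -- the valuation
    have hsum : ∑ x ∈ T, F x = ((p ^ 2 - 1 : ℕ) : ℂ) * t 1 + ∑ x ∈ T, (F x - t 1) := by
      rw [Finset.sum_sub_distrib, Finset.sum_const, hTc, nsmul_eq_mul]
      ring
    have hlt : V.valuation (∑ x ∈ T, (F x - t 1)) < V.valuation (t 1) := by
      apply Valuation.map_sum_lt _ ht0
      intro x hx
      have hxP := hT.nz x hx
      have h5 : F x - t 1 = (w x)⁻¹ * (t x - w x * t 1) := by
        simp only [hF]
        have := hw0 x hxP
        field_simp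
      rw [h5, map_mul, map_inv₀, hw1 x hxP, inv_one, one_mul]
      calc V.valuation (t x - w x * t 1) ≤ V.valuation (t 1) ^ 2 :=
            h3 p A B P V f hS w hw ι R hg R.i0 x hxP
        _ < V.valuation (t 1) := by
            rw [pow_two]
            have h6 := mul_lt_mul_of_pos_right ht1 (zero_lt_iff.2 ht0)
            rwa [one_mul] at h6
    have h9 : V.valuation (((p ^ 2 - 1 : ℕ) : ℂ) * t 1) = V.valuation (t 1) := by
      rw [map_mul, hvq, one_mul]
    rw [hsum, Valuation.map_add_eq_of_lt_left _ (by rw [h9]; exact hlt), h9, hk1']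
  · -- algebraic
    rw [isAlgebraic_iff_isIntegral]
    apply IsIntegral.sum
    intro x hx
    rw [← isAlgebraic_iff_isIntegral]
    have hxP := hT.nz x hx
    obtain ⟨ha1, ha2⟩ := h1 A B hcq hTor (R.b R.i0) L (R.om R.i0) (R.nl R.i0) p hp.ne_zero
      (pt R p R.i0 x) (fun hc => hxP ((hq1 x).1 hc)) (hq2 x)
    apply IsAlgebraic.mul
    · apply IsAlgebraic.inv
      rw [isAlgebraic_iff_isIntegral]
      apply IsIntegral.of_pow hq0
      rw [hw.root x hxP]
      exact isIntegral_one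
    · show IsAlgebraic ℚ (-(xn L (pt R p R.i0 x) / yy L (pt R p R.i0 x)))
      rw [div_eq_mul_inv]
      exact (ha1.mul ha2.inv).neg
  · -- conjugation
    intro m hm σ c d hact hd hc hσw
    obtain ⟨k, rfl⟩ := hm
    have hc0 := hw0 c hc
    have hterm : ∀ x ∈ T, σ (F x) = w c * F (c * x) := by
      intro x hx
      have hxP := hT.nz x hx
      have hpx : pt R p R.i0 x ∉ L.lattice := fun hh => hxP ((hq1 x).1 hh)
      obtain ⟨-, ha2, ha3⟩ := (hact.act R.i0).act (pt R p R.i0 x) (by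
        have h6 : ((p * k : ℕ) : ℂ) * pt R p R.i0 x = (k : ℕ) • ((p : ℂ) * pt R p R.i0 x) := by
          rw [nsmul_eq_mul]
          push_cast
          ring
        rw [h6]
        exact nsmul_mem (hq2 x) k) hpx
      rw [hd R.i0, Int.cast_one, one_mul, ← hq5 c x] at ha2 ha3
      have h5 : σ (t x) = t (c * x) := by
        show σ (-(xn L (pt R p R.i0 x) / yy L (pt R p R.i0 x))) =
          -(xn L (pt R p R.i0 (c * x)) / yy L (pt R p R.i0 (c * x)))
        unfold xn yy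
        rw [map_neg, map_div₀, map_sub, map_div₀, map_div₀, map_one, map_ofNat, map_ofNat,
          ← ha2, ← ha3]
      simp only [hF]
      rw [map_mul, map_inv₀, hσw, h5, hw.mul]
      have := hw0 x hxP
      field_simp
    rw [map_sum, Finset.sum_congr rfl hterm, ← Finset.mul_sum]
    congr 1
    exact hperm F hFper c hc

end

end Pool.Agent.TWI


end
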