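import Pool.Agent.MVF.C016
import Pool.Agent.MVF.C033
import Pool.Agent.MVF.C087
import Pool.Agent.MVF.C119
import Pool.Agent.MVF.C139
import Pool.Agent.TWM.C07
import Pool.Agent.TWM.C15
import Pool.Agent.TWM.C17

/-! Parts: TWI.LOG, TWI.R2I, TWI.R4I, TWI.ROT, TWI.VPGI, TWI.YINE, TWI.YSGN -/

section

/-!
# TWI, block A, module LOG: the coefficient of the formal logarithm is integral (helper10)
-/

set_option autoImplicit false

open WeierstrassCurve PowerSeries

namespace Pool.Agent.TWI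

open _root_.MU3 Pool.Agent.MU3A Pool.Agent.MU3B Pool.Agent.MUX Pool.Agent.MUXU Pool.Agent.TWT
open Pool.Agent.MUXV (GR InK tX HalfI)

noncomputable section

namespace LOG

/-- multiplication of truncated sums modulo `T^n` -/
lemma mul_trunc {n : ℕ} {Λ : PowerSeries ℂ} (h0 : PowerSeries.coeff 0 Λ = 0) (f g h : ℕ → ℂ)
    (hfg : ∀ k < n, ∑ i ∈ Finset.range (k + 1), f i * g (k - i) = h k) :
    (PowerSeries.X : PowerSeries ℂ) ^ n ∣
      (∑ k ∈ Finset.range n, PowerSeries.C (f k) * Λ ^ k) *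
        (∑ k ∈ Finset.range n, PowerSeries.C (g k) * Λ ^ k) -
      ∑ k ∈ Finset.range n, PowerSeries.C (h k) * Λ ^ k := by
  have hX : (PowerSeries.X : PowerSeries ℂ) ∣ Λ := by
    rw [PowerSeries.X_dvd_iff, ← PowerSeries.coeff_zero_eq_constantCoeff_apply]
    exact h0
  set F : ℕ × ℕ → PowerSeries ℂ := fun m =>
    PowerSeries.C (f m.1) * Λ ^ m.1 * (PowerSeries.C (g m.2) * Λ ^ m.2) with hF
  have h1 : (∑ k ∈ Finset.range n, PowerSeries.C (f k) * Λ ^ k) *
        (∑ k ∈ Finset.range n, PowerSeries.C (g k) * Λ ^ k) =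
      ∑ m ∈ Finset.range n ×ˢ Finset.range n, F m := by
    rw [Finset.sum_mul_sum, Finset.sum_product]
  have h2 : ∑ k ∈ Finset.range n, PowerSeries.C (h k) * Λ ^ k =
      ∑ m ∈ (Finset.range n ×ˢ Finset.range n).filter (fun m => m.1 + m.2 < n), F m := by
    rw [← ADV.sum_anti]
    refine Finset.sum_congr rfl fun k hk => ?_
    rw [Finset.mem_range] at hk
    rw [← hfg k hk, Finset.Nat.sum_antidiagonal_eq_sum_range_succ_mk, map_sum, Finset.sum_mul]
    refine Finset.sum_congr rfl fun i hi => ?_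
    rw [Finset.mem_range] at hi
    rw [hF]
    have h3 : Λ ^ k = Λ ^ i * Λ ^ (k - i) := by
      rw [← pow_add]
      congr 1
      omega
    show _ = PowerSeries.C (f i) * Λ ^ i * (PowerSeries.C (g (k - i)) * Λ ^ (k - i))
    rw [h3, map_mul]
    ring
  rw [h1, h2, ← Finset.sum_filter_add_sum_filter_not (Finset.range n ×ˢ Finset.range n)
    (fun m : ℕ × ℕ => m.1 + m.2 < n) F, add_sub_cancel_left]
  refine Finset.dvd_sum fun m hm => ?_
  rw [Finset.mem_filter, not_lt] at hm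
  have h4 : (PowerSeries.X : PowerSeries ℂ) ^ n ∣ Λ ^ m.1 * Λ ^ m.2 := by
    rw [← pow_add]
    exact (pow_dvd_pow_of_dvd hX n).trans (pow_dvd_pow Λ hm.2)
  have h5 : F m = Λ ^ m.1 * Λ ^ m.2 * (PowerSeries.C (f m.1) * PowerSeries.C (g m.2)) := by
    rw [hF]
    ring
  rw [h5]
  exact h4.mul_right _

variable {V : ValuationSubring ℂ} {L : PeriodPair} {a2 a4 : V}

lemma v_int (x : V) : V.valuation (x : ℂ) ≤ 1 := V.valuation_le_one x

/-- evaluation of `inX` -/
lemma aeval_inX (x y : ℂ) (g : Polynomial V) :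
    MvPolynomial.aeval ![x, y] (inX g) = Polynomial.aeval x g := by
  unfold inX
  rw [← Polynomial.aeval_algHom_apply, MvPolynomial.aeval_X]
  rfl

lemma dd_zero (f : MvPolynomial (Fin 2) V) (z : ℂ) :
    dd L a2 a4 f 0 z = MvPolynomial.aeval ![xn L z, yy L z] f := by
  unfold dd
  rw [Function.iterate_zero, id, Nat.factorial_zero, Nat.cast_one, div_one]

lemma dd_one (z : ℂ) : dd L a2 a4 (MvPolynomial.X 0) 1 z = 2 * yy L z := by
  unfold dd
  rw [Function.iterate_one, Nat.factorial_one, Nat.cast_one, div_one]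
  unfold dW
  rw [MvPolynomial.mkDerivation_X]
  show MvPolynomial.aeval ![xn L z, yy L z]
    ((2 : MvPolynomial (Fin 2) V) * MvPolynomial.X 1) = _
  rw [map_mul, map_ofNat, MvPolynomial.aeval_X]
  rfl

/-- the coefficients of the expansion are those of an integral power series -/
lemma exp_dvd {Λ : PowerSeries ℂ} {f : MvPolynomial (Fin 2) V} {n : ℕ} {z : ℂ}
    {G : PowerSeries V}
    (h : ∀ j < n, ((PowerSeries.coeff j G : V) : ℂ) =
        PowerSeries.coeff j (∑ k ∈ Finset.range n, PowerSeries.C (dd L a2 a4 f k z) * Λ ^ k)) :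
    (PowerSeries.X : PowerSeries ℂ) ^ n ∣ PowerSeries.map V.subtype G -
      ∑ k ∈ Finset.range n, PowerSeries.C (dd L a2 a4 f k z) * Λ ^ k := by
  rw [PowerSeries.X_pow_dvd_iff]
  intro m hm
  rw [map_sub, PowerSeries.coeff_map, ← h m hm]
  exact sub_self _

/-- integrality of a quotient -/
lemma quot {n : ℕ} {Λ : PowerSeries ℂ} (h0 : PowerSeries.coeff 0 Λ = 0) (f g h : ℕ → ℂ)
    (hfg : ∀ k < n, ∑ i ∈ Finset.range (k + 1), f i * g (k - i) = h k) (a b : PowerSeries V)
    (ha : (PowerSeries.X : PowerSeries ℂ) ^ n ∣ PowerSeries.map V.subtype a -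
      ∑ k ∈ Finset.range n, PowerSeries.C (h k) * Λ ^ k)
    (hb : (PowerSeries.X : PowerSeries ℂ) ^ n ∣ PowerSeries.map V.subtype b -
      ∑ k ∈ Finset.range n, PowerSeries.C (g k) * Λ ^ k)
    (hbu : IsUnit b) : ∀ j < n, V.valuation (PowerSeries.coeff j
      (∑ k ∈ Finset.range n, PowerSeries.C (f k) * Λ ^ k)) ≤ 1 := by
  obtain ⟨u, rfl⟩ := hbu
  set φ := PowerSeries.map V.subtype with hφ
  set SF := ∑ k ∈ Finset.range n, PowerSeries.C (f k) * Λ ^ k with hSF
  set SG := ∑ k ∈ Finset.range n, PowerSeries.C (g k) * Λ ^ k with hSG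
  set SH := ∑ k ∈ Finset.range n, PowerSeries.C (h k) * Λ ^ k with hSH
  have h1 : (PowerSeries.X : PowerSeries ℂ) ^ n ∣ SF * SG - SH := mul_trunc h0 f g h hfg
  have hu : φ u * φ (↑u⁻¹ : PowerSeries V) = 1 := by
    rw [← map_mul, Units.mul_inv, map_one]
  have h2 : SF - φ (a * (↑u⁻¹ : PowerSeries V)) =
      ((SF * SG - SH) + SF * (φ u - SG) - (φ a - SH)) * φ (↑u⁻¹ : PowerSeries V) := by
    rw [map_mul]
    linear_combination (-SF) * hu
  have h3 : (PowerSeries.X : PowerSeries ℂ) ^ n ∣ SF - φ (a * (↑u⁻¹ : PowerSeries V)) := by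
    rw [h2]
    exact ((h1.add (hb.mul_left SF)).sub ha).mul_right _
  intro j hj
  rw [PowerSeries.X_pow_dvd_iff] at h3
  have h4 := h3 j hj
  rw [map_sub, sub_eq_zero] at h4
  rw [h4, hφ, PowerSeries.coeff_map]
  exact v_int _

lemma isUnit_of_v {b : PowerSeries V} (h : V.valuation ((PowerSeries.coeff 0 b : V) : ℂ) = 1) :
    IsUnit b := by
  rw [PowerSeries.isUnit_iff_constantCoeff, ← PowerSeries.coeff_zero_eq_constantCoeff_apply]
  exact (ValuationSubring.valuation_eq_one_iff V _).2 h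

end LOG

open _root_.Pool.Agent.TWI.LOG in
theorem i_LOG (hT : S_TRG) (hC : S_COM) (hL : S_LEI) : S_LOG := by
  intro V L a2 a4 hG Λ hE mu n hI N hN hint hmu
  obtain ⟨W, ξ, G, -, -⟩ := id hG
  -- the point
  set z := L.ω₁ / 3 with hz
  have h3z : (3 : ℂ) * z ∈ L.lattice := by
    have : (3 : ℂ) * z = L.ω₁ := by rw [hz]; ring
    rw [this]
    exact L.ω₁_mem_lattice
  have hzL : z ∉ L.lattice := (MUXV.int_X (ADV.third G hI.v3).1).1
  have hmz : mu * z ∉ L.lattice := by
    intro h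
    have h1 := hI.ker z h
    apply hzL
    have h2 : Nat.Coprime 3 n := (Nat.Prime.coprime_iff_not_dvd Nat.prime_three).2 hI.n3
    have h4 : ((3 : ℕ) : ℤ) * Nat.gcdA 3 n + (n : ℤ) * Nat.gcdB 3 n = 1 := by
      have := Nat.gcd_eq_gcd_ab 3 n
      rw [h2] at this
      exact_mod_cast this.symm
    have h5 : z = (Nat.gcdA 3 n : ℂ) * (3 * z) + (Nat.gcdB 3 n : ℂ) * (n * z) := by
      have h6 : (3 : ℂ) * (Nat.gcdA 3 n : ℂ) + (n : ℂ) * (Nat.gcdB 3 n : ℂ) = 1 := by
        exact_mod_cast congrArg (Int.cast (R := ℂ)) h4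
      linear_combination (-z) * h6
    rw [h5]
    refine add_mem ?_ ?_
    · rw [← zsmul_eq_mul]
      exact zsmul_mem h3z _
    · rw [← zsmul_eq_mul]
      exact zsmul_mem h1 _
  have h3m : ((3 : ℕ) : ℂ) * (mu * z) ∈ L.lattice := by
    have : ((3 : ℕ) : ℂ) * (mu * z) = mu * (3 * z) := by push_cast; ring
    rw [this]
    exact hI.sub _ h3z
  have hv3 : V.valuation ((3 : ℕ) : ℂ) = 1 := by exact_mod_cast hI.v3
  have hk1 : ¬ InK V L (xn L) (mu * z) := fun h => hmz (MUXV.mem_of_nat_mul G h hv3 h3m)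
  have hk2 : ¬ InK V L (xn L) (2 * (mu * z)) := by
    intro h
    have h1 : ((3 : ℕ) : ℂ) * (2 * (mu * z)) ∈ L.lattice := by
      have : ((3 : ℕ) : ℂ) * (2 * (mu * z)) = ((3 : ℕ) : ℂ) * (mu * z) +
        ((3 : ℕ) : ℂ) * (mu * z) := by ring
      rw [this]
      exact add_mem h3m h3m
    have h2 := MUXV.mem_of_nat_mul G h hv3 h1
    apply hmz
    have h4 : mu * z = ((3 : ℕ) : ℂ) * (mu * z) - 2 * (mu * z) := by push_cast; ring
    rw [h4]
    exact sub_mem h3m h2
  have hy : V.valuation (yy L (mu * z)) = 1 :=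
    (MUXV.tq_YUN V W L _ _ ξ G _ hk1 hk2).1
  -- the isogeny
  obtain ⟨PA, PB, hAB, hB⟩ := hC V L L a2 a4 a2 a4 hG hG mu n hI
  obtain ⟨hkz, hBu⟩ := hB z hk1
  -- the expansion at `mu z`
  set D : ℕ → ℂ := fun k => dd L a2 a4 (MvPolynomial.X 0) k (mu * z) with hD
  have hD1 : V.valuation (D 1) = 1 := by
    rw [hD]
    show V.valuation (dd L a2 a4 (MvPolynomial.X 0) 1 (mu * z)) = 1
    rw [dd_one, map_mul, G.two, hy, one_mul]
  have hA1 : V.valuation (D N + PowerSeries.coeff N Λ * D 1) ≤ 1 := by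
    obtain ⟨gx, gy, h1, -⟩ := hE.exp _ hk1
    refine (hT V (N + 1) Λ D hE.c0 hE.c1 ?_ N (by omega) hint).2 hN (by omega)
    intro j hj
    rw [← h1 (MvPolynomial.X 0) (N + 1) j hj]
    exact v_int _
  -- the expansion at `z`
  have hA2 : V.valuation (mu ^ N * D N + PowerSeries.coeff N Λ * (mu ^ 1 * D 1)) ≤ 1 := by
    obtain ⟨gx, gy, h1, -⟩ := hE.exp _ hkz
    refine (hT V (N + 1) Λ (fun k => mu ^ k * D k) hE.c0 hE.c1 ?_ N (by omega) hint).2 hN
      (by omega)
    refine quot hE.c0 (fun k => mu ^ k * D k) (fun k => dd L a2 a4 (inX PB) k z)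
      (fun k => dd L a2 a4 (inX PA) k z) ?_ (MvPolynomial.aeval ![gx, gy] (inX PA))
      (MvPolynomial.aeval ![gx, gy] (inX PB)) (exp_dvd (fun j hj => h1 _ _ _ hj))
      (exp_dvd (fun j hj => h1 _ _ _ hj)) ?_
    · intro k _
      exact hL V L L a2 a4 a2 a4 hG hG mu hI.ne hI.sub PA PB hAB k z hmz
    · apply isUnit_of_v
      rw [h1 (inX PB) 1 0 one_pos, Finset.sum_range_one, pow_zero, mul_one,
        PowerSeries.coeff_zero_C, dd_zero, aeval_inX]
      exact hBu
  -- the difference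
  have h5 : PowerSeries.coeff N Λ * D 1 * (mu ^ N - mu) =
      mu ^ N * (D N + PowerSeries.coeff N Λ * D 1) -
        (mu ^ N * D N + PowerSeries.coeff N Λ * (mu ^ 1 * D 1)) := by ring
  have h6 : V.valuation (PowerSeries.coeff N Λ * D 1 * (mu ^ N - mu)) ≤ 1 := by
    rw [h5]
    refine (V.valuation.map_sub _ _).trans (max_le ?_ hA2)
    rw [map_mul, map_pow, hI.vmu, one_pow, one_mul]
    exact hA1
  rw [map_mul, map_mul, hD1, hmu, mul_one, mul_one] at h6
  exact h6

end

end Pool.Agent.TWI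


end

section

/-!
# TWI, block A, module R2I (helper20): composite kernel, multiplier not a unit (copy of `MUX/R_R2.lean`)
-/

set_option autoImplicit false

open WeierstrassCurve Polynomial

namespace Pool.Agent.TWI

open _root_.MU3 Pool.Agent.MU3A Pool.Agent.MU3B Pool.Agent.MUX Pool.Agent.MUXU Pool.Agent.TWT
open Pool.Agent.MUXV (GR InK tX HalfI mem_of_nat_mul inK_congr inK_of_mem inK_int inK_nat inK_sub
  int_X v_X_sub QI CI x_POL)
open Pool.Agent.MUXV.R2 (red half)

noncomputable section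

theorem i_R2I : S_R2I := by
  intro V L M a2 a4 b2 b4 hL hM mu H hmu0 hsub hH hmu
  by_contra hE
  obtain ⟨WL, ξL, gL, -, -⟩ := hL
  obtain ⟨WM, ξM, gM, -, -⟩ := hM
  have h2 : V.valuation ((2 : ℕ) : ℂ) = 1 := by simpa using gL.two
  -- no nonzero point of the kernel is in the kernel of reduction
  have hno : ∀ u, mu * u ∈ M.lattice → u ∉ L.lattice → ¬ InK V L (xn L) u := by
    intro u hu huL hu1
    exact hE ⟨u, hu, huL, hu1⟩
  have htwo : ∀ w : ℂ, 2 * w ∈ L.lattice → w ∉ L.lattice →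
      ¬ InK V L (xn L) w := by
    intro w hw hwL hw1
    exact hwL (mem_of_nat_mul gL hw1 (n := 2) h2 (by simpa using hw))
  have htwoM : ∀ w : ℂ, 2 * w ∈ M.lattice → w ∉ M.lattice →
      ¬ InK V M (xn M) w := by
    intro w hw hwL hw1
    exact hwL (mem_of_nat_mul gM hw1 (n := 2) h2 (by simpa using hw))
  have hadd : ∀ w : ℂ, 2 * w ∈ L.lattice → w ∉ L.lattice → ∀ p ∈ H,
      ¬ InK V L (xn L) (w + p) := by
    intro w hw hwL p hp hwp
    have h3 := inK_nat gL hwp 2
    have h4 := inK_sub gL h3 (inK_of_mem hw)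
    have e : ((2 : ℕ) : ℂ) * (w + p) - 2 * w = 2 * p := by push_cast; ring
    rw [e] at h4
    refine hno (2 * p) ?_ (hH.ne p hp) h4
    have := hH.mem p hp
    have h5 := add_mem this this
    have e' : mu * p + mu * p = mu * (2 * p) := by ring
    rwa [e'] at h5
  have hlw : ∀ w : ℂ, 2 * w ∈ L.lattice → w ∉ L.lattice →
      ¬ InK V M (xn M) (mu * w) := by
    intro w hw hwL
    apply htwoM
    · have := hsub _ hw
      rwa [mul_left_comm] at this
    · intro hlw
      obtain ⟨p, hp, hp' | hp'⟩ := hH.surj w hlw hwL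
      · apply hH.ne p hp
        have h5 := add_mem hp' hp'
        have h6 := sub_mem hw h5
        have e : 2 * w - (w - p + (w - p)) = 2 * p := by ring
        rwa [e] at h6
      · apply hH.ne p hp
        have h5 := add_mem hp' hp'
        have h6 := sub_mem h5 hw
        have e : (w + p + (w + p)) - 2 * w = 2 * p := by ring
        rwa [e] at h6
  have hmem : ∀ z : ℂ, ¬ InK V L (xn L) z → L.weierstrassP z - 1 / 12 ∈ V :=
    fun z hz => (ValuationSubring.valuation_le_one_iff _ _).1 (int_X hz).2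
  have hmemM : ∀ z : ℂ, ¬ InK V M (xn M) z → M.weierstrassP z - 1 / 12 ∈ V :=
    fun z hz => (ValuationSubring.valuation_le_one_iff _ _).1 (int_X hz).2
  obtain ⟨w₁, w₂, a1, a2, a3, a4, a5, a6⟩ := half L
  have hsum : ¬ InK V L (xn L) (w₁ + w₂) := by
    apply htwo _ _ a5
    rw [mul_add]; exact add_mem a1 a3
  have hdiff : ¬ InK V L (xn L) (w₁ - w₂) := by
    apply htwo _ _ a6
    rw [mul_sub]; exact sub_mem a1 a3
  have hpol := (x_POL L M (1 / 12) mu H hmu0 hsub hH).1 w₁ w₂ a1 a2 a3 a4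
  unfold QI CI at hpol
  refine red V H _ _ _ _ (fun p => L.weierstrassP p - 1 / 12)
    (fun p => L.weierstrassP (w₁ + p) - 1 / 12)
    (fun p => L.weierstrassP (w₂ + p) - 1 / 12) ?_ hmu (hmem _ (htwo _ a1 a2))
    (hmem _ (htwo _ a3 a4)) ?_ ?_ ?_ ?_ hpol
  · have h7 := sub_mem (hmemM _ (hlw _ a3 a4)) (hmemM _ (hlw _ a1 a2))
    rwa [sub_sub_sub_cancel_right] at h7
  · exact v_X_sub gL (htwo _ a1 a2) (htwo _ a3 a4) hsum hdiff
  · intro p hp
    apply hmem
    apply hno p (hH.mem p hp)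
    intro hpL
    apply hH.ne p hp
    have := add_mem hpL hpL
    rwa [← two_mul] at this
  · intro p hp
    exact hmem _ (hadd _ a1 a2 p hp)
  · intro p hp
    exact hmem _ (hadd _ a3 a4 p hp)

end

end Pool.Agent.TWI


end

section

/-!
# TWI, block A: module R4I (kernel of order `p^k` inside the kernel of reduction; after `MUX/R_R4.lean`)
-/

set_option autoImplicit false

open WeierstrassCurve Polynomial

namespace Pool.Agent.TWI

open _root_.MU3 Pool.Agent.MU3A Pool.Agent.MU3B Pool.Agent.MUX Pool.Agent.MUXU Pool.Agent.TWT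
open Pool.Agent.MUXV

namespace R4I

open Pool.Agent.MUXV.R491 (mulc prodc eqone ord2 half_aux)

variable {V : ValuationSubring ℂ}

lemma frobn {p k : ℕ} (hp : p.Prime) (hv : V.valuation (p : ℂ) < 1) {a b : ℂ}
    (ha : V.valuation a ≤ 1) (hb : V.valuation b ≤ 1) :
    V.valuation (a ^ p ^ k - b ^ p ^ k - (a - b) ^ p ^ k) < 1 := by
  obtain ⟨a', rfl⟩ : ∃ a' : V, (a' : ℂ) = a :=
    ⟨⟨a, (ValuationSubring.valuation_le_one_iff _ _).1 ha⟩, rfl⟩
  obtain ⟨b', rfl⟩ : ∃ b' : V, (b' : ℂ) = b :=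
    ⟨⟨b, (ValuationSubring.valuation_le_one_iff _ _).1 hb⟩, rfl⟩
  obtain ⟨r, hr⟩ := exists_add_pow_prime_pow_eq hp (a' - b') b' k
  have h1 := congrArg (Subtype.val : V → ℂ) hr
  push_cast at h1
  have e : (a' : ℂ) ^ p ^ k - (b' : ℂ) ^ p ^ k - ((a' : ℂ) - b') ^ p ^ k =
      (p : ℂ) * (((a' - b') * b' * r : V) : ℂ) := by
    push_cast
    have e2 : (a' : ℂ) - b' + b' = a' := by ring
    rw [e2] at h1
    linear_combination h1
  rw [e, map_mul]
  exact lt_of_le_of_lt (mul_le_of_le_one_right'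
    ((ValuationSubring.valuation_le_one_iff _ _).2 ((a' - b') * b' * r : V).2)) hv

lemma key {L M : PeriodPair} {c c' l : ℂ} {H : Finset ℂ} {W W' : WeierstrassCurve.Affine ℂ}
    {ξ : ℂ →+ W.Point} {ξ' : ℂ →+ W'.Point}
    (G : GR V W L (fun z => L.weierstrassP z - c) (fun z => L.derivWeierstrassP z / 2) ξ)
    (G' : GR V W' M (fun z => M.weierstrassP z - c') (fun z => M.derivWeierstrassP z / 2) ξ')
    (hl : l ≠ 0) (hsub : Isg L M l) (hH : HalfI L M l H) {p k : ℕ} (hp : p.Prime)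
    (hv : V.valuation (p : ℂ) < 1) (hcard : 2 * H.card + 1 = p ^ k)
    (hE : ∀ u, l * u ∈ M.lattice → InK V L (fun z => L.weierstrassP z - c) u) :
    V.valuation l * ∏ q ∈ H, V.valuation (L.weierstrassP q - c) = 1 := by
  obtain ⟨hP1, -⟩ := x_POL L M c l H hl hsub hH
  -- points of order two
  have noL : ∀ w : ℂ, 2 * w ∈ L.lattice → w ∉ L.lattice → l * w ∉ M.lattice := by
    intro w hw hwL h
    obtain ⟨p, hp, h1⟩ := hH.surj w h hwL
    apply hH.ne p hp
    rcases h1 with h1 | h1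
    · have h3 := L.lattice.sub_mem hw (L.lattice.add_mem h1 h1)
      have e : 2 * w - (w - p + (w - p)) = 2 * p := by ring
      rwa [e] at h3
    · have h3 := L.lattice.sub_mem (L.lattice.add_mem h1 h1) hw
      have e : w + p + (w + p) - 2 * w = 2 * p := by ring
      rwa [e] at h3
  have ordl : ∀ w : ℂ, 2 * w ∈ L.lattice → 2 * (l * w) ∈ M.lattice := by
    intro w hw
    have h1 := hsub _ hw
    have e : l * (2 * w) = 2 * (l * w) := by ring
    rwa [e] at h1
  -- the third part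
  have third : ∀ w : ℂ, 2 * w ∈ L.lattice → w ∉ L.lattice → ∀ x ∈ V,
      V.valuation ((x - (L.weierstrassP w - c)) * (CI L c w H).eval x ^ 2 -
        (x - (L.weierstrassP w - c)) ^ p ^ k) < 1 := by
    intro w hw hwL x hx
    have hnE := ord2 G hw hwL
    have hx1 : V.valuation x ≤ 1 := (ValuationSubring.valuation_le_one_iff _ _).2 hx
    have hxw := (int_X hnE).2
    have hy : V.valuation (x - (L.weierstrassP w - c)) ≤ 1 := V.valuation.map_sub_le hx1 hxw
    have hCe : (CI L c w H).eval x = ∏ p ∈ H, (x - (L.weierstrassP (w + p) - c)) := by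
      rw [CI, eval_prod]
      simp
    obtain ⟨i1, i2⟩ := prodc (V := V) H (fun p => x - (L.weierstrassP (w + p) - c))
      (x - (L.weierstrassP w - c)) hy
      (fun p hp => by
        have h3 := (near G hnE (hE p (hH.mem p hp)) (fun h => hH.ne p hp (by
          rw [two_mul]
          exact L.lattice.add_mem h h))).1
        exact V.valuation.map_sub_le hx1 (int_X h3).2)
      (fun p hp => by
        have h3 := (near_lt G hnE (hE p (hH.mem p hp))).1
        have e : x - (L.weierstrassP (w + p) - c) - (x - (L.weierstrassP w - c)) =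
            -((L.weierstrassP (w + p) - c) - (L.weierstrassP w - c)) := by ring
        rw [e, Valuation.map_neg]
        exact h3)
    rw [← hCe] at i1 i2
    have hyc : V.valuation ((x - (L.weierstrassP w - c)) ^ H.card) ≤ 1 := by
      rw [map_pow]
      exact pow_le_one' hy _
    have h4 := mulc i1 hyc i2 i2
    have h5 := mulc (a := x - (L.weierstrassP w - c)) (b := x - (L.weierstrassP w - c)) hy
      (d := (x - (L.weierstrassP w - c)) ^ H.card * (x - (L.weierstrassP w - c)) ^ H.card) (by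
        rw [map_mul]
        exact mul_le_one' hyc hyc) (by rw [sub_self, map_zero]; exact zero_lt_one) h4
    have e1 : (x - (L.weierstrassP w - c)) * ((x - (L.weierstrassP w - c)) ^ H.card *
        (x - (L.weierstrassP w - c)) ^ H.card) = (x - (L.weierstrassP w - c)) ^ p ^ k := by
      rw [← hcard]
      ring
    rw [e1, ← pow_two] at h5
    exact h5
  -- the second part
  have second : ∀ w₁ w₂ : ℂ, 2 * w₁ ∈ L.lattice → w₁ ∉ L.lattice → 2 * w₂ ∈ L.lattice →
      w₂ ∉ L.lattice → ∀ x ∈ V,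
      V.valuation ((M.weierstrassP (l * w₂) - M.weierstrassP (l * w₁)) *
        (QI L c l H).eval x ^ 2 - (L.weierstrassP w₂ - L.weierstrassP w₁) ^ p ^ k) < 1 := by
    intro w₁ w₂ a1 a2 b1 b2 x hx
    have h3 := congrArg (fun f : ℂ[X] => f.eval x) (hP1 w₁ w₂ a1 a2 b1 b2)
    simp only [eval_mul, eval_sub, eval_C, eval_X, eval_pow] at h3
    have t1 := third w₁ a1 a2 x hx
    have t2 := third w₂ b1 b2 x hx
    have hx1 : V.valuation x ≤ 1 := (ValuationSubring.valuation_le_one_iff _ _).2 hx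
    have t3 := frobn (V := V) (k := k) hp hv (a := x - (L.weierstrassP w₁ - c))
      (b := x - (L.weierstrassP w₂ - c))
      (V.valuation.map_sub_le hx1 (int_X (ord2 G a1 a2)).2)
      (V.valuation.map_sub_le hx1 (int_X (ord2 G b1 b2)).2)
    have e2 : x - (L.weierstrassP w₁ - c) - (x - (L.weierstrassP w₂ - c)) =
        L.weierstrassP w₂ - L.weierstrassP w₁ := by ring
    rw [e2] at t3
    rw [h3]
    have e : (x - (L.weierstrassP w₁ - c)) * eval x (CI L c w₁ H) ^ 2 -
        (x - (L.weierstrassP w₂ - c)) * eval x (CI L c w₂ H) ^ 2 -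
          (L.weierstrassP w₂ - L.weierstrassP w₁) ^ p ^ k =
        ((x - (L.weierstrassP w₁ - c)) * eval x (CI L c w₁ H) ^ 2 -
          (x - (L.weierstrassP w₁ - c)) ^ p ^ k) +
        (-((x - (L.weierstrassP w₂ - c)) * eval x (CI L c w₂ H) ^ 2 -
          (x - (L.weierstrassP w₂ - c)) ^ p ^ k) +
        ((x - (L.weierstrassP w₁ - c)) ^ p ^ k - (x - (L.weierstrassP w₂ - c)) ^ p ^ k -
          (L.weierstrassP w₂ - L.weierstrassP w₁) ^ p ^ k)) := by
      ring
    rw [e]
    exact V.valuation.map_add_lt t1 (V.valuation.map_add_lt (by rwa [Valuation.map_neg]) t3)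
  -- the first part
  obtain ⟨⟨a1, a2⟩, ⟨b1, b2⟩, ⟨c1, c2⟩, d1, d2⟩ := half_aux L
  generalize L.ω₁ / 2 = w₁ at a1 a2 c1 c2 d1 d2
  generalize L.ω₂ / 2 = w₂ at b1 b2 c1 c2 d1 d2
  have u1 : V.valuation (L.weierstrassP w₂ - L.weierstrassP w₁) = 1 := by
    have h := v_X_sub G (ord2 G b1 b2) (ord2 G a1 a2) (ord2 G c1 c2) (ord2 G d1 d2)
    have e : L.weierstrassP w₂ - c - (L.weierstrassP w₁ - c) =
        L.weierstrassP w₂ - L.weierstrassP w₁ := by ring
    simp only [e] at h
    exact h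
  have u2 : V.valuation (M.weierstrassP (l * w₂) - M.weierstrassP (l * w₁)) = 1 := by
    have h := v_X_sub G' (z := l * w₂) (w := l * w₁) (ord2 G' (ordl _ b1) (noL _ b1 b2))
      (ord2 G' (ordl _ a1) (noL _ a1 a2))
      (by
        rw [← mul_add]
        exact ord2 G' (ordl _ c1) (noL _ c1 c2))
      (by
        rw [← mul_sub]
        exact ord2 G' (ordl _ d1) (noL _ d1 d2))
    have e : M.weierstrassP (l * w₂) - c' - (M.weierstrassP (l * w₁) - c') =
        M.weierstrassP (l * w₂) - M.weierstrassP (l * w₁) := by ring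
    simp only [e] at h
    exact h
  have h3 := second w₁ w₂ a1 a2 b1 b2 0 (zero_mem V)
  have h4 := eqone (by rw [map_pow, u1, one_pow]) h3
  rw [map_mul, u2, one_mul, map_pow] at h4
  have h5 : V.valuation ((QI L c l H).eval 0) = 1 := (pow_eq_one_iff.1 h4).resolve_right two_ne_zero
  have h6 : (QI L c l H).eval 0 = l * ∏ p ∈ H, (-(L.weierstrassP p - c)) := by
    rw [QI, eval_mul, eval_C, eval_prod]
    simp
  rw [h6, map_mul, map_prod] at h5
  simp only [Valuation.map_neg] at h5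
  exact h5

end R4I

theorem i_R4I : S_R4I := by
  intro V L M a2 a4 b2 b4 hL hM mu H hmu hsub hH p k hp _ hv hcard hE
  obtain ⟨W, ξ, G, -, -⟩ := hL
  obtain ⟨W', ξ', G', -, -⟩ := hM
  exact R4I.key (c := 1 / 12) (c' := 1 / 12) G G' hmu hsub hH hp hv hcard hE

end Pool.Agent.TWI


end

section

/-!
# TWI, block A, ROT (helper3): the truncated logarithm of the points of order `p`
-/

set_option autoImplicit false

open WeierstrassCurve Polynomial

namespace Pool.Agent.TWI

open _root_.MU3 Pool.Agent.MU3A Pool.Agent.MU3B Pool.Agent.MUX Pool.Agent.MUXU Pool.Agent.TWT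
open Pool.Agent.MUXV (GR InK tX HalfI)

noncomputable section

theorem i_ROT (hVPA : S_VPA) (hKRI : S_KRI) (hMLI : S_MLI) (hPTI : S_PTI) (hGRI : S_GRI) :
    S_ROT := by
  intro p A B P V f hS w hw ι R hG i a2 a4 hGa lam hlam x hx
  obtain ⟨-, hp1, -, -, -⟩ := hGRI p A B P V f hS ι R hG
  obtain ⟨W, ξ, hGi, -⟩ := id hGa
  have hp5 := hS.p5
  have hq : 25 ≤ p ^ 2 := by nlinarith
  have h1P : (1 : OO A B) ∉ P := fun h => hS.hP.ne_top ((Ideal.eq_top_iff_one _).2 h)
  obtain ⟨hK1, hR1, hv1⟩ := hKRI p A B P V f hS ι R hG i 1 h1P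
  obtain ⟨-, hRx, -⟩ := hKRI p A B P V f hS ι R hG i x hx
  obtain ⟨α, n, hα, hI⟩ := hMLI p A B P V f hS ι R hG x hx
  obtain ⟨-, -, -, hpt4, hpt5, -, -⟩ := hPTI p A B P V f hS ι R i
  obtain ⟨-, -, -, -, -, -, -, -, hww⟩ := t_TEP p A B P V f hS
  obtain ⟨-, -, -, hwe⟩ := hww w hw
  have hIi := hI i
  set t1 := tX (xn (R.L i)) (yy (R.L i)) (pt R p i 1) with ht1
  have hfoi := t_FOI V (R.L i) (R.L i) (emb α) n ⟨W, ξ, hGi⟩ ⟨W, ξ, hGi⟩ hIi.ne hIi.sub hIi.odd
    hIi.unit hIi.ker hIi.vmu (pt R p i 1) hK1 hR1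
  rw [← hpt5 α 1, mul_one] at hfoi
  obtain ⟨-, hRα, -⟩ := hfoi
  have hvpa := hVPA V (R.L i) (R.L i) a2 a4 a2 a4 hGa hGa (emb α) n hIi (p ^ 2) (by omega) lam lam
    hlam hlam (pt R p i 1) hK1 hR1
  rw [← hpt5 α 1, mul_one, ← ht1] at hvpa
  have hcg : tX (xn (R.L i)) (yy (R.L i)) (pt R p i x) =
      tX (xn (R.L i)) (yy (R.L i)) (pt R p i α) :=
    Pool.Agent.MUXV.TRA.tX_congr hGi hRx hRα (hpt4 x α (by
      have := P.neg_mem hα
      rwa [neg_sub] at this))
  have hv1' : V.valuation t1 < 1 := by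
    by_contra h
    push Not at h
    have h2 : 1 ≤ V.valuation t1 ^ (p ^ 2 - 1) := one_le_pow₀ h
    rw [hv1] at h2
    exact absurd h2 (not_le.2 hp1)
  have hwα : w x = w α := hw.per _ _ (by
      have := P.neg_mem hα
      rwa [neg_sub] at this)
  have hvpi : V.valuation (vpi lam (p ^ 2) t1) ≤ V.valuation t1 := by
    rw [vpi]
    refine Valuation.map_sum_le _ fun k _ => ?_
    rcases Nat.eq_zero_or_pos k with rfl | hk
    · rw [hlam.lam0, zero_mul, map_zero]
      exact zero_le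
    · rw [map_mul, map_pow]
      calc V.valuation (lam k) * V.valuation t1 ^ k ≤ 1 * V.valuation t1 ^ 1 :=
            mul_le_mul' (hlam.int _) (pow_le_pow_right_of_le_one' hv1'.le hk)
        _ = _ := by rw [one_mul, pow_one]
  rw [hcg, hwα]
  have e : vpi lam (p ^ 2) (tX (xn (R.L i)) (yy (R.L i)) (pt R p i α)) -
      w α * vpi lam (p ^ 2) t1 =
      (vpi lam (p ^ 2) (tX (xn (R.L i)) (yy (R.L i)) (pt R p i α)) -
        emb α * vpi lam (p ^ 2) t1) - (w α - emb α) * vpi lam (p ^ 2) t1 := by ring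
  rw [e]
  refine (Valuation.map_sub _ _ _).trans (max_le hvpa ?_)
  rw [map_mul]
  calc V.valuation (w α - emb α) * V.valuation (vpi lam (p ^ 2) t1)
      ≤ V.valuation t1 ^ (p ^ 2 - 1) * V.valuation t1 := by
        rw [hv1]
        exact mul_le_mul' (hwe α) hvpi
    _ = V.valuation t1 ^ (p ^ 2) := by
        rw [← pow_succ]
        congr 1
        omega

end

end Pool.Agent.TWI


end

section

/-!
# TWI, block B, module VPGI: the valuation, inert primes
-/

set_option autoImplicit false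

open WeierstrassCurve Polynomial NumberField IsDedekindDomain

namespace Pool.Agent.TWI

open _root_.MU3 Pool.Agent.MU3A Pool.Agent.MU3B Pool.Agent.MU3C Pool.Agent.RI Pool.Agent.RID
open Pool.Agent.MUX Pool.Agent.MUXU Pool.Agent.MUXW Pool.Agent.TWT
open Pool.Agent.MUXV (GR InK tX)

noncomputable section

namespace VPGI

variable {A B : ℤ}

lemma cqF (h : CQ A B) : MUXF.CQ A B := ⟨h.hB, h.neg, h.fund1, h.fund0⟩

lemma sq_eq (x : OO A B) :
    x * x = ((2 * x.re + B * x.im : ℤ) : OO A B) * x - ((nm x : ℤ) : OO A B) := by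
  have key : ∀ t n : ℤ, t = 2 * x.re + B * x.im → n = nm x →
      x * x = (t : OO A B) * x - (n : OO A B) := by
    intro t n ht hn
    unfold nm at hn
    apply QuadraticAlgebra.ext
    · simp only [QuadraticAlgebra.re_mul, QuadraticAlgebra.re_sub, QuadraticAlgebra.re_intCast,
        QuadraticAlgebra.im_intCast, Int.cast_id]
      rw [ht, hn]
      ring
    · simp only [QuadraticAlgebra.im_mul, QuadraticAlgebra.im_sub, QuadraticAlgebra.re_intCast,
        QuadraticAlgebra.im_intCast, Int.cast_id]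
      rw [ht]
      ring
  exact key _ _ rfl rfl

lemma val_le (h : CQ A B) (V : ValuationSubring ℂ) (x : OO A B) : V.valuation (emb x) ≤ 1 := by
  obtain ⟨hmul, -, hsub, hint, -⟩ := Pool.Agent.MUXV.q_EMB A B (cqF h)
  rw [ValuationSubring.valuation_le_one_iff]
  by_contra hx
  have h1 := congrArg emb (sq_eq x)
  rw [hmul, hsub, hmul, hint, hint] at h1
  rcases V.mem_or_inv_mem (emb x) with h2 | h2
  · exact hx h2
  · have h0 : emb x ≠ 0 := by
      intro h0
      rw [h0] at hx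
      exact hx V.zero_mem
    apply hx
    have h3 : emb x = ((2 * x.re + B * x.im : ℤ) : ℂ) - ((nm x : ℤ) : ℂ) * (emb x)⁻¹ := by
      field_simp
      linear_combination h1
    rw [h3]
    exact sub_mem (intCast_mem V _) (mul_mem (intCast_mem V _) h2)

lemma emb_pow (h : CQ A B) (x : OO A B) (n : ℕ) : emb (x ^ n) = emb x ^ n := by
  obtain ⟨hmul, -, -, hint, -⟩ := Pool.Agent.MUXV.q_EMB A B (cqF h)
  induction n with
  | zero =>
    have := hint 1
    rw [Int.cast_one, Int.cast_one] at this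
    rw [pow_zero, pow_zero, this]
  | succ n ih => rw [pow_succ, pow_succ, hmul, ih]

end VPGI

open _root_.Pool.Agent.TWI.VPGI in
/-- VPGI -/
theorem t_VPGI : S_VPGI := by
  intro p A B P V f h
  obtain ⟨hmul, -, hsub, hint, hnat, hinj, -⟩ := Pool.Agent.MUXV.q_EMB A B (cqF h.cq)
  have hlt : ∀ x : OO A B, V.valuation (emb x) < 1 ↔ x ∈ P := by
    intro x
    rw [← h.hV x]
    exact (ValuationSubring.mem_nonunits_iff (A := V)).symm
  have hone : emb (1 : OO A B) = 1 := by
    have := hint 1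
    rwa [Int.cast_one, Int.cast_one] at this
  have hmem : ((p : ℕ) : OO A B) ∈ P := by
    rw [h.eP]
    exact Ideal.mem_span_singleton_self _
  have hpv : V.valuation (p : ℂ) < 1 := by
    rw [← hnat p, hlt]
    exact hmem
  have hp0 : V.valuation (p : ℂ) ≠ 0 := by
    rw [Ne, map_eq_zero]
    exact_mod_cast h.pp.ne_zero
  have hmemn : ∀ n : ℤ, ¬ (p : ℤ) ∣ n → (n : OO A B) ∉ P := by
    intro n hn hnP
    have hco : IsCoprime (p : ℤ) n :=
      (Prime.coprime_iff_not_dvd (Nat.prime_iff_prime_int.1 h.pp)).2 hn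
    obtain ⟨r, s, hrs⟩ := hco
    apply h.hP.ne_top
    rw [Ideal.eq_top_iff_one]
    have h1 : ((r * (p : ℤ) + s * n : ℤ) : OO A B) ∈ P := by
      push_cast
      exact P.add_mem (P.mul_mem_left _ hmem) (P.mul_mem_left _ hnP)
    rw [hrs, Int.cast_one] at h1
    exact h1
  have hnv : ∀ n : ℤ, ¬ (p : ℤ) ∣ n → V.valuation (n : ℂ) = 1 := by
    intro n hn
    apply le_antisymm
    · rw [ValuationSubring.valuation_le_one_iff]
      exact intCast_mem V n
    · rw [← not_lt, ← hint n, hlt]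
      exact hmemn n hn
  have h2 : V.valuation (2 : ℂ) = 1 := by
    have := hnv 2 (by
      intro hd
      have := Int.le_of_dvd (by norm_num) hd
      have := h.p5
      omega)
    exact_mod_cast this
  have h3 : V.valuation (3 : ℂ) = 1 := by
    have := hnv 3 (by
      intro hd
      have := Int.le_of_dvd (by norm_num) hd
      have := h.p5
      omega)
    exact_mod_cast this
  refine ⟨hpv, hp0, fun x => ⟨val_le h.cq V x, hlt x⟩, hnv, h2, h3, ?_⟩
  intro ι R hR i
  have hdis : V.valuation (12 * (R.L i).g₂) = 1 := by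
    have h4 : 12 * (R.L i).g₂ = 1 + 1728 * MUX.kap (R.L i) := by
      unfold MUX.kap
      ring
    rw [h4]
    exact hR.dis i
  obtain ⟨W, ξ, G⟩ := Pool.Agent.MUXV.x_NGR V (R.L i) (R.nl i).nrm h2 (hR.kap i) hdis
  refine ⟨⟨W, ξ, G⟩, ?_⟩
  intro m z hm hz hE
  refine Pool.Agent.MUXV.mem_of_nat_mul G hE (n := m) ?_ hz
  have := hnv m (by exact_mod_cast hm)
  exact_mod_cast this

end

end Pool.Agent.TWI


end

section

/-!
# TWI, block C4, module YINE (helper72): inertia acts trivially on `RF (idl m)`, `p ∤ m`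

Text of `Pool/Agent/TWI/UNRGI.lean` (helper81, helper22), for a given automorphism of `ℂ`.
-/

set_option autoImplicit false

open WeierstrassCurve Polynomial NumberField IsDedekindDomain

namespace Pool.Agent.TWI

open _root_.MU3 Pool.Agent.MU3A Pool.Agent.MU3B Pool.Agent.MU3C Pool.Agent.RI Pool.Agent.RID
open Pool.Agent.MUX Pool.Agent.MUXU Pool.Agent.MUXW Pool.Agent.TWT
open Pool.Agent.MU3V (cls Sub GD algDF)
open Pool.Agent.MUXV (GR InK tX)

noncomputable section

theorem t_YINE (hVPG : S_VPGI) : S_YINE := by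
  intro p A B P V f hS T ι _ R hR m hm hpm s hs hsV
  have he : Pool.Agent.MUXV.Sq_EMB := Pool.Agent.MUXV.tq_EMB
  have hC := hS.cq
  obtain ⟨-, -, -, eint, enat, einj, -⟩ := he A B (KER.cqF hC)
  have e0 : emb (0 : OO A B) = 0 := by simpa using eint 0
  have hm0 : ((m : ℕ) : OO A B) ≠ 0 := by
    intro h
    have h1 := enat m
    rw [h, e0] at h1
    exact hm (by exact_mod_cast h1.symm)
  have hmn : (idl m : Ideal (OO A B)) ≠ ⊥ := by
    rwa [Ne, Ideal.span_singleton_eq_bot]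
  have := T.fin (idl m) hmn
  have := T.gal (idl m) hmn
  -- the restriction of `s`
  let s' : ℂ ≃ₐ[kk A B] ℂ := AlgEquiv.ofRingEquiv (f := s) (fun x => KER.fix hs _ x.2)
  let σ : (RF (idl m) : IntermediateField (kk A B) ℂ) ≃ₐ[kk A B] RF (idl m) :=
    s'.restrictNormal (RF (idl m))
  have hs2 : ∀ y : (RF (idl m) : IntermediateField (kk A B) ℂ),
      ((σ y : (RF (idl m) : IntermediateField (kk A B) ℂ)) : ℂ) = s y := fun y =>
    AlgEquiv.restrictNormal_commutes s' (RF (idl m)) y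
  have hσ : ∀ x : (RF (idl m) : IntermediateField (kk A B) ℂ), V.valuation (x : ℂ) ≤ 1 →
      V.valuation ((σ x : ℂ) - x) < 1 := by
    intro x hx
    rw [hs2]
    exact hsV x x.2 hx
  suffices hσ1 : σ = 1 by
    intro y hy
    have h1 := hs2 ⟨y, hy⟩
    rw [hσ1] at h1
    exact h1.symm
  obtain ⟨-, -, -, -, -, -, hgr⟩ := hVPG p A B P V f hS
  have hgr' := hgr ι R hR
  have hL : IsNL (⊤ : Ideal (OO A B)) (R.L R.i0) (R.om R.i0) := by
    have := R.nl R.i0
    rwa [R.b0] at this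
  obtain ⟨a, ha, ha'⟩ := T.act (idl m) hmn s hs
  have hki : ∀ i, s (kap (R.L i)) = kap (R.L i) := by
    intro i
    obtain ⟨b', L', om', mu, hL', hA⟩ := ha' _ _ _ (R.nl i)
    obtain ⟨j, hj, -, -⟩ := HIT.repr he hC R hL'
    have h1 : kap (R.L i) ∈ (RF (idl m) : IntermediateField (kk A B) ℂ) :=
      IntermediateField.subset_adjoin _ _ ⟨_, _, _, R.nl i, Or.inl rfl⟩
    have h2 := hσ ⟨kap (R.L i), h1⟩ (hR.kap i).le
    have h3 : s (kap (R.L i)) = kap (R.L j) := by rw [← hj, hA.kap]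
    rw [hs2] at h2
    change V.valuation (s (kap (R.L i)) - kap (R.L i)) < 1 at h2
    rw [h3] at h2
    have h4 := hR.inj j i h2
    rw [h3, h4]
  have hkL : ∀ (b : Ideal (OO A B)) (L : PeriodPair) (om : ℂ), IsNL b L om →
      s (kap L) = kap L := by
    intro b L om hL
    obtain ⟨j, hj, -, -⟩ := HIT.repr he hC R hL
    rw [hj]
    exact hki j
  have htop := Pool.Agent.TWT.UNRG.fixTop he hC hs hkL
  have hTr : TrH σ := by
    intro x hx
    apply Subtype.ext
    rw [hs2]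
    exact htop _ hx
  obtain ⟨c, hc⟩ := (ty_KER he A B hC T ((m : ℕ) : OO A B) hm0).1 σ hTr
  have hK : ∀ z, emb ((m : ℕ) : OO A B) * z ∈ (R.L R.i0).lattice →
      InK V (R.L R.i0) (fun z => (R.L R.i0).weierstrassP z - 1 / 12) z →
      z ∈ (R.L R.i0).lattice := by
    intro z hz hz'
    rw [enat] at hz
    exact (hgr' R.i0).2 m z hpm hz hz'
  have hinv := ty_INV he A B hC (R.L R.i0) (R.om R.i0) hL ((m : ℕ) : OO A B) hm0 V
    (hgr' R.i0).1 hK (RF (idl m)) le_rfl σ
    (fun x hx => hσ x ((ValuationSubring.valuation_le_one_iff _ _).2 hx)) c hc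
  obtain ⟨-, acm2, -, -, acm5, acm6, -, -⟩ :=
    ty_ACM he A B hC (R.L R.i0) (R.om R.i0) hL ((m : ℕ) : OO A B) hm0
  have h1 := acm2 _ σ c 1 hinv hc
  exact acm5 σ 1 1 h1 (acm6 _)

end

end Pool.Agent.TWI


end

section

/-!
# TWI, block C4, module YSGN: the signs (helper54, after the modules SGU, SGM of MUX-NS)
-/

set_option autoImplicit false

namespace Pool.Agent.TWI

open _root_.MU3 Pool.Agent.MU3A Pool.Agent.MU3B Pool.Agent.RI Pool.Agent.MUX Pool.Agent.MUXU
open OnePoint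
open Pool.Agent.MUXV (GR InK)
open Pool.Agent.MUXY (ActN Dn)
open Pool.Agent.NST (ActT KIn)

noncomputable section

open Pool.Agent.NST.SGU in
/-- (YSGN) -/
theorem t_YSGN (hVPG : S_VPGI) : S_YSGN := by
  intro p A B P V f hS ι R hR j m' hm0 hmp hfm σ c d hcm hAct hlast i
  have hC := hS.cq
  have hD := absD_ge hC
  have hf6 : 6 ≤ f := by
    have h2 := Int.le_of_dvd (by have := hS.f0; omega) hS.fD
    omega
  obtain ⟨-, -, -, -, hv2, -, hgr⟩ := hVPG p A B P V f hS
  obtain ⟨⟨W, ξ, G⟩, hker⟩ := hgr ι R hR i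
  have hmC : (m' : ℂ) ≠ 0 := Nat.cast_ne_zero.2 hm0
  obtain ⟨z, hz⟩ : ∃ z : ℂ, z = pt R m' i 1 := ⟨_, rfl⟩
  have hmz : (m' : ℂ) * z = R.om i * nI (R.b i) := by
    rw [hz]
    unfold pt
    rw [Pool.Agent.MUX.emb_one hC]
    field_simp
  have hCM := (R.nl i).toIsLI.hasCM hC
  have hmzL : (m' : ℂ) * z ∈ (R.L i).lattice := by
    rw [hmz]
    refine ((R.nl i).mem _).2 ⟨((nI (R.b i) : ℕ) : OO A B), nI_mem hC (R.nl i).b_ne, ?_⟩
    rw [Pool.Agent.MUX.emb_natCast hC]
  have h2 : 2 * z ∉ (R.L i).lattice := by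
    intro h
    obtain ⟨x, -, hx⟩ := ((R.nl i).mem _).1 h
    have h3 : emb (((2 * nI (R.b i) : ℕ) : OO A B)) = emb (((m' : ℕ) : OO A B) * x) := by
      rw [Pool.Agent.MUX.emb_mul hC, Pool.Agent.MUX.emb_natCast hC, Pool.Agent.MUX.emb_natCast hC]
      apply mul_left_cancel₀ (R.nl i).om_ne
      push_cast
      linear_combination -2 * hmz + (m' : ℂ) * hx
    have h4 := Pool.Agent.MUX.emb_inj hC h3
    have h5 : ((2 * nI (R.b i) : ℕ) : ℤ) = (m' : ℤ) * x.re := by
      have h6 := congrArg QuadraticAlgebra.re h4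
      rw [QuadraticAlgebra.re_natCast, QuadraticAlgebra.re_mul, QuadraticAlgebra.re_natCast,
        QuadraticAlgebra.im_natCast] at h6
      rw [h6]; ring
    have h6 : m' ∣ 2 * nI (R.b i) := by
      have : (m' : ℤ) ∣ ((2 * nI (R.b i) : ℕ) : ℤ) := ⟨_, h5⟩
      exact_mod_cast this
    have h7 : f ∣ 2 * nI (R.b i) := hfm.trans h6
    have h8 : Nat.Coprime f (nI (R.b i)) := ((R.cop i).coprime_mul_left_right).symm
    have h9 := h8.dvd_of_dvd_mul_right h7
    exact absurd (Nat.le_of_dvd (by norm_num) h9) (by omega)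
  have hzL : z ∉ (R.L i).lattice := fun h => h2 (by
    have := add_mem h h
    rwa [← two_mul] at this)
  have hzK : ¬ InEn V (R.L i) z := fun h => hzL (hker m' z hmp hmzL h)
  have h2zK : ¬ InEn V (R.L i) (2 * z) := fun h => h2 (hker m' (2 * z) hmp (by
    have e : (m' : ℂ) * (2 * z) = (m' : ℂ) * z + (m' : ℂ) * z := by ring
    rw [e]
    exact add_mem hmzL hmzL) h)
  have hy1 : V.valuation (yy (R.L i) z) = 1 :=
    (Pool.Agent.MUXV.q_YUN V W (R.L i) _ _ ξ G z hzK h2zK).1
  -- the action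
  have hact := hAct.act i
  have hmzL' : ((p ^ (j + 1) * m' : ℕ) : ℂ) * z ∈ (R.L i).lattice := by
    have h1 : ((p ^ (j + 1) * m' : ℕ) : ℂ) * z = (p ^ (j + 1) : ℕ) • ((m' : ℂ) * z) := by
      rw [nsmul_eq_mul]
      push_cast
      ring
    rw [h1]
    exact nsmul_mem hmzL _
  obtain ⟨-, -, hP'⟩ := hact.act z hmzL' hzL
  have hcz : emb c * z - z ∈ (R.L i).lattice := by
    obtain ⟨y, hy⟩ := Ideal.mem_span_singleton'.1 hcm
    have h1 : emb c - 1 = emb y * m' := by
      have h2 := congrArg emb hy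
      rw [Pool.Agent.MUX.emb_mul hC, Pool.Agent.MUX.emb_natCast hC, Pool.Agent.MUX.emb_sub hC,
        Pool.Agent.MUX.emb_one hC] at h2
      exact h2.symm
    have h2 : emb c * z - z = emb y * (m' * z) := by
      linear_combination z * h1
    rw [h2]
    exact hCM y _ hmzL
  have hder : σ ((R.L i).derivWeierstrassP z) = d i * (R.L i).derivWeierstrassP z := by
    rw [← hP']
    rcases hAct.sgn i with hd | hd
    · rw [hd]
      push_cast
      rw [one_mul, one_mul]
      exact der_congr (R.L i) hcz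
    · rw [hd]
      push_cast
      have h1 : -1 * emb c * z = -(emb c * z) := by ring
      rw [h1, (R.L i).derivWeierstrassP_neg, der_congr (R.L i) hcz]
      ring
  rcases hAct.sgn i with hd | hd
  · exact hd
  · exfalso
    have hσy : σ (yy (R.L i) z) = -yy (R.L i) z := by
      unfold yy
      rw [map_div₀, hder, hd, map_ofNat]
      push_cast
      ring
    have h1 := hlast i
    rw [← hz] at h1
    have h3 := h1 hy1.le
    rw [hσy] at h3
    have h4 : -yy (R.L i) z - yy (R.L i) z = -(2 * yy (R.L i) z) := by ring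
    rw [h4, Valuation.map_neg, map_mul, hy1, hv2, one_mul] at h3
    exact lt_irrefl _ h3

end

end Pool.Agent.TWI


end
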