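import Pool.Agent.MVF.C033
import Pool.Agent.MVF.C059
import Pool.Agent.MVF.C138
import Pool.Agent.MVF.C139
import Pool.Agent.TWM.C06
import Pool.Agent.TWM.C13
import Pool.Agent.TWM.C17

/-! Parts: TWI.SYB, TWI.SYI, TWI.TYPI -/

section

/-!
# TWI, block C (helper19): the symbol of an odd character modulo `(n)`: properties and Theorem G

`QI R e wt = PhiK R e wt / om_(i0)`, `e` an odd character modulo `(n)`, `|D|` divides `n`. For every valuation ring `V`
with `LocN A B V` (in particular for `V` above `(p)`, `p` inert) and good reduction of `L_(i0)`.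
-/

set_option autoImplicit false

namespace Pool.Agent.TWI

open _root_.MU3 Pool.Agent.MU3A Pool.Agent.MU3B Pool.Agent.MU3F Pool.Agent.MUX Pool.Agent.MUXH
  Pool.Agent.MuSym OnePoint Pool.Agent.TWG Pool.Agent.NS Pool.Agent.NSG Pool.Agent.N2
open Pool.Agent.MUXHY (toCQ toEI toLI nI_eq cjI_eq PhiI_eq)
open scoped ComplexConjugate

noncomputable section

variable {A B : ℤ} {n : ℕ} {ι : Type}

/-- the symbol -/
def QI [Fintype ι] (R : Reps A B n ι) (e : OO A B → ℂ) (wt : ι → ℂ) (x y : OnePoint ℚ) : ℂ :=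
  PhiK R e wt x y / R.om R.i0

/-- the level -/
def NI (A B : ℤ) (n : ℕ) : ℕ := (absD A B).toNat * n ^ 2

lemma Dpos (hc : MUX.CQ A B) : 0 < absD A B := by
  have := hc.neg
  unfold absD
  omega

lemma NI_cast (hc : MUX.CQ A B) : ((NI A B n : ℕ) : ℤ) = absD A B * (n : ℤ) ^ 2 := by
  unfold NI
  push_cast
  rw [Int.toNat_of_nonneg (Dpos hc).le]

lemma NI_ne (hc : MUX.CQ A B) (hn : n ≠ 0) : NI A B n ≠ 0 := by
  have h := Dpos hc
  unfold NI
  have h7 : (absD A B).toNat ≠ 0 := by omega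
  exact mul_ne_zero h7 (pow_ne_zero _ hn)

lemma idl_ne_bot (hn : n ≠ 0) : (idl (A := A) (B := B) n) ≠ ⊥ := by
  rw [Ne, Ideal.span_singleton_eq_bot]
  exact Pool.Agent.MUXN.Gdt.nat_ne n hn

lemma idl_ne_top (hc : MUX.CQ A B) (hn : 2 ≤ n) : (idl (A := A) (B := B) n) ≠ ⊤ := by
  intro h
  have h1 : (1 : OO A B) ∈ (idl (A := A) (B := B) n) := by rw [h]; trivial
  obtain ⟨t, ht⟩ := Ideal.mem_span_singleton.1 h1
  have h2 := congrArg nm ht
  obtain ⟨hal, hx, hz, -, -⟩ := MUXF.xf_ALG A B (toCQ hc)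
  rw [(hal _ _).2.2] at h2
  have h3 : nm (1 : OO A B) = 1 := by
    have := (hz 1).2
    simpa using this
  have h4 : nm ((n : ℕ) : OO A B) = (n : ℤ) ^ 2 := by
    have := (hz n).2
    simpa using this
  rw [h3, h4] at h2
  have h5 : (n : ℤ) ∣ 1 := ⟨n * nm t, by rw [h2]; ring⟩
  have h6 := Int.eq_one_of_dvd_one (by positivity) h5
  omega

open MUXHY.Sym in
/-- `QI` is a symbol -/
theorem q_SYM [Fintype ι] (hc : MUX.CQ A B) (hn : n ≠ 0) (R : Reps A B n ι) (e : OO A B → ℂ)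
    (he : MUX.IsEI (idl n) e) (wt : ι → ℂ) : IsSym (NI A B n) (nuX e) (QI R e wt) := by
  refine MUXHY.Sym.isSym_lin (fun c => ?_) wt (R.om R.i0)
  have h6 := MUXT.main_FTI A B hc.hB hc.neg (R.b c) (R.nl c).b_ne e n
      (Nat.pos_of_ne_zero hn) he.mul
      (fun x y hxy => he.per x y (Ideal.mem_of_dvd _ hxy (Ideal.mem_span_singleton_self _))) he.neg
  refine (h6.2 _ (NI_ne hc hn) ?_).1
  rw [NI_cast hc]
  refine ⟨1, ?_⟩
  unfold absD
  ring

/-- roots of unity -/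
theorem q_ROU (hc : MUX.CQ A B) (hn : n ≠ 0) (e : OO A B → ℂ)
    (he : MUX.IsEI (idl n) e) : ∃ r : ℕ, r ≠ 0 ∧ ∀ x, e x ≠ 0 → e x ^ r = 1 :=
  MUXHY.y_ROU A B hc _ e (idl_ne_bot hn) he

open MUXHY.Chr in
/-- the nebentypus -/
theorem q_CHR (V : ValuationSubring ℂ) (hc : MUX.CQ A B) (hn : n ≠ 0)
    (hD : absD A B ∣ (n : ℤ)) (e : OO A B → ℂ) (he : MUX.IsEI (idl n) e) :
    nuX e 1 = 1 ∧ (∀ d, V.valuation (nuX e d) ≤ 1) ∧ (∀ d, IsAlgebraic ℚ (nuX e d)) ∧
    ∀ d d' : ℤ, ((NI A B n : ℕ) : ℤ) ∣ d - d' → nuX e d = nuX e d' := by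
  obtain ⟨r, hr0, hr⟩ := q_ROU hc hn e he
  have ev : ∀ x, V.valuation (e x) ≤ 1 := by
    intro x
    by_cases hx : e x = 0
    · rw [hx, map_zero]
      exact zero_le_one
    · exact (MUXHY.Val.root_one V r (e x) hr0 (hr x hx)).le
  have ea : ∀ x, IsAlgebraic ℚ (e x) := by
    intro x
    by_cases hx : e x = 0
    · rw [hx]
      exact isAlgebraic_zero
    · exact IsAlgebraic.of_pow (Nat.pos_of_ne_zero hr0) (by rw [hr x hx]; exact isAlgebraic_one)
  have hgD : idl n ≤ MUX.sp ((absD A B : ℤ) : OO A B) := by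
    rw [Ideal.span_singleton_le_span_singleton]
    obtain ⟨k, hk⟩ := hD
    refine ⟨(k : OO A B), ?_⟩
    have := congrArg (fun n : ℤ => (n : OO A B)) hk
    simpa using this
  have hcopD : ∀ d : ℤ, e (d : OO A B) ≠ 0 → IsCoprime d (absD A B) := by
    intro d hd
    have h5 := (he.supp _).1 hd
    apply coprime_int (A := A) (B := B)
    rw [← Ideal.isCoprime_span_singleton_iff]
    rw [Ideal.isCoprime_iff_sup_eq] at h5 ⊢
    exact top_le_iff.1 (h5 ▸ sup_le_sup_left hgD _)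
  refine ⟨?_, ?_, ?_, ?_⟩
  · unfold nuX
    have : ((1 : ℤ) : OO A B) = 1 := by push_cast; rfl
    rw [chiX_one, this, he.one]
    norm_num
  · intro d
    unfold nuX
    rw [map_mul]
    exact mul_le_one' (MUXHY.Val.int_le V _) (ev _)
  · intro d
    unfold nuX
    exact (isAlgebraic_intCast (R := ℚ) (A := ℂ) _).mul (ea _)
  · intro d d' hd
    rw [NI_cast hc] at hd
    obtain ⟨t, ht⟩ := hd
    have hD : absD A B ∣ d - d' := ⟨(n : ℤ) ^ 2 * t, by rw [ht]; ring⟩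
    unfold nuX
    by_cases hcop : IsCoprime d (absD A B)
    · have h5 : chiX A B d' = chiX A B d := ((MUXF.xf_CHI A B (toCQ hc) d hcop).2.2 d' hD)
      have h6 : e (d : OO A B) = e (d' : OO A B) := by
        apply he.per
        have h7 : (d : OO A B) - (d' : OO A B) =
            (((absD A B * n * t : ℤ)) : OO A B) * ((n : ℕ) : OO A B) := by
          have h8 : (d : OO A B) - (d' : OO A B) = ((d - d' : ℤ) : OO A B) := by push_cast; rfl
          rw [h8, ht]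
          push_cast
          ring
        rw [h7]
        exact Ideal.mul_mem_left _ _ (Ideal.mem_span_singleton_self _)
      rw [h5, h6]
    · have h5 : e (d : OO A B) = 0 := by
        by_contra hne
        exact hcop (hcopD d hne)
      have h6 : e (d' : OO A B) = 0 := by
        by_contra hne
        apply hcop
        obtain ⟨s, hs⟩ := hD
        have h7 : d = d' + absD A B * s := by linarith
        rw [h7]
        exact (IsCoprime.add_mul_left_left_iff).2 (hcopD d' hne)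
      rw [h5, h6, mul_zero, mul_zero]

/-- the values are algebraic -/
theorem q_ALG [Fintype ι] (hc : MUX.CQ A B) (hn : 2 ≤ n) (R : Reps A B n ι) (e : OO A B → ℂ)
    (he : MUX.IsEI (idl n) e) (wt : ι → ℂ) (hw : ∀ i, IsAlgebraic ℚ (wt i)) (x y : OnePoint ℚ) :
    IsAlgebraic ℚ (QI R e wt x y) := by
  have hn0 : n ≠ 0 := by omega
  obtain ⟨r, hr, her⟩ := q_ROU hc hn0 e he
  have hcop := MUXY.z_COP A B n ι R (idl n) 1
    (by rw [pow_one]; exact Ideal.mem_span_singleton_self _)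
  have h := fun i => (MUXY.z_ALP A B hc (MUXC.c_TOR A B hc) n ι inferInstance R (idl n) e
    (idl_ne_bot hn0) (idl_ne_top hc hn) he hcop r hr her i x y).2
  have e1 : QI R e wt x y = ∑ i, wt i * (PhiI (R.b i) e x y / R.om R.i0) := by
    unfold QI PhiK
    rw [Finset.sum_div]
    exact Finset.sum_congr rfl fun i _ => by ring
  rw [e1]
  exact (IsIntegral.sum _ fun i _ => ((hw i).mul (h i)).isIntegral).isAlgebraic

/-- depletion -/
theorem q_DEP [Fintype ι] (hc : MUX.CQ A B) (hn : n ≠ 0) (R : Reps A B n ι) (e : OO A B → ℂ)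
    (he : MUX.IsEI (idl n) e) (wt : ι → ℂ) (l : ℕ) (hl : l.Prime) (hln : l ∣ n) (x : ℚ) :
    ∑ k ∈ Finset.range l, QI R e wt ∞ ((x + (k : ℚ) / l : ℚ) : OnePoint ℚ) = 0 := by
  have hgl : idl n ≤ Ideal.span {((l : ℕ) : OO A B)} := by
    rw [Ideal.span_singleton_le_span_singleton]
    obtain ⟨k, hk⟩ := hln
    refine ⟨(k : OO A B), ?_⟩
    rw [hk]
    push_cast
    rfl
  unfold QI PhiK
  rw [← Finset.sum_div, Finset.sum_comm]
  have h0 : ∀ i : ι, ∑ k ∈ Finset.range l, wt i *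
      PhiI (R.b i) e ∞ ((x + (k : ℚ) / l : ℚ) : OnePoint ℚ) = 0 := by
    intro i
    rw [← Finset.mul_sum, Pool.Agent.TWB.t_DPL A B hc _ _ e l (R.nl i).b_ne (idl_ne_bot hn) he
      hl hgl x, mul_zero]
  rw [Finset.sum_congr rfl fun i _ => h0 i, Finset.sum_const_zero, zero_div]

lemma mob_id (x : OnePoint ℚ) : mob 1 0 0 1 x = x := by
  induction x using OnePoint.rec with
  | infty => simp [mob]
  | coe r => simp [mob]

/-- integrality for a normalised lattice with good reduction -/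
theorem q_BIN (V : ValuationSubring ℂ) (p : ℕ) (hp : p.Prime) (hpV : (p : ℂ) ∈ V.nonunits)
    (L : PeriodPair) (hn : L.g₂ = -18 * L.g₃) (hka : IsAlgebraic ℚ (kap L))
    (hk : V.valuation (kap L) = 1) (hd : V.valuation (1 + 1728 * kap L) = 1) :
    BinP V L {kap L} where
  alg := by
    intro x hx
    rw [Finset.mem_singleton.1 hx]
    exact hka
  bin := by
    intro K _ hK N hN hζ Z z hQS hz hz0 hden hcusp hper
    exact MUXN.tg_BIN MU3Q.wq MUXN.z_GP MUXN.z_DV K V p hp hpV N hN hζ L hn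
      (hK _ (Finset.mem_singleton_self _)) hk hd Z z hQS hz hz0 hden hcusp hper

/-- Theorem G -/
theorem q_G [Fintype ι] (hc : MUX.CQ A B) (hn : 2 ≤ n) (V : ValuationSubring ℂ) (p : ℕ)
    (hp : p.Prime) (hpV : (p : ℂ) ∈ V.nonunits) (hLoc : LocN A B V) (R : Reps A B n ι)
    (hk : V.valuation (kap (R.L R.i0)) = 1) (hd : V.valuation (1 + 1728 * kap (R.L R.i0)) = 1)
    (e : OO A B → ℂ) (he : MUX.IsEI (idl n) e) (wt : ι → ℂ) (hw : V.valuation (wt R.i0) = 1)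
    (N' : ℕ) (hN : N' ≠ 0) (hN' : NI A B n ∣ N') :
    ∃ a b c d : ℤ, a * d - b * c = 1 ∧ (N' : ℤ) ∣ c ∧ (N' : ℤ) ∣ d - 1 ∧
      1 ≤ V.valuation (QI R e wt ∞ (mob a b c d ∞)) := by
  have hn0 : n ≠ 0 := by omega
  obtain ⟨r, hr, her⟩ := q_ROU hc hn0 e he
  obtain ⟨u1, u2⟩ := t_UNT MUXF.xf_IDL MUXF.xf_NIM MUXF.xf_ALG A B hc _ _ _ (R.nl R.i0)
  have hdom : IsDomain (OO A B) := (MUXF.xf_ALG A B (toCQ hc)).2.2.2.2
  have hka : IsAlgebraic ℚ (kap (R.L R.i0)) := by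
    have hne : (⊤ : Ideal (OO A B)) ≠ ⊥ := bot_ne_top.symm
    have hmem : kap (R.L R.i0) ∈ (RF (⊤ : Ideal (OO A B)) : IntermediateField (kk A B) ℂ) :=
      IntermediateField.subset_adjoin _ _ ⟨_, _, _, R.nl R.i0, Or.inl rfl⟩
    exact Pool.Agent.MUXW.GRB.alg_RF hc (MUXC.c_TOR A B hc) ⊤ hne hmem
  have hB := q_BIN V p hp hpV (R.L R.i0) (R.nl R.i0).nrm hka hk hd
  have hL : LatO A B (R.L R.i0) (1 * R.om R.i0) := by
    rw [one_mul]
    refine ⟨(R.nl R.i0).om_ne, fun z => ?_⟩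
    rw [(R.nl R.i0).mem, R.b0]
    constructor
    · rintro ⟨x, -, hx⟩
      exact ⟨x, hx⟩
    · rintro ⟨x, hx⟩
      exact ⟨x, Submodule.mem_top, hx⟩
  have hNd : absD A B * ((n : ℕ) : ℤ) ^ 2 ∣ (N' : ℤ) := by
    rw [← NI_cast hc]
    exact Int.natCast_dvd_natCast.2 hN'
  obtain ⟨a, b, c, d, m1, m2, m3, m4⟩ := gptQ MUXN.z_RET MUXN.z_NFE MUXN.z_DSC MUXN.z_ZL MUXN.z_FK
    MUXN.z_FGG MUXT.main_FTI MUXF.xf_CHI MUXY.z_CON MUXY.z_ALP MUXY.z_FEC MUXY.z_COP MUXF.xf_ALG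
    MUXF.xf_IDL MUXF.xf_QB MUXF.xf_BDD MUXF.xf_TSM hc u1 u2 hLoc (MUXC.c_TOR A B hc) hn R
    one_ne_zero isAlgebraic_one hB hL he hr her hw hN hNd (q := 1) one_pos (fun _ => 1)
    (by simp)
  refine ⟨a, b, c, d, m1, m2, m3, ?_⟩
  have e1 : (∑ t : Fin 1, (fun _ : Fin 1 => (1 : ℂ)) t * zq 1 ^ (t : ℕ)) = 1 := by simp
  rw [e1, map_one] at m4
  refine m4.trans (le_of_eq ?_)
  congr 1
  unfold QI
  simp [mob_id]

open MUXHY.Prx in
/-- the projector -/
theorem q_PRJ [Fintype ι] (hc : MUX.CQ A B) (hn : n ≠ 0) (V : ValuationSubring ℂ)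
    (hD : absD A B ∣ (n : ℤ)) (hvD : V.valuation (absD A B : ℂ) = 1) (R : Reps A B n ι)
    (e : OO A B → ℂ) (he : MUX.IsEI (idl n) e) (wt : ι → ℂ) (s : ℂ) :
    ∃ (q : ℕ) (c : ℕ → ℂ), q ≠ 0 ∧ (∀ t, V.valuation (c t) ≤ 1) ∧ ∀ x y : OnePoint ℚ,
      ∑ t ∈ Finset.range q, c t * sgnPart s (QI R e wt) (mob q t 0 q x) (mob q t 0 q y) =
        QI R e wt x y := by
  have hg := idl_ne_bot (A := A) (B := B) hn
  have hgD : idl n ≤ MUX.sp ((absD A B : ℤ) : OO A B) := by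
    rw [Ideal.span_singleton_le_span_singleton]
    obtain ⟨k, hk⟩ := hD
    refine ⟨(k : OO A B), ?_⟩
    have := congrArg (fun n : ℤ => (n : OO A B)) hk
    simpa using this
  obtain ⟨φ, hφ, hper, hφ2⟩ := MUXF.xf_PHX A B (toCQ hc)
  have hDp := Dpos hc
  have hqD : (((absD A B).toNat : ℕ) : ℤ) = absD A B := Int.toNat_of_nonneg hDp.le
  have hq : (absD A B).toNat ≠ 0 := by omega
  have hv : V.valuation (((absD A B).toNat : ℕ) : ℂ) = 1 := by
    have h5 : (((absD A B).toNat : ℕ) : ℂ) = ((absD A B : ℤ) : ℂ) := by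
      rw [← Int.cast_natCast (R := ℂ) (absD A B).toNat, hqD]
    rw [h5]; exact hvD
  refine ⟨(absD A B).toNat, fun t => (1 / ((absD A B).toNat : ℂ)) *
    ∑ n ∈ Finset.range (absD A B).toNat, φ n * ex (-(t * n) / (absD A B).toNat), hq,
    fun t => MUXHY.Prx.val_le V (MUXHY.Val.root_one V) _ hq hv φ hφ t, fun x y => ?_⟩
  have key : ∀ c, ∑ t ∈ Finset.range (absD A B).toNat, ((1 / ((absD A B).toNat : ℂ)) *
      ∑ n ∈ Finset.range (absD A B).toNat, φ n * ex (-(t * n) / (absD A B).toNat)) *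
      sgnPart s (PhiI (R.b c) e) (mob (absD A B).toNat t 0 (absD A B).toNat x)
        (mob (absD A B).toNat t 0 (absD A B).toNat y) = PhiI (R.b c) e x y := by
    intro c
    exact MUXF.xf_PRJ A B (toCQ hc) (R.b c) _ e (R.nl c).b_ne hg (toEI he) _ φ hq
      (fun n => by rw [hqD]; exact hper n)
      (hφ2 (R.b c) _ e (R.nl c).b_ne (toEI he) hgD) s x y
  have sgn : ∀ x y, sgnPart s (QI R e wt) x y = (∑ c, wt c * sgnPart s (PhiI (R.b c) e) x y) /
      R.om R.i0 := by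
    intro x y
    unfold sgnPart QI PhiK
    rw [← mul_div_assoc, ← add_div, Finset.mul_sum, ← Finset.sum_add_distrib]
    congr 1
    refine Finset.sum_congr rfl fun c _ => ?_
    ring
  simp only [sgn]
  unfold QI PhiK
  simp only [← mul_div_assoc]
  rw [← Finset.sum_div]
  congr 1
  simp only [Finset.mul_sum (s := (Finset.univ : Finset ι))]
  rw [Finset.sum_comm]
  refine Finset.sum_congr rfl fun c _ => ?_
  rw [← key c, Finset.mul_sum]
  refine Finset.sum_congr rfl fun t _ => ?_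
  ring

open Pool.Agent.TWB.H1GAux in
/-- Theorem G for the even (odd) part -/
theorem q_GS [Fintype ι] (hc : MUX.CQ A B) (hn : 2 ≤ n) (V : ValuationSubring ℂ) (p : ℕ)
    (hp : p.Prime) (hpV : (p : ℂ) ∈ V.nonunits) (hLoc : LocN A B V) (R : Reps A B n ι)
    (hk : V.valuation (kap (R.L R.i0)) = 1) (hd : V.valuation (1 + 1728 * kap (R.L R.i0)) = 1)
    (hD : absD A B ∣ (n : ℤ)) (hvD : V.valuation (absD A B : ℂ) = 1)
    (e : OO A B → ℂ) (he : MUX.IsEI (idl n) e) (wt : ι → ℂ) (hw : V.valuation (wt R.i0) = 1)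
    (s : ℂ) (M : ℕ) (hM0 : M ≠ 0) (hdvd : NI A B n ∣ M) :
    ∃ a b c d : ℤ, a * d - b * c = 1 ∧ (M : ℤ) ∣ c ∧ (M : ℤ) ∣ d - 1 ∧
      1 ≤ V.valuation (sgnPart s (QI R e wt) ∞ (mob a b c d ∞)) := by
  by_contra hcon
  push Not at hcon
  obtain ⟨q, c, hq, hc', hprj⟩ := q_PRJ hc (by omega) V hD hvD R e he wt s
  obtain ⟨D, hD⟩ : ∃ D : ℤ, D = (q : ℤ) := ⟨_, rfl⟩
  have hD0 : D ≠ 0 := by rw [hD]; exact_mod_cast hq
  obtain ⟨α, β, γ, δ, h1, h2, h3, h4⟩ := q_G hc hn V p hp hpV hLoc R hk hd e he wt hw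
    (M * q ^ 2) (mul_ne_zero hM0 (pow_ne_zero _ hq)) (dvd_mul_of_dvd_left hdvd _)
  have hcast : ((M * q ^ 2 : ℕ) : ℤ) = M * D ^ 2 := by
    push_cast
    rw [hD]
  rw [hcast] at h2 h3
  obtain ⟨u, hu⟩ := h2
  obtain ⟨t, ht⟩ := h3
  have hterm : ∀ k ∈ Finset.range q, V.valuation (c k *
      sgnPart s (QI R e wt) (mob q k 0 q ∞) (mob q k 0 q (mob α β γ δ ∞))) < 1 := by
    intro k _
    have e1 : γ = D ^ 2 * (M * u) := by rw [hu]; ring
    have e2 : mob D k 0 D (mob α β γ δ ∞) =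
        mob (α + k * D * (M * u)) (β + k * D * M * (t - (β * u - α * t)) - k ^ 2 * (M * u))
          (D ^ 2 * (M * u)) (δ - k * D * (M * u)) ∞ := by
      rw [e1]
      exact conj_mob D k α (M * u) hD0 _ _ _ _
    have hδ2 : δ = 1 + M * D ^ 2 * t := by linarith
    have hα2 : α = 1 + M * D ^ 2 * (β * u - α * t) := by
      have h5 : α = 1 + β * γ - α * (δ - 1) := by linarith
      rw [ht, hu] at h5
      linarith
    rw [← hD, e2, mob_inf, map_mul]
    have h5 := hcon (α + k * D * (M * u))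
      (β + k * D * M * (t - (β * u - α * t)) - k ^ 2 * (M * u))
      (D ^ 2 * (M * u)) (δ - k * D * (M * u)) ?_ ?_ ?_
    · exact mul_lt_one_of_nonneg_of_lt_one_right (hc' k) zero_le h5
    · have e3 : δ - α = M * D ^ 2 * (t - (β * u - α * t)) := by linarith
      have e4 : α * δ - β * (D ^ 2 * (M * u)) = 1 := by rw [← e1]; exact h1
      linear_combination e4 + (k * D * (M * u)) * e3
    · exact Dvd.intro_left (D ^ 2 * u) (by ring)
    · refine ⟨D ^ 2 * t - k * D * u, ?_⟩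
      rw [hδ2]
      ring
  have hsum : V.valuation (QI R e wt ∞ (mob α β γ δ ∞)) < 1 := by
    rw [← hprj ∞ (mob α β γ δ ∞)]
    exact V.valuation.map_sum_lt one_ne_zero hterm
  exact absurd h4 (not_le.2 hsum)

end

end Pool.Agent.TWI


end

section

/-!
# TWI, block C (helper19): `S_GAUI`, and `S_SYMI` from the type `S_TYPI`
-/

set_option autoImplicit false

open WeierstrassCurve Polynomial NumberField IsDedekindDomain

namespace Pool.Agent.TWI

open _root_.MU3 Pool.Agent.MU3A Pool.Agent.MU3B Pool.Agent.MU3F Pool.Agent.MUX Pool.Agent.MUXH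
  Pool.Agent.MuSym OnePoint Pool.Agent.TWT Pool.Agent.TWG
open Pool.Agent.MUXHY (toCQ toEI toLI nI_eq cjI_eq PhiI_eq PP)
open scoped ComplexConjugate

noncomputable section

namespace Syi

variable {p : ℕ} {A B : ℤ} {P : Ideal (OO A B)} {V : ValuationSubring ℂ} {f : ℕ}

lemma hV' (hS : SetI p A B P V f) : OverI V (idl (A := A) (B := B) p) := hS.eP ▸ hS.hV

lemma vp (hS : SetI p A B P V f) : V.valuation (p : ℂ) < 1 := Pool.Agent.N2.vp (hV' hS)

lemma vn (hS : SetI p A B P V f) (n : ℤ) (h : ¬ (p : ℤ) ∣ n) : V.valuation (n : ℂ) = 1 :=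
  MUXHY.Val.int_one hS.pp (vp hS) n h

lemma v2 (hS : SetI p A B P V f) : V.valuation (2 : ℂ) = 1 := by
  have := vn hS 2 (fun hd => by
    have := Int.le_of_dvd (by norm_num) hd
    have := hS.p5
    omega)
  rwa [show ((2 : ℤ) : ℂ) = 2 by norm_num] at this

lemma vf (hS : SetI p A B P V f) : V.valuation (f : ℂ) = 1 := by
  have := vn hS f (fun hd => hS.fp (by exact_mod_cast hd))
  rwa [Int.cast_natCast] at this

lemma vD (hS : SetI p A B P V f) : V.valuation (absD A B : ℂ) = 1 := vn hS _ hS.pD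

lemma hDn (hS : SetI p A B P V f) : absD A B ∣ ((p * f : ℕ) : ℤ) := by
  have h1 : absD A B ∣ (f : ℤ) := (Dvd.intro_left 2 rfl).trans hS.fD
  push_cast
  exact Dvd.dvd.mul_left h1 _

lemma n2 (hS : SetI p A B P V f) : 2 ≤ p * f := by
  have h1 := hS.p5
  have h2 := Nat.pos_of_ne_zero hS.f0
  nlinarith

lemma pf0 (hS : SetI p A B P V f) : p * f ≠ 0 := mul_ne_zero hS.pp.ne_zero hS.f0

lemma maxP (hS : SetI p A B P V f) : P.IsMaximal := by
  obtain ⟨-, -, -, hfin, hdom⟩ := MUXF.xf_ALG A B (toCQ hS.cq)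
  have hPb : P ≠ ⊥ := by
    rw [hS.eP]
    exact idl_ne_bot hS.pp.ne_zero
  have := hfin P hPb
  have := hS.hP
  exact Ideal.Quotient.maximal_of_isField P (Finite.isField_of_domain (OO A B ⧸ P))

/-- `w (-1) = -1` -/
lemma w_neg (hS : SetI p A B P V f) {w : OO A B → ℂ} (hw : TeiI p P V w) : w (-1) = -1 := by
  have h1 : w (-1) ^ 2 = 1 := by
    rw [pow_two, ← hw.mul]
    simp [hw.one]
  have h2 : (w (-1) - 1) * (w (-1) + 1) = 0 := by linear_combination h1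
  rcases mul_eq_zero.1 h2 with h3 | h3
  · exfalso
    have h4 := hw.red (-1)
    rw [sub_eq_zero.1 h3] at h4
    have h5 : emb (-1 : OO A B) = -1 := by
      have := ((MUXF.xf_ALG A B (toCQ hS.cq)).2.2.1 (-1)).1
      simpa using this
    rw [h5, show (1 : ℂ) - -1 = 2 by ring, v2 hS] at h4
    exact lt_irrefl _ h4
  · exact eq_neg_of_add_eq_zero_left h3

/-- `epI eta w` is an odd character modulo `(p f)` -/
theorem ei (hS : SetI p A B P V f) {w : OO A B → ℂ} (hw : TeiI p P V w) {n : ℕ} {ι : Type}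
    {R : Reps A B n ι} {kp : ι → ℂ} {eta : OO A B → ℂ} (hch : ChD p f R kp eta) :
    MUX.IsEI (idl (p * f)) (epI eta w) := by
  have hmax := maxP hS
  have hcop : ∀ x : OO A B, w x ≠ 0 ↔ IsCoprime (MUX.sp x) P := by
    intro x
    rw [Ne, hw.zero]
    constructor
    · intro h
      rw [Ideal.isCoprime_iff_sup_eq]
      refine hmax.1.2 _ ?_
      rw [lt_iff_le_not_ge]
      refine ⟨le_sup_right, fun h1 => h ?_⟩
      exact h1 (Ideal.mem_sup_left (Ideal.mem_span_singleton_self x))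
    · intro h h1
      rw [Ideal.isCoprime_iff_sup_eq] at h
      have h2 : MUX.sp x ≤ P := (Ideal.span_singleton_le_iff_mem _).2 h1
      rw [sup_eq_right.2 h2] at h
      exact hmax.ne_top h
  have hmul : (idl (A := A) (B := B) (p * f)) = idl f * P := by
    have h1 : ((p * f : ℕ) : OO A B) = ((f : ℕ) : OO A B) * ((p : ℕ) : OO A B) := by
      rw [Nat.cast_mul, mul_comm]
    rw [hS.eP]
    show Ideal.span {((p * f : ℕ) : OO A B)} = Ideal.span {((f : ℕ) : OO A B)} *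
      Ideal.span {((p : ℕ) : OO A B)}
    rw [Ideal.span_singleton_mul_span_singleton, h1]
  constructor
  · show eta 1 * w 1 = 1
    rw [hch.one, hw.one, mul_one]
  · intro x y
    show eta (x * y) * w (x * y) = eta x * w x * (eta y * w y)
    rw [hch.mul, hw.mul]
    ring
  · intro x y h
    rw [hmul] at h
    show eta x * w x = eta y * w y
    have h1 : x - y ∈ (idl f : Ideal (OO A B)) := Ideal.mul_le_left h
    have h2 : x - y ∈ P := Ideal.mul_le_right h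
    rw [hch.per x y h1, hw.per x y h2]
  · intro x
    show eta x * w x ≠ 0 ↔ _
    rw [mul_ne_zero_iff, hch.supp, hcop, ← IsCoprime.mul_right_iff, hmul]
  · show eta (-1) * w (-1) = -1
    rw [hch.neg, w_neg hS hw]
    norm_num

lemma PhI_eq {n : ℕ} {ι : Type} [Fintype ι] (R : Reps A B n ι) (kp : ι → ℂ)
    (eta w : OO A B → ℂ) : PhI R kp eta w = QI R (epI eta w) (kkI R kp eta w) := rfl

lemma PhI_PP {n : ℕ} {ι : Type} [Fintype ι] (R : Reps A B n ι) (kp : ι → ℂ)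
    (eta w : OO A B → ℂ) (x y : OnePoint ℚ) :
    PhI R kp eta w x y = PP R P (epI eta w) kp 0 x y := by
  rw [MUXHY.Brg.PP_zero]
  rfl

/-- the value `0`-twist: the sum over one primitive character -/
theorem sum1 (hS : SetI p A B P V f) {ι : Type} [Fintype ι] (R : Reps A B (p * f) ι)
    {w : OO A B → ℂ} (hw : TeiI p P V w) {kp : ι → ℂ} {eta : OO A B → ℂ}
    (hch : ChD p f R kp eta) {l N : ℕ} (hl : l.Prime) (hlf : l ∣ f)
    (ψ : DirichletCharacter ℂ (l ^ N)) (hψ : ψ⁻¹.IsPrimitive) :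
    ∑ b ∈ Finset.range (l ^ N), ψ⁻¹ (b : ZMod (l ^ N)) *
      PhI R kp eta w ∞ (((b : ℚ) / (l : ℚ) ^ N : ℚ) : OnePoint ℚ) =
    (haveI : NeZero (l ^ N) := ⟨pow_ne_zero _ hl.ne_zero⟩;
      gaussSum ψ⁻¹ ZMod.stdAddChar) / (2 * ((f * l ^ N * p : ℕ) : ℂ)) *
      SSTI R (f * l ^ N * p) (thT R kp eta ψ) w := by
  have _nz : NeZero (l ^ N) := ⟨pow_ne_zero _ hl.ne_zero⟩
  have hm : f * l ^ N * p ≠ 0 :=
    mul_ne_zero (mul_ne_zero hS.f0 (pow_ne_zero _ hl.ne_zero)) hS.pp.ne_zero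
  have hmg : ((f * l ^ N * p : ℕ) : OO A B) ∈ (idl (p * f) : Ideal (OO A B)) := by
    have : ((f * l ^ N * p : ℕ) : OO A B) = ((l ^ N : ℕ) : OO A B) * ((p * f : ℕ) : OO A B) := by
      push_cast
      ring
    rw [this]
    exact Ideal.mul_mem_left _ _ (Ideal.mem_span_singleton_self _)
  have hcopm : ∀ i, (MUX.nI (R.b i)).Coprime (f * l ^ N * p) := by
    intro i
    have h1 := R.cop i
    have h2 : (MUX.nI (R.b i)).Coprime p := Nat.Coprime.coprime_mul_right_right h1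
    have h3 : (MUX.nI (R.b i)).Coprime f := Nat.Coprime.coprime_mul_left_right h1
    have h4 : (MUX.nI (R.b i)).Coprime l := Nat.Coprime.coprime_dvd_right hlf h3
    exact Nat.Coprime.mul_right (Nat.Coprime.mul_right h3 (Nat.Coprime.pow_right N h4)) h2
  have hprim1 : (1 : DirichletCharacter ℂ 1).IsPrimitive :=
    DirichletCharacter.isPrimitive_one_level_one
  have hsum := t_SUM A B hS.cq (p * f) ι R P (idl (p * f)) (epI eta w) (ei hS hw hch)
    kp (f * l ^ N * p) (l ^ N) 1 hm hmg (by rw [mul_one, mul_comm f, mul_assoc]; exact dvd_mul_right _ _)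
    hcopm ψ⁻¹ hψ 1 hprim1
  have hg1 : gaussSum (1 : DirichletCharacter ℂ 1) ZMod.stdAddChar = 1 := by
    rw [gaussSum]
    have : (Finset.univ : Finset (ZMod 1)) = {0} := rfl
    rw [this, Finset.sum_singleton, AddChar.map_zero_eq_one, mul_one]
    exact MulChar.one_apply (isUnit_of_subsingleton _)
  have h1 : ∀ x : ZMod 1, (1 : DirichletCharacter ℂ 1) x = 1 := fun x =>
    MulChar.one_apply (isUnit_of_subsingleton _)
  have hL : ∑ b ∈ Finset.range (l ^ N), ∑ c ∈ Finset.range 1,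
      ψ⁻¹ (b : ZMod (l ^ N)) * (1 : DirichletCharacter ℂ 1) (c : ZMod 1) *
      PP R P (epI eta w) kp 0 ∞ (((b : ℚ) / ((l ^ N : ℕ) : ℚ) + (c : ℚ) / ((1 : ℕ) : ℚ) : ℚ) :
        OnePoint ℚ) =
      ∑ b ∈ Finset.range (l ^ N), ψ⁻¹ (b : ZMod (l ^ N)) *
      PhI R kp eta w ∞ (((b : ℚ) / (l : ℚ) ^ N : ℚ) : OnePoint ℚ) := by
    refine Finset.sum_congr rfl fun b _ => ?_
    rw [Finset.sum_range_one, h1, mul_one, PhI_PP (P := P)]
    congr 3
    push_cast
    ring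
  rw [← hL, hsum, hg1, mul_one]
  congr 1
  unfold SSTI
  refine Finset.sum_congr rfl fun i _ => ?_
  obtain ⟨-, -, -, hfin, -⟩ := MUXF.xf_ALG A B (toCQ hS.cq)
  have hF := hfin _ (idl_ne_bot (A := A) (B := B) hm)
  rw [mul_comm (kp i), mul_assoc, ← Pool.Agent.MUXF.F5x.sm_mul]
  congr 2
  funext x
  have h2 : (1 : DirichletCharacter ℂ 1)⁻¹ ((nm x * MUX.nI (R.b i) : ℤ) : ZMod 1) = 1 := by
    rw [inv_one]
    exact h1 _
  rw [h2, inv_inv]
  unfold epI thT
  ring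

/-- periodicity of the symbol -/
lemma per (hS : SetI p A B P V f) {ι : Type} [Fintype ι] (R : Reps A B (p * f) ι)
    {w : OO A B → ℂ} (hw : TeiI p P V w) {kp : ι → ℂ} {eta : OO A B → ℂ}
    (hch : ChD p f R kp eta) (r : ℚ) (k : ℤ) :
    PhI R kp eta w ∞ ((r + k : ℚ) : OnePoint ℚ) = PhI R kp eta w ∞ (r : OnePoint ℚ) := by
  have hD : absD A B ∣ ((p * f : ℕ) : ℤ) := hDn hS
  exact Pool.Agent.TWB.TWBAux.tr_P tx_HK _ _ _
    (q_SYM hS.cq (pf0 hS) R (epI eta w) (ei hS hw hch) (kkI R kp eta w))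
    (q_CHR V hS.cq (pf0 hS) hD _ (ei hS hw hch)).1 r k

lemma sgn1 (Q : OnePoint ℚ → OnePoint ℚ → ℂ) (y : ℚ) :
    sgnPart 1 Q ∞ (y : OnePoint ℚ) = Q ∞ (y : OnePoint ℚ) + Q ∞ ((-y : ℚ) : OnePoint ℚ) := by
  unfold sgnPart
  rw [Pool.Agent.TWB.TWBAux.mob_inf, Pool.Agent.TWB.TWBAux.mob_ng]
  ring

/-- the sum of the even part is twice the sum -/
theorem sumE (hS : SetI p A B P V f) {ι : Type} [Fintype ι] (R : Reps A B (p * f) ι)
    {w : OO A B → ℂ} (hw : TeiI p P V w) {kp : ι → ℂ} {eta : OO A B → ℂ}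
    (hch : ChD p f R kp eta) {l N : ℕ} (hl : l.Prime)
    (χ : DirichletCharacter ℂ (l ^ N)) (hχ : χ (-1) = 1) :
    ∑ b ∈ Finset.range (l ^ N), χ (b : ZMod (l ^ N)) *
      sgnPart 1 (PhI R kp eta w) ∞ (((b : ℚ) / (l : ℚ) ^ N : ℚ) : OnePoint ℚ) =
    2 * ∑ b ∈ Finset.range (l ^ N), χ (b : ZMod (l ^ N)) *
      PhI R kp eta w ∞ (((b : ℚ) / (l : ℚ) ^ N : ℚ) : OnePoint ℚ) := by
  have hl' : ((l : ℚ)) ^ N ≠ 0 := pow_ne_zero _ (by exact_mod_cast hl.ne_zero)
  have h := Pool.Agent.TWB.TWBAux.sum_neg (l ^ N) (fun b : ℤ => χ ((b : ℤ) : ZMod (l ^ N)) *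
      PhI R kp eta w ∞ (((b : ℚ) / (l : ℚ) ^ N : ℚ) : OnePoint ℚ)) (by
      intro b
      have e1 : (((b + (l ^ N : ℕ) : ℤ)) : ZMod (l ^ N)) = ((b : ℤ) : ZMod (l ^ N)) := by
        rw [Int.cast_add, Int.cast_natCast, ZMod.natCast_self, add_zero]
      have e2 : ((b + (l ^ N : ℕ) : ℤ) : ℚ) / (l : ℚ) ^ N =
          (b : ℚ) / (l : ℚ) ^ N + ((1 : ℤ) : ℚ) := by
        push_cast
        rw [add_div, div_self hl']
      rw [e1, e2, per hS R hw hch])
  simp only [Int.cast_natCast] at h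
  have h2 : ∀ b : ℕ, χ ((-(b : ℤ) : ℤ) : ZMod (l ^ N)) = χ (b : ZMod (l ^ N)) := by
    intro b
    rw [show ((-(b : ℤ) : ℤ) : ZMod (l ^ N)) = (-1) * (b : ZMod (l ^ N)) by
      push_cast; ring, map_mul, hχ, one_mul]
  have h3 : ∑ b ∈ Finset.range (l ^ N), χ (b : ZMod (l ^ N)) *
      PhI R kp eta w ∞ ((-((b : ℚ) / (l : ℚ) ^ N) : ℚ) : OnePoint ℚ) =
      ∑ b ∈ Finset.range (l ^ N), χ (b : ZMod (l ^ N)) *
      PhI R kp eta w ∞ (((b : ℚ) / (l : ℚ) ^ N : ℚ) : OnePoint ℚ) := by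
    rw [← h]
    refine Finset.sum_congr rfl fun b _ => ?_
    rw [h2]
    congr 3
    push_cast
    ring
  simp only [sgn1, mul_add, Finset.sum_add_distrib]
  rw [h3]
  ring

end Syi

open _root_.Pool.Agent.TWI.Syi in
/-- (GAUI) -/
theorem t_GAUI : S_GAUI := by
  intro p A B P V f hS ι _ R w hw kp eta hch l N hl hlf hN ψ hψ1 hψ2
  have _nz : NeZero (l ^ N) := ⟨pow_ne_zero _ hl.ne_zero⟩
  have hψi1 : ψ⁻¹ (-1) = 1 := by
    rw [MulChar.inv_apply_eq_inv', hψ1, inv_one]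
  have hψi2 : ψ⁻¹ (1 + (l : ZMod (l ^ N)) ^ (N - 1)) ≠ 1 := by
    rw [MulChar.inv_apply_eq_inv']
    intro h1
    exact hψ2 (inv_eq_one.1 h1)
  have hprim := Gau.prim hl hN ψ⁻¹ hψi2
  rw [sumE hS R hw hch hl ψ⁻¹ hψi1, sum1 hS R hw hch hl hlf ψ hprim]
  have hlp : ¬ (p : ℤ) ∣ (l : ℤ) := by
    intro hd
    have h1 : p ∣ l := by exact_mod_cast hd
    exact hS.fp (h1.trans hlf)
  have vl : V.valuation (l : ℂ) = 1 := by
    have := vn hS l hlp
    rwa [Int.cast_natCast] at this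
  have hg : V.valuation (gaussSum ψ⁻¹ ZMod.stdAddChar) = 1 := by
    refine Gau.gone V ψ⁻¹ hprim ?_
    push_cast
    rw [map_pow, vl, one_pow]
  have hv2m : V.valuation (2 * ((f * l ^ N * p : ℕ) : ℂ)) = V.valuation (p : ℂ) := by
    push_cast
    rw [map_mul, map_mul, map_mul, map_pow, v2 hS, vf hS, vl, one_pow, one_mul, one_mul, one_mul]
  have hp0 : (p : ℂ) ≠ 0 := by exact_mod_cast hS.pp.ne_zero
  have hvp0 : V.valuation (p : ℂ) ≠ 0 := (Valuation.ne_zero_iff _).2 hp0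
  rw [map_mul, map_mul, map_div₀, hv2m, hg, v2 hS]
  field_simp

open _root_.Pool.Agent.TWI.Syi in
/-- (SYMI) from the type -/
theorem t_SYMI (hTYP : S_TYPI) : S_SYMI := by
  intro l g h hG p A B P V f hS hlf hTor ι _ R hGR w hw J _ kp eta hch
  have hp := hS.pp
  have hl : l.Prime := by
    rcases hG with ⟨h1, -, -⟩ | ⟨h1, -, -⟩ <;> rw [h1]
    · exact Nat.prime_three
    · exact Nat.prime_two
  have hq : 0 < p ^ 2 - 1 := by
    have := hS.p5
    have : 25 ≤ p ^ 2 := by nlinarith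
    omega
  have hp0 : (p : ℂ) ≠ 0 := by exact_mod_cast hp.ne_zero
  have hvp0 : V.valuation (p : ℂ) ≠ 0 := (Valuation.ne_zero_iff _).2 hp0
  obtain ⟨tau, htau⟩ : ∃ tau : ℂ, tau ^ (p ^ 2 - 1) = p :=
    IsAlgClosed.exists_pow_nat_eq _ hq
  have hvt : V.valuation tau ^ (p ^ 2 - 1) = V.valuation (p : ℂ) := by rw [← map_pow, htau]
  have htaua : IsAlgebraic ℚ tau := by
    refine IsAlgebraic.of_pow hq ?_
    rw [htau]
    exact isAlgebraic_natCast (R := ℚ) (A := ℂ) p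
  have hei := fun j => ei hS hw (hch j)
  have hsym := fun j => q_SYM hS.cq (pf0 hS) R (epI (eta j) w) (hei j) (kkI R (kp j) (eta j) w)
  have hchr := fun j => q_CHR V hS.cq (pf0 hS) (hDn hS) (epI (eta j) w) (hei j)
  have hsymE : ∀ j, IsSym (NI A B (p * f)) (nuX (epI (eta j) w))
      (sgnPart 1 (QI R (epI (eta j) w) (kkI R (kp j) (eta j) w))) := fun j =>
    (tx_HK 1 le_rfl _ (nuX (epI (eta j) w)) _ (QI R (epI (eta j) w) (kkI R (kp j) (eta j) w))
      (hsym j) (hchr j).1 1).2.1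
  have hpV : (p : ℂ) ∈ V.nonunits := (ValuationSubring.mem_nonunits_iff _).2 (vp hS)
  have hLoc : Pool.Agent.NSG.LocN A B V := Pool.Agent.N2.loc_p hp hS.cq (hV' hS)
  -- the weights
  have hroot : ∀ j i, ∃ r : ℕ, r ≠ 0 ∧ kkI R (kp j) (eta j) w i ^ r = 1 := by
    intro j i
    obtain ⟨r, hr, h1, -⟩ := (hch j).fin
    obtain ⟨r', hr', h2⟩ := q_ROU hS.cq (pf0 hS) (epI (eta j) w) (hei j)
    refine ⟨r * r', mul_ne_zero (fun h0 => hr (h0 ▸ dvd_zero p)) hr', ?_⟩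
    have h3 := h2 _ (MUXHY.Brg.e_nI R (hei j) (Ideal.mem_span_singleton_self _) i)
    unfold kkI
    rw [mul_pow, pow_mul, h1, one_pow, inv_pow, mul_comm r, pow_mul, h3, one_pow, inv_one,
      mul_one]
  obtain ⟨n0, hn0⟩ := Pool.Agent.TWR.a_TW4 l g h hG V p hp hS.p5 (vp hS) J
    (NI A B (p * f)) (NI_ne hS.cq (pf0 hS)) (fun j => nuX (epI (eta j) w))
    (fun j => (hchr j).2.1) (fun j => (hchr j).1) (fun j => (hchr j).2.2.2)
    (fun j => (hchr j).2.2.1)
    (fun j x y => tau * sgnPart 1 (PhI R (kp j) (eta j) w) x y)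
    (fun j => {
      add := fun x y z => by
        have := (hsymE j).add x y z
        rw [← mul_add]
        exact congrArg (fun z => tau * z) this
      equiv := fun a b c d h1 h2 x y => by
        have := (hsymE j).equiv a b c d h1 h2 x y
        rw [mul_left_comm]
        exact congrArg (fun z => tau * z) this })
    (fun j x => htaua.mul (by
      rw [sgn1]
      exact (q_ALG hS.cq (n2 hS) R _ (hei j) _ (fun i => by
        obtain ⟨r, hr, h1⟩ := hroot j i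
        exact IsAlgebraic.of_pow (Nat.pos_of_ne_zero hr) (by rw [h1]; exact isAlgebraic_one))
        _ _).add (q_ALG hS.cq (n2 hS) R _ (hei j) _ (fun i => by
        obtain ⟨r, hr, h1⟩ := hroot j i
        exact IsAlgebraic.of_pow (Nat.pos_of_ne_zero hr) (by rw [h1]; exact isAlgebraic_one))
        _ _)))
    (fun j x => by
      rw [sgn1, sgn1, neg_neg, add_comm])
    (fun j x => by
      rw [← Finset.mul_sum]
      simp only [sgn1]
      rw [Finset.sum_add_distrib]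
      have h1 : ∀ y : ℚ, ∑ k ∈ Finset.range l, PhI R (kp j) (eta j) w ∞
          ((y + (k : ℚ) / l : ℚ) : OnePoint ℚ) = 0 := fun y =>
        q_DEP hS.cq (pf0 hS) R _ (hei j) _ l hl (hlf.trans (dvd_mul_left f p)) y
      have h2 : ∑ k ∈ Finset.range l, PhI R (kp j) (eta j) w ∞
          ((-(x + (k : ℚ) / l) : ℚ) : OnePoint ℚ) = 0 := by
        have hlQ : (l : ℚ) ≠ 0 := by exact_mod_cast hl.ne_zero
        have := h1 (-x - ((l : ℚ) - 1) / l)
        rw [← this, ← Finset.sum_range_reflect]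
        refine Finset.sum_congr rfl fun k hk' => ?_
        have hkl : k < l := Finset.mem_range.1 hk'
        have hc : ((l - 1 - k : ℕ) : ℚ) = (l : ℚ) - 1 - k := by
          rw [Nat.cast_sub (by omega), Nat.cast_sub (by omega)]
          simp
        rw [hc]
        congr 2
        field_simp
        ring
      rw [h1, h2, add_zero, mul_zero])
    (fun j N' hN' hd => by
      obtain ⟨a, b, c, d, m1, m2, m3, m4⟩ := q_GS hS.cq (n2 hS) V p hp hpV hLoc R
        (hGR.kap _) (hGR.dis _) (hDn hS) (vD hS) (epI (eta j) w) (hei j)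
        (kkI R (kp j) (eta j) w) (by
          obtain ⟨r, hr, h1⟩ := hroot j R.i0
          exact MUXHY.Val.root_one V r _ hr h1) 1 N' hN' hd
      refine ⟨a, b, c, d, m1, m2, m3, ?_⟩
      have h5 := hTYP p A B P V f hS hTor ι R hGR w hw (kp j) (eta j) (hch j) _ _ m4
      rw [map_mul]
      by_contra hlt
      rw [not_le] at hlt
      have h6 : V.valuation tau ^ (p ^ 2 - 1) *
          V.valuation (sgnPart 1 (PhI R (kp j) (eta j) w) ∞ (mob a b c d ∞)) ^ (p ^ 2 - 1) < 1 := by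
        rw [← mul_pow]
        exact pow_lt_one₀ zero_le hlt hq.ne'
      rw [hvt] at h6
      exact absurd h5 (not_le.2 h6))
  refine ⟨max n0 2, fun n hn' j ψ hψ1 hψ2 => ?_⟩
  have hn2 : 2 ≤ n := (le_max_right _ _).trans hn'
  have hnn : n0 ≤ n := (le_max_left _ _).trans hn'
  have _nzl : NeZero (l ^ n) := ⟨pow_ne_zero _ hl.ne_zero⟩
  have hψi1 : ψ⁻¹ (-1) = 1 := by
    rw [MulChar.inv_apply_eq_inv', hψ1, inv_one]
  have hψi2 : ψ⁻¹ (1 + (l : ZMod (l ^ n)) ^ (n - 1)) ≠ 1 := by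
    rw [MulChar.inv_apply_eq_inv']
    intro h1
    exact hψ2 (inv_eq_one.1 h1)
  have hv := hn0 n hnn j ψ⁻¹ hψi1 hψi2
  have hga := t_GAUI p A B P V f hS ι R w hw (kp j) (eta j) (hch j) l n hl hlf hn2 ψ hψ1 hψ2
  set S : ℂ := ∑ b ∈ Finset.range (l ^ n), ψ⁻¹ (b : ZMod (l ^ n)) *
    sgnPart 1 (PhI R (kp j) (eta j) w) ∞ (((b : ℚ) / (l : ℚ) ^ n : ℚ) : OnePoint ℚ) with hSd
  have e1 : ∑ b ∈ Finset.range (l ^ n), ψ⁻¹ (b : ZMod (l ^ n)) *
      (tau * sgnPart 1 (PhI R (kp j) (eta j) w) ∞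
        (((b : ℚ) / (l : ℚ) ^ n : ℚ) : OnePoint ℚ)) = tau * S := by
    rw [hSd, Finset.mul_sum]
    exact Finset.sum_congr rfl fun b _ => by ring
  rw [e1, map_mul] at hv
  rw [← hga, mul_pow]
  have h7 : 1 ≤ V.valuation (p : ℂ) * V.valuation S ^ (p ^ 2 - 1) := by
    rw [← hvt, ← mul_pow]
    exact one_le_pow₀ hv
  have h8 : V.valuation (p : ℂ) ^ (p ^ 2 - 1) =
      V.valuation (p : ℂ) ^ (p ^ 2 - 2) * V.valuation (p : ℂ) := by
    rw [← pow_succ]
    congr 1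
    omega
  rw [h8, mul_assoc]
  exact le_mul_of_one_le_right' h7

end

end Pool.Agent.TWI


end

section

/-! # TWI, block C4, module TYPI (helper34): the type of the symbol for an inert prime -/

set_option autoImplicit false

namespace Pool.Agent.TWI

open _root_.MU3 Pool.Agent.MU3A Pool.Agent.MU3B Pool.Agent.MU3C Pool.Agent.RI Pool.Agent.RID
open Pool.Agent.MUX Pool.Agent.MUXU Pool.Agent.MUXW Pool.Agent.TWT
open Pool.Agent.MUXV (GR InK tX)
open Pool.Agent.MUXY (ActN Dn)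
open Pool.Agent.NS (InI)
open Pool.Agent.NST (ActT KIn)
open OnePoint

noncomputable section

namespace TYPI

/-- a common denominator -/
lemma exists_dn (x : OnePoint ℚ) : ∃ D : ℕ, D ≠ 0 ∧ Dn D x := by
  induction x using OnePoint.rec with
  | infty => exact ⟨1, one_ne_zero, fun r hr => absurd hr (OnePoint.infty_ne_coe r)⟩
  | coe q =>
    refine ⟨q.den, q.den_ne_zero, fun r hr => ?_⟩
    rw [OnePoint.coe_injective hr]

lemma dn_neg {m : ℕ} (x : OnePoint ℚ) (hx : Dn m x) :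
    Dn m (Pool.Agent.MuSym.mob (-1) 0 0 1 x) := by
  induction x using OnePoint.rec with
  | infty =>
    intro r hr
    exfalso
    have h1 : Pool.Agent.MuSym.mob (-1) 0 0 1 (∞ : OnePoint ℚ) = ∞ := by
      simp [Pool.Agent.MuSym.mob]
    rw [h1] at hr
    exact OnePoint.infty_ne_coe r hr
  | coe q =>
    intro r hr
    have h1 : Pool.Agent.MuSym.mob (-1) 0 0 1 ((q : ℚ) : OnePoint ℚ) =
        ((-q : ℚ) : OnePoint ℚ) := by
      simp [Pool.Agent.MuSym.mob]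
    rw [h1] at hr
    rw [← OnePoint.coe_injective hr, Rat.neg_den]
    exact hx q rfl

/-- the points of level `m'` -/
lemma pt_not_mem {A B : ℤ} (hQ : CQ A B) {p f m' : ℕ} (hf : f ≠ 1) (hfm : f ∣ m') (hm' : m' ≠ 0)
    {ι : Type} (R : Reps A B (p * f) ι) (i : ι) : pt R m' i 1 ∉ (R.L i).lattice := by
  intro h
  obtain ⟨y, hy, hxy⟩ := ((R.nl i).mem _).1 h
  have ho := (R.nl i).om_ne
  have hmC : (m' : ℂ) ≠ 0 := by exact_mod_cast hm'
  unfold pt at hxy
  rw [div_eq_iff hmC, emb_one hQ, mul_one] at hxy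
  have h2 : emb (((nI (R.b i) : ℕ) : OO A B)) = emb (((m' : ℕ) : OO A B) * y) := by
    rw [emb_mul hQ, emb_natCast hQ, emb_natCast hQ]
    apply mul_left_cancel₀ ho
    linear_combination hxy
  have h3 := congrArg nm (emb_inj hQ h2)
  have hnm : ∀ n : ℕ, nm ((n : ℕ) : OO A B) = (n : ℤ) ^ 2 := by
    intro n
    have := nm_intCast (A := A) (B := B) (n : ℤ)
    rwa [Int.cast_natCast] at this
  rw [nm_mul hQ, hnm, hnm] at h3
  have h4 : (m' : ℤ) ^ 2 ∣ (nI (R.b i) : ℤ) ^ 2 := ⟨nm y, h3⟩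
  have h5 : m' ∣ nI (R.b i) := by
    have h6 : m' ^ 2 ∣ nI (R.b i) ^ 2 := by exact_mod_cast h4
    exact (Nat.pow_dvd_pow_iff two_ne_zero).1 h6
  have h7 : (nI (R.b i)).Coprime f := Nat.Coprime.coprime_mul_left_right (R.cop i)
  exact hf (Nat.eq_one_of_dvd_coprimes h7 (hfm.trans h5) dvd_rfl)

end TYPI

open _root_.Pool.Agent.TWI.TYPI in
theorem t_TYPI (hUNF : S_YUNF) (hINE : S_YINE) (hALT : S_YALT) (hALV : S_YALV) (hACI : S_YACI)
    (hSGN : S_YSGN) (hVAK : S_YVAK) (hTAU : S_YTAU) : S_TYPI := by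
  classical
  intro p A B P V f hS hT ι _ R hG w hw kp eta hch x y h1
  have hQ := hS.cq
  have hp := hS.pp
  have hp5 := hS.p5
  have hf0 := hS.f0
  have hD := Pool.Agent.NST.TYF.absD_ge hQ
  have hf6 : 6 ≤ f := by
    have h2 := Int.le_of_dvd (by exact_mod_cast Nat.pos_of_ne_zero hf0) hS.fD
    omega
  have hpf2 : 2 ≤ p * f := by nlinarith
  have hvp : V.valuation (p : ℂ) < 1 := Syi.vp hS
  have hvp0 : V.valuation (p : ℂ) ≠ 0 := by
    rw [Ne, map_eq_zero]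
    exact_mod_cast hp.ne_zero
  obtain ⟨-, hvq, -⟩ := t_TEP p A B P V f hS
  have hq0 : 0 < p ^ 2 - 1 := by
    have : 25 ≤ p ^ 2 := by nlinarith
    omega
  set e : OO A B → ℂ := epI eta w with he
  set ka : ι → ℂ := kkI R kp eta w with hka
  have hei : IsEI (idl (A := A) (B := B) (p * f)) e := Syi.ei hS hw hch
  -- roots of unity
  obtain ⟨r, hpr, hr1, hr2⟩ := hch.fin
  have hr0 : r ≠ 0 := by
    rintro rfl
    exact hpr (dvd_zero p)
  obtain ⟨s, hs⟩ : ∃ s, s = r * (p ^ 2 - 1) := ⟨_, rfl⟩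
  have hs0 : s ≠ 0 := by
    rw [hs]
    exact mul_ne_zero hr0 hq0.ne'
  have hvs : V.valuation (s : ℂ) = 1 := by
    rw [hs, Nat.cast_mul, map_mul, hvq, mul_one]
    have h2 := Syi.vn hS r (fun hd => hpr (by exact_mod_cast hd))
    rwa [Int.cast_natCast] at h2
  have hws : ∀ z, w z ≠ 0 → w z ^ s = 1 := by
    intro z hz
    have hzP : z ∉ P := fun h => hz ((hw.zero z).2 h)
    rw [hs, mul_comm, pow_mul, hw.root z hzP, one_pow]
  have hes : ∀ z, e z ≠ 0 → e z ^ s = 1 := by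
    intro z hz
    have hz' : eta z * w z ≠ 0 := hz
    obtain ⟨hz1, hz2⟩ := mul_ne_zero_iff.1 hz'
    show (eta z * w z) ^ s = 1
    rw [mul_pow, hws z hz2, mul_one, hs, pow_mul, hr2 z hz1, one_pow]
  have hkas : ∀ i, ka i ^ s = 1 := by
    intro i
    have h2 := hes _ (MUXHY.Brg.e_nI R hei (Ideal.mem_span_singleton_self _) i)
    show (kp i * (e ((nI (R.b i) : ℕ) : OO A B))⁻¹) ^ s = 1
    rw [mul_pow, inv_pow]
    have h3 : e ((nI (R.b i) : ℕ) : OO A B) ^ s = 1 := h2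
    rw [h3, inv_one, mul_one, hs, pow_mul, hr1 i, one_pow]
  -- the level
  obtain ⟨D1, hD1, hx1⟩ := exists_dn x
  obtain ⟨D2, hD2, hy1⟩ := exists_dn y
  obtain ⟨j, N, hNp, hDN⟩ := Nat.exists_eq_pow_mul_and_not_dvd (mul_ne_zero hD1 hD2) p
    hp.ne_one
  have hN0 : N ≠ 0 := by
    rintro rfl
    exact hNp (dvd_zero p)
  obtain ⟨m', hm'⟩ : ∃ m', m' = f * N := ⟨_, rfl⟩
  have hm'0 : m' ≠ 0 := by
    rw [hm']
    exact mul_ne_zero hf0 hN0
  have hm'p : ¬ p ∣ m' := by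
    rw [hm']
    intro h
    rcases hp.dvd_mul.1 h with h | h
    · exact hS.fp h
    · exact hNp h
  have hfm : f ∣ m' := hm' ▸ Dvd.intro _ rfl
  have hdvd : D1 * D2 ∣ p ^ (j + 1) * m' := by
    rw [hDN, hm']
    exact mul_dvd_mul (pow_dvd_pow p (Nat.le_succ j)) (Dvd.intro_left _ rfl)
  have hx2 : Dn (p ^ (j + 1) * m') x :=
    Pool.Agent.NST.TYF.dn_mono ((dvd_mul_right D1 D2).trans hdvd) hx1
  have hy2 : Dn (p ^ (j + 1) * m') y :=
    Pool.Agent.NST.TYF.dn_mono ((dvd_mul_left D2 D1).trans hdvd) hy1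
  -- the number `tau`
  obtain ⟨tau, htauv, htaua, htau⟩ := hTAU p A B P V f hS hT ι R hG w hw
  have htau0 : V.valuation tau ≠ 0 := by
    intro h0
    rw [h0, zero_pow hq0.ne'] at htauv
    exact hvp0 htauv.symm
  have htau1 : V.valuation tau < 1 := by
    by_contra hc
    have h4 := one_le_pow₀ (not_lt.1 hc) (n := p ^ 2 - 1)
    rw [htauv] at h4
    exact absurd hvp (not_lt.2 h4)
  -- the field
  obtain ⟨Q, hQd⟩ : ∃ Q : OnePoint ℚ → OnePoint ℚ → ℂ,
      Q = fun x y => PhiK R e ka x y / R.om R.i0 := ⟨_, rfl⟩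
  obtain ⟨x', hx'⟩ : ∃ x', x' = Pool.Agent.MuSym.mob (-1) 0 0 1 x := ⟨_, rfl⟩
  obtain ⟨y', hy'⟩ : ∃ y', y' = Pool.Agent.MuSym.mob (-1) 0 0 1 y := ⟨_, rfl⟩
  have hx2' : Dn (p ^ (j + 1) * m') x' := hx' ▸ dn_neg x hx2
  have hy2' : Dn (p ^ (j + 1) * m') y' := hy' ▸ dn_neg y hy2
  have hy0 : sgnPart 1 (PhI R kp eta w) x y = Q x y + Q x' y' := by
    rw [hQd, hx', hy']
    show PhI R kp eta w x y + 1 * PhI R kp eta w _ _ = _
    rw [one_mul]
    rfl
  have hfne : f ≠ 1 := by omega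
  have hYa : ∀ i, IsAlgebraic ℚ (yy (R.L i) (pt R m' i 1)) := by
    intro i
    refine (hALT A B hQ hT (R.b i) (R.L i) (R.om i) (R.nl i) m' hm'0 (pt R m' i 1)
      (pt_not_mem hQ hfne hfm hm'0 R i) ?_).2
    refine ((R.nl i).mem _).2 ⟨((nI (R.b i) : ℕ) : OO A B), nI_mem hQ (R.nl i).b_ne, ?_⟩
    have hmC : (m' : ℂ) ≠ 0 := by exact_mod_cast hm'0
    unfold pt
    rw [emb_one hQ, emb_natCast hQ]
    field_simp
  set Ts : Set ℂ := ({Q x y, Q x' y', tau} : Set ℂ) ∪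
    (Set.range (fun i => yy (R.L i) (pt R m' i 1)) ∪
      ((Polynomial.nthRootsFinset s (1 : ℂ) : Finset ℂ) : Set ℂ)) with hTs
  have hTfin : Ts.Finite := by
    refine Set.Finite.union (Set.toFinite _) (Set.Finite.union (Set.finite_range _)
      (Finset.finite_toSet _))
  have hTalg : ∀ t ∈ Ts, IsAlgebraic ℚ t := by
    rintro t (ht | (⟨i, rfl⟩ | ht))
    · rcases ht with rfl | rfl | rfl
      · rw [hQd]
        exact hALV A B hQ hT (p * f) hpf2 ι R e hei s hs0 hes ka hkas x y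
      · rw [hQd]
        exact hALV A B hQ hT (p * f) hpf2 ι R e hei s hs0 hes ka hkas x' y'
      · exact htaua
    · exact hYa i
    · rw [Finset.mem_coe, Polynomial.mem_nthRootsFinset (Nat.pos_of_ne_zero hs0)] at ht
      exact IsAlgebraic.of_pow (Nat.pos_of_ne_zero hs0) (by rw [ht]; exact isAlgebraic_one)
  obtain ⟨F, hFf, hFg, hEF, hTF⟩ := Pool.Agent.NST.nt_GLC A B hQ
    (RF (idl (A := A) (B := B) m'))
    (hT.fin _ (Pool.Agent.NST.TYF.idl_ne_bot hQ hm'0)) Ts hTfin hTalg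
  have hQF : Q x y ∈ F := hTF (Or.inl (Or.inl rfl))
  have hQF' : Q x' y' ∈ F := hTF (Or.inl (Or.inr (Or.inl rfl)))
  have htauF : tau ∈ F := hTF (Or.inl (Or.inr (Or.inr rfl)))
  have hyF : ∀ i, yy (R.L i) (pt R m' i 1) ∈ F := fun i => hTF (Or.inr (Or.inl ⟨i, rfl⟩))
  have hrF : ∀ z : ℂ, z ^ s = 1 → z ∈ F := fun z hz => hTF (Or.inr (Or.inr (by
    rw [Finset.mem_coe, Polynomial.mem_nthRootsFinset (Nat.pos_of_ne_zero hs0)]
    exact hz)))
  -- the key point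
  have hkey : ∀ σ : ℂ ≃+* ℂ, InI A B V (F : Set ℂ) σ →
      σ ((Q x y + Q x' y') * tau) = (Q x y + Q x' y') * tau := by
    intro σ hσ
    have hin : ∀ z ∈ F, V.valuation z ≤ 1 → V.valuation (σ z - z) < 1 := by
      intro z hz hzV
      have h2 := hσ.iner z hz ((V.valuation_le_one_iff _).1 hzV)
      rwa [ValuationSubring.mem_nonunits_iff] at h2
    have hRF := hINE p A B P V f hS hT ι R hG m' hm'0 hm'p σ hσ.fix
      (fun z hz hzV => hin z (hEF hz) hzV)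
    obtain ⟨c, d, hc1, hc3, hact⟩ := hACI A B hQ hT (p * f) ι R p j m' (by omega) hm'0 σ
      hσ.fix hRF
    have hcP : c ∉ P := by
      rw [hS.eP]
      exact hc3
    have hd := hSGN p A B P V f hS ι R hG j m' hm'0 hm'p hfm σ c d hc1 hact
      (fun i hi => hin _ (hyF i) hi)
    have hroot : ∀ z : ℂ, (z ≠ 0 → z ^ s = 1) → σ z = z := by
      intro z hz
      by_cases hz0 : z = 0
      · rw [hz0, map_zero]
      · have hz1 := hz hz0
        have hv1 : V.valuation z = 1 := MUXHY.Val.root_one V s z hs0 hz1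
        exact TEP.uniq V s (Nat.pos_of_ne_zero hs0) hvs (σ z) z
          (by rw [← map_pow, hz1, map_one]) hz1 (hin z (hrF z hz1) hv1.le)
    have hse : ∀ z, σ (e z) = e z := fun z => hroot _ (hes z)
    have hsw : ∀ z, σ (w z) = w z := fun z => hroot _ (hws z)
    have hsk : ∀ i, σ (ka i) = ka i := fun i => hroot _ (fun _ => hkas i)
    have h2 : σ tau = w c * tau :=
      htau (p ^ (j + 1) * m') ((dvd_pow_self p (Nat.succ_ne_zero j)).mul_right _) σ c d hact hd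
        hcP hsw
    have h3 : e c = w c := by
      show eta c * w c = w c
      have h5 : c - 1 ∈ (idl f : Ideal (OO A B)) :=
        Pool.Agent.NST.TYF.mem_idl_of_dvd hfm hc1
      rw [hch.per c 1 h5, hch.one, one_mul]
    have h4 : ∀ a b, Dn (p ^ (j + 1) * m') a → Dn (p ^ (j + 1) * m') b →
        w c * σ (Q a b) = Q a b := by
      intro a b ha hb
      rw [← h3, hQd]
      exact hVAK A B p f hQ hp.one_lt.le (by omega) ι R e hei j m' hm'0 hfm σ c d hc1 hact hd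
        hse ka hsk a b ha hb
    rw [map_mul, map_add, h2]
    have h5 := h4 x y hx2 hy2
    have h6 := h4 x' y' hx2' hy2'
    linear_combination tau * (h5 + h6)
  have hgK : (Q x y + Q x' y') * tau ∈ KIn A B V F :=
    ⟨F.mul_mem (F.add_mem hQF hQF') htauF, hkey⟩
  rw [hy0] at h1 ⊢
  have hg1 : 1 ≤ V.valuation ((Q x y + Q x' y') * tau) := by
    by_contra hc
    rw [not_le] at hc
    have h2 := hUNF p A B P V f hS F _ hgK hc
    rw [map_mul] at h2
    have h3 : V.valuation tau ≤ V.valuation tau ^ (p ^ 2 - 1) := by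
      rw [htauv]
      exact (le_mul_of_one_le_left' h1).trans h2
    have h4 : p ^ 2 - 1 = (p ^ 2 - 2) + 1 := by
      have : 25 ≤ p ^ 2 := by nlinarith
      omega
    have h5 : p ^ 2 - 2 ≠ 0 := by
      have : 25 ≤ p ^ 2 := by nlinarith
      omega
    have h6 : V.valuation tau ^ (p ^ 2 - 1) < V.valuation tau := by
      rw [h4, pow_succ]
      have h7 : V.valuation tau ^ (p ^ 2 - 2) < 1 := pow_lt_one₀ zero_le' htau1 h5
      have h8 := mul_lt_mul_of_pos_right h7 (zero_lt_iff.2 htau0)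
      rwa [one_mul] at h8
    exact absurd h3 (not_le.2 h6)
  have h2 := one_le_pow₀ hg1 (n := p ^ 2 - 1)
  rw [map_mul, mul_pow, htauv, mul_comm] at h2
  exact h2

end

end Pool.Agent.TWI


end
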