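import Pool.Agent.TWM.C17
import Pool.Agent.TWM.C18
import Pool.Agent.TWM.C19
import Pool.Agent.TWM.C20
import Pool.Agent.TWM.C21
import Pool.Agent.TWM.C22
import Pool.Agent.TWM.C23

/-! Parts: TWI.AAll, TWI.TYAll -/

section

/-!
# TWI, block A: everything (helper3): `S_KEYI`, `S_KRI`, `S_TRI`, `S_LGI`, `S_ROT` without hypotheses
-/

set_option autoImplicit false

namespace Pool.Agent.TWI

theorem a_LOG : S_LOG := i_LOG i_TRG i_COM i_LEI

theorem a_TYI : S_TYI := i_TYI i_TRG

theorem a_VPA : S_VPA := i_VPA i_COM i_LEI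

theorem a_MLI : S_MLI := i_MLI i_GRI

theorem a_LGI : S_LGI := i_LGI a_LOG a_MLI

/-- (KRI) the points of order `p` are in the kernel of reduction -/
theorem a_KRI : S_KRI := i_KRI i_R2I i_R4I i_GRI i_PTI a_MLI

theorem a_TRI : S_TRI := i_TRI a_KRI a_MLI i_PTI i_GRI

theorem a_ROT : S_ROT := i_ROT a_VPA a_KRI a_MLI i_PTI i_GRI

/-- (KEYI) the congruence of block A, inert case -/
theorem a_KEYI : S_KEYI := i_KEYI i_EXP a_LGI a_TYI a_ROT i_KY1 i_GRI i_PTI a_KRI

end Pool.Agent.TWI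


end

section

/-!
# TWI, block C4: everything (helper54): `S_TYPI` and `S_SYMI` without hypotheses
-/

set_option autoImplicit false

namespace Pool.Agent.TWI

namespace TYAll

theorem mli : S_MLI := i_MLI i_GRI

theorem kri : S_KRI := i_KRI i_R2I i_R4I i_GRI i_PTI mli

theorem tri : S_TRI := i_TRI kri mli i_PTI i_GRI

theorem tau : S_YTAU := t_YTAU t_YALT kri tri

end TYAll

/-- (TYPI) the type of the symbol -/
theorem z_TYPI : S_TYPI :=
  t_TYPI t_YUNF (t_YINE t_VPGI) t_YALT t_YALV t_YACI (t_YSGN t_VPGI) (t_YVAK t_YSGM t_YVAL)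
    TYAll.tau

/-- (SYMI) for all large `n` the sums `SSTI` of all characters of level `n` are large -/
theorem z_SYMI : S_SYMI := t_SYMI z_TYPI

end Pool.Agent.TWI


end
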