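import Pool.Agent.TWM.C05
import Pool.Agent.TWM.C08
import Pool.Agent.TWM.C11
import Pool.Agent.TWM.C16
import Pool.Agent.TWM.C17
import Pool.Agent.TWM.C18
import Pool.Agent.TWM.C20

/-! Parts: TWI.EABE, TWI.FACTI, TWI.ENDI, TWI.AsmI -/

section

/-!
# TWI, module EABE: algebra of the products `EtT` modulo `p`-th powers, any exponent
-/

set_option autoImplicit false

namespace Pool.Agent.TWI

open Pool.Agent.TWT Pool.Agent.TWT.EAB

/-- EABE -/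
theorem t_EABE : S_EABE := by
  intro p _ G Fr Mt _ _ _ _ _ χ e C C'' K φ hφ hrel hC hK t
  have h1 : ∀ t : Fr →+ ZMod p, mq p (EtT p χ t C) = 1 := fun t => mq_one_iff.2 (hC t)
  have h2 : ∀ t : Fr →+ ZMod p, mq p (EtT p χ t K) = 1 := fun t => mq_one_iff.2 (hK t)
  have h3 : ∀ t : Fr →+ ZMod p, mq p (EtT p χ t C'') = 1 := by
    refine E_triv χ C'' (χ φ) hφ fun t' => ?_
    have h4 : EtT p χ t' (fun τ => C τ ^ e * C'' τ) =
        EtT p χ t' (fun τ => K τ * C'' (τ * φ)) := by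
      congr 1
      funext τ
      exact hrel τ
    rw [E_mul, E_mul, E_pow, E_shift] at h4
    have h5 := congrArg (mq p) h4
    rw [map_mul, map_mul, map_pow, h1, h2, one_pow, one_mul, one_mul] at h5
    exact h5
  rw [← mq_one_iff, E_pow, E_div, map_pow, map_div, h1, h3, div_one, one_pow]

end Pool.Agent.TWI


end

section

/-!
# TWI: the characters of `Gal(K B_(n+1) / k)` with values in the residue field, `p` inert (`S_FACTI`)
-/

set_option autoImplicit false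

open NumberField IsDedekindDomain Finset
open scoped nonZeroDivisors Pointwise

namespace Pool.Agent.TWI

open _root_.MU3 Pool.Agent.MU3 Pool.Agent.MU3A Pool.Agent.MU3B Pool.Agent.RI Pool.Agent.RID
  Pool.Agent.MUX Pool.Agent.MUXK Pool.Agent.MUXI Pool.Agent.TWT Pool.Agent.TWF
open Pool.Agent.MU3I (w3 zt)
open Pool.Agent.MU3V (Sub)

theorem t_FACTI (hARF : Si_ARF) (hIAF : Si_IAF) (hXXF : Si_XXF) (hLAY : Si_LAY)
    (hNIM : Pool.Agent.MUXF.Sx_NIM) (hGAL : Pool.Agent.MUXJ.Sj_GAL) : S_FACTI := by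
  classical
  intro l g s hGen p hp A B P V f hS hlf T ι _ R K _ hK hSub Bn hlay hmono
  have hc : CQ A B := hS.cq
  have hls : (l = 3 ∧ s = 1) ∨ (l = 2 ∧ s = 2) := by
    rcases hGen with ⟨h1, -, h2⟩ | ⟨h1, -, h2⟩
    · exact Or.inl ⟨h1, h2⟩
    · exact Or.inr ⟨h1, h2⟩
  have hlp : l.Prime := by
    rcases hls with ⟨rfl, -⟩ | ⟨rfl, -⟩
    · exact Nat.prime_three
    · exact Nat.prime_two
  have : Fact l.Prime := ⟨hlp⟩
  have hs1 : 1 ≤ s := by rcases hls with ⟨-, h⟩ | ⟨-, h⟩ <;> omega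
  have hlf1 : l ∣ f := (dvd_pow_self l (by omega)).trans hlf
  have hpl : ¬ p ∣ l := by
    intro h
    exact hS.fp (h.trans hlf1)
  have hf2 : 2 ≤ f := by
    have h1 := Nat.le_of_dvd (Nat.pos_of_ne_zero hS.f0) hlf1
    exact hlp.two_le.trans h1
  have hfm : (idl f : Ideal (OO A B)) ≠ ⊥ := by
    rw [Ne, Ideal.span_singleton_eq_bot]
    exact natCast_ne_zero' hc hS.f0
  have hpV : (p : ℂ) ∈ V.nonunits := by
    have h1 := (hS.hV ((p : ℕ) : OO A B)).2 (by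
      rw [hS.eP]
      exact Ideal.mem_span_singleton_self _)
    rwa [Pool.Agent.MUX.emb_natCast hc] at h1
  have fdk : FiniteDimensional ℚ (kk A B) := FiniteDimensional.of_injective
    (IntermediateField.inclusion hK).toLinearMap
    (IntermediateField.inclusion hK).toRingHom.injective
  obtain ⟨gK, -, cK⟩ := hGAL A B T (idl f) hfm K hK hSub
  have hB : Twr l (kk A B) K Bn := ⟨hK, gK, cK, hlay, hmono⟩
  let aK : Algebra (kk A B) K := algC hK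
  have galK : IsGalois (kk A B) K := (isGalois_algC hK).2 gK
  have tK : IsScalarTower ℚ (kk A B) K := IsScalarTower.of_algebraMap_eq (fun _ => rfl)
  have fdK : FiniteDimensional (kk A B) K := Module.Finite.of_restrictScalars_finite ℚ (kk A B) K
  have hfB : ∀ n, FiniteDimensional ℚ (Bn n) := fun n => (LAY_thm l n (Bn n) (hlay n)).1
  have hfL : ∀ n, FiniteDimensional ℚ ↥(K ⊔ Bn n) := fun n =>
    IntermediateField.finiteDimensional_sup K (Bn n)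
  have hc0 : Nat.card (K ≃ₐ[kk A B] K) ≠ 0 := Nat.card_pos.ne'
  obtain ⟨a, r, hr, hcr⟩ := Nat.exists_eq_pow_mul_and_not_dvd hc0 p hp.out.ne_one
  have hr0 : r ≠ 0 := by
    rintro rfl
    exact hr (dvd_zero p)
  have hcopf : ∀ i, (nI (R.b i)).Coprime f := fun i => (R.cop i).coprime_mul_left_right
  -- the characters of `Gal(K/k)`
  have hE := fun (j : {X : (K ≃ₐ[kk A B] K) →* ℂˣ // ∀ g, X g ^ r = 1}) =>
    e0c hARF hNIM A B hc T (p * f) ι R f hf2 hcopf K hK hSub galK j.1 r j.2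
  choose Ψ e1 e2 e3 e4 e5 e6 e7 e8 using hE
  refine ⟨{X : (K ≃ₐ[kk A B] K) →* ℂˣ // ∀ g, X g ^ r = 1}, fin_chr r hr0,
    fun j i => Ψ j (cjI (R.b i)), fun j x => Ψ j (sp x), ?_, ?_⟩
  · intro j
    refine ⟨?_, ?_, ?_, ?_, ?_, ?_, r, hr, ?_, ?_⟩
    · show Ψ j (sp 1) = 1
      rw [sp, Ideal.span_singleton_one, e3]
    · intro x y
      show Ψ j (sp (x * y)) = Ψ j (sp x) * Ψ j (sp y)
      rw [← e2, sp, sp, sp, Ideal.span_singleton_mul_span_singleton]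
    · intro x y hxy
      exact e6 j x y hxy
    · intro x
      exact e4 j (sp x)
    · exact e7 j
    · show Ψ j (cjI (R.b R.i0)) = 1
      rw [R.b0]
      have h1 : cjI (⊤ : Ideal (OO A B)) = ⊤ := Ideal.comap_top
      rw [h1, e3]
    · intro i
      exact e8 j i
    · intro x hx
      exact e5 j _ hx
  · intro n hn
    let aL : Algebra (kk A B) ↥(K ⊔ Bn (n + 1)) := algC hn
    intro χ hg₀
    obtain ⟨g₀, hg1, hg2⟩ := hg₀
    obtain ⟨galL, comL⟩ := gal_ab l (kk A B) K Bn hB (n + 1) hn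
    have tL : IsScalarTower ℚ (kk A B) ↥(K ⊔ Bn (n + 1)) :=
      IsScalarTower.of_algebraMap_eq (fun _ => rfl)
    have fdL : FiniteDimensional (kk A B) ↥(K ⊔ Bn (n + 1)) :=
      Module.Finite.of_restrictScalars_finite ℚ (kk A B) _
    obtain ⟨X, t, ht, hXt, hXres⟩ :=
      lift_chr p V hpV (↥(K ⊔ Bn (n + 1)) ≃ₐ[kk A B] ↥(K ⊔ Bn (n + 1))) χ
    obtain ⟨r₁, r₂, hr1, hr2, hsplit⟩ := chr_split l (kk A B) K Bn hB (n + 1) hn
    obtain ⟨X₁, X₂, hX12⟩ := hsplit X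
    have hX2 : ∀ g : Bn (n + 1) ≃ₐ[ℚ] Bn (n + 1), X₂ g ^ (l ^ (n + 1)) = 1 := by
      intro g
      have hGB : IsGalois ℚ (Bn (n + 1)) := (LAY_thm l (n + 1) (Bn (n + 1)) (hlay (n + 1))).2.1
      have h1 : Nat.card (Bn (n + 1) ≃ₐ[ℚ] Bn (n + 1)) = l ^ (n + 1) := by
        rw [IsGalois.card_aut_eq_finrank, (hlay (n + 1)).1]
      rw [← h1, ← map_pow, pow_card_eq_one', map_one]
    have hpl' : ¬ p ∣ l ^ (n + 1) := fun h => hpl (hp.out.dvd_of_dvd_pow h)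
    obtain ⟨Y, hYr, hXY⟩ := fix_ord p a r t (l ^ (n + 1)) hp.out hcr r₁ r₂ X X₁ X₂ hX12 ht hXt
      hpl' hX2
    obtain ⟨ψ, hψ1, hψ2, hψ3⟩ := cyc hLAY l s n hls (Bn n) (Bn (n + 1)) (hlay n) (hlay (n + 1))
      (hmono (Nat.le_succ n)) X₂
    refine ⟨⟨Y, hYr⟩, ψ, hψ1, hψ2 ?_, ?_⟩
    · -- the ramified part
      refine ⟨r₂ g₀, ?_, ?_⟩
      · intro x hx
        have h1 := hr2 g₀ x ⟨(x : ℂ), (le_sup_right : Bn (n + 1) ≤ K ⊔ Bn (n + 1)) x.2⟩ rfl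
        have h2 := hg1 ⟨(x : ℂ), (le_sup_right : Bn (n + 1) ≤ K ⊔ Bn (n + 1)) x.2⟩
          ((le_sup_right : Bn n ≤ K ⊔ Bn n) hx)
        rw [h2] at h1
        exact Subtype.ext h1.symm
      · intro h1
        have h2 : r₁ g₀ = 1 := by
          ext x
          have h3 := hr1 g₀ x ⟨(x : ℂ), (le_sup_left : K ≤ K ⊔ Bn (n + 1)) x.2⟩ rfl
          have h4 := hg1 ⟨(x : ℂ), (le_sup_left : K ≤ K ⊔ Bn (n + 1)) x.2⟩
            ((le_sup_left : K ≤ K ⊔ Bn n) x.2)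
          rw [h4] at h3
          exact h3.symm
        have h3 : X g₀ = 1 := by rw [hXY g₀, h1, h2, map_one, mul_one]
        apply hg2
        obtain ⟨h4, h5⟩ := hXres g₀
        apply Units.ext
        rw [← h5, Units.val_one, ← map_one (IsLocalRing.residue V)]
        congr 1
        apply Subtype.ext
        show ((X g₀ : ℂˣ) : ℂ) = 1
        rw [h3, Units.val_one]
    · intro τ q hq
      have hM0 : (l ^ (n + 1 + s)) ≠ 0 := pow_ne_zero _ hlp.ne_zero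
      have hm2 : 2 ≤ (f * l ^ (n + 1 + s)) := by
        calc 2 ≤ f := hf2
          _ = f * 1 := (mul_one f).symm
          _ ≤ f * (l ^ (n + 1 + s)) := Nat.mul_le_mul_left _ (Nat.pos_of_ne_zero hM0)
      have hm0 : idl (A := A) (B := B) (f * l ^ (n + 1 + s)) ≠ ⊥ := by
        rw [Ne, Ideal.span_singleton_eq_bot]
        exact natCast_ne_zero' hc (by omega)
      have hcl : ∀ i, (nI (R.b i)).Coprime l := fun i => (hcopf i).coprime_dvd_right hlf1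
      have hcopm : ∀ i, (nI (R.b i)).Coprime (f * l ^ (n + 1 + s)) := fun i =>
        (hcopf i).mul_right ((hcl i).pow_right _)
      have hNL : ∃ (b : Ideal (OO A B)) (L : PeriodPair) (om : ℂ), IsNL b L om :=
        ⟨_, _, _, R.nl R.i0⟩
      have hmf : idl (A := A) (B := B) (f * l ^ (n + 1 + s)) ≤ idl f := by
        rw [Ideal.span_singleton_le_span_singleton]
        push_cast
        exact dvd_mul_right _ _
      have hmM : idl (A := A) (B := B) (f * l ^ (n + 1 + s)) ≤ idl (l ^ (n + 1 + s)) := by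
        rw [Ideal.span_singleton_le_span_singleton]
        push_cast
        exact dvd_mul_left _ _
      -- the field is contained in the ray class field
      obtain ⟨i1, -, -, -, -, -, -, i8⟩ := hIAF A B hc T hNL _ hm0
      have hD : ∀ y ∈ K ⊔ Bn (n + 1), y ∈ RF (idl (A := A) (B := B) (f * l ^ (n + 1 + s))) :=
        lvl hLAY hIAF l s hls A B hc T hNL f hS.f0 K hSub (n + 1) (Bn (n + 1)) (hlay (n + 1))
      obtain ⟨a1, -, a3, a4, a5, a6, a7⟩ := hARF A B hc T hNL (idl (f * l ^ (n + 1 + s))) hm0 (K ⊔ Bn (n + 1)) hn hD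
        galL
      obtain ⟨x1, -⟩ := hXXF A B hc T (p * f) ι R (f * l ^ (n + 1 + s)) hm2 hcopm (K ⊔ Bn (n + 1)) hn hD galL
      obtain ⟨x, hx⟩ : ∃ x : OO A B, x = Quotient.out q.2 := ⟨_, rfl⟩
      have hxc : IsCoprime x (((f * l ^ (n + 1 + s)) : ℕ) : OO A B) := by
        rw [hx]
        exact hq.1
      rw [← hx]
      have hqe : (q.1, Ideal.Quotient.mk (idl (A := A) (B := B) (f * l ^ (n + 1 + s))) x) = q := by
        have h5 : Ideal.Quotient.mk (idl (A := A) (B := B) (f * l ^ (n + 1 + s))) x = q.2 := by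
          rw [hx]
          exact Quotient.out_eq q.2
        rw [h5]
      have hAR : AR hn (idl (f * l ^ (n + 1 + s))) τ (sp x * cjI (R.b q.1)) := by
        refine (x1 τ q.1 x hxc).1 ?_
        rw [hqe]
        exact hq
      have hx0 : x ≠ 0 := by
        intro h0
        rw [h0, isCoprime_zero_left] at hxc
        obtain ⟨z, hz⟩ := hxc.exists_right_inv
        exact Pool.Agent.NSI.Xmx.natCast_not_unit hm2 z hz
      have hb0 : R.b q.1 ≠ ⊥ := (R.nl q.1).b_ne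
      have hspx : sp x ≠ ⊥ := by
        rwa [Ne, Ideal.span_singleton_eq_bot]
      obtain ⟨N, hNdef⟩ : ∃ N : ℕ, N = nI (sp x * cjI (R.b q.1)) := ⟨_, rfl⟩
      have hN : ((N : ℕ) : ℤ) = nm x * nI (R.b q.1) := by
        rw [hNdef, nI_mul hc hspx (cjI_ne_bot hc hb0), nI_sp hc hx0, nI_cjI hc hb0]
        push_cast
        rw [abs_of_nonneg (nm_nonneg hc x)]
      -- the automorphism of `ℂ`
      obtain ⟨σ, hσ, hσe⟩ := hAR
      have hσz : ∀ z : ℂ, z ^ (l ^ (n + 1 + s)) = 1 → σ z = z ^ N := fun z hz => by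
        rw [hNdef]
        exact (i8 (l ^ (n + 1 + s)) σ _ z hM0 hmM hσ hz).2
      have hNl : N.Coprime l := by
        have hζ : IsPrimitiveRoot (zt (l ^ (n + 1 + s))) (l ^ (n + 1 + s)) := Complex.isPrimitiveRoot_exp (l ^ (n + 1 + s)) hM0
        have h1 : IsPrimitiveRoot (σ (zt (l ^ (n + 1 + s)))) (l ^ (n + 1 + s)) := hζ.map_of_injective (f := σ) σ.injective
        rw [hσz _ hζ.pow_eq_one] at h1
        have h2 := (hζ.pow_iff_coprime (Nat.pos_of_ne_zero hM0) N).1 h1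
        exact h2.coprime_dvd_right (dvd_pow_self l (by omega))
      have hσB : ∀ y : Bn (n + 1), (σ : ℂ →+* ℂ) (y : ℂ) = (r₂ τ y : Bn (n + 1)) := by
        intro y
        have h1 := hσe ⟨(y : ℂ), (le_sup_right : Bn (n + 1) ≤ K ⊔ Bn (n + 1)) y.2⟩
        have h2 := hr2 τ y ⟨(y : ℂ), (le_sup_right : Bn (n + 1) ≤ K ⊔ Bn (n + 1)) y.2⟩ rfl
        rw [h2] at h1
        exact h1
      have hψN := hψ3 (σ : ℂ →+* ℂ) N (r₂ τ) hNl hσz hσB
      have hARK : AR hK (idl f) (r₁ τ) (sp x * cjI (R.b q.1)) :=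
        a6 K hK (idl f) hmf le_sup_left τ (r₁ τ) _ (fun y y' h => hr1 τ y y' h) ⟨σ, hσ, hσe⟩
      have hΨ := e1 ⟨Y, hYr⟩ (r₁ τ) _ hARK
      rw [e2] at hΨ
      have hcast : ((nm x * nI (R.b q.1) : ℤ) : ZMod (l ^ (n + 1 + s))) = ((N : ℕ) : ZMod (l ^ (n + 1 + s))) := by
        rw [← hN, Int.cast_natCast]
      have hth : thT R (fun i => Ψ ⟨Y, hYr⟩ (cjI (R.b i))) (fun x => Ψ ⟨Y, hYr⟩ (sp x)) ψ q.1 x =
          ((X τ⁻¹ : ℂˣ) : ℂ) := by
        show Ψ ⟨Y, hYr⟩ (cjI (R.b q.1)) * Ψ ⟨Y, hYr⟩ (sp x) *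
          ψ ((nm x * nI (R.b q.1) : ℤ) : ZMod (l ^ (n + 1 + s))) = _
        rw [hcast, hψN, mul_comm (Ψ ⟨Y, hYr⟩ (cjI (R.b q.1))), hΨ, ← Units.val_mul, ← mul_inv,
          ← hXY τ, map_inv]
      refine (congrArg (rsd V) hth).trans ?_
      obtain ⟨h4, h5⟩ := hXres τ⁻¹
      unfold rsd
      rw [dif_pos h4, h5, map_inv]

end Pool.Agent.TWI


end

section

/-!
# TWI: the final theorem for all primes outside a finite set (helper51)
-/

set_option autoImplicit false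

open NumberField IsDedekindDomain

namespace Pool.Agent.TWI

open _root_.MU3 Pool.Agent.MU3 Pool.Agent.MU3A Pool.Agent.MU3B Pool.Agent.RI Pool.Agent.RID
  Pool.Agent.MUX Pool.Agent.MUXJ Pool.Agent.MUXY Pool.Agent.TWT Pool.Agent.TWK Pool.Agent.TWF
open Pool.Agent.MU3V (Sub)

/-- From the class numbers of the fields `L` to the final statement for one field `K` and one prime `l`. -/
theorem fin_g (p l : ℕ) [Fact p.Prime] [Fact l.Prime] (hpl : p ≠ l)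
    (k K : IntermediateField ℚ ℂ) [FiniteDimensional ℚ K] (Bn : ℕ → IntermediateField ℚ ℂ)
    [∀ n, FiniteDimensional ℚ ↥(K ⊔ Bn n)] (hT : Twr l k K Bn)
    (huni : ∀ (n : ℕ) (Q : IntermediateField ℚ ℂ), IsLayer l n Q → Q = Bn n)
    (hmain : ∃ n₁ : ℕ, ∀ n : ℕ, n₁ ≤ n → ∀ b : ℕ, ∀ L : IntermediateField ℚ ℂ, k ≤ L →
      L ≤ K ⊔ Bn (n + b) →
        padicValNat p (classNo L) = padicValNat p (classNo (L ⊓ (K ⊔ Bn n)))) :
    ∃ n₀ : ℕ, ∀ B₀ : IntermediateField ℚ ℂ, IsLayer l n₀ B₀ →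
      (∀ a : ℕ, ¬ l ^ (a + 1) ∣ Module.finrank k (IntermediateField.extendScalars hT.hk) →
        ∀ n : ℕ, n₀ + a ≤ n → ∀ B B' : IntermediateField ℚ ℂ, IsLayer l n B →
        IsLayer l (n + 1) B' → ∀ (L : IntermediateField ℚ ℂ) (hL : k ≤ L),
        L ≤ K ⊔ B' → ¬ L ≤ K ⊔ B →
        IsCyclic ((IntermediateField.extendScalars hL) ≃ₐ[k]
          (IntermediateField.extendScalars hL)) →
        ∀ (L₁ : IntermediateField ℚ ℂ) (h₁ : k ≤ L₁) (h₂ : L₁ ≤ L),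
        ¬ l ∣ Module.finrank k (IntermediateField.extendScalars h₁) →
        (∃ e : ℕ, Module.finrank L₁ (IntermediateField.extendScalars h₂) = l ^ e) →
        ∀ (m : ℕ) (Q : IntermediateField ℚ ℂ), IsLayer p m Q →
          padicValNat p (classNo (L ⊔ Q)) = padicValNat p (classNo (L₁ ⊔ B₀ ⊔ Q))) ∧
      ∀ n : ℕ, n₀ ≤ n → ∀ B : IntermediateField ℚ ℂ, IsLayer l n B →
        ∀ L : IntermediateField ℚ ℂ, k ≤ L → L ≤ K ⊔ B →
        ∀ (m : ℕ) (Q : IntermediateField ℚ ℂ), IsLayer p m Q →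
          padicValNat p (classNo (L ⊔ Q)) = padicValNat p (classNo ((L ⊓ (K ⊔ B₀)) ⊔ Q)) := by
  obtain ⟨n₁, hn₁⟩ := hmain
  obtain ⟨n₂, hn₂⟩ := end1 p l hpl k K Bn hT
  obtain ⟨n₃, hn₃⟩ := grow l k K Bn hT
  have hno := hn₃ (n₁ + n₂ + n₃) (by omega)
  have hall : ∀ n, n₁ + n₂ + n₃ ≤ n → ∀ L : IntermediateField ℚ ℂ, k ≤ L → L ≤ K ⊔ Bn n →
      ∀ (m : ℕ) (Q : IntermediateField ℚ ℂ), IsLayer p m Q →
        padicValNat p (classNo (L ⊔ Q)) =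
          padicValNat p (classNo ((L ⊓ (K ⊔ Bn (n₁ + n₂ + n₃))) ⊔ Q)) := by
    intro n hn L hkL hL m Q hQ
    obtain ⟨b, rfl⟩ := Nat.exists_eq_add_of_le hn
    exact hn₂ _ (by omega) b L hkL hL (hn₁ _ (by omega) b L hkL hL) m Q hQ
  refine ⟨n₁ + n₂ + n₃, fun B₀ hB₀ => ?_⟩
  obtain rfl := huni _ B₀ hB₀
  refine ⟨?_, ?_⟩
  · intro a ha n hn B₁ B₂ hB₁ hB₂ L hkL hL hnL hcyc L₁ hk1 h1L hd1 hd2 m Q hQ
    obtain ⟨e, he⟩ := hd2
    obtain rfl := huni n B₁ hB₁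
    obtain rfl := huni (n + 1) B₂ hB₂
    obtain ⟨r, hr, hdr⟩ := dvd_split l a _ ha
    rw [hall (n + 1) (by omega) L hkL hL m Q hQ,
      cor2 l a r _ hr k K Bn hT hdr hno (n + 1) (by omega) L hkL hL hcyc hnL L₁ hk1 h1L e
        (dvd_of_eq he) hd1]
  · intro n hn B₁ hB₁ L hkL hL m Q hQ
    obtain rfl := huni n B₁ hB₁
    exact hall n hn L hkL hL m Q hQ

/-- the statement for `k = kk A B` and one good prime `p` -/
theorem fin_pI (hFIN : S_FIN3) (hFINI : S_FINI) (hLAY : Pool.Agent.MUXI.Si_LAY)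
    (hIAF : Pool.Agent.MUXI.Si_IAF) (hREX : Sy_REX) (hUNF : S_UNF) (hUNFI : S_UNFI)
    (hJTR : Pool.Agent.JT.Sj_JTR) (hDIR : Sj_DIR)
    (hLAYs : Sj_LAY) (A B : ℤ) (hc : CQ A B) (T : TorX A B) (hNL : NLex A B)
    (hd3 : absD A B ≠ 3) (hd4 : absD A B ≠ 4) (p : ℕ) (hp : p.Prime)
    (hp5 : 5 ≤ p) (hpD : ¬ (p : ℤ) ∣ absD A B)
    (hgood : (∃ (P : Ideal (OO A B)) (V V' : ValuationSubring ℂ), IsPN p P ∧ IsPN p (cjI P) ∧
        OverI V P ∧ OverI V' (cjI P) ∧ (p : ℂ) ∈ V.nonunits ∧ (p : ℂ) ∈ V'.nonunits ∧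
        (∀ (N₀ : ℕ) (ι : Type) (R : Reps A B N₀ ι), GRd V R) ∧
        ∀ (N₀ : ℕ) (ι : Type) (R : Reps A B N₀ ι), GRd V' R) ∨
      ((idl (A := A) (B := B) p).IsPrime ∧ ∃ V : ValuationSubring ℂ,
        OverI V (idl (A := A) (B := B) p) ∧ (p : ℂ) ∈ V.nonunits ∧
        ∀ (N₀ : ℕ) (ι : Type) (R : Reps A B N₀ ι), GRd V R)) : StP (kk A B) p := by
  intro K fdK hk hG hab hdeg hram l hl
  have hpF : Fact p.Prime := ⟨hp⟩
  have hU : TorU A B K := hJTR A B hc T hNL K hk hG hab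
  obtain ⟨M, hM0, hM⟩ := hDIR A B hc T K hU
  -- the exponent `h`
  obtain ⟨g, h, hgen, hls⟩ : ∃ g h : ℕ, Pool.Agent.TWR.Gen l g h ∧
      ((l = 3 ∧ h = 1) ∨ (l = 2 ∧ h = 2)) := by
    rcases hl with rfl | rfl
    · exact ⟨5, 2, Or.inr ⟨rfl, rfl, rfl⟩, Or.inr ⟨rfl, rfl⟩⟩
    · exact ⟨4, 1, Or.inl ⟨rfl, rfl, rfl⟩, Or.inl ⟨rfl, rfl⟩⟩
  have hlp : l.Prime := by
    rcases hl with rfl | rfl
    · exact Nat.prime_two
    · exact Nat.prime_three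
  have hlF : Fact l.Prime := ⟨hlp⟩
  have hpl' : p ≠ l := by rcases hl with rfl | rfl <;> omega
  have hpl : ¬ p ∣ l ^ h := by
    intro h3
    exact hpl' ((Nat.prime_dvd_prime_iff_eq hp hlp).1 (hp.dvd_of_dvd_pow h3))
  -- a base level
  have hD0 : absD A B ≠ 0 := by
    intro h3
    exact hpD (by rw [h3]; exact dvd_zero _)
  have hDn : (((absD A B).natAbs : ℕ) : ℤ) = |absD A B| := Int.natCast_natAbs _
  have e1 : 2 * (absD A B).natAbs ≠ 0 := mul_ne_zero two_ne_zero (Int.natAbs_ne_zero.2 hD0)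
  have e2 : ¬ p ∣ 2 * (absD A B).natAbs := by
    intro h3
    rcases (Nat.Prime.dvd_mul hp).1 h3 with h4 | h4
    · have := Nat.le_of_dvd (by norm_num) h4
      omega
    · exact hpD (Int.natCast_dvd.2 h4)
  have e3 : 2 * absD A B ∣ ((2 * (absD A B).natAbs : ℕ) : ℤ) := by
    rw [Nat.cast_mul, hDn, Nat.cast_two]
    exact mul_dvd_mul_left 2 ((dvd_abs _ _).2 dvd_rfl)
  obtain ⟨Bn, hlay, hmono, huni⟩ := layers hLAYs l hl
  have hfL : ∀ n, FiniteDimensional ℚ ↥(K ⊔ Bn n) := fun n => by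
    have : FiniteDimensional ℚ (Bn n) := (LAY_thm l n (Bn n) (hlay n)).1
    exact IntermediateField.finiteDimensional_sup K (Bn n)
  have fdk : FiniteDimensional ℚ (kk A B) := FiniteDimensional.of_injective
    (IntermediateField.inclusion hk).toLinearMap
    (IntermediateField.inclusion hk).toRingHom.injective
  have hT : Twr l (kk A B) K Bn := ⟨hk, hG, hab, hlay, hmono⟩
  have hNL' : ∃ (b : Ideal (OO A B)) (L : PeriodPair) (om : ℂ), IsNL b L om := hNL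
  refine fin_g p l hpl' (kk A B) K Bn hT huni ?_
  rcases hgood with ⟨P, V, V', hP, -, hV, hV', -, -, hR, hR'⟩ | ⟨hPr, V, hV, -, hR⟩
  · have hSet : SetG p A B P V (2 * (absD A B).natAbs) := ⟨hc, hp, hp5, hP, hV, hpD, e1, e2, e3⟩
    obtain ⟨ι, iι, ⟨R⟩⟩ := hREX A B hc hd3 hd4 1 one_ne_zero
    obtain ⟨f, hf0, hfp, hlf, hfD, hKf⟩ := hUNF p A B P V V' _ hSet hV' T 1 ι R
      (hR 1 ι R) (hR' 1 ι R) K hk hdeg M hM0 hM hram (l ^ h)
      (pow_ne_zero _ hlp.ne_zero) hpl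
    have hS : SetG p A B P V f := ⟨hc, hp, hp5, hP, hV, hpD, hf0, hfp, hfD⟩
    obtain ⟨ι', iι', ⟨R'⟩⟩ := hREX A B hc hd3 hd4 (p * f) (mul_ne_zero hp.ne_zero hf0)
    exact hFIN l g h hgen p A B P V f hS hlf T ι' R' (hR _ _ R') K hk hdeg hKf Bn
      hlay hmono (fun n => lvl hLAY hIAF l h hls A B hc T hNL' f hf0 K hKf n (Bn n) (hlay n))
  · have hSet : SetI p A B (idl (A := A) (B := B) p) V (2 * (absD A B).natAbs) :=
      ⟨hc, hp, hp5, rfl, hPr, hV, hpD, e1, e2, e3⟩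
    obtain ⟨ι, iι, ⟨R⟩⟩ := hREX A B hc hd3 hd4 (p * (2 * (absD A B).natAbs))
      (mul_ne_zero hp.ne_zero e1)
    obtain ⟨f, hf0, hfp, hlf, hfD, hKf⟩ := hUNFI p A B _ V _ hSet T ι R
      (hR _ ι R) K hk hdeg M hM0 hM hram (l ^ h) (pow_ne_zero _ hlp.ne_zero) hpl
    have hS : SetI p A B (idl (A := A) (B := B) p) V f :=
      ⟨hc, hp, hp5, rfl, hPr, hV, hpD, hf0, hfp, hfD⟩
    obtain ⟨ι', iι', ⟨R'⟩⟩ := hREX A B hc hd3 hd4 (p * f) (mul_ne_zero hp.ne_zero hf0)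
    exact hFINI l g h hgen p A B _ V f hS hlf T ι' R' (hR _ _ R') K hk hdeg hKf Bn
      hlay hmono (fun n => lvl hLAY hIAF l h hls A B hc T hNL' f hf0 K hKf n (Bn n) (hlay n))

/-- All imaginary quadratic `k` except `ℚ(i)` and `ℚ(√-3)`, all primes outside a finite set. -/
theorem finalI (hFIN : S_FIN3) (hFINI : S_FINI) (hLAY : Pool.Agent.MUXI.Si_LAY)
    (hIAF : Pool.Agent.MUXI.Si_IAF)
    (hREX : Sy_REX) (hNLE : Sy_NLE) (hUNF : S_UNF) (hUNFI : S_UNFI)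
    (hTOR : ∀ A B : ℤ, CQ A B → TorX A B)
    (hGRB : Pool.Agent.MUXW.Sy_GRB) (hALU : Pool.Agent.MUXV.Sq_ALU)
    (hJTR : Pool.Agent.JT.Sj_JTR) (hJQF : Pool.Agent.JT.Sj_JQF) (hDIR : Sj_DIR)
    (hLAYs : Sj_LAY) (k : IntermediateField ℚ ℂ) (h2 : Module.finrank ℚ k = 2)
    (hi : ∃ z ∈ k, (starRingEnd ℂ) z ≠ z) (h4 : ∀ z ∈ k, z ^ 2 ≠ -1)
    (h3 : ∀ z ∈ k, z ^ 2 ≠ -3) :
    ∃ S : Finset ℕ, ∀ p : ℕ, p.Prime → p ∉ S → StP k p := by
  obtain ⟨d, hd, rfl, -⟩ := hJQF k h2 hi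
  have hd1 : d ≠ 1 := by
    rintro rfl
    exact h4 _ kk_one Complex.I_sq
  have hd3 : d ≠ 3 := by
    rintro rfl
    obtain ⟨z, hz, hz3⟩ := kk_three
    exact h3 z hz hz3
  have hc : CQ (MUXZ.pA d) (MUXZ.pB d) := MUXZ.cq_p hd
  have T := hTOR _ _ hc
  have hD3 : absD (MUXZ.pA d) (MUXZ.pB d) ≠ 3 := by
    rw [MUXZ.absD_p]
    split_ifs <;> omega
  have hD4 : absD (MUXZ.pA d) (MUXZ.pB d) ≠ 4 := by
    rw [MUXZ.absD_p]
    split_ifs <;> omega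
  have hNL : NLex (MUXZ.pA d) (MUXZ.pB d) := by
    obtain ⟨L, om, hL⟩ := hNLE _ _ hc hD3 hD4 ⊤ (by
      have h1 := natCast_ne_zero' hc one_ne_zero
      intro h5
      have h6 : ((1 : ℕ) : OO (MUXZ.pA d) (MUXZ.pB d)) ∈
        (⊤ : Ideal (OO (MUXZ.pA d) (MUXZ.pB d))) := Submodule.mem_top
      rw [h5, Ideal.mem_bot] at h6
      exact h1 h6)
    exact ⟨⊤, L, om, hL⟩
  obtain ⟨ι, iι, ⟨R⟩⟩ := hREX _ _ hc hD3 hD4 1 one_ne_zero
  obtain ⟨n₀, hn0, hn₀⟩ := t_GOOD _ _ hc T hGRB hALU 1 ι R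
  refine ⟨n₀.primeFactors, fun p hp hpS => ?_⟩
  have hpn' : ¬ p ∣ n₀ := fun h5 => hpS (Nat.mem_primeFactors.2 ⟨hp, h5, hn0⟩)
  obtain ⟨hp5, hpD, hgood⟩ := hn₀ p hp hpn'
  exact fin_pI hFIN hFINI hLAY hIAF hREX hUNF hUNFI hJTR hDIR hLAYs _ _ hc T hNL hD3 hD4 p hp hp5
    hpD hgood

end Pool.Agent.TWI


end

section

/-!
# TWI: assembly of Theorem C for all primes outside a finite set, except `S_CRIT`, `S_SYMI`, `S_CRITI`, `S_KRI`
-/

set_option autoImplicit false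

open NumberField IsDedekindDomain

namespace Pool.Agent.TWI

open _root_.MU3 Pool.Agent.MU3 Pool.Agent.MU3A Pool.Agent.MU3B Pool.Agent.RI Pool.Agent.RID
  Pool.Agent.MUX Pool.Agent.MUXJ Pool.Agent.MUXY Pool.Agent.TWT Pool.Agent.TWK Pool.Agent.MUXW
  Pool.Agent.MUXI Pool.Agent.MUXZ Pool.Agent.TWF

theorem a_FACTI : S_FACTI :=
  t_FACTI MUXI.i_ARF MUXI.i_IAF MUXI.i_XXF MUXI.i_LAY MUXF.xf_NIM MUXJ.j_GAL

theorem a_FINI (hSYMI : S_SYMI) (hCRITI : S_CRITI) : S_FINI :=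
  t_FINI (k_FIN1 z_MEM z_TOW z_SUC z_KOL (tz_THN z_THG)) (t_UNITI hSYMI hCRITI a_FACTI)

/-- everything except `S_CRIT`, `S_SYMI`, `S_CRITI`, `S_KRI` -/
theorem asmI (hCRIT : S_CRIT) (hSYMI : S_SYMI) (hCRITI : S_CRITI) (hKRI : S_KRI)
    (k : IntermediateField ℚ ℂ)
    (h2 : Module.finrank ℚ k = 2) (hi : ∃ z ∈ k, (starRingEnd ℂ) z ≠ z)
    (h4 : ∀ z ∈ k, z ^ 2 ≠ -1) (h3 : ∀ z ∈ k, z ^ 2 ≠ -3) :
    ∃ S : Finset ℕ, ∀ p : ℕ, p.Prime → p ∉ S → StP k p :=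
  finalI (a_FIN3 hCRIT) (a_FINI hSYMI hCRITI) MUXI.i_LAY MUXI.i_IAF MUXY.z_REX MUXY.z_NLE t_UNF
    (i_UNFI hKRI) MUXC.c_TOR z_GRB
    MUXV.q_ALU Pool.Agent.JT.j_JTR Pool.Agent.JT.j_JQF MUXJ.j_DIR MUXJ.j_LAY k h2 hi h4 h3

end Pool.Agent.TWI


end
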