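import Pool.Agent.MVF.C014
import Pool.Agent.MVF.C025
import Pool.Agent.MVF.C027
import Pool.Agent.MVF.C053
import Pool.Agent.MVF.C054
import Pool.Agent.MVF.C068
import Pool.Agent.MVF.C076
import Pool.Agent.MVF.C080
import Pool.Agent.MVF.C113
import Pool.Agent.MVF.C117
import Pool.Agent.MVF.C118
import Pool.Agent.MVF.C170
import Pool.Agent.TWM.C05

/-! Parts: TWT.I0, TWT.DTP, TWT.HTF, TWT.NRR, TWT.PHI, TWT.SIG -/

section

/-!
# TWT: the theorems of block I of MUX which do not depend on `p`, with few imports (helper59)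
-/

set_option autoImplicit false

namespace Pool.Agent.TWT

open Pool.Agent.MUXF Pool.Agent.MUXU Pool.Agent.MUXY Pool.Agent.MUXI

theorem j_IAF : Si_IAF := ti_IAF u_DET
theorem j_IAG : Si_IAG := ti_IAG j_IAF
theorem j_RPR : Si_RPR := ti_RPR xf_ALG xf_IDL xf_NIM
theorem j_HIT : Si_HIT := ti_HIT j_IAF j_IAG j_RPR y_MUI y_UNJ xf_ALG
theorem j_ARF : Si_ARF := ti_ARF j_IAF j_IAG
theorem j_XXF : Si_XXF := ti_XXF j_HIT j_ARF j_RPR j_IAF
theorem j_PTP : Si_PTP := ti_PTP

end Pool.Agent.TWT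


end

section

/-!
# TWT, block B: module DTP (helper52): distribution relation of `ThetaH` over an isogeny
-/

set_option autoImplicit false

namespace Pool.Agent.TWT

open Pool.Agent.MU3B Pool.Agent.MUXU

noncomputable section

namespace DTP

theorem int_mul {L : PeriodPair} (c : ℤ) {x : ℂ} (h : x ∈ L.lattice) :
    (c : ℂ) * x ∈ L.lattice := by
  have h1 := L.lattice.smul_mem c h
  rwa [zsmul_eq_mul] at h1

/-- a point which is killed by two coprime numbers is in the lattice -/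
theorem cop {L : PeriodPair} {a n : ℕ} (h : a.Coprime n) {x : ℂ} (ha : (a : ℂ) * x ∈ L.lattice)
    (hn : (n : ℂ) * x ∈ L.lattice) : x ∈ L.lattice := by
  have h1 : ((Nat.gcd a n : ℕ) : ℤ) = a * Nat.gcdA a n + n * Nat.gcdB a n := Nat.gcd_eq_gcd_ab a n
  rw [Nat.Coprime.gcd_eq_one h] at h1
  have h2 : (1 : ℂ) = (a : ℂ) * (Nat.gcdA a n : ℤ) + (n : ℂ) * (Nat.gcdB a n : ℤ) := by
    have h3 := congrArg (fun k : ℤ => (k : ℂ)) h1
    push_cast at h3
    exact h3
  have h4 : x = ((Nat.gcdA a n : ℤ) : ℂ) * ((a : ℂ) * x) + ((Nat.gcdB a n : ℤ) : ℂ) * ((n : ℂ) * x) := by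
    calc x = 1 * x := by ring
      _ = _ := by rw [h2]; ring
  rw [h4]
  exact add_mem (int_mul _ ha) (int_mul _ hn)

variable {L M : PeriodPair} {mu : ℂ} {n a : ℕ} {H : Finset ℂ}

/-- points killed by `a` whose image is in `M` are in `L` -/
theorem ker (hn : ∀ z, mu * z ∈ M.lattice → (n : ℂ) * z ∈ L.lattice) (hc : a.Coprime n) {x : ℂ}
    (ha : (a : ℂ) * x ∈ L.lattice) (hx : mu * x ∈ M.lattice) : x ∈ L.lattice :=
  cop hc ha (hn x hx)

theorem notin (hn : ∀ z, mu * z ∈ M.lattice → (n : ℂ) * z ∈ L.lattice) (hc : a.Coprime n)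
    (hH : IsHalf L a H) {q : ℂ} (hq : q ∈ H) : mu * q ∉ M.lattice := by
  intro h
  have h1 := ker hn hc (hH.mem q hq) h
  refine hH.ne q hq ?_
  rw [two_mul]
  exact add_mem h1 h1

/-- the image of a half system is a half system -/
theorem half (hmu : mu ≠ 0) (hI : Isg L M mu)
    (hn : ∀ z, mu * z ∈ M.lattice → (n : ℂ) * z ∈ L.lattice) (hc : a.Coprime (2 * n))
    (hH : IsHalf L a H) : IsHalf M a (H.image fun q => mu * q) := by
  have hc1 : a.Coprime n := Nat.Coprime.coprime_mul_left_right hc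
  refine ⟨?_, ?_, ?_, ?_, ?_⟩
  · intro u hu
    obtain ⟨q, hq, rfl⟩ := Finset.mem_image.mp hu
    have h1 := hI _ (hH.mem q hq)
    have h2 : (a : ℂ) * (mu * q) = mu * (a * q) := by ring
    rwa [h2]
  · intro u hu
    obtain ⟨q, hq, rfl⟩ := Finset.mem_image.mp hu
    intro h
    have h1 : mu * (2 * q) ∈ M.lattice := by
      have h2 : mu * (2 * q) = 2 * (mu * q) := by ring
      rwa [h2]
    have h3 : ((2 * n : ℕ) : ℂ) * q ∈ L.lattice := by
      have h4 := hn _ h1
      have h5 : ((2 * n : ℕ) : ℂ) * q = (n : ℂ) * (2 * q) := by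
        push_cast
        ring
      rwa [h5]
    have h6 : q ∈ L.lattice := cop hc (hH.mem q hq) h3
    refine hH.ne q hq ?_
    rw [two_mul]
    exact add_mem h6 h6
  · intro u hu u' hu' h
    obtain ⟨q, hq, rfl⟩ := Finset.mem_image.mp hu
    obtain ⟨q', hq', rfl⟩ := Finset.mem_image.mp hu'
    have h1 : mu * (q - q') ∈ M.lattice := by rwa [mul_sub]
    have h2 : (a : ℂ) * (q - q') ∈ L.lattice := by
      rw [mul_sub]
      exact sub_mem (hH.mem q hq) (hH.mem q' hq')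
    rw [hH.inj q hq q' hq' (ker hn hc1 h2 h1)]
  · intro u hu u' hu' h
    obtain ⟨q, hq, rfl⟩ := Finset.mem_image.mp hu
    obtain ⟨q', hq', rfl⟩ := Finset.mem_image.mp hu'
    have h1 : mu * (q + q') ∈ M.lattice := by rwa [mul_add]
    have h2 : (a : ℂ) * (q + q') ∈ L.lattice := by
      rw [mul_add]
      exact add_mem (hH.mem q hq) (hH.mem q' hq')
    exact hH.neg q hq q' hq' (ker hn hc1 h2 h1)
  · intro u hau hu
    have h1 : ((Nat.gcd a n : ℕ) : ℤ) = a * Nat.gcdA a n + n * Nat.gcdB a n :=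
      Nat.gcd_eq_gcd_ab a n
    rw [Nat.Coprime.gcd_eq_one hc1] at h1
    set s : ℤ := Nat.gcdB a n with hs
    set t : ℤ := Nat.gcdA a n with ht
    have h2 : (1 : ℂ) = (a : ℂ) * t + (n : ℂ) * s := by
      have h3 := congrArg (fun k : ℤ => (k : ℂ)) h1
      push_cast at h3
      exact h3
    set z : ℂ := u / mu with hz
    have hz1 : mu * z = u := by
      rw [hz]
      field_simp
    have h3 : (n : ℂ) * ((a : ℂ) * z) ∈ L.lattice := by
      refine hn _ ?_
      have h4 : mu * ((a : ℂ) * z) = a * u := by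
        rw [← hz1]
        ring
      rwa [h4]
    have h5 : (a : ℂ) * ((s : ℂ) * n * z) ∈ L.lattice := by
      have h6 : (a : ℂ) * ((s : ℂ) * n * z) = (s : ℂ) * ((n : ℂ) * ((a : ℂ) * z)) := by ring
      rw [h6]
      exact int_mul _ h3
    have h7 : u - mu * ((s : ℂ) * n * z) ∈ M.lattice := by
      have h8 : u - mu * ((s : ℂ) * n * z) = (t : ℂ) * ((a : ℂ) * u) := by
        have h9 : mu * ((s : ℂ) * n * z) = (s : ℂ) * n * (mu * z) := by ring
        rw [h9, hz1]
        linear_combination u * h2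
      rw [h8]
      exact int_mul _ hau
    have h10 : (s : ℂ) * n * z ∉ L.lattice := by
      intro h11
      apply hu
      have h12 := add_mem h7 (hI _ h11)
      rwa [sub_add_cancel] at h12
    obtain ⟨q, hq, h13 | h13⟩ := hH.surj _ h5 h10
    · refine ⟨mu * q, Finset.mem_image_of_mem _ hq, Or.inl ?_⟩
      have h14 : u - mu * q = (u - mu * ((s : ℂ) * n * z)) + mu * ((s : ℂ) * n * z - q) := by ring
      rw [h14]
      exact add_mem h7 (hI _ h13)
    · refine ⟨mu * q, Finset.mem_image_of_mem _ hq, Or.inr ?_⟩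
      have h14 : u + mu * q = (u - mu * ((s : ℂ) * n * z)) + mu * ((s : ℂ) * n * z + q) := by ring
      rw [h14]
      exact add_mem h7 (hI _ h13)

end DTP

theorem t_DTP : S_DTP := by
  intro L M mu hmu hI Rp hR hev n hn0 hn a H H' ha0 hc hH hH'
  have hc1 : a.Coprime n := Nat.Coprime.coprime_mul_left_right hc
  have hPFI : Su_PFI := tu_PFI tu_ISO
  have hout : ∀ q ∈ H, mu * q ∉ M.lattice := fun q hq => DTP.notin hn hc1 hH hq
  have hqL : ∀ q ∈ H, q ∉ L.lattice := by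
    intro q hq h
    exact hout q hq (hI _ h)
  refine ⟨∏ q ∈ H, (mu ^ 2 * ∏ r ∈ Rp, (L.weierstrassP q - L.weierstrassP r)), ?_, ?_⟩
  · refine Finset.prod_ne_zero_iff.mpr fun q hq => mul_ne_zero (pow_ne_zero 2 hmu) ?_
    refine Finset.prod_ne_zero_iff.mpr fun r hr => ?_
    intro h0
    rw [sub_eq_zero] at h0
    rcases b_NEQ L r q (hR.ne r hr) (hqL q hq) h0 with h1 | h1
    · apply hout q hq
      have h2 : mu * q = mu * (q - r) + mu * r := by ring
      rw [h2]
      exact add_mem (hI _ h1) (hR.mem r hr)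
    · apply hout q hq
      have h2 : mu * q = mu * (q + r) - mu * r := by ring
      rw [h2]
      exact sub_mem (hI _ h1) (hR.mem r hr)
  · intro z hz
    have hT := (b_TIN M (a : ℂ) _ H' (DTP.half hmu hI hn hc hH) hH').1 (mu * z)
    rw [← hT]
    have hinj : Function.Injective fun q : ℂ => mu * q := mul_right_injective₀ hmu
    unfold ThetaH
    rw [Finset.prod_image fun x _ y _ h => hinj h, Finset.prod_comm, ← Finset.prod_mul_distrib,
      ← Finset.prod_mul_distrib]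
    refine Finset.prod_congr rfl fun q hq => ?_
    have h1 := hPFI L M mu Rp hmu hI hR z hz q (hout q hq)
    have h2 : ∏ r ∈ Rp, (L.weierstrassP q - L.weierstrassP (z + r)) =
        ∏ r ∈ Rp, (L.weierstrassP (z + r) - L.weierstrassP q) := by
      have h3 : ∀ r ∈ Rp, L.weierstrassP q - L.weierstrassP (z + r) =
          (-1) * (L.weierstrassP (z + r) - L.weierstrassP q) := fun r _ => by ring
      rw [Finset.prod_congr rfl h3, Finset.prod_mul_distrib, Finset.prod_const, hev.neg_one_pow,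
        one_mul]
    rw [h2] at h1
    linear_combination h1

end

end Pool.Agent.TWT


end

section

/-!
# TWT, module HTF (helper49): automorphisms of `F = RF (idl M)` and points
-/

set_option autoImplicit false

open WeierstrassCurve Polynomial NumberField IsDedekindDomain

namespace Pool.Agent.TWT

open _root_.MU3 Pool.Agent.MU3A Pool.Agent.MU3B Pool.Agent.MU3C Pool.Agent.RI Pool.Agent.RID
open Pool.Agent.MUX Pool.Agent.MUXU Pool.Agent.MUXW
open Pool.Agent.MU3V (cls Sub GD algDF)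
open Pool.Agent.MUXV (GR InK tX)
open Pool.Agent.MUXI (IA RE AR)
open OnePoint

noncomputable section

namespace HTF

variable {A B : ℤ}

/-- `M` does not divide `2` -/
lemma not_dvd_two (M : ℕ) (hM : 3 ≤ M) : ¬ ((M : ℕ) : OO A B) ∣ 2 := by
  rintro ⟨y, hy⟩
  have h5 : (2 : ℤ) = (M : ℤ) * y.re := by
    have := congrArg QuadraticAlgebra.re hy
    simpa [QuadraticAlgebra.re_ofNat] using this
  have h6 : (M : ℤ) ∣ 2 := ⟨y.re, h5⟩
  have h7 := Int.le_of_dvd (by norm_num) h6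
  omega

/-- the action on all points of level `M` -/
lemma act_pt (hc : CQ A B) {n₀ : ℕ} {ι : Type} (R : Reps A B n₀ ι) (m : ℕ) (hm : 2 ≤ m)
    (hcop : ∀ i, (nI (R.b i)).Coprime m) (σ : ℂ ≃+* ℂ) (i : ι) (x : OO A B)
    (hx : IsCoprime x (m : OO A B)) (hIA : IA σ (idl m) (sp x * cjI (R.b i))) (x' : OO A B)
    (hx' : x' ∉ idl (A := A) (B := B) m) :
    kap (R.L i) = σ (kap (R.L R.i0)) ∧
    σ (xn (R.L R.i0) (Pool.Agent.MUX.pt R m R.i0 x')) =
      xn (R.L i) (Pool.Agent.MUX.pt R m i (x * x')) ∧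
    Pool.Agent.MUX.pt R m i (x * x') ∉ (R.L i).lattice ∧
    Pool.Agent.MUX.pt R m R.i0 x' ∉ (R.L R.i0).lattice ∧
    emb ((m : ℕ) : OO A B) * Pool.Agent.MUX.pt R m R.i0 x' ∈ (R.L R.i0).lattice := by
  obtain ⟨hmul, hz, hint, -, -⟩ := Pool.Agent.MUXF.xf_ALG A B (Pool.Agent.MUXY.cqF hc)
  have hem : ∀ x y : OO A B, emb (x * y) = emb x * emb y := fun x y => (hmul x y).1
  have heZ : ∀ k : ℤ, emb ((k : ℤ) : OO A B) = (k : ℂ) := fun k => (hint k).1
  have heN : ∀ k : ℕ, emb ((k : ℕ) : OO A B) = (k : ℂ) := fun k => by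
    have := heZ (k : ℤ)
    rwa [Int.cast_natCast, Int.cast_natCast] at this
  have he1 : emb (1 : OO A B) = 1 := by
    have := heN 1
    rwa [Nat.cast_one, Nat.cast_one] at this
  have hm0 : m ≠ 0 := by omega
  have hmC : (m : ℂ) ≠ 0 := by exact_mod_cast hm0
  have hx0 : x ≠ 0 := Pool.Agent.MUXI.Hit.cop_ne m hm x hx
  have hex0 : emb x ≠ 0 := fun h => hx0 ((hz x).1.1 h)
  obtain ⟨b', L', om', mu, hnl', hact⟩ := hIA.act _ _ _ (R.nl R.i0)
  have hq : IsQ (cjI (R.b i)) (R.L R.i0) (R.L i) (muX R i) :=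
    Pool.Agent.MUXY.y_MUI A B hc n₀ ι R i
  have hq2 : IsQ (sp x * cjI (R.b i)) (R.L R.i0) (R.L i) (emb x * muX R i) := by
    refine ⟨mul_ne_zero hex0 hq.1, fun z => ?_⟩
    have e1 : emb x * muX R i * z = muX R i * (emb x * z) := by ring
    rw [e1, hq.2]
    constructor
    · intro h y hy
      obtain ⟨y', hy', rfl⟩ := Ideal.mem_span_singleton_mul.1 hy
      have := h y' hy'
      rw [hem]
      have e2 : emb x * emb y' * z = emb y' * (emb x * z) := by ring
      rw [e2]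
      exact this
    · intro h y hy
      have := h (x * y) (Ideal.mem_span_singleton_mul.2 ⟨y, hy, rfl⟩)
      rw [hem] at this
      have e2 : emb x * emb y * z = emb y * (emb x * z) := by ring
      rw [e2] at this
      exact this
  obtain ⟨hlat, hpm⟩ :=
    Pool.Agent.MUXI.Hit.lat_eq _ _ _ _ _ _ hnl'.nrm (R.nl i).nrm hact.isq hq2
  obtain ⟨hxn, hkap⟩ := Pool.Agent.MUXI.Hit.same L' (R.L i) hlat
  have hN0 : nI (R.b R.i0) = 1 := by
    rw [R.b0]
    change Nat.card (OO A B ⧸ (⊤ : Ideal (OO A B))) = 1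
    have : Subsingleton (OO A B ⧸ (⊤ : Ideal (OO A B))) :=
      Ideal.Quotient.subsingleton_iff.2 rfl
    exact Nat.card_unique
  have hom0 : R.om R.i0 ≠ 0 := (R.nl R.i0).om_ne
  have hz0 : Pool.Agent.MUX.pt R m R.i0 x' = R.om R.i0 * emb x' / m := by
    unfold Pool.Agent.MUX.pt
    rw [hN0]
    simp
  have hmm : emb ((m : ℕ) : OO A B) * Pool.Agent.MUX.pt R m R.i0 x' ∈ (R.L R.i0).lattice := by
    refine ((R.nl R.i0).mem _).2 ⟨x', by rw [R.b0]; trivial, ?_⟩
    rw [heN, hz0]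
    field_simp
  have hTor : Tor (idl (A := A) (B := B) m) (R.L R.i0) (Pool.Agent.MUX.pt R m R.i0 x') := by
    intro y hy
    obtain ⟨t, rfl⟩ := Ideal.mem_span_singleton.1 hy
    refine ((R.nl R.i0).mem _).2 ⟨t * x', by rw [R.b0]; trivial, ?_⟩
    rw [hem, heN, hz0, hem]
    field_simp
  have hz0L : Pool.Agent.MUX.pt R m R.i0 x' ∉ (R.L R.i0).lattice := by
    intro h
    exact hx' (Pool.Agent.MUXI.Hit.pt_mem hc Pool.Agent.MUXF.xf_ALG R m hm0 R.i0 (hcop _) x' h)
  have hpt : emb x * muX R i * Pool.Agent.MUX.pt R m R.i0 x' =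
      Pool.Agent.MUX.pt R m i (x * x') := by
    rw [hz0]
    unfold Pool.Agent.MUX.pt muX
    rw [hem]
    field_simp
  refine ⟨by rw [hkap, hact.kap], ?_⟩
  rcases hact.act _ hTor with ⟨h1, -⟩ | ⟨-, h2, h3, -⟩
  · exact absurd h1 hz0L
  · rcases hpm with e | e
    · have e1 : Pool.Agent.MUX.pt R m i (x * x') = mu * Pool.Agent.MUX.pt R m R.i0 x' := by
        rw [← hpt, e]
      refine ⟨?_, ?_, hz0L, hmm⟩
      · rw [h3, hxn, e1]
      · rw [e1, ← hlat]
        exact h2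
    · have e1 : Pool.Agent.MUX.pt R m i (x * x') = -(mu * Pool.Agent.MUX.pt R m R.i0 x') := by
        rw [← hpt, e]; ring
      refine ⟨?_, ?_, hz0L, hmm⟩
      · rw [h3, hxn, e1]
        unfold xn
        rw [PeriodPair.weierstrassP_neg]
      · rw [e1, ← hlat, neg_mem_iff]
        exact h2

end HTF

open _root_.Pool.Agent.TWT.HTF in
theorem t_HTF : S_HTF := by
  intro A B hQ hT n ι R M hM hcop
  have hM2 : 2 ≤ M := by omega
  have hM0 : M ≠ 0 := by omega
  have hex : ∃ (b : Ideal (OO A B)) (L : PeriodPair) (om : ℂ), IsNL b L om :=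
    ⟨_, _, _, R.nl R.i0⟩
  have hbot : ∀ m : ℕ, m ≠ 0 → (idl (A := A) (B := B) m) ≠ ⊥ := by
    intro m hm h
    have h4 : ((m : ℕ) : OO A B) = 0 := by
      have : ((m : ℕ) : OO A B) ∈ (idl (A := A) (B := B) m) := Ideal.mem_span_singleton_self _
      rw [h] at this
      exact this
    have h5 := congrArg QuadraticAlgebra.re h4
    simp at h5
    omega
  have hMb := hbot M hM0
  have h2 : ¬ ((M : ℕ) : OO A B) ∣ 2 := not_dvd_two M hM
  obtain ⟨i1, i2, -, -, i5, -, i7, -⟩ := j_IAF A B hQ hT hex _ hMb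
  obtain ⟨p1, -⟩ := j_RPR A B hQ n ι R M hM0 hcop
  have hMO : ((M : ℕ) : OO A B) ≠ 0 := by
    intro h
    apply hMb
    rw [Ideal.span_singleton_eq_bot]
    exact h
  have h1M : (1 : OO A B) ∉ idl (A := A) (B := B) M := by
    intro h
    obtain ⟨t, ht⟩ := Ideal.mem_span_singleton.1 h
    exact Pool.Agent.MUXI.Hit.not_unit M hM2 t ht
  have hL : IsNL (⊤ : Ideal (OO A B)) (R.L R.i0) (R.om R.i0) := by
    have := R.nl R.i0
    rwa [R.b0] at this
  -- the base point
  have hpt1 : Pool.Agent.MUX.pt R M R.i0 1 = R.om R.i0 / M := by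
    have hN0 : nI (R.b R.i0) = 1 := by
      rw [R.b0]
      change Nat.card (OO A B ⧸ (⊤ : Ideal (OO A B))) = 1
      have : Subsingleton (OO A B ⧸ (⊤ : Ideal (OO A B))) :=
        Ideal.Quotient.subsingleton_iff.2 rfl
      exact Nat.card_unique
    obtain ⟨-, -, hint, -, -⟩ := Pool.Agent.MUXF.xf_ALG A B (Pool.Agent.MUXY.cqF hQ)
    have he1 : emb (1 : OO A B) = 1 := by
      have := (hint 1).1
      simpa using this
    unfold Pool.Agent.MUX.pt
    rw [hN0, he1]
    simp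
  have hz1 : Pool.Agent.MUX.pt R M R.i0 1 ∉ (R.L R.i0).lattice := fun h =>
    h1M (Pool.Agent.MUXI.Hit.pt_mem hQ Pool.Agent.MUXF.xf_ALG R M hM0 R.i0 (hcop _) 1 h)
  have hTor1 : Tor (idl (A := A) (B := B) M) (R.L R.i0) (Pool.Agent.MUX.pt R M R.i0 1) := by
    obtain ⟨hmul, -, hint, -, -⟩ := Pool.Agent.MUXF.xf_ALG A B (Pool.Agent.MUXY.cqF hQ)
    have heN : ∀ k : ℕ, emb ((k : ℕ) : OO A B) = (k : ℂ) := fun k => by
      have := (hint (k : ℤ)).1
      rwa [Int.cast_natCast, Int.cast_natCast] at this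
    have hmC : (M : ℂ) ≠ 0 := by exact_mod_cast hM0
    intro y hy
    obtain ⟨t, rfl⟩ := Ideal.mem_span_singleton.1 hy
    refine (hL.mem _).2 ⟨t, trivial, ?_⟩
    rw [(hmul _ _).1, heN, hpt1]
    field_simp
  have hkF : kap (R.L R.i0) ∈ (RF (idl M) : IntermediateField (kk A B) ℂ) :=
    IntermediateField.subset_adjoin _ _ ⟨_, _, _, hL, Or.inl rfl⟩
  have hxF : xn (R.L R.i0) (Pool.Agent.MUX.pt R M R.i0 1) ∈
      (RF (idl M) : IntermediateField (kk A B) ℂ) :=
    IntermediateField.subset_adjoin _ _ ⟨_, _, _, hL, Or.inr ⟨_, hTor1, hz1, rfl⟩⟩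
  -- `Hits` depends only on the restriction
  have htr : ∀ s s' : ℂ ≃+* ℂ,
      (∀ y : (RF (idl M) : IntermediateField (kk A B) ℂ), s y = s' y) →
      ∀ i x, Hits R M s i x → Hits R M s' i x := by
    intro s s' hss i x hx'
    refine ⟨?_, ?_, hx'.2.2⟩
    · rw [hx'.1]; exact hss ⟨_, hkF⟩
    · rw [← hx'.2.1]; exact (hss ⟨_, hxF⟩).symm
  refine ⟨?_, ?_, ?_, ?_, ?_, ?_⟩
  · -- (1)
    intro σ
    obtain ⟨s, hs, hsv⟩ := Pool.Agent.MUXW.CXW.extn hT hMb σ
    obtain ⟨i, x, hx, hh, -, -⟩ := y_HIT A B hQ hT n ι R M hM0 hcop h2 s hs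
    exact ⟨i, x, hx, s, hs, hsv, hh⟩
  · -- (2)
    intro i x hx
    have hcop' := p1 i x hx
    have hab : sp x * cjI (R.b i) ≠ ⊥ := by
      intro h
      rw [h] at hcop'
      have h3 : idl (A := A) (B := B) M = ⊤ := by
        have := isCoprime_zero_left.1 (show IsCoprime (0 : Ideal (OO A B)) (idl M) from hcop')
        exact Ideal.isUnit_iff.1 this
      exact h1M (by rw [h3]; trivial)
    obtain ⟨s, hs⟩ := i2 _ hab hcop'
    have hh := (j_HIT A B hQ hT n ι R M hM2 hcop s hs.fix i x hx).2 hs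
    obtain ⟨σ, hσ⟩ := Pool.Agent.MUXW.CXW.restr hT hMb hs.fix
    exact ⟨σ, hx, s, hs.fix, fun y => (hσ y).symm, hh⟩
  · -- (3)
    rintro σ i j x y ⟨hx, s, hs, hsv, hh⟩ hy
    obtain ⟨i₀, x₀, -, -, -, hiff⟩ := y_HIT A B hQ hT n ι R M hM0 hcop h2 s hs
    obtain ⟨e0, e1⟩ := (hiff i x).1 hh
    have hmem : ∀ z : OO A B, z ∈ idl (A := A) (B := B) M ↔ ((M : ℕ) : OO A B) ∣ z :=
      fun z => Ideal.mem_span_singleton
    constructor
    · rintro ⟨-, s', hs', hsv', hh'⟩
      have h3 := htr s' s (fun y => by rw [hsv', hsv]) _ _ hh'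
      obtain ⟨f0, f1⟩ := (hiff j y).1 h3
      refine ⟨by rw [f0, e0], ?_⟩
      rw [hmem, hmem]
      rcases e1 with e1 | e1 <;> rcases f1 with f1 | f1
      · left; have := dvd_sub e1 f1; rwa [show x - x₀ - (y - x₀) = x - y by ring] at this
      · right; have := dvd_add e1 f1; rwa [show x - x₀ + (y + x₀) = x + y by ring] at this
      · right; have := dvd_add e1 f1; rwa [show x + x₀ + (y - x₀) = x + y by ring] at this
      · left; have := dvd_sub e1 f1; rwa [show x + x₀ - (y + x₀) = x - y by ring] at this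
    · rintro ⟨rfl, h3⟩
      refine ⟨hy, s, hs, hsv, (hiff _ y).2 ⟨e0, ?_⟩⟩
      rw [hmem, hmem] at h3
      rcases e1 with e1 | e1 <;> rcases h3 with h3 | h3
      · left; have := dvd_sub e1 h3; rwa [show x - x₀ - (x - y) = y - x₀ by ring] at this
      · right; have := dvd_sub h3 e1; rwa [show x + y - (x - x₀) = y + x₀ by ring] at this
      · right; have := dvd_sub e1 h3; rwa [show x + x₀ - (x - y) = y + x₀ by ring] at this
      · left; have := dvd_sub h3 e1; rwa [show x + y - (x + x₀) = y - x₀ by ring] at this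
  · -- (4)
    rintro σ σ' i x ⟨hx, s, hs, hsv, hh⟩ ⟨-, s', hs', hsv', hh'⟩
    have h3 := Pool.Agent.MUXW.CXW.same_of u_DET Pool.Agent.MUXV.q_EMB hQ hT R hM0 hpt1 hz1
      hs hs' hh hh'
    apply AlgEquiv.ext
    intro y
    apply Subtype.ext
    rw [← hsv, ← hsv']
    exact h3 y y.2
  · -- (5)
    rintro σ i x ⟨hx, s, hs, hsv, hh⟩ x' hx' a H H' ha hH hH'
    have hIA := (j_HIT A B hQ hT n ι R M hM2 hcop s hs i x hx).1 hh
    obtain ⟨k1, k2, k3, k4, k5⟩ := act_pt hQ R M hM2 hcop s i x hx hIA x' hx'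
    obtain ⟨hk, hxx, hzz, hTH, -⟩ := y_THG A B hQ hT ⊤ (R.L R.i0) (R.om R.i0) hL
      ((M : ℕ) : OO A B) hMO (a : ℤ) H (by exact_mod_cast ha)
      (by rw [Int.cast_natCast]; exact hH) _ k5 k4
    refine ⟨hzz, ?_⟩
    exact hTH σ (R.b i) (R.L i) (R.om i) H' (Pool.Agent.MUX.pt R M i (x * x'))
      (R.nl _) (by rw [Int.cast_natCast]; exact hH') k3
      (by rw [← hsv]; exact k1.symm) (by rw [← hsv]; exact k2)
  · -- (6)
    intro m hmM hm3 D h hD
    letI := algC h
    rintro τ σ i x hE ⟨hx, s, hs, hsv, hh⟩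
    have hm0 : m ≠ 0 := by omega
    have hle : idl (A := A) (B := B) M ≤ idl m := by
      obtain ⟨k, rfl⟩ := hmM
      rw [Ideal.span_singleton_le_span_singleton]
      exact ⟨((k : ℕ) : OO A B), by push_cast; ring⟩
    have hcopm : ∀ i, (nI (R.b i)).Coprime m := fun i => (hcop i).coprime_dvd_right hmM
    have hxm : IsCoprime x ((m : ℕ) : OO A B) := by
      obtain ⟨k, rfl⟩ := hmM
      refine IsCoprime.of_mul_right_left (z := ((k : ℕ) : OO A B)) ?_
      rw [← Nat.cast_mul]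
      exact hx
    have hIA := (j_HIT A B hQ hT n ι R M hM2 hcop s hs i x hx).1 hh
    have hIAm := i7 s _ (idl m) hle hIA
    have hhm := (j_HIT A B hQ hT n ι R m (by omega) hcopm s hs i x hxm).2 hIAm
    obtain ⟨i₀, x₀, -, -, -, hiff⟩ :=
      y_HIT A B hQ hT n ι R m hm0 hcopm (not_dvd_two m hm3) s hs
    obtain ⟨e0, e1⟩ := (hiff i x).1 hhm
    have hout : Quotient.out (Ideal.Quotient.mk (idl (A := A) (B := B) m) x) - x ∈
        idl (A := A) (B := B) m := by
      rw [← Ideal.Quotient.eq]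
      exact Quotient.out_eq _
    obtain ⟨w, hw⟩ := Ideal.mem_span_singleton.1 hout
    have hw' : Quotient.out (Ideal.Quotient.mk (idl (A := A) (B := B) m) x) =
        x + ((m : ℕ) : OO A B) * w := by rw [← hw]; ring
    refine ⟨?_, s, hs, ?_, ?_⟩
    · show IsCoprime (Quotient.out (Ideal.Quotient.mk (idl (A := A) (B := B) m) x)) _
      rw [hw']
      exact hxm.add_mul_left_left w
    · intro y
      have hy : (y : ℂ) ∈ (RF (idl M) : IntermediateField (kk A B) ℂ) :=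
        hT.mono _ _ hle (hD y y.2)
      have h3 := hE y hy
      rw [← hsv] at h3
      exact h3
    · show Hits R m s i (Quotient.out (Ideal.Quotient.mk (idl (A := A) (B := B) m) x))
      rw [hw']
      refine (hiff i _).2 ⟨e0, ?_⟩
      rcases e1 with e1 | e1
      · left
        have := dvd_add e1 (Dvd.intro w rfl : ((m : ℕ) : OO A B) ∣ ((m : ℕ) : OO A B) * w)
        rwa [show x - x₀ + ((m : ℕ) : OO A B) * w = x + ((m : ℕ) : OO A B) * w - x₀ by ring]
          at this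
      · right
        have := dvd_add e1 (Dvd.intro w rfl : ((m : ℕ) : OO A B) ∣ ((m : ℕ) : OO A B) * w)
        rwa [show x + x₀ + ((m : ℕ) : OO A B) * w = x + ((m : ℕ) : OO A B) * w + x₀ by ring]
          at this

end

end Pool.Agent.TWT


end

section

/-!
# TWT, module NRR (helper20): the norm relation over `P`
-/

set_option autoImplicit false

open WeierstrassCurve Polynomial NumberField IsDedekindDomain

namespace Pool.Agent.TWT

open _root_.MU3 Pool.Agent.MU3A Pool.Agent.MU3B Pool.Agent.MU3C Pool.Agent.RI Pool.Agent.RID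
open Pool.Agent.MUX Pool.Agent.MUXU Pool.Agent.MUXW
open Pool.Agent.MU3V (cls Sub GD algDF)
open Pool.Agent.MUXV (GR InK tX)
open Pool.Agent.MUXI (IA RE AR)
open OnePoint

noncomputable section

namespace NRR

variable {A B : ℤ}

/-- the product over representatives does not depend on the choice -/
lemma prod_rp {L M : PeriodPair} {mu : ℂ} {S S' : Finset ℂ} (h : IsRpM L M mu S)
    (h' : IsRpM L M mu S') (g : ℂ → ℂ) (hg : ∀ z v, v ∈ L.lattice → g (z + v) = g z) :
    ∏ r ∈ S, g r = ∏ r ∈ S', g r := by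
  classical
  choose! e he using fun z (hz : z ∈ S) => h'.surj z (h.mem z hz) (h.ne z hz)
  refine Finset.prod_bij (fun z _ => e z) (fun z hz => (he z hz).1) ?_ ?_ ?_
  · intro z hz w hw hzw
    apply h.inj z hz w hw
    have h1 := (he z hz).2
    have h2 := (he w hw).2
    have hzw' : e z = e w := hzw
    have h3 : z - w = (z - e z) - (w - e w) := by rw [hzw']; ring
    rw [h3]
    exact sub_mem h1 h2
  · intro w hw
    obtain ⟨z, hz, hzw⟩ := h.surj w (h'.mem w hw) (h'.ne w hw)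
    refine ⟨z, hz, ?_⟩
    apply h'.inj _ (he z hz).1 w hw
    have h3 : e z - w = -(z - e z) - (w - z) := by ring
    rw [h3]
    exact sub_mem (neg_mem (he z hz).2) hzw
  · intro z hz
    have h3 : z = e z + (z - e z) := by ring
    conv_lhs => rw [h3]
    exact hg _ _ (he z hz).2

lemma cj (s : ℂ ≃+* ℂ) {L L' : PeriodPair} (h3 : L.g₂ = -18 * L.g₃) (h4 : L'.g₂ = -18 * L'.g₃)
    (h : s (kap L) = kap L') : IsCj s L L' := by
  have h1 : L'.g₂ = s L.g₂ := by
    unfold kap at h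
    rw [map_div₀, map_sub, map_mul, map_one, map_ofNat, map_ofNat] at h
    have h2 : (1728 : ℂ) ≠ 0 := by norm_num
    field_simp at h
    linear_combination (-1 / 12 : ℂ) * h
  refine ⟨h1, ?_⟩
  have h5 : s L.g₂ = -18 * s L.g₃ := by
    rw [h3, map_mul, map_neg, map_ofNat]
  rw [h4, h5] at h1
  linear_combination (-1 / 18 : ℂ) * h1

lemma wp (s : ℂ ≃+* ℂ) (L L' : PeriodPair) (z z' : ℂ) (h : s (xn L z) = xn L' z') :
    L'.weierstrassP z' = s (L.weierstrassP z) := by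
  unfold xn at h
  rw [map_sub, map_div₀, map_one, map_ofNat] at h
  linear_combination -h

/-- an element of `F` fixed by the automorphisms which are trivial on `RF ⊤` is in `RF ⊤` -/
lemma mem_top (T : TorX A B) {m : Ideal (OO A B)} (hm : m ≠ ⊥)
    (κ : (RF m : IntermediateField (kk A B) ℂ))
    (h : ∀ σ : (RF m : IntermediateField (kk A B) ℂ) ≃ₐ[kk A B] RF m, TrH σ → σ κ = κ) :
    (κ : ℂ) ∈ (RF (⊤ : Ideal (OO A B)) : IntermediateField (kk A B) ℂ) := by
  have hle : (RF (⊤ : Ideal (OO A B)) : IntermediateField (kk A B) ℂ) ≤ RF m :=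
    T.mono ⊤ m le_top
  have hfd := T.fin m hm
  have hgal := T.gal m hm
  have hmem : κ ∈ IntermediateField.fixedField
      (IntermediateField.fixingSubgroup (IntermediateField.restrict hle)) := by
    rw [IntermediateField.mem_fixedField_iff]
    intro σ hσ
    apply h
    intro x hx
    exact (IntermediateField.mem_fixingSubgroup_iff _ _).1 hσ x
      ((IntermediateField.mem_restrict hle x).2 hx)
  rw [IsGalois.fixedField_fixingSubgroup] at hmem
  exact (IntermediateField.mem_restrict hle _).1 hmem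

/-- zeros of `Θ_a` at points of level `M` -/
lemma theta_ne (hc : CQ A B) {n : ℕ} {ι : Type} (R : Reps A B n ι) (M : ℕ) (hM : M ≠ 0)
    (hcop : ∀ i, (nI (R.b i)).Coprime M) (i : ι) (a : ℕ) (haM : a.Coprime M) (H : Finset ℂ)
    (hH : IsHalf (R.L i) a H) (x : OO A B) (hx : x ∉ idl (A := A) (B := B) M) :
    ThetaH (R.L i) H (Pool.Agent.MUX.pt R M i x) ≠ 0 := by
  have hz : Pool.Agent.MUX.pt R M i x ∉ (R.L i).lattice := fun h =>
    hx (Pool.Agent.MUXI.Hit.pt_mem hc Pool.Agent.MUXF.xf_ALG R M hM i (hcop _) x h)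
  intro h0
  have h1 := (b_TNZ (R.L i) a H (fun w hw => by
    have := nsmul_mem hw a
    rwa [nsmul_eq_mul] at this) hH _ hz).1 h0
  rw [(j_PTP A B hc n ι R M hM i).2 a x] at h1
  have h2 := Pool.Agent.MUXI.Hit.pt_mem hc Pool.Agent.MUXF.xf_ALG R M hM i (hcop _) _ h1
  apply hx
  have h3 : IsCoprime ((a : ℕ) : OO A B) ((M : ℕ) : OO A B) :=
    (Nat.isCoprime_iff_coprime.2 haM).intCast (R := OO A B) |> fun h => by simpa using h
  obtain ⟨t, ht⟩ := Ideal.mem_span_singleton.1 h2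
  exact Ideal.mem_span_singleton.2 (h3.symm.dvd_of_dvd_mul_left ⟨t, ht⟩)

end NRR

open _root_.Pool.Agent.TWT.NRR in
theorem t_NRR (hIDP : S_IDP) (hHTF : S_HTF) (hDTP : S_DTP) (hKRP : S_KRP) : S_NRR := by
  classical
  intro p A B P V f hG hT ι _ R m hm x0 y0 hx0 hx0' hy0 hy0' a H ha hac hH θ hθ
  obtain ⟨-, d2, d3, d4, d5, -, d7⟩ := hIDP p A B P V f hG
  obtain ⟨d51, d52, -⟩ := d5 m hm.pm
  obtain ⟨d71, -⟩ := d7 m x0 y0 hm.m0 hm.pm hx0 hx0' hy0 hy0'
  have hp5 := hG.p5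
  have hm0 := hm.m0
  have hp0 : p ≠ 0 := by omega
  have hM3 : 3 ≤ m * p := by
    have h1 : 1 ≤ m := Nat.one_le_iff_ne_zero.2 hm0
    nlinarith
  have hM2 : 2 ≤ m * p := by omega
  have hM0 : m * p ≠ 0 := by omega
  have ha0 : a ≠ 0 := by omega
  have haM : a.Coprime (m * p) :=
    Nat.Coprime.coprime_dvd_right ⟨2, by ring⟩ hac
  have hap : a.Coprime (2 * p) :=
    Nat.Coprime.coprime_dvd_right ⟨m, by ring⟩ hac
  have ha2 : a.Coprime 2 :=
    Nat.Coprime.coprime_dvd_right ⟨p, rfl⟩ hap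
  obtain ⟨hmul, hez, hint, -, hdom⟩ := Pool.Agent.MUXF.xf_ALG A B (Pool.Agent.MUXY.cqF hG.cq)
  have := hdom
  have hem : ∀ x y : OO A B, emb (x * y) = emb x * emb y := fun x y => (hmul x y).1
  have hea : ∀ x y : OO A B, emb (x + y) = emb x + emb y := fun x y => (hmul x y).2.1
  have heN : ∀ k : ℕ, emb ((k : ℕ) : OO A B) = (k : ℂ) := fun k => by
    have := (hint (k : ℤ)).1
    rwa [Int.cast_natCast, Int.cast_natCast] at this
  have hmC : (m : ℂ) ≠ 0 := by exact_mod_cast hm0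
  have hpC : (p : ℂ) ≠ 0 := by exact_mod_cast hp0
  obtain ⟨f1, f2, -, -, f5, -⟩ := hHTF A B hG.cq hT (p * f) ι R (m * p) hM3 hm.cop
  -- ideals
  have hbot : ∀ k : ℕ, k ≠ 0 → (idl (A := A) (B := B) k) ≠ ⊥ := by
    intro k hk h
    have h4 : ((k : ℕ) : OO A B) = 0 := by
      have : ((k : ℕ) : OO A B) ∈ (idl (A := A) (B := B) k) := Ideal.mem_span_singleton_self _
      rw [h] at this
      exact this
    have h5 := congrArg QuadraticAlgebra.re h4
    simp at h5
    omega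
  have hMb := hbot (m * p) hM0
  have hPprime := hG.hP.prime
  have h1P : (1 : OO A B) ∉ P := fun h => hPprime.ne_top ((Ideal.eq_top_iff_one _).2 h)
  have hpP : ((p : ℕ) : OO A B) ∈ P := hG.hP.mem
  have hPb : P ≠ ⊥ := by
    intro h
    rw [h] at hpP
    apply hbot p hp0
    rw [Ideal.span_singleton_eq_bot]
    exact hpP
  have hIle : idl (A := A) (B := B) m * cjI P ≤ idl m := Ideal.mul_le_left
  have hIb : idl (A := A) (B := B) m * cjI P ≠ ⊥ := by
    intro h
    rw [h] at hx0'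
    have h2 : x0 = 1 := sub_eq_zero.1 hx0'
    exact h1P (h2 ▸ hx0)
  have hPI : IsCoprime P (idl (A := A) (B := B) m * cjI P) := IsCoprime.mul_right d51.symm d4
  have hMm : idl (A := A) (B := B) (m * p) ≤ idl m := by
    rw [Ideal.span_singleton_le_span_singleton]
    exact ⟨((p : ℕ) : OO A B), by push_cast; ring⟩
  have hMprod : idl (A := A) (B := B) m * idl p = idl (m * p) := by
    rw [Ideal.span_singleton_mul_span_singleton]
    show Ideal.span {((m : ℕ) : OO A B) * ((p : ℕ) : OO A B)} =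
      Ideal.span {((m * p : ℕ) : OO A B)}
    rw [Nat.cast_mul]
  have hf2 : 2 ≤ m := by
    have h1 : (2 : ℤ) ∣ (f : ℤ) := (Dvd.intro _ rfl).trans hG.fD
    have h2 : (2 : ℤ) ∣ (m : ℤ) := h1.trans (Int.natCast_dvd_natCast.2 hm.fm)
    have h3 : 2 ∣ m := by exact_mod_cast h2
    exact Nat.le_of_dvd (Nat.pos_of_ne_zero hm0) h3
  have h1m : (1 : OO A B) ∉ idl (A := A) (B := B) m := by
    intro h
    obtain ⟨t, ht⟩ := Ideal.mem_span_singleton.1 h
    exact Pool.Agent.MUXI.Hit.not_unit m hf2 t ht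
  have hx0m : x0 ∉ idl (A := A) (B := B) m := by
    intro h
    apply h1m
    have h2 := sub_mem h (hIle hx0')
    rwa [show x0 - (x0 - 1) = (1 : OO A B) by ring] at h2
  have hx0M : x0 ∉ idl (A := A) (B := B) (m * p) := fun h => hx0m (hMm h)
  have h1M : (1 : OO A B) ∉ idl (A := A) (B := B) (m * p) := fun h => h1m (hMm h)
  have hcopM : ∀ x y : OO A B, IsCoprime x ((m * p : ℕ) : OO A B) →
      x * y ∈ idl (A := A) (B := B) (m * p) → y ∈ idl (A := A) (B := B) (m * p) := by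
    intro x y hx hxy
    obtain ⟨t, ht⟩ := Ideal.mem_span_singleton.1 hxy
    exact Ideal.mem_span_singleton.2 (hx.symm.dvd_of_dvd_mul_left ⟨t, ht⟩)
  -- the automorphisms `γ c`
  have hγ : ∀ c : ℕ, ∃ g : GalF A B (m * p), 1 ≤ c → c < p →
      HitF R (m * p) _ g R.i0 (x0 + c * m * y0) := by
    intro c
    by_cases hc : 1 ≤ c ∧ c < p
    · obtain ⟨g, hg⟩ := f2 R.i0 (x0 + c * m * y0) (d71 c hc.1 hc.2).1
      exact ⟨g, fun _ _ => hg⟩
    · exact ⟨1, fun h1 h2 => absurd ⟨h1, h2⟩ hc⟩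
  choose γ hγ using hγ
  -- the automorphism `φ`
  have hex : ∃ (b : Ideal (OO A B)) (L : PeriodPair) (om : ℂ), IsNL b L om :=
    ⟨_, _, _, R.nl R.i0⟩
  obtain ⟨-, i2, -, -, -, -, i7, -⟩ := j_IAF A B hG.cq hT hex _ hIb
  obtain ⟨s₀, hs₀⟩ := i2 P hPb hPI
  obtain ⟨φ, hφ⟩ := Pool.Agent.MUXW.CXW.restr hT hMb hs₀.fix
  -- `θ''`
  obtain ⟨σ₁, hσ₁⟩ := f2 R.i0 1 isCoprime_one_left
  obtain ⟨hz'', -⟩ := f5 σ₁ R.i0 1 hσ₁ x0 hx0M a H H ha0 hH hH
  set θ'' : (RF (idl (m * p)) : IntermediateField (kk A B) ℂ) := ⟨_, hz''⟩ with hθ''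
  have hθ''c : (θ'' : ℂ) = ThetaH (R.L R.i0) H (Pool.Agent.MUX.pt R (m * p) R.i0 x0) := rfl
  have hne : ∀ x : OO A B, x ∉ idl (A := A) (B := B) (m * p) →
      ThetaH (R.L R.i0) H (Pool.Agent.MUX.pt R (m * p) R.i0 x) ≠ 0 := fun x hx =>
    theta_ne hG.cq R (m * p) hM0 hm.cop R.i0 a haM H hH x hx
  have hθ0 : θ ≠ 0 := by
    intro h
    apply hne 1 h1M
    rw [← hθ, h]
    rfl
  have hθ''0 : θ'' ≠ 0 := by
    intro h
    apply hne x0 hx0M
    rw [← hθ''c, h]
    rfl
  -- the lattice `L'`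
  obtain ⟨b', L', om', mu, hnl', hact⟩ := hs₀.act _ _ _ (R.nl R.i0)
  have hcj : IsCj s₀ (R.L R.i0) L' := cj s₀ (R.nl R.i0).nrm hnl'.nrm hact.kap.symm
  obtain ⟨H', hH'⟩ := b_HAL L' a (by exact_mod_cast ha0) (fun w hw => by
      have := nsmul_mem hw a
      rwa [nsmul_eq_mul] at this) (fun z h1 h2 => by
    obtain ⟨u, v, huv⟩ := Nat.isCoprime_iff_coprime.2 ha2
    have h3 : z = u * (a * z) + v * (2 * z) := by
      have h4 : ((u * (a : ℕ) + v * (2 : ℕ) : ℤ) : ℂ) = 1 := by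
        rw [huv]; norm_num
      push_cast at h4
      linear_combination -z * h4
    rw [h3]
    have h5 := zsmul_mem h1 u
    have h6 := zsmul_mem h2 v
    rw [zsmul_eq_mul] at h5 h6
    exact add_mem h5 h6)
  have hker := fun (y : OO A B) (h1 : y ∈ cjI P) (h2 : y ∉ P) =>
    hKRP p A B P V f hG ι R R.i0 L' mu hact.isq y h1 h2
  obtain ⟨k1, k2, -, k4, k5⟩ := hker y0 hy0 hy0'
  have hodd : Even (p - 1) := by
    have := hG.pp.eq_two_or_odd
    rcases this with h | h
    · omega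
    · exact ⟨p / 2, by omega⟩
  obtain ⟨C, hC0, hC⟩ := hDTP (R.L R.i0) L' mu hact.isq.1 k1 _ k4 (by rw [k5]; exact hodd) p hp0
    k2 a H H' ha0 hap hH hH'
  set κ : (RF (idl (m * p)) : IntermediateField (kk A B) ℂ) :=
    (∏ c ∈ Finset.Icc 1 (p - 1), γ c θ) * θ'' / φ θ'' with hκ
  have hφ0 : φ θ'' ≠ 0 := by
    intro h
    exact hθ''0 ((map_eq_zero φ).1 h)
  have hκ0 : κ ≠ 0 := by
    rw [hκ]
    refine div_ne_zero (mul_ne_zero (Finset.prod_ne_zero_iff.2 fun c _ => ?_) hθ''0) hφ0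
    intro h
    exact hθ0 ((map_eq_zero (γ c)).1 h)
  have hcopa : ∀ c : ℕ, 1 ≤ c → c < p → x0 + c * m * y0 ∉ idl (A := A) (B := B) (m * p) := by
    intro c h1 h2 h
    obtain ⟨t, ht⟩ := Ideal.mem_span_singleton.1 h
    obtain ⟨u, v, huv⟩ := (d71 c h1 h2).1
    refine Pool.Agent.MUXI.Hit.not_unit (A := A) (B := B) (m * p) hM2 (u * t + v) ?_
    rw [← huv, ht]
    ring
  -- the value of `σ κ`
  have key : ∀ σ : GalF A B (m * p), TrH σ →
      ((σ κ : (RF (idl (m * p)) : IntermediateField (kk A B) ℂ)) : ℂ) = C := by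
    intro σ hσ
    obtain ⟨i, b, hb⟩ := f1 σ
    have hi : i = R.i0 := by
      obtain ⟨hbc, s, hs, hsv, hh⟩ := hb
      have hkT : kap (R.L R.i0) ∈ (RF (⊤ : Ideal (OO A B)) : IntermediateField (kk A B) ℂ) :=
        IntermediateField.subset_adjoin _ _ ⟨_, _, _, R.nl R.i0, Or.inl rfl⟩
      have hkF : kap (R.L R.i0) ∈ (RF (idl (m * p)) : IntermediateField (kk A B) ℂ) :=
        hT.mono _ _ le_top hkT
      have h1 : s (kap (R.L R.i0)) = kap (R.L R.i0) := by
        have h2 := hsv ⟨_, hkF⟩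
        rw [hσ ⟨_, hkF⟩ hkT] at h2
        exact h2
      have h2 : kap (R.L i) = kap (R.L R.i0) := by rw [hh.1, h1]
      obtain ⟨h3, h4⟩ := cj (RingEquiv.refl ℂ) (R.nl R.i0).nrm (R.nl i).nrm h2.symm
      exact Pool.Agent.MUXY.y_UNJ A B hG.cq _ ι R i R.i0 h3 h4
    subst hi
    have hbc := hb.1
    have hbM : ∀ x : OO A B, x ∉ idl (A := A) (B := B) (m * p) →
        b * x ∉ idl (A := A) (B := B) (m * p) := fun x hx h => hx (hcopM b x hbc h)
    have hbP : b ∉ P := by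
      intro h
      obtain ⟨u, v, huv⟩ := hbc
      apply h1P
      rw [← huv]
      refine add_mem (Ideal.mul_mem_left _ _ h) (Ideal.mul_mem_left _ _ ?_)
      rw [Nat.cast_mul]
      exact Ideal.mul_mem_left _ _ hpP
    have hby : b * y0 ∉ P := fun h => (hPprime.mem_or_mem h).elim hbP hy0'
    obtain ⟨-, -, -, l4, l5⟩ := hker (b * y0) (Ideal.mul_mem_left _ _ hy0) hby
    set z := Pool.Agent.MUX.pt R (m * p) R.i0 (b * x0) with hz
    have hzL : z ∉ (R.L R.i0).lattice := fun h =>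
      hbM x0 hx0M (Pool.Agent.MUXI.Hit.pt_mem hG.cq Pool.Agent.MUXF.xf_ALG R (m * p) hM0 R.i0
        (hm.cop _) _ h)
    -- the values
    have v1 : ((σ θ'' : (RF (idl (m * p)) : IntermediateField (kk A B) ℂ)) : ℂ) =
        ThetaH (R.L R.i0) H z := by
      obtain ⟨h1, h2⟩ := f5 σ R.i0 b hb x0 hx0M a H H ha0 hH hH
      exact h2
    have v2 : ∀ c : ℕ, 1 ≤ c → c < p →
        ((σ (γ c θ) : (RF (idl (m * p)) : IntermediateField (kk A B) ℂ)) : ℂ) =
          ThetaH (R.L R.i0) H (z + c * Pool.Agent.MUX.pt R p R.i0 (b * y0)) := by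
      intro c h1 h2
      obtain ⟨h3, h4⟩ := f5 (γ c) R.i0 _ (hγ c h1 h2) 1 h1M a H H ha0 hH hH
      obtain ⟨h5, h6⟩ := f5 σ R.i0 b hb _ (hcopa c h1 h2) a H H ha0 hH hH
      have h7 : γ c θ = ⟨_, h5⟩ := by
        apply Subtype.ext
        rw [show θ = ⟨_, h3⟩ from Subtype.ext hθ, h4, mul_one]
      rw [h7, h6]
      congr 1
      rw [hz]
      unfold Pool.Agent.MUX.pt
      rw [mul_add, hea, show b * (((c : ℕ) : OO A B) * ((m : ℕ) : OO A B) * y0) =
        ((c : ℕ) : OO A B) * (((m : ℕ) : OO A B) * (b * y0)) by ring, hem ((c : ℕ) : OO A B),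
        hem ((m : ℕ) : OO A B), heN, heN]
      push_cast
      field_simp
    have hinj : Set.InjOn (fun c : ℕ => (c : ℂ) * Pool.Agent.MUX.pt R p R.i0 (b * y0))
        (Finset.Icc 1 (p - 1) : Finset ℕ) :=
      Finset.card_image_iff.1 (by rw [l5, Nat.card_Icc]; omega)
    have v3 : ∏ c ∈ Finset.Icc 1 (p - 1),
        ((σ (γ c θ) : (RF (idl (m * p)) : IntermediateField (kk A B) ℂ)) : ℂ) =
        ∏ r ∈ (Finset.Icc 1 (p - 1)).image
          (fun c : ℕ => (c : ℂ) * Pool.Agent.MUX.pt R p R.i0 y0),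
          ThetaH (R.L R.i0) H (z + r) := by
      rw [← prod_rp l4 k4 (fun r => ThetaH (R.L R.i0) H (z + r)) (fun w v hv => by
        show ThetaH (R.L R.i0) H (z + (w + v)) = ThetaH (R.L R.i0) H (z + w)
        rw [← add_assoc]
        exact (b_TIN (R.L R.i0) a H H hH hH).2.2 _ _ hv), Finset.prod_image hinj]
      refine Finset.prod_congr rfl fun c hc => ?_
      rw [Finset.mem_Icc] at hc
      exact v2 c hc.1 (by omega)
    -- the action of `s₀`
    have hTor : Tor (idl (A := A) (B := B) m * cjI P) (R.L R.i0) z := by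
      intro y hy
      have h1 : y * x0 ∈ idl (A := A) (B := B) (m * p) := by
        rw [← hMprod, ← d3, mul_comm P (cjI P), ← mul_assoc]
        exact Ideal.mul_mem_mul hy hx0
      obtain ⟨t, ht⟩ := Ideal.mem_span_singleton.1 h1
      have hI := (R.nl R.i0).mem
      refine (hI _).2 ⟨((nI (R.b R.i0) : ℕ) : OO A B) * (b * t), by rw [R.b0]; trivial, ?_⟩
      rw [hz]
      unfold Pool.Agent.MUX.pt
      have h2 : emb y * emb (b * x0) = emb ((m * p : ℕ) : OO A B) * emb (b * t) := by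
        rw [← hem, ← hem]
        congr 1
        linear_combination b * ht
      rw [heN] at h2
      rw [hem ((nI (R.b R.i0) : ℕ) : OO A B), heN]
      have hMC : ((m * p : ℕ) : ℂ) ≠ 0 := by exact_mod_cast hM0
      rw [show emb y * (R.om R.i0 * (nI (R.b R.i0) : ℂ) * emb (b * x0) / ((m * p : ℕ) : ℂ)) =
        R.om R.i0 * (nI (R.b R.i0) : ℂ) * (emb y * emb (b * x0)) / ((m * p : ℕ) : ℂ) by ring, h2]
      field_simp
    obtain ⟨w1, w2, -⟩ : mu * z ∉ L'.lattice ∧ s₀ (xn (R.L R.i0) z) = xn L' (mu * z) ∧ True := by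
      rcases hact.act z hTor with ⟨h1, -⟩ | ⟨-, h2, h3, -⟩
      · exact absurd h1 hzL
      · exact ⟨h2, h3, trivial⟩
    have v4 : s₀ (ThetaH (R.L R.i0) H z) = ThetaH L' H' (mu * z) :=
      y_THC s₀ (R.L R.i0) L' hcj (a : ℤ) H H' (by exact_mod_cast ha0)
        (by rw [Int.cast_natCast]; exact hH) (by rw [Int.cast_natCast]; exact hH') z (mu * z) hzL w1
        (wp s₀ _ _ _ _ w2)
    have v5 : ((σ (φ θ'') : (RF (idl (m * p)) : IntermediateField (kk A B) ℂ)) : ℂ) =
        ThetaH L' H' (mu * z) := by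
      have h1 : σ (φ θ'') = φ (σ θ'') := by
        have := hT.comm _ hMb σ φ
        exact congrArg (fun g : GalF A B (m * p) => g θ'') this
      rw [h1, hφ, v1, v4]
    have v6 : ThetaH L' H' (mu * z) ≠ 0 := by
      rw [← v5]
      intro h
      have h2 : σ (φ θ'') = 0 := Subtype.ext h
      exact hφ0 ((map_eq_zero σ).1 h2)
    have v7 := hC z w1
    have hcoe : ((σ κ : (RF (idl (m * p)) : IntermediateField (kk A B) ℂ)) : ℂ) =
        (∏ c ∈ Finset.Icc 1 (p - 1),
          ((σ (γ c θ) : (RF (idl (m * p)) : IntermediateField (kk A B) ℂ)) : ℂ)) *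
          ((σ θ'' : (RF (idl (m * p)) : IntermediateField (kk A B) ℂ)) : ℂ) /
          ((σ (φ θ'') : (RF (idl (m * p)) : IntermediateField (kk A B) ℂ)) : ℂ) := by
      let ρ : (RF (idl (m * p)) : IntermediateField (kk A B) ℂ) →ₐ[kk A B] ℂ :=
        (RF (idl (m * p)) : IntermediateField (kk A B) ℂ).val.comp σ.toAlgHom
      show ρ κ = _
      rw [hκ, map_div₀, map_mul, map_prod]
      rfl
    rw [hcoe, v3, v1, v5, mul_comm, v7, mul_div_assoc, div_self v6, mul_one]
  have hκT := mem_top hT hMb κ (fun σ hσ => by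
    apply Subtype.ext
    rw [key σ hσ, ← key 1 (fun x _ => rfl)]
    rfl)
  refine ⟨θ'', κ, γ, φ, s₀, rfl, hθ0, hθ''0, hκ0, hκT, fun c h1 h2 => hγ c h1 h2, ?_, ?_,
    i7 _ _ _ hIle hs₀, fun y => (hφ y).symm⟩
  · intro c h1 h2 y hy
    obtain ⟨hxc, s, hs, hsv, hh⟩ := hγ c h1 h2
    have hIA := (j_HIT A B hG.cq hT _ ι R (m * p) hM2 hm.cop s hs R.i0 _ hxc).1 hh
    obtain ⟨-, -, -, -, -, -, j7, -⟩ := j_IAF A B hG.cq hT hex _ hMb
    obtain ⟨-, -, -, -, -, j6, -, -⟩ := j_IAF A B hG.cq hT hex _ (hbot m hm0)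
    have h3 := j7 s _ (idl m) hMm hIA
    have h4 := (j6 s _ h3).2 ⟨x0 + c * m * y0, hIle (d71 c h1 h2).2, by
      rw [R.b0]
      have : cjI (⊤ : Ideal (OO A B)) = ⊤ := Ideal.comap_top
      rw [this, Ideal.mul_top]⟩ y hy
    apply Subtype.ext
    rw [← hsv, h4]
  · rw [hκ, div_mul_cancel₀ _ hφ0]

end

end Pool.Agent.TWT


end

section

/-!
# TWT, block B, module PHI (helper25): `χ(φ) ≠ 1`
-/

set_option autoImplicit false

open WeierstrassCurve Polynomial NumberField IsDedekindDomain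

namespace Pool.Agent.TWT

open _root_.MU3 Pool.Agent.MU3A Pool.Agent.MU3B Pool.Agent.MU3C Pool.Agent.RI Pool.Agent.RID
open Pool.Agent.MUX Pool.Agent.MUXU Pool.Agent.MUXW
open Pool.Agent.MU3V (cls Sub GD algDF)
open Pool.Agent.MUXV (GR InK tX)
open Pool.Agent.MUXI (IA RE AR)
open OnePoint

noncomputable section

namespace PHI

variable {A B : ℤ}

lemma cast_re (m : ℕ) : ((m : ℕ) : OO A B).re = (m : ℤ) := by
  simp

lemma cast_im (m : ℕ) : ((m : ℕ) : OO A B).im = 0 := by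
  simp

lemma cast_ne {m : ℕ} (hm : m ≠ 0) : ((m : ℕ) : OO A B) ≠ 0 := by
  intro h
  have h1 : ((m : ℕ) : OO A B).re = (0 : OO A B).re := by rw [h]
  rw [cast_re] at h1
  have h2 : (m : ℤ) = 0 := by simpa using h1
  exact hm (by exact_mod_cast h2)

lemma idl_ne {m : ℕ} (hm : m ≠ 0) : (idl m : Ideal (OO A B)) ≠ ⊥ := by
  intro h
  rw [Ideal.span_singleton_eq_bot] at h
  exact cast_ne hm h

lemma nm_per {m : ℕ} {x y : OO A B} (h : x - y ∈ idl (A := A) (B := B) m) :
    (m : ℤ) ∣ nm x - nm y := by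
  rw [Ideal.mem_span_singleton'] at h
  obtain ⟨z, hz⟩ := h
  have hr : x.re - y.re = z.re * m := by
    have := congrArg QuadraticAlgebra.re hz
    rw [QuadraticAlgebra.re_mul, cast_re, cast_im, QuadraticAlgebra.re_sub] at this
    linear_combination -this
  have hi : x.im - y.im = z.im * m := by
    have := congrArg QuadraticAlgebra.im hz
    rw [QuadraticAlgebra.im_mul, cast_re, cast_im, QuadraticAlgebra.im_sub] at this
    linear_combination -this
  have hr' : x.re = y.re + z.re * m := by linarith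
  have hi' : x.im = y.im + z.im * m := by linarith
  unfold nm
  rw [hr', hi']
  refine ⟨2 * y.re * z.re + z.re ^ 2 * m + B * (y.re * z.im + z.re * y.im + z.re * z.im * m) -
    A * (2 * y.im * z.im + z.im ^ 2 * m), ?_⟩
  ring

end PHI

open _root_.Pool.Agent.TWT.PHI in
theorem t_PHI : S_PHI := by
  intro p _ A B P V f S T ι _ R kp eta hC l N hl hlf ψ hψ1 r y hPy hv D h hs
  let _ := algC h
  intro χ hχ s₀ τφ hs0 hext hone
  have hm0 : f * l ^ N ≠ 0 := mul_ne_zero S.f0 (pow_ne_zero _ hl.ne_zero)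
  have hI0 : (idl (f * l ^ N) : Ideal (OO A B)) ≠ ⊥ := idl_ne hm0
  have h2f : 2 ≤ f := by
    have h1 : (2 : ℤ) ∣ (f : ℤ) := (Dvd.intro _ rfl).trans S.fD
    have h2 : 2 ∣ f := by exact_mod_cast h1
    exact Nat.le_of_dvd (Nat.pos_of_ne_zero S.f0) h2
  have hm2 : 2 ≤ f * l ^ N :=
    h2f.trans (Nat.le_mul_of_pos_right _ (pow_pos hl.pos _))
  have hcop : ∀ i, (nI (R.b i)).Coprime (f * l ^ N) := by
    intro i
    have h1 : (nI (R.b i)).Coprime f := (R.cop i).coprime_dvd_right (Dvd.intro_left _ rfl)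
    exact Nat.Coprime.mul_right h1 ((h1.coprime_dvd_right hlf).pow_right _)
  have hG : IsGalois (kk A B) D := kx_galD (T.gal _ hI0) (T.fin _ hI0) (T.comm _ hI0) h hs
  have hE : ∃ (b : Ideal (OO A B)) (L : PeriodPair) (om : ℂ), IsNL b L om :=
    ⟨_, _, _, R.nl R.i0⟩
  obtain ⟨a1, -, -, -, a5, -, -⟩ := j_ARF A B S.cq T hE (idl (f * l ^ N)) hI0 D h hs hG
  have hAR : AR h (idl (f * l ^ N)) τφ P := ⟨s₀, hs0, hext⟩
  have hpow : ∀ k : ℕ, AR h (idl (f * l ^ N)) (τφ ^ k) (P ^ k) := by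
    intro k
    induction k with
    | zero => rw [pow_zero, pow_zero, Ideal.one_eq_top]; exact a1
    | succ k ih => rw [pow_succ, pow_succ]; exact a5 _ _ _ _ ih hAR
  have hcjt : cjI (R.b R.i0) = ⊤ := by
    rw [R.b0]; exact Ideal.comap_top
  have h3 : AR h (idl (f * l ^ N)) (τφ ^ r) (sp y * cjI (R.b R.i0)) := by
    rw [hcjt, Ideal.mul_top, ← hPy]; exact hpow r
  have h4 : IsCoprime y ((f * l ^ N : ℕ) : OO A B) := by
    have h5 : IsCoprime (P ^ r) (idl (f * l ^ N)) := hs0.cop.pow_left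
    rw [hPy] at h5
    exact (Ideal.isCoprime_span_singleton_iff _ _).1 h5
  have hX := j_XXF A B S.cq T (p * f) ι R (f * l ^ N) hm2 hcop D h hs hG
  have h5 := (hX.1 (τφ ^ r) R.i0 y h4).2 h3
  have h6 := hχ (τφ ^ r) _ h5
  rw [map_pow, hone, one_pow, inv_one, Units.val_one] at h6
  dsimp only at h6
  set x := (Quotient.out (Ideal.Quotient.mk (idl (A := A) (B := B) (f * l ^ N)) y)) with hx
  have hxy : x - y ∈ idl (A := A) (B := B) (f * l ^ N) := by
    rw [← Ideal.Quotient.mk_eq_mk_iff_sub_mem]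
    exact Ideal.Quotient.mk_out _
  have hth : thT R kp eta ψ R.i0 x = thT R kp eta ψ R.i0 y := by
    unfold thT
    have e1 : eta x = eta y := by
      apply hC.per
      have h7 : (idl (f * l ^ N) : Ideal (OO A B)) ≤ idl f := by
        rw [Ideal.span_singleton_le_span_singleton]
        push_cast
        exact Dvd.intro _ rfl
      exact h7 hxy
    have e2 : ((nm x * nI (R.b R.i0) : ℤ) : ZMod (l ^ N)) =
        ((nm y * nI (R.b R.i0) : ℤ) : ZMod (l ^ N)) := by
      rw [ZMod.intCast_eq_intCast_iff_dvd_sub]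
      have h8 : ((l ^ N : ℕ) : ℤ) ∣ nm x - nm y :=
        (by push_cast; exact Dvd.intro_left _ rfl : ((l ^ N : ℕ) : ℤ) ∣ ((f * l ^ N : ℕ) : ℤ)).trans
          (nm_per hxy)
      have h9 : nm y * (nI (R.b R.i0) : ℤ) - nm x * (nI (R.b R.i0) : ℤ) =
        (nm x - nm y) * (-(nI (R.b R.i0) : ℤ)) := by ring
      rw [h9]
      exact h8.mul_right _
    rw [e1, e2]
  rw [hth] at h6
  unfold rsd at h6
  split_ifs at h6 with hmem
  · have h10 : IsLocalRing.residue V (1 - ⟨thT R kp eta ψ R.i0 y, hmem⟩) = 0 := by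
      rw [map_sub, map_one, h6, sub_self]
    rw [IsLocalRing.residue_eq_zero_iff] at h10
    have h11 := (ValuationSubring.valuation_lt_one_iff V _).1 h10
    have h12 : (((1 - ⟨thT R kp eta ψ R.i0 y, hmem⟩ : V) : V) : ℂ) =
      1 - thT R kp eta ψ R.i0 y := rfl
    rw [h12, hv] at h11
    exact lt_irrefl _ h11
  · exact zero_ne_one h6

end

end Pool.Agent.TWT


end

section

/-!
# TWT, block B, module SIG: the sum over the Galois group in terms of `SDT`
-/

set_option autoImplicit false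

open WeierstrassCurve Polynomial NumberField IsDedekindDomain

namespace Pool.Agent.TWT

open _root_.MU3 Pool.Agent.MU3A Pool.Agent.MU3B Pool.Agent.MU3C Pool.Agent.RI Pool.Agent.RID
open Pool.Agent.MUX Pool.Agent.MUXU Pool.Agent.MUXW
open Pool.Agent.MU3V (cls Sub GD algDF)
open Pool.Agent.MUXV (GR InK tX)
open Pool.Agent.MUXI (IA RE AR)
open OnePoint

noncomputable section

namespace SIG

variable {A B : ℤ} {n : ℕ} {ι : Type}

lemma emb_neg' (x : OO A B) : emb (-x) = -emb x := by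
  simp only [emb, QuadraticAlgebra.re_neg, QuadraticAlgebra.im_neg]
  push_cast
  ring

lemma nm_neg' (x : OO A B) : nm (-x) = nm x := by
  simp only [nm, QuadraticAlgebra.re_neg, QuadraticAlgebra.im_neg]
  ring

lemma pt_neg (R : Reps A B n ι) (m : ℕ) (i : ι) (x : OO A B) : pt R m i (-x) = -pt R m i x := by
  unfold pt
  rw [emb_neg']
  ring

lemma dlX_neg (L : PeriodPair) (a : ℕ) (z : ℂ) : dlX L a (-z) = -dlX L a z := by
  unfold dlX
  rw [mul_neg, (Pool.Agent.MU3B.b_PER L).2, (Pool.Agent.MU3B.b_PER L).2]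
  ring

lemma v_one {V : ValuationSubring ℂ} {x : ℂ} {r : ℕ} (hr : r ≠ 0) (h : x ^ r = 1) :
    V.valuation x = 1 := by
  have h1 : V.valuation x ^ r = 1 := by rw [← map_pow, h, map_one]
  exact (pow_eq_one_iff.1 h1).resolve_right hr

lemma v_chi {V : ValuationSubring ℂ} {q : ℕ} [NeZero q] (ψ : DirichletCharacter ℂ q)
    (z : ZMod q) : V.valuation (ψ z) ≤ 1 := by
  by_cases hz : IsUnit z
  · obtain ⟨u, rfl⟩ := hz
    refine le_of_eq (v_one (r := Fintype.card (ZMod q)ˣ) Fintype.card_ne_zero ?_)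
    rw [← map_pow, ← Units.val_pow_eq_pow_val, pow_card_eq_one]
    simp
  · rw [ψ.map_nonunit hz, map_zero]
    exact zero_le_one

lemma v_th {V : ValuationSubring ℂ} {p f : ℕ} {R : Reps A B n ι} {kp : ι → ℂ}
    {eta : OO A B → ℂ} (hC : ChD p f R kp eta) {q : ℕ} [NeZero q] (ψ : DirichletCharacter ℂ q)
    (i : ι) (x : OO A B) : V.valuation (thT R kp eta ψ i x) ≤ 1 := by
  obtain ⟨r, hr, h1, h2⟩ := hC.fin
  have hr0 : r ≠ 0 := by
    rintro rfl
    exact hr (dvd_zero _)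
  unfold thT
  rw [map_mul, map_mul, v_one hr0 (h1 i), one_mul]
  refine mul_le_one' ?_ (v_chi ψ _)
  by_cases he : eta x = 0
  · rw [he, map_zero]
    exact zero_le_one
  · exact le_of_eq (v_one hr0 (h2 x he))

lemma th_neg {p f : ℕ} {R : Reps A B n ι} {kp : ι → ℂ}
    {eta : OO A B → ℂ} (hC : ChD p f R kp eta) {q : ℕ} (ψ : DirichletCharacter ℂ q)
    (i : ι) (x : OO A B) : thT R kp eta ψ i (-x) = thT R kp eta ψ i x := by
  unfold thT
  have h1 : eta (-x) = eta x := by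
    rw [← neg_one_mul, hC.mul, hC.neg, one_mul]
  rw [h1, nm_neg']

lemma th_per {p f : ℕ} {R : Reps A B n ι} {kp : ι → ℂ}
    {eta : OO A B → ℂ} (hC : ChD p f R kp eta) {q m : ℕ} (ψ : DirichletCharacter ℂ q)
    (hf : f ∣ m) (hq : q ∣ m) (i : ι) {x y : OO A B} (h : x - y ∈ idl (A := A) (B := B) m) :
    thT R kp eta ψ i x = thT R kp eta ψ i y := by
  unfold thT
  have h1 : eta x = eta y := by
    refine hC.per _ _ ?_
    have h2 : idl (A := A) (B := B) m ≤ idl f := by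
      rw [Ideal.span_singleton_le_span_singleton]
      exact Nat.cast_dvd_cast hf
    exact h2 h
  have h3 : ((nm x * nI (R.b i) : ℤ) : ZMod q) = ((nm y * nI (R.b i) : ℤ) : ZMod q) := by
    rw [ZMod.intCast_eq_intCast_iff_dvd_sub]
    have h4 := Pool.Agent.MUXI.TSH.nm_per m h
    have h5 : (q : ℤ) ∣ nm x - nm y := (Int.natCast_dvd_natCast.2 hq).trans h4
    obtain ⟨t, ht⟩ := h5
    exact ⟨-t * nI (R.b i), by linear_combination (-(nI (R.b i) : ℤ)) * ht⟩
  rw [h1, h3]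

lemma w_neg_one {p : ℕ} {P : Ideal (OO A B)} {V : ValuationSubring ℂ} {w : OO A B → ℂ}
    (hw : TeiP p P V w) (hp : V.valuation (p : ℂ) < 1) (h2 : V.valuation (2 : ℂ) = 1) :
    w (-1) = -1 := by
  have h1 : w (-1) * w (-1) = 1 := by
    rw [← hw.mul, neg_mul_neg, one_mul, hw.one]
  have h3 : (w (-1) - 1) * (w (-1) + 1) = 0 := by linear_combination h1
  rcases mul_eq_zero.1 h3 with h | h
  · exfalso
    have h4 := hw.int (-1)
    have h5 : ((-1 : ℤ) : OO A B) = -1 := by simp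
    rw [h5] at h4
    have h6 : w (-1) = 1 := by linear_combination h
    rw [h6] at h4
    have h7 : (1 : ℂ) - ((-1 : ℤ) : ℂ) = 2 := by push_cast; ring
    rw [h7, h2] at h4
    exact absurd (lt_of_le_of_lt h4 hp) (lt_irrefl _)
  · linear_combination h

lemma w_neg {p : ℕ} {P : Ideal (OO A B)} {V : ValuationSubring ℂ} {w : OO A B → ℂ}
    (hw : TeiP p P V w) (hp : V.valuation (p : ℂ) < 1) (h2 : V.valuation (2 : ℂ) = 1)
    (x : OO A B) : w (-x) = -w x := by
  rw [← neg_one_mul, hw.mul, w_neg_one hw hp h2, neg_one_mul]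

lemma oneT_neg {p : ℕ} {P : Ideal (OO A B)} {V : ValuationSubring ℂ} {w : OO A B → ℂ}
    (hw : TeiP p P V w) (hp : V.valuation (p : ℂ) < 1) (h2 : V.valuation (2 : ℂ) = 1)
    (x : OO A B) : oneT w (-x) = oneT w x := by
  unfold oneT
  rw [star_neg, w_neg hw hp h2, inv_neg, neg_mul_neg]

lemma oneT_per {p : ℕ} {P : Ideal (OO A B)} {V : ValuationSubring ℂ} {w : OO A B → ℂ}
    (hw : TeiP p P V w) {x y : OO A B} (h : x - y ∈ cjI P) : oneT w x = oneT w y := by
  unfold oneT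
  have h1 : w (star x) = w (star y) := by
    refine hw.per _ _ ?_
    rw [← star_sub]
    exact h
  rw [h1]

lemma oneT_one {p : ℕ} {P : Ideal (OO A B)} {V : ValuationSubring ℂ} {w : OO A B → ℂ}
    (hw : TeiP p P V w) {x : OO A B} (h : x ∉ cjI P) : oneT w x = 1 := by
  unfold oneT
  refine mul_inv_cancel₀ ?_
  intro h0
  exact h ((hw.zero _).1 h0)

lemma oneT_zero {p : ℕ} {P : Ideal (OO A B)} {V : ValuationSubring ℂ} {w : OO A B → ℂ}
    (hw : TeiP p P V w) {x : OO A B} (h : x ∈ cjI P) : oneT w x = 0 := by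
  unfold oneT
  rw [(hw.zero (star x)).2 h, zero_mul]

end SIG

open _root_.Pool.Agent.TWT.SIG in
theorem t_SIG (h1 : S_IDP) (h2 : S_VPG) (h3 : S_MUG) (h4 : S_CNT) : S_SIG := by
  intro p A B P V f hS hT ι _ R hG w hw kp eta hC l N hl hlf ψ hψ x0 y0 hx0 hx1 hy0 hy1
  obtain ⟨-, id2, id3, -, -, -, -⟩ := h1 p A B P V f hS
  obtain ⟨vp1, -, -, vp4, vp5, -, -⟩ := h2 p A B P V f hS
  have mug := h3 p A B P V f hS ι R hG
  obtain ⟨-, alg2, -, -, -⟩ := Pool.Agent.MUXF.xf_ALG A B (Pool.Agent.MUXY.cqF hS.cq)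
  have hp0 : p ≠ 0 := hS.pp.ne_zero
  have hl0 : l ^ N ≠ 0 := pow_ne_zero _ hl.ne_zero
  have : NeZero (l ^ N) := ⟨hl0⟩
  have hm0 : f * l ^ N ≠ 0 := mul_ne_zero hS.f0 hl0
  have hM0 : f * l ^ N * p ≠ 0 := mul_ne_zero hm0 hp0
  have hpl : ¬ p ∣ l := fun h => hS.fp (h.trans hlf)
  have hpm : ¬ p ∣ f * l ^ N := by
    intro h
    rcases (Nat.Prime.dvd_mul hS.pp).1 h with h | h
    · exact hS.fp h
    · exact hpl (hS.pp.dvd_of_dvd_pow h)
  have hLv : LvM p f (f * l ^ N) R := by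
    refine ⟨hm0, dvd_mul_right _ _, hpm, fun i => ?_⟩
    have h5 := R.cop i
    have h6 : (nI (R.b i)).Coprime p := Nat.Coprime.coprime_mul_right_right h5
    have h7 : (nI (R.b i)).Coprime f := Nat.Coprime.coprime_mul_left_right h5
    have h8 : (nI (R.b i)).Coprime l := Nat.Coprime.coprime_dvd_right hlf h7
    exact Nat.Coprime.mul_right (Nat.Coprime.mul_right h7 (Nat.Coprime.pow_right _ h8)) h6
  have hPp : P.IsPrime := hS.hP.prime
  have hpP : ((p : ℕ) : OO A B) ∈ P := hS.hP.mem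
  have hpc : ((p : ℕ) : OO A B) ∈ cjI P := by
    change (starRingEnd (OO A B)) ((p : ℕ) : OO A B) ∈ P
    rw [map_natCast]
    exact hpP
  have hMc : idl (A := A) (B := B) (f * l ^ N * p) ≤ cjI P := by
    rw [Ideal.span_singleton_le_iff_mem, Nat.cast_mul]
    exact Ideal.mul_mem_left _ _ hpc
  have hMP : idl (A := A) (B := B) (f * l ^ N * p) ≤ P := by
    rw [Ideal.span_singleton_le_iff_mem, Nat.cast_mul]
    exact Ideal.mul_mem_left _ _ hpP
  have hx1c : x0 - 1 ∈ cjI P := Ideal.mul_le_right hx1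
  have hx1m : x0 - 1 ∈ idl (A := A) (B := B) (f * l ^ N) :=
    Ideal.mul_le_left hx1
  -- elements prime to `M`
  have hcopP : ∀ x : OO A B, IsCoprime x ((f * l ^ N * p : ℕ) : OO A B) → x ∉ P ∧ x ∉ cjI P := by
    intro x hx
    obtain ⟨u, v, huv⟩ := hx
    constructor
    · intro hxP
      apply hPp.ne_top
      rw [Ideal.eq_top_iff_one, ← huv]
      exact P.add_mem (P.mul_mem_left _ hxP)
        (P.mul_mem_left _ (hMP (Ideal.mem_span_singleton_self _)))
    · intro hxP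
      have h5 : (1 : OO A B) ∈ cjI P := by
        rw [← huv]
        exact (cjI P).add_mem ((cjI P).mul_mem_left _ hxP)
          ((cjI P).mul_mem_left _ (hMc (Ideal.mem_span_singleton_self _)))
      apply hPp.ne_top
      rw [Ideal.eq_top_iff_one]
      have h6 : (starRingEnd (OO A B)) (1 : OO A B) ∈ P := h5
      rwa [map_one] at h6
  have hcop' : ∀ x : OO A B, eta x ≠ 0 → x ∉ P → x ∉ cjI P →
      IsCoprime x ((f * l ^ N * p : ℕ) : OO A B) := by
    intro x he hxP hxc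
    have h5 : IsCoprime x ((f : ℕ) : OO A B) := by
      have h6 := (hC.supp x).1 he
      rwa [Ideal.isCoprime_span_singleton_iff] at h6
    have h7 : IsCoprime x ((l : ℕ) : OO A B) :=
      IsCoprime.of_isCoprime_of_dvd_right h5 (Nat.cast_dvd_cast hlf)
    have h8 : IsCoprime x ((p : ℕ) : OO A B) := by
      have h9 : ¬ (p : ℤ) ∣ nm x := by
        intro h
        have h10 : ((nm x : ℤ) : OO A B) ∈ P := (id2 _).2 h
        rw [← (alg2 x).2.2.2.2.1] at h10
        rcases hPp.mem_or_mem h10 with h | h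
        · exact hxP h
        · exact hxc h
      have h11 : IsCoprime ((nm x : ℤ)) (p : ℤ) :=
        ((Nat.prime_iff_prime_int.1 hS.pp).coprime_iff_not_dvd.2 h9).symm
      have h12 := h11.map (Int.castRingHom (OO A B))
      simp only [eq_intCast, Int.cast_natCast] at h12
      rw [← (alg2 x).2.2.2.2.1] at h12
      exact h12.of_mul_left_left
    push_cast
    exact (h5.mul_right h7.pow_right).mul_right h8
  have hwr : ∀ x, x ∉ P → V.valuation (w x) = 1 := fun x hx =>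
    v_one (r := p - 1) (by have := hS.p5; omega) (hw.root x hx)
  have hmyP : (((f * l ^ N : ℕ) : OO A B) * y0) ∉ P := by
    intro h
    rcases hPp.mem_or_mem h with h | h
    · have h5 : (((f * l ^ N : ℕ) : ℤ) : OO A B) ∈ P := by
        rw [Int.cast_natCast]
        exact h
      exact hpm (Int.natCast_dvd_natCast.1 ((id2 _).1 h5))
    · exact hy1 h
  have hpC : ((p : ℂ) - 1) ≠ 0 := by
    have h5 : (1 : ℂ) ≠ (p : ℂ) := by
      have := hS.p5
      exact_mod_cast (show (1 : ℕ) ≠ p by omega)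
    exact sub_ne_zero.2 h5.symm
  have hvp1 : V.valuation ((p : ℂ) - 1) = 1 := by
    have h5 := vp4 ((p : ℤ) - 1) (by
      intro h
      have h6 : (p : ℤ) ∣ 1 := by
        have := dvd_sub (dvd_refl (p : ℤ)) h
        simpa using this
      have h7 := Int.natCast_dvd_natCast.1 (by simpa using h6 : ((p : ℕ) : ℤ) ∣ ((1 : ℕ) : ℤ))
      have := hS.p5
      have := Nat.le_of_dvd one_pos h7
      omega)
    push_cast at h5
    exact h5
  refine ⟨2 * w (((f * l ^ N : ℕ) : OO A B) * y0) / ((p : ℂ) - 1), ?_, ?_⟩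
  · rw [map_div₀, map_mul, vp5, hwr _ hmyP, hvp1]
    simp
  intro a ha1 hacop _ I X hhit hint
  set W0 : ℂ := w (((f * l ^ N : ℕ) : OO A B) * y0) with hW0
  -- the function
  let G : ι → OO A B → ℂ := fun i x => muX R i *
    (thT R kp eta ψ i x * oneT w x * w x * dlX (R.L i) a (pt R (f * l ^ N * p) i x))
  have hcnt := h4 p A B P V f hS hT ι R (f * l ^ N) hLv x0 y0 hx0 hx1 hy0 hy1 G
    (by
      intro i x y hxy
      have e1 := th_per hC ψ (m := f * l ^ N * p) (by
        rw [mul_assoc]; exact dvd_mul_right _ _) (by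
        rw [mul_comm f, mul_assoc]; exact dvd_mul_right _ _) i hxy
      have e2 := oneT_per hw (hMc hxy)
      have e3 := hw.per x y (hMP hxy)
      have e4 := ((j_PTP A B hS.cq (p * f) ι R (f * l ^ N * p) hM0 i).1 x y hxy).2.2 a
      simp only [G]
      rw [e1, e2, e3, e4])
    (by
      intro i x
      simp only [G]
      rw [th_neg hC, oneT_neg hw vp1 vp5, w_neg hw vp1 vp5, pt_neg, dlX_neg]
      ring)
    (by
      intro i x hx
      simp only [G]
      by_cases he : eta x = 0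
      · unfold thT
        rw [he]
        ring
      by_cases hxP : x ∈ P
      · rw [(hw.zero x).2 hxP]
        ring
      by_cases hxc : x ∈ cjI P
      · rw [oneT_zero hw hxc]
        ring
      exact absurd (hcop' x he hxP hxc) hx) I X hhit
  have hsdt : ∑ i, sumMod ((f * l ^ N * p : ℕ) : OO A B) (G i) =
      SDT R (f * l ^ N * p) a (thT R kp eta ψ) w := by
    unfold SDT
    refine Finset.sum_congr rfl fun i _ => ?_
    exact Pool.Agent.MUXI.TSH.sumMod_cmul _ _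
  rw [hsdt] at hcnt
  -- the values of `G`
  have hG' : ∀ σ : GalF A B (f * l ^ N * p), ∀ c : ℕ,
      G (I σ) (X σ * x0 + c * (f * l ^ N : ℕ) * y0) = W0 *
        (thT R kp eta ψ (I σ) (X σ) * (muX R (I σ) * (w ((c : ℕ) : OO A B) *
          dlX (R.L (I σ)) a (pt R (f * l ^ N * p) (I σ)
            (X σ * x0 + c * (f * l ^ N : ℕ) * y0))))) := by
    intro σ c
    have hX := hcopP _ (hhit σ).1
    have e1 : thT R kp eta ψ (I σ) (X σ * x0 + c * (f * l ^ N : ℕ) * y0) =
        thT R kp eta ψ (I σ) (X σ) := by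
      refine th_per hC ψ (m := f * l ^ N) (dvd_mul_right _ _) (dvd_mul_left _ _) _ ?_
      have h5 : X σ * x0 + c * (f * l ^ N : ℕ) * y0 - X σ =
          X σ * (x0 - 1) + (c * y0) * ((f * l ^ N : ℕ) : OO A B) := by ring
      rw [h5]
      exact Ideal.add_mem _ (Ideal.mul_mem_left _ _ hx1m)
        (Ideal.mul_mem_left _ _ (Ideal.mem_span_singleton_self _))
    have e2 : oneT w (X σ * x0 + c * (f * l ^ N : ℕ) * y0) = 1 := by
      rw [oneT_per hw (y := X σ) ?_, oneT_one hw hX.2]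
      have h5 : X σ * x0 + c * (f * l ^ N : ℕ) * y0 - X σ =
          X σ * (x0 - 1) + (c * ((f * l ^ N : ℕ) : OO A B)) * y0 := by ring
      rw [h5]
      exact Ideal.add_mem _ (Ideal.mul_mem_left _ _ hx1c) (Ideal.mul_mem_left _ _ hy0)
    have e3 : w (X σ * x0 + c * (f * l ^ N : ℕ) * y0) = w ((c : ℕ) : OO A B) * W0 := by
      rw [hW0, ← hw.mul]
      refine hw.per _ _ ?_
      have h5 : X σ * x0 + c * (f * l ^ N : ℕ) * y0 -
          ((c : ℕ) : OO A B) * (((f * l ^ N : ℕ) : OO A B) * y0) = X σ * x0 := by ring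
      rw [h5]
      exact Ideal.mul_mem_left _ _ hx0
    simp only [G]
    rw [e1, e2, e3]
    ring
  have hcnt2 : 2 * (W0 * ∑ σ : GalF A B (f * l ^ N * p), thT R kp eta ψ (I σ) (X σ) *
      (muX R (I σ) * ∑ c ∈ Finset.Icc 1 (p - 1), w ((c : ℕ) : OO A B) *
        dlX (R.L (I σ)) a (pt R (f * l ^ N * p) (I σ)
          (X σ * x0 + c * (f * l ^ N : ℕ) * y0)))) =
      ((p : ℂ) - 1) * SDT R (f * l ^ N * p) a (thT R kp eta ψ) w := by
    rw [← hcnt]
    congr 1
    rw [Finset.mul_sum]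
    refine Finset.sum_congr rfl fun σ _ => ?_
    rw [Finset.mul_sum, Finset.mul_sum, Finset.mul_sum]
    refine Finset.sum_congr rfl fun c _ => ?_
    rw [hG' σ c]
  set SD : ℂ := SDT R (f * l ^ N * p) a (thT R kp eta ψ) w with hSD
  have hSD2 : SD = 2 * W0 / ((p : ℂ) - 1) * ∑ σ : GalF A B (f * l ^ N * p),
      thT R kp eta ψ (I σ) (X σ) *
      (muX R (I σ) * ∑ c ∈ Finset.Icc 1 (p - 1), w ((c : ℕ) : OO A B) *
        dlX (R.L (I σ)) a (pt R (f * l ^ N * p) (I σ)
          (X σ * x0 + c * (f * l ^ N : ℕ) * y0))) := by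
    rw [div_mul_eq_mul_div, eq_div_iff hpC, mul_comm SD, ← hcnt2]
    ring
  rw [hSD2, ← mul_sub, map_mul]
  have hu : V.valuation (2 * W0 / ((p : ℂ) - 1)) = 1 := by
    rw [map_div₀, map_mul, vp5, hwr _ hmyP, hvp1]
    simp
  rw [hu, one_mul, ← Finset.sum_sub_distrib]
  refine V.valuation.map_sum_le fun σ _ => ?_
  rw [← mul_sub, ← mul_sub, ← Finset.sum_sub_distrib, map_mul, map_mul, mug, one_mul]
  refine mul_le_of_le_one_of_le (v_th hC ψ _ _) ?_
  refine V.valuation.map_sum_le fun c _ => ?_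
  rw [← sub_mul, map_mul]
  refine mul_le_of_le_of_le_one ?_ ((V.valuation_le_one_iff _).2 (hint σ c))
  rw [← neg_sub, Valuation.map_neg]
  have h5 := hw.int (c : ℤ)
  rw [Int.cast_natCast, Int.cast_natCast] at h5
  exact h5

end

end Pool.Agent.TWT


end
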