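import Pool.Agent.MVF.C033
import Pool.Agent.TWM.C05
import Pool.Agent.TWM.C15
import Pool.Agent.TWM.C17
import Pool.Agent.TWM.C26

/-! Parts: TWI.CNTI, TWI.CRAI, TWI.IDPI, TWI.PHII, TWI.SIGI, TWI.CRBI, TWI.CRITI -/

section

/-!
# TWI_CNTI: counting, for any level
-/

set_option autoImplicit false

open WeierstrassCurve Polynomial NumberField IsDedekindDomain

namespace Pool.Agent.TWI

open _root_.MU3 Pool.Agent.MU3A Pool.Agent.MU3B Pool.Agent.MU3C Pool.Agent.RI Pool.Agent.RID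
open Pool.Agent.MUX Pool.Agent.MUXU Pool.Agent.MUXW Pool.Agent.TWT
open Pool.Agent.MU3V (cls Sub GD algDF)
open Pool.Agent.MUXV (GR InK tX)
open Pool.Agent.MUXI (IA RE AR)

noncomputable section

theorem t_CNTI : S_CNTI := by
  intro A B hCQ hT n ι _ R M hM hcop G hper heven hzero a ha _ I X hX
  obtain ⟨-, t2, t3, t4, -, -⟩ := t_HTF A B hCQ hT n ι R M hM hcop
  let F : ι → OO A B → ℂ := fun i x => G i (x * a)
  have hFper : ∀ i x y, x - y ∈ idl (A := A) (B := B) M → F i x = F i y := by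
    intro i x y hxy
    refine hper _ _ _ ?_
    rw [← sub_mul]
    exact Ideal.mul_mem_right _ _ hxy
  have hFeven : ∀ i x, F i (-x) = F i x := by
    intro i x
    show G i (-x * a) = G i (x * a)
    rw [neg_mul]
    exact heven _ _
  have hFzero : ∀ i x, ¬ IsCoprime x ((M : ℕ) : OO A B) → F i x = 0 := by
    intro i x hx
    exact hzero _ _ fun h => hx (IsCoprime.of_mul_left_left h)
  have hc := Pool.Agent.TWT.CNT.count hM (fun σ i x => HitF R M _ σ i x) t2 t3 t4 F hFper hFeven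
    hFzero I X (fun σ => (hX σ).1) hX
  refine hc.trans (Finset.sum_congr rfl fun i _ => ?_)
  rw [← Pool.Agent.TWT.CNT.sumMod_mul ha (hper i)]
  unfold sumMod
  refine finsum_congr fun q => ?_
  show G i (Quotient.out q * a) = G i (a * Quotient.out q)
  rw [mul_comm]

end

end Pool.Agent.TWI


end

section

/-!
# TWI, block B, assembly, part 1 (helper59): the powers, any exponent
-/

set_option autoImplicit false

open WeierstrassCurve Polynomial NumberField IsDedekindDomain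

namespace Pool.Agent.TWI

open _root_.MU3 Pool.Agent.MU3A Pool.Agent.MU3B Pool.Agent.MU3C Pool.Agent.RI Pool.Agent.RID
open Pool.Agent.MUX Pool.Agent.MUXU Pool.Agent.MUXW Pool.Agent.TWT
open Pool.Agent.TWT.CRA
open Pool.Agent.MU3V (cls Sub GD algDF)
open Pool.Agent.MUXV (GR InK tX)
open Pool.Agent.MUXI (IA RE AR)
open OnePoint

noncomputable section

namespace CRAI

theorem partA (hNMF : S_NMF) (hEAB : S_EAB) (hEABE : S_EABE) (p : ℕ) [Fact p.Prime] (A B : ℤ) (hcq : CQ A B)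
    (hT : TorX A B) (m : ℕ) (hm : m ≠ 0) (D : IntermediateField ℚ ℂ) [FiniteDimensional ℚ D]
    [FiniteDimensional ℚ (kk A B)] (h : kk A B ≤ D)
    (hs : Sub D (RF (idl m) : IntermediateField (kk A B) ℂ)) (Fr : Type) [Field Fr] [CharP Fr p]
    (T : Finset (OO A B)) :
    letI := algC h
    ∀ (χ : (D ≃ₐ[kk A B] D) →* Frˣ) (g : D ≃ₐ[kk A B] D), (∀ x : D, (x : ℂ) ∈
      (RF (⊤ : Ideal (OO A B)) : IntermediateField (kk A B) ℂ) → g x = x) → χ g ≠ 1 →
    ∀ (θ θ'' κ : (RF (idl (m * p)) : IntermediateField (kk A B) ℂ))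
      (γ : OO A B →
        ((RF (idl (m * p)) : IntermediateField (kk A B) ℂ) ≃ₐ[kk A B] RF (idl (m * p))))
      (φ : (RF (idl (m * p)) : IntermediateField (kk A B) ℂ) ≃ₐ[kk A B] RF (idl (m * p)))
      (τφ : D ≃ₐ[kk A B] D), θ ≠ 0 → θ'' ≠ 0 → κ ≠ 0 →
      (κ : ℂ) ∈ (RF (⊤ : Ideal (OO A B)) : IntermediateField (kk A B) ℂ) →
      (∀ c ∈ T, ∀ y : (RF (idl (m * p)) : IntermediateField (kk A B) ℂ),
        (y : ℂ) ∈ (RF (idl m) : IntermediateField (kk A B) ℂ) → γ c y = y) →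
      (∏ c ∈ T, γ c θ) * θ'' = κ * φ θ'' → Ext1 h τφ φ → χ τφ ≠ 1 →
    ∀ c₀ : D, (c₀ : ℂ) = cW h θ →
    (∀ t : Fr →+ ZMod p, ∃ y : D, y ^ p = Pool.Agent.TWK.sE p χ t c₀) →
    ∀ t : Fr →+ ZMod p, ∃ y : D, ((y ^ p : D) : ℂ) = ∏ τ : D ≃ₐ[kk A B] D,
      cWt h ((∏ c ∈ T, γ c θ) / θ'' ^ T.card) τ ^
        (t ((χ τ)⁻¹ : Frˣ)).val := by
  let _ := algC h
  intro χ g hg hgχ θ θ'' κ γ φ τφ hθ hθ'' hκ hκ1 hγ hrel hφ hχφ c₀ hc₀ hpow t
  have hp : p.Prime := Fact.out
  have hmp : m * p ≠ 0 := mul_ne_zero hm hp.ne_zero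
  have hsF := subF hT m p hs
  haveI := hT.fin _ (idl_ne (A := A) (B := B) hmp)
  haveI := hT.gal _ (idl_ne (A := A) (B := B) hmp)
  have MEM := ty_MEM A B _ (hT.fin _ (idl_ne hmp)) (hT.gal _ (idl_ne hmp))
    (hT.comm _ (idl_ne hmp)) D h hsF
  have NMF := hNMF A B hcq hT (m * p) hmp D h hsF
  -- multiplicativity
  have mul : ∀ x y : (RF (idl (m * p)) : IntermediateField (kk A B) ℂ), x ≠ 0 → y ≠ 0 →
      ∀ τ : D ≃ₐ[kk A B] D, cWt h (x * y) τ = cWt h x τ * cWt h y τ :=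
    fun x y hx hy τ => ((NMF x y hx hy).1 τ).1
  have inv : ∀ x : (RF (idl (m * p)) : IntermediateField (kk A B) ℂ), x ≠ 0 →
      ∀ τ : D ≃ₐ[kk A B] D, cWt h x⁻¹ τ = (cWt h x τ)⁻¹ :=
    fun x hx τ => ((NMF x x hx hx).1 τ).2
  have pw : ∀ x : (RF (idl (m * p)) : IntermediateField (kk A B) ℂ), x ≠ 0 → ∀ (n : ℕ)
      (τ : D ≃ₐ[kk A B] D), cWt h (x ^ n) τ = cWt h x τ ^ n := by
    intro x hx n τ
    induction n with
    | zero => rw [pow_zero, pow_zero, cWt_one]
    | succ n ih => rw [pow_succ, pow_succ, mul _ _ (pow_ne_zero n hx) hx, ih]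
  have hγ0 : ∀ c, γ c θ ≠ 0 := fun c => (map_ne_zero_iff _ (γ c).injective).2 hθ
  have hγ1 : ∀ c ∈ T, ∀ τ : D ≃ₐ[kk A B] D, cWt h (γ c θ) τ = cWt h θ τ := by
    intro c h1 τ
    have e : Ext1 h (1 : D ≃ₐ[kk A B] D) (γ c) := by
      intro y hy
      rw [hγ c h1 ⟨y, hy⟩ (hs y y.2)]
      rfl
    rw [(NMF θ θ hθ hθ).2.1 τ 1 (γ c) e, mul_one]
  have prd : ∀ (s : Finset (OO A B)), s ⊆ T → ∀ τ : D ≃ₐ[kk A B] D,
      cWt h (∏ c ∈ s, γ c θ) τ = cWt h θ τ ^ s.card := by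
    classical
    intro s
    induction s using Finset.induction_on with
    | empty => intro _ τ; rw [Finset.prod_empty, Finset.card_empty, pow_zero, cWt_one]
    | insert a s ha ih =>
      intro hsub τ
      rw [Finset.prod_insert ha, Finset.card_insert_of_notMem ha, pow_succ,
        mul _ _ (hγ0 a) (Finset.prod_ne_zero_iff.2 fun c _ => hγ0 c),
        ih (fun x hx => hsub (Finset.mem_insert_of_mem hx))]
      rw [hγ1 a (hsub (Finset.mem_insert_self a s)), mul_comm]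
  have hprod0 : (∏ c ∈ T, γ c θ) ≠ 0 :=
    Finset.prod_ne_zero_iff.2 fun c _ => hγ0 c
  have prd' : ∀ τ : D ≃ₐ[kk A B] D,
      cWt h (∏ c ∈ T, γ c θ) τ = cWt h θ τ ^ T.card := by
    intro τ
    rw [prd _ (Finset.Subset.refl _)]
  -- the units
  let U : ∀ x : (RF (idl (m * p)) : IntermediateField (kk A B) ℂ), x ≠ 0 →
      (D ≃ₐ[kk A B] D) → Dˣ := fun x hx τ =>
    Units.mk0 ⟨cWt h x τ, ((MEM x hx).2.1 τ).1⟩
      (fun e => ((MEM x hx).2.1 τ).2 (congrArg Subtype.val e))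
  have hU : ∀ x hx τ, (((U x hx τ : Dˣ) : D) : ℂ) = cWt h x τ := fun x hx τ => rfl
  have R1 : ∀ τ, U θ hθ τ ^ T.card * U θ'' hθ'' τ = U κ hκ τ * U θ'' hθ'' (τ * τφ) := by
    intro τ
    apply Units.ext
    apply Subtype.ext
    push_cast
    rw [hU θ hθ τ, hU θ'' hθ'' τ, hU κ hκ τ, hU θ'' hθ'' (τ * τφ), ← prd', ← mul _ _ hprod0 hθ'', hrel,
      mul _ _ hκ ((map_ne_zero_iff _ φ.injective).2 hθ''), (NMF θ'' θ'' hθ'' hθ'').2.1 τ τφ φ hφ]
  have R2 : ∀ τ, U κ hκ (τ * g) = U κ hκ τ := by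
    intro τ
    apply Units.ext
    apply Subtype.ext
    rw [hU κ hκ (τ * g), hU κ hκ τ]
    exact (NMF κ κ hκ hκ).2.2 hκ1 g hg τ
  -- powers
  have P1 : ∀ t : Fr →+ ZMod p, ∃ y : Dˣ, y ^ p = EtT p χ t (U θ hθ) := by
    intro t
    obtain ⟨y, hy⟩ := hpow t
    have e0 : ∀ δ : D ≃ₐ[kk A B] D, δ c₀ = ((U θ hθ δ : Dˣ) : D) := by
      intro δ
      apply Subtype.ext
      rw [hU θ hθ δ]
      have h1 : cW h θ ∈ D := hc₀ ▸ c₀.2
      have h2 : c₀ = ⟨cW h θ, h1⟩ := Subtype.ext hc₀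
      rw [h2]
      exact (MEM θ hθ).2.2.1 δ h1
    have e1 : y ^ p = ((EtT p χ t (U θ hθ) : Dˣ) : D) := by
      rw [hy]
      unfold Pool.Agent.TWK.sE EtT
      rw [Units.coe_prod]
      refine Finset.prod_congr (by congr) fun δ _ => ?_
      rw [e0 δ]
      push_cast
      rfl
    have hy0 : y ≠ 0 := by
      intro h0
      rw [h0, zero_pow hp.ne_zero] at e1
      exact (EtT p χ t (U θ hθ)).ne_zero e1.symm
    exact ⟨Units.mk0 y hy0, Units.ext (by push_cast; exact e1)⟩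
  have E1 := (hEAB p (D ≃ₐ[kk A B] D) Fr Dˣ χ).1 (U κ hκ) g hgχ R2
  obtain ⟨y, hy⟩ := hEABE p (D ≃ₐ[kk A B] D) Fr Dˣ χ T.card (U θ hθ) (U θ'' hθ'') (U κ hκ) τφ hχφ R1
    P1 E1 t
  refine ⟨(y : D), ?_⟩
  have h1 : ((y : D) ^ p) = ((EtT p χ t (fun τ => (U θ hθ τ / U θ'' hθ'' τ) ^ T.card) : Dˣ) : D) := by
    rw [← hy]; push_cast; rfl
  rw [h1]
  unfold EtT
  rw [Units.coe_prod]
  push_cast
  refine Finset.prod_congr (by congr) fun τ _ => ?_
  have e : cWt h ((∏ c ∈ T, γ c θ) / θ'' ^ T.card) τ =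
      (cWt h θ τ / cWt h θ'' τ) ^ T.card := by
    rw [div_eq_mul_inv, mul _ _ hprod0 (inv_ne_zero (pow_ne_zero _ hθ'')),
      inv _ (pow_ne_zero _ hθ''), pw _ hθ'', prd', div_pow, div_eq_mul_inv]
  rw [e]
  push_cast
  rw [hU θ hθ τ, hU θ'' hθ'' τ]

end CRAI

end

end Pool.Agent.TWI


end

section

/-!
# TWI, block B: ideals prime to `p`, `P = (p)` (module IDPI)
-/

set_option autoImplicit false

namespace Pool.Agent.TWI

open _root_.MU3 Pool.Agent.MU3A Pool.Agent.MU3B Pool.Agent.MU3C Pool.Agent.RI Pool.Agent.RID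
open Pool.Agent.MUX Pool.Agent.TWT

noncomputable section

namespace IDPI

variable {A B : ℤ}

lemma cop_one {I : Ideal (OO A B)} {a : OO A B} (h : a - 1 ∈ I) : IsCoprime (sp a) I := by
  rw [Ideal.isCoprime_iff_exists]
  exact ⟨a, Ideal.subset_span rfl, 1 - a, by rw [← neg_sub]; exact I.neg_mem h, by ring⟩

lemma idl_mul (m n : ℕ) : idl (A := A) (B := B) (m * n) = idl m * idl n := by
  unfold idl
  rw [Ideal.span_singleton_mul_span_singleton, Nat.cast_mul]

/-- the norm of `(p)` -/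
lemma nI_idl (h : CQ A B) {p : ℕ} (hp0 : p ≠ 0) : nI (idl (A := A) (B := B) p) = p ^ 2 := by
  have h1 := nI_sp h (natCast_ne_zero' h hp0)
  have e4 : nm ((p : ℕ) : OO A B) = ((p ^ 2 : ℕ) : ℤ) := by
    have := nm_intCast (A := A) (B := B) (p : ℤ)
    push_cast at this ⊢
    exact this
  rw [e4, Int.natAbs_natCast] at h1
  exact h1

/-- existence of representatives -/
lemma exists_rep {P : Ideal (OO A B)} (hf : Finite (OO A B ⧸ P)) : ∃ T, RepI P T := by
  have hout : ∀ q : OO A B ⧸ P, Ideal.Quotient.mk P (Quotient.out q) = q := fun q => Quotient.out_eq q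
  have hfs : Set.Finite (Quotient.out '' {q : OO A B ⧸ P | q ≠ 0}) := Set.toFinite _
  have hmem : ∀ x, x ∈ hfs.toFinset ↔ ∃ q : OO A B ⧸ P, q ≠ 0 ∧ Quotient.out q = x := by
    intro x
    rw [Set.Finite.mem_toFinset]
    exact Iff.rfl
  refine ⟨hfs.toFinset, ?_, ?_, ?_⟩
  · intro x hx hxP
    obtain ⟨q, hq, rfl⟩ := (hmem x).1 hx
    apply hq
    rw [← hout q]
    exact Ideal.Quotient.eq_zero_iff_mem.2 hxP
  · intro x hx y hy hxy
    obtain ⟨q, -, rfl⟩ := (hmem x).1 hx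
    obtain ⟨q', -, rfl⟩ := (hmem y).1 hy
    have h1 := Ideal.Quotient.eq.2 hxy
    rw [hout, hout] at h1
    rw [h1]
  · intro x hx
    refine ⟨Quotient.out (Ideal.Quotient.mk P x), (hmem _).2 ⟨_, ?_, rfl⟩, ?_⟩
    · intro h1
      exact hx (Ideal.Quotient.eq_zero_iff_mem.1 h1)
    · refine Ideal.Quotient.eq.1 ?_
      rw [hout]

/-- the number of representatives -/
lemma card_rep {P : Ideal (OO A B)} (hf : Finite (OO A B ⧸ P)) {T : Finset (OO A B)}
    (hT : RepI P T) : T.card = Nat.card (OO A B ⧸ P) - 1 := by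
  classical
  have := Fintype.ofFinite (OO A B ⧸ P)
  have h1 : T.image (Ideal.Quotient.mk P) = Finset.univ.erase (0 : OO A B ⧸ P) := by
    ext q
    rw [Finset.mem_image, Finset.mem_erase]
    constructor
    · rintro ⟨x, hx, rfl⟩
      exact ⟨fun h => hT.nz x hx (Ideal.Quotient.eq_zero_iff_mem.1 h), Finset.mem_univ _⟩
    · rintro ⟨hq, -⟩
      obtain ⟨x, rfl⟩ := Ideal.Quotient.mk_surjective q
      obtain ⟨y, hy, hxy⟩ := hT.surj x (fun h => hq (Ideal.Quotient.eq_zero_iff_mem.2 h))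
      exact ⟨y, hy, (Ideal.Quotient.eq.2 hxy).symm⟩
  have h2 : (T.image (Ideal.Quotient.mk P)).card = T.card := by
    refine Finset.card_image_of_injOn fun x hx y hy hxy => ?_
    exact hT.inj x hx y hy (Ideal.Quotient.eq.1 hxy)
  rw [← h2, h1, Finset.card_erase_of_mem (Finset.mem_univ _), Finset.card_univ,
    Nat.card_eq_fintype_card]

end IDPI

open _root_.Pool.Agent.TWI.IDPI in
theorem t_IDPI : S_IDPI := by
  intro p A B P V f hS
  have hprime : p.Prime := hS.pp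
  have hPp : P.IsPrime := hS.hP
  have hp0 : p ≠ 0 := hprime.ne_zero
  have hpP : ((p : ℕ) : OO A B) ∈ P := by
    rw [hS.eP]
    exact Ideal.subset_span rfl
  have h1P : (1 : OO A B) ∉ P := fun h => hPp.ne_top ((Ideal.eq_top_iff_one P).2 h)
  -- coprime integers
  have hci : ∀ c : ℤ, ¬ (p : ℤ) ∣ c → IsCoprime (p : ℤ) c := fun c hpc =>
    (Int.prime_iff_natAbs_prime.2 (by simpa using hprime)).coprime_iff_not_dvd.2 hpc
  -- integers in `P`
  have hint : ∀ c : ℤ, (c : OO A B) ∈ P ↔ (p : ℤ) ∣ c := by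
    intro c
    constructor
    · intro hc
      by_contra hpc
      obtain ⟨u, v, huv⟩ := hci c hpc
      apply h1P
      have h3 : ((u : ℤ) : OO A B) * (p : ℕ) + (v : ℤ) * (c : ℤ) = 1 := by
        have := congrArg (Int.cast : ℤ → OO A B) huv
        push_cast at this
        exact this
      rw [← h3]
      exact P.add_mem (P.mul_mem_left _ hpP) (P.mul_mem_left _ hc)
    · rintro ⟨y, rfl⟩
      push_cast
      exact P.mul_mem_right _ hpP
  have hintn : ∀ c : ℕ, (c : OO A B) ∈ P ↔ p ∣ c := by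
    intro c
    have h3 := hint (c : ℤ)
    rw [Int.cast_natCast] at h3
    rw [h3, Int.natCast_dvd_natCast]
  -- `P ≠ ⊥`
  have hPb : P ≠ ⊥ := by
    rintro rfl
    rw [Ideal.mem_bot] at hpP
    exact natCast_ne_zero' hS.cq hp0 hpP
  have hfin : Finite (OO A B ⧸ P) := finite_quot hS.cq hPb
  have hnorm : Nat.card (OO A B ⧸ P) = p ^ 2 := by
    have h3 := nI_idl hS.cq hp0
    rw [← hS.eP] at h3
    exact h3
  -- `P` is maximal
  have hdom : IsDomain (OO A B ⧸ P) := Ideal.Quotient.isDomain P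
  have hmax : P.IsMaximal :=
    Ideal.Quotient.maximal_of_isField P (Finite.isDomain_to_isField (OO A B ⧸ P))
  have hcP : ∀ a : OO A B, a ∉ P → IsCoprime (sp a) P := by
    intro a ha
    rw [Ideal.isCoprime_iff_sup_eq]
    refine (Ideal.isMaximal_def.1 hmax).2 _ (lt_of_le_of_ne le_sup_right fun h3 => ha ?_)
    rw [h3]
    exact (le_sup_left : sp a ≤ sp a ⊔ P) (Ideal.subset_span rfl)
  have hmI : ∀ m : ℕ, ¬ p ∣ m → IsCoprime (idl (A := A) (B := B) m) P := by
    intro m hm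
    obtain ⟨u, v, huv⟩ := hci (m : ℤ) (by rwa [Int.natCast_dvd_natCast])
    have huv' : ((u : ℤ) : OO A B) * (p : ℕ) + (v : ℤ) * (m : ℕ) = 1 := by
      have := congrArg (Int.cast : ℤ → OO A B) huv
      push_cast at this
      exact this
    rw [Ideal.isCoprime_iff_exists]
    exact ⟨_, Ideal.mul_mem_left _ ((v : ℤ) : OO A B) (Ideal.subset_span rfl), _,
      P.mul_mem_left ((u : ℤ) : OO A B) hpP, by rw [add_comm]; exact huv'⟩
  refine ⟨hint, hnorm, exists_rep hfin, ?_, ?_, ?_, ?_⟩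
  · intro T hT
    rw [card_rep hfin hT, hnorm]
  · intro m hm
    refine ⟨hmI m hm, ?_⟩
    obtain ⟨a, ha, b, hb, hab⟩ := Ideal.isCoprime_iff_exists.1 (hmI m hm)
    refine ⟨b, hb, ?_⟩
    have h3 : b - 1 = -a := by linear_combination hab
    rw [h3]
    exact Ideal.neg_mem_iff _ |>.2 ha
  · intro m x0 hm0 hm hx0 hx01 c hc
    have hmP : ((m : ℕ) : OO A B) ∉ P := fun h3 => hm ((hintn m).1 h3)
    have h3 : x0 + c * m - 1 ∈ idl (A := A) (B := B) m := by
      have h4 : x0 + c * m - 1 = (x0 - 1) + c * m := by ring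
      rw [h4]
      exact Ideal.add_mem _ hx01 (Ideal.mul_mem_left _ _ (Ideal.subset_span rfl))
    refine ⟨?_, h3⟩
    have h4 : x0 + c * m ∉ P := by
      intro h4
      have h5 := P.sub_mem h4 hx0
      rw [add_sub_cancel_left] at h5
      exact (hPp.mem_or_mem h5).elim hc hmP
    have h5 := (cop_one h3).mul_right (hcP _ h4)
    rw [hS.eP, ← idl_mul] at h5
    exact (Ideal.isCoprime_span_singleton_iff _ _).1 h5
  · intro l N hl x hx hxP
    have h3 : IsCoprime x ((f : ℕ) : OO A B) := (Ideal.isCoprime_span_singleton_iff _ _).1 hx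
    have h4 : IsCoprime x ((l : ℕ) : OO A B) := by
      obtain ⟨k, rfl⟩ := hl
      rw [Nat.cast_mul] at h3
      exact h3.of_mul_right_left
    have h5 : IsCoprime x ((p : ℕ) : OO A B) := by
      have h6 := hcP x hxP
      rw [hS.eP] at h6
      exact (Ideal.isCoprime_span_singleton_iff _ _).1 h6
    push_cast
    exact (h3.mul_right h4.pow_right).mul_right h5

end

end Pool.Agent.TWI


end

section

/-!
# TWI, block B, module PHII (helper50): `χ(φ) ≠ 1`, `p` inert (adaptation of `Pool/Agent/TWT/PHI.lean` of helper25)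
-/

set_option autoImplicit false

open WeierstrassCurve Polynomial NumberField IsDedekindDomain

namespace Pool.Agent.TWI

open _root_.MU3 Pool.Agent.MU3A Pool.Agent.MU3B Pool.Agent.MU3C Pool.Agent.RI Pool.Agent.RID
open Pool.Agent.MUX Pool.Agent.MUXU Pool.Agent.MUXW Pool.Agent.TWT
open Pool.Agent.MU3V (cls Sub GD algDF)
open Pool.Agent.MUXV (GR InK tX)
open Pool.Agent.MUXI (IA RE AR)
open OnePoint

noncomputable section

namespace PHII

variable {A B : ℤ}

lemma cast_re (m : ℕ) : ((m : ℕ) : OO A B).re = (m : ℤ) := by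
  simp

lemma cast_im (m : ℕ) : ((m : ℕ) : OO A B).im = 0 := by
  simp

lemma cast_ne {m : ℕ} (hm : m ≠ 0) : ((m : ℕ) : OO A B) ≠ 0 := by
  intro h
  have h1 : ((m : ℕ) : OO A B).re = (0 : OO A B).re := by rw [h]
  rw [cast_re] at h1
  have h2 : (m : ℤ) = 0 := by simpa using h1
  exact hm (by exact_mod_cast h2)

lemma idl_ne {m : ℕ} (hm : m ≠ 0) : (idl m : Ideal (OO A B)) ≠ ⊥ := by
  intro h
  rw [Ideal.span_singleton_eq_bot] at h
  exact cast_ne hm h

lemma nm_per {m : ℕ} {x y : OO A B} (h : x - y ∈ idl (A := A) (B := B) m) :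
    (m : ℤ) ∣ nm x - nm y := by
  rw [Ideal.mem_span_singleton'] at h
  obtain ⟨z, hz⟩ := h
  have hr : x.re - y.re = z.re * m := by
    have := congrArg QuadraticAlgebra.re hz
    rw [QuadraticAlgebra.re_mul, cast_re, cast_im, QuadraticAlgebra.re_sub] at this
    linear_combination -this
  have hi : x.im - y.im = z.im * m := by
    have := congrArg QuadraticAlgebra.im hz
    rw [QuadraticAlgebra.im_mul, cast_re, cast_im, QuadraticAlgebra.im_sub] at this
    linear_combination -this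
  have hr' : x.re = y.re + z.re * m := by linarith
  have hi' : x.im = y.im + z.im * m := by linarith
  unfold nm
  rw [hr', hi']
  refine ⟨2 * y.re * z.re + z.re ^ 2 * m + B * (y.re * z.im + z.re * y.im + z.re * z.im * m) -
    A * (2 * y.im * z.im + z.im ^ 2 * m), ?_⟩
  ring

end PHII

open _root_.Pool.Agent.TWI.PHII in
theorem t_PHII : S_PHII := by
  intro p _ A B P V f S T ι _ R kp eta hC l N hl hlf ψ hψ1 hv D h hs
  let _ := algC h
  intro χ hχ s₀ τφ hs0 hext hone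
  have hm0 : f * l ^ N ≠ 0 := mul_ne_zero S.f0 (pow_ne_zero _ hl.ne_zero)
  have hI0 : (idl (f * l ^ N) : Ideal (OO A B)) ≠ ⊥ := idl_ne hm0
  have h2f : 2 ≤ f := by
    have h1 : (2 : ℤ) ∣ (f : ℤ) := (Dvd.intro _ rfl).trans S.fD
    have h2 : 2 ∣ f := by exact_mod_cast h1
    exact Nat.le_of_dvd (Nat.pos_of_ne_zero S.f0) h2
  have hm2 : 2 ≤ f * l ^ N :=
    h2f.trans (Nat.le_mul_of_pos_right _ (pow_pos hl.pos _))
  have hcop : ∀ i, (nI (R.b i)).Coprime (f * l ^ N) := by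
    intro i
    have h1 : (nI (R.b i)).Coprime f := (R.cop i).coprime_dvd_right (Dvd.intro_left _ rfl)
    exact Nat.Coprime.mul_right h1 ((h1.coprime_dvd_right hlf).pow_right _)
  have hG : IsGalois (kk A B) D := kx_galD (T.gal _ hI0) (T.fin _ hI0) (T.comm _ hI0) h hs
  have hAR : AR h (idl (f * l ^ N)) τφ P := ⟨s₀, hs0, hext⟩
  have hcjt : cjI (R.b R.i0) = ⊤ := by
    rw [R.b0]; exact Ideal.comap_top
  have hPy : P = sp ((p : ℕ) : OO A B) := S.eP
  set y : OO A B := ((p : ℕ) : OO A B) with hy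
  have h3 : AR h (idl (f * l ^ N)) τφ (sp y * cjI (R.b R.i0)) := by
    rw [hcjt, Ideal.mul_top, ← hPy]; exact hAR
  have h4 : IsCoprime y ((f * l ^ N : ℕ) : OO A B) := by
    have h5 : IsCoprime P (idl (f * l ^ N)) := hs0.cop
    rw [hPy] at h5
    exact (Ideal.isCoprime_span_singleton_iff _ _).1 h5
  have hX := j_XXF A B S.cq T (p * f) ι R (f * l ^ N) hm2 hcop D h hs hG
  have h5 := (hX.1 τφ R.i0 y h4).2 h3
  have h6 := hχ τφ _ h5
  rw [hone, inv_one, Units.val_one] at h6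
  dsimp only at h6
  set x := (Quotient.out (Ideal.Quotient.mk (idl (A := A) (B := B) (f * l ^ N)) y)) with hx
  have hxy : x - y ∈ idl (A := A) (B := B) (f * l ^ N) := by
    rw [← Ideal.Quotient.mk_eq_mk_iff_sub_mem]
    exact Ideal.Quotient.mk_out _
  have hth : thT R kp eta ψ R.i0 x = thT R kp eta ψ R.i0 y := by
    unfold thT
    have e1 : eta x = eta y := by
      apply hC.per
      have h7 : (idl (f * l ^ N) : Ideal (OO A B)) ≤ idl f := by
        rw [Ideal.span_singleton_le_span_singleton]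
        push_cast
        exact Dvd.intro _ rfl
      exact h7 hxy
    have e2 : ((nm x * nI (R.b R.i0) : ℤ) : ZMod (l ^ N)) =
        ((nm y * nI (R.b R.i0) : ℤ) : ZMod (l ^ N)) := by
      rw [ZMod.intCast_eq_intCast_iff_dvd_sub]
      have h8 : ((l ^ N : ℕ) : ℤ) ∣ nm x - nm y :=
        (by push_cast; exact Dvd.intro_left _ rfl : ((l ^ N : ℕ) : ℤ) ∣ ((f * l ^ N : ℕ) : ℤ)).trans
          (nm_per hxy)
      have h9 : nm y * (nI (R.b R.i0) : ℤ) - nm x * (nI (R.b R.i0) : ℤ) =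
        (nm x - nm y) * (-(nI (R.b R.i0) : ℤ)) := by ring
      rw [h9]
      exact h8.mul_right _
    rw [e1, e2]
  rw [hth] at h6
  unfold rsd at h6
  split_ifs at h6 with hmem
  · have h10 : IsLocalRing.residue V (1 - ⟨thT R kp eta ψ R.i0 y, hmem⟩) = 0 := by
      rw [map_sub, map_one, h6, sub_self]
    rw [IsLocalRing.residue_eq_zero_iff] at h10
    have h11 := (ValuationSubring.valuation_lt_one_iff V _).1 h10
    have h12 : (((1 - ⟨thT R kp eta ψ R.i0 y, hmem⟩ : V) : V) : ℂ) =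
      1 - thT R kp eta ψ R.i0 y := rfl
    rw [h12, hv] at h11
    exact lt_irrefl _ h11
  · exact zero_ne_one h6

end

end Pool.Agent.TWI


end

section

/-!
# TWI, block B, module SIGI: the sum over the Galois group in terms of `SDTI`
-/

set_option autoImplicit false

open WeierstrassCurve Polynomial NumberField IsDedekindDomain

namespace Pool.Agent.TWI

open _root_.MU3 Pool.Agent.MU3A Pool.Agent.MU3B Pool.Agent.MU3C Pool.Agent.RI Pool.Agent.RID
open Pool.Agent.MUX Pool.Agent.MUXU Pool.Agent.MUXW Pool.Agent.TWT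
open Pool.Agent.MU3V (cls Sub GD algDF)
open Pool.Agent.MUXV (GR InK tX)
open Pool.Agent.MUXI (IA RE AR)
open OnePoint

noncomputable section

namespace SIGI

variable {A B : ℤ}

lemma emb_neg_one : emb (-1 : OO A B) = -1 := by
  rw [Pool.Agent.TWT.SIG.emb_neg']
  simp only [emb, QuadraticAlgebra.re_one, QuadraticAlgebra.im_one]
  push_cast
  ring

lemma w_neg_one {p : ℕ} {P : Ideal (OO A B)} {V : ValuationSubring ℂ} {w : OO A B → ℂ}
    (hw : TeiI p P V w) (h2 : V.valuation (2 : ℂ) = 1) : w (-1) = -1 := by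
  have h1 : w (-1) * w (-1) = 1 := by
    rw [← hw.mul, neg_mul_neg, one_mul, hw.one]
  have h3 : (w (-1) - 1) * (w (-1) + 1) = 0 := by linear_combination h1
  rcases mul_eq_zero.1 h3 with h | h
  · exfalso
    have h4 := hw.red (-1)
    have h6 : w (-1) = 1 := by linear_combination h
    rw [h6, emb_neg_one] at h4
    have h7 : (1 : ℂ) - (-1) = 2 := by ring
    rw [h7, h2] at h4
    exact lt_irrefl _ h4
  · linear_combination h

lemma w_neg {p : ℕ} {P : Ideal (OO A B)} {V : ValuationSubring ℂ} {w : OO A B → ℂ}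
    (hw : TeiI p P V w) (h2 : V.valuation (2 : ℂ) = 1) (x : OO A B) : w (-x) = -w x := by
  rw [← neg_one_mul, hw.mul, w_neg_one hw h2, neg_one_mul]

end SIGI

open _root_.Pool.Agent.TWI.SIGI in
theorem t_SIGI (h1 : S_IDPI) (h2 : S_VPGI) (h4 : S_CNTI) : S_SIGI := by
  intro p A B P V f hS hT ι _ R w hw kp eta hC l N hl hlf ψ hψ x0 hx0 hx1 T hTr a ha1 hacop _ I X
    hhit
  obtain ⟨-, -, -, id4, -, id6, id7⟩ := h1 p A B P V f hS
  obtain ⟨-, -, -, -, vp5, -, -⟩ := h2 p A B P V f hS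
  have hp0 : p ≠ 0 := hS.pp.ne_zero
  have hl0 : l ^ N ≠ 0 := pow_ne_zero _ hl.ne_zero
  have hm0 : f * l ^ N ≠ 0 := mul_ne_zero hS.f0 hl0
  have hM0 : f * l ^ N * p ≠ 0 := mul_ne_zero hm0 hp0
  have hM3 : 3 ≤ f * l ^ N * p := by
    have h5 := hS.p5
    have h6 : 1 * p ≤ f * l ^ N * p := Nat.mul_le_mul_right _ (Nat.one_le_iff_ne_zero.2 hm0)
    omega
  have hpl : ¬ p ∣ l := fun h => hS.fp (h.trans hlf)
  have hpm : ¬ p ∣ f * l ^ N := by
    intro h
    rcases (Nat.Prime.dvd_mul hS.pp).1 h with h | h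
    · exact hS.fp h
    · exact hpl (hS.pp.dvd_of_dvd_pow h)
  have hcopi : ∀ i, (nI (R.b i)).Coprime (f * l ^ N * p) := by
    intro i
    have h5 := R.cop i
    have h6 : (nI (R.b i)).Coprime p := Nat.Coprime.coprime_mul_right_right h5
    have h7 : (nI (R.b i)).Coprime f := Nat.Coprime.coprime_mul_left_right h5
    have h8 : (nI (R.b i)).Coprime l := Nat.Coprime.coprime_dvd_right hlf h7
    exact Nat.Coprime.mul_right (Nat.Coprime.mul_right h7 (Nat.Coprime.pow_right _ h8)) h6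
  have hpP : ((p : ℕ) : OO A B) ∈ P := by
    rw [hS.eP]
    exact Ideal.mem_span_singleton_self _
  have hMP : idl (A := A) (B := B) (f * l ^ N * p) ≤ P := by
    rw [Ideal.span_singleton_le_iff_mem, Nat.cast_mul]
    exact Ideal.mul_mem_left _ _ hpP
  -- the function
  let G : ι → OO A B → ℂ := fun i x => muX R i *
    (thT R kp eta ψ i x * w x * dlX (R.L i) a (pt R (f * l ^ N * p) i x))
  have hsdt : ∑ i, sumMod ((f * l ^ N * p : ℕ) : OO A B) (G i) =
      SDTI R (f * l ^ N * p) a (thT R kp eta ψ) w := by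
    unfold SDTI
    refine Finset.sum_congr rfl fun i _ => ?_
    exact Pool.Agent.MUXI.TSH.sumMod_cmul _ _
  have hcnt : ∀ c ∈ T, 2 * ∑ σ : GalF A B (f * l ^ N * p),
      G (I σ) (X σ * (x0 + c * (f * l ^ N : ℕ))) =
      SDTI R (f * l ^ N * p) a (thT R kp eta ψ) w := by
    intro c hc
    rw [← hsdt]
    refine h4 A B hS.cq hT (p * f) ι R (f * l ^ N * p) hM3 hcopi G ?_ ?_ ?_
      (x0 + c * (f * l ^ N : ℕ)) (id6 (f * l ^ N) x0 hm0 hpm hx0 hx1 c (hTr.nz c hc)).1 I X hhit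
    · intro i x y hxy
      have e1 := Pool.Agent.TWT.SIG.th_per hC ψ (m := f * l ^ N * p) (by
        rw [mul_assoc]; exact dvd_mul_right _ _) (by
        rw [mul_comm f, mul_assoc]; exact dvd_mul_right _ _) i hxy
      have e3 := hw.per x y (hMP hxy)
      have e4 := ((j_PTP A B hS.cq (p * f) ι R (f * l ^ N * p) hM0 i).1 x y hxy).2.2 a
      simp only [G]
      rw [e1, e3, e4]
    · intro i x
      simp only [G]
      rw [Pool.Agent.TWT.SIG.th_neg hC, w_neg hw vp5, Pool.Agent.TWT.SIG.pt_neg,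
        Pool.Agent.TWT.SIG.dlX_neg]
      ring
    · intro i x hx
      simp only [G]
      by_cases he : eta x = 0
      · unfold thT
        rw [he]
        ring
      by_cases hxP : x ∈ P
      · rw [(hw.zero x).2 hxP]
        ring
      exact absurd (id7 l N hlf x ((hC.supp x).1 he) hxP) hx
  -- the values of `G`
  have hG' : ∀ σ : GalF A B (f * l ^ N * p), ∀ c ∈ T,
      G (I σ) (X σ * (x0 + c * (f * l ^ N : ℕ))) =
        thT R kp eta ψ (I σ) (X σ) * (muX R (I σ) * (w (X σ * (x0 + c * (f * l ^ N : ℕ))) *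
          dlX (R.L (I σ)) a (pt R (f * l ^ N * p) (I σ)
            (X σ * (x0 + c * (f * l ^ N : ℕ)))))) := by
    intro σ c hc
    have e1 : thT R kp eta ψ (I σ) (X σ * (x0 + c * (f * l ^ N : ℕ))) =
        thT R kp eta ψ (I σ) (X σ) := by
      refine Pool.Agent.TWT.SIG.th_per hC ψ (m := f * l ^ N) (dvd_mul_right _ _)
        (dvd_mul_left _ _) _ ?_
      have h5 : X σ * (x0 + c * (f * l ^ N : ℕ)) - X σ =
          X σ * (x0 + c * (f * l ^ N : ℕ) - 1) := by ring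
      rw [h5]
      exact Ideal.mul_mem_left _ _ (id6 (f * l ^ N) x0 hm0 hpm hx0 hx1 c (hTr.nz c hc)).2
    simp only [G]
    rw [e1]
    ring
  have hcard : ((T.card : ℕ) : ℂ) = (p : ℂ) ^ 2 - 1 := by
    rw [id4 T hTr, Nat.cast_sub (Nat.one_le_iff_ne_zero.2 (pow_ne_zero _ hp0))]
    push_cast
    ring
  have hsum : ∑ c ∈ T, 2 * ∑ σ : GalF A B (f * l ^ N * p),
      G (I σ) (X σ * (x0 + c * (f * l ^ N : ℕ))) =
      ((p : ℂ) ^ 2 - 1) * SDTI R (f * l ^ N * p) a (thT R kp eta ψ) w := by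
    rw [Finset.sum_congr rfl hcnt, Finset.sum_const, nsmul_eq_mul, hcard]
  rw [← hsum, ← Finset.mul_sum, Finset.sum_comm]
  congr 1
  refine Finset.sum_congr rfl fun σ _ => ?_
  rw [Finset.sum_congr rfl fun c hc => hG' σ c hc, ← Finset.mul_sum, ← Finset.mul_sum]

end

end Pool.Agent.TWI


end

section

/-!
# TWI, block B, assembly, part 2 (helper59): the valuations
-/

set_option autoImplicit false

open WeierstrassCurve Polynomial NumberField IsDedekindDomain

namespace Pool.Agent.TWI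

open _root_.MU3 Pool.Agent.MU3A Pool.Agent.MU3B Pool.Agent.MU3C Pool.Agent.RI Pool.Agent.RID
open Pool.Agent.MUX Pool.Agent.MUXU Pool.Agent.MUXW Pool.Agent.TWT
open Pool.Agent.TWT.CRB
open Pool.Agent.MU3V (cls Sub GD algDF)
open Pool.Agent.MUXV (GR InK tX)
open Pool.Agent.MUXI (IA RE AR)
open OnePoint

noncomputable section

namespace CRBI

theorem partB (hKUM : S_KUM) (hPRO : PROG) (hRSF : S_RSF)
    (p : ℕ) [Fact p.Prime] (A B : ℤ) (V : ValuationSubring ℂ) (hT : TorX A B)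
    (hv1 : V.valuation (p : ℂ) < 1) (hv0 : V.valuation (p : ℂ) ≠ 0)
    (m : ℕ) (hunr : ∀ y ∈ (RF (idl m) : IntermediateField (kk A B) ℂ), y ≠ 0 →
      ∃ k : ℤ, V.valuation y = V.valuation (p : ℂ) ^ k)
    (D : IntermediateField ℚ ℂ) [FiniteDimensional ℚ D] [FiniteDimensional ℚ (kk A B)]
    (h : kk A B ≤ D) (hs : Sub D (RF (idl m) : IntermediateField (kk A B) ℂ)) :
    letI := algC h
    ∀ (χ : (D ≃ₐ[kk A B] D) →* (IsLocalRing.ResidueField V)ˣ)
      (u : (RF (idl (m * p)) : IntermediateField (kk A B) ℂ))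
      (ρ : GalF A B (m * p) → (D ≃ₐ[kk A B] D)), (∀ σ, Ext1 h (ρ σ) σ) →
    ∀ [Fintype (GalF A B (m * p))] (e th : GalF A B (m * p) → ℂ) (q : ℂ),
      V.valuation (p : ℂ) ^ 2 ≤ V.valuation q → V.valuation q < V.valuation (p : ℂ) →
      (∀ σ, V.valuation (e σ) ≤ V.valuation (p : ℂ)) →
      (∀ σ, V.valuation (((σ u : (RF (idl (m * p)) : IntermediateField (kk A B) ℂ)) : ℂ) - 1 -
        e σ) ≤ V.valuation q) →
      (∀ σ, rsd V (th σ) = (((χ (ρ σ))⁻¹ : (IsLocalRing.ResidueField V)ˣ) :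
        IsLocalRing.ResidueField V)) →
      (∀ t : (IsLocalRing.ResidueField V) →+ ZMod p, ∃ y : D, ((y ^ p : D) : ℂ) =
        ∏ τ : D ≃ₐ[kk A B] D,
          cWt h u τ ^ (t ((χ τ)⁻¹ : (IsLocalRing.ResidueField V)ˣ)).val) →
      V.valuation (∑ σ, th σ * e σ) < V.valuation (p : ℂ) := by
  let _ := algC h
  intro χ u ρ hρ _ e th q hq2 hq1 he hu hth hpow
  classical
  have hp : p.Prime := Fact.out
  have hp0 : (p : ℂ) ≠ 0 := by exact_mod_cast hp.ne_zero
  haveI := charP_res V p hv1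
  have hsF := Pool.Agent.TWT.CRA.subF hT m p hs
  -- the elements `e σ / p`
  have hdiv : ∀ x : ℂ, V.valuation (x / p) = V.valuation x / V.valuation (p : ℂ) :=
    fun x => map_div₀ _ _ _
  have heV : ∀ σ, e σ / p ∈ V := by
    intro σ
    rw [← ValuationSubring.valuation_le_one_iff, hdiv]
    exact div_le_one_of_le₀ (he σ) zero_le
  let eV : GalF A B (m * p) → V := fun σ => ⟨e σ / p, heV σ⟩
  have hthne : ∀ σ, rsd V (th σ) ≠ 0 := by
    intro σ
    rw [hth σ]
    exact Units.ne_zero _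
  choose hthV hthr using fun σ => rsd_ne V (hthne σ)
  let tV : GalF A B (m * p) → V := fun σ => ⟨th σ, hthV σ⟩
  have key : ∀ g : GalF A B (m * p) → V, (∑ σ, IsLocalRing.residue V (g σ) *
      IsLocalRing.residue V (eV σ) = 0 ↔
      V.valuation (∑ σ, (g σ : ℂ) * e σ) < V.valuation (p : ℂ)) := by
    intro g
    have e1 : ∑ σ, IsLocalRing.residue V (g σ) * IsLocalRing.residue V (eV σ) =
        IsLocalRing.residue V (∑ σ, g σ * eV σ) := by
      rw [map_sum]
      exact Finset.sum_congr rfl fun σ _ => (map_mul _ _ _).symm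
    rw [e1, IsLocalRing.residue_eq_zero_iff, ValuationSubring.valuation_lt_one_iff]
    have e2 : ((∑ σ, g σ * eV σ : V) : ℂ) = (∑ σ, (g σ : ℂ) * e σ) / p := by
      rw [Finset.sum_div]
      push_cast
      exact Finset.sum_congr rfl fun σ _ => by rw [mul_div_assoc]
    rw [e2, hdiv, div_lt_one₀ (zero_lt_iff.2 hv0)]
  -- the functionals
  have F1 : ∀ t : (IsLocalRing.ResidueField V) →+ ZMod p,
      V.valuation (∑ σ, (((t ((χ (ρ σ))⁻¹ : (IsLocalRing.ResidueField V)ˣ)).val : ℕ) : ℂ) * e σ) <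
        V.valuation (p : ℂ) := by
    intro t
    set n : (D ≃ₐ[kk A B] D) → ℕ := fun τ =>
      (t ((χ τ)⁻¹ : (IsLocalRing.ResidueField V)ˣ)).val with hn
    obtain ⟨y, hy⟩ := hpow t
    have e1 : (∏ τ : D ≃ₐ[kk A B] D, cWt h u τ ^ n τ) = ∏ σ : GalF A B (m * p),
        ((σ u : (RF (idl (m * p)) : IntermediateField (kk A B) ℂ)) : ℂ) ^ n (ρ σ) := by
      rw [← Finset.prod_fiberwise Finset.univ ρ]
      refine Finset.prod_congr (by congr) fun τ _ => ?_
      rw [cWt_fib h hsF ρ hρ u τ, ← Finset.prod_pow]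
      refine Finset.prod_congr rfl fun σ hσ => ?_
      rw [(Finset.mem_filter.1 hσ).2]
    have e2 := hPRO V (p : ℂ) q hv1 hq2 hq1.le (GalF A B (m * p)) Finset.univ
      (fun σ => ((σ u : (RF (idl (m * p)) : IntermediateField (kk A B) ℂ)) : ℂ)) e
      (fun σ => n (ρ σ)) (fun σ _ => he σ) (fun σ _ => hu σ)
    have e3 : V.valuation (∑ σ : GalF A B (m * p), ((n (ρ σ) : ℕ) : ℂ) * e σ) ≤
        V.valuation (p : ℂ) := by
      refine Valuation.map_sum_le _ fun σ _ => ?_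
      rw [map_mul]
      calc V.valuation ((n (ρ σ) : ℕ) : ℂ) * V.valuation (e σ) ≤ 1 * V.valuation (p : ℂ) :=
            mul_le_mul' (v_nat V _) (he σ)
        _ = V.valuation (p : ℂ) := one_mul _
    have hy' : (y : ℂ) ^ p = ∏ σ : GalF A B (m * p),
        ((σ u : (RF (idl (m * p)) : IntermediateField (kk A B) ℂ)) : ℂ) ^ n (ρ σ) := by
      rw [← e1, ← hy]
      push_cast
      rfl
    rw [← hy'] at e2
    set Sg := ∑ σ : GalF A B (m * p), ((n (ρ σ) : ℕ) : ℂ) * e σ with hSg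
    have e4 : V.valuation ((y : ℂ) ^ p - 1) ≤ V.valuation (p : ℂ) := by
      have : (y : ℂ) ^ p - 1 = ((y : ℂ) ^ p - 1 - Sg) + Sg := by ring
      rw [this]
      exact Valuation.map_add_le _ (e2.trans hq1.le) e3
    have e5 := hKUM V p hp hv1 (y : ℂ) (fun hy0 => hunr
      ((y : ℂ) - 1) (sub_mem (hs y y.2) (one_mem _)) hy0) e4
    have e6 : Sg = ((y : ℂ) ^ p - 1) - ((y : ℂ) ^ p - 1 - Sg) := by ring
    rw [e6]
    exact (Valuation.map_sub_le V.valuation (e5.trans hq2) e2).trans_lt hq1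
  have F2 := hRSF p (IsLocalRing.ResidueField V) (D ≃ₐ[kk A B] D)
    (fun τ => (((χ τ)⁻¹ : (IsLocalRing.ResidueField V)ˣ) : IsLocalRing.ResidueField V))
    (fun τ => ∑ σ ∈ Finset.univ.filter (fun σ => ρ σ = τ), IsLocalRing.residue V (eV σ)) ?_
  · have e1 : ∑ σ, IsLocalRing.residue V (tV σ) * IsLocalRing.residue V (eV σ) = 0 := by
      rw [← F2, ← Finset.sum_fiberwise Finset.univ ρ]
      refine Finset.sum_congr (by congr) fun τ _ => ?_
      rw [Finset.mul_sum]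
      refine Finset.sum_congr rfl fun σ hσ => ?_
      rw [← (Finset.mem_filter.1 hσ).2, ← hth σ, hthr σ]
    exact (key tV).1 e1
  · intro t
    have e1 := (key (fun σ => (((t ((χ (ρ σ))⁻¹ : (IsLocalRing.ResidueField V)ˣ)).val : ℕ) : V))).2
      (by
        refine lt_of_eq_of_lt ?_ (F1 t)
        congr 1)
    rw [← e1, ← Finset.sum_fiberwise Finset.univ ρ]
    refine Finset.sum_congr (by congr) fun τ _ => ?_
    rw [Finset.mul_sum]
    refine Finset.sum_congr rfl fun σ hσ => ?_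
    rw [← (Finset.mem_filter.1 hσ).2, map_natCast]

end CRBI

end

end Pool.Agent.TWI


end

section

/-!
# TWI, block B, assembly, part 3 (helper59): S_CRITI
-/

set_option autoImplicit false

open WeierstrassCurve Polynomial NumberField IsDedekindDomain

namespace Pool.Agent.TWI

open _root_.MU3 Pool.Agent.MU3A Pool.Agent.MU3B Pool.Agent.MU3C Pool.Agent.RI Pool.Agent.RID
open Pool.Agent.MUX Pool.Agent.MUXU Pool.Agent.MUXW Pool.Agent.TWT
open Pool.Agent.MU3V (cls Sub GD algDF)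
open Pool.Agent.MUXV (GR InK tX)
open Pool.Agent.MUXI (IA RE AR)
open OnePoint

noncomputable section

namespace CRITI

theorem f_big {p : ℕ} {A B : ℤ} {P : Ideal (OO A B)} {V : ValuationSubring ℂ} {f : ℕ}
    (hS : SetI p A B P V f) : 3 ≤ f := by
  have h1 : 2 * absD A B ∣ (f : ℤ) := hS.fD
  have h2 : 3 ≤ absD A B := by
    have h3 := hS.cq.neg
    unfold absD
    rcases hS.cq.hB with h4 | h4 <;> rw [h4] at h3 ⊢ <;> omega
  have h5 : (0 : ℤ) < f := by
    have := hS.f0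
    omega
  have h6 := Int.le_of_dvd h5 h1
  omega

theorem main (hIDP : S_IDPI) (hVPG : S_VPGI) (hUNRG : S_UNRGI) (hMUG : S_MUGI) (hKUM : S_KUM)
    (hPRO : CRB.PROG) (hRSF : S_RSF) (hEAB : S_EAB) (hEABE : S_EABE) (hNMF : S_NMF)
    (hHTF : S_HTF) (hNRR : S_NRRI) (hXPC : S_XPCI) (hSIG : S_SIGI) (hSDE : S_SDEI)
    (hPHI : S_PHII) : S_CRITI := by
  intro p _ A B P V f hS hT ι _ R hG w hw kp eta hC l N hl hlf ψ hψ a ha1 hac hfac hy1 H hH θ hθ
    D _ _ h hs
  let _ := algC h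
  intro χ hχ hg c₀ hc₀ hbig
  by_contra hcon
  push Not at hcon
  have hp : p.Prime := Fact.out
  have hf0 := hS.f0
  have hpl : ¬ p ∣ l := by
    intro h1
    exact hS.fp (h1.trans hlf)
  have hm0 : f * l ^ N ≠ 0 := mul_ne_zero hf0 (pow_ne_zero _ hl.ne_zero)
  have hpm : ¬ p ∣ f * l ^ N := by
    intro h1
    rcases (hp.dvd_mul).1 h1 with h2 | h2
    · exact hS.fp h2
    · exact hpl (hp.dvd_of_dvd_pow h2)
  have hmp0 : f * l ^ N * p ≠ 0 := mul_ne_zero hm0 hp.ne_zero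
  have hLv : LvM p f (f * l ^ N) R := by
    refine ⟨hm0, Dvd.intro _ rfl, hpm, fun i => ?_⟩
    have h1 := R.cop i
    have h2 : (nI (R.b i)).Coprime p := Nat.Coprime.coprime_dvd_right (Dvd.intro _ rfl) h1
    have h3 : (nI (R.b i)).Coprime f := Nat.Coprime.coprime_dvd_right (Dvd.intro_left _ rfl) h1
    have h4 : (nI (R.b i)).Coprime l := Nat.Coprime.coprime_dvd_right hlf h3
    exact Nat.Coprime.mul_right (Nat.Coprime.mul_right h3 (h4.pow_right N)) h2
  have hac2 : a.Coprime (2 * (f * l ^ N) * p) := by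
    have h2 : a.Coprime 2 := Nat.Coprime.coprime_dvd_right ⟨3 * f * p, by ring⟩ hac
    have h3 : a.Coprime f := Nat.Coprime.coprime_dvd_right ⟨6 * p, by ring⟩ hac
    have h4 : a.Coprime p := Nat.Coprime.coprime_dvd_right ⟨6 * f, by ring⟩ hac
    have h5 : a.Coprime l := Nat.Coprime.coprime_dvd_right hlf h3
    exact Nat.Coprime.mul_right (Nat.Coprime.mul_right h2
      (Nat.Coprime.mul_right h3 (h5.pow_right N))) h4
  have hf3 := f_big hS
  have hm3 : 3 ≤ f * l ^ N := hf3.trans (Nat.le_mul_of_pos_right f (pow_pos hl.pos N))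
  have hM3 : 3 ≤ f * l ^ N * p := hm3.trans (Nat.le_mul_of_pos_right _ hp.pos)
  obtain ⟨i1, i2, ⟨T, hTr⟩, i4, i5, i6, i7⟩ := hIDP p A B P V f hS
  obtain ⟨x0, hx0, hx01⟩ := (i5 (f * l ^ N) hpm).2
  have hTc := i4 T hTr
  obtain ⟨hv1, hv0, -, -, -, -, -⟩ := hVPG p A B P V f hS
  obtain ⟨θ'', κ, γ, φ, s₀, hθ'', hθ0, hθ''0, hκ0, hκ1, hγh, hγt, hrel, hIA, hs₀⟩ :=
    hNRR p A B P V f hS hT ι R (f * l ^ N) hLv x0 hx0 hx01 T hTr a H ha1 hac2 hH θ hθ
  have hsF := CRA.subF hT (f * l ^ N) p hs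
  have hfin := hT.fin _ (CRA.idl_ne (A := A) (B := B) hmp0)
  have MEM := ty_MEM A B _ hfin (hT.gal _ (CRA.idl_ne hmp0))
    (hT.comm _ (CRA.idl_ne hmp0)) D h hsF
  obtain ⟨τφ, hτφ⟩ := (MEM θ hθ0).2.2.2.2 φ
  have hExt : ExtC h τφ s₀ := by
    intro y
    have h1 := hs₀ ⟨(y : ℂ), hsF y y.2⟩
    exact h1.trans (hτφ y (hsF y y.2))
  have hχφ := hPHI p A B P V f hS hT ι R kp eta hC l N hl hlf ψ hψ hy1 D h hs χ hχ s₀ τφ
    hIA hExt
  obtain ⟨g, hg1, hgχ⟩ := hg
  haveI := CRB.charP_res V p hv1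
  have hpow := CRAI.partA hNMF hEAB hEABE p A B hS.cq hT (f * l ^ N) hm0 D h hs
    (IsLocalRing.ResidueField V) T χ g hg1 hgχ θ θ'' κ γ φ τφ hθ0 hθ''0 hκ0 hκ1 hγt hrel hτφ hχφ
    c₀ hc₀ hcon
  rw [hTc] at hpow
  -- the points
  obtain ⟨q1, q2, q3, q4, q5, q6⟩ := hHTF A B hS.cq hT (p * f) ι R (f * l ^ N * p) hM3 hLv.cop
  choose I X hIX using q1
  choose ρ hρ using (MEM θ hθ0).2.2.2.2
  obtain ⟨t0, ht00, ht0p, hX⟩ := hXPC p A B P V f hS hT ι R hG (f * l ^ N) hLv x0 hx0 hx01 w hw T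
    hTr
  have hX' := fun σ => hX a H ha1 hac2 hH θ θ'' hθ hθ'' γ hγh σ (I σ) (X σ) (hIX σ)
  letI : Fintype (GalF A B (f * l ^ N * p)) := by
    haveI := hfin
    exact Fintype.ofFinite _
  set S : GalF A B (f * l ^ N * p) → ℂ := fun σ => ∑ c ∈ T,
    w (X σ * (x0 + c * (f * l ^ N : ℕ))) * dlX (R.L (I σ)) a (pt R (f * l ^ N * p) (I σ)
      (X σ * (x0 + c * (f * l ^ N : ℕ)))) with hSdef
  have hp25 : 25 ≤ p ^ 2 := by
    have := hS.p5
    nlinarith
  have hvt1 : V.valuation t0 < 1 := by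
    by_contra h1
    rw [not_lt] at h1
    have h2 := one_le_pow₀ h1 (n := p ^ 2 - 1)
    rw [ht0p] at h2
    exact absurd hv1 (not_lt.2 h2)
  have hvt : V.valuation (p : ℂ) ≤ V.valuation t0 := by
    rw [← ht0p]
    refine pow_le_of_le_one zero_le hvt1.le ?_
    omega
  have hB := CRBI.partB hKUM hPRO hRSF p A B V hT hv1 hv0 (f * l ^ N)
    (hUNRG p A B P V f hS hT ι R hG (f * l ^ N) hm0 hpm) D
    h hs χ ((∏ c ∈ T, γ c θ) / θ'' ^ (p ^ 2 - 1)) ρ hρ
    (fun σ => -(muX R (I σ) * t0 * S σ)) (fun σ => thT R kp eta ψ (I σ) (X σ)) ((p : ℂ) * t0)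
    (by
      rw [map_mul, pow_two]
      exact mul_le_mul' le_rfl hvt)
    (by
      rw [map_mul]
      exact mul_lt_of_lt_one_right (zero_lt_iff.2 hv0) hvt1)
    (fun σ => by
      rw [Valuation.map_neg, map_mul, map_mul, hMUG p A B P V f hS ι R hG, one_mul]
      exact (hX' σ).2)
    (fun σ => by
      rw [map_mul, sub_neg_eq_add]
      exact (hX' σ).1)
    (fun σ => by
      rw [← hχ (ρ σ) _ (q6 (f * l ^ N) (Dvd.intro _ rfl) hm3 D h hs (ρ σ) σ (I σ) (X σ) (hρ σ)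
        (hIX σ))]
      congr 1
      refine Pool.Agent.TWT.CRIT.th_per R hC ψ (I σ) ?_
      rw [← Ideal.Quotient.eq]
      exact (Quotient.out_eq _).symm)
    hpow
  have hSig := hSIG p A B P V f hS hT ι R w hw kp eta hC l N hl hlf ψ hψ x0 hx0 hx01 T hTr a ha1
    hac I X hIX
  have hSde := hSDE p A B P V f hS ι R w hw kp eta hC l N hl hlf ψ a ha1 hac hfac
  rw [← hSde] at hbig
  set Z : ℂ := ∑ σ : GalF A B (f * l ^ N * p), thT R kp eta ψ (I σ) (X σ) *
    (muX R (I σ) * S σ) with hZ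
  have e1 : (∑ σ : GalF A B (f * l ^ N * p), thT R kp eta ψ (I σ) (X σ) *
      -(muX R (I σ) * t0 * S σ)) = -(t0 * Z) := by
    rw [hZ, Finset.mul_sum, ← Finset.sum_neg_distrib]
    exact Finset.sum_congr rfl fun σ _ => by ring
  rw [e1, Valuation.map_neg, map_mul] at hB
  set SD : ℂ := SDTI R (f * l ^ N * p) a (thT R kp eta ψ) w with hSD
  have hq1 : V.valuation ((p : ℂ) ^ 2 - 1) = 1 := by
    have h1 : (p : ℂ) ^ 2 - 1 = -(1 - (p : ℂ) ^ 2) := by ring
    rw [h1, Valuation.map_neg]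
    refine Valuation.map_one_sub_of_lt V.valuation ?_
    rw [map_pow]
    exact pow_lt_one₀ zero_le hv1 two_ne_zero
  have h2v : V.valuation (2 : ℂ) ≤ 1 := by
    have := CRB.v_nat V 2
    simpa using this
  have e2 : V.valuation (t0 * SD) < V.valuation (p : ℂ) := by
    have h1 : V.valuation ((p : ℂ) ^ 2 - 1) * V.valuation SD =
        V.valuation (2 : ℂ) * V.valuation Z := by
      rw [← map_mul, ← map_mul, ← hSig]
    rw [hq1, one_mul] at h1
    rw [map_mul, h1]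
    calc V.valuation t0 * (V.valuation (2 : ℂ) * V.valuation Z)
        ≤ V.valuation t0 * (1 * V.valuation Z) :=
          mul_le_mul' le_rfl (mul_le_mul' h2v le_rfl)
      _ = V.valuation t0 * V.valuation Z := by rw [one_mul]
      _ < V.valuation (p : ℂ) := hB
  have hp1 : p ^ 2 - 1 ≠ 0 := by omega
  have e3 := pow_lt_pow_left₀ e2 zero_le hp1
  rw [map_mul, mul_pow, ht0p] at e3
  have e4 : V.valuation (p : ℂ) ^ (p ^ 2 - 1) =
      V.valuation (p : ℂ) * V.valuation (p : ℂ) ^ (p ^ 2 - 2) := by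
    rw [← pow_succ']
    congr 1
    omega
  rw [e4] at e3
  exact absurd (lt_of_mul_lt_mul_left' e3) (not_lt.2 hbig)

end CRITI

end

end Pool.Agent.TWI


end
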