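import Pool.Agent.TWM.C01
import Pool.Agent.TWM.C08
import Pool.Agent.TWM.C11

/-! Parts: TWF.StE, TWF.URE, TWF.ENDE -/

section

/-!
# TWF: statement of module URE
-/

set_option autoImplicit false

open NumberField IsDedekindDomain

namespace Pool.Agent.TWF

open Pool.Agent.RI

/-- URE: the primes of `F` which ramify in `F E Q`, `Q` a layer of the cyclotomic `ℤ_p`-extension, contain one of
finitely many prime numbers (`p` and those which ramify in `E`).

PROOF. `T = {p} ∪ {q : q divides the discriminant of E}` (or of a polynomial which defines `E`). Let `P` not contain a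
`q ∈ T`, `q` the prime number in `P`. `E / ℚ` is unramified above `q`, so `F E / F` is unramified above `P` (base change),
and `F E Q / F E` is unramified outside `p` (`RAM_thm` of `RI`, see `MAINC.ram_aux` in `RI/MAINC.lean`). The
ramification index is multiplicative in towers. -/
def S_URE : Prop :=
  ∀ (p : ℕ) [Fact p.Prime] (E : IntermediateField ℚ ℂ) [FiniteDimensional ℚ E],
    ∃ T : Finset ℕ, (∀ q ∈ T, q.Prime) ∧
      ∀ (F : IntermediateField ℚ ℂ) [FiniteDimensional ℚ F] (m : ℕ)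
        (Q : IntermediateField ℚ ℂ), IsLayer p m Q → ∀ (h : F ≤ F ⊔ E ⊔ Q) (P : Ideal (𝓞 F)),
        P.IsPrime → P ≠ ⊥ → Ramifies h P → ∃ q ∈ T, (q : 𝓞 F) ∈ P

end Pool.Agent.TWF


end

section

/-!
# TWF, module URE (helper56): the primes which ramify in `F E Q`

`E` is contained in `ℚ(B)`, `B` the set of the complex roots of a monic integral polynomial `g`. Let `N = F(B, ζ)`, `ζ` a
root of unity of order a power of `p`. An element `σ` of the inertia group of a prime `r` of `N` over `F`: `σ b - b ∈ r`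
for `b ∈ B`, so `σ b = b` if `r` does not contain the constant coefficients of the minimal polynomials of the differences
`b' - b ≠ 0`; and `σ ζ = ζ` as in `RI/RAM.lean`.
-/

set_option autoImplicit false

open NumberField IsDedekindDomain Polynomial
open scoped nonZeroDivisors Pointwise

namespace Pool.Agent.TWF

open Pool.Agent.RI

namespace URE

/-- a prime with trivial inertia groups above it is unramified -/
theorem unram {F M N : Type} [Field F] [NumberField F] [Field M] [NumberField M] [Field N]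
    [NumberField N] [Algebra F M] [Algebra M N] [Algebra F N] [IsScalarTower F M N]
    [IsGalois F N] (R : Ideal (𝓞 M)) [R.IsPrime]
    (hR : ∀ r : Ideal (𝓞 N), r.IsPrime → r.LiesOver R → ∀ σ : N ≃ₐ[F] N,
      σ ∈ r.inertia (N ≃ₐ[F] N) → σ = 1) : R.ramificationIdx (𝓞 F) = 1 := by
  obtain ⟨r, hr, hrw⟩ : ∃ r : Ideal (𝓞 N), r.IsPrime ∧ r.LiesOver R := by
    obtain ⟨r⟩ := (inferInstance : Nonempty (R.primesOver (𝓞 N)))
    exact ⟨r.1, r.2.1, r.2.2⟩
  have hin : r.inertia (N ≃ₐ[F] N) = ⊥ := by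
    rw [eq_bot_iff]
    intro σ hσ
    rw [Subgroup.mem_bot]
    exact hR r hr hrw σ hσ
  have h1 : Nat.card (r.inertia (N ≃ₐ[F] N)) = (r.under (𝓞 F)).ramificationIdxIn (𝓞 N) :=
    Ideal.card_inertia_eq_ramificationIdxIn (r.under (𝓞 F)) r
  have h2 : (r.under (𝓞 F)).ramificationIdxIn (𝓞 N) = r.ramificationIdx (𝓞 F) :=
    Ideal.ramificationIdxIn_eq_ramificationIdx (r.under (𝓞 F)) r (N ≃ₐ[F] N)
  have h3 : R.ramificationIdx (𝓞 F) ∣ r.ramificationIdx (𝓞 F) :=
    Ideal.ramificationIdx_below_dvd R r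
  rw [← h2, ← h1, hin, Subgroup.card_bot, Nat.dvd_one] at h3
  exact h3

/-- the constant coefficient of the minimal polynomial of `x` is in every ideal which contains `x` -/
theorem coeff_mem {N : Type} [Field N] [NumberField N] (io : N →+* ℂ) (r : Ideal (𝓞 N))
    (x : 𝓞 N) (hx : x ∈ r) :
    (((minpoly ℤ (io (x : N))).coeff 0 : ℤ) : 𝓞 N) ∈ r := by
  have h1 : aeval x (minpoly ℤ (io (x : N))) = 0 := by
    have h2 : aeval (io (x : N)) (minpoly ℤ (io (x : N))) = 0 := minpoly.aeval _ _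
    let φ : 𝓞 N →+* ℂ := io.comp (algebraMap (𝓞 N) N)
    have hφ : Function.Injective φ := io.injective.comp RingOfIntegers.coe_injective
    apply hφ
    have h3 : φ (aeval x (minpoly ℤ (io (x : N)))) =
        aeval (φ x) (minpoly ℤ (io (x : N))) := by
      rw [aeval_def, aeval_def, hom_eval₂]
      congr 1
      exact RingHom.ext_int _ _
    rw [h3, map_zero]
    exact h2
  have h2 := Polynomial.divX_mul_X_add (minpoly ℤ (io (x : N)))
  have h3 := congrArg (aeval x) h2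
  rw [map_add, map_mul, aeval_X, aeval_C, h1] at h3
  have h4 : (((minpoly ℤ (io (x : N))).coeff 0 : ℤ) : 𝓞 N) =
      -(aeval x (minpoly ℤ (io (x : N))).divX * x) := by
    have h5 : (algebraMap ℤ (𝓞 N)) ((minpoly ℤ (io (x : N))).coeff 0) =
        (((minpoly ℤ (io (x : N))).coeff 0 : ℤ) : 𝓞 N) := rfl
    rw [h5] at h3
    linear_combination h3
  rw [h4]
  exact r.neg_mem (r.mul_mem_left _ hx)

/-- a prime ideal which contains an integer `a ≠ 0` contains a prime factor of `a` -/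
theorem prime_mem {S : Type} [CommRing S] (r : Ideal S) (hr : r.IsPrime) (a : ℤ) (ha : a ≠ 0)
    (h : ((a : ℤ) : S) ∈ r) : ∃ q ∈ a.natAbs.primeFactors, ((q : ℕ) : S) ∈ r := by
  have h1 : ((a.natAbs : ℕ) : S) ∈ r := by
    rcases Int.natAbs_eq a with h2 | h2
    · have h3 : ((a : ℤ) : S) = (((a.natAbs : ℕ) : ℤ) : S) := by rw [← h2]
      rw [h3, Int.cast_natCast] at h
      exact h
    · have h3 : ((a : ℤ) : S) = ((-((a.natAbs : ℕ) : ℤ) : ℤ) : S) := by rw [← h2]
      rw [h3, Int.cast_neg, Int.cast_natCast] at h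
      have h4 := r.neg_mem h
      rw [neg_neg] at h4
      exact h4
  have hn : a.natAbs ≠ 0 := Int.natAbs_ne_zero.2 ha
  generalize a.natAbs = n at h1 hn
  induction n using Nat.strong_induction_on with
  | _ n ih =>
    by_cases h2 : n = 1
    · rw [h2, Nat.cast_one] at h1
      exact absurd ((Ideal.eq_top_iff_one _).2 h1) hr.ne_top
    · obtain ⟨q, hq, k, hk⟩ := Nat.exists_prime_and_dvd h2
      rw [hk, Nat.cast_mul] at h1
      rcases hr.mem_or_mem h1 with h3 | h3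
      · exact ⟨q, Nat.mem_primeFactors.2 ⟨hq, ⟨k, hk⟩, hn⟩, h3⟩
      · have hk0 : k ≠ 0 := by
          rintro rfl
          exact hn (by rw [hk, mul_zero])
        have hkn : k < n := by
          rw [hk]
          have := hq.two_le
          nlinarith [Nat.pos_of_ne_zero hk0]
        obtain ⟨q', hq', h4⟩ := ih k hkn h3 hk0
        exact ⟨q', Nat.primeFactors_mono ⟨q, by rw [hk, mul_comm]⟩ hn hq', h4⟩

/-- the elements of `N` fixed by `σ`, as a subfield of `ℂ` -/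
def fixC {F N : IntermediateField ℚ ℂ} [Algebra F N] (σ : N ≃ₐ[F] N) : IntermediateField ℚ ℂ where
  carrier := {z | ∃ h : z ∈ N, σ ⟨z, h⟩ = ⟨z, h⟩}
  mul_mem' := by
    rintro a b ⟨ha, ha'⟩ ⟨hb, hb'⟩
    refine ⟨mul_mem ha hb, ?_⟩
    have : (⟨a * b, mul_mem ha hb⟩ : N) = ⟨a, ha⟩ * ⟨b, hb⟩ := rfl
    rw [this, map_mul, ha', hb']
  add_mem' := by
    rintro a b ⟨ha, ha'⟩ ⟨hb, hb'⟩
    refine ⟨add_mem ha hb, ?_⟩
    have : (⟨a + b, add_mem ha hb⟩ : N) = ⟨a, ha⟩ + ⟨b, hb⟩ := rfl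
    rw [this, map_add, ha', hb']
  algebraMap_mem' := by
    intro r
    refine ⟨N.algebraMap_mem r, ?_⟩
    have : (⟨algebraMap ℚ ℂ r, N.algebraMap_mem r⟩ : N) = (r : N) := by
      apply Subtype.ext; simp
    rw [this, map_ratCast]
  inv_mem' := by
    rintro a ⟨ha, ha'⟩
    refine ⟨inv_mem ha, ?_⟩
    have : (⟨a⁻¹, inv_mem ha⟩ : N) = (⟨a, ha⟩ : N)⁻¹ := rfl
    rw [this, map_inv₀, ha']

/-- an integral element which generates `E` -/
theorem prim (E : IntermediateField ℚ ℂ) [FiniteDimensional ℚ E] :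
    ∃ a : ℂ, IsIntegral ℤ a ∧ E ≤ IntermediateField.adjoin ℚ {a} := by
  obtain ⟨α, hα⟩ := @Field.exists_primitive_element ℚ E _ _ (IntermediateField.algebra' E) _ _
  have hα2 : E = IntermediateField.adjoin ℚ {(α : ℂ)} := by
    have h1 := IntermediateField.lift_adjoin_simple (F := ℚ) E α
    rw [hα, IntermediateField.lift_top] at h1
    exact h1
  have hαi : IsIntegral ℚ (α : ℂ) := (IsIntegral.of_finite ℚ α).map E.val
  obtain ⟨d, hd, hdi⟩ : ∃ d : ℤ, d ≠ 0 ∧ IsIntegral ℤ ((d : ℂ) * α) := by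
    have h1 : IsAlgebraic ℤ (α : ℂ) :=
      (IsFractionRing.isAlgebraic_iff ℤ ℚ ℂ).2 hαi.isAlgebraic
    obtain ⟨d, hd, h2⟩ := h1.exists_integral_multiple
    refine ⟨d, hd, ?_⟩
    rw [zsmul_eq_mul] at h2
    exact h2
  refine ⟨(d : ℂ) * α, hdi, hα2.le.trans ?_⟩
  rw [IntermediateField.adjoin_simple_le_iff]
  have h1 : (d : ℂ) * α ∈ IntermediateField.adjoin ℚ {(d : ℂ) * α} :=
    IntermediateField.mem_adjoin_simple_self ℚ _
  have h2 : (d : ℂ)⁻¹ * ((d : ℂ) * α) = (α : ℂ) := by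
    rw [← mul_assoc, inv_mul_cancel₀ (Int.cast_ne_zero.2 hd), one_mul]
  have h3 : (d : ℂ)⁻¹ * ((d : ℂ) * α) ∈ IntermediateField.adjoin ℚ {(d : ℂ) * α} :=
    mul_mem (inv_mem (intCast_mem _ d)) h1
  rw [h2] at h3
  exact h3

/-- the ramification index of a prime of `M`, `F ≤ M ≤ F ⊔ K₁`, `K₁ / ℚ` Galois generated by a set `S` -/
theorem core (F M K₁ : IntermediateField ℚ ℂ) [FiniteDimensional ℚ F] [FiniteDimensional ℚ K₁]
    [IsGalois ℚ K₁] (h : F ≤ M) (hM : M ≤ F ⊔ K₁) (S : Set ℂ)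
    (hS : K₁ = IntermediateField.adjoin ℚ S) (R : Ideal (𝓞 M)) [R.IsPrime]
    (hR : letI := algC (h.trans hM)
      letI := algC hM
      ∀ r : Ideal (𝓞 ↥(F ⊔ K₁)), r.IsPrime → r.LiesOver R →
      ∀ σ : ↥(F ⊔ K₁) ≃ₐ[F] ↥(F ⊔ K₁), σ ∈ r.inertia (↥(F ⊔ K₁) ≃ₐ[F] ↥(F ⊔ K₁)) →
      ∀ z ∈ S, ∀ hz : z ∈ F ⊔ K₁, σ ⟨z, hz⟩ = ⟨z, hz⟩) :
    letI := algC h
    R.ramificationIdx (𝓞 F) = 1 := by
  have hfN : FiniteDimensional ℚ ↥(F ⊔ K₁) := IntermediateField.finiteDimensional_sup F K₁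
  have hfM : FiniteDimensional ℚ M := FiniteDimensional.of_injective
    (IntermediateField.inclusion hM).toLinearMap (IntermediateField.inclusion hM).toRingHom.injective
  have hbot : IsGalois ↥(⊥ : IntermediateField ℚ ℂ)
      (IntermediateField.extendScalars (bot_le : (⊥ : IntermediateField ℚ ℂ) ≤ K₁)) := by
    let e : K₁ ≃ₐ[ℚ] (IntermediateField.extendScalars
        (bot_le : (⊥ : IntermediateField ℚ ℂ) ≤ K₁)) :=
      { toFun := fun x => ⟨x.1, x.2⟩
        invFun := fun x => ⟨x.1, x.2⟩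
        left_inv := fun _ => rfl
        right_inv := fun _ => rfl
        map_mul' := fun _ _ => rfl
        map_add' := fun _ _ => rfl
        commutes' := fun _ => rfl }
    have : IsGalois ℚ (IntermediateField.extendScalars
        (bot_le : (⊥ : IntermediateField ℚ ℂ) ≤ K₁)) := IsGalois.of_algEquiv e
    exact IsGalois.tower_top_of_isGalois ℚ _ _
  have h1 := (BCH_thm.1 ⊥ K₁ F F (F ⊔ K₁) bot_le le_sup_left (bot_sup_eq F).symm
    (sup_comm F K₁) hbot).1
  let : Algebra F M := algC h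
  let : Algebra M ↥(F ⊔ K₁) := algC hM
  let : Algebra F ↥(F ⊔ K₁) := algC (h.trans hM)
  have : IsScalarTower F M ↥(F ⊔ K₁) := towerC h hM
  have : IsGalois F ↥(F ⊔ K₁) := (isGalois_algC (h.trans hM)).2 h1
  refine unram (F := F) (M := M) (N := ↥(F ⊔ K₁)) R ?_
  intro r hr hrR σ hσ
  have h2 := hR r hr hrR σ hσ
  have h3 : F ⊔ K₁ ≤ fixC σ := by
    refine sup_le ?_ ?_
    · intro z hz
      exact ⟨(le_sup_left : F ≤ F ⊔ K₁) hz, σ.commutes ⟨z, hz⟩⟩
    · refine hS.le.trans ?_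
      rw [IntermediateField.adjoin_le_iff]
      intro z hz
      have hz2 : z ∈ F ⊔ K₁ := by
        apply (le_sup_right : K₁ ≤ F ⊔ K₁)
        rw [hS]
        exact IntermediateField.subset_adjoin ℚ S hz
      exact ⟨hz2, h2 z hz hz2⟩
  apply AlgEquiv.ext
  intro x
  obtain ⟨_, h4⟩ := h3 x.2
  exact h4

/-- the splitting field of `g · (X ^ n - 1)` -/
theorem splitf (g : ℤ[X]) (hg : g.Monic) (n : ℕ) (hn : 0 < n) :
    ∃ (K₁ : IntermediateField ℚ ℂ) (S : Set ℂ), FiniteDimensional ℚ K₁ ∧ IsGalois ℚ K₁ ∧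
      K₁ = IntermediateField.adjoin ℚ S ∧ ∀ z : ℂ, z ∈ S ↔ (aeval z g = 0 ∨ z ^ n = 1) := by
  set f : ℚ[X] := g.map (algebraMap ℤ ℚ) * (X ^ n - C 1) with hf
  have hf0 : f ≠ 0 := mul_ne_zero (hg.map _).ne_zero (monic_X_pow_sub_C (1 : ℚ) hn.ne').ne_zero
  have hsp : IsSplittingField ℚ (IntermediateField.adjoin ℚ (f.rootSet ℂ)) f :=
    IntermediateField.adjoin_rootSet_isSplittingField (IsAlgClosed.splits _)
  refine ⟨IntermediateField.adjoin ℚ (f.rootSet ℂ), f.rootSet ℂ,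
    IsSplittingField.finiteDimensional _ f, ?_, rfl, ?_⟩
  · have h1 : Normal ℚ (IntermediateField.adjoin ℚ (f.rootSet ℂ)) :=
      Normal.of_isSplittingField f
    exact isGalois_iff.2 ⟨inferInstance, h1⟩
  · intro z
    rw [mem_rootSet, hf, map_mul, mul_eq_zero, aeval_map_algebraMap, ← hf]
    have h2 : aeval z (X ^ n - C (1 : ℚ)) = z ^ n - 1 := by simp
    rw [h2, sub_eq_zero]
    exact ⟨fun h => h.2, fun h => ⟨hf0, h⟩⟩

/-- an element of the inertia group of a prime not above `p` fixes the roots of unity of order a power of `p` -/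
theorem rou {F N : Type} [Field F] [NumberField F] [Field N] [NumberField N] [Algebra F N]
    (p m : ℕ) [hp : Fact p.Prime] (r : Ideal (𝓞 N)) (hr : r.IsPrime) (hpr : (p : 𝓞 N) ∉ r)
    (σ : N ≃ₐ[F] N) (hσ : σ ∈ r.inertia (N ≃ₐ[F] N)) (ζ : N) (hζ : ζ ^ (p ^ m) = 1) :
    σ ζ = ζ := by
  have hmpos : 0 < p ^ m := pow_pos hp.out.pos m
  have hint : IsIntegral ℤ ζ := ⟨Polynomial.X ^ (p ^ m) - 1,
    Polynomial.monic_X_pow_sub_C 1 hmpos.ne', by simp [hζ]⟩
  obtain ⟨z, hz⟩ : ∃ z : 𝓞 N, (z : N) = ζ := ⟨⟨ζ, hint⟩, rfl⟩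
  have hzp : z ^ (p ^ m) = 1 := by
    apply RingOfIntegers.ext
    have h3 : ((z ^ (p ^ m) : 𝓞 N) : N) = (z : N) ^ (p ^ m) := map_pow (algebraMap (𝓞 N) N) z _
    rw [h3, hz, hζ]
    exact (map_one (algebraMap (𝓞 N) N)).symm
  have h4 : z ^ (p ^ m - 1) * z = 1 := by
    rw [← pow_succ, Nat.sub_add_cancel hmpos, hzp]
  have h5 : σ • z - z ∈ r := hσ z
  have h6 : σ • z * z ^ (p ^ m - 1) = 1 := by
    refine RAM.eq_one_of_mem r p m hpr _ ?_ ?_
    · rw [mul_pow, ← smul_pow', hzp, smul_one, one_mul, ← pow_mul, mul_comm, pow_mul, hzp,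
        one_pow]
    · have h7 : σ • z * z ^ (p ^ m - 1) - 1 = z ^ (p ^ m - 1) * (σ • z - z) := by
        rw [mul_sub, h4, mul_comm]
      rw [h7]
      exact r.mul_mem_left _ h5
  have h7 : σ • z = z := by
    calc σ • z = σ • z * (z ^ (p ^ m - 1) * z) := by rw [h4, mul_one]
      _ = (σ • z * z ^ (p ^ m - 1)) * z := by ring
      _ = z := by rw [h6, one_mul]
  have h9 := congrArg (fun y : 𝓞 N => (y : N)) h7
  have h10 : ((σ • z : 𝓞 N) : N) = σ (z : N) := rfl
  simp only [h10, hz] at h9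
  exact h9

/-- an element of the inertia group fixes the roots of `g` if the prime does not contain the prime factors of the
constant coefficients of the minimal polynomials of the differences -/
theorem rooto {F N : Type} [Field F] [NumberField F] [Field N] [NumberField N] [Algebra F N]
    (io : N →+* ℂ) (g : ℤ[X]) (hg : g.Monic) (r : Ideal (𝓞 N)) (hr : r.IsPrime)
    (hT : ∀ b b' : ℂ, aeval b g = 0 → aeval b' g = 0 →
      ∀ q ∈ ((minpoly ℤ (b' - b)).coeff 0).natAbs.primeFactors, ((q : ℕ) : 𝓞 N) ∉ r)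
    (σ : N ≃ₐ[F] N) (hσ : σ ∈ r.inertia (N ≃ₐ[F] N)) (z : N) (hz : aeval (io z) g = 0) :
    σ z = z := by
  have hev : ∀ w : N, aeval (io w) g = io (aeval w g) := by
    intro w
    rw [aeval_def, aeval_def, hom_eval₂]
    congr 1
    exact RingHom.ext_int _ _
  have hz0 : aeval z g = 0 := by
    apply io.injective
    rw [← hev, hz, map_zero]
  have hint : IsIntegral ℤ z := ⟨g, hg, hz0⟩
  have hσz : aeval (σ z) g = 0 := by
    have h1 : aeval (σ z) g = σ (aeval z g) := by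
      rw [aeval_def, aeval_def]
      have h2 := hom_eval₂ g (algebraMap ℤ N) (σ : N →+* N) z
      have h3 : (σ : N →+* N).comp (algebraMap ℤ N) = algebraMap ℤ N := RingHom.ext_int _ _
      rw [h3] at h2
      exact h2.symm
    rw [h1, hz0, map_zero]
  have hσz' : aeval (io (σ z)) g = 0 := by
    rw [hev, hσz, map_zero]
  obtain ⟨x, hx⟩ : ∃ x : 𝓞 N, (x : N) = z := ⟨⟨z, hint⟩, rfl⟩
  have h5 : σ • x - x ∈ r := hσ x
  have h6 : io (((σ • x - x : 𝓞 N)) : N) = io (σ z) - io z := by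
    have h7 : ((σ • x - x : 𝓞 N) : N) = σ (x : N) - (x : N) := rfl
    rw [h7, hx, map_sub]
  by_contra hne
  have hne' : io (σ z) - io z ≠ 0 := fun h => hne (io.injective (sub_eq_zero.1 h))
  have hi1 : IsIntegral ℤ (io (σ z) - io z) :=
    IsIntegral.sub ⟨g, hg, hσz'⟩ ⟨g, hg, hz⟩
  have hc : (minpoly ℤ (io (σ z) - io z)).coeff 0 ≠ 0 := by
    intro h0
    have h1 : minpoly ℚ (io (σ z) - io z) = (minpoly ℤ (io (σ z) - io z)).map (algebraMap ℤ ℚ) :=
      minpoly.isIntegrallyClosed_eq_field_fractions' ℚ hi1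
    have h2 := minpoly.coeff_zero_ne_zero (A := ℚ) (hi1.tower_top) hne'
    rw [h1, coeff_map, h0, map_zero] at h2
    exact h2 rfl
  have hm := coeff_mem io r _ h5
  rw [h6] at hm
  obtain ⟨q, hq, hqr⟩ := prime_mem r hr _ hc hm
  exact hT _ _ hz hσz' q hq hqr

end URE

theorem t_URE : S_URE := by
  intro p _ E _
  obtain ⟨a, hai, haE⟩ := URE.prim E
  have hgm : (minpoly ℤ a).Monic := minpoly.monic hai
  have hga : aeval a (minpoly ℤ a) = 0 := minpoly.aeval ℤ a
  generalize minpoly ℤ a = g at hgm hga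
  have hfin : (g.rootSet ℂ).Finite := rootSet_finite g ℂ
  classical
  let T : Finset ℕ := insert p ((hfin.toFinset ×ˢ hfin.toFinset).biUnion fun x =>
    ((minpoly ℤ (x.2 - x.1)).coeff 0).natAbs.primeFactors)
  refine ⟨T, ?_, ?_⟩
  · intro q hq
    rcases Finset.mem_insert.1 hq with rfl | h
    · exact Fact.out
    · obtain ⟨x, -, hx⟩ := Finset.mem_biUnion.1 h
      exact Nat.prime_of_mem_primeFactors hx
  · intro F _ m Q hQ h P hP hP0 hR
    by_contra hno
    push Not at hno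
    obtain ⟨R, hRp, hRP, he⟩ := hR
    apply he
    obtain ⟨-, -, m', hm'⟩ := hQ
    have hpm : 0 < p ^ m' := pow_pos (Fact.out : p.Prime).pos m'
    obtain ⟨K₁, S, hfK, hGK, hS, hmem⟩ := URE.splitf g hgm (p ^ m') hpm
    have haS : a ∈ S := (hmem a).2 (Or.inl hga)
    have hMN : F ⊔ E ⊔ Q ≤ F ⊔ K₁ := by
      refine sup_le (sup_le le_sup_left ?_) ?_
      · refine haE.trans (le_trans ?_ le_sup_right)
        rw [IntermediateField.adjoin_simple_le_iff, hS]
        exact IntermediateField.subset_adjoin ℚ S haS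
      · refine hm'.trans (le_trans ?_ le_sup_right)
        rw [IntermediateField.adjoin_le_iff]
        intro z hz
        rw [hS]
        exact IntermediateField.subset_adjoin ℚ S ((hmem z).2 (Or.inr hz))
    have hfN : FiniteDimensional ℚ ↥(F ⊔ K₁) := IntermediateField.finiteDimensional_sup F K₁
    refine URE.core F (F ⊔ E ⊔ Q) K₁ h hMN S hS R ?_
    let : Algebra F ↥(F ⊔ E ⊔ Q) := algC h
    let : Algebra ↥(F ⊔ E ⊔ Q) ↥(F ⊔ K₁) := algC hMN
    let : Algebra F ↥(F ⊔ K₁) := algC (h.trans hMN)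
    intro r hr hrR σ hσ z hz hzN
    have hq : ∀ q ∈ T, ((q : ℕ) : 𝓞 ↥(F ⊔ K₁)) ∉ r := by
      intro q hq hqr
      apply hno q hq
      rw [← hRP, Ideal.mem_comap, map_natCast, hrR.over, Ideal.mem_comap, map_natCast]
      exact hqr
    rcases (hmem z).1 hz with h1 | h1
    · refine URE.rooto (F ⊔ K₁).val.toRingHom g hgm r hr ?_ σ hσ ⟨z, hzN⟩ h1
      intro b b' hb hb' q hq'
      refine hq q (Finset.mem_insert_of_mem (Finset.mem_biUnion.2 ⟨(b, b'), ?_, hq'⟩))
      rw [Finset.mem_product, Set.Finite.mem_toFinset, Set.Finite.mem_toFinset]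
      exact ⟨mem_rootSet.2 ⟨hgm.ne_zero, hb⟩, mem_rootSet.2 ⟨hgm.ne_zero, hb'⟩⟩
    · exact URE.rou p m' r hr (hq p (Finset.mem_insert_self _ _)) σ hσ ⟨z, hzN⟩
        (Subtype.ext h1)

end Pool.Agent.TWF


end

section

/-!
# TWF: from the fields `L ≤ K B_(n+b)` to the fields `L E Q_m`, `E / k` a Galois `p`-extension
-/

set_option autoImplicit false

open NumberField IsDedekindDomain Finset
open scoped nonZeroDivisors Pointwise

namespace Pool.Agent.TWF

open Pool.Agent.MU3 Pool.Agent.RI Pool.Agent.RID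

/-- an imaginary quadratic field has no real embedding -/
theorem cplx (k : IntermediateField ℚ ℂ) (h2 : Module.finrank ℚ k = 2)
    (hi : ∃ z ∈ k, (starRingEnd ℂ) z ≠ z) (φ : k →+* ℂ) :
    ¬ ∀ x : k, (starRingEnd ℂ) (φ x) = φ x := by
  intro hφ
  obtain ⟨z, hz, hne⟩ := hi
  have hfd : FiniteDimensional ℚ k := Module.finite_of_finrank_pos (by rw [h2]; norm_num)
  let x : k := ⟨z, hz⟩
  let f := minpoly ℚ x
  have hint : IsIntegral ℚ x := IsIntegral.of_finite ℚ x
  have hf0 : f ≠ 0 := minpoly.ne_zero hint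
  have hdeg : f.natDegree ≤ 2 := by
    rw [← h2]
    exact minpoly.natDegree_le x
  have hfx : Polynomial.aeval x f = 0 := minpoly.aeval ℚ x
  let ψ : k →ₐ[ℚ] ℂ := k.val
  let φ' : k →ₐ[ℚ] ℂ := φ.toRatAlgHom
  let c : ℂ →ₐ[ℚ] ℂ := (starRingEnd ℂ).toRatAlgHom
  have e1 : Polynomial.aeval z f = 0 := by
    have h1 : Polynomial.aeval (ψ x) f = ψ (Polynomial.aeval x f) := Polynomial.aeval_algHom_apply ψ x f
    rw [hfx, map_zero] at h1
    exact h1
  have e2 : Polynomial.aeval ((starRingEnd ℂ) z) f = 0 := by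
    have h1 : Polynomial.aeval (c z) f = c (Polynomial.aeval z f) := Polynomial.aeval_algHom_apply c z f
    rw [e1, map_zero] at h1
    exact h1
  have e3 : Polynomial.aeval (φ x) f = 0 := by
    have h1 : Polynomial.aeval (φ' x) f = φ' (Polynomial.aeval x f) :=
      Polynomial.aeval_algHom_apply φ' x f
    rw [hfx, map_zero] at h1
    exact h1
  have hφz : φ x ≠ z := by
    intro h
    have := hφ x
    rw [h] at this
    exact hne this
  have hφc : φ x ≠ (starRingEnd ℂ) z := by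
    intro h
    have h1 := hφ x
    rw [h, Complex.conj_conj] at h1
    exact hne h1.symm
  have hsub : ({z, (starRingEnd ℂ) z, φ x} : Finset ℂ) ⊆ (f.aroots ℂ).toFinset := by
    intro y hy
    rw [Multiset.mem_toFinset, Polynomial.mem_aroots]
    refine ⟨hf0, ?_⟩
    simp only [Finset.mem_insert, Finset.mem_singleton] at hy
    rcases hy with rfl | rfl | rfl
    · exact e1
    · exact e2
    · exact e3
  have hcard : ({z, (starRingEnd ℂ) z, φ x} : Finset ℂ).card = 3 := by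
    rw [Finset.card_insert_of_notMem, Finset.card_insert_of_notMem, Finset.card_singleton]
    · rw [Finset.mem_singleton]
      exact fun h => hφc h.symm
    · simp only [Finset.mem_insert, Finset.mem_singleton, not_or]
      exact ⟨fun h => hne h.symm, fun h => hφz h.symm⟩
  have h3 := (Finset.card_le_card hsub).trans (Multiset.toFinset_card_le _)
  rw [hcard] at h3
  have h4 : Multiset.card (f.aroots ℂ) ≤ f.natDegree := by
    refine (Polynomial.card_roots' _).trans ?_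
    exact Polynomial.natDegree_map_le
  omega

/-- `M / F` is unramified at infinity if `F` contains an imaginary quadratic field -/
theorem unramInf (k F M : IntermediateField ℚ ℂ) (h2 : Module.finrank ℚ k = 2)
    (hi : ∃ z ∈ k, (starRingEnd ℂ) z ≠ z) (hkF : k ≤ F) (hFM : F ≤ M) : UnramInf hFM := by
  intro φ hφ
  exfalso
  refine cplx k h2 hi (φ.comp (IntermediateField.inclusion (hkF.trans hFM)).toRingHom) fun x => ?_
  exact hφ (IntermediateField.inclusion (hkF.trans hFM) x) (hkF x.2)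

theorem stepE (p : ℕ) [Fact p.Prime] (k F L : IntermediateField ℚ ℂ)
    (h2 : Module.finrank ℚ k = 2) (hi : ∃ z ∈ k, (starRingEnd ℂ) z ≠ z)
    [FiniteDimensional ℚ F] [FiniteDimensional ℚ L] (hkF : k ≤ F) (hFL : F ≤ L)
    (hGF : IsGalois F (IntermediateField.extendScalars hFL))
    (hd : ¬ p ∣ Module.finrank F (IntermediateField.extendScalars hFL))
    (E : IntermediateField ℚ ℂ) [FiniteDimensional ℚ E] (hkE : k ≤ E)
    (hGE : IsGalois k (IntermediateField.extendScalars hkE)) (c : ℕ)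
    (hdE : Module.finrank k (IntermediateField.extendScalars hkE) = p ^ c)
    (T : Finset ℕ) (m : ℕ) (Q : IntermediateField ℚ ℂ) (hQ : IsLayer p m Q)
    (hTU : ∀ (h : F ≤ F ⊔ E ⊔ Q) (P : Ideal (𝓞 F)),
        P.IsPrime → P ≠ ⊥ → Ramifies h P → ∃ q ∈ T, (q : 𝓞 F) ∈ P)
    (hns : ∀ q ∈ T, Nonsplit q hFL)
    (hcl : padicValNat p (classNo L) = padicValNat p (classNo F)) :
    padicValNat p (classNo (L ⊔ E ⊔ Q)) = padicValNat p (classNo (F ⊔ E ⊔ Q)) := by
  obtain ⟨fdQ, hGQ, -⟩ := LAY_thm p m Q hQ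
  obtain ⟨g1, g2⟩ := bot_data hGQ
  have hFM : F ≤ F ⊔ E ⊔ Q := le_sup_left.trans le_sup_left
  have hFE : F ≤ F ⊔ E := le_sup_left
  have hFQ : F ≤ F ⊔ Q := le_sup_left
  have fdFE : FiniteDimensional ℚ ↥(F ⊔ E) := IntermediateField.finiteDimensional_sup F E
  have fdFQ : FiniteDimensional ℚ ↥(F ⊔ Q) := IntermediateField.finiteDimensional_sup F Q
  have fdM : FiniteDimensional ℚ ↥(F ⊔ E ⊔ Q) := IntermediateField.finiteDimensional_sup (F ⊔ E) Q
  obtain ⟨a1, a2⟩ := BCH_thm.1 k E F F (F ⊔ E) hkE hFE (sup_eq_right.2 hkF).symm (sup_comm _ _) hGE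
  obtain ⟨b1, b2⟩ := BCH_thm.1 ⊥ Q F F (F ⊔ Q) bot_le hFQ (bot_sup_eq _).symm (sup_comm _ _) g1
  have hEQ : (F ⊔ E) ⊔ (F ⊔ Q) = F ⊔ E ⊔ Q := by
    rw [← sup_assoc]
    congr 1
    exact sup_eq_left.2 le_sup_left
  have gM : IsGalois F (IntermediateField.extendScalars hFM) := by
    have h' : F ≤ (F ⊔ E) ⊔ (F ⊔ Q) := le_sup_left.trans le_sup_left
    have h1 := BCH_thm.2 F (F ⊔ E) (F ⊔ Q) hFE hFQ h' a1 b1
    revert h' h1
    rw [hEQ]
    exact fun h' h1 => h1
  -- the degree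
  have hFEM : F ⊔ E ≤ F ⊔ E ⊔ Q := le_sup_left
  obtain ⟨c1, c2⟩ := BCH_thm.1 ⊥ Q (F ⊔ E) (F ⊔ E) (F ⊔ E ⊔ Q) bot_le hFEM (bot_sup_eq _).symm
    (sup_comm _ _) g1
  rw [g2, hQ.1] at c2
  rw [hdE] at a2
  have hdM : Module.finrank F (IntermediateField.extendScalars hFM) ∣ p ^ (c + m) := by
    have hpos : 0 < Module.finrank ℚ F := Module.finrank_pos
    have e1 := deg_mul hFE
    have e2 := deg_mul hFEM
    have e3 := deg_mul hFM
    have e4 : Module.finrank F (IntermediateField.extendScalars hFM) =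
        Module.finrank F (IntermediateField.extendScalars hFE) *
          Module.finrank ↥(F ⊔ E) (IntermediateField.extendScalars hFEM) := by
      apply Nat.eq_of_mul_eq_mul_left hpos
      rw [e3, ← e2, ← e1, mul_assoc]
    rw [e4, pow_add]
    exact Nat.mul_dvd_mul a2 c2
  obtain ⟨a, -, ha⟩ := (Nat.dvd_prime_pow (Fact.out : p.Prime)).1 hdM
  have hres := finalA p a F L (F ⊔ E ⊔ Q) hFL hFM hGF hd gM ha (unramInf k F _ h2 hi hkF hFM) ?_ hcl
  · rw [← hres]
    congr 2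
    rw [← sup_assoc, ← sup_assoc, sup_eq_left.2 hFL]
  intro P P' hP hP' hPP hR
  by_cases hP0 : P = ⊥
  · subst hP0
    let i1 : Algebra F L := algC hFL
    have h0 : (⊥ : Ideal (𝓞 L)).under (𝓞 F) = ⊥ := Ideal.under_bot _ _
    have h1 : P'.under (𝓞 F) = ⊥ := by
      rw [← h0]
      exact hPP.symm
    exact (Ideal.eq_bot_of_comap_eq_bot h1).symm
  · have hPF : P.comap (RingOfIntegers.mapRingHom
        (IntermediateField.inclusion hFL : F →+* L)) ≠ ⊥ := by
      intro h0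
      let i1 : Algebra F L := algC hFL
      have h1 : P.under (𝓞 F) = ⊥ := h0
      exact hP0 (Ideal.eq_bot_of_comap_eq_bot h1)
    obtain ⟨q, hq, hqP⟩ := hTU hFM _ (Ideal.comap_isPrime _ _) hPF hR
    have hqP1 : (q : 𝓞 L) ∈ P := by
      rw [Ideal.mem_comap, map_natCast] at hqP
      exact hqP
    have hqP2 : (q : 𝓞 L) ∈ P' := by
      rw [hPP, Ideal.mem_comap, map_natCast] at hqP
      exact hqP
    exact hns q hq P P' hP hP' hqP1 hqP2 hPP

theorem endE (hURE : S_URE) (p l : ℕ) [Fact p.Prime] [Fact l.Prime] (hpl : p ≠ l)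
    (k K : IntermediateField ℚ ℂ) (h2 : Module.finrank ℚ k = 2)
    (hi : ∃ z ∈ k, (starRingEnd ℂ) z ≠ z) (B : ℕ → IntermediateField ℚ ℂ)
    [FiniteDimensional ℚ K] [∀ n, FiniteDimensional ℚ ↥(K ⊔ B n)] (hB : Twr l k K B)
    (E : IntermediateField ℚ ℂ) [FiniteDimensional ℚ E] (hkE : k ≤ E)
    (hGE : IsGalois k (IntermediateField.extendScalars hkE)) (c : ℕ)
    (hdE : Module.finrank k (IntermediateField.extendScalars hkE) = p ^ c) :
    ∃ n₂, ∀ n, n₂ ≤ n → ∀ (b : ℕ) (L : IntermediateField ℚ ℂ), k ≤ L → L ≤ K ⊔ B (n + b) →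
      padicValNat p (classNo L) = padicValNat p (classNo (L ⊓ (K ⊔ B n))) →
      ∀ (m : ℕ) (Q : IntermediateField ℚ ℂ), IsLayer p m Q →
        padicValNat p (classNo (L ⊔ E ⊔ Q)) =
          padicValNat p (classNo ((L ⊓ (K ⊔ B n)) ⊔ E ⊔ Q)) := by
  obtain ⟨T, hT, hTU⟩ := hURE p E
  have hN : ∀ q : ℕ, ∃ n₀, q ∈ T → ∀ n m, n₀ ≤ n → n ≤ m → ∀ h : K ⊔ B n ≤ K ⊔ B m,
      Nonsplit q h := by
    intro q
    by_cases hq : q ∈ T
    · obtain ⟨n₀, hn₀⟩ := nonsplit_large l q K B (hT q hq) hB.lay hB.mono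
      exact ⟨n₀, fun _ => hn₀⟩
    · exact ⟨0, fun h => absurd h hq⟩
  choose N hN using hN
  refine ⟨T.sup N, fun n hn b L hkL hL hcl m Q hQ => ?_⟩
  have hle : K ⊔ B n ≤ K ⊔ B (n + b) := sup_le_sup_left (hB.mono (Nat.le_add_right n b)) K
  have hFL : L ⊓ (K ⊔ B n) ≤ L := inf_le_left
  have hFA : L ⊓ (K ⊔ B n) ≤ K ⊔ B n := inf_le_right
  have hkF : k ≤ L ⊓ (K ⊔ B n) := le_inf hkL (hB.hk.trans le_sup_left)
  have hkC : k ≤ K ⊔ B (n + b) := hB.hk.trans le_sup_left
  have fdL : FiniteDimensional ℚ L := FiniteDimensional.of_injective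
    (IntermediateField.inclusion hL).toLinearMap
    (IntermediateField.inclusion hL).toRingHom.injective
  have fdF : FiniteDimensional ℚ ↥(L ⊓ (K ⊔ B n)) := FiniteDimensional.of_injective
    (IntermediateField.inclusion hFL).toLinearMap
    (IntermediateField.inclusion hFL).toRingHom.injective
  -- `C / k` is abelian, so `L / k` is Galois
  have hgal : IsGalois k (IntermediateField.extendScalars hkC) ∧
      ∀ σ τ : (IntermediateField.extendScalars hkC) ≃ₐ[k] (IntermediateField.extendScalars hkC),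
        σ * τ = τ * σ := by
    obtain ⟨g1, g2⟩ := gal_ab l k K B hB (n + b) hkC
    let _ : Algebra k ↥(K ⊔ B (n + b)) := algC hkC
    refine ⟨(isGalois_algC hkC).1 g1, fun σ τ => ?_⟩
    have h1 := g2 ((extEquiv hkC).autCongr σ) ((extEquiv hkC).autCongr τ)
    rw [← map_mul, ← map_mul] at h1
    exact (extEquiv hkC).autCongr.injective h1
  have abC : IsAbelianGalois k (IntermediateField.extendScalars hkC) :=
    { toIsGalois := hgal.1
      is_comm := ⟨fun σ τ => hgal.2 σ τ⟩ }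
  have hleL : IntermediateField.extendScalars hkL ≤ IntermediateField.extendScalars hkC :=
    fun x hx => hL hx
  have abL : IsAbelianGalois k (IntermediateField.extendScalars hkL) :=
    IsAbelianGalois.of_algHom (IntermediateField.inclusion hleL)
  -- the algebras
  let i1 : Algebra ↥(L ⊓ (K ⊔ B n)) L := algC hFL
  let i2 : Algebra ↥(L ⊓ (K ⊔ B n)) ↥(K ⊔ B n) := algC hFA
  let i3 : Algebra ↥(K ⊔ B n) ↥(K ⊔ B (n + b)) := algC hle
  let i4 : Algebra L ↥(K ⊔ B (n + b)) := algC hL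
  let i5 : Algebra ↥(L ⊓ (K ⊔ B n)) ↥(K ⊔ B (n + b)) := algC (hFL.trans hL)
  let i6 : Algebra k L := algC hkL
  let i7 : Algebra k ↥(L ⊓ (K ⊔ B n)) := algC hkF
  let i8 : Algebra k ↥(K ⊔ B n) := algC (hB.hk.trans le_sup_left)
  let i9 : Algebra k ↥(K ⊔ B (n + b)) := algC hkC
  have t1 : IsScalarTower ↥(L ⊓ (K ⊔ B n)) L ↥(K ⊔ B (n + b)) := towerC hFL hL
  have t2 : IsScalarTower ↥(L ⊓ (K ⊔ B n)) ↥(K ⊔ B n) ↥(K ⊔ B (n + b)) := towerC hFA hle
  have t3 : IsScalarTower k ↥(L ⊓ (K ⊔ B n)) L := towerC hkF hFL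
  have t4 : IsScalarTower k ↥(K ⊔ B n) ↥(K ⊔ B (n + b)) :=
    towerC (hB.hk.trans le_sup_left) hle
  have gL : IsGalois k L := (isGalois_algC hkL).2 abL.toIsGalois
  have gC : IsGalois k ↥(K ⊔ B (n + b)) := (isGalois_algC hkC).2 hgal.1
  have gLF : IsGalois ↥(L ⊓ (K ⊔ B n)) L := IsGalois.tower_top_of_isGalois k _ _
  have gCA : IsGalois ↥(K ⊔ B n) ↥(K ⊔ B (n + b)) := IsGalois.tower_top_of_isGalois k _ _
  have hint : ∀ x : L, ∀ a : ↥(K ⊔ B n), algebraMap L ↥(K ⊔ B (n + b)) x =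
      algebraMap ↥(K ⊔ B n) ↥(K ⊔ B (n + b)) a →
      ∃ y : ↥(L ⊓ (K ⊔ B n)), algebraMap ↥(L ⊓ (K ⊔ B n)) L y = x := by
    intro x a hxa
    have h1 : (x : ℂ) = (a : ℂ) := congrArg Subtype.val hxa
    exact ⟨⟨(x : ℂ), x.2, h1 ▸ a.2⟩, rfl⟩
  -- the degree
  have hd : ¬ p ∣ Module.finrank ↥(L ⊓ (K ⊔ B n)) (IntermediateField.extendScalars hFL) := by
    intro hp
    have h1 : Module.finrank ↥(K ⊔ B n) (IntermediateField.extendScalars hle) ∣ l ^ (n + b) :=
      deg_dvd l K B hB.lay hB.mono n (n + b) (Nat.le_add_right n b) hle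
    have fLF : FiniteDimensional ↥(L ⊓ (K ⊔ B n)) L :=
      Module.Finite.of_restrictScalars_finite ℚ ↥(L ⊓ (K ⊔ B n)) L
    have fCA : FiniteDimensional ↥(K ⊔ B n) ↥(K ⊔ B (n + b)) :=
      Module.Finite.of_restrictScalars_finite ℚ ↥(K ⊔ B n) ↥(K ⊔ B (n + b))
    have h2 : Nat.card (L ≃ₐ[↥(L ⊓ (K ⊔ B n))] L) ∣
        Nat.card (↥(K ⊔ B (n + b)) ≃ₐ[↥(K ⊔ B n)] ↥(K ⊔ B (n + b))) :=
      Subgroup.card_dvd_of_surjective _ (res_surj (F := ↥(L ⊓ (K ⊔ B n))) (K := L)
        (A := ↥(K ⊔ B n)) (C := ↥(K ⊔ B (n + b))) hint)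
    rw [IsGalois.card_aut_eq_finrank, IsGalois.card_aut_eq_finrank] at h2
    have h3 := finrank_algC hFL
    have h4 := finrank_algC hle
    have h5 : p ∣ l ^ (n + b) := by
      refine (hp.trans ?_).trans h1
      rw [← h3, ← h4]
      exact h2
    exact hpl ((Nat.prime_dvd_prime_iff_eq Fact.out Fact.out).1 (Nat.Prime.dvd_of_dvd_pow Fact.out h5))
  -- the primes which ramify
  have hns : ∀ q ∈ T, Nonsplit q hFL := by
    intro q hq
    have h1 := hN q hq n (n + b) ((Finset.le_sup hq).trans hn) (Nat.le_add_right n b) hle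
    exact nonsplit_desc (F := ↥(L ⊓ (K ⊔ B n))) (K := L) (A := ↥(K ⊔ B n))
      (C := ↥(K ⊔ B (n + b))) q hint h1
  have hGF : IsGalois ↥(L ⊓ (K ⊔ B n)) (IntermediateField.extendScalars hFL) :=
    (isGalois_algC hFL).1 gLF
  exact stepE p k (L ⊓ (K ⊔ B n)) L h2 hi hkF hFL hGF hd E hkE hGE c hdE T m Q hQ
    (fun h P => hTU (L ⊓ (K ⊔ B n)) m Q hQ h P) hns hcl

end Pool.Agent.TWF


end
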