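import Pool.Agent.MVF.C033
import Pool.Agent.TWM.C05
import Pool.Agent.TWM.C17
import Pool.Agent.TWM.C20
import Pool.Agent.TWM.C21
import Pool.Agent.TWM.C22
import Pool.Agent.TWM.C24
import Pool.Agent.TWM.C25
import Pool.Agent.TWM.C26
import Pool.Agent.TWM.C27
import Pool.Agent.TWM.C28

/-! Parts: TWI.KRPI, TWI.NRRI, TWI.XPCI, TWI.BAllI -/

section

/-!
# TWI, block B, module KRPI: the kernel `E[p]` as a system of representatives, `p` inert
-/

set_option autoImplicit false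

open WeierstrassCurve Polynomial NumberField IsDedekindDomain

namespace Pool.Agent.TWI

open _root_.MU3 Pool.Agent.MU3A Pool.Agent.MU3B Pool.Agent.MU3C Pool.Agent.RI Pool.Agent.RID
open Pool.Agent.MUX Pool.Agent.MUXU Pool.Agent.MUXW Pool.Agent.TWT

noncomputable section

namespace KRPI

variable {p : ℕ} {A B : ℤ} {P : Ideal (OO A B)} {V : ValuationSubring ℂ} {f : ℕ} {ι : Type}

theorem N_cop (h : SetI p A B P V f) (R : Reps A B (p * f) ι) (i : ι) :
    ¬ (p : ℤ) ∣ ((nI (R.b i) : ℕ) : ℤ) := by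
  intro h1
  have h3 : p ∣ nI (R.b i) := by exact_mod_cast h1
  have h4 : p ∣ 1 := by
    rw [← (R.cop i)]
    exact Nat.dvd_gcd h3 (dvd_mul_right p f)
  exact h.pp.one_lt.ne' (Nat.dvd_one.1 h4)

theorem N_notMem (hI : S_IDPI) (h : SetI p A B P V f) (R : Reps A B (p * f) ι) (i : ι) :
    ((nI (R.b i) : ℕ) : OO A B) ∉ P := by
  intro hm
  apply N_cop h R i
  rw [← (hI p A B P V f h).1, Int.cast_natCast]
  exact hm

theorem N_mem (h : SetI p A B P V f) (R : Reps A B (p * f) ι) (i : ι) :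
    ((nI (R.b i) : ℕ) : OO A B) ∈ R.b i := Pool.Agent.MUX.nI_mem h.cq (R.nl i).b_ne

theorem mem_P (h : SetI p A B P V f) {x : OO A B} (hx : x ∈ P) :
    ∃ t : OO A B, t * ((p : ℕ) : OO A B) = x := by
  rw [h.eP] at hx
  exact Ideal.mem_span_singleton'.1 hx

theorem p_mem (h : SetI p A B P V f) : ((p : ℕ) : OO A B) ∈ P := by
  rw [h.eP]
  exact Ideal.mem_span_singleton_self _

theorem emb_zero' (h : SetI p A B P V f) : emb (0 : OO A B) = 0 := by
  have h1 := Pool.Agent.MUX.emb_sub h.cq (0 : OO A B) 0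
  rw [sub_zero, sub_self] at h1
  exact h1

theorem diff_mem (hI : S_IDPI) (h : SetI p A B P V f) (R : Reps A B (p * f) ι) (i : ι)
    (c c' : OO A B) : pt R p i c - pt R p i c' ∈ (R.L i).lattice ↔ c - c' ∈ P := by
  have hC := h.cq
  have hp0 : (p : ℂ) ≠ 0 := by exact_mod_cast h.pp.ne_zero
  have ho := (R.nl i).om_ne
  constructor
  · intro hm
    obtain ⟨u, _, hu⟩ := ((R.nl i).mem _).1 hm
    have h1 : ((nI (R.b i) : ℕ) : OO A B) * (c - c') = ((p : ℕ) : OO A B) * u := by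
      apply Pool.Agent.MUX.emb_inj hC
      rw [Pool.Agent.MUX.emb_mul hC, Pool.Agent.MUX.emb_sub hC, Pool.Agent.MUX.emb_natCast hC,
        Pool.Agent.MUX.emb_mul hC, Pool.Agent.MUX.emb_natCast hC]
      apply mul_left_cancel₀ ho
      calc R.om i * (((nI (R.b i) : ℕ) : ℂ) * (emb c - emb c'))
          = p * (pt R p i c - pt R p i c') := by
            unfold pt
            field_simp
        _ = _ := by
            rw [hu]
            ring
    have h2 : ((nI (R.b i) : ℕ) : OO A B) * (c - c') ∈ P := by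
      rw [h1]
      exact P.mul_mem_right _ (p_mem h)
    rcases h.hP.mem_or_mem h2 with h3 | h3
    · exact absurd h3 (N_notMem hI h R i)
    · exact h3
  · intro hm
    obtain ⟨t, ht⟩ := mem_P h hm
    have h1 : emb t * (p : ℂ) = emb c - emb c' := by
      rw [← Pool.Agent.MUX.emb_natCast hC (A := A) (B := B) p, ← Pool.Agent.MUX.emb_mul hC, ht,
        Pool.Agent.MUX.emb_sub hC]
    refine ((R.nl i).mem _).2 ⟨t * ((nI (R.b i) : ℕ) : OO A B),
      Ideal.mul_mem_left _ _ (N_mem h R i), ?_⟩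
    rw [Pool.Agent.MUX.emb_mul hC, Pool.Agent.MUX.emb_natCast hC]
    apply mul_left_cancel₀ hp0
    calc (p : ℂ) * (pt R p i c - pt R p i c')
        = R.om i * ((nI (R.b i) : ℕ) : ℂ) * (emb c - emb c') := by
          unfold pt
          field_simp
      _ = _ := by
          rw [← h1]
          ring

theorem pt_zero (h : SetI p A B P V f) (R : Reps A B (p * f) ι) (i : ι) :
    pt R p i (0 : OO A B) = 0 := by
  unfold pt
  rw [emb_zero' h]
  simp

theorem pt_mem (hI : S_IDPI) (h : SetI p A B P V f) (R : Reps A B (p * f) ι) (i : ι)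
    (c : OO A B) : pt R p i c ∈ (R.L i).lattice ↔ c ∈ P := by
  have h1 := diff_mem hI h R i c 0
  rwa [pt_zero h, sub_zero, sub_zero] at h1

theorem ker_mem (h : SetI p A B P V f) (R : Reps A B (p * f) ι) (i : ι)
    (x : OO A B) (hx : x ∈ P) (c : OO A B) :
    emb x * pt R p i c ∈ (R.L i).lattice := by
  have hC := h.cq
  have hp0 : (p : ℂ) ≠ 0 := by exact_mod_cast h.pp.ne_zero
  obtain ⟨t, ht⟩ := mem_P h hx
  have h2 : emb t * (p : ℂ) = emb x := by
    rw [← Pool.Agent.MUX.emb_natCast hC (A := A) (B := B) p, ← Pool.Agent.MUX.emb_mul hC, ht]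
  refine ((R.nl i).mem _).2 ⟨t * c * ((nI (R.b i) : ℕ) : OO A B),
    Ideal.mul_mem_left _ _ (N_mem h R i), ?_⟩
  rw [Pool.Agent.MUX.emb_mul hC, Pool.Agent.MUX.emb_mul hC, Pool.Agent.MUX.emb_natCast hC, ← h2]
  unfold pt
  field_simp

theorem surj (h : SetI p A B P V f) (R : Reps A B (p * f) ι) (i : ι)
    (z : ℂ) (hx : ∀ x ∈ P, emb x * z ∈ (R.L i).lattice) :
    ∃ c : OO A B, z - pt R p i c ∈ (R.L i).lattice := by
  have hC := h.cq
  have hp0 : (p : ℂ) ≠ 0 := by exact_mod_cast h.pp.ne_zero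
  obtain ⟨u, hu, hzu⟩ := ((R.nl i).mem _).1 (hx _ (p_mem h))
  rw [Pool.Agent.MUX.emb_natCast hC] at hzu
  obtain ⟨a, e, hab⟩ :=
    ((Nat.prime_iff_prime_int.1 h.pp).coprime_iff_not_dvd).2 (N_cop h R i)
  have hab' : (a : ℂ) * (p : ℂ) + (e : ℂ) * ((nI (R.b i) : ℕ) : ℂ) = 1 := by
    have h3 := congrArg (fun t : ℤ => (t : ℂ)) hab
    push_cast at h3
    exact h3
  refine ⟨(e : OO A B) * u, ((R.nl i).mem _).2 ⟨(a : OO A B) * u, Ideal.mul_mem_left _ _ hu, ?_⟩⟩
  rw [Pool.Agent.MUX.emb_mul hC, Pool.Agent.MUX.emb_intCast hC]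
  apply mul_left_cancel₀ hp0
  calc (p : ℂ) * (z - pt R p i ((e : OO A B) * u))
      = (p : ℂ) * z - R.om i * (((nI (R.b i) : ℕ) : ℂ) * ((e : ℂ) * emb u)) := by
        unfold pt
        rw [Pool.Agent.MUX.emb_mul hC, Pool.Agent.MUX.emb_intCast hC]
        field_simp
    _ = (p : ℂ) * (R.om i * ((a : ℂ) * emb u)) := by
        rw [hzu]
        linear_combination (-(R.om i * emb u)) * hab'

end KRPI

theorem t_KRPI (h : S_IDPI) : S_KRPI := by
  intro p A B P V f hS ι R i L' mu hQ T hT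
  have hC := hS.cq
  have hd := KRPI.diff_mem h hS R i
  have hinj : ∀ c ∈ T, ∀ c' ∈ T, pt R p i c - pt R p i c' ∈ (R.L i).lattice → c = c' :=
    fun c hc c' hc' hm => hT.inj c hc c' hc' ((hd c c').1 hm)
  refine ⟨?_, ?_, hd, ⟨?_, ?_, ?_, ?_⟩, ?_⟩
  · intro w hw
    rw [hQ.2]
    intro x _
    obtain ⟨u, hu, rfl⟩ := ((R.nl i).mem _).1 hw
    refine ((R.nl i).mem _).2 ⟨x * u, Ideal.mul_mem_left _ _ hu, ?_⟩
    rw [Pool.Agent.MUX.emb_mul hC]
    ring
  · intro z hz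
    have h1 := (hQ.2 z).1 hz _ (KRPI.p_mem hS)
    rwa [Pool.Agent.MUX.emb_natCast hC] at h1
  · intro q hq
    obtain ⟨c, _, rfl⟩ := Finset.mem_image.1 hq
    rw [hQ.2]
    intro x hx
    exact KRPI.ker_mem hS R i x hx c
  · intro q hq hL
    obtain ⟨c, hc, rfl⟩ := Finset.mem_image.1 hq
    exact hT.nz c hc ((KRPI.pt_mem h hS R i c).1 hL)
  · intro q hq q' hq' hm
    obtain ⟨c, hc, rfl⟩ := Finset.mem_image.1 hq
    obtain ⟨c', hc', rfl⟩ := Finset.mem_image.1 hq'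
    rw [hinj c hc c' hc' hm]
  · intro z hz hzL
    obtain ⟨c, h1⟩ := KRPI.surj hS R i z ((hQ.2 z).1 hz)
    have hcP : c ∉ P := by
      intro hc
      apply hzL
      have h2 := (R.L i).lattice.add_mem h1 ((KRPI.pt_mem h hS R i c).2 hc)
      rwa [sub_add_cancel] at h2
    obtain ⟨y, hy, hcy⟩ := hT.surj c hcP
    refine ⟨pt R p i y, Finset.mem_image.2 ⟨y, hy, rfl⟩, ?_⟩
    have h3 := (R.L i).lattice.add_mem h1 ((hd c y).2 hcy)
    rwa [sub_add_sub_cancel] at h3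
  · rw [Finset.card_image_of_injOn]
    · exact (h p A B P V f hS).2.2.2.1 T hT
    · intro c hc c' hc' he
      refine hinj c hc c' hc' ?_
      have he' : pt R p i c = pt R p i c' := he
      rw [he', sub_self]
      exact (R.L i).lattice.zero_mem

end

end Pool.Agent.TWI


end

section

/-!
# TWI, module NRRI (helper85): the norm relation over `P = (p)`, `p` inert

Adaptation of `Pool/Agent/TWT/NRR.lean` (helper20).
-/

set_option autoImplicit false

open WeierstrassCurve Polynomial NumberField IsDedekindDomain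

namespace Pool.Agent.TWI

open _root_.MU3 Pool.Agent.MU3A Pool.Agent.MU3B Pool.Agent.MU3C Pool.Agent.RI Pool.Agent.RID
open Pool.Agent.MUX Pool.Agent.MUXU Pool.Agent.MUXW Pool.Agent.TWT
open Pool.Agent.MU3V (cls Sub GD algDF)
open Pool.Agent.MUXV (GR InK tX)
open Pool.Agent.MUXI (IA RE AR)
open OnePoint

noncomputable section

namespace NRRI

variable {A B : ℤ}

/-- multiplication by an element prime to `P` permutes the systems of representatives -/
lemma rep_mul {P : Ideal (OO A B)} (hP : P.IsPrime) {T : Finset (OO A B)} [DecidableEq (OO A B)]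
    (hT : RepI P T) (b u v : OO A B) (hv : v ∈ P) (hbu : u * b + v = 1) :
    RepI P (T.image (fun c => b * c)) ∧ Set.InjOn (fun c => b * c) (T : Set (OO A B)) := by
  have hbP : b ∉ P := fun h => hP.ne_top ((Ideal.eq_top_iff_one _).2 (by
    rw [← hbu]
    exact add_mem (Ideal.mul_mem_left _ _ h) hv))
  have huP : u ∉ P := fun h => hP.ne_top ((Ideal.eq_top_iff_one _).2 (by
    rw [← hbu]
    exact add_mem (Ideal.mul_mem_right _ _ h) hv))
  have hinj : ∀ x ∈ T, ∀ y ∈ T, b * x - b * y ∈ P → x = y := by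
    intro x hx y hy h
    rw [← mul_sub] at h
    exact hT.inj x hx y hy ((hP.mem_or_mem h).resolve_left hbP)
  refine ⟨⟨?_, ?_, ?_⟩, ?_⟩
  · intro x hx
    obtain ⟨c, hc, rfl⟩ := Finset.mem_image.1 hx
    exact fun h => (hP.mem_or_mem h).elim hbP (hT.nz c hc)
  · intro x hx y hy h
    obtain ⟨c, hc, rfl⟩ := Finset.mem_image.1 hx
    obtain ⟨d, hd, rfl⟩ := Finset.mem_image.1 hy
    rw [hinj c hc d hd h]
  · intro x hx
    obtain ⟨y, hy, hxy⟩ := hT.surj (u * x) (fun h => (hP.mem_or_mem h).elim huP hx)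
    refine ⟨b * y, Finset.mem_image_of_mem _ hy, ?_⟩
    have h1 : x - b * y = b * (u * x - y) + v * x := by
      linear_combination (-x) * hbu
    rw [h1]
    exact add_mem (Ideal.mul_mem_left _ _ hxy) (Ideal.mul_mem_right _ _ hv)
  · intro x hx y hy h
    apply hinj x hx y hy
    have h' : b * x = b * y := h
    rw [h', sub_self]
    exact zero_mem _

end NRRI

open Pool.Agent.TWT.NRR _root_.Pool.Agent.TWI.NRRI in
theorem t_NRRI (hIDP : S_IDPI) (hKRP : S_KRPI) : S_NRRI := by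
  classical
  intro p A B P V f hG hT ι _ R m hm x0 hx0 hx0' Tr hTr a H ha hac hH θ hθ
  obtain ⟨-, -, -, d4, d5, d6, -⟩ := hIDP p A B P V f hG
  obtain ⟨d51, -⟩ := d5 m hm.pm
  have hp5 := hG.p5
  have hm0 := hm.m0
  have hp0 : p ≠ 0 := by omega
  have hM3 : 3 ≤ m * p := by
    have h1 : 1 ≤ m := Nat.one_le_iff_ne_zero.2 hm0
    nlinarith
  have hM2 : 2 ≤ m * p := by omega
  have hM0 : m * p ≠ 0 := by omega
  have ha0 : a ≠ 0 := by omega
  have haM : a.Coprime (m * p) :=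
    Nat.Coprime.coprime_dvd_right ⟨2, by ring⟩ hac
  have hap : a.Coprime (2 * p) :=
    Nat.Coprime.coprime_dvd_right ⟨m, by ring⟩ hac
  have ha2 : a.Coprime 2 :=
    Nat.Coprime.coprime_dvd_right ⟨p, rfl⟩ hap
  obtain ⟨hmul, hez, hint, -, hdom⟩ := Pool.Agent.MUXF.xf_ALG A B (Pool.Agent.MUXY.cqF hG.cq)
  have := hdom
  have hem : ∀ x y : OO A B, emb (x * y) = emb x * emb y := fun x y => (hmul x y).1
  have hea : ∀ x y : OO A B, emb (x + y) = emb x + emb y := fun x y => (hmul x y).2.1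
  have heN : ∀ k : ℕ, emb ((k : ℕ) : OO A B) = (k : ℂ) := fun k => by
    have := (hint (k : ℤ)).1
    rwa [Int.cast_natCast, Int.cast_natCast] at this
  have hmC : (m : ℂ) ≠ 0 := by exact_mod_cast hm0
  have hpC : (p : ℂ) ≠ 0 := by exact_mod_cast hp0
  obtain ⟨f1, f2, -, -, f5, -⟩ := t_HTF A B hG.cq hT (p * f) ι R (m * p) hM3 hm.cop
  -- ideals
  have hbot : ∀ k : ℕ, k ≠ 0 → (idl (A := A) (B := B) k) ≠ ⊥ := by
    intro k hk h
    have h4 : ((k : ℕ) : OO A B) = 0 := by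
      have : ((k : ℕ) : OO A B) ∈ (idl (A := A) (B := B) k) := Ideal.mem_span_singleton_self _
      rw [h] at this
      exact this
    have h5 := congrArg QuadraticAlgebra.re h4
    simp at h5
    omega
  have hMb := hbot (m * p) hM0
  have hPprime := hG.hP
  have h1P : (1 : OO A B) ∉ P := fun h => hPprime.ne_top ((Ideal.eq_top_iff_one _).2 h)
  have hpP : ((p : ℕ) : OO A B) ∈ P := by
    rw [hG.eP]
    exact Ideal.mem_span_singleton_self _
  have hPb : P ≠ ⊥ := by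
    rw [hG.eP]
    exact hbot p hp0
  have hMm : idl (A := A) (B := B) (m * p) ≤ idl m := by
    rw [Ideal.span_singleton_le_span_singleton]
    exact ⟨((p : ℕ) : OO A B), by push_cast; ring⟩
  have hMprod : idl (A := A) (B := B) m * idl p = idl (m * p) := by
    rw [Ideal.span_singleton_mul_span_singleton]
    show Ideal.span {((m : ℕ) : OO A B) * ((p : ℕ) : OO A B)} =
      Ideal.span {((m * p : ℕ) : OO A B)}
    rw [Nat.cast_mul]
  have hf2 : 2 ≤ m := by
    have h1 : (2 : ℤ) ∣ (f : ℤ) := (Dvd.intro _ rfl).trans hG.fD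
    have h2 : (2 : ℤ) ∣ (m : ℤ) := h1.trans (Int.natCast_dvd_natCast.2 hm.fm)
    have h3 : 2 ∣ m := by exact_mod_cast h2
    exact Nat.le_of_dvd (Nat.pos_of_ne_zero hm0) h3
  have h1m : (1 : OO A B) ∉ idl (A := A) (B := B) m := by
    intro h
    obtain ⟨t, ht⟩ := Ideal.mem_span_singleton.1 h
    exact Pool.Agent.MUXI.Hit.not_unit m hf2 t ht
  have hx0m : x0 ∉ idl (A := A) (B := B) m := by
    intro h
    apply h1m
    have h2 := sub_mem h hx0'
    rwa [show x0 - (x0 - 1) = (1 : OO A B) by ring] at h2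
  have hx0M : x0 ∉ idl (A := A) (B := B) (m * p) := fun h => hx0m (hMm h)
  have h1M : (1 : OO A B) ∉ idl (A := A) (B := B) (m * p) := fun h => h1m (hMm h)
  have hcopM : ∀ x y : OO A B, IsCoprime x ((m * p : ℕ) : OO A B) →
      x * y ∈ idl (A := A) (B := B) (m * p) → y ∈ idl (A := A) (B := B) (m * p) := by
    intro x y hx hxy
    obtain ⟨t, ht⟩ := Ideal.mem_span_singleton.1 hxy
    exact Ideal.mem_span_singleton.2 (hx.symm.dvd_of_dvd_mul_left ⟨t, ht⟩)
  have hdd : ∀ c ∈ Tr, IsCoprime (x0 + c * (m : OO A B)) ((m * p : ℕ) : OO A B) ∧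
      x0 + c * (m : OO A B) - 1 ∈ idl (A := A) (B := B) m := fun c hc =>
    d6 m x0 hm.m0 hm.pm hx0 hx0' c (hTr.nz c hc)
  -- the automorphisms `γ c`
  have hγ : ∀ c : OO A B, ∃ g : GalF A B (m * p), c ∈ Tr →
      HitF R (m * p) _ g R.i0 (x0 + c * m) := by
    intro c
    by_cases hc : c ∈ Tr
    · obtain ⟨g, hg⟩ := f2 R.i0 (x0 + c * m) (hdd c hc).1
      exact ⟨g, fun _ => hg⟩
    · exact ⟨1, fun h1 => absurd h1 hc⟩
  choose γ hγ using hγ
  -- the automorphism `φ`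
  have hex : ∃ (b : Ideal (OO A B)) (L : PeriodPair) (om : ℂ), IsNL b L om :=
    ⟨_, _, _, R.nl R.i0⟩
  obtain ⟨-, i2, -, -, -, -, -, -⟩ := j_IAF A B hG.cq hT hex _ (hbot m hm0)
  obtain ⟨s₀, hs₀⟩ := i2 P hPb d51.symm
  obtain ⟨φ, hφ⟩ := Pool.Agent.MUXW.CXW.restr hT hMb hs₀.fix
  -- `θ''`
  obtain ⟨σ₁, hσ₁⟩ := f2 R.i0 1 isCoprime_one_left
  obtain ⟨hz'', -⟩ := f5 σ₁ R.i0 1 hσ₁ x0 hx0M a H H ha0 hH hH
  set θ'' : (RF (idl (m * p)) : IntermediateField (kk A B) ℂ) := ⟨_, hz''⟩ with hθ''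
  have hθ''c : (θ'' : ℂ) = ThetaH (R.L R.i0) H (Pool.Agent.MUX.pt R (m * p) R.i0 x0) := rfl
  have hne : ∀ x : OO A B, x ∉ idl (A := A) (B := B) (m * p) →
      ThetaH (R.L R.i0) H (Pool.Agent.MUX.pt R (m * p) R.i0 x) ≠ 0 := fun x hx =>
    theta_ne hG.cq R (m * p) hM0 hm.cop R.i0 a haM H hH x hx
  have hθ0 : θ ≠ 0 := by
    intro h
    apply hne 1 h1M
    rw [← hθ, h]
    rfl
  have hθ''0 : θ'' ≠ 0 := by
    intro h
    apply hne x0 hx0M
    rw [← hθ''c, h]
    rfl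
  -- the lattice `L'`
  obtain ⟨b', L', om', mu, hnl', hact⟩ := hs₀.act _ _ _ (R.nl R.i0)
  have hcj : IsCj s₀ (R.L R.i0) L' := cj s₀ (R.nl R.i0).nrm hnl'.nrm hact.kap.symm
  obtain ⟨H', hH'⟩ := b_HAL L' a (by exact_mod_cast ha0) (fun w hw => by
      have := nsmul_mem hw a
      rwa [nsmul_eq_mul] at this) (fun z h1 h2 => by
    obtain ⟨u, v, huv⟩ := Nat.isCoprime_iff_coprime.2 ha2
    have h3 : z = u * (a * z) + v * (2 * z) := by
      have h4 : ((u * (a : ℕ) + v * (2 : ℕ) : ℤ) : ℂ) = 1 := by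
        rw [huv]; norm_num
      push_cast at h4
      linear_combination -z * h4
    rw [h3]
    have h5 := zsmul_mem h1 u
    have h6 := zsmul_mem h2 v
    rw [zsmul_eq_mul] at h5 h6
    exact add_mem h5 h6)
  have hker := fun (T' : Finset (OO A B)) (h : RepI P T') =>
    hKRP p A B P V f hG ι R R.i0 L' mu hact.isq T' h
  obtain ⟨k1, k2, -, k4, k5⟩ := hker Tr hTr
  have hodd : Even (p ^ 2 - 1) := by
    rcases hG.pp.eq_two_or_odd' with h | h
    · omega
    · exact (Nat.even_sub (Nat.one_le_pow _ _ (by omega))).2 (by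
        simp [Nat.even_pow, Nat.not_even_iff_odd.2 h])
  obtain ⟨C, hC0, hC⟩ := t_DTP (R.L R.i0) L' mu hact.isq.1 k1 _ k4 (by rw [k5]; exact hodd) p hp0
    k2 a H H' ha0 hap hH hH'
  set κ : (RF (idl (m * p)) : IntermediateField (kk A B) ℂ) :=
    (∏ c ∈ Tr, γ c θ) * θ'' / φ θ'' with hκ
  have hφ0 : φ θ'' ≠ 0 := by
    intro h
    exact hθ''0 ((map_eq_zero φ).1 h)
  have hκ0 : κ ≠ 0 := by
    rw [hκ]
    refine div_ne_zero (mul_ne_zero (Finset.prod_ne_zero_iff.2 fun c _ => ?_) hθ''0) hφ0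
    intro h
    exact hθ0 ((map_eq_zero (γ c)).1 h)
  have hcopa : ∀ c ∈ Tr, x0 + c * m ∉ idl (A := A) (B := B) (m * p) := by
    intro c hc h
    obtain ⟨t, ht⟩ := Ideal.mem_span_singleton.1 h
    obtain ⟨u, v, huv⟩ := (hdd c hc).1
    refine Pool.Agent.MUXI.Hit.not_unit (A := A) (B := B) (m * p) hM2 (u * t + v) ?_
    rw [← huv, ht]
    ring
  -- the value of `σ κ`
  have key : ∀ σ : GalF A B (m * p), TrH σ →
      ((σ κ : (RF (idl (m * p)) : IntermediateField (kk A B) ℂ)) : ℂ) = C := by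
    intro σ hσ
    obtain ⟨i, b, hb⟩ := f1 σ
    have hi : i = R.i0 := by
      obtain ⟨hbc, s, hs, hsv, hh⟩ := hb
      have hkT : kap (R.L R.i0) ∈ (RF (⊤ : Ideal (OO A B)) : IntermediateField (kk A B) ℂ) :=
        IntermediateField.subset_adjoin _ _ ⟨_, _, _, R.nl R.i0, Or.inl rfl⟩
      have hkF : kap (R.L R.i0) ∈ (RF (idl (m * p)) : IntermediateField (kk A B) ℂ) :=
        hT.mono _ _ le_top hkT
      have h1 : s (kap (R.L R.i0)) = kap (R.L R.i0) := by
        have h2 := hsv ⟨_, hkF⟩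
        rw [hσ ⟨_, hkF⟩ hkT] at h2
        exact h2
      have h2 : kap (R.L i) = kap (R.L R.i0) := by rw [hh.1, h1]
      obtain ⟨h3, h4⟩ := cj (RingEquiv.refl ℂ) (R.nl R.i0).nrm (R.nl i).nrm h2.symm
      exact Pool.Agent.MUXY.y_UNJ A B hG.cq _ ι R i R.i0 h3 h4
    subst hi
    have hbc := hb.1
    have hbM : ∀ x : OO A B, x ∉ idl (A := A) (B := B) (m * p) →
        b * x ∉ idl (A := A) (B := B) (m * p) := fun x hx h => hx (hcopM b x hbc h)
    obtain ⟨hTb, hbinj⟩ : RepI P (Tr.image (fun c => b * c)) ∧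
        Set.InjOn (fun c => b * c) (Tr : Set (OO A B)) := by
      obtain ⟨u, v, huv⟩ := hbc
      refine rep_mul hPprime hTr b u (v * ((m * p : ℕ) : OO A B)) ?_ huv
      refine Ideal.mul_mem_left _ _ ?_
      rw [Nat.cast_mul]
      exact Ideal.mul_mem_left _ _ hpP
    obtain ⟨-, -, -, l4, l5⟩ := hker _ hTb
    set z := Pool.Agent.MUX.pt R (m * p) R.i0 (b * x0) with hz
    have hzL : z ∉ (R.L R.i0).lattice := fun h =>
      hbM x0 hx0M (Pool.Agent.MUXI.Hit.pt_mem hG.cq Pool.Agent.MUXF.xf_ALG R (m * p) hM0 R.i0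
        (hm.cop _) _ h)
    -- the values
    have v1 : ((σ θ'' : (RF (idl (m * p)) : IntermediateField (kk A B) ℂ)) : ℂ) =
        ThetaH (R.L R.i0) H z := by
      obtain ⟨h1, h2⟩ := f5 σ R.i0 b hb x0 hx0M a H H ha0 hH hH
      exact h2
    have v2 : ∀ c ∈ Tr,
        ((σ (γ c θ) : (RF (idl (m * p)) : IntermediateField (kk A B) ℂ)) : ℂ) =
          ThetaH (R.L R.i0) H (z + Pool.Agent.MUX.pt R p R.i0 (b * c)) := by
      intro c hc
      obtain ⟨h3, h4⟩ := f5 (γ c) R.i0 _ (hγ c hc) 1 h1M a H H ha0 hH hH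
      obtain ⟨h5, h6⟩ := f5 σ R.i0 b hb _ (hcopa c hc) a H H ha0 hH hH
      have h7 : γ c θ = ⟨_, h5⟩ := by
        apply Subtype.ext
        rw [show θ = ⟨_, h3⟩ from Subtype.ext hθ, h4, mul_one]
      rw [h7, h6]
      congr 1
      rw [hz]
      unfold Pool.Agent.MUX.pt
      rw [mul_add, hea, show b * (c * ((m : ℕ) : OO A B)) =
        ((m : ℕ) : OO A B) * (b * c) by ring, hem ((m : ℕ) : OO A B), heN]
      push_cast
      field_simp
    have hinj : Set.InjOn (Pool.Agent.MUX.pt R p R.i0)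
        ((Tr.image (fun c => b * c) : Finset (OO A B)) : Set (OO A B)) :=
      Finset.card_image_iff.1 (by rw [l5, d4 _ hTb])
    have v3 : ∏ c ∈ Tr,
        ((σ (γ c θ) : (RF (idl (m * p)) : IntermediateField (kk A B) ℂ)) : ℂ) =
        ∏ r ∈ Tr.image (Pool.Agent.MUX.pt R p R.i0), ThetaH (R.L R.i0) H (z + r) := by
      rw [← prod_rp l4 k4 (fun r => ThetaH (R.L R.i0) H (z + r)) (fun w v hv => by
        show ThetaH (R.L R.i0) H (z + (w + v)) = ThetaH (R.L R.i0) H (z + w)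
        rw [← add_assoc]
        exact (b_TIN (R.L R.i0) a H H hH hH).2.2 _ _ hv), Finset.prod_image hinj,
        Finset.prod_image hbinj]
      exact Finset.prod_congr rfl fun c hc => v2 c hc
    -- the action of `s₀`
    have hTor : Tor (idl (A := A) (B := B) m) (R.L R.i0) z := by
      intro y hy
      have h1 : y * x0 ∈ idl (A := A) (B := B) (m * p) := by
        rw [← hMprod]
        refine Ideal.mul_mem_mul hy ?_
        rw [← hG.eP]
        exact hx0
      obtain ⟨t, ht⟩ := Ideal.mem_span_singleton.1 h1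
      have hI := (R.nl R.i0).mem
      refine (hI _).2 ⟨((nI (R.b R.i0) : ℕ) : OO A B) * (b * t), by rw [R.b0]; trivial, ?_⟩
      rw [hz]
      unfold Pool.Agent.MUX.pt
      have h2 : emb y * emb (b * x0) = emb ((m * p : ℕ) : OO A B) * emb (b * t) := by
        rw [← hem, ← hem]
        congr 1
        linear_combination b * ht
      rw [heN] at h2
      rw [hem ((nI (R.b R.i0) : ℕ) : OO A B), heN]
      have hMC : ((m * p : ℕ) : ℂ) ≠ 0 := by exact_mod_cast hM0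
      rw [show emb y * (R.om R.i0 * (nI (R.b R.i0) : ℂ) * emb (b * x0) / ((m * p : ℕ) : ℂ)) =
        R.om R.i0 * (nI (R.b R.i0) : ℂ) * (emb y * emb (b * x0)) / ((m * p : ℕ) : ℂ) by ring, h2]
      field_simp
    obtain ⟨w1, w2, -⟩ : mu * z ∉ L'.lattice ∧ s₀ (xn (R.L R.i0) z) = xn L' (mu * z) ∧ True := by
      rcases hact.act z hTor with ⟨h1, -⟩ | ⟨-, h2, h3, -⟩
      · exact absurd h1 hzL
      · exact ⟨h2, h3, trivial⟩
    have v4 : s₀ (ThetaH (R.L R.i0) H z) = ThetaH L' H' (mu * z) :=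
      y_THC s₀ (R.L R.i0) L' hcj (a : ℤ) H H' (by exact_mod_cast ha0)
        (by rw [Int.cast_natCast]; exact hH) (by rw [Int.cast_natCast]; exact hH') z (mu * z) hzL w1
        (wp s₀ _ _ _ _ w2)
    have v5 : ((σ (φ θ'') : (RF (idl (m * p)) : IntermediateField (kk A B) ℂ)) : ℂ) =
        ThetaH L' H' (mu * z) := by
      have h1 : σ (φ θ'') = φ (σ θ'') := by
        have := hT.comm _ hMb σ φ
        exact congrArg (fun g : GalF A B (m * p) => g θ'') this
      rw [h1, hφ, v1, v4]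
    have v6 : ThetaH L' H' (mu * z) ≠ 0 := by
      rw [← v5]
      intro h
      have h2 : σ (φ θ'') = 0 := Subtype.ext h
      exact hφ0 ((map_eq_zero σ).1 h2)
    have v7 := hC z w1
    have hcoe : ((σ κ : (RF (idl (m * p)) : IntermediateField (kk A B) ℂ)) : ℂ) =
        (∏ c ∈ Tr,
          ((σ (γ c θ) : (RF (idl (m * p)) : IntermediateField (kk A B) ℂ)) : ℂ)) *
          ((σ θ'' : (RF (idl (m * p)) : IntermediateField (kk A B) ℂ)) : ℂ) /
          ((σ (φ θ'') : (RF (idl (m * p)) : IntermediateField (kk A B) ℂ)) : ℂ) := by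
      let ρ : (RF (idl (m * p)) : IntermediateField (kk A B) ℂ) →ₐ[kk A B] ℂ :=
        (RF (idl (m * p)) : IntermediateField (kk A B) ℂ).val.comp σ.toAlgHom
      show ρ κ = _
      rw [hκ, map_div₀, map_mul, map_prod]
      rfl
    rw [hcoe, v3, v1, v5, mul_comm, v7, mul_div_assoc, div_self v6, mul_one]
  have hκT := mem_top hT hMb κ (fun σ hσ => by
    apply Subtype.ext
    rw [key σ hσ, ← key 1 (fun x _ => rfl)]
    rfl)
  refine ⟨θ'', κ, γ, φ, s₀, rfl, hθ0, hθ''0, hκ0, hκT, fun c hc => hγ c hc, ?_, ?_,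
    hs₀, fun y => (hφ y).symm⟩
  · intro c hc y hy
    obtain ⟨hxc, s, hs, hsv, hh⟩ := hγ c hc
    have hIA := (j_HIT A B hG.cq hT _ ι R (m * p) hM2 hm.cop s hs R.i0 _ hxc).1 hh
    obtain ⟨-, -, -, -, -, -, j7, -⟩ := j_IAF A B hG.cq hT hex _ hMb
    obtain ⟨-, -, -, -, -, j6, -, -⟩ := j_IAF A B hG.cq hT hex _ (hbot m hm0)
    have h3 := j7 s _ (idl m) hMm hIA
    have h4 := (j6 s _ h3).2 ⟨x0 + c * m, (hdd c hc).2, by
      rw [R.b0]
      have : cjI (⊤ : Ideal (OO A B)) = ⊤ := Ideal.comap_top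
      rw [this, Ideal.mul_top]⟩ y hy
    apply Subtype.ext
    rw [← hsv, h4]
  · rw [hκ, div_mul_cancel₀ _ hφ0]

end

end Pool.Agent.TWI


end

section

/-!
# TWI, block B, XPCI (after helper33's `TWT/XPC.lean`): the conjugates of `∏ γ_c θ / θ''^(q-1)` to the first order
-/

set_option autoImplicit false

open Finset

namespace Pool.Agent.TWI

open _root_.MU3 Pool.Agent.MU3A Pool.Agent.MU3B Pool.Agent.MUX Pool.Agent.MUXU Pool.Agent.MUXW
open Pool.Agent.TWT
open Pool.Agent.MUXV (GR InK tX inK_nat)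

noncomputable section

namespace XPCI

open Pool.Agent.TWT.XPC

theorem three_le {p : ℕ} {A B : ℤ} {P : Ideal (OO A B)} {V : ValuationSubring ℂ} {f m : ℕ}
    (hS : SetI p A B P V f) (hm : m ≠ 0) (hfm : f ∣ m) : 3 ≤ m := by
  have h0 : 0 < absD A B := absD_pos hS.cq
  have h1 : (2 * absD A B) ∣ (m : ℤ) := hS.fD.trans (by exact_mod_cast hfm)
  have h2 : absD A B ≠ 1 := by
    intro h
    unfold absD at h
    have h3 : B * B + 4 * A = -1 := by linarith
    have h4 : B * B % 4 = 0 ∨ B * B % 4 = 1 := by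
      rcases Int.even_or_odd' B with ⟨k, hk | hk⟩ <;> subst hk <;> ring_nf <;> omega
    omega
  have h5 : 2 * absD A B ≤ m := Int.le_of_dvd (by exact_mod_cast Nat.pos_of_ne_zero hm) h1
  omega

/-- the points are not in the kernel of reduction -/
theorem not_inEn (hVPG : S_VPGI) {p : ℕ} {A B : ℤ} {P : Ideal (OO A B)} {V : ValuationSubring ℂ}
    {f : ℕ} (hS : SetI p A B P V f) {ι : Type} {R : Reps A B (p * f) ι} (hG : GRd V R) {m : ℕ}
    (hm : LvM p f m R) {i : ι} {y : OO A B} (hy : IsCoprime y ((m : ℕ) : OO A B)) {k : ℕ}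
    (hk : ¬ m ∣ k) : ¬ InEn V (R.L i) (k * pt R (m * p) i y) := by
  intro h
  have hcq := hS.cq
  obtain ⟨⟨W, ξ, hW⟩, hV⟩ := (hVPG p A B P V f hS).2.2.2.2.2.2 ι R hG i
  have h1 : InEn V (R.L i) ((p : ℕ) * (k * pt R (m * p) i y)) := inK_nat hW h p
  have hp0 : (p : ℂ) ≠ 0 := by exact_mod_cast hS.pp.ne_zero
  have hm0 : (m : ℂ) ≠ 0 := by exact_mod_cast hm.m0
  have h2 : ((p : ℕ) : ℂ) * (k * pt R (m * p) i y) = R.om i * nI (R.b i) * (k * emb y) / m := by
    unfold pt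
    push_cast
    field_simp
  rw [h2] at h1
  have hL := (R.nl i).toIsLI
  have h3 : (m : ℂ) * (R.om i * nI (R.b i) * (k * emb y) / m) ∈ (R.L i).lattice := by
    refine (hL.mem _).2 ⟨((nI (R.b i) : ℕ) : OO A B) * (((k : ℕ) : OO A B) * y),
      Ideal.mul_mem_right _ _ (nI_mem hcq hL.b_ne), ?_⟩
    rw [emb_mul hcq, emb_mul hcq, emb_natCast hcq, emb_natCast hcq]
    field_simp
  have h4 := hV m _ hm.pm h3 h1
  obtain ⟨b, _, hb⟩ := (hL.mem _).1 h4
  rw [div_eq_iff hm0, mul_assoc, mul_assoc] at hb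
  have h5 := mul_left_cancel₀ hL.om_ne hb
  have h6 : ((nI (R.b i) : ℕ) : OO A B) * (((k : ℕ) : OO A B) * y) = b * ((m : ℕ) : OO A B) := by
    apply emb_inj hcq
    rw [emb_mul hcq, emb_mul hcq, emb_natCast hcq, emb_natCast hcq, emb_mul hcq, emb_natCast hcq]
    exact h5
  have h7 : ((m : ℕ) : OO A B) ∣ ((nI (R.b i) : ℕ) : OO A B) * (((k : ℕ) : OO A B) * y) :=
    ⟨b, by rw [h6, mul_comm]⟩
  have h8 : IsCoprime ((m : ℕ) : OO A B) ((nI (R.b i) : ℕ) : OO A B) := by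
    have h9 : (nI (R.b i)).Coprime m := Nat.Coprime.coprime_mul_right_right (hm.cop i)
    have h10 := (Nat.isCoprime_iff_coprime.2 h9).symm
    have h11 := h10.map (Int.castRingHom (OO A B))
    simpa using h11
  have h12 := h8.dvd_of_dvd_mul_left h7
  have h13 : ((m : ℕ) : OO A B) ∣ ((k : ℕ) : OO A B) := hy.symm.dvd_of_dvd_mul_right h12
  exact hk (nat_idl (A := A) (B := B) (Ideal.mem_span_singleton.2 h13))

theorem x0_cop {A B : ℤ} {m : ℕ} {x0 : OO A B}
    (h2 : x0 - 1 ∈ (idl m : Ideal (OO A B))) : IsCoprime x0 ((m : ℕ) : OO A B) := by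
  obtain ⟨u, hu⟩ := Ideal.mem_span_singleton.1 h2
  refine ⟨1, -u, ?_⟩
  rw [one_mul, neg_mul, mul_comm u, ← hu, ← sub_eq_add_neg, sub_sub_cancel]

/-- the image of the quotient under an automorphism of a field `F` -/
theorem field_part {A B : ℤ} {F : IntermediateField (kk A B) ℂ} (σ : F ≃ₐ[kk A B] F)
    (γ : OO A B → (F ≃ₐ[kk A B] F)) (θ θ'' : F) (t : OO A B → ℂ) (D : ℂ) (T : Finset (OO A B))
    (e : ℕ) (h1 : ∀ c ∈ T, ((σ (γ c θ) : F) : ℂ) = t c) (h2 : ((σ θ'' : F) : ℂ) = D) :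
    ((σ ((∏ c ∈ T, γ c θ) / θ'' ^ e) : F) : ℂ) = (∏ c ∈ T, t c) / D ^ e := by
  have e0 : ((σ ((∏ c ∈ T, γ c θ) / θ'' ^ e) : F) : ℂ) =
      (F.val.comp σ.toAlgHom) ((∏ c ∈ T, γ c θ) / θ'' ^ e) := rfl
  rw [e0, map_div₀, map_prod, map_pow]
  congr 1
  · exact prod_congr rfl fun c hc => h1 c hc
  · rw [← h2]
    rfl

/-- the valuation of a root of unity -/
theorem val_root {V : ValuationSubring ℂ} {z : ℂ} {n : ℕ} (hn : n ≠ 0) (h : z ^ n = 1) :
    V.valuation z = 1 := by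
  have h1 : V.valuation z ^ n = 1 := by rw [← map_pow, h, map_one]
  rcases lt_trichotomy (V.valuation z) 1 with h2 | h2 | h2
  · exact absurd h1 (pow_lt_one' h2 hn).ne
  · exact h2
  · exact absurd h1 (one_lt_pow' h2 hn).ne'

/-- multiplication of the representatives by `x` -/
theorem rep_mul {A B : ℤ} {P : Ideal (OO A B)} [DecidableEq (OO A B)] (hPp : P.IsPrime)
    {T : Finset (OO A B)} (hT : RepI P T) {x u : OO A B} (hx : x ∉ P) (hu : x * u - 1 ∈ P) :
    RepI P (T.image (fun c => x * c)) := by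
  refine ⟨?_, ?_, ?_⟩
  · intro y hy
    obtain ⟨c, hc, rfl⟩ := mem_image.1 hy
    intro h
    rcases hPp.mem_or_mem h with h1 | h1
    · exact hx h1
    · exact hT.nz c hc h1
  · intro y hy y' hy' h
    obtain ⟨c, hc, rfl⟩ := mem_image.1 hy
    obtain ⟨c', hc', rfl⟩ := mem_image.1 hy'
    rw [← mul_sub] at h
    rcases hPp.mem_or_mem h with h1 | h1
    · exact absurd h1 hx
    · rw [hT.inj c hc c' hc' h1]
  · intro y hy
    have huP : u * y ∉ P := by
      intro h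
      have h2 : x * (u * y) ∈ P := P.mul_mem_left x h
      have h3 : (x * u - 1) * y ∈ P := P.mul_mem_right y hu
      have h4 : y = x * (u * y) - (x * u - 1) * y := by ring
      rw [h4] at hy
      exact hy (P.sub_mem h2 h3)
    obtain ⟨c, hc, hc1⟩ := hT.surj (u * y) huP
    refine ⟨x * c, mem_image.2 ⟨c, hc, rfl⟩, ?_⟩
    have h3 : (x * u - 1) * y ∈ P := P.mul_mem_right y hu
    have h4 : x * (u * y - c) ∈ P := P.mul_mem_left x hc1
    have h5 : y - x * c = x * (u * y - c) - (x * u - 1) * y := by ring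
    rw [h5]
    exact P.sub_mem h4 h3

end XPCI

open _root_.Pool.Agent.TWI.XPCI Pool.Agent.TWT.XPC in
/-- XPCI -/
theorem t_XPCI (hKEYI : S_KEYI) (hIDP : S_IDPI) (hVPG : S_VPGI) (hHTF : S_HTF) : S_XPCI := by
  classical
  intro p A B P V f hS hT ι _ R hG m hm x0 hx0 hx01 w hw T hTr
  have hcq := hS.cq
  have hp5 := hS.p5
  have hpp := hS.pp
  obtain ⟨t0, ht0, ht00, hK⟩ := hKEYI p A B P V f hS ι R hG
  obtain ⟨hI1, hI2, -, hI3, hI4, hI5, -⟩ := hIDP p A B P V f hS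
  have hm3 : 3 ≤ m := XPCI.three_le hS hm.m0 hm.fm
  have hM3 : 3 ≤ m * p := by nlinarith
  have hM1 : m * p ≠ 1 := by omega
  obtain ⟨-, -, -, -, hT5, -⟩ := hHTF A B hcq hT (p * f) ι R (m * p) hM3 hm.cop
  -- `w m`
  have hpP : ((p : ℕ) : OO A B) ∈ P := by
    rw [hS.eP]
    exact Ideal.mem_span_singleton_self _
  have hmP : ((m : ℕ) : OO A B) ∉ P := by
    intro h
    have h1 := (hI1 (m : ℤ)).1 (by rwa [Int.cast_natCast])
    exact hm.pm (by exact_mod_cast h1)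
  have hwm0 : w ((m : ℕ) : OO A B) ≠ 0 := fun h => hmP ((hw.zero _).1 h)
  have hq : p ^ 2 - 1 ≠ 0 := by
    have : 5 ^ 2 ≤ p ^ 2 := Nat.pow_le_pow_left hp5 2
    omega
  have hvwm : V.valuation (w ((m : ℕ) : OO A B)) = 1 := val_root hq (hw.root _ hmP)
  have hvt : V.valuation (t0 * (w ((m : ℕ) : OO A B))⁻¹) = V.valuation t0 := by
    rw [map_mul, map_inv₀, hvwm, inv_one, mul_one]
  refine ⟨t0 * (w ((m : ℕ) : OO A B))⁻¹, mul_ne_zero ht00 (inv_ne_zero hwm0), by rw [hvt, ht0], ?_⟩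
  intro a H ha hac hH θ θ'' hθ hθ'' γ hγ σ i x hσ
  have ha0 : a ≠ 0 := by omega
  have hac2 : a.Coprime 2 := by
    have h1 : a.Coprime (2 * (m * p)) := by rwa [← mul_assoc]
    exact Nat.Coprime.coprime_mul_right_right h1
  have hacm : a.Coprime m := by
    have h1 : a.Coprime (2 * m) := Nat.Coprime.coprime_mul_right_right hac
    exact Nat.Coprime.coprime_mul_left_right h1
  have hacp : a.Coprime (2 * p) := by
    have h1 : a.Coprime p := Nat.Coprime.coprime_mul_left_right hac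
    exact Nat.Coprime.mul_right hac2 h1
  obtain ⟨H', hH'⟩ := exists_half (R.L i) ha0 hac2
  have hx0c : IsCoprime x0 ((m : ℕ) : OO A B) := XPCI.x0_cop hx01
  have hxM : IsCoprime x ((m * p : ℕ) : OO A B) := hσ.1
  have hxx : IsCoprime (x * x0) ((m : ℕ) : OO A B) := xx_cop hxM hx0c
  have hx0n : x0 ∉ idl (A := A) (B := B) (m * p) := x0_nmem (by omega) hx0c
  -- the conjugates of the factors
  have hγθ : ∀ c ∈ T, ∃ hz : ThetaH (R.L R.i0) H (pt R (m * p) R.i0
      (x0 + c * m)) ∈ (RF (idl (m * p)) : IntermediateField (kk A B) ℂ),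
      γ c θ = ⟨_, hz⟩ := by
    intro c hc
    obtain ⟨hz, e⟩ := hT5 (γ c) R.i0 _ (hγ c hc) 1 (one_nmem hM1) a H H ha0 hH hH
    have e1 : θ = ⟨_, hz⟩ := Subtype.ext hθ
    rw [← e1, mul_one] at e
    exact ⟨e ▸ (γ c θ).2, Subtype.ext e⟩
  have hσγ : ∀ c ∈ T, ((σ (γ c θ) : (RF (idl (m * p)) :
      IntermediateField (kk A B) ℂ)) : ℂ) =
      ThetaH (R.L i) H' (pt R (m * p) i (x * (x0 + c * m))) := by
    intro c hc
    obtain ⟨hz, e⟩ := hγθ c hc
    obtain ⟨hz', e'⟩ := hT5 σ i x hσ (x0 + c * m)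
      (cop_nmem hM1 (hγ c hc).1) a H H' ha0 hH hH'
    rw [e]
    exact e'
  have hσθ : ((σ θ'' : (RF (idl (m * p)) : IntermediateField (kk A B) ℂ)) : ℂ) =
      ThetaH (R.L i) H' (pt R (m * p) i (x * x0)) := by
    obtain ⟨hz', e'⟩ := hT5 σ i x hσ x0 hx0n a H H' ha0 hH hH'
    have e1 : θ'' = ⟨_, hz'⟩ := Subtype.ext hθ''
    rw [e1]
    exact e'
  -- the points
  obtain ⟨z, hz⟩ : ∃ z, z = pt R (m * p) i (x * x0) := ⟨_, rfl⟩
  have hptc : ∀ c : OO A B, pt R (m * p) i (x * (x0 + c * m)) = z + pt R p i (x * c) := by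
    intro c
    have e : x * (x0 + c * m) = x * x0 + ((1 : ℕ) : OO A B) * m * (x * c) := by
      rw [Nat.cast_one]
      ring
    rw [e, pt_sum hcq R hm.m0, ← hz, Nat.cast_one, one_mul]
  -- `x` modulo `P`
  obtain ⟨u, hu⟩ : ∃ u, x * u - 1 ∈ P := by
    obtain ⟨u, v, huv⟩ := hxM
    refine ⟨u, ?_⟩
    have h1 : x * u - 1 = -(v * m) * p := by
      rw [← huv]
      push_cast
      ring
    rw [h1]
    exact P.mul_mem_left _ hpP
  have hxP : x ∉ P := by
    intro h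
    refine hS.hP.ne_top ((Ideal.eq_top_iff_one P).2 ?_)
    have h1 : x * u ∈ P := P.mul_mem_right u h
    have h2 : (1 : OO A B) = x * u - (x * u - 1) := by ring
    rw [h2]
    exact P.sub_mem h1 hu
  have hinj : ∀ c ∈ T, ∀ c' ∈ T, x * c = x * c' → c = c' := by
    intro c hc c' hc' h
    refine hTr.inj c hc c' hc' ?_
    have h1 : x * (c - c') ∈ P := by
      rw [mul_sub, h, sub_self]
      exact P.zero_mem
    exact (hS.hP.mem_or_mem h1).resolve_left hxP
  have hT' := rep_mul hS.hP hTr hxP hu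
  have hwx : ∀ c : OO A B, w (x * (x0 + c * m)) = w (x * c) * w ((m : ℕ) : OO A B) := by
    intro c
    rw [← hw.mul]
    refine hw.per _ _ ?_
    have e : x * (x0 + c * m) - x * c * m = x * x0 := by ring
    rw [e]
    exact P.mul_mem_left x hx0
  -- the points are not in the kernel of reduction
  have hn1 : ¬ m ∣ 1 := fun h => by
    have := Nat.le_of_dvd one_pos h
    omega
  have hn2 : ¬ m ∣ 2 := fun h => by
    have := Nat.le_of_dvd two_pos h
    omega
  have hna : ¬ m ∣ a := fun h => by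
    have h1 : m ∣ 1 := by
      rw [← (Nat.coprime_iff_gcd_eq_one.1 hacm)]
      exact Nat.dvd_gcd h (dvd_refl m)
    exact hn1 h1
  have hE1 : ¬ InEn V (R.L i) z := by
    have h := XPCI.not_inEn hVPG hS hG hm (i := i) hxx hn1
    rwa [Nat.cast_one, one_mul, ← hz] at h
  have hE2 : ¬ InEn V (R.L i) (2 * z) := by
    have h := XPCI.not_inEn hVPG hS hG hm (i := i) hxx hn2
    rw [← hz] at h
    exact_mod_cast h
  have hEa : ¬ InEn V (R.L i) (a * z) := by
    have h := XPCI.not_inEn hVPG hS hG hm (i := i) hxx hna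
    rwa [← hz] at h
  obtain ⟨hK1, hK2, hK3⟩ := hK w hw _ hT' i a H' ha hacp hH' z hE1 hE2 hEa
  rw [prod_image hinj, sum_image hinj] at hK2
  rw [sum_image hinj] at hK3
  have hsum : ∑ c ∈ T, w (x * (x0 + c * m)) * dlX (R.L i) a (pt R (m * p) i (x * (x0 + c * m))) =
      w ((m : ℕ) : OO A B) * ∑ c ∈ T, w (x * c) * dlX (R.L i) a (z + pt R p i (x * c)) := by
    rw [mul_sum]
    refine sum_congr rfl fun c _ => ?_
    rw [hptc, hwx]
    ring
  rw [hsum]
  constructor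
  · rw [field_part σ γ θ θ'' (fun c => ThetaH (R.L i) H' (z + pt R p i (x * c)))
      (ThetaH (R.L i) H' z) T (p ^ 2 - 1) (fun c hc => by rw [hσγ c hc, hptc])
      (by rw [hσθ, ← hz])]
    have hD : V.valuation (ThetaH (R.L i) H' z ^ (p ^ 2 - 1)) = 1 := by
      have h := (hK1 0).1
      have h0 : pt R p i (0 : OO A B) = 0 := by
        unfold pt
        rw [emb_zero hcq]
        simp
      rw [h0, add_zero] at h
      rw [map_pow, h, one_pow]
    rw [hvt]
    have e : muX R i * (t0 * (w ((m : ℕ) : OO A B))⁻¹) *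
        (w ((m : ℕ) : OO A B) * ∑ c ∈ T, w (x * c) * dlX (R.L i) a (z + pt R p i (x * c))) =
        muX R i * t0 * ∑ c ∈ T, w (x * c) * dlX (R.L i) a (z + pt R p i (x * c)) := by
      field_simp
    rw [e]
    exact val_div hD hK2
  · rw [hvt, map_mul, hvwm, one_mul]
    exact hK3

end

end Pool.Agent.TWI


end

section

/-!
# TWI, block B complete (helper59): `S_CRITI`, without hypotheses
-/

set_option autoImplicit false

namespace Pool.Agent.TWI

open Pool.Agent.TWT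

theorem t_CRITI (hKEYI : S_KEYI) : S_CRITI :=
  CRITI.main t_IDPI t_VPGI (t_UNRGI t_VPGI (t_RAMGI t_VPGI)) (t_MUGI t_VPGI) t_KUM
    t_PROG t_RSF t_EAB t_EABE t_NMF t_HTF (t_NRRI t_IDPI (t_KRPI t_IDPI))
    (t_XPCI hKEYI t_IDPI t_VPGI t_HTF)
    (t_SIGI t_IDPI t_VPGI t_CNTI)
    (t_SDEI t_IDPI) t_PHII

theorem a_CRITI : S_CRITI := t_CRITI a_KEYI

end Pool.Agent.TWI


end
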